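import Pool.Agent.Lib.MP_6947cd_al.L.TeX24P
import Pool.Agent.Lib.MP_6947cd_al.L.CellSplit

/-!
Problem MP_6947cd_al (Chollet).  CASE B, rows `j`: boxes (generated).
-/

set_option autoImplicit false
set_option linter.defProp false
set_option maxRecDepth 20000

namespace Pool.Agent.Lib.MP_6947cd_al
namespace CB

open Ent Ent.Pk Fr Fr.WT CA

def v13_22_1_s0 : ivS (selI (nat_lit 0) (nat_lit 0)) P13_22 s13_22 w13_22 n13_22 (nat_lit 3) (nat_lit 4820) (nat_lit 1) (nat_lit 400) f192_0_400 f200_0_400 (nat_lit 2) (nat_lit 601) f192_0_601 f200_0_601 (nat_lit 11776556) (nat_lit 8627501) p13_22_1 = true := by decide +kernel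

def v13_22_1_s1 : ivS (selI (nat_lit 1) (nat_lit 1)) P13_22 s13_22 w13_22 n13_22 (nat_lit 3) (nat_lit 4820) (nat_lit 1) (nat_lit 400) f192_0_400 f200_0_400 (nat_lit 2) (nat_lit 601) f192_0_601 f200_0_601 (nat_lit 11776556) (nat_lit 8627501) p13_22_1 = true := by decide +kernel

def v13_22_1_s2 : ivS (selG (nat_lit 2)) P13_22 s13_22 w13_22 n13_22 (nat_lit 3) (nat_lit 4820) (nat_lit 1) (nat_lit 400) f192_0_400 f200_0_400 (nat_lit 2) (nat_lit 601) f192_0_601 f200_0_601 (nat_lit 11776556) (nat_lit 8627501) p13_22_1 = true := by decide +kernel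

end CB
end Pool.Agent.Lib.MP_6947cd_al
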