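import Pool.Agent.Lib.MP_6947cd_al.L.TeX55P
import Pool.Agent.Lib.MP_6947cd_al.L.CellSplit

/-!
Problem MP_6947cd_al (Chollet).  CASE B, rows `j`: boxes (generated).
-/

set_option autoImplicit false
set_option linter.defProp false
set_option maxRecDepth 20000

namespace Pool.Agent.Lib.MP_6947cd_al
namespace CB

open Ent Ent.Pk Fr Fr.WT CA

def v15_31_1_s0 : ivS (selI (nat_lit 0) (nat_lit 0)) P15_31 s15_31 w15_31 n15_31 (nat_lit 4) (nat_lit 4930) (nat_lit 1) (nat_lit 400) f168_1_400 f176_1_400 (nat_lit 2) (nat_lit 600) f168_1_600 f176_1_600 (nat_lit 10729447) (nat_lit 6931473) p15_31_1 = true := by decide +kernel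

def v15_31_1_s1 : ivS (selI (nat_lit 1) (nat_lit 1)) P15_31 s15_31 w15_31 n15_31 (nat_lit 4) (nat_lit 4930) (nat_lit 1) (nat_lit 400) f168_1_400 f176_1_400 (nat_lit 2) (nat_lit 600) f168_1_600 f176_1_600 (nat_lit 10729447) (nat_lit 6931473) p15_31_1 = true := by decide +kernel

def v15_31_1_s2 : ivS (selG (nat_lit 2)) P15_31 s15_31 w15_31 n15_31 (nat_lit 4) (nat_lit 4930) (nat_lit 1) (nat_lit 400) f168_1_400 f176_1_400 (nat_lit 2) (nat_lit 600) f168_1_600 f176_1_600 (nat_lit 10729447) (nat_lit 6931473) p15_31_1 = true := by decide +kernel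

end CB
end Pool.Agent.Lib.MP_6947cd_al
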