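import Pool.Agent.Lib.MP_6947cd_al.L.PairSplit

/-!
Problem MP_6947cd_al (Chollet).  Library of pair functions: certificates of the pieces (generated).
-/

set_option autoImplicit false
set_option linter.defProp false
set_option maxRecDepth 100000

namespace Pool.Agent.Lib.MP_6947cd_al
namespace CB

open CA

def qL180_40_0_0 : PCt := .one ⟨2008000, 251, 502000, 383528, 0, 0, 0, 200000, 0, 50000⟩ ⟨12500, .aff
 1414214 707107, .pol, .pol, .pol, .sx 106250 (.sx 59375 (.sx 35937 (.sy 25000 (.aff 13000 1214962 801811)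
 (.aff 75000 1257521 680407)) (.aff 250000 543216 1035500)) (.aff 1000000 0 0)) (.aff 1000000 0 0), .sy
 31250 (.aff 13000 1470443 662501) (.aff 125000 1577429 485363), .pol, .sx 106250 .pol .pol, .pol⟩

def hL180_40_0_0 : pcchk ⟨(nat_lit 3), (nat_lit 1000), Int.ofNat (nat_lit 250), 0, ⟨0, 1⟩, ⟨Int.ofNat
 (nat_lit 40), 200⟩⟩ ⟨900000, 950000, 961681, 948772, 974768, 269917, 320201, 227580, 316227, 223606⟩ true 0
 0 (nat_lit 50) (Int.ofNat (nat_lit 955)) qL180_40_0_0 = true := by decide +kernel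

def qL180_40_0_1 : PCt := .one ⟨2008000, 251, 502000, 259835, 6184, 0, 0, 200000, 50000, 100000⟩ ⟨0, .pol,
 .pol, .pol, .pol, .sx 100000 (.sy 75000 (.aff 625000 1652545 85097) (.sx 50000 (.sx 25000 (.aff 750000
 1704437 36669) (.aff 1000000 0 0)) (.aff 1000000 0 0))) (.aff 1000000 0 0), .pol, .pol, .sy 75000 (.sy
 62500 (.sy 56250 (.sy 53125 (.sx 100000 (.sx 50000 .pol .pol) .pol) (.sx 100000 (.sx 50000 .pol .pol)
 .pol)) (.sy 59375 (.sx 100000 (.sx 50000 .pol .pol) .pol) (.sx 100000 (.sx 50000 .pol .pol) .pol))) (.sy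
 68750 (.sy 65625 (.sx 100000 (.sx 50000 .pol .pol) .pol) (.sx 100000 (.sx 50000 .pol .pol) .pol)) (.sy
 71875 (.sx 100000 (.sx 50000 .pol .pol) .pol) (.sx 100000 (.sx 50000 .pol .pol) .pol)))) (.sy 87500 (.sy
 81250 (.sy 78125 (.sx 100000 (.sx 50000 .pol .pol) .pol) (.sx 100000 (.sx 50000 .pol .pol) .pol)) (.sy
 84375 (.sx 100000 (.sx 50000 .pol .pol) .pol) (.sx 100000 (.sx 50000 .pol .pol) .pol))) (.sy 93750 (.sy
 90625 (.sx 100000 (.sx 50000 .pol .pol) .pol) (.sx 100000 (.sx 50000 .pol .pol) .pol)) (.sy 96875 (.sx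
 100000 (.sx 50000 .pol .pol) .pol) (.sx 100000 (.sx 50000 .pol .pol) .pol)))), .pol⟩

def hL180_40_0_1 : pcchk ⟨(nat_lit 3), (nat_lit 1000), Int.ofNat (nat_lit 250), 0, ⟨0, 1⟩, ⟨Int.ofNat
 (nat_lit 40), 200⟩⟩ ⟨900000, 950000, 961681, 948772, 974768, 269917, 320201, 227580, 316227, 223606⟩ false
 (nat_lit 50) (Int.ofNat (nat_lit 955)) (nat_lit 100) (Int.ofNat (nat_lit 1602)) qL180_40_0_1 = true := by
 decide +kernel

def qL180_40_0_2 : PCt := .one ⟨2008000, 251, 502000, 207225, 11445, 0, 0, 200000, 100000, 150000⟩ ⟨0, .pol,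
 .pol, .pol, .pol, .sx 100000 (.sx 50000 (.aff 1325000 2404550 43928) (.aff 1000000 0 0)) (.aff 1000000 0
 0), .pol, .pol, .sx 100000 .pol .pol, .pol⟩

def hL180_40_0_2 : pcchk ⟨(nat_lit 3), (nat_lit 1000), Int.ofNat (nat_lit 250), 0, ⟨0, 1⟩, ⟨Int.ofNat
 (nat_lit 40), 200⟩⟩ ⟨900000, 950000, 961681, 948772, 974768, 269917, 320201, 227580, 316227, 223606⟩ false
 (nat_lit 100) (Int.ofNat (nat_lit 1602)) (nat_lit 150) (Int.ofNat (nat_lit 2118)) qL180_40_0_2 = true := by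
 decide +kernel

def qL180_40_0_3 : PCt := .one ⟨2008000, 251, 502000, 184334, 14879, 0, 0, 200000, 150000, 200000⟩ ⟨0, .pol,
 .pol, .pol, .pol, .sx 100000 (.sy 175000 (.sx 50000 (.sy 162500 (.aff 1650000 2806903 150522) (.sy 168750
 (.aff 1638000 2836531 143501) (.sy 171875 (.aff 1631000 2844832 139960) (.sx 25000 (.sx 12500 (.aff 2000000
 4301163 232496) (.aff 1000000 0 0)) (.aff 1000000 0 0))))) (.aff 1000000 0 0)) (.sy 187500 (.sy 181250 (.sy
 178125 (.sx 50000 (.sx 25000 (.sx 12500 (.aff 2000000 4339739 230429) (.aff 1000000 0 0)) (.aff 1000000 0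
 0)) (.aff 1000000 0 0)) (.sx 50000 (.sx 25000 (.sx 12500 (.aff 2000000 4377976 228417) (.aff 1500000
 1695583 147442)) (.aff 1000000 0 0)) (.aff 1000000 0 0))) (.sx 50000 (.sx 25000 (.aff 2100000 3449397
 350786) (.aff 1000000 0 0)) (.aff 1000000 0 0))) (.sx 50000 (.sx 25000 (.aff 2000000 3214551 311086) (.aff
 1000000 0 0)) (.aff 1000000 0 0)))) (.aff 1000000 0 0), .pol, .pol, .sy 175000 (.sx 100000 .pol .pol) (.sy
 187500 (.sx 100000 .pol .pol) (.sy 193750 (.sx 100000 .pol .pol) (.sx 100000 .pol (.sx 150000 .pol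
 .pol)))), .pol⟩

def hL180_40_0_3 : pcchk ⟨(nat_lit 3), (nat_lit 1000), Int.ofNat (nat_lit 250), 0, ⟨0, 1⟩, ⟨Int.ofNat
 (nat_lit 40), 200⟩⟩ ⟨900000, 950000, 961681, 948772, 974768, 269917, 320201, 227580, 316227, 223606⟩ false
 (nat_lit 150) (Int.ofNat (nat_lit 2118)) (nat_lit 200) (Int.ofNat (nat_lit 2577)) qL180_40_0_3 = true := by
 decide +kernel

def qL180_40_0_4 : PCt := .one ⟨2008000, 251, 502000, 171483, 17449, 0, 0, 200000, 200000, 250000⟩ ⟨0, .pol,
 .pol, .pol, .pol, .sy 225000 (.sy 212500 (.sx 100000 (.sx 50000 (.aff 2188000 3412271 413609) (.aff 1000000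
 0 0)) (.aff 1000000 0 0)) (.sx 100000 (.sy 218750 (.sx 50000 (.aff 2150000 3377361 391578) (.aff 1000000 0
 0)) (.sx 50000 (.sx 25000 (.aff 3000000 6879923 581402) (.aff 2100000 2931041 412823)) (.aff 1000000 0 0)))
 (.aff 1000000 0 0))) (.sy 237500 (.sx 100000 (.sy 231250 (.sy 228125 (.sx 50000 (.sx 25000 (.aff 3000000
 6952218 575356) (.aff 2100000 2961841 408530)) (.aff 1000000 0 0)) (.sx 50000 (.sx 25000 (.aff 3000000
 7000000 571429) (.aff 2200000 3253307 442627)) (.aff 1000000 0 0))) (.sy 234375 (.sx 50000 (.sx 25000 (.aff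
 3000000 7047459 567581) (.aff 2200000 3275363 439646)) (.aff 1000000 0 0)) (.sx 50000 (.sx 25000 (.aff
 3000000 7094599 563810) (.aff 2200000 3297272 436725)) (.aff 1000000 0 0)))) (.aff 1000000 0 0)) (.sx
 100000 (.sy 243750 (.sy 240625 (.sx 50000 (.sx 25000 (.aff 3000000 7141429 560112) (.aff 2200000 3319037
 433861)) (.aff 1000000 0 0)) (.sx 50000 (.sx 25000 (.aff 3000000 7187953 556487) (.aff 2200000 3340659
 431053)) (.aff 1000000 0 0))) (.sy 246875 (.sx 50000 (.sx 25000 (.aff 3000000 8860023 451467) (.aff 2200000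
 3362143 428299)) (.aff 1000000 0 0)) (.sx 50000 (.sx 25000 (.aff 3000000 8916278 448618) (.aff 2702000
 3889919 744696)) (.aff 1000000 0 0)))) (.aff 1000000 0 0))), .pol, .pol, .pol, .pol⟩

def hL180_40_0_4 : pcchk ⟨(nat_lit 3), (nat_lit 1000), Int.ofNat (nat_lit 250), 0, ⟨0, 1⟩, ⟨Int.ofNat
 (nat_lit 40), 200⟩⟩ ⟨900000, 950000, 961681, 948772, 974768, 269917, 320201, 227580, 316227, 223606⟩ false
 (nat_lit 200) (Int.ofNat (nat_lit 2577)) (nat_lit 250) (Int.ofNat (nat_lit 3004)) qL180_40_0_4 = true := by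
 decide +kernel

def qL180_40_0_5 : PCt := .one ⟨2008000, 251, 502000, 167868, 18353, 0, 0, 200000, 250000, 300000⟩ ⟨0, .pol,
 .pol, .pol, .pol, .sy 275000 (.sy 262500 (.sy 256250 (.sx 100000 (.sy 253125 (.sx 50000 (.sx 25000 (.aff
 3000000 8972180 445823) (.aff 2738000 3947448 765215)) (.aff 1000000 0 0)) (.sx 50000 (.sx 25000 (.aff
 3000000 9027736 443079) (.aff 2700000 3836788 753235)) (.aff 1000000 0 0))) (.aff 1000000 0 0)) (.sx 100000
 (.sx 50000 (.aff 2800000 4099696 790303) (.aff 1000000 0 0)) (.aff 1000000 0 0))) (.sy 268750 (.sx 100000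
 (.sx 50000 (.aff 3000000 4609773 867722) (.aff 1000000 0 0)) (.aff 1000000 0 0)) (.sx 100000 (.sx 50000
 (.aff 3000000 4663690 857690) (.aff 2100000 2802182 431807)) (.aff 1000000 0 0)))) (.sy 287500 (.sy 281250
 (.sx 100000 (.sx 50000 (.aff 3000000 4716991 847999) (.aff 2250000 2914201 536168)) (.aff 1000000 0 0))
 (.sx 100000 (.sx 50000 (.aff 3000000 4769697 838628) (.sx 75000 (.sx 62500 (.aff 3000000 4266146 937615)
 (.aff 1000000 0 0)) (.aff 1000000 0 0))) (.aff 1000000 0 0))) (.sy 293750 (.sx 100000 (.sx 50000 (.aff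
 3000000 5567765 718422) (.sx 75000 (.aff 2900000 3906464 924110) (.aff 1000000 0 0))) (.aff 1000000 0 0))
 (.sx 100000 (.sx 50000 (.aff 3000000 5627315 710819) (.sx 75000 (.aff 2900000 3948245 914331) (.aff 1000000
 0 0))) (.aff 1000000 0 0)))), .pol, .pol, .pol, .pol⟩

def hL180_40_0_5 : pcchk ⟨(nat_lit 3), (nat_lit 1000), Int.ofNat (nat_lit 250), 0, ⟨0, 1⟩, ⟨Int.ofNat
 (nat_lit 40), 200⟩⟩ ⟨900000, 950000, 961681, 948772, 974768, 269917, 320201, 227580, 316227, 223606⟩ false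
 (nat_lit 250) (Int.ofNat (nat_lit 3004)) (nat_lit 300) (Int.ofNat (nat_lit 3422)) qL180_40_0_5 = true := by
 decide +kernel

def qL180_40_0_6 : PCt := .one ⟨2008000, 251, 502000, 169073, 17991, 0, 0, 200000, 300000, 350000⟩ ⟨0, .pol,
 .pol, .pol, .pol, .sx 100000 (.sx 50000 (.aff 3000000 5887841 679367) (.sy 325000 (.aff 2875000 3827328
 918559) (.aff 3050000 4026121 1043809))) (.aff 1000000 0 0), .pol, .pol, .pol, .pol⟩

def hL180_40_0_6 : pcchk ⟨(nat_lit 3), (nat_lit 1000), Int.ofNat (nat_lit 250), 0, ⟨0, 1⟩, ⟨Int.ofNat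
 (nat_lit 40), 200⟩⟩ ⟨900000, 950000, 961681, 948772, 974768, 269917, 320201, 227580, 316227, 223606⟩ false
 (nat_lit 300) (Int.ofNat (nat_lit 3422)) (nat_lit 350) (Int.ofNat (nat_lit 3843)) qL180_40_0_6 = true := by
 decide +kernel

def qL180_40_0_7 : PCt := .one ⟨2008000, 251, 502000, 179113, 14477, 0, 0, 200000, 350000, 400000⟩ ⟨0, .pol,
 .pol, .pol, .pol, .sy 375000 (.sy 362500 (.sx 100000 (.sx 50000 (.aff 3000000 6164415 648886) (.aff 3000000
 4035557 991190)) (.aff 1000000 0 0)) (.sy 368750 (.sx 100000 (.aff 5000000 7648530 2091906) (.sx 150000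
 (.aff 3000000 3605552 1109401) (.aff 1000000 0 0))) (.sx 100000 (.aff 5000000 7713625 2074252) (.sx 150000
 (.aff 3000000 3636238 1100039) (.aff 1000000 0 0))))) (.sy 387500 (.sy 381250 (.sx 100000 (.aff 5000000
 8981463 1781447) (.sx 150000 (.aff 3000000 3666667 1090909) (.aff 1000000 0 0))) (.sx 100000 (.aff 5000000
 9055386 1766905) (.sx 150000 (.aff 3000000 3696846 1082004) (.aff 1000000 0 0)))) (.sy 393750 (.sy 390625
 (.sx 100000 (.aff 5000000 9110434 1756229) (.sx 150000 (.aff 3000000 3719319 1075466) (.aff 1000000 0 0)))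
 (.sx 100000 (.aff 5000000 9146949 1749218) (.sx 150000 (.aff 3000000 3734227 1071173) (.aff 1000000 0 0))))
 (.sy 396875 (.sx 100000 (.aff 5000000 9183319 1742290) (.sx 150000 (.aff 3000000 3749074 1066931) (.aff
 1000000 0 0))) (.sx 100000 (.aff 5000000 9219545 1735444) (.sx 150000 (.aff 3000000 3763864 1062738) (.aff
 1000000 0 0)))))), .pol, .pol, .pol, .pol⟩

def hL180_40_0_7 : pcchk ⟨(nat_lit 3), (nat_lit 1000), Int.ofNat (nat_lit 250), 0, ⟨0, 1⟩, ⟨Int.ofNat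
 (nat_lit 40), 200⟩⟩ ⟨900000, 950000, 961681, 948772, 974768, 269917, 320201, 227580, 316227, 223606⟩ false
 (nat_lit 350) (Int.ofNat (nat_lit 3843)) (nat_lit 400) (Int.ofNat (nat_lit 4289)) qL180_40_0_7 = true := by
 decide +kernel

def qL180_40_0_8 : PCt := .one ⟨2008000, 251, 502000, 182326, 13192, 0, 0, 200000, 400000, 450000⟩ ⟨0, .pol,
 .pol, .pol, .pol, .sy 425000 (.sy 412500 (.sy 406250 (.sy 403125 (.sy 401562 (.sx 100000 (.aff 5000000
 9246619 1730363) (.sx 150000 (.aff 2900000 3586171 1006645) (.aff 1000000 0 0))) (.sx 100000 (.aff 5000000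
 9264626 1727000) (.sx 150000 (.aff 2900000 3593155 1004689) (.aff 1000000 0 0)))) (.sx 100000 (.aff 5000000
 9291574 1721991) (.sx 150000 (.aff 3100000 3778542 1167117) (.aff 1000000 0 0)))) (.sy 409375 (.sy 407812
 (.sy 407031 (.sx 100000 (.aff 3000000 4033066 991802) (.sx 150000 (.aff 3100000 3787648 1164311) (.aff
 1000000 0 0))) (.sx 100000 (.aff 3000000 4036937 990851) (.sx 150000 (.aff 3100000 3791284 1163195) (.aff
 1000000 0 0)))) (.sx 100000 (.aff 3000000 4042740 989428) (.sx 150000 (.aff 3100000 3796733 1161525) (.aff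
 1000000 0 0)))) (.sy 410937 (.sx 100000 (.aff 3000000 4050462 987542) (.sx 150000 (.aff 3100000 3803986
 1159311) (.aff 1000000 0 0))) (.sy 411718 (.sx 100000 (.aff 3000000 4056243 986135) (.sx 150000 (.aff
 3100000 3809414 1157659) (.aff 1000000 0 0))) (.sx 100000 (.aff 3000000 4060094 985199) (.sx 150000 (.aff
 3100000 3813032 1156560) (.aff 1000000 0 0))))))) (.sy 418750 (.sy 415625 (.sy 414062 (.sy 413281 (.sx
 100000 (.aff 3000000 4063942 984267) (.sx 150000 (.aff 3100000 3816645 1155466) (.aff 1000000 0 0))) (.sx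
 100000 (.aff 3000000 4067784 983337) (.sx 150000 (.aff 3100000 3820253 1154374) (.aff 1000000 0 0)))) (.sx
 100000 (.aff 3000000 4073542 981947) (.sx 150000 (.aff 3100000 3825661 1152742) (.aff 1000000 0 0)))) (.sy
 417187 (.sy 416406 (.sy 416015 (.sx 100000 (.aff 3000000 4078333 980793) (.sx 150000 (.aff 3100000 3830161
 1151388) (.aff 1000000 0 0))) (.sx 100000 (.aff 3000000 4080248 980333) (.sx 150000 (.aff 3100000 3831959
 1150848) (.aff 1000000 0 0)))) (.sy 416796 (.sx 100000 (.aff 3000000 4082162 979873) (.sx 150000 (.aff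
 3100000 3833756 1150308) (.aff 1000000 0 0))) (.sx 100000 (.aff 3000000 4084074 979415) (.sx 150000 (.aff
 3100000 3835553 1149770) (.aff 1000000 0 0))))) (.sx 100000 (.aff 3000000 4088856 978269) (.sx 150000 (.aff
 3000000 3657184 1093738) (.aff 1000000 0 0))))) (.sy 421875 (.sy 420312 (.sy 419531 (.sy 419140 (.sy 418945
 (.sx 100000 (.aff 3000000 4093153 977242) (.sx 150000 (.aff 3000000 3661028 1092590) (.aff 1000000 0 0)))
 (.sx 100000 (.aff 3000000 4094106 977015) (.sx 150000 (.aff 3000000 3661880 1092336) (.aff 1000000 0 0))))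
 (.sx 100000 (.aff 3000000 4095537 976673) (.sx 150000 (.aff 3000000 3663160 1091954) (.aff 1000000 0 0))))
 (.sx 100000 (.aff 3000000 4098398 975992) (.sx 150000 (.aff 3000000 3665718 1091192) (.aff 1000000 0 0))))
 (.sy 421093 (.sx 100000 (.aff 3000000 4102207 975085) (.sx 150000 (.aff 3000000 3669126 1090178) (.aff
 1000000 0 0))) (.sy 421484 (.sy 421288 (.sx 100000 (.aff 3000000 4104586 974520) (.sx 150000 (.aff 3000000
 3671253 1089547) (.aff 1000000 0 0))) (.sy 421386 (.sx 100000 (.aff 3000000 4105300 974351) (.sx 150000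
 (.aff 3000000 3671892 1089357) (.aff 1000000 0 0))) (.sx 100000 (.aff 3000000 4105777 974238) (.sx 150000
 (.aff 3000000 3672319 1089230) (.aff 1000000 0 0))))) (.sx 100000 (.aff 3000000 4106968 973955) (.sx 150000
 (.aff 3000000 3673384 1088915) (.aff 1000000 0 0)))))) (.sy 423437 (.sy 422656 (.sy 422265 (.sy 422070 (.sx
 100000 (.aff 3000000 4108394 973617) (.sx 150000 (.aff 3000000 3674660 1088537) (.aff 1000000 0 0))) (.sy
 422167 (.sy 422118 (.sx 100000 (.aff 3000000 4108986 973477) (.sx 150000 (.aff 3000000 3675189 1088380)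
 (.aff 1000000 0 0))) (.sx 100000 (.aff 3000000 4109222 973421) (.sx 150000 (.aff 3000000 3675400 1088317)
 (.aff 1000000 0 0)))) (.sx 100000 (.aff 3000000 4109580 973336) (.sx 150000 (.aff 3000000 3675720 1088223)
 (.aff 1000000 0 0))))) (.sx 100000 (.aff 3000000 4110769 973054) (.sx 150000 (.aff 3000000 3676784 1087908)
 (.aff 1000000 0 0)))) (.sy 423046 (.sy 422851 (.sx 100000 (.aff 3000000 4112195 972717) (.sx 150000 (.aff
 3000000 3678059 1087531) (.aff 1000000 0 0))) (.sx 100000 (.aff 3000000 4113143 972493) (.sx 150000 (.aff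
 3000000 3678907 1087280) (.aff 1000000 0 0)))) (.sx 100000 (.aff 3000000 4114567 972156) (.sx 150000 (.aff
 3000000 3680181 1086904) (.aff 1000000 0 0))))) (.sy 424218 (.sy 423827 (.sy 423632 (.sx 100000 (.aff
 3000000 4115991 971820) (.sx 150000 (.aff 3000000 3681455 1086527) (.aff 1000000 0 0))) (.sx 100000 (.aff
 3000000 4116939 971596) (.sx 150000 (.aff 3000000 3682302 1086278) (.aff 1000000 0 0)))) (.sx 100000 (.aff
 3000000 4118362 971260) (.sx 150000 (.aff 3000000 3683575 1085902) (.aff 1000000 0 0)))) (.sx 100000 (.aff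
 3000000 4121209 970589) (.sx 150000 (.aff 3000000 3686121 1085152) (.aff 1000000 0 0)))))))) (.sx 100000
 (.aff 3000000 4183301 956183) (.sx 150000 (.aff 3100000 3831740 1150914) (.aff 3000000 3281651 1218899))),
 .pol, .pol, .pol, .pol⟩

def hL180_40_0_8 : pcchk ⟨(nat_lit 3), (nat_lit 1000), Int.ofNat (nat_lit 250), 0, ⟨0, 1⟩, ⟨Int.ofNat
 (nat_lit 40), 200⟩⟩ ⟨900000, 950000, 961681, 948772, 974768, 269917, 320201, 227580, 316227, 223606⟩ false
 (nat_lit 400) (Int.ofNat (nat_lit 4289)) (nat_lit 450) (Int.ofNat (nat_lit 4743)) qL180_40_0_8 = true := by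
 decide +kernel

def qL180_40_0_9 : PCt := .one ⟨2008000, 251, 502000, 221683, -4518, 0, 0, 200000, 450000, 500000⟩ ⟨0, .pol,
 .pol, .pol, .pol, .sy 475000 (.sy 462500 (.sx 100000 (.aff 3000000 4272002 936330) (.sx 150000 (.aff
 5000000 7641990 2093696) (.aff 3000000 3351234 1193591))) (.sx 100000 (.aff 3000000 5000000 800000) (.sx
 150000 (.aff 3000000 3692745 1083206) (.aff 3000000 3273269 1222020)))) (.sx 100000 (.aff 3000000 5099020
 784465) (.sx 150000 (.aff 3000000 3765876 1062170) (.aff 3000000 3338092 1198290))), .pol, .pol, .pol,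
 .pol⟩

def hL180_40_0_9 : pcchk ⟨(nat_lit 3), (nat_lit 1000), Int.ofNat (nat_lit 250), 0, ⟨0, 1⟩, ⟨Int.ofNat
 (nat_lit 40), 200⟩⟩ ⟨900000, 950000, 961681, 948772, 974768, 269917, 320201, 227580, 316227, 223606⟩ false
 (nat_lit 450) (Int.ofNat (nat_lit 4743)) (nat_lit 500) (Int.ofNat (nat_lit 5295)) qL180_40_0_9 = true := by
 decide +kernel

def qL180_40_0_10 : PCt := .one ⟨2008000, 251, 502000, -14139132, 7175889, 0, 0, 200000, 500000, 550000⟩ ⟨0,
 .pol, .pol, .pol, .pol, .sx 100000 (.aff 35000000 89955545 12850793) (.sx 150000 (.inf 2049391 487950) (.sy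
 525000 (.sx 175000 (.inf 1775908 563093) (.sy 512500 (.sy 506250 (.sx 187500 (.inf 1666092 600207) (.sy
 503125 (.sx 193750 (.inf 1622082 616492) (.sy 501562 (.sx 196875 (.inf 1601250 624513) (.sy 500781 (.sx
 198437 (.inf 1591108 628493) (.sy 500390 (.sx 199218 (.inf 1586104 630476) (.sy 500195 (.sx 199609 (.aff
 20000000 30088717 11997853) (.sy 500097 (.aff 1500000 790995 316058) (.sy 500146 (.aff 1500000 791053
 316035) (.inf 1582182 632039)))) (.inf 1583150 631653))) (.inf 1585165 630850))) (.inf 1589211 629244)))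
 (.inf 1597369 626030))) (.inf 1613952 619598))) (.inf 1648232 606711)) (.inf 1663330 601204))) (.inf
 1752550 570598))), .pol, .pol, .sy 525000 (.sy 512500 (.sy 506250 .pol (.sx 100000 (.inf 3191787 313305)
 (.inf 1474223 678324))) (.sy 518750 (.inf 1816591 550482) (.inf 1827567 547176))) (.inf 1854724 539164),
 .pol⟩

def hL180_40_0_10 : pcchk ⟨(nat_lit 3), (nat_lit 1000), Int.ofNat (nat_lit 250), 0, ⟨0, 1⟩, ⟨Int.ofNat
 (nat_lit 40), 200⟩⟩ ⟨900000, 950000, 961681, 948772, 974768, 269917, 320201, 227580, 316227, 223606⟩ false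
 (nat_lit 500) (Int.ofNat (nat_lit 5295)) (nat_lit 550) (Int.negSucc (nat_lit 29911)) qL180_40_0_10 = true
 := by decide +kernel

def qL180_40_0_11 : PCt := .one ⟨2008000, 251, 502000, -35341, -581196, 0, 0, 200000, 550000, 600000⟩ ⟨0,
 .pol, .pol, .pol, .pol, .inf 1918333 521286, .pol, .pol, .inf 1918333 521286, .pol⟩

def hL180_40_0_11 : pcchk ⟨(nat_lit 3), (nat_lit 1000), Int.ofNat (nat_lit 250), 0, ⟨0, 1⟩, ⟨Int.ofNat
 (nat_lit 40), 200⟩⟩ ⟨900000, 950000, 961681, 948772, 974768, 269917, 320201, 227580, 316227, 223606⟩ false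
 (nat_lit 550) (Int.negSucc (nat_lit 29911)) (nat_lit 600) (Int.negSucc (nat_lit 29999)) qL180_40_0_11 =
 true := by decide +kernel

def qL180_40_0_12 : PCt := .one ⟨2008000, 251, 502000, 0, -602400, 0, 0, 200000, 600000, 650000⟩ ⟨0, .pol,
 .pol, .pol, .pol, .inf 2000000 500000, .pol, .pol, .inf 2000000 500000, .pol⟩

def hL180_40_0_12 : pcchk ⟨(nat_lit 3), (nat_lit 1000), Int.ofNat (nat_lit 250), 0, ⟨0, 1⟩, ⟨Int.ofNat
 (nat_lit 40), 200⟩⟩ ⟨900000, 950000, 961681, 948772, 974768, 269917, 320201, 227580, 316227, 223606⟩ false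
 (nat_lit 600) (Int.negSucc (nat_lit 29999)) (nat_lit 650) (Int.negSucc (nat_lit 29999)) qL180_40_0_12 =
 true := by decide +kernel

def qL180_40_0_13 : PCt := .one ⟨2008000, 251, 502000, 0, -602400, 0, 0, 200000, 650000, 700000⟩ ⟨0, .pol,
 .pol, .pol, .pol, .inf 2598077 384901, .pol, .pol, .inf 2598077 384901, .pol⟩

def hL180_40_0_13 : pcchk ⟨(nat_lit 3), (nat_lit 1000), Int.ofNat (nat_lit 250), 0, ⟨0, 1⟩, ⟨Int.ofNat
 (nat_lit 40), 200⟩⟩ ⟨900000, 950000, 961681, 948772, 974768, 269917, 320201, 227580, 316227, 223606⟩ false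
 (nat_lit 650) (Int.negSucc (nat_lit 29999)) (nat_lit 700) (Int.negSucc (nat_lit 29999)) qL180_40_0_13 =
 true := by decide +kernel

def qL180_40_0_14 : PCt := .one ⟨2008000, 251, 502000, 0, -602400, 0, 0, 200000, 700000, 750000⟩ ⟨0, .pol,
 .pol, .pol, .pol, .aff 35000000 64734072 17857675, .pol, .pol, .inf 2692583 371391, .pol⟩

def hL180_40_0_14 : pcchk ⟨(nat_lit 3), (nat_lit 1000), Int.ofNat (nat_lit 250), 0, ⟨0, 1⟩, ⟨Int.ofNat
 (nat_lit 40), 200⟩⟩ ⟨900000, 950000, 961681, 948772, 974768, 269917, 320201, 227580, 316227, 223606⟩ false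
 (nat_lit 700) (Int.negSucc (nat_lit 29999)) (nat_lit 750) (Int.negSucc (nat_lit 29999)) qL180_40_0_14 =
 true := by decide +kernel

def qL180_40_0_15 : PCt := .one ⟨2008000, 251, 502000, 0, -602400, 0, 0, 200000, 750000, 800000⟩ ⟨0, .pol,
 .pol, .pol, .pol, .aff 35000000 77283030 14958006, .pol, .pol, .inf 2783883 359211, .pol⟩

def hL180_40_0_15 : pcchk ⟨(nat_lit 3), (nat_lit 1000), Int.ofNat (nat_lit 250), 0, ⟨0, 1⟩, ⟨Int.ofNat
 (nat_lit 40), 200⟩⟩ ⟨900000, 950000, 961681, 948772, 974768, 269917, 320201, 227580, 316227, 223606⟩ false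
 (nat_lit 750) (Int.negSucc (nat_lit 29999)) (nat_lit 800) (Int.negSucc (nat_lit 29999)) qL180_40_0_15 =
 true := by decide +kernel

def qL180_40_0_16 : PCt := .one ⟨2008000, 251, 502000, 0, -602400, 0, 0, 200000, 800000, 850000⟩ ⟨0, .pol,
 .pol, .pol, .pol, .aff 35000000 97657565 11837281, .pol, .pol, .inf 2872282 348156, .pol⟩

def hL180_40_0_16 : pcchk ⟨(nat_lit 3), (nat_lit 1000), Int.ofNat (nat_lit 250), 0, ⟨0, 1⟩, ⟨Int.ofNat
 (nat_lit 40), 200⟩⟩ ⟨900000, 950000, 961681, 948772, 974768, 269917, 320201, 227580, 316227, 223606⟩ false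
 (nat_lit 800) (Int.negSucc (nat_lit 29999)) (nat_lit 850) (Int.negSucc (nat_lit 29999)) qL180_40_0_16 =
 true := by decide +kernel

def qL180_40_0_17 : PCt := .one ⟨2008000, 251, 502000, 0, -602400, 0, 0, 200000, 850000, 900000⟩ ⟨0, .pol,
 .pol, .pol, .pol, .aff 20000000 45889360 7866748, .pol, .pol, .inf 2958040 338062, .pol⟩

def hL180_40_0_17 : pcchk ⟨(nat_lit 3), (nat_lit 1000), Int.ofNat (nat_lit 250), 0, ⟨0, 1⟩, ⟨Int.ofNat
 (nat_lit 40), 200⟩⟩ ⟨900000, 950000, 961681, 948772, 974768, 269917, 320201, 227580, 316227, 223606⟩ false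
 (nat_lit 850) (Int.negSucc (nat_lit 29999)) (nat_lit 900) (Int.negSucc (nat_lit 29999)) qL180_40_0_17 =
 true := by decide +kernel

def qL180_40_0_18 : PCt := .one ⟨2008000, 251, 502000, 0, -602400, 0, 0, 200000, 900000, 950000⟩ ⟨0, .pol,
 .pol, .pol, .pol, .aff 20000000 47182271 7651179, .pol, .pol, .inf 3041382 328798, .pol⟩

def hL180_40_0_18 : pcchk ⟨(nat_lit 3), (nat_lit 1000), Int.ofNat (nat_lit 250), 0, ⟨0, 1⟩, ⟨Int.ofNat
 (nat_lit 40), 200⟩⟩ ⟨900000, 950000, 961681, 948772, 974768, 269917, 320201, 227580, 316227, 223606⟩ false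
 (nat_lit 900) (Int.negSucc (nat_lit 29999)) (nat_lit 950) (Int.negSucc (nat_lit 29999)) qL180_40_0_18 =
 true := by decide +kernel

def qL180_40_0_19 : PCt := .one ⟨2008000, 251, 502000, 0, -602400, 0, 0, 200000, 950000, 1000000⟩ ⟨0, .pol,
 .pol, .pol, .pol, .aff 20000000 59327481 6084870, .pol, .pol, .inf 3122499 320257, .pol⟩

def hL180_40_0_19 : pcchk ⟨(nat_lit 3), (nat_lit 1000), Int.ofNat (nat_lit 250), 0, ⟨0, 1⟩, ⟨Int.ofNat
 (nat_lit 40), 200⟩⟩ ⟨900000, 950000, 961681, 948772, 974768, 269917, 320201, 227580, 316227, 223606⟩ false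
 (nat_lit 950) (Int.negSucc (nat_lit 29999)) (nat_lit 1000) (Int.negSucc (nat_lit 29999)) qL180_40_0_19 =
 true := by decide +kernel

def qL180_40_1_0 : PCt := .one ⟨2008000, 251, 803200, 346982, 0, 0, 0, 200000, 0, 50000⟩ ⟨25000, .aff
 3162278 316228, .pol, .pol, .pol, .pol, .aff 0 3654210 273657, .pol, .pol, .pol⟩

def hL180_40_1_0 : pcchk ⟨(nat_lit 3), (nat_lit 1000), Int.ofNat (nat_lit 400), 0, ⟨0, 1⟩, ⟨Int.ofNat
 (nat_lit 40), 200⟩⟩ ⟨900000, 950000, 961681, 948772, 974768, 269917, 320201, 227580, 316227, 223606⟩ true 0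
 0 (nat_lit 50) (Int.ofNat (nat_lit 864)) qL180_40_1_0 = true := by decide +kernel

def qL180_40_1_1 : PCt := .one ⟨2008000, 251, 803200, 305216, 2088, 0, 0, 200000, 50000, 100000⟩ ⟨0, .pol,
 .pol, .pol, .pol, .sx 100000 (.sy 75000 (.sx 50000 (.sx 25000 (.aff 275000 4177484 125824) (.aff 0 1290995
 774597)) .pol) (.sx 50000 (.sx 25000 (.sy 87500 (.aff 375000 4316613 90494) (.sx 12500 (.sx 6250 (.aff
 500000 3872984 64550) (.aff 1000000 0 0)) (.aff 1000000 0 0))) (.aff 1000000 0 0)) .pol)) .pol, .pol, .pol,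
 .sx 100000 (.sx 50000 .pol .pol) .pol, .pol⟩

def hL180_40_1_1 : pcchk ⟨(nat_lit 3), (nat_lit 1000), Int.ofNat (nat_lit 400), 0, ⟨0, 1⟩, ⟨Int.ofNat
 (nat_lit 40), 200⟩⟩ ⟨900000, 950000, 961681, 948772, 974768, 269917, 320201, 227580, 316227, 223606⟩ false
 (nat_lit 50) (Int.ofNat (nat_lit 864)) (nat_lit 100) (Int.ofNat (nat_lit 1624)) qL180_40_1_1 = true := by
 decide +kernel

def qL180_40_1_2 : PCt := .one ⟨2008000, 251, 803200, 166262, 15983, 0, 0, 200000, 100000, 150000⟩ ⟨0, .pol,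
 .pol, .pol, .pol, .sx 100000 (.sx 50000 (.sy 125000 (.sx 25000 (.sx 12500 (.aff 1650000 5264450 80256)
 (.aff 1000000 0 0)) (.aff 1000000 0 0)) (.sx 25000 (.sx 12500 (.sy 137500 (.aff 1700000 5540917 88434)
 (.aff 2000000 5857642 170718)) (.aff 1000000 0 0)) (.aff 1000000 0 0))) (.aff 1000000 0 0)) .pol, .pol,
 .pol, .sx 100000 .pol .pol, .pol⟩

def hL180_40_1_2 : pcchk ⟨(nat_lit 3), (nat_lit 1000), Int.ofNat (nat_lit 400), 0, ⟨0, 1⟩, ⟨Int.ofNat
 (nat_lit 40), 200⟩⟩ ⟨900000, 950000, 961681, 948772, 974768, 269917, 320201, 227580, 316227, 223606⟩ false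
 (nat_lit 100) (Int.ofNat (nat_lit 1624)) (nat_lit 150) (Int.ofNat (nat_lit 2038)) qL180_40_1_2 = true := by
 decide +kernel

def qL180_40_1_3 : PCt := .one ⟨2008000, 251, 803200, 98793, 26104, 0, 0, 200000, 150000, 200000⟩ ⟨0, .pol,
 .pol, .pol, .pol, .sx 100000 (.sx 50000 (.sy 175000 (.sx 25000 (.sx 12500 (.sx 6250 (.aff 3000000 11775682
 339684) (.aff 2650000 6574839 414079)) (.aff 1000000 0 0)) (.aff 1000000 0 0)) (.sx 25000 (.sy 187500 (.aff
 2700000 6473408 446442) (.aff 3150000 6911284 668834)) (.aff 1000000 0 0))) (.aff 1000000 0 0)) (.aff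
 1000000 0 0), .pol, .pol, .sx 100000 .pol .pol, .pol⟩

def hL180_40_1_3 : pcchk ⟨(nat_lit 3), (nat_lit 1000), Int.ofNat (nat_lit 400), 0, ⟨0, 1⟩, ⟨Int.ofNat
 (nat_lit 40), 200⟩⟩ ⟨900000, 950000, 961681, 948772, 974768, 269917, 320201, 227580, 316227, 223606⟩ false
 (nat_lit 150) (Int.ofNat (nat_lit 2038)) (nat_lit 200) (Int.ofNat (nat_lit 2284)) qL180_40_1_3 = true := by
 decide +kernel

def qL180_40_1_4 : PCt := .one ⟨2008000, 251, 803200, 49396, 35983, 0, 0, 200000, 200000, 250000⟩ ⟨0, .pol,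
 .pol, .pol, .pol, .sx 100000 (.sy 225000 (.sx 50000 (.sx 25000 (.aff 3350000 7158422 771469) (.aff 3300000
 6628447 798076)) (.aff 1000000 0 0)) (.sy 237500 (.sx 50000 (.sx 25000 (.aff 5000000 14047539 1138990)
 (.aff 3600000 7072765 955779)) (.aff 1000000 0 0)) (.sx 50000 (.sx 25000 (.aff 5000000 14422206 1109401)
 (.sx 37500 (.aff 4300000 8413383 1294367) (.aff 3300000 5633827 938971))) (.aff 1000000 0 0)))) (.aff
 1000000 0 0), .pol, .pol, .pol, .pol⟩

def hL180_40_1_4 : pcchk ⟨(nat_lit 3), (nat_lit 1000), Int.ofNat (nat_lit 400), 0, ⟨0, 1⟩, ⟨Int.ofNat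
 (nat_lit 40), 200⟩⟩ ⟨900000, 950000, 961681, 948772, 974768, 269917, 320201, 227580, 316227, 223606⟩ false
 (nat_lit 200) (Int.ofNat (nat_lit 2284)) (nat_lit 250) (Int.ofNat (nat_lit 2407)) qL180_40_1_4 = true := by
 decide +kernel

def qL180_40_1_5 : PCt := .one ⟨2008000, 251, 803200, 19678, 43412, 0, 0, 200000, 250000, 300000⟩ ⟨0, .pol,
 .pol, .pol, .pol, .sy 275000 (.sy 262500 (.sx 100000 (.sy 256250 (.sx 50000 (.sx 25000 (.aff 5000000
 18000000 888889) (.sx 37500 (.aff 5000000 11384200 1405457) (.aff 3700000 6739608 1081666))) (.aff 1000000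
 0 0)) (.sx 50000 (.aff 4550000 8085510 1558653) (.aff 1000000 0 0))) (.aff 1000000 0 0)) (.sx 100000 (.sx
 50000 (.aff 4700000 8578098 1595925) (.aff 3700000 6187675 1178149)) (.aff 1000000 0 0))) (.sy 287500 (.sx
 100000 (.sx 50000 (.aff 5000000 9486833 1686549) (.sx 75000 (.sx 62500 (.sx 56250 (.aff 4800000 8497059
 1699412) (.aff 3500000 5514110 1133456)) (.aff 1000000 0 0)) (.aff 1000000 0 0))) (.aff 1000000 0 0)) (.sx
 100000 (.sx 50000 (.aff 5000000 9695360 1650274) (.sx 75000 (.sx 62500 (.aff 5000000 8897073 1798345) (.aff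
 4900000 8061525 1886740)) (.aff 1000000 0 0))) (.aff 1000000 0 0))), .pol, .pol, .pol, .pol⟩

def hL180_40_1_5 : pcchk ⟨(nat_lit 3), (nat_lit 1000), Int.ofNat (nat_lit 400), 0, ⟨0, 1⟩, ⟨Int.ofNat
 (nat_lit 40), 200⟩⟩ ⟨900000, 950000, 961681, 948772, 974768, 269917, 320201, 227580, 316227, 223606⟩ false
 (nat_lit 250) (Int.ofNat (nat_lit 2407)) (nat_lit 300) (Int.ofNat (nat_lit 2456)) qL180_40_1_5 = true := by
 decide +kernel

def qL180_40_1_6 : PCt := .one ⟨2008000, 251, 803200, -8836, 51967, 0, 0, 200000, 300000, 350000⟩ ⟨0, .pol,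
 .pol, .pol, .pol, .sx 100000 (.sx 50000 (.aff 5000000 11775682 1358733) (.sy 325000 (.aff 4950000 8062904
 1935097) (.aff 5275000 8395934 2176724))) (.aff 1000000 0 0), .pol, .pol, .pol, .pol⟩

def hL180_40_1_6 : pcchk ⟨(nat_lit 3), (nat_lit 1000), Int.ofNat (nat_lit 400), 0, ⟨0, 1⟩, ⟨Int.ofNat
 (nat_lit 40), 200⟩⟩ ⟨900000, 950000, 961681, 948772, 974768, 269917, 320201, 227580, 316227, 223606⟩ false
 (nat_lit 300) (Int.ofNat (nat_lit 2456)) (nat_lit 350) (Int.ofNat (nat_lit 2434)) qL180_40_1_6 = true := by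
 decide +kernel

def qL180_40_1_7 : PCt := .one ⟨2008000, 251, 803200, -20080, 55902, 0, 0, 200000, 350000, 400000⟩ ⟨0, .pol,
 .pol, .pol, .pol, .sx 100000 (.aff 5600000 8907862 2375430) (.sx 150000 (.sx 125000 (.aff 5413000 8187597
 2378546) (.aff 5350000 7729831 2447984)) (.aff 1000000 0 0)), .pol, .pol, .pol, .pol⟩

def hL180_40_1_7 : pcchk ⟨(nat_lit 3), (nat_lit 1000), Int.ofNat (nat_lit 400), 0, ⟨0, 1⟩, ⟨Int.ofNat
 (nat_lit 40), 200⟩⟩ ⟨900000, 950000, 961681, 948772, 974768, 269917, 320201, 227580, 316227, 223606⟩ false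
 (nat_lit 350) (Int.ofNat (nat_lit 2434)) (nat_lit 400) (Int.ofNat (nat_lit 2384)) qL180_40_1_7 = true := by
 decide +kernel

def qL180_40_1_8 : PCt := .one ⟨2008000, 251, 803200, -32128, 60721, 0, 0, 200000, 400000, 450000⟩ ⟨0, .pol,
 .pol, .pol, .pol, .sx 100000 (.aff 8000000 16663333 2940589) (.sy 425000 (.sx 150000 (.sx 125000 (.aff
 8000000 13046476 3755804) (.aff 5700000 8332210 2651158)) (.aff 1000000 0 0)) (.sx 150000 (.aff 6500000
 9393039 3220470) (.aff 6350000 8778416 3260555))), .pol, .pol, .pol, .pol⟩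

def hL180_40_1_8 : pcchk ⟨(nat_lit 3), (nat_lit 1000), Int.ofNat (nat_lit 400), 0, ⟨0, 1⟩, ⟨Int.ofNat
 (nat_lit 40), 200⟩⟩ ⟨900000, 950000, 961681, 948772, 974768, 269917, 320201, 227580, 316227, 223606⟩ false
 (nat_lit 400) (Int.ofNat (nat_lit 2384)) (nat_lit 450) (Int.ofNat (nat_lit 2304)) qL180_40_1_8 = true := by
 decide +kernel

def qL180_40_1_9 : PCt := .one ⟨2008000, 251, 803200, -6426, 49155, 0, 0, 200000, 450000, 500000⟩ ⟨0, .pol,
 .pol, .pol, .pol, .sx 100000 (.aff 8000000 17616281 2781518) (.sx 150000 (.aff 8000000 13010486 3766193)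
 (.sy 475000 (.aff 5900000 8266569 2904470) (.aff 7300000 9835872 4035230))), .pol, .pol, .pol, .pol⟩

def hL180_40_1_9 : pcchk ⟨(nat_lit 3), (nat_lit 1000), Int.ofNat (nat_lit 400), 0, ⟨0, 1⟩, ⟨Int.ofNat
 (nat_lit 40), 200⟩⟩ ⟨900000, 950000, 961681, 948772, 974768, 269917, 320201, 227580, 316227, 223606⟩ false
 (nat_lit 450) (Int.ofNat (nat_lit 2304)) (nat_lit 500) (Int.ofNat (nat_lit 2288)) qL180_40_1_9 = true := by
 decide +kernel

def qL180_40_1_10 : PCt := .one ⟨2008000, 251, 803200, -12935135, 6513510, 0, 0, 200000, 500000, 550000⟩ ⟨0,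
 .pol, .pol, .pol, .pol, .sx 100000 (.aff 35000000 110172592 10492628) (.sx 150000 (.inf 2049391 487950)
 (.sy 525000 (.sx 175000 (.inf 1775908 563093) (.sy 512500 (.sy 506250 (.sx 187500 (.inf 1666092 600207)
 (.sy 503125 (.sx 193750 (.inf 1622082 616492) (.sy 501562 (.sx 196875 (.inf 1601250 624513) (.sy 500781
 (.sx 198437 (.inf 1591108 628493) (.sy 500390 (.sx 199218 (.inf 1586104 630476) (.sy 500195 (.sx 199609
 (.aff 20000000 30088717 11997853) (.sy 500097 (.aff 1500000 790995 316058) (.sy 500146 (.aff 5000000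
 6328418 2528278) (.inf 1582182 632039)))) (.inf 1583150 631653))) (.inf 1585165 630850))) (.inf 1589211
 629244))) (.inf 1597369 626030))) (.inf 1613952 619598))) (.inf 1648232 606711)) (.inf 1663330 601204)))
 (.inf 1752550 570598))), .pol, .pol, .sy 525000 (.sy 512500 (.sy 506250 (.sy 503125 .pol (.sx 100000 (.inf
 3177067 314756) (.sx 150000 (.inf 2009354 497673) .pol))) (.sx 100000 (.inf 3191787 313305) (.inf 1474223
 678324))) (.sy 518750 (.inf 1816591 550482) (.inf 1827567 547176))) (.inf 1854724 539164), .pol⟩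

def hL180_40_1_10 : pcchk ⟨(nat_lit 3), (nat_lit 1000), Int.ofNat (nat_lit 400), 0, ⟨0, 1⟩, ⟨Int.ofNat
 (nat_lit 40), 200⟩⟩ ⟨900000, 950000, 961681, 948772, 974768, 269917, 320201, 227580, 316227, 223606⟩ false
 (nat_lit 500) (Int.ofNat (nat_lit 2288)) (nat_lit 550) (Int.negSucc (nat_lit 29920)) qL180_40_1_10 = true
 := by decide +kernel

def qL180_40_1_11 : PCt := .one ⟨2008000, 251, 803200, -31727, -583365, 0, 0, 200000, 550000, 600000⟩ ⟨0,
 .pol, .pol, .pol, .pol, .inf 1918333 521286, .pol, .pol, .inf 1918333 521286, .pol⟩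

def hL180_40_1_11 : pcchk ⟨(nat_lit 3), (nat_lit 1000), Int.ofNat (nat_lit 400), 0, ⟨0, 1⟩, ⟨Int.ofNat
 (nat_lit 40), 200⟩⟩ ⟨900000, 950000, 961681, 948772, 974768, 269917, 320201, 227580, 316227, 223606⟩ false
 (nat_lit 550) (Int.negSucc (nat_lit 29920)) (nat_lit 600) (Int.negSucc (nat_lit 29999)) qL180_40_1_11 =
 true := by decide +kernel

def qL180_40_1_12 : PCt := .one ⟨2008000, 251, 803200, 0, -602400, 0, 0, 200000, 600000, 650000⟩ ⟨0, .pol,
 .pol, .pol, .pol, .inf 2000000 500000, .pol, .pol, .inf 2000000 500000, .pol⟩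

def hL180_40_1_12 : pcchk ⟨(nat_lit 3), (nat_lit 1000), Int.ofNat (nat_lit 400), 0, ⟨0, 1⟩, ⟨Int.ofNat
 (nat_lit 40), 200⟩⟩ ⟨900000, 950000, 961681, 948772, 974768, 269917, 320201, 227580, 316227, 223606⟩ false
 (nat_lit 600) (Int.negSucc (nat_lit 29999)) (nat_lit 650) (Int.negSucc (nat_lit 29999)) qL180_40_1_12 =
 true := by decide +kernel

def qL180_40_1_13 : PCt := .one ⟨2008000, 251, 803200, 0, -602400, 0, 0, 200000, 650000, 700000⟩ ⟨0, .pol,
 .pol, .pol, .pol, .inf 2598077 384901, .pol, .pol, .inf 2598077 384901, .pol⟩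

def hL180_40_1_13 : pcchk ⟨(nat_lit 3), (nat_lit 1000), Int.ofNat (nat_lit 400), 0, ⟨0, 1⟩, ⟨Int.ofNat
 (nat_lit 40), 200⟩⟩ ⟨900000, 950000, 961681, 948772, 974768, 269917, 320201, 227580, 316227, 223606⟩ false
 (nat_lit 650) (Int.negSucc (nat_lit 29999)) (nat_lit 700) (Int.negSucc (nat_lit 29999)) qL180_40_1_13 =
 true := by decide +kernel

def qL180_40_1_14 : PCt := .one ⟨2008000, 251, 803200, 0, -602400, 0, 0, 200000, 700000, 750000⟩ ⟨0, .pol,
 .pol, .pol, .pol, .aff 35000000 74748468 15465200, .pol, .pol, .inf 2692583 371391, .pol⟩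

def hL180_40_1_14 : pcchk ⟨(nat_lit 3), (nat_lit 1000), Int.ofNat (nat_lit 400), 0, ⟨0, 1⟩, ⟨Int.ofNat
 (nat_lit 40), 200⟩⟩ ⟨900000, 950000, 961681, 948772, 974768, 269917, 320201, 227580, 316227, 223606⟩ false
 (nat_lit 700) (Int.negSucc (nat_lit 29999)) (nat_lit 750) (Int.negSucc (nat_lit 29999)) qL180_40_1_14 =
 true := by decide +kernel

def qL180_40_1_15 : PCt := .one ⟨2008000, 251, 803200, 0, -602400, 0, 0, 200000, 750000, 800000⟩ ⟨0, .pol,
 .pol, .pol, .pol, .aff 35000000 77283030 14958006, .pol, .pol, .inf 2783883 359211, .pol⟩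

def hL180_40_1_15 : pcchk ⟨(nat_lit 3), (nat_lit 1000), Int.ofNat (nat_lit 400), 0, ⟨0, 1⟩, ⟨Int.ofNat
 (nat_lit 40), 200⟩⟩ ⟨900000, 950000, 961681, 948772, 974768, 269917, 320201, 227580, 316227, 223606⟩ false
 (nat_lit 750) (Int.negSucc (nat_lit 29999)) (nat_lit 800) (Int.negSucc (nat_lit 29999)) qL180_40_1_15 =
 true := by decide +kernel

def qL180_40_1_16 : PCt := .one ⟨2008000, 251, 803200, 0, -602400, 0, 0, 200000, 800000, 850000⟩ ⟨0, .pol,
 .pol, .pol, .pol, .aff 20000000 38589183 9354954, .pol, .pol, .inf 2872282 348156, .pol⟩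

def hL180_40_1_16 : pcchk ⟨(nat_lit 3), (nat_lit 1000), Int.ofNat (nat_lit 400), 0, ⟨0, 1⟩, ⟨Int.ofNat
 (nat_lit 40), 200⟩⟩ ⟨900000, 950000, 961681, 948772, 974768, 269917, 320201, 227580, 316227, 223606⟩ false
 (nat_lit 800) (Int.negSucc (nat_lit 29999)) (nat_lit 850) (Int.negSucc (nat_lit 29999)) qL180_40_1_16 =
 true := by decide +kernel

def qL180_40_1_17 : PCt := .one ⟨2008000, 251, 803200, 0, -602400, 0, 0, 200000, 850000, 900000⟩ ⟨0, .pol,
 .pol, .pol, .pol, .aff 20000000 45889360 7866748, .pol, .pol, .inf 2958040 338062, .pol⟩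

def hL180_40_1_17 : pcchk ⟨(nat_lit 3), (nat_lit 1000), Int.ofNat (nat_lit 400), 0, ⟨0, 1⟩, ⟨Int.ofNat
 (nat_lit 40), 200⟩⟩ ⟨900000, 950000, 961681, 948772, 974768, 269917, 320201, 227580, 316227, 223606⟩ false
 (nat_lit 850) (Int.negSucc (nat_lit 29999)) (nat_lit 900) (Int.negSucc (nat_lit 29999)) qL180_40_1_17 =
 true := by decide +kernel

def qL180_40_1_18 : PCt := .one ⟨2008000, 251, 803200, 0, -602400, 0, 0, 200000, 900000, 950000⟩ ⟨0, .pol,
 .pol, .pol, .pol, .aff 20000000 57786245 6247162, .pol, .pol, .inf 3041382 328798, .pol⟩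

def hL180_40_1_18 : pcchk ⟨(nat_lit 3), (nat_lit 1000), Int.ofNat (nat_lit 400), 0, ⟨0, 1⟩, ⟨Int.ofNat
 (nat_lit 40), 200⟩⟩ ⟨900000, 950000, 961681, 948772, 974768, 269917, 320201, 227580, 316227, 223606⟩ false
 (nat_lit 900) (Int.negSucc (nat_lit 29999)) (nat_lit 950) (Int.negSucc (nat_lit 29999)) qL180_40_1_18 =
 true := by decide +kernel

def qL180_40_1_19 : PCt := .one ⟨2008000, 251, 803200, 0, -602400, 0, 0, 200000, 950000, 1000000⟩ ⟨0, .pol,
 .pol, .pol, .pol, .aff 20000000 59327481 6084870, .pol, .pol, .inf 3122499 320257, .pol⟩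

def hL180_40_1_19 : pcchk ⟨(nat_lit 3), (nat_lit 1000), Int.ofNat (nat_lit 400), 0, ⟨0, 1⟩, ⟨Int.ofNat
 (nat_lit 40), 200⟩⟩ ⟨900000, 950000, 961681, 948772, 974768, 269917, 320201, 227580, 316227, 223606⟩ false
 (nat_lit 950) (Int.negSucc (nat_lit 29999)) (nat_lit 1000) (Int.negSucc (nat_lit 29999)) qL180_40_1_19 =
 true := by decide +kernel

def qL180_40_2_0 : PCt := .one ⟨2008000, 251, 2008000, 320075, 0, 0, 0, 200000, 0, 50000⟩ ⟨25000, .sp 250000
 (.sp 62500 (.aff 8000000 125000) (.aff 2529823 395285)) .pol, .pol, .pol, .pol, .pol, .sy 37500 (.aff 0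
 11075318 90291) (.aff 94000 14868415 55207), .pol, .pol, .pol⟩

def hL180_40_2_0 : pcchk ⟨(nat_lit 3), (nat_lit 1000), Int.ofNat (nat_lit 1000), 0, ⟨0, 1⟩, ⟨Int.ofNat
 (nat_lit 40), 200⟩⟩ ⟨900000, 950000, 961681, 948772, 974768, 269917, 320201, 227580, 316227, 223606⟩ true 0
 0 (nat_lit 50) (Int.ofNat (nat_lit 797)) qL180_40_2_0 = true := by decide +kernel

def qL180_40_2_1 : PCt := .one ⟨2008000, 251, 2008000, 355014, -1747, 0, 0, 200000, 50000, 100000⟩ ⟨0, .pol,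
 .pol, .pol, .pol, .sx 100000 (.sx 50000 (.aff 100000 14739327 54956) .pol) .pol, .pol, .pol, .sx 100000
 (.sx 50000 .pol .pol) .pol, .pol⟩

def hL180_40_2_1 : pcchk ⟨(nat_lit 3), (nat_lit 1000), Int.ofNat (nat_lit 1000), 0, ⟨0, 1⟩, ⟨Int.ofNat
 (nat_lit 40), 200⟩⟩ ⟨900000, 950000, 961681, 948772, 974768, 269917, 320201, 227580, 316227, 223606⟩ false
 (nat_lit 50) (Int.ofNat (nat_lit 797)) (nat_lit 100) (Int.ofNat (nat_lit 1681)) qL180_40_2_1 = true := by
 decide +kernel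

def qL180_40_2_2 : PCt := .one ⟨2008000, 251, 2008000, 46585, 29095, 0, 0, 200000, 100000, 150000⟩ ⟨0, .pol,
 .pol, .pol, .pol, .sx 100000 (.sx 50000 (.aff 2713000 16273513 180316) .pol) .pol, .pol, .pol, .sx 100000
 .pol .pol, .pol⟩

def hL180_40_2_2 : pcchk ⟨(nat_lit 3), (nat_lit 1000), Int.ofNat (nat_lit 1000), 0, ⟨0, 1⟩, ⟨Int.ofNat
 (nat_lit 40), 200⟩⟩ ⟨900000, 950000, 961681, 948772, 974768, 269917, 320201, 227580, 316227, 223606⟩ false
 (nat_lit 100) (Int.ofNat (nat_lit 1681)) (nat_lit 150) (Int.ofNat (nat_lit 1797)) qL180_40_2_2 = true := by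
 decide +kernel

def qL180_40_2_3 : PCt := .one ⟨2008000, 251, 2008000, -273088, 77046, 0, 0, 200000, 150000, 200000⟩ ⟨0,
 .pol, .pol, .pol, .pol, .sx 100000 (.sx 50000 (.sy 175000 (.sy 162500 (.aff 5100000 17705075 949446) (.sx
 25000 (.sx 12500 (.aff 6900000 21677985 1605777) (.aff 1000000 0 0)) (.aff 1000000 0 0))) (.sy 187500 (.sy
 181250 (.sx 25000 (.sx 12500 (.aff 8000000 26424421 1854346) (.aff 5600000 17164838 1232753)) (.aff 1000000
 0 0)) (.sy 184375 (.sx 25000 (.sx 12500 (.aff 8000000 30911164 1585188) (.sx 18750 (.sx 15625 (.aff 7500000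
 22233421 1900293) (.aff 1000000 0 0)) (.aff 1000000 0 0))) (.aff 1000000 0 0)) (.sx 25000 (.sx 12500 (.aff
 8000000 31174242 1571811) (.sx 18750 (.aff 7654000 21484390 2060832) (.aff 1000000 0 0))) (.aff 1000000 0
 0)))) (.sx 25000 (.sx 12500 (.aff 8000000 31822424 1539795) (.aff 7700000 21537487 2084273)) (.aff 1000000
 0 0)))) (.aff 0 1527526 654654)) .pol, .pol, .pol, .sx 100000 .pol .pol, .pol⟩

def hL180_40_2_3 : pcchk ⟨(nat_lit 3), (nat_lit 1000), Int.ofNat (nat_lit 1000), 0, ⟨0, 1⟩, ⟨Int.ofNat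
 (nat_lit 40), 200⟩⟩ ⟨900000, 950000, 961681, 948772, 974768, 269917, 320201, 227580, 316227, 223606⟩ false
 (nat_lit 150) (Int.ofNat (nat_lit 1797)) (nat_lit 200) (Int.ofNat (nat_lit 1117)) qL180_40_2_3 = true := by
 decide +kernel

def qL180_40_2_4 : PCt := .one ⟨2008000, 251, 2008000, -432925, 109014, 0, 0, 200000, 200000, 250000⟩ ⟨0,
 .pol, .pol, .pol, .pol, .sx 100000 (.sx 50000 (.sx 25000 (.aff 8900000 23700000 2633334) (.sx 37500 (.sy
 225000 (.aff 8688000 21667258 2727865) (.aff 8850000 21699038 2839873)) (.aff 9200000 19297828 3484330)))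
 (.aff 1000000 0 0)) .pol, .pol, .pol, .pol, .pol⟩

def hL180_40_2_4 : pcchk ⟨(nat_lit 3), (nat_lit 1000), Int.ofNat (nat_lit 1000), 0, ⟨0, 1⟩, ⟨Int.ofNat
 (nat_lit 40), 200⟩⟩ ⟨900000, 950000, 961681, 948772, 974768, 269917, 320201, 227580, 316227, 223606⟩ false
 (nat_lit 200) (Int.ofNat (nat_lit 1117)) (nat_lit 250) (Int.ofNat (nat_lit 39)) qL180_40_2_4 = true := by
 decide +kernel

def qL180_40_2_5 : PCt := .one ⟨2008000, 251, 2008000, -592762, 148973, 0, 0, 200000, 250000, 300000⟩ ⟨0,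
 .pol, .pol, .pol, .pol, .sx 100000 (.sx 50000 (.sx 25000 (.aff 12000000 42126793 2872282) (.sx 37500 (.aff
 12000000 31112699 3889088) (.sy 275000 (.sx 43750 (.aff 12000000 27438821 4409811) (.aff 11400000 23829394
 4538933)) (.aff 12000000 27242125 4441651)))) (.sx 75000 (.sx 62500 (.sy 275000 (.aff 11525000 23988034
 4617954) (.sy 287500 (.aff 11700000 23925928 4785186) (.aff 12000000 24466949 4945448))) (.aff 11906000
 22890462 5196088)) (.aff 1000000 0 0))) (.aff 1000000 0 0), .pol, .pol, .sx 100000 (.sx 50000 (.sx 25000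
 (.inf 4690416 213201) .pol) .pol) .pol, .pol⟩

def hL180_40_2_5 : pcchk ⟨(nat_lit 3), (nat_lit 1000), Int.ofNat (nat_lit 1000), 0, ⟨0, 1⟩, ⟨Int.ofNat
 (nat_lit 40), 200⟩⟩ ⟨900000, 950000, 961681, 948772, 974768, 269917, 320201, 227580, 316227, 223606⟩ false
 (nat_lit 250) (Int.ofNat (nat_lit 39)) (nat_lit 300) (Int.negSucc (nat_lit 1436)) qL180_40_2_5 = true := by
 decide +kernel

def qL180_40_2_6 : PCt := .one ⟨2008000, 251, 2008000, -688343, 177647, 0, 0, 200000, 300000, 350000⟩ ⟨0,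
 .pol, .pol, .pol, .pol, .sx 100000 (.sx 50000 (.aff 12000000 28044608 4314555) (.sx 75000 (.sy 325000 (.sy
 312500 (.aff 12500000 24271664 5448741) (.aff 12600000 24360679 5523656)) (.aff 20000000 42097290 8575374))
 (.sy 325000 (.sx 87500 (.aff 13125000 24863892 5912817) (.aff 1000000 0 0)) (.sy 337500 (.aff 13000000
 24229671 5943127) (.aff 12952000 23976893 5957833))))) (.aff 1000000 0 0), .pol, .pol, .sx 100000 (.sx
 50000 (.inf 3605552 277351) .pol) .pol, .pol⟩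

def hL180_40_2_6 : pcchk ⟨(nat_lit 3), (nat_lit 1000), Int.ofNat (nat_lit 1000), 0, ⟨0, 1⟩, ⟨Int.ofNat
 (nat_lit 40), 200⟩⟩ ⟨900000, 950000, 961681, 948772, 974768, 269917, 320201, 227580, 316227, 223606⟩ false
 (nat_lit 300) (Int.negSucc (nat_lit 1436)) (nat_lit 350) (Int.negSucc (nat_lit 3150)) qL180_40_2_6 = true
 := by decide +kernel

def qL180_40_2_7 : PCt := .one ⟨2008000, 251, 2008000, -806815, 219112, 0, 0, 200000, 350000, 400000⟩ ⟨0,
 .pol, .pol, .pol, .pol, .sx 100000 (.sx 50000 (.aff 12000000 34785055 3478506) (.sx 75000 (.aff 20000000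
 46540306 7756718) (.sy 375000 (.sx 87500 (.aff 20000000 40132473 8995210) (.sy 362500 (.sx 93750 (.aff
 20000000 37670990 9582971) (.aff 13600000 24359763 6517305)) (.aff 20000000 37682003 9580171))) (.aff
 20000000 39983926 9028629)))) (.sx 150000 (.sx 125000 (.sx 112500 (.sy 375000 (.aff 14400000 25123309
 7147148) (.sy 387500 (.sx 106250 (.aff 20000000 36532261 9881677) (.sy 381250 (.sx 109375 (.aff 20000000
 35582523 10145431) (.sy 378125 (.aff 13900000 23850840 6977113) (.aff 18100000 31414706 9308062))) (.aff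
 20000000 35618214 10135264))) (.aff 20000000 36576271 9869787))) (.sx 118750 (.sy 375000 (.aff 1000000 0 0)
 (.sy 387500 (.sx 115625 (.sy 381250 (.aff 12900000 21741307 6513408) (.sy 384375 (.sx 114062 (.aff 20000000
 34927550 10335681) (.aff 13500000 22860723 6834867)) (.aff 20000000 34949475 10329197))) (.aff 14100000
 23707627 7238599)) (.aff 18300000 31502106 9500635))) (.sy 375000 (.aff 1000000 0 0) (.sy 387500 (.aff
 1000000 0 0) (.sx 121875 (.sy 393750 (.aff 14300000 24043126 7357197) (.aff 20000000 34508422 10461215))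
 (.aff 14400000 24008789 7478928)))))) (.sy 375000 (.aff 1000000 0 0) (.sx 137500 (.aff 13000000 20868929
 6900211) (.aff 1000000 0 0)))) (.aff 1000000 0 0)), .pol, .pol, .sx 100000 (.sx 50000 (.inf 3872984 258199)
 (.sx 75000 (.inf 2449490 408249) .pol)) .pol, .pol⟩

def hL180_40_2_7 : pcchk ⟨(nat_lit 3), (nat_lit 1000), Int.ofNat (nat_lit 1000), 0, ⟨0, 1⟩, ⟨Int.ofNat
 (nat_lit 40), 200⟩⟩ ⟨900000, 950000, 961681, 948772, 974768, 269917, 320201, 227580, 316227, 223606⟩ false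
 (nat_lit 350) (Int.negSucc (nat_lit 3150)) (nat_lit 400) (Int.negSucc (nat_lit 5159)) qL180_40_2_7 = true
 := by decide +kernel

def qL180_40_2_8 : PCt := .one ⟨2008000, 251, 2008000, -877898, 247546, 0, 0, 200000, 400000, 450000⟩ ⟨0,
 .pol, .pol, .pol, .pol, .sx 100000 (.aff 20000000 45229047 7981597) (.sx 150000 (.sx 125000 (.aff 20000000
 35034269 10304197) (.sy 425000 (.sx 137500 (.sy 412500 (.sx 131250 (.aff 17600000 29204860 9435416) (.sy
 406250 (.aff 1000000 0 0) (.sx 134375 (.aff 17700000 29148613 9567866) (.aff 1500000 867683 288124))))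
 (.aff 17800000 29318068 9626829)) (.sy 412500 (.aff 1000000 0 0) (.sy 418750 (.sx 143750 (.sy 415625 (.aff
 1000000 0 0) (.sy 417187 (.aff 8000000 12112995 4045243) (.sx 140625 (.sx 139062 (.aff 19300000 31726242
 10555616) (.aff 1500000 864412 289214)) (.aff 1000000 0 0)))) (.aff 1000000 0 0)) (.sx 143750 (.aff
 17700000 28609117 9748292) (.aff 1000000 0 0))))) (.aff 17700000 28520680 9778519))) (.sx 175000 (.sy
 425000 (.aff 1000000 0 0) (.sx 162500 (.sy 437500 (.sx 156250 (.sy 431250 (.aff 1000000 0 0) (.sy 434375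
 (.aff 1500000 840615 297402) (.sx 153125 (.aff 19000000 30371174 10668011) (.aff 1000000 0 0)))) (.aff
 1000000 0 0)) (.aff 18600000 29084070 10650504)) (.aff 1000000 0 0))) (.aff 1000000 0 0))), .pol, .pol, .sx
 100000 (.inf 2332381 428747) .pol, .pol⟩

def hL180_40_2_8 : pcchk ⟨(nat_lit 3), (nat_lit 1000), Int.ofNat (nat_lit 1000), 0, ⟨0, 1⟩, ⟨Int.ofNat
 (nat_lit 40), 200⟩⟩ ⟨900000, 950000, 961681, 948772, 974768, 269917, 320201, 227580, 316227, 223606⟩ false
 (nat_lit 400) (Int.negSucc (nat_lit 5159)) (nat_lit 450) (Int.negSucc (nat_lit 7345)) qL180_40_2_8 = true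
 := by decide +kernel

def qL180_40_2_9 : PCt := .one ⟨2008000, 251, 2008000, -964242, 286401, 0, 0, 200000, 450000, 500000⟩ ⟨0,
 .pol, .pol, .pol, .pol, .sx 100000 (.aff 20000000 47815619 7549835) (.sx 150000 (.aff 20000000 35314175
 10222524) (.sx 175000 (.sy 475000 (.aff 19300000 29750067 11256782) (.aff 20000000 32293791 11178620)) (.sy
 475000 (.aff 18800000 28433929 11143026) (.aff 19700000 29662522 11788951)))), .pol, .pol, .sx 100000 (.inf
 3082208 324443) (.sx 150000 (.inf 1949359 512990) .pol), .pol⟩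

def hL180_40_2_9 : pcchk ⟨(nat_lit 3), (nat_lit 1000), Int.ofNat (nat_lit 1000), 0, ⟨0, 1⟩, ⟨Int.ofNat
 (nat_lit 40), 200⟩⟩ ⟨900000, 950000, 961681, 948772, 974768, 269917, 320201, 227580, 316227, 223606⟩ false
 (nat_lit 450) (Int.negSucc (nat_lit 7345)) (nat_lit 500) (Int.negSucc (nat_lit 9746)) qL180_40_2_9 = true
 := by decide +kernel

def qL180_40_2_10 : PCt := .one ⟨2008000, 251, 2008000, -8121156, 3864857, 0, 0, 200000, 500000, 550000⟩ ⟨0,
 .pol, .pol, .pol, .pol, .sx 100000 (.aff 35000000 110172592 10492628) (.sx 150000 (.inf 2049391 487950)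
 (.sx 175000 (.inf 1797435 556349) (.sy 525000 (.sy 512500 (.sx 187500 (.inf 1671259 598352) (.sy 506250
 (.sx 193750 (.inf 1624606 615534) (.sy 503125 (.sx 196875 (.inf 1602499 624026) (.sy 501562 (.sx 198437
 (.inf 1591729 628248) (.sy 500781 (.sx 199218 (.inf 1586414 630353) (.sy 500390 (.sx 199609 (.inf 1583772
 631405) (.sy 500195 (.sx 199804 (.aff 35000000 53803455 21485610) (.sy 500097 (.aff 1500000 790802 316135)
 (.sy 500146 (.aff 20000000 30052652 12012252) (.inf 1581796 632193)))) (.inf 1582375 631962))) (.inf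
 1583614 631468))) (.inf 1586092 630481))) (.inf 1591068 628509))) (.inf 1601091 624575))) (.inf 1621430
 616740))) (.inf 1663330 601204)) (.inf 1693124 590625)))), .pol, .pol, .sy 525000 (.sx 100000 (.inf 3201563
 312348) (.sy 512500 (.sx 150000 (.inf 2012462 496904) (.sy 506250 (.sx 175000 (.inf 1759590 568315) .pol)
 (.inf 1706082 586139))) (.inf 1487728 672166))) (.inf 1854724 539164), .pol⟩

def hL180_40_2_10 : pcchk ⟨(nat_lit 3), (nat_lit 1000), Int.ofNat (nat_lit 1000), 0, ⟨0, 1⟩, ⟨Int.ofNat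
 (nat_lit 40), 200⟩⟩ ⟨900000, 950000, 961681, 948772, 974768, 269917, 320201, 227580, 316227, 223606⟩ false
 (nat_lit 500) (Int.negSucc (nat_lit 9746)) (nat_lit 550) (Int.negSucc (nat_lit 29968)) qL180_40_2_10 = true
 := by decide +kernel

def qL180_40_2_11 : PCt := .one ⟨2008000, 251, 2008000, -12450, -594931, 0, 0, 200000, 550000, 600000⟩ ⟨0,
 .pol, .pol, .pol, .pol, .inf 1918333 521286, .pol, .pol, .inf 1918333 521286, .pol⟩

def hL180_40_2_11 : pcchk ⟨(nat_lit 3), (nat_lit 1000), Int.ofNat (nat_lit 1000), 0, ⟨0, 1⟩, ⟨Int.ofNat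
 (nat_lit 40), 200⟩⟩ ⟨900000, 950000, 961681, 948772, 974768, 269917, 320201, 227580, 316227, 223606⟩ false
 (nat_lit 550) (Int.negSucc (nat_lit 29968)) (nat_lit 600) (Int.negSucc (nat_lit 29999)) qL180_40_2_11 =
 true := by decide +kernel

def qL180_40_2_12 : PCt := .one ⟨2008000, 251, 2008000, 0, -602400, 0, 0, 200000, 600000, 650000⟩ ⟨0, .pol,
 .pol, .pol, .pol, .inf 2000000 500000, .pol, .pol, .inf 2000000 500000, .pol⟩

def hL180_40_2_12 : pcchk ⟨(nat_lit 3), (nat_lit 1000), Int.ofNat (nat_lit 1000), 0, ⟨0, 1⟩, ⟨Int.ofNat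
 (nat_lit 40), 200⟩⟩ ⟨900000, 950000, 961681, 948772, 974768, 269917, 320201, 227580, 316227, 223606⟩ false
 (nat_lit 600) (Int.negSucc (nat_lit 29999)) (nat_lit 650) (Int.negSucc (nat_lit 29999)) qL180_40_2_12 =
 true := by decide +kernel

def qL180_40_2_13 : PCt := .one ⟨2008000, 251, 2008000, 0, -602400, 0, 0, 200000, 650000, 700000⟩ ⟨0, .pol,
 .pol, .pol, .pol, .aff 35000000 72124892 16027754, .pol, .pol, .inf 2598077 384901, .pol⟩

def hL180_40_2_13 : pcchk ⟨(nat_lit 3), (nat_lit 1000), Int.ofNat (nat_lit 1000), 0, ⟨0, 1⟩, ⟨Int.ofNat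
 (nat_lit 40), 200⟩⟩ ⟨900000, 950000, 961681, 948772, 974768, 269917, 320201, 227580, 316227, 223606⟩ false
 (nat_lit 650) (Int.negSucc (nat_lit 29999)) (nat_lit 700) (Int.negSucc (nat_lit 29999)) qL180_40_2_13 =
 true := by decide +kernel

def qL180_40_2_14 : PCt := .one ⟨2008000, 251, 2008000, 0, -602400, 0, 0, 200000, 700000, 750000⟩ ⟨0, .pol,
 .pol, .pol, .pol, .aff 35000000 74748468 15465200, .pol, .pol, .inf 2692583 371391, .pol⟩

def hL180_40_2_14 : pcchk ⟨(nat_lit 3), (nat_lit 1000), Int.ofNat (nat_lit 1000), 0, ⟨0, 1⟩, ⟨Int.ofNat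
 (nat_lit 40), 200⟩⟩ ⟨900000, 950000, 961681, 948772, 974768, 269917, 320201, 227580, 316227, 223606⟩ false
 (nat_lit 700) (Int.negSucc (nat_lit 29999)) (nat_lit 750) (Int.negSucc (nat_lit 29999)) qL180_40_2_14 =
 true := by decide +kernel

def qL180_40_2_15 : PCt := .one ⟨2008000, 251, 2008000, 0, -602400, 0, 0, 200000, 750000, 800000⟩ ⟨0, .pol,
 .pol, .pol, .pol, .aff 20000000 43187576 8358886, .pol, .pol, .inf 2783883 359211, .pol⟩

def hL180_40_2_15 : pcchk ⟨(nat_lit 3), (nat_lit 1000), Int.ofNat (nat_lit 1000), 0, ⟨0, 1⟩, ⟨Int.ofNat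
 (nat_lit 40), 200⟩⟩ ⟨900000, 950000, 961681, 948772, 974768, 269917, 320201, 227580, 316227, 223606⟩ false
 (nat_lit 750) (Int.negSucc (nat_lit 29999)) (nat_lit 800) (Int.negSucc (nat_lit 29999)) qL180_40_2_15 =
 true := by decide +kernel

def qL180_40_2_16 : PCt := .one ⟨2008000, 251, 2008000, 0, -602400, 0, 0, 200000, 800000, 850000⟩ ⟨0, .pol,
 .pol, .pol, .pol, .aff 20000000 44558950 8101628, .pol, .pol, .inf 2872282 348156, .pol⟩

def hL180_40_2_16 : pcchk ⟨(nat_lit 3), (nat_lit 1000), Int.ofNat (nat_lit 1000), 0, ⟨0, 1⟩, ⟨Int.ofNat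
 (nat_lit 40), 200⟩⟩ ⟨900000, 950000, 961681, 948772, 974768, 269917, 320201, 227580, 316227, 223606⟩ false
 (nat_lit 800) (Int.negSucc (nat_lit 29999)) (nat_lit 850) (Int.negSucc (nat_lit 29999)) qL180_40_2_16 =
 true := by decide +kernel

def qL180_40_2_17 : PCt := .one ⟨2008000, 251, 2008000, 0, -602400, 0, 0, 200000, 850000, 900000⟩ ⟨0, .pol,
 .pol, .pol, .pol, .aff 20000000 56202758 6423173, .pol, .pol, .inf 2958040 338062, .pol⟩

def hL180_40_2_17 : pcchk ⟨(nat_lit 3), (nat_lit 1000), Int.ofNat (nat_lit 1000), 0, ⟨0, 1⟩, ⟨Int.ofNat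
 (nat_lit 40), 200⟩⟩ ⟨900000, 950000, 961681, 948772, 974768, 269917, 320201, 227580, 316227, 223606⟩ false
 (nat_lit 850) (Int.negSucc (nat_lit 29999)) (nat_lit 900) (Int.negSucc (nat_lit 29999)) qL180_40_2_17 =
 true := by decide +kernel

def qL180_40_2_18 : PCt := .one ⟨2008000, 251, 2008000, 0, -602400, 0, 0, 200000, 900000, 950000⟩ ⟨0, .pol,
 .pol, .pol, .pol, .aff 12000000 27316052 4429630, .pol, .pol, .inf 3041382 328798, .pol⟩

def hL180_40_2_18 : pcchk ⟨(nat_lit 3), (nat_lit 1000), Int.ofNat (nat_lit 1000), 0, ⟨0, 1⟩, ⟨Int.ofNat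
 (nat_lit 40), 200⟩⟩ ⟨900000, 950000, 961681, 948772, 974768, 269917, 320201, 227580, 316227, 223606⟩ false
 (nat_lit 900) (Int.negSucc (nat_lit 29999)) (nat_lit 950) (Int.negSucc (nat_lit 29999)) qL180_40_2_18 =
 true := by decide +kernel

def qL180_40_2_19 : PCt := .one ⟨2008000, 251, 2008000, 0, -602400, 0, 0, 200000, 950000, 1000000⟩ ⟨0, .pol,
 .pol, .pol, .pol, .aff 12000000 28044608 4314555, .pol, .pol, .inf 3122499 320257, .pol⟩

def hL180_40_2_19 : pcchk ⟨(nat_lit 3), (nat_lit 1000), Int.ofNat (nat_lit 1000), 0, ⟨0, 1⟩, ⟨Int.ofNat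
 (nat_lit 40), 200⟩⟩ ⟨900000, 950000, 961681, 948772, 974768, 269917, 320201, 227580, 316227, 223606⟩ false
 (nat_lit 950) (Int.negSucc (nat_lit 29999)) (nat_lit 1000) (Int.negSucc (nat_lit 29999)) qL180_40_2_19 =
 true := by decide +kernel

def qL180_40_3_0 : PCt := .one ⟨2008000, 251, 371480, 787939, 0, 0, 0, 200000, 0, 50000⟩ ⟨50000, .pol, .sp
 500000 (.sp 250000 (.sp 125000 (.aff 306187 3265978) (.aff 433013 2309400)) .pol) .pol, .pol, .pol, .sx
 125000 (.sx 87500 (.sy 25000 (.sy 12500 (.sx 68750 (.sy 6250 (.sx 59375 (.aff 25000 305894 3107695) (.sx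
 64062 (.sx 61718 (.sy 3125 (.aff 0 160645 6224906) (.sy 4687 (.aff 0 253993 3937117) (.aff 75000 275341
 3107511))) (.sy 3125 (.aff 0 157623 6344252) (.aff 125000 238885 3204995))) (.aff 275000 158682 3312443)))
 (.sy 9375 (.aff 75000 303453 2819630) (.aff 1000000 0 0))) (.aff 125000 247488 3093585)) (.aff 1000000 0
 0)) .pol) (.aff 1000000 0 0)) (.aff 1000000 0 0), .pol, .pol, .pol, .pol⟩

def hL180_40_3_0 : pcchk ⟨(nat_lit 1), (nat_lit 1000), Int.ofNat (nat_lit 185), 0, ⟨0, 1⟩, ⟨Int.ofNat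
 (nat_lit 40), 200⟩⟩ ⟨900000, 950000, 961681, 948772, 974768, 269917, 320201, 227580, 316227, 223606⟩ true 0
 0 (nat_lit 50) (Int.ofNat (nat_lit 1962)) qL180_40_3_0 = true := by decide +kernel

def qL180_40_3_1 : PCt := .one ⟨2008000, 251, 371480, -450997, 61946, 0, 0, 200000, 50000, 100000⟩ ⟨0, .pol,
 .pol, .pol, .pol, .aff 1000000 0 0, .pol, .pol, .sx 100000 (.sx 50000 .pol .pol) .pol, .pol⟩

def hL180_40_3_1 : pcchk ⟨(nat_lit 1), (nat_lit 1000), Int.ofNat (nat_lit 185), 0, ⟨0, 1⟩, ⟨Int.ofNat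
 (nat_lit 40), 200⟩⟩ ⟨900000, 950000, 961681, 948772, 974768, 269917, 320201, 227580, 316227, 223606⟩ false
 (nat_lit 50) (Int.ofNat (nat_lit 1962)) (nat_lit 100) (Int.ofNat (nat_lit 839)) qL180_40_3_1 = true := by
 decide +kernel

def qL180_40_3_2 : PCt := .one ⟨2008000, 251, 371480, -80722, 24919, 0, 0, 200000, 100000, 150000⟩ ⟨0, .pol,
 .pol, .pol, .pol, .sx 100000 (.sx 50000 (.sx 25000 (.aff 1188000 1661637 21271) (.aff 1000000 0 0)) (.aff
 1000000 0 0)) (.aff 1000000 0 0), .pol, .pol, .sx 100000 .pol .pol, .pol⟩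

def hL180_40_3_2 : pcchk ⟨(nat_lit 1), (nat_lit 1000), Int.ofNat (nat_lit 185), 0, ⟨0, 1⟩, ⟨Int.ofNat
 (nat_lit 40), 200⟩⟩ ⟨900000, 950000, 961681, 948772, 974768, 269917, 320201, 227580, 316227, 223606⟩ false
 (nat_lit 100) (Int.ofNat (nat_lit 839)) (nat_lit 150) (Int.ofNat (nat_lit 638)) qL180_40_3_2 = true := by
 decide +kernel

def qL180_40_3_3 : PCt := .one ⟨2008000, 251, 371480, -136946, 33352, 0, 0, 200000, 150000, 200000⟩ ⟨0,
 .pol, .pol, .pol, .pol, .sx 100000 (.sx 50000 (.sx 25000 (.aff 1553000 2069137 147796) (.aff 1000000 0 0))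
 (.aff 1000000 0 0)) (.aff 1000000 0 0), .pol, .pol, .sx 100000 .pol (.sx 150000 .pol .pol), .pol⟩

def hL180_40_3_3 : pcchk ⟨(nat_lit 1), (nat_lit 1000), Int.ofNat (nat_lit 185), 0, ⟨0, 1⟩, ⟨Int.ofNat
 (nat_lit 40), 200⟩⟩ ⟨900000, 950000, 961681, 948772, 974768, 269917, 320201, 227580, 316227, 223606⟩ false
 (nat_lit 150) (Int.ofNat (nat_lit 638)) (nat_lit 200) (Int.ofNat (nat_lit 297)) qL180_40_3_3 = true := by
 decide +kernel

def qL180_40_3_4 : PCt := .one ⟨2008000, 251, 371480, -172688, 40501, 0, 0, 200000, 200000, 250000⟩ ⟨0,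
 .pol, .pol, .pol, .pol, .sx 100000 (.sx 50000 (.sx 25000 (.aff 1800000 2400000 266667) (.aff 1863000
 2278550 326861)) (.aff 1000000 0 0)) (.aff 1000000 0 0), .pol, .pol, .pol, .pol⟩

def hL180_40_3_4 : pcchk ⟨(nat_lit 1), (nat_lit 1000), Int.ofNat (nat_lit 185), 0, ⟨0, 1⟩, ⟨Int.ofNat
 (nat_lit 40), 200⟩⟩ ⟨900000, 950000, 961681, 948772, 974768, 269917, 320201, 227580, 316227, 223606⟩ false
 (nat_lit 200) (Int.ofNat (nat_lit 297)) (nat_lit 250) (Int.negSucc (nat_lit 132)) qL180_40_3_4 = true := by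
 decide +kernel

def qL180_40_3_5 : PCt := .one ⟨2008000, 251, 371480, -209234, 49637, 0, 0, 200000, 250000, 300000⟩ ⟨0,
 .pol, .pol, .pol, .pol, .sy 275000 (.sx 100000 (.sx 50000 (.aff 2050000 2642553 417211) (.aff 2191000
 2582055 549362)) (.aff 1000000 0 0)) (.sy 287500 (.sx 100000 (.sx 50000 (.aff 3000000 4743417 843274) (.sx
 75000 (.aff 2100000 2459675 491935) (.aff 1000000 0 0))) (.aff 1000000 0 0)) (.sx 100000 (.sx 50000 (.aff
 3000000 5597619 714590) (.aff 2200000 2601539 553519)) (.aff 1000000 0 0))), .pol, .pol, .pol, .pol⟩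

def hL180_40_3_5 : pcchk ⟨(nat_lit 1), (nat_lit 1000), Int.ofNat (nat_lit 185), 0, ⟨0, 1⟩, ⟨Int.ofNat
 (nat_lit 40), 200⟩⟩ ⟨900000, 950000, 961681, 948772, 974768, 269917, 320201, 227580, 316227, 223606⟩ false
 (nat_lit 250) (Int.negSucc (nat_lit 132)) (nat_lit 300) (Int.negSucc (nat_lit 653)) qL180_40_3_5 = true :=
 by decide +kernel

def qL180_40_3_6 : PCt := .one ⟨2008000, 251, 371480, -234133, 57107, 0, 0, 200000, 300000, 350000⟩ ⟨0,
 .pol, .pol, .pol, .pol, .sy 325000 (.sy 312500 (.sx 100000 (.sy 306250 (.sx 50000 (.aff 3000000 5686241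
 703453) (.aff 2175000 2587670 533540)) (.sx 50000 (.aff 3000000 5744563 696311) (.sx 75000 (.aff 2500000
 3046515 738549) (.aff 1000000 0 0)))) (.aff 1000000 0 0)) (.sx 100000 (.sy 318750 (.sx 50000 (.aff 3000000
 5802299 689382) (.sx 75000 (.aff 2600000 3282276 779947) (.aff 1000000 0 0))) (.sx 50000 (.aff 3000000
 5859466 682657) (.sx 75000 (.aff 3000000 4327502 924321) (.aff 2200000 2388434 602906)))) (.aff 1000000 0
 0))) (.sx 100000 (.sx 50000 (.aff 3000000 6000001 666667) (.sx 75000 (.aff 3000000 4431294 902671) (.aff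
 2350000 2751434 662382))) (.aff 1000000 0 0)), .pol, .pol, .pol, .pol⟩

def hL180_40_3_6 : pcchk ⟨(nat_lit 1), (nat_lit 1000), Int.ofNat (nat_lit 185), 0, ⟨0, 1⟩, ⟨Int.ofNat
 (nat_lit 40), 200⟩⟩ ⟨900000, 950000, 961681, 948772, 974768, 269917, 320201, 227580, 316227, 223606⟩ false
 (nat_lit 300) (Int.negSucc (nat_lit 653)) (nat_lit 350) (Int.negSucc (nat_lit 1236)) qL180_40_3_6 = true :=
 by decide +kernel

def qL180_40_3_7 : PCt := .one ⟨2008000, 251, 371480, -264655, 67790, 0, 0, 200000, 350000, 400000⟩ ⟨0,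
 .pol, .pol, .pol, .pol, .sy 375000 (.sx 100000 (.aff 2800000 3427098 945407) (.aff 2425000 2681905 757158))
 (.sy 387500 (.sx 100000 (.aff 3000000 3905125 1024295) (.sy 381250 (.sx 150000 (.sy 378125 (.sx 125000 (.sx
 112500 (.aff 3000000 3765166 1062371) (.aff 1000000 0 0)) (.aff 1000000 0 0)) (.sx 125000 (.sx 112500 (.aff
 3000000 3780757 1057990) (.aff 1500000 894060 279624)) (.aff 1000000 0 0))) (.aff 1000000 0 0)) (.sx 150000
 (.sx 125000 (.aff 2800000 3156423 1026479) (.aff 1000000 0 0)) (.aff 1000000 0 0)))) (.sx 100000 (.aff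
 3000000 3968627 1007906) (.sx 150000 (.sx 125000 (.aff 2900000 3372166 1070529) (.aff 1500000 846115
 295469)) (.aff 1000000 0 0)))), .pol, .pol, .pol, .pol⟩

def hL180_40_3_7 : pcchk ⟨(nat_lit 1), (nat_lit 1000), Int.ofNat (nat_lit 185), 0, ⟨0, 1⟩, ⟨Int.ofNat
 (nat_lit 40), 200⟩⟩ ⟨900000, 950000, 961681, 948772, 974768, 269917, 320201, 227580, 316227, 223606⟩ false
 (nat_lit 350) (Int.negSucc (nat_lit 1236)) (nat_lit 400) (Int.negSucc (nat_lit 1895)) qL180_40_3_7 = true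
 := by decide +kernel

def qL180_40_3_8 : PCt := .one ⟨2008000, 251, 371480, -287144, 76785, 0, 0, 200000, 400000, 450000⟩ ⟨0,
 .pol, .pol, .pol, .pol, .sy 425000 (.sy 412500 (.sy 406250 (.sx 100000 (.aff 3000000 4636810 862663) (.sx
 150000 (.aff 2925000 3296092 1124249) (.aff 1000000 0 0))) (.sx 100000 (.aff 3000000 4672616 856052) (.sx
 150000 (.aff 2900000 3278408 1101145) (.aff 1000000 0 0)))) (.sy 418750 (.sx 100000 (.aff 3000000 4708149
 849591) (.sx 150000 (.aff 2900000 3303339 1092834) (.aff 1000000 0 0))) (.sy 421875 (.sx 100000 (.aff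
 3000000 4734625 844840) (.sx 150000 (.aff 2900000 3321915 1086723) (.aff 1000000 0 0))) (.sx 100000 (.aff
 3000000 4752193 841717) (.sx 150000 (.aff 2900000 3334241 1082706) (.aff 1000000 0 0)))))) (.sy 437500 (.sy
 431250 (.sy 428125 (.sx 100000 (.aff 3000000 4769697 838628) (.sx 150000 (.aff 3000000 3372685 1185999)
 (.aff 1000000 0 0))) (.sx 100000 (.aff 3000000 4787136 835573) (.sx 150000 (.aff 3000000 3535534 1131371)
 (.aff 1500000 783479 319090)))) (.sy 434375 (.sx 100000 (.aff 3000000 4804512 832551) (.sx 150000 (.aff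
 3000000 3548368 1127279) (.aff 1500000 786323 317936))) (.sy 435937 (.sx 100000 (.aff 3000000 4817502
 830306) (.sx 150000 (.aff 3000000 3557961 1124240) (.aff 1500000 818212 305545))) (.sx 100000 (.aff 3000000
 4826143 828820) (.sx 150000 (.aff 3000000 3564343 1122227) (.aff 3000000 3278719 1219989)))))) (.sy 443750
 (.sy 440625 (.sx 100000 (.aff 3000000 4839078 826604) (.sx 150000 (.aff 3000000 3573896 1119227) (.aff
 3000000 3287506 1216728))) (.sx 100000 (.aff 3000000 4856268 823678) (.sx 150000 (.aff 3000000 3586592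
 1115265) (.aff 3000000 3299185 1212421)))) (.sy 446875 (.sy 445312 (.sx 100000 (.aff 3000000 4869120
 821504) (.sx 150000 (.aff 3000000 3596083 1112322) (.aff 2900000 3142520 1148760))) (.sy 446093 (.sx 100000
 (.aff 3000000 4875531 820424) (.sx 150000 (.aff 3000000 3600819 1110859) (.aff 2900000 3146658 1147249)))
 (.sx 100000 (.aff 3000000 4879804 819706) (.sx 150000 (.aff 3000000 3603974 1109886) (.aff 2900000 3149415
 1146245))))) (.sy 448437 (.sx 100000 (.aff 3000000 4886204 818632) (.sx 150000 (.aff 3000000 3608701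
 1108433) (.aff 2900000 3153546 1144744))) (.sx 100000 (.aff 3000000 4894724 817207) (.sx 150000 (.aff
 3000000 3614994 1106503) (.aff 3100000 3364567 1310719))))))), .pol, .pol, .pol, .pol⟩

def hL180_40_3_8 : pcchk ⟨(nat_lit 1), (nat_lit 1000), Int.ofNat (nat_lit 185), 0, ⟨0, 1⟩, ⟨Int.ofNat
 (nat_lit 40), 200⟩⟩ ⟨900000, 950000, 961681, 948772, 974768, 269917, 320201, 227580, 316227, 223606⟩ false
 (nat_lit 400) (Int.negSucc (nat_lit 1895)) (nat_lit 450) (Int.negSucc (nat_lit 2610)) qL180_40_3_8 = true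
 := by decide +kernel

def qL180_40_3_9 : PCt := .one ⟨2008000, 251, 371480, -295176, 80400, 0, 0, 200000, 450000, 500000⟩ ⟨0,
 .pol, .pol, .pol, .pol, .sy 475000 (.sy 462500 (.sy 456250 (.sy 453125 (.sy 451562 (.sy 450781 (.sx 100000
 (.aff 3000000 4901105 816143) (.sx 150000 (.aff 3000000 3619706 1105063) (.aff 3100000 3368953 1309013)))
 (.sx 100000 (.aff 3000000 4905353 815436) (.sx 150000 (.aff 3000000 3622843 1104106) (.aff 3100000 3371873
 1307879)))) (.sy 452343 (.sx 100000 (.aff 3000000 4909597 814731) (.sx 150000 (.aff 3000000 3625977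
 1103151) (.aff 3100000 3374790 1306748))) (.sy 452734 (.sx 100000 (.aff 3000000 4912778 814204) (.sx 150000
 (.aff 3000000 3628327 1102437) (.aff 3000000 3216169 1243716))) (.sx 100000 (.aff 3000000 4914900 813852)
 (.sx 150000 (.aff 3000000 3629895 1101961) (.aff 3000000 3217558 1243179)))))) (.sy 454687 (.sy 453906 (.sx
 100000 (.aff 3000000 4918079 813326) (.sx 150000 (.aff 3000000 3632242 1101249) (.aff 3000000 3219638
 1242376))) (.sx 100000 (.aff 3000000 4922312 812627) (.sx 150000 (.aff 3000000 3635368 1100302) (.aff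
 3000000 3222410 1241307)))) (.sy 455468 (.sx 100000 (.aff 3000000 4926541 811929) (.sx 150000 (.aff 3000000
 3638492 1099357) (.aff 3000000 3225178 1240242))) (.sy 455859 (.sx 100000 (.aff 3000000 4929712 811407)
 (.sx 150000 (.aff 3000000 3640834 1098650) (.aff 3000000 3227254 1239444))) (.sx 100000 (.aff 3000000
 4931826 811059) (.sx 150000 (.aff 3000000 3642395 1098179) (.aff 3000000 3228638 1238913))))))) (.sy 459375
 (.sy 457812 (.sx 100000 (.aff 3000000 4937104 810192) (.sx 150000 (.aff 3000000 3646293 1097005) (.aff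
 3000000 3232093 1237589))) (.sy 458593 (.sx 100000 (.aff 3000000 4943427 809156) (.sx 150000 (.aff 3000000
 3650963 1095602) (.aff 3000000 3236233 1236005))) (.sx 100000 (.aff 3000000 4947641 808467) (.sx 150000
 (.aff 3000000 3654075 1094669) (.aff 3000000 3238992 1234953))))) (.sy 460937 (.sy 460156 (.sx 100000 (.aff
 3000000 4951851 807779) (.sx 150000 (.aff 3000000 3657185 1093738) (.aff 3000000 3241748 1233903))) (.sy
 460546 (.sx 100000 (.aff 3000000 4955003 807265) (.sx 150000 (.aff 3000000 3659513 1093042) (.aff 3000000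
 3243811 1233118))) (.sx 100000 (.aff 3000000 4957104 806923) (.sx 150000 (.aff 3000000 3661064 1092579)
 (.aff 3000000 3245187 1232595))))) (.sy 461718 (.sy 461327 (.sx 100000 (.aff 3000000 4959205 806581) (.sx
 150000 (.aff 3000000 3662616 1092116) (.aff 3000000 3246562 1232073))) (.sx 100000 (.aff 3000000 4961304
 806240) (.sx 150000 (.aff 3000000 3664166 1091654) (.aff 3000000 3247936 1231552)))) (.sy 462109 (.sy
 461913 (.sx 100000 (.aff 3000000 4962879 805984) (.sx 150000 (.aff 3000000 3665329 1091308) (.aff 3000000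
 3248967 1231161))) (.sx 100000 (.aff 3000000 4963929 805814) (.sx 150000 (.aff 3000000 3666105 1091077)
 (.aff 3000000 3249655 1230900)))) (.sx 100000 (.aff 3000000 4965506 805558) (.sx 150000 (.aff 3000000
 3667269 1090730) (.aff 3000000 3250687 1230510)))))))) (.sy 468750 (.sy 465625 (.sy 464062 (.sy 463281 (.sx
 100000 (.aff 3000000 4968652 805048) (.sx 150000 (.aff 3000000 3669593 1090040) (.aff 3000000 3252746
 1229731))) (.sx 100000 (.aff 3000000 4972841 804370) (.sx 150000 (.aff 3000000 3672687 1089121) (.aff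
 3000000 3255489 1228695)))) (.sx 100000 (.aff 3000000 4979122 803355) (.aff 3150000 3504071 1319180))) (.sx
 100000 (.aff 3000000 4991660 801337) (.aff 3137000 3491654 1307910))) (.sx 100000 (.aff 3000000 5016639
 797347) (.aff 3100000 3448370 1278866)))) (.sx 100000 (.aff 3000000 5099020 784465) (.aff 3050000 3421545
 1228247)), .pol, .pol, .pol, .pol⟩

def hL180_40_3_9 : pcchk ⟨(nat_lit 1), (nat_lit 1000), Int.ofNat (nat_lit 185), 0, ⟨0, 1⟩, ⟨Int.ofNat
 (nat_lit 40), 200⟩⟩ ⟨900000, 950000, 961681, 948772, 974768, 269917, 320201, 227580, 316227, 223606⟩ false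
 (nat_lit 450) (Int.negSucc (nat_lit 2610)) (nat_lit 500) (Int.negSucc (nat_lit 3345)) qL180_40_3_9 = true
 := by decide +kernel

def qL180_40_3_10 : PCt := .one ⟨2008000, 251, 371480, -10682159, 5273891, 0, 0, 200000, 500000, 550000⟩ ⟨0,
 .pol, .pol, .pol, .pol, .sx 100000 (.aff 8000000 18520260 2645752) (.sx 150000 (.aff 20000000 38938413
 9271051) (.sx 175000 (.aff 35000000 61112759 18915854) (.sx 187500 (.inf 1701926 587570) (.sy 525000 (.sx
 193750 (.inf 1639673 609878) (.sy 512500 (.sx 196875 (.inf 1609969 621130) (.sy 506250 (.sx 198437 (.inf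
 1595450 626783) (.sy 503125 (.sx 199218 (.inf 1588270 629616) (.sy 501562 (.sx 199609 (.inf 1584699 631035)
 (.sy 500781 (.sx 199804 (.inf 1582919 631745) (.sy 500390 (.sx 199902 (.sy 500195 (.aff 20000000 30055615
 12011067) (.inf 1582183 632039)) (.sy 500195 (.sy 500097 (.aff 1500000 790705 316174) (.sy 500146 (.aff
 1500000 790763 316151) (.inf 1581603 632270))) (.inf 1581796 632193))) (.inf 1582453 631931))) (.inf
 1583765 631407))) (.inf 1586392 630362))) (.inf 1591646 628281))) (.inf 1602164 624156))) (.inf 1623244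
 616051))) (.aff 35000000 56630096 20413174))))), .pol, .sx 100000 (.aff 35000000 110172592 10492628) (.sx
 150000 (.inf 2049391 487950) (.sx 175000 (.inf 1797435 556349) (.sy 525000 (.sy 512500 (.sy 506250 .pol
 (.inf 1648232 606711)) (.inf 1663330 601204)) (.inf 1693124 590625)))), .sy 525000 (.sy 512500 .pol (.sy
 518750 (.inf 1816591 550482) (.inf 1827567 547176))) (.inf 1854724 539164), .pol⟩

def hL180_40_3_10 : pcchk ⟨(nat_lit 1), (nat_lit 1000), Int.ofNat (nat_lit 185), 0, ⟨0, 1⟩, ⟨Int.ofNat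
 (nat_lit 40), 200⟩⟩ ⟨900000, 950000, 961681, 948772, 974768, 269917, 320201, 227580, 316227, 223606⟩ false
 (nat_lit 500) (Int.negSucc (nat_lit 3345)) (nat_lit 550) (Int.negSucc (nat_lit 29944)) qL180_40_3_10 = true
 := by decide +kernel

def qL180_40_3_11 : PCt := .one ⟨2008000, 251, 371480, -22088, -589148, 0, 0, 200000, 550000, 600000⟩ ⟨0,
 .pol, .pol, .pol, .pol, .aff 12000000 18651408 6487446, .pol, .inf 1918333 521286, .inf 1918333 521286,
 .pol⟩

def hL180_40_3_11 : pcchk ⟨(nat_lit 1), (nat_lit 1000), Int.ofNat (nat_lit 185), 0, ⟨0, 1⟩, ⟨Int.ofNat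
 (nat_lit 40), 200⟩⟩ ⟨900000, 950000, 961681, 948772, 974768, 269917, 320201, 227580, 316227, 223606⟩ false
 (nat_lit 550) (Int.negSucc (nat_lit 29944)) (nat_lit 600) (Int.negSucc (nat_lit 29999)) qL180_40_3_11 =
 true := by decide +kernel

def qL180_40_3_12 : PCt := .one ⟨2008000, 251, 371480, 0, -602400, 0, 0, 200000, 600000, 650000⟩ ⟨0, .pol,
 .pol, .pol, .pol, .aff 5000000 8164966 1959592, .pol, .inf 2000000 500000, .inf 2000000 500000, .pol⟩

def hL180_40_3_12 : pcchk ⟨(nat_lit 1), (nat_lit 1000), Int.ofNat (nat_lit 185), 0, ⟨0, 1⟩, ⟨Int.ofNat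
 (nat_lit 40), 200⟩⟩ ⟨900000, 950000, 961681, 948772, 974768, 269917, 320201, 227580, 316227, 223606⟩ false
 (nat_lit 600) (Int.negSucc (nat_lit 29999)) (nat_lit 650) (Int.negSucc (nat_lit 29999)) qL180_40_3_12 =
 true := by decide +kernel

def qL180_40_3_13 : PCt := .one ⟨2008000, 251, 371480, 0, -602400, 0, 0, 200000, 650000, 700000⟩ ⟨0, .pol,
 .pol, .pol, .pol, .aff 3000000 5196153 769801, .pol, .aff 35000000 62461989 18507256, .inf 2598077 384901,
 .pol⟩

def hL180_40_3_13 : pcchk ⟨(nat_lit 1), (nat_lit 1000), Int.ofNat (nat_lit 185), 0, ⟨0, 1⟩, ⟨Int.ofNat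
 (nat_lit 40), 200⟩⟩ ⟨900000, 950000, 961681, 948772, 974768, 269917, 320201, 227580, 316227, 223606⟩ false
 (nat_lit 650) (Int.negSucc (nat_lit 29999)) (nat_lit 700) (Int.negSucc (nat_lit 29999)) qL180_40_3_13 =
 true := by decide +kernel

def qL180_40_3_14 : PCt := .one ⟨2008000, 251, 371480, 0, -602400, 0, 0, 200000, 700000, 750000⟩ ⟨0, .pol,
 .pol, .pol, .pol, .aff 2000000 2692583 371391, .pol, .aff 35000000 74748468 15465200, .inf 2692583 371391,
 .pol⟩

def hL180_40_3_14 : pcchk ⟨(nat_lit 1), (nat_lit 1000), Int.ofNat (nat_lit 185), 0, ⟨0, 1⟩, ⟨Int.ofNat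
 (nat_lit 40), 200⟩⟩ ⟨900000, 950000, 961681, 948772, 974768, 269917, 320201, 227580, 316227, 223606⟩ false
 (nat_lit 700) (Int.negSucc (nat_lit 29999)) (nat_lit 750) (Int.negSucc (nat_lit 29999)) qL180_40_3_14 =
 true := by decide +kernel

def qL180_40_3_15 : PCt := .one ⟨2008000, 251, 371480, 0, -602400, 0, 0, 200000, 750000, 800000⟩ ⟨0, .pol,
 .pol, .pol, .pol, .aff 1500000 1391942 179606, .pol, .aff 20000000 37401538 9652010, .inf 2783883 359211,
 .pol⟩

def hL180_40_3_15 : pcchk ⟨(nat_lit 1), (nat_lit 1000), Int.ofNat (nat_lit 185), 0, ⟨0, 1⟩, ⟨Int.ofNat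
 (nat_lit 40), 200⟩⟩ ⟨900000, 950000, 961681, 948772, 974768, 269917, 320201, 227580, 316227, 223606⟩ false
 (nat_lit 750) (Int.negSucc (nat_lit 29999)) (nat_lit 800) (Int.negSucc (nat_lit 29999)) qL180_40_3_15 =
 true := by decide +kernel

def qL180_40_3_16 : PCt := .one ⟨2008000, 251, 371480, 0, -602400, 0, 0, 200000, 800000, 850000⟩ ⟨0, .pol,
 .pol, .pol, .pol, .aff 1500000 1436141 174078, .pol, .aff 20000000 44558950 8101628, .inf 2872282 348156,
 .pol⟩

def hL180_40_3_16 : pcchk ⟨(nat_lit 1), (nat_lit 1000), Int.ofNat (nat_lit 185), 0, ⟨0, 1⟩, ⟨Int.ofNat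
 (nat_lit 40), 200⟩⟩ ⟨900000, 950000, 961681, 948772, 974768, 269917, 320201, 227580, 316227, 223606⟩ false
 (nat_lit 800) (Int.negSucc (nat_lit 29999)) (nat_lit 850) (Int.negSucc (nat_lit 29999)) qL180_40_3_16 =
 true := by decide +kernel

def qL180_40_3_17 : PCt := .one ⟨2008000, 251, 371480, 0, -602400, 0, 0, 200000, 850000, 900000⟩ ⟨0, .pol,
 .pol, .pol, .pol, .aff 1000000 0 0, .pol, .aff 20000000 56202758 6423173, .inf 2958040 338062, .pol⟩

def hL180_40_3_17 : pcchk ⟨(nat_lit 1), (nat_lit 1000), Int.ofNat (nat_lit 185), 0, ⟨0, 1⟩, ⟨Int.ofNat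
 (nat_lit 40), 200⟩⟩ ⟨900000, 950000, 961681, 948772, 974768, 269917, 320201, 227580, 316227, 223606⟩ false
 (nat_lit 850) (Int.negSucc (nat_lit 29999)) (nat_lit 900) (Int.negSucc (nat_lit 29999)) qL180_40_3_17 =
 true := by decide +kernel

def qL180_40_3_18 : PCt := .one ⟨2008000, 251, 371480, 0, -602400, 0, 0, 200000, 900000, 950000⟩ ⟨0, .pol,
 .pol, .pol, .pol, .aff 1000000 0 0, .pol, .aff 20000000 57786245 6247162, .inf 3041382 328798, .pol⟩

def hL180_40_3_18 : pcchk ⟨(nat_lit 1), (nat_lit 1000), Int.ofNat (nat_lit 185), 0, ⟨0, 1⟩, ⟨Int.ofNat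
 (nat_lit 40), 200⟩⟩ ⟨900000, 950000, 961681, 948772, 974768, 269917, 320201, 227580, 316227, 223606⟩ false
 (nat_lit 900) (Int.negSucc (nat_lit 29999)) (nat_lit 950) (Int.negSucc (nat_lit 29999)) qL180_40_3_18 =
 true := by decide +kernel

def qL180_40_3_19 : PCt := .one ⟨2008000, 251, 371480, 0, -602400, 0, 0, 200000, 950000, 1000000⟩ ⟨0, .pol,
 .pol, .pol, .pol, .aff 1000000 0 0, .pol, .aff 12000000 28044608 4314555, .inf 3122499 320257, .pol⟩

def hL180_40_3_19 : pcchk ⟨(nat_lit 1), (nat_lit 1000), Int.ofNat (nat_lit 185), 0, ⟨0, 1⟩, ⟨Int.ofNat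
 (nat_lit 40), 200⟩⟩ ⟨900000, 950000, 961681, 948772, 974768, 269917, 320201, 227580, 316227, 223606⟩ false
 (nat_lit 950) (Int.negSucc (nat_lit 29999)) (nat_lit 1000) (Int.negSucc (nat_lit 29999)) qL180_40_3_19 =
 true := by decide +kernel

def qL180_40_4_0 : PCt := .one ⟨2008000, 251, 502000, 365456, 0, 0, 0, 200000, 0, 50000⟩ ⟨12500, .aff
 1154701 866026, .aff 866026 1154700, .pol, .pol, .sx 106250 (.sx 59375 (.sx 35937 (.sy 25000 (.sy 12500
 (.aff 0 870423 1148867) (.sx 24218 (.sx 18359 (.sy 18750 (.aff 13000 1044025 933090) (.aff 25000 1109454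
 856841)) (.sy 18750 (.aff 0 981176 1019186) (.aff 25000 1024203 928161))) (.aff 25000 940250 1011035)))
 (.sy 37500 (.aff 75000 1024793 834925) (.aff 500000 672025 372010))) (.aff 250000 486665 1155826)) (.aff
 1000000 0 0)) (.aff 1000000 0 0), .sy 31250 (.aff 13000 1123808 866847) (.aff 0 2081666 480385), .pol, .sx
 106250 .pol .pol, .pol⟩

def hL180_40_4_0 : pcchk ⟨(nat_lit 1), (nat_lit 1000), Int.ofNat (nat_lit 250), 0, ⟨0, 1⟩, ⟨Int.ofNat
 (nat_lit 40), 200⟩⟩ ⟨900000, 950000, 961681, 948772, 974768, 269917, 320201, 227580, 316227, 223606⟩ true 0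
 0 (nat_lit 50) (Int.ofNat (nat_lit 910)) qL180_40_4_0 = true := by decide +kernel

def qL180_40_4_1 : PCt := .one ⟨2008000, 251, 502000, -22490, 19397, 0, 0, 200000, 50000, 100000⟩ ⟨0, .pol,
 .pol, .pol, .pol, .sx 100000 (.aff 900000 301239 33197) (.aff 1000000 0 0), .pol, .pol, .sy 75000 (.sy
 62500 (.sy 56250 (.sy 53125 (.sx 100000 (.sx 50000 .pol .pol) .pol) (.sx 100000 (.sx 50000 .pol .pol)
 .pol)) (.sy 59375 (.sx 100000 (.sx 50000 .pol .pol) .pol) (.sx 100000 (.sx 50000 .pol .pol) .pol))) (.sy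
 68750 (.sy 65625 (.sx 100000 (.sx 50000 .pol .pol) .pol) (.sx 100000 (.sx 50000 .pol .pol) .pol)) (.sy
 71875 (.sx 100000 (.sx 50000 .pol .pol) .pol) (.sx 100000 (.sx 50000 .pol .pol) .pol)))) (.sy 87500 (.sy
 81250 (.sy 78125 (.sx 100000 (.sx 50000 .pol .pol) .pol) (.sx 100000 (.sx 50000 .pol .pol) .pol)) (.sy
 84375 (.sx 100000 (.sx 50000 .pol .pol) .pol) (.sx 100000 (.sx 50000 .pol .pol) .pol))) (.sy 93750 (.sy
 90625 (.sx 100000 (.sx 50000 .pol .pol) .pol) (.sx 100000 (.sx 50000 .pol .pol) .pol)) (.sy 96875 (.sx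
 100000 (.sx 50000 .pol .pol) .pol) (.sx 100000 (.sx 50000 .pol .pol) .pol)))), .pol⟩

def hL180_40_4_1 : pcchk ⟨(nat_lit 1), (nat_lit 1000), Int.ofNat (nat_lit 250), 0, ⟨0, 1⟩, ⟨Int.ofNat
 (nat_lit 40), 200⟩⟩ ⟨900000, 950000, 961681, 948772, 974768, 269917, 320201, 227580, 316227, 223606⟩ false
 (nat_lit 50) (Int.ofNat (nat_lit 910)) (nat_lit 100) (Int.ofNat (nat_lit 854)) qL180_40_4_1 = true := by
 decide +kernel

def qL180_40_4_2 : PCt := .one ⟨2008000, 251, 502000, -95983, 26746, 0, 0, 200000, 100000, 150000⟩ ⟨0, .pol,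
 .pol, .pol, .pol, .sx 100000 (.sx 50000 (.aff 1250000 2148991 29084) (.aff 1000000 0 0)) (.aff 1000000 0
 0), .pol, .pol, .sx 100000 .pol .pol, .pol⟩

def hL180_40_4_2 : pcchk ⟨(nat_lit 1), (nat_lit 1000), Int.ofNat (nat_lit 250), 0, ⟨0, 1⟩, ⟨Int.ofNat
 (nat_lit 40), 200⟩⟩ ⟨900000, 950000, 961681, 948772, 974768, 269917, 320201, 227580, 316227, 223606⟩ false
 (nat_lit 100) (Int.ofNat (nat_lit 854)) (nat_lit 150) (Int.ofNat (nat_lit 615)) qL180_40_4_2 = true := by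
 decide +kernel

def qL180_40_4_3 : PCt := .one ⟨2008000, 251, 502000, -176303, 38794, 0, 0, 200000, 150000, 200000⟩ ⟨0,
 .pol, .pol, .pol, .pol, .sx 100000 (.sy 175000 (.sx 50000 (.sy 162500 (.aff 1600000 2590987 138944) (.sy
 168750 (.aff 1575000 2556435 129331) (.aff 1744000 2758826 200642))) (.aff 1000000 0 0)) (.sy 187500 (.sx
 50000 (.sy 181250 (.aff 1725000 2736815 192058) (.sy 184375 (.sx 25000 (.sx 12500 (.aff 2000000 4415881
 226456) (.sx 18750 (.aff 1951000 3044670 297045) (.aff 1000000 0 0))) (.aff 1000000 0 0)) (.sx 25000 (.aff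
 1963000 3032559 305805) (.aff 1000000 0 0)))) (.aff 1000000 0 0)) (.sx 50000 (.sx 25000 (.aff 1950000
 3053823 295532) (.aff 1000000 0 0)) (.aff 1000000 0 0)))) (.aff 1000000 0 0), .pol, .pol, .sy 175000 (.sx
 100000 .pol .pol) (.sy 187500 (.sx 100000 .pol .pol) (.sy 193750 (.sx 100000 .pol .pol) (.sy 196875 (.sx
 100000 .pol .pol) (.sx 100000 .pol (.sx 150000 .pol .pol))))), .pol⟩

def hL180_40_4_3 : pcchk ⟨(nat_lit 1), (nat_lit 1000), Int.ofNat (nat_lit 250), 0, ⟨0, 1⟩, ⟨Int.ofNat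
 (nat_lit 40), 200⟩⟩ ⟨900000, 950000, 961681, 948772, 974768, 269917, 320201, 227580, 316227, 223606⟩ false
 (nat_lit 150) (Int.ofNat (nat_lit 615)) (nat_lit 200) (Int.ofNat (nat_lit 176)) qL180_40_4_3 = true := by
 decide +kernel

def qL180_40_4_4 : PCt := .one ⟨2008000, 251, 502000, -224896, 48513, 0, 0, 200000, 200000, 250000⟩ ⟨0,
 .pol, .pol, .pol, .pol, .sy 225000 (.sx 100000 (.sy 212500 (.sx 50000 (.aff 2088000 3125043 378793) (.aff
 1000000 0 0)) (.sy 218750 (.sx 50000 (.aff 2047000 3074867 356507) (.aff 1000000 0 0)) (.sx 50000 (.sx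
 25000 (.aff 3000000 6879923 581402) (.aff 2100000 2931041 412823)) (.aff 1000000 0 0)))) (.aff 1000000 0
 0)) (.sy 237500 (.sx 100000 (.sy 231250 (.sx 50000 (.sx 25000 (.aff 3000000 6976150 573383) (.aff 2100000
 2972037 407129)) (.aff 1000000 0 0)) (.sx 50000 (.sx 25000 (.aff 3000000 7071068 565686) (.aff 2100000
 3012475 401664)) (.aff 1000000 0 0))) (.aff 1000000 0 0)) (.sx 100000 (.sy 243750 (.sx 50000 (.sx 25000
 (.aff 3000000 7164729 558291) (.aff 2100000 3052377 396413)) (.aff 1000000 0 0)) (.sx 50000 (.sx 25000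
 (.aff 3000000 8888195 450036) (.aff 2100000 3091764 391363)) (.aff 1000000 0 0))) (.aff 1000000 0 0))),
 .pol, .pol, .pol, .pol⟩

def hL180_40_4_4 : pcchk ⟨(nat_lit 1), (nat_lit 1000), Int.ofNat (nat_lit 250), 0, ⟨0, 1⟩, ⟨Int.ofNat
 (nat_lit 40), 200⟩⟩ ⟨900000, 950000, 961681, 948772, 974768, 269917, 320201, 227580, 316227, 223606⟩ false
 (nat_lit 200) (Int.ofNat (nat_lit 176)) (nat_lit 250) (Int.negSucc (nat_lit 383)) qL180_40_4_4 = true := by
 decide +kernel

def qL180_40_4_5 : PCt := .one ⟨2008000, 251, 502000, -275498, 61163, 0, 0, 200000, 250000, 300000⟩ ⟨0,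
 .pol, .pol, .pol, .pol, .sy 275000 (.sy 262500 (.sy 256250 (.sx 100000 (.sx 50000 (.aff 2644000 3699000
 730667) (.aff 1000000 0 0)) (.aff 1000000 0 0)) (.sx 100000 (.sx 50000 (.aff 2600000 3644174 702492) (.aff
 1000000 0 0)) (.aff 1000000 0 0))) (.sy 268750 (.sx 100000 (.sx 50000 (.aff 2700000 3918307 737564) (.aff
 1000000 0 0)) (.aff 1000000 0 0)) (.sx 100000 (.sx 50000 (.aff 3000000 4663690 857690) (.aff 2200000
 2766021 520604)) (.aff 1000000 0 0)))) (.sy 287500 (.sy 281250 (.sx 100000 (.sx 50000 (.aff 3000000 4716991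
 847999) (.aff 2350000 3147337 579061)) (.aff 1000000 0 0)) (.sx 100000 (.sx 50000 (.aff 3000000 4769697
 838628) (.sx 75000 (.sx 62500 (.aff 2700000 3626224 796973) (.aff 1000000 0 0)) (.aff 1000000 0 0))) (.aff
 1000000 0 0))) (.sy 293750 (.sx 100000 (.sx 50000 (.aff 3000000 5567765 718422) (.sx 75000 (.sx 62500 (.aff
 2900000 4097134 881104) (.aff 1000000 0 0)) (.aff 1000000 0 0))) (.aff 1000000 0 0)) (.sx 100000 (.sx 50000
 (.aff 3000000 5627315 710819) (.sx 75000 (.sx 62500 (.aff 3000000 4594683 870572) (.aff 2100000 2339618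
 517179)) (.aff 1000000 0 0))) (.aff 1000000 0 0)))), .pol, .pol, .pol, .pol⟩

def hL180_40_4_5 : pcchk ⟨(nat_lit 1), (nat_lit 1000), Int.ofNat (nat_lit 250), 0, ⟨0, 1⟩, ⟨Int.ofNat
 (nat_lit 40), 200⟩⟩ ⟨900000, 950000, 961681, 948772, 974768, 269917, 320201, 227580, 316227, 223606⟩ false
 (nat_lit 250) (Int.negSucc (nat_lit 383)) (nat_lit 300) (Int.negSucc (nat_lit 1069)) qL180_40_4_5 = true :=
 by decide +kernel

def qL180_40_4_6 : PCt := .one ⟨2008000, 251, 502000, -309634, 71404, 0, 0, 200000, 300000, 350000⟩ ⟨0,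
 .pol, .pol, .pol, .pol, .sx 100000 (.sy 325000 (.sx 50000 (.aff 3000000 5773503 692821) (.aff 2838000
 3751802 900433)) (.sx 50000 (.aff 3000000 6000001 666667) (.aff 2994000 3916139 1015295))) (.aff 1000000 0
 0), .pol, .pol, .pol, .pol⟩

def hL180_40_4_6 : pcchk ⟨(nat_lit 1), (nat_lit 1000), Int.ofNat (nat_lit 250), 0, ⟨0, 1⟩, ⟨Int.ofNat
 (nat_lit 40), 200⟩⟩ ⟨900000, 950000, 961681, 948772, 974768, 269917, 320201, 227580, 316227, 223606⟩ false
 (nat_lit 300) (Int.negSucc (nat_lit 1069)) (nat_lit 350) (Int.negSucc (nat_lit 1840)) qL180_40_4_6 = true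
 := by decide +kernel

def qL180_40_4_7 : PCt := .one ⟨2008000, 251, 502000, -345778, 84054, 0, 0, 200000, 350000, 400000⟩ ⟨0,
 .pol, .pol, .pol, .pol, .sy 375000 (.sy 362500 (.sx 100000 (.sx 50000 (.aff 3000000 6164415 648886) (.aff
 3000000 4035557 991190)) (.sx 150000 (.aff 3100000 3736978 1180098) (.aff 1000000 0 0))) (.sy 368750 (.sx
 100000 (.aff 5000000 7648530 2091906) (.sx 150000 (.aff 3100000 3785829 1164871) (.aff 1000000 0 0))) (.sx
 100000 (.aff 5000000 7713625 2074252) (.sx 150000 (.aff 3100000 3818050 1155040) (.aff 1000000 0 0)))))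
 (.sy 387500 (.sy 381250 (.sx 100000 (.aff 5000000 8981463 1781447) (.sx 150000 (.aff 3100000 3850000
 1145455) (.aff 1000000 0 0))) (.sy 384375 (.sx 100000 (.aff 5000000 9036962 1770507) (.sx 150000 (.aff
 3100000 3873791 1138420) (.aff 1000000 0 0))) (.sx 100000 (.aff 5000000 9073772 1763325) (.sx 150000 (.aff
 3100000 3889570 1133802) (.aff 1000000 0 0))))) (.sy 393750 (.sx 100000 (.aff 5000000 9128710 1752713) (.sx
 150000 (.aff 3100000 3913119 1126979) (.aff 1000000 0 0))) (.sx 100000 (.aff 3000000 3984345 1003930) (.aff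
 3228000 3969969 1250384)))), .pol, .pol, .pol, .pol⟩

def hL180_40_4_7 : pcchk ⟨(nat_lit 1), (nat_lit 1000), Int.ofNat (nat_lit 250), 0, ⟨0, 1⟩, ⟨Int.ofNat
 (nat_lit 40), 200⟩⟩ ⟨900000, 950000, 961681, 948772, 974768, 269917, 320201, 227580, 316227, 223606⟩ false
 (nat_lit 350) (Int.negSucc (nat_lit 1840)) (nat_lit 400) (Int.negSucc (nat_lit 2701)) qL180_40_4_7 = true
 := by decide +kernel

def qL180_40_4_8 : PCt := .one ⟨2008000, 251, 502000, -379111, 97388, 0, 0, 200000, 400000, 450000⟩ ⟨0,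
 .pol, .pol, .pol, .pol, .sy 425000 (.sy 412500 (.sy 406250 (.sy 403125 (.sy 401562 (.sx 100000 (.aff
 3000000 4003904 999025) (.aff 3203000 3944692 1230314)) (.sx 100000 (.aff 3000000 4011701 997084) (.sx
 150000 (.sx 125000 (.aff 5000000 7564535 2115134) (.aff 3000000 3421190 1169184)) (.aff 1000000 0 0))))
 (.sx 100000 (.aff 3000000 4023370 994192) (.sx 150000 (.sx 125000 (.aff 5000000 7586538 2108999) (.aff
 3000000 3431141 1165793)) (.aff 1000000 0 0)))) (.sy 409375 (.sy 407812 (.sx 100000 (.aff 3000000 4035002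
 991326) (.sx 150000 (.sx 125000 (.aff 5000000 7608473 2102919) (.aff 3000000 3522039 1135706)) (.aff
 1000000 0 0))) (.sy 408593 (.sx 100000 (.aff 3000000 4040805 989902) (.sx 150000 (.sx 125000 (.aff 5000000
 7619414 2099900) (.aff 3000000 3527104 1134075)) (.aff 1000000 0 0))) (.sx 100000 (.aff 3000000 4044671
 988956) (.sx 150000 (.sx 125000 (.aff 5000000 7626704 2097892) (.aff 3000000 3530478 1132992)) (.aff
 1000000 0 0))))) (.sy 410937 (.sy 410156 (.sx 100000 (.aff 3000000 4048534 988012) (.sx 150000 (.sx 125000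
 (.aff 5000000 7633988 2095891) (.aff 3000000 3533850 1131910)) (.aff 1000000 0 0))) (.sx 100000 (.aff
 3000000 4052390 987072) (.sx 150000 (.sx 125000 (.aff 5000000 7641259 2093896) (.aff 3000000 3537216
 1130833)) (.aff 1000000 0 0)))) (.sx 100000 (.aff 3000000 4058170 985666) (.sx 150000 (.sx 125000 (.aff
 5000000 7652158 2090914) (.aff 3100000 3719374 1185684)) (.aff 1000000 0 0)))))) (.sy 418750 (.sy 415625
 (.sy 414062 (.sy 413281 (.sx 100000 (.aff 3000000 4063942 984267) (.sx 150000 (.sx 125000 (.aff 5000000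
 7663042 2087944) (.aff 3100000 3724664 1184000)) (.aff 1000000 0 0))) (.sy 413671 (.sx 100000 (.aff 3000000
 4066822 983569) (.sx 150000 (.sx 125000 (.aff 5000000 7668473 2086465) (.aff 3100000 3727304 1183161))
 (.aff 1000000 0 0))) (.sx 100000 (.aff 3000000 4068742 983105) (.sx 150000 (.sx 125000 (.aff 5000000
 7672094 2085481) (.aff 3100000 3729064 1182603)) (.aff 1000000 0 0))))) (.sy 414843 (.sx 100000 (.aff
 3000000 4071622 982410) (.sx 150000 (.sx 125000 (.aff 5000000 7677523 2084006) (.aff 3100000 3731703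
 1181767)) (.aff 1000000 0 0))) (.sx 100000 (.aff 3000000 4075459 981485) (.sx 150000 (.sx 125000 (.aff
 5000000 7684758 2082044) (.aff 3100000 3735220 1180654)) (.aff 1000000 0 0))))) (.sy 417187 (.sy 416406
 (.sx 100000 (.aff 3000000 4079292 980563) (.sx 150000 (.sx 125000 (.aff 5000000 7691987 2080087) (.aff
 3100000 3738733 1179544)) (.aff 1000000 0 0))) (.sx 100000 (.aff 3000000 4083119 979644) (.sx 150000 (.sx
 125000 (.aff 5000000 7699203 2078138) (.aff 3100000 3742241 1178439)) (.aff 1000000 0 0)))) (.sx 100000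
 (.aff 3000000 4088856 978269) (.sx 150000 (.sx 125000 (.aff 5000000 7710021 2075222) (.aff 3200000 3925951
 1232823)) (.aff 1000000 0 0))))) (.sy 421875 (.sy 420312 (.sy 419531 (.sx 100000 (.aff 3000000 4094585
 976900) (.sx 150000 (.sx 125000 (.aff 5000000 7720823 2072318) (.aff 3200000 3931451 1231098)) (.aff
 1000000 0 0))) (.sy 419921 (.sx 100000 (.aff 3000000 4097444 976219) (.sx 150000 (.sx 125000 (.aff 5000000
 7726213 2070873) (.aff 3200000 3934196 1230239)) (.aff 1000000 0 0))) (.sx 100000 (.aff 3000000 4099349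
 975765) (.sx 150000 (.sx 125000 (.aff 5000000 7729807 2069910) (.aff 3200000 3936026 1229667)) (.aff
 1000000 0 0))))) (.sy 421093 (.sx 100000 (.aff 3000000 4102207 975085) (.sx 150000 (.sx 125000 (.aff
 5000000 7735196 2068468) (.aff 3200000 3938770 1228811)) (.aff 1000000 0 0))) (.sy 421484 (.sx 100000 (.aff
 5000000 9480237 1687722) (.sx 150000 (.sx 125000 (.aff 5000000 7740581 2067029) (.aff 3200000 3941512
 1227956)) (.aff 1000000 0 0))) (.sx 100000 (.aff 5000000 9484635 1686939) (.sx 150000 (.sx 125000 (.aff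
 5000000 7744172 2066070) (.aff 3200000 3943341 1227386)) (.aff 1000000 0 0)))))) (.sy 423437 (.sy 422656
 (.sy 422265 (.sx 100000 (.aff 5000000 9489026 1686159) (.sx 150000 (.sx 125000 (.aff 5000000 7747757
 2065114) (.aff 3200000 3945166 1226818)) (.aff 1000000 0 0))) (.sx 100000 (.aff 5000000 9493414 1685379)
 (.sx 150000 (.sx 125000 (.aff 5000000 7751340 2064160) (.aff 3200000 3946991 1226251)) (.aff 1000000 0
 0)))) (.sy 423046 (.sx 100000 (.aff 5000000 9497801 1684601) (.sx 150000 (.sx 125000 (.aff 5000000 7754922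
 2063206) (.aff 3200000 3948815 1225685)) (.aff 1000000 0 0))) (.sx 100000 (.aff 5000000 9502186 1683824)
 (.sx 150000 (.sx 125000 (.aff 5000000 7758502 2062254) (.aff 3200000 3950638 1225119)) (.aff 1000000 0
 0))))) (.sy 424218 (.sy 423827 (.sy 423632 (.sx 100000 (.aff 5000000 9505474 1683241) (.sx 150000 (.sx
 125000 (.aff 5000000 7761187 2061541) (.aff 3200000 3952005 1224695)) (.aff 1000000 0 0))) (.sy 423729 (.sy
 423680 (.sy 423656 (.sx 100000 (.aff 5000000 9506703 1683024) (.sx 150000 (.sx 125000 (.aff 5000000 7762190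
 2061274) (.aff 3200000 3952516 1224537)) (.aff 1000000 0 0))) (.sx 100000 (.aff 5000000 9506972 1682976)
 (.sx 150000 (.sx 125000 (.aff 5000000 7762410 2061216) (.aff 3200000 3952628 1224502)) (.aff 1000000 0
 0)))) (.sx 100000 (.aff 5000000 9507381 1682903) (.sx 150000 (.aff 3900000 4873982 1725489) (.aff 1000000 0
 0)))) (.sx 100000 (.aff 5000000 9508206 1682757) (.sx 150000 (.aff 3900000 4874405 1725339) (.aff 1000000 0
 0))))) (.sx 100000 (.aff 5000000 9510949 1682272) (.sx 150000 (.aff 3900000 4875811 1724842) (.aff 1000000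
 0 0)))) (.sy 424609 (.sy 424413 (.sx 100000 (.aff 5000000 9514234 1681691) (.sx 150000 (.aff 3900000
 4877495 1724246) (.aff 1000000 0 0))) (.sx 100000 (.aff 5000000 9516426 1681304) (.sx 150000 (.aff 3900000
 4878619 1723849) (.aff 1000000 0 0)))) (.sx 100000 (.aff 5000000 9519715 1680723) (.sx 150000 (.aff 3900000
 4880305 1723253) (.aff 1000000 0 0))))))))) (.sx 100000 (.aff 5000000 9660918 1656158) (.sx 150000 (.aff
 3900000 4952693 1698067) (.aff 3400000 3937981 1462679))), .pol, .pol, .pol, .pol⟩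

def hL180_40_4_8 : pcchk ⟨(nat_lit 1), (nat_lit 1000), Int.ofNat (nat_lit 250), 0, ⟨0, 1⟩, ⟨Int.ofNat
 (nat_lit 40), 200⟩⟩ ⟨900000, 950000, 961681, 948772, 974768, 269917, 320201, 227580, 316227, 223606⟩ false
 (nat_lit 400) (Int.negSucc (nat_lit 2701)) (nat_lit 450) (Int.negSucc (nat_lit 3645)) qL180_40_4_8 = true
 := by decide +kernel

def qL180_40_4_9 : PCt := .one ⟨2008000, 251, 502000, -403207, 108231, 0, 0, 200000, 450000, 500000⟩ ⟨0,
 .pol, .pol, .pol, .pol, .sx 100000 (.aff 5000000 10066446 1589439) (.sx 150000 (.aff 5000000 7434564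
 2152111) (.sy 475000 (.aff 3500000 4217637 1481873) (.aff 4100000 4839874 1985589))), .pol, .pol, .pol,
 .pol⟩

def hL180_40_4_9 : pcchk ⟨(nat_lit 1), (nat_lit 1000), Int.ofNat (nat_lit 250), 0, ⟨0, 1⟩, ⟨Int.ofNat
 (nat_lit 40), 200⟩⟩ ⟨900000, 950000, 961681, 948772, 974768, 269917, 320201, 227580, 316227, 223606⟩ false
 (nat_lit 450) (Int.negSucc (nat_lit 3645)) (nat_lit 500) (Int.negSucc (nat_lit 4649)) qL180_40_4_9 = true
 := by decide +kernel

def qL180_40_4_10 : PCt := .one ⟨2008000, 251, 502000, -10160882, 4987068, 0, 0, 200000, 500000, 550000⟩ ⟨0,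
 .pol, .pol, .pol, .pol, .sx 100000 (.aff 8000000 18520260 2645752) (.sx 150000 (.aff 20000000 38938413
 9271051) (.sx 175000 (.aff 35000000 61112759 18915854) (.sx 187500 (.inf 1701926 587570) (.sx 193750 (.inf
 1659548 602574) (.sy 525000 (.sy 512500 (.sx 196875 (.inf 1609969 621130) (.sy 506250 (.sx 198437 (.inf
 1595450 626783) (.sy 503125 (.sx 199218 (.inf 1588270 629616) (.sy 501562 (.sx 199609 (.inf 1584699 631035)
 (.sy 500781 (.sx 199804 (.inf 1582919 631745) (.sy 500390 (.sx 199902 (.sy 500195 (.aff 20000000 30055615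
 12011067) (.inf 1582183 632039)) (.sy 500195 (.sy 500097 (.aff 1500000 790705 316174) (.sy 500146 (.aff
 1500000 790763 316151) (.inf 1581603 632270))) (.inf 1581796 632193))) (.inf 1582453 631931))) (.inf
 1583765 631407))) (.inf 1586392 630362))) (.inf 1591646 628281))) (.inf 1602164 624156))) (.inf 1623244
 616051)) (.aff 35000000 56178853 20577138)))))), .pol, .sx 100000 (.aff 35000000 110172592 10492628) (.sx
 150000 (.aff 37100000 70540008 18474764) (.sx 175000 (.inf 1797435 556349) (.sy 525000 (.sy 512500 (.sy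
 506250 .pol (.inf 1648232 606711)) (.inf 1663330 601204)) (.inf 1693124 590625)))), .sy 525000 (.sy 512500
 .pol (.sy 518750 (.inf 1816591 550482) (.inf 1827567 547176))) (.inf 1854724 539164), .pol⟩

def hL180_40_4_10 : pcchk ⟨(nat_lit 1), (nat_lit 1000), Int.ofNat (nat_lit 250), 0, ⟨0, 1⟩, ⟨Int.ofNat
 (nat_lit 40), 200⟩⟩ ⟨900000, 950000, 961681, 948772, 974768, 269917, 320201, 227580, 316227, 223606⟩ false
 (nat_lit 500) (Int.negSucc (nat_lit 4649)) (nat_lit 550) (Int.negSucc (nat_lit 29950)) qL180_40_4_10 = true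
 := by decide +kernel

def qL180_40_4_11 : PCt := .one ⟨2008000, 251, 502000, -19679, -590593, 0, 0, 200000, 550000, 600000⟩ ⟨0,
 .pol, .pol, .pol, .pol, .aff 12000000 18651408 6487446, .pol, .inf 1918333 521286, .inf 1918333 521286,
 .pol⟩

def hL180_40_4_11 : pcchk ⟨(nat_lit 1), (nat_lit 1000), Int.ofNat (nat_lit 250), 0, ⟨0, 1⟩, ⟨Int.ofNat
 (nat_lit 40), 200⟩⟩ ⟨900000, 950000, 961681, 948772, 974768, 269917, 320201, 227580, 316227, 223606⟩ false
 (nat_lit 550) (Int.negSucc (nat_lit 29950)) (nat_lit 600) (Int.negSucc (nat_lit 29999)) qL180_40_4_11 =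
 true := by decide +kernel

def qL180_40_4_12 : PCt := .one ⟨2008000, 251, 502000, 0, -602400, 0, 0, 200000, 600000, 650000⟩ ⟨0, .pol,
 .pol, .pol, .pol, .aff 5000000 8164966 1959592, .pol, .inf 2000000 500000, .inf 2000000 500000, .pol⟩

def hL180_40_4_12 : pcchk ⟨(nat_lit 1), (nat_lit 1000), Int.ofNat (nat_lit 250), 0, ⟨0, 1⟩, ⟨Int.ofNat
 (nat_lit 40), 200⟩⟩ ⟨900000, 950000, 961681, 948772, 974768, 269917, 320201, 227580, 316227, 223606⟩ false
 (nat_lit 600) (Int.negSucc (nat_lit 29999)) (nat_lit 650) (Int.negSucc (nat_lit 29999)) qL180_40_4_12 =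
 true := by decide +kernel

def qL180_40_4_13 : PCt := .one ⟨2008000, 251, 502000, 0, -602400, 0, 0, 200000, 650000, 700000⟩ ⟨0, .pol,
 .pol, .pol, .pol, .aff 3000000 5196153 769801, .pol, .aff 35000000 62461989 18507256, .inf 2598077 384901,
 .pol⟩

def hL180_40_4_13 : pcchk ⟨(nat_lit 1), (nat_lit 1000), Int.ofNat (nat_lit 250), 0, ⟨0, 1⟩, ⟨Int.ofNat
 (nat_lit 40), 200⟩⟩ ⟨900000, 950000, 961681, 948772, 974768, 269917, 320201, 227580, 316227, 223606⟩ false
 (nat_lit 650) (Int.negSucc (nat_lit 29999)) (nat_lit 700) (Int.negSucc (nat_lit 29999)) qL180_40_4_13 =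
 true := by decide +kernel

def qL180_40_4_14 : PCt := .one ⟨2008000, 251, 502000, 0, -602400, 0, 0, 200000, 700000, 750000⟩ ⟨0, .pol,
 .pol, .pol, .pol, .aff 2000000 2692583 371391, .pol, .aff 35000000 74748468 15465200, .inf 2692583 371391,
 .pol⟩

def hL180_40_4_14 : pcchk ⟨(nat_lit 1), (nat_lit 1000), Int.ofNat (nat_lit 250), 0, ⟨0, 1⟩, ⟨Int.ofNat
 (nat_lit 40), 200⟩⟩ ⟨900000, 950000, 961681, 948772, 974768, 269917, 320201, 227580, 316227, 223606⟩ false
 (nat_lit 700) (Int.negSucc (nat_lit 29999)) (nat_lit 750) (Int.negSucc (nat_lit 29999)) qL180_40_4_14 =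
 true := by decide +kernel

def qL180_40_4_15 : PCt := .one ⟨2008000, 251, 502000, 0, -602400, 0, 0, 200000, 750000, 800000⟩ ⟨0, .pol,
 .pol, .pol, .pol, .aff 1500000 1391942 179606, .pol, .aff 20000000 37401538 9652010, .inf 2783883 359211,
 .pol⟩

def hL180_40_4_15 : pcchk ⟨(nat_lit 1), (nat_lit 1000), Int.ofNat (nat_lit 250), 0, ⟨0, 1⟩, ⟨Int.ofNat
 (nat_lit 40), 200⟩⟩ ⟨900000, 950000, 961681, 948772, 974768, 269917, 320201, 227580, 316227, 223606⟩ false
 (nat_lit 750) (Int.negSucc (nat_lit 29999)) (nat_lit 800) (Int.negSucc (nat_lit 29999)) qL180_40_4_15 =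
 true := by decide +kernel

def qL180_40_4_16 : PCt := .one ⟨2008000, 251, 502000, 0, -602400, 0, 0, 200000, 800000, 850000⟩ ⟨0, .pol,
 .pol, .pol, .pol, .aff 1500000 1436141 174078, .pol, .aff 20000000 44558950 8101628, .inf 2872282 348156,
 .pol⟩

def hL180_40_4_16 : pcchk ⟨(nat_lit 1), (nat_lit 1000), Int.ofNat (nat_lit 250), 0, ⟨0, 1⟩, ⟨Int.ofNat
 (nat_lit 40), 200⟩⟩ ⟨900000, 950000, 961681, 948772, 974768, 269917, 320201, 227580, 316227, 223606⟩ false
 (nat_lit 800) (Int.negSucc (nat_lit 29999)) (nat_lit 850) (Int.negSucc (nat_lit 29999)) qL180_40_4_16 =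
 true := by decide +kernel

def qL180_40_4_17 : PCt := .one ⟨2008000, 251, 502000, 0, -602400, 0, 0, 200000, 850000, 900000⟩ ⟨0, .pol,
 .pol, .pol, .pol, .aff 1000000 0 0, .pol, .aff 20000000 56202758 6423173, .inf 2958040 338062, .pol⟩

def hL180_40_4_17 : pcchk ⟨(nat_lit 1), (nat_lit 1000), Int.ofNat (nat_lit 250), 0, ⟨0, 1⟩, ⟨Int.ofNat
 (nat_lit 40), 200⟩⟩ ⟨900000, 950000, 961681, 948772, 974768, 269917, 320201, 227580, 316227, 223606⟩ false
 (nat_lit 850) (Int.negSucc (nat_lit 29999)) (nat_lit 900) (Int.negSucc (nat_lit 29999)) qL180_40_4_17 =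
 true := by decide +kernel

def qL180_40_4_18 : PCt := .one ⟨2008000, 251, 502000, 0, -602400, 0, 0, 200000, 900000, 950000⟩ ⟨0, .pol,
 .pol, .pol, .pol, .aff 1000000 0 0, .pol, .aff 20000000 57786245 6247162, .inf 3041382 328798, .pol⟩

def hL180_40_4_18 : pcchk ⟨(nat_lit 1), (nat_lit 1000), Int.ofNat (nat_lit 250), 0, ⟨0, 1⟩, ⟨Int.ofNat
 (nat_lit 40), 200⟩⟩ ⟨900000, 950000, 961681, 948772, 974768, 269917, 320201, 227580, 316227, 223606⟩ false
 (nat_lit 900) (Int.negSucc (nat_lit 29999)) (nat_lit 950) (Int.negSucc (nat_lit 29999)) qL180_40_4_18 =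
 true := by decide +kernel

def qL180_40_4_19 : PCt := .one ⟨2008000, 251, 502000, 0, -602400, 0, 0, 200000, 950000, 1000000⟩ ⟨0, .pol,
 .pol, .pol, .pol, .aff 1000000 0 0, .pol, .aff 12000000 28044608 4314555, .inf 3122499 320257, .pol⟩

def hL180_40_4_19 : pcchk ⟨(nat_lit 1), (nat_lit 1000), Int.ofNat (nat_lit 250), 0, ⟨0, 1⟩, ⟨Int.ofNat
 (nat_lit 40), 200⟩⟩ ⟨900000, 950000, 961681, 948772, 974768, 269917, 320201, 227580, 316227, 223606⟩ false
 (nat_lit 950) (Int.negSucc (nat_lit 29999)) (nat_lit 1000) (Int.negSucc (nat_lit 29999)) qL180_40_4_19 =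
 true := by decide +kernel

def qL180_40_5_0 : PCt := .one ⟨2008000, 251, 803200, 284332, 0, 0, 0, 200000, 0, 50000⟩ ⟨25000, .aff
 2000000 500000, .pol, .pol, .pol, .pol, .aff 0 2449490 408249, .pol, .pol, .pol⟩

def hL180_40_5_0 : pcchk ⟨(nat_lit 1), (nat_lit 1000), Int.ofNat (nat_lit 400), 0, ⟨0, 1⟩, ⟨Int.ofNat
 (nat_lit 40), 200⟩⟩ ⟨900000, 950000, 961681, 948772, 974768, 269917, 320201, 227580, 316227, 223606⟩ true 0
 0 (nat_lit 50) (Int.ofNat (nat_lit 708)) qL180_40_5_0 = true := by decide +kernel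

def qL180_40_5_1 : PCt := .one ⟨2008000, 251, 803200, 75500, 10441, 0, 0, 200000, 50000, 100000⟩ ⟨0, .pol,
 .pol, .pol, .pol, .sx 100000 (.sy 75000 (.sy 62500 (.aff 325000 2253361 202198) (.sx 50000 (.sy 68750 (.sy
 65625 (.aff 175000 2521096 269972) (.sx 25000 (.sx 12500 (.aff 425000 2666166 124008) (.aff 1000000 0 0))
 (.aff 1000000 0 0))) (.sx 25000 (.sy 71875 (.sx 12500 (.aff 413000 2784386 123751) (.aff 1000000 0 0)) (.sx
 12500 (.aff 478000 2867420 95028) (.aff 1000000 0 0))) (.aff 1000000 0 0))) (.aff 0 957428 1044465))) (.sx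
 50000 (.sx 25000 (.aff 569000 2938448 63218) (.aff 1000000 0 0)) (.aff 1000000 0 0))) .pol, .pol, .pol, .sx
 100000 (.sx 50000 .pol .pol) .pol, .pol⟩

def hL180_40_5_1 : pcchk ⟨(nat_lit 1), (nat_lit 1000), Int.ofNat (nat_lit 400), 0, ⟨0, 1⟩, ⟨Int.ofNat
 (nat_lit 40), 200⟩⟩ ⟨900000, 950000, 961681, 948772, 974768, 269917, 320201, 227580, 316227, 223606⟩ false
 (nat_lit 50) (Int.ofNat (nat_lit 708)) (nat_lit 100) (Int.ofNat (nat_lit 896)) qL180_40_5_1 = true := by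
 decide +kernel

def qL180_40_5_2 : PCt := .one ⟨2008000, 251, 803200, -147388, 32730, 0, 0, 200000, 100000, 150000⟩ ⟨0,
 .pol, .pol, .pol, .pol, .sx 100000 (.sx 50000 (.aff 1500000 3699307 67581) (.aff 1000000 0 0)) (.aff
 1000000 0 0), .pol, .pol, .sx 100000 .pol .pol, .pol⟩

def hL180_40_5_2 : pcchk ⟨(nat_lit 1), (nat_lit 1000), Int.ofNat (nat_lit 400), 0, ⟨0, 1⟩, ⟨Int.ofNat
 (nat_lit 40), 200⟩⟩ ⟨900000, 950000, 961681, 948772, 974768, 269917, 320201, 227580, 316227, 223606⟩ false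
 (nat_lit 100) (Int.ofNat (nat_lit 896)) (nat_lit 150) (Int.ofNat (nat_lit 529)) qL180_40_5_2 = true := by
 decide +kernel

def qL180_40_5_3 : PCt := .one ⟨2008000, 251, 803200, -257024, 49175, 0, 0, 200000, 150000, 200000⟩ ⟨0,
 .pol, .pol, .pol, .pol, .sx 100000 (.sx 50000 (.sy 175000 (.sx 25000 (.sx 12500 (.aff 2100000 4579666
 264212) (.aff 1000000 0 0)) (.aff 1000000 0 0)) (.sy 187500 (.sx 25000 (.aff 2175000 4474267 308571) (.aff
 1000000 0 0)) (.sy 193750 (.sx 25000 (.sx 12500 (.aff 3000000 9018500 443533) (.aff 2200000 4191420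
 343559)) (.aff 1000000 0 0)) (.sy 196875 (.sx 25000 (.sx 12500 (.aff 3000000 9128710 438179) (.aff 2200000
 4242641 339412)) (.aff 1000000 0 0)) (.sx 25000 (.aff 2850000 5212111 656644) (.aff 1000000 0 0)))))) (.aff
 1000000 0 0)) (.aff 1000000 0 0), .pol, .pol, .sx 100000 .pol .pol, .pol⟩

def hL180_40_5_3 : pcchk ⟨(nat_lit 1), (nat_lit 1000), Int.ofNat (nat_lit 400), 0, ⟨0, 1⟩, ⟨Int.ofNat
 (nat_lit 40), 200⟩⟩ ⟨900000, 950000, 961681, 948772, 974768, 269917, 320201, 227580, 316227, 223606⟩ false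
 (nat_lit 150) (Int.ofNat (nat_lit 529)) (nat_lit 200) (Int.negSucc (nat_lit 110)) qL180_40_5_3 = true := by
 decide +kernel

def qL180_40_5_4 : PCt := .one ⟨2008000, 251, 803200, -353408, 68452, 0, 0, 200000, 200000, 250000⟩ ⟨0,
 .pol, .pol, .pol, .pol, .sx 100000 (.sx 50000 (.sy 225000 (.sx 25000 (.aff 2900000 5539405 651695) (.aff
 2875000 5013178 701277)) (.sx 25000 (.aff 3000000 6164415 648886) (.sx 37500 (.aff 2975000 5191318 751375)
 (.aff 3000000 4835765 827171)))) (.aff 1000000 0 0)) (.aff 1000000 0 0), .pol, .pol, .pol, .pol⟩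

def hL180_40_5_4 : pcchk ⟨(nat_lit 1), (nat_lit 1000), Int.ofNat (nat_lit 400), 0, ⟨0, 1⟩, ⟨Int.ofNat
 (nat_lit 40), 200⟩⟩ ⟨900000, 950000, 961681, 948772, 974768, 269917, 320201, 227580, 316227, 223606⟩ false
 (nat_lit 200) (Int.negSucc (nat_lit 110)) (nat_lit 250) (Int.negSucc (nat_lit 990)) qL180_40_5_4 = true :=
 by decide +kernel

def qL180_40_5_5 : PCt := .one ⟨2008000, 251, 803200, -420476, 85219, 0, 0, 200000, 250000, 300000⟩ ⟨0,
 .pol, .pol, .pol, .pol, .sy 275000 (.sx 100000 (.sx 50000 (.aff 3282000 5531768 941386) (.aff 3452000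
 5484612 1096214)) (.aff 1000000 0 0)) (.sy 287500 (.sx 100000 (.sx 50000 (.aff 5000000 9486833 1686549)
 (.sx 75000 (.aff 3400000 5366564 1073313) (.aff 1000000 0 0))) (.aff 1000000 0 0)) (.sx 100000 (.sx 50000
 (.aff 5000000 11195238 1429180) (.aff 3600000 5636666 1199291)) (.aff 1000000 0 0))), .pol, .pol, .pol,
 .pol⟩

def hL180_40_5_5 : pcchk ⟨(nat_lit 1), (nat_lit 1000), Int.ofNat (nat_lit 400), 0, ⟨0, 1⟩, ⟨Int.ofNat
 (nat_lit 40), 200⟩⟩ ⟨900000, 950000, 961681, 948772, 974768, 269917, 320201, 227580, 316227, 223606⟩ false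
 (nat_lit 250) (Int.negSucc (nat_lit 990)) (nat_lit 300) (Int.negSucc (nat_lit 2037)) qL180_40_5_5 = true :=
 by decide +kernel

def qL180_40_5_6 : PCt := .one ⟨2008000, 251, 803200, -488346, 105580, 0, 0, 200000, 300000, 350000⟩ ⟨0,
 .pol, .pol, .pol, .pol, .sx 100000 (.sx 50000 (.aff 5000000 11775682 1358733) (.sy 325000 (.sx 75000 (.aff
 4000000 6123725 1469694) (.aff 4025000 6007135 1523293)) (.sx 75000 (.aff 5000000 8862588 1805342) (.sx
 87500 (.aff 4100000 6088280 1578443) (.aff 3900000 5596428 1502745))))) (.aff 1000000 0 0), .pol, .pol,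
 .pol, .pol⟩

def hL180_40_5_6 : pcchk ⟨(nat_lit 1), (nat_lit 1000), Int.ofNat (nat_lit 400), 0, ⟨0, 1⟩, ⟨Int.ofNat
 (nat_lit 40), 200⟩⟩ ⟨900000, 950000, 961681, 948772, 974768, 269917, 320201, 227580, 316227, 223606⟩ false
 (nat_lit 300) (Int.negSucc (nat_lit 2037)) (nat_lit 350) (Int.negSucc (nat_lit 3253)) qL180_40_5_6 = true
 := by decide +kernel

def qL180_40_5_7 : PCt := .one ⟨2008000, 251, 803200, -540152, 123712, 0, 0, 200000, 350000, 400000⟩ ⟨0,
 .pol, .pol, .pol, .pol, .sx 100000 (.aff 4400000 6584072 1755753) (.sx 150000 (.sx 125000 (.sy 375000 (.aff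
 4475000 6382734 1891921) (.sx 112500 (.aff 4700000 6866910 1993619) (.aff 4600000 6498913 1994180))) (.aff
 3100000 3922968 1124149)) (.aff 1000000 0 0)), .pol, .pol, .pol, .pol⟩

def hL180_40_5_7 : pcchk ⟨(nat_lit 1), (nat_lit 1000), Int.ofNat (nat_lit 400), 0, ⟨0, 1⟩, ⟨Int.ofNat
 (nat_lit 40), 200⟩⟩ ⟨900000, 950000, 961681, 948772, 974768, 269917, 320201, 227580, 316227, 223606⟩ false
 (nat_lit 350) (Int.negSucc (nat_lit 3253)) (nat_lit 400) (Int.negSucc (nat_lit 4598)) qL180_40_5_7 = true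
 := by decide +kernel

def qL180_40_5_8 : PCt := .one ⟨2008000, 251, 803200, -595172, 145720, 0, 0, 200000, 400000, 450000⟩ ⟨0,
 .pol, .pol, .pol, .pol, .sx 100000 (.aff 5000000 8246212 1940285) (.sx 150000 (.sy 425000 (.aff 4900000
 6754999 2251666) (.aff 5000000 6831301 2342161)) (.aff 5002000 6635937 2413526)), .pol, .pol, .pol, .pol⟩

def hL180_40_5_8 : pcchk ⟨(nat_lit 1), (nat_lit 1000), Int.ofNat (nat_lit 400), 0, ⟨0, 1⟩, ⟨Int.ofNat
 (nat_lit 40), 200⟩⟩ ⟨900000, 950000, 961681, 948772, 974768, 269917, 320201, 227580, 316227, 223606⟩ false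
 (nat_lit 400) (Int.negSucc (nat_lit 4598)) (nat_lit 450) (Int.negSucc (nat_lit 6080)) qL180_40_5_8 = true
 := by decide +kernel

def qL180_40_5_9 : PCt := .one ⟨2008000, 251, 803200, -632520, 162527, 0, 0, 200000, 450000, 500000⟩ ⟨0,
 .pol, .pol, .pol, .pol, .sx 100000 (.aff 5000000 10066446 1589439) (.sx 150000 (.aff 5000000 7118053
 2247806) (.aff 5200000 6919538 2549304)), .pol, .pol, .pol, .pol⟩

def hL180_40_5_9 : pcchk ⟨(nat_lit 1), (nat_lit 1000), Int.ofNat (nat_lit 400), 0, ⟨0, 1⟩, ⟨Int.ofNat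
 (nat_lit 40), 200⟩⟩ ⟨900000, 950000, 961681, 948772, 974768, 269917, 320201, 227580, 316227, 223606⟩ false
 (nat_lit 450) (Int.negSucc (nat_lit 6080)) (nat_lit 500) (Int.negSucc (nat_lit 7655)) qL180_40_5_9 = true
 := by decide +kernel

def qL180_40_5_10 : PCt := .one ⟨2008000, 251, 803200, -8958492, 4325513, 0, 0, 200000, 500000, 550000⟩ ⟨0,
 .pol, .pol, .pol, .pol, .sx 100000 (.aff 8000000 18520260 2645752) (.sx 150000 (.aff 20000000 38938413
 9271051) (.sx 175000 (.aff 35000000 61112759 18915854) (.sx 187500 (.inf 1701926 587570) (.sx 193750 (.inf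
 1659548 602574) (.sx 196875 (.inf 1639513 609938) (.sy 525000 (.sy 512500 (.sx 198437 (.inf 1600397 624845)
 (.sy 506250 (.sy 503125 (.sx 199218 (.inf 1588270 629616) (.sy 501562 (.sx 199609 (.inf 1584699 631035)
 (.sy 500781 (.sx 199804 (.inf 1582919 631745) (.sy 500390 (.sx 199902 (.sy 500195 (.aff 20000000 30055615
 12011067) (.inf 1582183 632039)) (.sy 500195 (.sx 199951 (.aff 35000000 53773844 21497441) (.sy 500097
 (.aff 1500000 790657 316193) (.sy 500146 (.aff 1500000 790714 316170) (.inf 1581506 632309)))) (.inf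
 1581796 632193))) (.inf 1582453 631931))) (.inf 1583765 631407))) (.inf 1586392 630362))) (.inf 1591646
 628281)) (.inf 1599021 625383))) (.inf 1616841 618491)) (.aff 35000000 55957240 20658632))))))), .pol, .sx
 100000 (.aff 20000000 43534470 8292280) (.sx 150000 (.aff 35000000 69679266 16590302) (.sx 175000 (.inf
 1797435 556349) (.sy 525000 (.sy 512500 (.sy 506250 .pol (.inf 1648232 606711)) (.inf 1663330 601204))
 (.inf 1693124 590625)))), .sy 525000 (.sy 512500 (.sx 100000 (.inf 3181981 314270) .pol) (.sy 518750 (.inf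
 1816591 550482) (.inf 1827567 547176))) (.inf 1854724 539164), .pol⟩

def hL180_40_5_10 : pcchk ⟨(nat_lit 1), (nat_lit 1000), Int.ofNat (nat_lit 400), 0, ⟨0, 1⟩, ⟨Int.ofNat
 (nat_lit 40), 200⟩⟩ ⟨900000, 950000, 961681, 948772, 974768, 269917, 320201, 227580, 316227, 223606⟩ false
 (nat_lit 500) (Int.negSucc (nat_lit 7655)) (nat_lit 550) (Int.negSucc (nat_lit 29962)) qL180_40_5_10 = true
 := by decide +kernel

def qL180_40_5_11 : PCt := .one ⟨2008000, 251, 803200, -14860, -593485, 0, 0, 200000, 550000, 600000⟩ ⟨0,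
 .pol, .pol, .pol, .pol, .aff 12000000 18651408 6487446, .pol, .inf 1918333 521286, .inf 1918333 521286,
 .pol⟩

def hL180_40_5_11 : pcchk ⟨(nat_lit 1), (nat_lit 1000), Int.ofNat (nat_lit 400), 0, ⟨0, 1⟩, ⟨Int.ofNat
 (nat_lit 40), 200⟩⟩ ⟨900000, 950000, 961681, 948772, 974768, 269917, 320201, 227580, 316227, 223606⟩ false
 (nat_lit 550) (Int.negSucc (nat_lit 29962)) (nat_lit 600) (Int.negSucc (nat_lit 29999)) qL180_40_5_11 =
 true := by decide +kernel

def qL180_40_5_12 : PCt := .one ⟨2008000, 251, 803200, 0, -602400, 0, 0, 200000, 600000, 650000⟩ ⟨0, .pol,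
 .pol, .pol, .pol, .aff 5000000 8164966 1959592, .pol, .inf 2000000 500000, .inf 2000000 500000, .pol⟩

def hL180_40_5_12 : pcchk ⟨(nat_lit 1), (nat_lit 1000), Int.ofNat (nat_lit 400), 0, ⟨0, 1⟩, ⟨Int.ofNat
 (nat_lit 40), 200⟩⟩ ⟨900000, 950000, 961681, 948772, 974768, 269917, 320201, 227580, 316227, 223606⟩ false
 (nat_lit 600) (Int.negSucc (nat_lit 29999)) (nat_lit 650) (Int.negSucc (nat_lit 29999)) qL180_40_5_12 =
 true := by decide +kernel

def qL180_40_5_13 : PCt := .one ⟨2008000, 251, 803200, 0, -602400, 0, 0, 200000, 650000, 700000⟩ ⟨0, .pol,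
 .pol, .pol, .pol, .aff 3000000 5196153 769801, .pol, .aff 35000000 72124892 16027754, .inf 2598077 384901,
 .pol⟩

def hL180_40_5_13 : pcchk ⟨(nat_lit 1), (nat_lit 1000), Int.ofNat (nat_lit 400), 0, ⟨0, 1⟩, ⟨Int.ofNat
 (nat_lit 40), 200⟩⟩ ⟨900000, 950000, 961681, 948772, 974768, 269917, 320201, 227580, 316227, 223606⟩ false
 (nat_lit 650) (Int.negSucc (nat_lit 29999)) (nat_lit 700) (Int.negSucc (nat_lit 29999)) qL180_40_5_13 =
 true := by decide +kernel

def qL180_40_5_14 : PCt := .one ⟨2008000, 251, 803200, 0, -602400, 0, 0, 200000, 700000, 750000⟩ ⟨0, .pol,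
 .pol, .pol, .pol, .aff 2000000 2692583 371391, .pol, .aff 35000000 74748468 15465200, .inf 2692583 371391,
 .pol⟩

def hL180_40_5_14 : pcchk ⟨(nat_lit 1), (nat_lit 1000), Int.ofNat (nat_lit 400), 0, ⟨0, 1⟩, ⟨Int.ofNat
 (nat_lit 40), 200⟩⟩ ⟨900000, 950000, 961681, 948772, 974768, 269917, 320201, 227580, 316227, 223606⟩ false
 (nat_lit 700) (Int.negSucc (nat_lit 29999)) (nat_lit 750) (Int.negSucc (nat_lit 29999)) qL180_40_5_14 =
 true := by decide +kernel

def qL180_40_5_15 : PCt := .one ⟨2008000, 251, 803200, 0, -602400, 0, 0, 200000, 750000, 800000⟩ ⟨0, .pol,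
 .pol, .pol, .pol, .aff 1500000 1391942 179606, .pol, .aff 20000000 43187576 8358886, .inf 2783883 359211,
 .pol⟩

def hL180_40_5_15 : pcchk ⟨(nat_lit 1), (nat_lit 1000), Int.ofNat (nat_lit 400), 0, ⟨0, 1⟩, ⟨Int.ofNat
 (nat_lit 40), 200⟩⟩ ⟨900000, 950000, 961681, 948772, 974768, 269917, 320201, 227580, 316227, 223606⟩ false
 (nat_lit 750) (Int.negSucc (nat_lit 29999)) (nat_lit 800) (Int.negSucc (nat_lit 29999)) qL180_40_5_15 =
 true := by decide +kernel

def qL180_40_5_16 : PCt := .one ⟨2008000, 251, 803200, 0, -602400, 0, 0, 200000, 800000, 850000⟩ ⟨0, .pol,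
 .pol, .pol, .pol, .aff 1500000 1436141 174078, .pol, .aff 20000000 44558950 8101628, .inf 2872282 348156,
 .pol⟩

def hL180_40_5_16 : pcchk ⟨(nat_lit 1), (nat_lit 1000), Int.ofNat (nat_lit 400), 0, ⟨0, 1⟩, ⟨Int.ofNat
 (nat_lit 40), 200⟩⟩ ⟨900000, 950000, 961681, 948772, 974768, 269917, 320201, 227580, 316227, 223606⟩ false
 (nat_lit 800) (Int.negSucc (nat_lit 29999)) (nat_lit 850) (Int.negSucc (nat_lit 29999)) qL180_40_5_16 =
 true := by decide +kernel

def qL180_40_5_17 : PCt := .one ⟨2008000, 251, 803200, 0, -602400, 0, 0, 200000, 850000, 900000⟩ ⟨0, .pol,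
 .pol, .pol, .pol, .aff 1000000 0 0, .pol, .aff 20000000 56202758 6423173, .inf 2958040 338062, .pol⟩

def hL180_40_5_17 : pcchk ⟨(nat_lit 1), (nat_lit 1000), Int.ofNat (nat_lit 400), 0, ⟨0, 1⟩, ⟨Int.ofNat
 (nat_lit 40), 200⟩⟩ ⟨900000, 950000, 961681, 948772, 974768, 269917, 320201, 227580, 316227, 223606⟩ false
 (nat_lit 850) (Int.negSucc (nat_lit 29999)) (nat_lit 900) (Int.negSucc (nat_lit 29999)) qL180_40_5_17 =
 true := by decide +kernel

def qL180_40_5_18 : PCt := .one ⟨2008000, 251, 803200, 0, -602400, 0, 0, 200000, 900000, 950000⟩ ⟨0, .pol,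
 .pol, .pol, .pol, .aff 1000000 0 0, .pol, .aff 12000000 27316052 4429630, .inf 3041382 328798, .pol⟩

def hL180_40_5_18 : pcchk ⟨(nat_lit 1), (nat_lit 1000), Int.ofNat (nat_lit 400), 0, ⟨0, 1⟩, ⟨Int.ofNat
 (nat_lit 40), 200⟩⟩ ⟨900000, 950000, 961681, 948772, 974768, 269917, 320201, 227580, 316227, 223606⟩ false
 (nat_lit 900) (Int.negSucc (nat_lit 29999)) (nat_lit 950) (Int.negSucc (nat_lit 29999)) qL180_40_5_18 =
 true := by decide +kernel

def qL180_40_5_19 : PCt := .one ⟨2008000, 251, 803200, 0, -602400, 0, 0, 200000, 950000, 1000000⟩ ⟨0, .pol,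
 .pol, .pol, .pol, .aff 1000000 0 0, .pol, .aff 12000000 28044608 4314555, .inf 3122499 320257, .pol⟩

def hL180_40_5_19 : pcchk ⟨(nat_lit 1), (nat_lit 1000), Int.ofNat (nat_lit 400), 0, ⟨0, 1⟩, ⟨Int.ofNat
 (nat_lit 40), 200⟩⟩ ⟨900000, 950000, 961681, 948772, 974768, 269917, 320201, 227580, 316227, 223606⟩ false
 (nat_lit 950) (Int.negSucc (nat_lit 29999)) (nat_lit 1000) (Int.negSucc (nat_lit 29999)) qL180_40_5_19 =
 true := by decide +kernel

def qL180_40_6_0 : PCt := .one ⟨2008000, 251, 2008000, 201603, 0, 0, 0, 200000, 0, 50000⟩ ⟨12500, .sp 250000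
 (.aff 6324556 158114) .pol, .pol, .pol, .pol, .pol, .sx 6250 (.sx 3125 (.sx 1562 (.sy 31250 (.aff 0 7484513
 133610) (.sy 40625 (.aff 38000 7970442 116110) (.aff 100000 7964714 101699))) (.aff 0 4886081 204664))
 (.aff 0 2581989 387299)) (.aff 0 1825742 547723), .pol, .pol, .pol⟩

def hL180_40_6_0 : pcchk ⟨(nat_lit 1), (nat_lit 1000), Int.ofNat (nat_lit 1000), 0, ⟨0, 1⟩, ⟨Int.ofNat
 (nat_lit 40), 200⟩⟩ ⟨900000, 950000, 961681, 948772, 974768, 269917, 320201, 227580, 316227, 223606⟩ true 0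
 0 (nat_lit 50) (Int.ofNat (nat_lit 502)) qL180_40_6_0 = true := by decide +kernel

def qL180_40_6_1 : PCt := .one ⟨2008000, 251, 2008000, 181924, 983, 0, 0, 200000, 50000, 100000⟩ ⟨0, .pol,
 .pol, .pol, .pol, .sx 100000 (.sx 50000 (.sx 25000 (.sx 12500 (.sy 75000 (.sy 62500 (.aff 125000 7858962
 97421) (.aff 150000 8028537 89992)) (.aff 250000 7231310 77787)) (.aff 0 2000000 500000)) .pol) .pol) .pol,
 .pol, .pol, .sx 100000 (.sx 50000 .pol .pol) .pol, .pol⟩

def hL180_40_6_1 : pcchk ⟨(nat_lit 1), (nat_lit 1000), Int.ofNat (nat_lit 1000), 0, ⟨0, 1⟩, ⟨Int.ofNat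
 (nat_lit 40), 200⟩⟩ ⟨900000, 950000, 961681, 948772, 974768, 269917, 320201, 227580, 316227, 223606⟩ false
 (nat_lit 50) (Int.ofNat (nat_lit 502)) (nat_lit 100) (Int.ofNat (nat_lit 955)) qL180_40_6_1 = true := by
 decide +kernel

def qL180_40_6_2 : PCt := .one ⟨2008000, 251, 2008000, -276301, 46806, 0, 0, 200000, 100000, 150000⟩ ⟨0,
 .pol, .pol, .pol, .pol, .sx 100000 (.sx 50000 (.sx 25000 (.sy 125000 (.sx 12500 (.aff 2050000 9398496
 117307) (.aff 1000000 0 0)) (.sx 12500 (.aff 2200000 9722244 148114) (.aff 1000000 0 0))) (.aff 1000000 0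
 0)) .pol) .pol, .pol, .pol, .sx 100000 .pol .pol, .pol⟩

def hL180_40_6_2 : pcchk ⟨(nat_lit 1), (nat_lit 1000), Int.ofNat (nat_lit 1000), 0, ⟨0, 1⟩, ⟨Int.ofNat
 (nat_lit 40), 200⟩⟩ ⟨900000, 950000, 961681, 948772, 974768, 269917, 320201, 227580, 316227, 223606⟩ false
 (nat_lit 100) (Int.ofNat (nat_lit 955)) (nat_lit 150) (Int.ofNat (nat_lit 267)) qL180_40_6_2 = true := by
 decide +kernel

def qL180_40_6_3 : PCt := .one ⟨2008000, 251, 2008000, -621677, 98612, 0, 0, 200000, 150000, 200000⟩ ⟨0,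
 .pol, .pol, .pol, .pol, .sx 100000 (.sx 50000 (.sy 175000 (.sy 162500 (.aff 3400000 10363947 555773) (.sy
 168750 (.aff 3388000 10616984 537116) (.sy 171875 (.sx 25000 (.sx 12500 (.aff 4200000 11811859 866926)
 (.aff 1000000 0 0)) (.aff 1000000 0 0)) (.sx 25000 (.sx 12500 (.aff 4200000 11919732 859080) (.aff 1000000
 0 0)) (.aff 1000000 0 0))))) (.sx 25000 (.sx 12500 (.aff 4500000 13555442 903697) (.aff 4150000 11008801
 901325)) (.aff 1000000 0 0))) (.aff 1000000 0 0)) .pol, .pol, .pol, .sx 100000 .pol .pol, .pol⟩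

def hL180_40_6_3 : pcchk ⟨(nat_lit 1), (nat_lit 1000), Int.ofNat (nat_lit 1000), 0, ⟨0, 1⟩, ⟨Int.ofNat
 (nat_lit 40), 200⟩⟩ ⟨900000, 950000, 961681, 948772, 974768, 269917, 320201, 227580, 316227, 223606⟩ false
 (nat_lit 150) (Int.ofNat (nat_lit 267)) (nat_lit 200) (Int.negSucc (nat_lit 1280)) qL180_40_6_3 = true :=
 by decide +kernel

def qL180_40_6_4 : PCt := .one ⟨2008000, 251, 2008000, -828100, 139897, 0, 0, 200000, 200000, 250000⟩ ⟨0,
 .pol, .pol, .pol, .pol, .sx 100000 (.sy 225000 (.sy 212500 (.sy 206250 (.sx 50000 (.sx 25000 (.aff 4800000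
 12507332 1154523) (.aff 1000000 0 0)) (.aff 1000000 0 0)) (.sx 50000 (.sx 25000 (.sx 12500 (.aff 5000000
 18903263 846415) (.aff 5000000 12375091 1292920)) (.aff 1000000 0 0)) (.aff 1000000 0 0))) (.sy 218750 (.sx
 50000 (.sx 25000 (.aff 7400000 18795745 2179217) (.aff 5600000 12702731 1665784)) (.aff 1000000 0 0)) (.sy
 221875 (.sx 50000 (.sx 25000 (.aff 8000000 20780099 2358026) (.sx 37500 (.aff 5300000 12034880 1536368)
 (.aff 1000000 0 0))) (.aff 1000000 0 0)) (.sx 50000 (.sx 25000 (.aff 8000000 24164368 2027780) (.aff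
 5800000 12834953 1795099)) (.aff 1000000 0 0))))) (.sy 237500 (.sy 231250 (.sy 228125 (.sx 50000 (.sx 25000
 (.aff 8000000 24332763 2013746) (.aff 5700000 12655138 1745537)) (.aff 1000000 0 0)) (.sx 50000 (.sx 25000
 (.aff 8000000 24500000 2000000) (.aff 5600000 12471007 1696736)) (.aff 1000000 0 0))) (.sy 234375 (.sx
 50000 (.sx 25000 (.aff 8000000 24666104 1986532) (.aff 5500000 12282610 1648673)) (.aff 1000000 0 0)) (.sx
 50000 (.sx 25000 (.aff 8000000 24831097 1973333) (.aff 5500000 12364769 1637718)) (.aff 1000000 0 0))))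
 (.sx 50000 (.sx 25000 (.aff 8000000 25238859 1941451) (.aff 5400000 12288532 1575453)) (.aff 1000000 0
 0)))) (.aff 1000000 0 0), .pol, .pol, .pol, .pol⟩

def hL180_40_6_4 : pcchk ⟨(nat_lit 1), (nat_lit 1000), Int.ofNat (nat_lit 1000), 0, ⟨0, 1⟩, ⟨Int.ofNat
 (nat_lit 40), 200⟩⟩ ⟨900000, 950000, 961681, 948772, 974768, 269917, 320201, 227580, 316227, 223606⟩ false
 (nat_lit 200) (Int.negSucc (nat_lit 1280)) (nat_lit 250) (Int.negSucc (nat_lit 3342)) qL180_40_6_4 = true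
 := by decide +kernel

def qL180_40_6_5 : PCt := .one ⟨2008000, 251, 2008000, -1037735, 192306, 0, 0, 200000, 250000, 300000⟩ ⟨0,
 .pol, .pol, .pol, .pol, .sx 100000 (.sx 50000 (.sy 275000 (.aff 7200000 14205985 2705902) (.aff 8000000
 16785411 2919202)) (.sx 75000 (.sy 275000 (.sy 262500 (.aff 1000000 0 0) (.sx 62500 (.aff 7000000 13495098
 2667636) (.aff 1000000 0 0))) (.sx 62500 (.sx 56250 (.aff 7300000 14242893 2786653) (.aff 7377000 14023380
 2899881)) (.aff 7500000 13604972 3105483))) (.aff 1000000 0 0))) (.aff 1000000 0 0), .pol, .pol, .pol,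
 .pol⟩

def hL180_40_6_5 : pcchk ⟨(nat_lit 1), (nat_lit 1000), Int.ofNat (nat_lit 1000), 0, ⟨0, 1⟩, ⟨Int.ofNat
 (nat_lit 40), 200⟩⟩ ⟨900000, 950000, 961681, 948772, 974768, 269917, 320201, 227580, 316227, 223606⟩ false
 (nat_lit 250) (Int.negSucc (nat_lit 3342)) (nat_lit 300) (Int.negSucc (nat_lit 5926)) qL180_40_6_5 = true
 := by decide +kernel

def qL180_40_6_6 : PCt := .one ⟨2008000, 251, 2008000, -1169861, 231944, 0, 0, 200000, 300000, 350000⟩ ⟨0,
 .pol, .pol, .pol, .pol, .sx 100000 (.sx 50000 (.aff 8000000 17846569 2745626) (.sx 75000 (.sy 325000 (.aff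
 7882000 14490209 3268547) (.aff 8000000 14849243 3299832)) (.sx 87500 (.sy 325000 (.aff 8164000 14690716
 3493560) (.aff 8100000 14470501 3483639)) (.aff 8363000 14296504 3792100)))) (.aff 1000000 0 0), .pol,
 .pol, .pol, .pol⟩

def hL180_40_6_6 : pcchk ⟨(nat_lit 1), (nat_lit 1000), Int.ofNat (nat_lit 1000), 0, ⟨0, 1⟩, ⟨Int.ofNat
 (nat_lit 40), 200⟩⟩ ⟨900000, 950000, 961681, 948772, 974768, 269917, 320201, 227580, 316227, 223606⟩ false
 (nat_lit 300) (Int.negSucc (nat_lit 5926)) (nat_lit 350) (Int.negSucc (nat_lit 8839)) qL180_40_6_6 = true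
 := by decide +kernel

def qL180_40_6_7 : PCt := .one ⟨2008000, 251, 2008000, -1330501, 288168, 0, 0, 200000, 350000, 400000⟩ ⟨0,
 .pol, .pol, .pol, .pol, .sx 100000 (.aff 9600000 16653829 4441021) (.sx 150000 (.sx 125000 (.sx 112500 (.sy
 375000 (.aff 9100000 15186478 4320291) (.aff 9600000 15960925 4633817)) (.sy 375000 (.aff 1000000 0 0)
 (.aff 9500000 15560692 4643110))) (.aff 9025000 14260205 4516108)) (.aff 1000000 0 0)), .pol, .pol, .sx
 100000 (.sx 50000 (.inf 3872984 258199) .pol) .pol, .pol⟩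

def hL180_40_6_7 : pcchk ⟨(nat_lit 1), (nat_lit 1000), Int.ofNat (nat_lit 1000), 0, ⟨0, 1⟩, ⟨Int.ofNat
 (nat_lit 40), 200⟩⟩ ⟨900000, 950000, 961681, 948772, 974768, 269917, 320201, 227580, 316227, 223606⟩ false
 (nat_lit 350) (Int.negSucc (nat_lit 8839)) (nat_lit 400) (Int.negSucc (nat_lit 12152)) qL180_40_6_7 = true
 := by decide +kernel

end CB
end Pool.Agent.Lib.MP_6947cd_al
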