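import Pool.Agent.Lib.MP_6947cd_al.L.PairSplit

/-!
Problem MP_6947cd_al (Chollet).  Library of pair functions: certificates of the pieces (generated).
-/

set_option autoImplicit false
set_option linter.defProp false
set_option maxRecDepth 100000

namespace Pool.Agent.Lib.MP_6947cd_al
namespace CB

open CA

def qL180_40_6_8 : PCt := .one ⟨2008000, 251, 2008000, -1439736, 331862, 0, 0, 200000, 400000, 450000⟩ ⟨0,
 .pol, .pol, .pol, .pol, .sx 100000 (.aff 12000000 26185238 4620925) (.sx 150000 (.sx 125000 (.aff 12000000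
 20282998 5965588) (.sy 425000 (.sx 137500 (.sx 131250 (.aff 10700000 17196263 5471538) (.sy 412500 (.aff
 9900000 15565649 5088770) (.aff 10800000 17102207 5615650))) (.sx 143750 (.aff 10400000 16189552 5457841)
 (.aff 1500000 837931 298354))) (.aff 10800000 16736687 5738293))) (.sx 175000 (.sx 162500 (.sx 156250 (.sy
 425000 (.aff 1000000 0 0) (.aff 10900000 16565869 5916382)) (.sy 425000 (.aff 1000000 0 0) (.aff 10900000
 16244171 6033549))) (.aff 1000000 0 0)) (.aff 1000000 0 0))), .pol, .aff 12000000 23334524 5185450, .sx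
 100000 (.inf 2332381 428747) .pol, .pol⟩

def hL180_40_6_8 : pcchk ⟨(nat_lit 1), (nat_lit 1000), Int.ofNat (nat_lit 1000), 0, ⟨0, 1⟩, ⟨Int.ofNat
 (nat_lit 40), 200⟩⟩ ⟨900000, 950000, 961681, 948772, 974768, 269917, 320201, 227580, 316227, 223606⟩ false
 (nat_lit 400) (Int.negSucc (nat_lit 12152)) (nat_lit 450) (Int.negSucc (nat_lit 15737)) qL180_40_6_8 = true
 := by decide +kernel

def qL180_40_6_9 : PCt := .one ⟨2008000, 251, 2008000, -1583108, 396379, 0, 0, 200000, 450000, 500000⟩ ⟨0,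
 .pol, .pol, .pol, .pol, .sx 100000 (.aff 12000000 27682727 4370957) (.sx 150000 (.aff 12000000 19574644
 6181467) (.sx 175000 (.sy 475000 (.aff 11800000 17557417 6643347) (.aff 12000000 18359506 6590592)) (.sx
 187500 (.sy 475000 (.aff 11750000 17322154 6671371) (.aff 12000000 17736968 6821911)) (.sy 475000 (.aff
 1000000 0 0) (.sy 487500 (.aff 12000000 17477855 6923047) (.aff 12000000 17560036 6890647)))))), .pol, .aff
 12000000 19574644 6181467, .sx 100000 (.inf 3082208 324443) .pol, .pol⟩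

def hL180_40_6_9 : pcchk ⟨(nat_lit 1), (nat_lit 1000), Int.ofNat (nat_lit 1000), 0, ⟨0, 1⟩, ⟨Int.ofNat
 (nat_lit 40), 200⟩⟩ ⟨900000, 950000, 961681, 948772, 974768, 269917, 320201, 227580, 316227, 223606⟩ false
 (nat_lit 450) (Int.negSucc (nat_lit 15737)) (nat_lit 500) (Int.negSucc (nat_lit 19679)) qL180_40_6_9 = true
 := by decide +kernel

def qL180_40_6_10 : PCt := .one ⟨2008000, 251, 2008000, -4144512, 1677081, 0, 0, 200000, 500000, 550000⟩ ⟨0,
 .pol, .pol, .pol, .pol, .sx 100000 (.aff 8000000 18520260 2645752) (.sx 150000 (.aff 20000000 38938413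
 9271051) (.sx 175000 (.aff 20000000 34151248 10570624) (.sx 187500 (.aff 35000000 57865481 19977368) (.sy
 525000 (.sy 512500 (.aff 35000000 54093669 21370339) (.aff 35000000 55633594 20778813)) (.aff 35000000
 56630096 20413174))))), .pol, .sy 525000 (.aff 35000000 54426557 21239632) (.inf 1854724 539164), .sx
 100000 (.inf 3240371 308607) (.sy 525000 (.sx 150000 (.inf 2024846 493865) (.sy 512500 .pol (.inf 1721711
 580818))) (.inf 1892970 528271)), .pol⟩

def hL180_40_6_10 : pcchk ⟨(nat_lit 1), (nat_lit 1000), Int.ofNat (nat_lit 1000), 0, ⟨0, 1⟩, ⟨Int.ofNat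
 (nat_lit 40), 200⟩⟩ ⟨900000, 950000, 961681, 948772, 974768, 269917, 320201, 227580, 316227, 223606⟩ false
 (nat_lit 500) (Int.negSucc (nat_lit 19679)) (nat_lit 550) (Int.negSucc (nat_lit 29999)) qL180_40_6_10 =
 true := by decide +kernel

def qL180_40_6_11 : PCt := .one ⟨2008000, 251, 2008000, 0, -602400, 0, 0, 200000, 550000, 600000⟩ ⟨0, .pol,
 .pol, .pol, .pol, .aff 12000000 18651408 6487446, .pol, .inf 1918333 521286, .inf 1918333 521286, .pol⟩

def hL180_40_6_11 : pcchk ⟨(nat_lit 1), (nat_lit 1000), Int.ofNat (nat_lit 1000), 0, ⟨0, 1⟩, ⟨Int.ofNat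
 (nat_lit 40), 200⟩⟩ ⟨900000, 950000, 961681, 948772, 974768, 269917, 320201, 227580, 316227, 223606⟩ false
 (nat_lit 550) (Int.negSucc (nat_lit 29999)) (nat_lit 600) (Int.negSucc (nat_lit 29999)) qL180_40_6_11 =
 true := by decide +kernel

def qL180_40_6_12 : PCt := .one ⟨2008000, 251, 2008000, 0, -602400, 0, 0, 200000, 600000, 650000⟩ ⟨0, .pol,
 .pol, .pol, .pol, .aff 5000000 8164966 1959592, .pol, .aff 35000000 69402210 16656531, .inf 2000000 500000,
 .pol⟩

def hL180_40_6_12 : pcchk ⟨(nat_lit 1), (nat_lit 1000), Int.ofNat (nat_lit 1000), 0, ⟨0, 1⟩, ⟨Int.ofNat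
 (nat_lit 40), 200⟩⟩ ⟨900000, 950000, 961681, 948772, 974768, 269917, 320201, 227580, 316227, 223606⟩ false
 (nat_lit 600) (Int.negSucc (nat_lit 29999)) (nat_lit 650) (Int.negSucc (nat_lit 29999)) qL180_40_6_12 =
 true := by decide +kernel

def qL180_40_6_13 : PCt := .one ⟨2008000, 251, 2008000, 0, -602400, 0, 0, 200000, 650000, 700000⟩ ⟨0, .pol,
 .pol, .pol, .pol, .aff 3000000 5196153 769801, .pol, .aff 20000000 40305087 8956686, .inf 2598077 384901,
 .pol⟩

def hL180_40_6_13 : pcchk ⟨(nat_lit 1), (nat_lit 1000), Int.ofNat (nat_lit 1000), 0, ⟨0, 1⟩, ⟨Int.ofNat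
 (nat_lit 40), 200⟩⟩ ⟨900000, 950000, 961681, 948772, 974768, 269917, 320201, 227580, 316227, 223606⟩ false
 (nat_lit 650) (Int.negSucc (nat_lit 29999)) (nat_lit 700) (Int.negSucc (nat_lit 29999)) qL180_40_6_13 =
 true := by decide +kernel

def qL180_40_6_14 : PCt := .one ⟨2008000, 251, 2008000, 0, -602400, 0, 0, 200000, 700000, 750000⟩ ⟨0, .pol,
 .pol, .pol, .pol, .aff 2000000 2692583 371391, .pol, .aff 12000000 20943377 5777483, .inf 2692583 371391,
 .pol⟩

def hL180_40_6_14 : pcchk ⟨(nat_lit 1), (nat_lit 1000), Int.ofNat (nat_lit 1000), 0, ⟨0, 1⟩, ⟨Int.ofNat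
 (nat_lit 40), 200⟩⟩ ⟨900000, 950000, 961681, 948772, 974768, 269917, 320201, 227580, 316227, 223606⟩ false
 (nat_lit 700) (Int.negSucc (nat_lit 29999)) (nat_lit 750) (Int.negSucc (nat_lit 29999)) qL180_40_6_14 =
 true := by decide +kernel

def qL180_40_6_15 : PCt := .one ⟨2008000, 251, 2008000, 0, -602400, 0, 0, 200000, 750000, 800000⟩ ⟨0, .pol,
 .pol, .pol, .pol, .aff 1500000 1391942 179606, .pol, .aff 12000000 25003334 4839355, .inf 2783883 359211,
 .pol⟩

def hL180_40_6_15 : pcchk ⟨(nat_lit 1), (nat_lit 1000), Int.ofNat (nat_lit 1000), 0, ⟨0, 1⟩, ⟨Int.ofNat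
 (nat_lit 40), 200⟩⟩ ⟨900000, 950000, 961681, 948772, 974768, 269917, 320201, 227580, 316227, 223606⟩ false
 (nat_lit 750) (Int.negSucc (nat_lit 29999)) (nat_lit 800) (Int.negSucc (nat_lit 29999)) qL180_40_6_15 =
 true := by decide +kernel

def qL180_40_6_16 : PCt := .one ⟨2008000, 251, 2008000, 0, -602400, 0, 0, 200000, 800000, 850000⟩ ⟨0, .pol,
 .pol, .pol, .pol, .aff 1500000 1436141 174078, .pol, .aff 12000000 25797287 4690416, .inf 2872282 348156,
 .pol⟩

def hL180_40_6_16 : pcchk ⟨(nat_lit 1), (nat_lit 1000), Int.ofNat (nat_lit 1000), 0, ⟨0, 1⟩, ⟨Int.ofNat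
 (nat_lit 40), 200⟩⟩ ⟨900000, 950000, 961681, 948772, 974768, 269917, 320201, 227580, 316227, 223606⟩ false
 (nat_lit 800) (Int.negSucc (nat_lit 29999)) (nat_lit 850) (Int.negSucc (nat_lit 29999)) qL180_40_6_16 =
 true := by decide +kernel

def qL180_40_6_17 : PCt := .one ⟨2008000, 251, 2008000, 0, -602400, 0, 0, 200000, 850000, 900000⟩ ⟨0, .pol,
 .pol, .pol, .pol, .aff 1000000 0 0, .pol, .aff 12000000 32538439 3718679, .inf 2958040 338062, .pol⟩

def hL180_40_6_17 : pcchk ⟨(nat_lit 1), (nat_lit 1000), Int.ofNat (nat_lit 1000), 0, ⟨0, 1⟩, ⟨Int.ofNat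
 (nat_lit 40), 200⟩⟩ ⟨900000, 950000, 961681, 948772, 974768, 269917, 320201, 227580, 316227, 223606⟩ false
 (nat_lit 850) (Int.negSucc (nat_lit 29999)) (nat_lit 900) (Int.negSucc (nat_lit 29999)) qL180_40_6_17 =
 true := by decide +kernel

def qL180_40_6_18 : PCt := .one ⟨2008000, 251, 2008000, 0, -602400, 0, 0, 200000, 900000, 950000⟩ ⟨0, .pol,
 .pol, .pol, .pol, .aff 1000000 0 0, .pol, .aff 8000000 17382942 2818856, .inf 3041382 328798, .pol⟩

def hL180_40_6_18 : pcchk ⟨(nat_lit 1), (nat_lit 1000), Int.ofNat (nat_lit 1000), 0, ⟨0, 1⟩, ⟨Int.ofNat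
 (nat_lit 40), 200⟩⟩ ⟨900000, 950000, 961681, 948772, 974768, 269917, 320201, 227580, 316227, 223606⟩ false
 (nat_lit 900) (Int.negSucc (nat_lit 29999)) (nat_lit 950) (Int.negSucc (nat_lit 29999)) qL180_40_6_18 =
 true := by decide +kernel

def qL180_40_6_19 : PCt := .one ⟨2008000, 251, 2008000, 0, -602400, 0, 0, 200000, 950000, 1000000⟩ ⟨0, .pol,
 .pol, .pol, .pol, .aff 1000000 0 0, .pol, .aff 8000000 17846569 2745626, .inf 3122499 320257, .pol⟩

def hL180_40_6_19 : pcchk ⟨(nat_lit 1), (nat_lit 1000), Int.ofNat (nat_lit 1000), 0, ⟨0, 1⟩, ⟨Int.ofNat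
 (nat_lit 40), 200⟩⟩ ⟨900000, 950000, 961681, 948772, 974768, 269917, 320201, 227580, 316227, 223606⟩ false
 (nat_lit 950) (Int.negSucc (nat_lit 29999)) (nat_lit 1000) (Int.negSucc (nat_lit 29999)) qL180_40_6_19 =
 true := by decide +kernel

end CB
end Pool.Agent.Lib.MP_6947cd_al
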