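import Pool.Agent.Lib.MP_6947cd_al.L.PairSplit

/-!
Problem MP_6947cd_al (Chollet).  Library of pair functions: certificates of the pieces (generated).
-/

set_option autoImplicit false
set_option linter.defProp false
set_option maxRecDepth 100000

namespace Pool.Agent.Lib.MP_6947cd_al
namespace CB

open CA

def qL110_40_6_17 : PCt := .one ⟨2008000, 251, 2008000, -1969447, 1342227, 0, 0, 200000, 850000, 900000⟩ ⟨0,
 .pol, .pol, .pol, .pol, .aff 1000000 0 0, .pol, .sx 100000 (.aff 12000000 37572153 3220471) (.sx 150000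
 (.aff 12000000 29103265 4157610) (.sx 175000 (.aff 12000000 25525252 4740404) (.sx 187500 (.aff 12000000
 23963249 5049399) (.sy 875000 (.sy 862500 (.aff 12000000 23124488 5232549) (.aff 12300000 23551082
 5421832)) (.aff 12000000 23171912 5221840))))), .sx 100000 (.inf 4183301 239046) (.sx 150000 (.inf 2645752
 377965) .pol), .pol⟩

def hL110_40_6_17 : pcchk ⟨(nat_lit 1), (nat_lit 1000), Int.ofNat (nat_lit 1000), 0, ⟨0, 1⟩, ⟨Int.ofNat
 (nat_lit 40), 200⟩⟩ ⟨550000, 600000, 758108, 741800, 774776, 651638, 671103, 632738, 670820, 632455⟩ false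
 (nat_lit 850) (Int.negSucc (nat_lit 16523)) (nat_lit 900) (Int.negSucc (nat_lit 21427)) qL110_40_6_17 =
 true := by decide +kernel

def qL110_40_6_18 : PCt := .one ⟨2008000, 251, 2008000, -3442516, 2667989, 0, 0, 200000, 900000, 950000⟩ ⟨0,
 .pol, .pol, .pol, .pol, .aff 1000000 0 0, .pol, .aff 20000000 47182271 7651179, .inf 2433106 410998, .pol⟩

def hL110_40_6_18 : pcchk ⟨(nat_lit 1), (nat_lit 1000), Int.ofNat (nat_lit 1000), 0, ⟨0, 1⟩, ⟨Int.ofNat
 (nat_lit 40), 200⟩⟩ ⟨550000, 600000, 758108, 741800, 774776, 651638, 671103, 632738, 670820, 632455⟩ false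
 (nat_lit 900) (Int.negSucc (nat_lit 21427)) (nat_lit 950) (Int.negSucc (nat_lit 29999)) qL110_40_6_18 =
 true := by decide +kernel

def qL110_40_6_19 : PCt := .one ⟨2008000, 251, 2008000, 0, -602400, 0, 0, 200000, 950000, 1000000⟩ ⟨0, .pol,
 .pol, .pol, .pol, .aff 1000000 0 0, .pol, .aff 20000000 48440686 7452414, .inf 3122499 320257, .pol⟩

def hL110_40_6_19 : pcchk ⟨(nat_lit 1), (nat_lit 1000), Int.ofNat (nat_lit 1000), 0, ⟨0, 1⟩, ⟨Int.ofNat
 (nat_lit 40), 200⟩⟩ ⟨550000, 600000, 758108, 741800, 774776, 651638, 671103, 632738, 670820, 632455⟩ false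
 (nat_lit 950) (Int.negSucc (nat_lit 29999)) (nat_lit 1000) (Int.negSucc (nat_lit 29999)) qL110_40_6_19 =
 true := by decide +kernel

end CB
end Pool.Agent.Lib.MP_6947cd_al
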