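import Pool.Agent.Lib.MP_6947cd_al.L.PairSplit

/-!
Problem MP_6947cd_al (Chollet).  Library of pair functions: certificates of the pieces (generated).
-/

set_option autoImplicit false
set_option linter.defProp false
set_option maxRecDepth 100000

namespace Pool.Agent.Lib.MP_6947cd_al
namespace CB

open CA

def qL120_40_0_0 : PCt := .one ⟨2008000, 251, 502000, 493968, 0, 0, 0, 200000, 0, 50000⟩ ⟨50000, .pol, .pol,
 .pol, .pol, .sy 25000 (.aff 0 316228 3162276) (.aff 0 433013 2309400), .pol, .pol, .pol, .pol⟩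

def hL120_40_0_0 : pcchk ⟨(nat_lit 3), (nat_lit 1000), Int.ofNat (nat_lit 250), 0, ⟨0, 1⟩, ⟨Int.ofNat
 (nat_lit 40), 200⟩⟩ ⟨600000, 650000, 790411, 774755, 806384, 612032, 632797, 591949, 632455, 591607⟩ true 0
 0 (nat_lit 50) (Int.ofNat (nat_lit 1230)) qL120_40_0_0 = true := by decide +kernel

def qL120_40_0_1 : PCt := .one ⟨2008000, 251, 502000, 302003, 9598, 0, 0, 200000, 50000, 100000⟩ ⟨0, .pol,
 .pol, .pol, .pol, .sy 75000 (.sy 62500 (.sx 100000 (.aff 0 1060661 942809) (.aff 300000 438602 1117186))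
 (.sy 68750 (.sy 65625 (.sx 100000 (.aff 0 1131924 883452) (.sx 150000 .pol (.aff 500000 302520 826392)))
 (.sx 100000 (.aff 0 1159203 862662) (.sx 150000 .pol (.aff 500000 309810 806947)))) (.sy 71875 (.sx 100000
 (.aff 0 1185855 843274) (.sx 150000 (.aff 0 750000 1333334) (.aff 500000 316933 788811))) (.sx 100000 (.aff
 0 1211920 825137) (.sx 150000 (.aff 0 766486 1304656) (.aff 500000 323900 771844)))))) (.sy 87500 (.sy
 81250 (.sy 78125 (.sx 100000 (.aff 0 1237437 808122) (.sx 150000 (.aff 0 782624 1277753) (.aff 500000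
 330719 755929))) (.sx 100000 (.aff 0 1262439 792118) (.sx 150000 (.aff 250000 598827 939337) (.aff 1000000
 0 0)))) (.sy 84375 (.sx 100000 (.aff 0 1286954 777029) (.sx 150000 (.aff 250000 610456 921443) (.aff
 1000000 0 0))) (.sx 100000 (.aff 0 1311012 762770) (.sx 150000 (.aff 250000 621868 904533) (.aff 1000000 0
 0))))) (.sy 93750 (.sx 100000 (.aff 0 1346292 742781) (.sx 150000 (.aff 275000 563530 932737) (.aff 1000000
 0 0))) (.sx 100000 (.aff 0 1136516 879883) (.sx 150000 (.sx 125000 (.aff 250000 695971 808224) (.aff 375000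
 524608 744604)) (.aff 1000000 0 0))))), .pol, .pol, .sy 75000 (.sy 62500 (.sy 56250 .pol (.sy 59375 .pol
 (.sx 100000 (.sx 50000 .pol .pol) .pol))) (.sy 68750 (.sy 65625 (.sx 100000 (.sx 50000 .pol .pol) .pol)
 (.sx 100000 (.sx 50000 .pol .pol) .pol)) (.sy 71875 (.sx 100000 (.sx 50000 .pol .pol) .pol) (.sx 100000
 (.sx 50000 .pol .pol) .pol)))) (.sy 87500 (.sy 81250 (.sy 78125 (.sx 100000 (.sx 50000 .pol .pol) .pol)
 (.sx 100000 (.sx 50000 .pol .pol) .pol)) (.sy 84375 (.sx 100000 (.sx 50000 .pol .pol) .pol) (.sx 100000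
 (.sx 50000 .pol .pol) .pol))) (.sy 93750 (.sy 90625 (.sx 100000 (.sx 50000 .pol .pol) .pol) (.sx 100000
 (.sx 50000 .pol .pol) .pol)) (.sy 96875 (.sx 100000 (.sx 50000 .pol .pol) .pol) (.sx 100000 (.sx 50000 .pol
 .pol) .pol)))), .pol⟩

def hL120_40_0_1 : pcchk ⟨(nat_lit 3), (nat_lit 1000), Int.ofNat (nat_lit 250), 0, ⟨0, 1⟩, ⟨Int.ofNat
 (nat_lit 40), 200⟩⟩ ⟨600000, 650000, 790411, 774755, 806384, 612032, 632797, 591949, 632455, 591607⟩ false
 (nat_lit 50) (Int.ofNat (nat_lit 1230)) (nat_lit 100) (Int.ofNat (nat_lit 1982)) qL120_40_0_1 = true := by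
 decide +kernel

def qL120_40_0_2 : PCt := .one ⟨2008000, 251, 502000, 328508, 6947, 0, 0, 200000, 100000, 150000⟩ ⟨0, .pol,
 .pol, .pol, .pol, .sy 125000 (.sx 100000 (.aff 175000 1010415 673610) (.sx 150000 (.sx 125000 (.aff 300000
 700000 700000) (.aff 1000000 0 0)) (.aff 1000000 0 0))) (.sy 137500 (.sx 100000 (.sx 50000 (.aff 0 2291288
 436436) (.aff 250000 918559 612373)) (.aff 1000000 0 0)) (.sy 143750 (.sx 100000 (.sx 50000 (.aff 0 2371709
 421637) (.aff 275000 919106 571888)) (.aff 1000000 0 0)) (.sx 100000 (.sy 146875 (.sx 50000 (.aff 0 2410913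
 414781) (.sx 75000 (.aff 250000 1143597 491870) (.aff 375000 805430 484990))) (.sx 50000 (.aff 0 2436699
 410392) (.sx 75000 (.aff 250000 1155828 486665) (.aff 375000 814044 479858)))) (.aff 1000000 0 0)))), .pol,
 .pol, .sx 100000 .pol .pol, .pol⟩

def hL120_40_0_2 : pcchk ⟨(nat_lit 3), (nat_lit 1000), Int.ofNat (nat_lit 250), 0, ⟨0, 1⟩, ⟨Int.ofNat
 (nat_lit 40), 200⟩⟩ ⟨600000, 650000, 790411, 774755, 806384, 612032, 632797, 591949, 632455, 591607⟩ false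
 (nat_lit 100) (Int.ofNat (nat_lit 1982)) (nat_lit 150) (Int.ofNat (nat_lit 2800)) qL120_40_0_2 = true := by
 decide +kernel

def qL120_40_0_3 : PCt := .one ⟨2008000, 251, 502000, 325697, 7369, 0, 0, 200000, 150000, 200000⟩ ⟨0, .pol,
 .pol, .pol, .pol, .sx 100000 (.sy 175000 (.sy 162500 (.sx 50000 (.aff 0 2041242 489898) (.aff 319000 986544
 470087)) (.sy 168750 (.sx 50000 (.aff 0 1820028 549443) (.aff 337000 1001301 438998)) (.sx 50000 (.aff
 250000 1605655 350325) (.aff 363000 1030264 393850)))) (.sx 50000 (.aff 325000 1509346 301870) (.aff 400000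
 1092513 329516))) (.aff 1000000 0 0), .pol, .pol, .sx 100000 .pol .pol, .pol⟩

def hL120_40_0_3 : pcchk ⟨(nat_lit 3), (nat_lit 1000), Int.ofNat (nat_lit 250), 0, ⟨0, 1⟩, ⟨Int.ofNat
 (nat_lit 40), 200⟩⟩ ⟨600000, 650000, 790411, 774755, 806384, 612032, 632797, 591949, 632455, 591607⟩ false
 (nat_lit 150) (Int.ofNat (nat_lit 2800)) (nat_lit 200) (Int.ofNat (nat_lit 3611)) qL120_40_0_3 = true := by
 decide +kernel

def qL120_40_0_4 : PCt := .one ⟨2008000, 251, 502000, 316460, 9216, 0, 0, 200000, 200000, 250000⟩ ⟨0, .pol,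
 .pol, .pol, .pol, .sy 225000 (.sx 100000 (.sx 50000 (.aff 400000 1428286 252051) (.aff 1000000 0 0)) (.aff
 1000000 0 0)) (.sx 100000 (.sy 237500 (.sy 231250 (.sy 228125 (.sx 50000 (.aff 406000 1423992 247780) (.aff
 1000000 0 0)) (.sx 50000 (.sx 25000 (.aff 500000 1750000 142858) (.aff 500000 1355545 184428)) (.aff
 1000000 0 0))) (.sy 234375 (.sy 232812 (.sx 50000 (.sx 25000 (.aff 500000 1758905 142134) (.aff 500000
 1362442 183495)) (.aff 1000000 0 0)) (.sx 50000 (.sx 25000 (.aff 500000 1764818 141658) (.aff 500000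
 1367022 182880)) (.aff 1000000 0 0))) (.sy 235937 (.sx 50000 (.sx 25000 (.aff 500000 1770710 141187) (.aff
 500000 1252081 199668)) (.aff 1000000 0 0)) (.sx 50000 (.sx 25000 (.aff 500000 1776583 140720) (.aff 500000
 1256234 199008)) (.aff 1000000 0 0))))) (.sy 243750 (.sy 240625 (.sy 239062 (.sx 50000 (.sx 25000 (.aff
 500000 1782437 140258) (.aff 500000 1260373 198354)) (.aff 1000000 0 0)) (.sx 50000 (.sx 25000 (.aff 500000
 1788272 139800) (.aff 500000 1264499 197707)) (.aff 1000000 0 0))) (.sx 50000 (.aff 503000 1546901 159680)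
 (.aff 1000000 0 0))) (.sx 50000 (.aff 501000 1529368 162814) (.aff 1000000 0 0)))) (.aff 1000000 0 0)),
 .pol, .pol, .pol, .pol⟩

def hL120_40_0_4 : pcchk ⟨(nat_lit 3), (nat_lit 1000), Int.ofNat (nat_lit 250), 0, ⟨0, 1⟩, ⟨Int.ofNat
 (nat_lit 40), 200⟩⟩ ⟨600000, 650000, 790411, 774755, 806384, 612032, 632797, 591949, 632455, 591607⟩ false
 (nat_lit 200) (Int.ofNat (nat_lit 3611)) (nat_lit 250) (Int.ofNat (nat_lit 4399)) qL120_40_0_4 = true := by
 decide +kernel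

def qL120_40_0_5 : PCt := .one ⟨2008000, 251, 502000, 305617, 11927, 0, 0, 200000, 250000, 300000⟩ ⟨0, .pol,
 .pol, .pol, .pol, .sy 275000 (.sy 262500 (.sy 256250 (.sx 100000 (.sx 50000 (.aff 525000 1549704 145593)
 (.aff 1000000 0 0)) (.aff 1000000 0 0)) (.sx 100000 (.sx 50000 (.sy 259375 (.aff 519000 1544640 149784)
 (.aff 525000 1573437 143397)) (.aff 1000000 0 0)) (.aff 1000000 0 0))) (.sy 268750 (.sx 100000 (.sx 50000
 (.sx 25000 (.aff 500000 1881932 132843) (.aff 1000000 0 0)) (.aff 1000000 0 0)) (.aff 1000000 0 0)) (.sy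
 271875 (.sx 100000 (.sx 50000 (.sx 25000 (.aff 500000 1898465 131686) (.aff 1000000 0 0)) (.aff 1000000 0
 0)) (.aff 1000000 0 0)) (.sx 100000 (.sx 50000 (.aff 588000 1617595 104937) (.aff 1000000 0 0)) (.aff
 1000000 0 0))))) (.sy 287500 (.sy 281250 (.sy 278125 (.sx 100000 (.sx 50000 (.aff 600000 1619413 98802)
 (.aff 1000000 0 0)) (.aff 1000000 0 0)) (.sx 100000 (.sx 50000 (.aff 625000 1687323 83343) (.aff 1000000 0
 0)) (.aff 1000000 0 0))) (.sx 100000 (.sx 50000 (.aff 600000 1642127 97435) (.aff 1000000 0 0)) (.aff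
 1000000 0 0))) (.sy 293750 (.sy 290625 (.sx 100000 (.sx 50000 (.aff 600000 1655605 96642) (.aff 1000000 0
 0)) (.aff 1000000 0 0)) (.sx 100000 (.sx 50000 (.aff 625000 1640506 85721) (.aff 1000000 0 0)) (.aff
 1000000 0 0))) (.sy 296875 (.sx 100000 (.sx 50000 (.aff 625000 1649255 85266) (.aff 1000000 0 0)) (.aff
 1000000 0 0)) (.sx 100000 (.aff 675000 1583540 66702) (.aff 1000000 0 0))))), .pol, .pol, .pol, .pol⟩

def hL120_40_0_5 : pcchk ⟨(nat_lit 3), (nat_lit 1000), Int.ofNat (nat_lit 250), 0, ⟨0, 1⟩, ⟨Int.ofNat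
 (nat_lit 40), 200⟩⟩ ⟨600000, 650000, 790411, 774755, 806384, 612032, 632797, 591949, 632455, 591607⟩ false
 (nat_lit 250) (Int.ofNat (nat_lit 4399)) (nat_lit 300) (Int.ofNat (nat_lit 5160)) qL120_40_0_5 = true := by
 decide +kernel

def qL120_40_0_6 : PCt := .one ⟨2008000, 251, 502000, 283529, 18553, 0, 0, 200000, 300000, 350000⟩ ⟨0, .pol,
 .pol, .pol, .pol, .sy 325000 (.sy 312500 (.sy 306250 (.sy 303125 (.sx 100000 (.sx 50000 (.aff 650000
 1719103 71259) (.aff 1000000 0 0)) (.aff 1000000 0 0)) (.sy 304687 (.sx 100000 (.sx 50000 (.aff 650000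
 1725770 70983) (.aff 1000000 0 0)) (.aff 1000000 0 0)) (.sx 100000 (.sx 50000 (.aff 650000 1730200 70802)
 (.aff 1000000 0 0)) (.aff 1000000 0 0)))) (.sx 100000 (.sx 50000 (.aff 675000 1699753 62142) (.aff 1000000
 0 0)) (.aff 1000000 0 0))) (.sx 100000 (.sx 50000 (.aff 750000 1704114 36676) (.aff 1000000 0 0)) (.aff
 1000000 0 0))) (.sx 100000 (.aff 775000 1696284 29845) (.aff 1000000 0 0)), .pol, .pol, .pol, .pol⟩

def hL120_40_0_6 : pcchk ⟨(nat_lit 3), (nat_lit 1000), Int.ofNat (nat_lit 250), 0, ⟨0, 1⟩, ⟨Int.ofNat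
 (nat_lit 40), 200⟩⟩ ⟨600000, 650000, 790411, 774755, 806384, 612032, 632797, 591949, 632455, 591607⟩ false
 (nat_lit 300) (Int.ofNat (nat_lit 5160)) (nat_lit 350) (Int.ofNat (nat_lit 5866)) qL120_40_0_6 = true := by
 decide +kernel

def qL120_40_0_7 : PCt := .one ⟨2008000, 251, 502000, 270276, 23192, 0, 0, 200000, 350000, 400000⟩ ⟨0, .pol,
 .pol, .pol, .pol, .sx 100000 (.sx 50000 (.sx 25000 (.aff 900000 1645450 6078) (.aff 1000000 0 0)) (.aff
 1000000 0 0)) (.aff 1000000 0 0), .pol, .pol, .pol, .pol⟩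

def hL120_40_0_7 : pcchk ⟨(nat_lit 3), (nat_lit 1000), Int.ofNat (nat_lit 250), 0, ⟨0, 1⟩, ⟨Int.ofNat
 (nat_lit 40), 200⟩⟩ ⟨600000, 650000, 790411, 774755, 806384, 612032, 632797, 591949, 632455, 591607⟩ false
 (nat_lit 350) (Int.ofNat (nat_lit 5866)) (nat_lit 400) (Int.ofNat (nat_lit 6539)) qL120_40_0_7 = true := by
 decide +kernel

def qL120_40_0_8 : PCt := .one ⟨2008000, 251, 502000, 248992, 31706, 0, 0, 200000, 400000, 450000⟩ ⟨0, .pol,
 .pol, .pol, .pol, .sx 100000 (.sx 50000 (.sx 25000 (.sx 12500 (.aff 1100000 1835229 5449) (.aff 1000000 0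
 0)) (.aff 1000000 0 0)) (.aff 1000000 0 0)) (.aff 1000000 0 0), .pol, .pol, .pol, .pol⟩

def hL120_40_0_8 : pcchk ⟨(nat_lit 3), (nat_lit 1000), Int.ofNat (nat_lit 250), 0, ⟨0, 1⟩, ⟨Int.ofNat
 (nat_lit 40), 200⟩⟩ ⟨600000, 650000, 790411, 774755, 806384, 612032, 632797, 591949, 632455, 591607⟩ false
 (nat_lit 400) (Int.ofNat (nat_lit 6539)) (nat_lit 450) (Int.ofNat (nat_lit 7159)) qL120_40_0_8 = true := by
 decide +kernel

def qL120_40_0_9 : PCt := .one ⟨2008000, 251, 502000, 224896, 42549, 0, 0, 200000, 450000, 500000⟩ ⟨0, .pol,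
 .pol, .pol, .pol, .sx 100000 (.sx 50000 (.aff 1256000 2413832 27151) (.aff 1000000 0 0)) (.aff 1000000 0
 0), .pol, .pol, .pol, .pol⟩

def hL120_40_0_9 : pcchk ⟨(nat_lit 3), (nat_lit 1000), Int.ofNat (nat_lit 250), 0, ⟨0, 1⟩, ⟨Int.ofNat
 (nat_lit 40), 200⟩⟩ ⟨600000, 650000, 790411, 774755, 806384, 612032, 632797, 591949, 632455, 591607⟩ false
 (nat_lit 450) (Int.ofNat (nat_lit 7159)) (nat_lit 500) (Int.ofNat (nat_lit 7719)) qL120_40_0_9 = true := by
 decide +kernel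

def qL120_40_0_10 : PCt := .one ⟨2008000, 251, 502000, 200398, 54798, 0, 0, 200000, 500000, 550000⟩ ⟨0,
 .pol, .pol, .pol, .pol, .sx 100000 (.sx 50000 (.sx 25000 (.sx 12500 (.aff 1500000 3741658 66816) (.aff
 1500000 2645752 94492)) (.aff 1000000 0 0)) (.aff 1000000 0 0)) (.aff 1000000 0 0), .pol, .pol, .pol, .pol⟩

def hL120_40_0_10 : pcchk ⟨(nat_lit 3), (nat_lit 1000), Int.ofNat (nat_lit 250), 0, ⟨0, 1⟩, ⟨Int.ofNat
 (nat_lit 40), 200⟩⟩ ⟨600000, 650000, 790411, 774755, 806384, 612032, 632797, 591949, 632455, 591607⟩ false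
 (nat_lit 500) (Int.ofNat (nat_lit 7719)) (nat_lit 550) (Int.ofNat (nat_lit 8218)) qL120_40_0_10 = true :=
 by decide +kernel

def qL120_40_0_11 : PCt := .one ⟨2008000, 251, 502000, 172286, 70259, 0, 0, 200000, 550000, 600000⟩ ⟨0,
 .pol, .pol, .pol, .pol, .sy 575000 (.sx 100000 (.sx 50000 (.aff 1597000 2831820 125859) (.aff 1000000 0 0))
 (.aff 1000000 0 0)) (.sx 100000 (.sy 587500 (.sx 50000 (.sx 25000 (.aff 2000000 5567765 179606) (.aff
 1650000 2803302 150716)) (.aff 1000000 0 0)) (.sx 50000 (.sx 25000 (.aff 2000000 5627315 177705) (.sx 37500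
 (.aff 2000000 4156048 240614) (.aff 1500000 1841971 135725))) (.aff 1000000 0 0))) (.aff 1000000 0 0)),
 .pol, .pol, .pol, .pol⟩

def hL120_40_0_11 : pcchk ⟨(nat_lit 3), (nat_lit 1000), Int.ofNat (nat_lit 250), 0, ⟨0, 1⟩, ⟨Int.ofNat
 (nat_lit 40), 200⟩⟩ ⟨600000, 650000, 790411, 774755, 806384, 612032, 632797, 591949, 632455, 591607⟩ false
 (nat_lit 550) (Int.ofNat (nat_lit 8218)) (nat_lit 600) (Int.ofNat (nat_lit 8647)) qL120_40_0_11 = true :=
 by decide +kernel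

def qL120_40_0_12 : PCt := .one ⟨2008000, 251, 502000, 142969, 87850, 0, 0, 200000, 600000, 650000⟩ ⟨0,
 .pol, .pol, .pol, .pol, .sy 625000 (.sy 612500 (.sx 100000 (.sx 50000 (.aff 1950000 3307993 272825) (.aff
 1500000 1421561 175864)) (.aff 1000000 0 0)) (.sx 100000 (.sx 50000 (.aff 2000000 3517812 284268) (.aff
 1500000 1573214 158911)) (.aff 1000000 0 0))) (.sx 100000 (.sx 50000 (.aff 2000000 3570715 280056) (.aff
 1900000 2874370 281801)) (.aff 1000000 0 0)), .pol, .pol, .pol, .pol⟩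

def hL120_40_0_12 : pcchk ⟨(nat_lit 3), (nat_lit 1000), Int.ofNat (nat_lit 250), 0, ⟨0, 1⟩, ⟨Int.ofNat
 (nat_lit 40), 200⟩⟩ ⟨600000, 650000, 790411, 774755, 806384, 612032, 632797, 591949, 632455, 591607⟩ false
 (nat_lit 600) (Int.ofNat (nat_lit 8647)) (nat_lit 650) (Int.ofNat (nat_lit 9003)) qL120_40_0_12 = true :=
 by decide +kernel

def qL120_40_0_13 : PCt := .one ⟨2008000, 251, 502000, 110038, 109255, 0, 0, 200000, 650000, 700000⟩ ⟨0,
 .pol, .pol, .pol, .pol, .sx 100000 (.sx 50000 (.aff 2000000 4242641 235703) (.aff 2075000 3225001 358334))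
 (.aff 1500000 1161896 215166), .pol, .pol, .pol, .pol⟩

def hL120_40_0_13 : pcchk ⟨(nat_lit 3), (nat_lit 1000), Int.ofNat (nat_lit 250), 0, ⟨0, 1⟩, ⟨Int.ofNat
 (nat_lit 40), 200⟩⟩ ⟨600000, 650000, 790411, 774755, 806384, 612032, 632797, 591949, 632455, 591607⟩ false
 (nat_lit 650) (Int.ofNat (nat_lit 9003)) (nat_lit 700) (Int.ofNat (nat_lit 9277)) qL120_40_0_13 = true :=
 by decide +kernel

def qL120_40_0_14 : PCt := .one ⟨2008000, 251, 502000, 74296, 134274, 0, 0, 200000, 700000, 750000⟩ ⟨0,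
 .pol, .pol, .pol, .pol, .sx 100000 (.aff 2400000 3769616 519947) (.sx 150000 (.aff 2300000 3300169 512095)
 (.aff 1000000 0 0)), .pol, .pol, .pol, .pol⟩

def hL120_40_0_14 : pcchk ⟨(nat_lit 3), (nat_lit 1000), Int.ofNat (nat_lit 250), 0, ⟨0, 1⟩, ⟨Int.ofNat
 (nat_lit 40), 200⟩⟩ ⟨600000, 650000, 790411, 774755, 806384, 612032, 632797, 591949, 632455, 591607⟩ false
 (nat_lit 700) (Int.ofNat (nat_lit 9277)) (nat_lit 750) (Int.ofNat (nat_lit 9462)) qL120_40_0_14 = true :=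
 by decide +kernel

def qL120_40_0_15 : PCt := .one ⟨2008000, 251, 502000, 32931, 165298, 0, 0, 200000, 750000, 800000⟩ ⟨0,
 .pol, .pol, .pol, .pol, .sx 100000 (.aff 3000000 6429101 622171) (.sx 150000 (.sx 125000 (.aff 3000000
 5249339 762001) (.aff 2600000 3636849 703907)) (.aff 2550000 3482663 689846)), .pol, .pol, .pol, .pol⟩

def hL120_40_0_15 : pcchk ⟨(nat_lit 3), (nat_lit 1000), Int.ofNat (nat_lit 250), 0, ⟨0, 1⟩, ⟨Int.ofNat
 (nat_lit 40), 200⟩⟩ ⟨600000, 650000, 790411, 774755, 806384, 612032, 632797, 591949, 632455, 591607⟩ false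
 (nat_lit 750) (Int.ofNat (nat_lit 9462)) (nat_lit 800) (Int.ofNat (nat_lit 9544)) qL120_40_0_15 = true :=
 by decide +kernel

def qL120_40_0_16 : PCt := .one ⟨2008000, 251, 502000, -13655, 202567, 0, 0, 200000, 800000, 850000⟩ ⟨0,
 .pol, .pol, .pol, .pol, .sx 100000 (.aff 3000000 6633250 603023) (.sy 825000 (.sx 150000 (.aff 3000000
 5099020 784465) (.sx 175000 (.aff 3000000 4472136 894428) (.aff 2900000 3829573 942664))) (.aff 3100000
 4297311 1026224)), .pol, .pol, .pol, .pol⟩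

def hL120_40_0_16 : pcchk ⟨(nat_lit 3), (nat_lit 1000), Int.ofNat (nat_lit 250), 0, ⟨0, 1⟩, ⟨Int.ofNat
 (nat_lit 40), 200⟩⟩ ⟨600000, 650000, 790411, 774755, 806384, 612032, 632797, 591949, 632455, 591607⟩ false
 (nat_lit 800) (Int.ofNat (nat_lit 9544)) (nat_lit 850) (Int.ofNat (nat_lit 9510)) qL120_40_0_16 = true :=
 by decide +kernel

def qL120_40_0_17 : PCt := .one ⟨2008000, 251, 502000, -15867216, 13678094, 0, 0, 200000, 850000, 900000⟩
 ⟨0, .pol, .pol, .pol, .pol, .inf 2366432 422578, .pol, .pol, .inf 2366432 422578, .pol⟩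

def hL120_40_0_17 : pcchk ⟨(nat_lit 3), (nat_lit 1000), Int.ofNat (nat_lit 250), 0, ⟨0, 1⟩, ⟨Int.ofNat
 (nat_lit 40), 200⟩⟩ ⟨600000, 650000, 790411, 774755, 806384, 612032, 632797, 591949, 632455, 591607⟩ false
 (nat_lit 850) (Int.ofNat (nat_lit 9510)) (nat_lit 900) (Int.negSucc (nat_lit 29999)) qL120_40_0_17 = true
 := by decide +kernel

def qL120_40_0_18 : PCt := .one ⟨2008000, 251, 502000, 0, -602400, 0, 0, 200000, 900000, 950000⟩ ⟨0, .pol,
 .pol, .pol, .pol, .inf 2433106 410998, .pol, .pol, .inf 2433106 410998, .pol⟩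

def hL120_40_0_18 : pcchk ⟨(nat_lit 3), (nat_lit 1000), Int.ofNat (nat_lit 250), 0, ⟨0, 1⟩, ⟨Int.ofNat
 (nat_lit 40), 200⟩⟩ ⟨600000, 650000, 790411, 774755, 806384, 612032, 632797, 591949, 632455, 591607⟩ false
 (nat_lit 900) (Int.negSucc (nat_lit 29999)) (nat_lit 950) (Int.negSucc (nat_lit 29999)) qL120_40_0_18 =
 true := by decide +kernel

def qL120_40_0_19 : PCt := .one ⟨2008000, 251, 502000, 0, -602400, 0, 0, 200000, 950000, 1000000⟩ ⟨0, .pol,
 .pol, .pol, .pol, .aff 35000000 86683332 13335898, .pol, .pol, .inf 3122499 320257, .pol⟩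

def hL120_40_0_19 : pcchk ⟨(nat_lit 3), (nat_lit 1000), Int.ofNat (nat_lit 250), 0, ⟨0, 1⟩, ⟨Int.ofNat
 (nat_lit 40), 200⟩⟩ ⟨600000, 650000, 790411, 774755, 806384, 612032, 632797, 591949, 632455, 591607⟩ false
 (nat_lit 950) (Int.negSucc (nat_lit 29999)) (nat_lit 1000) (Int.negSucc (nat_lit 29999)) qL120_40_0_19 =
 true := by decide +kernel

def qL120_40_1_0 : PCt := .one ⟨2008000, 251, 803200, 267465, 0, 0, 0, 200000, 0, 50000⟩ ⟨25000, .aff
 3162278 316228, .pol, .pol, .pol, .aff 0 603023 1658312, .aff 0 3841565 260311, .pol, .pol, .pol⟩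

def hL120_40_1_0 : pcchk ⟨(nat_lit 3), (nat_lit 1000), Int.ofNat (nat_lit 400), 0, ⟨0, 1⟩, ⟨Int.ofNat
 (nat_lit 40), 200⟩⟩ ⟨600000, 650000, 790411, 774755, 806384, 612032, 632797, 591949, 632455, 591607⟩ true 0
 0 (nat_lit 50) (Int.ofNat (nat_lit 666)) qL120_40_1_0 = true := by decide +kernel

def qL120_40_1_1 : PCt := .one ⟨2008000, 251, 803200, 301601, -1707, 0, 0, 200000, 50000, 100000⟩ ⟨0, .pol,
 .pol, .pol, .pol, .sx 100000 (.sx 50000 (.sy 75000 (.aff 0 3803680 262904) (.aff 0 3707861 269698)) (.aff 0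
 1000000 1000000)) .pol, .pol, .pol, .sx 100000 (.sx 50000 .pol .pol) .pol, .pol⟩

def hL120_40_1_1 : pcchk ⟨(nat_lit 3), (nat_lit 1000), Int.ofNat (nat_lit 400), 0, ⟨0, 1⟩, ⟨Int.ofNat
 (nat_lit 40), 200⟩⟩ ⟨600000, 650000, 790411, 774755, 806384, 612032, 632797, 591949, 632455, 591607⟩ false
 (nat_lit 50) (Int.ofNat (nat_lit 666)) (nat_lit 100) (Int.ofNat (nat_lit 1417)) qL120_40_1_1 = true := by
 decide +kernel

def qL120_40_1_2 : PCt := .one ⟨2008000, 251, 803200, 335737, -5121, 0, 0, 200000, 100000, 150000⟩ ⟨0, .pol,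
 .pol, .pol, .pol, .sx 100000 (.sx 50000 (.sy 125000 (.aff 0 3687182 271210) (.aff 0 3597351 277983)) (.aff
 0 1290995 774597)) .pol, .pol, .pol, .sx 100000 .pol .pol, .pol⟩

def hL120_40_1_2 : pcchk ⟨(nat_lit 3), (nat_lit 1000), Int.ofNat (nat_lit 400), 0, ⟨0, 1⟩, ⟨Int.ofNat
 (nat_lit 40), 200⟩⟩ ⟨600000, 650000, 790411, 774755, 806384, 612032, 632797, 591949, 632455, 591607⟩ false
 (nat_lit 100) (Int.ofNat (nat_lit 1417)) (nat_lit 150) (Int.ofNat (nat_lit 2253)) qL120_40_1_2 = true := by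
 decide +kernel

def qL120_40_1_3 : PCt := .one ⟨2008000, 251, 803200, 372684, -10663, 0, 0, 200000, 150000, 200000⟩ ⟨0,
 .pol, .pol, .pol, .pol, .sx 100000 (.sx 50000 (.sx 25000 (.aff 0 3649276 274027) (.aff 0 2160247 462911))
 (.aff 0 1527526 654654)) (.aff 0 1080124 925820), .pol, .pol, .sx 100000 .pol .pol, .pol⟩

def hL120_40_1_3 : pcchk ⟨(nat_lit 3), (nat_lit 1000), Int.ofNat (nat_lit 400), 0, ⟨0, 1⟩, ⟨Int.ofNat
 (nat_lit 40), 200⟩⟩ ⟨600000, 650000, 790411, 774755, 806384, 612032, 632797, 591949, 632455, 591607⟩ false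
 (nat_lit 150) (Int.ofNat (nat_lit 2253)) (nat_lit 200) (Int.ofNat (nat_lit 3181)) qL120_40_1_3 = true := by
 decide +kernel

def qL120_40_1_4 : PCt := .one ⟨2008000, 251, 803200, 403206, -16767, 0, 0, 200000, 200000, 250000⟩ ⟨0,
 .pol, .pol, .pol, .pol, .sx 100000 (.sx 50000 (.sx 25000 (.aff 0 3464102 288676) (.aff 250000 1837118
 306187)) (.aff 0 1732051 577351)) (.aff 0 1224745 816497), .pol, .pol, .pol, .pol⟩

def hL120_40_1_4 : pcchk ⟨(nat_lit 3), (nat_lit 1000), Int.ofNat (nat_lit 400), 0, ⟨0, 1⟩, ⟨Int.ofNat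
 (nat_lit 40), 200⟩⟩ ⟨600000, 650000, 790411, 774755, 806384, 612032, 632797, 591949, 632455, 591607⟩ false
 (nat_lit 200) (Int.ofNat (nat_lit 3181)) (nat_lit 250) (Int.ofNat (nat_lit 4185)) qL120_40_1_4 = true := by
 decide +kernel

def qL120_40_1_5 : PCt := .one ⟨2008000, 251, 803200, 347384, -2812, 0, 0, 200000, 250000, 300000⟩ ⟨0, .pol,
 .pol, .pol, .pol, .sy 275000 (.sy 262500 (.sy 256250 (.sy 253125 (.sx 100000 (.sx 50000 (.aff 250000
 3364568 167184) (.aff 0 1831439 546019)) (.aff 0 1295023 772188)) (.sx 100000 (.sx 50000 (.aff 250000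
 3385401 166155) (.aff 0 1842779 542659)) (.aff 0 1303042 767435))) (.sy 259375 (.sy 257812 (.sx 100000 (.sx
 50000 (.aff 250000 3400941 165396) (.aff 0 1851238 540180)) (.aff 0 1309023 763929)) (.sx 100000 (.sx 50000
 (.aff 250000 3411262 164895) (.aff 0 1856856 538545)) (.aff 0 1312996 761617))) (.sy 260937 (.sx 100000
 (.sx 50000 (.aff 250000 3421553 164400) (.aff 0 1862458 536925)) (.aff 0 1316957 759327)) (.sy 261718 (.sx
 100000 (.sx 50000 (.aff 250000 3429248 164031) (.aff 0 1866646 535721)) (.aff 0 1319918 757623)) (.sx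
 100000 (.sx 50000 (.aff 250000 3434372 163786) (.aff 0 1869435 534921)) (.aff 0 1321891 756493)))))) (.sy
 268750 (.sx 100000 (.sx 50000 (.aff 225000 3572574 168122) (.aff 0 2061553 485072)) (.aff 0 1330727
 751469)) (.sy 271875 (.sy 270312 (.sy 269531 (.sx 100000 (.sx 50000 (.aff 225000 3596137 167020) (.aff 0
 2075151 481893)) (.aff 0 1339504 746545)) (.sy 269921 (.sx 100000 (.sx 50000 (.aff 225000 3600047 166839)
 (.aff 0 2077407 481370)) (.aff 0 1340960 745735)) (.sx 100000 (.sx 50000 (.aff 225000 3602652 166718) (.aff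
 0 2078910 481022)) (.aff 0 1341931 745195)))) (.sx 100000 (.sx 50000 (.aff 225000 3609161 166417) (.aff
 1000000 0 0)) (.aff 0 1344355 743852))) (.sy 273437 (.sx 100000 (.sy 272656 (.sy 272265 (.sx 50000 (.aff
 225000 3615656 166118) (.aff 1000000 0 0)) (.sx 50000 (.sx 25000 (.aff 219000 3646262 167284) (.aff 1000000
 0 0)) (.aff 1000000 0 0))) (.sx 50000 (.sx 25000 (.aff 219000 3650181 167105) (.aff 1000000 0 0)) (.aff
 1000000 0 0))) (.aff 0 1348224 741717)) (.sx 100000 (.sy 274218 (.sy 273827 (.sy 273632 (.sx 50000 (.sx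
 25000 (.sx 12500 (.aff 250000 4051182 138849) (.aff 500000 1909746 130908)) (.aff 1000000 0 0)) (.aff
 1000000 0 0)) (.sx 50000 (.sx 25000 (.aff 225000 3649404 164582) (.aff 1000000 0 0)) (.aff 1000000 0 0)))
 (.sy 274022 (.sy 273924 (.sx 50000 (.sx 25000 (.sx 12500 (.aff 250000 4053706 138762) (.aff 500000 1910936
 130826)) (.aff 1000000 0 0)) (.aff 1000000 0 0)) (.sy 273973 (.sx 50000 (.sx 25000 (.sx 12500 (.aff 250000
 4054246 138744) (.aff 500000 1911190 130809)) (.aff 1000000 0 0)) (.aff 1000000 0 0)) (.sy 273997 (.sx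
 50000 (.sx 25000 (.sx 12500 (.aff 250000 4054517 138735) (.aff 500000 1911318 130800)) (.aff 1000000 0 0))
 (.aff 1000000 0 0)) (.sy 274009 (.sx 50000 (.sx 25000 (.sx 12500 (.aff 250000 4054650 138730) (.aff 500000
 1911380 130796)) (.aff 1000000 0 0)) (.aff 1000000 0 0)) (.sy 274015 (.sx 50000 (.sx 25000 (.sx 12500 (.aff
 250000 4054716 138728) (.aff 500000 1911412 130794)) (.aff 1000000 0 0)) (.aff 1000000 0 0)) (.sx 50000
 (.sx 25000 (.sx 12500 (.aff 250000 4054764 138726) (.aff 500000 1911435 130792)) (.aff 1000000 0 0)) (.aff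
 1000000 0 0))))))) (.sx 50000 (.sx 25000 (.aff 231000 3646451 162175) (.aff 1000000 0 0)) (.aff 1000000 0
 0)))) (.sx 50000 (.sx 25000 (.sx 12500 (.aff 250000 4059131 138577) (.aff 500000 1913493 130652)) (.aff
 1000000 0 0)) (.aff 1000000 0 0))) (.aff 0 1352082 739601)))))) (.sy 287500 (.sy 281250 (.sx 100000 (.sy
 278125 (.sy 276562 (.sx 50000 (.sx 25000 (.sx 12500 (.aff 375000 4151664 94089) (.aff 500000 1917572
 130374)) (.aff 1000000 0 0)) (.aff 1000000 0 0)) (.sx 50000 (.sx 25000 (.sx 12500 (.aff 375000 4163409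
 93824) (.aff 500000 1922996 130006)) (.aff 1000000 0 0)) (.aff 1000000 0 0))) (.sy 279687 (.sy 278906 (.sy
 278515 (.sx 50000 (.sx 25000 (.sx 12500 (.aff 375000 4170732 93659) (.aff 500000 1926379 129778)) (.aff
 1000000 0 0)) (.aff 1000000 0 0)) (.sx 50000 (.sx 25000 (.sx 12500 (.aff 375000 4173657 93593) (.aff 500000
 1927730 129687)) (.aff 1000000 0 0)) (.aff 1000000 0 0))) (.sx 50000 (.sx 25000 (.aff 400000 4010920 89755)
 (.aff 1000000 0 0)) (.aff 1000000 0 0))) (.sy 280468 (.sy 280077 (.sx 50000 (.sx 25000 (.aff 400000 4015122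
 89662) (.aff 1000000 0 0)) (.aff 1000000 0 0)) (.sx 50000 (.sx 25000 (.aff 400000 4017922 89599) (.aff
 1000000 0 0)) (.aff 1000000 0 0))) (.sx 50000 (.sx 25000 (.aff 400000 4022124 89505) (.aff 1000000 0 0))
 (.aff 1000000 0 0))))) (.aff 0 1361678 734389)) (.sy 284375 (.sx 100000 (.sy 282812 (.sx 50000 (.sx 25000
 (.aff 450000 3694632 81876) (.aff 1000000 0 0)) (.aff 1000000 0 0)) (.sy 283593 (.sx 50000 (.sx 25000 (.aff
 450000 3702297 81707) (.aff 1000000 0 0)) (.aff 1000000 0 0)) (.sx 50000 (.sx 25000 (.aff 500000 4116574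
 60731) (.aff 1000000 0 0)) (.aff 1000000 0 0)))) (.aff 0 1373105 728277)) (.sy 285937 (.sx 100000 (.sx
 50000 (.sx 25000 (.aff 500000 4125059 60606) (.aff 1000000 0 0)) (.aff 1000000 0 0)) (.aff 0 1378783
 725278)) (.sx 100000 (.sx 50000 (.sx 25000 (.aff 500000 3386553 73822) (.aff 1000000 0 0)) (.aff 1000000 0
 0)) (.aff 0 1382555 723299))))) (.sy 293750 (.sx 100000 (.sy 290625 (.sx 50000 (.sx 25000 (.aff 500000
 3400368 73522) (.aff 1000000 0 0)) (.aff 1000000 0 0)) (.sy 292187 (.sx 50000 (.sx 25000 (.aff 500000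
 3414124 73226) (.aff 1000000 0 0)) (.aff 1000000 0 0)) (.sy 292968 (.sx 50000 (.aff 400000 3545485 101538)
 (.aff 1000000 0 0)) (.aff 500000 3811846 65586)))) (.aff 0 1391942 718421)) (.sx 100000 (.sy 296875 (.sx
 50000 (.sx 25000 (.aff 500000 3436932 72740) (.aff 1000000 0 0)) (.aff 1000000 0 0)) (.sx 50000 (.sx 25000
 (.aff 500000 3455069 72358) (.aff 1000000 0 0)) (.aff 1000000 0 0))) (.aff 0 1406829 710819)))), .pol,
 .pol, .pol, .pol⟩

def hL120_40_1_5 : pcchk ⟨(nat_lit 3), (nat_lit 1000), Int.ofNat (nat_lit 400), 0, ⟨0, 1⟩, ⟨Int.ofNat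
 (nat_lit 40), 200⟩⟩ ⟨600000, 650000, 790411, 774755, 806384, 612032, 632797, 591949, 632455, 591607⟩ false
 (nat_lit 250) (Int.ofNat (nat_lit 4185)) (nat_lit 300) (Int.ofNat (nat_lit 5050)) qL120_40_1_5 = true := by
 decide +kernel

def qL120_40_1_6 : PCt := .one ⟨2008000, 251, 803200, 313649, 7309, 0, 0, 200000, 300000, 350000⟩ ⟨0, .pol,
 .pol, .pol, .pol, .sy 325000 (.aff 575000 3527625 51204) (.sx 100000 (.aff 650000 3863304 31709) (.aff
 1000000 0 0)), .pol, .pol, .pol, .pol⟩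

def hL120_40_1_6 : pcchk ⟨(nat_lit 3), (nat_lit 1000), Int.ofNat (nat_lit 400), 0, ⟨0, 1⟩, ⟨Int.ofNat
 (nat_lit 40), 200⟩⟩ ⟨600000, 650000, 790411, 774755, 806384, 612032, 632797, 591949, 632455, 591607⟩ false
 (nat_lit 300) (Int.ofNat (nat_lit 5050)) (nat_lit 350) (Int.ofNat (nat_lit 5831)) qL120_40_1_6 = true := by
 decide +kernel

def qL120_40_1_7 : PCt := .one ⟨2008000, 251, 803200, 288750, 16023, 0, 0, 200000, 350000, 400000⟩ ⟨0, .pol,
 .pol, .pol, .pol, .sx 100000 (.sx 50000 (.aff 800000 4019514 9952) (.aff 1000000 0 0)) (.aff 1000000 0 0),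
 .pol, .pol, .pol, .pol⟩

def hL120_40_1_7 : pcchk ⟨(nat_lit 3), (nat_lit 1000), Int.ofNat (nat_lit 400), 0, ⟨0, 1⟩, ⟨Int.ofNat
 (nat_lit 40), 200⟩⟩ ⟨600000, 650000, 790411, 774755, 806384, 612032, 632797, 591949, 632455, 591607⟩ false
 (nat_lit 350) (Int.ofNat (nat_lit 5831)) (nat_lit 400) (Int.ofNat (nat_lit 6550)) qL120_40_1_7 = true := by
 decide +kernel

def qL120_40_1_8 : PCt := .one ⟨2008000, 251, 803200, 232526, 38513, 0, 0, 200000, 400000, 450000⟩ ⟨0, .pol,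
 .pol, .pol, .pol, .sx 100000 (.sx 50000 (.sx 25000 (.sx 12500 (.aff 1150000 3893107 5780) (.aff 1000000 0
 0)) (.aff 1000000 0 0)) (.aff 1000000 0 0)) (.aff 1000000 0 0), .pol, .pol, .pol, .pol⟩

def hL120_40_1_8 : pcchk ⟨(nat_lit 3), (nat_lit 1000), Int.ofNat (nat_lit 400), 0, ⟨0, 1⟩, ⟨Int.ofNat
 (nat_lit 40), 200⟩⟩ ⟨600000, 650000, 790411, 774755, 806384, 612032, 632797, 591949, 632455, 591607⟩ false
 (nat_lit 400) (Int.ofNat (nat_lit 6550)) (nat_lit 450) (Int.ofNat (nat_lit 7129)) qL120_40_1_8 = true := by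
 decide +kernel

def qL120_40_1_9 : PCt := .one ⟨2008000, 251, 803200, 180318, 62007, 0, 0, 200000, 450000, 500000⟩ ⟨0, .pol,
 .pol, .pol, .pol, .sx 100000 (.sy 475000 (.sx 50000 (.sx 25000 (.aff 1563000 4843110 65448) (.aff 1000000 0
 0)) (.aff 1000000 0 0)) (.sx 50000 (.aff 1638000 4866446 83643) (.aff 1000000 0 0))) (.aff 1000000 0 0),
 .pol, .pol, .pol, .pol⟩

def hL120_40_1_9 : pcchk ⟨(nat_lit 3), (nat_lit 1000), Int.ofNat (nat_lit 400), 0, ⟨0, 1⟩, ⟨Int.ofNat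
 (nat_lit 40), 200⟩⟩ ⟨600000, 650000, 790411, 774755, 806384, 612032, 632797, 591949, 632455, 591607⟩ false
 (nat_lit 450) (Int.ofNat (nat_lit 7129)) (nat_lit 500) (Int.ofNat (nat_lit 7578)) qL120_40_1_9 = true := by
 decide +kernel

def qL120_40_1_10 : PCt := .one ⟨2008000, 251, 803200, 124496, 89918, 0, 0, 200000, 500000, 550000⟩ ⟨0,
 .pol, .pol, .pol, .pol, .sx 100000 (.sx 50000 (.sx 25000 (.sx 12500 (.aff 2000000 6480741 154304) (.aff
 1900000 4762353 170084)) (.aff 1000000 0 0)) (.aff 1000000 0 0)) (.aff 1000000 0 0), .pol, .pol, .pol,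
 .pol⟩

def hL120_40_1_10 : pcchk ⟨(nat_lit 3), (nat_lit 1000), Int.ofNat (nat_lit 400), 0, ⟨0, 1⟩, ⟨Int.ofNat
 (nat_lit 40), 200⟩⟩ ⟨600000, 650000, 790411, 774755, 806384, 612032, 632797, 591949, 632455, 591607⟩ false
 (nat_lit 500) (Int.ofNat (nat_lit 7578)) (nat_lit 550) (Int.ofNat (nat_lit 7888)) qL120_40_1_10 = true :=
 by decide +kernel

def qL120_40_1_11 : PCt := .one ⟨2008000, 251, 803200, 68272, 120841, 0, 0, 200000, 550000, 600000⟩ ⟨0,
 .pol, .pol, .pol, .pol, .sy 575000 (.sx 100000 (.sy 562500 (.sx 50000 (.aff 2125000 5306615 238500) (.aff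
 1000000 0 0)) (.sx 50000 (.sx 25000 (.aff 3000000 11015142 363137) (.aff 2200000 5119375 281285)) (.aff
 1000000 0 0))) (.aff 1000000 0 0)) (.sx 100000 (.sy 587500 (.sx 50000 (.sx 25000 (.aff 3000000 11135529
 359211) (.aff 2200000 5175327 278244)) (.aff 1000000 0 0)) (.sx 50000 (.sx 25000 (.aff 3000000 11254629
 355410) (.aff 2200000 5230679 275299)) (.aff 1000000 0 0))) (.aff 1000000 0 0)), .pol, .pol, .pol, .pol⟩

def hL120_40_1_11 : pcchk ⟨(nat_lit 3), (nat_lit 1000), Int.ofNat (nat_lit 400), 0, ⟨0, 1⟩, ⟨Int.ofNat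
 (nat_lit 40), 200⟩⟩ ⟨600000, 650000, 790411, 774755, 806384, 612032, 632797, 591949, 632455, 591607⟩ false
 (nat_lit 550) (Int.ofNat (nat_lit 7888)) (nat_lit 600) (Int.ofNat (nat_lit 8058)) qL120_40_1_11 = true :=
 by decide +kernel

def qL120_40_1_12 : PCt := .one ⟨2008000, 251, 803200, 6024, 158190, 0, 0, 200000, 600000, 650000⟩ ⟨0, .pol,
 .pol, .pol, .pol, .sy 625000 (.sy 612500 (.sx 100000 (.sx 50000 (.aff 2700000 5919566 488212) (.aff 1000000
 0 0)) (.aff 1000000 0 0)) (.sx 100000 (.sx 50000 (.aff 2800000 6332062 511682) (.aff 1400000 1537222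
 104084)) (.aff 1000000 0 0))) (.sy 637500 (.sx 100000 (.sx 50000 (.aff 3000000 7106336 562878) (.aff
 2450000 5092818 412837)) (.aff 1000000 0 0)) (.sx 100000 (.sx 50000 (.aff 3000000 7176351 557387) (.sx
 75000 (.sx 62500 (.aff 3000000 6418723 623177) (.aff 1500000 1530003 163399)) (.aff 1000000 0 0))) (.aff
 1000000 0 0))), .pol, .pol, .pol, .pol⟩

def hL120_40_1_12 : pcchk ⟨(nat_lit 3), (nat_lit 1000), Int.ofNat (nat_lit 400), 0, ⟨0, 1⟩, ⟨Int.ofNat
 (nat_lit 40), 200⟩⟩ ⟨600000, 650000, 790411, 774755, 806384, 612032, 632797, 591949, 632455, 591607⟩ false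
 (nat_lit 600) (Int.ofNat (nat_lit 8058)) (nat_lit 650) (Int.ofNat (nat_lit 8073)) qL120_40_1_12 = true :=
 by decide +kernel

def qL120_40_1_13 : PCt := .one ⟨2008000, 251, 803200, -59437, 200739, 0, 0, 200000, 650000, 700000⟩ ⟨0,
 .pol, .pol, .pol, .pol, .sx 100000 (.sx 50000 (.aff 3000000 8485282 471405) (.aff 2988000 5964001 662667))
 (.aff 1000000 0 0), .pol, .pol, .pol, .pol⟩

def hL120_40_1_13 : pcchk ⟨(nat_lit 3), (nat_lit 1000), Int.ofNat (nat_lit 400), 0, ⟨0, 1⟩, ⟨Int.ofNat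
 (nat_lit 40), 200⟩⟩ ⟨600000, 650000, 790411, 774755, 806384, 612032, 632797, 591949, 632455, 591607⟩ false
 (nat_lit 650) (Int.ofNat (nat_lit 8073)) (nat_lit 700) (Int.ofNat (nat_lit 7925)) qL120_40_1_13 = true :=
 by decide +kernel

def qL120_40_1_14 : PCt := .one ⟨2008000, 251, 803200, -135340, 253871, 0, 0, 200000, 700000, 750000⟩ ⟨0,
 .pol, .pol, .pol, .pol, .sx 100000 (.aff 3600000 7000715 965616) (.sx 150000 (.aff 3500000 6346478 984799)
 (.aff 1000000 0 0)), .pol, .pol, .pol, .pol⟩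

def hL120_40_1_14 : pcchk ⟨(nat_lit 3), (nat_lit 1000), Int.ofNat (nat_lit 400), 0, ⟨0, 1⟩, ⟨Int.ofNat
 (nat_lit 40), 200⟩⟩ ⟨600000, 650000, 790411, 774755, 806384, 612032, 632797, 591949, 632455, 591607⟩ false
 (nat_lit 700) (Int.ofNat (nat_lit 7925)) (nat_lit 750) (Int.ofNat (nat_lit 7588)) qL120_40_1_14 = true :=
 by decide +kernel

def qL120_40_1_15 : PCt := .one ⟨2008000, 251, 803200, -219676, 317123, 0, 0, 200000, 750000, 800000⟩ ⟨0,
 .pol, .pol, .pol, .pol, .sy 775000 (.sx 100000 (.aff 5000000 12754085 1254501) (.sx 150000 (.sx 125000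
 (.aff 5000000 10413667 1536443) (.aff 3700000 6507798 1120195)) (.aff 2000000 2087378 479070))) (.sx 100000
 (.aff 5000000 12961482 1234427) (.sx 150000 (.aff 4400000 7790379 1483882) (.aff 3900000 6384055
 1317345))), .pol, .pol, .pol, .pol⟩

def hL120_40_1_15 : pcchk ⟨(nat_lit 3), (nat_lit 1000), Int.ofNat (nat_lit 400), 0, ⟨0, 1⟩, ⟨Int.ofNat
 (nat_lit 40), 200⟩⟩ ⟨600000, 650000, 790411, 774755, 806384, 612032, 632797, 591949, 632455, 591607⟩ false
 (nat_lit 750) (Int.ofNat (nat_lit 7588)) (nat_lit 800) (Int.ofNat (nat_lit 7041)) qL120_40_1_15 = true :=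
 by decide +kernel

def qL120_40_1_16 : PCt := .one ⟨2008000, 251, 803200, -324895, 401298, 0, 0, 200000, 800000, 850000⟩ ⟨0,
 .pol, .pol, .pol, .pol, .sx 100000 (.aff 5000000 13266500 1206046) (.sx 150000 (.aff 5000000 10276187
 1556998) (.sx 175000 (.aff 5000000 8684963 1842265) (.aff 4669000 7545507 1784050))), .pol, .pol, .pol,
 .pol⟩

def hL120_40_1_16 : pcchk ⟨(nat_lit 3), (nat_lit 1000), Int.ofNat (nat_lit 400), 0, ⟨0, 1⟩, ⟨Int.ofNat
 (nat_lit 40), 200⟩⟩ ⟨600000, 650000, 790411, 774755, 806384, 612032, 632797, 591949, 632455, 591607⟩ false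
 (nat_lit 800) (Int.ofNat (nat_lit 7041)) (nat_lit 850) (Int.ofNat (nat_lit 6232)) qL120_40_1_16 = true :=
 by decide +kernel

def qL120_40_1_17 : PCt := .one ⟨2008000, 251, 803200, -14550772, 12493294, 0, 0, 200000, 850000, 900000⟩
 ⟨0, .pol, .pol, .pol, .pol, .inf 2366432 422578, .pol, .pol, .inf 2366432 422578, .pol⟩

def hL120_40_1_17 : pcchk ⟨(nat_lit 3), (nat_lit 1000), Int.ofNat (nat_lit 400), 0, ⟨0, 1⟩, ⟨Int.ofNat
 (nat_lit 40), 200⟩⟩ ⟨600000, 650000, 790411, 774755, 806384, 612032, 632797, 591949, 632455, 591607⟩ false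
 (nat_lit 850) (Int.ofNat (nat_lit 6232)) (nat_lit 900) (Int.negSucc (nat_lit 29999)) qL120_40_1_17 = true
 := by decide +kernel

def qL120_40_1_18 : PCt := .one ⟨2008000, 251, 803200, 0, -602400, 0, 0, 200000, 900000, 950000⟩ ⟨0, .pol,
 .pol, .pol, .pol, .inf 2433106 410998, .pol, .pol, .inf 2433106 410998, .pol⟩

def hL120_40_1_18 : pcchk ⟨(nat_lit 3), (nat_lit 1000), Int.ofNat (nat_lit 400), 0, ⟨0, 1⟩, ⟨Int.ofNat
 (nat_lit 40), 200⟩⟩ ⟨600000, 650000, 790411, 774755, 806384, 612032, 632797, 591949, 632455, 591607⟩ false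
 (nat_lit 900) (Int.negSucc (nat_lit 29999)) (nat_lit 950) (Int.negSucc (nat_lit 29999)) qL120_40_1_18 =
 true := by decide +kernel

def qL120_40_1_19 : PCt := .one ⟨2008000, 251, 803200, 0, -602400, 0, 0, 200000, 950000, 1000000⟩ ⟨0, .pol,
 .pol, .pol, .pol, .aff 35000000 86683332 13335898, .pol, .pol, .inf 3122499 320257, .pol⟩

def hL120_40_1_19 : pcchk ⟨(nat_lit 3), (nat_lit 1000), Int.ofNat (nat_lit 400), 0, ⟨0, 1⟩, ⟨Int.ofNat
 (nat_lit 40), 200⟩⟩ ⟨600000, 650000, 790411, 774755, 806384, 612032, 632797, 591949, 632455, 591607⟩ false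
 (nat_lit 950) (Int.negSucc (nat_lit 29999)) (nat_lit 1000) (Int.negSucc (nat_lit 29999)) qL120_40_1_19 =
 true := by decide +kernel

def qL120_40_2_0 : PCt := .one ⟨2008000, 251, 2008000, 246582, 0, 0, 0, 200000, 0, 50000⟩ ⟨12500, .sp 250000
 (.aff 6324556 158114) .pol, .pol, .pol, .pol, .pol, .aff 0 14172346 70560, .pol, .pol, .pol⟩

def hL120_40_2_0 : pcchk ⟨(nat_lit 3), (nat_lit 1000), Int.ofNat (nat_lit 1000), 0, ⟨0, 1⟩, ⟨Int.ofNat
 (nat_lit 40), 200⟩⟩ ⟨600000, 650000, 790411, 774755, 806384, 612032, 632797, 591949, 632455, 591607⟩ true 0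
 0 (nat_lit 50) (Int.ofNat (nat_lit 614)) qL120_40_2_0 = true := by decide +kernel

def qL120_40_2_1 : PCt := .one ⟨2008000, 251, 2008000, 277907, -1567, 0, 0, 200000, 50000, 100000⟩ ⟨0, .pol,
 .pol, .pol, .pol, .sx 100000 (.aff 0 13709050 72945) .pol, .pol, .pol, .sx 100000 (.sx 50000 .pol .pol)
 .pol, .pol⟩

def hL120_40_2_1 : pcchk ⟨(nat_lit 3), (nat_lit 1000), Int.ofNat (nat_lit 1000), 0, ⟨0, 1⟩, ⟨Int.ofNat
 (nat_lit 40), 200⟩⟩ ⟨600000, 650000, 790411, 774755, 806384, 612032, 632797, 591949, 632455, 591607⟩ false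
 (nat_lit 50) (Int.ofNat (nat_lit 614)) (nat_lit 100) (Int.ofNat (nat_lit 1306)) qL120_40_2_1 = true := by
 decide +kernel

def qL120_40_2_2 : PCt := .one ⟨2008000, 251, 2008000, 309232, -4699, 0, 0, 200000, 100000, 150000⟩ ⟨0,
 .pol, .pol, .pol, .pol, .sx 100000 (.aff 0 13527423 73924) .pol, .pol, .pol, .sx 100000 .pol .pol, .pol⟩

def hL120_40_2_2 : pcchk ⟨(nat_lit 3), (nat_lit 1000), Int.ofNat (nat_lit 1000), 0, ⟨0, 1⟩, ⟨Int.ofNat
 (nat_lit 40), 200⟩⟩ ⟨600000, 650000, 790411, 774755, 806384, 612032, 632797, 591949, 632455, 591607⟩ false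
 (nat_lit 100) (Int.ofNat (nat_lit 1306)) (nat_lit 150) (Int.ofNat (nat_lit 2076)) qL120_40_2_2 = true := by
 decide +kernel

def qL120_40_2_3 : PCt := .one ⟨2008000, 251, 2008000, 340556, -9398, 0, 0, 200000, 150000, 200000⟩ ⟨0,
 .pol, .pol, .pol, .pol, .sx 100000 (.aff 0 13104493 76310) .pol, .pol, .pol, .sx 100000 .pol .pol, .pol⟩

def hL120_40_2_3 : pcchk ⟨(nat_lit 3), (nat_lit 1000), Int.ofNat (nat_lit 1000), 0, ⟨0, 1⟩, ⟨Int.ofNat
 (nat_lit 40), 200⟩⟩ ⟨600000, 650000, 790411, 774755, 806384, 612032, 632797, 591949, 632455, 591607⟩ false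
 (nat_lit 150) (Int.ofNat (nat_lit 2076)) (nat_lit 200) (Int.ofNat (nat_lit 2924)) qL120_40_2_3 = true := by
 decide +kernel

def qL120_40_2_4 : PCt := .one ⟨2008000, 251, 2008000, 371881, -15663, 0, 0, 200000, 200000, 250000⟩ ⟨0,
 .pol, .pol, .pol, .pol, .sx 100000 (.aff 0 12789344 78191) .pol, .pol, .pol, .pol, .pol⟩

def hL120_40_2_4 : pcchk ⟨(nat_lit 3), (nat_lit 1000), Int.ofNat (nat_lit 1000), 0, ⟨0, 1⟩, ⟨Int.ofNat
 (nat_lit 40), 200⟩⟩ ⟨600000, 650000, 790411, 774755, 806384, 612032, 632797, 591949, 632455, 591607⟩ false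
 (nat_lit 200) (Int.ofNat (nat_lit 2924)) (nat_lit 250) (Int.ofNat (nat_lit 3850)) qL120_40_2_4 = true := by
 decide +kernel

def qL120_40_2_5 : PCt := .one ⟨2008000, 251, 2008000, 420073, -27711, 0, 0, 200000, 250000, 300000⟩ ⟨0,
 .pol, .pol, .pol, .pol, .sx 100000 (.aff 0 12169681 82172) .pol, .pol, .pol, .pol, .pol⟩

def hL120_40_2_5 : pcchk ⟨(nat_lit 3), (nat_lit 1000), Int.ofNat (nat_lit 1000), 0, ⟨0, 1⟩, ⟨Int.ofNat
 (nat_lit 40), 200⟩⟩ ⟨600000, 650000, 790411, 774755, 806384, 612032, 632797, 591949, 632455, 591607⟩ false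
 (nat_lit 250) (Int.ofNat (nat_lit 3850)) (nat_lit 300) (Int.ofNat (nat_lit 4896)) qL120_40_2_5 = true := by
 decide +kernel

def qL120_40_2_6 : PCt := .one ⟨2008000, 251, 2008000, 360235, -9759, 0, 0, 200000, 300000, 350000⟩ ⟨0,
 .pol, .pol, .pol, .pol, .sx 100000 (.sx 50000 (.sx 25000 (.sx 12500 (.sx 6250 (.sx 3125 (.sy 325000 (.aff
 337000 12613303 34850) (.aff 425000 12563900 26316)) (.aff 500000 4163332 60049)) (.aff 1000000 0 0)) (.aff
 0 4163332 240193)) (.aff 0 2943921 339684)) (.aff 0 2081666 480385)) .pol, .pol, .pol, .pol, .pol⟩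

def hL120_40_2_6 : pcchk ⟨(nat_lit 3), (nat_lit 1000), Int.ofNat (nat_lit 1000), 0, ⟨0, 1⟩, ⟨Int.ofNat
 (nat_lit 40), 200⟩⟩ ⟨600000, 650000, 790411, 774755, 806384, 612032, 632797, 591949, 632455, 591607⟩ false
 (nat_lit 300) (Int.ofNat (nat_lit 4896)) (nat_lit 350) (Int.ofNat (nat_lit 5793)) qL120_40_2_6 = true := by
 decide +kernel

def qL120_40_2_7 : PCt := .one ⟨2008000, 251, 2008000, 314854, 6124, 0, 0, 200000, 350000, 400000⟩ ⟨0, .pol,
 .pol, .pol, .pol, .sx 100000 (.sx 50000 (.sx 25000 (.sy 375000 (.aff 650000 7245637 16907) (.sx 12500 (.sx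
 6250 (.aff 750000 4808668 12998) (.aff 1000000 0 0)) (.aff 1000000 0 0))) (.aff 0 3162278 316228)) (.aff 0
 2236068 447214)) .pol, .pol, .pol, .pol, .pol⟩

def hL120_40_2_7 : pcchk ⟨(nat_lit 3), (nat_lit 1000), Int.ofNat (nat_lit 1000), 0, ⟨0, 1⟩, ⟨Int.ofNat
 (nat_lit 40), 200⟩⟩ ⟨600000, 650000, 790411, 774755, 806384, 612032, 632797, 591949, 632455, 591607⟩ false
 (nat_lit 350) (Int.ofNat (nat_lit 5793)) (nat_lit 400) (Int.ofNat (nat_lit 6577)) qL120_40_2_7 = true := by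
 decide +kernel

def qL120_40_2_8 : PCt := .one ⟨2008000, 251, 2008000, 180318, 59938, 0, 0, 200000, 400000, 450000⟩ ⟨0,
 .pol, .pol, .pol, .pol, .sx 100000 (.sx 50000 (.sx 25000 (.aff 1450000 11147845 18165) (.aff 1000000 0 0))
 (.aff 0 2380477 420084)) .pol, .pol, .pol, .pol, .pol⟩

def hL120_40_2_8 : pcchk ⟨(nat_lit 3), (nat_lit 1000), Int.ofNat (nat_lit 1000), 0, ⟨0, 1⟩, ⟨Int.ofNat
 (nat_lit 40), 200⟩⟩ ⟨600000, 650000, 790411, 774755, 806384, 612032, 632797, 591949, 632455, 591607⟩ false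
 (nat_lit 400) (Int.ofNat (nat_lit 6577)) (nat_lit 450) (Int.ofNat (nat_lit 7026)) qL120_40_2_8 = true := by
 decide +kernel

def qL120_40_2_9 : PCt := .one ⟨2008000, 251, 2008000, -9639, 145419, 0, 0, 200000, 450000, 500000⟩ ⟨0,
 .pol, .pol, .pol, .pol, .sx 100000 (.sx 50000 (.sx 25000 (.sx 12500 (.sx 6250 (.aff 2600000 13948477
 183533) (.aff 2450000 12495374 168263)) (.aff 1000000 0 0)) (.aff 1000000 0 0)) (.aff 1000000 0 0)) (.aff 0
 1779514 561952), .pol, .pol, .pol, .pol⟩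

def hL120_40_2_9 : pcchk ⟨(nat_lit 3), (nat_lit 1000), Int.ofNat (nat_lit 1000), 0, ⟨0, 1⟩, ⟨Int.ofNat
 (nat_lit 40), 200⟩⟩ ⟨600000, 650000, 790411, 774755, 806384, 612032, 632797, 591949, 632455, 591607⟩ false
 (nat_lit 450) (Int.ofNat (nat_lit 7026)) (nat_lit 500) (Int.ofNat (nat_lit 7002)) qL120_40_2_9 = true := by
 decide +kernel

def qL120_40_2_10 : PCt := .one ⟨2008000, 251, 2008000, -165058, 223128, 0, 0, 200000, 500000, 550000⟩ ⟨0,
 .pol, .pol, .pol, .pol, .sx 100000 (.sx 50000 (.sy 525000 (.sy 512500 (.aff 3200000 14000715 345697) (.sx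
 25000 (.aff 3279000 14408719 360466) (.aff 1000000 0 0))) (.sy 537500 (.sy 531250 (.sy 528125 (.sy 526562
 (.sx 25000 (.sx 12500 (.aff 5000000 29955516 534126) (.aff 3400000 13922066 413732)) (.aff 1000000 0 0))
 (.sy 527343 (.sx 25000 (.sx 12500 (.aff 5000000 29988870 533532) (.aff 3400000 13937567 413272)) (.aff
 1000000 0 0)) (.sx 25000 (.sx 12500 (.aff 5000000 30011099 533137) (.aff 3400000 13947899 412966)) (.aff
 1000000 0 0)))) (.sy 529687 (.sx 25000 (.sx 12500 (.aff 5000000 30044405 532546) (.aff 3400000 13963378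
 412508)) (.aff 1000000 0 0)) (.sy 530468 (.sx 25000 (.sx 12500 (.aff 5000000 30077660 531957) (.aff 3400000
 13978833 412052)) (.aff 1000000 0 0)) (.sx 25000 (.sx 12500 (.aff 5000000 30099824 531565) (.aff 3400000
 13989134 411749)) (.aff 1000000 0 0))))) (.sy 534375 (.sy 532812 (.sx 25000 (.sx 12500 (.aff 5000000
 36905276 433543) (.aff 3400000 14004568 411295)) (.aff 1000000 0 0)) (.sy 533593 (.sx 25000 (.sx 12500
 (.aff 5000000 36945885 433066) (.aff 3400000 14019978 410843)) (.aff 1000000 0 0)) (.sx 25000 (.sx 12500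
 (.aff 5000000 36972951 432749) (.aff 3400000 14030249 410542)) (.aff 1000000 0 0)))) (.sy 535937 (.sx 25000
 (.sx 12500 (.aff 5000000 37013503 432275) (.aff 3400000 14045637 410092)) (.aff 1000000 0 0)) (.sy 536718
 (.sx 25000 (.sx 12500 (.aff 5000000 37053994 431803) (.aff 3400000 14061002 409644)) (.aff 1000000 0 0))
 (.sx 25000 (.sx 12500 (.aff 5000000 37080980 431489) (.aff 3400000 14071243 409346)) (.aff 1000000 0
 0)))))) (.sy 543750 (.sy 540625 (.sy 539062 (.sx 25000 (.sx 12500 (.aff 5000000 37121414 431019) (.aff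
 3400000 14086587 408900)) (.aff 1000000 0 0)) (.sx 25000 (.aff 4351000 15669413 716632) (.aff 1000000 0
 0))) (.sx 25000 (.aff 4400000 15833746 730087) (.aff 1000000 0 0))) (.sx 25000 (.aff 4500000 16369752
 748332) (.aff 1000000 0 0))))) (.aff 1000000 0 0)) (.aff 0 1870829 534523), .pol, .pol, .pol, .pol⟩

def hL120_40_2_10 : pcchk ⟨(nat_lit 3), (nat_lit 1000), Int.ofNat (nat_lit 1000), 0, ⟨0, 1⟩, ⟨Int.ofNat
 (nat_lit 40), 200⟩⟩ ⟨600000, 650000, 790411, 774755, 806384, 612032, 632797, 591949, 632455, 591607⟩ false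
 (nat_lit 500) (Int.ofNat (nat_lit 7002)) (nat_lit 550) (Int.ofNat (nat_lit 6591)) qL120_40_2_10 = true :=
 by decide +kernel

def qL120_40_2_11 : PCt := .one ⟨2008000, 251, 2008000, -364252, 332685, 0, 0, 200000, 550000, 600000⟩ ⟨0,
 .pol, .pol, .pol, .pol, .sx 100000 (.sy 575000 (.sx 50000 (.sx 25000 (.aff 5000000 18973666 843275) (.aff
 4650000 15623127 852743)) (.aff 1000000 0 0)) (.sy 587500 (.sx 50000 (.sx 25000 (.aff 5000000 22271058
 718422) (.sx 37500 (.aff 4800000 15625853 924110) (.aff 1000000 0 0))) (.aff 1000000 0 0)) (.sx 50000 (.aff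
 5050000 16115405 1017815) (.aff 1000000 0 0)))) (.aff 1000000 0 0), .pol, .pol, .pol, .pol⟩

def hL120_40_2_11 : pcchk ⟨(nat_lit 3), (nat_lit 1000), Int.ofNat (nat_lit 1000), 0, ⟨0, 1⟩, ⟨Int.ofNat
 (nat_lit 40), 200⟩⟩ ⟨600000, 650000, 790411, 774755, 806384, 612032, 632797, 591949, 632455, 591607⟩ false
 (nat_lit 550) (Int.ofNat (nat_lit 6591)) (nat_lit 600) (Int.ofNat (nat_lit 5684)) qL120_40_2_11 = true :=
 by decide +kernel

def qL120_40_2_12 : PCt := .one ⟨2008000, 251, 2008000, -528104, 430997, 0, 0, 200000, 600000, 650000⟩ ⟨0,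
 .pol, .pol, .pol, .pol, .sx 100000 (.sx 50000 (.sx 25000 (.aff 5000000 23094011 692821) (.sy 625000 (.aff
 5438000 16195485 1216132) (.aff 8000000 24995000 1960393))) (.sx 75000 (.sy 625000 (.aff 5600000 15957482
 1326024) (.aff 5600000 15485908 1366404)) (.aff 1000000 0 0))) (.aff 1000000 0 0), .pol, .pol, .pol, .pol⟩

def hL120_40_2_12 : pcchk ⟨(nat_lit 3), (nat_lit 1000), Int.ofNat (nat_lit 1000), 0, ⟨0, 1⟩, ⟨Int.ofNat
 (nat_lit 40), 200⟩⟩ ⟨600000, 650000, 790411, 774755, 806384, 612032, 632797, 591949, 632455, 591607⟩ false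
 (nat_lit 600) (Int.ofNat (nat_lit 5684)) (nat_lit 650) (Int.ofNat (nat_lit 4369)) qL120_40_2_12 = true :=
 by decide +kernel

def qL120_40_2_13 : PCt := .one ⟨2008000, 251, 2008000, -751394, 576135, 0, 0, 200000, 650000, 700000⟩ ⟨0,
 .pol, .pol, .pol, .pol, .sx 100000 (.sx 50000 (.aff 8000000 29698485 1649916) (.sx 75000 (.sy 675000 (.aff
 6900000 17535346 1985134) (.aff 8000000 21193553 2312024)) (.sx 87500 (.sy 675000 (.aff 6200000 15142629
 1785688) (.sx 81250 (.aff 7100000 17744122 2097033) (.aff 7000000 16818358 2140519))) (.aff 6100000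
 13918681 1868712)))) (.aff 1000000 0 0), .pol, .pol, .pol, .pol⟩

def hL120_40_2_13 : pcchk ⟨(nat_lit 3), (nat_lit 1000), Int.ofNat (nat_lit 1000), 0, ⟨0, 1⟩, ⟨Int.ofNat
 (nat_lit 40), 200⟩⟩ ⟨600000, 650000, 790411, 774755, 806384, 612032, 632797, 591949, 632455, 591607⟩ false
 (nat_lit 650) (Int.ofNat (nat_lit 4369)) (nat_lit 700) (Int.ofNat (nat_lit 2498)) qL120_40_2_13 = true :=
 by decide +kernel

def qL120_40_2_14 : PCt := .one ⟨2008000, 251, 2008000, -956210, 719506, 0, 0, 200000, 700000, 750000⟩ ⟨0,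
 .pol, .pol, .pol, .pol, .sx 100000 (.aff 8200000 19386594 2674013) (.sx 150000 (.sy 725000 (.aff 7725000
 17791936 2541918) (.aff 8100000 18178712 2773024)) (.aff 1000000 0 0)), .pol, .pol, .pol, .pol⟩

def hL120_40_2_14 : pcchk ⟨(nat_lit 3), (nat_lit 1000), Int.ofNat (nat_lit 1000), 0, ⟨0, 1⟩, ⟨Int.ofNat
 (nat_lit 40), 200⟩⟩ ⟨600000, 650000, 790411, 774755, 806384, 612032, 632797, 591949, 632455, 591607⟩ false
 (nat_lit 700) (Int.ofNat (nat_lit 2498)) (nat_lit 750) (Int.ofNat (nat_lit 117)) qL120_40_2_14 = true := by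
 decide +kernel

def qL120_40_2_15 : PCt := .one ⟨2008000, 251, 2008000, -1247370, 937876, 0, 0, 200000, 750000, 800000⟩ ⟨0,
 .pol, .pol, .pol, .pol, .sx 100000 (.aff 8000000 19487176 2514475) (.sx 150000 (.sx 125000 (.aff 12000000
 28101321 4305848) (.sx 137500 (.aff 9900000 21129515 3748785) (.sy 775000 (.aff 9200000 19094246 3521480)
 (.aff 9900000 20392462 3884279)))) (.sy 775000 (.aff 1500000 1043689 239535) (.sx 175000 (.aff 9700000
 19531452 3875288) (.aff 1000000 0 0)))), .pol, .pol, .sx 100000 (.inf 3149604 317501) .pol, .pol⟩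

def hL120_40_2_15 : pcchk ⟨(nat_lit 3), (nat_lit 1000), Int.ofNat (nat_lit 1000), 0, ⟨0, 1⟩, ⟨Int.ofNat
 (nat_lit 40), 200⟩⟩ ⟨600000, 650000, 790411, 774755, 806384, 612032, 632797, 591949, 632455, 591607⟩ false
 (nat_lit 750) (Int.ofNat (nat_lit 117)) (nat_lit 800) (Int.negSucc (nat_lit 2988)) qL120_40_2_15 = true :=
 by decide +kernel

def qL120_40_2_16 : PCt := .one ⟨2008000, 251, 2008000, -1554192, 1183334, 0, 0, 200000, 800000, 850000⟩ ⟨0,
 .pol, .pol, .pol, .pol, .sx 100000 (.aff 12000000 36482873 3316625) (.sx 150000 (.aff 12000000 28259512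
 4281745) (.sx 175000 (.aff 12000000 23883647 5066228) (.sx 187500 (.sy 825000 (.sx 181250 (.aff 11400000
 22019428 4912026) (.aff 11038000 21158600 4762199)) (.aff 12000000 23645369 5117282)) (.sy 825000 (.sx
 193750 (.aff 11214000 21445889 4864606) (.aff 3000000 4062997 984495)) (.aff 11800000 22100453
 5277720))))), .pol, .pol, .sx 100000 (.inf 4062020 246183) .pol, .pol⟩

def hL120_40_2_16 : pcchk ⟨(nat_lit 3), (nat_lit 1000), Int.ofNat (nat_lit 1000), 0, ⟨0, 1⟩, ⟨Int.ofNat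
 (nat_lit 40), 200⟩⟩ ⟨600000, 650000, 790411, 774755, 806384, 612032, 632797, 591949, 632455, 591607⟩ false
 (nat_lit 800) (Int.negSucc (nat_lit 2988)) (nat_lit 850) (Int.negSucc (nat_lit 6858)) qL120_40_2_16 = true
 := by decide +kernel

def qL120_40_2_17 : PCt := .one ⟨2008000, 251, 2008000, -9293426, 7761683, 0, 0, 200000, 850000, 900000⟩ ⟨0,
 .pol, .pol, .pol, .pol, .aff 35000000 71116103 16255109, .pol, .pol, .inf 2366432 422578, .pol⟩

def hL120_40_2_17 : pcchk ⟨(nat_lit 3), (nat_lit 1000), Int.ofNat (nat_lit 1000), 0, ⟨0, 1⟩, ⟨Int.ofNat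
 (nat_lit 40), 200⟩⟩ ⟨600000, 650000, 790411, 774755, 806384, 612032, 632797, 591949, 632455, 591607⟩ false
 (nat_lit 850) (Int.negSucc (nat_lit 6858)) (nat_lit 900) (Int.negSucc (nat_lit 29999)) qL120_40_2_17 = true
 := by decide +kernel

def qL120_40_2_18 : PCt := .one ⟨2008000, 251, 2008000, 0, -602400, 0, 0, 200000, 900000, 950000⟩ ⟨0, .pol,
 .pol, .pol, .pol, .aff 35000000 73119765 15809679, .pol, .pol, .inf 2433106 410998, .pol⟩

def hL120_40_2_18 : pcchk ⟨(nat_lit 3), (nat_lit 1000), Int.ofNat (nat_lit 1000), 0, ⟨0, 1⟩, ⟨Int.ofNat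
 (nat_lit 40), 200⟩⟩ ⟨600000, 650000, 790411, 774755, 806384, 612032, 632797, 591949, 632455, 591607⟩ false
 (nat_lit 900) (Int.negSucc (nat_lit 29999)) (nat_lit 950) (Int.negSucc (nat_lit 29999)) qL120_40_2_18 =
 true := by decide +kernel

def qL120_40_2_19 : PCt := .one ⟨2008000, 251, 2008000, 0, -602400, 0, 0, 200000, 950000, 1000000⟩ ⟨0, .pol,
 .pol, .pol, .pol, .aff 35000000 86683332 13335898, .pol, .pol, .inf 3122499 320257, .pol⟩

def hL120_40_2_19 : pcchk ⟨(nat_lit 3), (nat_lit 1000), Int.ofNat (nat_lit 1000), 0, ⟨0, 1⟩, ⟨Int.ofNat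
 (nat_lit 40), 200⟩⟩ ⟨600000, 650000, 790411, 774755, 806384, 612032, 632797, 591949, 632455, 591607⟩ false
 (nat_lit 950) (Int.negSucc (nat_lit 29999)) (nat_lit 1000) (Int.negSucc (nat_lit 29999)) qL120_40_2_19 =
 true := by decide +kernel

def qL120_40_3_0 : PCt := .one ⟨2008000, 251, 421680, 3811184, 0, 0, 0, 200000, 0, 50000⟩ ⟨50000, .pol, .aff
 316228 3162276, .pol, .pol, .aff 0 57000 17543860, .pol, .pol, .pol, .pol⟩

def hL120_40_3_0 : pcchk ⟨(nat_lit 1), (nat_lit 1000), Int.ofNat (nat_lit 210), 0, ⟨0, 1⟩, ⟨Int.ofNat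
 (nat_lit 40), 200⟩⟩ ⟨600000, 650000, 790411, 774755, 806384, 612032, 632797, 591949, 632455, 591607⟩ true 0
 0 (nat_lit 50) (Int.ofNat (nat_lit 9490)) qL120_40_3_0 = true := by decide +kernel

def qL120_40_3_1 : PCt := .one ⟨2008000, 251, 421680, -2908789, 335998, 0, 0, 200000, 50000, 100000⟩ ⟨0,
 .pol, .pol, .pol, .pol, .sy 75000 .pol (.sy 87500 .pol (.sy 93750 .pol (.sy 96875 (.aff 500000 488141
 512148) (.sy 98437 (.aff 375000 504295 774597) (.sy 99218 (.sx 100000 (.aff 0 1405899 711289) (.aff 500000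
 405848 615995)) (.sy 99609 (.sx 100000 (.aff 0 1410061 709190) (.aff 500000 445901 560663)) (.sy 99804 (.sx
 100000 (.aff 0 1412137 708147) (.sx 150000 (.aff 375000 558197 699798) (.aff 1000000 0 0))) (.sx 100000
 (.aff 0 1413521 707454) (.sy 99902 (.sx 150000 (.aff 425000 518481 637681) (.aff 1000000 0 0)) (.sx 150000
 (.sx 125000 (.aff 250000 706934 795690) (.aff 500000 426297 586446)) (.aff 1000000 0 0))))))))))), .pol,
 .pol, .sy 75000 .pol (.sy 87500 .pol (.sy 93750 .pol (.sx 100000 (.sx 50000 .pol .pol) .pol))), .pol⟩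

def hL120_40_3_1 : pcchk ⟨(nat_lit 1), (nat_lit 1000), Int.ofNat (nat_lit 210), 0, ⟨0, 1⟩, ⟨Int.ofNat
 (nat_lit 40), 200⟩⟩ ⟨600000, 650000, 790411, 774755, 806384, 612032, 632797, 591949, 632455, 591607⟩ false
 (nat_lit 50) (Int.ofNat (nat_lit 9490)) (nat_lit 100) (Int.ofNat (nat_lit 2247)) qL120_40_3_1 = true := by
 decide +kernel

def qL120_40_3_2 : PCt := .one ⟨2008000, 251, 421680, 70681, 38051, 0, 0, 200000, 100000, 150000⟩ ⟨0, .pol,
 .pol, .pol, .pol, .sy 125000 (.sy 112500 (.sx 100000 (.aff 0 1190239 840168) (.sx 150000 (.sx 125000 (.aff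
 425000 543896 607883) (.aff 500000 439525 568796)) (.aff 1000000 0 0))) (.sy 118750 (.sx 100000 (.aff
 250000 931230 604040) (.sx 150000 (.sx 125000 (.aff 450000 573752 527232) (.aff 1000000 0 0)) (.aff 1000000
 0 0))) (.sx 100000 (.aff 250000 827978 679366) (.sx 150000 (.aff 475000 574454 479804) (.aff 1000000 0
 0))))) (.sy 137500 (.sx 100000 (.aff 381000 740936 517132) (.aff 500000 512348 487950)) (.sx 100000 (.sx
 50000 (.aff 0 2397916 417029) (.aff 425000 689401 479584)) (.aff 1000000 0 0))), .pol, .pol, .sx 100000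
 .pol .pol, .pol⟩

def hL120_40_3_2 : pcchk ⟨(nat_lit 1), (nat_lit 1000), Int.ofNat (nat_lit 210), 0, ⟨0, 1⟩, ⟨Int.ofNat
 (nat_lit 40), 200⟩⟩ ⟨600000, 650000, 790411, 774755, 806384, 612032, 632797, 591949, 632455, 591607⟩ false
 (nat_lit 100) (Int.ofNat (nat_lit 2247)) (nat_lit 150) (Int.ofNat (nat_lit 2423)) qL120_40_3_2 = true := by
 decide +kernel

def qL120_40_3_3 : PCt := .one ⟨2008000, 251, 421680, 14457, 46485, 0, 0, 200000, 150000, 200000⟩ ⟨0, .pol,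
 .pol, .pol, .pol, .sy 175000 (.sx 100000 (.sx 50000 (.aff 0 1802776 554701) (.aff 500000 806226 310087))
 (.aff 1000000 0 0)) (.sx 100000 (.sx 50000 (.aff 500000 968246 258199) (.aff 525000 830029 271828)) (.aff
 1000000 0 0)), .pol, .pol, .sx 100000 .pol .pol, .pol⟩

def hL120_40_3_3 : pcchk ⟨(nat_lit 1), (nat_lit 1000), Int.ofNat (nat_lit 210), 0, ⟨0, 1⟩, ⟨Int.ofNat
 (nat_lit 40), 200⟩⟩ ⟨600000, 650000, 790411, 774755, 806384, 612032, 632797, 591949, 632455, 591607⟩ false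
 (nat_lit 150) (Int.ofNat (nat_lit 2423)) (nat_lit 200) (Int.ofNat (nat_lit 2459)) qL120_40_3_3 = true := by
 decide +kernel

def qL120_40_3_4 : PCt := .one ⟨2008000, 251, 421680, -15663, 52509, 0, 0, 200000, 200000, 250000⟩ ⟨0, .pol,
 .pol, .pol, .pol, .sx 100000 (.sy 225000 (.sy 212500 (.sx 50000 (.aff 513000 1014141 233862) (.aff 1000000
 0 0)) (.sy 218750 (.sx 50000 (.sx 25000 (.aff 0 3391165 294884) (.aff 534000 992220 218859)) (.aff 1000000
 0 0)) (.sx 50000 (.sx 25000 (.aff 0 2979094 335673) (.aff 575000 1024681 176275)) (.aff 1000000 0 0))))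
 (.sy 237500 (.sy 231250 (.sx 50000 (.sx 25000 (.aff 500000 2136001 117042) (.aff 613000 1099227 136250))
 (.aff 1000000 0 0)) (.sy 234375 (.sx 50000 (.sx 25000 (.aff 500000 1761865 141896) (.aff 625000 1023551
 137390)) (.aff 1000000 0 0)) (.sx 50000 (.sx 25000 (.aff 500000 1773650 140953) (.aff 625000 1030398
 136477)) (.aff 1000000 0 0)))) (.sx 50000 (.aff 619000 1160300 125107) (.aff 1000000 0 0)))) (.aff 1000000
 0 0), .pol, .pol, .pol, .pol⟩

def hL120_40_3_4 : pcchk ⟨(nat_lit 1), (nat_lit 1000), Int.ofNat (nat_lit 210), 0, ⟨0, 1⟩, ⟨Int.ofNat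
 (nat_lit 40), 200⟩⟩ ⟨600000, 650000, 790411, 774755, 806384, 612032, 632797, 591949, 632455, 591607⟩ false
 (nat_lit 200) (Int.ofNat (nat_lit 2459)) (nat_lit 250) (Int.ofNat (nat_lit 2420)) qL120_40_3_4 = true := by
 decide +kernel

def qL120_40_3_5 : PCt := .one ⟨2008000, 251, 421680, -67469, 65460, 0, 0, 200000, 250000, 300000⟩ ⟨0, .pol,
 .pol, .pol, .pol, .sy 275000 (.sy 262500 (.sy 256250 (.sy 253125 (.sx 100000 (.sx 50000 (.aff 625000
 1189555 118217) (.aff 1000000 0 0)) (.aff 1000000 0 0)) (.sx 100000 (.sx 50000 (.aff 625000 1196920 117490)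
 (.aff 1000000 0 0)) (.aff 1000000 0 0))) (.sy 259375 (.sx 100000 (.sx 50000 (.aff 625000 1145510 122762)
 (.aff 1000000 0 0)) (.aff 1000000 0 0)) (.sx 100000 (.sx 50000 (.aff 650000 1188724 103052) (.aff 1000000 0
 0)) (.aff 1000000 0 0)))) (.sy 268750 (.sy 265625 (.sx 100000 (.sx 50000 (.aff 650000 1195821 102441) (.aff
 1000000 0 0)) (.aff 1000000 0 0)) (.sy 267187 (.sx 100000 (.sx 50000 (.sx 25000 (.aff 625000 1413523 99486)
 (.aff 1000000 0 0)) (.aff 1000000 0 0)) (.aff 1000000 0 0)) (.sx 100000 (.sy 267968 (.sx 50000 (.sx 25000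
 (.aff 625000 1416627 99268) (.aff 1000000 0 0)) (.aff 1000000 0 0)) (.sy 268359 (.sx 50000 (.sx 25000 (.aff
 625000 1418178 99159) (.aff 1000000 0 0)) (.aff 1000000 0 0)) (.sx 50000 (.sx 25000 (.aff 625000 1419211
 99087) (.aff 1000000 0 0)) (.aff 1000000 0 0)))) (.aff 1000000 0 0)))) (.sx 100000 (.sy 271875 (.sy 270312
 (.sy 269531 (.sy 269140 (.sy 268945 (.sx 50000 (.sx 25000 (.aff 625000 1229743 114354) (.aff 1000000 0 0))
 (.aff 1000000 0 0)) (.sx 50000 (.sx 25000 (.aff 625000 1230189 114312) (.aff 1000000 0 0)) (.aff 1000000 0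
 0))) (.sy 269335 (.sx 50000 (.sx 25000 (.aff 625000 1230635 114271) (.aff 1000000 0 0)) (.aff 1000000 0 0))
 (.sx 50000 (.sx 25000 (.aff 625000 1231082 114229) (.aff 1000000 0 0)) (.aff 1000000 0 0)))) (.sx 50000
 (.sx 25000 (.aff 625000 1232197 114126) (.aff 1000000 0 0)) (.aff 1000000 0 0))) (.sx 50000 (.sx 25000
 (.aff 625000 1234869 113879) (.aff 1000000 0 0)) (.aff 1000000 0 0))) (.sx 50000 (.aff 676000 1214202
 86457) (.aff 1000000 0 0))) (.aff 1000000 0 0)))) (.sy 287500 (.sy 281250 (.sy 278125 (.sx 100000 (.sx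
 50000 (.sx 25000 (.aff 638000 1234505 106152) (.aff 1000000 0 0)) (.aff 1000000 0 0)) (.aff 1000000 0 0))
 (.sx 100000 (.sx 50000 (.sx 25000 (.aff 644000 1220883 103807) (.aff 1000000 0 0)) (.aff 1000000 0 0))
 (.aff 1000000 0 0))) (.sx 100000 (.sx 50000 (.sy 284375 (.sx 25000 (.sx 12500 (.aff 500000 3363407 74330)
 (.aff 750000 970932 64372)) (.aff 1000000 0 0)) (.aff 750000 1321448 47297)) (.aff 1000000 0 0)) (.aff
 1000000 0 0))) (.sy 293750 (.sy 290625 (.sx 100000 (.sx 50000 (.aff 750000 1328650 47041) (.aff 1000000 0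
 0)) (.aff 1000000 0 0)) (.sx 100000 (.sx 50000 (.aff 750000 1335812 46789) (.aff 1000000 0 0)) (.aff
 1000000 0 0))) (.sx 100000 (.aff 750000 1237909 50489) (.aff 1000000 0 0)))), .pol, .pol, .pol, .pol⟩

def hL120_40_3_5 : pcchk ⟨(nat_lit 1), (nat_lit 1000), Int.ofNat (nat_lit 210), 0, ⟨0, 1⟩, ⟨Int.ofNat
 (nat_lit 40), 200⟩⟩ ⟨600000, 650000, 790411, 774755, 806384, 612032, 632797, 591949, 632455, 591607⟩ false
 (nat_lit 250) (Int.ofNat (nat_lit 2420)) (nat_lit 300) (Int.ofNat (nat_lit 2252)) qL120_40_3_5 = true := by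
 decide +kernel

def qL120_40_3_6 : PCt := .one ⟨2008000, 251, 421680, -116866, 80279, 0, 0, 200000, 300000, 350000⟩ ⟨0,
 .pol, .pol, .pol, .pol, .sy 325000 (.sy 312500 (.sy 306250 (.sx 100000 (.aff 750000 1235333 50594) (.aff
 1000000 0 0)) (.sx 100000 (.sx 50000 (.aff 750000 1307502 47802) (.aff 1000000 0 0)) (.aff 1000000 0 0)))
 (.sx 100000 (.sy 318750 (.sx 50000 (.aff 750000 1320643 47326) (.aff 1000000 0 0)) (.sy 321875 (.sy 320312
 (.sy 319531 (.sx 50000 (.sx 25000 (.aff 750000 1327978 47065) (.aff 1000000 0 0)) (.aff 1000000 0 0)) (.sx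
 50000 (.aff 753000 1330170 45866) (.aff 1000000 0 0))) (.sy 321093 (.sy 320702 (.sx 50000 (.sx 25000 (.aff
 750000 1364508 45805) (.aff 1000000 0 0)) (.aff 1000000 0 0)) (.sy 320897 (.sx 50000 (.sx 25000 (.aff
 750000 1365130 45784) (.aff 1000000 0 0)) (.aff 1000000 0 0)) (.sy 320995 (.sx 50000 (.sx 25000 (.aff
 750000 1365442 45773) (.aff 1000000 0 0)) (.aff 1000000 0 0)) (.sy 321044 (.sx 50000 (.sx 25000 (.aff
 750000 1365598 45768) (.aff 1000000 0 0)) (.aff 1000000 0 0)) (.sy 321068 (.sy 321056 (.sx 50000 (.sx 25000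
 (.aff 750000 1365663 45766) (.aff 1000000 0 0)) (.aff 1000000 0 0)) (.sx 50000 (.sx 25000 (.aff 750000
 1365689 45765) (.aff 1000000 0 0)) (.aff 1000000 0 0))) (.sy 321080 (.sy 321074 (.sx 50000 (.sx 25000 (.aff
 750000 1365708 45764) (.aff 1000000 0 0)) (.aff 1000000 0 0)) (.sy 321077 (.sx 50000 (.sx 25000 (.aff
 750000 1365717 45764) (.aff 1000000 0 0)) (.aff 1000000 0 0)) (.sy 321078 (.sx 50000 (.sx 25000 (.aff
 750000 1365722 45764) (.aff 1000000 0 0)) (.aff 1000000 0 0)) (.sy 321079 (.sx 50000 (.sx 25000 (.aff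
 750000 1365724 45764) (.aff 1000000 0 0)) (.aff 1000000 0 0)) (.sx 50000 (.sx 25000 (.aff 750000 1365726
 45764) (.aff 1000000 0 0)) (.aff 1000000 0 0)))))) (.sy 321086 (.sy 321083 (.sy 321081 (.sx 50000 (.sx
 25000 (.aff 750000 1365728 45764) (.aff 1000000 0 0)) (.aff 1000000 0 0)) (.sx 50000 (.sx 25000 (.aff
 750000 1365731 45764) (.aff 1000000 0 0)) (.aff 1000000 0 0))) (.sx 50000 (.sx 25000 (.aff 750000 1365737
 45763) (.aff 1000000 0 0)) (.aff 1000000 0 0))) (.sx 50000 (.sx 25000 (.aff 750000 1365747 45763) (.aff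
 1000000 0 0)) (.aff 1000000 0 0))))))))) (.sy 321484 (.sx 50000 (.aff 756000 1333382 44651) (.aff 1000000 0
 0)) (.sx 50000 (.sx 25000 (.aff 750000 1367001 45721) (.aff 1000000 0 0)) (.aff 1000000 0 0))))) (.sy
 323437 (.sy 322656 (.sx 50000 (.sx 25000 (.aff 750000 1368246 45679) (.aff 1000000 0 0)) (.aff 1000000 0
 0)) (.sx 50000 (.sx 25000 (.aff 750000 1369903 45624) (.aff 1000000 0 0)) (.aff 1000000 0 0))) (.sy 324218
 (.sx 50000 (.sx 25000 (.aff 775000 1330542 38049) (.aff 1000000 0 0)) (.aff 1000000 0 0)) (.sy 324609 (.sx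
 50000 (.sx 25000 (.aff 775000 1331746 38015) (.aff 1000000 0 0)) (.aff 1000000 0 0)) (.sx 50000 (.sx 25000
 (.aff 775000 1332548 37992) (.aff 1000000 0 0)) (.aff 1000000 0 0))))))) (.aff 1000000 0 0))) (.sx 100000
 (.sx 50000 (.aff 800000 1402815 28515) (.aff 1000000 0 0)) (.aff 1000000 0 0)), .pol, .pol, .pol, .pol⟩

def hL120_40_3_6 : pcchk ⟨(nat_lit 1), (nat_lit 1000), Int.ofNat (nat_lit 210), 0, ⟨0, 1⟩, ⟨Int.ofNat
 (nat_lit 40), 200⟩⟩ ⟨600000, 650000, 790411, 774755, 806384, 612032, 632797, 591949, 632455, 591607⟩ false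
 (nat_lit 300) (Int.ofNat (nat_lit 2252)) (nat_lit 350) (Int.ofNat (nat_lit 1961)) qL120_40_3_6 = true := by
 decide +kernel

def qL120_40_3_7 : PCt := .one ⟨2008000, 251, 421680, -169074, 98552, 0, 0, 200000, 350000, 400000⟩ ⟨0,
 .pol, .pol, .pol, .pol, .sx 100000 (.sx 50000 (.sx 25000 (.aff 950000 1110563 2252) (.aff 1000000 0 0))
 (.aff 1000000 0 0)) (.aff 1000000 0 0), .pol, .pol, .pol, .pol⟩

def hL120_40_3_7 : pcchk ⟨(nat_lit 1), (nat_lit 1000), Int.ofNat (nat_lit 210), 0, ⟨0, 1⟩, ⟨Int.ofNat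
 (nat_lit 40), 200⟩⟩ ⟨600000, 650000, 790411, 774755, 806384, 612032, 632797, 591949, 632455, 591607⟩ false
 (nat_lit 350) (Int.ofNat (nat_lit 1961)) (nat_lit 400) (Int.ofNat (nat_lit 1540)) qL120_40_3_7 = true := by
 decide +kernel

def qL120_40_3_8 : PCt := .one ⟨2008000, 251, 421680, -226904, 121684, 0, 0, 200000, 400000, 450000⟩ ⟨0,
 .pol, .pol, .pol, .pol, .sx 100000 (.sx 50000 (.sx 25000 (.sx 12500 (.aff 1100000 1835229 5449) (.aff
 1000000 0 0)) (.aff 1000000 0 0)) (.aff 1000000 0 0)) (.aff 1000000 0 0), .pol, .pol, .pol, .pol⟩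

def hL120_40_3_8 : pcchk ⟨(nat_lit 1), (nat_lit 1000), Int.ofNat (nat_lit 210), 0, ⟨0, 1⟩, ⟨Int.ofNat
 (nat_lit 40), 200⟩⟩ ⟨600000, 650000, 790411, 774755, 806384, 612032, 632797, 591949, 632455, 591607⟩ false
 (nat_lit 400) (Int.ofNat (nat_lit 1540)) (nat_lit 450) (Int.ofNat (nat_lit 975)) qL120_40_3_8 = true := by
 decide +kernel

def qL120_40_3_9 : PCt := .one ⟨2008000, 251, 421680, -286743, 148612, 0, 0, 200000, 450000, 500000⟩ ⟨0,
 .pol, .pol, .pol, .pol, .sx 100000 (.sy 475000 (.sx 50000 (.sy 462500 (.aff 1238000 1940939 29184) (.aff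
 1244000 1967146 30266)) (.aff 1000000 0 0)) (.sx 50000 (.aff 1263000 2006074 34480) (.aff 1000000 0 0)))
 (.aff 1000000 0 0), .pol, .pol, .pol, .pol⟩

def hL120_40_3_9 : pcchk ⟨(nat_lit 1), (nat_lit 1000), Int.ofNat (nat_lit 210), 0, ⟨0, 1⟩, ⟨Int.ofNat
 (nat_lit 40), 200⟩⟩ ⟨600000, 650000, 790411, 774755, 806384, 612032, 632797, 591949, 632455, 591607⟩ false
 (nat_lit 450) (Int.ofNat (nat_lit 975)) (nat_lit 500) (Int.ofNat (nat_lit 261)) qL120_40_3_9 = true := by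
 decide +kernel

def qL120_40_3_10 : PCt := .one ⟨2008000, 251, 421680, -359432, 184956, 0, 0, 200000, 500000, 550000⟩ ⟨0,
 .pol, .pol, .pol, .pol, .sx 100000 (.sx 50000 (.sx 25000 (.sy 525000 (.aff 1413000 2269923 75144) (.aff
 1450000 2306011 87814)) (.aff 1250000 935415 66816)) (.aff 1000000 0 0)) (.aff 1000000 0 0), .pol, .pol,
 .pol, .pol⟩

def hL120_40_3_10 : pcchk ⟨(nat_lit 1), (nat_lit 1000), Int.ofNat (nat_lit 210), 0, ⟨0, 1⟩, ⟨Int.ofNat
 (nat_lit 40), 200⟩⟩ ⟨600000, 650000, 790411, 774755, 806384, 612032, 632797, 591949, 632455, 591607⟩ false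
 (nat_lit 500) (Int.ofNat (nat_lit 261)) (nat_lit 550) (Int.negSucc (nat_lit 633)) qL120_40_3_10 = true :=
 by decide +kernel

def qL120_40_3_11 : PCt := .one ⟨2008000, 251, 421680, -426098, 221622, 0, 0, 200000, 550000, 600000⟩ ⟨0,
 .pol, .pol, .pol, .pol, .sx 100000 (.sy 575000 (.sy 562500 (.sx 50000 (.aff 1488000 2301892 103456) (.aff
 1000000 0 0)) (.sx 50000 (.sx 25000 (.aff 1500000 2384849 104829) (.aff 1500000 2133073 117202)) (.aff
 1000000 0 0))) (.sy 587500 (.sx 50000 (.sx 25000 (.aff 1500000 2410913 103696) (.aff 1550000 2372025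
 127529)) (.aff 1000000 0 0)) (.sx 50000 (.sx 25000 (.aff 1500000 2436699 102598) (.aff 1550000 2397395
 126179)) (.aff 1000000 0 0)))) (.aff 1000000 0 0), .pol, .pol, .pol, .pol⟩

def hL120_40_3_11 : pcchk ⟨(nat_lit 1), (nat_lit 1000), Int.ofNat (nat_lit 210), 0, ⟨0, 1⟩, ⟨Int.ofNat
 (nat_lit 40), 200⟩⟩ ⟨600000, 650000, 790411, 774755, 806384, 612032, 632797, 591949, 632455, 591607⟩ false
 (nat_lit 550) (Int.negSucc (nat_lit 633)) (nat_lit 600) (Int.negSucc (nat_lit 1694)) qL120_40_3_11 = true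
 := by decide +kernel

def qL120_40_3_12 : PCt := .one ⟨2008000, 251, 421680, -514450, 274634, 0, 0, 200000, 600000, 650000⟩ ⟨0,
 .pol, .pol, .pol, .pol, .sy 625000 (.sx 100000 (.sx 50000 (.aff 1800000 2800000 228572) (.aff 1400000
 1529439 104614)) (.aff 1000000 0 0)) (.sx 100000 (.sx 50000 (.aff 2000000 3570715 280056) (.aff 1700000
 2470744 198321)) (.aff 1000000 0 0)), .pol, .pol, .pol, .pol⟩

def hL120_40_3_12 : pcchk ⟨(nat_lit 1), (nat_lit 1000), Int.ofNat (nat_lit 210), 0, ⟨0, 1⟩, ⟨Int.ofNat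
 (nat_lit 40), 200⟩⟩ ⟨600000, 650000, 790411, 774755, 806384, 612032, 632797, 591949, 632455, 591607⟩ false
 (nat_lit 600) (Int.negSucc (nat_lit 1694)) (nat_lit 650) (Int.negSucc (nat_lit 2975)) qL120_40_3_12 = true
 := by decide +kernel

def qL120_40_3_13 : PCt := .one ⟨2008000, 251, 421680, -40160, -33655, 0, 0, 200000, 650000, 700000⟩ ⟨0,
 .pol, .pol, .pol, .pol, .sy 675000 (.sy 662500 (.sy 656250 (.sx 100000 (.sx 50000 (.aff 2000000 4173329
 239617) (.aff 1950000 2803440 321926)) (.aff 1000000 0 0)) (.sx 100000 (.aff 2000000 2965075 337260) (.aff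
 1000000 0 0))) (.aff 2150000 2973924 444699)) (.aff 1500000 1854050 134840), .pol, .sx 100000 (.aff 1888000
 2664001 296000) (.aff 1800000 1859033 344266), .pol, .pol⟩

def hL120_40_3_13 : pcchk ⟨(nat_lit 1), (nat_lit 1000), Int.ofNat (nat_lit 210), 0, ⟨0, 1⟩, ⟨Int.ofNat
 (nat_lit 40), 200⟩⟩ ⟨600000, 650000, 790411, 774755, 806384, 612032, 632797, 591949, 632455, 591607⟩ false
 (nat_lit 650) (Int.negSucc (nat_lit 2975)) (nat_lit 700) (Int.negSucc (nat_lit 3075)) qL120_40_3_13 = true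
 := by decide +kernel

def qL120_40_3_14 : PCt := .one ⟨2008000, 251, 421680, 130520, -153131, 0, 0, 200000, 700000, 750000⟩ ⟨0,
 .pol, .pol, .pol, .pol, .aff 1500000 1346292 185696, .pol, .sy 725000 (.sx 100000 (.aff 1950000 2785292
 324024) (.sx 150000 (.aff 2000000 2516612 397360) (.aff 1000000 0 0))) (.sx 100000 (.aff 3000000 6271630
 637793) (.sx 150000 (.aff 2000000 2560382 390567) (.aff 1500000 1065184 234702))), .pol, .pol⟩

def hL120_40_3_14 : pcchk ⟨(nat_lit 1), (nat_lit 1000), Int.ofNat (nat_lit 210), 0, ⟨0, 1⟩, ⟨Int.ofNat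
 (nat_lit 40), 200⟩⟩ ⟨600000, 650000, 790411, 774755, 806384, 612032, 632797, 591949, 632455, 591607⟩ false
 (nat_lit 700) (Int.negSucc (nat_lit 3075)) (nat_lit 750) (Int.negSucc (nat_lit 2750)) qL120_40_3_14 = true
 := by decide +kernel

def qL120_40_3_15 : PCt := .one ⟨2008000, 251, 421680, 108432, -136565, 0, 0, 200000, 750000, 800000⟩ ⟨0,
 .pol, .pol, .pol, .pol, .aff 1000000 0 0, .pol, .sx 100000 (.aff 3000000 6429101 622171) (.sy 775000 (.sx
 150000 (.aff 2150000 2701768 489495) (.aff 2100000 2382791 507808)) (.sx 150000 (.aff 2900000 4353447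
 829228) (.aff 2275000 2669895 608873))), .pol, .pol⟩

def hL120_40_3_15 : pcchk ⟨(nat_lit 1), (nat_lit 1000), Int.ofNat (nat_lit 210), 0, ⟨0, 1⟩, ⟨Int.ofNat
 (nat_lit 40), 200⟩⟩ ⟨600000, 650000, 790411, 774755, 806384, 612032, 632797, 591949, 632455, 591607⟩ false
 (nat_lit 750) (Int.negSucc (nat_lit 2750)) (nat_lit 800) (Int.negSucc (nat_lit 2480)) qL120_40_3_15 = true
 := by decide +kernel

def qL120_40_3_16 : PCt := .one ⟨2008000, 251, 421680, 89155, -121143, 0, 0, 200000, 800000, 850000⟩ ⟨0,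
 .pol, .pol, .pol, .pol, .aff 1000000 0 0, .pol, .sx 100000 (.aff 3000000 8124039 492366) (.sx 150000 (.aff
 3000000 5138094 778499) (.aff 2500000 3046515 738549)), .pol, .pol⟩

def hL120_40_3_16 : pcchk ⟨(nat_lit 1), (nat_lit 1000), Int.ofNat (nat_lit 210), 0, ⟨0, 1⟩, ⟨Int.ofNat
 (nat_lit 40), 200⟩⟩ ⟨600000, 650000, 790411, 774755, 806384, 612032, 632797, 591949, 632455, 591607⟩ false
 (nat_lit 800) (Int.negSucc (nat_lit 2480)) (nat_lit 850) (Int.negSucc (nat_lit 2258)) qL120_40_3_16 = true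
 := by decide +kernel

def qL120_40_3_17 : PCt := .one ⟨2008000, 251, 421680, -11140786, 9424307, 0, 0, 200000, 850000, 900000⟩ ⟨0,
 .pol, .pol, .pol, .pol, .aff 1000000 0 0, .pol, .inf 2366432 422578, .inf 2366432 422578, .pol⟩

def hL120_40_3_17 : pcchk ⟨(nat_lit 1), (nat_lit 1000), Int.ofNat (nat_lit 210), 0, ⟨0, 1⟩, ⟨Int.ofNat
 (nat_lit 40), 200⟩⟩ ⟨600000, 650000, 790411, 774755, 806384, 612032, 632797, 591949, 632455, 591607⟩ false
 (nat_lit 850) (Int.negSucc (nat_lit 2258)) (nat_lit 900) (Int.negSucc (nat_lit 29999)) qL120_40_3_17 = true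
 := by decide +kernel

def qL120_40_3_18 : PCt := .one ⟨2008000, 251, 421680, 0, -602400, 0, 0, 200000, 900000, 950000⟩ ⟨0, .pol,
 .pol, .pol, .pol, .aff 1000000 0 0, .pol, .inf 2433106 410998, .inf 2433106 410998, .pol⟩

def hL120_40_3_18 : pcchk ⟨(nat_lit 1), (nat_lit 1000), Int.ofNat (nat_lit 210), 0, ⟨0, 1⟩, ⟨Int.ofNat
 (nat_lit 40), 200⟩⟩ ⟨600000, 650000, 790411, 774755, 806384, 612032, 632797, 591949, 632455, 591607⟩ false
 (nat_lit 900) (Int.negSucc (nat_lit 29999)) (nat_lit 950) (Int.negSucc (nat_lit 29999)) qL120_40_3_18 =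
 true := by decide +kernel

def qL120_40_3_19 : PCt := .one ⟨2008000, 251, 421680, 0, -602400, 0, 0, 200000, 950000, 1000000⟩ ⟨0, .pol,
 .pol, .pol, .pol, .aff 1000000 0 0, .pol, .aff 35000000 86683332 13335898, .inf 3122499 320257, .pol⟩

def hL120_40_3_19 : pcchk ⟨(nat_lit 1), (nat_lit 1000), Int.ofNat (nat_lit 210), 0, ⟨0, 1⟩, ⟨Int.ofNat
 (nat_lit 40), 200⟩⟩ ⟨600000, 650000, 790411, 774755, 806384, 612032, 632797, 591949, 632455, 591607⟩ false
 (nat_lit 950) (Int.negSucc (nat_lit 29999)) (nat_lit 1000) (Int.negSucc (nat_lit 29999)) qL120_40_3_19 =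
 true := by decide +kernel

def qL120_40_4_0 : PCt := .one ⟨2008000, 251, 502000, 497180, 0, 0, 0, 200000, 0, 50000⟩ ⟨50000, .pol, .pol,
 .pol, .pol, .aff 13000 409506 2378889, .pol, .pol, .pol, .pol⟩

def hL120_40_4_0 : pcchk ⟨(nat_lit 1), (nat_lit 1000), Int.ofNat (nat_lit 250), 0, ⟨0, 1⟩, ⟨Int.ofNat
 (nat_lit 40), 200⟩⟩ ⟨600000, 650000, 790411, 774755, 806384, 612032, 632797, 591949, 632455, 591607⟩ true 0
 0 (nat_lit 50) (Int.ofNat (nat_lit 1238)) qL120_40_4_0 = true := by decide +kernel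

def qL120_40_4_1 : PCt := .one ⟨2008000, 251, 502000, 211241, 14296, 0, 0, 200000, 50000, 100000⟩ ⟨0, .pol,
 .pol, .pol, .pol, .sy 75000 (.sx 100000 (.aff 0 1118034 894428) (.sy 62500 (.sx 150000 .pol (.aff 225000
 455971 1317244)) (.sx 150000 (.aff 125000 648918 1179849) (.aff 257000 483280 1142297)))) (.sy 87500 (.sx
 100000 (.aff 0 1274755 784465) (.sx 150000 (.aff 200000 614965 1040710) (.aff 275000 512653 1025304))) (.sx
 100000 (.aff 0 1118034 894428) (.sx 150000 (.aff 225000 638437 940775) (.aff 1000000 0 0)))), .pol, .pol,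
 .sy 75000 (.sy 62500 (.sy 56250 .pol (.sy 59375 (.sy 57812 .pol (.sx 100000 (.sx 50000 .pol .pol) .pol))
 (.sy 60937 (.sx 100000 (.sx 50000 .pol .pol) .pol) (.sx 100000 (.sx 50000 .pol .pol) .pol)))) (.sy 68750
 (.sy 65625 (.sy 64062 (.sx 100000 (.sx 50000 .pol .pol) .pol) (.sx 100000 (.sx 50000 .pol .pol) .pol)) (.sy
 67187 (.sx 100000 (.sx 50000 .pol .pol) .pol) (.sx 100000 (.sx 50000 .pol .pol) .pol))) (.sy 71875 (.sy
 70312 (.sx 100000 (.sx 50000 .pol .pol) .pol) (.sx 100000 (.sx 50000 .pol .pol) .pol)) (.sy 73437 (.sx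
 100000 (.sx 50000 .pol .pol) .pol) (.sx 100000 (.sx 50000 .pol .pol) .pol))))) (.sy 87500 (.sy 81250 (.sy
 78125 (.sy 76562 (.sx 100000 (.sx 50000 .pol .pol) .pol) (.sx 100000 (.sx 50000 .pol .pol) .pol)) (.sy
 79687 (.sx 100000 (.sx 50000 .pol .pol) .pol) (.sx 100000 (.sx 50000 .pol .pol) .pol))) (.sy 84375 (.sy
 82812 (.sx 100000 (.sx 50000 .pol .pol) .pol) (.sx 100000 (.sx 50000 .pol .pol) .pol)) (.sy 85937 (.sx
 100000 (.sx 50000 .pol .pol) .pol) (.sx 100000 (.sx 50000 .pol .pol) .pol)))) (.sy 93750 (.sy 90625 (.sy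
 89062 (.sx 100000 (.sx 50000 .pol .pol) .pol) (.sx 100000 (.sx 50000 .pol .pol) .pol)) (.sy 92187 (.sx
 100000 (.sx 50000 .pol .pol) .pol) (.sx 100000 (.sx 50000 .pol .pol) .pol))) (.sy 96875 (.sy 95312 (.sx
 100000 (.sx 50000 .pol .pol) .pol) (.sx 100000 (.sx 50000 .pol .pol) .pol)) (.sy 98437 (.sx 100000 (.sx
 50000 .pol .pol) .pol) (.sx 100000 (.sx 50000 .pol .pol) .pol))))), .pol⟩

def hL120_40_4_1 : pcchk ⟨(nat_lit 1), (nat_lit 1000), Int.ofNat (nat_lit 250), 0, ⟨0, 1⟩, ⟨Int.ofNat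
 (nat_lit 40), 200⟩⟩ ⟨600000, 650000, 790411, 774755, 806384, 612032, 632797, 591949, 632455, 591607⟩ false
 (nat_lit 50) (Int.ofNat (nat_lit 1238)) (nat_lit 100) (Int.ofNat (nat_lit 1764)) qL120_40_4_1 = true := by
 decide +kernel

def qL120_40_4_2 : PCt := .one ⟨2008000, 251, 502000, 130921, 22328, 0, 0, 200000, 100000, 150000⟩ ⟨0, .pol,
 .pol, .pol, .pol, .sy 125000 (.sx 100000 (.aff 200000 979796 653198) (.sy 112500 (.sx 150000 (.aff 275000
 702688 748021) (.aff 1000000 0 0)) (.sx 150000 (.aff 300000 737388 664508) (.aff 1000000 0 0)))) (.sy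
 137500 (.sx 100000 (.sy 131250 (.sx 50000 (.aff 0 2263847 441726) (.aff 250000 848943 662589)) (.sx 50000
 (.aff 0 2318405 431332) (.sx 75000 (.aff 250000 1099716 511496) (.aff 275000 840422 625430)))) (.aff 375000
 707790 551894)) (.sx 100000 (.sx 50000 (.aff 0 2397916 417029) (.aff 288000 897426 564887)) (.aff 1000000 0
 0))), .pol, .pol, .sx 100000 .pol .pol, .pol⟩

def hL120_40_4_2 : pcchk ⟨(nat_lit 1), (nat_lit 1000), Int.ofNat (nat_lit 250), 0, ⟨0, 1⟩, ⟨Int.ofNat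
 (nat_lit 40), 200⟩⟩ ⟨600000, 650000, 790411, 774755, 806384, 612032, 632797, 591949, 632455, 591607⟩ false
 (nat_lit 100) (Int.ofNat (nat_lit 1764)) (nat_lit 150) (Int.ofNat (nat_lit 2090)) qL120_40_4_2 = true := by
 decide +kernel

def qL120_40_4_3 : PCt := .one ⟨2008000, 251, 502000, 77107, 30401, 0, 0, 200000, 150000, 200000⟩ ⟨0, .pol,
 .pol, .pol, .pol, .sy 175000 (.sy 162500 (.sx 100000 (.sx 50000 (.aff 0 2041242 489898) (.sx 75000 (.aff
 300000 1010363 484975) (.aff 375000 835192 467707))) (.aff 1000000 0 0)) (.sx 100000 (.sx 50000 (.aff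
 250000 1590991 353554) (.sx 75000 (.aff 350000 1015970 415859) (.aff 1000000 0 0))) (.aff 1000000 0 0)))
 (.sx 100000 (.sy 187500 (.sy 181250 (.sx 50000 (.aff 250000 1634588 344124) (.sx 75000 (.aff 375000 1055122
 370218) (.aff 1000000 0 0))) (.sx 50000 (.aff 250000 1440215 390567) (.aff 400000 1039684 346260))) (.sx
 50000 (.aff 375000 1420644 274964) (.aff 388000 1008554 371368))) (.aff 1000000 0 0)), .pol, .pol, .sx
 100000 .pol .pol, .pol⟩

def hL120_40_4_3 : pcchk ⟨(nat_lit 1), (nat_lit 1000), Int.ofNat (nat_lit 250), 0, ⟨0, 1⟩, ⟨Int.ofNat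
 (nat_lit 40), 200⟩⟩ ⟨600000, 650000, 790411, 774755, 806384, 612032, 632797, 591949, 632455, 591607⟩ false
 (nat_lit 150) (Int.ofNat (nat_lit 2090)) (nat_lit 200) (Int.ofNat (nat_lit 2282)) qL120_40_4_3 = true := by
 decide +kernel

def qL120_40_4_4 : PCt := .one ⟨2008000, 251, 502000, 17670, 42288, 0, 0, 200000, 200000, 250000⟩ ⟨0, .pol,
 .pol, .pol, .pol, .sy 225000 (.sy 212500 (.sx 100000 (.sx 50000 (.aff 400000 1218606 295420) (.aff 1000000
 0 0)) (.aff 1000000 0 0)) (.sy 218750 (.sx 100000 (.sx 50000 (.aff 419000 1237081 272869) (.aff 1000000 0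
 0)) (.aff 1000000 0 0)) (.sx 100000 (.sx 50000 (.aff 450000 1280447 236246) (.aff 1000000 0 0)) (.aff
 1000000 0 0)))) (.sy 237500 (.sy 231250 (.sx 100000 (.sx 50000 (.aff 475000 1294882 212858) (.aff 1000000 0
 0)) (.aff 1000000 0 0)) (.sx 100000 (.sx 50000 (.aff 475000 1312500 210000) (.aff 1000000 0 0)) (.aff
 1000000 0 0))) (.sx 100000 (.sx 50000 (.aff 525000 1338381 168581) (.aff 1000000 0 0)) (.aff 1000000 0
 0))), .pol, .pol, .pol, .pol⟩

def hL120_40_4_4 : pcchk ⟨(nat_lit 1), (nat_lit 1000), Int.ofNat (nat_lit 250), 0, ⟨0, 1⟩, ⟨Int.ofNat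
 (nat_lit 40), 200⟩⟩ ⟨600000, 650000, 790411, 774755, 806384, 612032, 632797, 591949, 632455, 591607⟩ false
 (nat_lit 200) (Int.ofNat (nat_lit 2282)) (nat_lit 250) (Int.ofNat (nat_lit 2326)) qL120_40_4_4 = true := by
 decide +kernel

def qL120_40_4_5 : PCt := .one ⟨2008000, 251, 502000, -39759, 56645, 0, 0, 200000, 250000, 300000⟩ ⟨0, .pol,
 .pol, .pol, .pol, .sy 275000 (.sy 262500 (.sy 256250 (.sy 253125 (.sx 100000 (.sx 50000 (.aff 500000
 1361420 183632) (.aff 1000000 0 0)) (.aff 1000000 0 0)) (.sy 254687 (.sx 100000 (.sx 50000 (.aff 513000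
 1332185 178031) (.aff 1000000 0 0)) (.aff 1000000 0 0)) (.sx 100000 (.sx 50000 (.aff 513000 1336278 177485)
 (.aff 1000000 0 0)) (.aff 1000000 0 0)))) (.sy 259375 (.sx 100000 (.sy 257812 (.sx 50000 (.aff 525000
 1374359 164168) (.aff 1000000 0 0)) (.sx 50000 (.sx 25000 (.aff 500000 1856856 134637) (.aff 1000000 0 0))
 (.aff 1000000 0 0))) (.aff 1000000 0 0)) (.sy 260937 (.sx 100000 (.sx 50000 (.sx 25000 (.aff 500000 1862458
 134232) (.aff 1000000 0 0)) (.aff 1000000 0 0)) (.aff 1000000 0 0)) (.sx 100000 (.sy 261718 (.sy 261327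
 (.sx 50000 (.sx 25000 (.aff 500000 1865948 133981) (.aff 1000000 0 0)) (.aff 1000000 0 0)) (.sy 261522 (.sx
 50000 (.sx 25000 (.aff 500000 1866993 133906) (.aff 1000000 0 0)) (.aff 1000000 0 0)) (.sy 261620 (.sy
 261571 (.sx 50000 (.sx 25000 (.aff 500000 1867428 133874) (.aff 1000000 0 0)) (.aff 1000000 0 0)) (.sy
 261595 (.sx 50000 (.sx 25000 (.aff 500000 1867559 133865) (.aff 1000000 0 0)) (.aff 1000000 0 0)) (.sy
 261607 (.sx 50000 (.sx 25000 (.aff 500000 1867623 133860) (.aff 1000000 0 0)) (.aff 1000000 0 0)) (.sy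
 261613 (.sx 50000 (.sx 25000 (.aff 500000 1867655 133858) (.aff 1000000 0 0)) (.aff 1000000 0 0)) (.sy
 261616 (.sx 50000 (.sx 25000 (.aff 500000 1867671 133857) (.aff 1000000 0 0)) (.aff 1000000 0 0)) (.sx
 50000 (.sx 25000 (.aff 500000 1867684 133856) (.aff 1000000 0 0)) (.aff 1000000 0 0))))))) (.sy 261669 (.sy
 261644 (.sy 261632 (.sy 261626 (.sy 261623 (.sy 261621 (.sx 50000 (.sx 25000 (.aff 500000 1867692 133856)
 (.aff 1000000 0 0)) (.aff 1000000 0 0)) (.sx 50000 (.sx 25000 (.aff 500000 1867698 133855) (.aff 1000000 0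
 0)) (.aff 1000000 0 0))) (.sx 50000 (.sx 25000 (.aff 500000 1867707 133854) (.aff 1000000 0 0)) (.aff
 1000000 0 0))) (.sx 50000 (.sx 25000 (.aff 500000 1867723 133853) (.aff 1000000 0 0)) (.aff 1000000 0 0)))
 (.sx 50000 (.sx 25000 (.aff 500000 1867755 133851) (.aff 1000000 0 0)) (.aff 1000000 0 0))) (.sx 50000 (.sx
 25000 (.aff 500000 1867821 133846) (.aff 1000000 0 0)) (.aff 1000000 0 0))) (.sx 50000 (.sx 25000 (.aff
 500000 1867953 133837) (.aff 1000000 0 0)) (.aff 1000000 0 0)))))) (.sx 50000 (.sx 25000 (.aff 500000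
 1869435 133731) (.aff 1000000 0 0)) (.aff 1000000 0 0))) (.aff 1000000 0 0))))) (.sy 268750 (.sy 265625
 (.sx 100000 (.sy 264062 (.sy 263281 (.sx 50000 (.sx 25000 (.aff 500000 1872220 133532) (.aff 1000000 0 0))
 (.aff 1000000 0 0)) (.sx 50000 (.sx 25000 (.aff 500000 1874999 133334) (.aff 1000000 0 0)) (.aff 1000000 0
 0))) (.sy 264843 (.sx 50000 (.sx 25000 (.aff 500000 1626200 153733) (.aff 1000000 0 0)) (.aff 1000000 0 0))
 (.sy 265234 (.sx 50000 (.sx 25000 (.aff 500000 1628001 153563) (.aff 1000000 0 0)) (.aff 1000000 0 0)) (.sx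
 50000 (.sx 25000 (.aff 500000 1629201 153450) (.aff 1000000 0 0)) (.aff 1000000 0 0))))) (.aff 1000000 0
 0)) (.sx 100000 (.sx 50000 (.sx 25000 (.aff 550000 1471129 137650) (.aff 1000000 0 0)) (.aff 1000000 0 0))
 (.aff 1000000 0 0))) (.sy 271875 (.sx 100000 (.sy 270312 (.sx 50000 (.sx 25000 (.aff 575000 1611361 112095)
 (.aff 1000000 0 0)) (.aff 1000000 0 0)) (.sy 271093 (.sy 270702 (.sx 50000 (.sx 25000 (.aff 625000 1424361
 98729) (.aff 1000000 0 0)) (.aff 1000000 0 0)) (.sy 270897 (.sy 270799 (.sx 50000 (.sx 25000 (.aff 625000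
 1425002 98685) (.aff 1000000 0 0)) (.aff 1000000 0 0)) (.sy 270848 (.sy 270823 (.sy 270811 (.sx 50000 (.sx
 25000 (.aff 625000 1425145 98675) (.aff 1000000 0 0)) (.aff 1000000 0 0)) (.sx 50000 (.sx 25000 (.aff
 625000 1425177 98672) (.aff 1000000 0 0)) (.aff 1000000 0 0))) (.sx 50000 (.sx 25000 (.aff 625000 1425225
 98669) (.aff 1000000 0 0)) (.aff 1000000 0 0))) (.sx 50000 (.sx 25000 (.aff 625000 1425323 98662) (.aff
 1000000 0 0)) (.aff 1000000 0 0)))) (.sx 50000 (.sx 25000 (.aff 625000 1425645 98640) (.aff 1000000 0 0))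
 (.aff 1000000 0 0)))) (.sx 50000 (.sx 25000 (.aff 625000 1426931 98551) (.aff 1000000 0 0)) (.aff 1000000 0
 0)))) (.aff 1000000 0 0)) (.sx 100000 (.sx 50000 (.aff 625000 1514779 92836) (.aff 1000000 0 0)) (.aff
 1000000 0 0))))) (.sy 287500 (.sy 281250 (.sy 278125 (.sx 100000 (.sx 50000 (.aff 625000 1523411 92310)
 (.aff 1000000 0 0)) (.aff 1000000 0 0)) (.sy 279687 (.sx 100000 (.sx 50000 (.aff 625000 1455240 96634)
 (.aff 1000000 0 0)) (.aff 1000000 0 0)) (.sx 100000 (.sx 50000 (.aff 650000 1431855 85554) (.aff 1000000 0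
 0)) (.aff 1000000 0 0)))) (.sy 284375 (.sx 100000 (.sx 50000 (.aff 650000 1437826 85199) (.aff 1000000 0
 0)) (.aff 1000000 0 0)) (.sy 285937 (.sx 100000 (.sx 50000 (.aff 625000 1471455 95569) (.aff 1000000 0 0))
 (.aff 1000000 0 0)) (.sx 100000 (.sx 50000 (.aff 625000 1475480 95308) (.aff 1000000 0 0)) (.aff 1000000 0
 0))))) (.sx 100000 (.aff 638000 1406094 93198) (.aff 1000000 0 0))), .pol, .pol, .pol, .pol⟩

def hL120_40_4_5 : pcchk ⟨(nat_lit 1), (nat_lit 1000), Int.ofNat (nat_lit 250), 0, ⟨0, 1⟩, ⟨Int.ofNat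
 (nat_lit 40), 200⟩⟩ ⟨600000, 650000, 790411, 774755, 806384, 612032, 632797, 591949, 632455, 591607⟩ false
 (nat_lit 250) (Int.ofNat (nat_lit 2326)) (nat_lit 300) (Int.ofNat (nat_lit 2227)) qL120_40_4_5 = true := by
 decide +kernel

def qL120_40_4_6 : PCt := .one ⟨2008000, 251, 502000, -112448, 78452, 0, 0, 200000, 300000, 350000⟩ ⟨0,
 .pol, .pol, .pol, .pol, .sy 325000 (.sy 312500 (.sy 306250 (.sy 303125 (.sx 100000 (.sx 50000 (.aff 750000
 1499798 41673) (.aff 1000000 0 0)) (.aff 1000000 0 0)) (.sy 304687 (.sy 303906 (.sx 100000 (.sx 50000 (.aff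
 750000 1504647 41538) (.aff 1000000 0 0)) (.aff 1000000 0 0)) (.sx 100000 (.sx 50000 (.aff 750000 1506581
 41485) (.aff 1000000 0 0)) (.aff 1000000 0 0))) (.sx 100000 (.sx 50000 (.aff 750000 1509480 41405) (.aff
 1000000 0 0)) (.aff 1000000 0 0)))) (.sx 100000 (.sx 50000 (.aff 750000 1519101 41143) (.aff 1000000 0 0))
 (.aff 1000000 0 0))) (.sx 100000 (.sx 50000 (.aff 750000 1541946 40534) (.aff 1000000 0 0)) (.aff 1000000 0
 0))) (.sx 100000 (.aff 778000 1592042 30957) (.aff 1000000 0 0)), .pol, .pol, .pol, .pol⟩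

def hL120_40_4_6 : pcchk ⟨(nat_lit 1), (nat_lit 1000), Int.ofNat (nat_lit 250), 0, ⟨0, 1⟩, ⟨Int.ofNat
 (nat_lit 40), 200⟩⟩ ⟨600000, 650000, 790411, 774755, 806384, 612032, 632797, 591949, 632455, 591607⟩ false
 (nat_lit 300) (Int.ofNat (nat_lit 2227)) (nat_lit 350) (Int.ofNat (nat_lit 1947)) qL120_40_4_6 = true := by
 decide +kernel

def qL120_40_4_7 : PCt := .one ⟨2008000, 251, 502000, -161042, 95460, 0, 0, 200000, 350000, 400000⟩ ⟨0,
 .pol, .pol, .pol, .pol, .sx 100000 (.sx 50000 (.sx 25000 (.aff 900000 1645450 6078) (.aff 1000000 0 0))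
 (.aff 1000000 0 0)) (.aff 1000000 0 0), .pol, .pol, .pol, .pol⟩

def hL120_40_4_7 : pcchk ⟨(nat_lit 1), (nat_lit 1000), Int.ofNat (nat_lit 250), 0, ⟨0, 1⟩, ⟨Int.ofNat
 (nat_lit 40), 200⟩⟩ ⟨600000, 650000, 790411, 774755, 806384, 612032, 632797, 591949, 632455, 591607⟩ false
 (nat_lit 350) (Int.ofNat (nat_lit 1947)) (nat_lit 400) (Int.ofNat (nat_lit 1546)) qL120_40_4_7 = true := by
 decide +kernel

def qL120_40_4_8 : PCt := .one ⟨2008000, 251, 502000, -233732, 124536, 0, 0, 200000, 400000, 450000⟩ ⟨0,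
 .pol, .pol, .pol, .pol, .sx 100000 (.sx 50000 (.sx 25000 (.sx 12500 (.aff 1100000 1835229 5449) (.aff
 1000000 0 0)) (.aff 1000000 0 0)) (.aff 1000000 0 0)) (.aff 1000000 0 0), .pol, .pol, .pol, .pol⟩

def hL120_40_4_8 : pcchk ⟨(nat_lit 1), (nat_lit 1000), Int.ofNat (nat_lit 250), 0, ⟨0, 1⟩, ⟨Int.ofNat
 (nat_lit 40), 200⟩⟩ ⟨600000, 650000, 790411, 774755, 806384, 612032, 632797, 591949, 632455, 591607⟩ false
 (nat_lit 400) (Int.ofNat (nat_lit 1546)) (nat_lit 450) (Int.ofNat (nat_lit 964)) qL120_40_4_8 = true := by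
 decide +kernel

def qL120_40_4_9 : PCt := .one ⟨2008000, 251, 502000, -297184, 153089, 0, 0, 200000, 450000, 500000⟩ ⟨0,
 .pol, .pol, .pol, .pol, .sx 100000 (.sy 475000 (.sx 50000 (.aff 1250000 2268604 27550) (.aff 1000000 0 0))
 (.sx 50000 (.aff 1300000 2317081 38842) (.aff 1000000 0 0))) (.aff 1000000 0 0), .pol, .pol, .pol, .pol⟩

def hL120_40_4_9 : pcchk ⟨(nat_lit 1), (nat_lit 1000), Int.ofNat (nat_lit 250), 0, ⟨0, 1⟩, ⟨Int.ofNat
 (nat_lit 40), 200⟩⟩ ⟨600000, 650000, 790411, 774755, 806384, 612032, 632797, 591949, 632455, 591607⟩ false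
 (nat_lit 450) (Int.ofNat (nat_lit 964)) (nat_lit 500) (Int.ofNat (nat_lit 224)) qL120_40_4_9 = true := by
 decide +kernel

def qL120_40_4_10 : PCt := .one ⟨2008000, 251, 502000, -379914, 194454, 0, 0, 200000, 500000, 550000⟩ ⟨0,
 .pol, .pol, .pol, .pol, .sx 100000 (.sx 50000 (.sx 25000 (.aff 1482000 2582586 89958) (.aff 1000000 0 0))
 (.aff 1000000 0 0)) (.aff 1000000 0 0), .pol, .pol, .pol, .pol⟩

def hL120_40_4_10 : pcchk ⟨(nat_lit 1), (nat_lit 1000), Int.ofNat (nat_lit 250), 0, ⟨0, 1⟩, ⟨Int.ofNat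
 (nat_lit 40), 200⟩⟩ ⟨600000, 650000, 790411, 774755, 806384, 612032, 632797, 591949, 632455, 591607⟩ false
 (nat_lit 500) (Int.ofNat (nat_lit 224)) (nat_lit 550) (Int.negSucc (nat_lit 721)) qL120_40_4_10 = true :=
 by decide +kernel

def qL120_40_4_11 : PCt := .one ⟨2008000, 251, 502000, -453808, 235096, 0, 0, 200000, 550000, 600000⟩ ⟨0,
 .pol, .pol, .pol, .pol, .sx 100000 (.sy 575000 (.sy 562500 (.sx 50000 (.aff 1563000 2655666 119356) (.aff
 1000000 0 0)) (.sx 50000 (.sx 25000 (.aff 2000000 5507571 181569) (.aff 1600000 2559688 140643)) (.aff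
 1000000 0 0))) (.sy 587500 (.sx 50000 (.sx 25000 (.aff 2000000 5567765 179606) (.aff 1600000 2587664
 139122)) (.aff 1000000 0 0)) (.sx 50000 (.sx 25000 (.aff 2000000 5627315 177705) (.aff 1600000 2615340
 137650)) (.aff 1000000 0 0)))) (.aff 1000000 0 0), .pol, .pol, .pol, .pol⟩

def hL120_40_4_11 : pcchk ⟨(nat_lit 1), (nat_lit 1000), Int.ofNat (nat_lit 250), 0, ⟨0, 1⟩, ⟨Int.ofNat
 (nat_lit 40), 200⟩⟩ ⟨600000, 650000, 790411, 774755, 806384, 612032, 632797, 591949, 632455, 591607⟩ false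
 (nat_lit 550) (Int.negSucc (nat_lit 721)) (nat_lit 600) (Int.negSucc (nat_lit 1851)) qL120_40_4_11 = true
 := by decide +kernel

def qL120_40_4_12 : PCt := .one ⟨2008000, 251, 502000, -551397, 293649, 0, 0, 200000, 600000, 650000⟩ ⟨0,
 .pol, .pol, .pol, .pol, .sy 625000 (.sy 612500 (.sx 100000 (.sx 50000 (.aff 1900000 3133888 258465) (.aff
 1500000 1421561 175864)) (.aff 1000000 0 0)) (.sx 100000 (.sx 50000 (.aff 1900000 3166031 255841) (.aff
 1400000 1537222 104084)) (.aff 1000000 0 0))) (.sx 100000 (.sx 50000 (.aff 2000000 3570715 280056) (.aff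
 1875000 2890709 264858)) (.aff 1000000 0 0)), .pol, .pol, .pol, .pol⟩

def hL120_40_4_12 : pcchk ⟨(nat_lit 1), (nat_lit 1000), Int.ofNat (nat_lit 250), 0, ⟨0, 1⟩, ⟨Int.ofNat
 (nat_lit 40), 200⟩⟩ ⟨600000, 650000, 790411, 774755, 806384, 612032, 632797, 591949, 632455, 591607⟩ false
 (nat_lit 600) (Int.negSucc (nat_lit 1851)) (nat_lit 650) (Int.negSucc (nat_lit 3224)) qL120_40_4_12 = true
 := by decide +kernel

def qL120_40_4_13 : PCt := .one ⟨2008000, 251, 502000, -86746, -8374, 0, 0, 200000, 650000, 700000⟩ ⟨0,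
 .pol, .pol, .pol, .pol, .sy 675000 (.sy 662500 (.sy 656250 (.sx 100000 (.sx 50000 (.aff 2000000 4173329
 239617) (.aff 2075000 3172313 364285)) (.aff 1000000 0 0)) (.sx 100000 (.aff 2100000 3261582 370986) (.aff
 1000000 0 0))) (.aff 2350000 3491128 522038)) (.aff 1500000 1854050 134840), .pol, .sx 100000 (.aff 2451000
 3865242 544701) (.aff 1500000 1161896 215166), .pol, .pol⟩

def hL120_40_4_13 : pcchk ⟨(nat_lit 1), (nat_lit 1000), Int.ofNat (nat_lit 250), 0, ⟨0, 1⟩, ⟨Int.ofNat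
 (nat_lit 40), 200⟩⟩ ⟨600000, 650000, 790411, 774755, 806384, 612032, 632797, 591949, 632455, 591607⟩ false
 (nat_lit 650) (Int.negSucc (nat_lit 3224)) (nat_lit 700) (Int.negSucc (nat_lit 3440)) qL120_40_4_13 = true
 := by decide +kernel

def qL120_40_4_14 : PCt := .one ⟨2008000, 251, 502000, 79516, -124758, 0, 0, 200000, 700000, 750000⟩ ⟨0,
 .pol, .pol, .pol, .pol, .aff 1500000 1346292 185696, .pol, .sx 100000 (.aff 2400000 3769616 519947) (.sx
 150000 (.aff 2300000 3300169 512095) (.aff 1000000 0 0)), .pol, .pol⟩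

def hL120_40_4_14 : pcchk ⟨(nat_lit 1), (nat_lit 1000), Int.ofNat (nat_lit 250), 0, ⟨0, 1⟩, ⟨Int.ofNat
 (nat_lit 40), 200⟩⟩ ⟨600000, 650000, 790411, 774755, 806384, 612032, 632797, 591949, 632455, 591607⟩ false
 (nat_lit 700) (Int.negSucc (nat_lit 3440)) (nat_lit 750) (Int.negSucc (nat_lit 3242)) qL120_40_4_14 = true
 := by decide +kernel

def qL120_40_4_15 : PCt := .one ⟨2008000, 251, 502000, 27308, -85602, 0, 0, 200000, 750000, 800000⟩ ⟨0,
 .pol, .pol, .pol, .pol, .aff 1000000 0 0, .pol, .sx 100000 (.aff 3000000 6429101 622171) (.sx 150000 (.aff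
 2650000 3750500 725904) (.aff 2600000 3506246 730126)), .pol, .pol⟩

def hL120_40_4_15 : pcchk ⟨(nat_lit 1), (nat_lit 1000), Int.ofNat (nat_lit 250), 0, ⟨0, 1⟩, ⟨Int.ofNat
 (nat_lit 40), 200⟩⟩ ⟨600000, 650000, 790411, 774755, 806384, 612032, 632797, 591949, 632455, 591607⟩ false
 (nat_lit 750) (Int.negSucc (nat_lit 3242)) (nat_lit 800) (Int.negSucc (nat_lit 3174)) qL120_40_4_15 = true
 := by decide +kernel

def qL120_40_4_16 : PCt := .one ⟨2008000, 251, 502000, -7229, -57971, 0, 0, 200000, 800000, 850000⟩ ⟨0,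
 .pol, .pol, .pol, .pol, .aff 1000000 0 0, .pol, .sx 100000 (.aff 3000000 6633250 603023) (.sx 150000 (.aff
 3000000 5138094 778499) (.sx 175000 (.aff 3000000 4422167 904534) (.aff 2900000 3858919 935496))), .pol,
 .pol⟩

def hL120_40_4_16 : pcchk ⟨(nat_lit 1), (nat_lit 1000), Int.ofNat (nat_lit 250), 0, ⟨0, 1⟩, ⟨Int.ofNat
 (nat_lit 40), 200⟩⟩ ⟨600000, 650000, 790411, 774755, 806384, 612032, 632797, 591949, 632455, 591607⟩ false
 (nat_lit 800) (Int.negSucc (nat_lit 3174)) (nat_lit 850) (Int.negSucc (nat_lit 3192)) qL120_40_4_16 = true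
 := by decide +kernel

def qL120_40_4_17 : PCt := .one ⟨2008000, 251, 502000, -10765692, 9086722, 0, 0, 200000, 850000, 900000⟩ ⟨0,
 .pol, .pol, .pol, .pol, .aff 1000000 0 0, .pol, .aff 37100000 75508568 17259101, .inf 2366432 422578, .pol⟩

def hL120_40_4_17 : pcchk ⟨(nat_lit 1), (nat_lit 1000), Int.ofNat (nat_lit 250), 0, ⟨0, 1⟩, ⟨Int.ofNat
 (nat_lit 40), 200⟩⟩ ⟨600000, 650000, 790411, 774755, 806384, 612032, 632797, 591949, 632455, 591607⟩ false
 (nat_lit 850) (Int.negSucc (nat_lit 3192)) (nat_lit 900) (Int.negSucc (nat_lit 29999)) qL120_40_4_17 = true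
 := by decide +kernel

def qL120_40_4_18 : PCt := .one ⟨2008000, 251, 502000, 0, -602400, 0, 0, 200000, 900000, 950000⟩ ⟨0, .pol,
 .pol, .pol, .pol, .aff 1000000 0 0, .pol, .aff 37100000 77635986 16786159, .inf 2433106 410998, .pol⟩

def hL120_40_4_18 : pcchk ⟨(nat_lit 1), (nat_lit 1000), Int.ofNat (nat_lit 250), 0, ⟨0, 1⟩, ⟨Int.ofNat
 (nat_lit 40), 200⟩⟩ ⟨600000, 650000, 790411, 774755, 806384, 612032, 632797, 591949, 632455, 591607⟩ false
 (nat_lit 900) (Int.negSucc (nat_lit 29999)) (nat_lit 950) (Int.negSucc (nat_lit 29999)) qL120_40_4_18 =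
 true := by decide +kernel

def qL120_40_4_19 : PCt := .one ⟨2008000, 251, 502000, 0, -602400, 0, 0, 200000, 950000, 1000000⟩ ⟨0, .pol,
 .pol, .pol, .pol, .aff 1000000 0 0, .pol, .aff 35000000 86683332 13335898, .inf 3122499 320257, .pol⟩

def hL120_40_4_19 : pcchk ⟨(nat_lit 1), (nat_lit 1000), Int.ofNat (nat_lit 250), 0, ⟨0, 1⟩, ⟨Int.ofNat
 (nat_lit 40), 200⟩⟩ ⟨600000, 650000, 790411, 774755, 806384, 612032, 632797, 591949, 632455, 591607⟩ false
 (nat_lit 950) (Int.negSucc (nat_lit 29999)) (nat_lit 1000) (Int.negSucc (nat_lit 29999)) qL120_40_4_19 =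
 true := by decide +kernel

def qL120_40_5_0 : PCt := .one ⟨2008000, 251, 803200, 128913, 0, 0, 0, 200000, 0, 50000⟩ ⟨25000, .aff
 2000000 500000, .pol, .pol, .pol, .aff 0 1098779 910102, .aff 0 2216390 451185, .pol, .pol, .pol⟩

def hL120_40_5_0 : pcchk ⟨(nat_lit 1), (nat_lit 1000), Int.ofNat (nat_lit 400), 0, ⟨0, 1⟩, ⟨Int.ofNat
 (nat_lit 40), 200⟩⟩ ⟨600000, 650000, 790411, 774755, 806384, 612032, 632797, 591949, 632455, 591607⟩ true 0
 0 (nat_lit 50) (Int.ofNat (nat_lit 321)) qL120_40_5_0 = true := by decide +kernel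

def qL120_40_5_1 : PCt := .one ⟨2008000, 251, 803200, 162246, -1667, 0, 0, 200000, 50000, 100000⟩ ⟨0, .pol,
 .pol, .pol, .pol, .sy 75000 (.sy 62500 (.sx 100000 (.sx 50000 (.aff 0 2148004 465549) (.aff 0 866026
 1154700)) .pol) (.sx 100000 (.sx 50000 (.aff 0 2122032 471247) (.aff 0 957428 1044465)) .pol)) (.sy 87500
 (.sy 81250 (.sx 100000 (.sx 50000 (.aff 0 2105846 474869) (.aff 0 1020621 979796)) .pol) (.sy 84375 (.sx
 100000 (.sx 50000 (.aff 0 2114571 472910) (.aff 0 1050794 951662)) .pol) (.sx 100000 (.sx 50000 (.aff 0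
 2100914 475984) (.aff 0 1070437 934198)) .pol))) (.sx 100000 (.sy 93750 (.sx 50000 (.aff 0 2104183 475244)
 (.aff 0 1099243 909717)) (.sx 50000 (.aff 0 2108598 474249) (.aff 0 1136516 879883))) .pol)), .pol, .pol,
 .sx 100000 (.sx 50000 .pol .pol) .pol, .pol⟩

def hL120_40_5_1 : pcchk ⟨(nat_lit 1), (nat_lit 1000), Int.ofNat (nat_lit 400), 0, ⟨0, 1⟩, ⟨Int.ofNat
 (nat_lit 40), 200⟩⟩ ⟨600000, 650000, 790411, 774755, 806384, 612032, 632797, 591949, 632455, 591607⟩ false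
 (nat_lit 50) (Int.ofNat (nat_lit 321)) (nat_lit 100) (Int.ofNat (nat_lit 725)) qL120_40_5_1 = true := by
 decide +kernel

def qL120_40_5_2 : PCt := .one ⟨2008000, 251, 803200, 195980, -5041, 0, 0, 200000, 100000, 150000⟩ ⟨0, .pol,
 .pol, .pol, .pol, .sy 125000 (.sx 100000 (.sx 50000 (.aff 0 2108104 474360) (.aff 0 1224745 816497)) (.aff
 0 866026 1154700)) (.sy 137500 (.sx 100000 (.sx 50000 (.aff 0 2073243 482337) (.aff 0 1322876 755929))
 (.aff 0 935415 1069045)) (.sy 143750 (.sx 100000 (.sx 50000 (.aff 0 2061385 485111) (.aff 0 1500000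
 666667)) (.aff 0 968246 1032796)) (.sy 146875 (.sx 100000 (.sx 50000 (.aff 0 2069430 483225) (.aff 0
 1524796 655826)) (.aff 0 984251 1016001)) (.sx 100000 (.sx 50000 (.sx 25000 (.aff 0 2813658 355410) (.aff 0
 2039922 490215)) (.aff 0 1541104 648886)) (.aff 0 994779 1005249))))), .pol, .pol, .sx 100000 .pol .pol,
 .pol⟩

def hL120_40_5_2 : pcchk ⟨(nat_lit 1), (nat_lit 1000), Int.ofNat (nat_lit 400), 0, ⟨0, 1⟩, ⟨Int.ofNat
 (nat_lit 40), 200⟩⟩ ⟨600000, 650000, 790411, 774755, 806384, 612032, 632797, 591949, 632455, 591607⟩ false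
 (nat_lit 100) (Int.ofNat (nat_lit 725)) (nat_lit 150) (Int.ofNat (nat_lit 1213)) qL120_40_5_2 = true := by
 decide +kernel

def qL120_40_5_3 : PCt := .one ⟨2008000, 251, 803200, 231723, -10402, 0, 0, 200000, 150000, 200000⟩ ⟨0,
 .pol, .pol, .pol, .pol, .sy 175000 (.sy 162500 (.sx 100000 (.sy 156250 (.sy 153125 (.sy 151562 (.sy 150781
 (.sy 150390 (.sx 50000 (.sx 25000 (.aff 0 2830266 353324) (.aff 0 2026473 493469)) (.aff 0 1550200 645079))
 (.sx 50000 (.sx 25000 (.aff 0 2833942 352866) (.aff 0 2003900 499027)) (.aff 0 1552214 644242))) (.sx 50000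
 (.sx 25000 (.aff 0 2839451 352181) (.aff 0 2007795 498059)) (.aff 0 1555232 642991))) (.sy 152343 (.sx
 50000 (.sx 25000 (.aff 0 2846776 351275) (.aff 0 2012975 496778)) (.aff 0 1559244 641337)) (.sx 50000 (.sx
 25000 (.aff 0 2854088 350375) (.aff 0 2018145 495505)) (.aff 0 1563248 639694)))) (.sy 154687 (.sx 50000
 (.aff 0 2064217 484446) (.aff 0 1569235 637254)) (.sx 50000 (.aff 0 2061742 485027) (.aff 0 1577180
 634044)))) (.sx 50000 (.aff 0 2061553 485072) (.aff 0 1596872 626225))) (.aff 0 1020621 979796)) (.sx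
 100000 (.sx 50000 (.sy 168750 (.aff 13000 2074267 469645) (.aff 25000 2087351 455422)) (.aff 250000 1125001
 500000)) (.aff 0 1060661 942809))) (.sx 100000 (.sx 50000 (.aff 50000 2124265 424853) (.aff 500000 790570
 316228)) (.aff 0 1118034 894428)), .pol, .pol, .sx 100000 .pol .pol, .pol⟩

def hL120_40_5_3 : pcchk ⟨(nat_lit 1), (nat_lit 1000), Int.ofNat (nat_lit 400), 0, ⟨0, 1⟩, ⟨Int.ofNat
 (nat_lit 40), 200⟩⟩ ⟨600000, 650000, 790411, 774755, 806384, 612032, 632797, 591949, 632455, 591607⟩ false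
 (nat_lit 150) (Int.ofNat (nat_lit 1213)) (nat_lit 200) (Int.ofNat (nat_lit 1790)) qL120_40_5_3 = true := by
 decide +kernel

def qL120_40_5_4 : PCt := .one ⟨2008000, 251, 803200, 86745, 18594, 0, 0, 200000, 200000, 250000⟩ ⟨0, .pol,
 .pol, .pol, .pol, .sy 225000 (.sy 212500 (.sx 100000 (.aff 225000 2226019 269821) (.aff 1000000 0 0)) (.sy
 218750 (.sy 215625 (.sx 100000 (.aff 238000 2229746 260409) (.aff 1000000 0 0)) (.sy 217187 (.sx 100000
 (.aff 241000 2233091 257975) (.aff 1000000 0 0)) (.sy 217968 (.sx 100000 (.sx 50000 (.aff 225000 2286329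
 262703) (.aff 1000000 0 0)) (.aff 1000000 0 0)) (.sy 218359 (.sx 100000 (.sx 50000 (.aff 225000 2289406
 262350) (.aff 1000000 0 0)) (.aff 1000000 0 0)) (.sy 218554 (.sx 100000 (.sx 50000 (.aff 225000 2290943
 262174) (.aff 1000000 0 0)) (.aff 1000000 0 0)) (.sy 218652 (.sx 100000 (.sx 50000 (.aff 225000 2291711
 262086) (.aff 1000000 0 0)) (.aff 1000000 0 0)) (.sy 218701 (.sx 100000 (.sx 50000 (.aff 225000 2292096
 262042) (.aff 1000000 0 0)) (.aff 1000000 0 0)) (.sy 218725 (.sy 218713 (.sy 218707 (.sx 100000 (.sx 50000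
 (.aff 225000 2292240 262026) (.aff 1000000 0 0)) (.aff 1000000 0 0)) (.sy 218710 (.sy 218708 (.sx 100000
 (.sx 50000 (.aff 225000 2292259 262024) (.aff 1000000 0 0)) (.aff 1000000 0 0)) (.sy 218709 (.sx 100000
 (.sx 50000 (.aff 225000 2292264 262023) (.aff 1000000 0 0)) (.aff 1000000 0 0)) (.sx 100000 (.sx 50000
 (.aff 225000 2292269 262023) (.aff 1000000 0 0)) (.aff 1000000 0 0)))) (.sy 218711 (.sx 100000 (.sx 50000
 (.aff 225000 2292274 262022) (.aff 1000000 0 0)) (.aff 1000000 0 0)) (.sx 100000 (.sx 50000 (.aff 225000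
 2292282 262021) (.aff 1000000 0 0)) (.aff 1000000 0 0))))) (.sx 100000 (.sx 50000 (.aff 225000 2292319
 262017) (.aff 1000000 0 0)) (.aff 1000000 0 0))) (.sx 100000 (.sx 50000 (.aff 225000 2292416 262006) (.aff
 1000000 0 0)) (.aff 1000000 0 0)))))))))) (.sy 221875 (.sy 220312 (.sx 100000 (.sx 50000 (.aff 225000
 2296570 261532) (.aff 1000000 0 0)) (.aff 1000000 0 0)) (.sx 100000 (.sx 50000 (.aff 238000 2266069 256235)
 (.aff 1000000 0 0)) (.aff 1000000 0 0))) (.sy 223437 (.sx 100000 (.sx 50000 (.aff 238000 2274062 255334)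
 (.aff 1000000 0 0)) (.aff 1000000 0 0)) (.sy 224218 (.sx 100000 (.sx 50000 (.aff 238000 2280036 254665)
 (.aff 1000000 0 0)) (.aff 1000000 0 0)) (.sx 100000 (.sx 50000 (.aff 238000 2284013 254221) (.aff 1000000 0
 0)) (.aff 1000000 0 0))))))) (.sy 237500 (.sy 231250 (.sy 228125 (.sy 226562 (.sy 225781 (.sx 100000 (.sx
 50000 (.aff 238000 2287983 253780) (.aff 1000000 0 0)) (.aff 1000000 0 0)) (.sy 226171 (.sx 100000 (.sx
 50000 (.aff 238000 2290953 253451) (.aff 1000000 0 0)) (.aff 1000000 0 0)) (.sy 226366 (.sx 100000 (.sx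
 50000 (.aff 241000 2283410 252290) (.aff 1000000 0 0)) (.aff 1000000 0 0)) (.sy 226464 (.sx 100000 (.sx
 50000 (.aff 241000 2284149 252209) (.aff 1000000 0 0)) (.aff 1000000 0 0)) (.sy 226513 (.sy 226488 (.sy
 226476 (.sy 226470 (.sx 100000 (.sx 50000 (.aff 241000 2284411 252180) (.aff 1000000 0 0)) (.aff 1000000 0
 0)) (.sy 226473 (.sx 100000 (.sx 50000 (.aff 241000 2284434 252177) (.aff 1000000 0 0)) (.aff 1000000 0 0))
 (.sx 100000 (.sx 50000 (.aff 241000 2284449 252176) (.aff 1000000 0 0)) (.aff 1000000 0 0)))) (.sy 226482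
 (.sy 226479 (.sy 226477 (.sx 100000 (.sx 50000 (.aff 241000 2284459 252174) (.aff 1000000 0 0)) (.aff
 1000000 0 0)) (.sx 100000 (.sx 50000 (.aff 241000 2284467 252174) (.aff 1000000 0 0)) (.aff 1000000 0 0)))
 (.sx 100000 (.sx 50000 (.aff 241000 2284480 252172) (.aff 1000000 0 0)) (.aff 1000000 0 0))) (.sx 100000
 (.sx 50000 (.aff 241000 2284502 252170) (.aff 1000000 0 0)) (.aff 1000000 0 0)))) (.sx 100000 (.sx 50000
 (.aff 241000 2284580 252161) (.aff 1000000 0 0)) (.aff 1000000 0 0))) (.sx 100000 (.sx 50000 (.aff 241000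
 2284767 252140) (.aff 1000000 0 0)) (.aff 1000000 0 0))))))) (.sx 100000 (.sy 227343 (.sx 50000 (.sx 25000
 (.aff 300000 2435370 201202) (.aff 250000 2021175 278304)) (.aff 1000000 0 0)) (.sy 227734 (.sx 50000 (.sx
 25000 (.aff 300000 2438512 200943) (.aff 250000 2023782 277945)) (.aff 1000000 0 0)) (.sx 50000 (.sx 25000
 (.aff 300000 2440606 200770) (.aff 250000 2025520 277707)) (.aff 1000000 0 0)))) (.aff 1000000 0 0))) (.sy
 229687 (.sy 228906 (.sx 100000 (.sx 50000 (.aff 257000 2303213 239687) (.aff 1000000 0 0)) (.aff 1000000 0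
 0)) (.sx 100000 (.sx 50000 (.sx 25000 (.aff 300000 2447914 200171) (.aff 500000 1354390 184585)) (.aff
 1000000 0 0)) (.aff 1000000 0 0))) (.sy 230468 (.sx 100000 (.sy 230077 (.sy 229882 (.sx 50000 (.sx 25000
 (.aff 300000 2450518 199958) (.aff 500000 1355831 184389)) (.aff 1000000 0 0)) (.sx 50000 (.sx 25000 (.aff
 300000 2451557 199873) (.aff 500000 1356406 184311)) (.aff 1000000 0 0))) (.sx 50000 (.sx 25000 (.aff
 300000 2453119 199746) (.aff 500000 1357270 184194)) (.aff 1000000 0 0))) (.aff 1000000 0 0)) (.sy 230859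
 (.sx 100000 (.sx 50000 (.sx 25000 (.aff 300000 2455200 199577) (.aff 500000 1358422 184038)) (.aff 1000000
 0 0)) (.aff 1000000 0 0)) (.sy 231054 (.sx 100000 (.sx 50000 (.sx 25000 (.aff 300000 2456759 199450) (.aff
 500000 1240851 201475)) (.aff 1000000 0 0)) (.aff 1000000 0 0)) (.sy 231152 (.sy 231103 (.sx 100000 (.sx
 50000 (.sx 25000 (.aff 300000 2352000 208334) (.aff 500000 1241179 201422)) (.aff 1000000 0 0)) (.aff
 1000000 0 0)) (.sy 231127 (.sx 100000 (.sx 50000 (.sx 25000 (.aff 300000 2352186 208317) (.aff 500000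
 1241277 201406)) (.aff 1000000 0 0)) (.aff 1000000 0 0)) (.sy 231139 (.sy 231133 (.sy 231130 (.sx 100000
 (.sx 50000 (.sx 25000 (.aff 300000 2352255 208311) (.aff 500000 1241313 201400)) (.aff 1000000 0 0)) (.aff
 1000000 0 0)) (.sy 231131 (.sx 100000 (.sx 50000 (.sx 25000 (.aff 300000 2352265 208310) (.aff 500000
 1241318 201399)) (.aff 1000000 0 0)) (.aff 1000000 0 0)) (.sy 231132 (.sx 100000 (.sx 50000 (.sx 25000
 (.aff 300000 2352270 208310) (.aff 500000 1241321 201399)) (.aff 1000000 0 0)) (.aff 1000000 0 0)) (.sx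
 100000 (.sx 50000 (.sx 25000 (.aff 300000 2352275 208309) (.aff 500000 1241324 201398)) (.aff 1000000 0 0))
 (.aff 1000000 0 0))))) (.sx 100000 (.sx 50000 (.sx 25000 (.aff 300000 2352293 208308) (.aff 500000 1241333
 201397)) (.aff 1000000 0 0)) (.aff 1000000 0 0))) (.sx 100000 (.sx 50000 (.sx 25000 (.aff 300000 2352341
 208304) (.aff 500000 1241359 201393)) (.aff 1000000 0 0)) (.aff 1000000 0 0))))) (.sx 100000 (.sx 50000
 (.sx 25000 (.aff 300000 2352623 208279) (.aff 500000 1241508 201369)) (.aff 1000000 0 0)) (.aff 1000000 0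
 0)))))))) (.sy 234375 (.sy 232812 (.sx 100000 (.sy 232031 (.sx 50000 (.sx 25000 (.aff 300000 2354859
 208081) (.aff 500000 1242687 201177)) (.aff 1000000 0 0)) (.sx 50000 (.sx 25000 (.aff 300000 2358825
 207731) (.aff 500000 1244780 200839)) (.aff 1000000 0 0))) (.aff 1000000 0 0)) (.sx 100000 (.sx 50000 (.sx
 25000 (.aff 300000 2364765 207209) (.aff 500000 1247915 200335)) (.aff 1000000 0 0)) (.aff 1000000 0 0)))
 (.sx 100000 (.aff 369000 2367646 168168) (.aff 1000000 0 0)))) (.sy 243750 (.sy 240625 (.sy 239062 (.sx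
 100000 (.sy 238281 (.sx 50000 (.sx 25000 (.aff 400000 2617489 137537) (.aff 500000 1259340 198517)) (.aff
 1000000 0 0)) (.sy 238671 (.sx 50000 (.sx 25000 (.aff 400000 2620708 137368) (.aff 500000 1260889 198273))
 (.aff 1000000 0 0)) (.sx 50000 (.aff 337000 2381033 184613) (.aff 1000000 0 0)))) (.aff 1000000 0 0)) (.sx
 100000 (.sx 50000 (.aff 313000 2351691 200694) (.aff 1000000 0 0)) (.aff 1000000 0 0))) (.sy 242187 (.sx
 100000 (.sx 50000 (.sx 25000 (.aff 425000 2526894 130843) (.aff 500000 1268611 197066)) (.aff 1000000 0 0))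
 (.aff 1000000 0 0)) (.sy 242968 (.sx 100000 (.sx 50000 (.sx 25000 (.aff 425000 2533017 130527) (.aff 500000
 1271686 196590)) (.aff 1000000 0 0)) (.aff 1000000 0 0)) (.sx 100000 (.aff 357000 2330821 177384) (.aff
 1000000 0 0))))) (.sx 100000 (.aff 388000 2348978 159450) (.aff 1000000 0 0)))), .pol, .pol, .pol, .pol⟩

def hL120_40_5_4 : pcchk ⟨(nat_lit 1), (nat_lit 1000), Int.ofNat (nat_lit 400), 0, ⟨0, 1⟩, ⟨Int.ofNat
 (nat_lit 40), 200⟩⟩ ⟨600000, 650000, 790411, 774755, 806384, 612032, 632797, 591949, 632455, 591607⟩ false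
 (nat_lit 200) (Int.ofNat (nat_lit 1790)) (nat_lit 250) (Int.ofNat (nat_lit 2006)) qL120_40_5_4 = true := by
 decide +kernel

def qL120_40_5_5 : PCt := .one ⟨2008000, 251, 803200, 22489, 34658, 0, 0, 200000, 250000, 300000⟩ ⟨0, .pol,
 .pol, .pol, .pol, .sy 275000 (.sy 262500 (.sy 256250 (.sx 100000 (.aff 400000 2390920 150570) (.aff 1000000
 0 0)) (.sy 259375 (.sy 257812 (.sx 100000 (.aff 459000 2461632 118898) (.aff 1000000 0 0)) (.sx 100000 (.sx
 50000 (.aff 450000 2501593 120923) (.aff 1000000 0 0)) (.aff 1000000 0 0))) (.sx 100000 (.sx 50000 (.aff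
 450000 2512905 120379) (.aff 1000000 0 0)) (.aff 1000000 0 0)))) (.sy 268750 (.sy 265625 (.sy 264062 (.sx
 100000 (.sx 50000 (.aff 450000 2524164 119842) (.aff 1000000 0 0)) (.aff 1000000 0 0)) (.sy 264843 (.sx
 100000 (.sx 50000 (.aff 450000 2529773 119576) (.aff 1000000 0 0)) (.aff 1000000 0 0)) (.sy 265234 (.sx
 100000 (.sx 50000 (.aff 450000 2532575 119444) (.aff 1000000 0 0)) (.aff 1000000 0 0)) (.sy 265429 (.sx
 100000 (.sx 50000 (.aff 450000 2533974 119378) (.aff 1000000 0 0)) (.aff 1000000 0 0)) (.sy 265527 (.sx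
 100000 (.sx 50000 (.aff 450000 2534674 119345) (.aff 1000000 0 0)) (.aff 1000000 0 0)) (.sy 265576 (.sy
 265551 (.sx 100000 (.sx 50000 (.aff 450000 2534965 119332) (.aff 1000000 0 0)) (.aff 1000000 0 0)) (.sy
 265563 (.sx 100000 (.sx 50000 (.aff 450000 2535051 119327) (.aff 1000000 0 0)) (.aff 1000000 0 0)) (.sy
 265569 (.sy 265566 (.sx 100000 (.sx 50000 (.aff 450000 2535086 119326) (.aff 1000000 0 0)) (.aff 1000000 0
 0)) (.sy 265567 (.sx 100000 (.sx 50000 (.aff 450000 2535096 119325) (.aff 1000000 0 0)) (.aff 1000000 0 0))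
 (.sy 265568 (.sx 100000 (.sx 50000 (.aff 450000 2535101 119325) (.aff 1000000 0 0)) (.aff 1000000 0 0))
 (.sx 100000 (.sx 50000 (.aff 450000 2535106 119325) (.aff 1000000 0 0)) (.aff 1000000 0 0))))) (.sy 265572
 (.sy 265570 (.sx 100000 (.sx 50000 (.aff 450000 2535110 119325) (.aff 1000000 0 0)) (.aff 1000000 0 0))
 (.sx 100000 (.sx 50000 (.aff 450000 2535117 119324) (.aff 1000000 0 0)) (.aff 1000000 0 0))) (.sx 100000
 (.sx 50000 (.aff 450000 2535132 119324) (.aff 1000000 0 0)) (.aff 1000000 0 0)))))) (.sx 100000 (.sx 50000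
 (.aff 450000 2535258 119318) (.aff 1000000 0 0)) (.aff 1000000 0 0)))))))) (.sy 267187 (.sy 266406 (.sx
 100000 (.sx 50000 (.aff 450000 2537238 119225) (.aff 1000000 0 0)) (.aff 1000000 0 0)) (.sy 266796 (.sy
 266601 (.sy 266503 (.sx 100000 (.sx 50000 (.aff 450000 2539331 119126) (.aff 1000000 0 0)) (.aff 1000000 0
 0)) (.sy 266552 (.sx 100000 (.sx 50000 (.aff 450000 2539679 119110) (.aff 1000000 0 0)) (.aff 1000000 0 0))
 (.sx 100000 (.sx 50000 (.aff 450000 2539912 119099) (.aff 1000000 0 0)) (.aff 1000000 0 0)))) (.sy 266698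
 (.sx 100000 (.sx 50000 (.aff 450000 2540260 119083) (.aff 1000000 0 0)) (.aff 1000000 0 0)) (.sx 100000
 (.sx 50000 (.aff 450000 2540724 119061) (.aff 1000000 0 0)) (.aff 1000000 0 0)))) (.sx 100000 (.sx 50000
 (.aff 450000 2541888 119007) (.aff 1000000 0 0)) (.aff 1000000 0 0)))) (.sx 100000 (.sx 50000 (.aff 475000
 2555412 107860) (.aff 1000000 0 0)) (.aff 1000000 0 0)))) (.sy 271875 (.sx 100000 (.sx 50000 (.aff 475000
 2441392 112897) (.aff 1000000 0 0)) (.aff 1000000 0 0)) (.sx 100000 (.sx 50000 (.aff 500000 2520671 99180)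
 (.aff 1000000 0 0)) (.aff 1000000 0 0))))) (.sy 287500 (.sx 100000 (.aff 494000 2469376 103685) (.aff
 1000000 0 0)) (.sx 100000 (.aff 500000 2432160 102790) (.aff 1000000 0 0))), .pol, .pol, .pol, .pol⟩

def hL120_40_5_5 : pcchk ⟨(nat_lit 1), (nat_lit 1000), Int.ofNat (nat_lit 400), 0, ⟨0, 1⟩, ⟨Int.ofNat
 (nat_lit 40), 200⟩⟩ ⟨600000, 650000, 790411, 774755, 806384, 612032, 632797, 591949, 632455, 591607⟩ false
 (nat_lit 250) (Int.ofNat (nat_lit 2006)) (nat_lit 300) (Int.ofNat (nat_lit 2062)) qL120_40_5_5 = true := by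
 decide +kernel

def qL120_40_5_6 : PCt := .one ⟨2008000, 251, 803200, -57429, 58633, 0, 0, 200000, 300000, 350000⟩ ⟨0, .pol,
 .pol, .pol, .pol, .sy 325000 (.sx 100000 (.aff 619000 2580308 56258) (.aff 1000000 0 0)) (.sx 100000 (.aff
 650000 2589650 47304) (.aff 1000000 0 0)), .pol, .pol, .pol, .pol⟩

def hL120_40_5_6 : pcchk ⟨(nat_lit 1), (nat_lit 1000), Int.ofNat (nat_lit 400), 0, ⟨0, 1⟩, ⟨Int.ofNat
 (nat_lit 40), 200⟩⟩ ⟨600000, 650000, 790411, 774755, 806384, 612032, 632797, 591949, 632455, 591607⟩ false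
 (nat_lit 300) (Int.ofNat (nat_lit 2062)) (nat_lit 350) (Int.ofNat (nat_lit 1919)) qL120_40_5_6 = true := by
 decide +kernel

end CB
end Pool.Agent.Lib.MP_6947cd_al
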