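import Pool.Agent.Lib.MP_6947cd_al.L.PairSplit

/-!
Problem MP_6947cd_al (Chollet).  Library of pair functions: certificates of the pieces (generated).
-/

set_option autoImplicit false
set_option linter.defProp false
set_option maxRecDepth 100000

namespace Pool.Agent.Lib.MP_6947cd_al
namespace CB

open CA

def qL120_40_5_7 : PCt := .one ⟨2008000, 251, 803200, -148592, 90540, 0, 0, 200000, 350000, 400000⟩ ⟨0,
 .pol, .pol, .pol, .pol, .sx 100000 (.sx 50000 (.sx 25000 (.aff 875000 2631966 5937) (.aff 1000000 0 0))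
 (.aff 1000000 0 0)) (.aff 1000000 0 0), .pol, .pol, .pol, .pol⟩

def hL120_40_5_7 : pcchk ⟨(nat_lit 1), (nat_lit 1000), Int.ofNat (nat_lit 400), 0, ⟨0, 1⟩, ⟨Int.ofNat
 (nat_lit 40), 200⟩⟩ ⟨600000, 650000, 790411, 774755, 806384, 612032, 632797, 591949, 632455, 591607⟩ false
 (nat_lit 350) (Int.ofNat (nat_lit 1919)) (nat_lit 400) (Int.ofNat (nat_lit 1549)) qL120_40_5_7 = true := by
 decide +kernel

def qL120_40_5_8 : PCt := .one ⟨2008000, 251, 803200, -243772, 128612, 0, 0, 200000, 400000, 450000⟩ ⟨0,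
 .pol, .pol, .pol, .pol, .sx 100000 (.sx 50000 (.sx 25000 (.sx 12500 (.aff 1100000 2737839 3653) (.aff
 1000000 0 0)) (.aff 1000000 0 0)) (.aff 1000000 0 0)) (.aff 1000000 0 0), .pol, .pol, .pol, .pol⟩

def hL120_40_5_8 : pcchk ⟨(nat_lit 1), (nat_lit 1000), Int.ofNat (nat_lit 400), 0, ⟨0, 1⟩, ⟨Int.ofNat
 (nat_lit 40), 200⟩⟩ ⟨600000, 650000, 790411, 774755, 806384, 612032, 632797, 591949, 632455, 591607⟩ false
 (nat_lit 400) (Int.ofNat (nat_lit 1549)) (nat_lit 450) (Int.ofNat (nat_lit 942)) qL120_40_5_8 = true := by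
 decide +kernel

def qL120_40_5_9 : PCt := .one ⟨2008000, 251, 803200, -344975, 174153, 0, 0, 200000, 450000, 500000⟩ ⟨0,
 .pol, .pol, .pol, .pol, .sx 100000 (.sx 50000 (.sx 25000 (.sx 12500 (.aff 1414000 3510453 48825) (.aff
 1000000 0 0)) (.aff 1000000 0 0)) (.aff 1000000 0 0)) (.aff 1000000 0 0), .pol, .pol, .pol, .pol⟩

def hL120_40_5_9 : pcchk ⟨(nat_lit 1), (nat_lit 1000), Int.ofNat (nat_lit 400), 0, ⟨0, 1⟩, ⟨Int.ofNat
 (nat_lit 40), 200⟩⟩ ⟨600000, 650000, 790411, 774755, 806384, 612032, 632797, 591949, 632455, 591607⟩ false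
 (nat_lit 450) (Int.ofNat (nat_lit 942)) (nat_lit 500) (Int.ofNat (nat_lit 83)) qL120_40_5_9 = true := by
 decide +kernel

def qL120_40_5_10 : PCt := .one ⟨2008000, 251, 803200, -456218, 229775, 0, 0, 200000, 500000, 550000⟩ ⟨0,
 .pol, .pol, .pol, .pol, .sx 100000 (.sy 525000 (.sx 50000 (.sx 25000 (.aff 1575000 3681797 89800) (.aff
 1000000 0 0)) (.aff 1000000 0 0)) (.sx 50000 (.sy 537500 (.sy 531250 (.sx 25000 (.sx 12500 (.aff 2000000
 7505554 133235) (.aff 1600000 3488267 103204)) (.aff 1000000 0 0)) (.sx 25000 (.sx 12500 (.aff 2000000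
 7549835 132454) (.aff 1650000 3801250 111148)) (.aff 1000000 0 0))) (.sy 543750 (.sx 25000 (.aff 1845000
 4003850 178335) (.aff 1000000 0 0)) (.sx 25000 (.aff 1900000 4209365 192429) (.aff 1000000 0 0)))) (.aff
 1000000 0 0))) (.aff 1000000 0 0), .pol, .pol, .pol, .pol⟩

def hL120_40_5_10 : pcchk ⟨(nat_lit 1), (nat_lit 1000), Int.ofNat (nat_lit 400), 0, ⟨0, 1⟩, ⟨Int.ofNat
 (nat_lit 40), 200⟩⟩ ⟨600000, 650000, 790411, 774755, 806384, 612032, 632797, 591949, 632455, 591607⟩ false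
 (nat_lit 500) (Int.ofNat (nat_lit 83)) (nat_lit 550) (Int.negSucc (nat_lit 1052)) qL120_40_5_10 = true :=
 by decide +kernel

def qL120_40_5_11 : PCt := .one ⟨2008000, 251, 803200, -557421, 285437, 0, 0, 200000, 550000, 600000⟩ ⟨0,
 .pol, .pol, .pol, .pol, .sx 100000 (.sx 50000 (.sx 25000 (.aff 2000000 4795832 208515) (.aff 1966000
 4051849 230304)) (.aff 1000000 0 0)) (.aff 1000000 0 0), .pol, .pol, .pol, .pol⟩

def hL120_40_5_11 : pcchk ⟨(nat_lit 1), (nat_lit 1000), Int.ofNat (nat_lit 400), 0, ⟨0, 1⟩, ⟨Int.ofNat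
 (nat_lit 40), 200⟩⟩ ⟨600000, 650000, 790411, 774755, 806384, 612032, 632797, 591949, 632455, 591607⟩ false
 (nat_lit 550) (Int.negSucc (nat_lit 1052)) (nat_lit 600) (Int.negSucc (nat_lit 2440)) qL120_40_5_11 = true
 := by decide +kernel

def qL120_40_5_12 : PCt := .one ⟨2008000, 251, 803200, -688744, 364231, 0, 0, 200000, 600000, 650000⟩ ⟨0,
 .pol, .pol, .pol, .pol, .sx 100000 (.sx 50000 (.aff 2275000 4480128 362853) (.sy 625000 (.aff 2050000
 3632719 303492) (.aff 2275000 4280801 379748))) (.aff 1000000 0 0), .pol, .aff 2100000 4750142 254730,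
 .pol, .pol⟩

def hL120_40_5_12 : pcchk ⟨(nat_lit 1), (nat_lit 1000), Int.ofNat (nat_lit 400), 0, ⟨0, 1⟩, ⟨Int.ofNat
 (nat_lit 40), 200⟩⟩ ⟨600000, 650000, 790411, 774755, 806384, 612032, 632797, 591949, 632455, 591607⟩ false
 (nat_lit 600) (Int.negSucc (nat_lit 2440)) (nat_lit 650) (Int.negSucc (nat_lit 4155)) qL120_40_5_12 = true
 := by decide +kernel

def qL120_40_5_13 : PCt := .one ⟨2008000, 251, 803200, -259032, 84918, 0, 0, 200000, 650000, 700000⟩ ⟨0,
 .pol, .pol, .pol, .pol, .sy 675000 (.sy 662500 (.sx 100000 (.sx 50000 (.aff 3000000 8366601 478092) (.aff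
 2300000 4212482 401189)) (.aff 1000000 0 0)) (.sx 100000 (.aff 3100000 5430643 812059) (.aff 1000000 0 0)))
 (.aff 1500000 1854050 134840), .pol, .sy 675000 (.sx 100000 (.aff 3000000 5944185 672927) .pol) (.sx 100000
 (.sy 687500 (.aff 3000000 6027714 663602) (.sx 50000 (.aff 3000000 8602326 464991) (.sx 75000 (.aff 3000000
 6353239 629601) (.aff 3000000 5844130 684448)))) (.aff 1000000 0 0)), .pol, .pol⟩

def hL120_40_5_13 : pcchk ⟨(nat_lit 1), (nat_lit 1000), Int.ofNat (nat_lit 400), 0, ⟨0, 1⟩, ⟨Int.ofNat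
 (nat_lit 40), 200⟩⟩ ⟨600000, 650000, 790411, 774755, 806384, 612032, 632797, 591949, 632455, 591607⟩ false
 (nat_lit 650) (Int.negSucc (nat_lit 4155)) (nat_lit 700) (Int.negSucc (nat_lit 4800)) qL120_40_5_13 = true
 := by decide +kernel

def qL120_40_5_14 : PCt := .one ⟨2008000, 251, 803200, -122087, -10944, 0, 0, 200000, 700000, 750000⟩ ⟨0,
 .pol, .pol, .pol, .pol, .aff 1500000 1346292 185696, .pol, .sx 100000 (.aff 3350000 6611147 835332) (.sx
 150000 (.aff 3450000 6219549 965103) (.aff 1000000 0 0)), .pol, .pol⟩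

def hL120_40_5_14 : pcchk ⟨(nat_lit 1), (nat_lit 1000), Int.ofNat (nat_lit 400), 0, ⟨0, 1⟩, ⟨Int.ofNat
 (nat_lit 40), 200⟩⟩ ⟨600000, 650000, 790411, 774755, 806384, 612032, 632797, 591949, 632455, 591607⟩ false
 (nat_lit 700) (Int.negSucc (nat_lit 4800)) (nat_lit 750) (Int.negSucc (nat_lit 5104)) qL120_40_5_14 = true
 := by decide +kernel

def qL120_40_5_15 : PCt := .one ⟨2008000, 251, 803200, -233732, 72790, 0, 0, 200000, 750000, 800000⟩ ⟨0,
 .pol, .pol, .pol, .pol, .aff 1000000 0 0, .pol, .sy 775000 (.sx 100000 (.aff 5000000 12754085 1254501) (.sx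
 150000 (.sx 125000 (.aff 5000000 10413667 1536443) (.aff 3700000 6507798 1120195)) (.aff 2000000 2087378
 479070))) (.sx 100000 (.aff 5000000 12961482 1234427) (.sx 150000 (.aff 4500000 8019508 1527526) (.aff
 4000000 6604195 1362771))), .pol, .pol⟩

def hL120_40_5_15 : pcchk ⟨(nat_lit 1), (nat_lit 1000), Int.ofNat (nat_lit 400), 0, ⟨0, 1⟩, ⟨Int.ofNat
 (nat_lit 40), 200⟩⟩ ⟨600000, 650000, 790411, 774755, 806384, 612032, 632797, 591949, 632455, 591607⟩ false
 (nat_lit 750) (Int.negSucc (nat_lit 5104)) (nat_lit 800) (Int.negSucc (nat_lit 5686)) qL120_40_5_15 = true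
 := by decide +kernel

def qL120_40_5_16 : PCt := .one ⟨2008000, 251, 803200, -310036, 133833, 0, 0, 200000, 800000, 850000⟩ ⟨0,
 .pol, .pol, .pol, .pol, .aff 1000000 0 0, .pol, .sx 100000 (.aff 5000000 13266500 1206046) (.sx 150000
 (.aff 5000000 10276187 1556998) (.sx 175000 (.aff 4800000 8250715 1750152) (.aff 4576000 7446752
 1717229))), .pol, .pol⟩

def hL120_40_5_16 : pcchk ⟨(nat_lit 1), (nat_lit 1000), Int.ofNat (nat_lit 400), 0, ⟨0, 1⟩, ⟨Int.ofNat
 (nat_lit 40), 200⟩⟩ ⟨600000, 650000, 790411, 774755, 806384, 612032, 632797, 591949, 632455, 591607⟩ false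
 (nat_lit 800) (Int.negSucc (nat_lit 5686)) (nat_lit 850) (Int.negSucc (nat_lit 6458)) qL120_40_5_16 = true
 := by decide +kernel

def qL120_40_5_17 : PCt := .one ⟨2008000, 251, 803200, -9454066, 7906259, 0, 0, 200000, 850000, 900000⟩ ⟨0,
 .pol, .pol, .pol, .pol, .aff 1000000 0 0, .pol, .aff 35000000 71116103 16255109, .inf 2366432 422578, .pol⟩

def hL120_40_5_17 : pcchk ⟨(nat_lit 1), (nat_lit 1000), Int.ofNat (nat_lit 400), 0, ⟨0, 1⟩, ⟨Int.ofNat
 (nat_lit 40), 200⟩⟩ ⟨600000, 650000, 790411, 774755, 806384, 612032, 632797, 591949, 632455, 591607⟩ false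
 (nat_lit 850) (Int.negSucc (nat_lit 6458)) (nat_lit 900) (Int.negSucc (nat_lit 29999)) qL120_40_5_17 = true
 := by decide +kernel

def qL120_40_5_18 : PCt := .one ⟨2008000, 251, 803200, 0, -602400, 0, 0, 200000, 900000, 950000⟩ ⟨0, .pol,
 .pol, .pol, .pol, .aff 1000000 0 0, .pol, .aff 35000000 73119765 15809679, .inf 2433106 410998, .pol⟩

def hL120_40_5_18 : pcchk ⟨(nat_lit 1), (nat_lit 1000), Int.ofNat (nat_lit 400), 0, ⟨0, 1⟩, ⟨Int.ofNat
 (nat_lit 40), 200⟩⟩ ⟨600000, 650000, 790411, 774755, 806384, 612032, 632797, 591949, 632455, 591607⟩ false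
 (nat_lit 900) (Int.negSucc (nat_lit 29999)) (nat_lit 950) (Int.negSucc (nat_lit 29999)) qL120_40_5_18 =
 true := by decide +kernel

def qL120_40_5_19 : PCt := .one ⟨2008000, 251, 803200, 0, -602400, 0, 0, 200000, 950000, 1000000⟩ ⟨0, .pol,
 .pol, .pol, .pol, .aff 1000000 0 0, .pol, .aff 20000000 41950865 8605306, .inf 3122499 320257, .pol⟩

def hL120_40_5_19 : pcchk ⟨(nat_lit 1), (nat_lit 1000), Int.ofNat (nat_lit 400), 0, ⟨0, 1⟩, ⟨Int.ofNat
 (nat_lit 40), 200⟩⟩ ⟨600000, 650000, 790411, 774755, 806384, 612032, 632797, 591949, 632455, 591607⟩ false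
 (nat_lit 950) (Int.negSucc (nat_lit 29999)) (nat_lit 1000) (Int.negSucc (nat_lit 29999)) qL120_40_5_19 =
 true := by decide +kernel

def qL120_40_6_0 : PCt := .one ⟨2008000, 251, 2008000, 55822, 0, 0, 0, 200000, 0, 50000⟩ ⟨25000, .sp 250000
 (.aff 6324556 158114) .pol, .pol, .pol, .pol, .pol, .aff 0 7544960 132539, .pol, .pol, .pol⟩

def hL120_40_6_0 : pcchk ⟨(nat_lit 1), (nat_lit 1000), Int.ofNat (nat_lit 1000), 0, ⟨0, 1⟩, ⟨Int.ofNat
 (nat_lit 40), 200⟩⟩ ⟨600000, 650000, 790411, 774755, 806384, 612032, 632797, 591949, 632455, 591607⟩ true 0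
 0 (nat_lit 50) (Int.ofNat (nat_lit 139)) qL120_40_6_0 = true := by decide +kernel

def qL120_40_6_1 : PCt := .one ⟨2008000, 251, 2008000, 82729, -1346, 0, 0, 200000, 50000, 100000⟩ ⟨0, .pol,
 .pol, .pol, .pol, .sx 100000 (.sy 75000 (.aff 0 7590485 131744) (.aff 0 7399272 135149)) .pol, .pol, .pol,
 .sx 100000 (.sx 50000 .pol .pol) .pol, .pol⟩

def hL120_40_6_1 : pcchk ⟨(nat_lit 1), (nat_lit 1000), Int.ofNat (nat_lit 1000), 0, ⟨0, 1⟩, ⟨Int.ofNat
 (nat_lit 40), 200⟩⟩ ⟨600000, 650000, 790411, 774755, 806384, 612032, 632797, 591949, 632455, 591607⟩ false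
 (nat_lit 50) (Int.ofNat (nat_lit 139)) (nat_lit 100) (Int.ofNat (nat_lit 345)) qL120_40_6_1 = true := by
 decide +kernel

def qL120_40_6_2 : PCt := .one ⟨2008000, 251, 2008000, 109636, -4037, 0, 0, 200000, 100000, 150000⟩ ⟨0,
 .pol, .pol, .pol, .pol, .sy 125000 (.aff 0 7337258 136291) (.aff 0 7248543 137959), .pol, .pol, .sx 100000
 .pol .pol, .pol⟩

def hL120_40_6_2 : pcchk ⟨(nat_lit 1), (nat_lit 1000), Int.ofNat (nat_lit 1000), 0, ⟨0, 1⟩, ⟨Int.ofNat
 (nat_lit 40), 200⟩⟩ ⟨600000, 650000, 790411, 774755, 806384, 612032, 632797, 591949, 632455, 591607⟩ false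
 (nat_lit 100) (Int.ofNat (nat_lit 345)) (nat_lit 150) (Int.ofNat (nat_lit 618)) qL120_40_6_2 = true := by
 decide +kernel

def qL120_40_6_3 : PCt := .one ⟨2008000, 251, 2008000, 137347, -8193, 0, 0, 200000, 150000, 200000⟩ ⟨0,
 .pol, .pol, .pol, .pol, .sx 100000 (.sy 175000 (.aff 0 7150277 139855) (.aff 0 6993293 142995)) .pol, .pol,
 .pol, .sx 100000 .pol .pol, .pol⟩

def hL120_40_6_3 : pcchk ⟨(nat_lit 1), (nat_lit 1000), Int.ofNat (nat_lit 1000), 0, ⟨0, 1⟩, ⟨Int.ofNat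
 (nat_lit 40), 200⟩⟩ ⟨600000, 650000, 790411, 774755, 806384, 612032, 632797, 591949, 632455, 591607⟩ false
 (nat_lit 150) (Int.ofNat (nat_lit 618)) (nat_lit 200) (Int.ofNat (nat_lit 960)) qL120_40_6_3 = true := by
 decide +kernel

def qL120_40_6_4 : PCt := .one ⟨2008000, 251, 2008000, 164254, -13575, 0, 0, 200000, 200000, 250000⟩ ⟨0,
 .pol, .pol, .pol, .pol, .sy 225000 (.aff 0 6930691 144286) (.aff 0 6797619 147111), .pol, .pol, .pol, .pol⟩

def hL120_40_6_4 : pcchk ⟨(nat_lit 1), (nat_lit 1000), Int.ofNat (nat_lit 1000), 0, ⟨0, 1⟩, ⟨Int.ofNat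
 (nat_lit 40), 200⟩⟩ ⟨600000, 650000, 790411, 774755, 806384, 612032, 632797, 591949, 632455, 591607⟩ false
 (nat_lit 200) (Int.ofNat (nat_lit 960)) (nat_lit 250) (Int.ofNat (nat_lit 1369)) qL120_40_6_4 = true := by
 decide +kernel

def qL120_40_6_5 : PCt := .one ⟨2008000, 251, 2008000, 185940, -18996, 0, 0, 200000, 250000, 300000⟩ ⟨0,
 .pol, .pol, .pol, .pol, .sx 100000 (.sx 50000 (.sx 25000 (.sx 12500 (.sy 275000 (.aff 7000 6936590 142152)
 (.aff 19000 6737157 142844)) (.aff 0 3829709 261117)) (.aff 0 2708013 369275)) (.aff 0 1914855 522233))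
 .pol, .pol, .pol, .pol, .pol⟩

def hL120_40_6_5 : pcchk ⟨(nat_lit 1), (nat_lit 1000), Int.ofNat (nat_lit 1000), 0, ⟨0, 1⟩, ⟨Int.ofNat
 (nat_lit 40), 200⟩⟩ ⟨600000, 650000, 790411, 774755, 806384, 612032, 632797, 591949, 632455, 591607⟩ false
 (nat_lit 250) (Int.ofNat (nat_lit 1369)) (nat_lit 300) (Int.ofNat (nat_lit 1832)) qL120_40_6_5 = true := by
 decide +kernel

def qL120_40_6_6 : PCt := .one ⟨2008000, 251, 2008000, -18072, 42208, 0, 0, 200000, 300000, 350000⟩ ⟨0,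
 .pol, .pol, .pol, .pol, .sx 100000 (.sx 50000 (.sx 25000 (.sx 12500 (.sy 325000 (.sx 6250 (.aff 509000
 7164209 33651) (.aff 1000000 0 0)) (.sy 337500 (.aff 575000 7214216 25038) (.aff 619000 7281117 19937)))
 (.aff 1000000 0 0)) (.aff 1000000 0 0)) (.aff 0 2081666 480385)) (.aff 0 1471961 679366), .pol, .pol, .pol,
 .pol⟩

def hL120_40_6_6 : pcchk ⟨(nat_lit 1), (nat_lit 1000), Int.ofNat (nat_lit 1000), 0, ⟨0, 1⟩, ⟨Int.ofNat
 (nat_lit 40), 200⟩⟩ ⟨600000, 650000, 790411, 774755, 806384, 612032, 632797, 591949, 632455, 591607⟩ false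
 (nat_lit 300) (Int.ofNat (nat_lit 1832)) (nat_lit 350) (Int.ofNat (nat_lit 1787)) qL120_40_6_6 = true := by
 decide +kernel

def qL120_40_6_7 : PCt := .one ⟨2008000, 251, 2008000, -73895, 61746, 0, 0, 200000, 350000, 400000⟩ ⟨0,
 .pol, .pol, .pol, .pol, .sx 100000 (.sx 50000 (.sy 375000 (.sx 25000 (.sy 362500 (.aff 650000 7182903
 17055) (.aff 688000 7199537 13521)) (.aff 1000000 0 0)) (.sx 25000 (.sx 12500 (.sx 6250 (.aff 750000
 7173689 8713) (.aff 1000000 0 0)) (.aff 1000000 0 0)) (.aff 1000000 0 0))) (.aff 1000000 0 0)) (.aff 0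
 1581139 632456), .pol, .pol, .pol, .pol⟩

def hL120_40_6_7 : pcchk ⟨(nat_lit 1), (nat_lit 1000), Int.ofNat (nat_lit 1000), 0, ⟨0, 1⟩, ⟨Int.ofNat
 (nat_lit 40), 200⟩⟩ ⟨600000, 650000, 790411, 774755, 806384, 612032, 632797, 591949, 632455, 591607⟩ false
 (nat_lit 350) (Int.ofNat (nat_lit 1787)) (nat_lit 400) (Int.ofNat (nat_lit 1603)) qL120_40_6_7 = true := by
 decide +kernel

def qL120_40_6_8 : PCt := .one ⟨2008000, 251, 2008000, -318068, 159415, 0, 0, 200000, 400000, 450000⟩ ⟨0,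
 .pol, .pol, .pol, .pol, .sx 100000 (.sx 50000 (.sx 25000 (.aff 1350000 7462808 16415) (.aff 1000000 0 0))
 (.aff 1000000 0 0)) (.aff 0 1683251 594089), .pol, .pol, .pol, .pol⟩

def hL120_40_6_8 : pcchk ⟨(nat_lit 1), (nat_lit 1000), Int.ofNat (nat_lit 1000), 0, ⟨0, 1⟩, ⟨Int.ofNat
 (nat_lit 40), 200⟩⟩ ⟨600000, 650000, 790411, 774755, 806384, 612032, 632797, 591949, 632455, 591607⟩ false
 (nat_lit 400) (Int.ofNat (nat_lit 1603)) (nat_lit 450) (Int.ofNat (nat_lit 811)) qL120_40_6_8 = true := by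
 decide +kernel

def qL120_40_6_9 : PCt := .one ⟨2008000, 251, 2008000, -518466, 249594, 0, 0, 200000, 450000, 500000⟩ ⟨0,
 .pol, .pol, .pol, .pol, .sx 100000 (.sy 475000 (.sx 50000 (.sx 25000 (.sx 12500 (.sx 6250 (.aff 1900000
 8556336 94667) (.aff 1000000 0 0)) (.aff 1000000 0 0)) (.aff 1000000 0 0)) (.aff 1000000 0 0)) (.sx 50000
 (.sx 25000 (.aff 1925000 8169379 104736) (.aff 1000000 0 0)) (.aff 1000000 0 0))) (.aff 1000000 0 0), .pol,
 .pol, .pol, .pol⟩

def hL120_40_6_9 : pcchk ⟨(nat_lit 1), (nat_lit 1000), Int.ofNat (nat_lit 1000), 0, ⟨0, 1⟩, ⟨Int.ofNat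
 (nat_lit 40), 200⟩⟩ ⟨600000, 650000, 790411, 774755, 806384, 612032, 632797, 591949, 632455, 591607⟩ false
 (nat_lit 450) (Int.ofNat (nat_lit 811)) (nat_lit 500) (Int.negSucc (nat_lit 479)) qL120_40_6_9 = true := by
 decide +kernel

def qL120_40_6_10 : PCt := .one ⟨2008000, 251, 2008000, -759024, 369873, 0, 0, 200000, 500000, 550000⟩ ⟨0,
 .pol, .pol, .pol, .pol, .sy 525000 (.sx 100000 (.sx 50000 (.sx 25000 (.sx 12500 (.aff 2700000 10885312
 265496) (.aff 2500000 8590693 261912)) (.aff 1000000 0 0)) (.aff 1000000 0 0)) (.aff 1000000 0 0)) (.sx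
 100000 (.sx 50000 (.sx 25000 (.sx 12500 (.aff 3000000 15143756 264136) (.sx 18750 (.aff 2650000 8834309
 308174) (.aff 2400000 7201710 272158))) (.aff 1000000 0 0)) (.aff 1000000 0 0)) (.aff 1000000 0 0)), .pol,
 .pol, .pol, .pol⟩

def hL120_40_6_10 : pcchk ⟨(nat_lit 1), (nat_lit 1000), Int.ofNat (nat_lit 1000), 0, ⟨0, 1⟩, ⟨Int.ofNat
 (nat_lit 40), 200⟩⟩ ⟨600000, 650000, 790411, 774755, 806384, 612032, 632797, 591949, 632455, 591607⟩ false
 (nat_lit 500) (Int.negSucc (nat_lit 479)) (nat_lit 550) (Int.negSucc (nat_lit 2369)) qL120_40_6_10 = true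
 := by decide +kernel

def qL120_40_6_11 : PCt := .one ⟨2008000, 251, 2008000, -966652, 484068, 0, 0, 200000, 550000, 600000⟩ ⟨0,
 .pol, .pol, .pol, .pol, .sy 575000 (.sy 562500 (.sx 100000 (.aff 2875000 8844358 397500) (.aff 1000000 0
 0)) (.sy 568750 (.sx 100000 (.sx 50000 (.aff 2894000 8897041 403195) (.aff 1000000 0 0)) (.aff 1000000 0
 0)) (.sx 100000 (.sx 50000 (.sx 25000 (.aff 3000000 9565564 418167) (.aff 3100000 8983485 490901)) (.aff
 1000000 0 0)) (.aff 1000000 0 0)))) (.sy 587500 (.sy 581250 (.sy 578125 (.sx 100000 (.sx 50000 (.sx 25000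
 (.aff 3000000 9604687 416464) (.aff 3100000 9020228 488902)) (.aff 1000000 0 0)) (.aff 1000000 0 0)) (.sy
 579687 (.aff 3219000 9222215 533924) (.aff 3207000 9184713 530322))) (.aff 3191000 9148757 524715)) (.aff
 3150000 9049283 510814)), .pol, .pol, .pol, .pol⟩

def hL120_40_6_11 : pcchk ⟨(nat_lit 1), (nat_lit 1000), Int.ofNat (nat_lit 1000), 0, ⟨0, 1⟩, ⟨Int.ofNat
 (nat_lit 40), 200⟩⟩ ⟨600000, 650000, 790411, 774755, 806384, 612032, 632797, 591949, 632455, 591607⟩ false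
 (nat_lit 550) (Int.negSucc (nat_lit 2369)) (nat_lit 600) (Int.negSucc (nat_lit 4776)) qL120_40_6_11 = true
 := by decide +kernel

def qL120_40_6_12 : PCt := .one ⟨2008000, 251, 2008000, -1238936, 647439, 0, 0, 200000, 600000, 650000⟩ ⟨0,
 .pol, .pol, .pol, .pol, .sy 625000 (.sy 612500 (.sy 606250 (.sy 603125 (.aff 3113000 8951871 498753) (.sy
 604687 (.sy 603906 (.sy 603515 (.aff 3106000 8935238 496376) (.sy 603710 (.aff 3103000 8924673 495549) (.sy
 603808 (.aff 3103000 8925756 495489) (.aff 3103000 8926480 495449)))) (.sy 604296 (.sx 100000 (.sx 50000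
 (.aff 3900000 10080169 834312) (.aff 1000000 0 0)) (.aff 1000000 0 0)) (.sy 604491 (.sy 604393 (.sy 604344
 (.sy 604320 (.sy 604308 (.sx 100000 (.sx 50000 (.aff 3900000 10081845 834173) (.aff 1000000 0 0)) (.aff
 1000000 0 0)) (.sy 604314 (.sy 604311 (.sx 100000 (.sx 50000 (.aff 3900000 10081908 834168) (.aff 1000000 0
 0)) (.aff 1000000 0 0)) (.sx 100000 (.sx 50000 (.aff 3900000 10081933 834166) (.aff 1000000 0 0)) (.aff
 1000000 0 0))) (.sx 100000 (.sx 50000 (.aff 3900000 10081971 834163) (.aff 1000000 0 0)) (.aff 1000000 0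
 0)))) (.sx 100000 (.sx 50000 (.aff 3900000 10082096 834152) (.aff 1000000 0 0)) (.aff 1000000 0 0))) (.sx
 100000 (.sx 50000 (.aff 3900000 10082400 834127) (.aff 1000000 0 0)) (.aff 1000000 0 0))) (.sx 100000 (.sx
 50000 (.aff 3900000 10083013 834077) (.aff 1000000 0 0)) (.aff 1000000 0 0))) (.sx 100000 (.sx 50000 (.aff
 4000000 10431972 862733) (.aff 1000000 0 0)) (.aff 1000000 0 0))))) (.sy 605468 (.sy 605077 (.sy 604882
 (.sx 100000 (.sx 50000 (.aff 4000000 10433658 862593) (.aff 1000000 0 0)) (.aff 1000000 0 0)) (.sy 604979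
 (.sy 604930 (.sx 100000 (.sx 50000 (.aff 4000000 10434706 862507) (.aff 1000000 0 0)) (.aff 1000000 0 0))
 (.sy 604954 (.sx 100000 (.sx 50000 (.aff 4000000 10435017 862481) (.aff 1000000 0 0)) (.aff 1000000 0 0))
 (.sy 604966 (.sx 100000 (.sx 50000 (.aff 4000000 10435172 862468) (.aff 1000000 0 0)) (.aff 1000000 0 0))
 (.sy 604972 (.sx 100000 (.sx 50000 (.aff 4000000 10435249 862462) (.aff 1000000 0 0)) (.aff 1000000 0 0))
 (.sy 604975 (.sy 604973 (.sx 100000 (.sx 50000 (.aff 4000000 10435280 862459) (.aff 1000000 0 0)) (.aff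
 1000000 0 0)) (.sy 604974 (.sx 100000 (.sx 50000 (.aff 4000000 10435288 862459) (.aff 1000000 0 0)) (.aff
 1000000 0 0)) (.sx 100000 (.sx 50000 (.aff 4000000 10435297 862458) (.aff 1000000 0 0)) (.aff 1000000 0
 0)))) (.sx 100000 (.sx 50000 (.aff 4000000 10435318 862456) (.aff 1000000 0 0)) (.aff 1000000 0 0)))))))
 (.sx 100000 (.sx 50000 (.aff 4000000 10435758 862420) (.aff 1000000 0 0)) (.aff 1000000 0 0)))) (.sx 100000
 (.sx 50000 (.aff 4000000 10437867 862246) (.aff 1000000 0 0)) (.aff 1000000 0 0))) (.sy 605859 (.sy 605663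
 (.sy 605565 (.sx 100000 (.sx 50000 (.aff 4000000 10439970 862072) (.aff 1000000 0 0)) (.aff 1000000 0 0))
 (.sy 605614 (.sx 100000 (.sx 50000 (.aff 4000000 10440600 862020) (.aff 1000000 0 0)) (.aff 1000000 0 0))
 (.sy 605638 (.sx 100000 (.sx 50000 (.aff 4000000 10440914 861994) (.aff 1000000 0 0)) (.aff 1000000 0 0))
 (.sy 605650 (.sy 605644 (.sy 605641 (.sy 605639 (.sx 100000 (.sx 50000 (.aff 4000000 10441022 861985) (.aff
 1000000 0 0)) (.aff 1000000 0 0)) (.sy 605640 (.sx 100000 (.sx 50000 (.aff 4000000 10441031 861984) (.aff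
 1000000 0 0)) (.aff 1000000 0 0)) (.sx 100000 (.sx 50000 (.aff 4000000 10441039 861984) (.aff 1000000 0 0))
 (.aff 1000000 0 0)))) (.sx 100000 (.sx 50000 (.aff 4000000 10441056 861982) (.aff 1000000 0 0)) (.aff
 1000000 0 0))) (.sx 100000 (.sx 50000 (.aff 4000000 10441095 861979) (.aff 1000000 0 0)) (.aff 1000000 0
 0))) (.sx 100000 (.sx 50000 (.aff 4000000 10441177 861972) (.aff 1000000 0 0)) (.aff 1000000 0 0)))))) (.sx
 100000 (.sx 50000 (.aff 4000000 10442078 861898) (.aff 1000000 0 0)) (.aff 1000000 0 0))) (.sx 100000 (.sx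
 50000 (.aff 4000000 10444607 861689) (.aff 1000000 0 0)) (.aff 1000000 0 0)))))) (.sy 609375 (.sy 607812
 (.sy 607031 (.sy 606640 (.sy 606445 (.sy 606347 (.sy 606298 (.sx 100000 (.sx 50000 (.aff 4000000 10446498
 861533) (.aff 1000000 0 0)) (.aff 1000000 0 0)) (.sy 606322 (.sy 606310 (.sy 606304 (.sx 100000 (.sx 50000
 (.aff 4000000 10446731 861514) (.aff 1000000 0 0)) (.aff 1000000 0 0)) (.sy 606307 (.sx 100000 (.sx 50000
 (.aff 4000000 10446770 861511) (.aff 1000000 0 0)) (.aff 1000000 0 0)) (.sy 606308 (.sx 100000 (.sx 50000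
 (.aff 4000000 10446787 861509) (.aff 1000000 0 0)) (.aff 1000000 0 0)) (.sy 606309 (.sx 100000 (.sx 50000
 (.aff 4000000 10446796 861509) (.aff 1000000 0 0)) (.aff 1000000 0 0)) (.sx 100000 (.sx 50000 (.aff 4000000
 10446804 861508) (.aff 1000000 0 0)) (.aff 1000000 0 0)))))) (.sx 100000 (.sx 50000 (.aff 4000000 10446860
 861503) (.aff 1000000 0 0)) (.aff 1000000 0 0))) (.sx 100000 (.sx 50000 (.aff 4000000 10447020 861490)
 (.aff 1000000 0 0)) (.aff 1000000 0 0)))) (.sx 100000 (.sx 50000 (.aff 4000000 10447549 861447) (.aff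
 1000000 0 0)) (.aff 1000000 0 0))) (.sx 100000 (.sx 50000 (.aff 4000000 10448811 861343) (.aff 1000000 0
 0)) (.aff 1000000 0 0))) (.sx 100000 (.sx 50000 (.aff 4000000 10451335 861135) (.aff 1000000 0 0)) (.aff
 1000000 0 0))) (.sx 100000 (.sx 50000 (.aff 4000000 10456380 860719) (.aff 1000000 0 0)) (.aff 1000000 0
 0))) (.sy 608593 (.sx 100000 (.sx 50000 (.aff 4000000 10463100 860166) (.aff 1000000 0 0)) (.aff 1000000 0
 0)) (.sx 100000 (.sx 50000 (.aff 4000000 10469820 859614) (.aff 1000000 0 0)) (.aff 1000000 0 0)))) (.sy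
 610937 (.sy 610156 (.sx 100000 (.sx 50000 (.aff 4000000 10476536 859063) (.aff 1000000 0 0)) (.aff 1000000
 0 0)) (.sx 100000 (.sx 50000 (.aff 4000000 10483243 858513) (.aff 1000000 0 0)) (.aff 1000000 0 0))) (.sy
 611718 (.sy 611327 (.sx 100000 (.sx 50000 (.aff 4000000 10488268 858102) (.aff 1000000 0 0)) (.aff 1000000
 0 0)) (.sx 100000 (.sx 50000 (.aff 4000000 10491619 857828) (.aff 1000000 0 0)) (.aff 1000000 0 0))) (.sy
 612109 (.sx 100000 (.sx 50000 (.aff 4000000 10494972 857554) (.aff 1000000 0 0)) (.aff 1000000 0 0)) (.sx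
 100000 (.sx 50000 (.aff 4000000 10498325 857280) (.aff 1000000 0 0)) (.aff 1000000 0 0))))))) (.sy 618750
 (.sy 615625 (.sy 614062 (.sy 613281 (.sy 612890 (.sx 100000 (.sx 50000 (.aff 4000000 10501672 857007) (.aff
 1000000 0 0)) (.aff 1000000 0 0)) (.sx 100000 (.sx 50000 (.aff 4000000 10505018 856734) (.aff 1000000 0 0))
 (.aff 1000000 0 0))) (.sy 613671 (.sx 100000 (.sx 50000 (.aff 4000000 10508363 856461) (.aff 1000000 0 0))
 (.aff 1000000 0 0)) (.sx 100000 (.sx 50000 (.aff 4000000 10511707 856189) (.aff 1000000 0 0)) (.aff 1000000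
 0 0)))) (.sy 614843 (.sx 100000 (.sx 50000 (.aff 4000000 10516723 855780) (.aff 1000000 0 0)) (.aff 1000000
 0 0)) (.sy 615234 (.sx 100000 (.sx 50000 (.aff 4000000 10521737 855373) (.aff 1000000 0 0)) (.aff 1000000 0
 0)) (.sx 100000 (.sx 50000 (.aff 4000000 10525081 855101) (.aff 1000000 0 0)) (.aff 1000000 0 0))))) (.sy
 617187 (.sx 100000 (.sx 50000 (.aff 4100000 10884542 882904) (.aff 1000000 0 0)) (.aff 1000000 0 0)) (.sy
 617968 (.sx 100000 (.sx 50000 (.aff 4100000 10894880 882066) (.aff 1000000 0 0)) (.aff 1000000 0 0)) (.sy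
 618359 (.sx 100000 (.sx 50000 (.aff 4200000 11251662 910088) (.aff 1500000 1435460 174161)) (.aff 1000000 0
 0)) (.sx 100000 (.sx 50000 (.aff 4200000 11255220 909801) (.aff 1500000 1435914 174106)) (.aff 1000000 0
 0)))))) (.sy 621875 (.sy 620312 (.sy 619531 (.sx 100000 (.sx 50000 (.aff 4200000 11260550 909370) (.aff
 1500000 1436594 174023)) (.aff 1000000 0 0)) (.sx 100000 (.sx 50000 (.aff 4300000 11619764 937197) (.aff
 1500000 1437500 173914)) (.aff 1000000 0 0))) (.sx 100000 (.sx 50000 (.aff 4400000 11983189 964685) (.aff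
 1500000 1438858 173749)) (.aff 1000000 0 0))) (.sy 623437 (.sy 622656 (.sx 100000 (.sx 50000 (.aff 5000000
 14111165 1133854) (.aff 1500000 1440215 173586)) (.aff 1000000 0 0)) (.sx 100000 (.sx 50000 (.aff 5000000
 14120017 1133144) (.aff 1500000 1578666 158362)) (.aff 1000000 0 0))) (.sx 100000 (.sx 50000 (.aff 5000000
 14133292 1132079) (.aff 3400000 8382412 687154)) (.aff 1000000 0 0)))))) (.sy 637500 (.sy 631250 (.sy
 628125 (.sy 626562 (.sy 625781 (.sx 100000 (.sx 50000 (.aff 5000000 14146553 1131018) (.aff 3400000 8390278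
 686509)) (.aff 1000000 0 0)) (.sx 100000 (.sx 50000 (.aff 5000000 14155384 1130312) (.aff 3400000 8395515
 686081)) (.aff 1000000 0 0))) (.sx 100000 (.sx 50000 (.aff 5000000 14168625 1129256) (.aff 3400000 8403368
 685440)) (.aff 1000000 0 0))) (.sy 629687 (.sx 100000 (.sx 50000 (.aff 5000000 14186259 1127852) (.aff
 3500000 8764403 713112)) (.aff 1000000 0 0)) (.sx 100000 (.sx 50000 (.aff 5000000 14203870 1126454) (.aff
 3550000 8950789 726473)) (.aff 1000000 0 0)))) (.sy 634375 (.sy 632812 (.sx 100000 (.sx 50000 (.aff 5000000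
 14221460 1125061) (.aff 3600000 9137597 739801)) (.aff 1000000 0 0)) (.sx 100000 (.sx 50000 (.aff 5000000
 14239029 1123673) (.aff 3600000 9148885 738888)) (.aff 1000000 0 0))) (.sy 635937 (.sx 100000 (.sx 50000
 (.aff 5000000 16462075 971931) (.aff 3650000 9336316 752171)) (.aff 1000000 0 0)) (.sx 100000 (.sx 50000
 (.aff 5000000 16482311 970738) (.aff 3650000 9347793 751247)) (.aff 1000000 0 0))))) (.sy 643750 (.sy
 640625 (.sy 639062 (.sx 100000 (.sx 50000 (.aff 5000000 16502522 969549) (.aff 3650000 9359255 750327))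
 (.aff 1000000 0 0)) (.sx 100000 (.sx 50000 (.aff 5000000 16522709 968365) (.aff 3650000 9370704 749411))
 (.aff 1000000 0 0))) (.sy 642187 (.sx 100000 (.sx 50000 (.aff 5000000 16542871 967184) (.aff 3650000
 9382139 748497)) (.aff 1000000 0 0)) (.sx 100000 (.sx 50000 (.aff 5000000 16563008 966009) (.aff 3650000
 9393559 747587)) (.aff 1000000 0 0)))) (.sy 646875 (.sy 645312 (.sx 100000 (.sx 50000 (.aff 5000000
 16583121 964837) (.aff 3650000 9404966 746680)) (.aff 1000000 0 0)) (.sx 100000 (.sx 50000 (.aff 5000000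
 16603210 963670) (.aff 3650000 9416359 745777)) (.aff 1000000 0 0))) (.sx 100000 (.sx 50000 (.aff 5000000
 16633300 961926) (.sx 75000 (.aff 4567000 10753849 1183157) (.aff 1000000 0 0))) (.aff 1000000 0 0))))),
 .pol, .aff 5000000 14142136 1131371, .pol, .pol⟩

def hL120_40_6_12 : pcchk ⟨(nat_lit 1), (nat_lit 1000), Int.ofNat (nat_lit 1000), 0, ⟨0, 1⟩, ⟨Int.ofNat
 (nat_lit 40), 200⟩⟩ ⟨600000, 650000, 790411, 774755, 806384, 612032, 632797, 591949, 632455, 591607⟩ false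
 (nat_lit 600) (Int.negSucc (nat_lit 4776)) (nat_lit 650) (Int.negSucc (nat_lit 7861)) qL120_40_6_12 = true
 := by decide +kernel

def qL120_40_6_13 : PCt := .one ⟨2008000, 251, 2008000, -955407, 463145, 0, 0, 200000, 650000, 700000⟩ ⟨0,
 .pol, .pol, .pol, .pol, .sx 100000 (.aff 4600000 10800001 1200000) (.aff 1000000 0 0), .pol, .sy 675000
 (.sx 100000 (.aff 7400000 19021392 2153366) .pol) (.sx 100000 (.sx 50000 (.aff 8000000 29972210 1634848)
 (.aff 7500000 18219888 2318895)) (.aff 1000000 0 0)), .pol, .pol⟩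

def hL120_40_6_13 : pcchk ⟨(nat_lit 1), (nat_lit 1000), Int.ofNat (nat_lit 1000), 0, ⟨0, 1⟩, ⟨Int.ofNat
 (nat_lit 40), 200⟩⟩ ⟨600000, 650000, 790411, 774755, 806384, 612032, 632797, 591949, 632455, 591607⟩ false
 (nat_lit 650) (Int.negSucc (nat_lit 7861)) (nat_lit 700) (Int.negSucc (nat_lit 10240)) qL120_40_6_13 = true
 := by decide +kernel

def qL120_40_6_14 : PCt := .one ⟨2008000, 251, 2008000, -928500, 444310, 0, 0, 200000, 700000, 750000⟩ ⟨0,
 .pol, .pol, .pol, .pol, .aff 1500000 1346292 185696, .pol, .sx 100000 (.sy 725000 (.aff 8000000 18684887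
 2622441) (.aff 8000000 19009866 2577609)) (.sx 150000 (.sy 725000 (.aff 7750000 17858077 2551367) (.aff
 8000000 17922674 2733968)) (.aff 1000000 0 0)), .pol, .pol⟩

def hL120_40_6_14 : pcchk ⟨(nat_lit 1), (nat_lit 1000), Int.ofNat (nat_lit 1000), 0, ⟨0, 1⟩, ⟨Int.ofNat
 (nat_lit 40), 200⟩⟩ ⟨600000, 650000, 790411, 774755, 806384, 612032, 632797, 591949, 632455, 591607⟩ false
 (nat_lit 700) (Int.negSucc (nat_lit 10240)) (nat_lit 750) (Int.negSucc (nat_lit 12552)) qL120_40_6_14 =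
 true := by decide +kernel

def qL120_40_6_15 : PCt := .one ⟨2008000, 251, 2008000, -1277490, 706052, 0, 0, 200000, 750000, 800000⟩ ⟨0,
 .pol, .pol, .pol, .pol, .aff 1000000 0 0, .pol, .sx 100000 (.aff 8000000 19487176 2514475) (.sy 775000 (.sy
 762500 (.sx 150000 (.aff 8400000 18201594 3008528) (.aff 1000000 0 0)) (.sx 150000 (.sx 125000 (.aff
 12000000 28754710 4208007) (.sx 137500 (.aff 12000000 26009614 4652126) (.aff 9100000 18938533 3464366)))
 (.aff 1500000 1047958 238560))) (.sx 150000 (.aff 10000000 20621591 3927922) (.sx 175000 (.aff 9850000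
 19868201 3942104) (.aff 1000000 0 0)))), .sx 100000 (.inf 3149604 317501) .pol, .pol⟩

def hL120_40_6_15 : pcchk ⟨(nat_lit 1), (nat_lit 1000), Int.ofNat (nat_lit 1000), 0, ⟨0, 1⟩, ⟨Int.ofNat
 (nat_lit 40), 200⟩⟩ ⟨600000, 650000, 790411, 774755, 806384, 612032, 632797, 591949, 632455, 591607⟩ false
 (nat_lit 750) (Int.negSucc (nat_lit 12552)) (nat_lit 800) (Int.negSucc (nat_lit 15733)) qL120_40_6_15 =
 true := by decide +kernel

def qL120_40_6_16 : PCt := .one ⟨2008000, 251, 2008000, -1521261, 901069, 0, 0, 200000, 800000, 850000⟩ ⟨0,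
 .pol, .pol, .pol, .pol, .aff 1000000 0 0, .pol, .sx 100000 (.aff 12000000 36482873 3316625) (.sx 150000
 (.aff 12000000 28259512 4281745) (.sx 175000 (.aff 11500000 22798027 4835945) (.sx 187500 (.sy 825000 (.sy
 812500 (.aff 11126000 21529281 4762625) (.aff 11400000 21732434 4976894)) (.aff 12000000 23645369 5117282))
 (.sy 825000 (.aff 11051000 21103645 4786975) (.aff 11900000 22305087 5326588))))), .sx 100000 (.inf 4062020
 246183) .pol, .pol⟩

def hL120_40_6_16 : pcchk ⟨(nat_lit 1), (nat_lit 1000), Int.ofNat (nat_lit 1000), 0, ⟨0, 1⟩, ⟨Int.ofNat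
 (nat_lit 40), 200⟩⟩ ⟨600000, 650000, 790411, 774755, 806384, 612032, 632797, 591949, 632455, 591607⟩ false
 (nat_lit 800) (Int.negSucc (nat_lit 15733)) (nat_lit 850) (Int.negSucc (nat_lit 19521)) qL120_40_6_16 =
 true := by decide +kernel

def qL120_40_6_17 : PCt := .one ⟨2008000, 251, 2008000, -4207965, 3184768, 0, 0, 200000, 850000, 900000⟩ ⟨0,
 .pol, .pol, .pol, .pol, .aff 1000000 0 0, .pol, .aff 20000000 39741352 9083738, .inf 2366432 422578, .pol⟩

def hL120_40_6_17 : pcchk ⟨(nat_lit 1), (nat_lit 1000), Int.ofNat (nat_lit 1000), 0, ⟨0, 1⟩, ⟨Int.ofNat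
 (nat_lit 40), 200⟩⟩ ⟨600000, 650000, 790411, 774755, 806384, 612032, 632797, 591949, 632455, 591607⟩ false
 (nat_lit 850) (Int.negSucc (nat_lit 19521)) (nat_lit 900) (Int.negSucc (nat_lit 29999)) qL120_40_6_17 =
 true := by decide +kernel

def qL120_40_6_18 : PCt := .one ⟨2008000, 251, 2008000, 0, -602400, 0, 0, 200000, 900000, 950000⟩ ⟨0, .pol,
 .pol, .pol, .pol, .aff 1000000 0 0, .pol, .aff 20000000 40861046 8834821, .inf 2433106 410998, .pol⟩

def hL120_40_6_18 : pcchk ⟨(nat_lit 1), (nat_lit 1000), Int.ofNat (nat_lit 1000), 0, ⟨0, 1⟩, ⟨Int.ofNat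
 (nat_lit 40), 200⟩⟩ ⟨600000, 650000, 790411, 774755, 806384, 612032, 632797, 591949, 632455, 591607⟩ false
 (nat_lit 900) (Int.negSucc (nat_lit 29999)) (nat_lit 950) (Int.negSucc (nat_lit 29999)) qL120_40_6_18 =
 true := by decide +kernel

def qL120_40_6_19 : PCt := .one ⟨2008000, 251, 2008000, 0, -602400, 0, 0, 200000, 950000, 1000000⟩ ⟨0, .pol,
 .pol, .pol, .pol, .aff 1000000 0 0, .pol, .aff 12000000 24287343 4982019, .inf 3122499 320257, .pol⟩

def hL120_40_6_19 : pcchk ⟨(nat_lit 1), (nat_lit 1000), Int.ofNat (nat_lit 1000), 0, ⟨0, 1⟩, ⟨Int.ofNat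
 (nat_lit 40), 200⟩⟩ ⟨600000, 650000, 790411, 774755, 806384, 612032, 632797, 591949, 632455, 591607⟩ false
 (nat_lit 950) (Int.negSucc (nat_lit 29999)) (nat_lit 1000) (Int.negSucc (nat_lit 29999)) qL120_40_6_19 =
 true := by decide +kernel

end CB
end Pool.Agent.Lib.MP_6947cd_al
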