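import Pool.Agent.Lib.MP_6947cd_al.L.PairSplit

/-!
Problem MP_6947cd_al (Chollet).  Library of pair functions: certificates of the pieces (generated).
-/

set_option autoImplicit false
set_option linter.defProp false
set_option maxRecDepth 100000

namespace Pool.Agent.Lib.MP_6947cd_al
namespace CB

open CA

def qL120_60_0_0 : PCt := .one ⟨2008000, 251, 522080, 698382, 0, 0, 0, 300000, 0, 50000⟩ ⟨5000, .pol, .pol,
 .pol, .pol, .sy 25000 (.sx 152500 .pol (.sy 12500 (.aff 125000 158960 4816464) (.aff 250000 187500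
 3000000))) (.aff 0 353554 2828423), .pol, .pol, .sx 152500 .pol .pol, .pol⟩

def hL120_60_0_0 : pcchk ⟨(nat_lit 3), (nat_lit 1000), Int.ofNat (nat_lit 260), 0, ⟨0, 1⟩, ⟨Int.ofNat
 (nat_lit 60), 200⟩⟩ ⟨600000, 650000, 790411, 774755, 806384, 612032, 632797, 591949, 632455, 591607⟩ true 0
 0 (nat_lit 50) (Int.ofNat (nat_lit 1739)) qL120_60_0_0 = true := by decide +kernel

def qL120_60_0_1 : PCt := .one ⟨2008000, 251, 522080, 52208, 32308, 0, 0, 300000, 50000, 100000⟩ ⟨0, .pol,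
 .pol, .pol, .pol, .sy 75000 (.sx 150000 .pol (.aff 1000000 0 0)) (.sy 87500 (.sx 150000 (.aff 0 1040833
 960769) (.aff 1000000 0 0)) (.sy 93750 (.sx 150000 (.aff 0 897528 1114172) (.aff 1000000 0 0)) (.sy 96875
 (.sy 95312 (.sx 150000 (.aff 125000 934437 819344) (.aff 1000000 0 0)) (.sx 150000 (.sx 75000 (.aff 0
 1600779 624696) (.aff 250000 693158 811504)) (.aff 1000000 0 0))) (.sy 98437 (.sx 150000 (.sx 75000 (.aff 0
 1613741 619679) (.aff 125000 815233 939149)) (.aff 1000000 0 0)) (.sx 150000 (.sy 99218 (.sx 75000 (.aff 0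
 1623392 615995) (.aff 125000 710234 1077990)) (.sy 99609 (.sx 75000 (.aff 0 1628198 614176) (.aff 150000
 691984 1044100)) (.sy 99804 (.sy 99706 (.sy 99657 (.sx 75000 (.aff 0 1629994 613500) (.aff 150000 692748
 1042948)) (.sy 99681 (.sx 75000 (.aff 0 1630289 613389) (.sx 112500 (.aff 0 1031085 969853) (.aff 250000
 653570 860658))) (.sy 99693 (.sx 75000 (.aff 0 1630436 613333) (.sx 112500 (.aff 0 1031178 969765) (.aff
 250000 653629 860580))) (.sx 75000 (.aff 0 1630538 613295) (.sx 112500 (.aff 0 1031243 969704) (.aff 250000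
 653670 860526)))))) (.sy 99755 (.sy 99730 (.sy 99718 (.sx 75000 (.aff 0 1630640 613257) (.sx 112500 (.aff 0
 1031308 969643) (.aff 250000 653711 860472))) (.sx 75000 (.aff 0 1630739 613219) (.sx 112500 (.aff 0
 1031370 969585) (.aff 250000 653750 860421)))) (.sy 99742 (.sx 75000 (.aff 0 1630837 613183) (.sx 112500
 (.aff 0 1031432 969526) (.aff 250000 653789 860370))) (.sy 99748 (.sx 75000 (.aff 0 1630910 613155) (.sx
 112500 (.aff 0 1031478 969483) (.aff 250000 653819 860330))) (.sx 75000 (.aff 0 1630963 613135) (.sx 112500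
 (.aff 0 1031512 969451) (.aff 250000 653840 860303)))))) (.sy 99779 (.sy 99767 (.sy 99761 (.sx 75000 (.aff
 0 1631017 613115) (.sx 112500 (.aff 0 1031546 969419) (.aff 250000 653862 860274))) (.sx 75000 (.aff 0
 1631066 613096) (.sx 112500 (.aff 0 1031577 969390) (.aff 250000 653881 860249)))) (.sy 99773 (.sy 99770
 (.sx 75000 (.aff 0 1631102 613083) (.sx 112500 (.aff 0 1031600 969368) (.aff 250000 653896 860229))) (.sx
 75000 (.aff 0 1631127 613074) (.sx 112500 (.aff 0 1031615 969354) (.aff 250000 653906 860216)))) (.sy 99776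
 (.sx 75000 (.aff 0 1631151 613065) (.sx 112500 (.aff 0 1031631 969339) (.aff 250000 653916 860203))) (.sx
 75000 (.aff 0 1631176 613055) (.sx 112500 (.aff 0 1031646 969325) (.aff 250000 653925 860191)))))) (.sy
 99791 (.sy 99785 (.sy 99782 (.sy 99780 (.sx 75000 (.aff 0 1631192 613049) (.sx 112500 (.aff 0 1031657
 969315) (.aff 250000 653932 860182))) (.sx 75000 (.aff 0 1631205 613044) (.sx 112500 (.aff 0 1031665
 969307) (.aff 250000 653937 860175)))) (.sy 99783 (.sx 75000 (.aff 0 1631217 613040) (.sx 112500 (.aff 0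
 1031672 969301) (.aff 250000 653942 860169))) (.sy 99784 (.sx 75000 (.aff 0 1631225 613037) (.sx 112500
 (.aff 0 1031677 969296) (.aff 250000 653945 860165))) (.sx 75000 (.aff 0 1631233 613034) (.sx 112500 (.aff
 0 1031683 969290) (.aff 250000 653948 860161)))))) (.sy 99788 (.sy 99786 (.sx 75000 (.aff 0 1631241 613031)
 (.sx 112500 (.aff 0 1031688 969286) (.aff 250000 653952 860155))) (.sy 99787 (.sx 75000 (.aff 0 1631250
 613027) (.sx 112500 (.aff 0 1031693 969281) (.aff 250000 653955 860151))) (.sx 75000 (.aff 0 1631258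
 613024) (.sx 112500 (.aff 0 1031698 969276) (.aff 250000 653958 860147))))) (.sy 99789 (.sx 75000 (.aff 0
 1631266 613021) (.sx 112500 (.aff 0 1031703 969272) (.aff 250000 653962 860142))) (.sy 99790 (.sx 75000
 (.aff 0 1631274 613018) (.sx 112500 (.aff 0 1031708 969267) (.aff 250000 653965 860138))) (.sx 75000 (.aff
 0 1631282 613015) (.sx 112500 (.aff 0 1031714 969261) (.aff 250000 653968 860134))))))) (.sy 99797 (.sy
 99794 (.sy 99792 (.sx 75000 (.aff 0 1631290 613012) (.sx 112500 (.aff 0 1031719 969257) (.aff 250000 653971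
 860130))) (.sy 99793 (.sx 75000 (.aff 0 1631299 613009) (.sx 112500 (.aff 0 1031724 969252) (.aff 250000
 653975 860125))) (.sx 75000 (.aff 0 1631307 613006) (.sx 112500 (.aff 0 1031729 969247) (.aff 250000 653978
 860121))))) (.sy 99795 (.sx 75000 (.aff 0 1631315 613003) (.sx 112500 (.aff 0 1031734 969243) (.aff 250000
 653981 860117))) (.sy 99796 (.sx 75000 (.aff 0 1631323 613000) (.sx 112500 (.aff 0 1031739 969238) (.aff
 250000 653984 860113))) (.sx 75000 (.aff 0 1631331 612997) (.sx 112500 (.aff 0 1031745 969232) (.aff 250000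
 653988 860108)))))) (.sy 99800 (.sy 99798 (.sx 75000 (.aff 0 1631339 612994) (.sx 112500 (.aff 0 1031750
 969228) (.aff 250000 653991 860104))) (.sy 99799 (.sx 75000 (.aff 0 1631348 612990) (.sx 112500 (.aff 0
 1031755 969223) (.aff 250000 653994 860100))) (.sx 75000 (.aff 0 1631356 612987) (.sx 112500 (.aff 0
 1031760 969218) (.aff 250000 653998 860095))))) (.sy 99802 (.sx 75000 (.aff 0 1631368 612983) (.sx 112500
 (.aff 0 1031768 969211) (.aff 250000 654002 860090))) (.sx 75000 (.aff 0 1631384 612977) (.sx 112500 (.aff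
 0 1031778 969201) (.aff 250000 654009 860080)))))))))) (.sy 99902 (.sy 99853 (.sy 99828 (.sy 99816 (.sy
 99810 (.sy 99807 (.sx 75000 (.aff 0 1631405 612969) (.sx 112500 (.aff 0 1031791 969189) (.aff 250000 654017
 860070))) (.sx 75000 (.aff 0 1631429 612960) (.sx 112500 (.aff 0 1031807 969174) (.aff 250000 654027
 860057)))) (.sy 99813 (.sx 75000 (.aff 0 1631454 612951) (.sx 112500 (.aff 0 1031822 969160) (.aff 250000
 654037 860044))) (.sx 75000 (.aff 0 1631478 612942) (.sx 112500 (.aff 0 1031838 969145) (.aff 250000 654047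
 860030))))) (.sy 99822 (.sx 75000 (.aff 0 1631515 612928) (.sx 112500 (.aff 0 1031861 969123) (.aff 250000
 654061 860012))) (.sx 75000 (.aff 0 1631564 612909) (.sx 112500 (.aff 0 1031892 969094) (.aff 250000 654081
 859986))))) (.sy 99840 (.sy 99834 (.sx 75000 (.aff 0 1631613 612891) (.sx 112500 (.aff 0 1031923 969065)
 (.aff 250000 654101 859959))) (.sx 75000 (.aff 0 1631662 612873) (.sx 112500 (.aff 0 1031954 969036) (.aff
 250000 654120 859934)))) (.sx 75000 (.aff 0 1631740 612843) (.sx 112500 (.aff 0 1032003 968990) (.aff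
 250000 654152 859892))))) (.sy 99877 (.sy 99865 (.sx 75000 (.aff 0 1631842 612805) (.sx 112500 (.aff 0
 1032068 968929) (.aff 250000 654192 859840))) (.sx 75000 (.aff 0 1631940 612768) (.sx 112500 (.aff 0
 1032130 968871) (.aff 250000 654232 859787)))) (.sy 99889 (.sx 75000 (.aff 0 1632038 612731) (.sx 112500
 (.aff 0 1032192 968813) (.aff 250000 654271 859736))) (.sx 75000 (.aff 0 1632140 612693) (.sx 112500 (.aff
 0 1032256 968752) (.aff 250000 654312 859682)))))) (.sx 75000 (.aff 0 1632594 612523) (.sx 112500 (.aff 0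
 1032543 968483) (.aff 250000 654494 859443))))))) (.aff 1000000 0 0)))))), .pol, .pol, .sx 150000 (.sx
 75000 (.sx 37500 .pol .pol) .pol) .pol, .pol⟩

def hL120_60_0_1 : pcchk ⟨(nat_lit 3), (nat_lit 1000), Int.ofNat (nat_lit 260), 0, ⟨0, 1⟩, ⟨Int.ofNat
 (nat_lit 60), 200⟩⟩ ⟨600000, 650000, 790411, 774755, 806384, 612032, 632797, 591949, 632455, 591607⟩ false
 (nat_lit 50) (Int.ofNat (nat_lit 1739)) (nat_lit 100) (Int.ofNat (nat_lit 1869)) qL120_60_0_1 = true := by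
 decide +kernel

def qL120_60_0_2 : PCt := .one ⟨2008000, 251, 522080, 347384, 2791, 0, 0, 300000, 100000, 150000⟩ ⟨0, .pol,
 .pol, .pol, .pol, .sx 150000 (.sy 125000 (.sx 75000 (.aff 0 1414214 707107) (.sx 112500 (.aff 175000 861685
 789877) (.aff 250000 694366 810092))) (.sy 137500 (.sy 131250 (.sy 128125 (.sy 126562 (.sy 125781 (.sx
 75000 (.aff 0 1493039 669775) (.sx 112500 (.aff 250000 867378 648507) (.aff 1000000 0 0))) (.sy 126171 (.sx
 75000 (.aff 0 1496521 668217) (.sx 112500 (.aff 250000 869400 646998) (.aff 1000000 0 0))) (.sx 75000 (.aff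
 0 1498839 667184) (.sx 112500 (.aff 250000 870747 645998) (.aff 1000000 0 0))))) (.sy 127343 (.sx 75000
 (.aff 0 1502310 665642) (.sx 112500 (.aff 250000 872763 644505) (.aff 1000000 0 0))) (.sy 127734 (.sx 75000
 (.aff 0 1505773 664111) (.sx 112500 (.aff 250000 874775 643023) (.aff 1000000 0 0))) (.sx 75000 (.aff 0
 1508079 663096) (.aff 253000 821867 678953))))) (.sx 75000 (.aff 0 1314978 760469) (.aff 259000 825995
 664751))) (.sx 75000 (.aff 125000 1352403 566122) (.aff 250000 819680 686244))) (.sx 75000 (.sx 37500 (.aff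
 0 2768875 361158) (.aff 250000 1198958 469158)) (.aff 300000 874491 560326)))) (.aff 1000000 0 0), .pol,
 .pol, .sy 125000 (.sy 112500 (.sx 150000 (.sx 75000 .pol .pol) .pol) (.sx 150000 (.sx 75000 .pol .pol)
 .pol)) (.sy 137500 (.sx 150000 (.sx 75000 .pol .pol) .pol) (.sx 150000 (.sx 75000 .pol .pol) .pol)), .pol⟩

def hL120_60_0_2 : pcchk ⟨(nat_lit 3), (nat_lit 1000), Int.ofNat (nat_lit 260), 0, ⟨0, 1⟩, ⟨Int.ofNat
 (nat_lit 60), 200⟩⟩ ⟨600000, 650000, 790411, 774755, 806384, 612032, 632797, 591949, 632455, 591607⟩ false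
 (nat_lit 100) (Int.ofNat (nat_lit 1869)) (nat_lit 150) (Int.ofNat (nat_lit 2734)) qL120_60_0_2 = true := by
 decide +kernel

def qL120_60_0_3 : PCt := .one ⟨2008000, 251, 522080, 331721, 5140, 0, 0, 300000, 150000, 200000⟩ ⟨0, .pol,
 .pol, .pol, .pol, .sx 150000 (.sy 175000 (.sy 162500 (.sx 75000 (.sx 37500 (.aff 0 2886752 346411) (.aff
 250000 1250000 450000)) (.aff 500000 645498 387298)) (.sx 75000 (.sx 37500 (.aff 0 2449490 408249) (.aff
 275000 1222194 430067)) (.aff 1000000 0 0))) (.sy 187500 (.sx 75000 (.sx 37500 (.aff 250000 1903944 295440)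
 (.aff 325000 1262576 360870)) (.aff 1000000 0 0)) (.sy 193750 (.sx 75000 (.sx 37500 (.aff 250000 1952563
 288083) (.aff 325000 1231668 369926)) (.aff 1000000 0 0)) (.sx 75000 (.sx 37500 (.aff 250000 1718466
 327327) (.aff 350000 1332104 317168)) (.aff 1000000 0 0))))) (.aff 1000000 0 0), .pol, .pol, .sx 150000
 .pol .pol, .pol⟩

def hL120_60_0_3 : pcchk ⟨(nat_lit 3), (nat_lit 1000), Int.ofNat (nat_lit 260), 0, ⟨0, 1⟩, ⟨Int.ofNat
 (nat_lit 60), 200⟩⟩ ⟨600000, 650000, 790411, 774755, 806384, 612032, 632797, 591949, 632455, 591607⟩ false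
 (nat_lit 150) (Int.ofNat (nat_lit 2734)) (nat_lit 200) (Int.ofNat (nat_lit 3560)) qL120_60_0_3 = true := by
 decide +kernel

def qL120_60_0_4 : PCt := .one ⟨2008000, 251, 522080, 328107, 5863, 0, 0, 300000, 200000, 250000⟩ ⟨0, .pol,
 .pol, .pol, .pol, .sx 150000 (.sy 225000 (.sx 75000 (.sx 37500 (.aff 375000 1634175 239035) (.aff 375000
 1330727 293543)) (.aff 1000000 0 0)) (.sy 237500 (.sy 231250 (.sx 75000 (.sx 37500 (.aff 425000 1637601
 201896) (.aff 1000000 0 0)) (.aff 1000000 0 0)) (.sx 75000 (.sx 37500 (.aff 425000 1659883 199186) (.aff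
 1000000 0 0)) (.aff 1000000 0 0))) (.sy 243750 (.sx 75000 (.sy 240625 (.sy 239062 (.sx 37500 (.sy 238281
 (.aff 491000 1735423 149290) (.aff 494000 1738859 147244)) (.aff 1000000 0 0)) (.sx 37500 (.sy 239843 (.aff
 497000 1742230 145222) (.aff 500000 1745538 143223)) (.aff 1000000 0 0))) (.sx 37500 (.aff 475000 1707282
 161441) (.aff 1000000 0 0))) (.aff 1000000 0 0)) (.sx 75000 (.sx 37500 (.aff 500000 1725811 144860) (.aff
 1000000 0 0)) (.aff 1000000 0 0))))) (.aff 1000000 0 0), .pol, .pol, .sx 150000 .pol .pol, .pol⟩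

def hL120_60_0_4 : pcchk ⟨(nat_lit 3), (nat_lit 1000), Int.ofNat (nat_lit 260), 0, ⟨0, 1⟩, ⟨Int.ofNat
 (nat_lit 60), 200⟩⟩ ⟨600000, 650000, 790411, 774755, 806384, 612032, 632797, 591949, 632455, 591607⟩ false
 (nat_lit 200) (Int.ofNat (nat_lit 3560)) (nat_lit 250) (Int.ofNat (nat_lit 4377)) qL120_60_0_4 = true := by
 decide +kernel

def qL120_60_0_5 : PCt := .one ⟨2008000, 251, 522080, 311240, 10080, 0, 0, 300000, 250000, 300000⟩ ⟨0, .pol,
 .pol, .pol, .pol, .sx 150000 (.sy 275000 (.sy 262500 (.sy 256250 (.sx 75000 (.sx 37500 (.aff 500000 1837118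
 136083) (.aff 1000000 0 0)) (.aff 1000000 0 0)) (.sy 259375 (.sx 75000 (.sx 37500 (.aff 500000 1677614
 149022) (.aff 1000000 0 0)) (.aff 1000000 0 0)) (.sx 75000 (.sx 37500 (.aff 500000 1687751 148127) (.aff
 1000000 0 0)) (.aff 1000000 0 0)))) (.sy 268750 (.sy 265625 (.sx 75000 (.sx 37500 (.aff 550000 1775334
 114064) (.aff 1000000 0 0)) (.aff 1000000 0 0)) (.sy 267187 (.sx 75000 (.sx 37500 (.aff 575000 1861249
 97046) (.aff 1000000 0 0)) (.aff 1000000 0 0)) (.sx 75000 (.sx 37500 (.aff 525000 1795705 125648) (.aff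
 1000000 0 0)) (.aff 1000000 0 0)))) (.sy 271875 (.sy 270312 (.sx 75000 (.sx 37500 (.aff 550000 1706147
 118689) (.aff 1000000 0 0)) (.aff 1000000 0 0)) (.sx 75000 (.sx 37500 (.aff 550000 1711085 118346) (.aff
 1000000 0 0)) (.aff 1000000 0 0))) (.sy 273437 (.sx 75000 (.sx 37500 (.aff 550000 1716009 118007) (.aff
 1000000 0 0)) (.aff 1000000 0 0)) (.sx 75000 (.sx 37500 (.aff 550000 1720919 117670) (.aff 1000000 0 0))
 (.aff 1000000 0 0)))))) (.sy 287500 (.sy 281250 (.sy 278125 (.sx 75000 (.sx 37500 (.aff 550000 1728258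
 117171) (.aff 1000000 0 0)) (.aff 1000000 0 0)) (.sx 75000 (.sx 37500 (.aff 550000 1737995 116514) (.aff
 1000000 0 0)) (.aff 1000000 0 0))) (.sy 284375 (.sx 75000 (.sx 37500 (.aff 600000 1892261 84555) (.aff
 1000000 0 0)) (.aff 1000000 0 0)) (.sx 75000 (.aff 613000 1734050 86370) (.aff 1000000 0 0)))) (.sx 75000
 (.aff 612000 1740231 86509) (.aff 1000000 0 0)))) (.aff 1000000 0 0), .pol, .pol, .sx 150000 .pol .pol,
 .pol⟩

def hL120_60_0_5 : pcchk ⟨(nat_lit 3), (nat_lit 1000), Int.ofNat (nat_lit 260), 0, ⟨0, 1⟩, ⟨Int.ofNat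
 (nat_lit 60), 200⟩⟩ ⟨600000, 650000, 790411, 774755, 806384, 612032, 632797, 591949, 632455, 591607⟩ false
 (nat_lit 250) (Int.ofNat (nat_lit 4377)) (nat_lit 300) (Int.ofNat (nat_lit 5152)) qL120_60_0_5 = true := by
 decide +kernel

def qL120_60_0_6 : PCt := .one ⟨2008000, 251, 522080, 290356, 16345, 0, 0, 300000, 300000, 350000⟩ ⟨0, .pol,
 .pol, .pol, .pol, .sx 150000 (.sy 325000 (.sy 312500 (.sx 75000 (.aff 626000 1756116 79651) (.aff 1000000 0
 0)) (.sy 318750 (.sy 315625 (.sy 314062 (.sy 313281 (.sx 75000 (.aff 625000 1746739 80508) (.aff 1000000 0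
 0)) (.sx 75000 (.sx 37500 (.aff 650000 1831853 66873) (.aff 1000000 0 0)) (.aff 1000000 0 0))) (.sy 314843
 (.sy 314452 (.sx 75000 (.sx 37500 (.aff 650000 1833562 66810) (.aff 1000000 0 0)) (.aff 1000000 0 0)) (.sy
 314647 (.sx 75000 (.sx 37500 (.aff 650000 1834415 66779) (.aff 1000000 0 0)) (.aff 1000000 0 0)) (.sy
 314745 (.sx 75000 (.sx 37500 (.aff 650000 1834842 66764) (.aff 1000000 0 0)) (.aff 1000000 0 0)) (.sy
 314794 (.sx 75000 (.sx 37500 (.aff 650000 1835056 66756) (.aff 1000000 0 0)) (.aff 1000000 0 0)) (.sy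
 314818 (.sx 75000 (.sx 37500 (.aff 650000 1835163 66752) (.aff 1000000 0 0)) (.aff 1000000 0 0)) (.sx 75000
 (.sx 37500 (.aff 650000 1835234 66749) (.aff 1000000 0 0)) (.aff 1000000 0 0))))))) (.sy 315234 (.sy 315038
 (.sy 314940 (.sy 314891 (.sy 314867 (.sy 314855 (.sy 314849 (.sx 75000 (.sx 37500 (.aff 650000 1835279
 66748) (.aff 1000000 0 0)) (.aff 1000000 0 0)) (.sy 314852 (.sy 314850 (.sx 75000 (.sx 37500 (.aff 650000
 1835290 66747) (.aff 1000000 0 0)) (.aff 1000000 0 0)) (.sy 314851 (.sx 75000 (.sx 37500 (.aff 650000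
 1835292 66747) (.aff 1000000 0 0)) (.aff 1000000 0 0)) (.sx 75000 (.sx 37500 (.aff 650000 1835295 66747)
 (.aff 1000000 0 0)) (.aff 1000000 0 0)))) (.sx 75000 (.sx 37500 (.aff 650000 1835301 66747) (.aff 1000000 0
 0)) (.aff 1000000 0 0)))) (.sx 75000 (.sx 37500 (.aff 650000 1835323 66746) (.aff 1000000 0 0)) (.aff
 1000000 0 0))) (.sx 75000 (.sx 37500 (.aff 650000 1835375 66744) (.aff 1000000 0 0)) (.aff 1000000 0 0)))
 (.sx 75000 (.sx 37500 (.aff 650000 1835482 66740) (.aff 1000000 0 0)) (.aff 1000000 0 0))) (.sx 75000 (.sx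
 37500 (.aff 650000 1835696 66733) (.aff 1000000 0 0)) (.aff 1000000 0 0))) (.sx 75000 (.sx 37500 (.aff
 650000 1836124 66717) (.aff 1000000 0 0)) (.aff 1000000 0 0))) (.sx 75000 (.sx 37500 (.aff 650000 1836979
 66686) (.aff 1000000 0 0)) (.aff 1000000 0 0))))) (.sy 317187 (.sy 316406 (.sy 316015 (.sy 315820 (.sy
 315722 (.sy 315673 (.sx 75000 (.sx 37500 (.aff 650000 1837618 66663) (.aff 1000000 0 0)) (.aff 1000000 0
 0)) (.sy 315697 (.sx 75000 (.sx 37500 (.aff 650000 1837723 66659) (.aff 1000000 0 0)) (.aff 1000000 0 0))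
 (.sy 315709 (.sy 315703 (.sy 315700 (.sx 75000 (.sx 37500 (.aff 650000 1837762 66658) (.aff 1000000 0 0))
 (.aff 1000000 0 0)) (.sx 75000 (.sx 37500 (.aff 650000 1837771 66657) (.aff 1000000 0 0)) (.aff 1000000 0
 0))) (.sx 75000 (.sx 37500 (.aff 650000 1837784 66657) (.aff 1000000 0 0)) (.aff 1000000 0 0))) (.sx 75000
 (.sx 37500 (.aff 650000 1837812 66656) (.aff 1000000 0 0)) (.aff 1000000 0 0))))) (.sx 75000 (.sx 37500
 (.aff 650000 1837973 66650) (.aff 1000000 0 0)) (.aff 1000000 0 0))) (.sx 75000 (.sx 37500 (.aff 650000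
 1838400 66635) (.aff 1000000 0 0)) (.aff 1000000 0 0))) (.sx 75000 (.sx 37500 (.aff 650000 1839252 66604)
 (.aff 1000000 0 0)) (.aff 1000000 0 0))) (.sx 75000 (.sx 37500 (.aff 750000 1775021 35211) (.aff 1000000 0
 0)) (.aff 1000000 0 0))) (.sx 75000 (.sx 37500 (.aff 750000 1778302 35146) (.aff 1000000 0 0)) (.aff
 1000000 0 0)))) (.sx 75000 (.sx 37500 (.aff 750000 1789192 34932) (.aff 1000000 0 0)) (.aff 1000000 0 0))))
 (.sx 75000 (.aff 750000 1748733 35741) (.aff 1000000 0 0))) (.aff 1000000 0 0), .pol, .pol, .pol, .pol⟩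

def hL120_60_0_6 : pcchk ⟨(nat_lit 3), (nat_lit 1000), Int.ofNat (nat_lit 260), 0, ⟨0, 1⟩, ⟨Int.ofNat
 (nat_lit 60), 200⟩⟩ ⟨600000, 650000, 790411, 774755, 806384, 612032, 632797, 591949, 632455, 591607⟩ false
 (nat_lit 300) (Int.ofNat (nat_lit 5152)) (nat_lit 350) (Int.ofNat (nat_lit 5875)) qL120_60_0_6 = true := by
 decide +kernel

def qL120_60_0_7 : PCt := .one ⟨2008000, 251, 522080, 267064, 24497, 0, 0, 300000, 350000, 400000⟩ ⟨0, .pol,
 .pol, .pol, .pol, .sx 150000 (.sx 75000 (.sx 37500 (.sx 18750 (.aff 900000 1555590 6429) (.aff 1000000 0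
 0)) (.aff 1000000 0 0)) (.aff 1000000 0 0)) (.aff 1000000 0 0), .pol, .pol, .pol, .pol⟩

def hL120_60_0_7 : pcchk ⟨(nat_lit 3), (nat_lit 1000), Int.ofNat (nat_lit 260), 0, ⟨0, 1⟩, ⟨Int.ofNat
 (nat_lit 60), 200⟩⟩ ⟨600000, 650000, 790411, 774755, 806384, 612032, 632797, 591949, 632455, 591607⟩ false
 (nat_lit 350) (Int.ofNat (nat_lit 5875)) (nat_lit 400) (Int.ofNat (nat_lit 6540)) qL120_60_0_7 = true := by
 decide +kernel

def qL120_60_0_8 : PCt := .one ⟨2008000, 251, 522080, 247787, 32208, 0, 0, 300000, 400000, 450000⟩ ⟨0, .pol,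
 .pol, .pol, .pol, .sx 150000 (.sx 75000 (.sx 37500 (.sx 18750 (.sx 9375 (.aff 1100000 1735005 5764) (.aff
 1000000 0 0)) (.aff 1000000 0 0)) (.aff 1000000 0 0)) (.aff 1000000 0 0)) (.aff 1000000 0 0), .pol, .pol,
 .pol, .pol⟩

def hL120_60_0_8 : pcchk ⟨(nat_lit 3), (nat_lit 1000), Int.ofNat (nat_lit 260), 0, ⟨0, 1⟩, ⟨Int.ofNat
 (nat_lit 60), 200⟩⟩ ⟨600000, 650000, 790411, 774755, 806384, 612032, 632797, 591949, 632455, 591607⟩ false
 (nat_lit 400) (Int.ofNat (nat_lit 6540)) (nat_lit 450) (Int.ofNat (nat_lit 7157)) qL120_60_0_8 = true := by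
 decide +kernel

def qL120_60_0_9 : PCt := .one ⟨2008000, 251, 522080, 222084, 43774, 0, 0, 300000, 450000, 500000⟩ ⟨0, .pol,
 .pol, .pol, .pol, .sx 150000 (.sx 75000 (.aff 1300000 2489515 36152) (.aff 1000000 0 0)) (.aff 1000000 0
 0), .pol, .pol, .pol, .pol⟩

def hL120_60_0_9 : pcchk ⟨(nat_lit 3), (nat_lit 1000), Int.ofNat (nat_lit 260), 0, ⟨0, 1⟩, ⟨Int.ofNat
 (nat_lit 60), 200⟩⟩ ⟨600000, 650000, 790411, 774755, 806384, 612032, 632797, 591949, 632455, 591607⟩ false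
 (nat_lit 450) (Int.ofNat (nat_lit 7157)) (nat_lit 500) (Int.ofNat (nat_lit 7710)) qL120_60_0_9 = true := by
 decide +kernel

def qL120_60_0_10 : PCt := .one ⟨2008000, 251, 522080, 195177, 57228, 0, 0, 300000, 500000, 550000⟩ ⟨0,
 .pol, .pol, .pol, .pol, .sx 150000 (.sx 75000 (.sy 525000 (.sx 37500 (.sx 18750 (.aff 1500000 3018462
 82824) (.aff 1000000 0 0)) (.aff 1000000 0 0)) (.sx 37500 (.aff 1550000 2944770 102725) (.aff 1000000 0
 0))) (.aff 1000000 0 0)) (.aff 1000000 0 0), .pol, .pol, .pol, .pol⟩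

def hL120_60_0_10 : pcchk ⟨(nat_lit 3), (nat_lit 1000), Int.ofNat (nat_lit 260), 0, ⟨0, 1⟩, ⟨Int.ofNat
 (nat_lit 60), 200⟩⟩ ⟨600000, 650000, 790411, 774755, 806384, 612032, 632797, 591949, 632455, 591607⟩ false
 (nat_lit 500) (Int.ofNat (nat_lit 7710)) (nat_lit 550) (Int.ofNat (nat_lit 8196)) qL120_60_0_10 = true :=
 by decide +kernel

def qL120_60_0_11 : PCt := .one ⟨2008000, 251, 522080, 165459, 73573, 0, 0, 300000, 550000, 600000⟩ ⟨0,
 .pol, .pol, .pol, .pol, .sx 150000 (.sx 75000 (.sy 575000 (.sy 562500 (.sy 556250 (.sx 37500 (.aff 1550000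
 2987265 101264) (.aff 1000000 0 0)) (.sx 37500 (.sx 18750 (.aff 2000000 6306963 158555) (.aff 1600000
 2931212 122817)) (.aff 1000000 0 0))) (.sy 568750 (.sx 37500 (.sx 18750 (.aff 2000000 7767454 128743) (.aff
 1600000 2947542 122136)) (.aff 1000000 0 0)) (.sx 37500 (.sx 18750 (.aff 2000000 7810250 128037) (.aff
 1600000 2963782 121467)) (.aff 1000000 0 0)))) (.sx 37500 (.aff 1850000 3364397 214749) (.aff 1500000
 1770123 141234))) (.aff 1000000 0 0)) (.aff 1000000 0 0), .pol, .pol, .pol, .pol⟩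

def hL120_60_0_11 : pcchk ⟨(nat_lit 3), (nat_lit 1000), Int.ofNat (nat_lit 260), 0, ⟨0, 1⟩, ⟨Int.ofNat
 (nat_lit 60), 200⟩⟩ ⟨600000, 650000, 790411, 774755, 806384, 612032, 632797, 591949, 632455, 591607⟩ false
 (nat_lit 550) (Int.ofNat (nat_lit 8196)) (nat_lit 600) (Int.ofNat (nat_lit 8608)) qL120_60_0_11 = true :=
 by decide +kernel

def qL120_60_0_12 : PCt := .one ⟨2008000, 251, 522080, 133732, 92608, 0, 0, 300000, 600000, 650000⟩ ⟨0,
 .pol, .pol, .pol, .pol, .sx 150000 (.sx 75000 (.sx 37500 (.aff 2000000 4714046 212132) (.sx 56250 (.aff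
 1988000 3376705 289082) (.aff 2000000 3202564 312250))) (.aff 1000000 0 0)) (.aff 1000000 0 0), .pol, .pol,
 .pol, .pol⟩

def hL120_60_0_12 : pcchk ⟨(nat_lit 3), (nat_lit 1000), Int.ofNat (nat_lit 260), 0, ⟨0, 1⟩, ⟨Int.ofNat
 (nat_lit 60), 200⟩⟩ ⟨600000, 650000, 790411, 774755, 806384, 612032, 632797, 591949, 632455, 591607⟩ false
 (nat_lit 600) (Int.ofNat (nat_lit 8608)) (nat_lit 650) (Int.ofNat (nat_lit 8941)) qL120_60_0_12 = true :=
 by decide +kernel

def qL120_60_0_13 : PCt := .one ⟨2008000, 251, 522080, 98392, 115580, 0, 0, 300000, 650000, 700000⟩ ⟨0,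
 .pol, .pol, .pol, .pol, .sy 675000 (.sx 150000 (.sx 75000 (.sy 662500 (.sx 37500 (.aff 2000000 4830459
 207020) (.aff 1950000 3244868 278132)) (.sx 37500 (.aff 2000000 4876247 205076) (.sx 56250 (.aff 2000000
 3601347 277674) (.aff 2100000 3511478 344585)))) (.aff 1900000 2922192 277190)) (.aff 1000000 0 0)) (.sx
 150000 (.sx 75000 (.aff 3000000 6055301 660579) (.aff 2188000 3298561 427867)) (.aff 1000000 0 0)), .pol,
 .pol, .pol, .pol⟩

def hL120_60_0_13 : pcchk ⟨(nat_lit 3), (nat_lit 1000), Int.ofNat (nat_lit 260), 0, ⟨0, 1⟩, ⟨Int.ofNat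
 (nat_lit 60), 200⟩⟩ ⟨600000, 650000, 790411, 774755, 806384, 612032, 632797, 591949, 632455, 591607⟩ false
 (nat_lit 650) (Int.ofNat (nat_lit 8941)) (nat_lit 700) (Int.ofNat (nat_lit 9186)) qL120_60_0_13 = true :=
 by decide +kernel

def qL120_60_0_14 : PCt := .one ⟨2008000, 251, 522080, 60641, 142005, 0, 0, 300000, 700000, 750000⟩ ⟨0,
 .pol, .pol, .pol, .pol, .sx 150000 (.sy 725000 (.sx 75000 (.aff 3000000 7118053 561952) (.sy 712500 (.aff
 2222000 3354014 445223) (.sx 112500 (.aff 2500000 3791438 593443) (.aff 2000000 2340127 427328)))) (.sx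
 75000 (.aff 3000000 7241854 552345) (.sx 112500 (.aff 2700000 4352650 663964) (.aff 2300000 3197916
 528470)))) (.aff 1000000 0 0), .pol, .pol, .pol, .pol⟩

def hL120_60_0_14 : pcchk ⟨(nat_lit 3), (nat_lit 1000), Int.ofNat (nat_lit 260), 0, ⟨0, 1⟩, ⟨Int.ofNat
 (nat_lit 60), 200⟩⟩ ⟨600000, 650000, 790411, 774755, 806384, 612032, 632797, 591949, 632455, 591607⟩ false
 (nat_lit 700) (Int.ofNat (nat_lit 9186)) (nat_lit 750) (Int.ofNat (nat_lit 9337)) qL120_60_0_14 = true :=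
 by decide +kernel

def qL120_60_0_15 : PCt := .one ⟨2008000, 251, 522080, 16064, 175438, 0, 0, 300000, 750000, 800000⟩ ⟨0,
 .pol, .pol, .pol, .pol, .sx 150000 (.sx 75000 (.aff 3000000 7423686 538816) (.sx 112500 (.aff 3000000
 5750363 695609) (.aff 2750000 3977803 769898))) (.sx 225000 (.aff 2663000 3644304 758875) (.aff 1000000 0
 0)), .pol, .pol, .pol, .pol⟩

def hL120_60_0_15 : pcchk ⟨(nat_lit 3), (nat_lit 1000), Int.ofNat (nat_lit 260), 0, ⟨0, 1⟩, ⟨Int.ofNat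
 (nat_lit 60), 200⟩⟩ ⟨600000, 650000, 790411, 774755, 806384, 612032, 632797, 591949, 632455, 591607⟩ false
 (nat_lit 750) (Int.ofNat (nat_lit 9337)) (nat_lit 800) (Int.ofNat (nat_lit 9377)) qL120_60_0_15 = true :=
 by decide +kernel

def qL120_60_0_16 : PCt := .one ⟨2008000, 251, 522080, -34136, 215598, 0, 0, 300000, 800000, 850000⟩ ⟨0,
 .pol, .pol, .pol, .pol, .sy 825000 (.sx 150000 (.aff 3000000 4654747 859338) (.sx 225000 (.sx 187500 (.aff
 3000000 4271489 936442) (.aff 3000000 3969582 1007663)) (.aff 1500000 879665 284200))) (.sy 837500 (.sx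
 150000 (.aff 3000000 4708149 849591) (.sx 225000 (.sx 187500 (.aff 3000000 4438886 901127) (.aff 3000000
 4015123 996234)) (.aff 3000000 3693376 1083020))) (.sx 150000 (.aff 3000000 4743417 843274) (.sx 225000
 (.aff 3100000 4247460 1038268) (.aff 3000000 3721043 1074968)))), .pol, .pol, .pol, .pol⟩

def hL120_60_0_16 : pcchk ⟨(nat_lit 3), (nat_lit 1000), Int.ofNat (nat_lit 260), 0, ⟨0, 1⟩, ⟨Int.ofNat
 (nat_lit 60), 200⟩⟩ ⟨600000, 650000, 790411, 774755, 806384, 612032, 632797, 591949, 632455, 591607⟩ false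
 (nat_lit 800) (Int.ofNat (nat_lit 9377)) (nat_lit 850) (Int.ofNat (nat_lit 9292)) qL120_60_0_16 = true :=
 by decide +kernel

def qL120_60_0_17 : PCt := .one ⟨2008000, 251, 522080, -87549, 260999, 0, 0, 300000, 850000, 900000⟩ ⟨0,
 .pol, .pol, .pol, .pol, .sx 150000 (.aff 3000000 5577734 717138) (.sx 225000 (.aff 4200000 6310486 1622696)
 (.sx 262500 (.aff 3338000 4320350 1265232) (.sy 875000 (.aff 3200000 3918480 1235173) (.aff 3537000 4470568
 1439721)))), .pol, .pol, .pol, .pol⟩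

def hL120_60_0_17 : pcchk ⟨(nat_lit 3), (nat_lit 1000), Int.ofNat (nat_lit 260), 0, ⟨0, 1⟩, ⟨Int.ofNat
 (nat_lit 60), 200⟩⟩ ⟨600000, 650000, 790411, 774755, 806384, 612032, 632797, 591949, 632455, 591607⟩ false
 (nat_lit 850) (Int.ofNat (nat_lit 9292)) (nat_lit 900) (Int.ofNat (nat_lit 9074)) qL120_60_0_17 = true :=
 by decide +kernel

def qL120_60_0_18 : PCt := .one ⟨2008000, 251, 522080, -267466, 422924, 0, 0, 300000, 900000, 950000⟩ ⟨0,
 .pol, .pol, .pol, .pol, .aff 4557000 6245887 2025693, .pol, .pol, .pol, .pol⟩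

def hL120_60_0_18 : pcchk ⟨(nat_lit 3), (nat_lit 1000), Int.ofNat (nat_lit 260), 0, ⟨0, 1⟩, ⟨Int.ofNat
 (nat_lit 60), 200⟩⟩ ⟨600000, 650000, 790411, 774755, 806384, 612032, 632797, 591949, 632455, 591607⟩ false
 (nat_lit 900) (Int.ofNat (nat_lit 9074)) (nat_lit 950) (Int.ofNat (nat_lit 8408)) qL120_60_0_18 = true :=
 by decide +kernel

def qL120_60_0_19 : PCt := .one ⟨2008000, 251, 522080, -15424653, 14822252, 0, 0, 300000, 950000, 1000000⟩
 ⟨0, .pol, .pol, .pol, .pol, .inf 2039608 490291, .pol, .pol, .inf 2039608 490291, .pol⟩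

def hL120_60_0_19 : pcchk ⟨(nat_lit 3), (nat_lit 1000), Int.ofNat (nat_lit 260), 0, ⟨0, 1⟩, ⟨Int.ofNat
 (nat_lit 60), 200⟩⟩ ⟨600000, 650000, 790411, 774755, 806384, 612032, 632797, 591949, 632455, 591607⟩ false
 (nat_lit 950) (Int.ofNat (nat_lit 8408)) (nat_lit 1000) (Int.negSucc (nat_lit 29999)) qL120_60_0_19 = true
 := by decide +kernel

def qL120_60_1_0 : PCt := .one ⟨2008000, 251, 803200, 267465, 0, 0, 0, 300000, 0, 50000⟩ ⟨25000, .aff
 3162278 316228, .pol, .pol, .pol, .aff 0 516398 1936491, .aff 0 3841565 260311, .pol, .pol, .pol⟩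

def hL120_60_1_0 : pcchk ⟨(nat_lit 3), (nat_lit 1000), Int.ofNat (nat_lit 400), 0, ⟨0, 1⟩, ⟨Int.ofNat
 (nat_lit 60), 200⟩⟩ ⟨600000, 650000, 790411, 774755, 806384, 612032, 632797, 591949, 632455, 591607⟩ true 0
 0 (nat_lit 50) (Int.ofNat (nat_lit 666)) qL120_60_1_0 = true := by decide +kernel

def qL120_60_1_1 : PCt := .one ⟨2008000, 251, 803200, 301601, -1707, 0, 0, 300000, 50000, 100000⟩ ⟨0, .pol,
 .pol, .pol, .pol, .sy 75000 (.sx 150000 (.sx 75000 (.sx 37500 (.aff 0 3851875 259614) (.aff 0 1054093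
 948683)) .pol) .pol) (.sy 87500 (.sx 150000 (.aff 0 3531049 283202) .pol) (.sy 93750 (.sx 150000 (.sx 75000
 (.aff 0 3624688 275886) .pol) .pol) (.sx 150000 (.sx 75000 (.sx 37500 (.aff 0 3734775 267754) (.aff 0
 1312335 762001)) .pol) .pol))), .pol, .pol, .sx 150000 (.sx 75000 (.sx 37500 .pol .pol) .pol) .pol, .pol⟩

def hL120_60_1_1 : pcchk ⟨(nat_lit 3), (nat_lit 1000), Int.ofNat (nat_lit 400), 0, ⟨0, 1⟩, ⟨Int.ofNat
 (nat_lit 60), 200⟩⟩ ⟨600000, 650000, 790411, 774755, 806384, 612032, 632797, 591949, 632455, 591607⟩ false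
 (nat_lit 50) (Int.ofNat (nat_lit 666)) (nat_lit 100) (Int.ofNat (nat_lit 1417)) qL120_60_1_1 = true := by
 decide +kernel

def qL120_60_1_2 : PCt := .one ⟨2008000, 251, 803200, 336139, -5161, 0, 0, 300000, 100000, 150000⟩ ⟨0, .pol,
 .pol, .pol, .pol, .sx 150000 (.sx 75000 (.sy 125000 (.sx 37500 (.aff 0 3733901 267817) (.aff 0 1414214
 707107)) (.sx 37500 (.aff 0 3597679 277957) (.aff 0 1563472 639603))) (.aff 0 1054093 948683)) .pol, .pol,
 .pol, .sx 150000 (.sx 75000 .pol .pol) .pol, .pol⟩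

def hL120_60_1_2 : pcchk ⟨(nat_lit 3), (nat_lit 1000), Int.ofNat (nat_lit 400), 0, ⟨0, 1⟩, ⟨Int.ofNat
 (nat_lit 60), 200⟩⟩ ⟨600000, 650000, 790411, 774755, 806384, 612032, 632797, 591949, 632455, 591607⟩ false
 (nat_lit 100) (Int.ofNat (nat_lit 1417)) (nat_lit 150) (Int.ofNat (nat_lit 2254)) qL120_60_1_2 = true := by
 decide +kernel

def qL120_60_1_3 : PCt := .one ⟨2008000, 251, 803200, 372684, -10643, 0, 0, 300000, 150000, 200000⟩ ⟨0,
 .pol, .pol, .pol, .pol, .sx 150000 (.sx 75000 (.sx 37500 (.aff 0 3571716 279978) (.aff 0 1763835 566947))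
 (.aff 0 1247220 801784)) .pol, .pol, .pol, .sx 150000 .pol .pol, .pol⟩

def hL120_60_1_3 : pcchk ⟨(nat_lit 3), (nat_lit 1000), Int.ofNat (nat_lit 400), 0, ⟨0, 1⟩, ⟨Int.ofNat
 (nat_lit 60), 200⟩⟩ ⟨600000, 650000, 790411, 774755, 806384, 612032, 632797, 591949, 632455, 591607⟩ false
 (nat_lit 150) (Int.ofNat (nat_lit 2254)) (nat_lit 200) (Int.ofNat (nat_lit 3182)) qL120_60_1_3 = true := by
 decide +kernel

def qL120_60_1_4 : PCt := .one ⟨2008000, 251, 803200, 401198, -16346, 0, 0, 300000, 200000, 250000⟩ ⟨0,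
 .pol, .pol, .pol, .pol, .sy 225000 (.sx 150000 (.sx 75000 (.aff 0 3430220 291527) (.aff 0 1374369 727607))
 .pol) (.sy 237500 (.sy 231250 (.sy 228125 (.sy 226562 (.sx 150000 (.sx 75000 (.aff 25000 3383356 280972)
 (.aff 0 1416666 705883)) .pol) (.sx 150000 (.sx 75000 (.aff 25000 3395043 280004) (.aff 0 1421560 703453))
 .pol)) (.sx 150000 (.sx 75000 (.aff 25000 3412500 278572) (.aff 0 1428870 699854)) .pol)) (.sx 150000 (.sx
 75000 (.aff 38000 3401184 272095) (.aff 0 1443376 692821)) .pol)) (.sy 243750 (.sx 150000 (.sx 75000 (.aff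
 50000 3403246 265188) (.aff 0 1462495 683764)) (.aff 0 1034140 966988)) (.sx 150000 (.sx 75000 (.aff 75000
 3356446 254920) (.aff 0 1481366 675053)) (.aff 0 1047484 954669)))), .pol, .pol, .sx 150000 .pol .pol,
 .pol⟩

def hL120_60_1_4 : pcchk ⟨(nat_lit 3), (nat_lit 1000), Int.ofNat (nat_lit 400), 0, ⟨0, 1⟩, ⟨Int.ofNat
 (nat_lit 60), 200⟩⟩ ⟨600000, 650000, 790411, 774755, 806384, 612032, 632797, 591949, 632455, 591607⟩ false
 (nat_lit 200) (Int.ofNat (nat_lit 3182)) (nat_lit 250) (Int.ofNat (nat_lit 4181)) qL120_60_1_4 = true := by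
 decide +kernel

def qL120_60_1_5 : PCt := .one ⟨2008000, 251, 803200, 347384, -2892, 0, 0, 300000, 250000, 300000⟩ ⟨0, .pol,
 .pol, .pol, .pol, .sx 150000 (.sy 275000 (.sy 262500 (.sy 256250 (.sy 253125 (.sy 251562 (.sx 75000 (.aff
 75000 3382895 252927) (.aff 0 1493039 669775)) (.sx 75000 (.aff 66000 3426434 254596) (.aff 0 1497683
 667699))) (.sy 254687 (.sx 75000 (.sx 37500 (.aff 300000 3642914 134508) (.aff 0 2124591 470679)) (.aff 0
 1502313 665641)) (.sx 75000 (.sx 37500 (.aff 300000 3654106 134096) (.aff 0 2334523 428354)) (.aff 0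
 1506928 663602)))) (.sy 259375 (.sy 257812 (.sy 257031 (.sx 75000 (.sx 37500 (.aff 300000 3662478 133790)
 (.aff 0 2339872 427374)) (.aff 0 1510381 662085)) (.sy 257421 (.sx 75000 (.sx 37500 (.aff 300000 3666654
 133637) (.aff 0 2342539 426888)) (.aff 0 1512103 661331)) (.sy 257616 (.sy 257518 (.sx 75000 (.sx 37500
 (.aff 275000 3799403 138345) (.aff 0 2343648 426686)) (.aff 0 1512818 661019)) (.sy 257567 (.sx 75000 (.sx
 37500 (.aff 275000 3799941 138325) (.aff 0 2343980 426625)) (.aff 0 1513033 660925)) (.sy 257591 (.sx 75000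
 (.sx 37500 (.aff 275000 3800210 138315) (.aff 0 2344146 426595)) (.aff 0 1513140 660878)) (.sy 257603 (.sy
 257597 (.sx 75000 (.sx 37500 (.aff 275000 3800321 138311) (.aff 0 2344214 426583)) (.aff 0 1513184 660859))
 (.sy 257600 (.sx 75000 (.sx 37500 (.aff 275000 3800354 138310) (.aff 0 2344235 426579)) (.aff 0 1513197
 660853)) (.sy 257601 (.sx 75000 (.sx 37500 (.aff 275000 3800369 138309) (.aff 0 2344244 426577)) (.aff 0
 1513203 660850)) (.sx 75000 (.sx 37500 (.aff 275000 3800380 138309) (.aff 0 2344251 426576)) (.aff 0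
 1513208 660848))))) (.sy 257609 (.sx 75000 (.sx 37500 (.aff 275000 3800410 138308) (.aff 0 2344269 426573))
 (.aff 0 1513219 660843)) (.sx 75000 (.sx 37500 (.aff 275000 3800458 138306) (.aff 0 2344299 426567)) (.aff
 0 1513238 660835))))))) (.sx 75000 (.sx 37500 (.aff 275000 3801206 138279) (.aff 0 2344760 426483)) (.aff 0
 1513536 660705))))) (.sx 75000 (.sx 37500 (.aff 275000 3807687 138044) (.aff 1000000 0 0)) (.aff 0 1516117
 659580))) (.sy 260937 (.sx 75000 (.sx 37500 (.aff 275000 3819173 137628) (.aff 1000000 0 0)) (.aff 0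
 1520690 657597)) (.sx 75000 (.sx 37500 (.aff 325000 3566444 127754) (.aff 1000000 0 0)) (.aff 0 1525250
 655631))))) (.sy 268750 (.sy 265625 (.sy 264062 (.sx 75000 (.sx 37500 (.aff 325000 3577074 127374) (.aff
 1000000 0 0)) (.aff 0 1529796 653682)) (.sx 75000 (.sx 37500 (.aff 325000 3587673 126998) (.aff 1000000 0
 0)) (.aff 0 1534329 651751))) (.sy 267187 (.sx 75000 (.sx 37500 (.aff 325000 3598241 126625) (.aff 1000000
 0 0)) (.aff 0 1538849 649837)) (.sx 75000 (.sx 37500 (.aff 325000 3608777 126255) (.aff 1000000 0 0)) (.aff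
 0 1543355 647940)))) (.sy 271875 (.sy 270312 (.sx 75000 (.sx 37500 (.aff 325000 3619283 125889) (.aff
 1000000 0 0)) (.aff 0 1547848 646059)) (.sx 75000 (.sx 37500 (.aff 325000 3629759 125525) (.aff 1000000 0
 0)) (.aff 0 1552328 644194))) (.sx 75000 (.sx 37500 (.aff 325000 3645417 124986) (.aff 1000000 0 0)) (.aff
 0 1559024 641427))))) (.sy 287500 (.sy 281250 (.sx 75000 (.sx 37500 (.aff 325000 3676531 123928) (.aff
 1000000 0 0)) (.aff 0 1572331 635999)) (.sx 75000 (.sy 284375 (.sx 37500 (.aff 325000 3707383 122897) (.aff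
 1000000 0 0)) (.sy 285937 (.sx 37500 (.aff 325000 3722712 122391) (.aff 1000000 0 0)) (.sx 37500 (.aff
 328000 3716307 121515) (.aff 1000000 0 0)))) (.aff 0 1589899 628971))) (.sy 293750 (.sx 75000 (.aff 375000
 3670825 106414) (.aff 0 1760682 567962)) (.sy 296875 (.sx 75000 (.aff 375000 3700310 105566) (.aff 1000000
 0 0)) (.sx 75000 (.sy 298437 (.aff 388000 3637692 102962) (.aff 382000 3682985 103700)) (.aff 1000000 0
 0)))))) (.aff 0 1105542 904534), .pol, .pol, .sx 150000 .pol .pol, .pol⟩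

def hL120_60_1_5 : pcchk ⟨(nat_lit 3), (nat_lit 1000), Int.ofNat (nat_lit 400), 0, ⟨0, 1⟩, ⟨Int.ofNat
 (nat_lit 60), 200⟩⟩ ⟨600000, 650000, 790411, 774755, 806384, 612032, 632797, 591949, 632455, 591607⟩ false
 (nat_lit 250) (Int.ofNat (nat_lit 4181)) (nat_lit 300) (Int.ofNat (nat_lit 5046)) qL120_60_1_5 = true := by
 decide +kernel

def qL120_60_1_6 : PCt := .one ⟨2008000, 251, 803200, 315256, 6746, 0, 0, 300000, 300000, 350000⟩ ⟨0, .pol,
 .pol, .pol, .pol, .sx 150000 (.sy 325000 (.aff 550000 3531152 57347) (.sx 75000 (.aff 625000 3540814 39716)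
 (.aff 1000000 0 0))) (.aff 1000000 0 0), .pol, .pol, .pol, .pol⟩

def hL120_60_1_6 : pcchk ⟨(nat_lit 3), (nat_lit 1000), Int.ofNat (nat_lit 400), 0, ⟨0, 1⟩, ⟨Int.ofNat
 (nat_lit 60), 200⟩⟩ ⟨600000, 650000, 790411, 774755, 806384, 612032, 632797, 591949, 632455, 591607⟩ false
 (nat_lit 300) (Int.ofNat (nat_lit 5046)) (nat_lit 350) (Int.ofNat (nat_lit 5831)) qL120_60_1_6 = true := by
 decide +kernel

def qL120_60_1_7 : PCt := .one ⟨2008000, 251, 803200, 288750, 16023, 0, 0, 300000, 350000, 400000⟩ ⟨0, .pol,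
 .pol, .pol, .pol, .sx 150000 (.sx 75000 (.sx 37500 (.aff 800000 3994834 10013) (.aff 1000000 0 0)) (.aff
 1000000 0 0)) (.aff 1000000 0 0), .pol, .pol, .pol, .pol⟩

def hL120_60_1_7 : pcchk ⟨(nat_lit 3), (nat_lit 1000), Int.ofNat (nat_lit 400), 0, ⟨0, 1⟩, ⟨Int.ofNat
 (nat_lit 60), 200⟩⟩ ⟨600000, 650000, 790411, 774755, 806384, 612032, 632797, 591949, 632455, 591607⟩ false
 (nat_lit 350) (Int.ofNat (nat_lit 5831)) (nat_lit 400) (Int.ofNat (nat_lit 6550)) qL120_60_1_7 = true := by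
 decide +kernel

def qL120_60_1_8 : PCt := .one ⟨2008000, 251, 803200, 232526, 38513, 0, 0, 300000, 400000, 450000⟩ ⟨0, .pol,
 .pol, .pol, .pol, .sx 150000 (.sx 75000 (.sx 37500 (.sx 18750 (.aff 1150000 3882484 5796) (.aff 1000000 0
 0)) (.aff 1000000 0 0)) (.aff 1000000 0 0)) (.aff 1000000 0 0), .pol, .pol, .pol, .pol⟩

def hL120_60_1_8 : pcchk ⟨(nat_lit 3), (nat_lit 1000), Int.ofNat (nat_lit 400), 0, ⟨0, 1⟩, ⟨Int.ofNat
 (nat_lit 60), 200⟩⟩ ⟨600000, 650000, 790411, 774755, 806384, 612032, 632797, 591949, 632455, 591607⟩ false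
 (nat_lit 400) (Int.ofNat (nat_lit 6550)) (nat_lit 450) (Int.ofNat (nat_lit 7129)) qL120_60_1_8 = true := by
 decide +kernel

def qL120_60_1_9 : PCt := .one ⟨2008000, 251, 803200, 180318, 62007, 0, 0, 300000, 450000, 500000⟩ ⟨0, .pol,
 .pol, .pol, .pol, .sx 150000 (.sx 75000 (.sx 37500 (.sx 18750 (.sx 9375 (.aff 1500000 4554249 54894) (.aff
 1000000 0 0)) (.aff 1000000 0 0)) (.aff 1000000 0 0)) (.aff 1000000 0 0)) (.aff 1000000 0 0), .pol, .pol,
 .pol, .pol⟩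

def hL120_60_1_9 : pcchk ⟨(nat_lit 3), (nat_lit 1000), Int.ofNat (nat_lit 400), 0, ⟨0, 1⟩, ⟨Int.ofNat
 (nat_lit 60), 200⟩⟩ ⟨600000, 650000, 790411, 774755, 806384, 612032, 632797, 591949, 632455, 591607⟩ false
 (nat_lit 450) (Int.ofNat (nat_lit 7129)) (nat_lit 500) (Int.ofNat (nat_lit 7578)) qL120_60_1_9 = true := by
 decide +kernel

def qL120_60_1_10 : PCt := .one ⟨2008000, 251, 803200, 124496, 89918, 0, 0, 300000, 500000, 550000⟩ ⟨0,
 .pol, .pol, .pol, .pol, .sy 525000 (.sx 150000 (.sx 75000 (.sx 37500 (.sx 18750 (.sx 9375 (.aff 2000000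
 8537499 117131) (.aff 1900000 5030195 161028)) (.aff 1000000 0 0)) (.aff 1000000 0 0)) (.aff 1000000 0 0))
 (.aff 1000000 0 0)) (.sy 537500 (.sx 150000 (.sx 75000 (.sx 37500 (.aff 1975000 5189834 183171) (.aff
 1000000 0 0)) (.aff 1000000 0 0)) (.aff 1000000 0 0)) (.sx 150000 (.sx 75000 (.aff 1932000 5018974 173069)
 (.aff 1000000 0 0)) (.aff 1000000 0 0))), .pol, .pol, .pol, .pol⟩

def hL120_60_1_10 : pcchk ⟨(nat_lit 3), (nat_lit 1000), Int.ofNat (nat_lit 400), 0, ⟨0, 1⟩, ⟨Int.ofNat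
 (nat_lit 60), 200⟩⟩ ⟨600000, 650000, 790411, 774755, 806384, 612032, 632797, 591949, 632455, 591607⟩ false
 (nat_lit 500) (Int.ofNat (nat_lit 7578)) (nat_lit 550) (Int.ofNat (nat_lit 7888)) qL120_60_1_10 = true :=
 by decide +kernel

def qL120_60_1_11 : PCt := .one ⟨2008000, 251, 803200, 68272, 120841, 0, 0, 300000, 550000, 600000⟩ ⟨0,
 .pol, .pol, .pol, .pol, .sx 150000 (.sx 75000 (.sy 575000 (.sy 562500 (.sx 37500 (.sx 18750 (.aff 2000000
 5446712 183598) (.aff 2000000 4871687 205268)) (.aff 1000000 0 0)) (.sx 37500 (.sy 568750 (.sx 18750 (.aff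
 2000000 5492420 182070) (.aff 2050000 5158198 213738)) (.sx 18750 (.aff 3000000 15620500 256074) (.sx 28125
 (.aff 3000000 9879272 404889) (.aff 2000000 4332348 230822)))) (.aff 1000000 0 0))) (.sx 37500 (.aff
 2438000 5691768 363305) (.aff 2100000 4756472 254391))) (.aff 1000000 0 0)) (.aff 1000000 0 0), .pol, .pol,
 .pol, .pol⟩

def hL120_60_1_11 : pcchk ⟨(nat_lit 3), (nat_lit 1000), Int.ofNat (nat_lit 400), 0, ⟨0, 1⟩, ⟨Int.ofNat
 (nat_lit 60), 200⟩⟩ ⟨600000, 650000, 790411, 774755, 806384, 612032, 632797, 591949, 632455, 591607⟩ false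
 (nat_lit 550) (Int.ofNat (nat_lit 7888)) (nat_lit 600) (Int.ofNat (nat_lit 8058)) qL120_60_1_11 = true :=
 by decide +kernel

def qL120_60_1_12 : PCt := .one ⟨2008000, 251, 803200, 6024, 158190, 0, 0, 300000, 600000, 650000⟩ ⟨0, .pol,
 .pol, .pol, .pol, .sx 150000 (.sx 75000 (.sx 37500 (.aff 3000000 9428091 424265) (.sx 56250 (.sx 46875
 (.aff 2700000 6207523 465565) (.aff 2675000 5583334 502500)) (.aff 2500000 4803845 468375))) (.aff 1000000
 0 0)) (.aff 1000000 0 0), .pol, .pol, .pol, .pol⟩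

def hL120_60_1_12 : pcchk ⟨(nat_lit 3), (nat_lit 1000), Int.ofNat (nat_lit 400), 0, ⟨0, 1⟩, ⟨Int.ofNat
 (nat_lit 60), 200⟩⟩ ⟨600000, 650000, 790411, 774755, 806384, 612032, 632797, 591949, 632455, 591607⟩ false
 (nat_lit 600) (Int.ofNat (nat_lit 8058)) (nat_lit 650) (Int.ofNat (nat_lit 8073)) qL120_60_1_12 = true :=
 by decide +kernel

def qL120_60_1_13 : PCt := .one ⟨2008000, 251, 803200, -59437, 200739, 0, 0, 300000, 650000, 700000⟩ ⟨0,
 .pol, .pol, .pol, .pol, .sx 150000 (.sx 75000 (.aff 2918000 6011873 611910) (.sx 112500 (.aff 3106000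
 6031594 735334) (.aff 1000000 0 0))) (.aff 1000000 0 0), .pol, .pol, .pol, .pol⟩

def hL120_60_1_13 : pcchk ⟨(nat_lit 3), (nat_lit 1000), Int.ofNat (nat_lit 400), 0, ⟨0, 1⟩, ⟨Int.ofNat
 (nat_lit 60), 200⟩⟩ ⟨600000, 650000, 790411, 774755, 806384, 612032, 632797, 591949, 632455, 591607⟩ false
 (nat_lit 650) (Int.ofNat (nat_lit 8073)) (nat_lit 700) (Int.ofNat (nat_lit 7925)) qL120_60_1_13 = true :=
 by decide +kernel

def qL120_60_1_14 : PCt := .one ⟨2008000, 251, 803200, -135340, 253871, 0, 0, 300000, 700000, 750000⟩ ⟨0,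
 .pol, .pol, .pol, .pol, .sx 150000 (.sy 725000 (.sx 75000 (.aff 5000000 14236105 1123903) (.sy 712500 (.aff
 3188000 6005386 797176) (.sx 112500 (.sx 93750 (.aff 5000000 11674601 1370497) (.aff 3300000 6214934
 851176)) (.aff 1500000 1170064 213664)))) (.sx 75000 (.aff 5000000 14483708 1104690) (.sx 112500 (.aff
 3800000 7169070 1093587) (.aff 3400000 5903845 975636)))) (.aff 1000000 0 0), .pol, .pol, .pol, .pol⟩

def hL120_60_1_14 : pcchk ⟨(nat_lit 3), (nat_lit 1000), Int.ofNat (nat_lit 400), 0, ⟨0, 1⟩, ⟨Int.ofNat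
 (nat_lit 60), 200⟩⟩ ⟨600000, 650000, 790411, 774755, 806384, 612032, 632797, 591949, 632455, 591607⟩ false
 (nat_lit 700) (Int.ofNat (nat_lit 7925)) (nat_lit 750) (Int.ofNat (nat_lit 7588)) qL120_60_1_14 = true :=
 by decide +kernel

def qL120_60_1_15 : PCt := .one ⟨2008000, 251, 803200, -219676, 317123, 0, 0, 300000, 750000, 800000⟩ ⟨0,
 .pol, .pol, .pol, .pol, .sx 150000 (.sx 75000 (.aff 5000000 18184243 879883) (.sx 112500 (.aff 5000000
 11500725 1391217) (.sx 131250 (.aff 4400000 8261904 1399194) (.aff 4000000 6819091 1319825)))) (.aff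
 3775000 6235089 1235047), .pol, .pol, .pol, .pol⟩

def hL120_60_1_15 : pcchk ⟨(nat_lit 3), (nat_lit 1000), Int.ofNat (nat_lit 400), 0, ⟨0, 1⟩, ⟨Int.ofNat
 (nat_lit 60), 200⟩⟩ ⟨600000, 650000, 790411, 774755, 806384, 612032, 632797, 591949, 632455, 591607⟩ false
 (nat_lit 750) (Int.ofNat (nat_lit 7588)) (nat_lit 800) (Int.ofNat (nat_lit 7041)) qL120_60_1_15 = true :=
 by decide +kernel

def qL120_60_1_16 : PCt := .one ⟨2008000, 251, 803200, -325296, 401620, 0, 0, 300000, 800000, 850000⟩ ⟨0,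
 .pol, .pol, .pol, .pol, .sx 150000 (.aff 5000000 9380832 1705606) (.sx 225000 (.sx 187500 (.aff 4600000
 7551424 1716233) (.sx 206250 (.aff 4627000 7437636 1768725) (.aff 4600000 7041739 1840455))) (.aff 3000000
 3545622 1128152)), .pol, .pol, .pol, .pol⟩

def hL120_60_1_16 : pcchk ⟨(nat_lit 3), (nat_lit 1000), Int.ofNat (nat_lit 400), 0, ⟨0, 1⟩, ⟨Int.ofNat
 (nat_lit 60), 200⟩⟩ ⟨600000, 650000, 790411, 774755, 806384, 612032, 632797, 591949, 632455, 591607⟩ false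
 (nat_lit 800) (Int.ofNat (nat_lit 7041)) (nat_lit 850) (Int.ofNat (nat_lit 6231)) qL120_60_1_16 = true :=
 by decide +kernel

def qL120_60_1_17 : PCt := .one ⟨2008000, 251, 803200, -461840, 517682, 0, 0, 300000, 850000, 900000⟩ ⟨0,
 .pol, .pol, .pol, .pol, .sx 150000 (.aff 5000000 11155468 1434275) (.sx 225000 (.aff 5100000 8085310
 2079080) (.sy 875000 (.sx 262500 (.aff 5050000 7769248 2111209) (.aff 3000000 3502381 1142081)) (.sx 262500
 (.aff 5250000 8008887 2255308) (.aff 5200000 7588376 2324609)))), .pol, .pol, .pol, .pol⟩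

def hL120_60_1_17 : pcchk ⟨(nat_lit 3), (nat_lit 1000), Int.ofNat (nat_lit 400), 0, ⟨0, 1⟩, ⟨Int.ofNat
 (nat_lit 60), 200⟩⟩ ⟨600000, 650000, 790411, 774755, 806384, 612032, 632797, 591949, 632455, 591607⟩ false
 (nat_lit 850) (Int.ofNat (nat_lit 6231)) (nat_lit 900) (Int.ofNat (nat_lit 5081)) qL120_60_1_17 = true :=
 by decide +kernel

def qL120_60_1_18 : PCt := .one ⟨2008000, 251, 803200, -729306, 758401, 0, 0, 300000, 900000, 950000⟩ ⟨0,
 .pol, .pol, .pol, .pol, .aff 7000000 10535654 3416969, .pol, .pol, .pol, .pol⟩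

def hL120_60_1_18 : pcchk ⟨(nat_lit 3), (nat_lit 1000), Int.ofNat (nat_lit 400), 0, ⟨0, 1⟩, ⟨Int.ofNat
 (nat_lit 60), 200⟩⟩ ⟨600000, 650000, 790411, 774755, 806384, 612032, 632797, 591949, 632455, 591607⟩ false
 (nat_lit 900) (Int.ofNat (nat_lit 5081)) (nat_lit 950) (Int.ofNat (nat_lit 3265)) qL120_60_1_18 = true :=
 by decide +kernel

def qL120_60_1_19 : PCt := .one ⟨2008000, 251, 803200, -13359224, 12756824, 0, 0, 300000, 950000, 1000000⟩
 ⟨0, .pol, .pol, .pol, .pol, .aff 36000000 63097148 19414507, .pol, .pol, .inf 2039608 490291, .pol⟩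

def hL120_60_1_19 : pcchk ⟨(nat_lit 3), (nat_lit 1000), Int.ofNat (nat_lit 400), 0, ⟨0, 1⟩, ⟨Int.ofNat
 (nat_lit 60), 200⟩⟩ ⟨600000, 650000, 790411, 774755, 806384, 612032, 632797, 591949, 632455, 591607⟩ false
 (nat_lit 950) (Int.ofNat (nat_lit 3265)) (nat_lit 1000) (Int.negSucc (nat_lit 29999)) qL120_60_1_19 = true
 := by decide +kernel

def qL120_60_2_0 : PCt := .one ⟨2008000, 251, 2008000, 246582, 0, 0, 0, 300000, 0, 50000⟩ ⟨12500, .sp 250000
 (.aff 6324556 158114) .pol, .pol, .pol, .pol, .pol, .aff 0 14172346 70560, .pol, .pol, .pol⟩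

def hL120_60_2_0 : pcchk ⟨(nat_lit 3), (nat_lit 1000), Int.ofNat (nat_lit 1000), 0, ⟨0, 1⟩, ⟨Int.ofNat
 (nat_lit 60), 200⟩⟩ ⟨600000, 650000, 790411, 774755, 806384, 612032, 632797, 591949, 632455, 591607⟩ true 0
 0 (nat_lit 50) (Int.ofNat (nat_lit 614)) qL120_60_2_0 = true := by decide +kernel

def qL120_60_2_1 : PCt := .one ⟨2008000, 251, 2008000, 277907, -1567, 0, 0, 300000, 50000, 100000⟩ ⟨0, .pol,
 .pol, .pol, .pol, .sx 150000 (.sx 75000 (.aff 0 14057376 71138) .pol) .pol, .pol, .pol, .sx 150000 (.sx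
 75000 (.sx 37500 .pol .pol) .pol) .pol, .pol⟩

def hL120_60_2_1 : pcchk ⟨(nat_lit 3), (nat_lit 1000), Int.ofNat (nat_lit 1000), 0, ⟨0, 1⟩, ⟨Int.ofNat
 (nat_lit 60), 200⟩⟩ ⟨600000, 650000, 790411, 774755, 806384, 612032, 632797, 591949, 632455, 591607⟩ false
 (nat_lit 50) (Int.ofNat (nat_lit 614)) (nat_lit 100) (Int.ofNat (nat_lit 1306)) qL120_60_2_1 = true := by
 decide +kernel

def qL120_60_2_2 : PCt := .one ⟨2008000, 251, 2008000, 309232, -4699, 0, 0, 300000, 100000, 150000⟩ ⟨0,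
 .pol, .pol, .pol, .pol, .sx 150000 (.sx 75000 (.aff 0 13444365 74381) .pol) .pol, .pol, .pol, .sx 150000
 (.sx 75000 .pol .pol) .pol, .pol⟩

def hL120_60_2_2 : pcchk ⟨(nat_lit 3), (nat_lit 1000), Int.ofNat (nat_lit 1000), 0, ⟨0, 1⟩, ⟨Int.ofNat
 (nat_lit 60), 200⟩⟩ ⟨600000, 650000, 790411, 774755, 806384, 612032, 632797, 591949, 632455, 591607⟩ false
 (nat_lit 100) (Int.ofNat (nat_lit 1306)) (nat_lit 150) (Int.ofNat (nat_lit 2076)) qL120_60_2_2 = true := by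
 decide +kernel

def qL120_60_2_3 : PCt := .one ⟨2008000, 251, 2008000, 340556, -9398, 0, 0, 300000, 150000, 200000⟩ ⟨0,
 .pol, .pol, .pol, .pol, .sx 150000 (.sx 75000 (.aff 0 13024030 76782) .pol) .pol, .pol, .pol, .sx 150000
 .pol .pol, .pol⟩

def hL120_60_2_3 : pcchk ⟨(nat_lit 3), (nat_lit 1000), Int.ofNat (nat_lit 1000), 0, ⟨0, 1⟩, ⟨Int.ofNat
 (nat_lit 60), 200⟩⟩ ⟨600000, 650000, 790411, 774755, 806384, 612032, 632797, 591949, 632455, 591607⟩ false
 (nat_lit 150) (Int.ofNat (nat_lit 2076)) (nat_lit 200) (Int.ofNat (nat_lit 2924)) qL120_60_2_3 = true := by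
 decide +kernel

def qL120_60_2_4 : PCt := .one ⟨2008000, 251, 2008000, 371881, -15663, 0, 0, 300000, 200000, 250000⟩ ⟨0,
 .pol, .pol, .pol, .pol, .sx 150000 (.sx 75000 (.aff 0 12710817 78674) .pol) .pol, .pol, .pol, .sx 150000
 .pol .pol, .pol⟩

def hL120_60_2_4 : pcchk ⟨(nat_lit 3), (nat_lit 1000), Int.ofNat (nat_lit 1000), 0, ⟨0, 1⟩, ⟨Int.ofNat
 (nat_lit 60), 200⟩⟩ ⟨600000, 650000, 790411, 774755, 806384, 612032, 632797, 591949, 632455, 591607⟩ false
 (nat_lit 200) (Int.ofNat (nat_lit 2924)) (nat_lit 250) (Int.ofNat (nat_lit 3850)) qL120_60_2_4 = true := by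
 decide +kernel

def qL120_60_2_5 : PCt := .one ⟨2008000, 251, 2008000, 420073, -27711, 0, 0, 300000, 250000, 300000⟩ ⟨0,
 .pol, .pol, .pol, .pol, .sx 150000 (.sx 75000 (.aff 0 12094959 82680) .pol) .pol, .pol, .pol, .sx 150000
 .pol .pol, .pol⟩

def hL120_60_2_5 : pcchk ⟨(nat_lit 3), (nat_lit 1000), Int.ofNat (nat_lit 1000), 0, ⟨0, 1⟩, ⟨Int.ofNat
 (nat_lit 60), 200⟩⟩ ⟨600000, 650000, 790411, 774755, 806384, 612032, 632797, 591949, 632455, 591607⟩ false
 (nat_lit 250) (Int.ofNat (nat_lit 3850)) (nat_lit 300) (Int.ofNat (nat_lit 4896)) qL120_60_2_5 = true := by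
 decide +kernel

def qL120_60_2_6 : PCt := .one ⟨2008000, 251, 2008000, 360235, -9759, 0, 0, 300000, 300000, 350000⟩ ⟨0,
 .pol, .pol, .pol, .pol, .sx 150000 (.sx 75000 (.sx 37500 (.sx 18750 (.sx 9375 (.sx 4687 (.sx 2343 (.sx 1171
 (.sy 325000 (.aff 325000 12732677 35784) (.aff 462000 12916824 22409)) (.sy 325000 (.aff 375000 9131340
 42779) (.aff 500000 6929805 36077))) (.aff 500000 4807830 51999)) (.aff 1000000 0 0)) (.aff 0 4807402
 208013)) (.aff 0 3399347 294175)) (.aff 0 2403701 416026)) .pol) .pol, .pol, .pol, .pol, .pol⟩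

def hL120_60_2_6 : pcchk ⟨(nat_lit 3), (nat_lit 1000), Int.ofNat (nat_lit 1000), 0, ⟨0, 1⟩, ⟨Int.ofNat
 (nat_lit 60), 200⟩⟩ ⟨600000, 650000, 790411, 774755, 806384, 612032, 632797, 591949, 632455, 591607⟩ false
 (nat_lit 300) (Int.ofNat (nat_lit 4896)) (nat_lit 350) (Int.ofNat (nat_lit 5793)) qL120_60_2_6 = true := by
 decide +kernel

def qL120_60_2_7 : PCt := .one ⟨2008000, 251, 2008000, 314854, 6124, 0, 0, 300000, 350000, 400000⟩ ⟨0, .pol,
 .pol, .pol, .pol, .sx 150000 (.sx 75000 (.sx 37500 (.sx 18750 (.sy 375000 (.aff 650000 6849944 17884) (.sx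
 9375 (.aff 750000 4795546 13033) (.aff 1000000 0 0))) (.aff 0 3651484 273862)) (.aff 0 2581989 387299))
 .pol) .pol, .pol, .pol, .pol, .pol⟩

def hL120_60_2_7 : pcchk ⟨(nat_lit 3), (nat_lit 1000), Int.ofNat (nat_lit 1000), 0, ⟨0, 1⟩, ⟨Int.ofNat
 (nat_lit 60), 200⟩⟩ ⟨600000, 650000, 790411, 774755, 806384, 612032, 632797, 591949, 632455, 591607⟩ false
 (nat_lit 350) (Int.ofNat (nat_lit 5793)) (nat_lit 400) (Int.ofNat (nat_lit 6577)) qL120_60_2_7 = true := by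
 decide +kernel

def qL120_60_2_8 : PCt := .one ⟨2008000, 251, 2008000, 180318, 59938, 0, 0, 300000, 400000, 450000⟩ ⟨0,
 .pol, .pol, .pol, .pol, .sx 150000 (.sx 75000 (.sx 37500 (.sx 18750 (.aff 1500000 12941611 19318) (.aff
 1000000 0 0)) (.aff 0 2748738 363804)) (.aff 0 1943651 514496)) .pol, .pol, .pol, .pol, .pol⟩

def hL120_60_2_8 : pcchk ⟨(nat_lit 3), (nat_lit 1000), Int.ofNat (nat_lit 1000), 0, ⟨0, 1⟩, ⟨Int.ofNat
 (nat_lit 60), 200⟩⟩ ⟨600000, 650000, 790411, 774755, 806384, 612032, 632797, 591949, 632455, 591607⟩ false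
 (nat_lit 400) (Int.ofNat (nat_lit 6577)) (nat_lit 450) (Int.ofNat (nat_lit 7026)) qL120_60_2_8 = true := by
 decide +kernel

def qL120_60_2_9 : PCt := .one ⟨2008000, 251, 2008000, -10442, 145780, 0, 0, 300000, 450000, 500000⟩ ⟨0,
 .pol, .pol, .pol, .pol, .sx 150000 (.sx 75000 (.sx 37500 (.sx 18750 (.sx 9375 (.aff 2653000 14282957
 191306) (.aff 1500000 3183290 78536)) (.aff 1000000 0 0)) (.aff 1000000 0 0)) (.aff 0 2054805 486665))
 .pol, .pol, .pol, .pol, .pol⟩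

def hL120_60_2_9 : pcchk ⟨(nat_lit 3), (nat_lit 1000), Int.ofNat (nat_lit 1000), 0, ⟨0, 1⟩, ⟨Int.ofNat
 (nat_lit 60), 200⟩⟩ ⟨600000, 650000, 790411, 774755, 806384, 612032, 632797, 591949, 632455, 591607⟩ false
 (nat_lit 450) (Int.ofNat (nat_lit 7026)) (nat_lit 500) (Int.ofNat (nat_lit 7000)) qL120_60_2_9 = true := by
 decide +kernel

def qL120_60_2_10 : PCt := .one ⟨2008000, 251, 2008000, -165058, 223088, 0, 0, 300000, 500000, 550000⟩ ⟨0,
 .pol, .pol, .pol, .pol, .sx 150000 (.sx 75000 (.sx 37500 (.sx 18750 (.aff 3366000 14405739 388593) (.aff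
 3200000 12717613 380575)) (.aff 1000000 0 0)) (.aff 1000000 0 0)) .pol, .pol, .pol, .pol, .pol⟩

def hL120_60_2_10 : pcchk ⟨(nat_lit 3), (nat_lit 1000), Int.ofNat (nat_lit 1000), 0, ⟨0, 1⟩, ⟨Int.ofNat
 (nat_lit 60), 200⟩⟩ ⟨600000, 650000, 790411, 774755, 806384, 612032, 632797, 591949, 632455, 591607⟩ false
 (nat_lit 500) (Int.ofNat (nat_lit 7000)) (nat_lit 550) (Int.ofNat (nat_lit 6589)) qL120_60_2_10 = true :=
 by decide +kernel

def qL120_60_2_11 : PCt := .one ⟨2008000, 251, 2008000, -363448, 332203, 0, 0, 300000, 550000, 600000⟩ ⟨0,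
 .pol, .pol, .pol, .pol, .sx 150000 (.sx 75000 (.sx 37500 (.sx 18750 (.aff 5000000 25577769 625544) (.sx
 28125 (.aff 4800000 17181903 840420) (.sy 575000 (.aff 4575000 15560817 821334) (.aff 4800000 15534106
 929568)))) (.aff 4200000 13689014 748046)) (.aff 1000000 0 0)) (.aff 0 1598611 625544), .pol, .pol, .pol,
 .pol⟩

def hL120_60_2_11 : pcchk ⟨(nat_lit 3), (nat_lit 1000), Int.ofNat (nat_lit 1000), 0, ⟨0, 1⟩, ⟨Int.ofNat
 (nat_lit 60), 200⟩⟩ ⟨600000, 650000, 790411, 774755, 806384, 612032, 632797, 591949, 632455, 591607⟩ false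
 (nat_lit 550) (Int.ofNat (nat_lit 6589)) (nat_lit 600) (Int.ofNat (nat_lit 5684)) qL120_60_2_11 = true :=
 by decide +kernel

def qL120_60_2_12 : PCt := .one ⟨2008000, 251, 2008000, -528104, 430997, 0, 0, 300000, 600000, 650000⟩ ⟨0,
 .pol, .pol, .pol, .pol, .sx 150000 (.sx 75000 (.sx 37500 (.aff 8000000 28577381 1714643) (.sx 56250 (.sx
 46875 (.aff 5725000 16838161 1325895) (.sy 625000 (.aff 5400000 15521742 1247283) (.aff 5375000 15549778
 1230926))) (.aff 5400000 14091278 1373900))) (.aff 1000000 0 0)) (.aff 1000000 0 0), .pol, .pol, .pol,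
 .pol⟩

def hL120_60_2_12 : pcchk ⟨(nat_lit 3), (nat_lit 1000), Int.ofNat (nat_lit 1000), 0, ⟨0, 1⟩, ⟨Int.ofNat
 (nat_lit 60), 200⟩⟩ ⟨600000, 650000, 790411, 774755, 806384, 612032, 632797, 591949, 632455, 591607⟩ false
 (nat_lit 600) (Int.ofNat (nat_lit 5684)) (nat_lit 650) (Int.ofNat (nat_lit 4369)) qL120_60_2_12 = true :=
 by decide +kernel

def qL120_60_2_13 : PCt := .one ⟨2008000, 251, 2008000, -751394, 576135, 0, 0, 300000, 650000, 700000⟩ ⟨0,
 .pol, .pol, .pol, .pol, .sx 150000 (.sx 75000 (.sx 37500 (.aff 8000000 42000001 1166667) (.sy 675000 (.aff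
 6900000 17535346 1985134) (.aff 8000000 21193553 2312024))) (.sy 675000 (.sx 112500 (.aff 6875000 17306476
 1994377) (.aff 1000000 0 0)) (.sx 112500 (.sx 93750 (.sy 687500 (.aff 6700000 16981339 1913277) (.aff
 7493000 18110008 2327943)) (.aff 1000000 0 0)) (.aff 1000000 0 0)))) (.aff 1000000 0 0), .pol, .pol, .pol,
 .pol⟩

def hL120_60_2_13 : pcchk ⟨(nat_lit 3), (nat_lit 1000), Int.ofNat (nat_lit 1000), 0, ⟨0, 1⟩, ⟨Int.ofNat
 (nat_lit 60), 200⟩⟩ ⟨600000, 650000, 790411, 774755, 806384, 612032, 632797, 591949, 632455, 591607⟩ false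
 (nat_lit 650) (Int.ofNat (nat_lit 4369)) (nat_lit 700) (Int.ofNat (nat_lit 2498)) qL120_60_2_13 = true :=
 by decide +kernel

def qL120_60_2_14 : PCt := .one ⟨2008000, 251, 2008000, -956210, 719506, 0, 0, 300000, 700000, 750000⟩ ⟨0,
 .pol, .pol, .pol, .pol, .sx 150000 (.sx 75000 (.aff 8000000 21763885 2251437) (.sx 112500 (.sx 93750 (.aff
 8000000 19971911 2453446) (.sy 725000 (.aff 7900000 18136754 2625057) (.aff 8000000 18308152 2676404)))
 (.aff 7625000 16986829 2583804))) (.aff 1000000 0 0), .pol, .pol, .pol, .pol⟩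

def hL120_60_2_14 : pcchk ⟨(nat_lit 3), (nat_lit 1000), Int.ofNat (nat_lit 1000), 0, ⟨0, 1⟩, ⟨Int.ofNat
 (nat_lit 60), 200⟩⟩ ⟨600000, 650000, 790411, 774755, 806384, 612032, 632797, 591949, 632455, 591607⟩ false
 (nat_lit 700) (Int.ofNat (nat_lit 2498)) (nat_lit 750) (Int.ofNat (nat_lit 117)) qL120_60_2_14 = true := by
 decide +kernel

def qL120_60_2_15 : PCt := .one ⟨2008000, 251, 2008000, -1247370, 937876, 0, 0, 300000, 750000, 800000⟩ ⟨0,
 .pol, .pol, .pol, .pol, .sx 150000 (.sx 75000 (.aff 8000000 25982901 1885856) (.sx 112500 (.aff 12000000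
 31626993 3825846) (.sx 131250 (.aff 10500000 23084731 3909511) (.sy 775000 (.sx 140625 (.aff 9200000
 19590283 3432314) (.aff 9200000 18937089 3550705)) (.aff 9900000 20392462 3884279))))) (.sx 225000 (.sy
 775000 (.aff 1500000 1008299 247943) (.sx 187500 (.aff 9781000 19764592 3901217) (.aff 1000000 0 0))) (.aff
 1000000 0 0)), .pol, .pol, .sx 150000 (.sx 75000 (.inf 4546061 219971) .pol) .pol, .pol⟩

def hL120_60_2_15 : pcchk ⟨(nat_lit 3), (nat_lit 1000), Int.ofNat (nat_lit 1000), 0, ⟨0, 1⟩, ⟨Int.ofNat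
 (nat_lit 60), 200⟩⟩ ⟨600000, 650000, 790411, 774755, 806384, 612032, 632797, 591949, 632455, 591607⟩ false
 (nat_lit 750) (Int.ofNat (nat_lit 117)) (nat_lit 800) (Int.negSucc (nat_lit 2988)) qL120_60_2_15 = true :=
 by decide +kernel

def qL120_60_2_16 : PCt := .one ⟨2008000, 251, 2008000, -1552184, 1181728, 0, 0, 300000, 800000, 850000⟩ ⟨0,
 .pol, .pol, .pol, .pol, .sx 150000 (.aff 12000000 25797287 4690416) (.sx 225000 (.sx 187500 (.sx 168750
 (.aff 12000000 25027045 4834770) (.sy 825000 (.sy 812500 (.aff 11515000 22078634 5007793) (.aff 11600000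
 22150365 5072603)) (.aff 12000000 23544104 5139291))) (.sx 206250 (.sy 825000 (.aff 11212000 21261241
 4904933) (.aff 11900000 22218465 5347355)) (.aff 11200000 20172060 5157629))) (.aff 1000000 0 0)), .pol,
 .pol, .sx 150000 (.inf 2653300 376890) .pol, .pol⟩

def hL120_60_2_16 : pcchk ⟨(nat_lit 3), (nat_lit 1000), Int.ofNat (nat_lit 1000), 0, ⟨0, 1⟩, ⟨Int.ofNat
 (nat_lit 60), 200⟩⟩ ⟨600000, 650000, 790411, 774755, 806384, 612032, 632797, 591949, 632455, 591607⟩ false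
 (nat_lit 800) (Int.negSucc (nat_lit 2988)) (nat_lit 850) (Int.negSucc (nat_lit 6853)) qL120_60_2_16 = true
 := by decide +kernel

def qL120_60_2_17 : PCt := .one ⟨2008000, 251, 2008000, -2036514, 1593408, 0, 0, 300000, 850000, 900000⟩ ⟨0,
 .pol, .pol, .pol, .pol, .sx 150000 (.aff 12000000 30677535 3944255) (.sx 225000 (.sx 187500 (.aff 12000000
 25048102 4830706) (.sy 875000 (.sy 862500 (.aff 12500000 22916516 5770948) (.aff 20000000 38994561
 9257702)) (.aff 20000000 39413119 9159387))) (.sx 262500 (.sx 243750 (.sy 875000 (.aff 13625000 23860795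
 6680022) (.aff 20000000 36972783 9763940)) (.sx 253125 (.sy 875000 (.aff 13700000 23775682 6783823) (.sy
 887500 (.sy 881250 (.sx 248437 (.aff 20000000 35890682 10058321) (.sy 878125 (.aff 13600000 23611951
 6723714) (.aff 20000000 35585289 10144642))) (.aff 20000000 35847862 10070336)) (.aff 20000000 36037368
 10017380))) (.sy 875000 (.aff 3000000 3658117 1093459) (.aff 14000000 24230292 6974741)))) (.sy 875000
 (.aff 1000000 0 0) (.aff 14300000 24029857 7361259)))), .pol, .pol, .sx 150000 (.inf 3415651 292770) (.sx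
 225000 (.sx 187500 (.inf 2277101 439155) .pol) .pol), .pol⟩

def hL120_60_2_17 : pcchk ⟨(nat_lit 3), (nat_lit 1000), Int.ofNat (nat_lit 1000), 0, ⟨0, 1⟩, ⟨Int.ofNat
 (nat_lit 60), 200⟩⟩ ⟨600000, 650000, 790411, 774755, 806384, 612032, 632797, 591949, 632455, 591607⟩ false
 (nat_lit 850) (Int.negSucc (nat_lit 6853)) (nat_lit 900) (Int.negSucc (nat_lit 11924)) qL120_60_2_17 = true
 := by decide +kernel

def qL120_60_2_18 : PCt := .one ⟨2008000, 251, 2008000, -2908789, 2378455, 0, 0, 300000, 900000, 950000⟩ ⟨0,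
 .pol, .pol, .pol, .pol, .sx 150000 (.aff 12000000 31541860 3836172) (.sx 225000 (.aff 20000000 42201106
 8554279) (.sx 262500 (.aff 20000000 37012819 9753378) (.sx 281250 (.aff 20000000 35046111 10300715) (.sy
 925000 (.sy 912500 (.aff 19100000 31458786 10413943) (.aff 20000000 33512850 10771988)) (.aff 20000000
 34125008 10578753))))), .pol, .pol, .sx 150000 (.inf 3511885 284748) (.sx 225000 (.inf 2221111 450226) (.sy
 925000 .pol (.inf 1889823 529151))), .pol⟩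

def hL120_60_2_18 : pcchk ⟨(nat_lit 3), (nat_lit 1000), Int.ofNat (nat_lit 1000), 0, ⟨0, 1⟩, ⟨Int.ofNat
 (nat_lit 60), 200⟩⟩ ⟨600000, 650000, 790411, 774755, 806384, 612032, 632797, 591949, 632455, 591607⟩ false
 (nat_lit 900) (Int.negSucc (nat_lit 11924)) (nat_lit 950) (Int.negSucc (nat_lit 19167)) qL120_60_2_18 =
 true := by decide +kernel

def qL120_60_2_19 : PCt := .one ⟨2008000, 251, 2008000, -4350132, 3747731, 0, 0, 300000, 950000, 1000000⟩
 ⟨0, .pol, .pol, .pol, .pol, .aff 35000000 70776644 16333072, .pol, .pol, .inf 2039608 490291, .pol⟩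

def hL120_60_2_19 : pcchk ⟨(nat_lit 3), (nat_lit 1000), Int.ofNat (nat_lit 1000), 0, ⟨0, 1⟩, ⟨Int.ofNat
 (nat_lit 60), 200⟩⟩ ⟨600000, 650000, 790411, 774755, 806384, 612032, 632797, 591949, 632455, 591607⟩ false
 (nat_lit 950) (Int.negSucc (nat_lit 19167)) (nat_lit 1000) (Int.negSucc (nat_lit 29999)) qL120_60_2_19 =
 true := by decide +kernel

def qL120_60_3_0 : PCt := .one ⟨2008000, 251, 461840, 3409182, 0, 0, 0, 300000, 0, 50000⟩ ⟨50000, .pol,
 .pol, .pol, .pol, .aff 0 64413 15524817, .pol, .pol, .pol, .pol⟩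

def hL120_60_3_0 : pcchk ⟨(nat_lit 1), (nat_lit 1000), Int.ofNat (nat_lit 230), 0, ⟨0, 1⟩, ⟨Int.ofNat
 (nat_lit 60), 200⟩⟩ ⟨600000, 650000, 790411, 774755, 806384, 612032, 632797, 591949, 632455, 591607⟩ true 0
 0 (nat_lit 50) (Int.ofNat (nat_lit 8489)) qL120_60_3_0 = true := by decide +kernel

def qL120_60_3_1 : PCt := .one ⟨2008000, 251, 461840, -2603573, 300637, 0, 0, 300000, 50000, 100000⟩ ⟨0,
 .pol, .pol, .pol, .pol, .sy 75000 .pol (.sy 87500 .pol (.sy 93750 (.aff 500000 388641 643268) (.sy 96875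
 (.aff 375000 550604 709449) (.sy 98437 (.sx 150000 (.aff 250000 855816 657268) (.aff 1000000 0 0)) (.sy
 99218 (.sx 150000 (.aff 250000 702950 800200) (.aff 1000000 0 0)) (.sy 99609 (.sx 150000 (.aff 250000
 705031 797838) (.aff 1000000 0 0)) (.sx 150000 (.sy 99804 (.sx 75000 (.aff 0 1630595 613274) (.aff 300000
 570709 858582)) (.sx 75000 (.aff 0 1632193 612673) (.sx 112500 (.aff 0 1032290 968721) (.aff 375000 545278
 716378)))) (.aff 1000000 0 0)))))))), .pol, .pol, .sy 75000 .pol (.sy 87500 .pol (.sy 93750 .pol (.sx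
 150000 (.sx 75000 .pol .pol) .pol))), .pol⟩

def hL120_60_3_1 : pcchk ⟨(nat_lit 1), (nat_lit 1000), Int.ofNat (nat_lit 230), 0, ⟨0, 1⟩, ⟨Int.ofNat
 (nat_lit 60), 200⟩⟩ ⟨600000, 650000, 790411, 774755, 806384, 612032, 632797, 591949, 632455, 591607⟩ false
 (nat_lit 50) (Int.ofNat (nat_lit 8489)) (nat_lit 100) (Int.ofNat (nat_lit 2006)) qL120_60_3_1 = true := by
 decide +kernel

def qL120_60_3_2 : PCt := .one ⟨2008000, 251, 461840, 104416, 29838, 0, 0, 300000, 100000, 150000⟩ ⟨0, .pol,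
 .pol, .pol, .pol, .sy 125000 (.sx 150000 (.sy 112500 (.sy 106250 (.sx 75000 (.aff 0 1658313 603023) (.sx
 112500 (.aff 250000 786607 715097) (.aff 375000 554004 705095))) (.sy 109375 (.sx 75000 (.aff 0 1695583
 589768) (.sx 112500 (.aff 250000 804286 699379) (.aff 375000 566455 689596))) (.sx 75000 (.aff 0 1719981
 581402) (.sx 112500 (.aff 250000 815859 689458) (.aff 500000 477037 524069))))) (.sy 118750 (.sx 75000
 (.aff 0 1755943 569495) (.sx 112500 (.aff 300000 709656 690476) (.aff 1000000 0 0))) (.sx 75000 (.aff 0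
 1802776 554701) (.sx 112500 (.aff 363000 746677 543434) (.aff 1000000 0 0))))) (.aff 1000000 0 0)) (.sy
 137500 (.sx 150000 (.sx 75000 (.aff 0 1527526 654654) (.sx 112500 (.aff 363000 753709 538363) (.aff 1000000
 0 0))) (.aff 1000000 0 0)) (.sx 150000 (.sx 75000 (.aff 250000 1198958 469158) (.aff 400000 713007 504904))
 (.aff 1000000 0 0))), .pol, .pol, .sy 125000 (.sx 150000 (.sx 75000 .pol .pol) .pol) (.sx 150000 (.sx 75000
 .pol .pol) .pol), .pol⟩

def hL120_60_3_2 : pcchk ⟨(nat_lit 1), (nat_lit 1000), Int.ofNat (nat_lit 230), 0, ⟨0, 1⟩, ⟨Int.ofNat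
 (nat_lit 60), 200⟩⟩ ⟨600000, 650000, 790411, 774755, 806384, 612032, 632797, 591949, 632455, 591607⟩ false
 (nat_lit 100) (Int.ofNat (nat_lit 2006)) (nat_lit 150) (Int.ofNat (nat_lit 2266)) qL120_60_3_2 = true := by
 decide +kernel

def qL120_60_3_3 : PCt := .one ⟨2008000, 251, 461840, 39758, 39537, 0, 0, 300000, 150000, 200000⟩ ⟨0, .pol,
 .pol, .pol, .pol, .sx 150000 (.sy 175000 (.sy 162500 (.sx 75000 (.aff 375000 1041667 375000) (.aff 500000
 589256 424264)) (.sy 168750 (.sx 75000 (.aff 375000 970404 402539) (.aff 1000000 0 0)) (.sx 75000 (.sx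
 37500 (.aff 0 3027651 330290) (.aff 400000 954865 377017)) (.aff 1000000 0 0)))) (.sy 187500 (.sy 181250
 (.sy 178125 (.sx 75000 (.sx 37500 (.aff 0 3068659 325876) (.aff 413000 946829 363919)) (.aff 1000000 0 0))
 (.sx 75000 (.sy 179687 (.sx 37500 (.aff 0 3088957 323734) (.sx 56250 (.aff 250000 1397034 402639) (.aff
 500000 856723 291810))) (.sx 37500 (.aff 0 3102417 322330) (.sx 56250 (.aff 375000 1226338 318530) (.aff
 500000 829156 301512)))) (.aff 1000000 0 0))) (.sx 75000 (.sx 37500 (.aff 0 2560382 390567) (.aff 450000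
 986992 306487)) (.aff 1000000 0 0))) (.sx 75000 (.sx 37500 (.aff 250000 1968502 285751) (.sx 56250 (.aff
 450000 1066504 283638) (.aff 1000000 0 0))) (.aff 1000000 0 0)))) (.aff 1000000 0 0), .pol, .pol, .sx
 150000 .pol .pol, .pol⟩

def hL120_60_3_3 : pcchk ⟨(nat_lit 1), (nat_lit 1000), Int.ofNat (nat_lit 230), 0, ⟨0, 1⟩, ⟨Int.ofNat
 (nat_lit 60), 200⟩⟩ ⟨600000, 650000, 790411, 774755, 806384, 612032, 632797, 591949, 632455, 591607⟩ false
 (nat_lit 150) (Int.ofNat (nat_lit 2266)) (nat_lit 200) (Int.ofNat (nat_lit 2365)) qL120_60_3_3 = true := by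
 decide +kernel

def qL120_60_3_4 : PCt := .one ⟨2008000, 251, 461840, 2409, 47007, 0, 0, 300000, 200000, 250000⟩ ⟨0, .pol,
 .pol, .pol, .pol, .sx 150000 (.sy 225000 (.sy 212500 (.sy 206250 (.sy 203125 (.sx 75000 (.sx 37500 (.aff
 500000 1338532 186772) (.aff 500000 1036823 241122)) (.aff 1000000 0 0)) (.sx 75000 (.sx 37500 (.aff 500000
 1348868 185341) (.aff 500000 1044829 239274)) (.aff 1000000 0 0))) (.sx 75000 (.sx 37500 (.aff 500000
 1364226 183255) (.aff 500000 1056725 236580)) (.aff 1000000 0 0))) (.sy 218750 (.sy 215625 (.sx 75000 (.sx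
 37500 (.aff 500000 1379413 181237) (.aff 500000 1068489 233976)) (.aff 1000000 0 0)) (.sy 217187 (.sx 75000
 (.sx 37500 (.aff 500000 1386943 180253) (.aff 550000 966889 209435)) (.aff 1000000 0 0)) (.sx 75000 (.sx
 37500 (.aff 500000 1391941 179606) (.aff 525000 1024283 220277)) (.aff 1000000 0 0)))) (.sx 75000 (.sx
 37500 (.aff 500000 1216210 205557) (.aff 625000 815859 172365)) (.aff 1000000 0 0)))) (.sy 237500 (.sx
 75000 (.sx 37500 (.aff 500000 1241639 201347) (.aff 1000000 0 0)) (.aff 1000000 0 0)) (.sx 75000 (.sx 37500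
 (.aff 525000 1211018 186311) (.aff 1000000 0 0)) (.aff 1000000 0 0)))) (.aff 1000000 0 0), .pol, .pol, .sx
 150000 .pol .pol, .pol⟩

def hL120_60_3_4 : pcchk ⟨(nat_lit 1), (nat_lit 1000), Int.ofNat (nat_lit 230), 0, ⟨0, 1⟩, ⟨Int.ofNat
 (nat_lit 60), 200⟩⟩ ⟨600000, 650000, 790411, 774755, 806384, 612032, 632797, 591949, 632455, 591607⟩ false
 (nat_lit 200) (Int.ofNat (nat_lit 2365)) (nat_lit 250) (Int.ofNat (nat_lit 2371)) qL120_60_3_4 = true := by
 decide +kernel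

def qL120_60_3_5 : PCt := .one ⟨2008000, 251, 461840, -54618, 61264, 0, 0, 300000, 250000, 300000⟩ ⟨0, .pol,
 .pol, .pol, .pol, .sy 275000 (.sy 262500 (.sx 150000 (.sy 256250 (.sy 253125 (.sx 75000 (.aff 575000
 1219978 148056) (.aff 1000000 0 0)) (.sx 75000 (.sx 37500 (.aff 625000 1382085 101749) (.aff 1000000 0 0))
 (.aff 1000000 0 0))) (.sx 75000 (.sx 37500 (.aff 625000 1394745 100825) (.aff 1000000 0 0)) (.aff 1000000 0
 0))) (.aff 1000000 0 0)) (.sy 268750 (.sx 150000 (.sy 265625 (.sy 264062 (.sx 75000 (.sx 37500 (.aff 625000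
 1405208 100075) (.aff 1000000 0 0)) (.aff 1000000 0 0)) (.sx 75000 (.sx 37500 (.aff 625000 1340636 104895)
 (.aff 1000000 0 0)) (.aff 1000000 0 0))) (.sy 267187 (.sx 75000 (.sx 37500 (.aff 650000 1386929 88325)
 (.aff 1000000 0 0)) (.aff 1000000 0 0)) (.sy 267968 (.sx 75000 (.sx 37500 (.aff 650000 1389975 88132) (.aff
 1000000 0 0)) (.aff 1000000 0 0)) (.sx 75000 (.sx 37500 (.aff 650000 1392004 88003) (.aff 1000000 0 0))
 (.aff 1000000 0 0))))) (.aff 1000000 0 0)) (.sx 150000 (.sy 271875 (.sy 270312 (.sx 75000 (.sx 37500 (.aff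
 625000 1352448 103979) (.aff 1000000 0 0)) (.aff 1000000 0 0)) (.sx 75000 (.sx 37500 (.aff 625000 1356362
 103679) (.aff 1000000 0 0)) (.aff 1000000 0 0))) (.sx 75000 (.sx 37500 (.aff 625000 1362213 103233) (.aff
 1000000 0 0)) (.aff 1000000 0 0))) (.aff 1000000 0 0)))) (.sx 150000 (.sy 287500 (.sy 281250 (.sy 278125
 (.sx 75000 (.sx 37500 (.aff 625000 1369975 102648) (.aff 1000000 0 0)) (.aff 1000000 0 0)) (.sx 75000 (.sx
 37500 (.aff 638000 1329933 98535) (.aff 1000000 0 0)) (.aff 1000000 0 0))) (.sy 284375 (.sx 75000 (.sx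
 37500 (.aff 675000 1394960 75720) (.aff 1000000 0 0)) (.aff 1000000 0 0)) (.sy 285937 (.sx 75000 (.sy
 285156 (.sx 37500 (.sx 18750 (.aff 625000 1687500 83334) (.aff 1000000 0 0)) (.aff 1000000 0 0)) (.sx 37500
 (.aff 738000 1482558 46302) (.aff 1000000 0 0))) (.aff 1000000 0 0)) (.sx 75000 (.aff 700000 1362990 66032)
 (.aff 1000000 0 0))))) (.sx 75000 (.aff 700000 1379602 65237) (.aff 1000000 0 0))) (.aff 1000000 0 0)),
 .pol, .pol, .sx 150000 .pol .pol, .pol⟩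

def hL120_60_3_5 : pcchk ⟨(nat_lit 1), (nat_lit 1000), Int.ofNat (nat_lit 230), 0, ⟨0, 1⟩, ⟨Int.ofNat
 (nat_lit 60), 200⟩⟩ ⟨600000, 650000, 790411, 774755, 806384, 612032, 632797, 591949, 632455, 591607⟩ false
 (nat_lit 250) (Int.ofNat (nat_lit 2371)) (nat_lit 300) (Int.ofNat (nat_lit 2235)) qL120_60_3_5 = true := by
 decide +kernel

def qL120_60_3_6 : PCt := .one ⟨2008000, 251, 461840, -110440, 78010, 0, 0, 300000, 300000, 350000⟩ ⟨0,
 .pol, .pol, .pol, .pol, .sx 150000 (.sy 325000 (.sx 75000 (.aff 750000 1439306 43424) (.aff 1000000 0 0))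
 (.sx 75000 (.sy 337500 (.sy 331250 (.sx 37500 (.aff 750000 1479020 42258) (.aff 1000000 0 0)) (.sy 334375
 (.sx 37500 (.aff 750000 1498886 41698) (.aff 1000000 0 0)) (.sy 335937 (.sx 37500 (.sx 18750 (.aff 750000
 1532623 40780) (.aff 1000000 0 0)) (.aff 1000000 0 0)) (.sy 336718 (.sy 336327 (.sx 37500 (.sx 18750 (.aff
 750000 1534853 40721) (.aff 1000000 0 0)) (.aff 1000000 0 0)) (.sx 37500 (.sx 18750 (.aff 750000 1535744
 40697) (.aff 1000000 0 0)) (.aff 1000000 0 0))) (.sy 337109 (.sy 336913 (.sy 336815 (.sy 336766 (.sx 37500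
 (.sx 18750 (.aff 750000 1536245 40684) (.aff 1000000 0 0)) (.aff 1000000 0 0)) (.sx 37500 (.sx 18750 (.aff
 750000 1536356 40681) (.aff 1000000 0 0)) (.aff 1000000 0 0))) (.sy 336864 (.sy 336839 (.sx 37500 (.sx
 18750 (.aff 750000 1536439 40679) (.aff 1000000 0 0)) (.aff 1000000 0 0)) (.sy 336851 (.sx 37500 (.sx 18750
 (.aff 750000 1536480 40678) (.aff 1000000 0 0)) (.aff 1000000 0 0)) (.sx 37500 (.sx 18750 (.aff 750000
 1536509 40677) (.aff 1000000 0 0)) (.aff 1000000 0 0)))) (.sy 336888 (.sy 336876 (.sy 336870 (.sy 336867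
 (.sx 37500 (.sx 18750 (.aff 750000 1536527 40677) (.aff 1000000 0 0)) (.aff 1000000 0 0)) (.sx 37500 (.sx
 18750 (.aff 750000 1536534 40676) (.aff 1000000 0 0)) (.aff 1000000 0 0))) (.sy 336873 (.sy 336871 (.sx
 37500 (.sx 18750 (.aff 750000 1536538 40676) (.aff 1000000 0 0)) (.aff 1000000 0 0)) (.sy 336872 (.sx 37500
 (.sx 18750 (.aff 750000 1536540 40676) (.aff 1000000 0 0)) (.aff 1000000 0 0)) (.sx 37500 (.sx 18750 (.aff
 750000 1536543 40676) (.aff 1000000 0 0)) (.aff 1000000 0 0)))) (.sy 336874 (.sx 37500 (.sx 18750 (.aff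
 750000 1536545 40676) (.aff 1000000 0 0)) (.aff 1000000 0 0)) (.sy 336875 (.sx 37500 (.sx 18750 (.aff
 750000 1536547 40676) (.aff 1000000 0 0)) (.aff 1000000 0 0)) (.sx 37500 (.sx 18750 (.aff 750000 1536550
 40676) (.aff 1000000 0 0)) (.aff 1000000 0 0)))))) (.sy 336882 (.sy 336879 (.sx 37500 (.sx 18750 (.aff
 750000 1536554 40676) (.aff 1000000 0 0)) (.aff 1000000 0 0)) (.sx 37500 (.sx 18750 (.aff 750000 1536561
 40676) (.aff 1000000 0 0)) (.aff 1000000 0 0))) (.sx 37500 (.sx 18750 (.aff 750000 1536571 40675) (.aff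
 1000000 0 0)) (.aff 1000000 0 0)))) (.sy 336900 (.sx 37500 (.sx 18750 (.aff 750000 1536592 40675) (.aff
 1000000 0 0)) (.aff 1000000 0 0)) (.sx 37500 (.sx 18750 (.aff 750000 1536620 40674) (.aff 1000000 0 0))
 (.aff 1000000 0 0)))))) (.sy 337011 (.sy 336962 (.sx 37500 (.sx 18750 (.aff 750000 1536691 40672) (.aff
 1000000 0 0)) (.aff 1000000 0 0)) (.sx 37500 (.sx 18750 (.aff 750000 1536803 40669) (.aff 1000000 0 0))
 (.aff 1000000 0 0))) (.sx 37500 (.sx 18750 (.aff 750000 1536970 40665) (.aff 1000000 0 0)) (.aff 1000000 0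
 0)))) (.sy 337304 (.sx 37500 (.sx 18750 (.aff 750000 1537304 40656) (.aff 1000000 0 0)) (.aff 1000000 0 0))
 (.sx 37500 (.sx 18750 (.aff 750000 1537750 40644) (.aff 1000000 0 0)) (.aff 1000000 0 0)))))))) (.aff
 775000 1473596 34355)) (.aff 1000000 0 0))) (.aff 1000000 0 0), .pol, .pol, .pol, .pol⟩

def hL120_60_3_6 : pcchk ⟨(nat_lit 1), (nat_lit 1000), Int.ofNat (nat_lit 230), 0, ⟨0, 1⟩, ⟨Int.ofNat
 (nat_lit 60), 200⟩⟩ ⟨600000, 650000, 790411, 774755, 806384, 612032, 632797, 591949, 632455, 591607⟩ false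
 (nat_lit 300) (Int.ofNat (nat_lit 2235)) (nat_lit 350) (Int.ofNat (nat_lit 1960)) qL120_60_3_6 = true := by
 decide +kernel

def qL120_60_3_7 : PCt := .one ⟨2008000, 251, 461840, -166664, 97689, 0, 0, 300000, 350000, 400000⟩ ⟨0,
 .pol, .pol, .pol, .pol, .sx 150000 (.sx 75000 (.sx 37500 (.sx 18750 (.aff 900000 1555590 6429) (.aff
 1000000 0 0)) (.aff 1000000 0 0)) (.aff 1000000 0 0)) (.aff 1000000 0 0), .pol, .pol, .pol, .pol⟩

def hL120_60_3_7 : pcchk ⟨(nat_lit 1), (nat_lit 1000), Int.ofNat (nat_lit 230), 0, ⟨0, 1⟩, ⟨Int.ofNat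
 (nat_lit 60), 200⟩⟩ ⟨600000, 650000, 790411, 774755, 806384, 612032, 632797, 591949, 632455, 591607⟩ false
 (nat_lit 350) (Int.ofNat (nat_lit 1960)) (nat_lit 400) (Int.ofNat (nat_lit 1545)) qL120_60_3_7 = true := by
 decide +kernel

def qL120_60_3_8 : PCt := .one ⟨2008000, 251, 461840, -231724, 123712, 0, 0, 300000, 400000, 450000⟩ ⟨0,
 .pol, .pol, .pol, .pol, .sx 150000 (.sx 75000 (.sx 37500 (.sx 18750 (.sx 9375 (.aff 1100000 1735005 5764)
 (.aff 1000000 0 0)) (.aff 1000000 0 0)) (.aff 1000000 0 0)) (.aff 1000000 0 0)) (.aff 1000000 0 0), .pol,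
 .pol, .pol, .pol⟩

def hL120_60_3_8 : pcchk ⟨(nat_lit 1), (nat_lit 1000), Int.ofNat (nat_lit 230), 0, ⟨0, 1⟩, ⟨Int.ofNat
 (nat_lit 60), 200⟩⟩ ⟨600000, 650000, 790411, 774755, 806384, 612032, 632797, 591949, 632455, 591607⟩ false
 (nat_lit 400) (Int.ofNat (nat_lit 1545)) (nat_lit 450) (Int.ofNat (nat_lit 968)) qL120_60_3_8 = true := by
 decide +kernel

def qL120_60_3_9 : PCt := .one ⟨2008000, 251, 461840, -291562, 150640, 0, 0, 300000, 450000, 500000⟩ ⟨0,
 .pol, .pol, .pol, .pol, .sx 150000 (.sx 75000 (.aff 1250000 2087603 29939) (.aff 1000000 0 0)) (.aff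
 1000000 0 0), .pol, .pol, .pol, .pol⟩

def hL120_60_3_9 : pcchk ⟨(nat_lit 1), (nat_lit 1000), Int.ofNat (nat_lit 230), 0, ⟨0, 1⟩, ⟨Int.ofNat
 (nat_lit 60), 200⟩⟩ ⟨600000, 650000, 790411, 774755, 806384, 612032, 632797, 591949, 632455, 591607⟩ false
 (nat_lit 450) (Int.ofNat (nat_lit 968)) (nat_lit 500) (Int.ofNat (nat_lit 242)) qL120_60_3_9 = true := by
 decide +kernel

def qL120_60_3_10 : PCt := .one ⟨2008000, 251, 461840, -369472, 189595, 0, 0, 300000, 500000, 550000⟩ ⟨0,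
 .pol, .pol, .pol, .pol, .sx 150000 (.sx 75000 (.sy 525000 (.sy 512500 (.aff 1350000 2221309 55148) (.sy
 518750 (.sx 37500 (.sx 18750 (.aff 1400000 2318227 69019) (.aff 1000000 0 0)) (.aff 1000000 0 0)) (.sx
 37500 (.sx 18750 (.aff 1450000 2623763 77180) (.aff 1000000 0 0)) (.aff 1000000 0 0)))) (.sx 37500 (.aff
 1450000 2409357 84048) (.aff 1000000 0 0))) (.aff 1000000 0 0)) (.aff 1000000 0 0), .pol, .pol, .pol, .pol⟩

def hL120_60_3_10 : pcchk ⟨(nat_lit 1), (nat_lit 1000), Int.ofNat (nat_lit 230), 0, ⟨0, 1⟩, ⟨Int.ofNat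
 (nat_lit 60), 200⟩⟩ ⟨600000, 650000, 790411, 774755, 806384, 612032, 632797, 591949, 632455, 591607⟩ false
 (nat_lit 500) (Int.ofNat (nat_lit 242)) (nat_lit 550) (Int.negSucc (nat_lit 677)) qL120_60_3_10 = true :=
 by decide +kernel

def qL120_60_3_11 : PCt := .one ⟨2008000, 251, 461840, -439752, 228249, 0, 0, 300000, 550000, 600000⟩ ⟨0,
 .pol, .pol, .pol, .pol, .sx 150000 (.sx 75000 (.sx 37500 (.sy 575000 (.sx 18750 (.aff 1500000 3162278
 79057) (.aff 1497000 2434793 101450)) (.aff 1550000 2513741 120339)) (.aff 1500000 1751191 142760)) (.aff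
 1000000 0 0)) (.aff 1000000 0 0), .pol, .pol, .pol, .pol⟩

def hL120_60_3_11 : pcchk ⟨(nat_lit 1), (nat_lit 1000), Int.ofNat (nat_lit 230), 0, ⟨0, 1⟩, ⟨Int.ofNat
 (nat_lit 60), 200⟩⟩ ⟨600000, 650000, 790411, 774755, 806384, 612032, 632797, 591949, 632455, 591607⟩ false
 (nat_lit 550) (Int.negSucc (nat_lit 677)) (nat_lit 600) (Int.negSucc (nat_lit 1772)) qL120_60_3_11 = true
 := by decide +kernel

def qL120_60_3_12 : PCt := .one ⟨2008000, 251, 461840, -530916, 282947, 0, 0, 300000, 600000, 650000⟩ ⟨0,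
 .pol, .pol, .pol, .pol, .sx 150000 (.sx 75000 (.sy 625000 (.sx 37500 (.aff 2000000 4666667 214286) (.aff
 1750000 2711089 207482)) (.sx 37500 (.aff 2000000 4760953 210042) (.sx 56250 (.aff 1900000 3029852 267340)
 (.aff 1700000 2264102 216422)))) (.aff 1000000 0 0)) (.aff 1000000 0 0), .pol, .aff 1600000 1732051 207847,
 .pol, .pol⟩

def hL120_60_3_12 : pcchk ⟨(nat_lit 1), (nat_lit 1000), Int.ofNat (nat_lit 230), 0, ⟨0, 1⟩, ⟨Int.ofNat
 (nat_lit 60), 200⟩⟩ ⟨600000, 650000, 790411, 774755, 806384, 612032, 632797, 591949, 632455, 591607⟩ false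
 (nat_lit 600) (Int.negSucc (nat_lit 1772)) (nat_lit 650) (Int.negSucc (nat_lit 3094)) qL120_60_3_12 = true
 := by decide +kernel

def qL120_60_3_13 : PCt := .one ⟨2008000, 251, 461840, -64256, -20382, 0, 0, 300000, 650000, 700000⟩ ⟨0,
 .pol, .pol, .pol, .pol, .sy 675000 (.sy 662500 (.sx 150000 (.sx 75000 (.aff 1850000 2903303 248855) (.aff
 1000000 0 0)) (.aff 1000000 0 0)) (.aff 1900000 2687471 301399)) (.aff 2000000 3027651 330290), .pol, .sy
 675000 (.sx 150000 (.aff 2000000 2972093 336464) (.aff 1000000 0 0)) (.sy 687500 (.sx 150000 (.aff 1950000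
 2863165 315211) (.aff 1000000 0 0)) (.sy 693750 (.sy 690625 (.sx 150000 (.aff 1931000 2821944 307151) (.aff
 1000000 0 0)) (.sx 150000 (.sx 75000 (.aff 2000000 3507928 285069) (.aff 2000000 2480480 403148)) (.aff
 1000000 0 0))) (.sy 696875 (.sx 150000 (.sx 75000 (.aff 2000000 3515838 284428) (.aff 2000000 2723356
 367195)) (.aff 1000000 0 0)) (.sx 150000 (.sx 75000 (.aff 2000000 3051639 327693) (.aff 2000000 2729469
 366372)) (.aff 1000000 0 0))))), .pol, .pol⟩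

def hL120_60_3_13 : pcchk ⟨(nat_lit 1), (nat_lit 1000), Int.ofNat (nat_lit 230), 0, ⟨0, 1⟩, ⟨Int.ofNat
 (nat_lit 60), 200⟩⟩ ⟨600000, 650000, 790411, 774755, 806384, 612032, 632797, 591949, 632455, 591607⟩ false
 (nat_lit 650) (Int.negSucc (nat_lit 3094)) (nat_lit 700) (Int.negSucc (nat_lit 3254)) qL120_60_3_13 = true
 := by decide +kernel

def qL120_60_3_14 : PCt := .one ⟨2008000, 251, 461840, 105620, -139295, 0, 0, 300000, 700000, 750000⟩ ⟨0,
 .pol, .pol, .pol, .pol, .aff 1500000 1099243 227430, .pol, .sy 725000 (.sx 150000 (.sx 75000 (.aff 2000000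
 3082208 324443) (.sx 112500 (.aff 2100000 3032491 399012) (.aff 2000000 2329930 429198))) (.aff 1000000 0
 0)) (.sx 150000 (.sy 737500 (.sx 75000 (.aff 2000000 3122499 320257) (.sx 112500 (.aff 2100000 3072133
 393864) (.aff 2000000 2360388 423660))) (.sx 75000 (.aff 2000000 3149074 317554) (.sx 112500 (.aff 3000000
 5633235 710072) (.aff 2000000 2470337 404804)))) (.aff 1000000 0 0)), .pol, .pol⟩

def hL120_60_3_14 : pcchk ⟨(nat_lit 1), (nat_lit 1000), Int.ofNat (nat_lit 230), 0, ⟨0, 1⟩, ⟨Int.ofNat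
 (nat_lit 60), 200⟩⟩ ⟨600000, 650000, 790411, 774755, 806384, 612032, 632797, 591949, 632455, 591607⟩ false
 (nat_lit 700) (Int.negSucc (nat_lit 3254)) (nat_lit 750) (Int.negSucc (nat_lit 2991)) qL120_60_3_14 = true
 := by decide +kernel

def qL120_60_3_15 : PCt := .one ⟨2008000, 251, 461840, 60641, -105561, 0, 0, 300000, 750000, 800000⟩ ⟨0,
 .pol, .pol, .pol, .pol, .aff 1000000 0 0, .pol, .sx 150000 (.sx 75000 (.aff 3000000 9092122 439942) (.sx
 112500 (.aff 3000000 5750363 695609) (.aff 2400000 3182243 615918))) (.sx 225000 (.aff 2400000 3000247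
 653280) (.aff 1000000 0 0)), .pol, .pol⟩

def hL120_60_3_15 : pcchk ⟨(nat_lit 1), (nat_lit 1000), Int.ofNat (nat_lit 230), 0, ⟨0, 1⟩, ⟨Int.ofNat
 (nat_lit 60), 200⟩⟩ ⟨600000, 650000, 790411, 774755, 806384, 612032, 632797, 591949, 632455, 591607⟩ false
 (nat_lit 750) (Int.negSucc (nat_lit 2991)) (nat_lit 800) (Int.negSucc (nat_lit 2840)) qL120_60_3_15 = true
 := by decide +kernel

def qL120_60_3_16 : PCt := .one ⟨2008000, 251, 461840, 55019, -101063, 0, 0, 300000, 800000, 850000⟩ ⟨0,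
 .pol, .pol, .pol, .pol, .aff 1000000 0 0, .pol, .sx 150000 (.aff 3000000 4690416 852803) (.sx 225000 (.sx
 187500 (.aff 2600000 3356189 762770) (.aff 2625000 3271176 807241)) (.sy 825000 (.aff 2200000 2190891
 657267) (.aff 2757000 3177812 971439))), .pol, .pol⟩

def hL120_60_3_16 : pcchk ⟨(nat_lit 1), (nat_lit 1000), Int.ofNat (nat_lit 230), 0, ⟨0, 1⟩, ⟨Int.ofNat
 (nat_lit 60), 200⟩⟩ ⟨600000, 650000, 790411, 774755, 806384, 612032, 632797, 591949, 632455, 591607⟩ false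
 (nat_lit 800) (Int.negSucc (nat_lit 2840)) (nat_lit 850) (Int.negSucc (nat_lit 2703)) qL120_60_3_16 = true
 := by decide +kernel

def qL120_60_3_17 : PCt := .one ⟨2008000, 251, 461840, 43372, -91164, 0, 0, 300000, 850000, 900000⟩ ⟨0,
 .pol, .pol, .pol, .pol, .aff 1000000 0 0, .pol, .sx 150000 (.aff 3000000 5577734 717138) (.sx 225000 (.aff
 3000000 4119430 971009) (.aff 2925000 3395381 1091373)), .pol, .pol⟩

def hL120_60_3_17 : pcchk ⟨(nat_lit 1), (nat_lit 1000), Int.ofNat (nat_lit 230), 0, ⟨0, 1⟩, ⟨Int.ofNat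
 (nat_lit 60), 200⟩⟩ ⟨600000, 650000, 790411, 774755, 806384, 612032, 632797, 591949, 632455, 591607⟩ false
 (nat_lit 850) (Int.negSucc (nat_lit 2703)) (nat_lit 900) (Int.negSucc (nat_lit 2595)) qL120_60_3_17 = true
 := by decide +kernel

def qL120_60_3_18 : PCt := .one ⟨2008000, 251, 461840, -586336, 475574, 0, 0, 300000, 900000, 950000⟩ ⟨0,
 .pol, .pol, .pol, .pol, .aff 1000000 0 0, .pol, .aff 6200000 9130900 2961373, .pol, .pol⟩

def hL120_60_3_18 : pcchk ⟨(nat_lit 1), (nat_lit 1000), Int.ofNat (nat_lit 230), 0, ⟨0, 1⟩, ⟨Int.ofNat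
 (nat_lit 60), 200⟩⟩ ⟨600000, 650000, 790411, 774755, 806384, 612032, 632797, 591949, 632455, 591607⟩ false
 (nat_lit 900) (Int.negSucc (nat_lit 2595)) (nat_lit 950) (Int.negSucc (nat_lit 4055)) qL120_60_3_18 = true
 := by decide +kernel

def qL120_60_3_19 : PCt := .one ⟨2008000, 251, 461840, -10419111, 9816710, 0, 0, 300000, 950000, 1000000⟩
 ⟨0, .pol, .pol, .pol, .pol, .aff 1000000 0 0, .pol, .aff 35000000 70776644 16333072, .inf 2039608 490291,
 .pol⟩

def hL120_60_3_19 : pcchk ⟨(nat_lit 1), (nat_lit 1000), Int.ofNat (nat_lit 230), 0, ⟨0, 1⟩, ⟨Int.ofNat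
 (nat_lit 60), 200⟩⟩ ⟨600000, 650000, 790411, 774755, 806384, 612032, 632797, 591949, 632455, 591607⟩ false
 (nat_lit 950) (Int.negSucc (nat_lit 4055)) (nat_lit 1000) (Int.negSucc (nat_lit 29999)) qL120_60_3_19 =
 true := by decide +kernel

def qL120_60_4_0 : PCt := .one ⟨2008000, 251, 502000, 756212, 0, 0, 0, 300000, 0, 50000⟩ ⟨12500, .pol, .pol,
 .pol, .pol, .sy 25000 (.sx 156250 .pol (.sx 228125 (.aff 0 255031 3921092) (.sy 12500 (.aff 238000 148322
 3914754) (.aff 250000 153513 3664185)))) (.sx 156250 .pol (.aff 250000 304082 1849830)), .pol, .pol, .sx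
 156250 .pol .pol, .pol⟩

def hL120_60_4_0 : pcchk ⟨(nat_lit 1), (nat_lit 1000), Int.ofNat (nat_lit 250), 0, ⟨0, 1⟩, ⟨Int.ofNat
 (nat_lit 60), 200⟩⟩ ⟨600000, 650000, 790411, 774755, 806384, 612032, 632797, 591949, 632455, 591607⟩ true 0
 0 (nat_lit 50) (Int.ofNat (nat_lit 1883)) qL120_60_4_0 = true := by decide +kernel

def qL120_60_4_1 : PCt := .one ⟨2008000, 251, 502000, -50602, 40340, 0, 0, 300000, 50000, 100000⟩ ⟨0, .pol,
 .pol, .pol, .pol, .sy 75000 (.sx 150000 .pol (.aff 1000000 0 0)) (.sy 87500 (.sx 150000 (.aff 0 849837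
 1176697) (.aff 1000000 0 0)) (.sy 93750 (.sx 150000 (.aff 125000 785337 974900) (.aff 1000000 0 0)) (.sy
 96875 (.sx 150000 (.aff 150000 748821 964851) (.aff 1000000 0 0)) (.sx 150000 (.sx 75000 (.aff 0 1620186
 617214) (.aff 238000 695187 835235)) (.aff 1000000 0 0))))), .pol, .pol, .sy 75000 .pol (.sx 150000 (.sx
 75000 .pol .pol) .pol), .pol⟩

def hL120_60_4_1 : pcchk ⟨(nat_lit 1), (nat_lit 1000), Int.ofNat (nat_lit 250), 0, ⟨0, 1⟩, ⟨Int.ofNat
 (nat_lit 60), 200⟩⟩ ⟨600000, 650000, 790411, 774755, 806384, 612032, 632797, 591949, 632455, 591607⟩ false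
 (nat_lit 50) (Int.ofNat (nat_lit 1883)) (nat_lit 100) (Int.ofNat (nat_lit 1757)) qL120_60_4_1 = true := by
 decide +kernel

def qL120_60_4_2 : PCt := .one ⟨2008000, 251, 502000, 142166, 21063, 0, 0, 300000, 100000, 150000⟩ ⟨0, .pol,
 .pol, .pol, .pol, .sx 150000 (.sy 125000 (.sy 112500 (.sx 75000 (.aff 0 1683251 594089) (.sx 112500 (.aff
 250000 798436 704503) (.aff 300000 672452 728677))) (.sx 75000 (.aff 0 1452967 688247) (.sx 112500 (.aff
 250000 804816 698918) (.aff 1000000 0 0)))) (.sy 137500 (.sx 75000 (.aff 250000 1145644 490991) (.sx 112500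
 (.aff 275000 817911 642644) (.aff 1000000 0 0))) (.sx 75000 (.aff 250000 1198958 469158) (.aff 350000
 846149 499322)))) (.aff 1000000 0 0), .pol, .pol, .sy 125000 (.sy 112500 (.sx 150000 (.sx 75000 .pol .pol)
 .pol) (.sx 150000 (.sx 75000 .pol .pol) .pol)) (.sy 137500 (.sx 150000 (.sx 75000 .pol .pol) .pol) (.sx
 150000 (.sx 75000 .pol .pol) .pol)), .pol⟩

def hL120_60_4_2 : pcchk ⟨(nat_lit 1), (nat_lit 1000), Int.ofNat (nat_lit 250), 0, ⟨0, 1⟩, ⟨Int.ofNat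
 (nat_lit 60), 200⟩⟩ ⟨600000, 650000, 790411, 774755, 806384, 612032, 632797, 591949, 632455, 591607⟩ false
 (nat_lit 100) (Int.ofNat (nat_lit 1757)) (nat_lit 150) (Int.ofNat (nat_lit 2111)) qL120_60_4_2 = true := by
 decide +kernel

def qL120_60_4_3 : PCt := .one ⟨2008000, 251, 502000, 64256, 32750, 0, 0, 300000, 150000, 200000⟩ ⟨0, .pol,
 .pol, .pol, .pol, .sx 150000 (.sy 175000 (.sy 162500 (.sx 75000 (.aff 250000 1082532 519616) (.aff 500000
 645498 387298)) (.sx 75000 (.sx 37500 (.aff 0 3000001 333334) (.aff 375000 1082532 360844)) (.aff 1000000 0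
 0))) (.sy 187500 (.sy 181250 (.sx 75000 (.sx 37500 (.aff 0 2516612 397360) (.aff 375000 1057954 369227))
 (.aff 1000000 0 0)) (.sx 75000 (.sx 37500 (.aff 0 2560382 390567) (.aff 388000 1078407 347313)) (.aff
 1000000 0 0))) (.sy 193750 (.sx 75000 (.sx 37500 (.aff 250000 1952563 288083) (.aff 388000 1096533 341572))
 (.aff 1000000 0 0)) (.sx 75000 (.sx 37500 (.aff 250000 1984314 283474) (.aff 387000 1088626 345178)) (.aff
 1000000 0 0))))) (.aff 1000000 0 0), .pol, .pol, .sx 150000 .pol .pol, .pol⟩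

def hL120_60_4_3 : pcchk ⟨(nat_lit 1), (nat_lit 1000), Int.ofNat (nat_lit 250), 0, ⟨0, 1⟩, ⟨Int.ofNat
 (nat_lit 60), 200⟩⟩ ⟨600000, 650000, 790411, 774755, 806384, 612032, 632797, 591949, 632455, 591607⟩ false
 (nat_lit 150) (Int.ofNat (nat_lit 2111)) (nat_lit 200) (Int.ofNat (nat_lit 2271)) qL120_60_4_3 = true := by
 decide +kernel

def qL120_60_4_4 : PCt := .one ⟨2008000, 251, 502000, 20080, 41585, 0, 0, 300000, 200000, 250000⟩ ⟨0, .pol,
 .pol, .pol, .pol, .sy 225000 (.sx 150000 (.sy 212500 (.sx 75000 (.sx 37500 (.aff 375000 1692509 230797)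
 (.aff 450000 1153690 262203)) (.aff 1000000 0 0)) (.sy 218750 (.sx 75000 (.sx 37500 (.aff 375000 1730547
 225724) (.aff 500000 1185164 210942)) (.aff 1000000 0 0)) (.sx 75000 (.sx 37500 (.aff 375000 1520263
 256946) (.aff 500000 1087812 229820)) (.aff 1000000 0 0)))) (.aff 1000000 0 0)) (.sy 237500 (.sx 150000
 (.sy 231250 (.sx 75000 (.sx 37500 (.aff 500000 1354552 184563) (.aff 1000000 0 0)) (.aff 1000000 0 0)) (.sy
 234375 (.sx 75000 (.sx 37500 (.aff 500000 1438557 173786) (.aff 1000000 0 0)) (.aff 1000000 0 0)) (.sx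
 75000 (.sx 37500 (.aff 500000 1448179 172631) (.aff 1000000 0 0)) (.aff 1000000 0 0)))) (.aff 1000000 0 0))
 (.sx 150000 (.sx 75000 (.sx 37500 (.aff 500000 1471961 169842) (.aff 1000000 0 0)) (.aff 1000000 0 0))
 (.aff 1000000 0 0))), .pol, .pol, .sx 150000 .pol .pol, .pol⟩

def hL120_60_4_4 : pcchk ⟨(nat_lit 1), (nat_lit 1000), Int.ofNat (nat_lit 250), 0, ⟨0, 1⟩, ⟨Int.ofNat
 (nat_lit 60), 200⟩⟩ ⟨600000, 650000, 790411, 774755, 806384, 612032, 632797, 591949, 632455, 591607⟩ false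
 (nat_lit 200) (Int.ofNat (nat_lit 2271)) (nat_lit 250) (Int.ofNat (nat_lit 2321)) qL120_60_4_4 = true := by
 decide +kernel

def qL120_60_4_5 : PCt := .one ⟨2008000, 251, 502000, -41365, 56946, 0, 0, 300000, 250000, 300000⟩ ⟨0, .pol,
 .pol, .pol, .pol, .sy 275000 (.sy 262500 (.sy 256250 (.sx 150000 (.sy 253125 (.sy 251562 (.sx 75000 (.sx
 37500 (.aff 500000 1493039 167444) (.aff 1000000 0 0)) (.aff 1000000 0 0)) (.sx 75000 (.sx 37500 (.aff
 500000 1497683 166925) (.aff 1000000 0 0)) (.aff 1000000 0 0))) (.sy 254687 (.sy 253906 (.sx 75000 (.sx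
 37500 (.aff 550000 1351041 149885) (.aff 1000000 0 0)) (.aff 1000000 0 0)) (.sx 75000 (.sx 37500 (.aff
 550000 1353121 149655) (.aff 1000000 0 0)) (.aff 1000000 0 0))) (.sy 255468 (.sx 75000 (.sx 37500 (.aff
 550000 1355197 149425) (.aff 1000000 0 0)) (.aff 1000000 0 0)) (.sy 255859 (.sx 75000 (.sx 37500 (.aff
 550000 1356753 149254) (.aff 1000000 0 0)) (.aff 1000000 0 0)) (.sx 75000 (.sx 37500 (.aff 550000 1357790
 149140) (.aff 1000000 0 0)) (.aff 1000000 0 0)))))) (.aff 1000000 0 0)) (.sy 259375 (.sx 150000 (.sy 257812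
 (.sx 75000 (.sx 37500 (.aff 550000 1360377 148856) (.aff 1000000 0 0)) (.aff 1000000 0 0)) (.sy 258593 (.sx
 75000 (.sx 37500 (.aff 550000 1363473 148518) (.aff 1000000 0 0)) (.aff 1000000 0 0)) (.sy 258984 (.sx
 75000 (.sx 37500 (.aff 575000 1428669 126429) (.aff 1000000 0 0)) (.aff 1000000 0 0)) (.sx 75000 (.sx 37500
 (.aff 575000 1429747 126334) (.aff 1000000 0 0)) (.aff 1000000 0 0))))) (.aff 1000000 0 0)) (.sx 150000
 (.sx 75000 (.sx 37500 (.aff 575000 1434588 125908) (.aff 1000000 0 0)) (.aff 1000000 0 0)) (.aff 1000000 0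
 0)))) (.sy 268750 (.sx 150000 (.sx 75000 (.sx 37500 (.aff 625000 1483816 94773) (.aff 1000000 0 0)) (.aff
 1000000 0 0)) (.aff 1000000 0 0)) (.sx 150000 (.sy 271875 (.sx 75000 (.sx 37500 (.aff 625000 1496851 93948)
 (.aff 1000000 0 0)) (.aff 1000000 0 0)) (.sy 273437 (.sy 272656 (.sx 75000 (.sx 37500 (.aff 600000 1524249
 104970) (.aff 1000000 0 0)) (.aff 1000000 0 0)) (.sy 273046 (.sx 75000 (.sx 37500 (.aff 600000 1525887
 104858) (.aff 1000000 0 0)) (.aff 1000000 0 0)) (.sx 75000 (.sx 37500 (.aff 600000 1526978 104783) (.aff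
 1000000 0 0)) (.aff 1000000 0 0)))) (.sx 75000 (.sx 37500 (.aff 600000 1455101 109959) (.aff 1000000 0 0))
 (.aff 1000000 0 0)))) (.aff 1000000 0 0)))) (.sx 150000 (.sy 287500 (.sy 281250 (.sy 278125 (.sx 75000 (.sx
 37500 (.aff 625000 1514057 92880) (.aff 1000000 0 0)) (.aff 1000000 0 0)) (.sx 75000 (.sx 37500 (.aff
 625000 1448329 97095) (.aff 1000000 0 0)) (.aff 1000000 0 0))) (.sy 284375 (.sx 75000 (.sx 37500 (.aff
 625000 1456398 96557) (.aff 1000000 0 0)) (.aff 1000000 0 0)) (.sx 75000 (.aff 638000 1449443 90410) (.aff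
 1000000 0 0)))) (.sy 293750 (.sx 75000 (.aff 650000 1448601 84565) (.aff 1000000 0 0)) (.sx 75000 (.aff
 675000 1429220 73904) (.aff 1000000 0 0)))) (.aff 1000000 0 0)), .pol, .pol, .sx 150000 .pol .pol, .pol⟩

def hL120_60_4_5 : pcchk ⟨(nat_lit 1), (nat_lit 1000), Int.ofNat (nat_lit 250), 0, ⟨0, 1⟩, ⟨Int.ofNat
 (nat_lit 60), 200⟩⟩ ⟨600000, 650000, 790411, 774755, 806384, 612032, 632797, 591949, 632455, 591607⟩ false
 (nat_lit 250) (Int.ofNat (nat_lit 2321)) (nat_lit 300) (Int.ofNat (nat_lit 2218)) qL120_60_4_5 = true := by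
 decide +kernel

def qL120_60_4_6 : PCt := .one ⟨2008000, 251, 502000, -103613, 75621, 0, 0, 300000, 300000, 350000⟩ ⟨0,
 .pol, .pol, .pol, .pol, .sx 150000 (.sy 325000 (.sy 312500 (.sy 306250 (.sx 75000 (.aff 725000 1492559
 50669) (.aff 1000000 0 0)) (.sy 309375 (.sx 75000 (.aff 675000 1492151 70788) (.aff 1000000 0 0)) (.sy
 310937 (.sy 310156 (.sy 309765 (.sx 75000 (.sx 37500 (.aff 750000 1587682 39366) (.aff 1000000 0 0)) (.aff
 1000000 0 0)) (.sx 75000 (.sx 37500 (.aff 750000 1588683 39341) (.aff 1000000 0 0)) (.aff 1000000 0 0)))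
 (.sy 310546 (.sy 310351 (.sx 75000 (.sx 37500 (.aff 750000 1589433 39323) (.aff 1000000 0 0)) (.aff 1000000
 0 0)) (.sy 310448 (.sx 75000 (.sx 37500 (.aff 750000 1589807 39313) (.aff 1000000 0 0)) (.aff 1000000 0 0))
 (.sx 75000 (.sx 37500 (.aff 750000 1590057 39307) (.aff 1000000 0 0)) (.aff 1000000 0 0)))) (.sy 310741
 (.sy 310643 (.sy 310594 (.sx 75000 (.sx 37500 (.aff 750000 1590244 39303) (.aff 1000000 0 0)) (.aff 1000000
 0 0)) (.sy 310618 (.sx 75000 (.sx 37500 (.aff 750000 1590336 39300) (.aff 1000000 0 0)) (.aff 1000000 0 0))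
 (.sx 75000 (.sx 37500 (.aff 750000 1590399 39299) (.aff 1000000 0 0)) (.aff 1000000 0 0)))) (.sy 310692
 (.sy 310667 (.sy 310655 (.sy 310649 (.sx 75000 (.sx 37500 (.aff 750000 1590438 39298) (.aff 1000000 0 0))
 (.aff 1000000 0 0)) (.sx 75000 (.sx 37500 (.aff 750000 1590454 39297) (.aff 1000000 0 0)) (.aff 1000000 0
 0))) (.sy 310661 (.sy 310658 (.sx 75000 (.sx 37500 (.aff 750000 1590465 39297) (.aff 1000000 0 0)) (.aff
 1000000 0 0)) (.sy 310659 (.sx 75000 (.sx 37500 (.aff 750000 1590470 39297) (.aff 1000000 0 0)) (.aff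
 1000000 0 0)) (.sx 75000 (.sx 37500 (.aff 750000 1590474 39297) (.aff 1000000 0 0)) (.aff 1000000 0 0))))
 (.sy 310664 (.sy 310662 (.sx 75000 (.sx 37500 (.aff 750000 1590478 39297) (.aff 1000000 0 0)) (.aff 1000000
 0 0)) (.sy 310663 (.sx 75000 (.sx 37500 (.aff 750000 1590481 39297) (.aff 1000000 0 0)) (.aff 1000000 0 0))
 (.sx 75000 (.sx 37500 (.aff 750000 1590483 39297) (.aff 1000000 0 0)) (.aff 1000000 0 0)))) (.sy 310665
 (.sx 75000 (.sx 37500 (.aff 750000 1590486 39297) (.aff 1000000 0 0)) (.aff 1000000 0 0)) (.sy 310666 (.sx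
 75000 (.sx 37500 (.aff 750000 1590488 39297) (.aff 1000000 0 0)) (.aff 1000000 0 0)) (.sx 75000 (.sx 37500
 (.aff 750000 1590491 39297) (.aff 1000000 0 0)) (.aff 1000000 0 0))))))) (.sy 310679 (.sy 310673 (.sy
 310670 (.sx 75000 (.sx 37500 (.aff 750000 1590496 39296) (.aff 1000000 0 0)) (.aff 1000000 0 0)) (.sx 75000
 (.sx 37500 (.aff 750000 1590504 39296) (.aff 1000000 0 0)) (.aff 1000000 0 0))) (.sx 75000 (.sx 37500 (.aff
 750000 1590515 39296) (.aff 1000000 0 0)) (.aff 1000000 0 0))) (.sx 75000 (.sx 37500 (.aff 750000 1590539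
 39295) (.aff 1000000 0 0)) (.aff 1000000 0 0)))) (.sy 310716 (.sx 75000 (.sx 37500 (.aff 750000 1590587
 39294) (.aff 1000000 0 0)) (.aff 1000000 0 0)) (.sx 75000 (.sx 37500 (.aff 750000 1590650 39293) (.aff
 1000000 0 0)) (.aff 1000000 0 0))))) (.sy 310839 (.sx 75000 (.sx 37500 (.aff 750000 1590807 39289) (.aff
 1000000 0 0)) (.aff 1000000 0 0)) (.sx 75000 (.sx 37500 (.aff 750000 1591058 39283) (.aff 1000000 0 0))
 (.aff 1000000 0 0)))))) (.sx 75000 (.sx 37500 (.aff 750000 1593181 39230) (.aff 1000000 0 0)) (.aff 1000000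
 0 0))))) (.aff 775000 1515702 33401)) (.sx 75000 (.sx 37500 (.aff 750000 1657757 37702) (.aff 1000000 0 0))
 (.aff 1000000 0 0))) (.aff 1000000 0 0), .pol, .pol, .pol, .pol⟩

def hL120_60_4_6 : pcchk ⟨(nat_lit 1), (nat_lit 1000), Int.ofNat (nat_lit 250), 0, ⟨0, 1⟩, ⟨Int.ofNat
 (nat_lit 60), 200⟩⟩ ⟨600000, 650000, 790411, 774755, 806384, 612032, 632797, 591949, 632455, 591607⟩ false
 (nat_lit 300) (Int.ofNat (nat_lit 2218)) (nat_lit 350) (Int.ofNat (nat_lit 1960)) qL120_60_4_6 = true := by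
 decide +kernel

def qL120_60_4_7 : PCt := .one ⟨2008000, 251, 502000, -167869, 98110, 0, 0, 300000, 350000, 400000⟩ ⟨0,
 .pol, .pol, .pol, .pol, .sx 150000 (.sx 75000 (.sx 37500 (.sx 18750 (.aff 900000 1719193 5817) (.aff
 1000000 0 0)) (.aff 1000000 0 0)) (.aff 1000000 0 0)) (.aff 1000000 0 0), .pol, .pol, .pol, .pol⟩

def hL120_60_4_7 : pcchk ⟨(nat_lit 1), (nat_lit 1000), Int.ofNat (nat_lit 250), 0, ⟨0, 1⟩, ⟨Int.ofNat
 (nat_lit 60), 200⟩⟩ ⟨600000, 650000, 790411, 774755, 806384, 612032, 632797, 591949, 632455, 591607⟩ false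
 (nat_lit 350) (Int.ofNat (nat_lit 1960)) (nat_lit 400) (Int.ofNat (nat_lit 1542)) qL120_60_4_7 = true := by
 decide +kernel

def qL120_60_4_8 : PCt := .one ⟨2008000, 251, 502000, -230519, 123170, 0, 0, 300000, 400000, 450000⟩ ⟨0,
 .pol, .pol, .pol, .pol, .sx 150000 (.sx 75000 (.sx 37500 (.sx 18750 (.sx 9375 (.aff 1100000 1735005 5764)
 (.aff 1000000 0 0)) (.aff 1000000 0 0)) (.aff 1000000 0 0)) (.aff 1000000 0 0)) (.aff 1000000 0 0), .pol,
 .pol, .pol, .pol⟩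

def hL120_60_4_8 : pcchk ⟨(nat_lit 1), (nat_lit 1000), Int.ofNat (nat_lit 250), 0, ⟨0, 1⟩, ⟨Int.ofNat
 (nat_lit 60), 200⟩⟩ ⟨600000, 650000, 790411, 774755, 806384, 612032, 632797, 591949, 632455, 591607⟩ false
 (nat_lit 400) (Int.ofNat (nat_lit 1542)) (nat_lit 450) (Int.ofNat (nat_lit 968)) qL120_60_4_8 = true := by
 decide +kernel

def qL120_60_4_9 : PCt := .one ⟨2008000, 251, 502000, -298791, 153893, 0, 0, 300000, 450000, 500000⟩ ⟨0,
 .pol, .pol, .pol, .pol, .sx 150000 (.sx 75000 (.sx 37500 (.aff 1250000 2284940 27354) (.aff 1000000 0 0))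
 (.aff 1000000 0 0)) (.aff 1000000 0 0), .pol, .pol, .pol, .pol⟩

def hL120_60_4_9 : pcchk ⟨(nat_lit 1), (nat_lit 1000), Int.ofNat (nat_lit 250), 0, ⟨0, 1⟩, ⟨Int.ofNat
 (nat_lit 60), 200⟩⟩ ⟨600000, 650000, 790411, 774755, 806384, 612032, 632797, 591949, 632455, 591607⟩ false
 (nat_lit 450) (Int.ofNat (nat_lit 968)) (nat_lit 500) (Int.ofNat (nat_lit 224)) qL120_60_4_9 = true := by
 decide +kernel

def qL120_60_4_10 : PCt := .one ⟨2008000, 251, 502000, -379914, 194454, 0, 0, 300000, 500000, 550000⟩ ⟨0,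
 .pol, .pol, .pol, .pol, .sx 150000 (.sx 75000 (.sy 525000 (.sy 512500 (.sx 37500 (.sx 18750 (.aff 1475000
 2594719 86956) (.aff 1000000 0 0)) (.aff 1000000 0 0)) (.sx 37500 (.sx 18750 (.aff 1494000 2631080 92752)
 (.aff 1000000 0 0)) (.aff 1000000 0 0))) (.sx 37500 (.aff 1475000 2543210 88717) (.aff 1000000 0 0))) (.aff
 1000000 0 0)) (.aff 1000000 0 0), .pol, .pol, .pol, .pol⟩

def hL120_60_4_10 : pcchk ⟨(nat_lit 1), (nat_lit 1000), Int.ofNat (nat_lit 250), 0, ⟨0, 1⟩, ⟨Int.ofNat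
 (nat_lit 60), 200⟩⟩ ⟨600000, 650000, 790411, 774755, 806384, 612032, 632797, 591949, 632455, 591607⟩ false
 (nat_lit 500) (Int.ofNat (nat_lit 224)) (nat_lit 550) (Int.negSucc (nat_lit 721)) qL120_60_4_10 = true :=
 by decide +kernel

def qL120_60_4_11 : PCt := .one ⟨2008000, 251, 502000, -453808, 235096, 0, 0, 300000, 550000, 600000⟩ ⟨0,
 .pol, .pol, .pol, .pol, .sx 150000 (.sx 75000 (.sy 575000 (.sy 562500 (.sy 556250 (.sx 37500 (.aff 1475000
 2579911 87455) (.aff 1000000 0 0)) (.sx 37500 (.sx 18750 (.aff 1500000 2730995 91542) (.aff 1500000 2442677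
 102347)) (.aff 1000000 0 0))) (.sy 568750 (.sx 37500 (.sx 18750 (.aff 1500000 2746210 91035) (.aff 1525000
 2579099 106869)) (.aff 1000000 0 0)) (.sx 37500 (.sy 571875 (.sx 18750 (.aff 2000000 7799573 128213) (.aff
 1525000 2589764 106429)) (.sx 18750 (.aff 2000000 7820913 127863) (.sx 28125 (.aff 2000000 4946380 202169)
 (.aff 1500000 2169131 115254)))) (.aff 1000000 0 0)))) (.sx 37500 (.aff 1725000 2869633 183169) (.aff
 1500000 1770123 141234))) (.aff 1000000 0 0)) (.aff 1000000 0 0), .pol, .pol, .pol, .pol⟩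

def hL120_60_4_11 : pcchk ⟨(nat_lit 1), (nat_lit 1000), Int.ofNat (nat_lit 250), 0, ⟨0, 1⟩, ⟨Int.ofNat
 (nat_lit 60), 200⟩⟩ ⟨600000, 650000, 790411, 774755, 806384, 612032, 632797, 591949, 632455, 591607⟩ false
 (nat_lit 550) (Int.negSucc (nat_lit 721)) (nat_lit 600) (Int.negSucc (nat_lit 1851)) qL120_60_4_11 = true
 := by decide +kernel

def qL120_60_4_12 : PCt := .one ⟨2008000, 251, 502000, -550996, 293408, 0, 0, 300000, 600000, 650000⟩ ⟨0,
 .pol, .pol, .pol, .pol, .sx 150000 (.sx 75000 (.sx 37500 (.aff 2000000 4714046 212132) (.sy 625000 (.aff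
 1875000 2954309 259156) (.sx 56250 (.aff 1900000 3029852 267340) (.aff 1900000 2805098 288760)))) (.aff
 1000000 0 0)) (.aff 1000000 0 0), .pol, .pol, .pol, .pol⟩

def hL120_60_4_12 : pcchk ⟨(nat_lit 1), (nat_lit 1000), Int.ofNat (nat_lit 250), 0, ⟨0, 1⟩, ⟨Int.ofNat
 (nat_lit 60), 200⟩⟩ ⟨600000, 650000, 790411, 774755, 806384, 612032, 632797, 591949, 632455, 591607⟩ false
 (nat_lit 600) (Int.negSucc (nat_lit 1851)) (nat_lit 650) (Int.negSucc (nat_lit 3223)) qL120_60_4_12 = true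
 := by decide +kernel

def qL120_60_4_13 : PCt := .one ⟨2008000, 251, 502000, -87148, -8093, 0, 0, 300000, 650000, 700000⟩ ⟨0,
 .pol, .pol, .pol, .pol, .sy 675000 (.sy 662500 (.sx 150000 (.sx 75000 (.aff 1900000 3074086 263493) (.aff
 1000000 0 0)) (.aff 1000000 0 0)) (.aff 1950000 2836775 318143)) (.aff 2000000 3027651 330290), .pol, .sy
 675000 (.sx 150000 (.aff 2000000 2972093 336464) (.aff 1000000 0 0)) (.sy 687500 (.sx 150000 (.aff 2050000
 3164550 348391) (.aff 1000000 0 0)) (.sy 693750 (.sx 150000 (.sx 75000 (.aff 2000000 3503967 285391) (.aff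
 2000000 2714161 368438)) (.aff 1000000 0 0)) (.sx 150000 (.sx 75000 (.aff 3000000 7039571 568217) (.aff
 2150000 3135377 421800)) (.aff 1000000 0 0)))), .pol, .pol⟩

def hL120_60_4_13 : pcchk ⟨(nat_lit 1), (nat_lit 1000), Int.ofNat (nat_lit 250), 0, ⟨0, 1⟩, ⟨Int.ofNat
 (nat_lit 60), 200⟩⟩ ⟨600000, 650000, 790411, 774755, 806384, 612032, 632797, 591949, 632455, 591607⟩ false
 (nat_lit 650) (Int.negSucc (nat_lit 3223)) (nat_lit 700) (Int.negSucc (nat_lit 3440)) qL120_60_4_13 = true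
 := by decide +kernel

def qL120_60_4_14 : PCt := .one ⟨2008000, 251, 502000, 79115, -124476, 0, 0, 300000, 700000, 750000⟩ ⟨0,
 .pol, .pol, .pol, .pol, .aff 1500000 1099243 227430, .pol, .sy 725000 (.sy 712500 (.sx 150000 (.sx 75000
 (.aff 3000000 7086764 564433) (.sx 112500 (.aff 2094000 3165117 378134) (.aff 1500000 1159844 215547)))
 (.aff 1000000 0 0)) (.sy 718750 (.sx 150000 (.sx 75000 (.aff 3000000 7133645 560724) (.sx 112500 (.sx 93750
 (.aff 3000000 5824597 686743) (.aff 2100000 2965891 407972)) (.aff 2000000 2335034 428260))) (.aff 1000000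
 0 0)) (.sx 150000 (.sx 75000 (.aff 3000000 7164729 558291) (.sx 112500 (.sx 93750 (.aff 3000000 5849977
 683764) (.aff 2200000 3249616 443130)) (.aff 2000000 2345208 426402))) (.aff 1000000 0 0)))) (.sx 150000
 (.sx 75000 (.aff 3000000 7241854 552345) (.sx 112500 (.aff 2600000 4096612 624907) (.aff 2200000 2951923
 487818))) (.aff 1000000 0 0)), .pol, .pol⟩

def hL120_60_4_14 : pcchk ⟨(nat_lit 1), (nat_lit 1000), Int.ofNat (nat_lit 250), 0, ⟨0, 1⟩, ⟨Int.ofNat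
 (nat_lit 60), 200⟩⟩ ⟨600000, 650000, 790411, 774755, 806384, 612032, 632797, 591949, 632455, 591607⟩ false
 (nat_lit 700) (Int.negSucc (nat_lit 3440)) (nat_lit 750) (Int.negSucc (nat_lit 3243)) qL120_60_4_14 = true
 := by decide +kernel

def qL120_60_4_15 : PCt := .one ⟨2008000, 251, 502000, 28112, -86224, 0, 0, 300000, 750000, 800000⟩ ⟨0,
 .pol, .pol, .pol, .pol, .aff 1000000 0 0, .pol, .sx 150000 (.sx 75000 (.aff 3000000 9092122 439942) (.sx
 112500 (.aff 3000000 5750363 695609) (.aff 2600000 3636849 703907))) (.sx 225000 (.aff 2600000 3428854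
 746606) (.aff 1000000 0 0)), .pol, .pol⟩

def hL120_60_4_15 : pcchk ⟨(nat_lit 1), (nat_lit 1000), Int.ofNat (nat_lit 250), 0, ⟨0, 1⟩, ⟨Int.ofNat
 (nat_lit 60), 200⟩⟩ ⟨600000, 650000, 790411, 774755, 806384, 612032, 632797, 591949, 632455, 591607⟩ false
 (nat_lit 750) (Int.negSucc (nat_lit 3243)) (nat_lit 800) (Int.negSucc (nat_lit 3173)) qL120_60_4_15 = true
 := by decide +kernel

def qL120_60_4_16 : PCt := .one ⟨2008000, 251, 502000, -8434, -56988, 0, 0, 300000, 800000, 850000⟩ ⟨0,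
 .pol, .pol, .pol, .pol, .aff 1000000 0 0, .pol, .sx 150000 (.aff 3000000 4690416 852803) (.sx 225000 (.sx
 187500 (.aff 2900000 3985474 905790) (.aff 2875000 3760418 934903)) (.aff 2900000 3495492 1032759)), .pol,
 .pol⟩

def hL120_60_4_16 : pcchk ⟨(nat_lit 1), (nat_lit 1000), Int.ofNat (nat_lit 250), 0, ⟨0, 1⟩, ⟨Int.ofNat
 (nat_lit 60), 200⟩⟩ ⟨600000, 650000, 790411, 774755, 806384, 612032, 632797, 591949, 632455, 591607⟩ false
 (nat_lit 800) (Int.negSucc (nat_lit 3173)) (nat_lit 850) (Int.negSucc (nat_lit 3194)) qL120_60_4_16 = true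
 := by decide +kernel

def qL120_60_4_17 : PCt := .one ⟨2008000, 251, 502000, -37751, -32068, 0, 0, 300000, 850000, 900000⟩ ⟨0,
 .pol, .pol, .pol, .pol, .aff 1000000 0 0, .pol, .sx 150000 (.aff 3000000 5577734 717138) (.sx 225000 (.aff
 3100000 4141256 1064895) (.sx 262500 (.aff 3200000 4168257 1161157) (.aff 3275000 3980554 1300228))), .pol,
 .pol⟩

def hL120_60_4_17 : pcchk ⟨(nat_lit 1), (nat_lit 1000), Int.ofNat (nat_lit 250), 0, ⟨0, 1⟩, ⟨Int.ofNat
 (nat_lit 60), 200⟩⟩ ⟨600000, 650000, 790411, 774755, 806384, 612032, 632797, 591949, 632455, 591607⟩ false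
 (nat_lit 850) (Int.negSucc (nat_lit 3194)) (nat_lit 900) (Int.negSucc (nat_lit 3288)) qL120_60_4_17 = true
 := by decide +kernel

def qL120_60_4_18 : PCt := .one ⟨2008000, 251, 502000, -379512, 275517, 0, 0, 300000, 900000, 950000⟩ ⟨0,
 .pol, .pol, .pol, .pol, .aff 1000000 0 0, .pol, .aff 5000000 7023770 2277979, .pol, .pol⟩

def hL120_60_4_18 : pcchk ⟨(nat_lit 1), (nat_lit 1000), Int.ofNat (nat_lit 250), 0, ⟨0, 1⟩, ⟨Int.ofNat
 (nat_lit 60), 200⟩⟩ ⟨600000, 650000, 790411, 774755, 806384, 612032, 632797, 591949, 632455, 591607⟩ false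
 (nat_lit 900) (Int.negSucc (nat_lit 3288)) (nat_lit 950) (Int.negSucc (nat_lit 4233)) qL120_60_4_18 = true
 := by decide +kernel

def qL120_60_4_19 : PCt := .one ⟨2008000, 251, 502000, -10347626, 9745225, 0, 0, 300000, 950000, 1000000⟩
 ⟨0, .pol, .pol, .pol, .pol, .aff 1000000 0 0, .pol, .aff 35000000 70776644 16333072, .inf 2039608 490291,
 .pol⟩

def hL120_60_4_19 : pcchk ⟨(nat_lit 1), (nat_lit 1000), Int.ofNat (nat_lit 250), 0, ⟨0, 1⟩, ⟨Int.ofNat
 (nat_lit 60), 200⟩⟩ ⟨600000, 650000, 790411, 774755, 806384, 612032, 632797, 591949, 632455, 591607⟩ false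
 (nat_lit 950) (Int.negSucc (nat_lit 4233)) (nat_lit 1000) (Int.negSucc (nat_lit 29999)) qL120_60_4_19 =
 true := by decide +kernel

def qL120_60_5_0 : PCt := .one ⟨2008000, 251, 803200, 128913, 0, 0, 0, 300000, 0, 50000⟩ ⟨25000, .aff
 2000000 500000, .pol, .pol, .pol, .aff 0 940939 1062769, .aff 0 2216390 451185, .pol, .pol, .pol⟩

def hL120_60_5_0 : pcchk ⟨(nat_lit 1), (nat_lit 1000), Int.ofNat (nat_lit 400), 0, ⟨0, 1⟩, ⟨Int.ofNat
 (nat_lit 60), 200⟩⟩ ⟨600000, 650000, 790411, 774755, 806384, 612032, 632797, 591949, 632455, 591607⟩ true 0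
 0 (nat_lit 50) (Int.ofNat (nat_lit 321)) qL120_60_5_0 = true := by decide +kernel

def qL120_60_5_1 : PCt := .one ⟨2008000, 251, 803200, 162246, -1667, 0, 0, 300000, 50000, 100000⟩ ⟨0, .pol,
 .pol, .pol, .pol, .sy 75000 (.sy 62500 (.sx 150000 (.sx 75000 (.sx 37500 (.aff 0 2169087 461024) (.aff 0
 1000000 1000000)) .pol) .pol) (.sx 150000 (.sx 75000 (.aff 0 2089953 478480) .pol) .pol)) (.sy 87500 (.sy
 81250 (.sx 150000 (.sx 75000 (.aff 0 2092916 477803) (.aff 0 833334 1200000)) .pol) (.sy 84375 (.sy 82812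
 (.sx 150000 (.sx 75000 (.aff 0 2091647 478093) (.aff 0 853912 1171081)) .pol) (.sx 150000 (.sx 75000 (.aff
 0 2085245 479560) (.aff 0 862006 1160085)) .pol)) (.sx 150000 (.sx 75000 (.aff 0 2075005 481927) (.aff 0
 874008 1144155)) .pol))) (.sy 93750 (.sy 90625 (.sx 150000 (.sx 75000 (.sx 37500 (.aff 0 2179450 458832)
 (.aff 0 1258306 794720)) (.aff 0 889757 1123903)) .pol) (.sx 150000 (.sx 75000 (.sx 37500 (.aff 0 2109215
 474111) (.aff 0 1280191 781134)) (.aff 0 905232 1104690)) .pol)) (.sx 150000 (.sx 75000 (.sx 37500 (.aff 0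
 2108790 474206) (.aff 0 1312335 762001)) (.aff 0 927961 1077632)) .pol))), .pol, .pol, .sx 150000 (.sx
 75000 (.sx 37500 .pol .pol) .pol) .pol, .pol⟩

def hL120_60_5_1 : pcchk ⟨(nat_lit 1), (nat_lit 1000), Int.ofNat (nat_lit 400), 0, ⟨0, 1⟩, ⟨Int.ofNat
 (nat_lit 60), 200⟩⟩ ⟨600000, 650000, 790411, 774755, 806384, 612032, 632797, 591949, 632455, 591607⟩ false
 (nat_lit 50) (Int.ofNat (nat_lit 321)) (nat_lit 100) (Int.ofNat (nat_lit 725)) qL120_60_5_1 = true := by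
 decide +kernel

def qL120_60_5_2 : PCt := .one ⟨2008000, 251, 803200, 198390, -5282, 0, 0, 300000, 100000, 150000⟩ ⟨0, .pol,
 .pol, .pol, .pol, .sy 125000 (.sx 150000 (.sx 75000 (.sx 37500 (.aff 0 2102543 475615) (.aff 0 1549194
 645497)) (.aff 0 1000000 1000000)) .pol) (.sy 137500 (.sx 150000 (.sx 75000 (.sx 37500 (.aff 0 2160247
 462911) (.aff 0 1673321 597614)) (.aff 0 1080124 925820)) .pol) (.sy 143750 (.sx 150000 (.sx 75000 (.sx
 37500 (.aff 0 2236068 447214) (.aff 0 1732051 577351)) (.aff 0 1118034 894428)) (.aff 0 790570 1264911))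
 (.sy 146875 (.sy 145312 (.sx 150000 (.sy 144531 (.sx 75000 (.sx 37500 (.aff 0 2263846 441727) (.aff 0
 1753568 570266)) (.aff 0 1131923 883453)) (.sx 75000 (.sx 37500 (.aff 0 2053954 486866) (.aff 0 1758312
 568728)) (.aff 0 1134986 881069))) (.aff 0 801474 1247702)) (.sx 150000 (.sx 75000 (.sx 37500 (.aff 0
 2062243 484909) (.aff 0 1765407 566442)) (.aff 0 1139566 877528)) (.aff 0 805795 1241011))) (.sy 148437
 (.sx 150000 (.sx 75000 (.sx 37500 (.aff 0 2073242 482337) (.aff 0 1774823 563437)) (.aff 0 1145643 872873))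
 (.aff 0 810092 1234428)) (.sx 150000 (.sx 75000 (.sx 37500 (.aff 0 2084182 479805) (.aff 0 1784189 560479))
 (.aff 0 1151689 868290)) (.aff 0 814367 1227948)))))), .pol, .pol, .sx 150000 (.sx 75000 .pol .pol) .pol,
 .pol⟩

def hL120_60_5_2 : pcchk ⟨(nat_lit 1), (nat_lit 1000), Int.ofNat (nat_lit 400), 0, ⟨0, 1⟩, ⟨Int.ofNat
 (nat_lit 60), 200⟩⟩ ⟨600000, 650000, 790411, 774755, 806384, 612032, 632797, 591949, 632455, 591607⟩ false
 (nat_lit 100) (Int.ofNat (nat_lit 725)) (nat_lit 150) (Int.ofNat (nat_lit 1219)) qL120_60_5_2 = true := by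
 decide +kernel

def qL120_60_5_3 : PCt := .one ⟨2008000, 251, 803200, 229313, -9920, 0, 0, 300000, 150000, 200000⟩ ⟨0, .pol,
 .pol, .pol, .pol, .sy 175000 (.sy 162500 (.sx 150000 (.sx 75000 (.sx 37500 (.aff 0 2145899 466006) (.aff 0
 1825742 547723)) (.aff 0 1178512 848528)) (.aff 0 833334 1200000)) (.sy 168750 (.sy 165625 (.sy 164062 (.sx
 150000 (.sx 75000 (.sx 37500 (.aff 0 2086663 479235) (.aff 0 1866368 535801)) (.aff 0 1204736 830058))
 (.aff 0 851877 1173879)) (.sx 150000 (.sx 75000 (.sx 37500 (.aff 0 2096623 476958) (.aff 0 1875277 533255))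
 (.aff 0 1210486 826115)) (.aff 0 855943 1168303))) (.sx 150000 (.sx 75000 (.sx 37500 (.aff 0 2111477
 473603) (.aff 0 1888563 529504)) (.aff 0 1219062 820303)) (.aff 0 862007 1160084))) (.sx 150000 (.sy 171875
 (.sy 170312 (.sx 75000 (.sx 37500 (.aff 0 2455152 407307) (.aff 0 1901753 525831)) (.aff 0 1227576 814614))
 (.sx 75000 (.sx 37500 (.aff 0 2466440 405443) (.aff 0 1910496 523425)) (.aff 0 1233220 810886))) (.sy
 173437 (.sx 75000 (.sx 37500 (.aff 0 2477677 403604) (.aff 0 1919200 521051)) (.aff 0 1238839 807208)) (.sx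
 75000 (.sx 37500 (.aff 0 2488863 401790) (.aff 0 1927865 518709)) (.aff 0 1244432 803580)))) (.aff 0 874008
 1144155)))) (.sy 187500 (.sx 150000 (.sy 181250 (.sx 75000 (.sx 37500 (.aff 0 2516612 397360) (.aff 0
 1949359 512990)) (.aff 0 1258306 794720)) (.sx 75000 (.aff 63000 2077663 422576) (.aff 0 1280191 781134)))
 (.aff 0 897528 1114172)) (.sy 193750 (.sy 190625 (.sy 189062 (.sx 150000 (.sx 75000 (.aff 75000 2072667
 412814) (.aff 0 1293681 772989)) (.aff 0 914771 1093170)) (.sx 150000 (.sx 75000 (.aff 75000 2081249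
 411112) (.aff 0 1299038 769801)) (.aff 0 918559 1088662))) (.sx 150000 (.sx 75000 (.aff 75000 2094058
 408597) (.aff 0 1431783 698430)) (.aff 0 924212 1082003))) (.sy 196875 (.sy 195312 (.sx 150000 (.sx 75000
 (.aff 75000 2106787 406128) (.aff 0 1440486 694211)) (.aff 0 929830 1075466)) (.sx 150000 (.sx 75000 (.aff
 75000 2115231 404507) (.aff 0 1446259 691440)) (.aff 0 933556 1071174))) (.sx 150000 (.sx 75000 (.aff 75000
 2127836 402111) (.aff 0 1454877 687344)) (.aff 0 939119 1064828))))), .pol, .pol, .sx 150000 .pol .pol,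
 .pol⟩

def hL120_60_5_3 : pcchk ⟨(nat_lit 1), (nat_lit 1000), Int.ofNat (nat_lit 400), 0, ⟨0, 1⟩, ⟨Int.ofNat
 (nat_lit 60), 200⟩⟩ ⟨600000, 650000, 790411, 774755, 806384, 612032, 632797, 591949, 632455, 591607⟩ false
 (nat_lit 150) (Int.ofNat (nat_lit 1219)) (nat_lit 200) (Int.ofNat (nat_lit 1790)) qL120_60_5_3 = true := by
 decide +kernel

end CB
end Pool.Agent.Lib.MP_6947cd_al
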