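import Pool.Agent.Lib.MP_6947cd_al.L.PairSplit

/-!
Problem MP_6947cd_al (Chollet).  Library of pair functions: certificates of the pieces (generated).
-/

set_option autoImplicit false
set_option linter.defProp false
set_option maxRecDepth 100000

namespace Pool.Agent.Lib.MP_6947cd_al
namespace CB

open CA

def qL130_40_0_0 : PCt := .one ⟨2008000, 251, 502000, 477904, 0, 0, 0, 200000, 0, 50000⟩ ⟨50000, .pol, .pol,
 .pol, .pol, .sx 125000 .pol (.sx 162500 .pol (.sx 181250 (.aff 0 381386 2622016) (.sy 25000 (.aff 0 316688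
 3157683) (.sy 37500 (.aff 125000 345875 2213589) (.aff 1000000 0 0))))), .pol, .pol, .pol, .pol⟩

def hL130_40_0_0 : pcchk ⟨(nat_lit 3), (nat_lit 1000), Int.ofNat (nat_lit 250), 0, ⟨0, 1⟩, ⟨Int.ofNat
 (nat_lit 40), 200⟩⟩ ⟨650000, 700000, 821443, 806367, 836801, 569665, 592031, 548146, 591607, 547722⟩ true 0
 0 (nat_lit 50) (Int.ofNat (nat_lit 1190)) qL130_40_0_0 = true := by decide +kernel

def qL130_40_0_1 : PCt := .one ⟨2008000, 251, 502000, 296380, 9076, 0, 0, 200000, 50000, 100000⟩ ⟨0, .pol,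
 .pol, .pol, .pol, .sy 75000 (.sx 100000 (.aff 0 1118034 894428) (.aff 375000 403436 968246)) (.sy 87500
 (.sx 100000 (.aff 0 1040833 960769) (.aff 500000 367991 679365)) (.sy 93750 (.sx 100000 (.aff 125000 961837
 796003) (.aff 500000 388641 643268)) (.sx 100000 (.sx 50000 (.aff 0 1968502 508001) (.aff 125000 861220
 889001)) (.aff 1000000 0 0)))), .pol, .pol, .sy 75000 (.sy 62500 (.sy 56250 .pol (.sy 59375 (.sx 100000
 (.sx 50000 .pol .pol) .pol) (.sx 100000 (.sx 50000 .pol .pol) .pol))) (.sy 68750 (.sy 65625 (.sx 100000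
 (.sx 50000 .pol .pol) .pol) (.sx 100000 (.sx 50000 .pol .pol) .pol)) (.sy 71875 (.sx 100000 (.sx 50000 .pol
 .pol) .pol) (.sx 100000 (.sx 50000 .pol .pol) .pol)))) (.sy 87500 (.sy 81250 (.sy 78125 (.sx 100000 (.sx
 50000 .pol .pol) .pol) (.sx 100000 (.sx 50000 .pol .pol) .pol)) (.sy 84375 (.sx 100000 (.sx 50000 .pol
 .pol) .pol) (.sx 100000 (.sx 50000 .pol .pol) .pol))) (.sy 93750 (.sy 90625 (.sx 100000 (.sx 50000 .pol
 .pol) .pol) (.sx 100000 (.sx 50000 .pol .pol) .pol)) (.sy 96875 (.sx 100000 (.sx 50000 .pol .pol) .pol)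
 (.sx 100000 (.sx 50000 .pol .pol) .pol)))), .pol⟩

def hL130_40_0_1 : pcchk ⟨(nat_lit 3), (nat_lit 1000), Int.ofNat (nat_lit 250), 0, ⟨0, 1⟩, ⟨Int.ofNat
 (nat_lit 40), 200⟩⟩ ⟨650000, 700000, 821443, 806367, 836801, 569665, 592031, 548146, 591607, 547722⟩ false
 (nat_lit 50) (Int.ofNat (nat_lit 1190)) (nat_lit 100) (Int.ofNat (nat_lit 1928)) qL130_40_0_1 = true := by
 decide +kernel

def qL130_40_0_2 : PCt := .one ⟨2008000, 251, 502000, 338950, 4819, 0, 0, 200000, 100000, 150000⟩ ⟨0, .pol,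
 .pol, .pol, .pol, .sx 100000 (.sy 125000 (.sx 50000 (.aff 0 1732051 577351) (.sx 75000 (.aff 200000 1073313
 596285) (.aff 275000 822073 639390))) (.sx 50000 (.aff 250000 1436141 391675) (.sx 75000 (.aff 275000
 1025305 512653) (.aff 1000000 0 0)))) (.aff 1000000 0 0), .pol, .pol, .sx 100000 .pol .pol, .pol⟩

def hL130_40_0_2 : pcchk ⟨(nat_lit 3), (nat_lit 1000), Int.ofNat (nat_lit 250), 0, ⟨0, 1⟩, ⟨Int.ofNat
 (nat_lit 40), 200⟩⟩ ⟨650000, 700000, 821443, 806367, 836801, 569665, 592031, 548146, 591607, 547722⟩ false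
 (nat_lit 100) (Int.ofNat (nat_lit 1928)) (nat_lit 150) (Int.ofNat (nat_lit 2772)) qL130_40_0_2 = true := by
 decide +kernel

def qL130_40_0_3 : PCt := .one ⟨2008000, 251, 502000, 322886, 7228, 0, 0, 200000, 150000, 200000⟩ ⟨0, .pol,
 .pol, .pol, .pol, .sy 175000 (.sx 100000 (.sx 50000 (.aff 325000 1344854 338792) (.aff 500000 806226
 310087)) (.aff 1000000 0 0)) (.sx 100000 (.sy 187500 (.sy 181250 (.sx 50000 (.sy 178125 (.aff 350000
 1410416 299558) (.aff 363000 1394386 291002)) (.aff 1000000 0 0)) (.sx 50000 (.aff 388000 1426598 262544)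
 (.aff 1000000 0 0))) (.sx 50000 (.sx 25000 (.aff 375000 2009094 194429) (.aff 381000 1319020 290490)) (.aff
 1000000 0 0))) (.aff 1000000 0 0)), .pol, .pol, .sx 100000 .pol .pol, .pol⟩

def hL130_40_0_3 : pcchk ⟨(nat_lit 3), (nat_lit 1000), Int.ofNat (nat_lit 250), 0, ⟨0, 1⟩, ⟨Int.ofNat
 (nat_lit 40), 200⟩⟩ ⟨650000, 700000, 821443, 806367, 836801, 569665, 592031, 548146, 591607, 547722⟩ false
 (nat_lit 150) (Int.ofNat (nat_lit 2772)) (nat_lit 200) (Int.ofNat (nat_lit 3576)) qL130_40_0_3 = true := by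
 decide +kernel

def qL130_40_0_4 : PCt := .one ⟨2008000, 251, 502000, 308428, 10120, 0, 0, 200000, 200000, 250000⟩ ⟨0, .pol,
 .pol, .pol, .pol, .sy 225000 (.sy 212500 (.sx 100000 (.sy 206250 (.sx 50000 (.sx 25000 (.aff 500000 1645702
 151911) (.aff 500000 1163687 214835)) (.aff 1000000 0 0)) (.sx 50000 (.sx 25000 (.aff 500000 1670829
 149627) (.aff 1000000 0 0)) (.aff 1000000 0 0))) (.aff 1000000 0 0)) (.sy 218750 (.sx 100000 (.sx 50000
 (.sx 25000 (.aff 500000 1695583 147442) (.aff 1000000 0 0)) (.aff 1000000 0 0)) (.aff 1000000 0 0)) (.sx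
 100000 (.sx 50000 (.sx 25000 (.aff 500000 1719981 145351) (.aff 1000000 0 0)) (.aff 1000000 0 0)) (.aff
 1000000 0 0)))) (.sy 237500 (.sx 100000 (.sy 231250 (.sy 228125 (.sx 50000 (.sx 25000 (.aff 500000 1738055
 143839) (.aff 1000000 0 0)) (.aff 1000000 0 0)) (.sx 50000 (.sx 25000 (.aff 500000 1750000 142858) (.aff
 1000000 0 0)) (.aff 1000000 0 0))) (.sx 50000 (.sx 25000 (.aff 500000 1681552 148673) (.aff 1000000 0 0))
 (.aff 1000000 0 0))) (.aff 1000000 0 0)) (.sy 243750 (.sx 100000 (.sx 50000 (.aff 607000 1660818 92996)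
 (.aff 1000000 0 0)) (.aff 1000000 0 0)) (.sx 100000 (.sx 50000 (.aff 625000 1666537 84382) (.aff 1000000 0
 0)) (.aff 1000000 0 0)))), .pol, .pol, .pol, .pol⟩

def hL130_40_0_4 : pcchk ⟨(nat_lit 3), (nat_lit 1000), Int.ofNat (nat_lit 250), 0, ⟨0, 1⟩, ⟨Int.ofNat
 (nat_lit 40), 200⟩⟩ ⟨650000, 700000, 821443, 806367, 836801, 569665, 592031, 548146, 591607, 547722⟩ false
 (nat_lit 200) (Int.ofNat (nat_lit 3576)) (nat_lit 250) (Int.ofNat (nat_lit 4344)) qL130_40_0_4 = true := by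
 decide +kernel

def qL130_40_0_5 : PCt := .one ⟨2008000, 251, 502000, 291561, 14337, 0, 0, 200000, 250000, 300000⟩ ⟨0, .pol,
 .pol, .pol, .pol, .sy 275000 (.sy 262500 (.sx 100000 (.sx 50000 (.aff 625000 1697885 82824) (.aff 1000000 0
 0)) (.aff 1000000 0 0)) (.sx 100000 (.sx 50000 (.aff 675000 1750842 60329) (.aff 1000000 0 0)) (.aff
 1000000 0 0))) (.sx 100000 (.aff 750000 1675530 37302) (.aff 1000000 0 0)), .pol, .pol, .pol, .pol⟩

def hL130_40_0_5 : pcchk ⟨(nat_lit 3), (nat_lit 1000), Int.ofNat (nat_lit 250), 0, ⟨0, 1⟩, ⟨Int.ofNat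
 (nat_lit 40), 200⟩⟩ ⟨650000, 700000, 821443, 806367, 836801, 569665, 592031, 548146, 591607, 547722⟩ false
 (nat_lit 250) (Int.ofNat (nat_lit 4344)) (nat_lit 300) (Int.ofNat (nat_lit 5070)) qL130_40_0_5 = true := by
 decide +kernel

def qL130_40_0_6 : PCt := .one ⟨2008000, 251, 502000, 271080, 20481, 0, 0, 200000, 300000, 350000⟩ ⟨0, .pol,
 .pol, .pol, .pol, .sx 100000 (.sx 50000 (.sx 25000 (.aff 900000 1531831 6529) (.aff 1000000 0 0)) (.aff
 1000000 0 0)) (.aff 1000000 0 0), .pol, .pol, .pol, .pol⟩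

def hL130_40_0_6 : pcchk ⟨(nat_lit 3), (nat_lit 1000), Int.ofNat (nat_lit 250), 0, ⟨0, 1⟩, ⟨Int.ofNat
 (nat_lit 40), 200⟩⟩ ⟨650000, 700000, 821443, 806367, 836801, 569665, 592031, 548146, 591607, 547722⟩ false
 (nat_lit 300) (Int.ofNat (nat_lit 5070)) (nat_lit 350) (Int.ofNat (nat_lit 5745)) qL130_40_0_6 = true := by
 decide +kernel

def qL130_40_0_7 : PCt := .one ⟨2008000, 251, 502000, 254614, 26244, 0, 0, 200000, 350000, 400000⟩ ⟨0, .pol,
 .pol, .pol, .pol, .sx 100000 (.sx 50000 (.sx 25000 (.sx 12500 (.aff 1100000 1723897 5801) (.aff 1000000 0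
 0)) (.aff 1000000 0 0)) (.aff 1000000 0 0)) (.aff 1000000 0 0), .pol, .pol, .pol, .pol⟩

def hL130_40_0_7 : pcchk ⟨(nat_lit 3), (nat_lit 1000), Int.ofNat (nat_lit 250), 0, ⟨0, 1⟩, ⟨Int.ofNat
 (nat_lit 40), 200⟩⟩ ⟨650000, 700000, 821443, 806367, 836801, 569665, 592031, 548146, 591607, 547722⟩ false
 (nat_lit 350) (Int.ofNat (nat_lit 5745)) (nat_lit 400) (Int.ofNat (nat_lit 6379)) qL130_40_0_7 = true := by
 decide +kernel

def qL130_40_0_8 : PCt := .one ⟨2008000, 251, 502000, 233329, 34758, 0, 0, 200000, 400000, 450000⟩ ⟨0, .pol,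
 .pol, .pol, .pol, .sx 100000 (.sy 425000 (.sx 50000 (.sx 25000 (.aff 1250000 2480681 25195) (.aff 1000000 0
 0)) (.aff 1000000 0 0)) (.sx 50000 (.aff 1350000 2529071 48437) (.aff 1000000 0 0))) (.aff 1000000 0 0),
 .pol, .pol, .pol, .pol⟩

def hL130_40_0_8 : pcchk ⟨(nat_lit 3), (nat_lit 1000), Int.ofNat (nat_lit 250), 0, ⟨0, 1⟩, ⟨Int.ofNat
 (nat_lit 40), 200⟩⟩ ⟨650000, 700000, 821443, 806367, 836801, 569665, 592031, 548146, 591607, 547722⟩ false
 (nat_lit 400) (Int.ofNat (nat_lit 6379)) (nat_lit 450) (Int.ofNat (nat_lit 6960)) qL130_40_0_8 = true := by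
 decide +kernel

def qL130_40_0_9 : PCt := .one ⟨2008000, 251, 502000, 213249, 43794, 0, 0, 200000, 450000, 500000⟩ ⟨0, .pol,
 .pol, .pol, .pol, .sx 100000 (.sx 50000 (.sx 25000 (.aff 1463000 2714927 78960) (.aff 1000000 0 0)) (.aff
 1000000 0 0)) (.aff 1000000 0 0), .pol, .pol, .pol, .pol⟩

def hL130_40_0_9 : pcchk ⟨(nat_lit 3), (nat_lit 1000), Int.ofNat (nat_lit 250), 0, ⟨0, 1⟩, ⟨Int.ofNat
 (nat_lit 40), 200⟩⟩ ⟨650000, 700000, 821443, 806367, 836801, 569665, 592031, 548146, 591607, 547722⟩ false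
 (nat_lit 450) (Int.ofNat (nat_lit 6960)) (nat_lit 500) (Int.ofNat (nat_lit 7491)) qL130_40_0_9 = true := by
 decide +kernel

def qL130_40_0_10 : PCt := .one ⟨2008000, 251, 502000, 190760, 55039, 0, 0, 200000, 500000, 550000⟩ ⟨0,
 .pol, .pol, .pol, .pol, .sy 525000 (.sx 100000 (.sy 512500 (.sx 50000 (.aff 1625000 2812500 138889) (.aff
 1000000 0 0)) (.sx 50000 (.sx 25000 (.aff 2000000 5259912 190118) (.aff 1700000 2852017 171809)) (.aff
 1000000 0 0))) (.aff 1000000 0 0)) (.sx 100000 (.sy 537500 (.sx 50000 (.sx 25000 (.aff 2000000 5322907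
 187868) (.aff 1700000 2886174 169775)) (.aff 1000000 0 0)) (.sx 50000 (.sx 25000 (.aff 2000000 5385165
 185696) (.sx 37500 (.aff 2000000 3977208 251433) (.aff 1500000 1762709 141828))) (.aff 1000000 0 0))) (.aff
 1000000 0 0)), .pol, .pol, .pol, .pol⟩

def hL130_40_0_10 : pcchk ⟨(nat_lit 3), (nat_lit 1000), Int.ofNat (nat_lit 250), 0, ⟨0, 1⟩, ⟨Int.ofNat
 (nat_lit 40), 200⟩⟩ ⟨650000, 700000, 821443, 806367, 836801, 569665, 592031, 548146, 591607, 547722⟩ false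
 (nat_lit 500) (Int.ofNat (nat_lit 7491)) (nat_lit 550) (Int.ofNat (nat_lit 7966)) qL130_40_0_10 = true :=
 by decide +kernel

def qL130_40_0_11 : PCt := .one ⟨2008000, 251, 502000, 168672, 67187, 0, 0, 200000, 550000, 600000⟩ ⟨0,
 .pol, .pol, .pol, .pol, .sy 575000 (.sy 562500 (.sx 100000 (.sx 50000 (.aff 1975000 3252031 292318) (.aff
 1000000 0 0)) (.aff 1000000 0 0)) (.sx 100000 (.sx 50000 (.aff 2000000 3372685 296500) (.aff 1500000
 1508311 165749)) (.aff 1000000 0 0))) (.sy 587500 (.sx 100000 (.sx 50000 (.aff 2000000 3409546 293295)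
 (.aff 2000000 3049591 327913)) (.aff 1000000 0 0)) (.sx 100000 (.sx 50000 (.aff 2000000 3446013 290191)
 (.aff 2000000 3082208 324443)) (.aff 1000000 0 0))), .pol, .pol, .pol, .pol⟩

def hL130_40_0_11 : pcchk ⟨(nat_lit 3), (nat_lit 1000), Int.ofNat (nat_lit 250), 0, ⟨0, 1⟩, ⟨Int.ofNat
 (nat_lit 40), 200⟩⟩ ⟨650000, 700000, 821443, 806367, 836801, 569665, 592031, 548146, 591607, 547722⟩ false
 (nat_lit 550) (Int.ofNat (nat_lit 7966)) (nat_lit 600) (Int.ofNat (nat_lit 8386)) qL130_40_0_11 = true :=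
 by decide +kernel

def qL130_40_0_12 : PCt := .one ⟨2008000, 251, 502000, 142969, 82609, 0, 0, 200000, 600000, 650000⟩ ⟨0,
 .pol, .pol, .pol, .pol, .sx 100000 (.sy 625000 (.sy 612500 (.sx 50000 (.aff 2000000 4020780 248708) (.aff
 1950000 2958759 305027)) (.sx 50000 (.aff 2000000 4062020 246183) (.sy 618750 (.aff 1953000 2990963 303652)
 (.aff 2100000 3167478 382008)))) (.sx 50000 (.aff 2000000 3570715 280056) (.aff 2100000 3207024 377297)))
 (.aff 1500000 1020621 244949), .pol, .pol, .pol, .pol⟩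

def hL130_40_0_12 : pcchk ⟨(nat_lit 3), (nat_lit 1000), Int.ofNat (nat_lit 250), 0, ⟨0, 1⟩, ⟨Int.ofNat
 (nat_lit 40), 200⟩⟩ ⟨650000, 700000, 821443, 806367, 836801, 569665, 592031, 548146, 591607, 547722⟩ false
 (nat_lit 600) (Int.ofNat (nat_lit 8386)) (nat_lit 650) (Int.ofNat (nat_lit 8742)) qL130_40_0_12 = true :=
 by decide +kernel

def qL130_40_0_13 : PCt := .one ⟨2008000, 251, 502000, 118873, 98271, 0, 0, 200000, 650000, 700000⟩ ⟨0,
 .pol, .pol, .pol, .pol, .sx 100000 (.aff 2450000 3767211 558106) (.sx 150000 (.aff 2300000 3184337 530723)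
 (.aff 1000000 0 0)), .pol, .pol, .pol, .pol⟩

def hL130_40_0_13 : pcchk ⟨(nat_lit 3), (nat_lit 1000), Int.ofNat (nat_lit 250), 0, ⟨0, 1⟩, ⟨Int.ofNat
 (nat_lit 40), 200⟩⟩ ⟨650000, 700000, 821443, 806367, 836801, 569665, 592031, 548146, 591607, 547722⟩ false
 (nat_lit 650) (Int.ofNat (nat_lit 8742)) (nat_lit 700) (Int.ofNat (nat_lit 9038)) qL130_40_0_13 = true :=
 by decide +kernel

def qL130_40_0_14 : PCt := .one ⟨2008000, 251, 502000, 90360, 118231, 0, 0, 200000, 700000, 750000⟩ ⟨0,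
 .pol, .pol, .pol, .pol, .sx 100000 (.aff 3000000 6218253 643268) (.sx 150000 (.sx 125000 (.aff 3000000
 4941767 809428) (.aff 2600000 3517575 727775)) (.aff 2500000 3168354 710148)), .pol, .pol, .pol, .pol⟩

def hL130_40_0_14 : pcchk ⟨(nat_lit 3), (nat_lit 1000), Int.ofNat (nat_lit 250), 0, ⟨0, 1⟩, ⟨Int.ofNat
 (nat_lit 40), 200⟩⟩ ⟨650000, 700000, 821443, 806367, 836801, 569665, 592031, 548146, 591607, 547722⟩ false
 (nat_lit 700) (Int.ofNat (nat_lit 9038)) (nat_lit 750) (Int.ofNat (nat_lit 9263)) qL130_40_0_14 = true :=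
 by decide +kernel

def qL130_40_0_15 : PCt := .one ⟨2008000, 251, 502000, 61444, 139917, 0, 0, 200000, 750000, 800000⟩ ⟨0,
 .pol, .pol, .pol, .pol, .sx 100000 (.aff 3000000 6429101 622171) (.sx 150000 (.aff 3000000 4979960 803220)
 (.sx 175000 (.aff 2900000 3998393 902863) (.aff 2800000 3543304 914401))), .pol, .pol, .pol, .pol⟩

def hL130_40_0_15 : pcchk ⟨(nat_lit 3), (nat_lit 1000), Int.ofNat (nat_lit 250), 0, ⟨0, 1⟩, ⟨Int.ofNat
 (nat_lit 40), 200⟩⟩ ⟨650000, 700000, 821443, 806367, 836801, 569665, 592031, 548146, 591607, 547722⟩ false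
 (nat_lit 750) (Int.ofNat (nat_lit 9263)) (nat_lit 800) (Int.ofNat (nat_lit 9416)) qL130_40_0_15 = true :=
 by decide +kernel

def qL130_40_0_16 : PCt := .one ⟨2008000, 251, 502000, -15829466, 12852645, 0, 0, 200000, 800000, 850000⟩
 ⟨0, .pol, .pol, .pol, .pol, .sx 100000 (.aff 20000000 63015872 5728716) (.inf 1876167 533002), .pol, .pol,
 .sx 100000 (.inf 4062020 246183) (.inf 1876167 533002), .pol⟩

def hL130_40_0_16 : pcchk ⟨(nat_lit 3), (nat_lit 1000), Int.ofNat (nat_lit 250), 0, ⟨0, 1⟩, ⟨Int.ofNat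
 (nat_lit 40), 200⟩⟩ ⟨650000, 700000, 821443, 806367, 836801, 569665, 592031, 548146, 591607, 547722⟩ false
 (nat_lit 800) (Int.ofNat (nat_lit 9416)) (nat_lit 850) (Int.negSucc (nat_lit 29999)) qL130_40_0_16 = true
 := by decide +kernel

def qL130_40_0_17 : PCt := .one ⟨2008000, 251, 502000, 0, -602400, 0, 0, 200000, 850000, 900000⟩ ⟨0, .pol,
 .pol, .pol, .pol, .inf 2366432 422578, .pol, .pol, .inf 2366432 422578, .pol⟩

def hL130_40_0_17 : pcchk ⟨(nat_lit 3), (nat_lit 1000), Int.ofNat (nat_lit 250), 0, ⟨0, 1⟩, ⟨Int.ofNat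
 (nat_lit 40), 200⟩⟩ ⟨650000, 700000, 821443, 806367, 836801, 569665, 592031, 548146, 591607, 547722⟩ false
 (nat_lit 850) (Int.negSucc (nat_lit 29999)) (nat_lit 900) (Int.negSucc (nat_lit 29999)) qL130_40_0_17 =
 true := by decide +kernel

def qL130_40_0_18 : PCt := .one ⟨2008000, 251, 502000, 0, -602400, 0, 0, 200000, 900000, 950000⟩ ⟨0, .pol,
 .pol, .pol, .pol, .aff 35000000 73119765 15809679, .pol, .pol, .inf 3041382 328798, .pol⟩

def hL130_40_0_18 : pcchk ⟨(nat_lit 3), (nat_lit 1000), Int.ofNat (nat_lit 250), 0, ⟨0, 1⟩, ⟨Int.ofNat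
 (nat_lit 40), 200⟩⟩ ⟨650000, 700000, 821443, 806367, 836801, 569665, 592031, 548146, 591607, 547722⟩ false
 (nat_lit 900) (Int.negSucc (nat_lit 29999)) (nat_lit 950) (Int.negSucc (nat_lit 29999)) qL130_40_0_18 =
 true := by decide +kernel

def qL130_40_0_19 : PCt := .one ⟨2008000, 251, 502000, 0, -602400, 0, 0, 200000, 950000, 1000000⟩ ⟨0, .pol,
 .pol, .pol, .pol, .aff 35000000 86683332 13335898, .pol, .pol, .inf 3122499 320257, .pol⟩

def hL130_40_0_19 : pcchk ⟨(nat_lit 3), (nat_lit 1000), Int.ofNat (nat_lit 250), 0, ⟨0, 1⟩, ⟨Int.ofNat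
 (nat_lit 40), 200⟩⟩ ⟨650000, 700000, 821443, 806367, 836801, 569665, 592031, 548146, 591607, 547722⟩ false
 (nat_lit 950) (Int.negSucc (nat_lit 29999)) (nat_lit 1000) (Int.negSucc (nat_lit 29999)) qL130_40_0_19 =
 true := by decide +kernel

def qL130_40_1_0 : PCt := .one ⟨2008000, 251, 803200, 279513, 0, 0, 0, 200000, 0, 50000⟩ ⟨25000, .aff
 3162278 316228, .pol, .pol, .pol, .pol, .aff 0 3841565 260311, .pol, .pol, .pol⟩

def hL130_40_1_0 : pcchk ⟨(nat_lit 3), (nat_lit 1000), Int.ofNat (nat_lit 400), 0, ⟨0, 1⟩, ⟨Int.ofNat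
 (nat_lit 40), 200⟩⟩ ⟨650000, 700000, 821443, 806367, 836801, 569665, 592031, 548146, 591607, 547722⟩ true 0
 0 (nat_lit 50) (Int.ofNat (nat_lit 696)) qL130_40_1_0 = true := by decide +kernel

def qL130_40_1_1 : PCt := .one ⟨2008000, 251, 803200, 314452, -1747, 0, 0, 200000, 50000, 100000⟩ ⟨0, .pol,
 .pol, .pol, .pol, .sy 75000 (.sx 100000 (.sx 50000 (.sy 62500 (.aff 0 3841215 260335) (.aff 0 3498640
 285826)) .pol) .pol) (.sx 100000 (.sx 50000 (.aff 0 3731108 268017) .pol) .pol), .pol, .pol, .sx 100000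
 (.sx 50000 .pol .pol) .pol, .pol⟩

def hL130_40_1_1 : pcchk ⟨(nat_lit 3), (nat_lit 1000), Int.ofNat (nat_lit 400), 0, ⟨0, 1⟩, ⟨Int.ofNat
 (nat_lit 40), 200⟩⟩ ⟨650000, 700000, 821443, 806367, 836801, 569665, 592031, 548146, 591607, 547722⟩ false
 (nat_lit 50) (Int.ofNat (nat_lit 696)) (nat_lit 100) (Int.ofNat (nat_lit 1479)) qL130_40_1_1 = true := by
 decide +kernel

def qL130_40_1_2 : PCt := .one ⟨2008000, 251, 803200, 349793, -5282, 0, 0, 200000, 100000, 150000⟩ ⟨0, .pol,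
 .pol, .pol, .pol, .sx 100000 (.sx 50000 (.sy 125000 (.aff 0 3733561 267841) (.aff 0 3619905 276251)) (.aff
 0 1290995 774597)) .pol, .pol, .pol, .sx 100000 .pol .pol, .pol⟩

def hL130_40_1_2 : pcchk ⟨(nat_lit 3), (nat_lit 1000), Int.ofNat (nat_lit 400), 0, ⟨0, 1⟩, ⟨Int.ofNat
 (nat_lit 40), 200⟩⟩ ⟨650000, 700000, 821443, 806367, 836801, 569665, 592031, 548146, 591607, 547722⟩ false
 (nat_lit 100) (Int.ofNat (nat_lit 1479)) (nat_lit 150) (Int.ofNat (nat_lit 2350)) qL130_40_1_2 = true := by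
 decide +kernel

def qL130_40_1_3 : PCt := .one ⟨2008000, 251, 803200, 394371, -11968, 0, 0, 200000, 150000, 200000⟩ ⟨0,
 .pol, .pol, .pol, .pol, .sx 100000 (.sx 50000 (.aff 0 3626539 275746) (.aff 0 1527526 654654)) (.aff 0
 1080124 925820), .pol, .pol, .sx 100000 .pol .pol, .pol⟩

def hL130_40_1_3 : pcchk ⟨(nat_lit 3), (nat_lit 1000), Int.ofNat (nat_lit 400), 0, ⟨0, 1⟩, ⟨Int.ofNat
 (nat_lit 40), 200⟩⟩ ⟨650000, 700000, 821443, 806367, 836801, 569665, 592031, 548146, 591607, 547722⟩ false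
 (nat_lit 150) (Int.ofNat (nat_lit 2350)) (nat_lit 200) (Int.ofNat (nat_lit 3332)) qL130_40_1_3 = true := by
 decide +kernel

def qL130_40_1_4 : PCt := .one ⟨2008000, 251, 803200, 357825, -4659, 0, 0, 200000, 200000, 250000⟩ ⟨0, .pol,
 .pol, .pol, .pol, .sx 100000 (.sy 225000 (.sy 212500 (.sx 50000 (.aff 125000 3554267 215411) (.aff 0
 1658313 603023)) (.sy 218750 (.sx 50000 (.aff 125000 3634148 210676) (.aff 0 1695583 589768)) (.sy 221875
 (.sx 50000 (.aff 137000 3623059 205564) (.aff 0 1713914 583460)) (.sy 223437 (.sy 222656 (.sx 50000 (.aff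
 137000 3639082 204659) (.aff 0 1721494 580891)) (.sx 50000 (.aff 137000 3645470 204300) (.aff 0 1724516
 579873))) (.sx 50000 (.sx 25000 (.aff 375000 3743482 104349) (.aff 1000000 0 0)) (.aff 0 1729041
 578356)))))) (.sy 237500 (.sy 231250 (.sy 228125 (.sy 226562 (.sy 225781 (.sy 225390 (.sy 225195 (.sx 50000
 (.sx 25000 (.aff 375000 3750813 104145) (.aff 1000000 0 0)) (.aff 0 1732427 577225)) (.sx 50000 (.sx 25000
 (.aff 375000 3752437 104100) (.aff 1000000 0 0)) (.aff 0 1733177 576976))) (.sx 50000 (.sx 25000 (.aff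
 375000 3754876 104032) (.aff 1000000 0 0)) (.aff 0 1734303 576601))) (.sx 50000 (.sx 25000 (.aff 375000
 3759750 103897) (.aff 1000000 0 0)) (.aff 0 1736555 575853))) (.sy 227343 (.sy 226952 (.sx 50000 (.sx 25000
 (.aff 375000 3764614 103763) (.aff 1000000 0 0)) (.aff 0 1738801 575109)) (.sy 227147 (.sx 50000 (.sx 25000
 (.aff 375000 3767041 103696) (.aff 1000000 0 0)) (.aff 0 1739922 574739)) (.sy 227245 (.sx 50000 (.sx 25000
 (.aff 375000 3768256 103663) (.aff 1000000 0 0)) (.aff 0 1740483 574554)) (.sx 50000 (.sx 25000 (.aff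
 375000 3769069 103640) (.aff 1000000 0 0)) (.aff 0 1740859 574430))))) (.sx 50000 (.sx 25000 (.aff 375000
 3772715 103540) (.aff 1000000 0 0)) (.aff 0 1742543 573874)))) (.sy 229687 (.sx 50000 (.sx 25000 (.aff
 375000 3782410 103275) (.aff 1000000 0 0)) (.aff 0 1747021 572403)) (.sy 230468 (.sx 50000 (.sx 25000 (.aff
 375000 3792077 103011) (.aff 1000000 0 0)) (.aff 0 1751486 570944)) (.sx 50000 (.sx 25000 (.aff 375000
 3798512 102837) (.aff 1000000 0 0)) (.aff 0 1754458 569977))))) (.sy 234375 (.sy 232812 (.sy 232031 (.sx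
 50000 (.sx 25000 (.aff 375000 3804936 102663) (.aff 1000000 0 0)) (.aff 0 1757425 569015)) (.sx 50000 (.sx
 25000 (.aff 375000 3811345 102491) (.aff 1000000 0 0)) (.aff 0 1760385 568058))) (.sy 233593 (.sx 50000
 (.sx 25000 (.aff 375000 3817743 102319) (.aff 1000000 0 0)) (.aff 0 1763340 567106)) (.sx 50000 (.sx 25000
 (.aff 375000 3824134 102148) (.aff 1000000 0 0)) (.aff 0 1766292 566158)))) (.sx 50000 (.sx 25000 (.aff
 375000 3840065 101724) (.aff 1000000 0 0)) (.aff 0 1773650 563810)))) (.sy 243750 (.sx 50000 (.sx 25000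
 (.aff 375000 3878024 100728) (.aff 1000000 0 0)) (.aff 0 1962142 509648)) (.sy 246875 (.sx 50000 (.sx 25000
 (.aff 375000 3915614 99761) (.aff 1000000 0 0)) (.aff 0 1981162 504755)) (.sx 50000 (.sx 25000 (.aff 375000
 3940476 99132) (.aff 1000000 0 0)) (.aff 1000000 0 0)))))) (.aff 0 1224745 816497), .pol, .pol, .pol, .pol⟩

def hL130_40_1_4 : pcchk ⟨(nat_lit 3), (nat_lit 1000), Int.ofNat (nat_lit 400), 0, ⟨0, 1⟩, ⟨Int.ofNat
 (nat_lit 40), 200⟩⟩ ⟨650000, 700000, 821443, 806367, 836801, 569665, 592031, 548146, 591607, 547722⟩ false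
 (nat_lit 200) (Int.ofNat (nat_lit 3332)) (nat_lit 250) (Int.ofNat (nat_lit 4223)) qL130_40_1_4 = true := by
 decide +kernel

def qL130_40_1_5 : PCt := .one ⟨2008000, 251, 803200, 321681, 4377, 0, 0, 200000, 250000, 300000⟩ ⟨0, .pol,
 .pol, .pol, .pol, .sx 100000 (.aff 525000 3779181 59703) (.aff 1000000 0 0), .pol, .pol, .pol, .pol⟩

def hL130_40_1_5 : pcchk ⟨(nat_lit 3), (nat_lit 1000), Int.ofNat (nat_lit 400), 0, ⟨0, 1⟩, ⟨Int.ofNat
 (nat_lit 40), 200⟩⟩ ⟨650000, 700000, 821443, 806367, 836801, 569665, 592031, 548146, 591607, 547722⟩ false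
 (nat_lit 250) (Int.ofNat (nat_lit 4223)) (nat_lit 300) (Int.ofNat (nat_lit 5024)) qL130_40_1_5 = true := by
 decide +kernel

def qL130_40_1_6 : PCt := .one ⟨2008000, 251, 803200, 295979, 12088, 0, 0, 200000, 300000, 350000⟩ ⟨0, .pol,
 .pol, .pol, .pol, .sx 100000 (.sx 50000 (.sy 325000 (.sx 25000 (.aff 700000 4063476 22149) (.aff 1000000 0
 0)) (.sx 25000 (.sx 12500 (.sx 6250 (.aff 775000 4038949 12535) (.aff 1000000 0 0)) (.aff 1000000 0 0))
 (.aff 1000000 0 0))) (.aff 1000000 0 0)) (.aff 1000000 0 0), .pol, .pol, .pol, .pol⟩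

def hL130_40_1_6 : pcchk ⟨(nat_lit 3), (nat_lit 1000), Int.ofNat (nat_lit 400), 0, ⟨0, 1⟩, ⟨Int.ofNat
 (nat_lit 40), 200⟩⟩ ⟨650000, 700000, 821443, 806367, 836801, 569665, 592031, 548146, 591607, 547722⟩ false
 (nat_lit 300) (Int.ofNat (nat_lit 5024)) (nat_lit 350) (Int.ofNat (nat_lit 5761)) qL130_40_1_6 = true := by
 decide +kernel

def qL130_40_1_7 : PCt := .one ⟨2008000, 251, 803200, 234534, 33593, 0, 0, 200000, 350000, 400000⟩ ⟨0, .pol,
 .pol, .pol, .pol, .sx 100000 (.sx 50000 (.sx 25000 (.aff 1200000 3810401 10498) (.aff 1000000 0 0)) (.aff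
 1000000 0 0)) (.aff 1000000 0 0), .pol, .pol, .pol, .pol⟩

def hL130_40_1_7 : pcchk ⟨(nat_lit 3), (nat_lit 1000), Int.ofNat (nat_lit 400), 0, ⟨0, 1⟩, ⟨Int.ofNat
 (nat_lit 40), 200⟩⟩ ⟨650000, 700000, 821443, 806367, 836801, 569665, 592031, 548146, 591607, 547722⟩ false
 (nat_lit 350) (Int.ofNat (nat_lit 5761)) (nat_lit 400) (Int.ofNat (nat_lit 6345)) qL130_40_1_7 = true := by
 decide +kernel

def qL130_40_1_8 : PCt := .one ⟨2008000, 251, 803200, 189153, 51746, 0, 0, 200000, 400000, 450000⟩ ⟨0, .pol,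
 .pol, .pol, .pol, .sx 100000 (.sy 425000 (.sx 50000 (.sx 25000 (.sx 12500 (.aff 1575000 4910826 67326)
 (.aff 1000000 0 0)) (.aff 1000000 0 0)) (.aff 1000000 0 0)) (.sx 50000 (.aff 1688000 4971431 95213) (.aff
 1000000 0 0))) (.aff 1000000 0 0), .pol, .pol, .pol, .pol⟩

def hL130_40_1_8 : pcchk ⟨(nat_lit 3), (nat_lit 1000), Int.ofNat (nat_lit 400), 0, ⟨0, 1⟩, ⟨Int.ofNat
 (nat_lit 40), 200⟩⟩ ⟨650000, 700000, 821443, 806367, 836801, 569665, 592031, 548146, 591607, 547722⟩ false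
 (nat_lit 400) (Int.ofNat (nat_lit 6345)) (nat_lit 450) (Int.ofNat (nat_lit 6816)) qL130_40_1_8 = true := by
 decide +kernel

def qL130_40_1_9 : PCt := .one ⟨2008000, 251, 803200, 134937, 76143, 0, 0, 200000, 450000, 500000⟩ ⟨0, .pol,
 .pol, .pol, .pol, .sx 100000 (.sx 50000 (.sx 25000 (.sx 12500 (.aff 2000000 7118053 140488) (.aff 1975000
 4907393 193713)) (.aff 1000000 0 0)) (.aff 1000000 0 0)) (.aff 1000000 0 0), .pol, .pol, .pol, .pol⟩

def hL130_40_1_9 : pcchk ⟨(nat_lit 3), (nat_lit 1000), Int.ofNat (nat_lit 400), 0, ⟨0, 1⟩, ⟨Int.ofNat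
 (nat_lit 40), 200⟩⟩ ⟨650000, 700000, 821443, 806367, 836801, 569665, 592031, 548146, 591607, 547722⟩ false
 (nat_lit 450) (Int.ofNat (nat_lit 6816)) (nat_lit 500) (Int.ofNat (nat_lit 7152)) qL130_40_1_9 = true := by
 decide +kernel

def qL130_40_1_10 : PCt := .one ⟨2008000, 251, 803200, 88352, 99436, 0, 0, 200000, 500000, 550000⟩ ⟨0, .pol,
 .pol, .pol, .pol, .sy 525000 (.sx 100000 (.sy 512500 (.sx 50000 (.aff 2200000 5400000 266667) (.aff 1000000
 0 0)) (.sx 50000 (.sx 25000 (.aff 3000000 10519823 380235) (.aff 2300000 5296603 319073)) (.aff 1000000 0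
 0))) (.aff 1000000 0 0)) (.sx 100000 (.sy 537500 (.sx 50000 (.sx 25000 (.aff 3000000 10645813 375735) (.aff
 2300000 5360038 315297)) (.aff 1000000 0 0)) (.sx 50000 (.sx 25000 (.aff 3000000 10770330 371391) (.sx
 37500 (.aff 3000000 7615774 525226) (.aff 2000000 3658500 273337))) (.aff 1000000 0 0))) (.aff 1000000 0
 0)), .pol, .pol, .pol, .pol⟩

def hL130_40_1_10 : pcchk ⟨(nat_lit 3), (nat_lit 1000), Int.ofNat (nat_lit 400), 0, ⟨0, 1⟩, ⟨Int.ofNat
 (nat_lit 40), 200⟩⟩ ⟨650000, 700000, 821443, 806367, 836801, 569665, 592031, 548146, 591607, 547722⟩ false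
 (nat_lit 500) (Int.ofNat (nat_lit 7152)) (nat_lit 550) (Int.ofNat (nat_lit 7372)) qL130_40_1_10 = true :=
 by decide +kernel

def qL130_40_1_11 : PCt := .one ⟨2008000, 251, 803200, 32128, 130359, 0, 0, 200000, 550000, 600000⟩ ⟨0,
 .pol, .pol, .pol, .pol, .sy 575000 (.sy 562500 (.sx 100000 (.sx 50000 (.aff 2800000 6003749 539663) (.aff
 1000000 0 0)) (.aff 1000000 0 0)) (.sx 100000 (.sx 50000 (.aff 2900000 6408101 563350) (.aff 2450000
 4834129 434929)) (.aff 1000000 0 0))) (.sy 587500 (.sx 100000 (.sx 50000 (.aff 3000000 6819091 586589)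
 (.aff 2875000 5862733 599657)) (.aff 1000000 0 0)) (.sx 100000 (.sx 50000 (.aff 3000000 6892025 580381)
 (.aff 2900000 5856194 616442)) (.aff 1000000 0 0))), .pol, .pol, .pol, .pol⟩

def hL130_40_1_11 : pcchk ⟨(nat_lit 3), (nat_lit 1000), Int.ofNat (nat_lit 400), 0, ⟨0, 1⟩, ⟨Int.ofNat
 (nat_lit 40), 200⟩⟩ ⟨650000, 700000, 821443, 806367, 836801, 569665, 592031, 548146, 591607, 547722⟩ false
 (nat_lit 550) (Int.ofNat (nat_lit 7372)) (nat_lit 600) (Int.ofNat (nat_lit 7452)) qL130_40_1_11 = true :=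
 by decide +kernel

def qL130_40_1_12 : PCt := .one ⟨2008000, 251, 803200, -18474, 160720, 0, 0, 200000, 600000, 650000⟩ ⟨0,
 .pol, .pol, .pol, .pol, .sy 625000 (.sx 100000 (.sx 50000 (.aff 3000000 8082904 494872) (.aff 3147000
 6135564 751294)) (.aff 1000000 0 0)) (.sx 100000 (.sx 50000 (.aff 3000000 8246212 485072) (.aff 3038000
 5941740 699029)) (.aff 1000000 0 0)), .pol, .pol, .pol, .pol⟩

def hL130_40_1_12 : pcchk ⟨(nat_lit 3), (nat_lit 1000), Int.ofNat (nat_lit 400), 0, ⟨0, 1⟩, ⟨Int.ofNat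
 (nat_lit 40), 200⟩⟩ ⟨650000, 700000, 821443, 806367, 836801, 569665, 592031, 548146, 591607, 547722⟩ false
 (nat_lit 600) (Int.ofNat (nat_lit 7452)) (nat_lit 650) (Int.ofNat (nat_lit 7406)) qL130_40_1_12 = true :=
 by decide +kernel

def qL130_40_1_13 : PCt := .one ⟨2008000, 251, 803200, -81124, 201442, 0, 0, 200000, 650000, 700000⟩ ⟨0,
 .pol, .pol, .pol, .pol, .sx 100000 (.aff 3700000 7014806 1039231) (.sx 150000 (.aff 3600000 6368674
 1061446) (.aff 1000000 0 0)), .pol, .pol, .pol, .pol⟩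

def hL130_40_1_13 : pcchk ⟨(nat_lit 3), (nat_lit 1000), Int.ofNat (nat_lit 400), 0, ⟨0, 1⟩, ⟨Int.ofNat
 (nat_lit 40), 200⟩⟩ ⟨650000, 700000, 821443, 806367, 836801, 569665, 592031, 548146, 591607, 547722⟩ false
 (nat_lit 650) (Int.ofNat (nat_lit 7406)) (nat_lit 700) (Int.ofNat (nat_lit 7204)) qL130_40_1_13 = true :=
 by decide +kernel

def qL130_40_1_14 : PCt := .one ⟨2008000, 251, 803200, -141765, 243891, 0, 0, 200000, 700000, 750000⟩ ⟨0,
 .pol, .pol, .pol, .pol, .sx 100000 (.aff 5000000 12436506 1286535) (.sx 150000 (.sx 125000 (.aff 5000000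
 9633276 1660910) (.aff 4050000 6875125 1353067)) (.aff 3950000 6231095 1396625)), .pol, .pol, .pol, .pol⟩

def hL130_40_1_14 : pcchk ⟨(nat_lit 3), (nat_lit 1000), Int.ofNat (nat_lit 400), 0, ⟨0, 1⟩, ⟨Int.ofNat
 (nat_lit 40), 200⟩⟩ ⟨650000, 700000, 821443, 806367, 836801, 569665, 592031, 548146, 591607, 547722⟩ false
 (nat_lit 700) (Int.ofNat (nat_lit 7204)) (nat_lit 750) (Int.ofNat (nat_lit 6851)) qL130_40_1_14 = true :=
 by decide +kernel

def qL130_40_1_15 : PCt := .one ⟨2008000, 251, 803200, -219676, 302324, 0, 0, 200000, 750000, 800000⟩ ⟨0,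
 .pol, .pol, .pol, .pol, .sx 100000 (.aff 5000000 12858202 1244342) (.sx 150000 (.aff 5000000 9496411
 1684848) (.sx 175000 (.aff 4600000 7575902 1710688) (.aff 4603000 7272061 1785135))), .pol, .pol, .pol,
 .pol⟩

def hL130_40_1_15 : pcchk ⟨(nat_lit 3), (nat_lit 1000), Int.ofNat (nat_lit 400), 0, ⟨0, 1⟩, ⟨Int.ofNat
 (nat_lit 40), 200⟩⟩ ⟨650000, 700000, 821443, 806367, 836801, 569665, 592031, 548146, 591607, 547722⟩ false
 (nat_lit 750) (Int.ofNat (nat_lit 6851)) (nat_lit 800) (Int.ofNat (nat_lit 6304)) qL130_40_1_15 = true :=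
 by decide +kernel

def qL130_40_1_16 : PCt := .one ⟨2008000, 251, 803200, -14579687, 11790333, 0, 0, 200000, 800000, 850000⟩
 ⟨0, .pol, .pol, .pol, .pol, .sx 100000 (.aff 20000000 63015872 5728716) (.inf 1876167 533002), .pol, .pol,
 .sx 100000 (.inf 4062020 246183) (.inf 1876167 533002), .pol⟩

def hL130_40_1_16 : pcchk ⟨(nat_lit 3), (nat_lit 1000), Int.ofNat (nat_lit 400), 0, ⟨0, 1⟩, ⟨Int.ofNat
 (nat_lit 40), 200⟩⟩ ⟨650000, 700000, 821443, 806367, 836801, 569665, 592031, 548146, 591607, 547722⟩ false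
 (nat_lit 800) (Int.ofNat (nat_lit 6304)) (nat_lit 850) (Int.negSucc (nat_lit 29999)) qL130_40_1_16 = true
 := by decide +kernel

def qL130_40_1_17 : PCt := .one ⟨2008000, 251, 803200, 0, -602400, 0, 0, 200000, 850000, 900000⟩ ⟨0, .pol,
 .pol, .pol, .pol, .inf 2366432 422578, .pol, .pol, .inf 2366432 422578, .pol⟩

def hL130_40_1_17 : pcchk ⟨(nat_lit 3), (nat_lit 1000), Int.ofNat (nat_lit 400), 0, ⟨0, 1⟩, ⟨Int.ofNat
 (nat_lit 40), 200⟩⟩ ⟨650000, 700000, 821443, 806367, 836801, 569665, 592031, 548146, 591607, 547722⟩ false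
 (nat_lit 850) (Int.negSucc (nat_lit 29999)) (nat_lit 900) (Int.negSucc (nat_lit 29999)) qL130_40_1_17 =
 true := by decide +kernel

def qL130_40_1_18 : PCt := .one ⟨2008000, 251, 803200, 0, -602400, 0, 0, 200000, 900000, 950000⟩ ⟨0, .pol,
 .pol, .pol, .pol, .aff 35000000 73119765 15809679, .pol, .pol, .inf 3041382 328798, .pol⟩

def hL130_40_1_18 : pcchk ⟨(nat_lit 3), (nat_lit 1000), Int.ofNat (nat_lit 400), 0, ⟨0, 1⟩, ⟨Int.ofNat
 (nat_lit 40), 200⟩⟩ ⟨650000, 700000, 821443, 806367, 836801, 569665, 592031, 548146, 591607, 547722⟩ false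
 (nat_lit 900) (Int.negSucc (nat_lit 29999)) (nat_lit 950) (Int.negSucc (nat_lit 29999)) qL130_40_1_18 =
 true := by decide +kernel

def qL130_40_1_19 : PCt := .one ⟨2008000, 251, 803200, 0, -602400, 0, 0, 200000, 950000, 1000000⟩ ⟨0, .pol,
 .pol, .pol, .pol, .aff 35000000 86683332 13335898, .pol, .pol, .inf 3122499 320257, .pol⟩

def hL130_40_1_19 : pcchk ⟨(nat_lit 3), (nat_lit 1000), Int.ofNat (nat_lit 400), 0, ⟨0, 1⟩, ⟨Int.ofNat
 (nat_lit 40), 200⟩⟩ ⟨650000, 700000, 821443, 806367, 836801, 569665, 592031, 548146, 591607, 547722⟩ false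
 (nat_lit 950) (Int.negSucc (nat_lit 29999)) (nat_lit 1000) (Int.negSucc (nat_lit 29999)) qL130_40_1_19 =
 true := by decide +kernel

def qL130_40_2_0 : PCt := .one ⟨2008000, 251, 2008000, 259032, 0, 0, 0, 200000, 0, 50000⟩ ⟨12500, .sp 250000
 (.aff 6324556 158114) .pol, .pol, .pol, .pol, .pol, .aff 0 14172346 70560, .pol, .pol, .pol⟩

def hL130_40_2_0 : pcchk ⟨(nat_lit 3), (nat_lit 1000), Int.ofNat (nat_lit 1000), 0, ⟨0, 1⟩, ⟨Int.ofNat
 (nat_lit 40), 200⟩⟩ ⟨650000, 700000, 821443, 806367, 836801, 569665, 592031, 548146, 591607, 547722⟩ true 0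
 0 (nat_lit 50) (Int.ofNat (nat_lit 645)) qL130_40_2_0 = true := by decide +kernel

def qL130_40_2_1 : PCt := .one ⟨2008000, 251, 2008000, 290758, -1587, 0, 0, 200000, 50000, 100000⟩ ⟨0, .pol,
 .pol, .pol, .pol, .sx 100000 (.aff 0 13454400 74326) .pol, .pol, .pol, .sx 100000 (.sx 50000 .pol .pol)
 .pol, .pol⟩

def hL130_40_2_1 : pcchk ⟨(nat_lit 3), (nat_lit 1000), Int.ofNat (nat_lit 1000), 0, ⟨0, 1⟩, ⟨Int.ofNat
 (nat_lit 40), 200⟩⟩ ⟨650000, 700000, 821443, 806367, 836801, 569665, 592031, 548146, 591607, 547722⟩ false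
 (nat_lit 50) (Int.ofNat (nat_lit 645)) (nat_lit 100) (Int.ofNat (nat_lit 1369)) qL130_40_2_1 = true := by
 decide +kernel

def qL130_40_2_2 : PCt := .one ⟨2008000, 251, 2008000, 323288, -4840, 0, 0, 200000, 100000, 150000⟩ ⟨0,
 .pol, .pol, .pol, .pol, .sx 100000 (.aff 0 13527423 73924) .pol, .pol, .pol, .sx 100000 .pol .pol, .pol⟩

def hL130_40_2_2 : pcchk ⟨(nat_lit 3), (nat_lit 1000), Int.ofNat (nat_lit 1000), 0, ⟨0, 1⟩, ⟨Int.ofNat
 (nat_lit 40), 200⟩⟩ ⟨650000, 700000, 821443, 806367, 836801, 569665, 592031, 548146, 591607, 547722⟩ false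
 (nat_lit 100) (Int.ofNat (nat_lit 1369)) (nat_lit 150) (Int.ofNat (nat_lit 2174)) qL130_40_2_2 = true := by
 decide +kernel

def qL130_40_2_3 : PCt := .one ⟨2008000, 251, 2008000, 355416, -9659, 0, 0, 200000, 150000, 200000⟩ ⟨0,
 .pol, .pol, .pol, .pol, .sx 100000 (.aff 0 13104493 76310) .pol, .pol, .pol, .sx 100000 .pol .pol, .pol⟩

def hL130_40_2_3 : pcchk ⟨(nat_lit 3), (nat_lit 1000), Int.ofNat (nat_lit 1000), 0, ⟨0, 1⟩, ⟨Int.ofNat
 (nat_lit 40), 200⟩⟩ ⟨650000, 700000, 821443, 806367, 836801, 569665, 592031, 548146, 591607, 547722⟩ false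
 (nat_lit 150) (Int.ofNat (nat_lit 2174)) (nat_lit 200) (Int.ofNat (nat_lit 3059)) qL130_40_2_3 = true := by
 decide +kernel

def qL130_40_2_4 : PCt := .one ⟨2008000, 251, 2008000, 394772, -17530, 0, 0, 200000, 200000, 250000⟩ ⟨0,
 .pol, .pol, .pol, .pol, .sx 100000 (.aff 0 12789344 78191) .pol, .pol, .pol, .pol, .pol⟩

def hL130_40_2_4 : pcchk ⟨(nat_lit 3), (nat_lit 1000), Int.ofNat (nat_lit 1000), 0, ⟨0, 1⟩, ⟨Int.ofNat
 (nat_lit 40), 200⟩⟩ ⟨650000, 700000, 821443, 806367, 836801, 569665, 592031, 548146, 591607, 547722⟩ false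
 (nat_lit 200) (Int.ofNat (nat_lit 3059)) (nat_lit 250) (Int.ofNat (nat_lit 4042)) qL130_40_2_4 = true := by
 decide +kernel

def qL130_40_2_5 : PCt := .one ⟨2008000, 251, 2008000, 384732, -15020, 0, 0, 200000, 250000, 300000⟩ ⟨0,
 .pol, .pol, .pol, .pol, .sx 100000 (.sx 50000 (.sx 25000 (.sx 12500 (.sx 6250 (.sx 3125 (.sx 1562 (.sy
 275000 (.aff 125000 13097897 58455) (.aff 375000 11991498 32576)) (.aff 213000 9818214 63084)) (.aff 500000
 3829709 65280)) (.aff 0 5416026 184638)) (.aff 0 3829709 261117)) (.aff 0 2708013 369275)) .pol) .pol,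
 .pol, .pol, .pol, .pol⟩

def hL130_40_2_5 : pcchk ⟨(nat_lit 3), (nat_lit 1000), Int.ofNat (nat_lit 1000), 0, ⟨0, 1⟩, ⟨Int.ofNat
 (nat_lit 40), 200⟩⟩ ⟨650000, 700000, 821443, 806367, 836801, 569665, 592031, 548146, 591607, 547722⟩ false
 (nat_lit 250) (Int.ofNat (nat_lit 4042)) (nat_lit 300) (Int.ofNat (nat_lit 5000)) qL130_40_2_5 = true := by
 decide +kernel

def qL130_40_2_6 : PCt := .one ⟨2008000, 251, 2008000, 315657, 5702, 0, 0, 200000, 300000, 350000⟩ ⟨0, .pol,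
 .pol, .pol, .pol, .sx 100000 (.sx 50000 (.aff 650000 5925270 20675) (.aff 0 2081666 480385)) .pol, .pol,
 .pol, .pol, .pol⟩

def hL130_40_2_6 : pcchk ⟨(nat_lit 3), (nat_lit 1000), Int.ofNat (nat_lit 1000), 0, ⟨0, 1⟩, ⟨Int.ofNat
 (nat_lit 40), 200⟩⟩ ⟨650000, 700000, 821443, 806367, 836801, 569665, 592031, 548146, 591607, 547722⟩ false
 (nat_lit 300) (Int.ofNat (nat_lit 5000)) (nat_lit 350) (Int.ofNat (nat_lit 5786)) qL130_40_2_6 = true := by
 decide +kernel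

def qL130_40_2_7 : PCt := .one ⟨2008000, 251, 2008000, 180720, 52930, 0, 0, 200000, 350000, 400000⟩ ⟨0,
 .pol, .pol, .pol, .pol, .sx 100000 (.sx 50000 (.sx 25000 (.aff 1500000 12858758 19443) (.aff 1000000 0 0))
 (.aff 0 2236068 447214)) .pol, .pol, .pol, .pol, .pol⟩

def hL130_40_2_7 : pcchk ⟨(nat_lit 3), (nat_lit 1000), Int.ofNat (nat_lit 1000), 0, ⟨0, 1⟩, ⟨Int.ofNat
 (nat_lit 40), 200⟩⟩ ⟨650000, 700000, 821443, 806367, 836801, 569665, 592031, 548146, 591607, 547722⟩ false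
 (nat_lit 350) (Int.ofNat (nat_lit 5786)) (nat_lit 400) (Int.ofNat (nat_lit 6236)) qL130_40_2_7 = true := by
 decide +kernel

def qL130_40_2_8 : PCt := .one ⟨2008000, 251, 2008000, -8836, 128752, 0, 0, 200000, 400000, 450000⟩ ⟨0,
 .pol, .pol, .pol, .pol, .sx 100000 (.sx 50000 (.sx 25000 (.sx 12500 (.aff 2750000 14430870 212219) (.aff
 1000000 0 0)) (.aff 1000000 0 0)) (.aff 1000000 0 0)) .pol, .pol, .pol, .pol, .pol⟩

def hL130_40_2_8 : pcchk ⟨(nat_lit 3), (nat_lit 1000), Int.ofNat (nat_lit 1000), 0, ⟨0, 1⟩, ⟨Int.ofNat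
 (nat_lit 40), 200⟩⟩ ⟨650000, 700000, 821443, 806367, 836801, 569665, 592031, 548146, 591607, 547722⟩ false
 (nat_lit 400) (Int.ofNat (nat_lit 6236)) (nat_lit 450) (Int.ofNat (nat_lit 6214)) qL130_40_2_8 = true := by
 decide +kernel

def qL130_40_2_9 : PCt := .one ⟨2008000, 251, 2008000, -158632, 196161, 0, 0, 200000, 450000, 500000⟩ ⟨0,
 .pol, .pol, .pol, .pol, .sx 100000 (.sy 475000 (.sx 50000 (.sy 462500 (.aff 3400000 14499656 397251) (.sy
 468750 (.sx 25000 (.aff 3547000 15161240 427882) (.aff 1000000 0 0)) (.sy 471875 (.sx 25000 (.sx 12500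
 (.aff 5000000 28331373 564745) (.aff 3413000 14630866 397965)) (.aff 1000000 0 0)) (.sx 25000 (.sx 12500
 (.aff 5000000 28425341 562879) (.sx 18750 (.aff 3500000 14505746 430864) (.aff 1000000 0 0))) (.aff 1000000
 0 0))))) (.aff 1000000 0 0)) (.sx 50000 (.sx 25000 (.sx 12500 (.aff 5000000 28844411 554701) (.sx 18750
 (.aff 4100000 15806961 607960) (.aff 3600000 12737347 530723))) (.aff 1000000 0 0)) (.aff 1000000 0 0)))
 (.aff 0 1779514 561952), .pol, .pol, .pol, .pol⟩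

def hL130_40_2_9 : pcchk ⟨(nat_lit 3), (nat_lit 1000), Int.ofNat (nat_lit 1000), 0, ⟨0, 1⟩, ⟨Int.ofNat
 (nat_lit 40), 200⟩⟩ ⟨650000, 700000, 821443, 806367, 836801, 569665, 592031, 548146, 591607, 547722⟩ false
 (nat_lit 450) (Int.ofNat (nat_lit 6214)) (nat_lit 500) (Int.ofNat (nat_lit 5819)) qL130_40_2_9 = true := by
 decide +kernel

def qL130_40_2_10 : PCt := .one ⟨2008000, 251, 2008000, -340959, 287324, 0, 0, 200000, 500000, 550000⟩ ⟨0,
 .pol, .pol, .pol, .pol, .sx 100000 (.sx 50000 (.sx 25000 (.aff 5000000 18330303 872872) (.sx 37500 (.sy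
 525000 (.aff 5000000 16198766 987730) (.aff 5000000 15817137 1011562)) (.aff 5000000 14379473 1112698)))
 (.aff 1000000 0 0)) (.aff 1000000 0 0), .pol, .pol, .pol, .pol⟩

def hL130_40_2_10 : pcchk ⟨(nat_lit 3), (nat_lit 1000), Int.ofNat (nat_lit 1000), 0, ⟨0, 1⟩, ⟨Int.ofNat
 (nat_lit 40), 200⟩⟩ ⟨650000, 700000, 821443, 806367, 836801, 569665, 592031, 548146, 591607, 547722⟩ false
 (nat_lit 500) (Int.ofNat (nat_lit 5819)) (nat_lit 550) (Int.ofNat (nat_lit 4970)) qL130_40_2_10 = true :=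
 by decide +kernel

def qL130_40_2_11 : PCt := .one ⟨2008000, 251, 2008000, -492764, 370817, 0, 0, 200000, 550000, 600000⟩ ⟨0,
 .pol, .pol, .pol, .pol, .sx 100000 (.sx 50000 (.sx 25000 (.aff 5000000 22150997 722316) (.sx 37500 (.aff
 8000000 30026655 1631884) (.sy 575000 (.aff 6000000 16834691 1485029) (.aff 8000000 24781714 1977265))))
 (.sy 575000 (.sx 75000 (.aff 5975000 16538946 1496506) (.aff 1000000 0 0)) (.sx 75000 (.aff 6000000
 16158933 1547132) (.aff 1000000 0 0)))) (.aff 1000000 0 0), .pol, .pol, .pol, .pol⟩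

def hL130_40_2_11 : pcchk ⟨(nat_lit 3), (nat_lit 1000), Int.ofNat (nat_lit 1000), 0, ⟨0, 1⟩, ⟨Int.ofNat
 (nat_lit 40), 200⟩⟩ ⟨650000, 700000, 821443, 806367, 836801, 569665, 592031, 548146, 591607, 547722⟩ false
 (nat_lit 550) (Int.ofNat (nat_lit 4970)) (nat_lit 600) (Int.ofNat (nat_lit 3743)) qL130_40_2_11 = true :=
 by decide +kernel

def qL130_40_2_12 : PCt := .one ⟨2008000, 251, 2008000, -686736, 487201, 0, 0, 200000, 600000, 650000⟩ ⟨0,
 .pol, .pol, .pol, .pol, .sx 100000 (.sx 50000 (.aff 8000000 28577381 1714643) (.sx 75000 (.sy 625000 (.aff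
 7275000 17932307 2195793) (.aff 8000000 20408332 2400981)) (.sy 625000 (.sx 87500 (.aff 6400000 15120001
 1928572) (.aff 1000000 0 0)) (.sx 87500 (.sy 637500 (.aff 7300000 17789017 2231152) (.aff 7900000 18715598
 2543868)) (.aff 6000000 13261300 1885185))))) (.aff 1000000 0 0), .pol, .pol, .pol, .pol⟩

def hL130_40_2_12 : pcchk ⟨(nat_lit 3), (nat_lit 1000), Int.ofNat (nat_lit 1000), 0, ⟨0, 1⟩, ⟨Int.ofNat
 (nat_lit 40), 200⟩⟩ ⟨650000, 700000, 821443, 806367, 836801, 569665, 592031, 548146, 591607, 547722⟩ false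
 (nat_lit 600) (Int.ofNat (nat_lit 3743)) (nat_lit 650) (Int.ofNat (nat_lit 2033)) qL130_40_2_12 = true :=
 by decide +kernel

def qL130_40_2_13 : PCt := .one ⟨2008000, 251, 2008000, -859424, 599448, 0, 0, 200000, 650000, 700000⟩ ⟨0,
 .pol, .pol, .pol, .pol, .sx 100000 (.sy 675000 (.aff 8300000 18789526 2836155) (.aff 8000000 18354155
 2669696)) (.sx 150000 (.sy 675000 (.aff 8175000 18304308 2812487) (.aff 8500000 18540497 3033900)) (.aff
 1000000 0 0)), .pol, .pol, .sx 100000 (.sx 50000 (.inf 5196153 192451) .pol) .pol, .pol⟩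

def hL130_40_2_13 : pcchk ⟨(nat_lit 3), (nat_lit 1000), Int.ofNat (nat_lit 1000), 0, ⟨0, 1⟩, ⟨Int.ofNat
 (nat_lit 40), 200⟩⟩ ⟨650000, 700000, 821443, 806367, 836801, 569665, 592031, 548146, 591607, 547722⟩ false
 (nat_lit 650) (Int.ofNat (nat_lit 2033)) (nat_lit 700) (Int.negSucc (nat_lit 106)) qL130_40_2_13 = true :=
 by decide +kernel

def qL130_40_2_14 : PCt := .one ⟨2008000, 251, 2008000, -1091549, 761935, 0, 0, 200000, 700000, 750000⟩ ⟨0,
 .pol, .pol, .pol, .pol, .sx 100000 (.aff 12000000 34200390 3537972) (.sx 150000 (.sx 125000 (.aff 12000000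
 26491509 4567502) (.sx 137500 (.sy 725000 (.aff 9450000 19434566 3673996) (.aff 12000000 26074984 4640464))
 (.sy 725000 (.aff 9400000 18907777 3731798) (.aff 10100000 20177938 4103988)))) (.sy 725000 (.aff 1000000 0
 0) (.sx 175000 (.aff 9900000 19335750 4096557) (.aff 1000000 0 0)))), .pol, .pol, .sx 100000 (.inf 3046310
 328267) .pol, .pol⟩

def hL130_40_2_14 : pcchk ⟨(nat_lit 3), (nat_lit 1000), Int.ofNat (nat_lit 1000), 0, ⟨0, 1⟩, ⟨Int.ofNat
 (nat_lit 40), 200⟩⟩ ⟨650000, 700000, 821443, 806367, 836801, 569665, 592031, 548146, 591607, 547722⟩ false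
 (nat_lit 700) (Int.negSucc (nat_lit 106)) (nat_lit 750) (Int.negSucc (nat_lit 2824)) qL130_40_2_14 = true
 := by decide +kernel

def qL130_40_2_15 : PCt := .one ⟨2008000, 251, 2008000, -1322068, 934824, 0, 0, 200000, 750000, 800000⟩ ⟨0,
 .pol, .pol, .pol, .pol, .sx 100000 (.aff 12000000 35360053 3421941) (.sx 150000 (.aff 12000000 26115130
 4633330) (.sx 175000 (.sy 775000 (.aff 11300000 21499984 4934423) (.aff 12000000 24215380 4996825)) (.sy
 775000 (.aff 11150000 20986630 4908959) (.aff 11706000 21719310 5277260)))), .pol, .pol, .sx 100000 (.inf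
 3937004 254001) .pol, .pol⟩

def hL130_40_2_15 : pcchk ⟨(nat_lit 3), (nat_lit 1000), Int.ofNat (nat_lit 1000), 0, ⟨0, 1⟩, ⟨Int.ofNat
 (nat_lit 40), 200⟩⟩ ⟨650000, 700000, 821443, 806367, 836801, 569665, 592031, 548146, 591607, 547722⟩ false
 (nat_lit 750) (Int.negSucc (nat_lit 2824)) (nat_lit 800) (Int.negSucc (nat_lit 6116)) qL130_40_2_15 = true
 := by decide +kernel

def qL130_40_2_16 : PCt := .one ⟨2008000, 251, 2008000, -9591413, 7550300, 0, 0, 200000, 800000, 850000⟩ ⟨0,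
 .pol, .pol, .pol, .pol, .sx 100000 (.aff 20000000 63015872 5728716) (.inf 1876167 533002), .pol, .pol, .sx
 100000 (.inf 4062020 246183) (.inf 1876167 533002), .pol⟩

def hL130_40_2_16 : pcchk ⟨(nat_lit 3), (nat_lit 1000), Int.ofNat (nat_lit 1000), 0, ⟨0, 1⟩, ⟨Int.ofNat
 (nat_lit 40), 200⟩⟩ ⟨650000, 700000, 821443, 806367, 836801, 569665, 592031, 548146, 591607, 547722⟩ false
 (nat_lit 800) (Int.negSucc (nat_lit 6116)) (nat_lit 850) (Int.negSucc (nat_lit 29999)) qL130_40_2_16 = true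
 := by decide +kernel

def qL130_40_2_17 : PCt := .one ⟨2008000, 251, 2008000, 0, -602400, 0, 0, 200000, 850000, 900000⟩ ⟨0, .pol,
 .pol, .pol, .pol, .inf 2366432 422578, .pol, .pol, .inf 2366432 422578, .pol⟩

def hL130_40_2_17 : pcchk ⟨(nat_lit 3), (nat_lit 1000), Int.ofNat (nat_lit 1000), 0, ⟨0, 1⟩, ⟨Int.ofNat
 (nat_lit 40), 200⟩⟩ ⟨650000, 700000, 821443, 806367, 836801, 569665, 592031, 548146, 591607, 547722⟩ false
 (nat_lit 850) (Int.negSucc (nat_lit 29999)) (nat_lit 900) (Int.negSucc (nat_lit 29999)) qL130_40_2_17 =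
 true := by decide +kernel

def qL130_40_2_18 : PCt := .one ⟨2008000, 251, 2008000, 0, -602400, 0, 0, 200000, 900000, 950000⟩ ⟨0, .pol,
 .pol, .pol, .pol, .aff 35000000 84431432 13691584, .pol, .pol, .inf 3041382 328798, .pol⟩

def hL130_40_2_18 : pcchk ⟨(nat_lit 3), (nat_lit 1000), Int.ofNat (nat_lit 1000), 0, ⟨0, 1⟩, ⟨Int.ofNat
 (nat_lit 40), 200⟩⟩ ⟨650000, 700000, 821443, 806367, 836801, 569665, 592031, 548146, 591607, 547722⟩ false
 (nat_lit 900) (Int.negSucc (nat_lit 29999)) (nat_lit 950) (Int.negSucc (nat_lit 29999)) qL130_40_2_18 =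
 true := by decide +kernel

def qL130_40_2_19 : PCt := .one ⟨2008000, 251, 2008000, 0, -602400, 0, 0, 200000, 950000, 1000000⟩ ⟨0, .pol,
 .pol, .pol, .pol, .aff 20000000 48440686 7452414, .pol, .pol, .inf 3122499 320257, .pol⟩

def hL130_40_2_19 : pcchk ⟨(nat_lit 3), (nat_lit 1000), Int.ofNat (nat_lit 1000), 0, ⟨0, 1⟩, ⟨Int.ofNat
 (nat_lit 40), 200⟩⟩ ⟨650000, 700000, 821443, 806367, 836801, 569665, 592031, 548146, 591607, 547722⟩ false
 (nat_lit 950) (Int.negSucc (nat_lit 29999)) (nat_lit 1000) (Int.negSucc (nat_lit 29999)) qL130_40_2_19 =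
 true := by decide +kernel

def qL130_40_3_0 : PCt := .one ⟨2008000, 251, 411640, 4744904, 0, 0, 0, 200000, 0, 50000⟩ ⟨50000, .pol, .aff
 316228 3162276, .pol, .pol, .aff 0 46667 21428419, .pol, .pol, .pol, .pol⟩

def hL130_40_3_0 : pcchk ⟨(nat_lit 1), (nat_lit 1000), Int.ofNat (nat_lit 205), 0, ⟨0, 1⟩, ⟨Int.ofNat
 (nat_lit 40), 200⟩⟩ ⟨650000, 700000, 821443, 806367, 836801, 569665, 592031, 548146, 591607, 547722⟩ true 0
 0 (nat_lit 50) (Int.ofNat (nat_lit 11815)) qL130_40_3_0 = true := by decide +kernel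

def qL130_40_3_1 : PCt := .one ⟨2008000, 251, 411640, -3907970, 432643, 0, 0, 200000, 50000, 100000⟩ ⟨0,
 .pol, .pol, .pol, .pol, .sx 100000 (.aff 325000 675000 675000) (.aff 1000000 0 0), .pol, .pol, .sy 75000
 .pol (.sy 87500 .pol (.sy 93750 .pol (.sy 96875 .pol (.sx 100000 (.sx 50000 .pol .pol) .pol)))), .pol⟩

def hL130_40_3_1 : pcchk ⟨(nat_lit 1), (nat_lit 1000), Int.ofNat (nat_lit 205), 0, ⟨0, 1⟩, ⟨Int.ofNat
 (nat_lit 40), 200⟩⟩ ⟨650000, 700000, 821443, 806367, 836801, 569665, 592031, 548146, 591607, 547722⟩ false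
 (nat_lit 50) (Int.ofNat (nat_lit 11815)) (nat_lit 100) (Int.ofNat (nat_lit 2084)) qL130_40_3_1 = true := by
 decide +kernel

def qL130_40_3_2 : PCt := .one ⟨2008000, 251, 411640, 72689, 34577, 0, 0, 200000, 100000, 150000⟩ ⟨0, .pol,
 .pol, .pol, .pol, .sx 100000 (.sy 125000 (.sy 112500 (.sy 106250 (.sx 50000 (.aff 0 2031010 492366) (.aff
 394000 630975 582014)) (.sx 50000 (.aff 0 2091651 478092) (.sx 75000 (.aff 250000 992157 566947) (.aff
 450000 638132 474040)))) (.sy 118750 (.sy 115625 (.sx 50000 (.aff 0 2136001 468165) (.sx 75000 (.aff 250000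
 1013195 555175) (.aff 450000 651663 464197))) (.sx 50000 (.aff 0 2165064 461881) (.sx 75000 (.aff 250000
 1026980 547723) (.aff 500000 600481 416333)))) (.sx 50000 (.aff 0 2207941 452911) (.sx 75000 (.aff 375000
 832149 469418) (.aff 500000 590097 423660))))) (.sx 50000 (.aff 250000 1758906 319802) (.sx 75000 (.aff
 450000 778079 388779) (.aff 1000000 0 0)))) (.aff 1000000 0 0), .pol, .pol, .sx 100000 .pol .pol, .pol⟩

def hL130_40_3_2 : pcchk ⟨(nat_lit 1), (nat_lit 1000), Int.ofNat (nat_lit 205), 0, ⟨0, 1⟩, ⟨Int.ofNat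
 (nat_lit 40), 200⟩⟩ ⟨650000, 700000, 821443, 806367, 836801, 569665, 592031, 548146, 591607, 547722⟩ false
 (nat_lit 100) (Int.ofNat (nat_lit 2084)) (nat_lit 150) (Int.ofNat (nat_lit 2265)) qL130_40_3_2 = true := by
 decide +kernel

def qL130_40_3_3 : PCt := .one ⟨2008000, 251, 411640, 10441, 43914, 0, 0, 200000, 150000, 200000⟩ ⟨0, .pol,
 .pol, .pol, .pol, .sx 100000 (.sx 50000 (.sx 25000 (.aff 500000 1870829 133631) (.aff 550000 970096
 208743)) (.aff 625000 572822 245496)) (.aff 1000000 0 0), .pol, .pol, .sx 100000 .pol .pol, .pol⟩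

def hL130_40_3_3 : pcchk ⟨(nat_lit 1), (nat_lit 1000), Int.ofNat (nat_lit 205), 0, ⟨0, 1⟩, ⟨Int.ofNat
 (nat_lit 40), 200⟩⟩ ⟨650000, 700000, 821443, 806367, 836801, 569665, 592031, 548146, 591607, 547722⟩ false
 (nat_lit 150) (Int.ofNat (nat_lit 2265)) (nat_lit 200) (Int.ofNat (nat_lit 2291)) qL130_40_3_3 = true := by
 decide +kernel

def qL130_40_3_4 : PCt := .one ⟨2008000, 251, 411640, -29719, 51946, 0, 0, 200000, 200000, 250000⟩ ⟨0, .pol,
 .pol, .pol, .pol, .sy 225000 (.sy 212500 (.sx 100000 (.sy 206250 (.sy 203125 (.sx 50000 (.aff 625000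
 1105484 127207) (.aff 1000000 0 0)) (.sx 50000 (.sx 25000 (.aff 500000 1652019 151330) (.aff 625000 959737
 146525)) (.aff 1000000 0 0))) (.sx 50000 (.sx 25000 (.aff 625000 1253122 112220) (.aff 750000 647109
 96584)) (.aff 1000000 0 0))) (.aff 1000000 0 0)) (.sy 218750 (.sx 100000 (.sx 50000 (.sx 25000 (.aff 625000
 1150670 122212) (.aff 1000000 0 0)) (.aff 1000000 0 0)) (.aff 1000000 0 0)) (.sx 100000 (.sy 221875 (.sx
 50000 (.sx 25000 (.aff 625000 1163110 120905) (.aff 1000000 0 0)) (.aff 1000000 0 0)) (.sx 50000 (.sx 25000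
 (.aff 625000 1171330 120056) (.aff 1000000 0 0)) (.aff 1000000 0 0))) (.aff 1000000 0 0)))) (.sy 237500
 (.sx 100000 (.sy 231250 (.sx 50000 (.sy 228125 (.sx 25000 (.aff 634000 1165665 114919) (.aff 1000000 0 0))
 (.sx 25000 (.aff 650000 1232569 99386) (.aff 1000000 0 0))) (.aff 1000000 0 0)) (.sx 50000 (.sx 25000 (.aff
 647000 1179672 105631) (.aff 1000000 0 0)) (.aff 1000000 0 0))) (.aff 1000000 0 0)) (.sx 100000 (.sx 50000
 (.sy 243750 (.sx 25000 (.sx 12500 (.aff 500000 2533115 98693) (.aff 750000 1198283 52158)) (.aff 1000000 0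
 0)) (.sy 246875 (.aff 750000 1270751 49184) (.aff 750000 1231752 50741))) (.aff 1000000 0 0)) (.aff 1000000
 0 0))), .pol, .pol, .pol, .pol⟩

def hL130_40_3_4 : pcchk ⟨(nat_lit 1), (nat_lit 1000), Int.ofNat (nat_lit 205), 0, ⟨0, 1⟩, ⟨Int.ofNat
 (nat_lit 40), 200⟩⟩ ⟨650000, 700000, 821443, 806367, 836801, 569665, 592031, 548146, 591607, 547722⟩ false
 (nat_lit 200) (Int.ofNat (nat_lit 2291)) (nat_lit 250) (Int.ofNat (nat_lit 2217)) qL130_40_3_4 = true := by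
 decide +kernel

def qL130_40_3_5 : PCt := .one ⟨2008000, 251, 411640, -76706, 63693, 0, 0, 200000, 250000, 300000⟩ ⟨0, .pol,
 .pol, .pol, .pol, .sy 275000 (.sx 100000 (.sy 262500 (.sx 50000 (.aff 750000 1250969 49962) (.aff 1000000 0
 0)) (.sy 268750 (.sx 50000 (.aff 750000 1273647 49072) (.aff 1000000 0 0)) (.sx 50000 (.sx 25000 (.aff
 750000 1321164 47307) (.aff 1000000 0 0)) (.aff 1000000 0 0)))) (.aff 1000000 0 0)) (.sx 100000 (.sy 287500
 (.sy 281250 (.sx 50000 (.aff 775000 1296303 39054) (.aff 1000000 0 0)) (.sy 284375 (.sy 282812 (.sx 50000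
 (.sy 282031 (.sy 281640 (.sx 25000 (.sx 12500 (.aff 750000 1369782 45628) (.aff 1000000 0 0)) (.aff 1000000
 0 0)) (.sy 281835 (.sx 25000 (.sx 12500 (.aff 750000 1370493 45605) (.aff 1000000 0 0)) (.aff 1000000 0 0))
 (.sx 25000 (.sx 12500 (.aff 750000 1370969 45589) (.aff 1000000 0 0)) (.aff 1000000 0 0)))) (.sx 25000 (.sx
 12500 (.aff 751000 1366667 45367) (.aff 1000000 0 0)) (.aff 1000000 0 0))) (.aff 1000000 0 0)) (.sx 50000
 (.sy 283593 (.sx 25000 (.sx 12500 (.aff 763000 1335577 42056) (.aff 1000000 0 0)) (.aff 1000000 0 0)) (.sx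
 25000 (.sx 12500 (.aff 763000 1337418 41999) (.aff 1000000 0 0)) (.aff 1000000 0 0))) (.aff 1000000 0 0)))
 (.sx 50000 (.sy 285937 (.sy 285156 (.sx 25000 (.sx 12500 (.aff 763000 1339257 41941) (.aff 1000000 0 0))
 (.aff 1000000 0 0)) (.sy 285546 (.sx 25000 (.sx 12500 (.aff 763000 1340633 41898) (.aff 1000000 0 0)) (.aff
 1000000 0 0)) (.sy 285741 (.sx 25000 (.sx 12500 (.aff 763000 1341320 41876) (.aff 1000000 0 0)) (.aff
 1000000 0 0)) (.sx 25000 (.sx 12500 (.aff 763000 1341779 41862) (.aff 1000000 0 0)) (.aff 1000000 0 0)))))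
 (.sx 25000 (.sx 12500 (.aff 763000 1343842 41798) (.aff 1000000 0 0)) (.aff 1000000 0 0))) (.aff 1000000 0
 0)))) (.sx 50000 (.sx 25000 (.aff 875000 1278430 12223) (.aff 1000000 0 0)) (.aff 1000000 0 0))) (.aff
 1000000 0 0)), .pol, .pol, .pol, .pol⟩

def hL130_40_3_5 : pcchk ⟨(nat_lit 1), (nat_lit 1000), Int.ofNat (nat_lit 205), 0, ⟨0, 1⟩, ⟨Int.ofNat
 (nat_lit 40), 200⟩⟩ ⟨650000, 700000, 821443, 806367, 836801, 569665, 592031, 548146, 591607, 547722⟩ false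
 (nat_lit 250) (Int.ofNat (nat_lit 2217)) (nat_lit 300) (Int.ofNat (nat_lit 2026)) qL130_40_3_5 = true := by
 decide +kernel

def qL130_40_3_6 : PCt := .one ⟨2008000, 251, 411640, -132528, 80440, 0, 0, 200000, 300000, 350000⟩ ⟨0,
 .pol, .pol, .pol, .pol, .sx 100000 (.sx 50000 (.sx 25000 (.aff 950000 1033878 2419) (.aff 1000000 0 0))
 (.aff 1000000 0 0)) (.aff 1000000 0 0), .pol, .pol, .pol, .pol⟩

def hL130_40_3_6 : pcchk ⟨(nat_lit 1), (nat_lit 1000), Int.ofNat (nat_lit 205), 0, ⟨0, 1⟩, ⟨Int.ofNat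
 (nat_lit 40), 200⟩⟩ ⟨650000, 700000, 821443, 806367, 836801, 569665, 592031, 548146, 591607, 547722⟩ false
 (nat_lit 300) (Int.ofNat (nat_lit 2026)) (nat_lit 350) (Int.ofNat (nat_lit 1696)) qL130_40_3_6 = true := by
 decide +kernel

def qL130_40_3_7 : PCt := .one ⟨2008000, 251, 411640, -179114, 96745, 0, 0, 200000, 350000, 400000⟩ ⟨0,
 .pol, .pol, .pol, .pol, .sx 100000 (.sx 50000 (.sx 25000 (.sx 12500 (.aff 1050000 1052787 2375) (.aff
 1000000 0 0)) (.aff 1000000 0 0)) (.aff 1000000 0 0)) (.aff 1000000 0 0), .pol, .pol, .pol, .pol⟩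

def hL130_40_3_7 : pcchk ⟨(nat_lit 1), (nat_lit 1000), Int.ofNat (nat_lit 205), 0, ⟨0, 1⟩, ⟨Int.ofNat
 (nat_lit 40), 200⟩⟩ ⟨650000, 700000, 821443, 806367, 836801, 569665, 592031, 548146, 591607, 547722⟩ false
 (nat_lit 350) (Int.ofNat (nat_lit 1696)) (nat_lit 400) (Int.ofNat (nat_lit 1250)) qL130_40_3_7 = true := by
 decide +kernel

def qL130_40_3_8 : PCt := .one ⟨2008000, 251, 411640, -240157, 121162, 0, 0, 200000, 400000, 450000⟩ ⟨0,
 .pol, .pol, .pol, .pol, .sx 100000 (.sx 50000 (.aff 1250000 1919157 32567) (.aff 1000000 0 0)) (.aff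
 1000000 0 0), .pol, .pol, .pol, .pol⟩

def hL130_40_3_8 : pcchk ⟨(nat_lit 1), (nat_lit 1000), Int.ofNat (nat_lit 205), 0, ⟨0, 1⟩, ⟨Int.ofNat
 (nat_lit 40), 200⟩⟩ ⟨650000, 700000, 821443, 806367, 836801, 569665, 592031, 548146, 591607, 547722⟩ false
 (nat_lit 400) (Int.ofNat (nat_lit 1250)) (nat_lit 450) (Int.ofNat (nat_lit 652)) qL130_40_3_8 = true := by
 decide +kernel

def qL130_40_3_9 : PCt := .one ⟨2008000, 251, 411640, -291964, 144475, 0, 0, 200000, 450000, 500000⟩ ⟨0,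
 .pol, .pol, .pol, .pol, .sx 100000 (.sx 50000 (.sx 25000 (.sx 12500 (.aff 1500000 3082208 81111) (.aff
 1350000 1992048 61495)) (.aff 1000000 0 0)) (.aff 1000000 0 0)) (.aff 1000000 0 0), .pol, .pol, .pol, .pol⟩

def hL130_40_3_9 : pcchk ⟨(nat_lit 1), (nat_lit 1000), Int.ofNat (nat_lit 205), 0, ⟨0, 1⟩, ⟨Int.ofNat
 (nat_lit 40), 200⟩⟩ ⟨650000, 700000, 821443, 806367, 836801, 569665, 592031, 548146, 591607, 547722⟩ false
 (nat_lit 450) (Int.ofNat (nat_lit 652)) (nat_lit 500) (Int.negSucc (nat_lit 74)) qL130_40_3_9 = true := by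
 decide +kernel

def qL130_40_3_10 : PCt := .one ⟨2008000, 251, 411640, -363448, 180218, 0, 0, 200000, 500000, 550000⟩ ⟨0,
 .pol, .pol, .pol, .pol, .sx 100000 (.sy 525000 (.sx 50000 (.aff 1494000 2236681 109107) (.aff 1000000 0 0))
 (.sy 537500 (.sy 531250 (.sx 50000 (.sx 25000 (.aff 1500000 2298098 108786) (.aff 1550000 2261029 133789))
 (.aff 1000000 0 0)) (.sx 50000 (.sx 25000 (.aff 1500000 2311656 108148) (.aff 1550000 2274369 133004))
 (.aff 1000000 0 0))) (.sy 543750 (.sx 50000 (.sx 25000 (.aff 1500000 2325135 107521) (.aff 1550000 2287630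
 132233)) (.aff 1000000 0 0)) (.sx 50000 (.sx 25000 (.aff 2000000 6614379 151186) (.aff 1550000 2300816
 131476)) (.aff 1000000 0 0))))) (.aff 1000000 0 0), .pol, .pol, .pol, .pol⟩

def hL130_40_3_10 : pcchk ⟨(nat_lit 1), (nat_lit 1000), Int.ofNat (nat_lit 205), 0, ⟨0, 1⟩, ⟨Int.ofNat
 (nat_lit 40), 200⟩⟩ ⟨650000, 700000, 821443, 806367, 836801, 569665, 592031, 548146, 591607, 547722⟩ false
 (nat_lit 500) (Int.negSucc (nat_lit 74)) (nat_lit 550) (Int.negSucc (nat_lit 979)) qL130_40_3_10 = true :=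
 by decide +kernel

def qL130_40_3_11 : PCt := .one ⟨2008000, 251, 411640, -426901, 215117, 0, 0, 200000, 550000, 600000⟩ ⟨0,
 .pol, .pol, .pol, .pol, .sy 575000 (.sx 100000 (.sx 50000 (.aff 1800000 2683282 238514) (.aff 1250000
 916053 68228)) (.aff 1000000 0 0)) (.sx 100000 (.sx 50000 (.aff 2000000 3427828 291730) (.aff 1700000
 2371873 206588)) (.aff 1000000 0 0)), .pol, .pol, .pol, .pol⟩

def hL130_40_3_11 : pcchk ⟨(nat_lit 1), (nat_lit 1000), Int.ofNat (nat_lit 205), 0, ⟨0, 1⟩, ⟨Int.ofNat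
 (nat_lit 40), 200⟩⟩ ⟨650000, 700000, 821443, 806367, 836801, 569665, 592031, 548146, 591607, 547722⟩ false
 (nat_lit 550) (Int.negSucc (nat_lit 979)) (nat_lit 600) (Int.negSucc (nat_lit 2042)) qL130_40_3_11 = true
 := by decide +kernel

def qL130_40_3_12 : PCt := .one ⟨2008000, 251, 411640, -505213, 262104, 0, 0, 200000, 600000, 650000⟩ ⟨0,
 .pol, .pol, .pol, .pol, .sx 100000 (.sy 625000 (.sx 50000 (.aff 2000000 4041452 247436) (.aff 1938000
 2680559 328232)) (.sx 50000 (.aff 2000000 4123106 242536) (.sx 75000 (.aff 2000000 3045116 328395) (.aff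
 2000000 2699207 370480)))) (.aff 1500000 1020621 244949), .pol, .aff 2000000 2500000 400000, .pol, .pol⟩

def hL130_40_3_12 : pcchk ⟨(nat_lit 1), (nat_lit 1000), Int.ofNat (nat_lit 205), 0, ⟨0, 1⟩, ⟨Int.ofNat
 (nat_lit 40), 200⟩⟩ ⟨650000, 700000, 821443, 806367, 836801, 569665, 592031, 548146, 591607, 547722⟩ false
 (nat_lit 600) (Int.negSucc (nat_lit 2042)) (nat_lit 650) (Int.negSucc (nat_lit 3300)) qL130_40_3_12 = true
 := by decide +kernel

def qL130_40_3_13 : PCt := .one ⟨2008000, 251, 411640, 69878, -111706, 0, 0, 200000, 650000, 700000⟩ ⟨0,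
 .pol, .pol, .pol, .pol, .sy 675000 (.sy 662500 (.sy 656250 (.sx 100000 (.sx 50000 (.aff 2000000 4173329
 239617) (.aff 2000000 2732085 366021)) (.aff 1500000 1043333 239617)) (.aff 2100000 2824613 428378)) (.aff
 2000000 2586021 386695)) (.aff 1500000 1854050 134840), .pol, .sy 675000 (.sx 100000 (.aff 2000000 2972093
 336464) (.aff 1500000 1050794 237916)) (.sy 687500 (.sx 100000 (.aff 2000000 3013857 331801) (.aff 2000000
 2334524 428353)) (.sx 100000 (.aff 3000000 6082763 657596) (.sx 150000 (.aff 2000000 2355844 424477) (.aff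
 1000000 0 0)))), .pol, .pol⟩

def hL130_40_3_13 : pcchk ⟨(nat_lit 1), (nat_lit 1000), Int.ofNat (nat_lit 205), 0, ⟨0, 1⟩, ⟨Int.ofNat
 (nat_lit 40), 200⟩⟩ ⟨650000, 700000, 821443, 806367, 836801, 569665, 592031, 548146, 591607, 547722⟩ false
 (nat_lit 650) (Int.negSucc (nat_lit 3300)) (nat_lit 700) (Int.negSucc (nat_lit 3126)) qL130_40_3_13 = true
 := by decide +kernel

def qL130_40_3_14 : PCt := .one ⟨2008000, 251, 411640, 161844, -176082, 0, 0, 200000, 700000, 750000⟩ ⟨0,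
 .pol, .pol, .pol, .pol, .aff 1500000 1346292 185696, .pol, .sy 725000 (.sy 712500 (.sx 100000 (.aff 2000000
 2657537 376289) (.sx 150000 (.aff 2000000 2376973 420704) (.aff 2000000 2008909 497783))) (.sx 100000 (.aff
 2000000 2680952 373002) (.sx 150000 (.aff 2000000 2397916 417029) (.aff 2000000 2026609 493436)))) (.sx
 100000 (.aff 2000000 2715696 368230) (.sx 150000 (.aff 2050000 2487471 443222) (.aff 2100000 2343404
 516343))), .pol, .pol⟩

def hL130_40_3_14 : pcchk ⟨(nat_lit 1), (nat_lit 1000), Int.ofNat (nat_lit 205), 0, ⟨0, 1⟩, ⟨Int.ofNat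
 (nat_lit 40), 200⟩⟩ ⟨650000, 700000, 821443, 806367, 836801, 569665, 592031, 548146, 591607, 547722⟩ false
 (nat_lit 700) (Int.negSucc (nat_lit 3126)) (nat_lit 750) (Int.negSucc (nat_lit 2723)) qL130_40_3_14 = true
 := by decide +kernel

def qL130_40_3_15 : PCt := .one ⟨2008000, 251, 411640, 148190, -165841, 0, 0, 200000, 750000, 800000⟩ ⟨0,
 .pol, .pol, .pol, .pol, .aff 1000000 0 0, .pol, .sx 100000 (.aff 3000000 7874008 508001) (.sx 150000 (.aff
 3000000 4979960 803220) (.sx 175000 (.aff 2400000 2946184 665268) (.aff 2325000 2606232 673626))), .pol,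
 .pol⟩

def hL130_40_3_15 : pcchk ⟨(nat_lit 1), (nat_lit 1000), Int.ofNat (nat_lit 205), 0, ⟨0, 1⟩, ⟨Int.ofNat
 (nat_lit 40), 200⟩⟩ ⟨650000, 700000, 821443, 806367, 836801, 569665, 592031, 548146, 591607, 547722⟩ false
 (nat_lit 750) (Int.negSucc (nat_lit 2723)) (nat_lit 800) (Int.negSucc (nat_lit 2354)) qL130_40_3_15 = true
 := by decide +kernel

def qL130_40_3_16 : PCt := .one ⟨2008000, 251, 411640, -11102232, 8834497, 0, 0, 200000, 800000, 850000⟩ ⟨0,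
 .pol, .pol, .pol, .pol, .aff 1000000 0 0, .pol, .sx 100000 (.aff 20000000 77178365 4677477) (.inf 1876167
 533002), .sx 100000 (.inf 4062020 246183) (.inf 1876167 533002), .pol⟩

def hL130_40_3_16 : pcchk ⟨(nat_lit 1), (nat_lit 1000), Int.ofNat (nat_lit 205), 0, ⟨0, 1⟩, ⟨Int.ofNat
 (nat_lit 40), 200⟩⟩ ⟨650000, 700000, 821443, 806367, 836801, 569665, 592031, 548146, 591607, 547722⟩ false
 (nat_lit 800) (Int.negSucc (nat_lit 2354)) (nat_lit 850) (Int.negSucc (nat_lit 29999)) qL130_40_3_16 = true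
 := by decide +kernel

def qL130_40_3_17 : PCt := .one ⟨2008000, 251, 411640, 0, -602400, 0, 0, 200000, 850000, 900000⟩ ⟨0, .pol,
 .pol, .pol, .pol, .aff 1000000 0 0, .pol, .inf 2366432 422578, .inf 2366432 422578, .pol⟩

def hL130_40_3_17 : pcchk ⟨(nat_lit 1), (nat_lit 1000), Int.ofNat (nat_lit 205), 0, ⟨0, 1⟩, ⟨Int.ofNat
 (nat_lit 40), 200⟩⟩ ⟨650000, 700000, 821443, 806367, 836801, 569665, 592031, 548146, 591607, 547722⟩ false
 (nat_lit 850) (Int.negSucc (nat_lit 29999)) (nat_lit 900) (Int.negSucc (nat_lit 29999)) qL130_40_3_17 =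
 true := by decide +kernel

def qL130_40_3_18 : PCt := .one ⟨2008000, 251, 411640, 0, -602400, 0, 0, 200000, 900000, 950000⟩ ⟨0, .pol,
 .pol, .pol, .pol, .aff 1000000 0 0, .pol, .aff 35000000 84431432 13691584, .inf 3041382 328798, .pol⟩

def hL130_40_3_18 : pcchk ⟨(nat_lit 1), (nat_lit 1000), Int.ofNat (nat_lit 205), 0, ⟨0, 1⟩, ⟨Int.ofNat
 (nat_lit 40), 200⟩⟩ ⟨650000, 700000, 821443, 806367, 836801, 569665, 592031, 548146, 591607, 547722⟩ false
 (nat_lit 900) (Int.negSucc (nat_lit 29999)) (nat_lit 950) (Int.negSucc (nat_lit 29999)) qL130_40_3_18 =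
 true := by decide +kernel

def qL130_40_3_19 : PCt := .one ⟨2008000, 251, 411640, 0, -602400, 0, 0, 200000, 950000, 1000000⟩ ⟨0, .pol,
 .pol, .pol, .pol, .aff 1000000 0 0, .pol, .aff 20000000 41950865 8605306, .inf 3122499 320257, .pol⟩

def hL130_40_3_19 : pcchk ⟨(nat_lit 1), (nat_lit 1000), Int.ofNat (nat_lit 205), 0, ⟨0, 1⟩, ⟨Int.ofNat
 (nat_lit 40), 200⟩⟩ ⟨650000, 700000, 821443, 806367, 836801, 569665, 592031, 548146, 591607, 547722⟩ false
 (nat_lit 950) (Int.negSucc (nat_lit 29999)) (nat_lit 1000) (Int.negSucc (nat_lit 29999)) qL130_40_3_19 =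
 true := by decide +kernel

def qL130_40_4_0 : PCt := .one ⟨2008000, 251, 502000, 459430, 0, 0, 0, 200000, 0, 50000⟩ ⟨50000, .pol, .pol,
 .pol, .pol, .sy 25000 (.aff 0 377965 2645748) (.sx 125000 .pol (.sy 37500 (.aff 106000 372925 2143155)
 (.aff 125000 409244 1870828))), .pol, .pol, .pol, .pol⟩

def hL130_40_4_0 : pcchk ⟨(nat_lit 1), (nat_lit 1000), Int.ofNat (nat_lit 250), 0, ⟨0, 1⟩, ⟨Int.ofNat
 (nat_lit 40), 200⟩⟩ ⟨650000, 700000, 821443, 806367, 836801, 569665, 592031, 548146, 591607, 547722⟩ true 0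
 0 (nat_lit 50) (Int.ofNat (nat_lit 1144)) qL130_40_4_0 = true := by decide +kernel

def qL130_40_4_1 : PCt := .one ⟨2008000, 251, 502000, 215257, 12208, 0, 0, 200000, 50000, 100000⟩ ⟨0, .pol,
 .pol, .pol, .pol, .sy 75000 (.sx 100000 (.aff 0 912871 1095446) (.sx 150000 (.aff 200000 596285 1073313)
 (.aff 500000 298808 836658))) (.sx 100000 (.aff 125000 945109 810092) (.sx 150000 (.aff 238000 672021
 864027) (.aff 1000000 0 0))), .pol, .pol, .sy 75000 (.sy 62500 (.sy 56250 (.sy 53125 (.sy 51562 .pol (.sx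
 100000 (.sx 50000 .pol .pol) .pol)) (.sy 54687 (.sx 100000 (.sx 50000 .pol .pol) .pol) (.sx 100000 (.sx
 50000 .pol .pol) .pol))) (.sy 59375 (.sy 57812 (.sx 100000 (.sx 50000 .pol .pol) .pol) (.sx 100000 (.sx
 50000 .pol .pol) .pol)) (.sy 60937 (.sx 100000 (.sx 50000 .pol .pol) .pol) (.sx 100000 (.sx 50000 .pol
 .pol) .pol)))) (.sy 68750 (.sy 65625 (.sy 64062 (.sx 100000 (.sx 50000 .pol .pol) .pol) (.sx 100000 (.sx
 50000 .pol .pol) .pol)) (.sy 67187 (.sx 100000 (.sx 50000 .pol .pol) .pol) (.sx 100000 (.sx 50000 .pol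
 .pol) .pol))) (.sy 71875 (.sy 70312 (.sx 100000 (.sx 50000 .pol .pol) .pol) (.sx 100000 (.sx 50000 .pol
 .pol) .pol)) (.sy 73437 (.sx 100000 (.sx 50000 .pol .pol) .pol) (.sx 100000 (.sx 50000 .pol .pol) .pol)))))
 (.sy 87500 (.sy 81250 (.sy 78125 (.sy 76562 (.sx 100000 (.sx 50000 .pol .pol) .pol) (.sx 100000 (.sx 50000
 .pol .pol) .pol)) (.sy 79687 (.sx 100000 (.sx 50000 .pol .pol) .pol) (.sx 100000 (.sx 50000 .pol .pol)
 .pol))) (.sy 84375 (.sy 82812 (.sx 100000 (.sx 50000 .pol .pol) .pol) (.sx 100000 (.sx 50000 .pol .pol)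
 .pol)) (.sy 85937 (.sx 100000 (.sx 50000 .pol .pol) .pol) (.sx 100000 (.sx 50000 .pol .pol) .pol)))) (.sy
 93750 (.sy 90625 (.sy 89062 (.sx 100000 (.sx 50000 .pol .pol) .pol) (.sx 100000 (.sx 50000 .pol .pol)
 .pol)) (.sy 92187 (.sx 100000 (.sx 50000 .pol .pol) .pol) (.sx 100000 (.sx 50000 .pol .pol) .pol))) (.sy
 96875 (.sy 95312 (.sx 100000 (.sx 50000 .pol .pol) .pol) (.sx 100000 (.sx 50000 .pol .pol) .pol)) (.sy
 98437 (.sx 100000 (.sx 50000 .pol .pol) .pol) (.sx 100000 (.sx 50000 .pol .pol) .pol))))), .pol⟩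

def hL130_40_4_1 : pcchk ⟨(nat_lit 1), (nat_lit 1000), Int.ofNat (nat_lit 250), 0, ⟨0, 1⟩, ⟨Int.ofNat
 (nat_lit 40), 200⟩⟩ ⟨650000, 700000, 821443, 806367, 836801, 569665, 592031, 548146, 591607, 547722⟩ false
 (nat_lit 50) (Int.ofNat (nat_lit 1144)) (nat_lit 100) (Int.ofNat (nat_lit 1680)) qL130_40_4_1 = true := by
 decide +kernel

def qL130_40_4_2 : PCt := .one ⟨2008000, 251, 502000, 140560, 19678, 0, 0, 200000, 100000, 150000⟩ ⟨0, .pol,
 .pol, .pol, .pol, .sy 125000 (.sy 112500 (.sx 100000 (.sx 50000 (.aff 0 2061553 485072) (.aff 250000 892679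
 630126)) (.aff 1000000 0 0)) (.sx 100000 (.sx 50000 (.aff 0 1779514 561952) (.sx 75000 (.aff 250000 1033804
 544108) (.aff 275000 876483 599698))) (.aff 1000000 0 0))) (.sx 100000 (.sx 50000 (.aff 250000 1436141
 391675) (.aff 303000 935438 519339)) (.aff 1000000 0 0)), .pol, .pol, .sx 100000 .pol .pol, .pol⟩

def hL130_40_4_2 : pcchk ⟨(nat_lit 1), (nat_lit 1000), Int.ofNat (nat_lit 250), 0, ⟨0, 1⟩, ⟨Int.ofNat
 (nat_lit 40), 200⟩⟩ ⟨650000, 700000, 821443, 806367, 836801, 569665, 592031, 548146, 591607, 547722⟩ false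
 (nat_lit 100) (Int.ofNat (nat_lit 1680)) (nat_lit 150) (Int.ofNat (nat_lit 2030)) qL130_40_4_2 = true := by
 decide +kernel

def qL130_40_4_3 : PCt := .one ⟨2008000, 251, 502000, 54617, 32569, 0, 0, 200000, 150000, 200000⟩ ⟨0, .pol,
 .pol, .pol, .pol, .sy 175000 (.sx 100000 (.sx 50000 (.aff 400000 1249000 288231) (.aff 500000 735981
 339683)) (.aff 1000000 0 0)) (.sx 100000 (.sy 187500 (.sy 181250 (.sx 50000 (.sx 25000 (.aff 0 3082208
 324443) (.aff 406000 1193459 295642)) (.aff 1000000 0 0)) (.sx 50000 (.sx 25000 (.aff 250000 2351861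
 239173) (.aff 475000 1275221 216140)) (.aff 1000000 0 0))) (.sy 193750 (.sx 50000 (.sx 25000 (.aff 500000
 1380671 181072) (.aff 500000 1234909 202445)) (.aff 1000000 0 0)) (.sx 50000 (.aff 494000 1333929 191942)
 (.aff 1000000 0 0)))) (.aff 1000000 0 0)), .pol, .pol, .sx 100000 .pol .pol, .pol⟩

def hL130_40_4_3 : pcchk ⟨(nat_lit 1), (nat_lit 1000), Int.ofNat (nat_lit 250), 0, ⟨0, 1⟩, ⟨Int.ofNat
 (nat_lit 40), 200⟩⟩ ⟨650000, 700000, 821443, 806367, 836801, 569665, 592031, 548146, 591607, 547722⟩ false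
 (nat_lit 150) (Int.ofNat (nat_lit 2030)) (nat_lit 200) (Int.ofNat (nat_lit 2166)) qL130_40_4_3 = true := by
 decide +kernel

def qL130_40_4_4 : PCt := .one ⟨2008000, 251, 502000, 2409, 43011, 0, 0, 200000, 200000, 250000⟩ ⟨0, .pol,
 .pol, .pol, .pol, .sy 225000 (.sy 212500 (.sy 206250 (.sx 100000 (.sx 50000 (.sx 25000 (.aff 500000 1645702
 151911) (.aff 500000 1274755 196117)) (.aff 1000000 0 0)) (.aff 1000000 0 0)) (.sx 100000 (.sy 209375 (.sx
 50000 (.sx 25000 (.aff 500000 1664583 150188) (.aff 500000 1289380 193892)) (.aff 1000000 0 0)) (.sx 50000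
 (.sx 25000 (.aff 500000 1452369 172133) (.aff 1000000 0 0)) (.aff 1000000 0 0))) (.aff 1000000 0 0))) (.sx
 100000 (.sx 50000 (.sx 25000 (.aff 538000 1436683 148568) (.aff 1000000 0 0)) (.aff 1000000 0 0)) (.aff
 1000000 0 0))) (.sy 237500 (.sy 231250 (.sx 100000 (.sx 50000 (.sx 25000 (.sx 12500 (.aff 500000 3020762
 82761) (.aff 600000 1453858 110053)) (.aff 1000000 0 0)) (.aff 1000000 0 0)) (.aff 1000000 0 0)) (.sx
 100000 (.sx 50000 (.sx 25000 (.aff 600000 1490790 107326) (.aff 1000000 0 0)) (.aff 1000000 0 0)) (.aff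
 1000000 0 0))) (.sy 243750 (.sx 100000 (.sx 50000 (.aff 625000 1488735 94460) (.aff 1000000 0 0)) (.aff
 1000000 0 0)) (.sx 100000 (.sx 50000 (.aff 625000 1439325 97703) (.aff 1000000 0 0)) (.aff 1000000 0 0)))),
 .pol, .pol, .pol, .pol⟩

def hL130_40_4_4 : pcchk ⟨(nat_lit 1), (nat_lit 1000), Int.ofNat (nat_lit 250), 0, ⟨0, 1⟩, ⟨Int.ofNat
 (nat_lit 40), 200⟩⟩ ⟨650000, 700000, 821443, 806367, 836801, 569665, 592031, 548146, 591607, 547722⟩ false
 (nat_lit 200) (Int.ofNat (nat_lit 2166)) (nat_lit 250) (Int.ofNat (nat_lit 2172)) qL130_40_4_4 = true := by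
 decide +kernel

def qL130_40_4_5 : PCt := .one ⟨2008000, 251, 502000, -65060, 59878, 0, 0, 200000, 250000, 300000⟩ ⟨0, .pol,
 .pol, .pol, .pol, .sy 275000 (.sy 262500 (.sy 256250 (.sx 100000 (.aff 675000 1467520 71976) (.aff 1000000
 0 0)) (.sy 259375 (.sx 100000 (.sx 50000 (.aff 700000 1505733 59772) (.aff 1000000 0 0)) (.aff 1000000 0
 0)) (.sx 100000 (.sx 50000 (.aff 700000 1514831 59413) (.aff 1000000 0 0)) (.aff 1000000 0 0)))) (.sx
 100000 (.sx 50000 (.aff 750000 1644987 37995) (.aff 1000000 0 0)) (.aff 1000000 0 0))) (.sx 100000 (.sx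
 50000 (.aff 750000 1618424 38618) (.aff 1000000 0 0)) (.aff 1000000 0 0)), .pol, .pol, .pol, .pol⟩

def hL130_40_4_5 : pcchk ⟨(nat_lit 1), (nat_lit 1000), Int.ofNat (nat_lit 250), 0, ⟨0, 1⟩, ⟨Int.ofNat
 (nat_lit 40), 200⟩⟩ ⟨650000, 700000, 821443, 806367, 836801, 569665, 592031, 548146, 591607, 547722⟩ false
 (nat_lit 250) (Int.ofNat (nat_lit 2172)) (nat_lit 300) (Int.ofNat (nat_lit 2010)) qL130_40_4_5 = true := by
 decide +kernel

def qL130_40_4_6 : PCt := .one ⟨2008000, 251, 502000, -123693, 77468, 0, 0, 200000, 300000, 350000⟩ ⟨0,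
 .pol, .pol, .pol, .pol, .sx 100000 (.sx 50000 (.sx 25000 (.aff 900000 1692935 5907) (.aff 1000000 0 0))
 (.aff 1000000 0 0)) (.aff 1000000 0 0), .pol, .pol, .pol, .pol⟩

def hL130_40_4_6 : pcchk ⟨(nat_lit 1), (nat_lit 1000), Int.ofNat (nat_lit 250), 0, ⟨0, 1⟩, ⟨Int.ofNat
 (nat_lit 40), 200⟩⟩ ⟨650000, 700000, 821443, 806367, 836801, 569665, 592031, 548146, 591607, 547722⟩ false
 (nat_lit 300) (Int.ofNat (nat_lit 2010)) (nat_lit 350) (Int.ofNat (nat_lit 1702)) qL130_40_4_6 = true := by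
 decide +kernel

def qL130_40_4_7 : PCt := .one ⟨2008000, 251, 502000, -185138, 98974, 0, 0, 200000, 350000, 400000⟩ ⟨0,
 .pol, .pol, .pol, .pol, .sx 100000 (.sx 50000 (.sx 25000 (.sx 12500 (.aff 1100000 1723897 5801) (.aff
 1000000 0 0)) (.aff 1000000 0 0)) (.aff 1000000 0 0)) (.aff 1000000 0 0), .pol, .pol, .pol, .pol⟩

def hL130_40_4_7 : pcchk ⟨(nat_lit 1), (nat_lit 1000), Int.ofNat (nat_lit 250), 0, ⟨0, 1⟩, ⟨Int.ofNat
 (nat_lit 40), 200⟩⟩ ⟨650000, 700000, 821443, 806367, 836801, 569665, 592031, 548146, 591607, 547722⟩ false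
 (nat_lit 350) (Int.ofNat (nat_lit 1702)) (nat_lit 400) (Int.ofNat (nat_lit 1241)) qL130_40_4_7 = true := by
 decide +kernel

def qL130_40_4_8 : PCt := .one ⟨2008000, 251, 502000, -254615, 126765, 0, 0, 200000, 400000, 450000⟩ ⟨0,
 .pol, .pol, .pol, .pol, .sx 100000 (.sy 425000 (.sx 50000 (.sx 25000 (.aff 1250000 2244613 27845) (.aff
 1000000 0 0)) (.aff 1000000 0 0)) (.sx 50000 (.sx 25000 (.aff 1251000 2263575 27833) (.aff 1000000 0 0))
 (.aff 1000000 0 0))) (.aff 1000000 0 0), .pol, .pol, .pol, .pol⟩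

def hL130_40_4_8 : pcchk ⟨(nat_lit 1), (nat_lit 1000), Int.ofNat (nat_lit 250), 0, ⟨0, 1⟩, ⟨Int.ofNat
 (nat_lit 40), 200⟩⟩ ⟨650000, 700000, 821443, 806367, 836801, 569665, 592031, 548146, 591607, 547722⟩ false
 (nat_lit 400) (Int.ofNat (nat_lit 1241)) (nat_lit 450) (Int.ofNat (nat_lit 607)) qL130_40_4_8 = true := by
 decide +kernel

def qL130_40_4_9 : PCt := .one ⟨2008000, 251, 502000, -316461, 154595, 0, 0, 200000, 450000, 500000⟩ ⟨0,
 .pol, .pol, .pol, .pol, .sx 100000 (.sx 50000 (.sx 25000 (.aff 1475000 2513359 89771) (.aff 1000000 0 0))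
 (.aff 1000000 0 0)) (.aff 1000000 0 0), .pol, .pol, .pol, .pol⟩

def hL130_40_4_9 : pcchk ⟨(nat_lit 1), (nat_lit 1000), Int.ofNat (nat_lit 250), 0, ⟨0, 1⟩, ⟨Int.ofNat
 (nat_lit 40), 200⟩⟩ ⟨650000, 700000, 821443, 806367, 836801, 569665, 592031, 548146, 591607, 547722⟩ false
 (nat_lit 450) (Int.ofNat (nat_lit 607)) (nat_lit 500) (Int.negSucc (nat_lit 180)) qL130_40_4_9 = true := by
 decide +kernel

def qL130_40_4_10 : PCt := .one ⟨2008000, 251, 502000, -394773, 193751, 0, 0, 200000, 500000, 550000⟩ ⟨0,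
 .pol, .pol, .pol, .pol, .sy 525000 (.sx 100000 (.sy 512500 (.sx 50000 (.aff 1588000 2646000 130667) (.aff
 1000000 0 0)) (.sx 50000 (.sx 25000 (.aff 2000000 5259912 190118) (.aff 1650000 2648302 159537)) (.aff
 1000000 0 0))) (.aff 1000000 0 0)) (.sx 100000 (.sy 537500 (.sx 50000 (.sx 25000 (.aff 2000000 5322907
 187868) (.aff 1650000 2680019 157649)) (.aff 1000000 0 0)) (.sx 50000 (.sx 25000 (.aff 2000000 5385165
 185696) (.sx 37500 (.aff 1900000 3427098 236352) (.aff 1500000 1762709 141828))) (.aff 1000000 0 0))) (.aff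
 1000000 0 0)), .pol, .pol, .pol, .pol⟩

def hL130_40_4_10 : pcchk ⟨(nat_lit 1), (nat_lit 1000), Int.ofNat (nat_lit 250), 0, ⟨0, 1⟩, ⟨Int.ofNat
 (nat_lit 40), 200⟩⟩ ⟨650000, 700000, 821443, 806367, 836801, 569665, 592031, 548146, 591607, 547722⟩ false
 (nat_lit 500) (Int.negSucc (nat_lit 180)) (nat_lit 550) (Int.negSucc (nat_lit 1163)) qL130_40_4_10 = true
 := by decide +kernel

def qL130_40_4_11 : PCt := .one ⟨2008000, 251, 502000, -464652, 232185, 0, 0, 200000, 550000, 600000⟩ ⟨0,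
 .pol, .pol, .pol, .pol, .sy 575000 (.sy 562500 (.sx 100000 (.sx 50000 (.aff 1925000 3085260 277327) (.aff
 1500000 1361678 183598)) (.aff 1000000 0 0)) (.sx 100000 (.sx 50000 (.aff 1900000 3035416 266850) (.aff
 1700000 2579157 189985)) (.aff 1000000 0 0))) (.sy 587500 (.sx 100000 (.sx 50000 (.aff 2000000 3409546
 293295) (.aff 1913000 2854761 291993)) (.aff 1000000 0 0)) (.sx 100000 (.sx 50000 (.aff 2000000 3446013
 290191) (.aff 1900000 2773987 291999)) (.aff 1000000 0 0))), .pol, .pol, .pol, .pol⟩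

def hL130_40_4_11 : pcchk ⟨(nat_lit 1), (nat_lit 1000), Int.ofNat (nat_lit 250), 0, ⟨0, 1⟩, ⟨Int.ofNat
 (nat_lit 40), 200⟩⟩ ⟨650000, 700000, 821443, 806367, 836801, 569665, 592031, 548146, 591607, 547722⟩ false
 (nat_lit 550) (Int.negSucc (nat_lit 1163)) (nat_lit 600) (Int.negSucc (nat_lit 2320)) qL130_40_4_11 = true
 := by decide +kernel

def qL130_40_4_12 : PCt := .one ⟨2008000, 251, 502000, -555413, 286642, 0, 0, 200000, 600000, 650000⟩ ⟨0,
 .pol, .pol, .pol, .pol, .sx 100000 (.sy 625000 (.sx 50000 (.aff 2000000 4041452 247436) (.aff 2100000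
 3143512 384920)) (.sx 50000 (.aff 2000000 4123106 242536) (.aff 2063000 3099151 364606))) (.aff 1500000
 1020621 244949), .pol, .pol, .pol, .pol⟩

def hL130_40_4_12 : pcchk ⟨(nat_lit 1), (nat_lit 1000), Int.ofNat (nat_lit 250), 0, ⟨0, 1⟩, ⟨Int.ofNat
 (nat_lit 40), 200⟩⟩ ⟨650000, 700000, 821443, 806367, 836801, 569665, 592031, 548146, 591607, 547722⟩ false
 (nat_lit 600) (Int.negSucc (nat_lit 2320)) (nat_lit 650) (Int.negSucc (nat_lit 3703)) qL130_40_4_12 = true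
 := by decide +kernel

def qL130_40_4_13 : PCt := .one ⟨2008000, 251, 502000, 11244, -81686, 0, 0, 200000, 650000, 700000⟩ ⟨0,
 .pol, .pol, .pol, .pol, .sx 100000 (.aff 2400000 3637307 538861) (.aff 1500000 1060661 235703), .pol, .sx
 100000 (.aff 3000000 6000001 666667) (.sx 150000 (.aff 2300000 3184337 530723) (.aff 1000000 0 0)), .pol,
 .pol⟩

def hL130_40_4_13 : pcchk ⟨(nat_lit 1), (nat_lit 1000), Int.ofNat (nat_lit 250), 0, ⟨0, 1⟩, ⟨Int.ofNat
 (nat_lit 40), 200⟩⟩ ⟨650000, 700000, 821443, 806367, 836801, 569665, 592031, 548146, 591607, 547722⟩ false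
 (nat_lit 650) (Int.negSucc (nat_lit 3703)) (nat_lit 700) (Int.negSucc (nat_lit 3675)) qL130_40_4_13 = true
 := by decide +kernel

def qL130_40_4_14 : PCt := .one ⟨2008000, 251, 502000, 91564, -137910, 0, 0, 200000, 700000, 750000⟩ ⟨0,
 .pol, .pol, .pol, .pol, .aff 1500000 1346292 185696, .pol, .sx 100000 (.aff 3000000 6218253 643268) (.sx
 150000 (.sx 125000 (.aff 3000000 4941767 809428) (.aff 2600000 3517575 727775)) (.aff 2500000 3168354
 710148)), .pol, .pol⟩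

def hL130_40_4_14 : pcchk ⟨(nat_lit 1), (nat_lit 1000), Int.ofNat (nat_lit 250), 0, ⟨0, 1⟩, ⟨Int.ofNat
 (nat_lit 40), 200⟩⟩ ⟨650000, 700000, 821443, 806367, 836801, 569665, 592031, 548146, 591607, 547722⟩ false
 (nat_lit 700) (Int.negSucc (nat_lit 3675)) (nat_lit 750) (Int.negSucc (nat_lit 3447)) qL130_40_4_14 = true
 := by decide +kernel

def qL130_40_4_15 : PCt := .one ⟨2008000, 251, 502000, 59838, -114115, 0, 0, 200000, 750000, 800000⟩ ⟨0,
 .pol, .pol, .pol, .pol, .aff 1000000 0 0, .pol, .sx 100000 (.aff 3000000 6429101 622171) (.sx 150000 (.aff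
 3000000 4979960 803220) (.sx 175000 (.aff 2900000 3998393 902863) (.aff 2800000 3543304 914401))), .pol,
 .pol⟩

def hL130_40_4_15 : pcchk ⟨(nat_lit 1), (nat_lit 1000), Int.ofNat (nat_lit 250), 0, ⟨0, 1⟩, ⟨Int.ofNat
 (nat_lit 40), 200⟩⟩ ⟨650000, 700000, 821443, 806367, 836801, 569665, 592031, 548146, 591607, 547722⟩ false
 (nat_lit 750) (Int.negSucc (nat_lit 3447)) (nat_lit 800) (Int.negSucc (nat_lit 3298)) qL130_40_4_15 = true
 := by decide +kernel

def qL130_40_4_16 : PCt := .one ⟨2008000, 251, 502000, -10723122, 8512253, 0, 0, 200000, 800000, 850000⟩ ⟨0,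
 .pol, .pol, .pol, .pol, .aff 1000000 0 0, .pol, .sx 100000 (.aff 20000000 77178365 4677477) (.inf 1876167
 533002), .sx 100000 (.inf 4062020 246183) (.inf 1876167 533002), .pol⟩

def hL130_40_4_16 : pcchk ⟨(nat_lit 1), (nat_lit 1000), Int.ofNat (nat_lit 250), 0, ⟨0, 1⟩, ⟨Int.ofNat
 (nat_lit 40), 200⟩⟩ ⟨650000, 700000, 821443, 806367, 836801, 569665, 592031, 548146, 591607, 547722⟩ false
 (nat_lit 800) (Int.negSucc (nat_lit 3298)) (nat_lit 850) (Int.negSucc (nat_lit 29999)) qL130_40_4_16 = true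
 := by decide +kernel

def qL130_40_4_17 : PCt := .one ⟨2008000, 251, 502000, 0, -602400, 0, 0, 200000, 850000, 900000⟩ ⟨0, .pol,
 .pol, .pol, .pol, .aff 1000000 0 0, .pol, .inf 2366432 422578, .inf 2366432 422578, .pol⟩

def hL130_40_4_17 : pcchk ⟨(nat_lit 1), (nat_lit 1000), Int.ofNat (nat_lit 250), 0, ⟨0, 1⟩, ⟨Int.ofNat
 (nat_lit 40), 200⟩⟩ ⟨650000, 700000, 821443, 806367, 836801, 569665, 592031, 548146, 591607, 547722⟩ false
 (nat_lit 850) (Int.negSucc (nat_lit 29999)) (nat_lit 900) (Int.negSucc (nat_lit 29999)) qL130_40_4_17 =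
 true := by decide +kernel

def qL130_40_4_18 : PCt := .one ⟨2008000, 251, 502000, 0, -602400, 0, 0, 200000, 900000, 950000⟩ ⟨0, .pol,
 .pol, .pol, .pol, .aff 1000000 0 0, .pol, .aff 35000000 84431432 13691584, .inf 3041382 328798, .pol⟩

def hL130_40_4_18 : pcchk ⟨(nat_lit 1), (nat_lit 1000), Int.ofNat (nat_lit 250), 0, ⟨0, 1⟩, ⟨Int.ofNat
 (nat_lit 40), 200⟩⟩ ⟨650000, 700000, 821443, 806367, 836801, 569665, 592031, 548146, 591607, 547722⟩ false
 (nat_lit 900) (Int.negSucc (nat_lit 29999)) (nat_lit 950) (Int.negSucc (nat_lit 29999)) qL130_40_4_18 =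
 true := by decide +kernel

def qL130_40_4_19 : PCt := .one ⟨2008000, 251, 502000, 0, -602400, 0, 0, 200000, 950000, 1000000⟩ ⟨0, .pol,
 .pol, .pol, .pol, .aff 1000000 0 0, .pol, .aff 20000000 48440686 7452414, .inf 3122499 320257, .pol⟩

def hL130_40_4_19 : pcchk ⟨(nat_lit 1), (nat_lit 1000), Int.ofNat (nat_lit 250), 0, ⟨0, 1⟩, ⟨Int.ofNat
 (nat_lit 40), 200⟩⟩ ⟨650000, 700000, 821443, 806367, 836801, 569665, 592031, 548146, 591607, 547722⟩ false
 (nat_lit 950) (Int.negSucc (nat_lit 29999)) (nat_lit 1000) (Int.negSucc (nat_lit 29999)) qL130_40_4_19 =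
 true := by decide +kernel

def qL130_40_5_0 : PCt := .one ⟨2008000, 251, 803200, 151001, 0, 0, 0, 200000, 0, 50000⟩ ⟨12500, .aff
 2000000 500000, .pol, .pol, .pol, .aff 0 1763855 566941, .aff 0 2236068 447214, .pol, .pol, .pol⟩

def hL130_40_5_0 : pcchk ⟨(nat_lit 1), (nat_lit 1000), Int.ofNat (nat_lit 400), 0, ⟨0, 1⟩, ⟨Int.ofNat
 (nat_lit 40), 200⟩⟩ ⟨650000, 700000, 821443, 806367, 836801, 569665, 592031, 548146, 591607, 547722⟩ true 0
 0 (nat_lit 50) (Int.ofNat (nat_lit 376)) qL130_40_5_0 = true := by decide +kernel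

def qL130_40_5_1 : PCt := .one ⟨2008000, 251, 803200, 187547, -1828, 0, 0, 200000, 50000, 100000⟩ ⟨0, .pol,
 .pol, .pol, .pol, .sy 75000 (.sx 100000 (.sx 50000 (.sx 25000 (.aff 0 2208292 452839) (.aff 0 1290995
 774597)) (.aff 0 912871 1095446)) .pol) (.sy 87500 (.sx 100000 (.sx 50000 (.aff 0 2147550 465647) (.aff 0
 1040833 960769)) .pol) (.sy 93750 (.sx 100000 (.sx 50000 (.aff 0 2130651 469341) (.aff 0 1099243 909717))
 .pol) (.sx 100000 (.sy 96875 (.sx 50000 (.aff 0 2131110 469240) (.aff 0 1127313 887066)) (.sx 50000 (.sx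
 25000 (.aff 0 2291288 436436) (.aff 0 1774824 563437)) (.aff 0 1145644 872872))) .pol))), .pol, .pol, .sx
 100000 (.sx 50000 .pol .pol) .pol, .pol⟩

def hL130_40_5_1 : pcchk ⟨(nat_lit 1), (nat_lit 1000), Int.ofNat (nat_lit 400), 0, ⟨0, 1⟩, ⟨Int.ofNat
 (nat_lit 40), 200⟩⟩ ⟨650000, 700000, 821443, 806367, 836801, 569665, 592031, 548146, 591607, 547722⟩ false
 (nat_lit 50) (Int.ofNat (nat_lit 376)) (nat_lit 100) (Int.ofNat (nat_lit 843)) qL130_40_5_1 = true := by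
 decide +kernel

def qL130_40_5_2 : PCt := .one ⟨2008000, 251, 803200, 243369, -7410, 0, 0, 200000, 100000, 150000⟩ ⟨0, .pol,
 .pol, .pol, .pol, .sx 100000 (.sy 125000 (.sy 112500 (.sy 106250 (.sy 103125 (.sy 101562 (.sx 50000 (.sx
 25000 (.aff 0 2205332 453447) (.aff 0 1795827 556847)) (.aff 0 1159201 862664)) (.sx 50000 (.aff 0 2127037
 470138) (.aff 0 1168153 856053))) (.sx 50000 (.aff 0 2124533 470692) (.aff 0 1181454 846415))) (.sx 50000
 (.aff 0 2091651 478092) (.aff 0 1207615 828079))) (.sx 50000 (.aff 0 2179450 458832) (.aff 0 1258306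
 794720))) (.sy 137500 (.aff 13000 2046291 476066) (.sx 50000 (.aff 0 2163804 462150) (.aff 0 1384438
 722315)))) (.aff 0 912871 1095446), .pol, .pol, .sx 100000 .pol .pol, .pol⟩

def hL130_40_5_2 : pcchk ⟨(nat_lit 1), (nat_lit 1000), Int.ofNat (nat_lit 400), 0, ⟨0, 1⟩, ⟨Int.ofNat
 (nat_lit 40), 200⟩⟩ ⟨650000, 700000, 821443, 806367, 836801, 569665, 592031, 548146, 591607, 547722⟩ false
 (nat_lit 100) (Int.ofNat (nat_lit 843)) (nat_lit 150) (Int.ofNat (nat_lit 1449)) qL130_40_5_2 = true := by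
 decide +kernel

def qL130_40_5_3 : PCt := .one ⟨2008000, 251, 803200, 160640, 4999, 0, 0, 200000, 150000, 200000⟩ ⟨0, .pol,
 .pol, .pol, .pol, .sy 175000 (.sy 162500 (.sy 156250 (.sx 100000 (.aff 125000 2165515 353554) (.aff 0
 1010363 989744)) (.sy 159375 (.sx 100000 (.aff 134000 2175799 344681) (.aff 0 1025712 974933)) (.sy 160937
 (.sx 100000 (.sx 50000 (.aff 125000 2214674 345706) (.aff 0 1600780 624696)) (.aff 0 1033299 967775)) (.sy
 161718 (.sx 100000 (.sx 50000 (.aff 125000 2222759 344449) (.aff 0 1606624 622424)) (.aff 0 1037072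
 964254)) (.sx 100000 (.sx 50000 (.aff 125000 2228136 343617) (.aff 0 1610511 620921)) (.aff 0 1039581
 961927)))))) (.sy 168750 (.sy 165625 (.sy 164062 (.sx 100000 (.sx 50000 (.aff 125000 2236176 342382) (.aff
 1000000 0 0)) (.aff 0 1043332 958468)) (.sy 164843 (.sx 100000 (.sx 50000 (.aff 125000 2244184 341160)
 (.aff 1000000 0 0)) (.aff 0 1047068 955048)) (.sy 165234 (.sx 100000 (.sx 50000 (.aff 125000 2248178
 340554) (.aff 1000000 0 0)) (.aff 0 1048932 953351)) (.sx 100000 (.sx 50000 (.aff 125000 2250840 340151)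
 (.aff 1000000 0 0)) (.aff 0 1050174 952224))))) (.sx 100000 (.sx 50000 (.aff 125000 2262768 338358) (.aff
 1000000 0 0)) (.aff 0 1055739 947204))) (.sy 171875 (.sy 170312 (.sx 100000 (.sx 50000 (.aff 137000 2247323
 331403) (.aff 1000000 0 0)) (.aff 0 1063112 940635)) (.sx 100000 (.sx 50000 (.aff 150000 2223647 324917)
 (.aff 1000000 0 0)) (.aff 0 1068000 936330))) (.sy 173437 (.sy 172656 (.sx 100000 (.sx 50000 (.aff 150000
 2231250 323810) (.aff 1000000 0 0)) (.aff 0 1071652 933139)) (.sx 100000 (.sx 50000 (.aff 150000 2236302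
 323079) (.aff 1000000 0 0)) (.aff 0 1074078 931032))) (.sy 174218 (.sx 100000 (.sx 50000 (.aff 150000
 2241343 322352) (.aff 1000000 0 0)) (.aff 0 1076499 928938)) (.sy 174609 (.sx 100000 (.sx 50000 (.aff
 150000 2245117 321810) (.aff 1000000 0 0)) (.aff 0 1078312 927376)) (.sy 174804 (.sy 174706 (.sx 100000
 (.sx 50000 (.aff 150000 2246687 321585) (.aff 1000000 0 0)) (.aff 0 1079066 926728)) (.sx 100000 (.sx 50000
 (.aff 150000 2247314 321495) (.aff 1000000 0 0)) (.aff 0 1079368 926469))) (.sx 100000 (.sx 50000 (.aff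
 150000 2248259 321360) (.aff 1000000 0 0)) (.aff 0 1079821 926080))))))))) (.sy 187500 (.sy 181250 (.sy
 178125 (.sy 176562 (.sx 100000 (.sx 50000 (.aff 150000 2253902 320556) (.aff 1000000 0 0)) (.aff 0 1082531
 923762)) (.sx 100000 (.sx 50000 (.aff 150000 2263897 319140) (.aff 1000000 0 0)) (.aff 0 1087332 919683)))
 (.sy 179687 (.sx 100000 (.sx 50000 (.aff 163000 2239072 312884) (.aff 1000000 0 0)) (.aff 0 1092112
 915658)) (.sx 100000 (.sx 50000 (.aff 162000 2251515 311899) (.aff 1000000 0 0)) (.aff 0 1096870 911686))))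
 (.sy 184375 (.sx 100000 (.sx 50000 (.aff 162000 2266089 309893) (.aff 1000000 0 0)) (.aff 0 1103971
 905821)) (.sy 185937 (.sx 100000 (.sx 50000 (.aff 175000 2245189 303149) (.aff 1000000 0 0)) (.aff 0
 1111024 900071)) (.sx 100000 (.sx 50000 (.aff 175000 2254643 301878) (.aff 1000000 0 0)) (.aff 0 1115702
 896297))))) (.sy 193750 (.sy 190625 (.sx 100000 (.sx 50000 (.aff 325000 2375320 191817) (.aff 1000000 0 0))
 (.aff 0 1229838 813116)) (.sy 192187 (.sy 191406 (.sx 100000 (.sx 50000 (.aff 337000 2465348 178299) (.aff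
 1000000 0 0)) (.aff 0 1236174 808948)) (.sx 100000 (.sx 50000 (.aff 357000 2456513 168308) (.aff 1000000 0
 0)) (.aff 0 1238698 807300))) (.sy 192968 (.sx 100000 (.sx 50000 (.aff 351000 2484478 169533) (.aff 1000000
 0 0)) (.aff 1000000 0 0)) (.sx 100000 (.sx 50000 (.aff 351000 2489514 169191) (.aff 1000000 0 0)) (.aff
 1000000 0 0))))) (.sy 196875 (.sy 195312 (.sy 194531 (.sx 100000 (.sx 50000 (.aff 363000 2448416 165728)
 (.aff 1000000 0 0)) (.aff 1000000 0 0)) (.sx 100000 (.aff 220000 2233119 272445) (.aff 1000000 0 0))) (.sy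
 196093 (.sx 100000 (.sx 50000 (.aff 375000 2472995 157957) (.aff 1000000 0 0)) (.aff 1000000 0 0)) (.sx
 100000 (.sx 50000 (.aff 375000 2477928 157642) (.aff 1000000 0 0)) (.aff 1000000 0 0)))) (.sy 198437 (.sx
 100000 (.aff 275000 2252955 233305) (.aff 1000000 0 0)) (.sy 199218 (.sx 100000 (.sx 50000 (.aff 375000
 2492662 156710) (.aff 1000000 0 0)) (.aff 1000000 0 0)) (.sx 100000 (.aff 210000 2232273 279581) (.aff
 1000000 0 0))))))), .pol, .pol, .sx 100000 .pol .pol, .pol⟩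

def hL130_40_5_3 : pcchk ⟨(nat_lit 1), (nat_lit 1000), Int.ofNat (nat_lit 400), 0, ⟨0, 1⟩, ⟨Int.ofNat
 (nat_lit 40), 200⟩⟩ ⟨650000, 700000, 821443, 806367, 836801, 569665, 592031, 548146, 591607, 547722⟩ false
 (nat_lit 150) (Int.ofNat (nat_lit 1449)) (nat_lit 200) (Int.ofNat (nat_lit 1849)) qL130_40_5_3 = true := by
 decide +kernel

def qL130_40_5_4 : PCt := .one ⟨2008000, 251, 803200, 65059, 24116, 0, 0, 200000, 200000, 250000⟩ ⟨0, .pol,
 .pol, .pol, .pol, .sy 225000 (.sy 212500 (.sy 206250 (.sy 203125 (.sy 201562 (.sy 200781 (.sx 100000 (.sx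
 50000 (.aff 375000 2502440 156098) (.aff 1000000 0 0)) (.aff 1000000 0 0)) (.sy 201171 (.sx 100000 (.sx
 50000 (.aff 375000 2506093 155871) (.aff 1000000 0 0)) (.aff 1000000 0 0)) (.sy 201366 (.sx 100000 (.sx
 50000 (.aff 375000 2507916 155757) (.aff 1000000 0 0)) (.aff 1000000 0 0)) (.sy 201464 (.sx 100000 (.sx
 50000 (.aff 375000 2508829 155701) (.aff 1000000 0 0)) (.aff 1000000 0 0)) (.sy 201513 (.sy 201488 (.sx
 100000 (.sx 50000 (.aff 375000 2509209 155677) (.aff 1000000 0 0)) (.aff 1000000 0 0)) (.sy 201500 (.sx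
 100000 (.sx 50000 (.aff 375000 2509321 155670) (.aff 1000000 0 0)) (.aff 1000000 0 0)) (.sy 201506 (.sy
 201503 (.sx 100000 (.sx 50000 (.aff 375000 2509367 155667) (.aff 1000000 0 0)) (.aff 1000000 0 0)) (.sy
 201504 (.sx 100000 (.sx 50000 (.aff 375000 2509380 155666) (.aff 1000000 0 0)) (.aff 1000000 0 0)) (.sy
 201505 (.sx 100000 (.sx 50000 (.aff 375000 2509386 155666) (.aff 1000000 0 0)) (.aff 1000000 0 0)) (.sx
 100000 (.sx 50000 (.aff 375000 2509392 155666) (.aff 1000000 0 0)) (.aff 1000000 0 0))))) (.sy 201509 (.sy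
 201507 (.sx 100000 (.sx 50000 (.aff 375000 2509398 155665) (.aff 1000000 0 0)) (.aff 1000000 0 0)) (.sx
 100000 (.sx 50000 (.aff 375000 2509408 155665) (.aff 1000000 0 0)) (.aff 1000000 0 0))) (.sx 100000 (.sx
 50000 (.aff 375000 2509426 155664) (.aff 1000000 0 0)) (.aff 1000000 0 0)))))) (.sy 201537 (.sy 201525 (.sx
 100000 (.sx 50000 (.aff 375000 2509476 155660) (.aff 1000000 0 0)) (.aff 1000000 0 0)) (.sx 100000 (.sx
 50000 (.aff 375000 2509551 155656) (.aff 1000000 0 0)) (.aff 1000000 0 0))) (.sx 100000 (.sx 50000 (.aff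
 375000 2509666 155649) (.aff 1000000 0 0)) (.aff 1000000 0 0)))))))) (.sy 202343 (.sx 100000 (.sx 50000
 (.aff 375000 2512174 155493) (.aff 1000000 0 0)) (.aff 1000000 0 0)) (.sx 100000 (.sx 50000 (.aff 375000
 2517030 155193) (.aff 1000000 0 0)) (.aff 1000000 0 0)))) (.sy 204687 (.sx 100000 (.sx 50000 (.aff 375000
 2524295 154747) (.aff 1000000 0 0)) (.aff 1000000 0 0)) (.sy 205468 (.sy 205077 (.sx 100000 (.sx 50000
 (.aff 375000 2530329 154378) (.aff 1000000 0 0)) (.aff 1000000 0 0)) (.sy 205272 (.sx 100000 (.sx 50000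
 (.aff 375000 2532135 154268) (.aff 1000000 0 0)) (.aff 1000000 0 0)) (.sx 100000 (.sx 50000 (.aff 375000
 2533341 154194) (.aff 1000000 0 0)) (.aff 1000000 0 0)))) (.sx 100000 (.sx 50000 (.aff 375000 2536355
 154011) (.aff 1000000 0 0)) (.aff 1000000 0 0))))) (.sy 209375 (.sy 207812 (.sy 207031 (.sx 100000 (.sx
 50000 (.aff 375000 2541165 153719) (.aff 1000000 0 0)) (.aff 1000000 0 0)) (.sx 100000 (.sx 50000 (.aff
 375000 2545962 153430) (.aff 1000000 0 0)) (.aff 1000000 0 0))) (.sy 208593 (.sx 100000 (.sx 50000 (.aff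
 375000 2550751 153142) (.aff 1000000 0 0)) (.aff 1000000 0 0)) (.sy 208984 (.sy 208788 (.sx 100000 (.sx
 50000 (.aff 375000 2553739 152962) (.aff 1000000 0 0)) (.aff 1000000 0 0)) (.sx 100000 (.sx 50000 (.aff
 375000 2554934 152891) (.aff 1000000 0 0)) (.aff 1000000 0 0))) (.sx 100000 (.sx 50000 (.aff 375000 2556729
 152784) (.aff 1000000 0 0)) (.aff 1000000 0 0))))) (.sy 210937 (.sy 210156 (.sx 100000 (.sx 50000 (.aff
 375000 2316662 168616) (.aff 1000000 0 0)) (.aff 1000000 0 0)) (.sy 210546 (.sx 100000 (.sx 50000 (.aff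
 375000 2319893 168381) (.aff 1000000 0 0)) (.aff 1000000 0 0)) (.sy 210741 (.sx 100000 (.sx 50000 (.aff
 375000 2321505 168264) (.aff 1000000 0 0)) (.aff 1000000 0 0)) (.sy 210839 (.sx 100000 (.sx 50000 (.aff
 375000 2322312 168206) (.aff 1000000 0 0)) (.aff 1000000 0 0)) (.sy 210888 (.sy 210863 (.sx 100000 (.sx
 50000 (.aff 375000 2322648 168181) (.aff 1000000 0 0)) (.aff 1000000 0 0)) (.sx 100000 (.sx 50000 (.aff
 375000 2322783 168172) (.aff 1000000 0 0)) (.aff 1000000 0 0))) (.sy 210912 (.sy 210900 (.sx 100000 (.sx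
 50000 (.aff 375000 2322885 168164) (.aff 1000000 0 0)) (.aff 1000000 0 0)) (.sy 210906 (.sy 210903 (.sx
 100000 (.sx 50000 (.aff 375000 2322927 168161) (.aff 1000000 0 0)) (.aff 1000000 0 0)) (.sy 210904 (.sx
 100000 (.sx 50000 (.aff 375000 2322938 168160) (.aff 1000000 0 0)) (.aff 1000000 0 0)) (.sy 210905 (.sx
 100000 (.sx 50000 (.aff 375000 2322943 168160) (.aff 1000000 0 0)) (.aff 1000000 0 0)) (.sx 100000 (.sx
 50000 (.aff 375000 2322949 168160) (.aff 1000000 0 0)) (.aff 1000000 0 0))))) (.sy 210909 (.sy 210907 (.sx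
 100000 (.sx 50000 (.aff 375000 2322954 168159) (.aff 1000000 0 0)) (.aff 1000000 0 0)) (.sx 100000 (.sx
 50000 (.aff 375000 2322962 168159) (.aff 1000000 0 0)) (.aff 1000000 0 0))) (.sx 100000 (.sx 50000 (.aff
 375000 2322976 168158) (.aff 1000000 0 0)) (.aff 1000000 0 0))))) (.sx 100000 (.sx 50000 (.aff 375000
 2323053 168152) (.aff 1000000 0 0)) (.aff 1000000 0 0)))))))) (.sy 211718 (.sx 100000 (.sx 50000 (.aff
 375000 2325271 167992) (.aff 1000000 0 0)) (.aff 1000000 0 0)) (.sy 212109 (.sx 100000 (.sx 50000 (.aff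
 375000 2328493 167759) (.aff 1000000 0 0)) (.aff 1000000 0 0)) (.sx 100000 (.sx 50000 (.aff 375000 2330640
 167605) (.aff 1000000 0 0)) (.aff 1000000 0 0))))))) (.sy 218750 (.sy 215625 (.sy 214062 (.sx 100000 (.sx
 50000 (.aff 375000 2335994 167221) (.aff 1000000 0 0)) (.aff 1000000 0 0)) (.sx 100000 (.sx 50000 (.aff
 400000 2487468 144726) (.aff 1000000 0 0)) (.aff 1000000 0 0))) (.sy 217187 (.sx 100000 (.sx 50000 (.aff
 400000 2496497 144203) (.aff 1000000 0 0)) (.aff 1000000 0 0)) (.sy 217968 (.sx 100000 (.sx 50000 (.aff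
 400000 2503245 143814) (.aff 1000000 0 0)) (.aff 1000000 0 0)) (.sx 100000 (.sx 50000 (.aff 400000 2507736
 143556) (.aff 1000000 0 0)) (.aff 1000000 0 0))))) (.sy 221875 (.sx 100000 (.sx 50000 (.aff 350000 2348734
 179885) (.aff 1000000 0 0)) (.aff 1000000 0 0)) (.sx 100000 (.sy 223437 (.sy 222656 (.sx 50000 (.aff 350000
 2359121 179093) (.aff 1000000 0 0)) (.sy 223046 (.sx 50000 (.sx 25000 (.aff 375000 2638957 148023) (.aff
 1000000 0 0)) (.aff 1000000 0 0)) (.sx 50000 (.sx 25000 (.aff 375000 2641269 147893) (.aff 1000000 0 0))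
 (.aff 1000000 0 0)))) (.sx 50000 (.sx 25000 (.aff 375000 2647042 147571) (.aff 1000000 0 0)) (.aff 1000000
 0 0))) (.aff 1000000 0 0))))) (.sx 100000 (.aff 413000 2381941 144659) (.aff 1000000 0 0)), .pol, .pol,
 .pol, .pol⟩

def hL130_40_5_4 : pcchk ⟨(nat_lit 1), (nat_lit 1000), Int.ofNat (nat_lit 400), 0, ⟨0, 1⟩, ⟨Int.ofNat
 (nat_lit 40), 200⟩⟩ ⟨650000, 700000, 821443, 806367, 836801, 569665, 592031, 548146, 591607, 547722⟩ false
 (nat_lit 200) (Int.ofNat (nat_lit 1849)) (nat_lit 250) (Int.ofNat (nat_lit 2011)) qL130_40_5_4 = true := by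
 decide +kernel

def qL130_40_5_5 : PCt := .one ⟨2008000, 251, 803200, -10844, 43091, 0, 0, 200000, 250000, 300000⟩ ⟨0, .pol,
 .pol, .pol, .pol, .sy 275000 (.sy 262500 (.sx 100000 (.aff 463000 2455013 117462) (.aff 1000000 0 0)) (.sx
 100000 (.sy 268750 (.sx 50000 (.aff 500000 2547294 98144) (.aff 1000000 0 0)) (.sx 50000 (.aff 525000
 2573757 87664) (.aff 1000000 0 0))) (.aff 1000000 0 0))) (.sx 100000 (.sx 50000 (.aff 625000 2682953 52415)
 (.aff 1000000 0 0)) (.aff 1000000 0 0)), .pol, .pol, .pol, .pol⟩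

def hL130_40_5_5 : pcchk ⟨(nat_lit 1), (nat_lit 1000), Int.ofNat (nat_lit 400), 0, ⟨0, 1⟩, ⟨Int.ofNat
 (nat_lit 40), 200⟩⟩ ⟨650000, 700000, 821443, 806367, 836801, 569665, 592031, 548146, 591607, 547722⟩ false
 (nat_lit 250) (Int.ofNat (nat_lit 2011)) (nat_lit 300) (Int.ofNat (nat_lit 1984)) qL130_40_5_5 = true := by
 decide +kernel

def qL130_40_5_6 : PCt := .one ⟨2008000, 251, 803200, -111244, 73211, 0, 0, 200000, 300000, 350000⟩ ⟨0,
 .pol, .pol, .pol, .pol, .sx 100000 (.sx 50000 (.sx 25000 (.aff 875000 2450227 6377) (.aff 1000000 0 0))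
 (.aff 1000000 0 0)) (.aff 1000000 0 0), .pol, .pol, .pol, .pol⟩

def hL130_40_5_6 : pcchk ⟨(nat_lit 1), (nat_lit 1000), Int.ofNat (nat_lit 400), 0, ⟨0, 1⟩, ⟨Int.ofNat
 (nat_lit 40), 200⟩⟩ ⟨650000, 700000, 821443, 806367, 836801, 569665, 592031, 548146, 591607, 547722⟩ false
 (nat_lit 300) (Int.ofNat (nat_lit 1984)) (nat_lit 350) (Int.ofNat (nat_lit 1707)) qL130_40_5_6 = true := by
 decide +kernel

def qL130_40_5_7 : PCt := .one ⟨2008000, 251, 803200, -198391, 103713, 0, 0, 200000, 350000, 400000⟩ ⟨0,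
 .pol, .pol, .pol, .pol, .sx 100000 (.sx 50000 (.sx 25000 (.sx 12500 (.aff 1100000 3141145 3184) (.aff
 1000000 0 0)) (.aff 1000000 0 0)) (.aff 1000000 0 0)) (.aff 1000000 0 0), .pol, .pol, .pol, .pol⟩

def hL130_40_5_7 : pcchk ⟨(nat_lit 1), (nat_lit 1000), Int.ofNat (nat_lit 400), 0, ⟨0, 1⟩, ⟨Int.ofNat
 (nat_lit 40), 200⟩⟩ ⟨650000, 700000, 821443, 806367, 836801, 569665, 592031, 548146, 591607, 547722⟩ false
 (nat_lit 350) (Int.ofNat (nat_lit 1707)) (nat_lit 400) (Int.ofNat (nat_lit 1213)) qL130_40_5_7 = true := by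
 decide +kernel

def qL130_40_5_8 : PCt := .one ⟨2008000, 251, 803200, -303208, 145640, 0, 0, 200000, 400000, 450000⟩ ⟨0,
 .pol, .pol, .pol, .pol, .sx 100000 (.sx 50000 (.sx 25000 (.sy 425000 (.aff 1363000 3426280 38459) (.sy
 437500 (.sx 12500 (.sx 6250 (.aff 1500000 4795832 52129) (.aff 1400000 2971869 53839)) (.aff 1000000 0 0))
 (.sx 12500 (.aff 1550000 3783958 79943) (.aff 1000000 0 0)))) (.aff 1000000 0 0)) (.aff 1000000 0 0)) (.aff
 1000000 0 0), .pol, .pol, .pol, .pol⟩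

def hL130_40_5_8 : pcchk ⟨(nat_lit 1), (nat_lit 1000), Int.ofNat (nat_lit 400), 0, ⟨0, 1⟩, ⟨Int.ofNat
 (nat_lit 40), 200⟩⟩ ⟨650000, 700000, 821443, 806367, 836801, 569665, 592031, 548146, 591607, 547722⟩ false
 (nat_lit 400) (Int.ofNat (nat_lit 1213)) (nat_lit 450) (Int.ofNat (nat_lit 458)) qL130_40_5_8 = true := by
 decide +kernel

def qL130_40_5_9 : PCt := .one ⟨2008000, 251, 803200, -391159, 185217, 0, 0, 200000, 450000, 500000⟩ ⟨0,
 .pol, .pol, .pol, .pol, .sx 100000 (.sy 475000 (.sx 50000 (.sx 25000 (.aff 1607000 3692237 99791) (.aff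
 1000000 0 0)) (.aff 1000000 0 0)) (.sx 50000 (.sy 487500 (.sy 481250 (.sx 25000 (.sx 12500 (.aff 2000000
 7141429 140028) (.aff 1700000 3872209 126543)) (.aff 1000000 0 0)) (.sx 25000 (.sx 12500 (.aff 2000000
 7187953 139122) (.sx 18750 (.aff 2000000 5308656 188372) (.aff 1500000 2352810 106256))) (.aff 1000000 0
 0))) (.sx 25000 (.aff 1925000 4110790 208142) (.aff 1000000 0 0))) (.aff 1000000 0 0))) (.aff 1000000 0 0),
 .pol, .pol, .pol, .pol⟩

def hL130_40_5_9 : pcchk ⟨(nat_lit 1), (nat_lit 1000), Int.ofNat (nat_lit 400), 0, ⟨0, 1⟩, ⟨Int.ofNat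
 (nat_lit 40), 200⟩⟩ ⟨650000, 700000, 821443, 806367, 836801, 569665, 592031, 548146, 591607, 547722⟩ false
 (nat_lit 450) (Int.ofNat (nat_lit 458)) (nat_lit 500) (Int.negSucc (nat_lit 515)) qL130_40_5_9 = true := by
 decide +kernel

def qL130_40_5_10 : PCt := .one ⟨2008000, 251, 803200, -500796, 240036, 0, 0, 200000, 500000, 550000⟩ ⟨0,
 .pol, .pol, .pol, .pol, .sx 100000 (.sx 50000 (.sx 25000 (.aff 2000000 4582576 218218) (.aff 1975000
 3996311 237876)) (.aff 1000000 0 0)) (.aff 1000000 0 0), .pol, .pol, .pol, .pol⟩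

def hL130_40_5_10 : pcchk ⟨(nat_lit 1), (nat_lit 1000), Int.ofNat (nat_lit 400), 0, ⟨0, 1⟩, ⟨Int.ofNat
 (nat_lit 40), 200⟩⟩ ⟨650000, 700000, 821443, 806367, 836801, 569665, 592031, 548146, 591607, 547722⟩ false
 (nat_lit 500) (Int.negSucc (nat_lit 515)) (nat_lit 550) (Int.negSucc (nat_lit 1762)) qL130_40_5_10 = true
 := by decide +kernel

def qL130_40_5_11 : PCt := .one ⟨2008000, 251, 803200, -597180, 293047, 0, 0, 200000, 550000, 600000⟩ ⟨0,
 .pol, .pol, .pol, .pol, .sy 575000 (.sx 100000 (.sx 50000 (.sy 562500 (.sx 25000 (.aff 2000000 4716991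
 212000) (.sx 37500 (.aff 3000000 8438010 474046) (.aff 2100000 4070344 297273))) (.aff 2350000 4553124
 400275)) (.aff 2100000 3647065 331774)) (.aff 1000000 0 0)) (.sx 100000 (.sx 50000 (.aff 3000000 6855655
 583460) (.sx 75000 (.aff 2300000 4201323 402255) (.aff 1000000 0 0))) (.aff 1000000 0 0)), .pol, .pol,
 .pol, .pol⟩

def hL130_40_5_11 : pcchk ⟨(nat_lit 1), (nat_lit 1000), Int.ofNat (nat_lit 400), 0, ⟨0, 1⟩, ⟨Int.ofNat
 (nat_lit 40), 200⟩⟩ ⟨650000, 700000, 821443, 806367, 836801, 569665, 592031, 548146, 591607, 547722⟩ false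
 (nat_lit 550) (Int.negSucc (nat_lit 1762)) (nat_lit 600) (Int.negSucc (nat_lit 3249)) qL130_40_5_11 = true
 := by decide +kernel

def qL130_40_5_12 : PCt := .one ⟨2008000, 251, 803200, -720872, 367263, 0, 0, 200000, 600000, 650000⟩ ⟨0,
 .pol, .pol, .pol, .pol, .sx 100000 (.sx 50000 (.aff 3000000 8164966 489898) (.sx 75000 (.aff 2700000
 4907478 588898) (.aff 2600000 4565663 560708))) (.aff 1000000 0 0), .pol, .aff 2800000 5496313 589487,
 .pol, .pol⟩

def hL130_40_5_12 : pcchk ⟨(nat_lit 1), (nat_lit 1000), Int.ofNat (nat_lit 400), 0, ⟨0, 1⟩, ⟨Int.ofNat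
 (nat_lit 40), 200⟩⟩ ⟨650000, 700000, 821443, 806367, 836801, 569665, 592031, 548146, 591607, 547722⟩ false
 (nat_lit 600) (Int.negSucc (nat_lit 3249)) (nat_lit 650) (Int.negSucc (nat_lit 5044)) qL130_40_5_12 = true
 := by decide +kernel

def qL130_40_5_13 : PCt := .one ⟨2008000, 251, 803200, -186343, 19818, 0, 0, 200000, 650000, 700000⟩ ⟨0,
 .pol, .pol, .pol, .pol, .sx 100000 (.aff 3000000 5196153 769801) (.aff 1000000 0 0), .pol, .sx 100000 (.aff
 5000000 10392305 1539601) (.aff 3788000 6478727 1199765), .pol, .pol⟩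

def hL130_40_5_13 : pcchk ⟨(nat_lit 1), (nat_lit 1000), Int.ofNat (nat_lit 400), 0, ⟨0, 1⟩, ⟨Int.ofNat
 (nat_lit 40), 200⟩⟩ ⟨650000, 700000, 821443, 806367, 836801, 569665, 592031, 548146, 591607, 547722⟩ false
 (nat_lit 650) (Int.negSucc (nat_lit 5044)) (nat_lit 700) (Int.negSucc (nat_lit 5508)) qL130_40_5_13 = true
 := by decide +kernel

def qL130_40_5_14 : PCt := .one ⟨2008000, 251, 803200, -141765, -11386, 0, 0, 200000, 700000, 750000⟩ ⟨0,
 .pol, .pol, .pol, .pol, .aff 1500000 1346292 185696, .pol, .sx 100000 (.aff 5000000 12436506 1286535) (.sx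
 150000 (.sx 125000 (.aff 5000000 9633276 1660910) (.aff 4050000 6875125 1353067)) (.aff 3950000 6231095
 1396625)), .pol, .pol⟩

def hL130_40_5_14 : pcchk ⟨(nat_lit 1), (nat_lit 1000), Int.ofNat (nat_lit 400), 0, ⟨0, 1⟩, ⟨Int.ofNat
 (nat_lit 40), 200⟩⟩ ⟨650000, 700000, 821443, 806367, 836801, 569665, 592031, 548146, 591607, 547722⟩ false
 (nat_lit 700) (Int.negSucc (nat_lit 5508)) (nat_lit 750) (Int.negSucc (nat_lit 5861)) qL130_40_5_14 = true
 := by decide +kernel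

def qL130_40_5_15 : PCt := .one ⟨2008000, 251, 803200, -219676, 47047, 0, 0, 200000, 750000, 800000⟩ ⟨0,
 .pol, .pol, .pol, .pol, .aff 1000000 0 0, .pol, .sx 100000 (.aff 5000000 12858202 1244342) (.sx 150000
 (.aff 5000000 9496411 1684848) (.sx 175000 (.aff 4600000 7575902 1710688) (.aff 4603000 7272061 1785135))),
 .pol, .pol⟩

def hL130_40_5_15 : pcchk ⟨(nat_lit 1), (nat_lit 1000), Int.ofNat (nat_lit 400), 0, ⟨0, 1⟩, ⟨Int.ofNat
 (nat_lit 40), 200⟩⟩ ⟨650000, 700000, 821443, 806367, 836801, 569665, 592031, 548146, 591607, 547722⟩ false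
 (nat_lit 750) (Int.negSucc (nat_lit 5861)) (nat_lit 800) (Int.negSucc (nat_lit 6408)) qL130_40_5_15 = true
 := by decide +kernel

def qL130_40_5_16 : PCt := .one ⟨2008000, 251, 803200, -9474146, 7450623, 0, 0, 200000, 800000, 850000⟩ ⟨0,
 .pol, .pol, .pol, .pol, .aff 1000000 0 0, .pol, .sx 100000 (.aff 20000000 77178365 4677477) (.inf 1876167
 533002), .sx 100000 (.inf 4062020 246183) (.inf 1876167 533002), .pol⟩

def hL130_40_5_16 : pcchk ⟨(nat_lit 1), (nat_lit 1000), Int.ofNat (nat_lit 400), 0, ⟨0, 1⟩, ⟨Int.ofNat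
 (nat_lit 40), 200⟩⟩ ⟨650000, 700000, 821443, 806367, 836801, 569665, 592031, 548146, 591607, 547722⟩ false
 (nat_lit 800) (Int.negSucc (nat_lit 6408)) (nat_lit 850) (Int.negSucc (nat_lit 29999)) qL130_40_5_16 = true
 := by decide +kernel

def qL130_40_5_17 : PCt := .one ⟨2008000, 251, 803200, 0, -602400, 0, 0, 200000, 850000, 900000⟩ ⟨0, .pol,
 .pol, .pol, .pol, .aff 1000000 0 0, .pol, .inf 2366432 422578, .inf 2366432 422578, .pol⟩

def hL130_40_5_17 : pcchk ⟨(nat_lit 1), (nat_lit 1000), Int.ofNat (nat_lit 400), 0, ⟨0, 1⟩, ⟨Int.ofNat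
 (nat_lit 40), 200⟩⟩ ⟨650000, 700000, 821443, 806367, 836801, 569665, 592031, 548146, 591607, 547722⟩ false
 (nat_lit 850) (Int.negSucc (nat_lit 29999)) (nat_lit 900) (Int.negSucc (nat_lit 29999)) qL130_40_5_17 =
 true := by decide +kernel

def qL130_40_5_18 : PCt := .one ⟨2008000, 251, 803200, 0, -602400, 0, 0, 200000, 900000, 950000⟩ ⟨0, .pol,
 .pol, .pol, .pol, .aff 1000000 0 0, .pol, .aff 35000000 84431432 13691584, .inf 3041382 328798, .pol⟩

def hL130_40_5_18 : pcchk ⟨(nat_lit 1), (nat_lit 1000), Int.ofNat (nat_lit 400), 0, ⟨0, 1⟩, ⟨Int.ofNat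
 (nat_lit 40), 200⟩⟩ ⟨650000, 700000, 821443, 806367, 836801, 569665, 592031, 548146, 591607, 547722⟩ false
 (nat_lit 900) (Int.negSucc (nat_lit 29999)) (nat_lit 950) (Int.negSucc (nat_lit 29999)) qL130_40_5_18 =
 true := by decide +kernel

def qL130_40_5_19 : PCt := .one ⟨2008000, 251, 803200, 0, -602400, 0, 0, 200000, 950000, 1000000⟩ ⟨0, .pol,
 .pol, .pol, .pol, .aff 1000000 0 0, .pol, .aff 20000000 48440686 7452414, .inf 3122499 320257, .pol⟩

def hL130_40_5_19 : pcchk ⟨(nat_lit 1), (nat_lit 1000), Int.ofNat (nat_lit 400), 0, ⟨0, 1⟩, ⟨Int.ofNat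
 (nat_lit 40), 200⟩⟩ ⟨650000, 700000, 821443, 806367, 836801, 569665, 592031, 548146, 591607, 547722⟩ false
 (nat_lit 950) (Int.negSucc (nat_lit 29999)) (nat_lit 1000) (Int.negSucc (nat_lit 29999)) qL130_40_5_19 =
 true := by decide +kernel

def qL130_40_6_0 : PCt := .one ⟨2008000, 251, 2008000, 80320, 0, 0, 0, 200000, 0, 50000⟩ ⟨25000, .sp 250000
 (.aff 6324556 158114) .pol, .pol, .pol, .pol, .pol, .aff 0 7544960 132539, .pol, .pol, .pol⟩

def hL130_40_6_0 : pcchk ⟨(nat_lit 1), (nat_lit 1000), Int.ofNat (nat_lit 1000), 0, ⟨0, 1⟩, ⟨Int.ofNat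
 (nat_lit 40), 200⟩⟩ ⟨650000, 700000, 821443, 806367, 836801, 569665, 592031, 548146, 591607, 547722⟩ true 0
 0 (nat_lit 50) (Int.ofNat (nat_lit 200)) qL130_40_6_0 = true := by decide +kernel

def qL130_40_6_1 : PCt := .one ⟨2008000, 251, 2008000, 108432, -1406, 0, 0, 200000, 50000, 100000⟩ ⟨0, .pol,
 .pol, .pol, .pol, .sx 100000 (.sy 75000 (.aff 0 7543192 132570) (.aff 0 7399272 135149)) .pol, .pol, .pol,
 .sx 100000 (.sx 50000 .pol .pol) .pol, .pol⟩

def hL130_40_6_1 : pcchk ⟨(nat_lit 1), (nat_lit 1000), Int.ofNat (nat_lit 1000), 0, ⟨0, 1⟩, ⟨Int.ofNat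
 (nat_lit 40), 200⟩⟩ ⟨650000, 700000, 821443, 806367, 836801, 569665, 592031, 548146, 591607, 547722⟩ false
 (nat_lit 50) (Int.ofNat (nat_lit 200)) (nat_lit 100) (Int.ofNat (nat_lit 470)) qL130_40_6_1 = true := by
 decide +kernel

def qL130_40_6_2 : PCt := .one ⟨2008000, 251, 2008000, 137347, -4298, 0, 0, 200000, 100000, 150000⟩ ⟨0,
 .pol, .pol, .pol, .pol, .sy 125000 (.aff 0 7383259 135442) (.aff 0 7248543 137959), .pol, .pol, .sx 100000
 .pol .pol, .pol⟩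

def hL130_40_6_2 : pcchk ⟨(nat_lit 1), (nat_lit 1000), Int.ofNat (nat_lit 1000), 0, ⟨0, 1⟩, ⟨Int.ofNat
 (nat_lit 40), 200⟩⟩ ⟨650000, 700000, 821443, 806367, 836801, 569665, 592031, 548146, 591607, 547722⟩ false
 (nat_lit 100) (Int.ofNat (nat_lit 470)) (nat_lit 150) (Int.ofNat (nat_lit 812)) qL130_40_6_2 = true := by
 decide +kernel

def qL130_40_6_3 : PCt := .one ⟨2008000, 251, 2008000, 166262, -8635, 0, 0, 200000, 150000, 200000⟩ ⟨0,
 .pol, .pol, .pol, .pol, .sy 175000 (.aff 0 7174819 139377) (.aff 0 7017296 142506), .pol, .pol, .sx 100000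
 .pol .pol, .pol⟩

def hL130_40_6_3 : pcchk ⟨(nat_lit 1), (nat_lit 1000), Int.ofNat (nat_lit 1000), 0, ⟨0, 1⟩, ⟨Int.ofNat
 (nat_lit 40), 200⟩⟩ ⟨650000, 700000, 821443, 806367, 836801, 569665, 592031, 548146, 591607, 547722⟩ false
 (nat_lit 150) (Int.ofNat (nat_lit 812)) (nat_lit 200) (Int.ofNat (nat_lit 1226)) qL130_40_6_3 = true := by
 decide +kernel

def qL130_40_6_4 : PCt := .one ⟨2008000, 251, 2008000, 194374, -14257, 0, 0, 200000, 200000, 250000⟩ ⟨0,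
 .pol, .pol, .pol, .pol, .sy 225000 (.aff 0 6974144 143387) (.aff 0 6883122 145283), .pol, .pol, .pol, .pol⟩

def hL130_40_6_4 : pcchk ⟨(nat_lit 1), (nat_lit 1000), Int.ofNat (nat_lit 1000), 0, ⟨0, 1⟩, ⟨Int.ofNat
 (nat_lit 40), 200⟩⟩ ⟨650000, 700000, 821443, 806367, 836801, 569665, 592031, 548146, 591607, 547722⟩ false
 (nat_lit 200) (Int.ofNat (nat_lit 1226)) (nat_lit 250) (Int.ofNat (nat_lit 1710)) qL130_40_6_4 = true := by
 decide +kernel

def qL130_40_6_5 : PCt := .one ⟨2008000, 251, 2008000, 56625, 20180, 0, 0, 200000, 250000, 300000⟩ ⟨0, .pol,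
 .pol, .pol, .pol, .sx 100000 (.sx 50000 (.sx 25000 (.sx 12500 (.sx 6250 (.sx 3125 (.sy 275000 (.sx 1562
 (.sy 262500 (.aff 0 14789749 67615) (.aff 438000 7371741 42846)) (.sy 262500 (.aff 375000 7159598 54560)
 (.aff 450000 6783102 44597))) (.aff 475000 7121447 38704)) (.aff 450000 4614759 65551)) (.aff 500000
 2708013 92319)) (.aff 1000000 0 0)) (.aff 0 2708013 369275)) (.aff 0 1914855 522233)) .pol, .pol, .pol,
 .pol, .pol⟩

def hL130_40_6_5 : pcchk ⟨(nat_lit 1), (nat_lit 1000), Int.ofNat (nat_lit 1000), 0, ⟨0, 1⟩, ⟨Int.ofNat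
 (nat_lit 40), 200⟩⟩ ⟨650000, 700000, 821443, 806367, 836801, 569665, 592031, 548146, 591607, 547722⟩ false
 (nat_lit 250) (Int.ofNat (nat_lit 1710)) (nat_lit 300) (Int.ofNat (nat_lit 1851)) qL130_40_6_5 = true := by
 decide +kernel

def qL130_40_6_6 : PCt := .one ⟨2008000, 251, 2008000, -43775, 50300, 0, 0, 200000, 300000, 350000⟩ ⟨0,
 .pol, .pol, .pol, .pol, .sx 100000 (.sx 50000 (.sx 25000 (.sy 325000 (.aff 625000 7207934 19510) (.sx 12500
 (.sx 6250 (.aff 700000 7269347 12381) (.aff 1000000 0 0)) (.aff 1000000 0 0))) (.aff 1000000 0 0)) (.aff 0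
 2081666 480385)) (.aff 0 1471961 679366), .pol, .pol, .pol, .pol⟩

def hL130_40_6_6 : pcchk ⟨(nat_lit 1), (nat_lit 1000), Int.ofNat (nat_lit 1000), 0, ⟨0, 1⟩, ⟨Int.ofNat
 (nat_lit 40), 200⟩⟩ ⟨650000, 700000, 821443, 806367, 836801, 569665, 592031, 548146, 591607, 547722⟩ false
 (nat_lit 300) (Int.ofNat (nat_lit 1851)) (nat_lit 350) (Int.ofNat (nat_lit 1742)) qL130_40_6_6 = true := by
 decide +kernel

def qL130_40_6_7 : PCt := .one ⟨2008000, 251, 2008000, -259032, 125640, 0, 0, 200000, 350000, 400000⟩ ⟨0,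
 .pol, .pol, .pol, .pol, .sx 100000 (.sx 50000 (.sx 25000 (.aff 1300000 7715255 11666) (.aff 1000000 0 0))
 (.aff 1000000 0 0)) (.aff 0 1581139 632456), .pol, .pol, .pol, .pol⟩

def hL130_40_6_7 : pcchk ⟨(nat_lit 1), (nat_lit 1000), Int.ofNat (nat_lit 1000), 0, ⟨0, 1⟩, ⟨Int.ofNat
 (nat_lit 40), 200⟩⟩ ⟨650000, 700000, 821443, 806367, 836801, 569665, 592031, 548146, 591607, 547722⟩ false
 (nat_lit 350) (Int.ofNat (nat_lit 1742)) (nat_lit 400) (Int.ofNat (nat_lit 1097)) qL130_40_6_7 = true := by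
 decide +kernel

def qL130_40_6_8 : PCt := .one ⟨2008000, 251, 2008000, -495575, 220257, 0, 0, 200000, 400000, 450000⟩ ⟨0,
 .pol, .pol, .pol, .pol, .sx 100000 (.sy 425000 (.sx 50000 (.sx 25000 (.aff 2050000 8530241 129247) (.aff
 1000000 0 0)) (.aff 1000000 0 0)) (.sx 50000 (.sx 25000 (.aff 2000000 8366601 119523) (.aff 1000000 0 0))
 (.aff 1000000 0 0))) (.aff 1000000 0 0), .pol, .pol, .pol, .pol⟩

def hL130_40_6_8 : pcchk ⟨(nat_lit 1), (nat_lit 1000), Int.ofNat (nat_lit 1000), 0, ⟨0, 1⟩, ⟨Int.ofNat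
 (nat_lit 40), 200⟩⟩ ⟨650000, 700000, 821443, 806367, 836801, 569665, 592031, 548146, 591607, 547722⟩ false
 (nat_lit 400) (Int.ofNat (nat_lit 1097)) (nat_lit 450) (Int.negSucc (nat_lit 136)) qL130_40_6_8 = true :=
 by decide +kernel

def qL130_40_6_9 : PCt := .one ⟨2008000, 251, 2008000, -687941, 306822, 0, 0, 200000, 450000, 500000⟩ ⟨0,
 .pol, .pol, .pol, .pol, .sx 100000 (.sx 50000 (.sy 475000 (.sx 25000 (.sx 12500 (.aff 2800000 10948973
 295919) (.aff 2600000 8704942 294086)) (.aff 1000000 0 0)) (.sx 25000 (.aff 2800000 9178236 353010) (.aff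
 1000000 0 0))) (.aff 1000000 0 0)) (.aff 1000000 0 0), .pol, .pol, .pol, .pol⟩

def hL130_40_6_9 : pcchk ⟨(nat_lit 1), (nat_lit 1000), Int.ofNat (nat_lit 1000), 0, ⟨0, 1⟩, ⟨Int.ofNat
 (nat_lit 40), 200⟩⟩ ⟨650000, 700000, 821443, 806367, 836801, 569665, 592031, 548146, 591607, 547722⟩ false
 (nat_lit 450) (Int.negSucc (nat_lit 136)) (nat_lit 500) (Int.negSucc (nat_lit 1849)) qL130_40_6_9 = true :=
 by decide +kernel

def qL130_40_6_10 : PCt := .one ⟨2008000, 251, 2008000, -924484, 425093, 0, 0, 200000, 500000, 550000⟩ ⟨0,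
 .pol, .pol, .pol, .pol, .sy 525000 (.sx 100000 (.sy 512500 (.aff 3025000 9112500 450000) (.sy 518750 (.sx
 50000 (.aff 3074000 9302016 462425) (.aff 1000000 0 0)) (.sx 50000 (.sx 25000 (.aff 5000000 21102923
 758189) (.aff 3300000 9399096 562821)) (.aff 1000000 0 0)))) (.aff 1000000 0 0)) (.sx 100000 (.sy 537500
 (.sy 531250 (.sx 50000 (.sx 25000 (.aff 5000000 21228912 753690) (.aff 3300000 9455211 559480)) (.aff
 1000000 0 0)) (.sx 50000 (.sx 25000 (.aff 5000000 21354157 749269) (.aff 3250000 9304233 544108)) (.aff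
 1000000 0 0))) (.sy 543750 (.sx 50000 (.sx 25000 (.aff 5000000 26305893 608229) (.aff 3225000 9254503
 534943)) (.aff 1000000 0 0)) (.sx 50000 (.sx 25000 (.aff 5000000 26457514 604744) (.aff 3224000 9188088
 538325)) (.aff 1000000 0 0)))) (.aff 1000000 0 0)), .pol, .pol, .pol, .pol⟩

def hL130_40_6_10 : pcchk ⟨(nat_lit 1), (nat_lit 1000), Int.ofNat (nat_lit 1000), 0, ⟨0, 1⟩, ⟨Int.ofNat
 (nat_lit 40), 200⟩⟩ ⟨650000, 700000, 821443, 806367, 836801, 569665, 592031, 548146, 591607, 547722⟩ false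
 (nat_lit 500) (Int.negSucc (nat_lit 1849)) (nat_lit 550) (Int.negSucc (nat_lit 4151)) qL130_40_6_10 = true
 := by decide +kernel

def qL130_40_6_11 : PCt := .one ⟨2008000, 251, 2008000, -1127693, 536858, 0, 0, 200000, 550000, 600000⟩ ⟨0,
 .pol, .pol, .pol, .pol, .sy 575000 (.sy 562500 (.sx 100000 (.sy 556250 (.sy 553125 (.sx 50000 (.sx 25000
 (.aff 5000000 26570661 602168) (.sx 37500 (.aff 5000000 16804762 952112) (.aff 3300000 8474782 624205)))
 (.aff 1000000 0 0)) (.sx 50000 (.aff 4100000 10325258 930728) (.aff 1000000 0 0))) (.sx 50000 (.aff 4100000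
 10368794 926820) (.aff 1000000 0 0))) (.aff 1000000 0 0)) (.sx 100000 (.sx 50000 (.aff 4100000 10455322
 919150) (.sx 75000 (.aff 4000000 10028488 897444) (.aff 1000000 0 0))) (.aff 1000000 0 0))) (.sy 587500
 (.sy 581250 (.sx 100000 (.sx 50000 (.aff 5000000 13601471 1176344) (.aff 3800000 9411490 833025)) (.aff
 1000000 0 0)) (.sx 100000 (.sx 50000 (.aff 5000000 13674795 1170036) (.aff 3850000 9631194 843354)) (.aff
 1000000 0 0))) (.sy 593750 (.sx 100000 (.sx 50000 (.aff 5000000 15874508 1007906) (.sx 75000 (.sx 62500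
 (.aff 4500000 10759299 1138551) (.aff 1000000 0 0)) (.aff 1000000 0 0))) (.aff 1000000 0 0)) (.sx 100000
 (.sx 50000 (.aff 5000000 15958279 1002615) (.sx 75000 (.sx 62500 (.aff 5000000 12361230 1294370) (.aff
 1500000 1473247 169694)) (.aff 1000000 0 0))) (.aff 1000000 0 0)))), .pol, .aff 5000000 13564660 1179536,
 .pol, .pol⟩

def hL130_40_6_11 : pcchk ⟨(nat_lit 1), (nat_lit 1000), Int.ofNat (nat_lit 1000), 0, ⟨0, 1⟩, ⟨Int.ofNat
 (nat_lit 40), 200⟩⟩ ⟨650000, 700000, 821443, 806367, 836801, 569665, 592031, 548146, 591607, 547722⟩ false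
 (nat_lit 550) (Int.negSucc (nat_lit 4151)) (nat_lit 600) (Int.negSucc (nat_lit 6959)) qL130_40_6_11 = true
 := by decide +kernel

def qL130_40_6_12 : PCt := .one ⟨2008000, 251, 2008000, -1385520, 691555, 0, 0, 200000, 600000, 650000⟩ ⟨0,
 .pol, .pol, .pol, .pol, .sx 100000 (.sx 50000 (.aff 5000000 16329932 979796) (.sx 75000 (.sy 625000 (.aff
 4800000 10859405 1329723) (.aff 5000000 11661904 1371989)) (.sy 625000 (.aff 4800000 10697501 1349848) (.sy
 637500 (.aff 4900000 10870603 1399187) (.aff 5000000 10849622 1474706))))) (.aff 1000000 0 0), .pol, .sx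
 100000 (.aff 8000000 20207260 2424872) .pol, .pol, .pol⟩

def hL130_40_6_12 : pcchk ⟨(nat_lit 1), (nat_lit 1000), Int.ofNat (nat_lit 1000), 0, ⟨0, 1⟩, ⟨Int.ofNat
 (nat_lit 40), 200⟩⟩ ⟨650000, 700000, 821443, 806367, 836801, 569665, 592031, 548146, 591607, 547722⟩ false
 (nat_lit 600) (Int.negSucc (nat_lit 6959)) (nat_lit 650) (Int.negSucc (nat_lit 10409)) qL130_40_6_12 = true
 := by decide +kernel

def qL130_40_6_13 : PCt := .one ⟨2008000, 251, 2008000, -975487, 425033, 0, 0, 200000, 650000, 700000⟩ ⟨0,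
 .pol, .pol, .pol, .pol, .sy 675000 (.sx 100000 (.sx 50000 (.aff 3000000 10295631 388515) (.aff 5000000
 11006492 1453688)) (.aff 1500000 1050794 237916)) (.aff 1500000 1854050 134840), .pol, .sx 100000 (.aff
 8000000 18186534 2694302) (.sx 150000 (.aff 8300000 17881276 2980213) .pol), .sx 100000 (.sx 50000 (.inf
 5196153 192451) .pol) .pol, .pol⟩

def hL130_40_6_13 : pcchk ⟨(nat_lit 1), (nat_lit 1000), Int.ofNat (nat_lit 1000), 0, ⟨0, 1⟩, ⟨Int.ofNat
 (nat_lit 40), 200⟩⟩ ⟨650000, 700000, 821443, 806367, 836801, 569665, 592031, 548146, 591607, 547722⟩ false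
 (nat_lit 650) (Int.negSucc (nat_lit 10409)) (nat_lit 700) (Int.negSucc (nat_lit 12838)) qL130_40_6_13 =
 true := by decide +kernel

def qL130_40_6_14 : PCt := .one ⟨2008000, 251, 2008000, -1075887, 495313, 0, 0, 200000, 700000, 750000⟩ ⟨0,
 .pol, .pol, .pol, .pol, .aff 1500000 1346292 185696, .pol, .sx 100000 (.aff 12000000 34200390 3537972) (.sx
 150000 (.sx 125000 (.aff 11600000 25528181 4401411) (.sx 137500 (.sy 725000 (.aff 9350000 19204571 3630516)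
 (.aff 12000000 26074984 4640464)) (.sy 725000 (.aff 9400000 18907777 3731798) (.aff 10100000 20177938
 4103988)))) (.sx 175000 (.aff 9450000 18662640 3825960) (.aff 1000000 0 0))), .sx 100000 (.inf 3046310
 328267) .pol, .pol⟩

def hL130_40_6_14 : pcchk ⟨(nat_lit 1), (nat_lit 1000), Int.ofNat (nat_lit 1000), 0, ⟨0, 1⟩, ⟨Int.ofNat
 (nat_lit 40), 200⟩⟩ ⟨650000, 700000, 821443, 806367, 836801, 569665, 592031, 548146, 591607, 547722⟩ false
 (nat_lit 700) (Int.negSucc (nat_lit 12838)) (nat_lit 750) (Int.negSucc (nat_lit 15517)) qL130_40_6_14 =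
 true := by decide +kernel

end CB
end Pool.Agent.Lib.MP_6947cd_al
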