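import Pool.Agent.Lib.MP_6947cd_al.L.PairSplit

/-!
Problem MP_6947cd_al (Chollet).  Library of pair functions: certificates of the pieces (generated).
-/

set_option autoImplicit false
set_option linter.defProp false
set_option maxRecDepth 100000

namespace Pool.Agent.Lib.MP_6947cd_al
namespace CB

open CA

def qL130_40_6_15 : PCt := .one ⟨2008000, 251, 2008000, -1338533, 692298, 0, 0, 200000, 750000, 800000⟩ ⟨0,
 .pol, .pol, .pol, .pol, .aff 1000000 0 0, .pol, .sx 100000 (.aff 12000000 35360053 3421941) (.sx 150000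
 (.aff 12000000 26115130 4633330) (.sx 175000 (.sy 775000 (.aff 11700000 22334935 5126051) (.aff 12000000
 24215380 4996825)) (.sy 775000 (.aff 11238000 21168583 4951520) (.aff 11700000 21707137 5274303)))), .sx
 100000 (.inf 3937004 254001) .pol, .pol⟩

def hL130_40_6_15 : pcchk ⟨(nat_lit 1), (nat_lit 1000), Int.ofNat (nat_lit 1000), 0, ⟨0, 1⟩, ⟨Int.ofNat
 (nat_lit 40), 200⟩⟩ ⟨650000, 700000, 821443, 806367, 836801, 569665, 592031, 548146, 591607, 547722⟩ false
 (nat_lit 750) (Int.negSucc (nat_lit 15517)) (nat_lit 800) (Int.negSucc (nat_lit 18850)) qL130_40_6_15 =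
 true := by decide +kernel

def qL130_40_6_16 : PCt := .one ⟨2008000, 251, 2008000, -4477439, 3203422, 0, 0, 200000, 800000, 850000⟩ ⟨0,
 .pol, .pol, .pol, .pol, .aff 1000000 0 0, .pol, .aff 35000000 69054327 16740443, .sx 100000 (.inf 4062020
 246183) (.inf 1876167 533002), .pol⟩

def hL130_40_6_16 : pcchk ⟨(nat_lit 1), (nat_lit 1000), Int.ofNat (nat_lit 1000), 0, ⟨0, 1⟩, ⟨Int.ofNat
 (nat_lit 40), 200⟩⟩ ⟨650000, 700000, 821443, 806367, 836801, 569665, 592031, 548146, 591607, 547722⟩ false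
 (nat_lit 800) (Int.negSucc (nat_lit 18850)) (nat_lit 850) (Int.negSucc (nat_lit 29999)) qL130_40_6_16 =
 true := by decide +kernel

def qL130_40_6_17 : PCt := .one ⟨2008000, 251, 2008000, 0, -602400, 0, 0, 200000, 850000, 900000⟩ ⟨0, .pol,
 .pol, .pol, .pol, .aff 1000000 0 0, .pol, .aff 35000000 82117802 14077338, .inf 2366432 422578, .pol⟩

def hL130_40_6_17 : pcchk ⟨(nat_lit 1), (nat_lit 1000), Int.ofNat (nat_lit 1000), 0, ⟨0, 1⟩, ⟨Int.ofNat
 (nat_lit 40), 200⟩⟩ ⟨650000, 700000, 821443, 806367, 836801, 569665, 592031, 548146, 591607, 547722⟩ false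
 (nat_lit 850) (Int.negSucc (nat_lit 29999)) (nat_lit 900) (Int.negSucc (nat_lit 29999)) qL130_40_6_17 =
 true := by decide +kernel

def qL130_40_6_18 : PCt := .one ⟨2008000, 251, 2008000, 0, -602400, 0, 0, 200000, 900000, 950000⟩ ⟨0, .pol,
 .pol, .pol, .pol, .aff 1000000 0 0, .pol, .aff 20000000 47182271 7651179, .inf 3041382 328798, .pol⟩

def hL130_40_6_18 : pcchk ⟨(nat_lit 1), (nat_lit 1000), Int.ofNat (nat_lit 1000), 0, ⟨0, 1⟩, ⟨Int.ofNat
 (nat_lit 40), 200⟩⟩ ⟨650000, 700000, 821443, 806367, 836801, 569665, 592031, 548146, 591607, 547722⟩ false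
 (nat_lit 900) (Int.negSucc (nat_lit 29999)) (nat_lit 950) (Int.negSucc (nat_lit 29999)) qL130_40_6_18 =
 true := by decide +kernel

def qL130_40_6_19 : PCt := .one ⟨2008000, 251, 2008000, 0, -602400, 0, 0, 200000, 950000, 1000000⟩ ⟨0, .pol,
 .pol, .pol, .pol, .aff 1000000 0 0, .pol, .aff 12000000 28044608 4314555, .inf 3122499 320257, .pol⟩

def hL130_40_6_19 : pcchk ⟨(nat_lit 1), (nat_lit 1000), Int.ofNat (nat_lit 1000), 0, ⟨0, 1⟩, ⟨Int.ofNat
 (nat_lit 40), 200⟩⟩ ⟨650000, 700000, 821443, 806367, 836801, 569665, 592031, 548146, 591607, 547722⟩ false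
 (nat_lit 950) (Int.negSucc (nat_lit 29999)) (nat_lit 1000) (Int.negSucc (nat_lit 29999)) qL130_40_6_19 =
 true := by decide +kernel

end CB
end Pool.Agent.Lib.MP_6947cd_al
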