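import Pool.Agent.Lib.MP_6947cd_al.L.PairSplit

/-!
Problem MP_6947cd_al (Chollet).  Library of pair functions: certificates of the pieces (generated).
-/

set_option autoImplicit false
set_option linter.defProp false
set_option maxRecDepth 100000

namespace Pool.Agent.Lib.MP_6947cd_al
namespace CB

open CA

def qL130_60_0_0 : PCt := .one ⟨2008000, 251, 502000, 1883905, 0, 0, 0, 300000, 0, 50000⟩ ⟨50000, .pol,
 .pol, .pol, .pol, .aff 0 71187 14047509, .pol, .pol, .pol, .pol⟩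

def hL130_60_0_0 : pcchk ⟨(nat_lit 3), (nat_lit 1000), Int.ofNat (nat_lit 250), 0, ⟨0, 1⟩, ⟨Int.ofNat
 (nat_lit 60), 200⟩⟩ ⟨650000, 700000, 821443, 806367, 836801, 569665, 592031, 548146, 591607, 547722⟩ true 0
 0 (nat_lit 50) (Int.ofNat (nat_lit 4691)) qL130_60_0_0 = true := by decide +kernel

def qL130_60_0_1 : PCt := .one ⟨2008000, 251, 502000, -1107613, 149575, 0, 0, 300000, 50000, 100000⟩ ⟨0,
 .pol, .pol, .pol, .pol, .sy 75000 .pol (.sy 87500 (.aff 500000 367991 679365) (.sy 93750 (.aff 500000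
 549622 454859) (.sy 96875 (.sx 150000 (.aff 0 920447 1086429) (.aff 1000000 0 0)) (.sy 98437 (.sx 150000
 (.aff 125000 815233 939149) (.aff 1000000 0 0)) (.sy 99218 (.sy 98827 (.sx 150000 (.sx 75000 (.aff 0
 1621786 616605) (.aff 500000 468170 533995)) (.aff 1000000 0 0)) (.sx 150000 (.sx 75000 (.aff 0 1624993
 615388) (.aff 500000 513868 486507)) (.aff 1000000 0 0))) (.sy 99609 (.sx 150000 (.sx 75000 (.aff 0 1329418
 752209) (.aff 250000 705031 797838)) (.aff 1000000 0 0)) (.sx 150000 (.sy 99804 (.sx 75000 (.aff 0 1331376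
 751103) (.sx 112500 (.aff 250000 773460 727252) (.aff 1000000 0 0))) (.sx 75000 (.aff 0 1332680 750368)
 (.sx 112500 (.aff 250000 774218 726540) (.aff 1000000 0 0)))) (.aff 1000000 0 0)))))))), .pol, .pol, .sy
 75000 .pol (.sy 87500 .pol (.sx 150000 (.sx 75000 .pol .pol) .pol)), .pol⟩

def hL130_60_0_1 : pcchk ⟨(nat_lit 3), (nat_lit 1000), Int.ofNat (nat_lit 250), 0, ⟨0, 1⟩, ⟨Int.ofNat
 (nat_lit 60), 200⟩⟩ ⟨650000, 700000, 821443, 806367, 836801, 569665, 592031, 548146, 591607, 547722⟩ false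
 (nat_lit 50) (Int.ofNat (nat_lit 4691)) (nat_lit 100) (Int.ofNat (nat_lit 1933)) qL130_60_0_1 = true := by
 decide +kernel

def qL130_60_0_2 : PCt := .one ⟨2008000, 251, 502000, 335336, 5281, 0, 0, 300000, 100000, 150000⟩ ⟨0, .pol,
 .pol, .pol, .pol, .sy 125000 (.sx 150000 (.sy 112500 (.sx 75000 (.aff 125000 1202573 636656) (.sx 112500
 (.aff 250000 798436 704503) (.aff 1000000 0 0))) (.sx 75000 (.sy 118750 (.aff 138000 1097388 677103) (.aff
 200000 1127058 567851)) (.aff 375000 777394 502481))) (.aff 1000000 0 0)) (.sx 150000 (.sx 75000 (.sx 37500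
 (.aff 0 2211084 452267) (.aff 275000 1076000 488500)) (.aff 1000000 0 0)) (.aff 1000000 0 0)), .pol, .pol,
 .sy 125000 (.sx 150000 (.sx 75000 .pol .pol) .pol) (.sx 150000 (.sx 75000 .pol .pol) .pol), .pol⟩

def hL130_60_0_2 : pcchk ⟨(nat_lit 3), (nat_lit 1000), Int.ofNat (nat_lit 250), 0, ⟨0, 1⟩, ⟨Int.ofNat
 (nat_lit 60), 200⟩⟩ ⟨650000, 700000, 821443, 806367, 836801, 569665, 592031, 548146, 591607, 547722⟩ false
 (nat_lit 100) (Int.ofNat (nat_lit 1933)) (nat_lit 150) (Int.ofNat (nat_lit 2768)) qL130_60_0_2 = true := by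
 decide +kernel

def qL130_60_0_3 : PCt := .one ⟨2008000, 251, 502000, 324894, 6847, 0, 0, 300000, 150000, 200000⟩ ⟨0, .pol,
 .pol, .pol, .pol, .sy 175000 (.sx 150000 (.sy 162500 (.sx 75000 (.sx 37500 (.aff 250000 1767767 318199)
 (.aff 350000 1186733 356020)) (.aff 1000000 0 0)) (.sx 75000 (.sx 37500 (.aff 250000 1590991 353554) (.aff
 375000 1185855 329404)) (.aff 1000000 0 0))) (.aff 1000000 0 0)) (.sx 150000 (.sy 187500 (.sx 75000 (.sx
 37500 (.aff 375000 1586620 246200) (.aff 500000 983193 254274)) (.aff 1000000 0 0)) (.sx 75000 (.sx 37500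
 (.aff 375000 1640419 238126) (.aff 1000000 0 0)) (.aff 1000000 0 0))) (.aff 1000000 0 0)), .pol, .pol, .sx
 150000 .pol .pol, .pol⟩

def hL130_60_0_3 : pcchk ⟨(nat_lit 3), (nat_lit 1000), Int.ofNat (nat_lit 250), 0, ⟨0, 1⟩, ⟨Int.ofNat
 (nat_lit 60), 200⟩⟩ ⟨650000, 700000, 821443, 806367, 836801, 569665, 592031, 548146, 591607, 547722⟩ false
 (nat_lit 150) (Int.ofNat (nat_lit 2768)) (nat_lit 200) (Int.ofNat (nat_lit 3577)) qL130_60_0_3 = true := by
 decide +kernel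

def qL130_60_0_4 : PCt := .one ⟨2008000, 251, 502000, 308027, 10220, 0, 0, 300000, 200000, 250000⟩ ⟨0, .pol,
 .pol, .pol, .pol, .sx 150000 (.sy 225000 (.sy 212500 (.sx 75000 (.sx 37500 (.aff 500000 1577436 158486)
 (.aff 1000000 0 0)) (.aff 1000000 0 0)) (.sy 218750 (.sx 75000 (.sx 37500 (.aff 462000 1570316 184323)
 (.aff 1000000 0 0)) (.aff 1000000 0 0)) (.sx 75000 (.sx 37500 (.aff 550000 1647819 122890) (.aff 1000000 0
 0)) (.aff 1000000 0 0)))) (.sy 237500 (.sy 231250 (.sx 75000 (.sx 37500 (.aff 538000 1611491 132452) (.aff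
 1000000 0 0)) (.aff 1000000 0 0)) (.sx 75000 (.sx 37500 (.aff 550000 1672563 121072) (.aff 1000000 0 0))
 (.aff 1000000 0 0))) (.sy 243750 (.sx 75000 (.sx 37500 (.aff 550000 1606550 126047) (.aff 1000000 0 0))
 (.aff 1000000 0 0)) (.sx 75000 (.sx 37500 (.aff 625000 1741225 80763) (.aff 1000000 0 0)) (.aff 1000000 0
 0))))) (.aff 1000000 0 0), .pol, .pol, .sx 150000 .pol .pol, .pol⟩

def hL130_60_0_4 : pcchk ⟨(nat_lit 3), (nat_lit 1000), Int.ofNat (nat_lit 250), 0, ⟨0, 1⟩, ⟨Int.ofNat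
 (nat_lit 60), 200⟩⟩ ⟨650000, 700000, 821443, 806367, 836801, 569665, 592031, 548146, 591607, 547722⟩ false
 (nat_lit 200) (Int.ofNat (nat_lit 3577)) (nat_lit 250) (Int.ofNat (nat_lit 4344)) qL130_60_0_4 = true := by
 decide +kernel

def qL130_60_0_5 : PCt := .one ⟨2008000, 251, 502000, 291561, 14337, 0, 0, 300000, 250000, 300000⟩ ⟨0, .pol,
 .pol, .pol, .pol, .sx 150000 (.sy 275000 (.sy 262500 (.sy 256250 (.sy 253125 (.sx 75000 (.sx 37500 (.aff
 600000 1619242 98812) (.aff 1000000 0 0)) (.aff 1000000 0 0)) (.sx 75000 (.sx 37500 (.aff 625000 1688082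
 83305) (.aff 1000000 0 0)) (.aff 1000000 0 0))) (.sy 259375 (.sx 75000 (.sx 37500 (.aff 625000 1698406
 82799) (.aff 1000000 0 0)) (.aff 1000000 0 0)) (.sx 75000 (.sx 37500 (.aff 700000 1749176 51453) (.aff
 1000000 0 0)) (.aff 1000000 0 0)))) (.sy 268750 (.sy 265625 (.sx 75000 (.sx 37500 (.aff 700000 1759619
 51148) (.aff 1000000 0 0)) (.aff 1000000 0 0)) (.sx 75000 (.sx 37500 (.aff 650000 1690679 72457) (.aff
 1000000 0 0)) (.aff 1000000 0 0))) (.sy 271875 (.sx 75000 (.sx 37500 (.aff 650000 1700537 72037) (.aff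
 1000000 0 0)) (.aff 1000000 0 0)) (.sx 75000 (.sx 37500 (.aff 750000 1822518 34294) (.aff 1000000 0 0))
 (.aff 1000000 0 0))))) (.sx 75000 (.aff 750000 1696760 36835) (.aff 1000000 0 0))) (.aff 1000000 0 0),
 .pol, .pol, .sx 150000 .pol .pol, .pol⟩

def hL130_60_0_5 : pcchk ⟨(nat_lit 3), (nat_lit 1000), Int.ofNat (nat_lit 250), 0, ⟨0, 1⟩, ⟨Int.ofNat
 (nat_lit 60), 200⟩⟩ ⟨650000, 700000, 821443, 806367, 836801, 569665, 592031, 548146, 591607, 547722⟩ false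
 (nat_lit 250) (Int.ofNat (nat_lit 4344)) (nat_lit 300) (Int.ofNat (nat_lit 5070)) qL130_60_0_5 = true := by
 decide +kernel

def qL130_60_0_6 : PCt := .one ⟨2008000, 251, 502000, 271080, 20481, 0, 0, 300000, 300000, 350000⟩ ⟨0, .pol,
 .pol, .pol, .pol, .sx 150000 (.sx 75000 (.sx 37500 (.sx 18750 (.aff 925000 1536022 3663) (.aff 1000000 0
 0)) (.aff 1000000 0 0)) (.aff 1000000 0 0)) (.aff 1000000 0 0), .pol, .pol, .pol, .pol⟩

def hL130_60_0_6 : pcchk ⟨(nat_lit 3), (nat_lit 1000), Int.ofNat (nat_lit 250), 0, ⟨0, 1⟩, ⟨Int.ofNat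
 (nat_lit 60), 200⟩⟩ ⟨650000, 700000, 821443, 806367, 836801, 569665, 592031, 548146, 591607, 547722⟩ false
 (nat_lit 300) (Int.ofNat (nat_lit 5070)) (nat_lit 350) (Int.ofNat (nat_lit 5745)) qL130_60_0_6 = true := by
 decide +kernel

def qL130_60_0_7 : PCt := .one ⟨2008000, 251, 502000, 254614, 26244, 0, 0, 300000, 350000, 400000⟩ ⟨0, .pol,
 .pol, .pol, .pol, .sx 150000 (.sx 75000 (.sx 37500 (.sx 18750 (.sx 9375 (.aff 1100000 1629753 6136) (.aff
 1000000 0 0)) (.aff 1000000 0 0)) (.aff 1000000 0 0)) (.aff 1000000 0 0)) (.aff 1000000 0 0), .pol, .pol,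
 .pol, .pol⟩

def hL130_60_0_7 : pcchk ⟨(nat_lit 3), (nat_lit 1000), Int.ofNat (nat_lit 250), 0, ⟨0, 1⟩, ⟨Int.ofNat
 (nat_lit 60), 200⟩⟩ ⟨650000, 700000, 821443, 806367, 836801, 569665, 592031, 548146, 591607, 547722⟩ false
 (nat_lit 350) (Int.ofNat (nat_lit 5745)) (nat_lit 400) (Int.ofNat (nat_lit 6379)) qL130_60_0_7 = true := by
 decide +kernel

def qL130_60_0_8 : PCt := .one ⟨2008000, 251, 502000, 233329, 34758, 0, 0, 300000, 400000, 450000⟩ ⟨0, .pol,
 .pol, .pol, .pol, .sx 150000 (.sx 75000 (.aff 1300000 2384466 37745) (.aff 1000000 0 0)) (.aff 1000000 0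
 0), .pol, .pol, .pol, .pol⟩

def hL130_60_0_8 : pcchk ⟨(nat_lit 3), (nat_lit 1000), Int.ofNat (nat_lit 250), 0, ⟨0, 1⟩, ⟨Int.ofNat
 (nat_lit 60), 200⟩⟩ ⟨650000, 700000, 821443, 806367, 836801, 569665, 592031, 548146, 591607, 547722⟩ false
 (nat_lit 400) (Int.ofNat (nat_lit 6379)) (nat_lit 450) (Int.ofNat (nat_lit 6960)) qL130_60_0_8 = true := by
 decide +kernel

def qL130_60_0_9 : PCt := .one ⟨2008000, 251, 502000, 213651, 43613, 0, 0, 300000, 450000, 500000⟩ ⟨0, .pol,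
 .pol, .pol, .pol, .sx 150000 (.sx 75000 (.sy 475000 (.sx 37500 (.sx 18750 (.aff 1500000 2867442 87186)
 (.aff 1000000 0 0)) (.aff 1000000 0 0)) (.sx 37500 (.aff 1550000 2804461 107864) (.aff 1000000 0 0))) (.aff
 1000000 0 0)) (.aff 1000000 0 0), .pol, .pol, .pol, .pol⟩

def hL130_60_0_9 : pcchk ⟨(nat_lit 3), (nat_lit 1000), Int.ofNat (nat_lit 250), 0, ⟨0, 1⟩, ⟨Int.ofNat
 (nat_lit 60), 200⟩⟩ ⟨650000, 700000, 821443, 806367, 836801, 569665, 592031, 548146, 591607, 547722⟩ false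
 (nat_lit 450) (Int.ofNat (nat_lit 6960)) (nat_lit 500) (Int.ofNat (nat_lit 7492)) qL130_60_0_9 = true := by
 decide +kernel

def qL130_60_0_10 : PCt := .one ⟨2008000, 251, 502000, 190358, 55260, 0, 0, 300000, 500000, 550000⟩ ⟨0,
 .pol, .pol, .pol, .pol, .sx 150000 (.sy 525000 (.sx 75000 (.sy 512500 (.sy 506250 (.sx 37500 (.aff 1525000
 2719548 101350) (.aff 1000000 0 0)) (.sx 37500 (.sx 18750 (.aff 2000000 6018491 166155) (.aff 1600000
 2797142 128703)) (.aff 1000000 0 0))) (.sy 518750 (.sx 37500 (.sx 18750 (.aff 2000000 7416199 134840) (.aff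
 1600000 2814250 127921)) (.aff 1000000 0 0)) (.sx 37500 (.sx 18750 (.aff 2000000 7461010 134031) (.aff
 1600000 2831255 127153)) (.aff 1000000 0 0)))) (.aff 1000000 0 0)) (.sx 75000 (.sx 37500 (.aff 1850000
 3218049 224515) (.aff 1600000 2031749 177188)) (.aff 1000000 0 0))) (.aff 1000000 0 0), .pol, .pol, .pol,
 .pol⟩

def hL130_60_0_10 : pcchk ⟨(nat_lit 3), (nat_lit 1000), Int.ofNat (nat_lit 250), 0, ⟨0, 1⟩, ⟨Int.ofNat
 (nat_lit 60), 200⟩⟩ ⟨650000, 700000, 821443, 806367, 836801, 569665, 592031, 548146, 591607, 547722⟩ false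
 (nat_lit 500) (Int.ofNat (nat_lit 7492)) (nat_lit 550) (Int.ofNat (nat_lit 7966)) qL130_60_0_10 = true :=
 by decide +kernel

def qL130_60_0_11 : PCt := .one ⟨2008000, 251, 502000, 168672, 67187, 0, 0, 300000, 550000, 600000⟩ ⟨0,
 .pol, .pol, .pol, .pol, .sx 150000 (.sx 75000 (.sx 37500 (.aff 2000000 4521554 221163) (.sx 56250 (.aff
 1976000 3159739 301474) (.aff 1900000 2764612 292989))) (.aff 1000000 0 0)) (.aff 1000000 0 0), .pol, .pol,
 .pol, .pol⟩

def hL130_60_0_11 : pcchk ⟨(nat_lit 3), (nat_lit 1000), Int.ofNat (nat_lit 250), 0, ⟨0, 1⟩, ⟨Int.ofNat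
 (nat_lit 60), 200⟩⟩ ⟨650000, 700000, 821443, 806367, 836801, 569665, 592031, 548146, 591607, 547722⟩ false
 (nat_lit 550) (Int.ofNat (nat_lit 7966)) (nat_lit 600) (Int.ofNat (nat_lit 8386)) qL130_60_0_11 = true :=
 by decide +kernel

def qL130_60_0_12 : PCt := .one ⟨2008000, 251, 502000, 142969, 82609, 0, 0, 300000, 600000, 650000⟩ ⟨0,
 .pol, .pol, .pol, .pol, .sx 150000 (.sx 75000 (.aff 2075000 3408573 339035) (.aff 2163000 3078871 439307))
 (.aff 1000000 0 0), .pol, .pol, .pol, .pol⟩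

def hL130_60_0_12 : pcchk ⟨(nat_lit 3), (nat_lit 1000), Int.ofNat (nat_lit 250), 0, ⟨0, 1⟩, ⟨Int.ofNat
 (nat_lit 60), 200⟩⟩ ⟨650000, 700000, 821443, 806367, 836801, 569665, 592031, 548146, 591607, 547722⟩ false
 (nat_lit 600) (Int.ofNat (nat_lit 8386)) (nat_lit 650) (Int.ofNat (nat_lit 8742)) qL130_60_0_12 = true :=
 by decide +kernel

def qL130_60_0_13 : PCt := .one ⟨2008000, 251, 502000, 118873, 98271, 0, 0, 300000, 650000, 700000⟩ ⟨0,
 .pol, .pol, .pol, .pol, .sy 675000 (.sx 150000 (.sx 75000 (.aff 3000000 6863754 582772) (.sy 662500 (.sx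
 112500 (.aff 2125000 3137476 403390) (.aff 1000000 0 0)) (.sx 112500 (.sx 93750 (.aff 3000000 5630605
 710404) (.aff 2200000 3127756 460394)) (.aff 1500000 1128632 221508)))) (.aff 1000000 0 0)) (.sy 687500
 (.sx 150000 (.sx 75000 (.aff 3000000 6960205 574696) (.sx 112500 (.aff 2600000 3937287 650194) (.aff
 2000000 2278262 438932))) (.aff 1000000 0 0)) (.sx 150000 (.sx 75000 (.aff 3000000 7023770 569495) (.sx
 112500 (.aff 3000000 5187398 771100) (.aff 2200000 2863027 502965))) (.aff 1000000 0 0))), .pol, .pol,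
 .pol, .pol⟩

def hL130_60_0_13 : pcchk ⟨(nat_lit 3), (nat_lit 1000), Int.ofNat (nat_lit 250), 0, ⟨0, 1⟩, ⟨Int.ofNat
 (nat_lit 60), 200⟩⟩ ⟨650000, 700000, 821443, 806367, 836801, 569665, 592031, 548146, 591607, 547722⟩ false
 (nat_lit 650) (Int.ofNat (nat_lit 8742)) (nat_lit 700) (Int.ofNat (nat_lit 9038)) qL130_60_0_13 = true :=
 by decide +kernel

def qL130_60_0_14 : PCt := .one ⟨2008000, 251, 502000, 90360, 118231, 0, 0, 300000, 700000, 750000⟩ ⟨0,
 .pol, .pol, .pol, .pol, .sx 150000 (.sx 75000 (.aff 3000000 7180220 557086) (.sx 112500 (.aff 3000000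
 5561775 719195) (.sx 131250 (.aff 2700000 3995474 723319) (.aff 2600000 3517575 727775)))) (.sx 225000
 (.aff 2550000 3212764 747799) (.aff 1000000 0 0)), .pol, .pol, .pol, .pol⟩

def hL130_60_0_14 : pcchk ⟨(nat_lit 3), (nat_lit 1000), Int.ofNat (nat_lit 250), 0, ⟨0, 1⟩, ⟨Int.ofNat
 (nat_lit 60), 200⟩⟩ ⟨650000, 700000, 821443, 806367, 836801, 569665, 592031, 548146, 591607, 547722⟩ false
 (nat_lit 700) (Int.ofNat (nat_lit 9038)) (nat_lit 750) (Int.ofNat (nat_lit 9263)) qL130_60_0_14 = true :=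
 by decide +kernel

def qL130_60_0_15 : PCt := .one ⟨2008000, 251, 502000, 61444, 139917, 0, 0, 300000, 750000, 800000⟩ ⟨0,
 .pol, .pol, .pol, .pol, .sx 150000 (.aff 3000000 4546061 879883) (.sx 225000 (.sx 187500 (.aff 2800000
 3659509 885365) (.aff 2800000 3587473 903143)) (.aff 2200000 2139734 672981)), .pol, .pol, .pol, .pol⟩

def hL130_60_0_15 : pcchk ⟨(nat_lit 3), (nat_lit 1000), Int.ofNat (nat_lit 250), 0, ⟨0, 1⟩, ⟨Int.ofNat
 (nat_lit 60), 200⟩⟩ ⟨650000, 700000, 821443, 806367, 836801, 569665, 592031, 548146, 591607, 547722⟩ false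
 (nat_lit 750) (Int.ofNat (nat_lit 9263)) (nat_lit 800) (Int.ofNat (nat_lit 9416)) qL130_60_0_15 = true :=
 by decide +kernel

def qL130_60_0_16 : PCt := .one ⟨2008000, 251, 502000, 26907, 167547, 0, 0, 300000, 800000, 850000⟩ ⟨0,
 .pol, .pol, .pol, .pol, .sx 150000 (.aff 3000000 5416026 738549) (.sy 825000 (.sx 225000 (.aff 3000000
 3969582 1007663) (.aff 2900000 3468910 1040673)) (.sy 837500 (.sx 225000 (.aff 3000000 4015123 996234) (.sx
 262500 (.aff 3000000 3693376 1083020) (.aff 3000000 3438346 1163351))) (.sy 843750 (.sx 225000 (.aff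
 3000000 4037702 990663) (.aff 3113000 3781256 1180764)) (.sx 225000 (.aff 3000000 4052684 987001) (.aff
 3168000 3845702 1222202))))), .pol, .pol, .pol, .pol⟩

def hL130_60_0_16 : pcchk ⟨(nat_lit 3), (nat_lit 1000), Int.ofNat (nat_lit 250), 0, ⟨0, 1⟩, ⟨Int.ofNat
 (nat_lit 60), 200⟩⟩ ⟨650000, 700000, 821443, 806367, 836801, 569665, 592031, 548146, 591607, 547722⟩ false
 (nat_lit 800) (Int.ofNat (nat_lit 9416)) (nat_lit 850) (Int.ofNat (nat_lit 9483)) qL130_60_0_16 = true :=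
 by decide +kernel

def qL130_60_0_17 : PCt := .one ⟨2008000, 251, 502000, 803, 189735, 0, 0, 300000, 850000, 900000⟩ ⟨0, .pol,
 .pol, .pol, .pol, .sx 150000 (.aff 3000000 5577734 717138) (.sx 225000 (.aff 5000000 8640988 1851641) (.sx
 262500 (.aff 5000000 7578648 2111195) (.aff 3389000 4109761 1388724))), .pol, .pol, .pol, .pol⟩

def hL130_60_0_17 : pcchk ⟨(nat_lit 3), (nat_lit 1000), Int.ofNat (nat_lit 250), 0, ⟨0, 1⟩, ⟨Int.ofNat
 (nat_lit 60), 200⟩⟩ ⟨650000, 700000, 821443, 806367, 836801, 569665, 592031, 548146, 591607, 547722⟩ false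
 (nat_lit 850) (Int.ofNat (nat_lit 9483)) (nat_lit 900) (Int.ofNat (nat_lit 9485)) qL130_60_0_17 = true :=
 by decide +kernel

def qL130_60_0_18 : PCt := .one ⟨2008000, 251, 502000, -15857176, 14461917, 0, 0, 300000, 900000, 950000⟩
 ⟨0, .pol, .pol, .pol, .pol, .inf 1986622 503368, .pol, .pol, .inf 1986622 503368, .pol⟩

def hL130_60_0_18 : pcchk ⟨(nat_lit 3), (nat_lit 1000), Int.ofNat (nat_lit 250), 0, ⟨0, 1⟩, ⟨Int.ofNat
 (nat_lit 60), 200⟩⟩ ⟨650000, 700000, 821443, 806367, 836801, 569665, 592031, 548146, 591607, 547722⟩ false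
 (nat_lit 900) (Int.ofNat (nat_lit 9485)) (nat_lit 950) (Int.negSucc (nat_lit 29999)) qL130_60_0_18 = true
 := by decide +kernel

def qL130_60_0_19 : PCt := .one ⟨2008000, 251, 502000, 0, -602400, 0, 0, 300000, 950000, 1000000⟩ ⟨0, .pol,
 .pol, .pol, .pol, .inf 2039608 490291, .pol, .pol, .inf 2039608 490291, .pol⟩

def hL130_60_0_19 : pcchk ⟨(nat_lit 3), (nat_lit 1000), Int.ofNat (nat_lit 250), 0, ⟨0, 1⟩, ⟨Int.ofNat
 (nat_lit 60), 200⟩⟩ ⟨650000, 700000, 821443, 806367, 836801, 569665, 592031, 548146, 591607, 547722⟩ false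
 (nat_lit 950) (Int.negSucc (nat_lit 29999)) (nat_lit 1000) (Int.negSucc (nat_lit 29999)) qL130_60_0_19 =
 true := by decide +kernel

def qL130_60_1_0 : PCt := .one ⟨2008000, 251, 803200, 279513, 0, 0, 0, 300000, 0, 50000⟩ ⟨25000, .aff
 3162278 316228, .pol, .pol, .pol, .pol, .aff 0 3841565 260311, .pol, .pol, .pol⟩

def hL130_60_1_0 : pcchk ⟨(nat_lit 3), (nat_lit 1000), Int.ofNat (nat_lit 400), 0, ⟨0, 1⟩, ⟨Int.ofNat
 (nat_lit 60), 200⟩⟩ ⟨650000, 700000, 821443, 806367, 836801, 569665, 592031, 548146, 591607, 547722⟩ true 0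
 0 (nat_lit 50) (Int.ofNat (nat_lit 696)) qL130_60_1_0 = true := by decide +kernel

def qL130_60_1_1 : PCt := .one ⟨2008000, 251, 803200, 314452, -1747, 0, 0, 300000, 50000, 100000⟩ ⟨0, .pol,
 .pol, .pol, .pol, .sx 150000 (.sx 75000 (.sx 37500 (.sy 75000 (.aff 0 3851875 259614) (.aff 0 3731448
 267993)) (.aff 0 1154701 866026)) .pol) .pol, .pol, .pol, .sx 150000 (.sx 75000 (.sx 37500 .pol .pol) .pol)
 .pol, .pol⟩

def hL130_60_1_1 : pcchk ⟨(nat_lit 3), (nat_lit 1000), Int.ofNat (nat_lit 400), 0, ⟨0, 1⟩, ⟨Int.ofNat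
 (nat_lit 60), 200⟩⟩ ⟨650000, 700000, 821443, 806367, 836801, 569665, 592031, 548146, 591607, 547722⟩ false
 (nat_lit 50) (Int.ofNat (nat_lit 696)) (nat_lit 100) (Int.ofNat (nat_lit 1479)) qL130_60_1_1 = true := by
 decide +kernel

def qL130_60_1_2 : PCt := .one ⟨2008000, 251, 803200, 349793, -5282, 0, 0, 300000, 100000, 150000⟩ ⟨0, .pol,
 .pol, .pol, .pol, .sx 150000 (.sx 75000 (.sx 37500 (.sx 18750 (.aff 0 3743922 267100) (.aff 0 2309402
 433013)) (.aff 0 1490712 670821)) (.aff 0 1054093 948683)) .pol, .pol, .pol, .sx 150000 (.sx 75000 .pol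
 .pol) .pol, .pol⟩

def hL130_60_1_2 : pcchk ⟨(nat_lit 3), (nat_lit 1000), Int.ofNat (nat_lit 400), 0, ⟨0, 1⟩, ⟨Int.ofNat
 (nat_lit 60), 200⟩⟩ ⟨650000, 700000, 821443, 806367, 836801, 569665, 592031, 548146, 591607, 547722⟩ false
 (nat_lit 100) (Int.ofNat (nat_lit 1479)) (nat_lit 150) (Int.ofNat (nat_lit 2350)) qL130_60_1_2 = true := by
 decide +kernel

def qL130_60_1_3 : PCt := .one ⟨2008000, 251, 803200, 388748, -11125, 0, 0, 300000, 150000, 200000⟩ ⟨0,
 .pol, .pol, .pol, .pol, .sx 150000 (.sx 75000 (.sx 37500 (.aff 0 3639318 274777) (.aff 0 1763835 566947))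
 (.aff 0 1247220 801784)) .pol, .pol, .pol, .sx 150000 .pol .pol, .pol⟩

def hL130_60_1_3 : pcchk ⟨(nat_lit 3), (nat_lit 1000), Int.ofNat (nat_lit 400), 0, ⟨0, 1⟩, ⟨Int.ofNat
 (nat_lit 60), 200⟩⟩ ⟨650000, 700000, 821443, 806367, 836801, 569665, 592031, 548146, 591607, 547722⟩ false
 (nat_lit 150) (Int.ofNat (nat_lit 2350)) (nat_lit 200) (Int.ofNat (nat_lit 3318)) qL130_60_1_3 = true := by
 decide +kernel

def qL130_60_1_4 : PCt := .one ⟨2008000, 251, 803200, 363849, -6145, 0, 0, 300000, 200000, 250000⟩ ⟨0, .pol,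
 .pol, .pol, .pol, .sy 225000 (.sy 212500 (.sy 206250 (.sy 203125 (.sx 150000 (.sx 75000 (.aff 0 3490179
 286519) (.aff 0 1338532 747088)) .pol) (.sx 150000 (.sx 75000 (.sx 37500 (.aff 200000 3738093 171211) (.aff
 0 1907588 524223)) (.aff 0 1348868 741363)) .pol)) (.sy 209375 (.sx 150000 (.sy 207812 (.sx 75000 (.sx
 37500 (.aff 200000 3759431 170239) (.aff 0 1918477 521247)) (.aff 0 1356568 737155)) (.sx 75000 (.sx 37500
 (.aff 200000 3773591 169600) (.aff 0 1925703 519291)) (.aff 0 1361678 734389))) .pol) (.sy 210937 (.sx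
 150000 (.sx 75000 (.sx 37500 (.aff 200000 3787698 168969) (.aff 0 1932902 517357)) (.aff 0 1366768 731654))
 .pol) (.sx 150000 (.sx 75000 (.sx 37500 (.aff 200000 3801752 168344) (.aff 0 1940074 515445)) (.aff 0
 1371839 728949)) .pol)))) (.sx 150000 (.sy 218750 (.sy 215625 (.sy 214062 (.sx 75000 (.sx 37500 (.aff
 225000 3696513 162485) (.aff 0 1947220 513553)) (.aff 0 1376892 726274)) (.sx 75000 (.sx 37500 (.aff 225000
 3710028 161893) (.aff 0 1954339 511682)) (.aff 0 1381927 723628))) (.sy 217187 (.sy 216406 (.sx 75000 (.sx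
 37500 (.aff 225000 3720134 161453) (.aff 0 1959663 510292)) (.aff 0 1385691 721662)) (.sx 75000 (.sx 37500
 (.aff 225000 3726853 161162) (.aff 0 1963202 509372)) (.aff 0 1388194 720361))) (.sx 75000 (.sx 37500 (.aff
 225000 3736913 160728) (.aff 0 1968501 508001)) (.aff 0 1391941 718422)))) (.sy 221875 (.sy 220312 (.sx
 75000 (.sx 37500 (.aff 225000 3750283 160155) (.aff 0 1975544 506190)) (.aff 0 1396921 715861)) (.sx 75000
 (.sx 37500 (.aff 225000 3763606 159588) (.aff 0 1982562 504398)) (.aff 0 1401883 713327))) (.sx 75000 (.sx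
 37500 (.aff 225000 3783504 158749) (.aff 0 1993044 501746)) (.aff 0 1409295 709575)))) .pol)) (.sx 150000
 (.sy 237500 (.sy 231250 (.sy 228125 (.sy 226562 (.sx 75000 (.sx 37500 (.aff 250000 3680606 152829) (.aff 0
 2194690 455646)) (.aff 0 1416666 705883)) (.sx 75000 (.sx 37500 (.aff 250000 3693320 152302) (.aff 0
 2202271 454077)) (.aff 0 1421560 703453))) (.sx 75000 (.sx 37500 (.aff 250000 3712311 151523) (.aff 1000000
 0 0)) (.aff 0 1428870 699854))) (.sy 234375 (.sx 75000 (.sx 37500 (.aff 250000 3737480 150503) (.aff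
 1000000 0 0)) (.aff 0 1438557 695142)) (.sy 235937 (.sx 75000 (.sx 37500 (.aff 250000 3756243 149751) (.aff
 1000000 0 0)) (.aff 0 1445779 691669)) (.sx 75000 (.sx 37500 (.aff 250000 3768702 149256) (.aff 1000000 0
 0)) (.aff 0 1450574 689383))))) (.sx 75000 (.sx 37500 (.aff 275000 3696790 142185) (.aff 1000000 0 0))
 (.aff 0 1471961 679366))) (.aff 0 1027403 973328)), .pol, .pol, .sx 150000 .pol .pol, .pol⟩

def hL130_60_1_4 : pcchk ⟨(nat_lit 3), (nat_lit 1000), Int.ofNat (nat_lit 400), 0, ⟨0, 1⟩, ⟨Int.ofNat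
 (nat_lit 60), 200⟩⟩ ⟨650000, 700000, 821443, 806367, 836801, 569665, 592031, 548146, 591607, 547722⟩ false
 (nat_lit 200) (Int.ofNat (nat_lit 3318)) (nat_lit 250) (Int.ofNat (nat_lit 4224)) qL130_60_1_4 = true := by
 decide +kernel

def qL130_60_1_5 : PCt := .one ⟨2008000, 251, 803200, 321280, 4497, 0, 0, 300000, 250000, 300000⟩ ⟨0, .pol,
 .pol, .pol, .pol, .sx 150000 (.sx 75000 (.aff 525000 3851060 58588) (.aff 1000000 0 0)) (.aff 0 1105542
 904534), .pol, .pol, .sx 150000 .pol .pol, .pol⟩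

def hL130_60_1_5 : pcchk ⟨(nat_lit 3), (nat_lit 1000), Int.ofNat (nat_lit 400), 0, ⟨0, 1⟩, ⟨Int.ofNat
 (nat_lit 60), 200⟩⟩ ⟨650000, 700000, 821443, 806367, 836801, 569665, 592031, 548146, 591607, 547722⟩ false
 (nat_lit 250) (Int.ofNat (nat_lit 4224)) (nat_lit 300) (Int.ofNat (nat_lit 5024)) qL130_60_1_5 = true := by
 decide +kernel

def qL130_60_1_6 : PCt := .one ⟨2008000, 251, 803200, 295979, 12088, 0, 0, 300000, 300000, 350000⟩ ⟨0, .pol,
 .pol, .pol, .pol, .sx 150000 (.sx 75000 (.sx 37500 (.sy 325000 (.sx 18750 (.aff 750000 4110556 15205) (.aff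
 1000000 0 0)) (.sx 18750 (.sx 9375 (.aff 775000 4027927 12569) (.aff 1000000 0 0)) (.aff 1000000 0 0)))
 (.aff 1000000 0 0)) (.aff 1000000 0 0)) (.aff 1000000 0 0), .pol, .pol, .pol, .pol⟩

def hL130_60_1_6 : pcchk ⟨(nat_lit 3), (nat_lit 1000), Int.ofNat (nat_lit 400), 0, ⟨0, 1⟩, ⟨Int.ofNat
 (nat_lit 60), 200⟩⟩ ⟨650000, 700000, 821443, 806367, 836801, 569665, 592031, 548146, 591607, 547722⟩ false
 (nat_lit 300) (Int.ofNat (nat_lit 5024)) (nat_lit 350) (Int.ofNat (nat_lit 5761)) qL130_60_1_6 = true := by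
 decide +kernel

def qL130_60_1_7 : PCt := .one ⟨2008000, 251, 803200, 234534, 33593, 0, 0, 300000, 350000, 400000⟩ ⟨0, .pol,
 .pol, .pol, .pol, .sx 150000 (.sx 75000 (.sx 37500 (.sx 18750 (.aff 1200000 3602311 11104) (.aff 1000000 0
 0)) (.aff 1000000 0 0)) (.aff 1000000 0 0)) (.aff 1000000 0 0), .pol, .pol, .pol, .pol⟩

def hL130_60_1_7 : pcchk ⟨(nat_lit 3), (nat_lit 1000), Int.ofNat (nat_lit 400), 0, ⟨0, 1⟩, ⟨Int.ofNat
 (nat_lit 60), 200⟩⟩ ⟨650000, 700000, 821443, 806367, 836801, 569665, 592031, 548146, 591607, 547722⟩ false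
 (nat_lit 350) (Int.ofNat (nat_lit 5761)) (nat_lit 400) (Int.ofNat (nat_lit 6345)) qL130_60_1_7 = true := by
 decide +kernel

def qL130_60_1_8 : PCt := .one ⟨2008000, 251, 803200, 189153, 51746, 0, 0, 300000, 400000, 450000⟩ ⟨0, .pol,
 .pol, .pol, .pol, .sx 150000 (.sx 75000 (.sx 37500 (.aff 1591000 4860212 71866) (.aff 1000000 0 0)) (.aff
 1000000 0 0)) (.aff 1000000 0 0), .pol, .pol, .pol, .pol⟩

def hL130_60_1_8 : pcchk ⟨(nat_lit 3), (nat_lit 1000), Int.ofNat (nat_lit 400), 0, ⟨0, 1⟩, ⟨Int.ofNat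
 (nat_lit 60), 200⟩⟩ ⟨650000, 700000, 821443, 806367, 836801, 569665, 592031, 548146, 591607, 547722⟩ false
 (nat_lit 400) (Int.ofNat (nat_lit 6345)) (nat_lit 450) (Int.ofNat (nat_lit 6816)) qL130_60_1_8 = true := by
 decide +kernel

def qL130_60_1_9 : PCt := .one ⟨2008000, 251, 803200, 134937, 76143, 0, 0, 300000, 450000, 500000⟩ ⟨0, .pol,
 .pol, .pol, .pol, .sx 150000 (.sx 75000 (.sx 37500 (.sx 18750 (.aff 1950000 5521272 163459) (.aff 2000000
 4501852 222131)) (.aff 1000000 0 0)) (.aff 1000000 0 0)) (.aff 1000000 0 0), .pol, .pol, .pol, .pol⟩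

def hL130_60_1_9 : pcchk ⟨(nat_lit 3), (nat_lit 1000), Int.ofNat (nat_lit 400), 0, ⟨0, 1⟩, ⟨Int.ofNat
 (nat_lit 60), 200⟩⟩ ⟨650000, 700000, 821443, 806367, 836801, 569665, 592031, 548146, 591607, 547722⟩ false
 (nat_lit 450) (Int.ofNat (nat_lit 6816)) (nat_lit 500) (Int.ofNat (nat_lit 7152)) qL130_60_1_9 = true := by
 decide +kernel

def qL130_60_1_10 : PCt := .one ⟨2008000, 251, 803200, 88352, 99436, 0, 0, 300000, 500000, 550000⟩ ⟨0, .pol,
 .pol, .pol, .pol, .sx 150000 (.sy 525000 (.sy 512500 (.sx 75000 (.sx 37500 (.sx 18750 (.aff 3000000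
 12000000 333334) (.aff 2100000 5112339 236683)) (.aff 1000000 0 0)) (.aff 1000000 0 0)) (.sx 75000 (.sy
 518750 (.sx 37500 (.sx 18750 (.aff 3000000 14832397 269680) (.aff 2125000 5276718 239851)) (.aff 1000000 0
 0)) (.sx 37500 (.sx 18750 (.aff 3000000 14922020 268061) (.sx 28125 (.aff 3000000 9437514 423841) (.aff
 2100000 4552486 265789))) (.aff 1000000 0 0))) (.aff 1000000 0 0))) (.sy 537500 (.sx 75000 (.sx 37500 (.aff
 2537000 5785058 408358) (.aff 1000000 0 0)) (.aff 1000000 0 0)) (.sx 75000 (.sx 37500 (.aff 3000000 7615774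
 525226) (.aff 2100000 4575943 264427)) (.aff 1000000 0 0)))) (.aff 1000000 0 0), .pol, .pol, .pol, .pol⟩

def hL130_60_1_10 : pcchk ⟨(nat_lit 3), (nat_lit 1000), Int.ofNat (nat_lit 400), 0, ⟨0, 1⟩, ⟨Int.ofNat
 (nat_lit 60), 200⟩⟩ ⟨650000, 700000, 821443, 806367, 836801, 569665, 592031, 548146, 591607, 547722⟩ false
 (nat_lit 500) (Int.ofNat (nat_lit 7152)) (nat_lit 550) (Int.ofNat (nat_lit 7372)) qL130_60_1_10 = true :=
 by decide +kernel

def qL130_60_1_11 : PCt := .one ⟨2008000, 251, 803200, 32128, 130359, 0, 0, 300000, 550000, 600000⟩ ⟨0,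
 .pol, .pol, .pol, .pol, .sx 150000 (.sx 75000 (.sx 37500 (.aff 3000000 9043107 442326) (.sx 56250 (.sx
 46875 (.aff 2800000 6304285 513937) (.aff 2800000 5754998 562989)) (.aff 2800000 5529224 585978))) (.aff
 1000000 0 0)) (.aff 1000000 0 0), .pol, .pol, .pol, .pol⟩

def hL130_60_1_11 : pcchk ⟨(nat_lit 3), (nat_lit 1000), Int.ofNat (nat_lit 400), 0, ⟨0, 1⟩, ⟨Int.ofNat
 (nat_lit 60), 200⟩⟩ ⟨650000, 700000, 821443, 806367, 836801, 569665, 592031, 548146, 591607, 547722⟩ false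
 (nat_lit 550) (Int.ofNat (nat_lit 7372)) (nat_lit 600) (Int.ofNat (nat_lit 7452)) qL130_60_1_11 = true :=
 by decide +kernel

def qL130_60_1_12 : PCt := .one ⟨2008000, 251, 803200, -18474, 160720, 0, 0, 300000, 600000, 650000⟩ ⟨0,
 .pol, .pol, .pol, .pol, .sx 150000 (.sx 75000 (.aff 2976000 6034829 647007) (.aff 3075000 5774902 745576))
 (.aff 1000000 0 0), .pol, .pol, .pol, .pol⟩

def hL130_60_1_12 : pcchk ⟨(nat_lit 3), (nat_lit 1000), Int.ofNat (nat_lit 400), 0, ⟨0, 1⟩, ⟨Int.ofNat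
 (nat_lit 60), 200⟩⟩ ⟨650000, 700000, 821443, 806367, 836801, 569665, 592031, 548146, 591607, 547722⟩ false
 (nat_lit 600) (Int.ofNat (nat_lit 7452)) (nat_lit 650) (Int.ofNat (nat_lit 7406)) qL130_60_1_12 = true :=
 by decide +kernel

def qL130_60_1_13 : PCt := .one ⟨2008000, 251, 803200, -81124, 201442, 0, 0, 300000, 650000, 700000⟩ ⟨0,
 .pol, .pol, .pol, .pol, .sy 675000 (.sx 150000 (.sx 75000 (.aff 5000000 13727507 1165544) (.sx 112500 (.sx
 93750 (.aff 4100000 8240793 1166150) (.aff 3300000 5966787 886575)) (.aff 1500000 1123346 222550))) (.aff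
 1000000 0 0)) (.sx 150000 (.sx 75000 (.aff 5000000 13984118 1144156) (.sx 112500 (.aff 3800000 6921786
 1132656) (.aff 3500000 5937711 1052595))) (.aff 1000000 0 0)), .pol, .pol, .pol, .pol⟩

def hL130_60_1_13 : pcchk ⟨(nat_lit 3), (nat_lit 1000), Int.ofNat (nat_lit 400), 0, ⟨0, 1⟩, ⟨Int.ofNat
 (nat_lit 60), 200⟩⟩ ⟨650000, 700000, 821443, 806367, 836801, 569665, 592031, 548146, 591607, 547722⟩ false
 (nat_lit 650) (Int.ofNat (nat_lit 7406)) (nat_lit 700) (Int.ofNat (nat_lit 7204)) qL130_60_1_13 = true :=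
 by decide +kernel

def qL130_60_1_14 : PCt := .one ⟨2008000, 251, 803200, -141765, 243891, 0, 0, 300000, 700000, 750000⟩ ⟨0,
 .pol, .pol, .pol, .pol, .sx 150000 (.sx 75000 (.aff 5000000 17587875 909718) (.sx 112500 (.aff 5000000
 11123549 1438390) (.sx 131250 (.aff 4200000 7520892 1361541) (.aff 4063000 6904429 1358834)))) (.aff
 3750000 5976275 1265421), .pol, .pol, .pol, .pol⟩

def hL130_60_1_14 : pcchk ⟨(nat_lit 3), (nat_lit 1000), Int.ofNat (nat_lit 400), 0, ⟨0, 1⟩, ⟨Int.ofNat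
 (nat_lit 60), 200⟩⟩ ⟨650000, 700000, 821443, 806367, 836801, 569665, 592031, 548146, 591607, 547722⟩ false
 (nat_lit 700) (Int.ofNat (nat_lit 7204)) (nat_lit 750) (Int.ofNat (nat_lit 6851)) qL130_60_1_14 = true :=
 by decide +kernel

def qL130_60_1_15 : PCt := .one ⟨2008000, 251, 803200, -219676, 302324, 0, 0, 300000, 750000, 800000⟩ ⟨0,
 .pol, .pol, .pol, .pol, .sx 150000 (.aff 5000000 9092122 1759766) (.sx 225000 (.sx 187500 (.aff 4635000
 7390174 1787946) (.aff 4450000 7030524 1692975)) (.aff 1000000 0 0)), .pol, .pol, .pol, .pol⟩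

def hL130_60_1_15 : pcchk ⟨(nat_lit 3), (nat_lit 1000), Int.ofNat (nat_lit 400), 0, ⟨0, 1⟩, ⟨Int.ofNat
 (nat_lit 60), 200⟩⟩ ⟨650000, 700000, 821443, 806367, 836801, 569665, 592031, 548146, 591607, 547722⟩ false
 (nat_lit 750) (Int.ofNat (nat_lit 6851)) (nat_lit 800) (Int.ofNat (nat_lit 6304)) qL130_60_1_15 = true :=
 by decide +kernel

def qL130_60_1_16 : PCt := .one ⟨2008000, 251, 803200, -305216, 370757, 0, 0, 300000, 800000, 850000⟩ ⟨0,
 .pol, .pol, .pol, .pol, .sx 150000 (.aff 5000000 10832052 1477098) (.sx 225000 (.aff 5100000 7850903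
 2141155) (.sx 262500 (.aff 5000000 7504666 2132007) (.aff 3000000 3425396 1167749))), .pol, .pol, .pol,
 .pol⟩

def hL130_60_1_16 : pcchk ⟨(nat_lit 3), (nat_lit 1000), Int.ofNat (nat_lit 400), 0, ⟨0, 1⟩, ⟨Int.ofNat
 (nat_lit 60), 200⟩⟩ ⟨650000, 700000, 821443, 806367, 836801, 569665, 592031, 548146, 591607, 547722⟩ false
 (nat_lit 800) (Int.ofNat (nat_lit 6304)) (nat_lit 850) (Int.ofNat (nat_lit 5544)) qL130_60_1_16 = true :=
 by decide +kernel

def qL130_60_1_17 : PCt := .one ⟨2008000, 251, 803200, -426500, 473847, 0, 0, 300000, 850000, 900000⟩ ⟨0,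
 .pol, .pol, .pol, .pol, .sx 150000 (.aff 5000000 11155468 1434275) (.sx 225000 (.aff 8000000 15121729
 3240371) (.sx 262500 (.aff 8000000 13014712 3764970) (.sy 875000 (.sx 281250 (.aff 5600000 8264743 2560274)
 (.aff 5500000 7815496 2591007)) (.aff 7100000 10491882 3546552)))), .pol, .pol, .pol, .pol⟩

def hL130_60_1_17 : pcchk ⟨(nat_lit 3), (nat_lit 1000), Int.ofNat (nat_lit 400), 0, ⟨0, 1⟩, ⟨Int.ofNat
 (nat_lit 60), 200⟩⟩ ⟨650000, 700000, 821443, 806367, 836801, 569665, 592031, 548146, 591607, 547722⟩ false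
 (nat_lit 850) (Int.ofNat (nat_lit 5544)) (nat_lit 900) (Int.ofNat (nat_lit 4482)) qL130_60_1_17 = true :=
 by decide +kernel

def qL130_60_1_18 : PCt := .one ⟨2008000, 251, 803200, -13847972, 12553172, 0, 0, 300000, 900000, 950000⟩
 ⟨0, .pol, .pol, .pol, .pol, .inf 1986622 503368, .pol, .pol, .inf 1986622 503368, .pol⟩

def hL130_60_1_18 : pcchk ⟨(nat_lit 3), (nat_lit 1000), Int.ofNat (nat_lit 400), 0, ⟨0, 1⟩, ⟨Int.ofNat
 (nat_lit 60), 200⟩⟩ ⟨650000, 700000, 821443, 806367, 836801, 569665, 592031, 548146, 591607, 547722⟩ false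
 (nat_lit 900) (Int.ofNat (nat_lit 4482)) (nat_lit 950) (Int.negSucc (nat_lit 29999)) qL130_60_1_18 = true
 := by decide +kernel

def qL130_60_1_19 : PCt := .one ⟨2008000, 251, 803200, 0, -602400, 0, 0, 300000, 950000, 1000000⟩ ⟨0, .pol,
 .pol, .pol, .pol, .inf 2039608 490291, .pol, .pol, .inf 2039608 490291, .pol⟩

def hL130_60_1_19 : pcchk ⟨(nat_lit 3), (nat_lit 1000), Int.ofNat (nat_lit 400), 0, ⟨0, 1⟩, ⟨Int.ofNat
 (nat_lit 60), 200⟩⟩ ⟨650000, 700000, 821443, 806367, 836801, 569665, 592031, 548146, 591607, 547722⟩ false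
 (nat_lit 950) (Int.negSucc (nat_lit 29999)) (nat_lit 1000) (Int.negSucc (nat_lit 29999)) qL130_60_1_19 =
 true := by decide +kernel

def qL130_60_2_0 : PCt := .one ⟨2008000, 251, 2008000, 259032, 0, 0, 0, 300000, 0, 50000⟩ ⟨12500, .sp 250000
 (.aff 6324556 158114) .pol, .pol, .pol, .pol, .pol, .aff 0 14172346 70560, .pol, .pol, .pol⟩

def hL130_60_2_0 : pcchk ⟨(nat_lit 3), (nat_lit 1000), Int.ofNat (nat_lit 1000), 0, ⟨0, 1⟩, ⟨Int.ofNat
 (nat_lit 60), 200⟩⟩ ⟨650000, 700000, 821443, 806367, 836801, 569665, 592031, 548146, 591607, 547722⟩ true 0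
 0 (nat_lit 50) (Int.ofNat (nat_lit 645)) qL130_60_2_0 = true := by decide +kernel

def qL130_60_2_1 : PCt := .one ⟨2008000, 251, 2008000, 290758, -1587, 0, 0, 300000, 50000, 100000⟩ ⟨0, .pol,
 .pol, .pol, .pol, .sx 150000 (.sx 75000 (.aff 0 13371789 74785) .pol) .pol, .pol, .pol, .sx 150000 (.sx
 75000 (.sx 37500 .pol .pol) .pol) .pol, .pol⟩

def hL130_60_2_1 : pcchk ⟨(nat_lit 3), (nat_lit 1000), Int.ofNat (nat_lit 1000), 0, ⟨0, 1⟩, ⟨Int.ofNat
 (nat_lit 60), 200⟩⟩ ⟨650000, 700000, 821443, 806367, 836801, 569665, 592031, 548146, 591607, 547722⟩ false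
 (nat_lit 50) (Int.ofNat (nat_lit 645)) (nat_lit 100) (Int.ofNat (nat_lit 1369)) qL130_60_2_1 = true := by
 decide +kernel

def qL130_60_2_2 : PCt := .one ⟨2008000, 251, 2008000, 323288, -4840, 0, 0, 300000, 100000, 150000⟩ ⟨0,
 .pol, .pol, .pol, .pol, .sx 150000 (.sx 75000 (.aff 0 13444365 74381) .pol) .pol, .pol, .pol, .sx 150000
 (.sx 75000 .pol .pol) .pol, .pol⟩

def hL130_60_2_2 : pcchk ⟨(nat_lit 3), (nat_lit 1000), Int.ofNat (nat_lit 1000), 0, ⟨0, 1⟩, ⟨Int.ofNat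
 (nat_lit 60), 200⟩⟩ ⟨650000, 700000, 821443, 806367, 836801, 569665, 592031, 548146, 591607, 547722⟩ false
 (nat_lit 100) (Int.ofNat (nat_lit 1369)) (nat_lit 150) (Int.ofNat (nat_lit 2174)) qL130_60_2_2 = true := by
 decide +kernel

def qL130_60_2_3 : PCt := .one ⟨2008000, 251, 2008000, 355416, -9659, 0, 0, 300000, 150000, 200000⟩ ⟨0,
 .pol, .pol, .pol, .pol, .sx 150000 (.sx 75000 (.aff 0 13024030 76782) .pol) .pol, .pol, .pol, .sx 150000
 .pol .pol, .pol⟩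

def hL130_60_2_3 : pcchk ⟨(nat_lit 3), (nat_lit 1000), Int.ofNat (nat_lit 1000), 0, ⟨0, 1⟩, ⟨Int.ofNat
 (nat_lit 60), 200⟩⟩ ⟨650000, 700000, 821443, 806367, 836801, 569665, 592031, 548146, 591607, 547722⟩ false
 (nat_lit 150) (Int.ofNat (nat_lit 2174)) (nat_lit 200) (Int.ofNat (nat_lit 3059)) qL130_60_2_3 = true := by
 decide +kernel

def qL130_60_2_4 : PCt := .one ⟨2008000, 251, 2008000, 394772, -17530, 0, 0, 300000, 200000, 250000⟩ ⟨0,
 .pol, .pol, .pol, .pol, .sx 150000 (.sx 75000 (.aff 0 12710817 78674) .pol) .pol, .pol, .pol, .sx 150000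
 .pol .pol, .pol⟩

def hL130_60_2_4 : pcchk ⟨(nat_lit 3), (nat_lit 1000), Int.ofNat (nat_lit 1000), 0, ⟨0, 1⟩, ⟨Int.ofNat
 (nat_lit 60), 200⟩⟩ ⟨650000, 700000, 821443, 806367, 836801, 569665, 592031, 548146, 591607, 547722⟩ false
 (nat_lit 200) (Int.ofNat (nat_lit 3059)) (nat_lit 250) (Int.ofNat (nat_lit 4042)) qL130_60_2_4 = true := by
 decide +kernel

def qL130_60_2_5 : PCt := .one ⟨2008000, 251, 2008000, 384732, -15020, 0, 0, 300000, 250000, 300000⟩ ⟨0,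
 .pol, .pol, .pol, .pol, .sx 150000 (.sx 75000 (.sx 37500 (.sx 18750 (.sx 9375 (.sx 4687 (.sy 275000 (.aff
 150000 12722314 56790) (.aff 250000 12983512 43325)) (.aff 500000 3127000 79949)) (.aff 0 4422167 226134))
 (.aff 0 3126944 319802)) (.aff 0 2211084 452267)) .pol) .pol, .pol, .pol, .sx 150000 .pol .pol, .pol⟩

def hL130_60_2_5 : pcchk ⟨(nat_lit 3), (nat_lit 1000), Int.ofNat (nat_lit 1000), 0, ⟨0, 1⟩, ⟨Int.ofNat
 (nat_lit 60), 200⟩⟩ ⟨650000, 700000, 821443, 806367, 836801, 569665, 592031, 548146, 591607, 547722⟩ false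
 (nat_lit 250) (Int.ofNat (nat_lit 4042)) (nat_lit 300) (Int.ofNat (nat_lit 5000)) qL130_60_2_5 = true := by
 decide +kernel

def qL130_60_2_6 : PCt := .one ⟨2008000, 251, 2008000, 315657, 5702, 0, 0, 300000, 300000, 350000⟩ ⟨0, .pol,
 .pol, .pol, .pol, .sx 150000 (.sx 75000 (.sx 37500 (.aff 650000 5601684 21869) (.aff 0 2403701 416026))
 .pol) .pol, .pol, .pol, .pol, .pol⟩

def hL130_60_2_6 : pcchk ⟨(nat_lit 3), (nat_lit 1000), Int.ofNat (nat_lit 1000), 0, ⟨0, 1⟩, ⟨Int.ofNat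
 (nat_lit 60), 200⟩⟩ ⟨650000, 700000, 821443, 806367, 836801, 569665, 592031, 548146, 591607, 547722⟩ false
 (nat_lit 300) (Int.ofNat (nat_lit 5000)) (nat_lit 350) (Int.ofNat (nat_lit 5786)) qL130_60_2_6 = true := by
 decide +kernel

def qL130_60_2_7 : PCt := .one ⟨2008000, 251, 2008000, 180720, 52930, 0, 0, 300000, 350000, 400000⟩ ⟨0,
 .pol, .pol, .pol, .pol, .sx 150000 (.sx 75000 (.sx 37500 (.sx 18750 (.aff 1550000 13372179 22622) (.aff
 1000000 0 0)) (.aff 0 2581989 387299)) .pol) .pol, .pol, .pol, .pol, .pol⟩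

def hL130_60_2_7 : pcchk ⟨(nat_lit 3), (nat_lit 1000), Int.ofNat (nat_lit 1000), 0, ⟨0, 1⟩, ⟨Int.ofNat
 (nat_lit 60), 200⟩⟩ ⟨650000, 700000, 821443, 806367, 836801, 569665, 592031, 548146, 591607, 547722⟩ false
 (nat_lit 350) (Int.ofNat (nat_lit 5786)) (nat_lit 400) (Int.ofNat (nat_lit 6236)) qL130_60_2_7 = true := by
 decide +kernel

def qL130_60_2_8 : PCt := .one ⟨2008000, 251, 2008000, -7229, 128110, 0, 0, 300000, 400000, 450000⟩ ⟨0,
 .pol, .pol, .pol, .pol, .sx 150000 (.sx 75000 (.sx 37500 (.sx 18750 (.sy 425000 (.sx 9375 (.aff 2818000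
 15009343 220205) (.aff 1000000 0 0)) (.sx 9375 (.aff 2900000 14987403 240869) (.aff 2000000 6110101
 163664))) (.aff 1000000 0 0)) (.aff 1000000 0 0)) (.aff 0 1943651 514496)) .pol, .pol, .pol, .pol, .pol⟩

def hL130_60_2_8 : pcchk ⟨(nat_lit 3), (nat_lit 1000), Int.ofNat (nat_lit 1000), 0, ⟨0, 1⟩, ⟨Int.ofNat
 (nat_lit 60), 200⟩⟩ ⟨650000, 700000, 821443, 806367, 836801, 569665, 592031, 548146, 591607, 547722⟩ false
 (nat_lit 400) (Int.ofNat (nat_lit 6236)) (nat_lit 450) (Int.ofNat (nat_lit 6218)) qL130_60_2_8 = true := by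
 decide +kernel

def qL130_60_2_9 : PCt := .one ⟨2008000, 251, 2008000, -158632, 196241, 0, 0, 300000, 450000, 500000⟩ ⟨0,
 .pol, .pol, .pol, .pol, .sx 150000 (.sx 75000 (.sx 37500 (.sx 18750 (.aff 3636000 14982708 463768) (.aff
 3600000 14296292 472850)) (.aff 1000000 0 0)) (.aff 1000000 0 0)) .pol, .pol, .pol, .pol, .pol⟩

def hL130_60_2_9 : pcchk ⟨(nat_lit 3), (nat_lit 1000), Int.ofNat (nat_lit 1000), 0, ⟨0, 1⟩, ⟨Int.ofNat
 (nat_lit 60), 200⟩⟩ ⟨650000, 700000, 821443, 806367, 836801, 569665, 592031, 548146, 591607, 547722⟩ false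
 (nat_lit 450) (Int.ofNat (nat_lit 6218)) (nat_lit 500) (Int.ofNat (nat_lit 5823)) qL130_60_2_9 = true := by
 decide +kernel

def qL130_60_2_10 : PCt := .one ⟨2008000, 251, 2008000, -342565, 288208, 0, 0, 300000, 500000, 550000⟩ ⟨0,
 .pol, .pol, .pol, .pol, .sx 150000 (.sx 75000 (.sx 37500 (.sx 18750 (.aff 5000000 24440404 654654) (.sx
 28125 (.aff 5000000 18050435 886406) (.sy 525000 (.aff 5000000 16405128 975305) (.aff 5000000 16189356
 988304)))) (.aff 5000000 14794438 1081488)) (.aff 1000000 0 0)) (.aff 0 1527526 654654), .pol, .pol, .pol,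
 .pol⟩

def hL130_60_2_10 : pcchk ⟨(nat_lit 3), (nat_lit 1000), Int.ofNat (nat_lit 1000), 0, ⟨0, 1⟩, ⟨Int.ofNat
 (nat_lit 60), 200⟩⟩ ⟨650000, 700000, 821443, 806367, 836801, 569665, 592031, 548146, 591607, 547722⟩ false
 (nat_lit 500) (Int.ofNat (nat_lit 5823)) (nat_lit 550) (Int.ofNat (nat_lit 4970)) qL130_60_2_10 = true :=
 by decide +kernel

def qL130_60_2_11 : PCt := .one ⟨2008000, 251, 2008000, -492764, 370817, 0, 0, 300000, 550000, 600000⟩ ⟨0,
 .pol, .pol, .pol, .pol, .sx 150000 (.sx 75000 (.sx 37500 (.aff 8000000 27410461 1787639) (.sx 56250 (.sx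
 46875 (.aff 6050000 17358643 1469153) (.sy 575000 (.aff 5700000 15888900 1390279) (.aff 6300000 17128469
 1639960))) (.aff 5800000 14744595 1562607))) (.aff 1000000 0 0)) (.aff 1000000 0 0), .pol, .pol, .pol,
 .pol⟩

def hL130_60_2_11 : pcchk ⟨(nat_lit 3), (nat_lit 1000), Int.ofNat (nat_lit 1000), 0, ⟨0, 1⟩, ⟨Int.ofNat
 (nat_lit 60), 200⟩⟩ ⟨650000, 700000, 821443, 806367, 836801, 569665, 592031, 548146, 591607, 547722⟩ false
 (nat_lit 550) (Int.ofNat (nat_lit 4970)) (nat_lit 600) (Int.ofNat (nat_lit 3743)) qL130_60_2_11 = true :=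
 by decide +kernel

def qL130_60_2_12 : PCt := .one ⟨2008000, 251, 2008000, -686736, 487201, 0, 0, 300000, 600000, 650000⟩ ⟨0,
 .pol, .pol, .pol, .pol, .sx 150000 (.sx 75000 (.sx 37500 (.aff 8000000 40414519 1212436) (.sx 56250 (.aff
 8000000 25560387 1917029) (.sy 625000 (.aff 7250000 17860863 2187045) (.aff 8000000 21077635 2324739))))
 (.sy 625000 (.sx 112500 (.sy 612500 (.aff 1000000 0 0) (.sx 93750 (.aff 6800000 16161829 2081448) (.aff
 1000000 0 0))) (.aff 1000000 0 0)) (.sx 112500 (.sx 93750 (.aff 7325000 17789671 2248812) (.aff 1000000 0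
 0)) (.aff 1000000 0 0)))) (.aff 1000000 0 0), .pol, .pol, .pol, .pol⟩

def hL130_60_2_12 : pcchk ⟨(nat_lit 3), (nat_lit 1000), Int.ofNat (nat_lit 1000), 0, ⟨0, 1⟩, ⟨Int.ofNat
 (nat_lit 60), 200⟩⟩ ⟨650000, 700000, 821443, 806367, 836801, 569665, 592031, 548146, 591607, 547722⟩ false
 (nat_lit 600) (Int.ofNat (nat_lit 3743)) (nat_lit 650) (Int.ofNat (nat_lit 2033)) qL130_60_2_12 = true :=
 by decide +kernel

def qL130_60_2_13 : PCt := .one ⟨2008000, 251, 2008000, -859424, 599448, 0, 0, 300000, 650000, 700000⟩ ⟨0,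
 .pol, .pol, .pol, .pol, .sx 150000 (.sx 75000 (.aff 8000000 21000001 2333334) (.sx 112500 (.sx 93750 (.aff
 8100000 19051300 2646014) (.sy 675000 (.aff 8000000 18159785 2698270) (.aff 8300000 18383148 2898851)))
 (.aff 8125000 17627640 2879888))) (.aff 1000000 0 0), .pol, .pol, .sx 150000 (.sx 75000 (.inf 3394113
 294628) .pol) .pol, .pol⟩

def hL130_60_2_13 : pcchk ⟨(nat_lit 3), (nat_lit 1000), Int.ofNat (nat_lit 1000), 0, ⟨0, 1⟩, ⟨Int.ofNat
 (nat_lit 60), 200⟩⟩ ⟨650000, 700000, 821443, 806367, 836801, 569665, 592031, 548146, 591607, 547722⟩ false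
 (nat_lit 650) (Int.ofNat (nat_lit 2033)) (nat_lit 700) (Int.negSucc (nat_lit 106)) qL130_60_2_13 = true :=
 by decide +kernel

def qL130_60_2_14 : PCt := .one ⟨2008000, 251, 2008000, -1091549, 761935, 0, 0, 300000, 700000, 750000⟩ ⟨0,
 .pol, .pol, .pol, .pol, .sx 150000 (.sx 75000 (.aff 8000000 25130770 1949801) (.sx 112500 (.aff 12000000
 30589759 3955573) (.sx 131250 (.aff 10200000 21622564 3914430) (.sy 725000 (.aff 9400000 19231010 3669075)
 (.aff 10100000 20177938 4103988))))) (.sx 225000 (.sy 725000 (.aff 1000000 0 0) (.aff 9725000 19175173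
 3970010)) (.aff 1000000 0 0)), .pol, .pol, .sx 150000 (.sx 75000 (.inf 4396969 227430) .pol) .pol, .pol⟩

def hL130_60_2_14 : pcchk ⟨(nat_lit 3), (nat_lit 1000), Int.ofNat (nat_lit 1000), 0, ⟨0, 1⟩, ⟨Int.ofNat
 (nat_lit 60), 200⟩⟩ ⟨650000, 700000, 821443, 806367, 836801, 569665, 592031, 548146, 591607, 547722⟩ false
 (nat_lit 700) (Int.negSucc (nat_lit 106)) (nat_lit 750) (Int.negSucc (nat_lit 2824)) qL130_60_2_14 = true
 := by decide +kernel

def qL130_60_2_15 : PCt := .one ⟨2008000, 251, 2008000, -1322068, 934824, 0, 0, 300000, 750000, 800000⟩ ⟨0,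
 .pol, .pol, .pol, .pol, .sx 150000 (.aff 12000000 25003334 4839355) (.sx 225000 (.sx 187500 (.sx 168750
 (.aff 11700000 22930459 4992923) (.sy 775000 (.sx 178125 (.aff 11210000 21256785 4904039) (.aff 11163000
 21146088 4884430)) (.aff 11800000 22133414 5269861))) (.sy 775000 (.aff 1500000 961376 260044) (.aff
 11500000 21000000 5250000))) (.aff 1000000 0 0)), .pol, .pol, .sx 150000 (.inf 2571641 388857) .pol, .pol⟩

def hL130_60_2_15 : pcchk ⟨(nat_lit 3), (nat_lit 1000), Int.ofNat (nat_lit 1000), 0, ⟨0, 1⟩, ⟨Int.ofNat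
 (nat_lit 60), 200⟩⟩ ⟨650000, 700000, 821443, 806367, 836801, 569665, 592031, 548146, 591607, 547722⟩ false
 (nat_lit 750) (Int.negSucc (nat_lit 2824)) (nat_lit 800) (Int.negSucc (nat_lit 6116)) qL130_60_2_15 = true
 := by decide +kernel

def qL130_60_2_16 : PCt := .one ⟨2008000, 251, 2008000, -1652986, 1199559, 0, 0, 300000, 800000, 850000⟩ ⟨0,
 .pol, .pol, .pol, .pol, .sx 150000 (.aff 12000000 29788141 4062020) (.sx 225000 (.sy 825000 (.aff 12878000
 22993267 6136009) (.aff 20000000 38286797 9428838)) (.sx 262500 (.sx 243750 (.sy 825000 (.aff 13100000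
 22757701 6433427) (.aff 13426000 23141831 6672138)) (.sy 825000 (.aff 1000000 0 0) (.aff 13500000 22950590
 6808104))) (.aff 5000000 6967907 2296242))), .pol, .pol, .sx 150000 (.inf 3316625 301512) .pol, .pol⟩

def hL130_60_2_16 : pcchk ⟨(nat_lit 3), (nat_lit 1000), Int.ofNat (nat_lit 1000), 0, ⟨0, 1⟩, ⟨Int.ofNat
 (nat_lit 60), 200⟩⟩ ⟨650000, 700000, 821443, 806367, 836801, 569665, 592031, 548146, 591607, 547722⟩ false
 (nat_lit 800) (Int.negSucc (nat_lit 6116)) (nat_lit 850) (Int.negSucc (nat_lit 10232)) qL130_60_2_16 = true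
 := by decide +kernel

def qL130_60_2_17 : PCt := .one ⟨2008000, 251, 2008000, -2061413, 1546722, 0, 0, 300000, 850000, 900000⟩ ⟨0,
 .pol, .pol, .pol, .pol, .sx 150000 (.aff 12000000 30677535 3944255) (.sx 225000 (.aff 20000000 41044692
 8795291) (.sx 262500 (.aff 20000000 35325646 10219205) (.sx 281250 (.sy 875000 (.sx 271875 (.aff 17600000
 29566711 9319941) (.sy 862500 (.sy 856250 (.aff 3000000 3512689 1138729) (.sx 276562 (.aff 17800000
 29614499 9530467) (.aff 13800000 22515770 7276678))) (.aff 19400000 32338433 10469277))) (.aff 20000000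
 34328368 10516084)) (.sy 875000 (.sy 862500 (.aff 3000000 3432921 1165189) (.sy 868750 (.sy 865625 (.sy
 864062 (.aff 12000000 19113192 6330707) (.sx 290625 (.sx 285937 (.aff 14400000 23449009 7657467) (.aff
 3000000 3464103 1154701)) (.aff 1500000 855654 292175))) (.sx 290625 (.sx 285937 (.sx 283593 (.aff 20000000
 33293637 10842913) (.sx 284765 (.aff 20000000 33190525 10876599) (.sy 867187 (.aff 13700000 22141031
 7284666) (.aff 20000000 33137206 10894099)))) (.sy 867187 (.aff 5000000 6934461 2307318) (.sy 867968 (.aff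
 13900000 22424381 7420941) (.sx 288281 (.aff 17900000 29331100 9737446) (.aff 5000000 6928204 2309401)))))
 (.aff 3000000 3427249 1167117))) (.sx 290625 (.sx 285937 (.aff 20000000 33314445 10836141) (.sx 288281
 (.aff 20000000 33109858 10903098) (.sy 871875 (.sx 289453 (.sy 870312 (.sy 869531 (.aff 13900000 22387527
 7433157) (.aff 20000000 32971953 10948700)) (.aff 20000000 32994156 10941332)) (.sy 870312 (.aff 13900000
 22347221 7446564) (.aff 20000000 32927427 10963505))) (.aff 20000000 33005058 10937718)))) (.sy 871875 (.sy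
 870312 (.aff 5000000 6863753 2331087) (.sy 871093 (.aff 14000000 22411329 7540830) (.sy 871484 (.sy 871288
 (.sx 295312 (.aff 14400000 23153740 7755119) (.aff 3000000 3421601 1169044)) (.sx 295312 (.sx 292968 (.sx
 291796 (.aff 20000000 32866646 10983780) (.aff 5000000 6905418 2317022)) (.aff 5000000 6884751 2323977))
 (.aff 3000000 3421984 1168913))) (.sy 871679 (.sx 295312 (.sx 292968 (.sx 291796 (.aff 20000000 32870332
 10982549) (.aff 12000000 18992030 6371094)) (.aff 5000000 6885524 2323716)) (.aff 3000000 3422368 1168782))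
 (.sx 295312 (.sx 292968 (.aff 17900000 29152736 9797023) (.aff 5000000 6886296 2323456)) (.aff 3000000
 3422752 1168651)))))) (.sy 873437 (.sy 872656 (.sy 872265 (.sx 295312 (.sx 292968 (.aff 18700000 30537878
 10259063) (.aff 5000000 6887453 2323065)) (.aff 3000000 3423327 1168454)) (.sx 295312 (.sx 292968 (.aff
 20000000 32853864 10988054) (.aff 12800000 20342808 6844680)) (.aff 3000000 3424094 1168193))) (.sy 873046
 (.sx 295312 (.sx 292968 (.aff 20000000 32861216 10985595) (.sx 294140 (.aff 18400000 29973832 10100811)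
 (.aff 5000000 6883683 2324338))) (.aff 3000000 3424860 1167931)) (.sx 295312 (.sx 292968 (.aff 20000000
 32868566 10983139) (.sx 294140 (.aff 20000000 32770026 11016165) (.aff 12000000 18934361 6390499))) (.aff
 5000000 6851251 2335340)))) (.sx 295312 (.aff 18200000 29593607 9996754) (.sy 874218 (.aff 12000000
 18847260 6420032) (.sy 874609 (.aff 14100000 22497233 7628050) (.sy 874804 (.sy 874706 (.aff 14400000
 23015647 7801650) (.sy 874755 (.sx 297656 (.sx 296484 (.aff 20000000 32667788 11050642) (.aff 5000000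
 6863850 2331054)) (.aff 5000000 6843630 2337941)) (.sx 297656 (.sx 296484 (.aff 20000000 32668703 11050332)
 (.aff 5000000 6864042 2330989)) (.aff 5000000 6843822 2337875)))) (.sx 297656 (.aff 17800000 28802599
 9799116) (.aff 5000000 6844301 2337712))))))))))) (.sx 290625 (.aff 20000000 33473585 10784624) (.sy 887500
 (.sx 295312 (.aff 20000000 32952829 10955054) (.sy 881250 (.sx 297656 (.aff 18200000 29542640 10014001)
 (.sy 878125 (.sy 876562 (.aff 14400000 22962447 7819725) (.aff 18500000 29926936 10233257)) (.aff 20000000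
 32599217 11073886))) (.aff 20000000 32750242 11022820))) (.aff 20000000 33053749 10921606))))))), .pol,
 .pol, .sx 150000 (.inf 3415651 292770) (.sx 225000 (.inf 2160247 462911) .pol), .pol⟩

def hL130_60_2_17 : pcchk ⟨(nat_lit 3), (nat_lit 1000), Int.ofNat (nat_lit 1000), 0, ⟨0, 1⟩, ⟨Int.ofNat
 (nat_lit 60), 200⟩⟩ ⟨650000, 700000, 821443, 806367, 836801, 569665, 592031, 548146, 591607, 547722⟩ false
 (nat_lit 850) (Int.negSucc (nat_lit 10232)) (nat_lit 900) (Int.negSucc (nat_lit 15365)) qL130_60_2_17 =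
 true := by decide +kernel

def qL130_60_2_18 : PCt := .one ⟨2008000, 251, 2008000, -5877015, 4980763, 0, 0, 300000, 900000, 950000⟩ ⟨0,
 .pol, .pol, .pol, .pol, .aff 35000000 59702038 19362824, .pol, .pol, .inf 1986622 503368, .pol⟩

def hL130_60_2_18 : pcchk ⟨(nat_lit 3), (nat_lit 1000), Int.ofNat (nat_lit 1000), 0, ⟨0, 1⟩, ⟨Int.ofNat
 (nat_lit 60), 200⟩⟩ ⟨650000, 700000, 821443, 806367, 836801, 569665, 592031, 548146, 591607, 547722⟩ false
 (nat_lit 900) (Int.negSucc (nat_lit 15365)) (nat_lit 950) (Int.negSucc (nat_lit 29999)) qL130_60_2_18 =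
 true := by decide +kernel

def qL130_60_2_19 : PCt := .one ⟨2008000, 251, 2008000, 0, -602400, 0, 0, 300000, 950000, 1000000⟩ ⟨0, .pol,
 .pol, .pol, .pol, .aff 35000000 61294372 18859807, .pol, .pol, .inf 2039608 490291, .pol⟩

def hL130_60_2_19 : pcchk ⟨(nat_lit 3), (nat_lit 1000), Int.ofNat (nat_lit 1000), 0, ⟨0, 1⟩, ⟨Int.ofNat
 (nat_lit 60), 200⟩⟩ ⟨650000, 700000, 821443, 806367, 836801, 569665, 592031, 548146, 591607, 547722⟩ false
 (nat_lit 950) (Int.negSucc (nat_lit 29999)) (nat_lit 1000) (Int.negSucc (nat_lit 29999)) qL130_60_2_19 =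
 true := by decide +kernel

def qL130_60_3_0 : PCt := .one ⟨2008000, 251, 451800, 4072224, 0, 0, 0, 300000, 0, 50000⟩ ⟨50000, .pol,
 .pol, .pol, .pol, .aff 0 55441 18037193, .pol, .pol, .pol, .pol⟩

def hL130_60_3_0 : pcchk ⟨(nat_lit 1), (nat_lit 1000), Int.ofNat (nat_lit 225), 0, ⟨0, 1⟩, ⟨Int.ofNat
 (nat_lit 60), 200⟩⟩ ⟨650000, 700000, 821443, 806367, 836801, 569665, 592031, 548146, 591607, 547722⟩ true 0
 0 (nat_lit 50) (Int.ofNat (nat_lit 10140)) qL130_60_3_0 = true := by decide +kernel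

def qL130_60_3_1 : PCt := .one ⟨2008000, 251, 451800, -3305168, 368869, 0, 0, 300000, 50000, 100000⟩ ⟨0,
 .pol, .pol, .pol, .pol, .sy 75000 .pol (.sy 87500 .pol (.sy 93750 (.aff 500000 388641 643268) (.sy 96875
 (.aff 500000 563657 443533) (.sy 98437 (.sx 150000 (.aff 250000 855816 657268) (.aff 1000000 0 0)) (.sy
 99218 (.sx 150000 (.aff 250000 702950 800200) (.aff 1000000 0 0)) (.sy 99609 (.sx 150000 (.sx 75000 (.aff 0
 1628198 614176) (.aff 500000 470021 531892)) (.aff 1000000 0 0)) (.sx 150000 (.sx 75000 (.aff 0 1332030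
 750734) (.aff 375000 644866 605746)) (.aff 1000000 0 0)))))))), .pol, .pol, .sy 75000 .pol (.sy 87500 .pol
 (.sy 93750 .pol (.sx 150000 (.sx 75000 .pol .pol) .pol))), .pol⟩

def hL130_60_3_1 : pcchk ⟨(nat_lit 1), (nat_lit 1000), Int.ofNat (nat_lit 225), 0, ⟨0, 1⟩, ⟨Int.ofNat
 (nat_lit 60), 200⟩⟩ ⟨650000, 700000, 821443, 806367, 836801, 569665, 592031, 548146, 591607, 547722⟩ false
 (nat_lit 50) (Int.ofNat (nat_lit 10140)) (nat_lit 100) (Int.ofNat (nat_lit 1910)) qL130_60_3_1 = true := by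
 decide +kernel

def qL130_60_3_2 : PCt := .one ⟨2008000, 251, 451800, 93171, 29035, 0, 0, 300000, 100000, 150000⟩ ⟨0, .pol,
 .pol, .pol, .pol, .sx 150000 (.sy 125000 (.sy 112500 (.sx 75000 (.aff 250000 1030777 545705) (.aff 400000
 688498 522878)) (.sx 75000 (.sy 118750 (.aff 250000 1075291 523115) (.aff 326000 869993 522161)) (.aff
 419000 704822 478931))) (.sx 75000 (.sy 137500 (.sy 131250 (.sx 37500 (.aff 0 2614065 382546) (.aff 375000
 862450 452925)) (.sx 37500 (.aff 0 2677064 373544) (.sx 56250 (.aff 250000 1269843 442969) (.aff 381000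
 838973 456703)))) (.sx 37500 (.aff 0 2768875 361158) (.aff 394000 893078 411203))) (.aff 1000000 0 0)))
 (.aff 1000000 0 0), .pol, .pol, .sy 125000 (.sx 150000 (.sx 75000 .pol .pol) .pol) (.sx 150000 (.sx 75000
 .pol .pol) .pol), .pol⟩

def hL130_60_3_2 : pcchk ⟨(nat_lit 1), (nat_lit 1000), Int.ofNat (nat_lit 225), 0, ⟨0, 1⟩, ⟨Int.ofNat
 (nat_lit 60), 200⟩⟩ ⟨650000, 700000, 821443, 806367, 836801, 569665, 592031, 548146, 591607, 547722⟩ false
 (nat_lit 100) (Int.ofNat (nat_lit 1910)) (nat_lit 150) (Int.ofNat (nat_lit 2142)) qL130_60_3_2 = true := by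
 decide +kernel

def qL130_60_3_3 : PCt := .one ⟨2008000, 251, 451800, 39356, 37107, 0, 0, 300000, 150000, 200000⟩ ⟨0, .pol,
 .pol, .pol, .pol, .sx 150000 (.sy 175000 (.sx 75000 (.sy 162500 (.sy 156250 (.sx 37500 (.aff 0 2333334
 428572) (.aff 475000 948881 290474)) (.sy 159375 (.sx 37500 (.aff 0 2051423 487467) (.sx 56250 (.aff 450000
 962526 314278) (.aff 1000000 0 0))) (.sx 37500 (.aff 250000 1794088 313530) (.aff 488000 997339 262844))))
 (.sx 37500 (.aff 375000 1530932 255156) (.aff 488000 996045 263185))) (.aff 1000000 0 0)) (.sx 75000 (.sx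
 37500 (.aff 475000 1173936 234788) (.aff 500000 1000000 250000)) (.aff 1000000 0 0))) (.aff 1000000 0 0),
 .pol, .pol, .sx 150000 .pol .pol, .pol⟩

def hL130_60_3_3 : pcchk ⟨(nat_lit 1), (nat_lit 1000), Int.ofNat (nat_lit 225), 0, ⟨0, 1⟩, ⟨Int.ofNat
 (nat_lit 60), 200⟩⟩ ⟨650000, 700000, 821443, 806367, 836801, 569665, 592031, 548146, 591607, 547722⟩ false
 (nat_lit 150) (Int.ofNat (nat_lit 2142)) (nat_lit 200) (Int.ofNat (nat_lit 2240)) qL130_60_3_3 = true := by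
 decide +kernel

def qL130_60_3_4 : PCt := .one ⟨2008000, 251, 451800, -18072, 48593, 0, 0, 300000, 200000, 250000⟩ ⟨0, .pol,
 .pol, .pol, .pol, .sy 225000 (.sx 150000 (.sy 212500 (.sy 206250 (.sx 75000 (.sy 203125 (.sx 37500 (.aff
 500000 1159203 215666) (.aff 1000000 0 0)) (.sx 37500 (.sx 18750 (.aff 500000 2336308 107007) (.aff 625000
 1108209 126894)) (.aff 1000000 0 0))) (.aff 1000000 0 0)) (.sx 75000 (.sx 37500 (.aff 600000 1271473
 125839) (.aff 1000000 0 0)) (.aff 1000000 0 0))) (.sx 75000 (.sy 218750 (.sx 37500 (.aff 613000 1296079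
 115556) (.aff 1000000 0 0)) (.sx 37500 (.aff 619000 1294345 112151) (.aff 1000000 0 0))) (.aff 1000000 0
 0))) (.aff 1000000 0 0)) (.sy 237500 (.sx 150000 (.sx 75000 (.sx 37500 (.aff 625000 1300598 108124) (.aff
 1000000 0 0)) (.aff 1000000 0 0)) (.aff 1000000 0 0)) (.sx 150000 (.sy 243750 (.sx 75000 (.sx 37500 (.aff
 628000 1299737 106471) (.aff 1000000 0 0)) (.aff 1000000 0 0)) (.sx 75000 (.sx 37500 (.aff 650000 1335122
 91752) (.aff 1000000 0 0)) (.aff 1000000 0 0))) (.aff 1000000 0 0))), .pol, .pol, .sx 150000 .pol .pol,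
 .pol⟩

def hL130_60_3_4 : pcchk ⟨(nat_lit 1), (nat_lit 1000), Int.ofNat (nat_lit 225), 0, ⟨0, 1⟩, ⟨Int.ofNat
 (nat_lit 60), 200⟩⟩ ⟨650000, 700000, 821443, 806367, 836801, 569665, 592031, 548146, 591607, 547722⟩ false
 (nat_lit 200) (Int.ofNat (nat_lit 2240)) (nat_lit 250) (Int.ofNat (nat_lit 2195)) qL130_60_3_4 = true := by
 decide +kernel

def qL130_60_3_5 : PCt := .one ⟨2008000, 251, 451800, -69477, 61444, 0, 0, 300000, 250000, 300000⟩ ⟨0, .pol,
 .pol, .pol, .pol, .sx 150000 (.sy 275000 (.sy 262500 (.sy 256250 (.sy 253125 (.sx 75000 (.sx 37500 (.aff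
 750000 1431222 43669) (.aff 1000000 0 0)) (.aff 1000000 0 0)) (.sx 75000 (.sx 37500 (.aff 750000 1440084
 43401) (.aff 1000000 0 0)) (.aff 1000000 0 0))) (.sy 259375 (.sx 75000 (.sx 37500 (.aff 750000 1448892
 43137) (.aff 1000000 0 0)) (.aff 1000000 0 0)) (.sx 75000 (.sx 37500 (.aff 750000 1457647 42878) (.aff
 1000000 0 0)) (.aff 1000000 0 0)))) (.sy 268750 (.sx 75000 (.aff 750000 1395010 44803) (.aff 1000000 0 0))
 (.sx 75000 (.sx 37500 (.aff 750000 1415318 44160) (.aff 1000000 0 0)) (.aff 1000000 0 0)))) (.sx 75000 (.sy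
 287500 (.sx 37500 (.aff 750000 1439513 43418) (.aff 1000000 0 0)) (.sx 37500 (.aff 775000 1391924 36371)
 (.aff 1000000 0 0))) (.aff 1000000 0 0))) (.aff 1000000 0 0), .pol, .pol, .sx 150000 .pol .pol, .pol⟩

def hL130_60_3_5 : pcchk ⟨(nat_lit 1), (nat_lit 1000), Int.ofNat (nat_lit 225), 0, ⟨0, 1⟩, ⟨Int.ofNat
 (nat_lit 60), 200⟩⟩ ⟨650000, 700000, 821443, 806367, 836801, 569665, 592031, 548146, 591607, 547722⟩ false
 (nat_lit 250) (Int.ofNat (nat_lit 2195)) (nat_lit 300) (Int.ofNat (nat_lit 2022)) qL130_60_3_5 = true := by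
 decide +kernel

def qL130_60_3_6 : PCt := .one ⟨2008000, 251, 451800, -130520, 79757, 0, 0, 300000, 300000, 350000⟩ ⟨0,
 .pol, .pol, .pol, .pol, .sx 150000 (.sx 75000 (.sx 37500 (.sx 18750 (.aff 925000 1200361 4687) (.aff
 1000000 0 0)) (.aff 1000000 0 0)) (.aff 1000000 0 0)) (.aff 1000000 0 0), .pol, .pol, .pol, .pol⟩

def hL130_60_3_6 : pcchk ⟨(nat_lit 1), (nat_lit 1000), Int.ofNat (nat_lit 225), 0, ⟨0, 1⟩, ⟨Int.ofNat
 (nat_lit 60), 200⟩⟩ ⟨650000, 700000, 821443, 806367, 836801, 569665, 592031, 548146, 591607, 547722⟩ false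
 (nat_lit 300) (Int.ofNat (nat_lit 2022)) (nat_lit 350) (Int.ofNat (nat_lit 1697)) qL130_60_3_6 = true := by
 decide +kernel

def qL130_60_3_7 : PCt := .one ⟨2008000, 251, 451800, -181122, 97468, 0, 0, 300000, 350000, 400000⟩ ⟨0,
 .pol, .pol, .pol, .pol, .sx 150000 (.sx 75000 (.sx 37500 (.sx 18750 (.sx 9375 (.aff 1075000 1350867 4164)
 (.aff 1000000 0 0)) (.aff 1000000 0 0)) (.aff 1000000 0 0)) (.aff 1000000 0 0)) (.aff 1000000 0 0), .pol,
 .pol, .pol, .pol⟩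

def hL130_60_3_7 : pcchk ⟨(nat_lit 1), (nat_lit 1000), Int.ofNat (nat_lit 225), 0, ⟨0, 1⟩, ⟨Int.ofNat
 (nat_lit 60), 200⟩⟩ ⟨650000, 700000, 821443, 806367, 836801, 569665, 592031, 548146, 591607, 547722⟩ false
 (nat_lit 350) (Int.ofNat (nat_lit 1697)) (nat_lit 400) (Int.ofNat (nat_lit 1246)) qL130_60_3_7 = true := by
 decide +kernel

def qL130_60_3_8 : PCt := .one ⟨2008000, 251, 451800, -246583, 123652, 0, 0, 300000, 400000, 450000⟩ ⟨0,
 .pol, .pol, .pol, .pol, .sx 150000 (.sx 75000 (.sx 37500 (.aff 1250000 2055928 30400) (.aff 1000000 0 0))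
 (.aff 1000000 0 0)) (.aff 1000000 0 0), .pol, .pol, .pol, .pol⟩

def hL130_60_3_8 : pcchk ⟨(nat_lit 1), (nat_lit 1000), Int.ofNat (nat_lit 225), 0, ⟨0, 1⟩, ⟨Int.ofNat
 (nat_lit 60), 200⟩⟩ ⟨650000, 700000, 821443, 806367, 836801, 569665, 592031, 548146, 591607, 547722⟩ false
 (nat_lit 400) (Int.ofNat (nat_lit 1246)) (nat_lit 450) (Int.ofNat (nat_lit 632)) qL130_60_3_8 = true := by
 decide +kernel

def qL130_60_3_9 : PCt := .one ⟨2008000, 251, 451800, -303208, 149134, 0, 0, 300000, 450000, 500000⟩ ⟨0,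
 .pol, .pol, .pol, .pol, .sx 150000 (.sx 75000 (.sy 475000 (.sy 462500 (.sx 37500 (.sx 18750 (.aff 1450000
 2333609 86776) (.aff 1000000 0 0)) (.aff 1000000 0 0)) (.sx 37500 (.sx 18750 (.aff 1475000 2375000 95000)
 (.aff 1000000 0 0)) (.aff 1000000 0 0))) (.sx 37500 (.aff 1450000 2294559 88253) (.aff 1000000 0 0))) (.aff
 1000000 0 0)) (.aff 1000000 0 0), .pol, .pol, .pol, .pol⟩

def hL130_60_3_9 : pcchk ⟨(nat_lit 1), (nat_lit 1000), Int.ofNat (nat_lit 225), 0, ⟨0, 1⟩, ⟨Int.ofNat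
 (nat_lit 60), 200⟩⟩ ⟨650000, 700000, 821443, 806367, 836801, 569665, 592031, 548146, 591607, 547722⟩ false
 (nat_lit 450) (Int.ofNat (nat_lit 632)) (nat_lit 500) (Int.negSucc (nat_lit 122)) qL130_60_3_9 = true := by
 decide +kernel

def qL130_60_3_10 : PCt := .one ⟨2008000, 251, 451800, -377504, 186282, 0, 0, 300000, 500000, 550000⟩ ⟨0,
 .pol, .pol, .pol, .pol, .sx 150000 (.sy 525000 (.sx 75000 (.sy 512500 (.sy 506250 (.sx 37500 (.aff 1450000
 2331041 86872) (.aff 1000000 0 0)) (.sy 509375 (.sx 37500 (.aff 1444000 2310650 85317) (.aff 1000000 0 0))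
 (.sx 37500 (.sx 18750 (.aff 1500000 3013857 82951) (.aff 1500000 2334524 107089)) (.aff 1000000 0 0))))
 (.sx 37500 (.sx 18750 (.aff 1500000 2629956 95059) (.aff 1512000 2378838 110199)) (.aff 1000000 0 0)))
 (.aff 1000000 0 0)) (.sx 75000 (.sx 37500 (.aff 1700000 2650158 184895) (.aff 1600000 2031749 177188))
 (.aff 1000000 0 0))) (.aff 1000000 0 0), .pol, .pol, .pol, .pol⟩

def hL130_60_3_10 : pcchk ⟨(nat_lit 1), (nat_lit 1000), Int.ofNat (nat_lit 225), 0, ⟨0, 1⟩, ⟨Int.ofNat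
 (nat_lit 60), 200⟩⟩ ⟨650000, 700000, 821443, 806367, 836801, 569665, 592031, 548146, 591607, 547722⟩ false
 (nat_lit 500) (Int.negSucc (nat_lit 122)) (nat_lit 550) (Int.negSucc (nat_lit 1062)) qL130_60_3_10 = true
 := by decide +kernel

def qL130_60_3_11 : PCt := .one ⟨2008000, 251, 451800, -442965, 222285, 0, 0, 300000, 550000, 600000⟩ ⟨0,
 .pol, .pol, .pol, .pol, .sx 150000 (.sx 75000 (.sy 575000 (.sx 37500 (.aff 2000000 4472136 223607) (.aff
 1838000 2711441 258993)) (.sx 37500 (.aff 2000000 4570437 218798) (.sx 56250 (.aff 1900000 2908608 278484)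
 (.aff 1700000 2173501 225443)))) (.aff 1000000 0 0)) (.aff 1000000 0 0), .pol, .pol, .pol, .pol⟩

def hL130_60_3_11 : pcchk ⟨(nat_lit 1), (nat_lit 1000), Int.ofNat (nat_lit 225), 0, ⟨0, 1⟩, ⟨Int.ofNat
 (nat_lit 60), 200⟩⟩ ⟨650000, 700000, 821443, 806367, 836801, 569665, 592031, 548146, 591607, 547722⟩ false
 (nat_lit 550) (Int.negSucc (nat_lit 1062)) (nat_lit 600) (Int.negSucc (nat_lit 2165)) qL130_60_3_11 = true
 := by decide +kernel

def qL130_60_3_12 : PCt := .one ⟨2008000, 251, 451800, -527703, 273128, 0, 0, 300000, 600000, 650000⟩ ⟨0,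
 .pol, .pol, .pol, .pol, .sx 150000 (.sx 75000 (.aff 2000000 3016125 331552) (.aff 1988000 2749688 355002))
 (.aff 1000000 0 0), .pol, .sx 150000 .pol (.aff 1000000 0 0), .pol, .pol⟩

def hL130_60_3_12 : pcchk ⟨(nat_lit 1), (nat_lit 1000), Int.ofNat (nat_lit 225), 0, ⟨0, 1⟩, ⟨Int.ofNat
 (nat_lit 60), 200⟩⟩ ⟨650000, 700000, 821443, 806367, 836801, 569665, 592031, 548146, 591607, 547722⟩ false
 (nat_lit 600) (Int.negSucc (nat_lit 2165)) (nat_lit 650) (Int.negSucc (nat_lit 3479)) qL130_60_3_12 = true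
 := by decide +kernel

def qL130_60_3_13 : PCt := .one ⟨2008000, 251, 451800, 42971, -97810, 0, 0, 300000, 650000, 700000⟩ ⟨0,
 .pol, .pol, .pol, .pol, .sy 675000 (.sy 662500 (.sy 656250 (.sx 150000 (.sx 75000 (.aff 2000000 2950989
 338870) (.aff 2100000 2903389 416755)) (.aff 1000000 0 0)) (.sx 150000 (.aff 1950000 2816821 320397) (.aff
 1000000 0 0))) (.aff 2000000 2986079 334888)) (.aff 2000000 3027651 330290), .pol, .sy 675000 (.sx 150000
 (.aff 1894000 2657051 300799) (.aff 1000000 0 0)) (.sx 150000 (.sx 75000 (.aff 2000000 3027651 330290) (.sx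
 112500 (.aff 3000000 5416026 738549) (.aff 2000000 2375085 421038))) (.aff 1000000 0 0)), .pol, .pol⟩

def hL130_60_3_13 : pcchk ⟨(nat_lit 1), (nat_lit 1000), Int.ofNat (nat_lit 225), 0, ⟨0, 1⟩, ⟨Int.ofNat
 (nat_lit 60), 200⟩⟩ ⟨650000, 700000, 821443, 806367, 836801, 569665, 592031, 548146, 591607, 547722⟩ false
 (nat_lit 650) (Int.negSucc (nat_lit 3479)) (nat_lit 700) (Int.negSucc (nat_lit 3372)) qL130_60_3_13 = true
 := by decide +kernel

def qL130_60_3_14 : PCt := .one ⟨2008000, 251, 451800, 132929, -160781, 0, 0, 300000, 700000, 750000⟩ ⟨0,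
 .pol, .pol, .pol, .pol, .aff 1500000 1099243 227430, .pol, .sx 150000 (.sx 75000 (.aff 3000000 8793938
 454859) (.sx 112500 (.aff 3000000 5561775 719195) (.aff 2225000 2842059 528007))) (.sx 225000 (.aff 2300000
 2694577 627186) (.aff 1000000 0 0)), .pol, .pol⟩

def hL130_60_3_14 : pcchk ⟨(nat_lit 1), (nat_lit 1000), Int.ofNat (nat_lit 225), 0, ⟨0, 1⟩, ⟨Int.ofNat
 (nat_lit 60), 200⟩⟩ ⟨650000, 700000, 821443, 806367, 836801, 569665, 592031, 548146, 591607, 547722⟩ false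
 (nat_lit 700) (Int.negSucc (nat_lit 3372)) (nat_lit 750) (Int.negSucc (nat_lit 3041)) qL130_60_3_14 = true
 := by decide +kernel

def qL130_60_3_15 : PCt := .one ⟨2008000, 251, 451800, 104014, -139095, 0, 0, 300000, 750000, 800000⟩ ⟨0,
 .pol, .pol, .pol, .pol, .aff 1000000 0 0, .pol, .sx 150000 (.aff 3000000 4546061 879883) (.sy 775000 (.sy
 762500 (.sx 225000 (.aff 2300000 2752037 614091) (.aff 1000000 0 0)) (.sy 768750 (.sx 225000 (.sx 187500
 (.aff 2600000 3233162 791795) (.aff 2100000 2169230 557802)) (.aff 1000000 0 0)) (.sy 771875 (.sx 225000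
 (.sx 187500 (.aff 2800000 3648425 888055) (.aff 2200000 2373666 606657)) (.aff 1000000 0 0)) (.sx 225000
 (.sx 187500 (.aff 2900000 3858919 935496) (.aff 2200000 2378475 605430)) (.aff 1000000 0 0))))) (.sx 225000
 (.sx 187500 (.aff 3000000 4205260 951190) (.aff 2550000 3048460 788103)) (.aff 2400000 2516408 778889))),
 .pol, .pol⟩

def hL130_60_3_15 : pcchk ⟨(nat_lit 1), (nat_lit 1000), Int.ofNat (nat_lit 225), 0, ⟨0, 1⟩, ⟨Int.ofNat
 (nat_lit 60), 200⟩⟩ ⟨650000, 700000, 821443, 806367, 836801, 569665, 592031, 548146, 591607, 547722⟩ false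
 (nat_lit 750) (Int.negSucc (nat_lit 3041)) (nat_lit 800) (Int.negSucc (nat_lit 2782)) qL130_60_3_15 = true
 := by decide +kernel

def qL130_60_3_16 : PCt := .one ⟨2008000, 251, 451800, 126504, -157086, 0, 0, 300000, 800000, 850000⟩ ⟨0,
 .pol, .pol, .pol, .pol, .aff 1000000 0 0, .pol, .sx 150000 (.aff 3000000 5416026 738549) (.sx 225000 (.aff
 2800000 3446738 940020) (.sx 262500 (.aff 2650000 3075113 885334) (.aff 2725000 3007255 989483))), .pol,
 .pol⟩

def hL130_60_3_16 : pcchk ⟨(nat_lit 1), (nat_lit 1000), Int.ofNat (nat_lit 225), 0, ⟨0, 1⟩, ⟨Int.ofNat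
 (nat_lit 60), 200⟩⟩ ⟨650000, 700000, 821443, 806367, 836801, 569665, 592031, 548146, 591607, 547722⟩ false
 (nat_lit 800) (Int.negSucc (nat_lit 2782)) (nat_lit 850) (Int.negSucc (nat_lit 2467)) qL130_60_3_16 = true
 := by decide +kernel

def qL130_60_3_17 : PCt := .one ⟨2008000, 251, 451800, -14056, -37610, 0, 0, 300000, 850000, 900000⟩ ⟨0,
 .pol, .pol, .pol, .pol, .aff 1000000 0 0, .pol, .sx 150000 (.aff 3000000 5577734 717138) (.sx 225000 (.aff
 3000000 4320494 925821) (.aff 3450000 4184172 1434573)), .pol, .pol⟩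

def hL130_60_3_17 : pcchk ⟨(nat_lit 1), (nat_lit 1000), Int.ofNat (nat_lit 225), 0, ⟨0, 1⟩, ⟨Int.ofNat
 (nat_lit 60), 200⟩⟩ ⟨650000, 700000, 821443, 806367, 836801, 569665, 592031, 548146, 591607, 547722⟩ false
 (nat_lit 850) (Int.negSucc (nat_lit 2467)) (nat_lit 900) (Int.negSucc (nat_lit 2502)) qL130_60_3_17 = true
 := by decide +kernel

def qL130_60_3_18 : PCt := .one ⟨2008000, 251, 451800, -11042796, 9888255, 0, 0, 300000, 900000, 950000⟩ ⟨0,
 .pol, .pol, .pol, .pol, .aff 1000000 0 0, .pol, .inf 1986622 503368, .inf 1986622 503368, .pol⟩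

def hL130_60_3_18 : pcchk ⟨(nat_lit 1), (nat_lit 1000), Int.ofNat (nat_lit 225), 0, ⟨0, 1⟩, ⟨Int.ofNat
 (nat_lit 60), 200⟩⟩ ⟨650000, 700000, 821443, 806367, 836801, 569665, 592031, 548146, 591607, 547722⟩ false
 (nat_lit 900) (Int.negSucc (nat_lit 2502)) (nat_lit 950) (Int.negSucc (nat_lit 29999)) qL130_60_3_18 = true
 := by decide +kernel

def qL130_60_3_19 : PCt := .one ⟨2008000, 251, 451800, 0, -602400, 0, 0, 300000, 950000, 1000000⟩ ⟨0, .pol,
 .pol, .pol, .pol, .aff 1000000 0 0, .pol, .inf 2039608 490291, .inf 2039608 490291, .pol⟩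

def hL130_60_3_19 : pcchk ⟨(nat_lit 1), (nat_lit 1000), Int.ofNat (nat_lit 225), 0, ⟨0, 1⟩, ⟨Int.ofNat
 (nat_lit 60), 200⟩⟩ ⟨650000, 700000, 821443, 806367, 836801, 569665, 592031, 548146, 591607, 547722⟩ false
 (nat_lit 950) (Int.negSucc (nat_lit 29999)) (nat_lit 1000) (Int.negSucc (nat_lit 29999)) qL130_60_3_19 =
 true := by decide +kernel

def qL130_60_4_0 : PCt := .one ⟨2008000, 251, 502000, 453406, 0, 0, 0, 300000, 0, 50000⟩ ⟨50000, .pol, .pol,
 .pol, .pol, .sx 175000 .pol (.sy 25000 (.sy 12500 (.aff 175000 175411 3880173) (.sx 237500 (.sx 206250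
 (.aff 0 313626 3188512) (.aff 200000 261668 2445848)) (.aff 500000 132068 1892965))) (.sx 237500 (.sy 37500
 (.sx 206250 (.sx 190625 (.aff 125000 361768 2116343) (.aff 166000 321967 2160334)) (.aff 250000 281470
 1998437)) (.aff 250000 345425 1628429)) (.aff 1000000 0 0))), .pol, .pol, .pol, .pol⟩

def hL130_60_4_0 : pcchk ⟨(nat_lit 1), (nat_lit 1000), Int.ofNat (nat_lit 250), 0, ⟨0, 1⟩, ⟨Int.ofNat
 (nat_lit 60), 200⟩⟩ ⟨650000, 700000, 821443, 806367, 836801, 569665, 592031, 548146, 591607, 547722⟩ true 0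
 0 (nat_lit 50) (Int.ofNat (nat_lit 1129)) qL130_60_4_0 = true := by decide +kernel

def qL130_60_4_1 : PCt := .one ⟨2008000, 251, 502000, 222888, 11525, 0, 0, 300000, 50000, 100000⟩ ⟨0, .pol,
 .pol, .pol, .pol, .sx 150000 (.sy 75000 (.sy 62500 (.aff 63000 658372 1333546) (.sy 68750 (.sx 75000 (.aff
 0 1322876 755929) (.sx 112500 (.aff 0 836661 1195228) (.aff 150000 623730 1158354))) (.sx 75000 (.aff 0
 1384438 722315) (.sx 112500 (.aff 125000 766146 999320) (.aff 250000 555010 1013496))))) (.sx 75000 (.aff 0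
 1247220 801784) (.sx 112500 (.aff 175000 759935 895636) (.aff 250000 612373 918558)))) (.aff 500000 288676
 866023), .pol, .pol, .sy 75000 (.sy 62500 (.sx 150000 (.sy 56250 (.sy 53125 (.sy 51562 (.sx 75000 (.sx
 37500 .pol .pol) .pol) (.sx 75000 (.sx 37500 .pol .pol) .pol)) (.sy 54687 (.sx 75000 (.sx 37500 .pol .pol)
 .pol) (.sx 75000 (.sx 37500 .pol .pol) .pol))) (.sy 59375 (.sy 57812 (.sx 75000 (.sx 37500 .pol .pol) .pol)
 (.sx 75000 (.sx 37500 .pol .pol) .pol)) (.sy 60937 (.sx 75000 (.sx 37500 .pol .pol) .pol) (.sx 75000 (.sx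
 37500 .pol .pol) .pol)))) .pol) (.sx 150000 (.sy 68750 (.sy 65625 (.sy 64062 (.sx 75000 (.sx 37500 .pol
 .pol) .pol) (.sx 75000 (.sx 37500 .pol .pol) .pol)) (.sy 67187 (.sx 75000 (.sx 37500 .pol .pol) .pol) (.sx
 75000 (.sx 37500 .pol .pol) .pol))) (.sy 71875 (.sy 70312 (.sx 75000 (.sx 37500 .pol .pol) .pol) (.sx 75000
 (.sx 37500 .pol .pol) .pol)) (.sy 73437 (.sx 75000 (.sx 37500 .pol .pol) .pol) (.sx 75000 (.sx 37500 .pol
 .pol) .pol)))) .pol)) (.sy 87500 (.sx 150000 (.sx 75000 .pol .pol) .pol) (.sx 150000 (.sx 75000 .pol .pol)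
 .pol)), .pol⟩

def hL130_60_4_1 : pcchk ⟨(nat_lit 1), (nat_lit 1000), Int.ofNat (nat_lit 250), 0, ⟨0, 1⟩, ⟨Int.ofNat
 (nat_lit 60), 200⟩⟩ ⟨650000, 700000, 821443, 806367, 836801, 569665, 592031, 548146, 591607, 547722⟩ false
 (nat_lit 50) (Int.ofNat (nat_lit 1129)) (nat_lit 100) (Int.ofNat (nat_lit 1684)) qL130_60_4_1 = true := by
 decide +kernel

def qL130_60_4_2 : PCt := .one ⟨2008000, 251, 502000, 133331, 20481, 0, 0, 300000, 100000, 150000⟩ ⟨0, .pol,
 .pol, .pol, .pol, .sx 150000 (.sy 125000 (.sx 75000 (.aff 250000 1008932 557521) (.aff 313000 791156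
 596557)) (.sy 137500 (.sx 75000 (.sx 37500 (.aff 0 2645752 377965) (.aff 288000 990180 511972)) (.aff
 1000000 0 0)) (.sx 75000 (.sy 143750 (.sy 140625 (.sx 37500 (.aff 0 2723356 367195) (.sx 56250 (.aff 250000
 1291802 435439) (.aff 375000 909810 429348))) (.sx 37500 (.aff 0 2753786 363137) (.sx 56250 (.aff 250000
 1306236 430627) (.aff 375000 919976 424604)))) (.sx 37500 (.aff 0 2285219 437595) (.aff 375000 1106327
 353083))) (.aff 1000000 0 0)))) (.aff 1000000 0 0), .pol, .pol, .sy 125000 (.sy 112500 (.sx 150000 (.sx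
 75000 .pol .pol) .pol) (.sx 150000 (.sx 75000 .pol .pol) .pol)) (.sy 137500 (.sx 150000 (.sx 75000 .pol
 .pol) .pol) (.sx 150000 (.sx 75000 .pol .pol) .pol)), .pol⟩

def hL130_60_4_2 : pcchk ⟨(nat_lit 1), (nat_lit 1000), Int.ofNat (nat_lit 250), 0, ⟨0, 1⟩, ⟨Int.ofNat
 (nat_lit 60), 200⟩⟩ ⟨650000, 700000, 821443, 806367, 836801, 569665, 592031, 548146, 591607, 547722⟩ false
 (nat_lit 100) (Int.ofNat (nat_lit 1684)) (nat_lit 150) (Int.ofNat (nat_lit 2016)) qL130_60_4_2 = true := by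
 decide +kernel

def qL130_60_4_3 : PCt := .one ⟨2008000, 251, 502000, 61846, 31204, 0, 0, 300000, 150000, 200000⟩ ⟨0, .pol,
 .pol, .pol, .pol, .sx 150000 (.sx 75000 (.sy 175000 (.sy 162500 (.sx 37500 (.aff 250000 1767767 318199)
 (.aff 375000 1095075 356711)) (.sy 168750 (.sy 165625 (.sx 37500 (.aff 250000 1811423 310530) (.aff 381000
 1097540 349109)) (.sx 37500 (.aff 250000 1828593 307614) (.sx 56250 (.aff 375000 1125421 347093) (.aff
 1000000 0 0)))) (.sx 37500 (.aff 375000 1545042 252825) (.aff 450000 1163933 259895)))) (.sx 37500 (.aff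
 425000 1285740 257148) (.aff 450000 1100000 275000))) (.aff 1000000 0 0)) (.aff 1000000 0 0), .pol, .pol,
 .sx 150000 .pol .pol, .pol⟩

def hL130_60_4_3 : pcchk ⟨(nat_lit 1), (nat_lit 1000), Int.ofNat (nat_lit 250), 0, ⟨0, 1⟩, ⟨Int.ofNat
 (nat_lit 60), 200⟩⟩ ⟨650000, 700000, 821443, 806367, 836801, 569665, 592031, 548146, 591607, 547722⟩ false
 (nat_lit 150) (Int.ofNat (nat_lit 2016)) (nat_lit 200) (Int.ofNat (nat_lit 2170)) qL130_60_4_3 = true := by
 decide +kernel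

def qL130_60_4_4 : PCt := .one ⟨2008000, 251, 502000, -804, 43734, 0, 0, 300000, 200000, 250000⟩ ⟨0, .pol,
 .pol, .pol, .pol, .sx 150000 (.sy 225000 (.sy 212500 (.sy 206250 (.sx 75000 (.sx 37500 (.aff 500000 1343710
 186053) (.aff 1000000 0 0)) (.aff 1000000 0 0)) (.sx 75000 (.sx 37500 (.aff 500000 1364226 183255) (.aff
 1000000 0 0)) (.aff 1000000 0 0))) (.sy 218750 (.sx 75000 (.sy 215625 (.sy 214062 (.sx 37500 (.sy 213281
 (.aff 503000 1367377 180645) (.aff 509000 1378960 174829)) (.aff 1000000 0 0)) (.sx 37500 (.sx 18750 (.aff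
 500000 1954339 127921) (.aff 550000 1374539 147323)) (.aff 1000000 0 0))) (.sy 217187 (.sx 37500 (.sx 18750
 (.aff 500000 1961433 127458) (.aff 575000 1427242 126556)) (.aff 1000000 0 0)) (.sx 37500 (.sx 18750 (.aff
 500000 1968501 127001) (.aff 575000 1432385 126101)) (.aff 1000000 0 0)))) (.aff 1000000 0 0)) (.sx 75000
 (.sx 37500 (.sx 18750 (.aff 500000 1986063 125878) (.aff 625000 1275145 110282)) (.aff 1000000 0 0)) (.aff
 1000000 0 0)))) (.sy 237500 (.sy 231250 (.sx 75000 (.sy 228125 (.sx 37500 (.sx 18750 (.aff 500000 1738055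
 143839) (.aff 750000 777282 80409)) (.aff 1000000 0 0)) (.sx 37500 (.sx 18750 (.aff 500000 1750000 142858)
 (.aff 1000000 0 0)) (.aff 1000000 0 0))) (.aff 1000000 0 0)) (.sx 75000 (.sx 37500 (.sx 18750 (.aff 625000
 1530932 91856) (.aff 1000000 0 0)) (.aff 1000000 0 0)) (.aff 1000000 0 0))) (.sy 243750 (.sx 75000 (.sx
 37500 (.aff 612000 1498213 100483) (.aff 1000000 0 0)) (.aff 1000000 0 0)) (.sx 75000 (.aff 625000 1448481
 97085) (.aff 1000000 0 0))))) (.aff 1000000 0 0), .pol, .pol, .sx 150000 .pol .pol, .pol⟩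

def hL130_60_4_4 : pcchk ⟨(nat_lit 1), (nat_lit 1000), Int.ofNat (nat_lit 250), 0, ⟨0, 1⟩, ⟨Int.ofNat
 (nat_lit 60), 200⟩⟩ ⟨650000, 700000, 821443, 806367, 836801, 569665, 592031, 548146, 591607, 547722⟩ false
 (nat_lit 200) (Int.ofNat (nat_lit 2170)) (nat_lit 250) (Int.ofNat (nat_lit 2168)) qL130_60_4_4 = true := by
 decide +kernel

def qL130_60_4_5 : PCt := .one ⟨2008000, 251, 502000, -61847, 58995, 0, 0, 300000, 250000, 300000⟩ ⟨0, .pol,
 .pol, .pol, .pol, .sx 150000 (.sy 275000 (.sy 262500 (.sy 256250 (.sy 253125 (.sx 75000 (.sx 37500 (.aff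
 625000 1518040 92636) (.aff 1000000 0 0)) (.aff 1000000 0 0)) (.sx 75000 (.sx 37500 (.aff 625000 1489727
 94397) (.aff 1000000 0 0)) (.aff 1000000 0 0))) (.sy 259375 (.sx 75000 (.sx 37500 (.aff 638000 1521062
 86153) (.aff 1000000 0 0)) (.aff 1000000 0 0)) (.sy 260937 (.sx 75000 (.sx 37500 (.aff 750000 1649255
 37896) (.aff 1000000 0 0)) (.aff 1000000 0 0)) (.sx 75000 (.sx 37500 (.aff 750000 1654200 37783) (.aff
 1000000 0 0)) (.aff 1000000 0 0))))) (.sy 268750 (.sy 265625 (.sx 75000 (.sx 37500 (.aff 750000 1661591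
 37615) (.aff 1000000 0 0)) (.aff 1000000 0 0)) (.sx 75000 (.sx 37500 (.aff 750000 1630127 38341) (.aff
 1000000 0 0)) (.aff 1000000 0 0))) (.sy 271875 (.sx 75000 (.sx 37500 (.aff 750000 1639632 38119) (.aff
 1000000 0 0)) (.aff 1000000 0 0)) (.sx 75000 (.sx 37500 (.aff 750000 1649083 37900) (.aff 1000000 0 0))
 (.aff 1000000 0 0))))) (.sx 75000 (.aff 750000 1593958 39211) (.aff 1000000 0 0))) (.aff 1000000 0 0),
 .pol, .pol, .sx 150000 .pol .pol, .pol⟩

def hL130_60_4_5 : pcchk ⟨(nat_lit 1), (nat_lit 1000), Int.ofNat (nat_lit 250), 0, ⟨0, 1⟩, ⟨Int.ofNat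
 (nat_lit 60), 200⟩⟩ ⟨650000, 700000, 821443, 806367, 836801, 569665, 592031, 548146, 591607, 547722⟩ false
 (nat_lit 250) (Int.ofNat (nat_lit 2168)) (nat_lit 300) (Int.ofNat (nat_lit 2014)) qL130_60_4_5 = true := by
 decide +kernel

def qL130_60_4_6 : PCt := .one ⟨2008000, 251, 502000, -125701, 78151, 0, 0, 300000, 300000, 350000⟩ ⟨0,
 .pol, .pol, .pol, .pol, .sx 150000 (.sx 75000 (.sx 37500 (.sx 18750 (.aff 925000 1257589 4473) (.aff
 1000000 0 0)) (.aff 1000000 0 0)) (.aff 1000000 0 0)) (.aff 1000000 0 0), .pol, .pol, .pol, .pol⟩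

def hL130_60_4_6 : pcchk ⟨(nat_lit 1), (nat_lit 1000), Int.ofNat (nat_lit 250), 0, ⟨0, 1⟩, ⟨Int.ofNat
 (nat_lit 60), 200⟩⟩ ⟨650000, 700000, 821443, 806367, 836801, 569665, 592031, 548146, 591607, 547722⟩ false
 (nat_lit 300) (Int.ofNat (nat_lit 2014)) (nat_lit 350) (Int.ofNat (nat_lit 1701)) qL130_60_4_6 = true := by
 decide +kernel

def qL130_60_4_7 : PCt := .one ⟨2008000, 251, 502000, -185540, 99094, 0, 0, 300000, 350000, 400000⟩ ⟨0,
 .pol, .pol, .pol, .pol, .sx 150000 (.sx 75000 (.sx 37500 (.sx 18750 (.sx 9375 (.aff 1100000 1629753 6136)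
 (.aff 1000000 0 0)) (.aff 1000000 0 0)) (.aff 1000000 0 0)) (.aff 1000000 0 0)) (.aff 1000000 0 0), .pol,
 .pol, .pol, .pol⟩

def hL130_60_4_7 : pcchk ⟨(nat_lit 1), (nat_lit 1000), Int.ofNat (nat_lit 250), 0, ⟨0, 1⟩, ⟨Int.ofNat
 (nat_lit 60), 200⟩⟩ ⟨650000, 700000, 821443, 806367, 836801, 569665, 592031, 548146, 591607, 547722⟩ false
 (nat_lit 350) (Int.ofNat (nat_lit 1701)) (nat_lit 400) (Int.ofNat (nat_lit 1239)) qL130_60_4_7 = true := by
 decide +kernel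

def qL130_60_4_8 : PCt := .one ⟨2008000, 251, 502000, -253008, 126082, 0, 0, 300000, 400000, 450000⟩ ⟨0,
 .pol, .pol, .pol, .pol, .sx 150000 (.sx 75000 (.sy 425000 (.sy 412500 (.sx 37500 (.sx 18750 (.aff 1250000
 2327374 26855) (.aff 1000000 0 0)) (.aff 1000000 0 0)) (.sx 37500 (.sx 18750 (.aff 1250000 2138048 29233)
 (.aff 1000000 0 0)) (.aff 1000000 0 0))) (.sx 37500 (.aff 1332000 2354657 46812) (.aff 1000000 0 0))) (.aff
 1000000 0 0)) (.aff 1000000 0 0), .pol, .pol, .pol, .pol⟩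

def hL130_60_4_8 : pcchk ⟨(nat_lit 1), (nat_lit 1000), Int.ofNat (nat_lit 250), 0, ⟨0, 1⟩, ⟨Int.ofNat
 (nat_lit 60), 200⟩⟩ ⟨650000, 700000, 821443, 806367, 836801, 569665, 592031, 548146, 591607, 547722⟩ false
 (nat_lit 400) (Int.ofNat (nat_lit 1239)) (nat_lit 450) (Int.ofNat (nat_lit 609)) qL130_60_4_8 = true := by
 decide +kernel

def qL130_60_4_9 : PCt := .one ⟨2008000, 251, 502000, -316863, 154816, 0, 0, 300000, 450000, 500000⟩ ⟨0,
 .pol, .pol, .pol, .pol, .sx 150000 (.sx 75000 (.sy 475000 (.sx 37500 (.sx 18750 (.aff 1450000 2580698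
 78468) (.aff 1000000 0 0)) (.aff 1000000 0 0)) (.sx 37500 (.aff 1500000 2549510 98059) (.aff 1000000 0 0)))
 (.aff 1000000 0 0)) (.aff 1000000 0 0), .pol, .pol, .pol, .pol⟩

def hL130_60_4_9 : pcchk ⟨(nat_lit 1), (nat_lit 1000), Int.ofNat (nat_lit 250), 0, ⟨0, 1⟩, ⟨Int.ofNat
 (nat_lit 60), 200⟩⟩ ⟨650000, 700000, 821443, 806367, 836801, 569665, 592031, 548146, 591607, 547722⟩ false
 (nat_lit 450) (Int.ofNat (nat_lit 609)) (nat_lit 500) (Int.negSucc (nat_lit 179)) qL130_60_4_9 = true := by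
 decide +kernel

def qL130_60_4_10 : PCt := .one ⟨2008000, 251, 502000, -394773, 193772, 0, 0, 300000, 500000, 550000⟩ ⟨0,
 .pol, .pol, .pol, .pol, .sx 150000 (.sx 75000 (.sy 525000 (.sy 512500 (.sy 506250 (.sx 37500 (.aff 1500000
 2590046 96524) (.aff 1000000 0 0)) (.sx 37500 (.sx 18750 (.aff 1500000 2606083 95930) (.aff 1550000 2564047
 117978)) (.aff 1000000 0 0))) (.sy 518750 (.sx 37500 (.sx 18750 (.aff 2000000 7416199 134840) (.aff 1550000
 2579729 117261)) (.aff 1000000 0 0)) (.sy 521875 (.sx 37500 (.sx 18750 (.aff 2000000 7449833 134232) (.aff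
 1556000 2587156 119489)) (.aff 1000000 0 0)) (.sx 37500 (.sx 18750 (.aff 2000000 7472171 133830) (.aff
 1563000 2594943 122149)) (.aff 1000000 0 0))))) (.sx 37500 (.aff 1763000 2888672 201536) (.aff 1600000
 2031749 177188))) (.aff 1000000 0 0)) (.aff 1000000 0 0), .pol, .pol, .pol, .pol⟩

def hL130_60_4_10 : pcchk ⟨(nat_lit 1), (nat_lit 1000), Int.ofNat (nat_lit 250), 0, ⟨0, 1⟩, ⟨Int.ofNat
 (nat_lit 60), 200⟩⟩ ⟨650000, 700000, 821443, 806367, 836801, 569665, 592031, 548146, 591607, 547722⟩ false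
 (nat_lit 500) (Int.negSucc (nat_lit 179)) (nat_lit 550) (Int.negSucc (nat_lit 1162)) qL130_60_4_10 = true
 := by decide +kernel

def qL130_60_4_11 : PCt := .one ⟨2008000, 251, 502000, -465053, 232426, 0, 0, 300000, 550000, 600000⟩ ⟨0,
 .pol, .pol, .pol, .pol, .sx 150000 (.sx 75000 (.sx 37500 (.aff 2000000 4521554 221163) (.sy 575000 (.sy
 562500 (.sx 56250 (.aff 1900000 2975302 272242) (.aff 1000000 0 0)) (.sx 56250 (.aff 1938000 3020168
 291323) (.aff 1500000 1471961 169842))) (.sx 56250 (.aff 2000000 3231787 309427) (.aff 1900000 2692848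
 300797)))) (.aff 1000000 0 0)) (.aff 1000000 0 0), .pol, .pol, .pol, .pol⟩

def hL130_60_4_11 : pcchk ⟨(nat_lit 1), (nat_lit 1000), Int.ofNat (nat_lit 250), 0, ⟨0, 1⟩, ⟨Int.ofNat
 (nat_lit 60), 200⟩⟩ ⟨650000, 700000, 821443, 806367, 836801, 569665, 592031, 548146, 591607, 547722⟩ false
 (nat_lit 550) (Int.negSucc (nat_lit 1162)) (nat_lit 600) (Int.negSucc (nat_lit 2320)) qL130_60_4_11 = true
 := by decide +kernel

def qL130_60_4_12 : PCt := .one ⟨2008000, 251, 502000, -555012, 286401, 0, 0, 300000, 600000, 650000⟩ ⟨0,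
 .pol, .pol, .pol, .pol, .sx 150000 (.sx 75000 (.sx 37500 (.aff 2000000 4714046 212132) (.aff 2038000
 3124247 344866)) (.aff 2075000 2991817 386262)) (.aff 1000000 0 0), .pol, .sx 150000 .pol (.aff 1000000 0
 0), .pol, .pol⟩

def hL130_60_4_12 : pcchk ⟨(nat_lit 1), (nat_lit 1000), Int.ofNat (nat_lit 250), 0, ⟨0, 1⟩, ⟨Int.ofNat
 (nat_lit 60), 200⟩⟩ ⟨650000, 700000, 821443, 806367, 836801, 569665, 592031, 548146, 591607, 547722⟩ false
 (nat_lit 600) (Int.negSucc (nat_lit 2320)) (nat_lit 650) (Int.negSucc (nat_lit 3702)) qL130_60_4_12 = true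
 := by decide +kernel

def qL130_60_4_13 : PCt := .one ⟨2008000, 251, 502000, 10843, -81405, 0, 0, 300000, 650000, 700000⟩ ⟨0,
 .pol, .pol, .pol, .pol, .sy 675000 (.sy 662500 (.sy 656250 (.sx 150000 (.sx 75000 (.aff 3000000 6815017
 586940) (.aff 2200000 3167334 454642)) (.aff 1000000 0 0)) (.sx 150000 (.aff 2050000 3113329 354123) (.aff
 1000000 0 0))) (.aff 2000000 2986079 334888)) (.aff 2000000 3027651 330290), .pol, .sx 150000 (.sy 675000
 (.sx 75000 (.aff 2000000 3431877 291386) (.aff 2000000 2658321 376178)) (.sx 75000 (.aff 3000000 6992059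
 572078) (.sx 112500 (.aff 3000000 5416026 738549) (.aff 2200000 2850102 505246)))) (.aff 1000000 0 0),
 .pol, .pol⟩

def hL130_60_4_13 : pcchk ⟨(nat_lit 1), (nat_lit 1000), Int.ofNat (nat_lit 250), 0, ⟨0, 1⟩, ⟨Int.ofNat
 (nat_lit 60), 200⟩⟩ ⟨650000, 700000, 821443, 806367, 836801, 569665, 592031, 548146, 591607, 547722⟩ false
 (nat_lit 650) (Int.negSucc (nat_lit 3702)) (nat_lit 700) (Int.negSucc (nat_lit 3675)) qL130_60_4_13 = true
 := by decide +kernel

def qL130_60_4_14 : PCt := .one ⟨2008000, 251, 502000, 91564, -137910, 0, 0, 300000, 700000, 750000⟩ ⟨0,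
 .pol, .pol, .pol, .pol, .aff 1500000 1099243 227430, .pol, .sx 150000 (.sx 75000 (.aff 3000000 7180220
 557086) (.sx 112500 (.aff 3000000 5561775 719195) (.sx 131250 (.aff 2700000 3995474 723319) (.aff 2600000
 3517575 727775)))) (.sx 225000 (.aff 2550000 3212764 747799) (.aff 1000000 0 0)), .pol, .pol⟩

def hL130_60_4_14 : pcchk ⟨(nat_lit 1), (nat_lit 1000), Int.ofNat (nat_lit 250), 0, ⟨0, 1⟩, ⟨Int.ofNat
 (nat_lit 60), 200⟩⟩ ⟨650000, 700000, 821443, 806367, 836801, 569665, 592031, 548146, 591607, 547722⟩ false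
 (nat_lit 700) (Int.negSucc (nat_lit 3675)) (nat_lit 750) (Int.negSucc (nat_lit 3447)) qL130_60_4_14 = true
 := by decide +kernel

def qL130_60_4_15 : PCt := .one ⟨2008000, 251, 502000, 59838, -114115, 0, 0, 300000, 750000, 800000⟩ ⟨0,
 .pol, .pol, .pol, .pol, .aff 1000000 0 0, .pol, .sx 150000 (.aff 3000000 4546061 879883) (.sx 225000 (.sx
 187500 (.aff 2800000 3659509 885365) (.aff 2800000 3587473 903143)) (.aff 2200000 2139734 672981)), .pol,
 .pol⟩

def hL130_60_4_15 : pcchk ⟨(nat_lit 1), (nat_lit 1000), Int.ofNat (nat_lit 250), 0, ⟨0, 1⟩, ⟨Int.ofNat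
 (nat_lit 60), 200⟩⟩ ⟨650000, 700000, 821443, 806367, 836801, 569665, 592031, 548146, 591607, 547722⟩ false
 (nat_lit 750) (Int.negSucc (nat_lit 3447)) (nat_lit 800) (Int.negSucc (nat_lit 3298)) qL130_60_4_15 = true
 := by decide +kernel

def qL130_60_4_16 : PCt := .one ⟨2008000, 251, 502000, 28513, -89055, 0, 0, 300000, 800000, 850000⟩ ⟨0,
 .pol, .pol, .pol, .pol, .aff 1000000 0 0, .pol, .sx 150000 (.aff 3000000 5416026 738549) (.sy 825000 (.sx
 225000 (.aff 2900000 3771103 957280) (.aff 2900000 3468910 1040673)) (.sy 837500 (.sx 225000 (.aff 3000000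
 4015123 996234) (.sx 262500 (.aff 3000000 3693376 1083020) (.aff 3000000 3438346 1163351))) (.sy 843750
 (.sx 225000 (.aff 3000000 4037702 990663) (.aff 3100000 3757992 1173500)) (.sx 225000 (.aff 3000000 4052684
 987001) (.aff 3162000 3835059 1218820))))), .pol, .pol⟩

def hL130_60_4_16 : pcchk ⟨(nat_lit 1), (nat_lit 1000), Int.ofNat (nat_lit 250), 0, ⟨0, 1⟩, ⟨Int.ofNat
 (nat_lit 60), 200⟩⟩ ⟨650000, 700000, 821443, 806367, 836801, 569665, 592031, 548146, 591607, 547722⟩ false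
 (nat_lit 800) (Int.negSucc (nat_lit 3298)) (nat_lit 850) (Int.negSucc (nat_lit 3227)) qL130_60_4_16 = true
 := by decide +kernel

def qL130_60_4_17 : PCt := .one ⟨2008000, 251, 502000, -2008, -63112, 0, 0, 300000, 850000, 900000⟩ ⟨0,
 .pol, .pol, .pol, .pol, .aff 1000000 0 0, .pol, .sx 150000 (.aff 3000000 5577734 717138) (.sx 225000 (.aff
 5000000 8640988 1851641) (.sx 262500 (.aff 5000000 7578648 2111195) (.aff 3396000 4121803 1392793))), .pol,
 .pol⟩

def hL130_60_4_17 : pcchk ⟨(nat_lit 1), (nat_lit 1000), Int.ofNat (nat_lit 250), 0, ⟨0, 1⟩, ⟨Int.ofNat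
 (nat_lit 60), 200⟩⟩ ⟨650000, 700000, 821443, 806367, 836801, 569665, 592031, 548146, 591607, 547722⟩ false
 (nat_lit 850) (Int.negSucc (nat_lit 3227)) (nat_lit 900) (Int.negSucc (nat_lit 3232)) qL130_60_4_17 = true
 := by decide +kernel

def qL130_60_4_18 : PCt := .one ⟨2008000, 251, 502000, -10749628, 9609745, 0, 0, 300000, 900000, 950000⟩ ⟨0,
 .pol, .pol, .pol, .pol, .aff 1000000 0 0, .pol, .inf 1986622 503368, .inf 1986622 503368, .pol⟩

def hL130_60_4_18 : pcchk ⟨(nat_lit 1), (nat_lit 1000), Int.ofNat (nat_lit 250), 0, ⟨0, 1⟩, ⟨Int.ofNat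
 (nat_lit 60), 200⟩⟩ ⟨650000, 700000, 821443, 806367, 836801, 569665, 592031, 548146, 591607, 547722⟩ false
 (nat_lit 900) (Int.negSucc (nat_lit 3232)) (nat_lit 950) (Int.negSucc (nat_lit 29999)) qL130_60_4_18 = true
 := by decide +kernel

def qL130_60_4_19 : PCt := .one ⟨2008000, 251, 502000, 0, -602400, 0, 0, 300000, 950000, 1000000⟩ ⟨0, .pol,
 .pol, .pol, .pol, .aff 1000000 0 0, .pol, .inf 2039608 490291, .inf 2039608 490291, .pol⟩

def hL130_60_4_19 : pcchk ⟨(nat_lit 1), (nat_lit 1000), Int.ofNat (nat_lit 250), 0, ⟨0, 1⟩, ⟨Int.ofNat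
 (nat_lit 60), 200⟩⟩ ⟨650000, 700000, 821443, 806367, 836801, 569665, 592031, 548146, 591607, 547722⟩ false
 (nat_lit 950) (Int.negSucc (nat_lit 29999)) (nat_lit 1000) (Int.negSucc (nat_lit 29999)) qL130_60_4_19 =
 true := by decide +kernel

def qL130_60_5_0 : PCt := .one ⟨2008000, 251, 803200, 152608, 0, 0, 0, 300000, 0, 50000⟩ ⟨12500, .aff
 2000000 500000, .pol, .pol, .pol, .aff 0 1719103 581699, .aff 0 2236068 447214, .pol, .pol, .pol⟩

def hL130_60_5_0 : pcchk ⟨(nat_lit 1), (nat_lit 1000), Int.ofNat (nat_lit 400), 0, ⟨0, 1⟩, ⟨Int.ofNat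
 (nat_lit 60), 200⟩⟩ ⟨650000, 700000, 821443, 806367, 836801, 569665, 592031, 548146, 591607, 547722⟩ true 0
 0 (nat_lit 50) (Int.ofNat (nat_lit 380)) qL130_60_5_0 = true := by decide +kernel

def qL130_60_5_1 : PCt := .one ⟨2008000, 251, 803200, 186744, -1707, 0, 0, 300000, 50000, 100000⟩ ⟨0, .pol,
 .pol, .pol, .pol, .sy 75000 (.sx 150000 (.sx 75000 (.sx 37500 (.aff 0 2174909 459790) (.aff 0 1054093
 948683)) .pol) .pol) (.sy 87500 (.sy 81250 (.sx 150000 (.sx 75000 (.aff 0 2092916 477803) .pol) .pol) (.sy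
 84375 (.sx 150000 (.sx 75000 (.aff 0 2101587 475831) .pol) .pol) (.sx 150000 (.sx 75000 (.aff 0 2114278
 472975) (.aff 0 874008 1144155)) .pol))) (.sx 150000 (.sy 93750 (.sx 75000 (.sx 37500 (.aff 0 2198485
 454859) (.aff 0 1269296 787839)) (.aff 0 897528 1114172)) (.sx 75000 (.sx 37500 (.aff 0 2162174 462498)
 (.aff 0 1312335 762001)) (.aff 0 927961 1077632))) .pol)), .pol, .pol, .sx 150000 (.sx 75000 (.sx 37500
 .pol .pol) .pol) .pol, .pol⟩

def hL130_60_5_1 : pcchk ⟨(nat_lit 1), (nat_lit 1000), Int.ofNat (nat_lit 400), 0, ⟨0, 1⟩, ⟨Int.ofNat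
 (nat_lit 60), 200⟩⟩ ⟨650000, 700000, 821443, 806367, 836801, 569665, 592031, 548146, 591607, 547722⟩ false
 (nat_lit 50) (Int.ofNat (nat_lit 380)) (nat_lit 100) (Int.ofNat (nat_lit 845)) qL130_60_5_1 = true := by
 decide +kernel

def qL130_60_5_2 : PCt := .one ⟨2008000, 251, 803200, 245377, -7571, 0, 0, 300000, 100000, 150000⟩ ⟨0, .pol,
 .pol, .pol, .pol, .sx 150000 (.sx 75000 (.sx 37500 (.aff 0 2161555 462630) (.aff 0 1632994 612373)) (.aff 0
 1054093 948683)) .pol, .pol, .pol, .sx 150000 (.sx 75000 .pol .pol) .pol, .pol⟩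

def hL130_60_5_2 : pcchk ⟨(nat_lit 1), (nat_lit 1000), Int.ofNat (nat_lit 400), 0, ⟨0, 1⟩, ⟨Int.ofNat
 (nat_lit 60), 200⟩⟩ ⟨650000, 700000, 821443, 806367, 836801, 569665, 592031, 548146, 591607, 547722⟩ false
 (nat_lit 100) (Int.ofNat (nat_lit 845)) (nat_lit 150) (Int.ofNat (nat_lit 1456)) qL130_60_5_2 = true := by
 decide +kernel

def qL130_60_5_3 : PCt := .one ⟨2008000, 251, 803200, 153812, 6164, 0, 0, 300000, 150000, 200000⟩ ⟨0, .pol,
 .pol, .pol, .pol, .sy 175000 (.sy 162500 (.sy 156250 (.sy 153125 (.sy 151562 (.sx 150000 (.sx 75000 (.aff 0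
 2005200 498704) (.aff 0 1157703 863780)) .pol) (.sx 150000 (.sx 75000 (.aff 0 2015563 496140) (.aff 0
 1163686 859339)) .pol)) (.sy 154687 (.sx 150000 (.sx 75000 (.aff 0 2025873 493615) (.aff 0 1169639 854965))
 .pol) (.sx 150000 (.sx 75000 (.aff 0 2036131 491128) (.aff 0 1175561 850658)) .pol))) (.sy 159375 (.sx
 150000 (.sx 75000 (.aff 0 2051423 487467) (.aff 0 1184390 844317)) (.aff 0 837490 1194045)) (.sx 150000
 (.sy 160937 (.sx 75000 (.sy 160156 (.aff 3000 2057885 483025) (.aff 20000 2079066 461939)) (.aff 0 1193151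
 838117)) (.sx 75000 (.sx 37500 (.aff 0 2295059 435719) (.aff 500000 847791 294884)) (.aff 0 1198957
 834059))) (.aff 0 845741 1182396)))) (.sy 168750 (.sy 165625 (.sy 164062 (.sx 150000 (.sx 75000 (.sx 37500
 (.aff 25000 2138807 444466) (.aff 500000 851877 293470)) (.aff 0 1204736 830058)) (.aff 0 851877 1173879))
 (.sx 150000 (.sx 75000 (.sx 37500 (.sx 18750 (.aff 0 4193246 238479) (.aff 125000 2118350 361426)) (.aff
 500000 855943 292076)) (.aff 0 1210486 826115)) (.aff 0 855943 1168303))) (.sy 167187 (.sy 166406 (.sx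
 150000 (.sx 75000 (.sx 37500 (.sx 18750 (.aff 0 3435921 291043) (.aff 125000 2125868 360148)) (.aff 500000
 858981 291043)) (.aff 0 1214782 823193)) (.aff 0 858981 1164171)) (.sx 150000 (.sy 166796 (.sx 75000 (.sx
 37500 (.sx 18750 (.aff 0 3441974 290531) (.aff 125000 2129613 359514)) (.aff 500000 860494 290531)) (.aff 0
 1216922 821746)) (.sy 166991 (.sx 75000 (.sx 37500 (.sx 18750 (.aff 0 3444994 290277) (.aff 125000 2131482
 359199)) (.aff 500000 861249 290277)) (.aff 0 1217990 821025)) (.sy 167089 (.sy 167040 (.sx 75000 (.sx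
 37500 (.sx 18750 (.aff 0 3446253 290171) (.aff 125000 2132261 359068)) (.aff 500000 861564 290170)) (.aff 0
 1218435 820725)) (.sy 167064 (.sy 167052 (.sx 75000 (.sx 37500 (.sx 18750 (.aff 0 3446568 290144) (.aff
 125000 2132455 359035)) (.aff 500000 861642 290144)) (.aff 0 1218546 820651)) (.sx 75000 (.sx 37500 (.sx
 18750 (.aff 0 3446692 290134) (.aff 125000 2132532 359022)) (.aff 500000 861673 290134)) (.aff 0 1218590
 820621))) (.sx 75000 (.sx 37500 (.sx 18750 (.aff 0 3446883 290118) (.aff 125000 2132650 359002)) (.aff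
 500000 861721 290118)) (.aff 0 1218657 820576)))) (.sx 75000 (.sx 37500 (.sx 18750 (.aff 0 3447517 290064)
 (.aff 125000 2133042 358936)) (.aff 500000 861880 290064)) (.aff 0 1218882 820424))))) (.aff 0 860999
 1161442))) (.sy 167968 (.sx 150000 (.sx 75000 (.sx 37500 (.aff 75000 2257893 378949) (.aff 500000 863012
 289684)) (.aff 0 1220483 819348)) (.aff 0 863012 1158733)) (.sx 150000 (.sx 75000 (.sx 37500 (.aff 75000
 2263152 378068) (.aff 500000 865022 289010)) (.aff 0 1223326 817444)) (.aff 0 865022 1156040))))) (.sy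
 171875 (.sx 150000 (.sy 170312 (.sx 75000 (.sx 37500 (.aff 100000 2209637 366577) (.aff 500000 868028
 288010)) (.aff 0 1227576 814614)) (.sx 75000 (.sx 37500 (.aff 100000 2219796 364899) (.aff 500000 872019
 286692)) (.aff 0 1233220 810886))) (.aff 0 870026 1149391)) (.sy 173437 (.sx 150000 (.sx 75000 (.sx 37500
 (.aff 100000 2229909 363244) (.aff 1000000 0 0)) (.aff 0 1357080 736877)) (.aff 0 875991 1141565)) (.sx
 150000 (.sx 75000 (.sx 37500 (.aff 126000 2230333 342495) (.aff 1000000 0 0)) (.aff 0 1363207 733565))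
 (.aff 0 879946 1136434)))))) (.sy 187500 (.sy 181250 (.sy 178125 (.sy 176562 (.sy 175781 (.sx 150000 (.sx
 75000 (.sx 37500 (.aff 113000 2215034 355195) (.aff 1000000 0 0)) (.aff 0 1367784 731110)) (.aff 0 882901
 1132630)) (.sx 150000 (.sx 75000 (.sx 37500 (.aff 113000 2219961 354407) (.aff 1000000 0 0)) (.aff 0
 1370826 729488)) (.aff 0 884865 1130116))) (.sy 177343 (.sx 150000 (.sx 75000 (.sx 37500 (.aff 225000
 2380836 252275) (.aff 1000000 0 0)) (.aff 1000000 0 0)) (.aff 0 886824 1127620)) (.sy 177734 (.sx 150000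
 (.sx 75000 (.aff 244000 2326310 245684) (.aff 1000000 0 0)) (.aff 0 888291 1125758)) (.sy 177929 (.sx
 150000 (.sx 75000 (.aff 244000 2328228 245482) (.aff 1000000 0 0)) (.aff 0 889024 1124830)) (.sx 150000
 (.sy 178027 (.sx 75000 (.aff 244000 2329187 245381) (.aff 1000000 0 0)) (.sx 75000 (.sx 37500 (.aff 225000
 2388382 251478) (.aff 1000000 0 0)) (.aff 1000000 0 0))) (.aff 0 889512 1124212)))))) (.sy 179687 (.sx
 150000 (.sx 75000 (.aff 247000 2325985 243772) (.aff 1000000 0 0)) (.aff 0 891705 1121448)) (.sy 180468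
 (.sx 150000 (.sx 75000 (.aff 250000 2324291 242010) (.aff 1000000 0 0)) (.aff 0 894620 1117794)) (.sx
 150000 (.sx 75000 (.aff 250000 2329329 241486) (.aff 1000000 0 0)) (.aff 0 896559 1115376))))) (.sy 184375
 (.sy 182812 (.sx 150000 (.sx 75000 (.aff 250000 2336864 240708) (.aff 1000000 0 0)) (.aff 0 899460
 1111779)) (.sy 183593 (.sx 150000 (.sx 75000 (.aff 257000 2322491 237697) (.aff 1000000 0 0)) (.aff 0
 902349 1108219)) (.sx 150000 (.sx 75000 (.aff 257000 2327439 237192) (.aff 1000000 0 0)) (.aff 0 904272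
 1105862)))) (.sy 185937 (.sy 185156 (.sx 150000 (.sx 75000 (.aff 263000 2313542 234779) (.aff 1000000 0 0))
 (.aff 0 906190 1103522)) (.sx 150000 (.sx 75000 (.aff 263000 2318426 234284) (.aff 1000000 0 0)) (.aff 0
 908104 1101196))) (.sy 186718 (.sx 150000 (.sx 75000 (.aff 263000 2323301 233792) (.aff 1000000 0 0)) (.aff
 0 910013 1098886)) (.sx 150000 (.sx 75000 (.aff 263000 2328168 233304) (.aff 1000000 0 0)) (.aff 0 911919
 1096589)))))) (.sy 193750 (.sy 190625 (.sy 189062 (.sx 150000 (.sx 75000 (.aff 275000 2297422 228790) (.aff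
 1000000 0 0)) (.aff 0 914771 1093170)) (.sy 189843 (.sx 150000 (.sx 75000 (.aff 275000 2304558 228081)
 (.aff 1000000 0 0)) (.aff 0 917612 1089786)) (.sx 150000 (.sx 75000 (.aff 275000 2309306 227612) (.aff
 1000000 0 0)) (.aff 0 919503 1087545)))) (.sy 192187 (.sx 150000 (.sx 75000 (.aff 275000 2316409 226914)
 (.aff 1000000 0 0)) (.aff 0 922331 1084210)) (.sx 150000 (.sx 75000 (.aff 275000 2325844 225994) (.aff
 1000000 0 0)) (.aff 0 926088 1079811)))) (.sy 196875 (.sy 195312 (.sx 150000 (.sx 75000 (.aff 275000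
 2335242 225084) (.aff 1000000 0 0)) (.aff 0 929830 1075466)) (.sy 196093 (.sx 150000 (.sx 75000 (.aff
 300000 2261495 216671) (.aff 1000000 0 0)) (.aff 0 932625 1072243)) (.sy 196484 (.sx 150000 (.sx 75000
 (.aff 300000 2264879 216348) (.aff 1000000 0 0)) (.aff 0 934020 1070641)) (.sx 150000 (.sx 75000 (.aff
 300000 2267133 216133) (.aff 1000000 0 0)) (.aff 0 934950 1069576))))) (.sx 150000 (.sx 75000 (.aff 300000
 2277243 215173) (.aff 1000000 0 0)) (.aff 0 939119 1064828))))), .pol, .pol, .sx 150000 .pol .pol, .pol⟩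

def hL130_60_5_3 : pcchk ⟨(nat_lit 1), (nat_lit 1000), Int.ofNat (nat_lit 400), 0, ⟨0, 1⟩, ⟨Int.ofNat
 (nat_lit 60), 200⟩⟩ ⟨650000, 700000, 821443, 806367, 836801, 569665, 592031, 548146, 591607, 547722⟩ false
 (nat_lit 150) (Int.ofNat (nat_lit 1456)) (nat_lit 200) (Int.ofNat (nat_lit 1839)) qL130_60_5_3 = true := by
 decide +kernel

def qL130_60_5_4 : PCt := .one ⟨2008000, 251, 803200, 65059, 23915, 0, 0, 300000, 200000, 250000⟩ ⟨0, .pol,
 .pol, .pol, .pol, .sy 225000 (.sy 212500 (.sy 206250 (.sy 203125 (.sy 201562 (.sx 150000 (.sx 75000 (.aff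
 275000 2372459 221553) (.aff 1000000 0 0)) (.aff 0 944649 1058595)) (.sx 150000 (.sx 75000 (.aff 350000
 2359864 179036) (.aff 1000000 0 0)) (.aff 0 948317 1054500))) (.sx 150000 (.sx 75000 (.aff 300000 2312827
 211862) (.aff 1000000 0 0)) (.aff 0 953794 1048445))) (.sy 209375 (.sy 207812 (.sx 150000 (.sx 75000 (.aff
 300000 2326029 210660) (.aff 1000000 0 0)) (.aff 0 959239 1042494)) (.sx 150000 (.sx 75000 (.aff 300000
 2334790 209869) (.aff 1000000 0 0)) (.aff 0 1054751 948092))) (.sx 150000 (.sy 210937 (.sx 75000 (.aff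
 300000 2343519 209088) (.aff 1000000 0 0)) (.sx 75000 (.sx 37500 (.aff 325000 2506756 181759) (.aff 1000000
 0 0)) (.aff 1000000 0 0))) (.aff 0 1060661 942809)))) (.sy 218750 (.sy 215625 (.sx 150000 (.sy 214062 (.sx
 75000 (.sx 37500 (.aff 375000 2329620 167678) (.aff 1000000 0 0)) (.aff 1000000 0 0)) (.sx 75000 (.aff
 350000 2431663 173750) (.aff 1000000 0 0))) (.aff 1000000 0 0)) (.sx 150000 (.sy 217187 (.sy 216406 (.sx
 75000 (.aff 375000 2344506 166613) (.aff 1000000 0 0)) (.sx 75000 (.sx 37500 (.aff 375000 2348741 166313)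
 (.aff 1000000 0 0)) (.aff 1000000 0 0))) (.sx 75000 (.sx 37500 (.aff 375000 2355081 165865) (.aff 1000000 0
 0)) (.aff 1000000 0 0))) (.aff 1000000 0 0))) (.sy 221875 (.sy 220312 (.sx 150000 (.sy 219531 (.sy 219140
 (.sx 75000 (.sx 37500 (.aff 375000 2360350 165495) (.aff 1000000 0 0)) (.aff 1000000 0 0)) (.sy 219335 (.sy
 219237 (.sx 75000 (.sx 37500 (.aff 375000 2361662 165403) (.aff 1000000 0 0)) (.aff 1000000 0 0)) (.sx
 75000 (.sx 37500 (.aff 375000 2362188 165366) (.aff 1000000 0 0)) (.aff 1000000 0 0))) (.sx 75000 (.sx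
 37500 (.aff 375000 2362979 165311) (.aff 1000000 0 0)) (.aff 1000000 0 0)))) (.sx 75000 (.sx 37500 (.aff
 375000 2365608 165127) (.aff 1000000 0 0)) (.aff 1000000 0 0))) (.aff 1000000 0 0)) (.sy 221093 (.sx 150000
 (.sy 220702 (.sx 75000 (.sx 37500 (.aff 375000 2368755 164908) (.aff 1000000 0 0)) (.aff 1000000 0 0)) (.sx
 75000 (.sx 37500 (.aff 400000 2515388 143120) (.aff 1000000 0 0)) (.aff 1000000 0 0))) (.aff 1000000 0 0))
 (.sx 150000 (.sx 75000 (.sx 37500 (.aff 400000 2518725 142930) (.aff 1000000 0 0)) (.aff 1000000 0 0))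
 (.aff 1000000 0 0)))) (.sx 150000 (.sy 223437 (.sx 75000 (.aff 357000 2388360 173111) (.aff 1000000 0 0))
 (.sy 224218 (.sx 75000 (.sx 37500 (.aff 400000 2532015 142180) (.aff 1000000 0 0)) (.aff 1000000 0 0)) (.sy
 224609 (.sx 75000 (.sx 37500 (.aff 400000 2535328 141994) (.aff 1000000 0 0)) (.aff 1000000 0 0)) (.sx
 75000 (.sx 37500 (.aff 400000 2537535 141870) (.aff 1000000 0 0)) (.aff 1000000 0 0))))) (.aff 1000000 0
 0))))) (.sx 150000 (.sx 75000 (.aff 420000 2459013 136803) (.aff 1000000 0 0)) (.aff 1000000 0 0)), .pol,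
 .pol, .sx 150000 .pol .pol, .pol⟩

def hL130_60_5_4 : pcchk ⟨(nat_lit 1), (nat_lit 1000), Int.ofNat (nat_lit 400), 0, ⟨0, 1⟩, ⟨Int.ofNat
 (nat_lit 60), 200⟩⟩ ⟨650000, 700000, 821443, 806367, 836801, 569665, 592031, 548146, 591607, 547722⟩ false
 (nat_lit 200) (Int.ofNat (nat_lit 1839)) (nat_lit 250) (Int.ofNat (nat_lit 2001)) qL130_60_5_4 = true := by
 decide +kernel

def qL130_60_5_5 : PCt := .one ⟨2008000, 251, 803200, -6828, 41886, 0, 0, 300000, 250000, 300000⟩ ⟨0, .pol,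
 .pol, .pol, .pol, .sx 150000 (.sy 275000 (.sy 262500 (.sy 256250 (.sx 75000 (.aff 450000 2468247 122557)
 (.aff 1000000 0 0)) (.sx 75000 (.aff 475000 2507243 109932) (.aff 1000000 0 0))) (.sy 268750 (.sy 265625
 (.sx 75000 (.aff 500000 2532860 98703) (.aff 1000000 0 0)) (.sy 267187 (.sy 266406 (.sx 75000 (.aff 507000
 2538148 95759) (.aff 1000000 0 0)) (.sx 75000 (.aff 513000 2542519 93282) (.aff 1000000 0 0))) (.sx 75000
 (.sx 37500 (.aff 563000 2582065 73960) (.aff 1000000 0 0)) (.aff 1000000 0 0)))) (.sy 271875 (.sx 75000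
 (.sx 37500 (.aff 575000 2651433 68124) (.aff 1000000 0 0)) (.aff 1000000 0 0)) (.sx 75000 (.sx 37500 (.aff
 600000 2638532 60640) (.aff 1000000 0 0)) (.aff 1000000 0 0))))) (.sx 75000 (.aff 619000 2651323 54751)
 (.aff 1000000 0 0))) (.aff 1000000 0 0), .pol, .pol, .sx 150000 .pol .pol, .pol⟩

def hL130_60_5_5 : pcchk ⟨(nat_lit 1), (nat_lit 1000), Int.ofNat (nat_lit 400), 0, ⟨0, 1⟩, ⟨Int.ofNat
 (nat_lit 60), 200⟩⟩ ⟨650000, 700000, 821443, 806367, 836801, 569665, 592031, 548146, 591607, 547722⟩ false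
 (nat_lit 250) (Int.ofNat (nat_lit 2001)) (nat_lit 300) (Int.ofNat (nat_lit 1984)) qL130_60_5_5 = true := by
 decide +kernel

def qL130_60_5_6 : PCt := .one ⟨2008000, 251, 803200, -111244, 73211, 0, 0, 300000, 300000, 350000⟩ ⟨0,
 .pol, .pol, .pol, .pol, .sx 150000 (.sx 75000 (.sx 37500 (.aff 875000 2443540 6395) (.aff 1000000 0 0))
 (.aff 1000000 0 0)) (.aff 1000000 0 0), .pol, .pol, .pol, .pol⟩

def hL130_60_5_6 : pcchk ⟨(nat_lit 1), (nat_lit 1000), Int.ofNat (nat_lit 400), 0, ⟨0, 1⟩, ⟨Int.ofNat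
 (nat_lit 60), 200⟩⟩ ⟨650000, 700000, 821443, 806367, 836801, 569665, 592031, 548146, 591607, 547722⟩ false
 (nat_lit 300) (Int.ofNat (nat_lit 1984)) (nat_lit 350) (Int.ofNat (nat_lit 1707)) qL130_60_5_6 = true := by
 decide +kernel

def qL130_60_5_7 : PCt := .one ⟨2008000, 251, 803200, -198391, 103713, 0, 0, 300000, 350000, 400000⟩ ⟨0,
 .pol, .pol, .pol, .pol, .sx 150000 (.sx 75000 (.sx 37500 (.sx 18750 (.sx 9375 (.aff 1150000 3128229 7193)
 (.aff 1000000 0 0)) (.aff 1000000 0 0)) (.aff 1000000 0 0)) (.aff 1000000 0 0)) (.aff 1000000 0 0), .pol,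
 .pol, .pol, .pol⟩

def hL130_60_5_7 : pcchk ⟨(nat_lit 1), (nat_lit 1000), Int.ofNat (nat_lit 400), 0, ⟨0, 1⟩, ⟨Int.ofNat
 (nat_lit 60), 200⟩⟩ ⟨650000, 700000, 821443, 806367, 836801, 569665, 592031, 548146, 591607, 547722⟩ false
 (nat_lit 350) (Int.ofNat (nat_lit 1707)) (nat_lit 400) (Int.ofNat (nat_lit 1213)) qL130_60_5_7 = true := by
 decide +kernel

def qL130_60_5_8 : PCt := .one ⟨2008000, 251, 803200, -300799, 144676, 0, 0, 300000, 400000, 450000⟩ ⟨0,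
 .pol, .pol, .pol, .pol, .sx 150000 (.sx 75000 (.sx 37500 (.sx 18750 (.sx 9375 (.aff 1450000 3498572 57881)
 (.aff 1250000 1374369 45476)) (.aff 1000000 0 0)) (.aff 1000000 0 0)) (.aff 1000000 0 0)) (.aff 1000000 0
 0), .pol, .pol, .pol, .pol⟩

def hL130_60_5_8 : pcchk ⟨(nat_lit 1), (nat_lit 1000), Int.ofNat (nat_lit 400), 0, ⟨0, 1⟩, ⟨Int.ofNat
 (nat_lit 60), 200⟩⟩ ⟨650000, 700000, 821443, 806367, 836801, 569665, 592031, 548146, 591607, 547722⟩ false
 (nat_lit 400) (Int.ofNat (nat_lit 1213)) (nat_lit 450) (Int.ofNat (nat_lit 464)) qL130_60_5_8 = true := by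
 decide +kernel

def qL130_60_5_9 : PCt := .one ⟨2008000, 251, 803200, -391159, 185338, 0, 0, 300000, 450000, 500000⟩ ⟨0,
 .pol, .pol, .pol, .pol, .sx 150000 (.sx 75000 (.sy 475000 (.sy 462500 (.aff 1600000 3615023 99585) (.sx
 37500 (.sy 468750 (.sx 18750 (.aff 1541000 3626729 80702) (.aff 1000000 0 0)) (.sy 471875 (.sx 18750 (.sx
 9375 (.aff 2000000 10016653 99834) (.aff 1600000 3801053 94711)) (.aff 1000000 0 0)) (.sx 18750 (.sx 9375
 (.aff 2000000 10049876 99504) (.aff 1575000 3654758 90465)) (.aff 1000000 0 0)))) (.aff 1000000 0 0))) (.sy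
 487500 (.sx 37500 (.sx 18750 (.aff 1800000 4052983 157909) (.aff 1000000 0 0)) (.aff 1000000 0 0)) (.sx
 37500 (.sx 18750 (.aff 2000000 5925463 168764) (.aff 1600000 2753907 130724)) (.aff 1000000 0 0)))) (.aff
 1000000 0 0)) (.aff 1000000 0 0), .pol, .pol, .pol, .pol⟩

def hL130_60_5_9 : pcchk ⟨(nat_lit 1), (nat_lit 1000), Int.ofNat (nat_lit 400), 0, ⟨0, 1⟩, ⟨Int.ofNat
 (nat_lit 60), 200⟩⟩ ⟨650000, 700000, 821443, 806367, 836801, 569665, 592031, 548146, 591607, 547722⟩ false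
 (nat_lit 450) (Int.ofNat (nat_lit 464)) (nat_lit 500) (Int.negSucc (nat_lit 509)) qL130_60_5_9 = true := by
 decide +kernel

def qL130_60_5_10 : PCt := .one ⟨2008000, 251, 803200, -503205, 241361, 0, 0, 300000, 500000, 550000⟩ ⟨0,
 .pol, .pol, .pol, .pol, .sx 150000 (.sx 75000 (.sx 37500 (.aff 1953000 4040949 224752) (.aff 2000000
 3698610 270372)) (.aff 1000000 0 0)) (.aff 1000000 0 0), .pol, .pol, .pol, .pol⟩

def hL130_60_5_10 : pcchk ⟨(nat_lit 1), (nat_lit 1000), Int.ofNat (nat_lit 400), 0, ⟨0, 1⟩, ⟨Int.ofNat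
 (nat_lit 60), 200⟩⟩ ⟨650000, 700000, 821443, 806367, 836801, 569665, 592031, 548146, 591607, 547722⟩ false
 (nat_lit 500) (Int.negSucc (nat_lit 509)) (nat_lit 550) (Int.negSucc (nat_lit 1762)) qL130_60_5_10 = true
 := by decide +kernel

def qL130_60_5_11 : PCt := .one ⟨2008000, 251, 803200, -597180, 293047, 0, 0, 300000, 550000, 600000⟩ ⟨0,
 .pol, .pol, .pol, .pol, .sx 150000 (.sy 575000 (.sy 562500 (.sx 75000 (.sx 37500 (.aff 3000000 8894443
 449719) (.aff 2200000 4133764 348351)) (.aff 1000000 0 0)) (.sx 75000 (.sx 37500 (.aff 3000000 8993826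
 444750) (.aff 2200000 4179953 344502)) (.aff 1000000 0 0))) (.sy 587500 (.sx 75000 (.sx 37500 (.aff 3000000
 9092122 439942) (.sx 56250 (.aff 2400000 4500371 435520) (.aff 1500000 1488048 168006))) (.aff 1000000 0
 0)) (.sx 75000 (.sx 37500 (.aff 3000000 11254629 355410) (.sx 56250 (.aff 3000000 6786797 589380) (.aff
 2200000 3745767 384434))) (.aff 1000000 0 0)))) (.aff 1000000 0 0), .pol, .pol, .pol, .pol⟩

def hL130_60_5_11 : pcchk ⟨(nat_lit 1), (nat_lit 1000), Int.ofNat (nat_lit 400), 0, ⟨0, 1⟩, ⟨Int.ofNat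
 (nat_lit 60), 200⟩⟩ ⟨650000, 700000, 821443, 806367, 836801, 569665, 592031, 548146, 591607, 547722⟩ false
 (nat_lit 550) (Int.negSucc (nat_lit 1762)) (nat_lit 600) (Int.negSucc (nat_lit 3249)) qL130_60_5_11 = true
 := by decide +kernel

def qL130_60_5_12 : PCt := .one ⟨2008000, 251, 803200, -720872, 367263, 0, 0, 300000, 600000, 650000⟩ ⟨0,
 .pol, .pol, .pol, .pol, .sy 625000 (.sx 150000 (.sx 75000 (.aff 2700000 4858155 594877) (.aff 1650000
 1836159 230100)) (.aff 1000000 0 0)) (.sx 150000 (.sx 75000 (.aff 3000000 5830952 685995) (.aff 2689000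
 4613272 618373)) (.aff 1000000 0 0)), .pol, .sx 150000 (.aff 3000000 5773503 692821) .pol, .pol, .pol⟩

def hL130_60_5_12 : pcchk ⟨(nat_lit 1), (nat_lit 1000), Int.ofNat (nat_lit 400), 0, ⟨0, 1⟩, ⟨Int.ofNat
 (nat_lit 60), 200⟩⟩ ⟨650000, 700000, 821443, 806367, 836801, 569665, 592031, 548146, 591607, 547722⟩ false
 (nat_lit 600) (Int.negSucc (nat_lit 3249)) (nat_lit 650) (Int.negSucc (nat_lit 5044)) qL130_60_5_12 = true
 := by decide +kernel

def qL130_60_5_13 : PCt := .one ⟨2008000, 251, 803200, -186343, 19818, 0, 0, 300000, 650000, 700000⟩ ⟨0,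
 .pol, .pol, .pol, .pol, .sy 675000 (.sy 662500 (.sx 150000 (.sy 656250 (.sx 75000 (.aff 3000000 6815017
 586940) (.sx 112500 (.aff 3000000 5033223 794720) (.aff 1000000 0 0))) (.aff 3200000 5326141 908726)) (.aff
 1000000 0 0)) (.aff 2000000 2986079 334888)) (.aff 2000000 3027651 330290), .pol, .sx 150000 (.sx 75000
 (.aff 5000000 13856407 1154701) (.sx 112500 (.aff 4600000 8818164 1469694) (.aff 3500000 5883485 1062296)))
 (.aff 1000000 0 0), .pol, .pol⟩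

def hL130_60_5_13 : pcchk ⟨(nat_lit 1), (nat_lit 1000), Int.ofNat (nat_lit 400), 0, ⟨0, 1⟩, ⟨Int.ofNat
 (nat_lit 60), 200⟩⟩ ⟨650000, 700000, 821443, 806367, 836801, 569665, 592031, 548146, 591607, 547722⟩ false
 (nat_lit 650) (Int.negSucc (nat_lit 5044)) (nat_lit 700) (Int.negSucc (nat_lit 5508)) qL130_60_5_13 = true
 := by decide +kernel

def qL130_60_5_14 : PCt := .one ⟨2008000, 251, 803200, -141765, -11386, 0, 0, 300000, 700000, 750000⟩ ⟨0,
 .pol, .pol, .pol, .pol, .aff 1500000 1099243 227430, .pol, .sx 150000 (.sx 75000 (.aff 5000000 17587875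
 909718) (.sx 112500 (.aff 5000000 11123549 1438390) (.sx 131250 (.aff 4100000 7285864 1318993) (.aff
 4063000 6904429 1358834)))) (.aff 3750000 5976275 1265421), .pol, .pol⟩

def hL130_60_5_14 : pcchk ⟨(nat_lit 1), (nat_lit 1000), Int.ofNat (nat_lit 400), 0, ⟨0, 1⟩, ⟨Int.ofNat
 (nat_lit 60), 200⟩⟩ ⟨650000, 700000, 821443, 806367, 836801, 569665, 592031, 548146, 591607, 547722⟩ false
 (nat_lit 700) (Int.negSucc (nat_lit 5508)) (nat_lit 750) (Int.negSucc (nat_lit 5861)) qL130_60_5_14 = true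
 := by decide +kernel

def qL130_60_5_15 : PCt := .one ⟨2008000, 251, 803200, -219676, 47047, 0, 0, 300000, 750000, 800000⟩ ⟨0,
 .pol, .pol, .pol, .pol, .aff 1000000 0 0, .pol, .sx 150000 (.aff 5000000 9092122 1759766) (.sx 225000 (.sx
 187500 (.sx 168750 (.aff 4900000 8357831 1819851) (.aff 4600000 7319017 1770730)) (.aff 4425000 6979579
 1680707)) (.aff 1000000 0 0)), .pol, .pol⟩

def hL130_60_5_15 : pcchk ⟨(nat_lit 1), (nat_lit 1000), Int.ofNat (nat_lit 400), 0, ⟨0, 1⟩, ⟨Int.ofNat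
 (nat_lit 60), 200⟩⟩ ⟨650000, 700000, 821443, 806367, 836801, 569665, 592031, 548146, 591607, 547722⟩ false
 (nat_lit 750) (Int.negSucc (nat_lit 5861)) (nat_lit 800) (Int.negSucc (nat_lit 6408)) qL130_60_5_15 = true
 := by decide +kernel

def qL130_60_5_16 : PCt := .one ⟨2008000, 251, 803200, -304815, 115158, 0, 0, 300000, 800000, 850000⟩ ⟨0,
 .pol, .pol, .pol, .pol, .aff 1000000 0 0, .pol, .sx 150000 (.aff 5000000 10832052 1477098) (.sx 225000
 (.aff 5100000 7850903 2141155) (.sx 262500 (.aff 5000000 7504666 2132007) (.aff 3000000 3425396 1167749))),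
 .pol, .pol⟩

def hL130_60_5_16 : pcchk ⟨(nat_lit 1), (nat_lit 1000), Int.ofNat (nat_lit 400), 0, ⟨0, 1⟩, ⟨Int.ofNat
 (nat_lit 60), 200⟩⟩ ⟨650000, 700000, 821443, 806367, 836801, 569665, 592031, 548146, 591607, 547722⟩ false
 (nat_lit 800) (Int.negSucc (nat_lit 6408)) (nat_lit 850) (Int.negSucc (nat_lit 7167)) qL130_60_5_16 = true
 := by decide +kernel

def qL130_60_5_17 : PCt := .one ⟨2008000, 251, 803200, -426500, 218590, 0, 0, 300000, 850000, 900000⟩ ⟨0,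
 .pol, .pol, .pol, .pol, .aff 1000000 0 0, .pol, .sx 150000 (.aff 5000000 11155468 1434275) (.sx 225000
 (.aff 8000000 15121729 3240371) (.sx 262500 (.aff 8000000 13014712 3764970) (.sy 875000 (.sx 281250 (.aff
 5600000 8264743 2560274) (.aff 5500000 7815496 2591007)) (.aff 7100000 10491882 3546552)))), .pol, .pol⟩

def hL130_60_5_17 : pcchk ⟨(nat_lit 1), (nat_lit 1000), Int.ofNat (nat_lit 400), 0, ⟨0, 1⟩, ⟨Int.ofNat
 (nat_lit 60), 200⟩⟩ ⟨650000, 700000, 821443, 806367, 836801, 569665, 592031, 548146, 591607, 547722⟩ false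
 (nat_lit 850) (Int.negSucc (nat_lit 7167)) (nat_lit 900) (Int.negSucc (nat_lit 8229)) qL130_60_5_17 = true
 := by decide +kernel

def qL130_60_5_18 : PCt := .one ⟨2008000, 251, 803200, -8742832, 7703290, 0, 0, 300000, 900000, 950000⟩ ⟨0,
 .pol, .pol, .pol, .pol, .aff 1000000 0 0, .pol, .aff 35000000 59702038 19362824, .inf 1986622 503368, .pol⟩

def hL130_60_5_18 : pcchk ⟨(nat_lit 1), (nat_lit 1000), Int.ofNat (nat_lit 400), 0, ⟨0, 1⟩, ⟨Int.ofNat
 (nat_lit 60), 200⟩⟩ ⟨650000, 700000, 821443, 806367, 836801, 569665, 592031, 548146, 591607, 547722⟩ false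
 (nat_lit 900) (Int.negSucc (nat_lit 8229)) (nat_lit 950) (Int.negSucc (nat_lit 29999)) qL130_60_5_18 = true
 := by decide +kernel

def qL130_60_5_19 : PCt := .one ⟨2008000, 251, 803200, 0, -602400, 0, 0, 300000, 950000, 1000000⟩ ⟨0, .pol,
 .pol, .pol, .pol, .aff 1000000 0 0, .pol, .aff 35000000 61294372 18859807, .inf 2039608 490291, .pol⟩

def hL130_60_5_19 : pcchk ⟨(nat_lit 1), (nat_lit 1000), Int.ofNat (nat_lit 400), 0, ⟨0, 1⟩, ⟨Int.ofNat
 (nat_lit 60), 200⟩⟩ ⟨650000, 700000, 821443, 806367, 836801, 569665, 592031, 548146, 591607, 547722⟩ false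
 (nat_lit 950) (Int.negSucc (nat_lit 29999)) (nat_lit 1000) (Int.negSucc (nat_lit 29999)) qL130_60_5_19 =
 true := by decide +kernel

def qL130_60_6_0 : PCt := .one ⟨2008000, 251, 2008000, 80320, 0, 0, 0, 300000, 0, 50000⟩ ⟨25000, .sp 250000
 (.aff 6324556 158114) .pol, .pol, .pol, .pol, .pol, .aff 0 7544960 132539, .pol, .pol, .pol⟩

def hL130_60_6_0 : pcchk ⟨(nat_lit 1), (nat_lit 1000), Int.ofNat (nat_lit 1000), 0, ⟨0, 1⟩, ⟨Int.ofNat
 (nat_lit 60), 200⟩⟩ ⟨650000, 700000, 821443, 806367, 836801, 569665, 592031, 548146, 591607, 547722⟩ true 0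
 0 (nat_lit 50) (Int.ofNat (nat_lit 200)) qL130_60_6_0 = true := by decide +kernel

def qL130_60_6_1 : PCt := .one ⟨2008000, 251, 2008000, 108432, -1406, 0, 0, 300000, 50000, 100000⟩ ⟨0, .pol,
 .pol, .pol, .pol, .sx 150000 (.sy 75000 (.aff 0 7569771 132105) (.aff 0 7379080 135519)) .pol, .pol, .pol,
 .sx 150000 (.sx 75000 (.sx 37500 .pol .pol) .pol) .pol, .pol⟩

def hL130_60_6_1 : pcchk ⟨(nat_lit 1), (nat_lit 1000), Int.ofNat (nat_lit 1000), 0, ⟨0, 1⟩, ⟨Int.ofNat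
 (nat_lit 60), 200⟩⟩ ⟨650000, 700000, 821443, 806367, 836801, 569665, 592031, 548146, 591607, 547722⟩ false
 (nat_lit 50) (Int.ofNat (nat_lit 200)) (nat_lit 100) (Int.ofNat (nat_lit 470)) qL130_60_6_1 = true := by
 decide +kernel

def qL130_60_6_2 : PCt := .one ⟨2008000, 251, 2008000, 137347, -4298, 0, 0, 300000, 100000, 150000⟩ ⟨0,
 .pol, .pol, .pol, .pol, .sx 150000 (.sy 125000 (.aff 0 7383931 135430) (.aff 0 7204037 138812)) .pol, .pol,
 .pol, .sx 150000 (.sx 75000 .pol .pol) .pol, .pol⟩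

def hL130_60_6_2 : pcchk ⟨(nat_lit 1), (nat_lit 1000), Int.ofNat (nat_lit 1000), 0, ⟨0, 1⟩, ⟨Int.ofNat
 (nat_lit 60), 200⟩⟩ ⟨650000, 700000, 821443, 806367, 836801, 569665, 592031, 548146, 591607, 547722⟩ false
 (nat_lit 100) (Int.ofNat (nat_lit 470)) (nat_lit 150) (Int.ofNat (nat_lit 812)) qL130_60_6_2 = true := by
 decide +kernel

def qL130_60_6_3 : PCt := .one ⟨2008000, 251, 2008000, 166262, -8635, 0, 0, 300000, 150000, 200000⟩ ⟨0,
 .pol, .pol, .pol, .pol, .sx 150000 (.sy 175000 (.aff 0 7175472 139364) (.aff 0 7061935 141605)) .pol, .pol,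
 .pol, .sx 150000 .pol .pol, .pol⟩

def hL130_60_6_3 : pcchk ⟨(nat_lit 1), (nat_lit 1000), Int.ofNat (nat_lit 1000), 0, ⟨0, 1⟩, ⟨Int.ofNat
 (nat_lit 60), 200⟩⟩ ⟨650000, 700000, 821443, 806367, 836801, 569665, 592031, 548146, 591607, 547722⟩ false
 (nat_lit 150) (Int.ofNat (nat_lit 812)) (nat_lit 200) (Int.ofNat (nat_lit 1226)) qL130_60_6_3 = true := by
 decide +kernel

def qL130_60_6_4 : PCt := .one ⟨2008000, 251, 2008000, 195980, -14579, 0, 0, 300000, 200000, 250000⟩ ⟨0,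
 .pol, .pol, .pol, .pol, .sx 150000 (.sy 225000 (.aff 0 6974779 143374) (.aff 0 6840860 146181)) .pol, .pol,
 .pol, .sx 150000 .pol .pol, .pol⟩

def hL130_60_6_4 : pcchk ⟨(nat_lit 1), (nat_lit 1000), Int.ofNat (nat_lit 1000), 0, ⟨0, 1⟩, ⟨Int.ofNat
 (nat_lit 60), 200⟩⟩ ⟨650000, 700000, 821443, 806367, 836801, 569665, 592031, 548146, 591607, 547722⟩ false
 (nat_lit 200) (Int.ofNat (nat_lit 1226)) (nat_lit 250) (Int.ofNat (nat_lit 1714)) qL130_60_6_4 = true := by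
 decide +kernel

def qL130_60_6_5 : PCt := .one ⟨2008000, 251, 2008000, 56625, 20260, 0, 0, 300000, 250000, 300000⟩ ⟨0, .pol,
 .pol, .pol, .pol, .sx 150000 (.sx 75000 (.sx 37500 (.sx 18750 (.sy 275000 (.sy 262500 (.sx 9375 (.aff
 313000 7183450 65703) (.aff 1000000 0 0)) (.sy 268750 (.sy 265625 (.sx 9375 (.sx 4687 (.sx 2343 (.aff
 400000 7355088 48946) (.aff 375000 5934358 65825)) (.aff 500000 3064184 81588)) (.aff 1000000 0 0)) (.sx
 9375 (.sx 4687 (.sx 2343 (.aff 400000 7398481 48659) (.aff 475000 5014270 54969)) (.aff 500000 3082262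
 81110)) (.aff 1000000 0 0))) (.sx 9375 (.sx 4687 (.aff 475000 7235975 38091) (.aff 500000 3109182 80408))
 (.aff 1000000 0 0)))) (.aff 488000 7306257 35880)) (.aff 1000000 0 0)) (.aff 0 2211084 452267)) (.aff 0
 1563472 639603)) .pol, .pol, .pol, .sx 150000 .pol .pol, .pol⟩

def hL130_60_6_5 : pcchk ⟨(nat_lit 1), (nat_lit 1000), Int.ofNat (nat_lit 1000), 0, ⟨0, 1⟩, ⟨Int.ofNat
 (nat_lit 60), 200⟩⟩ ⟨650000, 700000, 821443, 806367, 836801, 569665, 592031, 548146, 591607, 547722⟩ false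
 (nat_lit 250) (Int.ofNat (nat_lit 1714)) (nat_lit 300) (Int.ofNat (nat_lit 1855)) qL130_60_6_5 = true := by
 decide +kernel

end CB
end Pool.Agent.Lib.MP_6947cd_al
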