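import Pool.Agent.Lib.MP_6947cd_al.L.PairSplit

/-!
Problem MP_6947cd_al (Chollet).  Library of pair functions: certificates of the pieces (generated).
-/

set_option autoImplicit false
set_option linter.defProp false
set_option maxRecDepth 100000

namespace Pool.Agent.Lib.MP_6947cd_al
namespace CB

open CA

def qL150_60_0_0 : PCt := .one ⟨2008000, 251, 502000, 390756, 0, 0, 0, 300000, 0, 50000⟩ ⟨50000, .aff
 1414214 707107, .aff 707107 1414214, .pol, .pol, .sx 175000 (.sx 112500 (.aff 50000 716173 1260171) (.aff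
 250000 312772 1798435)) (.aff 1000000 0 0), .aff 0 1414214 707107, .pol, .pol, .pol⟩

def hL150_60_0_0 : pcchk ⟨(nat_lit 3), (nat_lit 1000), Int.ofNat (nat_lit 250), 0, ⟨0, 1⟩, ⟨Int.ofNat
 (nat_lit 60), 200⟩⟩ ⟨750000, 800000, 880226, 866140, 894542, 473607, 500736, 447950, 500000, 447213⟩ true 0
 0 (nat_lit 50) (Int.ofNat (nat_lit 973)) qL150_60_0_0 = true := by decide +kernel

def qL150_60_0_1 : PCt := .one ⟨2008000, 251, 502000, 365456, 1265, 0, 0, 300000, 50000, 100000⟩ ⟨0, .pol,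
 .pol, .pol, .pol, .sy 75000 (.sx 150000 (.sy 62500 (.sx 75000 (.sx 37500 (.aff 0 1732051 577351) (.aff
 125000 958515 798762)) (.aff 250000 530331 1060659)) (.sx 75000 (.sx 37500 (.aff 0 1563472 639603) (.aff
 125000 967349 791468)) (.aff 1000000 0 0))) (.aff 1000000 0 0)) (.sx 150000 (.sx 75000 (.sx 37500 (.aff
 125000 1543355 496079) (.sy 87500 (.aff 150000 994285 726653) (.aff 250000 1060661 530330))) (.aff 1000000
 0 0)) (.aff 1000000 0 0)), .pol, .pol, .sy 75000 (.sx 150000 (.sy 62500 (.sy 56250 (.sy 53125 (.sx 75000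
 (.sx 37500 .pol .pol) .pol) (.sx 75000 (.sx 37500 .pol .pol) .pol)) (.sy 59375 (.sx 75000 (.sx 37500 .pol
 .pol) .pol) (.sx 75000 (.sx 37500 .pol .pol) .pol))) (.sy 68750 (.sy 65625 (.sx 75000 (.sx 37500 .pol .pol)
 .pol) (.sx 75000 (.sx 37500 .pol .pol) .pol)) (.sy 71875 (.sx 75000 (.sx 37500 .pol .pol) .pol) (.sx 75000
 (.sx 37500 .pol .pol) .pol)))) .pol) (.sx 150000 (.sx 75000 .pol .pol) .pol), .pol⟩

def hL150_60_0_1 : pcchk ⟨(nat_lit 3), (nat_lit 1000), Int.ofNat (nat_lit 250), 0, ⟨0, 1⟩, ⟨Int.ofNat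
 (nat_lit 60), 200⟩⟩ ⟨750000, 800000, 880226, 866140, 894542, 473607, 500736, 447950, 500000, 447213⟩ false
 (nat_lit 50) (Int.ofNat (nat_lit 973)) (nat_lit 100) (Int.ofNat (nat_lit 1883)) qL150_60_0_1 = true := by
 decide +kernel

def qL150_60_0_2 : PCt := .one ⟨2008000, 251, 502000, 320476, 5762, 0, 0, 300000, 100000, 150000⟩ ⟨0, .pol,
 .pol, .pol, .pol, .sx 150000 (.sx 75000 (.sy 125000 (.sx 37500 (.aff 313000 1444447 326748) (.aff 500000
 707107 353554)) (.sx 37500 (.sy 137500 (.aff 370000 1508205 263161) (.aff 400000 1537078 234211)) (.aff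
 1000000 0 0))) (.aff 1000000 0 0)) (.aff 1000000 0 0), .pol, .pol, .sy 125000 (.sx 150000 (.sx 75000 .pol
 .pol) .pol) (.sx 150000 (.sx 75000 .pol .pol) .pol), .pol⟩

def hL150_60_0_2 : pcchk ⟨(nat_lit 3), (nat_lit 1000), Int.ofNat (nat_lit 250), 0, ⟨0, 1⟩, ⟨Int.ofNat
 (nat_lit 60), 200⟩⟩ ⟨750000, 800000, 880226, 866140, 894542, 473607, 500736, 447950, 500000, 447213⟩ false
 (nat_lit 100) (Int.ofNat (nat_lit 1883)) (nat_lit 150) (Int.ofNat (nat_lit 2681)) qL150_60_0_2 = true := by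
 decide +kernel

def qL150_60_0_3 : PCt := .one ⟨2008000, 251, 502000, 292766, 9919, 0, 0, 300000, 150000, 200000⟩ ⟨0, .pol,
 .pol, .pol, .pol, .sx 150000 (.sy 175000 (.sx 75000 (.sy 162500 (.sx 37500 (.aff 525000 1674796 134718)
 (.aff 1000000 0 0)) (.sy 168750 (.sx 37500 (.aff 563000 1704067 112067) (.aff 1000000 0 0)) (.sx 37500
 (.aff 625000 1774523 79247) (.aff 1000000 0 0)))) (.aff 1000000 0 0)) (.sx 75000 (.sx 37500 (.aff 631000
 1756649 77512) (.aff 1000000 0 0)) (.aff 1000000 0 0))) (.aff 1000000 0 0), .pol, .pol, .sx 150000 .pol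
 .pol, .pol⟩

def hL150_60_0_3 : pcchk ⟨(nat_lit 3), (nat_lit 1000), Int.ofNat (nat_lit 250), 0, ⟨0, 1⟩, ⟨Int.ofNat
 (nat_lit 60), 200⟩⟩ ⟨750000, 800000, 880226, 866140, 894542, 473607, 500736, 447950, 500000, 447213⟩ false
 (nat_lit 150) (Int.ofNat (nat_lit 2681)) (nat_lit 200) (Int.ofNat (nat_lit 3410)) qL150_60_0_3 = true := by
 decide +kernel

def qL150_60_0_4 : PCt := .one ⟨2008000, 251, 502000, 269072, 14658, 0, 0, 300000, 200000, 250000⟩ ⟨0, .pol,
 .pol, .pol, .pol, .sx 150000 (.sx 75000 (.sx 37500 (.sy 225000 (.aff 825000 1677792 18254) (.sx 18750 (.sx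
 9375 (.sx 4687 (.aff 875000 2173619 7189) (.aff 1000000 0 0)) (.aff 1000000 0 0)) (.aff 1000000 0 0)))
 (.aff 1000000 0 0)) (.aff 1000000 0 0)) (.aff 1000000 0 0), .pol, .pol, .sx 150000 .pol .pol, .pol⟩

def hL150_60_0_4 : pcchk ⟨(nat_lit 3), (nat_lit 1000), Int.ofNat (nat_lit 250), 0, ⟨0, 1⟩, ⟨Int.ofNat
 (nat_lit 60), 200⟩⟩ ⟨750000, 800000, 880226, 866140, 894542, 473607, 500736, 447950, 500000, 447213⟩ false
 (nat_lit 200) (Int.ofNat (nat_lit 3410)) (nat_lit 250) (Int.ofNat (nat_lit 4080)) qL150_60_0_4 = true := by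
 decide +kernel

def qL150_60_0_5 : PCt := .one ⟨2008000, 251, 502000, 250598, 19276, 0, 0, 300000, 250000, 300000⟩ ⟨0, .pol,
 .pol, .pol, .pol, .sx 150000 (.sx 75000 (.sx 37500 (.sx 18750 (.sy 275000 (.sx 9375 (.sx 4687 (.aff 1100000
 1292681 7736) (.aff 1000000 0 0)) (.aff 1000000 0 0)) (.aff 1225000 2378588 21284)) (.aff 1000000 0 0))
 (.aff 1000000 0 0)) (.aff 1000000 0 0)) (.aff 1000000 0 0), .pol, .pol, .sx 150000 .pol .pol, .pol⟩

def hL150_60_0_5 : pcchk ⟨(nat_lit 3), (nat_lit 1000), Int.ofNat (nat_lit 250), 0, ⟨0, 1⟩, ⟨Int.ofNat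
 (nat_lit 60), 200⟩⟩ ⟨750000, 800000, 880226, 866140, 894542, 473607, 500736, 447950, 500000, 447213⟩ false
 (nat_lit 250) (Int.ofNat (nat_lit 4080)) (nat_lit 300) (Int.ofNat (nat_lit 4704)) qL150_60_0_5 = true := by
 decide +kernel

def qL150_60_0_6 : PCt := .one ⟨2008000, 251, 502000, 232526, 24698, 0, 0, 300000, 300000, 350000⟩ ⟨0, .pol,
 .pol, .pol, .pol, .sx 150000 (.sx 75000 (.sy 325000 (.sx 37500 (.aff 1350000 2468121 49633) (.aff 1000000 0
 0)) (.sx 37500 (.aff 1425000 2550001 70834) (.aff 1000000 0 0))) (.aff 1000000 0 0)) (.aff 1000000 0 0),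
 .pol, .pol, .pol, .pol⟩

def hL150_60_0_6 : pcchk ⟨(nat_lit 3), (nat_lit 1000), Int.ofNat (nat_lit 250), 0, ⟨0, 1⟩, ⟨Int.ofNat
 (nat_lit 60), 200⟩⟩ ⟨750000, 800000, 880226, 866140, 894542, 473607, 500736, 447950, 500000, 447213⟩ false
 (nat_lit 300) (Int.ofNat (nat_lit 4704)) (nat_lit 350) (Int.ofNat (nat_lit 5283)) qL150_60_0_6 = true := by
 decide +kernel

def qL150_60_0_7 : PCt := .one ⟨2008000, 251, 502000, 220880, 28774, 0, 0, 300000, 350000, 400000⟩ ⟨0, .pol,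
 .pol, .pol, .pol, .sx 150000 (.sy 375000 (.sx 75000 (.sy 362500 (.sx 37500 (.sx 18750 (.aff 1450000 2638698
 76743) (.aff 1000000 0 0)) (.aff 1000000 0 0)) (.sx 37500 (.aff 1650000 2882563 146571) (.aff 1000000 0
 0))) (.aff 1000000 0 0)) (.sx 75000 (.sx 37500 (.aff 1625000 2841288 137482) (.aff 1000000 0 0)) (.aff
 1000000 0 0))) (.aff 1000000 0 0), .pol, .pol, .pol, .pol⟩

def hL150_60_0_7 : pcchk ⟨(nat_lit 3), (nat_lit 1000), Int.ofNat (nat_lit 250), 0, ⟨0, 1⟩, ⟨Int.ofNat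
 (nat_lit 60), 200⟩⟩ ⟨750000, 800000, 880226, 866140, 894542, 473607, 500736, 447950, 500000, 447213⟩ false
 (nat_lit 350) (Int.ofNat (nat_lit 5283)) (nat_lit 400) (Int.ofNat (nat_lit 5833)) qL150_60_0_7 = true := by
 decide +kernel

def qL150_60_0_8 : PCt := .one ⟨2008000, 251, 502000, 203611, 35682, 0, 0, 300000, 400000, 450000⟩ ⟨0, .pol,
 .pol, .pol, .pol, .sx 150000 (.sy 425000 (.sy 412500 (.sy 406250 (.sx 75000 (.sx 37500 (.sx 18750 (.aff
 2000000 5354127 186772) (.aff 1925000 3188312 268364)) (.aff 1000000 0 0)) (.aff 1000000 0 0)) (.sx 75000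
 (.sx 37500 (.aff 1963000 3262336 284266) (.aff 1000000 0 0)) (.aff 1000000 0 0))) (.sy 418750 (.sx 75000
 (.sx 37500 (.aff 2000000 3329165 300376) (.aff 1000000 0 0)) (.aff 1000000 0 0)) (.sx 75000 (.sx 37500
 (.aff 2000000 3354102 298143) (.aff 1000000 0 0)) (.aff 1000000 0 0)))) (.sy 437500 (.sy 431250 (.sx 75000
 (.sx 37500 (.aff 2000000 3378856 295959) (.aff 1000000 0 0)) (.aff 1000000 0 0)) (.sx 75000 (.sx 37500
 (.aff 2000000 3403430 293822) (.aff 1500000 1522061 164251)) (.aff 1000000 0 0))) (.sy 443750 (.sx 75000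
 (.sx 37500 (.aff 2000000 3958115 252646) (.aff 2000000 3065942 326165)) (.aff 1000000 0 0)) (.sy 446875
 (.sx 75000 (.sx 37500 (.aff 2000000 3979113 251313) (.aff 2000000 3082208 324443)) (.aff 1000000 0 0)) (.sx
 75000 (.sx 37500 (.aff 2000000 3993050 250436) (.aff 2000000 3093003 323311)) (.aff 1000000 0 0)))))) (.aff
 1000000 0 0), .pol, .pol, .pol, .pol⟩

def hL150_60_0_8 : pcchk ⟨(nat_lit 3), (nat_lit 1000), Int.ofNat (nat_lit 250), 0, ⟨0, 1⟩, ⟨Int.ofNat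
 (nat_lit 60), 200⟩⟩ ⟨750000, 800000, 880226, 866140, 894542, 473607, 500736, 447950, 500000, 447213⟩ false
 (nat_lit 400) (Int.ofNat (nat_lit 5833)) (nat_lit 450) (Int.ofNat (nat_lit 6340)) qL150_60_0_8 = true := by
 decide +kernel

def qL150_60_0_9 : PCt := .one ⟨2008000, 251, 502000, 189555, 42007, 0, 0, 300000, 450000, 500000⟩ ⟨0, .pol,
 .pol, .pol, .pol, .sx 150000 (.sx 75000 (.sx 37500 (.aff 2000000 4109610 243333) (.aff 2100000 3196526
 378536)) (.aff 1000000 0 0)) (.aff 1000000 0 0), .pol, .pol, .pol, .pol⟩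

def hL150_60_0_9 : pcchk ⟨(nat_lit 3), (nat_lit 1000), Int.ofNat (nat_lit 250), 0, ⟨0, 1⟩, ⟨Int.ofNat
 (nat_lit 60), 200⟩⟩ ⟨750000, 800000, 880226, 866140, 894542, 473607, 500736, 447950, 500000, 447213⟩ false
 (nat_lit 450) (Int.ofNat (nat_lit 6340)) (nat_lit 500) (Int.ofNat (nat_lit 6812)) qL150_60_0_9 = true := by
 decide +kernel

def qL150_60_0_10 : PCt := .one ⟨2008000, 251, 502000, 179515, 47027, 0, 0, 300000, 500000, 550000⟩ ⟨0,
 .pol, .pol, .pol, .pol, .sy 525000 (.sx 150000 (.sx 75000 (.aff 2400000 3659691 535565) (.aff 2307000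
 3133245 545202)) (.aff 1000000 0 0)) (.sx 150000 (.sx 75000 (.aff 3000000 5354127 747088) (.aff 2313000
 3143898 548354)) (.aff 1000000 0 0)), .pol, .pol, .pol, .pol⟩

def hL150_60_0_10 : pcchk ⟨(nat_lit 3), (nat_lit 1000), Int.ofNat (nat_lit 250), 0, ⟨0, 1⟩, ⟨Int.ofNat
 (nat_lit 60), 200⟩⟩ ⟨750000, 800000, 880226, 866140, 894542, 473607, 500736, 447950, 500000, 447213⟩ false
 (nat_lit 500) (Int.ofNat (nat_lit 6812)) (nat_lit 550) (Int.ofNat (nat_lit 7259)) qL150_60_0_10 = true :=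
 by decide +kernel

def qL150_60_0_11 : PCt := .one ⟨2008000, 251, 502000, 170278, 52107, 0, 0, 300000, 550000, 600000⟩ ⟨0,
 .pol, .pol, .pol, .pol, .sy 575000 (.sy 562500 (.sx 150000 (.sx 75000 (.aff 3000000 6289321 635999) (.sx
 112500 (.sx 93750 (.aff 3000000 5135209 778937) (.aff 2200000 2852568 504809)) (.aff 1000000 0 0))) (.aff
 1000000 0 0)) (.sx 150000 (.sx 75000 (.aff 3000000 6359595 628971) (.sx 112500 (.aff 2600000 3597531
 711600) (.aff 1500000 1040833 240193))) (.aff 1000000 0 0))) (.sx 150000 (.sx 75000 (.aff 3000000 6463574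
 618853) (.sx 112500 (.aff 3000000 4570437 875190) (.aff 2400000 3073794 637649))) (.aff 1000000 0 0)),
 .pol, .pol, .pol, .pol⟩

def hL150_60_0_11 : pcchk ⟨(nat_lit 3), (nat_lit 1000), Int.ofNat (nat_lit 250), 0, ⟨0, 1⟩, ⟨Int.ofNat
 (nat_lit 60), 200⟩⟩ ⟨750000, 800000, 880226, 866140, 894542, 473607, 500736, 447950, 500000, 447213⟩ false
 (nat_lit 550) (Int.ofNat (nat_lit 7259)) (nat_lit 600) (Int.ofNat (nat_lit 7683)) qL150_60_0_11 = true :=
 by decide +kernel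

def qL150_60_0_12 : PCt := .one ⟨2008000, 251, 502000, 159435, 58613, 0, 0, 300000, 600000, 650000⟩ ⟨0,
 .pol, .pol, .pol, .pol, .sx 150000 (.sx 75000 (.aff 3000000 6666667 600000) (.sx 112500 (.aff 3000000
 5163978 774597) (.sx 131250 (.aff 3000000 4364358 916516) (.aff 2700000 3470111 832827)))) (.sy 625000
 (.aff 1500000 903697 276642) (.sx 225000 (.aff 2700000 3304207 874643) (.aff 1000000 0 0))), .pol, .pol,
 .pol, .pol⟩

def hL150_60_0_12 : pcchk ⟨(nat_lit 3), (nat_lit 1000), Int.ofNat (nat_lit 250), 0, ⟨0, 1⟩, ⟨Int.ofNat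
 (nat_lit 60), 200⟩⟩ ⟨750000, 800000, 880226, 866140, 894542, 473607, 500736, 447950, 500000, 447213⟩ false
 (nat_lit 600) (Int.ofNat (nat_lit 7683)) (nat_lit 650) (Int.ofNat (nat_lit 8080)) qL150_60_0_12 = true :=
 by decide +kernel

def qL150_60_0_13 : PCt := .one ⟨2008000, 251, 502000, 152206, 63312, 0, 0, 300000, 650000, 700000⟩ ⟨0,
 .pol, .pol, .pol, .pol, .sx 150000 (.aff 3000000 4242641 942809) (.sx 225000 (.sx 187500 (.aff 2900000
 3604997 1001388) (.aff 2900000 3446778 1047355)) (.aff 1500000 801784 311805)), .pol, .pol, .pol, .pol⟩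

def hL150_60_0_13 : pcchk ⟨(nat_lit 3), (nat_lit 1000), Int.ofNat (nat_lit 250), 0, ⟨0, 1⟩, ⟨Int.ofNat
 (nat_lit 60), 200⟩⟩ ⟨750000, 800000, 880226, 866140, 894542, 473607, 500736, 447950, 500000, 447213⟩ false
 (nat_lit 650) (Int.ofNat (nat_lit 8080)) (nat_lit 700) (Int.ofNat (nat_lit 8459)) qL150_60_0_13 = true :=
 by decide +kernel

def qL150_60_0_14 : PCt := .one ⟨2008000, 251, 502000, 143371, 69496, 0, 0, 300000, 700000, 750000⟩ ⟨0,
 .pol, .pol, .pol, .pol, .sx 150000 (.aff 3000000 5077183 787839) (.sx 225000 (.aff 2900000 3562261 1013402)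
 (.aff 2925000 3319919 1116180)), .pol, .pol, .pol, .pol⟩

def hL150_60_0_14 : pcchk ⟨(nat_lit 3), (nat_lit 1000), Int.ofNat (nat_lit 250), 0, ⟨0, 1⟩, ⟨Int.ofNat
 (nat_lit 60), 200⟩⟩ ⟨750000, 800000, 880226, 866140, 894542, 473607, 500736, 447950, 500000, 447213⟩ false
 (nat_lit 700) (Int.ofNat (nat_lit 8459)) (nat_lit 750) (Int.ofNat (nat_lit 8816)) qL150_60_0_14 = true :=
 by decide +kernel

def qL150_60_0_15 : PCt := .one ⟨2008000, 251, 502000, 138552, 73111, 0, 0, 300000, 750000, 800000⟩ ⟨0,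
 .pol, .pol, .pol, .pol, .sx 150000 (.aff 3000000 5249339 762001) (.sy 775000 (.sx 225000 (.aff 3000000
 3845502 1040177) (.sx 262500 (.aff 3000000 3537347 1130791) (.aff 3000000 3293091 1214665))) (.sx 225000
 (.aff 3000000 3908034 1023533) (.sx 262500 (.aff 3000000 3594869 1112698) (.aff 3000000 3346641
 1195229)))), .pol, .pol, .pol, .pol⟩

def hL150_60_0_15 : pcchk ⟨(nat_lit 3), (nat_lit 1000), Int.ofNat (nat_lit 250), 0, ⟨0, 1⟩, ⟨Int.ofNat
 (nat_lit 60), 200⟩⟩ ⟨750000, 800000, 880226, 866140, 894542, 473607, 500736, 447950, 500000, 447213⟩ false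
 (nat_lit 750) (Int.ofNat (nat_lit 8816)) (nat_lit 800) (Int.ofNat (nat_lit 9161)) qL150_60_0_15 = true :=
 by decide +kernel

def qL150_60_0_16 : PCt := .one ⟨2008000, 251, 502000, -15727058, 12765598, 0, 0, 300000, 800000, 850000⟩
 ⟨0, .pol, .pol, .pol, .pol, .sx 150000 (.aff 35000000 112765243 10251386) (.sx 225000 (.aff 36900000
 68743267 18748164) (.sx 262500 (.inf 1839733 543558) (.inf 1712698 583875))), .pol, .pol, .sy 825000 (.sy
 812500 (.sy 806250 .pol (.sx 150000 (.inf 3285068 304408) (.inf 1517308 659062))) (.inf 1869047 535033))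
 (.inf 1890327 529010), .pol⟩

def hL150_60_0_16 : pcchk ⟨(nat_lit 3), (nat_lit 1000), Int.ofNat (nat_lit 250), 0, ⟨0, 1⟩, ⟨Int.ofNat
 (nat_lit 60), 200⟩⟩ ⟨750000, 800000, 880226, 866140, 894542, 473607, 500736, 447950, 500000, 447213⟩ false
 (nat_lit 800) (Int.ofNat (nat_lit 9161)) (nat_lit 850) (Int.negSucc (nat_lit 29999)) qL150_60_0_16 = true
 := by decide +kernel

def qL150_60_0_17 : PCt := .one ⟨2008000, 251, 502000, 0, -602400, 0, 0, 300000, 850000, 900000⟩ ⟨0, .pol,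
 .pol, .pol, .pol, .inf 1932184 517550, .pol, .pol, .inf 1932184 517550, .pol⟩

def hL150_60_0_17 : pcchk ⟨(nat_lit 3), (nat_lit 1000), Int.ofNat (nat_lit 250), 0, ⟨0, 1⟩, ⟨Int.ofNat
 (nat_lit 60), 200⟩⟩ ⟨750000, 800000, 880226, 866140, 894542, 473607, 500736, 447950, 500000, 447213⟩ false
 (nat_lit 850) (Int.negSucc (nat_lit 29999)) (nat_lit 900) (Int.negSucc (nat_lit 29999)) qL150_60_0_17 =
 true := by decide +kernel

def qL150_60_0_18 : PCt := .one ⟨2008000, 251, 502000, 0, -602400, 0, 0, 300000, 900000, 950000⟩ ⟨0, .pol,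
 .pol, .pol, .pol, .inf 1986622 503368, .pol, .pol, .inf 1986622 503368, .pol⟩

def hL150_60_0_18 : pcchk ⟨(nat_lit 3), (nat_lit 1000), Int.ofNat (nat_lit 250), 0, ⟨0, 1⟩, ⟨Int.ofNat
 (nat_lit 60), 200⟩⟩ ⟨750000, 800000, 880226, 866140, 894542, 473607, 500736, 447950, 500000, 447213⟩ false
 (nat_lit 900) (Int.negSucc (nat_lit 29999)) (nat_lit 950) (Int.negSucc (nat_lit 29999)) qL150_60_0_18 =
 true := by decide +kernel

def qL150_60_0_19 : PCt := .one ⟨2008000, 251, 502000, 0, -602400, 0, 0, 300000, 950000, 1000000⟩ ⟨0, .pol,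
 .pol, .pol, .pol, .aff 35000000 61294372 18859807, .pol, .pol, .inf 2549510 392233, .pol⟩

def hL150_60_0_19 : pcchk ⟨(nat_lit 3), (nat_lit 1000), Int.ofNat (nat_lit 250), 0, ⟨0, 1⟩, ⟨Int.ofNat
 (nat_lit 60), 200⟩⟩ ⟨750000, 800000, 880226, 866140, 894542, 473607, 500736, 447950, 500000, 447213⟩ false
 (nat_lit 950) (Int.negSucc (nat_lit 29999)) (nat_lit 1000) (Int.negSucc (nat_lit 29999)) qL150_60_0_19 =
 true := by decide +kernel

def qL150_60_1_0 : PCt := .one ⟨2008000, 251, 803200, 303208, 0, 0, 0, 300000, 0, 50000⟩ ⟨25000, .aff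
 3162278 316228, .pol, .pol, .pol, .pol, .aff 0 3938815 253884, .pol, .pol, .pol⟩

def hL150_60_1_0 : pcchk ⟨(nat_lit 3), (nat_lit 1000), Int.ofNat (nat_lit 400), 0, ⟨0, 1⟩, ⟨Int.ofNat
 (nat_lit 60), 200⟩⟩ ⟨750000, 800000, 880226, 866140, 894542, 473607, 500736, 447950, 500000, 447213⟩ true 0
 0 (nat_lit 50) (Int.ofNat (nat_lit 755)) qL150_60_1_0 = true := by decide +kernel

def qL150_60_1_1 : PCt := .one ⟨2008000, 251, 803200, 341761, -1928, 0, 0, 300000, 50000, 100000⟩ ⟨0, .pol,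
 .pol, .pol, .pol, .sx 150000 (.sx 75000 (.sx 37500 (.sx 18750 (.aff 0 3901240 256329) (.aff 0 1632994
 612373)) (.aff 0 1154701 866026)) .pol) .pol, .pol, .pol, .sx 150000 (.sx 75000 (.sx 37500 .pol .pol) .pol)
 .pol, .pol⟩

def hL150_60_1_1 : pcchk ⟨(nat_lit 3), (nat_lit 1000), Int.ofNat (nat_lit 400), 0, ⟨0, 1⟩, ⟨Int.ofNat
 (nat_lit 60), 200⟩⟩ ⟨750000, 800000, 880226, 866140, 894542, 473607, 500736, 447950, 500000, 447213⟩ false
 (nat_lit 50) (Int.ofNat (nat_lit 755)) (nat_lit 100) (Int.ofNat (nat_lit 1606)) qL150_60_1_1 = true := by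
 decide +kernel

def qL150_60_1_2 : PCt := .one ⟨2008000, 251, 803200, 368267, -4579, 0, 0, 300000, 100000, 150000⟩ ⟨0, .pol,
 .pol, .pol, .pol, .sy 125000 (.sx 150000 (.sx 75000 (.aff 0 3654210 273657) .pol) .pol) (.sy 137500 (.sy
 131250 (.sx 150000 (.sx 75000 (.aff 0 3709535 269576) .pol) .pol) (.sx 150000 (.sx 75000 (.aff 0 3705138
 269896) .pol) .pol)) (.sx 150000 (.sy 143750 (.sx 75000 (.sx 37500 (.aff 25000 3776159 251744) (.aff 0
 1581139 632456)) .pol) (.sy 146875 (.sx 75000 (.sx 37500 (.aff 38000 3787398 244349) (.aff 0 1607276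
 622171)) .pol) (.sx 75000 (.sy 148437 (.sx 37500 (.aff 44000 3794005 240890) (.aff 0 1620184 617214)) (.sx
 37500 (.aff 50000 3790089 238122) (.aff 0 1628734 613974))) .pol))) .pol)), .pol, .pol, .sx 150000 (.sx
 75000 .pol .pol) .pol, .pol⟩

def hL150_60_1_2 : pcchk ⟨(nat_lit 3), (nat_lit 1000), Int.ofNat (nat_lit 400), 0, ⟨0, 1⟩, ⟨Int.ofNat
 (nat_lit 60), 200⟩⟩ ⟨750000, 800000, 880226, 866140, 894542, 473607, 500736, 447950, 500000, 447213⟩ false
 (nat_lit 100) (Int.ofNat (nat_lit 1606)) (nat_lit 150) (Int.ofNat (nat_lit 2523)) qL150_60_1_2 = true := by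
 decide +kernel

def qL150_60_1_3 : PCt := .one ⟨2008000, 251, 803200, 338950, -181, 0, 0, 300000, 150000, 200000⟩ ⟨0, .pol,
 .pol, .pol, .pol, .sx 150000 (.sy 175000 (.aff 275000 3712053 141600) (.aff 375000 3798915 102826)) .pol,
 .pol, .pol, .sx 150000 .pol .pol, .pol⟩

def hL150_60_1_3 : pcchk ⟨(nat_lit 3), (nat_lit 1000), Int.ofNat (nat_lit 400), 0, ⟨0, 1⟩, ⟨Int.ofNat
 (nat_lit 60), 200⟩⟩ ⟨750000, 800000, 880226, 866140, 894542, 473607, 500736, 447950, 500000, 447213⟩ false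
 (nat_lit 150) (Int.ofNat (nat_lit 2523)) (nat_lit 200) (Int.ofNat (nat_lit 3367)) qL150_60_1_3 = true := by
 decide +kernel

def qL150_60_1_4 : PCt := .one ⟨2008000, 251, 803200, 290758, 9457, 0, 0, 300000, 200000, 250000⟩ ⟨0, .pol,
 .pol, .pol, .pol, .sx 150000 (.sx 75000 (.sy 225000 (.sx 37500 (.sy 212500 (.sy 206250 (.aff 375000 3927032
 99471) (.aff 525000 4090224 55163)) (.sx 18750 (.aff 700000 4126965 21808) (.aff 1000000 0 0))) (.aff
 1000000 0 0)) (.sx 37500 (.sx 18750 (.sx 9375 (.aff 750000 4149191 15064) (.aff 1000000 0 0)) (.aff 1000000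
 0 0)) (.aff 1000000 0 0))) (.aff 1000000 0 0)) (.aff 0 1000000 1000000), .pol, .pol, .sx 150000 .pol .pol,
 .pol⟩

def hL150_60_1_4 : pcchk ⟨(nat_lit 3), (nat_lit 1000), Int.ofNat (nat_lit 400), 0, ⟨0, 1⟩, ⟨Int.ofNat
 (nat_lit 60), 200⟩⟩ ⟨750000, 800000, 880226, 866140, 894542, 473607, 500736, 447950, 500000, 447213⟩ false
 (nat_lit 200) (Int.ofNat (nat_lit 3367)) (nat_lit 250) (Int.ofNat (nat_lit 4091)) qL150_60_1_4 = true := by
 decide +kernel

def qL150_60_1_5 : PCt := .one ⟨2008000, 251, 803200, 232124, 24116, 0, 0, 300000, 250000, 300000⟩ ⟨0, .pol,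
 .pol, .pol, .pol, .sx 150000 (.sx 75000 (.sx 37500 (.aff 1250000 4495460 13903) (.aff 1000000 0 0)) (.aff
 1000000 0 0)) (.aff 1000000 0 0), .pol, .pol, .sx 150000 .pol .pol, .pol⟩

def hL150_60_1_5 : pcchk ⟨(nat_lit 3), (nat_lit 1000), Int.ofNat (nat_lit 400), 0, ⟨0, 1⟩, ⟨Int.ofNat
 (nat_lit 60), 200⟩⟩ ⟨750000, 800000, 880226, 866140, 894542, 473607, 500736, 447950, 500000, 447213⟩ false
 (nat_lit 250) (Int.ofNat (nat_lit 4091)) (nat_lit 300) (Int.ofNat (nat_lit 4669)) qL150_60_1_5 = true := by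
 decide +kernel

def qL150_60_1_6 : PCt := .one ⟨2008000, 251, 803200, 177908, 40380, 0, 0, 300000, 300000, 350000⟩ ⟨0, .pol,
 .pol, .pol, .pol, .sx 150000 (.sx 75000 (.sx 37500 (.sx 18750 (.sx 9375 (.aff 1814000 5430844 122007) (.aff
 1700000 4502545 108828)) (.aff 1000000 0 0)) (.aff 1000000 0 0)) (.aff 1000000 0 0)) (.aff 1000000 0 0),
 .pol, .pol, .pol, .pol⟩

def hL150_60_1_6 : pcchk ⟨(nat_lit 3), (nat_lit 1000), Int.ofNat (nat_lit 400), 0, ⟨0, 1⟩, ⟨Int.ofNat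
 (nat_lit 60), 200⟩⟩ ⟨750000, 800000, 880226, 866140, 894542, 473607, 500736, 447950, 500000, 447213⟩ false
 (nat_lit 300) (Int.ofNat (nat_lit 4669)) (nat_lit 350) (Int.ofNat (nat_lit 5112)) qL150_60_1_6 = true := by
 decide +kernel

def qL150_60_1_7 : PCt := .one ⟨2008000, 251, 803200, 136142, 54999, 0, 0, 300000, 350000, 400000⟩ ⟨0, .pol,
 .pol, .pol, .pol, .sx 150000 (.sx 75000 (.sy 375000 (.sx 37500 (.sx 18750 (.aff 2100000 5584901 216656)
 (.aff 1000000 0 0)) (.aff 1000000 0 0)) (.sx 37500 (.aff 2213000 5514372 266825) (.aff 1000000 0 0))) (.aff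
 1000000 0 0)) (.aff 1000000 0 0), .pol, .pol, .pol, .pol⟩

def hL150_60_1_7 : pcchk ⟨(nat_lit 3), (nat_lit 1000), Int.ofNat (nat_lit 400), 0, ⟨0, 1⟩, ⟨Int.ofNat
 (nat_lit 60), 200⟩⟩ ⟨750000, 800000, 880226, 866140, 894542, 473607, 500736, 447950, 500000, 447213⟩ false
 (nat_lit 350) (Int.ofNat (nat_lit 5112)) (nat_lit 400) (Int.ofNat (nat_lit 5451)) qL150_60_1_7 = true := by
 decide +kernel

def qL150_60_1_8 : PCt := .one ⟨2008000, 251, 803200, 91163, 72990, 0, 0, 300000, 400000, 450000⟩ ⟨0, .pol,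
 .pol, .pol, .pol, .sx 150000 (.sx 75000 (.sx 37500 (.sx 18750 (.aff 3000000 10994949 363804) (.sx 28125
 (.aff 3000000 7774603 514496) (.aff 2725000 6104958 487412))) (.aff 2750000 5823598 525878)) (.aff 1000000
 0 0)) (.aff 1000000 0 0), .pol, .pol, .pol, .pol⟩

def hL150_60_1_8 : pcchk ⟨(nat_lit 3), (nat_lit 1000), Int.ofNat (nat_lit 400), 0, ⟨0, 1⟩, ⟨Int.ofNat
 (nat_lit 60), 200⟩⟩ ⟨750000, 800000, 880226, 866140, 894542, 473607, 500736, 447950, 500000, 447213⟩ false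
 (nat_lit 400) (Int.ofNat (nat_lit 5451)) (nat_lit 450) (Int.ofNat (nat_lit 5678)) qL150_60_1_8 = true := by
 decide +kernel

def qL150_60_1_9 : PCt := .one ⟨2008000, 251, 803200, 55420, 89074, 0, 0, 300000, 450000, 500000⟩ ⟨0, .pol,
 .pol, .pol, .pol, .sx 150000 (.sy 475000 (.sx 75000 (.sx 37500 (.aff 3000000 7023770 569495) (.sx 56250
 (.aff 3000000 6282251 636715) (.aff 1000000 0 0))) (.aff 1000000 0 0)) (.sx 75000 (.sx 37500 (.aff 3000000
 8326664 480385) (.aff 3100000 6182233 713335)) (.aff 1000000 0 0))) (.aff 1000000 0 0), .pol, .pol, .pol,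
 .pol⟩

def hL150_60_1_9 : pcchk ⟨(nat_lit 3), (nat_lit 1000), Int.ofNat (nat_lit 400), 0, ⟨0, 1⟩, ⟨Int.ofNat
 (nat_lit 60), 200⟩⟩ ⟨750000, 800000, 880226, 866140, 894542, 473607, 500736, 447950, 500000, 447213⟩ false
 (nat_lit 450) (Int.ofNat (nat_lit 5678)) (nat_lit 500) (Int.ofNat (nat_lit 5816)) qL150_60_1_9 = true := by
 decide +kernel

def qL150_60_1_10 : PCt := .one ⟨2008000, 251, 803200, 15260, 109154, 0, 0, 300000, 500000, 550000⟩ ⟨0,
 .pol, .pol, .pol, .pol, .sy 525000 (.sx 150000 (.sx 75000 (.aff 3350000 6418361 860423) (.aff 3575000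
 6329265 1047614)) (.aff 1000000 0 0)) (.sx 150000 (.sx 75000 (.aff 5000000 10708253 1494175) (.sx 112500
 (.aff 3500000 6309899 990508) (.aff 1000000 0 0))) (.aff 1000000 0 0)), .pol, .pol, .pol, .pol⟩

def hL150_60_1_10 : pcchk ⟨(nat_lit 3), (nat_lit 1000), Int.ofNat (nat_lit 400), 0, ⟨0, 1⟩, ⟨Int.ofNat
 (nat_lit 60), 200⟩⟩ ⟨750000, 800000, 880226, 866140, 894542, 473607, 500736, 447950, 500000, 447213⟩ false
 (nat_lit 500) (Int.ofNat (nat_lit 5816)) (nat_lit 550) (Int.ofNat (nat_lit 5854)) qL150_60_1_10 = true :=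
 by decide +kernel

def qL150_60_1_11 : PCt := .one ⟨2008000, 251, 803200, -19277, 128150, 0, 0, 300000, 550000, 600000⟩ ⟨0,
 .pol, .pol, .pol, .pol, .sx 150000 (.sy 575000 (.sx 75000 (.aff 5000000 12649111 1264912) (.sx 112500 (.sx
 93750 (.aff 5000000 10327956 1549194) (.aff 3700000 6454235 1129491)) (.aff 1500000 1035099 241523))) (.sx
 75000 (.aff 5000000 12927147 1237706) (.sx 112500 (.aff 4500000 7998264 1531583) (.aff 3900000 6367144
 1320844)))) (.aff 1000000 0 0), .pol, .pol, .pol, .pol⟩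

def hL150_60_1_11 : pcchk ⟨(nat_lit 3), (nat_lit 1000), Int.ofNat (nat_lit 400), 0, ⟨0, 1⟩, ⟨Int.ofNat
 (nat_lit 60), 200⟩⟩ ⟨750000, 800000, 880226, 866140, 894542, 473607, 500736, 447950, 500000, 447213⟩ false
 (nat_lit 550) (Int.ofNat (nat_lit 5854)) (nat_lit 600) (Int.ofNat (nat_lit 5806)) qL150_60_1_11 = true :=
 by decide +kernel

def qL150_60_1_12 : PCt := .one ⟨2008000, 251, 803200, -59036, 152005, 0, 0, 300000, 600000, 650000⟩ ⟨0,
 .pol, .pol, .pol, .pol, .sx 150000 (.sx 75000 (.aff 5000000 13333334 1200000) (.sx 112500 (.aff 5000000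
 10327956 1549194) (.sx 131250 (.aff 4700000 8074062 1695553) (.aff 4438000 7195445 1642685)))) (.sx 225000
 (.aff 4401000 6710921 1723579) (.aff 1000000 0 0)), .pol, .pol, .pol, .pol⟩

def hL150_60_1_12 : pcchk ⟨(nat_lit 3), (nat_lit 1000), Int.ofNat (nat_lit 400), 0, ⟨0, 1⟩, ⟨Int.ofNat
 (nat_lit 60), 200⟩⟩ ⟨750000, 800000, 880226, 866140, 894542, 473607, 500736, 447950, 500000, 447213⟩ false
 (nat_lit 600) (Int.ofNat (nat_lit 5806)) (nat_lit 650) (Int.ofNat (nat_lit 5659)) qL150_60_1_12 = true :=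
 by decide +kernel

def qL150_60_1_13 : PCt := .one ⟨2008000, 251, 803200, -94778, 175238, 0, 0, 300000, 650000, 700000⟩ ⟨0,
 .pol, .pol, .pol, .pol, .sx 150000 (.aff 5000000 8485282 1885618) (.sx 225000 (.sx 187500 (.sx 168750 (.aff
 5000000 8000000 2000000) (.aff 4800000 7209994 2002776)) (.aff 4900000 7221397 2106241)) (.aff 1000000 0
 0)), .pol, .pol, .pol, .pol⟩

def hL150_60_1_13 : pcchk ⟨(nat_lit 3), (nat_lit 1000), Int.ofNat (nat_lit 400), 0, ⟨0, 1⟩, ⟨Int.ofNat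
 (nat_lit 60), 200⟩⟩ ⟨750000, 800000, 880226, 866140, 894542, 473607, 500736, 447950, 500000, 447213⟩ false
 (nat_lit 650) (Int.ofNat (nat_lit 5659)) (nat_lit 700) (Int.ofNat (nat_lit 5423)) qL150_60_1_13 = true :=
 by decide +kernel

def qL150_60_1_14 : PCt := .one ⟨2008000, 251, 803200, -138954, 206161, 0, 0, 300000, 700000, 750000⟩ ⟨0,
 .pol, .pol, .pol, .pol, .sx 150000 (.aff 5000000 8793938 1819436) (.sx 225000 (.sx 187500 (.aff 5000000
 8069871 1982684) (.aff 5000000 7334651 2181427)) (.aff 5206000 7345049 2408485)), .pol, .pol, .pol, .pol⟩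

def hL150_60_1_14 : pcchk ⟨(nat_lit 3), (nat_lit 1000), Int.ofNat (nat_lit 400), 0, ⟨0, 1⟩, ⟨Int.ofNat
 (nat_lit 60), 200⟩⟩ ⟨750000, 800000, 880226, 866140, 894542, 473607, 500736, 447950, 500000, 447213⟩ false
 (nat_lit 700) (Int.ofNat (nat_lit 5423)) (nat_lit 750) (Int.ofNat (nat_lit 5077)) qL150_60_1_14 = true :=
 by decide +kernel

def qL150_60_1_15 : PCt := .one ⟨2008000, 251, 803200, -181925, 238389, 0, 0, 300000, 750000, 800000⟩ ⟨0,
 .pol, .pol, .pol, .pol, .sx 150000 (.aff 5000000 10498678 1524002) (.sy 775000 (.sx 225000 (.aff 8000000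
 14116185 3471193) (.sx 262500 (.aff 5352000 7655893 2473899) (.aff 5400000 7368651 2627347))) (.sx 225000
 (.aff 8000000 14345732 3415651) (.sx 262500 (.aff 8000000 12582039 3894441) (.aff 5469000 7511425
 2658878)))), .pol, .pol, .pol, .pol⟩

def hL150_60_1_15 : pcchk ⟨(nat_lit 3), (nat_lit 1000), Int.ofNat (nat_lit 400), 0, ⟨0, 1⟩, ⟨Int.ofNat
 (nat_lit 60), 200⟩⟩ ⟨750000, 800000, 880226, 866140, 894542, 473607, 500736, 447950, 500000, 447213⟩ false
 (nat_lit 750) (Int.ofNat (nat_lit 5077)) (nat_lit 800) (Int.ofNat (nat_lit 4624)) qL150_60_1_15 = true :=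
 by decide +kernel

def qL150_60_1_16 : PCt := .one ⟨2008000, 251, 803200, -13904999, 11216848, 0, 0, 300000, 800000, 850000⟩
 ⟨0, .pol, .pol, .pol, .pol, .sx 150000 (.aff 20000000 44558950 8101628) (.sx 225000 (.aff 35000000 68000000
 17000000) (.sx 262500 (.inf 1839733 543558) (.inf 1712698 583875))), .pol, .pol, .sy 825000 (.sy 812500
 (.sy 806250 .pol (.sx 150000 (.inf 3285068 304408) (.inf 1517308 659062))) (.inf 1869047 535033)) (.inf
 1890327 529010), .pol⟩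

def hL150_60_1_16 : pcchk ⟨(nat_lit 3), (nat_lit 1000), Int.ofNat (nat_lit 400), 0, ⟨0, 1⟩, ⟨Int.ofNat
 (nat_lit 60), 200⟩⟩ ⟨750000, 800000, 880226, 866140, 894542, 473607, 500736, 447950, 500000, 447213⟩ false
 (nat_lit 800) (Int.ofNat (nat_lit 4624)) (nat_lit 850) (Int.negSucc (nat_lit 29999)) qL150_60_1_16 = true
 := by decide +kernel

def qL150_60_1_17 : PCt := .one ⟨2008000, 251, 803200, 0, -602400, 0, 0, 300000, 850000, 900000⟩ ⟨0, .pol,
 .pol, .pol, .pol, .inf 1932184 517550, .pol, .pol, .inf 1932184 517550, .pol⟩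

def hL150_60_1_17 : pcchk ⟨(nat_lit 3), (nat_lit 1000), Int.ofNat (nat_lit 400), 0, ⟨0, 1⟩, ⟨Int.ofNat
 (nat_lit 60), 200⟩⟩ ⟨750000, 800000, 880226, 866140, 894542, 473607, 500736, 447950, 500000, 447213⟩ false
 (nat_lit 850) (Int.negSucc (nat_lit 29999)) (nat_lit 900) (Int.negSucc (nat_lit 29999)) qL150_60_1_17 =
 true := by decide +kernel

def qL150_60_1_18 : PCt := .one ⟨2008000, 251, 803200, 0, -602400, 0, 0, 300000, 900000, 950000⟩ ⟨0, .pol,
 .pol, .pol, .pol, .inf 1986622 503368, .pol, .pol, .inf 1986622 503368, .pol⟩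

def hL150_60_1_18 : pcchk ⟨(nat_lit 3), (nat_lit 1000), Int.ofNat (nat_lit 400), 0, ⟨0, 1⟩, ⟨Int.ofNat
 (nat_lit 60), 200⟩⟩ ⟨750000, 800000, 880226, 866140, 894542, 473607, 500736, 447950, 500000, 447213⟩ false
 (nat_lit 900) (Int.negSucc (nat_lit 29999)) (nat_lit 950) (Int.negSucc (nat_lit 29999)) qL150_60_1_18 =
 true := by decide +kernel

def qL150_60_1_19 : PCt := .one ⟨2008000, 251, 803200, 0, -602400, 0, 0, 300000, 950000, 1000000⟩ ⟨0, .pol,
 .pol, .pol, .pol, .aff 35000000 70776644 16333072, .pol, .pol, .inf 2549510 392233, .pol⟩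

def hL150_60_1_19 : pcchk ⟨(nat_lit 3), (nat_lit 1000), Int.ofNat (nat_lit 400), 0, ⟨0, 1⟩, ⟨Int.ofNat
 (nat_lit 60), 200⟩⟩ ⟨750000, 800000, 880226, 866140, 894542, 473607, 500736, 447950, 500000, 447213⟩ false
 (nat_lit 950) (Int.negSucc (nat_lit 29999)) (nat_lit 1000) (Int.negSucc (nat_lit 29999)) qL150_60_1_19 =
 true := by decide +kernel

def qL150_60_2_0 : PCt := .one ⟨2008000, 251, 2008000, 282726, 0, 0, 0, 300000, 0, 50000⟩ ⟨12500, .sp 250000
 (.aff 6324556 158114) .pol, .pol, .pol, .pol, .pol, .aff 0 14172346 70560, .pol, .pol, .pol⟩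

def hL150_60_2_0 : pcchk ⟨(nat_lit 3), (nat_lit 1000), Int.ofNat (nat_lit 1000), 0, ⟨0, 1⟩, ⟨Int.ofNat
 (nat_lit 60), 200⟩⟩ ⟨750000, 800000, 880226, 866140, 894542, 473607, 500736, 447950, 500000, 447213⟩ true 0
 0 (nat_lit 50) (Int.ofNat (nat_lit 704)) qL150_60_2_0 = true := by decide +kernel

def qL150_60_2_1 : PCt := .one ⟨2008000, 251, 2008000, 316460, -1687, 0, 0, 300000, 50000, 100000⟩ ⟨0, .pol,
 .pol, .pol, .pol, .sx 150000 (.sx 75000 (.aff 0 14057376 71138) .pol) .pol, .pol, .pol, .sx 150000 (.sx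
 75000 (.sx 37500 .pol .pol) .pol) .pol, .pol⟩

def hL150_60_2_1 : pcchk ⟨(nat_lit 3), (nat_lit 1000), Int.ofNat (nat_lit 1000), 0, ⟨0, 1⟩, ⟨Int.ofNat
 (nat_lit 60), 200⟩⟩ ⟨750000, 800000, 880226, 866140, 894542, 473607, 500736, 447950, 500000, 447213⟩ false
 (nat_lit 50) (Int.ofNat (nat_lit 704)) (nat_lit 100) (Int.ofNat (nat_lit 1492)) qL150_60_2_1 = true := by
 decide +kernel

def qL150_60_2_2 : PCt := .one ⟨2008000, 251, 2008000, 350596, -5101, 0, 0, 300000, 100000, 150000⟩ ⟨0,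
 .pol, .pol, .pol, .pol, .sx 150000 (.sx 75000 (.aff 0 13444365 74381) .pol) .pol, .pol, .pol, .sx 150000
 (.sx 75000 .pol .pol) .pol, .pol⟩

def hL150_60_2_2 : pcchk ⟨(nat_lit 3), (nat_lit 1000), Int.ofNat (nat_lit 1000), 0, ⟨0, 1⟩, ⟨Int.ofNat
 (nat_lit 60), 200⟩⟩ ⟨750000, 800000, 880226, 866140, 894542, 473607, 500736, 447950, 500000, 447213⟩ false
 (nat_lit 100) (Int.ofNat (nat_lit 1492)) (nat_lit 150) (Int.ofNat (nat_lit 2365)) qL150_60_2_2 = true := by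
 decide +kernel

def qL150_60_2_3 : PCt := .one ⟨2008000, 251, 2008000, 375496, -8836, 0, 0, 300000, 150000, 200000⟩ ⟨0,
 .pol, .pol, .pol, .pol, .sx 150000 (.sx 75000 (.sy 175000 (.aff 0 13193736 75794) (.aff 100000 13409080
 60407)) .pol) .pol, .pol, .pol, .sx 150000 .pol .pol, .pol⟩

def hL150_60_2_3 : pcchk ⟨(nat_lit 3), (nat_lit 1000), Int.ofNat (nat_lit 1000), 0, ⟨0, 1⟩, ⟨Int.ofNat
 (nat_lit 60), 200⟩⟩ ⟨750000, 800000, 880226, 866140, 894542, 473607, 500736, 447950, 500000, 447213⟩ false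
 (nat_lit 150) (Int.ofNat (nat_lit 2365)) (nat_lit 200) (Int.ofNat (nat_lit 3300)) qL150_60_2_3 = true := by
 decide +kernel

def qL150_60_2_4 : PCt := .one ⟨2008000, 251, 2008000, 334131, -563, 0, 0, 300000, 200000, 250000⟩ ⟨0, .pol,
 .pol, .pol, .pol, .sx 150000 (.sx 75000 (.aff 475000 9007850 30599) .pol) .pol, .pol, .pol, .sx 150000 .pol
 .pol, .pol⟩

def hL150_60_2_4 : pcchk ⟨(nat_lit 3), (nat_lit 1000), Int.ofNat (nat_lit 1000), 0, ⟨0, 1⟩, ⟨Int.ofNat
 (nat_lit 60), 200⟩⟩ ⟨750000, 800000, 880226, 866140, 894542, 473607, 500736, 447950, 500000, 447213⟩ false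
 (nat_lit 200) (Int.ofNat (nat_lit 3300)) (nat_lit 250) (Int.ofNat (nat_lit 4132)) qL150_60_2_4 = true := by
 decide +kernel

def qL150_60_2_5 : PCt := .one ⟨2008000, 251, 2008000, 160238, 42910, 0, 0, 300000, 250000, 300000⟩ ⟨0,
 .pol, .pol, .pol, .pol, .sx 150000 (.sx 75000 (.sx 37500 (.aff 1750000 14177841 39675) (.aff 0 2211084
 452267)) .pol) .pol, .pol, .pol, .sx 150000 .pol .pol, .pol⟩

def hL150_60_2_5 : pcchk ⟨(nat_lit 3), (nat_lit 1000), Int.ofNat (nat_lit 1000), 0, ⟨0, 1⟩, ⟨Int.ofNat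
 (nat_lit 60), 200⟩⟩ ⟨750000, 800000, 880226, 866140, 894542, 473607, 500736, 447950, 500000, 447213⟩ false
 (nat_lit 250) (Int.ofNat (nat_lit 4132)) (nat_lit 300) (Int.ofNat (nat_lit 4531)) qL150_60_2_5 = true := by
 decide +kernel

def qL150_60_2_6 : PCt := .one ⟨2008000, 251, 2008000, -42168, 103632, 0, 0, 300000, 300000, 350000⟩ ⟨0,
 .pol, .pol, .pol, .pol, .sx 150000 (.sx 75000 (.sx 37500 (.sy 325000 (.aff 3175000 15337605 308434) (.sy
 337500 (.sx 18750 (.sy 331250 (.sy 328125 (.sx 9375 (.sx 4687 (.aff 3000000 16694203 239605) (.aff 3075000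
 15491359 277938)) (.aff 1000000 0 0)) (.sx 9375 (.sx 4687 (.aff 5000000 47443723 337242) (.aff 3134000
 15418704 295353)) (.aff 1000000 0 0))) (.sx 9375 (.aff 3800000 16722042 468843) (.aff 1000000 0 0))) (.aff
 1000000 0 0)) (.sx 18750 (.sx 9375 (.aff 5000000 24221203 660579) (.aff 3300000 15214842 347687)) (.aff
 1000000 0 0)))) (.aff 1000000 0 0)) .pol) .pol, .pol, .pol, .pol, .pol⟩

def hL150_60_2_6 : pcchk ⟨(nat_lit 3), (nat_lit 1000), Int.ofNat (nat_lit 1000), 0, ⟨0, 1⟩, ⟨Int.ofNat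
 (nat_lit 60), 200⟩⟩ ⟨750000, 800000, 880226, 866140, 894542, 473607, 500736, 447950, 500000, 447213⟩ false
 (nat_lit 300) (Int.ofNat (nat_lit 4531)) (nat_lit 350) (Int.ofNat (nat_lit 4426)) qL150_60_2_6 = true := by
 decide +kernel

def qL150_60_2_7 : PCt := .one ⟨2008000, 251, 2008000, -191965, 156061, 0, 0, 300000, 350000, 400000⟩ ⟨0,
 .pol, .pol, .pol, .pol, .sx 150000 (.sx 75000 (.sx 37500 (.sx 18750 (.sx 9375 (.aff 5000000 29211870
 547723) (.sy 375000 (.aff 4700000 17102903 800449) (.aff 5000000 18184243 879883))) (.sy 375000 (.aff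
 1000000 0 0) (.aff 4700000 16626904 823365))) (.aff 1000000 0 0)) (.aff 1000000 0 0)) .pol, .pol, .pol,
 .pol, .pol⟩

def hL150_60_2_7 : pcchk ⟨(nat_lit 3), (nat_lit 1000), Int.ofNat (nat_lit 1000), 0, ⟨0, 1⟩, ⟨Int.ofNat
 (nat_lit 60), 200⟩⟩ ⟨750000, 800000, 880226, 866140, 894542, 473607, 500736, 447950, 500000, 447213⟩ false
 (nat_lit 350) (Int.ofNat (nat_lit 4426)) (nat_lit 400) (Int.ofNat (nat_lit 3948)) qL150_60_2_7 = true := by
 decide +kernel

def qL150_60_2_8 : PCt := .one ⟨2008000, 251, 2008000, -358629, 222727, 0, 0, 300000, 400000, 450000⟩ ⟨0,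
 .pol, .pol, .pol, .pol, .sx 150000 (.sx 75000 (.sy 425000 (.sx 37500 (.sx 18750 (.aff 5000000 18761664
 852803) (.sx 28125 (.aff 6800000 22212309 1514476) (.aff 5600000 16925539 1250182))) (.aff 1000000 0 0))
 (.sx 37500 (.aff 6300000 18102947 1551682) (.aff 5850000 16375312 1436462))) (.aff 1000000 0 0)) .pol,
 .pol, .pol, .pol, .pol⟩

def hL150_60_2_8 : pcchk ⟨(nat_lit 3), (nat_lit 1000), Int.ofNat (nat_lit 1000), 0, ⟨0, 1⟩, ⟨Int.ofNat
 (nat_lit 60), 200⟩⟩ ⟨750000, 800000, 880226, 866140, 894542, 473607, 500736, 447950, 500000, 447213⟩ false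
 (nat_lit 400) (Int.ofNat (nat_lit 3948)) (nat_lit 450) (Int.ofNat (nat_lit 3055)) qL150_60_2_8 = true := by
 decide +kernel

def qL150_60_2_9 : PCt := .one ⟨2008000, 251, 2008000, -489149, 281461, 0, 0, 300000, 450000, 500000⟩ ⟨0,
 .pol, .pol, .pol, .pol, .sx 150000 (.sx 75000 (.sx 37500 (.aff 8000000 28767266 1703325) (.sx 56250 (.sy
 475000 (.sx 46875 (.aff 7800000 21359651 2164830) (.sx 51562 (.aff 7400000 19167743 2136924) (.aff 7150000
 18538921 2040168))) (.aff 8000000 20607443 2377782)) (.sy 475000 (.aff 1000000 0 0) (.aff 7450000 18481070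
 2251088)))) (.aff 1000000 0 0)) (.aff 1000000 0 0), .pol, .pol, .pol, .pol⟩

def hL150_60_2_9 : pcchk ⟨(nat_lit 3), (nat_lit 1000), Int.ofNat (nat_lit 1000), 0, ⟨0, 1⟩, ⟨Int.ofNat
 (nat_lit 60), 200⟩⟩ ⟨750000, 800000, 880226, 866140, 894542, 473607, 500736, 447950, 500000, 447213⟩ false
 (nat_lit 450) (Int.ofNat (nat_lit 3055)) (nat_lit 500) (Int.ofNat (nat_lit 1837)) qL150_60_2_9 = true := by
 decide +kernel

def qL150_60_2_10 : PCt := .one ⟨2008000, 251, 2008000, -642962, 358367, 0, 0, 300000, 500000, 550000⟩ ⟨0,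
 .pol, .pol, .pol, .pol, .sx 150000 (.sx 75000 (.aff 8700000 20372286 2910327) (.sx 112500 (.sy 525000 (.aff
 8538000 19048183 2983038) (.aff 8450000 18803497 2951712)) (.aff 1000000 0 0))) (.aff 1000000 0 0), .pol,
 .pol, .pol, .pol⟩

def hL150_60_2_10 : pcchk ⟨(nat_lit 3), (nat_lit 1000), Int.ofNat (nat_lit 1000), 0, ⟨0, 1⟩, ⟨Int.ofNat
 (nat_lit 60), 200⟩⟩ ⟨750000, 800000, 880226, 866140, 894542, 473607, 500736, 447950, 500000, 447213⟩ false
 (nat_lit 500) (Int.ofNat (nat_lit 1837)) (nat_lit 550) (Int.ofNat (nat_lit 236)) qL150_60_2_10 = true := by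
 decide +kernel

def qL150_60_2_11 : PCt := .one ⟨2008000, 251, 2008000, -773482, 430153, 0, 0, 300000, 550000, 600000⟩ ⟨0,
 .pol, .pol, .pol, .pol, .sy 575000 (.sy 562500 (.sx 150000 (.sx 75000 (.aff 12000000 34591265 3497993) (.sx
 112500 (.sx 93750 (.aff 12000000 27490350 4401545) (.aff 8900000 18779405 3323322)) (.aff 1000000 0 0)))
 (.aff 1000000 0 0)) (.sx 150000 (.sx 75000 (.aff 12000000 34977771 3459340) (.sx 112500 (.sx 93750 (.aff
 12000000 28559231 4236809) (.sx 103125 (.aff 11100000 23719204 4300735) (.aff 9200000 19042005 3531141)))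
 (.aff 1000000 0 0))) (.aff 1000000 0 0))) (.sy 587500 (.sx 150000 (.sx 75000 (.aff 12000000 35360053
 3421941) (.sx 112500 (.aff 10500000 21593788 4179443) (.sx 131250 (.aff 9400000 18707689 3771712) (.aff
 1000000 0 0)))) (.aff 1000000 0 0)) (.sx 150000 (.sx 75000 (.aff 12000000 35738246 3385729) (.sx 112500
 (.aff 12000000 26394444 4584299) (.sx 131250 (.sx 121875 (.aff 11100000 22292865 4575904) (.aff 8300000
 15959935 3338987)) (.aff 1000000 0 0)))) (.aff 1000000 0 0))), .pol, .pol, .sx 150000 (.sx 75000 (.inf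
 3132625 319222) .pol) .pol, .pol⟩

def hL150_60_2_11 : pcchk ⟨(nat_lit 3), (nat_lit 1000), Int.ofNat (nat_lit 1000), 0, ⟨0, 1⟩, ⟨Int.ofNat
 (nat_lit 60), 200⟩⟩ ⟨750000, 800000, 880226, 866140, 894542, 473607, 500736, 447950, 500000, 447213⟩ false
 (nat_lit 550) (Int.ofNat (nat_lit 236)) (nat_lit 600) (Int.negSucc (nat_lit 1689)) qL150_60_2_11 = true :=
 by decide +kernel

def qL150_60_2_12 : PCt := .one ⟨2008000, 251, 2008000, -938540, 529188, 0, 0, 300000, 600000, 650000⟩ ⟨0,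
 .pol, .pol, .pol, .pol, .sx 150000 (.sx 75000 (.aff 12000000 36666667 3300000) (.sx 112500 (.aff 12000000
 28401878 4260282) (.sx 131250 (.aff 11800000 23567533 4949182) (.sy 625000 (.sx 140625 (.aff 11300000
 21496067 4935322) (.sy 612500 (.aff 1000000 0 0) (.aff 11251000 21346938 4922627))) (.aff 11600000 21852460
 5141756))))) (.sy 625000 (.aff 1000000 0 0) (.aff 11250000 20887804 5029849)), .pol, .pol, .sx 150000 (.sx
 75000 (.inf 4082483 244949) .pol) .pol, .pol⟩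

def hL150_60_2_12 : pcchk ⟨(nat_lit 3), (nat_lit 1000), Int.ofNat (nat_lit 1000), 0, ⟨0, 1⟩, ⟨Int.ofNat
 (nat_lit 60), 200⟩⟩ ⟨750000, 800000, 880226, 866140, 894542, 473607, 500736, 447950, 500000, 447213⟩ false
 (nat_lit 600) (Int.negSucc (nat_lit 1689)) (nat_lit 650) (Int.negSucc (nat_lit 4026)) qL150_60_2_12 = true
 := by decide +kernel

def qL150_60_2_13 : PCt := .one ⟨2008000, 251, 2008000, -1079501, 620813, 0, 0, 300000, 650000, 700000⟩ ⟨0,
 .pol, .pol, .pol, .pol, .sx 150000 (.aff 12000000 23334524 5185450) (.sx 225000 (.sx 187500 (.sx 168750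
 (.aff 12400000 22800000 5700000) (.sy 675000 (.aff 12000000 21498796 5628223) (.aff 12300000 21913506
 5827001))) (.sy 675000 (.aff 1000000 0 0) (.aff 12850000 22144171 6341286))) (.aff 1000000 0 0)), .pol,
 .pol, .sx 150000 (.inf 2400001 416667) .pol, .pol⟩

def hL150_60_2_13 : pcchk ⟨(nat_lit 3), (nat_lit 1000), Int.ofNat (nat_lit 1000), 0, ⟨0, 1⟩, ⟨Int.ofNat
 (nat_lit 60), 200⟩⟩ ⟨750000, 800000, 880226, 866140, 894542, 473607, 500736, 447950, 500000, 447213⟩ false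
 (nat_lit 650) (Int.negSucc (nat_lit 4026)) (nat_lit 700) (Int.negSucc (nat_lit 6714)) qL150_60_2_13 = true
 := by decide +kernel

def qL150_60_2_14 : PCt := .one ⟨2008000, 251, 2008000, -1264639, 750409, 0, 0, 300000, 700000, 750000⟩ ⟨0,
 .pol, .pol, .pol, .pol, .sx 150000 (.aff 12000000 24183328 5003448) (.sx 225000 (.sx 187500 (.aff 20000000
 39382268 9166562) (.sx 206250 (.sy 725000 (.sx 196875 (.aff 20000000 36583350 9867878) (.sy 712500 (.sx
 201562 (.aff 20000000 35774041 10091117) (.aff 12800000 22024089 6322169)) (.aff 20000000 35878780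
 10061658))) (.aff 20000000 36773870 9816754)) (.sy 725000 (.aff 13750000 23141795 7024628) (.aff 20000000
 34762824 10384657)))) (.sx 262500 (.sx 243750 (.sy 725000 (.aff 13100000 21311260 6870078) (.aff 13800000
 22936245 7143280)) (.aff 13600000 21524396 7375817)) (.aff 1000000 0 0))), .pol, .pol, .sx 150000 (.inf
 3109127 321634) .pol, .pol⟩

def hL150_60_2_14 : pcchk ⟨(nat_lit 3), (nat_lit 1000), Int.ofNat (nat_lit 1000), 0, ⟨0, 1⟩, ⟨Int.ofNat
 (nat_lit 60), 200⟩⟩ ⟨750000, 800000, 880226, 866140, 894542, 473607, 500736, 447950, 500000, 447213⟩ false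
 (nat_lit 700) (Int.negSucc (nat_lit 6714)) (nat_lit 750) (Int.negSucc (nat_lit 9863)) qL150_60_2_14 = true
 := by decide +kernel

def qL150_60_2_15 : PCt := .one ⟨2008000, 251, 2008000, -1460620, 897395, 0, 0, 300000, 750000, 800000⟩ ⟨0,
 .pol, .pol, .pol, .pol, .sx 150000 (.aff 12000000 28871363 4191005) (.sx 225000 (.aff 20000000 38628142
 9345519) (.sx 262500 (.sx 243750 (.aff 20000000 34550061 10448607) (.sy 775000 (.sx 253125 (.aff 18900000
 31067438 10313371) (.sy 762500 (.sx 257812 (.aff 14400000 23108252 7770385) (.aff 14000000 22214656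
 7607591)) (.aff 20000000 32809090 11003049))) (.aff 20000000 33512850 10771988))) (.sy 775000 (.sy 762500
 (.aff 3000000 3279567 1219674) (.sy 768750 (.sy 765625 (.sx 281250 (.aff 14000000 21983647 7687533) (.aff
 1000000 0 0)) (.sy 767187 (.sy 766406 (.sx 281250 (.aff 14300000 22519688 7854905) (.aff 1000000 0 0)) (.sy
 766796 (.sx 281250 (.sx 271875 (.aff 14300000 22627755 7817391) (.aff 1000000 0 0)) (.aff 1000000 0 0))
 (.sy 766991 (.sx 281250 (.sx 271875 (.aff 14400000 22802238 7874666) (.aff 1000000 0 0)) (.aff 1000000 0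
 0)) (.sy 767089 (.sx 281250 (.sx 271875 (.aff 14400000 22804416 7873914) (.aff 1500000 832689 300233))
 (.aff 1000000 0 0)) (.sy 767138 (.sx 281250 (.sx 271875 (.aff 14400000 22805508 7873537) (.aff 1500000
 832729 300218)) (.aff 1000000 0 0)) (.sy 767162 (.sy 767150 (.sx 281250 (.sx 271875 (.aff 14400000 22805962
 7873380) (.aff 1500000 832745 300212)) (.aff 1000000 0 0)) (.sy 767156 (.sx 281250 (.sx 271875 (.aff
 14400000 22806095 7873334) (.aff 1500000 832750 300211)) (.aff 1000000 0 0)) (.sy 767159 (.sy 767157 (.sx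
 281250 (.sx 271875 (.aff 14400000 22806147 7873316) (.aff 1500000 832752 300210)) (.aff 1000000 0 0)) (.sy
 767158 (.sx 281250 (.sx 271875 (.aff 14400000 22806162 7873311) (.aff 1500000 832752 300210)) (.aff 1000000
 0 0)) (.sx 281250 (.sx 271875 (.aff 14400000 22806177 7873306) (.aff 1500000 832753 300210)) (.aff 1000000
 0 0)))) (.sy 767160 (.sx 281250 (.sx 271875 (.aff 14400000 22806192 7873301) (.aff 1500000 832753 300210))
 (.aff 1000000 0 0)) (.sy 767161 (.sx 281250 (.sx 271875 (.aff 14400000 22806207 7873296) (.aff 1500000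
 832754 300209)) (.aff 1000000 0 0)) (.sx 281250 (.sx 271875 (.aff 14400000 22806222 7873291) (.aff 1500000
 832755 300209)) (.aff 1000000 0 0))))))) (.sy 767174 (.sy 767168 (.sy 767165 (.sx 281250 (.sx 271875 (.aff
 14400000 22806252 7873280) (.aff 1500000 832756 300208)) (.aff 1000000 0 0)) (.sx 281250 (.sx 271875 (.aff
 14400000 22806296 7873265) (.aff 1500000 832757 300208)) (.aff 1000000 0 0))) (.sx 281250 (.sx 271875 (.aff
 14400000 22806363 7873242) (.aff 1500000 832760 300207)) (.aff 1000000 0 0))) (.sx 281250 (.sx 271875 (.aff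
 14400000 22806504 7873193) (.aff 1500000 832765 300205)) (.aff 1000000 0 0))))))))) (.sy 767968 (.sy 767577
 (.sy 767382 (.sy 767284 (.sy 767235 (.sx 281250 (.sx 271875 (.aff 14400000 22806958 7873036) (.aff 1500000
 832781 300199)) (.aff 1000000 0 0)) (.sx 281250 (.sx 271875 (.aff 14400000 22807678 7872788) (.aff 1500000
 832808 300190)) (.aff 1000000 0 0))) (.sx 281250 (.sx 271875 (.sx 267187 (.aff 20000000 32340810 11162368)
 (.aff 3000000 3374564 1185339)) (.aff 1500000 832848 300175)) (.aff 1000000 0 0))) (.sx 281250 (.sx 271875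
 (.sx 267187 (.aff 20000000 32343897 11161302) (.aff 8000000 11812099 4148289)) (.aff 1500000 832927
 300147)) (.aff 1000000 0 0))) (.sx 281250 (.sx 271875 (.sx 267187 (.aff 20000000 32350070 11159173) (.aff
 12000000 18565413 6517496)) (.aff 1500000 833086 300090)) (.aff 1000000 0 0))) (.sx 281250 (.sx 271875 (.sx
 267187 (.aff 20000000 32362424 11154913) (.aff 12900000 20135897 7032714)) (.aff 2000000 1666808 599950))
 (.aff 1000000 0 0))))) (.sy 771875 (.sx 281250 (.sx 271875 (.aff 17600000 27941964 9861870) (.aff 5000000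
 6675701 2396753)) (.aff 1000000 0 0)) (.sx 281250 (.sx 271875 (.aff 20000000 32326460 11167323) (.sy 773437
 (.aff 13600000 21150229 7506302) (.sx 276562 (.aff 18000000 28443592 10160461) (.aff 3000000 3332214
 1200404)))) (.aff 1000000 0 0))))) (.sx 281250 (.sx 271875 (.aff 20000000 32619013 11067166) (.sy 787500
 (.sx 276562 (.aff 20000000 32070095 11256593) (.sy 781250 (.sx 278906 (.aff 17700000 27894092 9998175)
 (.aff 14300000 22191755 7970979)) (.aff 20000000 31862992 11329759))) (.aff 20000000 32188359 11215235)))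
 (.sx 290625 (.sy 787500 (.sy 781250 (.aff 12000000 18146038 6668123) (.sx 285937 (.aff 18300000 28653178
 10445264) (.aff 13500000 20660865 7562607))) (.aff 20000000 31656283 11403740)) (.sy 787500 (.aff 3000000
 3253001 1229634) (.aff 18000000 27652231 10451237))))))), .pol, .pol, .sx 150000 (.inf 3214551 311086) (.sx
 225000 (.inf 2033061 491870) .pol), .pol⟩

def hL150_60_2_15 : pcchk ⟨(nat_lit 3), (nat_lit 1000), Int.ofNat (nat_lit 1000), 0, ⟨0, 1⟩, ⟨Int.ofNat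
 (nat_lit 60), 200⟩⟩ ⟨750000, 800000, 880226, 866140, 894542, 473607, 500736, 447950, 500000, 447213⟩ false
 (nat_lit 750) (Int.negSucc (nat_lit 9863)) (nat_lit 800) (Int.negSucc (nat_lit 13500)) qL150_60_2_15 = true
 := by decide +kernel

def qL150_60_2_16 : PCt := .one ⟨2008000, 251, 2008000, -6625999, 5029698, 0, 0, 300000, 800000, 850000⟩ ⟨0,
 .pol, .pol, .pol, .pol, .sx 150000 (.aff 20000000 51452244 7016215) (.sx 225000 (.aff 35000000 71319002
 16208864) (.sx 262500 (.aff 35000000 62550903 18480949) (.inf 1712698 583875))), .pol, .pol, .sx 150000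
 (.inf 3316625 301512) (.sy 825000 (.sx 225000 (.inf 2081666 480385) (.sx 262500 (.inf 1825742 547723) (.inf
 1699674 588349))) (.inf 1929307 518321)), .pol⟩

def hL150_60_2_16 : pcchk ⟨(nat_lit 3), (nat_lit 1000), Int.ofNat (nat_lit 1000), 0, ⟨0, 1⟩, ⟨Int.ofNat
 (nat_lit 60), 200⟩⟩ ⟨750000, 800000, 880226, 866140, 894542, 473607, 500736, 447950, 500000, 447213⟩ false
 (nat_lit 800) (Int.negSucc (nat_lit 13500)) (nat_lit 850) (Int.negSucc (nat_lit 29999)) qL150_60_2_16 =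
 true := by decide +kernel

def qL150_60_2_17 : PCt := .one ⟨2008000, 251, 2008000, 0, -602400, 0, 0, 300000, 850000, 900000⟩ ⟨0, .pol,
 .pol, .pol, .pol, .inf 1932184 517550, .pol, .pol, .inf 1932184 517550, .pol⟩

def hL150_60_2_17 : pcchk ⟨(nat_lit 3), (nat_lit 1000), Int.ofNat (nat_lit 1000), 0, ⟨0, 1⟩, ⟨Int.ofNat
 (nat_lit 60), 200⟩⟩ ⟨750000, 800000, 880226, 866140, 894542, 473607, 500736, 447950, 500000, 447213⟩ false
 (nat_lit 850) (Int.negSucc (nat_lit 29999)) (nat_lit 900) (Int.negSucc (nat_lit 29999)) qL150_60_2_17 =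
 true := by decide +kernel

def qL150_60_2_18 : PCt := .one ⟨2008000, 251, 2008000, 0, -602400, 0, 0, 300000, 900000, 950000⟩ ⟨0, .pol,
 .pol, .pol, .pol, .aff 35000000 68937976 16768697, .pol, .pol, .inf 1986622 503368, .pol⟩

def hL150_60_2_18 : pcchk ⟨(nat_lit 3), (nat_lit 1000), Int.ofNat (nat_lit 1000), 0, ⟨0, 1⟩, ⟨Int.ofNat
 (nat_lit 60), 200⟩⟩ ⟨750000, 800000, 880226, 866140, 894542, 473607, 500736, 447950, 500000, 447213⟩ false
 (nat_lit 900) (Int.negSucc (nat_lit 29999)) (nat_lit 950) (Int.negSucc (nat_lit 29999)) qL150_60_2_18 =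
 true := by decide +kernel

def qL150_60_2_19 : PCt := .one ⟨2008000, 251, 2008000, 0, -602400, 0, 0, 300000, 950000, 1000000⟩ ⟨0, .pol,
 .pol, .pol, .pol, .aff 20000000 34252738 10539304, .pol, .pol, .inf 2549510 392233, .pol⟩

def hL150_60_2_19 : pcchk ⟨(nat_lit 3), (nat_lit 1000), Int.ofNat (nat_lit 1000), 0, ⟨0, 1⟩, ⟨Int.ofNat
 (nat_lit 60), 200⟩⟩ ⟨750000, 800000, 880226, 866140, 894542, 473607, 500736, 447950, 500000, 447213⟩ false
 (nat_lit 950) (Int.negSucc (nat_lit 29999)) (nat_lit 1000) (Int.negSucc (nat_lit 29999)) qL150_60_2_19 =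
 true := by decide +kernel

def qL150_60_3_0 : PCt := .one ⟨2008000, 251, 431720, 886331, 0, 0, 0, 300000, 0, 50000⟩ ⟨50000, .pol, .aff
 316228 3162276, .pol, .pol, .sx 175000 (.sy 25000 (.sy 12500 (.aff 44000 236885 3858143) (.aff 100000
 279767 2895267)) (.aff 0 510754 1957890)) (.sy 25000 (.sx 237500 (.sy 12500 (.sx 206250 (.sy 6250 (.aff
 225000 143790 4177099) (.aff 225000 149507 4017371)) (.aff 500000 81111 3082197)) (.aff 1000000 0 0)) (.aff
 1000000 0 0)) (.aff 1000000 0 0)), .pol, .pol, .pol, .pol⟩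

def hL150_60_3_0 : pcchk ⟨(nat_lit 1), (nat_lit 1000), Int.ofNat (nat_lit 215), 0, ⟨0, 1⟩, ⟨Int.ofNat
 (nat_lit 60), 200⟩⟩ ⟨750000, 800000, 880226, 866140, 894542, 473607, 500736, 447950, 500000, 447213⟩ true 0
 0 (nat_lit 50) (Int.ofNat (nat_lit 2207)) qL150_60_3_0 = true := by decide +kernel

def qL150_60_3_1 : PCt := .one ⟨2008000, 251, 431720, -222085, 55420, 0, 0, 300000, 50000, 100000⟩ ⟨0, .pol,
 .pol, .pol, .pol, .sy 75000 (.aff 500000 456436 547722) (.sy 87500 (.aff 525000 650888 346642) (.sy 93750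
 (.sx 150000 (.aff 450000 855010 353798) (.aff 1000000 0 0)) (.sx 150000 (.sy 96875 (.sx 75000 (.aff 375000
 996413 392032) (.aff 1000000 0 0)) (.sy 98437 (.sx 75000 (.aff 375000 910118 429203) (.aff 1000000 0 0))
 (.sx 75000 (.aff 413000 922913 373350) (.aff 1000000 0 0)))) (.aff 1000000 0 0)))), .pol, .pol, .sx 150000
 (.sy 75000 .pol (.sx 75000 .pol .pol)) .pol, .pol⟩

def hL150_60_3_1 : pcchk ⟨(nat_lit 1), (nat_lit 1000), Int.ofNat (nat_lit 215), 0, ⟨0, 1⟩, ⟨Int.ofNat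
 (nat_lit 60), 200⟩⟩ ⟨750000, 800000, 880226, 866140, 894542, 473607, 500736, 447950, 500000, 447213⟩ false
 (nat_lit 50) (Int.ofNat (nat_lit 2207)) (nat_lit 100) (Int.ofNat (nat_lit 1654)) qL150_60_3_1 = true := by
 decide +kernel

def qL150_60_3_2 : PCt := .one ⟨2008000, 251, 431720, 64256, 26786, 0, 0, 300000, 100000, 150000⟩ ⟨0, .pol,
 .pol, .pol, .pol, .sx 150000 (.sy 125000 (.sx 75000 (.sy 112500 (.sx 37500 (.aff 400000 1009951 356453)
 (.aff 500000 752773 332106)) (.sx 37500 (.sx 18750 (.aff 0 2905933 344124) (.aff 500000 1027403 243332))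
 (.aff 1000000 0 0))) (.aff 1000000 0 0)) (.sx 75000 (.sy 137500 (.sx 37500 (.sx 18750 (.aff 500000 1527526
 163664) (.aff 525000 1078728 209159)) (.aff 1000000 0 0)) (.sx 37500 (.aff 525000 1128928 199858) (.aff
 1000000 0 0))) (.aff 1000000 0 0))) (.aff 1000000 0 0), .pol, .pol, .sx 150000 (.sx 75000 .pol .pol) .pol,
 .pol⟩

def hL150_60_3_2 : pcchk ⟨(nat_lit 1), (nat_lit 1000), Int.ofNat (nat_lit 215), 0, ⟨0, 1⟩, ⟨Int.ofNat
 (nat_lit 60), 200⟩⟩ ⟨750000, 800000, 880226, 866140, 894542, 473607, 500736, 447950, 500000, 447213⟩ false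
 (nat_lit 100) (Int.ofNat (nat_lit 1654)) (nat_lit 150) (Int.ofNat (nat_lit 1814)) qL150_60_3_2 = true := by
 decide +kernel

def qL150_60_3_3 : PCt := .one ⟨2008000, 251, 431720, -12852, 38352, 0, 0, 300000, 150000, 200000⟩ ⟨0, .pol,
 .pol, .pol, .pol, .sx 150000 (.sx 75000 (.sy 175000 (.sy 162500 (.sx 37500 (.aff 675000 1266430 83404)
 (.aff 1000000 0 0)) (.sy 168750 (.sy 165625 (.sx 37500 (.aff 625000 1225928 114710) (.aff 1000000 0 0))
 (.sx 37500 (.sx 18750 (.aff 625000 1293011 108758) (.aff 1000000 0 0)) (.aff 1000000 0 0))) (.sy 171875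
 (.sx 37500 (.sx 18750 (.aff 638000 1291689 101452) (.aff 1000000 0 0)) (.aff 1000000 0 0)) (.sx 37500 (.sx
 18750 (.aff 650000 1300282 94211) (.aff 1000000 0 0)) (.aff 1000000 0 0))))) (.sx 37500 (.sx 18750 (.aff
 738000 1395783 49180) (.aff 1000000 0 0)) (.aff 1000000 0 0))) (.aff 1000000 0 0)) (.aff 1000000 0 0),
 .pol, .pol, .sx 150000 .pol .pol, .pol⟩

def hL150_60_3_3 : pcchk ⟨(nat_lit 1), (nat_lit 1000), Int.ofNat (nat_lit 215), 0, ⟨0, 1⟩, ⟨Int.ofNat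
 (nat_lit 60), 200⟩⟩ ⟨750000, 800000, 880226, 866140, 894542, 473607, 500736, 447950, 500000, 447213⟩ false
 (nat_lit 150) (Int.ofNat (nat_lit 1814)) (nat_lit 200) (Int.ofNat (nat_lit 1782)) qL150_60_3_3 = true := by
 decide +kernel

def qL150_60_3_4 : PCt := .one ⟨2008000, 251, 431720, -65863, 48955, 0, 0, 300000, 200000, 250000⟩ ⟨0, .pol,
 .pol, .pol, .pol, .sx 150000 (.sx 75000 (.sx 37500 (.sx 18750 (.aff 900000 1327126 7536) (.aff 1000000 0
 0)) (.aff 1000000 0 0)) (.aff 1000000 0 0)) (.aff 1000000 0 0), .pol, .pol, .sx 150000 .pol .pol, .pol⟩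

def hL150_60_3_4 : pcchk ⟨(nat_lit 1), (nat_lit 1000), Int.ofNat (nat_lit 215), 0, ⟨0, 1⟩, ⟨Int.ofNat
 (nat_lit 60), 200⟩⟩ ⟨750000, 800000, 880226, 866140, 894542, 473607, 500736, 447950, 500000, 447213⟩ false
 (nat_lit 200) (Int.ofNat (nat_lit 1782)) (nat_lit 250) (Int.ofNat (nat_lit 1618)) qL150_60_3_4 = true := by
 decide +kernel

def qL150_60_3_5 : PCt := .one ⟨2008000, 251, 431720, -123693, 63412, 0, 0, 300000, 250000, 300000⟩ ⟨0,
 .pol, .pol, .pol, .pol, .sx 150000 (.sx 75000 (.sx 37500 (.sx 18750 (.aff 1100000 1472229 6793) (.aff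
 1000000 0 0)) (.aff 1000000 0 0)) (.aff 1000000 0 0)) (.aff 1000000 0 0), .pol, .pol, .sx 150000 .pol (.sx
 225000 .pol .pol), .pol⟩

def hL150_60_3_5 : pcchk ⟨(nat_lit 1), (nat_lit 1000), Int.ofNat (nat_lit 215), 0, ⟨0, 1⟩, ⟨Int.ofNat
 (nat_lit 60), 200⟩⟩ ⟨750000, 800000, 880226, 866140, 894542, 473607, 500736, 447950, 500000, 447213⟩ false
 (nat_lit 250) (Int.ofNat (nat_lit 1618)) (nat_lit 300) (Int.ofNat (nat_lit 1310)) qL150_60_3_5 = true := by
 decide +kernel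

def qL150_60_3_6 : PCt := .one ⟨2008000, 251, 431720, -171082, 77629, 0, 0, 300000, 300000, 350000⟩ ⟨0,
 .pol, .pol, .pol, .pol, .sx 150000 (.sx 75000 (.sy 325000 (.sy 312500 (.sx 37500 (.sx 18750 (.aff 1250000
 2020726 30930) (.aff 1000000 0 0)) (.aff 1000000 0 0)) (.sy 318750 (.sx 37500 (.sx 18750 (.aff 1275000
 2041824 37038) (.aff 1000000 0 0)) (.aff 1000000 0 0)) (.sy 321875 (.sx 37500 (.sx 18750 (.aff 1275000
 2056931 36766) (.aff 1000000 0 0)) (.aff 1000000 0 0)) (.sx 37500 (.sx 18750 (.aff 1275000 2066940 36588)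
 (.aff 1000000 0 0)) (.aff 1000000 0 0))))) (.sx 37500 (.aff 1326000 2056287 51684) (.aff 1000000 0 0)))
 (.aff 1000000 0 0)) (.aff 1000000 0 0), .pol, .pol, .pol, .pol⟩

def hL150_60_3_6 : pcchk ⟨(nat_lit 1), (nat_lit 1000), Int.ofNat (nat_lit 215), 0, ⟨0, 1⟩, ⟨Int.ofNat
 (nat_lit 60), 200⟩⟩ ⟨750000, 800000, 880226, 866140, 894542, 473607, 500736, 447950, 500000, 447213⟩ false
 (nat_lit 300) (Int.ofNat (nat_lit 1310)) (nat_lit 350) (Int.ofNat (nat_lit 884)) qL150_60_3_6 = true := by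
 decide +kernel

def qL150_60_3_7 : PCt := .one ⟨2008000, 251, 431720, -224093, 96183, 0, 0, 300000, 350000, 400000⟩ ⟨0,
 .pol, .pol, .pol, .pol, .sx 150000 (.sy 375000 (.sx 75000 (.sx 37500 (.aff 1513000 2255645 116672) (.aff
 1000000 0 0)) (.aff 1000000 0 0)) (.sx 75000 (.sx 37500 (.aff 1500000 2273031 109986) (.aff 1000000 0 0))
 (.aff 1000000 0 0))) (.aff 1000000 0 0), .pol, .pol, .pol, .pol⟩

def hL150_60_3_7 : pcchk ⟨(nat_lit 1), (nat_lit 1000), Int.ofNat (nat_lit 215), 0, ⟨0, 1⟩, ⟨Int.ofNat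
 (nat_lit 60), 200⟩⟩ ⟨750000, 800000, 880226, 866140, 894542, 473607, 500736, 447950, 500000, 447213⟩ false
 (nat_lit 350) (Int.ofNat (nat_lit 884)) (nat_lit 400) (Int.ofNat (nat_lit 326)) qL150_60_3_7 = true := by
 decide +kernel

def qL150_60_3_8 : PCt := .one ⟨2008000, 251, 431720, -274293, 116263, 0, 0, 300000, 400000, 450000⟩ ⟨0,
 .pol, .pol, .pol, .pol, .sy 425000 (.sx 150000 (.sy 412500 (.sx 75000 (.sy 406250 (.sy 403125 (.sx 37500
 (.aff 1485000 2244491 104802) (.aff 1000000 0 0)) (.sy 404687 (.sy 403906 (.sx 37500 (.sx 18750 (.aff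
 1500000 2319528 107781) (.aff 1500000 2074649 120503)) (.aff 1000000 0 0)) (.sx 37500 (.sx 18750 (.aff
 1500000 2321771 107677) (.aff 1500000 2076656 120386)) (.aff 1000000 0 0))) (.sx 37500 (.sx 18750 (.aff
 1500000 2325134 107521) (.aff 1550000 2287630 132233)) (.aff 1000000 0 0)))) (.sy 409375 (.sx 37500 (.sx
 18750 (.aff 1500000 2331845 107212) (.aff 1550000 2294232 131853)) (.aff 1000000 0 0)) (.sx 37500 (.sx
 18750 (.aff 2000000 6620675 151043) (.aff 1550000 2303006 131351)) (.aff 1000000 0 0)))) (.aff 1000000 0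
 0)) (.sx 75000 (.sx 37500 (.aff 1775000 2589784 231921) (.aff 1000000 0 0)) (.aff 1000000 0 0))) (.aff
 1000000 0 0)) (.sx 150000 (.sy 437500 (.sx 75000 (.sx 37500 (.aff 1900000 3052049 265396) (.aff 1600000
 1819891 197815)) (.aff 1000000 0 0)) (.sx 75000 (.sx 37500 (.aff 2000000 3439962 290701) (.aff 1600000
 2040231 176451)) (.aff 1000000 0 0))) (.aff 1000000 0 0)), .pol, .pol, .pol, .pol⟩

def hL150_60_3_8 : pcchk ⟨(nat_lit 1), (nat_lit 1000), Int.ofNat (nat_lit 215), 0, ⟨0, 1⟩, ⟨Int.ofNat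
 (nat_lit 60), 200⟩⟩ ⟨750000, 800000, 880226, 866140, 894542, 473607, 500736, 447950, 500000, 447213⟩ false
 (nat_lit 400) (Int.ofNat (nat_lit 326)) (nat_lit 450) (Int.negSucc (nat_lit 356)) qL150_60_3_8 = true := by
 decide +kernel

def qL150_60_3_9 : PCt := .one ⟨2008000, 251, 431720, -333328, 142829, 0, 0, 300000, 450000, 500000⟩ ⟨0,
 .pol, .pol, .pol, .pol, .sx 150000 (.sx 75000 (.sy 475000 (.sy 462500 (.sx 37500 (.aff 2000000 4027682
 248282) (.aff 1925000 2634402 324790)) (.sx 37500 (.aff 2000000 4082483 244949) (.sx 56250 (.aff 2000000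
 2886752 346411) (.aff 1000000 0 0)))) (.sy 487500 (.sx 37500 (.aff 2000000 4136558 241747) (.sx 56250 (.aff
 2000000 3055051 327327) (.aff 2000000 2708013 369275))) (.sx 37500 (.aff 2000000 4189936 238668) (.aff
 2000000 2742957 364571)))) (.aff 1000000 0 0)) (.aff 1000000 0 0), .pol, .pol, .pol, .pol⟩

def hL150_60_3_9 : pcchk ⟨(nat_lit 1), (nat_lit 1000), Int.ofNat (nat_lit 215), 0, ⟨0, 1⟩, ⟨Int.ofNat
 (nat_lit 60), 200⟩⟩ ⟨750000, 800000, 880226, 866140, 894542, 473607, 500736, 447950, 500000, 447213⟩ false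
 (nat_lit 450) (Int.negSucc (nat_lit 356)) (nat_lit 500) (Int.negSucc (nat_lit 1186)) qL150_60_3_9 = true :=
 by decide +kernel

def qL150_60_3_10 : PCt := .one ⟨2008000, 251, 431720, -380717, 166523, 0, 0, 300000, 500000, 550000⟩ ⟨0,
 .pol, .pol, .pol, .pol, .sy 525000 (.sx 150000 (.sx 75000 (.aff 2025000 2870368 366025) (.aff 2113000
 2735718 452814)) (.aff 1000000 0 0)) (.sx 150000 (.sx 75000 (.aff 3000000 5354127 747088) (.sx 112500 (.aff
 2100000 2776356 435824) (.aff 1000000 0 0))) (.aff 1000000 0 0)), .pol, .pol, .pol, .pol⟩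

def hL150_60_3_10 : pcchk ⟨(nat_lit 1), (nat_lit 1000), Int.ofNat (nat_lit 215), 0, ⟨0, 1⟩, ⟨Int.ofNat
 (nat_lit 60), 200⟩⟩ ⟨750000, 800000, 880226, 866140, 894542, 473607, 500736, 447950, 500000, 447213⟩ false
 (nat_lit 500) (Int.negSucc (nat_lit 1186)) (nat_lit 550) (Int.negSucc (nat_lit 2134)) qL150_60_3_10 = true
 := by decide +kernel

def qL150_60_3_11 : PCt := .one ⟨2008000, 251, 431720, -442162, 200318, 0, 0, 300000, 550000, 600000⟩ ⟨0,
 .pol, .pol, .pol, .pol, .sy 575000 (.sy 562500 (.sx 150000 (.sx 75000 (.aff 3000000 6289321 635999) (.sy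
 556250 (.aff 2150000 2793341 473448) (.sx 112500 (.sx 93750 (.aff 3000000 5149614 776758) (.aff 2100000
 2622189 461447)) (.aff 1000000 0 0)))) (.aff 1000000 0 0)) (.sx 150000 (.sx 75000 (.aff 3000000 6359595
 628971) (.sy 568750 (.sx 112500 (.sx 93750 (.aff 3000000 5178303 772454) (.aff 2200000 2876506 500608))
 (.aff 1500000 1037970 240855)) (.sx 112500 (.aff 2400000 3156475 620946) (.aff 1500000 1043689 239535))))
 (.aff 1000000 0 0))) (.sx 150000 (.sx 75000 (.aff 3000000 6463574 618853) (.sx 112500 (.aff 2600000 3656350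
 700152) (.aff 2300000 2854237 592103))) (.aff 1000000 0 0)), .pol, .pol, .pol, .pol⟩

def hL150_60_3_11 : pcchk ⟨(nat_lit 1), (nat_lit 1000), Int.ofNat (nat_lit 215), 0, ⟨0, 1⟩, ⟨Int.ofNat
 (nat_lit 60), 200⟩⟩ ⟨750000, 800000, 880226, 866140, 894542, 473607, 500736, 447950, 500000, 447213⟩ false
 (nat_lit 550) (Int.negSucc (nat_lit 2134)) (nat_lit 600) (Int.negSucc (nat_lit 3235)) qL150_60_3_11 = true
 := by decide +kernel

def qL150_60_3_12 : PCt := .one ⟨2008000, 251, 431720, -334132, 135499, 0, 0, 300000, 600000, 650000⟩ ⟨0,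
 .pol, .pol, .pol, .pol, .sx 150000 (.sy 625000 (.sy 612500 (.sx 75000 (.aff 3000000 8041559 497416) (.sx
 112500 (.aff 3000000 5085929 786484) (.aff 2300000 2899426 582874))) (.aff 3000000 4062020 984732)) (.aff
 3000000 4123106 970143)) (.aff 1500000 912871 273862), .pol, .sy 625000 (.aff 2100000 2222799 544359) (.sy
 637500 (.sx 150000 .pol (.aff 1000000 0 0)) (.sy 643750 (.sx 150000 .pol (.aff 1500000 843686 296319)) (.sx
 150000 (.aff 3000000 4153312 963087) (.sx 225000 (.aff 2200000 2349469 612905) (.aff 1000000 0 0))))),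
 .pol, .pol⟩

def hL150_60_3_12 : pcchk ⟨(nat_lit 1), (nat_lit 1000), Int.ofNat (nat_lit 215), 0, ⟨0, 1⟩, ⟨Int.ofNat
 (nat_lit 60), 200⟩⟩ ⟨750000, 800000, 880226, 866140, 894542, 473607, 500736, 447950, 500000, 447213⟩ false
 (nat_lit 600) (Int.negSucc (nat_lit 3235)) (nat_lit 650) (Int.negSucc (nat_lit 4067)) qL150_60_3_12 = true
 := by decide +kernel

def qL150_60_3_13 : PCt := .one ⟨2008000, 251, 431720, 209635, -217949, 0, 0, 300000, 650000, 700000⟩ ⟨0,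
 .pol, .pol, .pol, .pol, .aff 3000000 4242641 942809, .pol, .sx 150000 (.aff 3000000 4242641 942809) (.sy
 675000 (.sx 225000 (.sx 187500 (.aff 2200000 2446607 588571) (.aff 2000000 1792240 557961)) (.aff 1000000 0
 0)) (.sy 687500 (.sx 225000 (.sx 187500 (.aff 2800000 3431035 944322) (.aff 2000000 1817425 550230)) (.aff
 1000000 0 0)) (.sx 225000 (.sx 187500 (.aff 3000000 4055176 986394) (.aff 2200000 2252618 639257)) (.aff
 2000000 1625687 615125)))), .pol, .pol⟩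

def hL150_60_3_13 : pcchk ⟨(nat_lit 1), (nat_lit 1000), Int.ofNat (nat_lit 215), 0, ⟨0, 1⟩, ⟨Int.ofNat
 (nat_lit 60), 200⟩⟩ ⟨750000, 800000, 880226, 866140, 894542, 473607, 500736, 447950, 500000, 447213⟩ false
 (nat_lit 650) (Int.negSucc (nat_lit 4067)) (nat_lit 700) (Int.negSucc (nat_lit 3545)) qL150_60_3_13 = true
 := by decide +kernel

def qL150_60_3_14 : PCt := .one ⟨2008000, 251, 431720, 210036, -218230, 0, 0, 300000, 700000, 750000⟩ ⟨0,
 .pol, .pol, .pol, .pol, .aff 1500000 1099243 227430, .pol, .sx 150000 (.aff 3000000 5077183 787839) (.sx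
 225000 (.sx 187500 (.aff 3000000 4145502 964902) (.aff 2500000 2692583 835629)) (.aff 2375000 2371371
 797271)), .pol, .pol⟩

def hL150_60_3_14 : pcchk ⟨(nat_lit 1), (nat_lit 1000), Int.ofNat (nat_lit 215), 0, ⟨0, 1⟩, ⟨Int.ofNat
 (nat_lit 60), 200⟩⟩ ⟨750000, 800000, 880226, 866140, 894542, 473607, 500736, 447950, 500000, 447213⟩ false
 (nat_lit 700) (Int.negSucc (nat_lit 3545)) (nat_lit 750) (Int.negSucc (nat_lit 3022)) qL150_60_3_14 = true
 := by decide +kernel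

def qL150_60_3_15 : PCt := .one ⟨2008000, 251, 431720, 220478, -226061, 0, 0, 300000, 750000, 800000⟩ ⟨0,
 .pol, .pol, .pol, .pol, .aff 1000000 0 0, .pol, .sx 150000 (.aff 3000000 5249339 762001) (.sx 225000 (.aff
 3000000 4066121 983739) (.sy 775000 (.sx 262500 (.aff 2800000 3067806 1056130) (.aff 2500000 2514001
 894988)) (.aff 2750000 2835325 1080124))), .pol, .pol⟩

def hL150_60_3_15 : pcchk ⟨(nat_lit 1), (nat_lit 1000), Int.ofNat (nat_lit 215), 0, ⟨0, 1⟩, ⟨Int.ofNat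
 (nat_lit 60), 200⟩⟩ ⟨750000, 800000, 880226, 866140, 894542, 473607, 500736, 447950, 500000, 447213⟩ false
 (nat_lit 750) (Int.negSucc (nat_lit 3022)) (nat_lit 800) (Int.negSucc (nat_lit 2473)) qL150_60_3_15 = true
 := by decide +kernel

def qL150_60_3_16 : PCt := .one ⟨2008000, 251, 431720, -11054442, 8793875, 0, 0, 300000, 800000, 850000⟩ ⟨0,
 .pol, .pol, .pol, .pol, .aff 1000000 0 0, .pol, .sx 150000 (.aff 20000000 51452244 7016215) (.sx 225000
 (.aff 35000000 71319002 16208864) (.sx 262500 (.inf 1839733 543558) (.inf 1712698 583875))), .sy 825000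
 (.sy 812500 .pol (.inf 1869047 535033)) (.inf 1890327 529010), .pol⟩

def hL150_60_3_16 : pcchk ⟨(nat_lit 1), (nat_lit 1000), Int.ofNat (nat_lit 215), 0, ⟨0, 1⟩, ⟨Int.ofNat
 (nat_lit 60), 200⟩⟩ ⟨750000, 800000, 880226, 866140, 894542, 473607, 500736, 447950, 500000, 447213⟩ false
 (nat_lit 800) (Int.negSucc (nat_lit 2473)) (nat_lit 850) (Int.negSucc (nat_lit 29999)) qL150_60_3_16 = true
 := by decide +kernel

def qL150_60_3_17 : PCt := .one ⟨2008000, 251, 431720, 0, -602400, 0, 0, 300000, 850000, 900000⟩ ⟨0, .pol,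
 .pol, .pol, .pol, .aff 1000000 0 0, .pol, .inf 1932184 517550, .inf 1932184 517550, .pol⟩

def hL150_60_3_17 : pcchk ⟨(nat_lit 1), (nat_lit 1000), Int.ofNat (nat_lit 215), 0, ⟨0, 1⟩, ⟨Int.ofNat
 (nat_lit 60), 200⟩⟩ ⟨750000, 800000, 880226, 866140, 894542, 473607, 500736, 447950, 500000, 447213⟩ false
 (nat_lit 850) (Int.negSucc (nat_lit 29999)) (nat_lit 900) (Int.negSucc (nat_lit 29999)) qL150_60_3_17 =
 true := by decide +kernel

def qL150_60_3_18 : PCt := .one ⟨2008000, 251, 431720, 0, -602400, 0, 0, 300000, 900000, 950000⟩ ⟨0, .pol,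
 .pol, .pol, .pol, .aff 1000000 0 0, .pol, .aff 36500000 62335952 20217066, .inf 1986622 503368, .pol⟩

def hL150_60_3_18 : pcchk ⟨(nat_lit 1), (nat_lit 1000), Int.ofNat (nat_lit 215), 0, ⟨0, 1⟩, ⟨Int.ofNat
 (nat_lit 60), 200⟩⟩ ⟨750000, 800000, 880226, 866140, 894542, 473607, 500736, 447950, 500000, 447213⟩ false
 (nat_lit 900) (Int.negSucc (nat_lit 29999)) (nat_lit 950) (Int.negSucc (nat_lit 29999)) qL150_60_3_18 =
 true := by decide +kernel

def qL150_60_3_19 : PCt := .one ⟨2008000, 251, 431720, 0, -602400, 0, 0, 300000, 950000, 1000000⟩ ⟨0, .pol,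
 .pol, .pol, .pol, .aff 1000000 0 0, .pol, .aff 35000000 70776644 16333072, .inf 2549510 392233, .pol⟩

def hL150_60_3_19 : pcchk ⟨(nat_lit 1), (nat_lit 1000), Int.ofNat (nat_lit 215), 0, ⟨0, 1⟩, ⟨Int.ofNat
 (nat_lit 60), 200⟩⟩ ⟨750000, 800000, 880226, 866140, 894542, 473607, 500736, 447950, 500000, 447213⟩ false
 (nat_lit 950) (Int.negSucc (nat_lit 29999)) (nat_lit 1000) (Int.negSucc (nat_lit 29999)) qL150_60_3_19 =
 true := by decide +kernel

def qL150_60_4_0 : PCt := .one ⟨2008000, 251, 502000, 398387, 0, 0, 0, 300000, 0, 50000⟩ ⟨50000, .aff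
 1414214 707107, .aff 707107 1414214, .pol, .pol, .sx 175000 (.sx 112500 (.aff 44000 604994 1510653) (.aff
 250000 312772 1798435)) (.aff 1000000 0 0), .aff 0 1414214 707107, .pol, .pol, .pol⟩

def hL150_60_4_0 : pcchk ⟨(nat_lit 1), (nat_lit 1000), Int.ofNat (nat_lit 250), 0, ⟨0, 1⟩, ⟨Int.ofNat
 (nat_lit 60), 200⟩⟩ ⟨750000, 800000, 880226, 866140, 894542, 473607, 500736, 447950, 500000, 447213⟩ true 0
 0 (nat_lit 50) (Int.ofNat (nat_lit 992)) qL150_60_4_0 = true := by decide +kernel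

def qL150_60_4_1 : PCt := .one ⟨2008000, 251, 502000, 216462, 9096, 0, 0, 300000, 50000, 100000⟩ ⟨0, .pol,
 .pol, .pol, .pol, .sx 150000 (.sx 75000 (.sy 75000 (.sy 62500 (.aff 75000 925000 925000) (.sy 68750 (.sx
 37500 (.aff 0 1870829 534523) (.aff 125000 875000 875000)) (.sx 37500 (.aff 0 1598611 625544) (.sx 56250
 (.aff 125000 1083494 706626) (.aff 200000 868834 736620))))) (.sx 37500 (.aff 125000 1543355 496079) (.sx
 56250 (.aff 200000 988995 647122) (.aff 250000 866026 649519)))) (.aff 375000 510311 765465)) (.aff 1000000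
 0 0), .pol, .pol, .sy 75000 (.sy 62500 (.sx 150000 (.sy 56250 (.sy 53125 (.sy 51562 (.sx 75000 (.sx 37500
 .pol .pol) .pol) (.sx 75000 (.sx 37500 .pol .pol) .pol)) (.sy 54687 (.sx 75000 (.sx 37500 .pol .pol) .pol)
 (.sx 75000 (.sx 37500 .pol .pol) .pol))) (.sy 59375 (.sy 57812 (.sx 75000 (.sx 37500 .pol .pol) .pol) (.sx
 75000 (.sx 37500 .pol .pol) .pol)) (.sy 60937 (.sx 75000 (.sx 37500 .pol .pol) .pol) (.sx 75000 (.sx 37500
 .pol .pol) .pol)))) .pol) (.sx 150000 (.sy 68750 (.sy 65625 (.sy 64062 (.sx 75000 (.sx 37500 .pol .pol)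
 .pol) (.sx 75000 (.sx 37500 .pol .pol) .pol)) (.sy 67187 (.sx 75000 (.sx 37500 .pol .pol) .pol) (.sx 75000
 (.sx 37500 .pol .pol) .pol))) (.sy 71875 (.sy 70312 (.sx 75000 (.sx 37500 .pol .pol) .pol) (.sx 75000 (.sx
 37500 .pol .pol) .pol)) (.sy 73437 (.sx 75000 (.sx 37500 .pol .pol) .pol) (.sx 75000 (.sx 37500 .pol .pol)
 .pol)))) .pol)) (.sy 87500 (.sx 150000 (.sx 75000 .pol .pol) .pol) (.sx 150000 (.sx 75000 .pol .pol)
 .pol)), .pol⟩

def hL150_60_4_1 : pcchk ⟨(nat_lit 1), (nat_lit 1000), Int.ofNat (nat_lit 250), 0, ⟨0, 1⟩, ⟨Int.ofNat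
 (nat_lit 60), 200⟩⟩ ⟨750000, 800000, 880226, 866140, 894542, 473607, 500736, 447950, 500000, 447213⟩ false
 (nat_lit 50) (Int.ofNat (nat_lit 992)) (nat_lit 100) (Int.ofNat (nat_lit 1531)) qL150_60_4_1 = true := by
 decide +kernel

def qL150_60_4_2 : PCt := .one ⟨2008000, 251, 502000, 92368, 21505, 0, 0, 300000, 100000, 150000⟩ ⟨0, .pol,
 .pol, .pol, .pol, .sx 150000 (.sy 125000 (.sy 112500 (.sx 75000 (.sx 37500 (.aff 250000 1262439 445567)
 (.aff 500000 687185 363804)) (.aff 1000000 0 0)) (.sx 75000 (.sx 37500 (.aff 381000 1271925 301245) (.aff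
 1000000 0 0)) (.aff 1000000 0 0))) (.sx 75000 (.sx 37500 (.sy 137500 (.aff 425000 1305828 253192) (.aff
 500000 1384438 180579)) (.aff 1000000 0 0)) (.aff 1000000 0 0))) (.aff 1000000 0 0), .pol, .pol, .sy 125000
 (.sy 112500 (.sx 150000 (.sx 75000 .pol .pol) .pol) (.sx 150000 (.sx 75000 .pol .pol) .pol)) (.sy 137500
 (.sx 150000 (.sx 75000 .pol .pol) .pol) (.sx 150000 (.sx 75000 .pol .pol) .pol)), .pol⟩

def hL150_60_4_2 : pcchk ⟨(nat_lit 1), (nat_lit 1000), Int.ofNat (nat_lit 250), 0, ⟨0, 1⟩, ⟨Int.ofNat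
 (nat_lit 60), 200⟩⟩ ⟨750000, 800000, 880226, 866140, 894542, 473607, 500736, 447950, 500000, 447213⟩ false
 (nat_lit 100) (Int.ofNat (nat_lit 1531)) (nat_lit 150) (Int.ofNat (nat_lit 1761)) qL150_60_4_2 = true := by
 decide +kernel

def qL150_60_4_3 : PCt := .one ⟨2008000, 251, 502000, 6425, 34397, 0, 0, 300000, 150000, 200000⟩ ⟨0, .pol,
 .pol, .pol, .pol, .sx 150000 (.sy 175000 (.sy 162500 (.sx 75000 (.sx 37500 (.aff 625000 1530932 91856)
 (.aff 1000000 0 0)) (.aff 1000000 0 0)) (.sy 168750 (.sx 75000 (.sx 37500 (.aff 650000 1546537 79210) (.aff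
 1000000 0 0)) (.aff 1000000 0 0)) (.sx 75000 (.sx 37500 (.aff 663000 1555331 73020) (.aff 1000000 0 0))
 (.aff 1000000 0 0)))) (.sy 187500 (.sx 75000 (.sy 181250 (.sx 37500 (.aff 638000 1538963 85151) (.aff
 1000000 0 0)) (.sx 37500 (.aff 650000 1552150 78923) (.aff 1000000 0 0))) (.aff 1000000 0 0)) (.sx 75000
 (.sx 37500 (.aff 675000 1553222 68004) (.aff 1000000 0 0)) (.aff 1000000 0 0)))) (.aff 1000000 0 0), .pol,
 .pol, .sx 150000 .pol .pol, .pol⟩

def hL150_60_4_3 : pcchk ⟨(nat_lit 1), (nat_lit 1000), Int.ofNat (nat_lit 250), 0, ⟨0, 1⟩, ⟨Int.ofNat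
 (nat_lit 60), 200⟩⟩ ⟨750000, 800000, 880226, 866140, 894542, 473607, 500736, 447950, 500000, 447213⟩ false
 (nat_lit 150) (Int.ofNat (nat_lit 1761)) (nat_lit 200) (Int.ofNat (nat_lit 1777)) qL150_60_4_3 = true := by
 decide +kernel

def qL150_60_4_4 : PCt := .one ⟨2008000, 251, 502000, -65060, 48694, 0, 0, 300000, 200000, 250000⟩ ⟨0, .pol,
 .pol, .pol, .pol, .sx 150000 (.sx 75000 (.sx 37500 (.aff 888000 1607646 7803) (.aff 1000000 0 0)) (.aff
 1000000 0 0)) (.aff 1000000 0 0), .pol, .pol, .sx 150000 .pol .pol, .pol⟩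

def hL150_60_4_4 : pcchk ⟨(nat_lit 1), (nat_lit 1000), Int.ofNat (nat_lit 250), 0, ⟨0, 1⟩, ⟨Int.ofNat
 (nat_lit 60), 200⟩⟩ ⟨750000, 800000, 880226, 866140, 894542, 473607, 500736, 447950, 500000, 447213⟩ false
 (nat_lit 200) (Int.ofNat (nat_lit 1777)) (nat_lit 250) (Int.ofNat (nat_lit 1615)) qL150_60_4_4 = true := by
 decide +kernel

def qL150_60_4_5 : PCt := .one ⟨2008000, 251, 502000, -123292, 63252, 0, 0, 300000, 250000, 300000⟩ ⟨0,
 .pol, .pol, .pol, .pol, .sx 150000 (.sx 75000 (.sx 37500 (.sx 18750 (.aff 1100000 1798184 5562) (.aff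
 1000000 0 0)) (.aff 1000000 0 0)) (.aff 1000000 0 0)) (.aff 1000000 0 0), .pol, .pol, .sx 150000 .pol .pol,
 .pol⟩

def hL150_60_4_5 : pcchk ⟨(nat_lit 1), (nat_lit 1000), Int.ofNat (nat_lit 250), 0, ⟨0, 1⟩, ⟨Int.ofNat
 (nat_lit 60), 200⟩⟩ ⟨750000, 800000, 880226, 866140, 894542, 473607, 500736, 447950, 500000, 447213⟩ false
 (nat_lit 250) (Int.ofNat (nat_lit 1615)) (nat_lit 300) (Int.ofNat (nat_lit 1308)) qL150_60_4_5 = true := by
 decide +kernel

def qL150_60_4_6 : PCt := .one ⟨2008000, 251, 502000, -185941, 82046, 0, 0, 300000, 300000, 350000⟩ ⟨0,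
 .pol, .pol, .pol, .pol, .sx 150000 (.sx 75000 (.aff 1350000 2285292 53604) (.aff 1000000 0 0)) (.aff
 1000000 0 0), .pol, .pol, .pol, .pol⟩

def hL150_60_4_6 : pcchk ⟨(nat_lit 1), (nat_lit 1000), Int.ofNat (nat_lit 250), 0, ⟨0, 1⟩, ⟨Int.ofNat
 (nat_lit 60), 200⟩⟩ ⟨750000, 800000, 880226, 866140, 894542, 473607, 500736, 447950, 500000, 447213⟩ false
 (nat_lit 300) (Int.ofNat (nat_lit 1308)) (nat_lit 350) (Int.ofNat (nat_lit 845)) qL150_60_4_6 = true := by
 decide +kernel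

def qL150_60_4_7 : PCt := .one ⟨2008000, 251, 502000, -244173, 102428, 0, 0, 300000, 350000, 400000⟩ ⟨0,
 .pol, .pol, .pol, .pol, .sx 150000 (.sy 375000 (.sx 75000 (.sx 37500 (.aff 1594000 2611800 135094) (.aff
 1000000 0 0)) (.aff 1000000 0 0)) (.sx 75000 (.sx 37500 (.aff 1575000 2613985 126484) (.aff 1000000 0 0))
 (.aff 1000000 0 0))) (.aff 1000000 0 0), .pol, .pol, .pol, .pol⟩

def hL150_60_4_7 : pcchk ⟨(nat_lit 1), (nat_lit 1000), Int.ofNat (nat_lit 250), 0, ⟨0, 1⟩, ⟨Int.ofNat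
 (nat_lit 60), 200⟩⟩ ⟨750000, 800000, 880226, 866140, 894542, 473607, 500736, 447950, 500000, 447213⟩ false
 (nat_lit 350) (Int.ofNat (nat_lit 845)) (nat_lit 400) (Int.ofNat (nat_lit 237)) qL150_60_4_7 = true := by
 decide +kernel

def qL150_60_4_8 : PCt := .one ⟨2008000, 251, 502000, -299594, 124596, 0, 0, 300000, 400000, 450000⟩ ⟨0,
 .pol, .pol, .pol, .pol, .sx 150000 (.sy 425000 (.sy 412500 (.sy 406250 (.sx 75000 (.sx 37500 (.aff 1850000
 2929800 246604) (.aff 1000000 0 0)) (.aff 1000000 0 0)) (.sx 75000 (.sy 409375 (.sx 37500 (.sx 18750 (.aff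
 2000000 6595453 151620) (.aff 1600000 2502799 143839)) (.aff 1000000 0 0)) (.sx 37500 (.sx 18750 (.aff
 2000000 6620675 151043) (.aff 1863000 2929142 254262)) (.aff 1000000 0 0))) (.aff 1000000 0 0))) (.sy
 418750 (.sx 75000 (.sx 37500 (.aff 1882000 2973258 261641) (.aff 1000000 0 0)) (.aff 1000000 0 0)) (.sx
 75000 (.sx 37500 (.aff 1900000 3018692 268329) (.aff 1000000 0 0)) (.aff 1000000 0 0)))) (.sy 437500 (.sy
 431250 (.sx 75000 (.sx 37500 (.aff 2000000 3378856 295959) (.aff 1000000 0 0)) (.aff 1000000 0 0)) (.sx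
 75000 (.sx 37500 (.aff 2000000 3403430 293822) (.aff 1600000 2230858 161373)) (.aff 1000000 0 0))) (.sy
 443750 (.sx 75000 (.sx 37500 (.aff 2000000 3427828 291730) (.aff 1700000 2621325 186929)) (.aff 1000000 0
 0)) (.sx 75000 (.sx 37500 (.aff 2000000 3986087 250873) (.sx 56250 (.aff 2000000 3087610 323876) (.aff
 1000000 0 0))) (.aff 1000000 0 0))))) (.aff 1000000 0 0), .pol, .pol, .pol, .pol⟩

def hL150_60_4_8 : pcchk ⟨(nat_lit 1), (nat_lit 1000), Int.ofNat (nat_lit 250), 0, ⟨0, 1⟩, ⟨Int.ofNat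
 (nat_lit 60), 200⟩⟩ ⟨750000, 800000, 880226, 866140, 894542, 473607, 500736, 447950, 500000, 447213⟩ false
 (nat_lit 400) (Int.ofNat (nat_lit 237)) (nat_lit 450) (Int.negSucc (nat_lit 508)) qL150_60_4_8 = true := by
 decide +kernel

def qL150_60_4_9 : PCt := .one ⟨2008000, 251, 502000, -365858, 154415, 0, 0, 300000, 450000, 500000⟩ ⟨0,
 .pol, .pol, .pol, .pol, .sx 150000 (.sx 75000 (.sx 37500 (.aff 2000000 4109610 243333) (.aff 2038000
 3016359 357201)) (.aff 1000000 0 0)) (.aff 1000000 0 0), .pol, .pol, .pol, .pol⟩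

def hL150_60_4_9 : pcchk ⟨(nat_lit 1), (nat_lit 1000), Int.ofNat (nat_lit 250), 0, ⟨0, 1⟩, ⟨Int.ofNat
 (nat_lit 60), 200⟩⟩ ⟨750000, 800000, 880226, 866140, 894542, 473607, 500736, 447950, 500000, 447213⟩ false
 (nat_lit 450) (Int.negSucc (nat_lit 508)) (nat_lit 500) (Int.negSucc (nat_lit 1419)) qL150_60_4_9 = true :=
 by decide +kernel

def qL150_60_4_10 : PCt := .one ⟨2008000, 251, 502000, -418468, 180720, 0, 0, 300000, 500000, 550000⟩ ⟨0,
 .pol, .pol, .pol, .pol, .sy 525000 (.sx 150000 (.sx 75000 (.aff 2200000 3277461 439365) (.aff 2262000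
 3101955 513433)) (.aff 1000000 0 0)) (.sx 150000 (.sx 75000 (.aff 3000000 5354127 747088) (.sx 112500 (.aff
 2200000 3028752 475444) (.aff 1000000 0 0))) (.aff 1000000 0 0)), .pol, .pol, .pol, .pol⟩

def hL150_60_4_10 : pcchk ⟨(nat_lit 1), (nat_lit 1000), Int.ofNat (nat_lit 250), 0, ⟨0, 1⟩, ⟨Int.ofNat
 (nat_lit 60), 200⟩⟩ ⟨750000, 800000, 880226, 866140, 894542, 473607, 500736, 447950, 500000, 447213⟩ false
 (nat_lit 500) (Int.negSucc (nat_lit 1419)) (nat_lit 550) (Int.negSucc (nat_lit 2461)) qL150_60_4_10 = true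
 := by decide +kernel

def qL150_60_4_11 : PCt := .one ⟨2008000, 251, 502000, -487141, 218490, 0, 0, 300000, 550000, 600000⟩ ⟨0,
 .pol, .pol, .pol, .pol, .sy 575000 (.sy 562500 (.sx 150000 (.sx 75000 (.aff 3000000 6289321 635999) (.sy
 556250 (.aff 2313000 3189266 540554) (.sx 112500 (.sx 93750 (.aff 3000000 5149614 776758) (.aff 2300000
 3098951 545346)) (.aff 1000000 0 0)))) (.aff 1000000 0 0)) (.sx 150000 (.sx 75000 (.aff 3000000 6359595
 628971) (.sx 112500 (.aff 2600000 3597531 711600) (.aff 1500000 1040833 240193))) (.aff 1000000 0 0))) (.sx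
 150000 (.sx 75000 (.aff 3000000 6463574 618853) (.sx 112500 (.aff 2800000 4113393 787671) (.aff 2500000
 3293350 683195))) (.aff 1000000 0 0)), .pol, .pol, .pol, .pol⟩

def hL150_60_4_11 : pcchk ⟨(nat_lit 1), (nat_lit 1000), Int.ofNat (nat_lit 250), 0, ⟨0, 1⟩, ⟨Int.ofNat
 (nat_lit 60), 200⟩⟩ ⟨750000, 800000, 880226, 866140, 894542, 473607, 500736, 447950, 500000, 447213⟩ false
 (nat_lit 550) (Int.negSucc (nat_lit 2461)) (nat_lit 600) (Int.negSucc (nat_lit 3674)) qL150_60_4_11 = true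
 := by decide +kernel

def qL150_60_4_12 : PCt := .one ⟨2008000, 251, 502000, -384733, 157045, 0, 0, 300000, 600000, 650000⟩ ⟨0,
 .pol, .pol, .pol, .pol, .sx 150000 (.sy 625000 (.sy 612500 (.sx 75000 (.aff 3000000 6565906 609208) (.sx
 112500 (.aff 3000000 5085929 786484) (.sx 131250 (.aff 3000000 4298394 930581) (.aff 1500000 1038161
 240811)))) (.aff 3000000 4062020 984732)) (.aff 3000000 4123106 970143)) (.aff 1500000 912871 273862),
 .pol, .sy 625000 .pol (.sy 637500 (.sx 150000 .pol (.aff 1000000 0 0)) (.sy 643750 (.sx 150000 (.aff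
 3000000 4772608 838117) (.aff 1500000 843686 296319)) (.sy 646875 (.sx 150000 (.aff 3000000 4790036 835067)
 (.aff 2000000 1855173 539034)) (.sx 150000 (.aff 3000000 4158325 961926) (.sx 225000 (.aff 2600000 3136406
 816221) (.aff 1000000 0 0)))))), .pol, .pol⟩

def hL150_60_4_12 : pcchk ⟨(nat_lit 1), (nat_lit 1000), Int.ofNat (nat_lit 250), 0, ⟨0, 1⟩, ⟨Int.ofNat
 (nat_lit 60), 200⟩⟩ ⟨750000, 800000, 880226, 866140, 894542, 473607, 500736, 447950, 500000, 447213⟩ false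
 (nat_lit 600) (Int.negSucc (nat_lit 3674)) (nat_lit 650) (Int.negSucc (nat_lit 4632)) qL150_60_4_12 = true
 := by decide +kernel

def qL150_60_4_13 : PCt := .one ⟨2008000, 251, 502000, 152608, -192226, 0, 0, 300000, 650000, 700000⟩ ⟨0,
 .pol, .pol, .pol, .pol, .aff 3000000 4242641 942809, .pol, .sx 150000 (.aff 3000000 4242641 942809) (.sx
 225000 (.sx 187500 (.aff 2900000 3604997 1001388) (.aff 2900000 3446778 1047355)) (.aff 1500000 801784
 311805)), .pol, .pol⟩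

def hL150_60_4_13 : pcchk ⟨(nat_lit 1), (nat_lit 1000), Int.ofNat (nat_lit 250), 0, ⟨0, 1⟩, ⟨Int.ofNat
 (nat_lit 60), 200⟩⟩ ⟨750000, 800000, 880226, 866140, 894542, 473607, 500736, 447950, 500000, 447213⟩ false
 (nat_lit 650) (Int.negSucc (nat_lit 4632)) (nat_lit 700) (Int.negSucc (nat_lit 4252)) qL150_60_4_13 = true
 := by decide +kernel

def qL150_60_4_14 : PCt := .one ⟨2008000, 251, 502000, 142969, -185479, 0, 0, 300000, 700000, 750000⟩ ⟨0,
 .pol, .pol, .pol, .pol, .aff 1500000 1099243 227430, .pol, .sx 150000 (.aff 3000000 5077183 787839) (.sx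
 225000 (.aff 2900000 3562261 1013402) (.aff 2925000 3319919 1116180)), .pol, .pol⟩

def hL150_60_4_14 : pcchk ⟨(nat_lit 1), (nat_lit 1000), Int.ofNat (nat_lit 250), 0, ⟨0, 1⟩, ⟨Int.ofNat
 (nat_lit 60), 200⟩⟩ ⟨750000, 800000, 880226, 866140, 894542, 473607, 500736, 447950, 500000, 447213⟩ false
 (nat_lit 700) (Int.negSucc (nat_lit 4252)) (nat_lit 750) (Int.negSucc (nat_lit 3896)) qL150_60_4_14 = true
 := by decide +kernel

def qL150_60_4_15 : PCt := .one ⟨2008000, 251, 502000, 138953, -182467, 0, 0, 300000, 750000, 800000⟩ ⟨0,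
 .pol, .pol, .pol, .pol, .aff 1000000 0 0, .pol, .sx 150000 (.aff 3000000 5249339 762001) (.sy 775000 (.sx
 225000 (.aff 3000000 3845502 1040177) (.sx 262500 (.aff 3000000 3537347 1130791) (.aff 3000000 3293091
 1214665))) (.sx 225000 (.aff 3000000 3908034 1023533) (.sx 262500 (.aff 3000000 3594869 1112698) (.aff
 3000000 3346641 1195229)))), .pol, .pol⟩

def hL150_60_4_15 : pcchk ⟨(nat_lit 1), (nat_lit 1000), Int.ofNat (nat_lit 250), 0, ⟨0, 1⟩, ⟨Int.ofNat
 (nat_lit 60), 200⟩⟩ ⟨750000, 800000, 880226, 866140, 894542, 473607, 500736, 447950, 500000, 447213⟩ false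
 (nat_lit 750) (Int.negSucc (nat_lit 3896)) (nat_lit 800) (Int.negSucc (nat_lit 3550)) qL150_60_4_15 = true
 := by decide +kernel

def qL150_60_4_16 : PCt := .one ⟨2008000, 251, 502000, -10621919, 8426230, 0, 0, 300000, 800000, 850000⟩ ⟨0,
 .pol, .pol, .pol, .pol, .aff 1000000 0 0, .pol, .sx 150000 (.aff 20000000 51452244 7016215) (.sx 225000
 (.aff 35000000 71319002 16208864) (.sx 262500 (.inf 1839733 543558) (.inf 1712698 583875))), .sy 825000
 (.sy 812500 .pol (.inf 1869047 535033)) (.inf 1890327 529010), .pol⟩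

def hL150_60_4_16 : pcchk ⟨(nat_lit 1), (nat_lit 1000), Int.ofNat (nat_lit 250), 0, ⟨0, 1⟩, ⟨Int.ofNat
 (nat_lit 60), 200⟩⟩ ⟨750000, 800000, 880226, 866140, 894542, 473607, 500736, 447950, 500000, 447213⟩ false
 (nat_lit 800) (Int.negSucc (nat_lit 3550)) (nat_lit 850) (Int.negSucc (nat_lit 29999)) qL150_60_4_16 = true
 := by decide +kernel

def qL150_60_4_17 : PCt := .one ⟨2008000, 251, 502000, 0, -602400, 0, 0, 300000, 850000, 900000⟩ ⟨0, .pol,
 .pol, .pol, .pol, .aff 1000000 0 0, .pol, .inf 1932184 517550, .inf 1932184 517550, .pol⟩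

def hL150_60_4_17 : pcchk ⟨(nat_lit 1), (nat_lit 1000), Int.ofNat (nat_lit 250), 0, ⟨0, 1⟩, ⟨Int.ofNat
 (nat_lit 60), 200⟩⟩ ⟨750000, 800000, 880226, 866140, 894542, 473607, 500736, 447950, 500000, 447213⟩ false
 (nat_lit 850) (Int.negSucc (nat_lit 29999)) (nat_lit 900) (Int.negSucc (nat_lit 29999)) qL150_60_4_17 =
 true := by decide +kernel

def qL150_60_4_18 : PCt := .one ⟨2008000, 251, 502000, 0, -602400, 0, 0, 300000, 900000, 950000⟩ ⟨0, .pol,
 .pol, .pol, .pol, .aff 1000000 0 0, .pol, .aff 35400000 60404415 19590621, .inf 1986622 503368, .pol⟩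

def hL150_60_4_18 : pcchk ⟨(nat_lit 1), (nat_lit 1000), Int.ofNat (nat_lit 250), 0, ⟨0, 1⟩, ⟨Int.ofNat
 (nat_lit 60), 200⟩⟩ ⟨750000, 800000, 880226, 866140, 894542, 473607, 500736, 447950, 500000, 447213⟩ false
 (nat_lit 900) (Int.negSucc (nat_lit 29999)) (nat_lit 950) (Int.negSucc (nat_lit 29999)) qL150_60_4_18 =
 true := by decide +kernel

def qL150_60_4_19 : PCt := .one ⟨2008000, 251, 502000, 0, -602400, 0, 0, 300000, 950000, 1000000⟩ ⟨0, .pol,
 .pol, .pol, .pol, .aff 1000000 0 0, .pol, .aff 35000000 70776644 16333072, .inf 2549510 392233, .pol⟩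

def hL150_60_4_19 : pcchk ⟨(nat_lit 1), (nat_lit 1000), Int.ofNat (nat_lit 250), 0, ⟨0, 1⟩, ⟨Int.ofNat
 (nat_lit 60), 200⟩⟩ ⟨750000, 800000, 880226, 866140, 894542, 473607, 500736, 447950, 500000, 447213⟩ false
 (nat_lit 950) (Int.negSucc (nat_lit 29999)) (nat_lit 1000) (Int.negSucc (nat_lit 29999)) qL150_60_4_19 =
 true := by decide +kernel

def qL150_60_5_0 : PCt := .one ⟨2008000, 251, 803200, 195579, 0, 0, 0, 300000, 0, 50000⟩ ⟨12500, .sp 250000
 (.aff 2828428 353554) (.aff 1511858 661438), .pol, .pol, .pol, .aff 0 1807243 553330, .aff 0 2350714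
 425403, .pol, .pol, .pol⟩

def hL150_60_5_0 : pcchk ⟨(nat_lit 1), (nat_lit 1000), Int.ofNat (nat_lit 400), 0, ⟨0, 1⟩, ⟨Int.ofNat
 (nat_lit 60), 200⟩⟩ ⟨750000, 800000, 880226, 866140, 894542, 473607, 500736, 447950, 500000, 447213⟩ true 0
 0 (nat_lit 50) (Int.ofNat (nat_lit 487)) qL150_60_5_0 = true := by decide +kernel

def qL150_60_5_1 : PCt := .one ⟨2008000, 251, 803200, 242164, -2330, 0, 0, 300000, 50000, 100000⟩ ⟨0, .pol,
 .pol, .pol, .pol, .sy 75000 (.sx 150000 (.sx 75000 (.sy 62500 (.sy 56250 (.sx 37500 (.sx 18750 (.aff 0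
 2292862 436137) (.aff 0 1374369 727607)) (.aff 0 971826 1028991)) (.sx 37500 (.aff 0 2228525 448728) (.aff
 0 1027403 973328))) (.aff 0 2169815 460869)) .pol) .pol) (.sy 87500 (.sx 150000 (.sx 75000 (.aff 0 2188396
 456956) .pol) .pol) (.sx 150000 (.sx 75000 (.aff 25000 2180167 436034) .pol) .pol)), .pol, .pol, .sx 150000
 (.sx 75000 (.sx 37500 .pol .pol) .pol) .pol, .pol⟩

def hL150_60_5_1 : pcchk ⟨(nat_lit 1), (nat_lit 1000), Int.ofNat (nat_lit 400), 0, ⟨0, 1⟩, ⟨Int.ofNat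
 (nat_lit 60), 200⟩⟩ ⟨750000, 800000, 880226, 866140, 894542, 473607, 500736, 447950, 500000, 447213⟩ false
 (nat_lit 50) (Int.ofNat (nat_lit 487)) (nat_lit 100) (Int.ofNat (nat_lit 1090)) qL150_60_5_1 = true := by
 decide +kernel

def qL150_60_5_2 : PCt := .one ⟨2008000, 251, 803200, 187145, 3172, 0, 0, 300000, 100000, 150000⟩ ⟨0, .pol,
 .pol, .pol, .pol, .sx 150000 (.sx 75000 (.sy 125000 (.sy 112500 (.sy 106250 (.sx 37500 (.aff 38000 2256090
 410199) (.aff 0 1354007 738549)) (.sy 109375 (.sy 107812 (.sx 37500 (.aff 50000 2269749 397622) (.aff 0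
 1379411 724948)) (.sx 37500 (.aff 53000 2279037 393504) (.aff 0 1389443 719713))) (.sy 110937 (.sy 110156
 (.sx 37500 (.sx 18750 (.aff 125000 2444611 313189) (.aff 125000 1893588 404326)) (.aff 0 1396921 715861))
 (.sx 37500 (.sx 18750 (.aff 125000 2453293 312081) (.aff 125000 1900312 402895)) (.aff 0 1401882 713327)))
 (.sx 37500 (.sx 18750 (.aff 125000 2466263 310440) (.aff 125000 1910359 400776)) (.aff 0 1543804
 647751))))) (.sy 118750 (.sy 115625 (.sy 114062 (.sy 113281 (.sx 37500 (.sx 18750 (.aff 125000 2479166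
 308824) (.aff 125000 1920354 398690)) (.aff 0 1551880 644380)) (.sx 37500 (.sx 18750 (.aff 125000 2487727
 307761) (.aff 125000 1926985 397318)) (.aff 0 1557239 642163))) (.sx 37500 (.sx 18750 (.aff 150000 2429075
 297439) (.aff 125000 1936893 395286)) (.aff 1000000 0 0))) (.sy 117187 (.sy 116406 (.sx 37500 (.sx 18750
 (.aff 150000 2441438 295933) (.aff 125000 1946752 393284)) (.aff 1000000 0 0)) (.sx 37500 (.sx 18750 (.aff
 150000 2449642 294942) (.aff 125000 1953293 391967)) (.aff 1000000 0 0))) (.sx 37500 (.sx 18750 (.aff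
 175000 2389493 284841) (.aff 250000 1682631 334298)) (.aff 1000000 0 0)))) (.sy 121875 (.sx 37500 (.sx
 18750 (.aff 175000 2413116 282053) (.aff 250000 1699265 331026)) (.aff 1000000 0 0)) (.sx 37500 (.sx 18750
 (.aff 175000 2444254 278460) (.aff 250000 1571226 358001)) (.aff 1000000 0 0))))) (.sx 37500 (.aff 200000
 2394254 267307) (.aff 1000000 0 0))) (.aff 1000000 0 0)) .pol, .pol, .pol, .sx 150000 (.sx 75000 .pol .pol)
 .pol, .pol⟩

def hL150_60_5_2 : pcchk ⟨(nat_lit 1), (nat_lit 1000), Int.ofNat (nat_lit 400), 0, ⟨0, 1⟩, ⟨Int.ofNat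
 (nat_lit 60), 200⟩⟩ ⟨750000, 800000, 880226, 866140, 894542, 473607, 500736, 447950, 500000, 447213⟩ false
 (nat_lit 100) (Int.ofNat (nat_lit 1090)) (nat_lit 150) (Int.ofNat (nat_lit 1556)) qL150_60_5_2 = true := by
 decide +kernel

def qL150_60_5_3 : PCt := .one ⟨2008000, 251, 803200, 69476, 20822, 0, 0, 300000, 150000, 200000⟩ ⟨0, .pol,
 .pol, .pol, .pol, .sy 175000 (.sx 150000 (.sy 162500 (.sx 75000 (.aff 325000 2379974 191442) (.aff 1000000
 0 0)) (.sx 75000 (.sx 37500 (.aff 400000 2545585 141422) (.aff 1000000 0 0)) (.aff 1000000 0 0))) (.aff 0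
 849837 1176697)) (.sx 150000 (.sy 187500 (.sy 181250 (.sx 75000 (.sy 178125 (.sx 37500 (.aff 438000 2628888
 120144) (.aff 1000000 0 0)) (.sx 37500 (.aff 475000 2670403 103215) (.aff 1000000 0 0))) (.aff 1000000 0
 0)) (.sx 75000 (.sx 37500 (.aff 513000 2704648 87690) (.aff 1000000 0 0)) (.aff 1000000 0 0))) (.sx 75000
 (.sx 37500 (.aff 550000 2626766 77091) (.aff 1000000 0 0)) (.aff 1000000 0 0))) (.aff 1000000 0 0)), .pol,
 .pol, .sx 150000 .pol .pol, .pol⟩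

def hL150_60_5_3 : pcchk ⟨(nat_lit 1), (nat_lit 1000), Int.ofNat (nat_lit 400), 0, ⟨0, 1⟩, ⟨Int.ofNat
 (nat_lit 60), 200⟩⟩ ⟨750000, 800000, 880226, 866140, 894542, 473607, 500736, 447950, 500000, 447213⟩ false
 (nat_lit 150) (Int.ofNat (nat_lit 1556)) (nat_lit 200) (Int.ofNat (nat_lit 1729)) qL150_60_5_3 = true := by
 decide +kernel

def qL150_60_5_4 : PCt := .one ⟨2008000, 251, 803200, -37751, 42268, 0, 0, 300000, 200000, 250000⟩ ⟨0, .pol,
 .pol, .pol, .pol, .sx 150000 (.sx 75000 (.aff 800000 2880649 13886) (.aff 1000000 0 0)) (.aff 1000000 0 0),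
 .pol, .pol, .sx 150000 .pol .pol, .pol⟩

def hL150_60_5_4 : pcchk ⟨(nat_lit 1), (nat_lit 1000), Int.ofNat (nat_lit 400), 0, ⟨0, 1⟩, ⟨Int.ofNat
 (nat_lit 60), 200⟩⟩ ⟨750000, 800000, 880226, 866140, 894542, 473607, 500736, 447950, 500000, 447213⟩ false
 (nat_lit 200) (Int.ofNat (nat_lit 1729)) (nat_lit 250) (Int.ofNat (nat_lit 1635)) qL150_60_5_4 = true := by
 decide +kernel

def qL150_60_5_5 : PCt := .one ⟨2008000, 251, 803200, -148994, 70079, 0, 0, 300000, 250000, 300000⟩ ⟨0,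
 .pol, .pol, .pol, .pol, .sx 150000 (.sx 75000 (.sx 37500 (.sx 18750 (.aff 1200000 3084835 12967) (.aff
 1000000 0 0)) (.aff 1000000 0 0)) (.aff 1000000 0 0)) (.aff 1000000 0 0), .pol, .pol, .sx 150000 .pol .pol,
 .pol⟩

def hL150_60_5_5 : pcchk ⟨(nat_lit 1), (nat_lit 1000), Int.ofNat (nat_lit 400), 0, ⟨0, 1⟩, ⟨Int.ofNat
 (nat_lit 60), 200⟩⟩ ⟨750000, 800000, 880226, 866140, 894542, 473607, 500736, 447950, 500000, 447213⟩ false
 (nat_lit 250) (Int.ofNat (nat_lit 1635)) (nat_lit 300) (Int.ofNat (nat_lit 1264)) qL150_60_5_5 = true := by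
 decide +kernel

def qL150_60_5_6 : PCt := .one ⟨2008000, 251, 803200, -236141, 96223, 0, 0, 300000, 300000, 350000⟩ ⟨0,
 .pol, .pol, .pol, .pol, .sx 150000 (.sx 75000 (.sy 325000 (.sx 37500 (.sx 18750 (.sx 9375 (.aff 1444000
 3625245 54379) (.aff 1000000 0 0)) (.aff 1000000 0 0)) (.aff 1000000 0 0)) (.sx 37500 (.sx 18750 (.aff
 1638000 3828001 106334) (.aff 1000000 0 0)) (.aff 1000000 0 0))) (.aff 1000000 0 0)) (.aff 1000000 0 0),
 .pol, .pol, .pol, .pol⟩

def hL150_60_5_6 : pcchk ⟨(nat_lit 1), (nat_lit 1000), Int.ofNat (nat_lit 400), 0, ⟨0, 1⟩, ⟨Int.ofNat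
 (nat_lit 60), 200⟩⟩ ⟨750000, 800000, 880226, 866140, 894542, 473607, 500736, 447950, 500000, 447213⟩ false
 (nat_lit 300) (Int.ofNat (nat_lit 1264)) (nat_lit 350) (Int.ofNat (nat_lit 676)) qL150_60_5_6 = true := by
 decide +kernel

def qL150_60_5_7 : PCt := .one ⟨2008000, 251, 803200, -330517, 129254, 0, 0, 300000, 350000, 400000⟩ ⟨0,
 .pol, .pol, .pol, .pol, .sx 150000 (.sx 75000 (.sy 375000 (.sy 362500 (.sx 37500 (.sx 18750 (.aff 1950000
 4140954 217945) (.aff 1000000 0 0)) (.aff 1000000 0 0)) (.sx 37500 (.aff 1913000 4048892 205876) (.aff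
 1000000 0 0))) (.sx 37500 (.aff 1875000 3977803 192475) (.aff 1000000 0 0))) (.aff 1000000 0 0)) (.aff
 1000000 0 0), .pol, .pol, .pol, .pol⟩

def hL150_60_5_7 : pcchk ⟨(nat_lit 1), (nat_lit 1000), Int.ofNat (nat_lit 400), 0, ⟨0, 1⟩, ⟨Int.ofNat
 (nat_lit 60), 200⟩⟩ ⟨750000, 800000, 880226, 866140, 894542, 473607, 500736, 447950, 500000, 447213⟩ false
 (nat_lit 350) (Int.ofNat (nat_lit 676)) (nat_lit 400) (Int.negSucc (nat_lit 146)) qL150_60_5_7 = true := by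
 decide +kernel

def qL150_60_5_8 : PCt := .one ⟨2008000, 251, 803200, -410034, 161061, 0, 0, 300000, 400000, 450000⟩ ⟨0,
 .pol, .pol, .pol, .pol, .sx 150000 (.sx 75000 (.sx 37500 (.sy 425000 (.sy 412500 (.aff 2100000 4180644
 289430) (.sy 418750 (.aff 2100000 4228607 286147) (.sx 18750 (.aff 2000000 4743417 210819) (.sx 28125 (.aff
 3000000 8485282 471405) (.aff 2100000 4093147 295617))))) (.aff 2300000 4440346 380601)) (.aff 2150000
 3826936 345577)) (.aff 1000000 0 0)) (.aff 1000000 0 0), .pol, .pol, .pol, .pol⟩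

def hL150_60_5_8 : pcchk ⟨(nat_lit 1), (nat_lit 1000), Int.ofNat (nat_lit 400), 0, ⟨0, 1⟩, ⟨Int.ofNat
 (nat_lit 60), 200⟩⟩ ⟨750000, 800000, 880226, 866140, 894542, 473607, 500736, 447950, 500000, 447213⟩ false
 (nat_lit 400) (Int.negSucc (nat_lit 146)) (nat_lit 450) (Int.negSucc (nat_lit 1167)) qL150_60_5_8 = true :=
 by decide +kernel

def qL150_60_5_9 : PCt := .one ⟨2008000, 251, 803200, -502000, 202446, 0, 0, 300000, 450000, 500000⟩ ⟨0,
 .pol, .pol, .pol, .pol, .sx 150000 (.sx 75000 (.sy 475000 (.sx 37500 (.aff 3000000 8110351 493197) (.sx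
 56250 (.aff 2650000 4731279 575426) (.aff 1000000 0 0))) (.sx 37500 (.aff 3000000 8326664 480385) (.sx
 56250 (.aff 2900000 5593449 645398) (.aff 2650000 4649113 585596)))) (.aff 1000000 0 0)) (.aff 1000000 0
 0), .pol, .pol, .pol, .pol⟩

def hL150_60_5_9 : pcchk ⟨(nat_lit 1), (nat_lit 1000), Int.ofNat (nat_lit 400), 0, ⟨0, 1⟩, ⟨Int.ofNat
 (nat_lit 60), 200⟩⟩ ⟨750000, 800000, 880226, 866140, 894542, 473607, 500736, 447950, 500000, 447213⟩ false
 (nat_lit 450) (Int.negSucc (nat_lit 1167)) (nat_lit 500) (Int.negSucc (nat_lit 2417)) qL150_60_5_9 = true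
 := by decide +kernel

def qL150_60_5_10 : PCt := .one ⟨2008000, 251, 803200, -581116, 242004, 0, 0, 300000, 500000, 550000⟩ ⟨0,
 .pol, .pol, .pol, .pol, .sy 525000 (.sx 150000 (.sx 75000 (.aff 3000000 5228130 765092) (.aff 2899000
 4785842 753515)) (.aff 1000000 0 0)) (.sy 537500 (.sx 150000 (.sx 75000 (.aff 3000000 5322907 751470) (.sx
 112500 (.aff 2900000 4767561 757201) (.aff 1000000 0 0))) (.aff 1000000 0 0)) (.sx 150000 (.sx 75000 (.aff
 3000000 5385165 742782) (.aff 3050000 4937054 851217)) (.aff 1000000 0 0))), .pol, .pol, .pol, .pol⟩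

def hL150_60_5_10 : pcchk ⟨(nat_lit 1), (nat_lit 1000), Int.ofNat (nat_lit 400), 0, ⟨0, 1⟩, ⟨Int.ofNat
 (nat_lit 60), 200⟩⟩ ⟨750000, 800000, 880226, 866140, 894542, 473607, 500736, 447950, 500000, 447213⟩ false
 (nat_lit 500) (Int.negSucc (nat_lit 2417)) (nat_lit 550) (Int.negSucc (nat_lit 3864)) qL150_60_5_10 = true
 := by decide +kernel

def qL150_60_5_11 : PCt := .one ⟨2008000, 251, 803200, -678303, 295457, 0, 0, 300000, 550000, 600000⟩ ⟨0,
 .pol, .pol, .pol, .pol, .sx 150000 (.sy 575000 (.sy 562500 (.sx 75000 (.aff 3000000 5446712 734389) (.sx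
 112500 (.aff 3050000 4993480 841598) (.aff 1000000 0 0))) (.sx 75000 (.aff 3000000 5507571 726273) (.sx
 112500 (.sy 568750 (.sx 93750 (.aff 5000000 10356605 1544908) (.aff 3100000 5033886 876063)) (.sx 93750
 (.aff 5000000 10413667 1536443) (.sx 103125 (.aff 5000000 9641182 1659548) (.aff 3100000 4889990 901843))))
 (.aff 1500000 1040833 240193)))) (.sx 75000 (.aff 3000000 5597619 714590) (.sx 112500 (.aff 3500000 5713046
 1093988) (.aff 3300000 5049804 1047566)))) (.aff 1000000 0 0), .pol, .pol, .pol, .pol⟩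

def hL150_60_5_11 : pcchk ⟨(nat_lit 1), (nat_lit 1000), Int.ofNat (nat_lit 400), 0, ⟨0, 1⟩, ⟨Int.ofNat
 (nat_lit 60), 200⟩⟩ ⟨750000, 800000, 880226, 866140, 894542, 473607, 500736, 447950, 500000, 447213⟩ false
 (nat_lit 550) (Int.negSucc (nat_lit 3864)) (nat_lit 600) (Int.negSucc (nat_lit 5553)) qL150_60_5_11 = true
 := by decide +kernel

def qL150_60_5_12 : PCt := .one ⟨2008000, 251, 803200, -604007, 250879, 0, 0, 300000, 600000, 650000⟩ ⟨0,
 .pol, .pol, .pol, .pol, .sx 150000 (.sy 625000 (.sx 75000 (.aff 3000000 5715477 699855) (.sx 112500 (.aff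
 5000000 10224155 1564922) (.aff 3200000 4931948 981357))) (.aff 5000000 8246212 1940285)) (.aff 2000000
 1825742 547723), .pol, .sy 625000 (.aff 4700000 7476686 1831026) (.sy 637500 (.sx 150000 (.aff 5000000
 9475114 1688635) .pol) (.sx 150000 (.aff 5000000 8286536 1930843) (.sy 643750 (.aff 2000000 1848423 541002)
 (.sx 225000 (.sy 646875 (.aff 5000000 7420692 2156134) (.sx 187500 (.sx 168750 (.aff 5000000 7952239
 2012012) (.aff 1500000 953986 262059)) (.aff 1000000 0 0))) .pol)))), .pol, .pol⟩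

def hL150_60_5_12 : pcchk ⟨(nat_lit 1), (nat_lit 1000), Int.ofNat (nat_lit 400), 0, ⟨0, 1⟩, ⟨Int.ofNat
 (nat_lit 60), 200⟩⟩ ⟨750000, 800000, 880226, 866140, 894542, 473607, 500736, 447950, 500000, 447213⟩ false
 (nat_lit 600) (Int.negSucc (nat_lit 5553)) (nat_lit 650) (Int.negSucc (nat_lit 7057)) qL150_60_5_12 = true
 := by decide +kernel

def qL150_60_5_13 : PCt := .one ⟨2008000, 251, 803200, -90360, -82991, 0, 0, 300000, 650000, 700000⟩ ⟨0,
 .pol, .pol, .pol, .pol, .aff 3000000 4242641 942809, .pol, .sx 150000 (.aff 5000000 8485282 1885618) (.sx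
 225000 (.sx 187500 (.sx 168750 (.aff 4900000 7800000 1950000) (.aff 4800000 7209994 2002776)) (.aff 4900000
 7221397 2106241)) (.aff 1000000 0 0)), .pol, .pol⟩

def hL150_60_5_13 : pcchk ⟨(nat_lit 1), (nat_lit 1000), Int.ofNat (nat_lit 400), 0, ⟨0, 1⟩, ⟨Int.ofNat
 (nat_lit 60), 200⟩⟩ ⟨750000, 800000, 880226, 866140, 894542, 473607, 500736, 447950, 500000, 447213⟩ false
 (nat_lit 650) (Int.negSucc (nat_lit 7057)) (nat_lit 700) (Int.negSucc (nat_lit 7282)) qL150_60_5_13 = true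
 := by decide +kernel

def qL150_60_5_14 : PCt := .one ⟨2008000, 251, 803200, -143372, -45883, 0, 0, 300000, 700000, 750000⟩ ⟨0,
 .pol, .pol, .pol, .pol, .aff 1500000 1099243 227430, .pol, .sx 150000 (.aff 5000000 8793938 1819436) (.sx
 225000 (.sx 187500 (.aff 5000000 8069871 1982684) (.aff 5000000 7334651 2181427)) (.aff 5238000 7400931
 2426809)), .pol, .pol⟩

def hL150_60_5_14 : pcchk ⟨(nat_lit 1), (nat_lit 1000), Int.ofNat (nat_lit 400), 0, ⟨0, 1⟩, ⟨Int.ofNat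
 (nat_lit 60), 200⟩⟩ ⟨750000, 800000, 880226, 866140, 894542, 473607, 500736, 447950, 500000, 447213⟩ false
 (nat_lit 700) (Int.negSucc (nat_lit 7282)) (nat_lit 750) (Int.negSucc (nat_lit 7639)) qL150_60_5_14 = true
 := by decide +kernel

def qL150_60_5_15 : PCt := .one ⟨2008000, 251, 803200, -177508, -20281, 0, 0, 300000, 750000, 800000⟩ ⟨0,
 .pol, .pol, .pol, .pol, .aff 1000000 0 0, .pol, .sx 150000 (.aff 5000000 10498678 1524002) (.sy 775000 (.sx
 225000 (.aff 8000000 14116185 3471193) (.sx 262500 (.aff 5341000 7636542 2467646) (.aff 5400000 7368651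
 2627347))) (.sx 225000 (.aff 8000000 14345732 3415651) (.sx 262500 (.aff 8000000 12582039 3894441) (.aff
 5400000 7488474 2585307)))), .pol, .pol⟩

def hL150_60_5_15 : pcchk ⟨(nat_lit 1), (nat_lit 1000), Int.ofNat (nat_lit 400), 0, ⟨0, 1⟩, ⟨Int.ofNat
 (nat_lit 60), 200⟩⟩ ⟨750000, 800000, 880226, 866140, 894542, 473607, 500736, 447950, 500000, 447213⟩ false
 (nat_lit 750) (Int.negSucc (nat_lit 7639)) (nat_lit 800) (Int.negSucc (nat_lit 8081)) qL150_60_5_15 = true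
 := by decide +kernel

def qL150_60_5_16 : PCt := .one ⟨2008000, 251, 803200, -8802269, 6879528, 0, 0, 300000, 800000, 850000⟩ ⟨0,
 .pol, .pol, .pol, .pol, .aff 1000000 0 0, .pol, .sx 150000 (.aff 20000000 63015872 5728716) (.sx 225000
 (.aff 35000000 71319002 16208864) (.sx 262500 (.aff 35400000 62103761 19054563) (.inf 1712698 583875))),
 .sy 825000 (.sy 812500 (.sx 150000 (.inf 3278720 304998) .pol) (.inf 1869047 535033)) (.inf 1890327
 529010), .pol⟩

def hL150_60_5_16 : pcchk ⟨(nat_lit 1), (nat_lit 1000), Int.ofNat (nat_lit 400), 0, ⟨0, 1⟩, ⟨Int.ofNat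
 (nat_lit 60), 200⟩⟩ ⟨750000, 800000, 880226, 866140, 894542, 473607, 500736, 447950, 500000, 447213⟩ false
 (nat_lit 800) (Int.negSucc (nat_lit 8081)) (nat_lit 850) (Int.negSucc (nat_lit 29999)) qL150_60_5_16 = true
 := by decide +kernel

def qL150_60_5_17 : PCt := .one ⟨2008000, 251, 803200, 0, -602400, 0, 0, 300000, 850000, 900000⟩ ⟨0, .pol,
 .pol, .pol, .pol, .aff 1000000 0 0, .pol, .inf 1932184 517550, .inf 1932184 517550, .pol⟩

def hL150_60_5_17 : pcchk ⟨(nat_lit 1), (nat_lit 1000), Int.ofNat (nat_lit 400), 0, ⟨0, 1⟩, ⟨Int.ofNat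
 (nat_lit 60), 200⟩⟩ ⟨750000, 800000, 880226, 866140, 894542, 473607, 500736, 447950, 500000, 447213⟩ false
 (nat_lit 850) (Int.negSucc (nat_lit 29999)) (nat_lit 900) (Int.negSucc (nat_lit 29999)) qL150_60_5_17 =
 true := by decide +kernel

def qL150_60_5_18 : PCt := .one ⟨2008000, 251, 803200, 0, -602400, 0, 0, 300000, 900000, 950000⟩ ⟨0, .pol,
 .pol, .pol, .pol, .aff 1000000 0 0, .pol, .aff 35000000 59702038 19362824, .inf 1986622 503368, .pol⟩

def hL150_60_5_18 : pcchk ⟨(nat_lit 1), (nat_lit 1000), Int.ofNat (nat_lit 400), 0, ⟨0, 1⟩, ⟨Int.ofNat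
 (nat_lit 60), 200⟩⟩ ⟨750000, 800000, 880226, 866140, 894542, 473607, 500736, 447950, 500000, 447213⟩ false
 (nat_lit 900) (Int.negSucc (nat_lit 29999)) (nat_lit 950) (Int.negSucc (nat_lit 29999)) qL150_60_5_18 =
 true := by decide +kernel

def qL150_60_5_19 : PCt := .one ⟨2008000, 251, 803200, 0, -602400, 0, 0, 300000, 950000, 1000000⟩ ⟨0, .pol,
 .pol, .pol, .pol, .aff 1000000 0 0, .pol, .aff 35000000 70776644 16333072, .inf 2549510 392233, .pol⟩

def hL150_60_5_19 : pcchk ⟨(nat_lit 1), (nat_lit 1000), Int.ofNat (nat_lit 400), 0, ⟨0, 1⟩, ⟨Int.ofNat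
 (nat_lit 60), 200⟩⟩ ⟨750000, 800000, 880226, 866140, 894542, 473607, 500736, 447950, 500000, 447213⟩ false
 (nat_lit 950) (Int.negSucc (nat_lit 29999)) (nat_lit 1000) (Int.negSucc (nat_lit 29999)) qL150_60_5_19 =
 true := by decide +kernel

def qL150_60_6_0 : PCt := .one ⟨2008000, 251, 2008000, 127708, 0, 0, 0, 300000, 0, 50000⟩ ⟨25000, .sp 250000
 (.aff 6324556 158114) .pol, .pol, .pol, .pol, .pol, .aff 0 7735962 129267, .pol, .pol, .pol⟩

def hL150_60_6_0 : pcchk ⟨(nat_lit 1), (nat_lit 1000), Int.ofNat (nat_lit 1000), 0, ⟨0, 1⟩, ⟨Int.ofNat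
 (nat_lit 60), 200⟩⟩ ⟨750000, 800000, 880226, 866140, 894542, 473607, 500736, 447950, 500000, 447213⟩ true 0
 0 (nat_lit 50) (Int.ofNat (nat_lit 318)) qL150_60_6_0 = true := by decide +kernel

def qL150_60_6_1 : PCt := .one ⟨2008000, 251, 2008000, 159033, -1567, 0, 0, 300000, 50000, 100000⟩ ⟨0, .pol,
 .pol, .pol, .pol, .sx 150000 (.sy 75000 (.aff 0 7617231 131282) (.aff 0 7471898 133835)) .pol, .pol, .pol,
 .sx 150000 (.sx 75000 (.sx 37500 .pol .pol) .pol) .pol, .pol⟩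

def hL150_60_6_1 : pcchk ⟨(nat_lit 1), (nat_lit 1000), Int.ofNat (nat_lit 1000), 0, ⟨0, 1⟩, ⟨Int.ofNat
 (nat_lit 60), 200⟩⟩ ⟨750000, 800000, 880226, 866140, 894542, 473607, 500736, 447950, 500000, 447213⟩ false
 (nat_lit 50) (Int.ofNat (nat_lit 318)) (nat_lit 100) (Int.ofNat (nat_lit 714)) qL150_60_6_1 = true := by
 decide +kernel

def qL150_60_6_2 : PCt := .one ⟨2008000, 251, 2008000, 208430, -6506, 0, 0, 300000, 100000, 150000⟩ ⟨0,
 .pol, .pol, .pol, .pol, .sx 150000 (.aff 0 7403749 135067) .pol, .pol, .pol, .sx 150000 (.sx 75000 .pol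
 .pol) .pol, .pol⟩

def hL150_60_6_2 : pcchk ⟨(nat_lit 1), (nat_lit 1000), Int.ofNat (nat_lit 1000), 0, ⟨0, 1⟩, ⟨Int.ofNat
 (nat_lit 60), 200⟩⟩ ⟨750000, 800000, 880226, 866140, 894542, 473607, 500736, 447950, 500000, 447213⟩ false
 (nat_lit 100) (Int.ofNat (nat_lit 714)) (nat_lit 150) (Int.ofNat (nat_lit 1233)) qL150_60_6_2 = true := by
 decide +kernel

def qL150_60_6_3 : PCt := .one ⟨2008000, 251, 2008000, 134937, 4518, 0, 0, 300000, 150000, 200000⟩ ⟨0, .pol,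
 .pol, .pol, .pol, .sx 150000 (.sx 75000 (.sx 37500 (.sx 18750 (.sx 9375 (.sx 4687 (.sx 2343 (.sx 1171 (.sy
 175000 (.aff 125000 11902157 64327) (.aff 300000 8857685 55320)) (.sy 175000 (.sy 162500 (.aff 0 9430271
 106042) (.sy 168750 (.aff 225000 7524520 79823) (.aff 257000 7534712 73268))) (.aff 300000 7231241 67762)))
 (.sy 175000 (.aff 250000 5586352 100692) (.aff 275000 7084968 74189))) (.aff 250000 3741724 150332)) (.aff
 1000000 0 0)) (.aff 0 2494439 400892)) (.aff 0 1763835 566947)) .pol) .pol, .pol, .pol, .sx 150000 .pol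
 .pol, .pol⟩

def hL150_60_6_3 : pcchk ⟨(nat_lit 1), (nat_lit 1000), Int.ofNat (nat_lit 1000), 0, ⟨0, 1⟩, ⟨Int.ofNat
 (nat_lit 60), 200⟩⟩ ⟨750000, 800000, 880226, 866140, 894542, 473607, 500736, 447950, 500000, 447213⟩ false
 (nat_lit 150) (Int.ofNat (nat_lit 1233)) (nat_lit 200) (Int.ofNat (nat_lit 1569)) qL150_60_6_3 = true := by
 decide +kernel

def qL150_60_6_4 : PCt := .one ⟨2008000, 251, 2008000, 45782, 22349, 0, 0, 300000, 200000, 250000⟩ ⟨0, .pol,
 .pol, .pol, .pol, .sx 150000 (.sx 75000 (.sx 37500 (.sx 18750 (.sy 225000 (.aff 494000 7582195 33769) (.sx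
 9375 (.aff 531000 7497392 29339) (.aff 1000000 0 0))) (.aff 1000000 0 0)) (.aff 0 2000000 500000)) .pol)
 .pol, .pol, .pol, .sx 150000 .pol .pol, .pol⟩

def hL150_60_6_4 : pcchk ⟨(nat_lit 1), (nat_lit 1000), Int.ofNat (nat_lit 1000), 0, ⟨0, 1⟩, ⟨Int.ofNat
 (nat_lit 60), 200⟩⟩ ⟨750000, 800000, 880226, 866140, 894542, 473607, 500736, 447950, 500000, 447213⟩ false
 (nat_lit 200) (Int.ofNat (nat_lit 1569)) (nat_lit 250) (Int.ofNat (nat_lit 1683)) qL150_60_6_4 = true := by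
 decide +kernel

def qL150_60_6_5 : PCt := .one ⟨2008000, 251, 2008000, -226503, 90420, 0, 0, 300000, 250000, 300000⟩ ⟨0,
 .pol, .pol, .pol, .pol, .sx 150000 (.sx 75000 (.sx 37500 (.aff 1475000 8124806 27770) (.aff 1000000 0 0))
 (.aff 0 1563472 639603)) .pol, .pol, .pol, .sx 150000 .pol .pol, .pol⟩

def hL150_60_6_5 : pcchk ⟨(nat_lit 1), (nat_lit 1000), Int.ofNat (nat_lit 1000), 0, ⟨0, 1⟩, ⟨Int.ofNat
 (nat_lit 60), 200⟩⟩ ⟨750000, 800000, 880226, 866140, 894542, 473607, 500736, 447950, 500000, 447213⟩ false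
 (nat_lit 250) (Int.ofNat (nat_lit 1683)) (nat_lit 300) (Int.ofNat (nat_lit 1119)) qL150_60_6_5 = true := by
 decide +kernel

def qL150_60_6_6 : PCt := .one ⟨2008000, 251, 2008000, -451399, 157889, 0, 0, 300000, 300000, 350000⟩ ⟨0,
 .pol, .pol, .pol, .pol, .sx 150000 (.sx 75000 (.sy 325000 (.sx 37500 (.aff 2275000 8991010 180806) (.aff
 1000000 0 0)) (.sy 337500 (.sx 37500 (.sy 331250 (.sx 18750 (.sy 328125 (.sx 9375 (.sx 4687 (.aff 3000000
 23609168 169426) (.sx 7031 (.aff 3000000 13630275 293465) (.aff 2100000 7202510 167997))) (.aff 1000000 0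
 0)) (.sx 9375 (.aff 2552000 9436582 255252) (.aff 1000000 0 0))) (.aff 1000000 0 0)) (.sx 18750 (.sx 9375
 (.aff 2600000 9555453 267910) (.aff 1000000 0 0)) (.aff 1000000 0 0))) (.aff 1000000 0 0)) (.sx 37500 (.sx
 18750 (.sx 9375 (.aff 3000000 12110602 330290) (.aff 2200000 7938179 181402)) (.aff 1000000 0 0)) (.aff
 1000000 0 0)))) (.aff 1000000 0 0)) .pol, .pol, .pol, .pol, .pol⟩

def hL150_60_6_6 : pcchk ⟨(nat_lit 1), (nat_lit 1000), Int.ofNat (nat_lit 1000), 0, ⟨0, 1⟩, ⟨Int.ofNat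
 (nat_lit 60), 200⟩⟩ ⟨750000, 800000, 880226, 866140, 894542, 473607, 500736, 447950, 500000, 447213⟩ false
 (nat_lit 300) (Int.ofNat (nat_lit 1119)) (nat_lit 350) (Int.negSucc (nat_lit 4)) qL150_60_6_6 = true := by
 decide +kernel

def qL150_60_6_7 : PCt := .one ⟨2008000, 251, 2008000, -660231, 230980, 0, 0, 300000, 350000, 400000⟩ ⟨0,
 .pol, .pol, .pol, .pol, .sx 150000 (.sy 375000 (.sx 75000 (.sx 37500 (.sx 18750 (.sx 9375 (.aff 3000000
 14360440 278543) (.aff 3100000 9871171 446756)) (.aff 1000000 0 0)) (.aff 1000000 0 0)) (.aff 1000000 0 0))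
 (.sx 75000 (.sy 387500 (.sx 37500 (.sx 18750 (.aff 3700000 12174975 598770) (.aff 3200000 9806216 493565))
 (.aff 1000000 0 0)) (.sx 37500 (.aff 3112000 9558173 466674) (.aff 1000000 0 0))) (.aff 1000000 0 0)))
 (.aff 0 1290995 774597), .pol, .pol, .pol, .pol⟩

def hL150_60_6_7 : pcchk ⟨(nat_lit 1), (nat_lit 1000), Int.ofNat (nat_lit 1000), 0, ⟨0, 1⟩, ⟨Int.ofNat
 (nat_lit 60), 200⟩⟩ ⟨750000, 800000, 880226, 866140, 894542, 473607, 500736, 447950, 500000, 447213⟩ false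
 (nat_lit 350) (Int.negSucc (nat_lit 4)) (nat_lit 400) (Int.negSucc (nat_lit 1648)) qL150_60_6_7 = true :=
 by decide +kernel

def qL150_60_6_8 : PCt := .one ⟨2008000, 251, 2008000, -852999, 308087, 0, 0, 300000, 400000, 450000⟩ ⟨0,
 .pol, .pol, .pol, .pol, .sx 150000 (.sy 425000 (.sx 75000 (.sy 412500 (.sy 406250 (.sy 403125 (.sx 37500
 (.sx 18750 (.aff 5000000 26178872 611180) (.aff 3300000 9520260 555658)) (.aff 1000000 0 0)) (.sx 37500
 (.sx 18750 (.aff 5000000 26280538 608816) (.aff 3300000 9557232 553508)) (.aff 1000000 0 0))) (.sy 409375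
 (.sx 37500 (.sx 18750 (.aff 5000000 26381812 606479) (.aff 3325000 9698344 557377)) (.aff 1000000 0 0))
 (.sx 37500 (.sx 18750 (.aff 5000000 26482699 604169) (.aff 3409000 9715900 597298)) (.aff 1000000 0 0))))
 (.sy 418750 (.sy 415625 (.sx 37500 (.sx 18750 (.aff 5000000 26583203 601884) (.sx 28125 (.aff 5000000
 16812694 951662) (.aff 3500000 9216068 678164))) (.aff 1000000 0 0)) (.sx 37500 (.sx 18750 (.aff 5000000
 26683329 599626) (.sx 28125 (.aff 5000000 16876019 948091) (.aff 3600000 9620811 702644))) (.aff 1000000 0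
 0))) (.sy 421875 (.sx 37500 (.sx 18750 (.aff 5000000 26783080 597393) (.sx 28125 (.aff 5000000 16939107
 944560) (.aff 3700000 10028192 726951))) (.aff 1000000 0 0)) (.sx 37500 (.aff 4175000 10668977 944854)
 (.aff 1000000 0 0))))) (.aff 1000000 0 0)) (.sx 75000 (.sx 37500 (.aff 4200000 10930081 936865) (.aff
 3750000 9284971 814489)) (.aff 1000000 0 0))) (.aff 1000000 0 0), .pol, .pol, .pol, .pol⟩

def hL150_60_6_8 : pcchk ⟨(nat_lit 1), (nat_lit 1000), Int.ofNat (nat_lit 1000), 0, ⟨0, 1⟩, ⟨Int.ofNat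
 (nat_lit 60), 200⟩⟩ ⟨750000, 800000, 880226, 866140, 894542, 473607, 500736, 447950, 500000, 447213⟩ false
 (nat_lit 400) (Int.negSucc (nat_lit 1648)) (nat_lit 450) (Int.negSucc (nat_lit 3772)) qL150_60_6_8 = true
 := by decide +kernel

def qL150_60_6_9 : PCt := .one ⟨2008000, 251, 2008000, -1059020, 400796, 0, 0, 300000, 450000, 500000⟩ ⟨0,
 .pol, .pol, .pol, .pol, .sy 475000 (.sx 150000 (.sy 462500 (.sx 75000 (.sx 37500 (.aff 5000000 16110728
 993128) (.sx 56250 (.aff 4892000 11365025 1332832) (.aff 1000000 0 0))) (.aff 1000000 0 0)) (.sx 75000 (.sx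
 37500 (.aff 5000000 16329932 979796) (.sx 56250 (.aff 4900000 11258331 1351000) (.aff 1000000 0 0))) (.aff
 1000000 0 0))) (.aff 1000000 0 0)) (.sx 150000 (.sx 75000 (.sx 37500 (.aff 5000000 16653328 960769) (.sx
 56250 (.aff 5000000 11775682 1358733) (.aff 4900000 11030866 1378859))) (.aff 1000000 0 0)) (.aff 1000000 0
 0)), .pol, .pol, .pol, .pol⟩

def hL150_60_6_9 : pcchk ⟨(nat_lit 1), (nat_lit 1000), Int.ofNat (nat_lit 1000), 0, ⟨0, 1⟩, ⟨Int.ofNat
 (nat_lit 60), 200⟩⟩ ⟨750000, 800000, 880226, 866140, 894542, 473607, 500736, 447950, 500000, 447213⟩ false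
 (nat_lit 450) (Int.negSucc (nat_lit 3772)) (nat_lit 500) (Int.negSucc (nat_lit 6409)) qL150_60_6_9 = true
 := by decide +kernel

def qL150_60_6_10 : PCt := .one ⟨2008000, 251, 2008000, -1230101, 486337, 0, 0, 300000, 500000, 550000⟩ ⟨0,
 .pol, .pol, .pol, .pol, .sy 525000 (.sx 150000 (.sx 75000 (.aff 5275000 11387673 1604861) (.sy 512500 (.aff
 1000000 0 0) (.aff 5577000 11605034 1805159))) (.aff 1000000 0 0)) (.sx 150000 (.sx 75000 (.aff 8000000
 18739442 2614806) (.sx 112500 (.aff 5500000 11357817 1782914) (.aff 1000000 0 0))) (.aff 1000000 0 0)),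
 .pol, .aff 8000000 18520260 2645752, .pol, .pol⟩

def hL150_60_6_10 : pcchk ⟨(nat_lit 1), (nat_lit 1000), Int.ofNat (nat_lit 1000), 0, ⟨0, 1⟩, ⟨Int.ofNat
 (nat_lit 60), 200⟩⟩ ⟨750000, 800000, 880226, 866140, 894542, 473607, 500736, 447950, 500000, 447213⟩ false
 (nat_lit 500) (Int.negSucc (nat_lit 6409)) (nat_lit 550) (Int.negSucc (nat_lit 9472)) qL150_60_6_10 = true
 := by decide +kernel

def qL150_60_6_11 : PCt := .one ⟨2008000, 251, 2008000, -1442949, 603404, 0, 0, 300000, 550000, 600000⟩ ⟨0,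
 .pol, .pol, .pol, .pol, .sy 575000 (.sy 562500 (.sx 150000 (.sx 75000 (.aff 8000000 22012623 2225996) (.aff
 5725000 11509361 1939780)) (.aff 1000000 0 0)) (.sy 568750 (.sx 150000 (.sx 75000 (.aff 8000000 22197348
 2207471) (.sx 112500 (.sx 93750 (.aff 8000000 18124059 2703589) (.aff 5900000 11745733 2044147)) (.aff
 1000000 0 0))) (.aff 1000000 0 0)) (.sx 150000 (.sx 75000 (.aff 8000000 22319648 2195376) (.sx 112500 (.aff
 6550000 12513169 2461607) (.aff 1000000 0 0))) (.aff 1000000 0 0)))) (.sx 150000 (.sx 75000 (.aff 8000000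
 22622507 2165985) (.sx 112500 (.aff 6600000 12797222 2450532) (.aff 6489000 12356550 2438312))) (.aff
 1000000 0 0)), .pol, .aff 12000000 21536791 5618293, .sx 150000 (.sx 75000 (.inf 3132625 319222) .pol)
 .pol, .pol⟩

def hL150_60_6_11 : pcchk ⟨(nat_lit 1), (nat_lit 1000), Int.ofNat (nat_lit 1000), 0, ⟨0, 1⟩, ⟨Int.ofNat
 (nat_lit 60), 200⟩⟩ ⟨750000, 800000, 880226, 866140, 894542, 473607, 500736, 447950, 500000, 447213⟩ false
 (nat_lit 550) (Int.negSucc (nat_lit 9472)) (nat_lit 600) (Int.negSucc (nat_lit 13065)) qL150_60_6_11 = true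
 := by decide +kernel

def qL150_60_6_12 : PCt := .one ⟨2008000, 251, 2008000, -1481904, 626777, 0, 0, 300000, 600000, 650000⟩ ⟨0,
 .pol, .pol, .pol, .pol, .sx 150000 (.sx 75000 (.aff 5000000 11547006 1385641) (.sx 112500 (.aff 8000000
 18073923 2711089) (.sx 131250 (.aff 7400000 13965945 2932849) (.aff 6900000 12043325 2890398)))) (.aff
 5600000 10257845 2062812), .pol, .sy 625000 (.sx 150000 (.aff 12000000 25666667 4714286) .pol) (.sy 637500
 (.sx 150000 (.aff 12000000 22565645 5362134) .pol) (.sx 150000 (.aff 12000000 22787972 5309819) (.sx 225000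
 (.aff 12200000 21875338 5734312) .pol))), .sx 150000 (.sx 75000 (.inf 4082483 244949) .pol) .pol, .pol⟩

def hL150_60_6_12 : pcchk ⟨(nat_lit 1), (nat_lit 1000), Int.ofNat (nat_lit 1000), 0, ⟨0, 1⟩, ⟨Int.ofNat
 (nat_lit 60), 200⟩⟩ ⟨750000, 800000, 880226, 866140, 894542, 473607, 500736, 447950, 500000, 447213⟩ false
 (nat_lit 600) (Int.negSucc (nat_lit 13065)) (nat_lit 650) (Int.negSucc (nat_lit 16755)) qL150_60_6_12 =
 true := by decide +kernel

def qL150_60_6_13 : PCt := .one ⟨2008000, 251, 2008000, -1061429, 353468, 0, 0, 300000, 650000, 700000⟩ ⟨0,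
 .pol, .pol, .pol, .pol, .aff 3000000 4242641 942809, .pol, .sx 150000 (.aff 12000000 23334524 5185450) (.sx
 225000 (.sx 187500 (.sx 168750 (.aff 12300000 22600000 5650000) (.sy 675000 (.aff 12200000 21889683
 5730554) (.aff 12100000 21525656 5723868))) (.aff 11858000 20614073 5719208)) (.aff 1000000 0 0)), .sx
 150000 (.inf 2400001 416667) .pol, .pol⟩

def hL150_60_6_13 : pcchk ⟨(nat_lit 1), (nat_lit 1000), Int.ofNat (nat_lit 1000), 0, ⟨0, 1⟩, ⟨Int.ofNat
 (nat_lit 60), 200⟩⟩ ⟨750000, 800000, 880226, 866140, 894542, 473607, 500736, 447950, 500000, 447213⟩ false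
 (nat_lit 650) (Int.negSucc (nat_lit 16755)) (nat_lit 700) (Int.negSucc (nat_lit 19398)) qL150_60_6_13 =
 true := by decide +kernel

def qL150_60_6_14 : PCt := .one ⟨2008000, 251, 2008000, -1283514, 508927, 0, 0, 300000, 700000, 750000⟩ ⟨0,
 .pol, .pol, .pol, .pol, .aff 1500000 1099243 227430, .pol, .sx 150000 (.aff 12000000 24183328 5003448) (.sx
 225000 (.sx 187500 (.aff 20000000 39382268 9166562) (.sx 206250 (.sy 725000 (.aff 17800000 31225165
 9038864) (.aff 20000000 36773870 9816754)) (.sy 725000 (.aff 13888000 23101688 7189975) (.aff 20000000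
 34762824 10384657)))) (.sy 725000 (.sx 262500 (.sx 243750 (.aff 12000000 19373873 6245525) (.aff 1000000 0
 0)) (.aff 1000000 0 0)) (.sx 262500 (.aff 14100000 23237889 7384923) (.aff 1000000 0 0)))), .sx 150000
 (.inf 3109127 321634) .pol, .pol⟩

def hL150_60_6_14 : pcchk ⟨(nat_lit 1), (nat_lit 1000), Int.ofNat (nat_lit 1000), 0, ⟨0, 1⟩, ⟨Int.ofNat
 (nat_lit 60), 200⟩⟩ ⟨750000, 800000, 880226, 866140, 894542, 473607, 500736, 447950, 500000, 447213⟩ false
 (nat_lit 700) (Int.negSucc (nat_lit 19398)) (nat_lit 750) (Int.negSucc (nat_lit 22594)) qL150_60_6_14 =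
 true := by decide +kernel

end CB
end Pool.Agent.Lib.MP_6947cd_al
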