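import Pool.Agent.Lib.MP_6947cd_al.L.PairSplit

/-!
Problem MP_6947cd_al (Chollet).  Library of pair functions: certificates of the pieces (generated).
-/

set_option autoImplicit false
set_option linter.defProp false
set_option maxRecDepth 100000

namespace Pool.Agent.Lib.MP_6947cd_al
namespace CB

open CA

def qL160_20_0_0 : PCt := .one ⟨2008000, 251, 502000, 384732, 0, 0, 0, 100000, 0, 50000⟩ ⟨50000, .aff
 1154701 866026, .aff 866026 1154700, .pol, .pol, .aff 75000 714547 1197437, .aff 0 1154701 866026, .pol,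
 .pol, .pol⟩

def hL160_20_0_0 : pcchk ⟨(nat_lit 3), (nat_lit 1000), Int.ofNat (nat_lit 250), 0, ⟨0, 1⟩, ⟨Int.ofNat
 (nat_lit 20), 200⟩⟩ ⟨800000, 850000, 908191, 894532, 922059, 417256, 448290, 388374, 447213, 387298⟩ true 0
 0 (nat_lit 50) (Int.ofNat (nat_lit 958)) qL160_20_0_0 = true := by decide +kernel

def qL160_20_0_1 : PCt := .one ⟨2008000, 251, 502000, 360235, 1224, 0, 0, 100000, 50000, 100000⟩ ⟨0, .pol,
 .pol, .pol, .pol, .sy 75000 (.sy 62500 (.sx 50000 (.sx 25000 (.aff 0 1732051 577351) (.aff 100000 1102271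
 734847)) (.aff 250000 649520 866025)) (.sx 50000 (.sy 68750 (.sx 25000 (.aff 125000 1636976 467707) (.sx
 37500 (.aff 125000 1267996 603808) (.aff 125000 1071652 714435))) (.sx 25000 (.aff 125000 1713154 446910)
 (.sx 37500 (.aff 125000 1265248 605119) (.aff 250000 997594 563857)))) (.aff 1000000 0 0))) (.sx 50000 (.sy
 87500 (.sx 25000 (.aff 125000 1821458 420337) (.sx 37500 (.aff 200000 1230343 520181) (.aff 1000000 0 0)))
 (.aff 269000 1380625 387043)) (.aff 1000000 0 0)), .pol, .pol, .sx 50000 .pol .pol, .pol⟩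

def hL160_20_0_1 : pcchk ⟨(nat_lit 3), (nat_lit 1000), Int.ofNat (nat_lit 250), 0, ⟨0, 1⟩, ⟨Int.ofNat
 (nat_lit 20), 200⟩⟩ ⟨800000, 850000, 908191, 894532, 922059, 417256, 448290, 388374, 447213, 387298⟩ false
 (nat_lit 50) (Int.ofNat (nat_lit 958)) (nat_lit 100) (Int.ofNat (nat_lit 1855)) qL160_20_0_1 = true := by
 decide +kernel

def qL160_20_0_2 : PCt := .one ⟨2008000, 251, 502000, 288348, 8413, 0, 0, 100000, 100000, 150000⟩ ⟨0, .pol,
 .pol, .pol, .pol, .sy 125000 (.sy 112500 (.sx 50000 (.aff 450000 1603512 188649) (.aff 1000000 0 0)) (.sy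
 118750 (.sx 50000 (.aff 475000 1596726 172619) (.aff 1000000 0 0)) (.sx 50000 (.sx 25000 (.aff 475000
 1639312 168135) (.aff 1000000 0 0)) (.aff 1000000 0 0)))) (.sy 137500 (.sy 131250 (.sx 50000 (.sx 25000
 (.aff 538000 1718495 124205) (.aff 1000000 0 0)) (.aff 1000000 0 0)) (.sx 50000 (.sx 25000 (.aff 588000
 1817196 93410) (.aff 1000000 0 0)) (.aff 1000000 0 0))) (.sy 143750 (.sx 50000 (.sx 25000 (.aff 613000
 1835703 81587) (.aff 1000000 0 0)) (.aff 1000000 0 0)) (.sx 50000 (.sx 25000 (.aff 625000 1817880 77357)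
 (.aff 1000000 0 0)) (.aff 1000000 0 0)))), .pol, .pol, .pol, .pol⟩

def hL160_20_0_2 : pcchk ⟨(nat_lit 3), (nat_lit 1000), Int.ofNat (nat_lit 250), 0, ⟨0, 1⟩, ⟨Int.ofNat
 (nat_lit 20), 200⟩⟩ ⟨800000, 850000, 908191, 894532, 922059, 417256, 448290, 388374, 447213, 387298⟩ false
 (nat_lit 100) (Int.ofNat (nat_lit 1855)) (nat_lit 150) (Int.ofNat (nat_lit 2573)) qL160_20_0_2 = true := by
 decide +kernel

def qL160_20_0_3 : PCt := .one ⟨2008000, 251, 502000, 269473, 11244, 0, 0, 100000, 150000, 200000⟩ ⟨0, .pol,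
 .pol, .pol, .pol, .sx 50000 (.sy 175000 (.sy 162500 (.sx 25000 (.aff 725000 1856056 40745) (.aff 1000000 0
 0)) (.sx 25000 (.sx 12500 (.aff 775000 1920984 26354) (.aff 1000000 0 0)) (.aff 1000000 0 0))) (.sx 25000
 (.sx 12500 (.aff 875000 1764259 8857) (.aff 1000000 0 0)) (.aff 1000000 0 0))) (.aff 1000000 0 0), .pol,
 .pol, .pol, .pol⟩

def hL160_20_0_3 : pcchk ⟨(nat_lit 3), (nat_lit 1000), Int.ofNat (nat_lit 250), 0, ⟨0, 1⟩, ⟨Int.ofNat
 (nat_lit 20), 200⟩⟩ ⟨800000, 850000, 908191, 894532, 922059, 417256, 448290, 388374, 447213, 387298⟩ false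
 (nat_lit 150) (Int.ofNat (nat_lit 2573)) (nat_lit 200) (Int.ofNat (nat_lit 3244)) qL160_20_0_3 = true := by
 decide +kernel

def qL160_20_0_4 : PCt := .one ⟨2008000, 251, 502000, 239353, 17268, 0, 0, 100000, 200000, 250000⟩ ⟨0, .pol,
 .pol, .pol, .pol, .sx 50000 (.sx 25000 (.sy 225000 (.sx 12500 (.sx 6250 (.aff 1100000 1230191 8129) (.aff
 1000000 0 0)) (.aff 1000000 0 0)) (.aff 1250000 2299057 27186)) (.aff 1000000 0 0)) (.aff 1000000 0 0),
 .pol, .pol, .pol, .pol⟩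

def hL160_20_0_4 : pcchk ⟨(nat_lit 3), (nat_lit 1000), Int.ofNat (nat_lit 250), 0, ⟨0, 1⟩, ⟨Int.ofNat
 (nat_lit 20), 200⟩⟩ ⟨800000, 850000, 908191, 894532, 922059, 417256, 448290, 388374, 447213, 387298⟩ false
 (nat_lit 200) (Int.ofNat (nat_lit 3244)) (nat_lit 250) (Int.ofNat (nat_lit 3840)) qL160_20_0_4 = true := by
 decide +kernel

def qL160_20_0_5 : PCt := .one ⟨2008000, 251, 502000, 226904, 20381, 0, 0, 100000, 250000, 300000⟩ ⟨0, .pol,
 .pol, .pol, .pol, .sy 275000 (.sx 50000 (.sx 25000 (.aff 1400000 2592297 61722) (.aff 1000000 0 0)) (.aff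
 1000000 0 0)) (.sx 50000 (.sx 25000 (.aff 1588000 2819949 122607) (.aff 1000000 0 0)) (.aff 1000000 0 0)),
 .pol, .pol, .pol, .pol⟩

def hL160_20_0_5 : pcchk ⟨(nat_lit 3), (nat_lit 1000), Int.ofNat (nat_lit 250), 0, ⟨0, 1⟩, ⟨Int.ofNat
 (nat_lit 20), 200⟩⟩ ⟨800000, 850000, 908191, 894532, 922059, 417256, 448290, 388374, 447213, 387298⟩ false
 (nat_lit 250) (Int.ofNat (nat_lit 3840)) (nat_lit 300) (Int.ofNat (nat_lit 4405)) qL160_20_0_5 = true := by
 decide +kernel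

def qL160_20_0_6 : PCt := .one ⟨2008000, 251, 502000, 210036, 25441, 0, 0, 100000, 300000, 350000⟩ ⟨0, .pol,
 .pol, .pol, .pol, .sy 325000 (.sy 312500 (.sx 50000 (.aff 1550000 2722362 111117) (.aff 1000000 0 0)) (.sy
 318750 (.sy 315625 (.sx 50000 (.sx 25000 (.aff 1550000 2756867 109727) (.aff 1000000 0 0)) (.aff 1000000 0
 0)) (.sx 50000 (.sx 25000 (.aff 1888000 3163014 249302) (.aff 1000000 0 0)) (.aff 1000000 0 0))) (.sy
 321875 (.sy 320312 (.sx 50000 (.sx 25000 (.aff 1900000 3217578 251743) (.aff 1000000 0 0)) (.aff 1000000 0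
 0)) (.sx 50000 (.sx 25000 (.aff 1900000 3225435 251129) (.aff 1000000 0 0)) (.aff 1000000 0 0))) (.sx 50000
 (.sx 25000 (.aff 1900000 3237187 250218) (.aff 1000000 0 0)) (.aff 1000000 0 0))))) (.sy 337500 (.sy 331250
 (.sy 328125 (.sx 50000 (.sx 25000 (.aff 1900000 3252788 249018) (.aff 1000000 0 0)) (.aff 1000000 0 0))
 (.sy 329687 (.sx 50000 (.sx 25000 (.aff 2000000 3627154 275699) (.aff 1000000 0 0)) (.aff 1000000 0 0))
 (.sx 50000 (.sx 25000 (.aff 2000000 3635759 275046) (.aff 1000000 0 0)) (.aff 1000000 0 0)))) (.sy 334375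
 (.sx 50000 (.sx 25000 (.aff 2000000 3648630 274076) (.aff 1000000 0 0)) (.aff 1000000 0 0)) (.sy 335937
 (.sx 50000 (.sx 25000 (.aff 2000000 3661454 273116) (.aff 1000000 0 0)) (.aff 1000000 0 0)) (.sx 50000 (.sx
 25000 (.aff 2000000 3669979 272482) (.aff 1000000 0 0)) (.aff 1000000 0 0))))) (.sy 343750 (.sy 340625 (.sx
 50000 (.sx 25000 (.aff 2000000 4252451 235159) (.aff 1000000 0 0)) (.aff 1000000 0 0)) (.sy 342187 (.sx
 50000 (.sx 25000 (.aff 2000000 4267121 234351) (.aff 1000000 0 0)) (.aff 1000000 0 0)) (.sx 50000 (.sx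
 25000 (.aff 2000000 4276875 233816) (.aff 1000000 0 0)) (.aff 1000000 0 0)))) (.sx 50000 (.sx 25000 (.aff
 2000000 4301163 232496) (.aff 1900000 3025122 267758)) (.aff 1000000 0 0)))), .pol, .pol, .pol, .pol⟩

def hL160_20_0_6 : pcchk ⟨(nat_lit 3), (nat_lit 1000), Int.ofNat (nat_lit 250), 0, ⟨0, 1⟩, ⟨Int.ofNat
 (nat_lit 20), 200⟩⟩ ⟨800000, 850000, 908191, 894532, 922059, 417256, 448290, 388374, 447213, 387298⟩ false
 (nat_lit 300) (Int.ofNat (nat_lit 4405)) (nat_lit 350) (Int.ofNat (nat_lit 4928)) qL160_20_0_6 = true := by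
 decide +kernel

def qL160_20_0_7 : PCt := .one ⟨2008000, 251, 502000, 197587, 29798, 0, 0, 100000, 350000, 400000⟩ ⟨0, .pol,
 .pol, .pol, .pol, .sx 50000 (.aff 2019000 3222361 322237) (.aff 1000000 0 0), .pol, .pol, .pol, .pol⟩

def hL160_20_0_7 : pcchk ⟨(nat_lit 3), (nat_lit 1000), Int.ofNat (nat_lit 250), 0, ⟨0, 1⟩, ⟨Int.ofNat
 (nat_lit 20), 200⟩⟩ ⟨800000, 850000, 908191, 894532, 922059, 417256, 448290, 388374, 447213, 387298⟩ false
 (nat_lit 350) (Int.ofNat (nat_lit 4928)) (nat_lit 400) (Int.ofNat (nat_lit 5420)) qL160_20_0_7 = true := by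
 decide +kernel

def qL160_20_0_8 : PCt := .one ⟨2008000, 251, 502000, 191161, 32368, 0, 0, 100000, 400000, 450000⟩ ⟨0, .pol,
 .pol, .pol, .pol, .sx 50000 (.aff 2600000 4664762 548796) (.aff 2213000 3163118 465165), .pol, .pol, .pol,
 .pol⟩

def hL160_20_0_8 : pcchk ⟨(nat_lit 3), (nat_lit 1000), Int.ofNat (nat_lit 250), 0, ⟨0, 1⟩, ⟨Int.ofNat
 (nat_lit 20), 200⟩⟩ ⟨800000, 850000, 908191, 894532, 922059, 417256, 448290, 388374, 447213, 387298⟩ false
 (nat_lit 400) (Int.ofNat (nat_lit 5420)) (nat_lit 450) (Int.ofNat (nat_lit 5896)) qL160_20_0_8 = true := by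
 decide +kernel

def qL160_20_0_9 : PCt := .one ⟨2008000, 251, 502000, 204414, 26405, 0, 0, 100000, 450000, 500000⟩ ⟨0, .pol,
 .pol, .pol, .pol, .sy 475000 (.sy 462500 (.sy 456250 (.sx 50000 (.aff 3000000 6952218 575356) (.sx 75000
 (.aff 2800000 4424365 732309) (.aff 1000000 0 0))) (.sx 50000 (.aff 3000000 7000000 571429) (.sx 75000
 (.aff 3000000 5169843 773718) (.aff 2000000 2291288 436436)))) (.sx 50000 (.aff 3000000 8660255 461881)
 (.sx 75000 (.aff 3000000 5477226 730297) (.aff 2100000 2642115 457967)))) (.aff 2775000 3919094 803917),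
 .pol, .pol, .pol, .pol⟩

def hL160_20_0_9 : pcchk ⟨(nat_lit 3), (nat_lit 1000), Int.ofNat (nat_lit 250), 0, ⟨0, 1⟩, ⟨Int.ofNat
 (nat_lit 20), 200⟩⟩ ⟨800000, 850000, 908191, 894532, 922059, 417256, 448290, 388374, 447213, 387298⟩ false
 (nat_lit 450) (Int.ofNat (nat_lit 5896)) (nat_lit 500) (Int.ofNat (nat_lit 6405)) qL160_20_0_9 = true := by
 decide +kernel

def qL160_20_0_10 : PCt := .one ⟨2008000, 251, 502000, -14601775, 7429499, 0, 0, 100000, 500000, 550000⟩ ⟨0,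
 .pol, .pol, .pol, .pol, .sx 50000 (.aff 35000000 155807574 7419409) (.sx 75000 (.inf 2898276 345033) (.sy
 525000 (.sx 87500 (.inf 2511512 398167) (.sy 512500 (.sx 93750 (.inf 2363516 423099) (.sy 506250 (.sx 96875
 (.inf 2297540 435249) (.sy 503125 (.sx 98437 (.inf 2266278 441253) (.sy 501562 (.sx 99218 (.inf 2251050
 444238) (.sy 500781 (.sx 99609 (.inf 2243530 445727) (.sy 500390 (.sx 99804 (.inf 2239794 446470) (.sy
 500195 (.sx 99902 (.inf 2237932 446842) (.sy 500097 (.sy 500048 (.aff 1500000 1118335 223547) (.sx 99951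
 (.aff 20000000 42503995 8493320) (.sy 500072 (.aff 1500000 1118239 223566) (.sy 500084 (.aff 1500000
 1118259 223562) (.inf 2236545 447119))))) (.inf 2236943 447039))) (.inf 2237819 446864))) (.inf 2239568
 446515))) (.inf 2243076 445817))) (.inf 2250112 444423))) (.inf 2264285 441641))) (.inf 2293047 436101)))
 (.inf 2352304 425116))) (.inf 2478479 403474))), .pol, .pol, .sy 525000 (.sy 512500 (.sy 506250 .pol (.inf
 2553430 391631)) (.inf 2576820 388076)) (.inf 2622976 381247), .pol⟩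

def hL160_20_0_10 : pcchk ⟨(nat_lit 3), (nat_lit 1000), Int.ofNat (nat_lit 250), 0, ⟨0, 1⟩, ⟨Int.ofNat
 (nat_lit 20), 200⟩⟩ ⟨800000, 850000, 908191, 894532, 922059, 417256, 448290, 388374, 447213, 387298⟩ false
 (nat_lit 500) (Int.ofNat (nat_lit 6405)) (nat_lit 550) (Int.negSucc (nat_lit 29953)) qL160_20_0_10 = true
 := by decide +kernel

def qL160_20_0_11 : PCt := .one ⟨2008000, 251, 502000, -18474, -591316, 0, 0, 100000, 550000, 600000⟩ ⟨0,
 .pol, .pol, .pol, .pol, .inf 3391165 294884, .pol, .pol, .inf 3391165 294884, .pol⟩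

def hL160_20_0_11 : pcchk ⟨(nat_lit 3), (nat_lit 1000), Int.ofNat (nat_lit 250), 0, ⟨0, 1⟩, ⟨Int.ofNat
 (nat_lit 20), 200⟩⟩ ⟨800000, 850000, 908191, 894532, 922059, 417256, 448290, 388374, 447213, 387298⟩ false
 (nat_lit 550) (Int.negSucc (nat_lit 29953)) (nat_lit 600) (Int.negSucc (nat_lit 29999)) qL160_20_0_11 =
 true := by decide +kernel

def qL160_20_0_12 : PCt := .one ⟨2008000, 251, 502000, 0, -602400, 0, 0, 100000, 600000, 650000⟩ ⟨0, .pol,
 .pol, .pol, .pol, .inf 3535534 282843, .pol, .pol, .inf 3535534 282843, .pol⟩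

def hL160_20_0_12 : pcchk ⟨(nat_lit 3), (nat_lit 1000), Int.ofNat (nat_lit 250), 0, ⟨0, 1⟩, ⟨Int.ofNat
 (nat_lit 20), 200⟩⟩ ⟨800000, 850000, 908191, 894532, 922059, 417256, 448290, 388374, 447213, 387298⟩ false
 (nat_lit 600) (Int.negSucc (nat_lit 29999)) (nat_lit 650) (Int.negSucc (nat_lit 29999)) qL160_20_0_12 =
 true := by decide +kernel

def qL160_20_0_13 : PCt := .one ⟨2008000, 251, 502000, 0, -602400, 0, 0, 100000, 650000, 700000⟩ ⟨0, .pol,
 .pol, .pol, .pol, .aff 35000000 102000001 11333334, .pol, .pol, .inf 3674235 272166, .pol⟩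

def hL160_20_0_13 : pcchk ⟨(nat_lit 3), (nat_lit 1000), Int.ofNat (nat_lit 250), 0, ⟨0, 1⟩, ⟨Int.ofNat
 (nat_lit 20), 200⟩⟩ ⟨800000, 850000, 908191, 894532, 922059, 417256, 448290, 388374, 447213, 387298⟩ false
 (nat_lit 650) (Int.negSucc (nat_lit 29999)) (nat_lit 700) (Int.negSucc (nat_lit 29999)) qL160_20_0_13 =
 true := by decide +kernel

def qL160_20_0_14 : PCt := .one ⟨2008000, 251, 502000, 0, -602400, 0, 0, 100000, 700000, 750000⟩ ⟨0, .pol,
 .pol, .pol, .pol, .aff 35000000 129468143 8928838, .pol, .pol, .inf 3807887 262613, .pol⟩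

def hL160_20_0_14 : pcchk ⟨(nat_lit 3), (nat_lit 1000), Int.ofNat (nat_lit 250), 0, ⟨0, 1⟩, ⟨Int.ofNat
 (nat_lit 20), 200⟩⟩ ⟨800000, 850000, 908191, 894532, 922059, 417256, 448290, 388374, 447213, 387298⟩ false
 (nat_lit 700) (Int.negSucc (nat_lit 29999)) (nat_lit 750) (Int.negSucc (nat_lit 29999)) qL160_20_0_14 =
 true := by decide +kernel

def qL160_20_0_15 : PCt := .one ⟨2008000, 251, 502000, 0, -602400, 0, 0, 100000, 750000, 800000⟩ ⟨0, .pol,
 .pol, .pol, .pol, .aff 20000000 61076455 5910625, .pol, .pol, .inf 3937004 254001, .pol⟩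

def hL160_20_0_15 : pcchk ⟨(nat_lit 3), (nat_lit 1000), Int.ofNat (nat_lit 250), 0, ⟨0, 1⟩, ⟨Int.ofNat
 (nat_lit 20), 200⟩⟩ ⟨800000, 850000, 908191, 894532, 922059, 417256, 448290, 388374, 447213, 387298⟩ false
 (nat_lit 750) (Int.negSucc (nat_lit 29999)) (nat_lit 800) (Int.negSucc (nat_lit 29999)) qL160_20_0_15 =
 true := by decide +kernel

def qL160_20_0_16 : PCt := .one ⟨2008000, 251, 502000, 0, -602400, 0, 0, 100000, 800000, 850000⟩ ⟨0, .pol,
 .pol, .pol, .pol, .aff 20000000 77178365 4677477, .pol, .pol, .inf 4062020 246183, .pol⟩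

def hL160_20_0_16 : pcchk ⟨(nat_lit 3), (nat_lit 1000), Int.ofNat (nat_lit 250), 0, ⟨0, 1⟩, ⟨Int.ofNat
 (nat_lit 20), 200⟩⟩ ⟨800000, 850000, 908191, 894532, 922059, 417256, 448290, 388374, 447213, 387298⟩ false
 (nat_lit 800) (Int.negSucc (nat_lit 29999)) (nat_lit 850) (Int.negSucc (nat_lit 29999)) qL160_20_0_16 =
 true := by decide +kernel

def qL160_20_0_17 : PCt := .one ⟨2008000, 251, 502000, 0, -602400, 0, 0, 100000, 850000, 900000⟩ ⟨0, .pol,
 .pol, .pol, .pol, .aff 20000000 79482703 4541869, .pol, .pol, .inf 4183301 239046, .pol⟩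

def hL160_20_0_17 : pcchk ⟨(nat_lit 3), (nat_lit 1000), Int.ofNat (nat_lit 250), 0, ⟨0, 1⟩, ⟨Int.ofNat
 (nat_lit 20), 200⟩⟩ ⟨800000, 850000, 908191, 894532, 922059, 417256, 448290, 388374, 447213, 387298⟩ false
 (nat_lit 850) (Int.negSucc (nat_lit 29999)) (nat_lit 900) (Int.negSucc (nat_lit 29999)) qL160_20_0_17 =
 true := by decide +kernel

def qL160_20_0_18 : PCt := .one ⟨2008000, 251, 502000, 0, -602400, 0, 0, 100000, 900000, 950000⟩ ⟨0, .pol,
 .pol, .pol, .pol, .aff 12000000 38630731 3132222, .pol, .pol, .inf 4301163 232496, .pol⟩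

def hL160_20_0_18 : pcchk ⟨(nat_lit 3), (nat_lit 1000), Int.ofNat (nat_lit 250), 0, ⟨0, 1⟩, ⟨Int.ofNat
 (nat_lit 20), 200⟩⟩ ⟨800000, 850000, 908191, 894532, 922059, 417256, 448290, 388374, 447213, 387298⟩ false
 (nat_lit 900) (Int.negSucc (nat_lit 29999)) (nat_lit 950) (Int.negSucc (nat_lit 29999)) qL160_20_0_18 =
 true := by decide +kernel

def qL160_20_0_19 : PCt := .one ⟨2008000, 251, 502000, 0, -602400, 0, 0, 100000, 950000, 1000000⟩ ⟨0, .pol,
 .pol, .pol, .pol, .aff 12000000 48574685 2491010, .pol, .pol, .inf 4415881 226456, .pol⟩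

def hL160_20_0_19 : pcchk ⟨(nat_lit 3), (nat_lit 1000), Int.ofNat (nat_lit 250), 0, ⟨0, 1⟩, ⟨Int.ofNat
 (nat_lit 20), 200⟩⟩ ⟨800000, 850000, 908191, 894532, 922059, 417256, 448290, 388374, 447213, 387298⟩ false
 (nat_lit 950) (Int.negSucc (nat_lit 29999)) (nat_lit 1000) (Int.negSucc (nat_lit 29999)) qL160_20_0_19 =
 true := by decide +kernel

def qL160_20_1_0 : PCt := .one ⟨2008000, 251, 803200, 315256, 0, 0, 0, 100000, 0, 50000⟩ ⟨25000, .aff
 3162278 316228, .pol, .pol, .pol, .pol, .aff 0 3938815 253884, .pol, .pol, .pol⟩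

def hL160_20_1_0 : pcchk ⟨(nat_lit 3), (nat_lit 1000), Int.ofNat (nat_lit 400), 0, ⟨0, 1⟩, ⟨Int.ofNat
 (nat_lit 20), 200⟩⟩ ⟨800000, 850000, 908191, 894532, 922059, 417256, 448290, 388374, 447213, 387298⟩ true 0
 0 (nat_lit 50) (Int.ofNat (nat_lit 785)) qL160_20_1_0 = true := by decide +kernel

def qL160_20_1_1 : PCt := .one ⟨2008000, 251, 803200, 350596, -1768, 0, 0, 100000, 50000, 100000⟩ ⟨0, .pol,
 .pol, .pol, .pol, .sx 50000 (.sx 25000 (.aff 0 3900885 256353) (.aff 0 1414214 707107)) .pol, .pol, .pol,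
 .sx 50000 .pol .pol, .pol⟩

def hL160_20_1_1 : pcchk ⟨(nat_lit 3), (nat_lit 1000), Int.ofNat (nat_lit 400), 0, ⟨0, 1⟩, ⟨Int.ofNat
 (nat_lit 20), 200⟩⟩ ⟨800000, 850000, 908191, 894532, 922059, 417256, 448290, 388374, 447213, 387298⟩ false
 (nat_lit 50) (Int.ofNat (nat_lit 785)) (nat_lit 100) (Int.ofNat (nat_lit 1658)) qL160_20_1_1 = true := by
 decide +kernel

def qL160_20_1_2 : PCt := .one ⟨2008000, 251, 803200, 350596, -1768, 0, 0, 100000, 100000, 150000⟩ ⟨0, .pol,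
 .pol, .pol, .pol, .sx 50000 (.sy 125000 (.sx 25000 (.sx 12500 (.sx 6250 (.sy 112500 (.sy 106250 (.aff
 125000 4104114 186551) (.aff 150000 4105891 175967)) (.aff 175000 4152409 163911)) (.aff 175000 3130655
 217407)) (.aff 500000 1224745 204125)) (.aff 0 1732051 577351)) (.aff 250000 3710868 151582)) (.aff 0
 1290995 774597), .pol, .pol, .pol, .pol⟩

def hL160_20_1_2 : pcchk ⟨(nat_lit 3), (nat_lit 1000), Int.ofNat (nat_lit 400), 0, ⟨0, 1⟩, ⟨Int.ofNat
 (nat_lit 20), 200⟩⟩ ⟨800000, 850000, 908191, 894532, 922059, 417256, 448290, 388374, 447213, 387298⟩ false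
 (nat_lit 100) (Int.ofNat (nat_lit 1658)) (nat_lit 150) (Int.ofNat (nat_lit 2531)) qL160_20_1_2 = true := by
 decide +kernel

def qL160_20_1_3 : PCt := .one ⟨2008000, 251, 803200, 289955, 7329, 0, 0, 100000, 150000, 200000⟩ ⟨0, .pol,
 .pol, .pol, .pol, .sx 50000 (.sy 175000 (.sy 162500 (.aff 375000 4026352 97018) (.sx 25000 (.sy 168750 (.sx
 12500 (.aff 600000 4344260 36831) (.aff 1000000 0 0)) (.sy 171875 (.sy 170312 (.sx 12500 (.aff 500000
 4278719 58429) (.aff 1000000 0 0)) (.aff 550000 4290086 47202)) (.sx 12500 (.sx 6250 (.aff 625000 4366387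
 32207) (.aff 1000000 0 0)) (.aff 1000000 0 0)))) (.aff 1000000 0 0))) (.sx 25000 (.sx 12500 (.aff 750000
 4309742 14503) (.aff 1000000 0 0)) (.aff 1000000 0 0))) (.aff 1000000 0 0), .pol, .pol, .pol, .pol⟩

def hL160_20_1_3 : pcchk ⟨(nat_lit 3), (nat_lit 1000), Int.ofNat (nat_lit 400), 0, ⟨0, 1⟩, ⟨Int.ofNat
 (nat_lit 20), 200⟩⟩ ⟨800000, 850000, 908191, 894532, 922059, 417256, 448290, 388374, 447213, 387298⟩ false
 (nat_lit 150) (Int.ofNat (nat_lit 2531)) (nat_lit 200) (Int.ofNat (nat_lit 3253)) qL160_20_1_3 = true := by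
 decide +kernel

def qL160_20_1_4 : PCt := .one ⟨2008000, 251, 803200, 218872, 21545, 0, 0, 100000, 200000, 250000⟩ ⟨0, .pol,
 .pol, .pol, .pol, .sx 50000 (.sx 25000 (.aff 1325000 4796227 22023) (.aff 1000000 0 0)) (.aff 1000000 0 0),
 .pol, .pol, .pol, .pol⟩

def hL160_20_1_4 : pcchk ⟨(nat_lit 3), (nat_lit 1000), Int.ofNat (nat_lit 400), 0, ⟨0, 1⟩, ⟨Int.ofNat
 (nat_lit 20), 200⟩⟩ ⟨800000, 850000, 908191, 894532, 922059, 417256, 448290, 388374, 447213, 387298⟩ false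
 (nat_lit 200) (Int.ofNat (nat_lit 3253)) (nat_lit 250) (Int.ofNat (nat_lit 3798)) qL160_20_1_4 = true := by
 decide +kernel

def qL160_20_1_5 : PCt := .one ⟨2008000, 251, 803200, 163852, 35300, 0, 0, 100000, 250000, 300000⟩ ⟨0, .pol,
 .pol, .pol, .pol, .sx 50000 (.sx 25000 (.sy 275000 (.sx 12500 (.sx 6250 (.aff 1900000 5832667 138874) (.aff
 1900000 5216896 155265)) (.aff 1000000 0 0)) (.sx 12500 (.aff 2000000 5537750 180579) (.aff 1500000 2144762
 116564))) (.aff 1000000 0 0)) (.aff 1000000 0 0), .pol, .pol, .pol, .pol⟩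

def hL160_20_1_5 : pcchk ⟨(nat_lit 3), (nat_lit 1000), Int.ofNat (nat_lit 400), 0, ⟨0, 1⟩, ⟨Int.ofNat
 (nat_lit 20), 200⟩⟩ ⟨800000, 850000, 908191, 894532, 922059, 417256, 448290, 388374, 447213, 387298⟩ false
 (nat_lit 250) (Int.ofNat (nat_lit 3798)) (nat_lit 300) (Int.ofNat (nat_lit 4206)) qL160_20_1_5 = true := by
 decide +kernel

def qL160_20_1_6 : PCt := .one ⟨2008000, 251, 803200, 120078, 48432, 0, 0, 100000, 300000, 350000⟩ ⟨0, .pol,
 .pol, .pol, .pol, .sy 325000 (.sy 312500 (.sx 50000 (.sx 25000 (.aff 2131000 5598165 228497) (.aff 1000000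
 0 0)) (.aff 1000000 0 0)) (.sx 50000 (.sy 318750 (.sx 25000 (.sx 12500 (.aff 3000000 11604597 344691) (.aff
 2300000 5842774 289247)) (.aff 1000000 0 0)) (.sx 25000 (.sx 12500 (.aff 3000000 14352701 278694) (.sx
 18750 (.aff 3000000 8655004 462161) (.aff 2200000 4776868 301453))) (.aff 1000000 0 0))) (.aff 1000000 0
 0))) (.sy 337500 (.sx 50000 (.sx 25000 (.aff 2700000 6188094 467026) (.aff 1000000 0 0)) (.aff 1000000 0
 0)) (.sx 50000 (.sx 25000 (.aff 3000000 7416199 539360) (.aff 2400000 5671309 345600)) (.aff 1000000 0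
 0))), .pol, .pol, .pol, .pol⟩

def hL160_20_1_6 : pcchk ⟨(nat_lit 3), (nat_lit 1000), Int.ofNat (nat_lit 400), 0, ⟨0, 1⟩, ⟨Int.ofNat
 (nat_lit 20), 200⟩⟩ ⟨800000, 850000, 908191, 894532, 922059, 417256, 448290, 388374, 447213, 387298⟩ false
 (nat_lit 300) (Int.ofNat (nat_lit 4206)) (nat_lit 350) (Int.ofNat (nat_lit 4505)) qL160_20_1_6 = true := by
 decide +kernel

def qL160_20_1_7 : PCt := .one ⟨2008000, 251, 803200, 80721, 62207, 0, 0, 100000, 350000, 400000⟩ ⟨0, .pol,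
 .pol, .pol, .pol, .sx 50000 (.sx 25000 (.aff 3000000 8944272 447214) (.aff 3000000 6324556 632456)) (.aff
 1000000 0 0), .pol, .pol, .pol, .pol⟩

def hL160_20_1_7 : pcchk ⟨(nat_lit 3), (nat_lit 1000), Int.ofNat (nat_lit 400), 0, ⟨0, 1⟩, ⟨Int.ofNat
 (nat_lit 20), 200⟩⟩ ⟨800000, 850000, 908191, 894532, 922059, 417256, 448290, 388374, 447213, 387298⟩ false
 (nat_lit 350) (Int.ofNat (nat_lit 4505)) (nat_lit 400) (Int.ofNat (nat_lit 4706)) qL160_20_1_7 = true := by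
 decide +kernel

def qL160_20_1_8 : PCt := .one ⟨2008000, 251, 803200, 47790, 75380, 0, 0, 100000, 400000, 450000⟩ ⟨0, .pol,
 .pol, .pol, .pol, .sx 50000 (.aff 4000000 8746428 1028992) (.aff 3478000 6461834 950270), .pol, .pol, .pol,
 .pol⟩

def hL160_20_1_8 : pcchk ⟨(nat_lit 3), (nat_lit 1000), Int.ofNat (nat_lit 400), 0, ⟨0, 1⟩, ⟨Int.ofNat
 (nat_lit 20), 200⟩⟩ ⟨800000, 850000, 908191, 894532, 922059, 417256, 448290, 388374, 447213, 387298⟩ false
 (nat_lit 400) (Int.ofNat (nat_lit 4706)) (nat_lit 450) (Int.ofNat (nat_lit 4825)) qL160_20_1_8 = true := by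
 decide +kernel

def qL160_20_1_9 : PCt := .one ⟨2008000, 251, 803200, 30923, 82970, 0, 0, 100000, 450000, 500000⟩ ⟨0, .pol,
 .pol, .pol, .pol, .sx 50000 (.aff 5000000 14236105 1123903) (.sx 75000 (.aff 4300000 8304818 1311288) (.aff
 3600000 6286494 1075322)), .pol, .pol, .pol, .pol⟩

def hL160_20_1_9 : pcchk ⟨(nat_lit 3), (nat_lit 1000), Int.ofNat (nat_lit 400), 0, ⟨0, 1⟩, ⟨Int.ofNat
 (nat_lit 20), 200⟩⟩ ⟨800000, 850000, 908191, 894532, 922059, 417256, 448290, 388374, 447213, 387298⟩ false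
 (nat_lit 450) (Int.ofNat (nat_lit 4825)) (nat_lit 500) (Int.ofNat (nat_lit 4902)) qL160_20_1_9 = true := by
 decide +kernel

def qL160_20_1_10 : PCt := .one ⟨2008000, 251, 803200, -14001784, 7099324, 0, 0, 100000, 500000, 550000⟩ ⟨0,
 .pol, .pol, .pol, .pol, .sx 50000 (.aff 35000000 155807574 7419409) (.sx 75000 (.inf 2898276 345033) (.sy
 525000 (.sx 87500 (.inf 2511512 398167) (.sy 512500 (.sx 93750 (.inf 2363516 423099) (.sy 506250 (.sx 96875
 (.inf 2297540 435249) (.sy 503125 (.sx 98437 (.inf 2266278 441253) (.sy 501562 (.sx 99218 (.inf 2251050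
 444238) (.sy 500781 (.sx 99609 (.inf 2243530 445727) (.sy 500390 (.sx 99804 (.inf 2239794 446470) (.sy
 500195 (.sx 99902 (.inf 2237932 446842) (.sy 500097 (.sx 99951 (.aff 20000000 42502975 8493524) (.sy 500048
 (.aff 1500000 1118198 223575) (.sy 500072 (.aff 1500000 1118239 223566) (.sy 500084 (.aff 1500000 1118259
 223562) (.inf 2236545 447119))))) (.inf 2236943 447039))) (.inf 2237819 446864))) (.inf 2239568 446515)))
 (.inf 2243076 445817))) (.inf 2250112 444423))) (.inf 2264285 441641))) (.inf 2293047 436101))) (.inf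
 2352304 425116))) (.inf 2478479 403474))), .pol, .pol, .sy 525000 (.sy 512500 (.sy 506250 .pol (.inf
 2553430 391631)) (.inf 2576820 388076)) (.inf 2622976 381247), .pol⟩

def hL160_20_1_10 : pcchk ⟨(nat_lit 3), (nat_lit 1000), Int.ofNat (nat_lit 400), 0, ⟨0, 1⟩, ⟨Int.ofNat
 (nat_lit 20), 200⟩⟩ ⟨800000, 850000, 908191, 894532, 922059, 417256, 448290, 388374, 447213, 387298⟩ false
 (nat_lit 500) (Int.ofNat (nat_lit 4902)) (nat_lit 550) (Int.negSucc (nat_lit 29962)) qL160_20_1_10 = true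
 := by decide +kernel

def qL160_20_1_11 : PCt := .one ⟨2008000, 251, 803200, -14860, -593485, 0, 0, 100000, 550000, 600000⟩ ⟨0,
 .pol, .pol, .pol, .pol, .inf 3391165 294884, .pol, .pol, .inf 3391165 294884, .pol⟩

def hL160_20_1_11 : pcchk ⟨(nat_lit 3), (nat_lit 1000), Int.ofNat (nat_lit 400), 0, ⟨0, 1⟩, ⟨Int.ofNat
 (nat_lit 20), 200⟩⟩ ⟨800000, 850000, 908191, 894532, 922059, 417256, 448290, 388374, 447213, 387298⟩ false
 (nat_lit 550) (Int.negSucc (nat_lit 29962)) (nat_lit 600) (Int.negSucc (nat_lit 29999)) qL160_20_1_11 =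
 true := by decide +kernel

def qL160_20_1_12 : PCt := .one ⟨2008000, 251, 803200, 0, -602400, 0, 0, 100000, 600000, 650000⟩ ⟨0, .pol,
 .pol, .pol, .pol, .inf 3535534 282843, .pol, .pol, .inf 3535534 282843, .pol⟩

def hL160_20_1_12 : pcchk ⟨(nat_lit 3), (nat_lit 1000), Int.ofNat (nat_lit 400), 0, ⟨0, 1⟩, ⟨Int.ofNat
 (nat_lit 20), 200⟩⟩ ⟨800000, 850000, 908191, 894532, 922059, 417256, 448290, 388374, 447213, 387298⟩ false
 (nat_lit 600) (Int.negSucc (nat_lit 29999)) (nat_lit 650) (Int.negSucc (nat_lit 29999)) qL160_20_1_12 =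
 true := by decide +kernel

def qL160_20_1_13 : PCt := .one ⟨2008000, 251, 803200, 0, -602400, 0, 0, 100000, 650000, 700000⟩ ⟨0, .pol,
 .pol, .pol, .pol, .aff 35000000 102000001 11333334, .pol, .pol, .inf 3674235 272166, .pol⟩

def hL160_20_1_13 : pcchk ⟨(nat_lit 3), (nat_lit 1000), Int.ofNat (nat_lit 400), 0, ⟨0, 1⟩, ⟨Int.ofNat
 (nat_lit 20), 200⟩⟩ ⟨800000, 850000, 908191, 894532, 922059, 417256, 448290, 388374, 447213, 387298⟩ false
 (nat_lit 650) (Int.negSucc (nat_lit 29999)) (nat_lit 700) (Int.negSucc (nat_lit 29999)) qL160_20_1_13 =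
 true := by decide +kernel

def qL160_20_1_14 : PCt := .one ⟨2008000, 251, 803200, 0, -602400, 0, 0, 100000, 700000, 750000⟩ ⟨0, .pol,
 .pol, .pol, .pol, .aff 35000000 129468143 8928838, .pol, .pol, .inf 3807887 262613, .pol⟩

def hL160_20_1_14 : pcchk ⟨(nat_lit 3), (nat_lit 1000), Int.ofNat (nat_lit 400), 0, ⟨0, 1⟩, ⟨Int.ofNat
 (nat_lit 20), 200⟩⟩ ⟨800000, 850000, 908191, 894532, 922059, 417256, 448290, 388374, 447213, 387298⟩ false
 (nat_lit 700) (Int.negSucc (nat_lit 29999)) (nat_lit 750) (Int.negSucc (nat_lit 29999)) qL160_20_1_14 =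
 true := by decide +kernel

def qL160_20_1_15 : PCt := .one ⟨2008000, 251, 803200, 0, -602400, 0, 0, 100000, 750000, 800000⟩ ⟨0, .pol,
 .pol, .pol, .pol, .aff 20000000 61076455 5910625, .pol, .pol, .inf 3937004 254001, .pol⟩

def hL160_20_1_15 : pcchk ⟨(nat_lit 3), (nat_lit 1000), Int.ofNat (nat_lit 400), 0, ⟨0, 1⟩, ⟨Int.ofNat
 (nat_lit 20), 200⟩⟩ ⟨800000, 850000, 908191, 894532, 922059, 417256, 448290, 388374, 447213, 387298⟩ false
 (nat_lit 750) (Int.negSucc (nat_lit 29999)) (nat_lit 800) (Int.negSucc (nat_lit 29999)) qL160_20_1_15 =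
 true := by decide +kernel

def qL160_20_1_16 : PCt := .one ⟨2008000, 251, 803200, 0, -602400, 0, 0, 100000, 800000, 850000⟩ ⟨0, .pol,
 .pol, .pol, .pol, .aff 20000000 77178365 4677477, .pol, .pol, .inf 4062020 246183, .pol⟩

def hL160_20_1_16 : pcchk ⟨(nat_lit 3), (nat_lit 1000), Int.ofNat (nat_lit 400), 0, ⟨0, 1⟩, ⟨Int.ofNat
 (nat_lit 20), 200⟩⟩ ⟨800000, 850000, 908191, 894532, 922059, 417256, 448290, 388374, 447213, 387298⟩ false
 (nat_lit 800) (Int.negSucc (nat_lit 29999)) (nat_lit 850) (Int.negSucc (nat_lit 29999)) qL160_20_1_16 =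
 true := by decide +kernel

def qL160_20_1_17 : PCt := .one ⟨2008000, 251, 803200, 0, -602400, 0, 0, 100000, 850000, 900000⟩ ⟨0, .pol,
 .pol, .pol, .pol, .aff 20000000 79482703 4541869, .pol, .pol, .inf 4183301 239046, .pol⟩

def hL160_20_1_17 : pcchk ⟨(nat_lit 3), (nat_lit 1000), Int.ofNat (nat_lit 400), 0, ⟨0, 1⟩, ⟨Int.ofNat
 (nat_lit 20), 200⟩⟩ ⟨800000, 850000, 908191, 894532, 922059, 417256, 448290, 388374, 447213, 387298⟩ false
 (nat_lit 850) (Int.negSucc (nat_lit 29999)) (nat_lit 900) (Int.negSucc (nat_lit 29999)) qL160_20_1_17 =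
 true := by decide +kernel

def qL160_20_1_18 : PCt := .one ⟨2008000, 251, 803200, 0, -602400, 0, 0, 100000, 900000, 950000⟩ ⟨0, .pol,
 .pol, .pol, .pol, .aff 12000000 38630731 3132222, .pol, .pol, .inf 4301163 232496, .pol⟩

def hL160_20_1_18 : pcchk ⟨(nat_lit 3), (nat_lit 1000), Int.ofNat (nat_lit 400), 0, ⟨0, 1⟩, ⟨Int.ofNat
 (nat_lit 20), 200⟩⟩ ⟨800000, 850000, 908191, 894532, 922059, 417256, 448290, 388374, 447213, 387298⟩ false
 (nat_lit 900) (Int.negSucc (nat_lit 29999)) (nat_lit 950) (Int.negSucc (nat_lit 29999)) qL160_20_1_18 =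
 true := by decide +kernel

def qL160_20_1_19 : PCt := .one ⟨2008000, 251, 803200, 0, -602400, 0, 0, 100000, 950000, 1000000⟩ ⟨0, .pol,
 .pol, .pol, .pol, .aff 12000000 48574685 2491010, .pol, .pol, .inf 4415881 226456, .pol⟩

def hL160_20_1_19 : pcchk ⟨(nat_lit 3), (nat_lit 1000), Int.ofNat (nat_lit 400), 0, ⟨0, 1⟩, ⟨Int.ofNat
 (nat_lit 20), 200⟩⟩ ⟨800000, 850000, 908191, 894532, 922059, 417256, 448290, 388374, 447213, 387298⟩ false
 (nat_lit 950) (Int.negSucc (nat_lit 29999)) (nat_lit 1000) (Int.negSucc (nat_lit 29999)) qL160_20_1_19 =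
 true := by decide +kernel

def qL160_20_2_0 : PCt := .one ⟨2008000, 251, 2008000, 294774, 0, 0, 0, 100000, 0, 50000⟩ ⟨12500, .sp 250000
 (.aff 6324556 158114) .pol, .pol, .pol, .pol, .pol, .aff 0 14172346 70560, .pol, .pol, .pol⟩

def hL160_20_2_0 : pcchk ⟨(nat_lit 3), (nat_lit 1000), Int.ofNat (nat_lit 1000), 0, ⟨0, 1⟩, ⟨Int.ofNat
 (nat_lit 20), 200⟩⟩ ⟨800000, 850000, 908191, 894532, 922059, 417256, 448290, 388374, 447213, 387298⟩ true 0
 0 (nat_lit 50) (Int.ofNat (nat_lit 734)) qL160_20_2_0 = true := by decide +kernel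

def qL160_20_2_1 : PCt := .one ⟨2008000, 251, 2008000, 329312, -1727, 0, 0, 100000, 50000, 100000⟩ ⟨0, .pol,
 .pol, .pol, .pol, .sx 50000 (.aff 0 14095841 70943) .pol, .pol, .pol, .sx 50000 .pol .pol, .pol⟩

def hL160_20_2_1 : pcchk ⟨(nat_lit 3), (nat_lit 1000), Int.ofNat (nat_lit 1000), 0, ⟨0, 1⟩, ⟨Int.ofNat
 (nat_lit 20), 200⟩⟩ ⟨800000, 850000, 908191, 894532, 922059, 417256, 448290, 388374, 447213, 387298⟩ false
 (nat_lit 50) (Int.ofNat (nat_lit 734)) (nat_lit 100) (Int.ofNat (nat_lit 1554)) qL160_20_2_1 = true := by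
 decide +kernel

def qL160_20_2_2 : PCt := .one ⟨2008000, 251, 2008000, 358227, -4619, 0, 0, 100000, 100000, 150000⟩ ⟨0,
 .pol, .pol, .pol, .pol, .sy 125000 (.aff 0 13491215 74123) (.aff 100000 14111832 57399), .pol, .pol, .pol,
 .pol⟩

def hL160_20_2_2 : pcchk ⟨(nat_lit 3), (nat_lit 1000), Int.ofNat (nat_lit 1000), 0, ⟨0, 1⟩, ⟨Int.ofNat
 (nat_lit 20), 200⟩⟩ ⟨800000, 850000, 908191, 894532, 922059, 417256, 448290, 388374, 447213, 387298⟩ false
 (nat_lit 100) (Int.ofNat (nat_lit 1554)) (nat_lit 150) (Int.ofNat (nat_lit 2446)) qL160_20_2_2 = true := by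
 decide +kernel

def qL160_20_2_3 : PCt := .one ⟨2008000, 251, 2008000, 340556, -1968, 0, 0, 100000, 150000, 200000⟩ ⟨0,
 .pol, .pol, .pol, .pol, .sx 50000 (.aff 379000 14056775 27435) .pol, .pol, .pol, .pol, .pol⟩

def hL160_20_2_3 : pcchk ⟨(nat_lit 3), (nat_lit 1000), Int.ofNat (nat_lit 1000), 0, ⟨0, 1⟩, ⟨Int.ofNat
 (nat_lit 20), 200⟩⟩ ⟨800000, 850000, 908191, 894532, 922059, 417256, 448290, 388374, 447213, 387298⟩ false
 (nat_lit 150) (Int.ofNat (nat_lit 2446)) (nat_lit 200) (Int.ofNat (nat_lit 3294)) qL160_20_2_3 = true := by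
 decide +kernel

def qL160_20_2_4 : PCt := .one ⟨2008000, 251, 2008000, 143371, 37469, 0, 0, 100000, 200000, 250000⟩ ⟨0,
 .pol, .pol, .pol, .pol, .sx 50000 (.sx 25000 (.aff 1900000 14678722 55182) (.aff 0 2449490 408249)) .pol,
 .pol, .pol, .pol, .pol⟩

def hL160_20_2_4 : pcchk ⟨(nat_lit 3), (nat_lit 1000), Int.ofNat (nat_lit 1000), 0, ⟨0, 1⟩, ⟨Int.ofNat
 (nat_lit 20), 200⟩⟩ ⟨800000, 850000, 908191, 894532, 922059, 417256, 448290, 388374, 447213, 387298⟩ false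
 (nat_lit 200) (Int.ofNat (nat_lit 3294)) (nat_lit 250) (Int.ofNat (nat_lit 3651)) qL160_20_2_4 = true := by
 decide +kernel

def qL160_20_2_5 : PCt := .one ⟨2008000, 251, 2008000, -87148, 95098, 0, 0, 100000, 250000, 300000⟩ ⟨0,
 .pol, .pol, .pol, .pol, .sx 50000 (.sx 25000 (.sy 275000 (.sy 262500 (.aff 3000000 15641588 255729) (.aff
 3425000 15901789 369810)) (.sx 12500 (.sy 287500 (.sx 6250 (.aff 5000000 30983867 516398) (.sx 9375 (.aff
 4300000 18074845 602495) (.aff 3500000 13155871 475074))) (.aff 4800000 18421184 783881)) (.aff 3000000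
 8579045 466253))) (.aff 1000000 0 0)) (.aff 0 1914855 522233), .pol, .pol, .pol, .pol⟩

def hL160_20_2_5 : pcchk ⟨(nat_lit 3), (nat_lit 1000), Int.ofNat (nat_lit 1000), 0, ⟨0, 1⟩, ⟨Int.ofNat
 (nat_lit 20), 200⟩⟩ ⟨800000, 850000, 908191, 894532, 922059, 417256, 448290, 388374, 447213, 387298⟩ false
 (nat_lit 250) (Int.ofNat (nat_lit 3651)) (nat_lit 300) (Int.ofNat (nat_lit 3434)) qL160_20_2_5 = true := by
 decide +kernel

def qL160_20_2_6 : PCt := .one ⟨2008000, 251, 2008000, -234535, 139315, 0, 0, 100000, 300000, 350000⟩ ⟨0,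
 .pol, .pol, .pol, .pol, .sx 50000 (.sy 325000 (.sx 25000 (.aff 5292000 17965589 1025364) (.aff 1000000 0
 0)) (.sy 337500 (.sy 331250 (.sx 25000 (.aff 5200000 17569861 1003993) (.aff 1000000 0 0)) (.sx 25000 (.sx
 12500 (.aff 5000000 23888631 669775) (.sx 18750 (.aff 8000000 32382094 1513182) (.aff 5200000 17040586
 1035176))) (.aff 1000000 0 0))) (.sx 25000 (.aff 8000000 25956695 1887760) (.aff 5100000 16608833
 1012113)))) (.aff 1000000 0 0), .pol, .pol, .pol, .pol⟩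

def hL160_20_2_6 : pcchk ⟨(nat_lit 3), (nat_lit 1000), Int.ofNat (nat_lit 1000), 0, ⟨0, 1⟩, ⟨Int.ofNat
 (nat_lit 20), 200⟩⟩ ⟨800000, 850000, 908191, 894532, 922059, 417256, 448290, 388374, 447213, 387298⟩ false
 (nat_lit 300) (Int.ofNat (nat_lit 3434)) (nat_lit 350) (Int.ofNat (nat_lit 2850)) qL160_20_2_6 = true := by
 decide +kernel

def qL160_20_2_7 : PCt := .one ⟨2008000, 251, 2008000, -405616, 199193, 0, 0, 100000, 350000, 400000⟩ ⟨0,
 .pol, .pol, .pol, .pol, .sx 50000 (.sx 25000 (.aff 8000000 31304952 1565248) (.sy 375000 (.sx 37500 (.aff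
 7225000 19354312 2002171) (.sx 43750 (.aff 5000000 12185237 1313065) (.aff 1000000 0 0))) (.sx 37500 (.aff
 8000000 22501852 2177599) (.aff 7325000 19117913 2092573)))) (.aff 1000000 0 0), .pol, .pol, .pol, .pol⟩

def hL160_20_2_7 : pcchk ⟨(nat_lit 3), (nat_lit 1000), Int.ofNat (nat_lit 1000), 0, ⟨0, 1⟩, ⟨Int.ofNat
 (nat_lit 20), 200⟩⟩ ⟨800000, 850000, 908191, 894532, 922059, 417256, 448290, 388374, 447213, 387298⟩ false
 (nat_lit 350) (Int.ofNat (nat_lit 2850)) (nat_lit 400) (Int.ofNat (nat_lit 1840)) qL160_20_2_7 = true := by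
 decide +kernel

def qL160_20_2_8 : PCt := .one ⟨2008000, 251, 2008000, -518466, 244333, 0, 0, 100000, 400000, 450000⟩ ⟨0,
 .pol, .pol, .pol, .pol, .sx 50000 (.aff 8000000 20408332 2400981) (.sx 75000 (.sx 62500 (.sy 425000 (.aff
 7912000 19021185 2511713) (.aff 8200000 19544282 2652439)) (.sy 425000 (.aff 1000000 0 0) (.aff 8100000
 18332122 2749819))) (.aff 1000000 0 0)), .pol, .pol, .pol, .pol⟩

def hL160_20_2_8 : pcchk ⟨(nat_lit 3), (nat_lit 1000), Int.ofNat (nat_lit 1000), 0, ⟨0, 1⟩, ⟨Int.ofNat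
 (nat_lit 20), 200⟩⟩ ⟨800000, 850000, 908191, 894532, 922059, 417256, 448290, 388374, 447213, 387298⟩ false
 (nat_lit 400) (Int.ofNat (nat_lit 1840)) (nat_lit 450) (Int.ofNat (nat_lit 549)) qL160_20_2_8 = true := by
 decide +kernel

def qL160_20_2_9 : PCt := .one ⟨2008000, 251, 2008000, -665452, 310476, 0, 0, 100000, 450000, 500000⟩ ⟨0,
 .pol, .pol, .pol, .pol, .sx 50000 (.aff 8000000 21575450 2271100) (.sx 75000 (.aff 10900000 24914454
 3933862) (.sy 475000 (.aff 9300000 19802603 3478836) (.sx 87500 (.aff 10600000 22659719 4067129) (.sx 93750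
 (.aff 10300000 21207263 4078320) (.aff 9400000 18997291 3714214))))), .pol, .pol, .sx 50000 (.inf 4358899
 229416) .pol, .pol⟩

def hL160_20_2_9 : pcchk ⟨(nat_lit 3), (nat_lit 1000), Int.ofNat (nat_lit 1000), 0, ⟨0, 1⟩, ⟨Int.ofNat
 (nat_lit 20), 200⟩⟩ ⟨800000, 850000, 908191, 894532, 922059, 417256, 448290, 388374, 447213, 387298⟩ false
 (nat_lit 450) (Int.ofNat (nat_lit 549)) (nat_lit 500) (Int.negSucc (nat_lit 1107)) qL160_20_2_9 = true :=
 by decide +kernel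

def qL160_20_2_10 : PCt := .one ⟨2008000, 251, 2008000, -11599413, 5777457, 0, 0, 100000, 500000, 550000⟩
 ⟨0, .pol, .pol, .pol, .pol, .sx 50000 (.aff 35000000 155807574 7419409) (.sx 75000 (.inf 2898276 345033)
 (.sx 87500 (.inf 2541956 393398) (.sy 525000 (.sy 512500 (.sx 93750 (.inf 2363516 423099) (.sy 506250 (.sx
 96875 (.inf 2297540 435249) (.sy 503125 (.sx 98437 (.inf 2266278 441253) (.sy 501562 (.sx 99218 (.inf
 2251050 444238) (.sy 500781 (.sx 99609 (.inf 2243530 445727) (.sy 500390 (.sx 99804 (.inf 2239794 446470)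
 (.sy 500195 (.sx 99902 (.inf 2237932 446842) (.sy 500097 (.sx 99951 (.aff 20000000 42502975 8493524) (.sy
 500048 (.aff 1500000 1118198 223575) (.sx 99975 (.aff 20000000 42496235 8494871) (.sy 500072 (.aff 1500000
 1118171 223580) (.sy 500084 (.aff 1500000 1118192 223576) (.inf 2236411 447146)))))) (.inf 2236943
 447039))) (.inf 2237819 446864))) (.inf 2239568 446515))) (.inf 2243076 445817))) (.inf 2250112 444423)))
 (.inf 2264285 441641))) (.inf 2293047 436101))) (.inf 2352304 425116)) (.inf 2394438 417635)))), .pol,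
 .pol, .sy 525000 (.sy 512500 (.sx 50000 (.inf 4500000 222223) (.sy 506250 (.sx 75000 (.inf 2837253 352454)
 .pol) (.inf 2084867 479647))) (.inf 2576820 388076)) (.inf 2622976 381247), .pol⟩

def hL160_20_2_10 : pcchk ⟨(nat_lit 3), (nat_lit 1000), Int.ofNat (nat_lit 1000), 0, ⟨0, 1⟩, ⟨Int.ofNat
 (nat_lit 20), 200⟩⟩ ⟨800000, 850000, 908191, 894532, 922059, 417256, 448290, 388374, 447213, 387298⟩ false
 (nat_lit 500) (Int.negSucc (nat_lit 1107)) (nat_lit 550) (Int.negSucc (nat_lit 29990)) qL160_20_2_10 = true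
 := by decide +kernel

def qL160_20_2_11 : PCt := .one ⟨2008000, 251, 2008000, -3615, -600232, 0, 0, 100000, 550000, 600000⟩ ⟨0,
 .pol, .pol, .pol, .pol, .inf 3391165 294884, .pol, .pol, .inf 3391165 294884, .pol⟩

def hL160_20_2_11 : pcchk ⟨(nat_lit 3), (nat_lit 1000), Int.ofNat (nat_lit 1000), 0, ⟨0, 1⟩, ⟨Int.ofNat
 (nat_lit 20), 200⟩⟩ ⟨800000, 850000, 908191, 894532, 922059, 417256, 448290, 388374, 447213, 387298⟩ false
 (nat_lit 550) (Int.negSucc (nat_lit 29990)) (nat_lit 600) (Int.negSucc (nat_lit 29999)) qL160_20_2_11 =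
 true := by decide +kernel

def qL160_20_2_12 : PCt := .one ⟨2008000, 251, 2008000, 0, -602400, 0, 0, 100000, 600000, 650000⟩ ⟨0, .pol,
 .pol, .pol, .pol, .inf 3535534 282843, .pol, .pol, .inf 3535534 282843, .pol⟩

def hL160_20_2_12 : pcchk ⟨(nat_lit 3), (nat_lit 1000), Int.ofNat (nat_lit 1000), 0, ⟨0, 1⟩, ⟨Int.ofNat
 (nat_lit 20), 200⟩⟩ ⟨800000, 850000, 908191, 894532, 922059, 417256, 448290, 388374, 447213, 387298⟩ false
 (nat_lit 600) (Int.negSucc (nat_lit 29999)) (nat_lit 650) (Int.negSucc (nat_lit 29999)) qL160_20_2_12 =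
 true := by decide +kernel

def qL160_20_2_13 : PCt := .one ⟨2008000, 251, 2008000, 0, -602400, 0, 0, 100000, 650000, 700000⟩ ⟨0, .pol,
 .pol, .pol, .pol, .aff 35000000 102000001 11333334, .pol, .pol, .inf 3674235 272166, .pol⟩

def hL160_20_2_13 : pcchk ⟨(nat_lit 3), (nat_lit 1000), Int.ofNat (nat_lit 1000), 0, ⟨0, 1⟩, ⟨Int.ofNat
 (nat_lit 20), 200⟩⟩ ⟨800000, 850000, 908191, 894532, 922059, 417256, 448290, 388374, 447213, 387298⟩ false
 (nat_lit 650) (Int.negSucc (nat_lit 29999)) (nat_lit 700) (Int.negSucc (nat_lit 29999)) qL160_20_2_13 =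
 true := by decide +kernel

def qL160_20_2_14 : PCt := .one ⟨2008000, 251, 2008000, 0, -602400, 0, 0, 100000, 700000, 750000⟩ ⟨0, .pol,
 .pol, .pol, .pol, .aff 20000000 59073401 6111042, .pol, .pol, .inf 3807887 262613, .pol⟩

def hL160_20_2_14 : pcchk ⟨(nat_lit 3), (nat_lit 1000), Int.ofNat (nat_lit 1000), 0, ⟨0, 1⟩, ⟨Int.ofNat
 (nat_lit 20), 200⟩⟩ ⟨800000, 850000, 908191, 894532, 922059, 417256, 448290, 388374, 447213, 387298⟩ false
 (nat_lit 700) (Int.negSucc (nat_lit 29999)) (nat_lit 750) (Int.negSucc (nat_lit 29999)) qL160_20_2_14 =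
 true := by decide +kernel

def qL160_20_2_15 : PCt := .one ⟨2008000, 251, 2008000, 0, -602400, 0, 0, 100000, 750000, 800000⟩ ⟨0, .pol,
 .pol, .pol, .pol, .aff 20000000 74803075 4826005, .pol, .pol, .inf 3937004 254001, .pol⟩

def hL160_20_2_15 : pcchk ⟨(nat_lit 3), (nat_lit 1000), Int.ofNat (nat_lit 1000), 0, ⟨0, 1⟩, ⟨Int.ofNat
 (nat_lit 20), 200⟩⟩ ⟨800000, 850000, 908191, 894532, 922059, 417256, 448290, 388374, 447213, 387298⟩ false
 (nat_lit 750) (Int.negSucc (nat_lit 29999)) (nat_lit 800) (Int.negSucc (nat_lit 29999)) qL160_20_2_15 =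
 true := by decide +kernel

def qL160_20_2_16 : PCt := .one ⟨2008000, 251, 2008000, 0, -602400, 0, 0, 100000, 800000, 850000⟩ ⟨0, .pol,
 .pol, .pol, .pol, .aff 20000000 77178365 4677477, .pol, .pol, .inf 4062020 246183, .pol⟩

def hL160_20_2_16 : pcchk ⟨(nat_lit 3), (nat_lit 1000), Int.ofNat (nat_lit 1000), 0, ⟨0, 1⟩, ⟨Int.ofNat
 (nat_lit 20), 200⟩⟩ ⟨800000, 850000, 908191, 894532, 922059, 417256, 448290, 388374, 447213, 387298⟩ false
 (nat_lit 800) (Int.negSucc (nat_lit 29999)) (nat_lit 850) (Int.negSucc (nat_lit 29999)) qL160_20_2_16 =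
 true := by decide +kernel

def qL160_20_2_17 : PCt := .one ⟨2008000, 251, 2008000, 0, -602400, 0, 0, 100000, 850000, 900000⟩ ⟨0, .pol,
 .pol, .pol, .pol, .aff 12000000 37572153 3220471, .pol, .pol, .inf 4183301 239046, .pol⟩

def hL160_20_2_17 : pcchk ⟨(nat_lit 3), (nat_lit 1000), Int.ofNat (nat_lit 1000), 0, ⟨0, 1⟩, ⟨Int.ofNat
 (nat_lit 20), 200⟩⟩ ⟨800000, 850000, 908191, 894532, 922059, 417256, 448290, 388374, 447213, 387298⟩ false
 (nat_lit 850) (Int.negSucc (nat_lit 29999)) (nat_lit 900) (Int.negSucc (nat_lit 29999)) qL160_20_2_17 =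
 true := by decide +kernel

def qL160_20_2_18 : PCt := .one ⟨2008000, 251, 2008000, 0, -602400, 0, 0, 100000, 900000, 950000⟩ ⟨0, .pol,
 .pol, .pol, .pol, .aff 12000000 47312789 2557449, .pol, .pol, .inf 4301163 232496, .pol⟩

def hL160_20_2_18 : pcchk ⟨(nat_lit 3), (nat_lit 1000), Int.ofNat (nat_lit 1000), 0, ⟨0, 1⟩, ⟨Int.ofNat
 (nat_lit 20), 200⟩⟩ ⟨800000, 850000, 908191, 894532, 922059, 417256, 448290, 388374, 447213, 387298⟩ false
 (nat_lit 900) (Int.negSucc (nat_lit 29999)) (nat_lit 950) (Int.negSucc (nat_lit 29999)) qL160_20_2_18 =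
 true := by decide +kernel

def qL160_20_2_19 : PCt := .one ⟨2008000, 251, 2008000, 0, -602400, 0, 0, 100000, 950000, 1000000⟩ ⟨0, .pol,
 .pol, .pol, .pol, .aff 12000000 48574685 2491010, .pol, .pol, .inf 4415881 226456, .pol⟩

def hL160_20_2_19 : pcchk ⟨(nat_lit 3), (nat_lit 1000), Int.ofNat (nat_lit 1000), 0, ⟨0, 1⟩, ⟨Int.ofNat
 (nat_lit 20), 200⟩⟩ ⟨800000, 850000, 908191, 894532, 922059, 417256, 448290, 388374, 447213, 387298⟩ false
 (nat_lit 950) (Int.negSucc (nat_lit 29999)) (nat_lit 1000) (Int.negSucc (nat_lit 29999)) qL160_20_2_19 =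
 true := by decide +kernel

def qL160_20_3_0 : PCt := .one ⟨2008000, 251, 351400, 3447736, 0, 0, 0, 100000, 0, 50000⟩ ⟨50000, .pol, .sp
 500000 (.sp 250000 (.sp 125000 (.aff 111804 8944224) .pol) .pol) .pol, .pol, .pol, .aff 0 65178 15342601,
 .pol, .pol, .pol, .pol⟩

def hL160_20_3_0 : pcchk ⟨(nat_lit 1), (nat_lit 1000), Int.ofNat (nat_lit 175), 0, ⟨0, 1⟩, ⟨Int.ofNat
 (nat_lit 20), 200⟩⟩ ⟨800000, 850000, 908191, 894532, 922059, 417256, 448290, 388374, 447213, 387298⟩ true 0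
 0 (nat_lit 50) (Int.ofNat (nat_lit 8585)) qL160_20_3_0 = true := by decide +kernel

def qL160_20_3_1 : PCt := .one ⟨2008000, 251, 351400, -2831280, 313950, 0, 0, 100000, 50000, 100000⟩ ⟨0,
 .pol, .pol, .pol, .pol, .sx 50000 (.aff 625000 831147 169194) (.aff 1000000 0 0), .pol, .pol, .sx 50000
 .pol .pol, .pol⟩

def hL160_20_3_1 : pcchk ⟨(nat_lit 1), (nat_lit 1000), Int.ofNat (nat_lit 175), 0, ⟨0, 1⟩, ⟨Int.ofNat
 (nat_lit 20), 200⟩⟩ ⟨800000, 850000, 908191, 894532, 922059, 417256, 448290, 388374, 447213, 387298⟩ false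
 (nat_lit 50) (Int.ofNat (nat_lit 8585)) (nat_lit 100) (Int.ofNat (nat_lit 1535)) qL160_20_3_1 = true := by
 decide +kernel

def qL160_20_3_2 : PCt := .one ⟨2008000, 251, 351400, 4417, 30381, 0, 0, 100000, 100000, 150000⟩ ⟨0, .pol,
 .pol, .pol, .pol, .sx 50000 (.sy 125000 (.sy 112500 (.sx 25000 (.aff 625000 915277 153643) (.aff 1000000 0
 0)) (.sx 25000 (.sx 12500 (.aff 675000 1001718 105444) (.aff 700000 827043 108822)) (.aff 1000000 0 0)))
 (.sx 25000 (.sx 12500 (.aff 729000 1060388 69259) (.aff 1000000 0 0)) (.aff 1000000 0 0))) (.aff 1000000 0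
 0), .pol, .pol, .pol, .pol⟩

def hL160_20_3_2 : pcchk ⟨(nat_lit 1), (nat_lit 1000), Int.ofNat (nat_lit 175), 0, ⟨0, 1⟩, ⟨Int.ofNat
 (nat_lit 20), 200⟩⟩ ⟨800000, 850000, 908191, 894532, 922059, 417256, 448290, 388374, 447213, 387298⟩ false
 (nat_lit 100) (Int.ofNat (nat_lit 1535)) (nat_lit 150) (Int.ofNat (nat_lit 1546)) qL160_20_3_2 = true := by
 decide +kernel

def qL160_20_3_3 : PCt := .one ⟨2008000, 251, 351400, -51405, 38754, 0, 0, 100000, 150000, 200000⟩ ⟨0, .pol,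
 .pol, .pol, .pol, .sx 50000 (.sx 25000 (.sy 175000 (.aff 875000 1161378 13454) (.sx 12500 (.sx 6250 (.aff
 925000 957821 5873) (.aff 1000000 0 0)) (.aff 1000000 0 0))) (.aff 1000000 0 0)) (.aff 1000000 0 0), .pol,
 .pol, .pol, .pol⟩

def hL160_20_3_3 : pcchk ⟨(nat_lit 1), (nat_lit 1000), Int.ofNat (nat_lit 175), 0, ⟨0, 1⟩, ⟨Int.ofNat
 (nat_lit 20), 200⟩⟩ ⟨800000, 850000, 908191, 894532, 922059, 417256, 448290, 388374, 447213, 387298⟩ false
 (nat_lit 150) (Int.ofNat (nat_lit 1546)) (nat_lit 200) (Int.ofNat (nat_lit 1418)) qL160_20_3_3 = true := by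
 decide +kernel

def qL160_20_3_4 : PCt := .one ⟨2008000, 251, 351400, -94376, 47348, 0, 0, 100000, 200000, 250000⟩ ⟨0, .pol,
 .pol, .pol, .pol, .sx 50000 (.sx 25000 (.sx 12500 (.aff 1100000 1335325 7489) (.aff 1000000 0 0)) (.aff
 1000000 0 0)) (.aff 1000000 0 0), .pol, .pol, .pol, .pol⟩

def hL160_20_3_4 : pcchk ⟨(nat_lit 1), (nat_lit 1000), Int.ofNat (nat_lit 175), 0, ⟨0, 1⟩, ⟨Int.ofNat
 (nat_lit 20), 200⟩⟩ ⟨800000, 850000, 908191, 894532, 922059, 417256, 448290, 388374, 447213, 387298⟩ false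
 (nat_lit 200) (Int.ofNat (nat_lit 1418)) (nat_lit 250) (Int.ofNat (nat_lit 1183)) qL160_20_3_4 = true := by
 decide +kernel

def qL160_20_3_5 : PCt := .one ⟨2008000, 251, 351400, -140560, 58894, 0, 0, 100000, 250000, 300000⟩ ⟨0,
 .pol, .pol, .pol, .pol, .sx 50000 (.sy 275000 (.sx 25000 (.aff 1263000 1704435 40582) (.aff 1000000 0 0))
 (.sy 287500 (.sx 25000 (.sx 12500 (.aff 1257000 1702593 38794) (.aff 1000000 0 0)) (.aff 1000000 0 0))
 (.aff 1363000 1759708 74882))) (.aff 1000000 0 0), .pol, .pol, .pol, .pol⟩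

def hL160_20_3_5 : pcchk ⟨(nat_lit 1), (nat_lit 1000), Int.ofNat (nat_lit 175), 0, ⟨0, 1⟩, ⟨Int.ofNat
 (nat_lit 20), 200⟩⟩ ⟨800000, 850000, 908191, 894532, 922059, 417256, 448290, 388374, 447213, 387298⟩ false
 (nat_lit 250) (Int.ofNat (nat_lit 1183)) (nat_lit 300) (Int.ofNat (nat_lit 833)) qL160_20_3_5 = true := by
 decide +kernel

def qL160_20_3_6 : PCt := .one ⟨2008000, 251, 351400, -169074, 67448, 0, 0, 100000, 300000, 350000⟩ ⟨0,
 .pol, .pol, .pol, .pol, .sy 325000 (.sy 312500 (.sx 50000 (.sx 25000 (.aff 1475000 1919690 117532) (.aff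
 1000000 0 0)) (.aff 1000000 0 0)) (.sx 50000 (.sx 25000 (.aff 1500000 2061553 121268) (.aff 1000000 0 0))
 (.aff 1000000 0 0))) (.sx 50000 (.aff 1537000 1973064 146153) (.aff 1000000 0 0)), .pol, .pol, .pol, .pol⟩

def hL160_20_3_6 : pcchk ⟨(nat_lit 1), (nat_lit 1000), Int.ofNat (nat_lit 175), 0, ⟨0, 1⟩, ⟨Int.ofNat
 (nat_lit 20), 200⟩⟩ ⟨800000, 850000, 908191, 894532, 922059, 417256, 448290, 388374, 447213, 387298⟩ false
 (nat_lit 300) (Int.ofNat (nat_lit 833)) (nat_lit 350) (Int.ofNat (nat_lit 412)) qL160_20_3_6 = true := by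
 decide +kernel

def qL160_20_3_7 : PCt := .one ⟨2008000, 251, 351400, -219676, 85159, 0, 0, 100000, 350000, 400000⟩ ⟨0,
 .pol, .pol, .pol, .pol, .sy 375000 (.sy 362500 (.sx 50000 (.aff 1525000 1981832 139076) (.aff 1000000 0 0))
 (.sy 368750 (.sy 365625 (.sx 50000 (.aff 1513000 1957652 134431) (.aff 1000000 0 0)) (.sy 367187 (.sx 50000
 (.sx 25000 (.aff 2000000 5414101 184703) (.aff 1600000 2054507 175225)) (.aff 1000000 0 0)) (.sy 367968
 (.sx 50000 (.sx 25000 (.aff 2000000 5422749 184409) (.aff 1600000 2057789 174946)) (.aff 1000000 0 0)) (.sx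
 50000 (.sx 25000 (.aff 2000000 5428510 184213) (.aff 1600000 2059975 174760)) (.aff 1000000 0 0))))) (.sy
 371875 (.sy 370312 (.sy 369531 (.sy 369140 (.sx 50000 (.sx 25000 (.aff 2000000 5432827 184067) (.aff
 1600000 2061613 174621)) (.aff 1000000 0 0)) (.sy 369335 (.sx 50000 (.sx 25000 (.aff 2000000 5434980
 183994) (.aff 1600000 2062430 174552)) (.aff 1000000 0 0)) (.sy 369433 (.sx 50000 (.sx 25000 (.aff 2000000
 5436058 183957) (.aff 1600000 2062839 174517)) (.aff 1000000 0 0)) (.sy 369482 (.sx 50000 (.sx 25000 (.aff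
 2000000 5436599 183939) (.aff 1600000 2063044 174500)) (.aff 1000000 0 0)) (.sy 369506 (.sx 50000 (.sx
 25000 (.aff 2000000 5436867 183930) (.aff 1600000 2063146 174491)) (.aff 1000000 0 0)) (.sx 50000 (.sx
 25000 (.aff 2000000 5437047 183924) (.aff 1600000 2063215 174485)) (.aff 1000000 0 0))))))) (.sy 369921
 (.sy 369726 (.sy 369628 (.sy 369579 (.sy 369555 (.sy 369543 (.sx 50000 (.sx 25000 (.aff 2000000 5437184
 183919) (.aff 1600000 2063266 174481)) (.aff 1000000 0 0)) (.sy 369549 (.sx 50000 (.sx 25000 (.aff 2000000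
 5437250 183917) (.aff 1600000 2063292 174479)) (.aff 1000000 0 0)) (.sx 50000 (.sx 25000 (.aff 2000000
 5437294 183916) (.aff 1600000 2063308 174478)) (.aff 1000000 0 0)))) (.sy 369567 (.sy 369561 (.sy 369558
 (.sx 50000 (.sx 25000 (.aff 2000000 5437327 183914) (.aff 1600000 2063321 174477)) (.aff 1000000 0 0)) (.sy
 369559 (.sx 50000 (.sx 25000 (.aff 2000000 5437342 183914) (.aff 1600000 2063326 174476)) (.aff 1000000 0
 0)) (.sy 369560 (.sx 50000 (.sx 25000 (.aff 2000000 5437349 183914) (.aff 1600000 2063329 174476)) (.aff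
 1000000 0 0)) (.sx 50000 (.sx 25000 (.aff 2000000 5437356 183913) (.aff 1600000 2063332 174476)) (.aff
 1000000 0 0))))) (.sy 369564 (.sy 369562 (.sx 50000 (.sx 25000 (.aff 2000000 5437364 183913) (.aff 1600000
 2063335 174475)) (.aff 1000000 0 0)) (.sx 50000 (.sx 25000 (.aff 2000000 5437375 183913) (.aff 1600000
 2063339 174475)) (.aff 1000000 0 0))) (.sx 50000 (.sx 25000 (.aff 2000000 5437393 183912) (.aff 1600000
 2063346 174474)) (.aff 1000000 0 0)))) (.sy 369573 (.sx 50000 (.sx 25000 (.aff 2000000 5437426 183911)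
 (.aff 1600000 2063359 174473)) (.aff 1000000 0 0)) (.sx 50000 (.sx 25000 (.aff 2000000 5437470 183910)
 (.aff 1600000 2063375 174472)) (.aff 1000000 0 0))))) (.sy 369603 (.sx 50000 (.sx 25000 (.aff 2000000
 5437581 183906) (.aff 1600000 2063417 174468)) (.aff 1000000 0 0)) (.sx 50000 (.sx 25000 (.aff 2000000
 5437761 183900) (.aff 1600000 2063486 174463)) (.aff 1000000 0 0)))) (.sx 50000 (.sx 25000 (.aff 2000000
 5438213 183884) (.aff 1600000 2063657 174448)) (.aff 1000000 0 0))) (.sx 50000 (.sx 25000 (.aff 2000000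
 5439291 183848) (.aff 1600000 2064066 174414)) (.aff 1000000 0 0))) (.sx 50000 (.sx 25000 (.aff 2000000
 5441445 183775) (.aff 1600000 2064884 174344)) (.aff 1000000 0 0)))) (.sy 371093 (.sy 370702 (.sy 370507
 (.sx 50000 (.sx 25000 (.aff 2000000 5443599 183702) (.aff 1600000 2065701 174275)) (.aff 1000000 0 0)) (.sx
 50000 (.sx 25000 (.aff 2000000 5445031 183654) (.aff 1600000 2066244 174230)) (.aff 1000000 0 0))) (.sy
 370897 (.sy 370799 (.sy 370750 (.sx 50000 (.sx 25000 (.aff 2000000 5445924 183624) (.aff 1600000 2066583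
 174201)) (.aff 1000000 0 0)) (.sx 50000 (.sx 25000 (.aff 2000000 5446280 183612) (.aff 1600000 2066718
 174190)) (.aff 1000000 0 0))) (.sy 370848 (.sy 370823 (.sy 370811 (.sx 50000 (.sx 25000 (.aff 2000000
 5446504 183605) (.aff 1600000 2066803 174183)) (.aff 1000000 0 0)) (.sx 50000 (.sx 25000 (.aff 2000000
 5446592 183602) (.aff 1600000 2066837 174180)) (.aff 1000000 0 0))) (.sy 370835 (.sy 370829 (.sx 50000 (.sx
 25000 (.aff 2000000 5446658 183599) (.aff 1600000 2066862 174178)) (.aff 1000000 0 0)) (.sy 370832 (.sx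
 50000 (.sx 25000 (.aff 2000000 5446691 183598) (.aff 1600000 2066874 174177)) (.aff 1000000 0 0)) (.sx
 50000 (.sx 25000 (.aff 2000000 5446713 183597) (.aff 1600000 2066883 174176)) (.aff 1000000 0 0)))) (.sy
 370841 (.sy 370838 (.sy 370836 (.sx 50000 (.sx 25000 (.aff 2000000 5446728 183597) (.aff 1600000 2066888
 174175)) (.aff 1000000 0 0)) (.sy 370837 (.sx 50000 (.sx 25000 (.aff 2000000 5446735 183597) (.aff 1600000
 2066891 174175)) (.aff 1000000 0 0)) (.sx 50000 (.sx 25000 (.aff 2000000 5446743 183596) (.aff 1600000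
 2066894 174175)) (.aff 1000000 0 0)))) (.sy 370839 (.sx 50000 (.sx 25000 (.aff 2000000 5446750 183596)
 (.aff 1600000 2066897 174175)) (.aff 1000000 0 0)) (.sy 370840 (.sx 50000 (.sx 25000 (.aff 2000000 5446757
 183596) (.aff 1600000 2066899 174174)) (.aff 1000000 0 0)) (.sx 50000 (.sx 25000 (.aff 2000000 5446765
 183596) (.aff 1600000 2066902 174174)) (.aff 1000000 0 0))))) (.sy 370844 (.sx 50000 (.sx 25000 (.aff
 2000000 5446779 183595) (.aff 1600000 2066908 174174)) (.aff 1000000 0 0)) (.sx 50000 (.sx 25000 (.aff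
 2000000 5446805 183594) (.aff 1600000 2066918 174173)) (.aff 1000000 0 0)))))) (.sy 370872 (.sy 370860 (.sx
 50000 (.sx 25000 (.aff 2000000 5446864 183592) (.aff 1600000 2066940 174171)) (.aff 1000000 0 0)) (.sx
 50000 (.sx 25000 (.aff 2000000 5446952 183589) (.aff 1600000 2066973 174168)) (.aff 1000000 0 0))) (.sx
 50000 (.sx 25000 (.aff 2000000 5447088 183585) (.aff 1600000 2067025 174164)) (.aff 1000000 0 0))))) (.sy
 370995 (.sy 370946 (.sx 50000 (.sx 25000 (.aff 2000000 5447359 183576) (.aff 1600000 2067128 174155)) (.aff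
 1000000 0 0)) (.sx 50000 (.sx 25000 (.aff 2000000 5447719 183564) (.aff 1600000 2067264 174144)) (.aff
 1000000 0 0))) (.sx 50000 (.sx 25000 (.aff 2000000 5448259 183545) (.aff 1600000 2067469 174126)) (.aff
 1000000 0 0))))) (.sx 50000 (.sx 25000 (.aff 2000000 5451488 183437) (.aff 1600000 2068695 174023)) (.aff
 1000000 0 0)))) (.sy 373437 (.sx 50000 (.sx 25000 (.aff 2000000 5460081 183148) (.aff 1600000 2071955
 173749)) (.aff 1000000 0 0)) (.sy 374218 (.sy 373827 (.sx 50000 (.sx 25000 (.aff 2000000 5467226 182909)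
 (.aff 1600000 2074667 173522)) (.aff 1000000 0 0)) (.sx 50000 (.sx 25000 (.aff 2000000 5470083 182813)
 (.aff 1600000 2075751 173432)) (.aff 1000000 0 0))) (.sy 374609 (.sy 374413 (.sx 50000 (.sx 25000 (.aff
 2000000 5472225 182742) (.aff 1600000 2076564 173364)) (.aff 1000000 0 0)) (.sy 374511 (.sx 50000 (.sx
 25000 (.aff 2000000 5473296 182706) (.aff 1600000 2076970 173330)) (.aff 1000000 0 0)) (.sx 50000 (.sx
 25000 (.aff 2000000 5474012 182682) (.aff 1600000 2077242 173307)) (.aff 1000000 0 0)))) (.sy 374804 (.sy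
 374706 (.sy 374657 (.sx 50000 (.sx 25000 (.aff 2000000 5474545 182664) (.aff 1600000 2077444 173290)) (.aff
 1000000 0 0)) (.sy 374681 (.sx 50000 (.sx 25000 (.aff 2000000 5474808 182655) (.aff 1600000 2077544
 173282)) (.aff 1000000 0 0)) (.sy 374693 (.sx 50000 (.sx 25000 (.aff 2000000 5474940 182651) (.aff 1600000
 2077594 173278)) (.aff 1000000 0 0)) (.sx 50000 (.sx 25000 (.aff 2000000 5475031 182648) (.aff 1600000
 2077629 173275)) (.aff 1000000 0 0))))) (.sy 374755 (.sy 374730 (.sy 374718 (.sy 374712 (.sx 50000 (.sx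
 25000 (.aff 2000000 5475100 182646) (.aff 1600000 2077655 173273)) (.aff 1000000 0 0)) (.sy 374715 (.sx
 50000 (.sx 25000 (.aff 2000000 5475133 182644) (.aff 1600000 2077667 173272)) (.aff 1000000 0 0)) (.sy
 374716 (.sx 50000 (.sx 25000 (.aff 2000000 5475148 182644) (.aff 1600000 2077673 173271)) (.aff 1000000 0
 0)) (.sy 374717 (.sx 50000 (.sx 25000 (.aff 2000000 5475155 182644) (.aff 1600000 2077676 173271)) (.aff
 1000000 0 0)) (.sx 50000 (.sx 25000 (.aff 2000000 5475163 182643) (.aff 1600000 2077678 173271)) (.aff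
 1000000 0 0)))))) (.sy 374724 (.sy 374721 (.sy 374719 (.sx 50000 (.sx 25000 (.aff 2000000 5475170 182643)
 (.aff 1600000 2077681 173271)) (.aff 1000000 0 0)) (.sy 374720 (.sx 50000 (.sx 25000 (.aff 2000000 5475177
 182643) (.aff 1600000 2077684 173270)) (.aff 1000000 0 0)) (.sx 50000 (.sx 25000 (.aff 2000000 5475185
 182643) (.aff 1600000 2077687 173270)) (.aff 1000000 0 0)))) (.sx 50000 (.sx 25000 (.aff 2000000 5475199
 182642) (.aff 1600000 2077692 173270)) (.aff 1000000 0 0))) (.sx 50000 (.sx 25000 (.aff 2000000 5475232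
 182641) (.aff 1600000 2077705 173269)) (.aff 1000000 0 0)))) (.sy 374742 (.sx 50000 (.sx 25000 (.aff
 2000000 5475298 182639) (.aff 1600000 2077730 173267)) (.aff 1000000 0 0)) (.sx 50000 (.sx 25000 (.aff
 2000000 5475389 182636) (.aff 1600000 2077764 173264)) (.aff 1000000 0 0)))) (.sx 50000 (.sx 25000 (.aff
 2000000 5475616 182628) (.aff 1600000 2077850 173257)) (.aff 1000000 0 0)))) (.sy 374902 (.sx 50000 (.sx
 25000 (.aff 2000000 5476152 182610) (.aff 1600000 2078054 173240)) (.aff 1000000 0 0)) (.sx 50000 (.sx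
 25000 (.aff 2000000 5476868 182587) (.aff 1600000 2078326 173217)) (.aff 1000000 0 0)))))))))) (.sy 387500
 (.sy 381250 (.sy 378125 (.sy 376562 (.sx 50000 (.sx 25000 (.aff 2000000 5482927 182385) (.aff 1600000
 2080625 173025)) (.aff 1000000 0 0)) (.sy 377343 (.sx 50000 (.sx 25000 (.aff 2000000 5491467 182101) (.aff
 1600000 2083865 172756)) (.aff 1000000 0 0)) (.sx 50000 (.sx 25000 (.aff 2000000 5497156 181913) (.aff
 1600000 2086024 172578)) (.aff 1000000 0 0)))) (.sy 379687 (.sy 378906 (.sy 378515 (.sy 378320 (.sx 50000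
 (.sx 25000 (.aff 2000000 5500710 181795) (.aff 1600000 2087373 172466)) (.aff 1000000 0 0)) (.sx 50000 (.sx
 25000 (.aff 2000000 5502127 181748) (.aff 1600000 2087911 172422)) (.aff 1000000 0 0))) (.sy 378710 (.sy
 378612 (.sy 378563 (.sx 50000 (.sx 25000 (.aff 2000000 5503011 181719) (.aff 1600000 2088246 172394)) (.aff
 1000000 0 0)) (.sx 50000 (.sx 25000 (.aff 2000000 5503363 181708) (.aff 1600000 2088380 172383)) (.aff
 1000000 0 0))) (.sy 378661 (.sy 378636 (.sx 50000 (.sx 25000 (.aff 2000000 5503628 181699) (.aff 1600000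
 2088480 172375)) (.aff 1000000 0 0)) (.sy 378648 (.sx 50000 (.sx 25000 (.aff 2000000 5503759 181695) (.aff
 1600000 2088530 172371)) (.aff 1000000 0 0)) (.sx 50000 (.sx 25000 (.aff 2000000 5503850 181691) (.aff
 1600000 2088565 172368)) (.aff 1000000 0 0)))) (.sy 378685 (.sy 378673 (.sy 378667 (.sx 50000 (.sx 25000
 (.aff 2000000 5503919 181689) (.aff 1600000 2088591 172366)) (.aff 1000000 0 0)) (.sy 378670 (.sx 50000
 (.sx 25000 (.aff 2000000 5503952 181688) (.aff 1600000 2088603 172365)) (.aff 1000000 0 0)) (.sy 378671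
 (.sx 50000 (.sx 25000 (.aff 2000000 5503966 181688) (.aff 1600000 2088609 172364)) (.aff 1000000 0 0)) (.sx
 50000 (.sx 25000 (.aff 2000000 5503977 181687) (.aff 1600000 2088613 172364)) (.aff 1000000 0 0))))) (.sy
 378679 (.sy 378676 (.sy 378674 (.sx 50000 (.sx 25000 (.aff 2000000 5503988 181687) (.aff 1600000 2088617
 172363)) (.aff 1000000 0 0)) (.sy 378675 (.sx 50000 (.sx 25000 (.aff 2000000 5503995 181687) (.aff 1600000
 2088620 172363)) (.aff 1000000 0 0)) (.sx 50000 (.sx 25000 (.aff 2000000 5504003 181686) (.aff 1600000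
 2088622 172363)) (.aff 1000000 0 0)))) (.sx 50000 (.sx 25000 (.aff 2000000 5504017 181686) (.aff 1600000
 2088628 172362)) (.aff 1000000 0 0))) (.sx 50000 (.sx 25000 (.aff 2000000 5504050 181685) (.aff 1600000
 2088640 172361)) (.aff 1000000 0 0)))) (.sy 378697 (.sx 50000 (.sx 25000 (.aff 2000000 5504115 181683)
 (.aff 1600000 2088665 172359)) (.aff 1000000 0 0)) (.sx 50000 (.sx 25000 (.aff 2000000 5504206 181680)
 (.aff 1600000 2088700 172357)) (.aff 1000000 0 0)))))) (.sy 378808 (.sy 378759 (.sx 50000 (.sx 25000 (.aff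
 2000000 5504431 181672) (.aff 1600000 2088785 172349)) (.aff 1000000 0 0)) (.sx 50000 (.sx 25000 (.aff
 2000000 5504788 181661) (.aff 1600000 2088920 172338)) (.aff 1000000 0 0))) (.sx 50000 (.sx 25000 (.aff
 2000000 5505322 181643) (.aff 1600000 2089123 172322)) (.aff 1000000 0 0))))) (.sx 50000 (.sx 25000 (.aff
 2000000 5508514 181538) (.aff 1600000 2090334 172222)) (.aff 1000000 0 0))) (.sx 50000 (.sx 25000 (.aff
 2000000 5517018 181258) (.aff 1600000 2093561 171956)) (.aff 1000000 0 0)))) (.sx 50000 (.aff 1850000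
 2356740 306568) (.aff 1000000 0 0))) (.sx 50000 (.aff 1900000 2525619 320714) (.aff 1000000 0 0))), .pol,
 .pol, .pol, .pol⟩

def hL160_20_3_7 : pcchk ⟨(nat_lit 1), (nat_lit 1000), Int.ofNat (nat_lit 175), 0, ⟨0, 1⟩, ⟨Int.ofNat
 (nat_lit 20), 200⟩⟩ ⟨800000, 850000, 908191, 894532, 922059, 417256, 448290, 388374, 447213, 387298⟩ false
 (nat_lit 350) (Int.ofNat (nat_lit 412)) (nat_lit 400) (Int.negSucc (nat_lit 134)) qL160_20_3_7 = true := by
 decide +kernel

def qL160_20_3_8 : PCt := .one ⟨2008000, 251, 351400, -262245, 102187, 0, 0, 100000, 400000, 450000⟩ ⟨0,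
 .pol, .pol, .pol, .pol, .sy 425000 (.sx 50000 (.aff 2000000 2872282 348156) (.sx 75000 (.aff 1900000
 2317570 349505) (.aff 1000000 0 0))) (.sx 50000 (.aff 2000000 3415651 292770) (.sx 75000 (.aff 1989000
 2418708 404399) (.aff 1000000 0 0))), .pol, .pol, .pol, .pol⟩

def hL160_20_3_8 : pcchk ⟨(nat_lit 1), (nat_lit 1000), Int.ofNat (nat_lit 175), 0, ⟨0, 1⟩, ⟨Int.ofNat
 (nat_lit 20), 200⟩⟩ ⟨800000, 850000, 908191, 894532, 922059, 417256, 448290, 388374, 447213, 387298⟩ false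
 (nat_lit 400) (Int.negSucc (nat_lit 134)) (nat_lit 450) (Int.negSucc (nat_lit 787)) qL160_20_3_8 = true :=
 by decide +kernel

def qL160_20_3_9 : PCt := .one ⟨2008000, 251, 351400, -289956, 114656, 0, 0, 100000, 450000, 500000⟩ ⟨0,
 .pol, .pol, .pol, .pol, .sx 50000 (.aff 2000000 3559027 280976) (.aff 1935000 2353032 371532), .pol, .pol,
 .pol, .pol⟩

def hL160_20_3_9 : pcchk ⟨(nat_lit 1), (nat_lit 1000), Int.ofNat (nat_lit 175), 0, ⟨0, 1⟩, ⟨Int.ofNat
 (nat_lit 20), 200⟩⟩ ⟨800000, 850000, 908191, 894532, 922059, 417256, 448290, 388374, 447213, 387298⟩ false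
 (nat_lit 450) (Int.negSucc (nat_lit 787)) (nat_lit 500) (Int.negSucc (nat_lit 1509)) qL160_20_3_9 = true :=
 by decide +kernel

def qL160_20_3_10 : PCt := .one ⟨2008000, 251, 351400, -11432749, 5686053, 0, 0, 100000, 500000, 550000⟩ ⟨0,
 .pol, .pol, .pol, .pol, .sx 50000 (.aff 12000000 50408333 2400397) (.sx 75000 (.aff 20000000 55067232
 6555623) (.sx 87500 (.aff 35000000 86426492 13375529) (.sx 93750 (.aff 35100000 82074836 14167680) (.sx
 96875 (.inf 2346955 426085) (.sx 98437 (.inf 2318624 431291) (.sy 525000 (.sx 99218 (.inf 2277236 439129)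
 (.sx 99609 (.inf 2270515 440429) (.sy 512500 (.sx 99804 (.inf 2253310 443792) (.sx 99902 (.inf 2251656
 444118) (.sx 99951 (.sy 506250 (.sy 503125 (.inf 2240383 446353) (.inf 2247352 444969)) (.inf 2257764
 442917)) (.sy 506250 (.sy 503125 (.sy 501562 (.sx 99975 (.sy 500781 (.sx 99963 (.sy 500390 (.sy 500195
 (.aff 35000000 76050076 15200511) (.inf 2237203 446987)) (.inf 2237859 446856)) (.sy 500390 (.sy 500195
 (.aff 35700000 77612319 15514161) (.inf 2237069 447014)) (.inf 2237724 446883))) (.inf 2239101 446608))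
 (.sy 500781 (.sx 99987 (.sy 500390 (.sx 99981 (.sy 500195 (.sy 500097 (.aff 12000000 24600647 4918570)
 (.inf 2236641 447100)) (.inf 2236969 447034)) (.sy 500195 (.sy 500097 (.aff 12000000 24599909 4918718)
 (.inf 2236574 447113)) (.inf 2236901 447048))) (.inf 2237590 446910)) (.sy 500390 (.sx 99993 (.sy 500195
 (.sy 500097 (.aff 20000000 42489477 8496222) (.inf 2236507 447126)) (.inf 2236834 447061)) (.sy 500195 (.sy
 500097 (.aff 35000000 76031329 15204259) (.inf 2236434 447141)) (.inf 2236762 447075))) (.inf 2237450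
 446938))) (.inf 2238826 446663))) (.inf 2241577 446115)) (.inf 2246801 445078)) (.inf 2257211 443025)))))
 (.inf 2279839 438628)))) (.aff 35000000 79135587 14607841))))))), .pol, .sx 50000 (.aff 35000000 155807574
 7419409) (.sx 75000 (.aff 35000000 98541362 11731115) (.sx 87500 (.inf 2541956 393398) (.sy 525000 (.sy
 512500 .pol (.inf 2352304 425116)) (.inf 2394438 417635)))), .sy 525000 (.sy 512500 .pol (.inf 2576820
 388076)) (.inf 2622976 381247), .pol⟩

def hL160_20_3_10 : pcchk ⟨(nat_lit 1), (nat_lit 1000), Int.ofNat (nat_lit 175), 0, ⟨0, 1⟩, ⟨Int.ofNat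
 (nat_lit 20), 200⟩⟩ ⟨800000, 850000, 908191, 894532, 922059, 417256, 448290, 388374, 447213, 387298⟩ false
 (nat_lit 500) (Int.negSucc (nat_lit 1509)) (nat_lit 550) (Int.negSucc (nat_lit 29977)) qL160_20_3_10 = true
 := by decide +kernel

def qL160_20_3_11 : PCt := .one ⟨2008000, 251, 351400, -8836, -597099, 0, 0, 100000, 550000, 600000⟩ ⟨0,
 .pol, .pol, .pol, .pol, .aff 12000000 26377074 4587318, .pol, .inf 3391165 294884, .inf 3391165 294884,
 .pol⟩

def hL160_20_3_11 : pcchk ⟨(nat_lit 1), (nat_lit 1000), Int.ofNat (nat_lit 175), 0, ⟨0, 1⟩, ⟨Int.ofNat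
 (nat_lit 20), 200⟩⟩ ⟨800000, 850000, 908191, 894532, 922059, 417256, 448290, 388374, 447213, 387298⟩ false
 (nat_lit 550) (Int.negSucc (nat_lit 29977)) (nat_lit 600) (Int.negSucc (nat_lit 29999)) qL160_20_3_11 =
 true := by decide +kernel

def qL160_20_3_12 : PCt := .one ⟨2008000, 251, 351400, 0, -602400, 0, 0, 100000, 600000, 650000⟩ ⟨0, .pol,
 .pol, .pol, .pol, .aff 5000000 11547006 1385641, .pol, .aff 35000000 85000000 13600000, .inf 3535534
 282843, .pol⟩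

def hL160_20_3_12 : pcchk ⟨(nat_lit 1), (nat_lit 1000), Int.ofNat (nat_lit 175), 0, ⟨0, 1⟩, ⟨Int.ofNat
 (nat_lit 20), 200⟩⟩ ⟨800000, 850000, 908191, 894532, 922059, 417256, 448290, 388374, 447213, 387298⟩ false
 (nat_lit 600) (Int.negSucc (nat_lit 29999)) (nat_lit 650) (Int.negSucc (nat_lit 29999)) qL160_20_3_12 =
 true := by decide +kernel

def qL160_20_3_13 : PCt := .one ⟨2008000, 251, 351400, 0, -602400, 0, 0, 100000, 650000, 700000⟩ ⟨0, .pol,
 .pol, .pol, .pol, .aff 2000000 3000001 333334, .pol, .aff 35000000 124923977 9253628, .inf 3674235 272166,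
 .pol⟩

def hL160_20_3_13 : pcchk ⟨(nat_lit 1), (nat_lit 1000), Int.ofNat (nat_lit 175), 0, ⟨0, 1⟩, ⟨Int.ofNat
 (nat_lit 20), 200⟩⟩ ⟨800000, 850000, 908191, 894532, 922059, 417256, 448290, 388374, 447213, 387298⟩ false
 (nat_lit 650) (Int.negSucc (nat_lit 29999)) (nat_lit 700) (Int.negSucc (nat_lit 29999)) qL160_20_3_13 =
 true := by decide +kernel

def qL160_20_3_14 : PCt := .one ⟨2008000, 251, 351400, 0, -602400, 0, 0, 100000, 700000, 750000⟩ ⟨0, .pol,
 .pol, .pol, .pol, .aff 1500000 1903944 131307, .pol, .aff 20000000 59073401 6111042, .inf 3807887 262613,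
 .pol⟩

def hL160_20_3_14 : pcchk ⟨(nat_lit 1), (nat_lit 1000), Int.ofNat (nat_lit 175), 0, ⟨0, 1⟩, ⟨Int.ofNat
 (nat_lit 20), 200⟩⟩ ⟨800000, 850000, 908191, 894532, 922059, 417256, 448290, 388374, 447213, 387298⟩ false
 (nat_lit 700) (Int.negSucc (nat_lit 29999)) (nat_lit 750) (Int.negSucc (nat_lit 29999)) qL160_20_3_14 =
 true := by decide +kernel

def qL160_20_3_15 : PCt := .one ⟨2008000, 251, 351400, 0, -602400, 0, 0, 100000, 750000, 800000⟩ ⟨0, .pol,
 .pol, .pol, .pol, .aff 1500000 1968502 127001, .pol, .aff 20000000 74803075 4826005, .inf 3937004 254001,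
 .pol⟩

def hL160_20_3_15 : pcchk ⟨(nat_lit 1), (nat_lit 1000), Int.ofNat (nat_lit 175), 0, ⟨0, 1⟩, ⟨Int.ofNat
 (nat_lit 20), 200⟩⟩ ⟨800000, 850000, 908191, 894532, 922059, 417256, 448290, 388374, 447213, 387298⟩ false
 (nat_lit 750) (Int.negSucc (nat_lit 29999)) (nat_lit 800) (Int.negSucc (nat_lit 29999)) qL160_20_3_15 =
 true := by decide +kernel

def qL160_20_3_16 : PCt := .one ⟨2008000, 251, 351400, 0, -602400, 0, 0, 100000, 800000, 850000⟩ ⟨0, .pol,
 .pol, .pol, .pol, .aff 1000000 0 0, .pol, .aff 12000000 31595095 3829709, .inf 4062020 246183, .pol⟩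

def hL160_20_3_16 : pcchk ⟨(nat_lit 1), (nat_lit 1000), Int.ofNat (nat_lit 175), 0, ⟨0, 1⟩, ⟨Int.ofNat
 (nat_lit 20), 200⟩⟩ ⟨800000, 850000, 908191, 894532, 922059, 417256, 448290, 388374, 447213, 387298⟩ false
 (nat_lit 800) (Int.negSucc (nat_lit 29999)) (nat_lit 850) (Int.negSucc (nat_lit 29999)) qL160_20_3_16 =
 true := by decide +kernel

def qL160_20_3_17 : PCt := .one ⟨2008000, 251, 351400, 0, -602400, 0, 0, 100000, 850000, 900000⟩ ⟨0, .pol,
 .pol, .pol, .pol, .aff 1000000 0 0, .pol, .aff 12000000 46016302 2629503, .inf 4183301 239046, .pol⟩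

def hL160_20_3_17 : pcchk ⟨(nat_lit 1), (nat_lit 1000), Int.ofNat (nat_lit 175), 0, ⟨0, 1⟩, ⟨Int.ofNat
 (nat_lit 20), 200⟩⟩ ⟨800000, 850000, 908191, 894532, 922059, 417256, 448290, 388374, 447213, 387298⟩ false
 (nat_lit 850) (Int.negSucc (nat_lit 29999)) (nat_lit 900) (Int.negSucc (nat_lit 29999)) qL160_20_3_17 =
 true := by decide +kernel

def qL160_20_3_18 : PCt := .one ⟨2008000, 251, 351400, 0, -602400, 0, 0, 100000, 900000, 950000⟩ ⟨0, .pol,
 .pol, .pol, .pol, .aff 1000000 0 0, .pol, .aff 12000000 47312789 2557449, .inf 4301163 232496, .pol⟩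

def hL160_20_3_18 : pcchk ⟨(nat_lit 1), (nat_lit 1000), Int.ofNat (nat_lit 175), 0, ⟨0, 1⟩, ⟨Int.ofNat
 (nat_lit 20), 200⟩⟩ ⟨800000, 850000, 908191, 894532, 922059, 417256, 448290, 388374, 447213, 387298⟩ false
 (nat_lit 900) (Int.negSucc (nat_lit 29999)) (nat_lit 950) (Int.negSucc (nat_lit 29999)) qL160_20_3_18 =
 true := by decide +kernel

def qL160_20_3_19 : PCt := .one ⟨2008000, 251, 351400, 0, -602400, 0, 0, 100000, 950000, 1000000⟩ ⟨0, .pol,
 .pol, .pol, .pol, .aff 1000000 0 0, .pol, .aff 12000000 48574685 2491010, .inf 4415881 226456, .pol⟩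

def hL160_20_3_19 : pcchk ⟨(nat_lit 1), (nat_lit 1000), Int.ofNat (nat_lit 175), 0, ⟨0, 1⟩, ⟨Int.ofNat
 (nat_lit 20), 200⟩⟩ ⟨800000, 850000, 908191, 894532, 922059, 417256, 448290, 388374, 447213, 387298⟩ false
 (nat_lit 950) (Int.negSucc (nat_lit 29999)) (nat_lit 1000) (Int.negSucc (nat_lit 29999)) qL160_20_3_19 =
 true := by decide +kernel

def qL160_20_4_0 : PCt := .one ⟨2008000, 251, 502000, 373889, 0, 0, 0, 100000, 0, 50000⟩ ⟨50000, .aff
 1154701 866026, .sp 500000 .pol (.aff 866026 1154700), .pol, .pol, .sy 25000 .pol (.aff 50000 706193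
 1277980), .aff 0 1154701 866026, .pol, .pol, .pol⟩

def hL160_20_4_0 : pcchk ⟨(nat_lit 1), (nat_lit 1000), Int.ofNat (nat_lit 250), 0, ⟨0, 1⟩, ⟨Int.ofNat
 (nat_lit 20), 200⟩⟩ ⟨800000, 850000, 908191, 894532, 922059, 417256, 448290, 388374, 447213, 387298⟩ true 0
 0 (nat_lit 50) (Int.ofNat (nat_lit 931)) qL160_20_4_0 = true := by decide +kernel

def qL160_20_4_1 : PCt := .one ⟨2008000, 251, 502000, 204012, 8493, 0, 0, 100000, 50000, 100000⟩ ⟨0, .pol,
 .pol, .pol, .pol, .sy 75000 (.sy 62500 (.sx 50000 (.aff 156000 1033685 689123) (.aff 250000 711513 790569))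
 (.sx 50000 (.sy 68750 (.sy 65625 (.sx 25000 (.aff 0 1848423 541002) (.sx 37500 (.aff 125000 1252810 611127)
 (.aff 200000 1004605 637067))) (.sx 25000 (.aff 0 1892970 528271) (.sx 37500 (.aff 125000 1283002 596745)
 (.aff 219000 1029808 592306)))) (.sx 25000 (.aff 0 1695583 589768) (.sx 37500 (.aff 220000 1086366 560033)
 (.aff 232000 1034385 570218)))) (.aff 1000000 0 0))) (.sy 87500 (.sx 50000 (.sx 25000 (.aff 250000 1352082
 416026) (.sx 37500 (.aff 250000 1103971 509525) (.aff 1000000 0 0))) (.aff 1000000 0 0)) (.sx 50000 (.aff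
 350000 1258720 335659) (.aff 1000000 0 0))), .pol, .pol, .sx 50000 .pol .pol, .pol⟩

def hL160_20_4_1 : pcchk ⟨(nat_lit 1), (nat_lit 1000), Int.ofNat (nat_lit 250), 0, ⟨0, 1⟩, ⟨Int.ofNat
 (nat_lit 20), 200⟩⟩ ⟨800000, 850000, 908191, 894532, 922059, 417256, 448290, 388374, 447213, 387298⟩ false
 (nat_lit 50) (Int.ofNat (nat_lit 931)) (nat_lit 100) (Int.ofNat (nat_lit 1439)) qL160_20_4_1 = true := by
 decide +kernel

def qL160_20_4_2 : PCt := .one ⟨2008000, 251, 502000, 30923, 25802, 0, 0, 100000, 100000, 150000⟩ ⟨0, .pol,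
 .pol, .pol, .pol, .sy 125000 (.sx 50000 (.aff 600000 1465684 109165) (.aff 1000000 0 0)) (.sx 50000 (.aff
 625000 1519101 92572) (.aff 1000000 0 0)), .pol, .pol, .pol, .pol⟩

def hL160_20_4_2 : pcchk ⟨(nat_lit 1), (nat_lit 1000), Int.ofNat (nat_lit 250), 0, ⟨0, 1⟩, ⟨Int.ofNat
 (nat_lit 20), 200⟩⟩ ⟨800000, 850000, 908191, 894532, 922059, 417256, 448290, 388374, 447213, 387298⟩ false
 (nat_lit 100) (Int.ofNat (nat_lit 1439)) (nat_lit 150) (Int.ofNat (nat_lit 1516)) qL160_20_4_2 = true := by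
 decide +kernel

def qL160_20_4_3 : PCt := .one ⟨2008000, 251, 502000, -33735, 35501, 0, 0, 100000, 150000, 200000⟩ ⟨0, .pol,
 .pol, .pol, .pol, .sx 50000 (.sy 175000 (.sy 162500 (.aff 775000 1601931 31603) (.sx 25000 (.sy 168750
 (.aff 800000 1697463 23565) (.aff 825000 1757907 17422)) (.aff 1000000 0 0))) (.sx 25000 (.sx 12500 (.aff
 875000 1764259 8857) (.aff 1000000 0 0)) (.aff 1000000 0 0))) (.aff 1000000 0 0), .pol, .pol, .pol, .pol⟩

def hL160_20_4_3 : pcchk ⟨(nat_lit 1), (nat_lit 1000), Int.ofNat (nat_lit 250), 0, ⟨0, 1⟩, ⟨Int.ofNat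
 (nat_lit 20), 200⟩⟩ ⟨800000, 850000, 908191, 894532, 922059, 417256, 448290, 388374, 447213, 387298⟩ false
 (nat_lit 150) (Int.ofNat (nat_lit 1516)) (nat_lit 200) (Int.ofNat (nat_lit 1432)) qL160_20_4_3 = true := by
 decide +kernel

def qL160_20_4_4 : PCt := .one ⟨2008000, 251, 502000, -110842, 50922, 0, 0, 100000, 200000, 250000⟩ ⟨0,
 .pol, .pol, .pol, .pol, .sx 50000 (.sx 25000 (.sx 12500 (.aff 1150000 1898783 11850) (.aff 1000000 0 0))
 (.aff 1000000 0 0)) (.aff 1000000 0 0), .pol, .pol, .pol, .pol⟩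

def hL160_20_4_4 : pcchk ⟨(nat_lit 1), (nat_lit 1000), Int.ofNat (nat_lit 250), 0, ⟨0, 1⟩, ⟨Int.ofNat
 (nat_lit 20), 200⟩⟩ ⟨800000, 850000, 908191, 894532, 922059, 417256, 448290, 388374, 447213, 387298⟩ false
 (nat_lit 200) (Int.ofNat (nat_lit 1432)) (nat_lit 250) (Int.ofNat (nat_lit 1156)) qL160_20_4_4 = true := by
 decide +kernel

def qL160_20_4_5 : PCt := .one ⟨2008000, 251, 502000, -158231, 62770, 0, 0, 100000, 250000, 300000⟩ ⟨0,
 .pol, .pol, .pol, .pol, .sy 275000 (.sx 50000 (.sx 25000 (.aff 1350000 2268260 54007) (.aff 1000000 0 0))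
 (.aff 1000000 0 0)) (.sy 287500 (.sy 281250 (.sy 278125 (.sx 50000 (.sx 25000 (.sx 12500 (.aff 1500000
 2715696 92058) (.aff 1000000 0 0)) (.aff 1000000 0 0)) (.aff 1000000 0 0)) (.sx 50000 (.aff 1534000 2525939
 112892) (.aff 1000000 0 0))) (.sx 50000 (.aff 1525000 2504091 110070) (.aff 1000000 0 0))) (.sx 50000 (.aff
 1500000 2423840 103143) (.aff 1000000 0 0))), .pol, .pol, .pol, .pol⟩

def hL160_20_4_5 : pcchk ⟨(nat_lit 1), (nat_lit 1000), Int.ofNat (nat_lit 250), 0, ⟨0, 1⟩, ⟨Int.ofNat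
 (nat_lit 20), 200⟩⟩ ⟨800000, 850000, 908191, 894532, 922059, 417256, 448290, 388374, 447213, 387298⟩ false
 (nat_lit 250) (Int.ofNat (nat_lit 1156)) (nat_lit 300) (Int.ofNat (nat_lit 762)) qL160_20_4_5 = true := by
 decide +kernel

def qL160_20_4_6 : PCt := .one ⟨2008000, 251, 502000, -225298, 82890, 0, 0, 100000, 300000, 350000⟩ ⟨0,
 .pol, .pol, .pol, .pol, .sy 325000 (.sy 312500 (.aff 1575000 2458074 134506) (.sy 318750 (.sy 315625 (.aff
 1575000 2489229 132823) (.aff 1572000 2488531 131477)) (.sx 50000 (.sy 321875 (.sx 25000 (.aff 1500000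
 2531058 98773) (.aff 1000000 0 0)) (.sy 323437 (.sx 25000 (.aff 1494000 2509816 97233) (.aff 1000000 0 0))
 (.sy 324218 (.sy 323827 (.sy 323632 (.sy 323534 (.sx 25000 (.sx 12500 (.aff 1500000 2543563 98288) (.aff
 1600000 2730038 131867)) (.aff 1000000 0 0)) (.sy 323583 (.sx 25000 (.sx 12500 (.aff 1500000 2543850 98277)
 (.aff 1600000 2730346 131852)) (.aff 1000000 0 0)) (.sy 323607 (.sx 25000 (.sx 12500 (.aff 1500000 2543993
 98271) (.aff 1600000 2730500 131844)) (.aff 1000000 0 0)) (.sy 323619 (.sx 25000 (.sx 12500 (.aff 1500000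
 2544064 98268) (.aff 1600000 2730576 131841)) (.aff 1000000 0 0)) (.sy 323625 (.sx 25000 (.sx 12500 (.aff
 1500000 2544100 98267) (.aff 1600000 2730614 131839)) (.aff 1000000 0 0)) (.sy 323628 (.sx 25000 (.sx 12500
 (.aff 1500000 2544117 98266) (.aff 1600000 2730633 131838)) (.aff 1000000 0 0)) (.sy 323630 (.sy 323629
 (.sx 25000 (.sx 12500 (.aff 1500000 2544125 98266) (.aff 1600000 2730642 131838)) (.aff 1000000 0 0)) (.sx
 25000 (.sx 12500 (.aff 1500000 2544129 98266) (.aff 1600000 2730646 131837)) (.aff 1000000 0 0))) (.sy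
 323631 (.sx 25000 (.sx 12500 (.aff 1500000 2544133 98266) (.aff 1600000 2730650 131837)) (.aff 1000000 0
 0)) (.sx 25000 (.sx 12500 (.aff 1500000 2544137 98266) (.aff 1600000 2730654 131837)) (.aff 1000000 0
 0)))))))))) (.sy 323729 (.sy 323680 (.sy 323656 (.sy 323644 (.sy 323638 (.sy 323635 (.sy 323633 (.sx 25000
 (.sx 12500 (.aff 1500000 2544141 98265) (.aff 1600000 2730658 131837)) (.aff 1000000 0 0)) (.sx 25000 (.sx
 12500 (.aff 1500000 2544147 98265) (.aff 1600000 2730665 131837)) (.aff 1000000 0 0))) (.sx 25000 (.sx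
 12500 (.aff 1500000 2544157 98265) (.aff 1600000 2730675 131836)) (.aff 1000000 0 0))) (.sx 25000 (.sx
 12500 (.aff 1500000 2544174 98264) (.aff 1600000 2730694 131835)) (.aff 1000000 0 0))) (.sx 25000 (.sx
 12500 (.aff 1500000 2544210 98263) (.aff 1600000 2730732 131833)) (.aff 1000000 0 0))) (.sx 25000 (.sx
 12500 (.aff 1500000 2544280 98260) (.aff 1600000 2730808 131830)) (.aff 1000000 0 0))) (.sx 25000 (.sx
 12500 (.aff 1500000 2544424 98255) (.aff 1600000 2730962 131822)) (.aff 1000000 0 0))) (.sx 25000 (.sx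
 12500 (.aff 1500000 2544713 98243) (.aff 1600000 2731272 131807)) (.aff 1000000 0 0)))) (.sy 324022 (.sx
 25000 (.sx 12500 (.aff 1500000 2545288 98221) (.aff 1600000 2731890 131777)) (.aff 1000000 0 0)) (.sy
 324120 (.sy 324071 (.sy 324046 (.sy 324034 (.sy 324028 (.sy 324025 (.sy 324023 (.sx 25000 (.sx 12500 (.aff
 1500000 2545673 98206) (.aff 1600000 2732303 131757)) (.aff 1000000 0 0)) (.sy 324024 (.sx 25000 (.sx 12500
 (.aff 1500000 2545677 98206) (.aff 1600000 2732307 131757)) (.aff 1000000 0 0)) (.sx 25000 (.sx 12500 (.aff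
 1500000 2545681 98206) (.aff 1600000 2732312 131757)) (.aff 1000000 0 0)))) (.sy 324026 (.sx 25000 (.sx
 12500 (.aff 1500000 2545685 98206) (.aff 1600000 2732316 131757)) (.aff 1000000 0 0)) (.sy 324027 (.sx
 25000 (.sx 12500 (.aff 1500000 2545689 98206) (.aff 1600000 2732320 131757)) (.aff 1000000 0 0)) (.sx 25000
 (.sx 12500 (.aff 1500000 2545693 98206) (.aff 1600000 2732324 131756)) (.aff 1000000 0 0))))) (.sy 324031
 (.sy 324029 (.sx 25000 (.sx 12500 (.aff 1500000 2545697 98205) (.aff 1600000 2732329 131756)) (.aff 1000000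
 0 0)) (.sx 25000 (.sx 12500 (.aff 1500000 2545703 98205) (.aff 1600000 2732335 131756)) (.aff 1000000 0
 0))) (.sx 25000 (.sx 12500 (.aff 1500000 2545713 98205) (.aff 1600000 2732345 131755)) (.aff 1000000 0
 0)))) (.sy 324040 (.sx 25000 (.sx 12500 (.aff 1500000 2545730 98204) (.aff 1600000 2732364 131755)) (.aff
 1000000 0 0)) (.sx 25000 (.sx 12500 (.aff 1500000 2545754 98203) (.aff 1600000 2732390 131753)) (.aff
 1000000 0 0)))) (.sy 324058 (.sx 25000 (.sx 12500 (.aff 1500000 2545789 98202) (.aff 1600000 2732428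
 131751)) (.aff 1000000 0 0)) (.sx 25000 (.sx 12500 (.aff 1500000 2545838 98200) (.aff 1600000 2732480
 131749)) (.aff 1000000 0 0)))) (.sx 25000 (.sx 12500 (.aff 1500000 2545960 98195) (.aff 1600000 2732611
 131743)) (.aff 1000000 0 0))) (.sx 25000 (.sx 12500 (.aff 1500000 2546249 98184) (.aff 1600000 2732921
 131728)) (.aff 1000000 0 0))))) (.aff 1550000 2536055 119280)))) (.aff 1000000 0 0)))) (.sy 337500 (.sy
 331250 (.sx 50000 (.sx 25000 (.aff 1800000 2898276 220821) (.aff 1000000 0 0)) (.aff 1000000 0 0)) (.sx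
 50000 (.sx 25000 (.aff 2000000 3657185 273435) (.aff 1000000 0 0)) (.aff 1000000 0 0))) (.sx 50000 (.sx
 25000 (.aff 2000000 3708100 269680) (.aff 1500000 1658313 150756)) (.aff 1000000 0 0))), .pol, .pol, .pol,
 .pol⟩

def hL160_20_4_6 : pcchk ⟨(nat_lit 1), (nat_lit 1000), Int.ofNat (nat_lit 250), 0, ⟨0, 1⟩, ⟨Int.ofNat
 (nat_lit 20), 200⟩⟩ ⟨800000, 850000, 908191, 894532, 922059, 417256, 448290, 388374, 447213, 387298⟩ false
 (nat_lit 300) (Int.ofNat (nat_lit 762)) (nat_lit 350) (Int.ofNat (nat_lit 201)) qL160_20_4_6 = true := by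
 decide +kernel

def qL160_20_4_7 : PCt := .one ⟨2008000, 251, 502000, -284735, 103693, 0, 0, 100000, 350000, 400000⟩ ⟨0,
 .pol, .pol, .pol, .pol, .sx 50000 (.aff 1950000 3004164 300417) (.aff 1000000 0 0), .pol, .pol, .pol, .pol⟩

def hL160_20_4_7 : pcchk ⟨(nat_lit 1), (nat_lit 1000), Int.ofNat (nat_lit 250), 0, ⟨0, 1⟩, ⟨Int.ofNat
 (nat_lit 20), 200⟩⟩ ⟨800000, 850000, 908191, 894532, 922059, 417256, 448290, 388374, 447213, 387298⟩ false
 (nat_lit 350) (Int.ofNat (nat_lit 201)) (nat_lit 400) (Int.negSucc (nat_lit 507)) qL160_20_4_7 = true := by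
 decide +kernel

def qL160_20_4_8 : PCt := .one ⟨2008000, 251, 502000, -328509, 121202, 0, 0, 100000, 400000, 450000⟩ ⟨0,
 .pol, .pol, .pol, .pol, .sx 50000 (.aff 2500000 4373214 514496) (.aff 2191000 3105749 456728), .pol, .pol,
 .pol, .pol⟩

def hL160_20_4_8 : pcchk ⟨(nat_lit 1), (nat_lit 1000), Int.ofNat (nat_lit 250), 0, ⟨0, 1⟩, ⟨Int.ofNat
 (nat_lit 20), 200⟩⟩ ⟨800000, 850000, 908191, 894532, 922059, 417256, 448290, 388374, 447213, 387298⟩ false
 (nat_lit 400) (Int.negSucc (nat_lit 507)) (nat_lit 450) (Int.negSucc (nat_lit 1325)) qL160_20_4_8 = true :=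
 by decide +kernel

def qL160_20_4_9 : PCt := .one ⟨2008000, 251, 502000, -370677, 140178, 0, 0, 100000, 450000, 500000⟩ ⟨0,
 .pol, .pol, .pol, .pol, .sx 50000 (.aff 3000000 7118053 561952) (.sx 75000 (.aff 2700000 4278240 675512)
 (.aff 2300000 3143247 537661)), .pol, .pol, .pol, .pol⟩

def hL160_20_4_9 : pcchk ⟨(nat_lit 1), (nat_lit 1000), Int.ofNat (nat_lit 250), 0, ⟨0, 1⟩, ⟨Int.ofNat
 (nat_lit 20), 200⟩⟩ ⟨800000, 850000, 908191, 894532, 922059, 417256, 448290, 388374, 447213, 387298⟩ false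
 (nat_lit 450) (Int.negSucc (nat_lit 1325)) (nat_lit 500) (Int.negSucc (nat_lit 2248)) qL160_20_4_9 = true
 := by decide +kernel

def qL160_20_4_10 : PCt := .one ⟨2008000, 251, 502000, -11133557, 5521618, 0, 0, 100000, 500000, 550000⟩ ⟨0,
 .pol, .pol, .pol, .pol, .sx 50000 (.aff 12000000 50408333 2400397) (.sx 75000 (.aff 20000000 55067232
 6555623) (.sx 87500 (.aff 35000000 86426492 13375529) (.sx 93750 (.aff 35000000 81834147 14126133) (.sx
 96875 (.inf 2346955 426085) (.sy 525000 (.sx 98437 (.inf 2290855 436519) (.sx 99218 (.inf 2277236 439129)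
 (.sy 512500 (.sx 99609 (.inf 2256628 443140) (.sx 99804 (.inf 2253310 443792) (.sx 99902 (.inf 2251656
 444118) (.sy 506250 (.sx 99951 (.sy 503125 (.inf 2240383 446353) (.inf 2247352 444969)) (.sx 99975 (.sx
 99963 (.sx 99957 (.sx 99954 (.sx 99952 (.sy 503125 (.inf 2240103 446409) (.inf 2247071 445024)) (.sx 99953
 (.sy 503125 (.sy 501562 (.sy 500781 (.inf 2237473 446933) (.inf 2239218 446585)) (.inf 2241835 446064))
 (.inf 2247059 445027)) (.sy 503125 (.sy 501562 (.sy 500781 (.sy 500390 (.aff 37400000 81427679 16271617)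
 (.inf 2237898 446848)) (.inf 2239207 446587)) (.inf 2241824 446066)) (.inf 2247048 445029)))) (.sx 99955
 (.sy 503125 (.sy 501562 (.sy 500781 (.sy 500390 (.sy 500195 (.aff 35000000 76051028 15200321) (.inf 2237231
 446982)) (.inf 2237886 446851)) (.inf 2239196 446589)) (.inf 2241813 446068)) (.inf 2247037 445031)) (.sx
 99956 (.sy 503125 (.sy 501562 (.sy 500781 (.sy 500390 (.sy 500195 (.aff 35000000 76050647 15200397) (.inf
 2237220 446984)) (.inf 2237875 446853)) (.inf 2239185 446592)) (.inf 2241801 446070)) (.inf 2247026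
 445033)) (.sy 503125 (.sy 501562 (.sy 500781 (.sy 500390 (.sy 500195 (.aff 35000000 76050267 15200473)
 (.inf 2237209 446986)) (.inf 2237864 446855)) (.inf 2239174 446594)) (.inf 2241790 446073)) (.inf 2247014
 445036))))) (.sx 99960 (.sx 99958 (.sy 503125 (.sy 501562 (.sy 500781 (.sy 500390 (.sy 500195 (.aff
 35000000 76049886 15200549) (.inf 2237198 446988)) (.inf 2237853 446857)) (.inf 2239162 446596)) (.inf
 2241779 446075)) (.inf 2247003 445038)) (.sy 503125 (.sy 501562 (.sy 500781 (.sy 500390 (.sy 500195 (.aff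
 35000000 76049316 15200663) (.inf 2237181 446992)) (.inf 2237836 446861)) (.inf 2239146 446599)) (.inf
 2241762 446078)) (.inf 2246986 445041))) (.sx 99961 (.sy 503125 (.sy 501562 (.sy 500781 (.sy 500390 (.sy
 500195 (.aff 35000000 76048745 15200777) (.inf 2237164 446995)) (.inf 2237819 446864)) (.inf 2239129
 446603)) (.inf 2241745 446082)) (.inf 2246969 445044)) (.sy 503125 (.sy 501562 (.sy 500781 (.sy 500390 (.sy
 500195 (.aff 35000000 76048174 15200891) (.inf 2237148 446998)) (.inf 2237803 446867)) (.inf 2239112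
 446606)) (.inf 2241729 446085)) (.inf 2246953 445048))))) (.sx 99969 (.sx 99966 (.sx 99964 (.sy 503125 (.sy
 501562 (.sy 500781 (.sy 500390 (.sy 500195 (.aff 35000000 76047604 15201005) (.inf 2237131 447002)) (.inf
 2237786 446871)) (.inf 2239095 446610)) (.inf 2241712 446088)) (.inf 2246936 445051)) (.sy 503125 (.sy
 501562 (.sy 500781 (.sy 500390 (.sy 500195 (.aff 35000000 76047033 15201120) (.inf 2237114 447005)) (.inf
 2237769 446874)) (.inf 2239078 446613)) (.inf 2241695 446092)) (.inf 2246919 445054))) (.sx 99967 (.sy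
 503125 (.sy 501562 (.sy 500781 (.sy 500390 (.sy 500195 (.aff 35000000 76046463 15201233) (.inf 2237097
 447008)) (.inf 2237752 446878)) (.inf 2239062 446616)) (.inf 2241678 446095)) (.inf 2246902 445058)) (.sy
 503125 (.sy 501562 (.sy 500781 (.sy 500390 (.sy 500195 (.aff 35000000 76045892 15201348) (.inf 2237080
 447012)) (.inf 2237735 446881)) (.inf 2239045 446619)) (.inf 2241661 446098)) (.inf 2246885 445061)))) (.sx
 99972 (.sx 99970 (.sy 503125 (.sy 501562 (.sy 500781 (.sy 500390 (.sy 500195 (.aff 35000000 76045322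
 15201462) (.inf 2237064 447015)) (.inf 2237719 446884)) (.inf 2239028 446623)) (.inf 2241644 446102)) (.inf
 2246868 445064)) (.sy 503125 (.sy 501562 (.sy 500781 (.sy 500390 (.sy 500195 (.aff 35000000 76044751
 15201576) (.inf 2237047 447018)) (.inf 2237702 446888)) (.inf 2239011 446626)) (.inf 2241628 446105)) (.inf
 2246851 445068))) (.sx 99973 (.sy 503125 (.sy 501562 (.sy 500781 (.sy 500390 (.sy 500195 (.aff 35000000
 76044181 15201690) (.inf 2237030 447022)) (.inf 2237685 446891)) (.inf 2238994 446630)) (.inf 2241611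
 446108)) (.inf 2246835 445071)) (.sy 503125 (.sy 501562 (.sy 500781 (.sy 500390 (.sy 500195 (.aff 35000000
 76043610 15201804) (.inf 2237013 447025)) (.inf 2237668 446894)) (.inf 2238978 446633)) (.inf 2241594
 446112)) (.inf 2246818 445074)))))) (.sx 99987 (.sx 99981 (.sx 99978 (.sx 99976 (.sy 503125 (.sy 501562
 (.sy 500781 (.sy 500390 (.sy 500195 (.aff 35000000 76043040 15201918) (.inf 2236996 447029)) (.inf 2237651
 446898)) (.inf 2238961 446636)) (.inf 2241577 446115)) (.inf 2246801 445078)) (.sy 503125 (.sy 501562 (.sy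
 500781 (.sy 500390 (.sy 500195 (.aff 35000000 76042469 15202032) (.inf 2236980 447032)) (.inf 2237635
 446901)) (.inf 2238944 446640)) (.inf 2241560 446118)) (.inf 2246784 445081))) (.sx 99979 (.sy 503125 (.sy
 501562 (.sy 500781 (.sy 500390 (.sy 500195 (.aff 35000000 76041899 15202146) (.inf 2236963 447035)) (.inf
 2237618 446904)) (.inf 2238927 446643)) (.inf 2241544 446122)) (.inf 2246767 445084)) (.sy 503125 (.sy
 501562 (.sy 500781 (.sy 500390 (.sy 500195 (.aff 35000000 76041328 15202260) (.inf 2236946 447039)) (.inf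
 2237601 446908)) (.inf 2238910 446646)) (.inf 2241527 446125)) (.inf 2246750 445088)))) (.sx 99984 (.sy
 503125 (.sy 501562 (.sy 500781 (.sy 500390 (.sy 500195 (.aff 35000000 76040378 15202450) (.inf 2236918
 447044)) (.inf 2237573 446913)) (.inf 2238882 446652)) (.inf 2241499 446131)) (.inf 2246722 445093)) (.sy
 503125 (.sy 501562 (.sy 500781 (.sy 500390 (.sy 500195 (.aff 35000000 76039237 15202678) (.inf 2236885
 447051)) (.inf 2237540 446920)) (.inf 2238849 446659)) (.inf 2241465 446137)) (.inf 2246688 445100)))) (.sx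
 99993 (.sx 99990 (.sy 503125 (.sy 501562 (.sy 500781 (.sy 500390 (.sy 500195 (.aff 35000000 76038096
 15202906) (.inf 2236851 447058)) (.inf 2237506 446927)) (.inf 2238815 446665)) (.inf 2241431 446144)) (.inf
 2246655 445107)) (.sy 503125 (.sy 501562 (.sy 500781 (.sy 500390 (.sy 500195 (.aff 35000000 76036956
 15203134) (.inf 2236817 447064)) (.inf 2237472 446933)) (.inf 2238782 446672)) (.inf 2241398 446151)) (.inf
 2246621 445113))) (.sx 99996 (.sy 503125 (.sy 501562 (.sy 500781 (.sy 500390 (.sy 500195 (.aff 35000000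
 76035815 15203362) (.inf 2236784 447071)) (.inf 2237439 446940)) (.inf 2238748 446679)) (.inf 2241364
 446157)) (.inf 2246587 445120)) (.sx 99998 (.sy 503125 (.sy 501562 (.sy 500781 (.sy 500390 (.sy 500195
 (.aff 35900000 78047552 15605999) (.inf 2236756 447077)) (.inf 2237411 446946)) (.inf 2238720 446684))
 (.inf 2241336 446163)) (.inf 2246559 445126)) (.sy 503125 (.sy 501562 (.sy 500781 (.sy 500390 (.sy 500195
 (.aff 36800000 80059639 16008566) (.inf 2236734 447081)) (.inf 2237388 446950)) (.inf 2238698 446689))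
 (.inf 2241314 446167)) (.inf 2246537 445130)))))))) (.inf 2257487 442971))))) (.inf 2282075 438198))))
 (.aff 35000000 79448896 14550234)))))), .pol, .sx 50000 (.aff 35000000 155807574 7419409) (.sx 75000 (.aff
 35000000 98541362 11731115) (.sx 87500 (.inf 2541956 393398) (.sy 525000 (.sy 512500 .pol (.inf 2352304
 425116)) (.inf 2394438 417635)))), .sy 525000 (.sy 512500 .pol (.inf 2576820 388076)) (.inf 2622976
 381247), .pol⟩

def hL160_20_4_10 : pcchk ⟨(nat_lit 1), (nat_lit 1000), Int.ofNat (nat_lit 250), 0, ⟨0, 1⟩, ⟨Int.ofNat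
 (nat_lit 20), 200⟩⟩ ⟨800000, 850000, 908191, 894532, 922059, 417256, 448290, 388374, 447213, 387298⟩ false
 (nat_lit 500) (Int.negSucc (nat_lit 2248)) (nat_lit 550) (Int.negSucc (nat_lit 29971)) qL160_20_4_10 = true
 := by decide +kernel

def qL160_20_4_11 : PCt := .one ⟨2008000, 251, 502000, -11245, -595654, 0, 0, 100000, 550000, 600000⟩ ⟨0,
 .pol, .pol, .pol, .pol, .aff 12000000 26377074 4587318, .pol, .inf 3391165 294884, .inf 3391165 294884,
 .pol⟩

def hL160_20_4_11 : pcchk ⟨(nat_lit 1), (nat_lit 1000), Int.ofNat (nat_lit 250), 0, ⟨0, 1⟩, ⟨Int.ofNat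
 (nat_lit 20), 200⟩⟩ ⟨800000, 850000, 908191, 894532, 922059, 417256, 448290, 388374, 447213, 387298⟩ false
 (nat_lit 550) (Int.negSucc (nat_lit 29971)) (nat_lit 600) (Int.negSucc (nat_lit 29999)) qL160_20_4_11 =
 true := by decide +kernel

def qL160_20_4_12 : PCt := .one ⟨2008000, 251, 502000, 0, -602400, 0, 0, 100000, 600000, 650000⟩ ⟨0, .pol,
 .pol, .pol, .pol, .aff 5000000 11547006 1385641, .pol, .aff 35000000 85000000 13600000, .inf 3535534
 282843, .pol⟩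

def hL160_20_4_12 : pcchk ⟨(nat_lit 1), (nat_lit 1000), Int.ofNat (nat_lit 250), 0, ⟨0, 1⟩, ⟨Int.ofNat
 (nat_lit 20), 200⟩⟩ ⟨800000, 850000, 908191, 894532, 922059, 417256, 448290, 388374, 447213, 387298⟩ false
 (nat_lit 600) (Int.negSucc (nat_lit 29999)) (nat_lit 650) (Int.negSucc (nat_lit 29999)) qL160_20_4_12 =
 true := by decide +kernel

def qL160_20_4_13 : PCt := .one ⟨2008000, 251, 502000, 0, -602400, 0, 0, 100000, 650000, 700000⟩ ⟨0, .pol,
 .pol, .pol, .pol, .aff 2000000 3000001 333334, .pol, .aff 35000000 124923977 9253628, .inf 3674235 272166,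
 .pol⟩

def hL160_20_4_13 : pcchk ⟨(nat_lit 1), (nat_lit 1000), Int.ofNat (nat_lit 250), 0, ⟨0, 1⟩, ⟨Int.ofNat
 (nat_lit 20), 200⟩⟩ ⟨800000, 850000, 908191, 894532, 922059, 417256, 448290, 388374, 447213, 387298⟩ false
 (nat_lit 650) (Int.negSucc (nat_lit 29999)) (nat_lit 700) (Int.negSucc (nat_lit 29999)) qL160_20_4_13 =
 true := by decide +kernel

def qL160_20_4_14 : PCt := .one ⟨2008000, 251, 502000, 0, -602400, 0, 0, 100000, 700000, 750000⟩ ⟨0, .pol,
 .pol, .pol, .pol, .aff 1500000 1903944 131307, .pol, .aff 20000000 59073401 6111042, .inf 3807887 262613,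
 .pol⟩

def hL160_20_4_14 : pcchk ⟨(nat_lit 1), (nat_lit 1000), Int.ofNat (nat_lit 250), 0, ⟨0, 1⟩, ⟨Int.ofNat
 (nat_lit 20), 200⟩⟩ ⟨800000, 850000, 908191, 894532, 922059, 417256, 448290, 388374, 447213, 387298⟩ false
 (nat_lit 700) (Int.negSucc (nat_lit 29999)) (nat_lit 750) (Int.negSucc (nat_lit 29999)) qL160_20_4_14 =
 true := by decide +kernel

def qL160_20_4_15 : PCt := .one ⟨2008000, 251, 502000, 0, -602400, 0, 0, 100000, 750000, 800000⟩ ⟨0, .pol,
 .pol, .pol, .pol, .aff 1500000 1968502 127001, .pol, .aff 20000000 74803075 4826005, .inf 3937004 254001,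
 .pol⟩

def hL160_20_4_15 : pcchk ⟨(nat_lit 1), (nat_lit 1000), Int.ofNat (nat_lit 250), 0, ⟨0, 1⟩, ⟨Int.ofNat
 (nat_lit 20), 200⟩⟩ ⟨800000, 850000, 908191, 894532, 922059, 417256, 448290, 388374, 447213, 387298⟩ false
 (nat_lit 750) (Int.negSucc (nat_lit 29999)) (nat_lit 800) (Int.negSucc (nat_lit 29999)) qL160_20_4_15 =
 true := by decide +kernel

def qL160_20_4_16 : PCt := .one ⟨2008000, 251, 502000, 0, -602400, 0, 0, 100000, 800000, 850000⟩ ⟨0, .pol,
 .pol, .pol, .pol, .aff 1000000 0 0, .pol, .aff 12000000 36482873 3316625, .inf 4062020 246183, .pol⟩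

def hL160_20_4_16 : pcchk ⟨(nat_lit 1), (nat_lit 1000), Int.ofNat (nat_lit 250), 0, ⟨0, 1⟩, ⟨Int.ofNat
 (nat_lit 20), 200⟩⟩ ⟨800000, 850000, 908191, 894532, 922059, 417256, 448290, 388374, 447213, 387298⟩ false
 (nat_lit 800) (Int.negSucc (nat_lit 29999)) (nat_lit 850) (Int.negSucc (nat_lit 29999)) qL160_20_4_16 =
 true := by decide +kernel

def qL160_20_4_17 : PCt := .one ⟨2008000, 251, 502000, 0, -602400, 0, 0, 100000, 850000, 900000⟩ ⟨0, .pol,
 .pol, .pol, .pol, .aff 1000000 0 0, .pol, .aff 12000000 46016302 2629503, .inf 4183301 239046, .pol⟩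

def hL160_20_4_17 : pcchk ⟨(nat_lit 1), (nat_lit 1000), Int.ofNat (nat_lit 250), 0, ⟨0, 1⟩, ⟨Int.ofNat
 (nat_lit 20), 200⟩⟩ ⟨800000, 850000, 908191, 894532, 922059, 417256, 448290, 388374, 447213, 387298⟩ false
 (nat_lit 850) (Int.negSucc (nat_lit 29999)) (nat_lit 900) (Int.negSucc (nat_lit 29999)) qL160_20_4_17 =
 true := by decide +kernel

def qL160_20_4_18 : PCt := .one ⟨2008000, 251, 502000, 0, -602400, 0, 0, 100000, 900000, 950000⟩ ⟨0, .pol,
 .pol, .pol, .pol, .aff 1000000 0 0, .pol, .aff 12000000 47312789 2557449, .inf 4301163 232496, .pol⟩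

def hL160_20_4_18 : pcchk ⟨(nat_lit 1), (nat_lit 1000), Int.ofNat (nat_lit 250), 0, ⟨0, 1⟩, ⟨Int.ofNat
 (nat_lit 20), 200⟩⟩ ⟨800000, 850000, 908191, 894532, 922059, 417256, 448290, 388374, 447213, 387298⟩ false
 (nat_lit 900) (Int.negSucc (nat_lit 29999)) (nat_lit 950) (Int.negSucc (nat_lit 29999)) qL160_20_4_18 =
 true := by decide +kernel

def qL160_20_4_19 : PCt := .one ⟨2008000, 251, 502000, 0, -602400, 0, 0, 100000, 950000, 1000000⟩ ⟨0, .pol,
 .pol, .pol, .pol, .aff 1000000 0 0, .pol, .aff 12000000 48574685 2491010, .inf 4415881 226456, .pol⟩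

def hL160_20_4_19 : pcchk ⟨(nat_lit 1), (nat_lit 1000), Int.ofNat (nat_lit 250), 0, ⟨0, 1⟩, ⟨Int.ofNat
 (nat_lit 20), 200⟩⟩ ⟨800000, 850000, 908191, 894532, 922059, 417256, 448290, 388374, 447213, 387298⟩ false
 (nat_lit 950) (Int.negSucc (nat_lit 29999)) (nat_lit 1000) (Int.negSucc (nat_lit 29999)) qL160_20_4_19 =
 true := by decide +kernel

def qL160_20_5_0 : PCt := .one ⟨2008000, 251, 803200, 220076, 0, 0, 0, 100000, 0, 50000⟩ ⟨12500, .aff
 2000000 500000, .pol, .pol, .pol, .aff 0 1897948 526885, .aff 0 2350714 425403, .pol, .pol, .pol⟩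

def hL160_20_5_0 : pcchk ⟨(nat_lit 1), (nat_lit 1000), Int.ofNat (nat_lit 400), 0, ⟨0, 1⟩, ⟨Int.ofNat
 (nat_lit 20), 200⟩⟩ ⟨800000, 850000, 908191, 894532, 922059, 417256, 448290, 388374, 447213, 387298⟩ true 0
 0 (nat_lit 50) (Int.ofNat (nat_lit 548)) qL160_20_5_0 = true := by decide +kernel

def qL160_20_5_1 : PCt := .one ⟨2008000, 251, 803200, 246180, -1306, 0, 0, 100000, 50000, 100000⟩ ⟨0, .pol,
 .pol, .pol, .pol, .sy 75000 (.sx 50000 (.aff 0 2278390 438907) .pol) (.sy 87500 (.sy 81250 (.sy 78125 (.sy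
 76562 (.sy 75781 (.sx 50000 (.sx 25000 (.aff 50000 2333066 386831) (.aff 0 1417891 705273)) (.aff 0 1002600
 997407)) (.sx 50000 (.sx 25000 (.aff 50000 2345119 384842) (.aff 0 1425216 701649)) (.aff 0 1007780
 992281))) (.sx 50000 (.aff 60000 2338217 377895) (.aff 0 1015504 984733))) (.sx 50000 (.aff 69000 2350660
 368731) (.aff 0 1030777 970142))) (.sx 50000 (.aff 88000 2369446 351029) (.aff 0 1060661 942809))) (.sx
 50000 (.aff 125000 2396287 319505) (.aff 0 1118034 894428))), .pol, .pol, .sx 50000 .pol .pol, .pol⟩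

def hL160_20_5_1 : pcchk ⟨(nat_lit 1), (nat_lit 1000), Int.ofNat (nat_lit 400), 0, ⟨0, 1⟩, ⟨Int.ofNat
 (nat_lit 20), 200⟩⟩ ⟨800000, 850000, 908191, 894532, 922059, 417256, 448290, 388374, 447213, 387298⟩ false
 (nat_lit 50) (Int.ofNat (nat_lit 548)) (nat_lit 100) (Int.ofNat (nat_lit 1161)) qL160_20_5_1 = true := by
 decide +kernel

def qL160_20_5_2 : PCt := .one ⟨2008000, 251, 803200, 121684, 11144, 0, 0, 100000, 100000, 150000⟩ ⟨0, .pol,
 .pol, .pol, .pol, .sy 125000 (.sx 50000 (.aff 257000 2463426 224099) (.aff 1000000 0 0)) (.sy 137500 (.sx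
 50000 (.sy 131250 (.sx 25000 (.sx 12500 (.aff 300000 2587792 189351) (.aff 1000000 0 0)) (.aff 1000000 0
 0)) (.sx 25000 (.sy 134375 (.sx 12500 (.aff 375000 2606935 149841) (.aff 1000000 0 0)) (.sx 12500 (.aff
 425000 2681622 123293) (.aff 1000000 0 0))) (.aff 1000000 0 0))) (.aff 1000000 0 0)) (.sx 50000 (.sx 25000
 (.aff 450000 2637708 114683) (.aff 1000000 0 0)) (.aff 1000000 0 0))), .pol, .pol, .pol, .pol⟩

def hL160_20_5_2 : pcchk ⟨(nat_lit 1), (nat_lit 1000), Int.ofNat (nat_lit 400), 0, ⟨0, 1⟩, ⟨Int.ofNat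
 (nat_lit 20), 200⟩⟩ ⟨800000, 850000, 908191, 894532, 922059, 417256, 448290, 388374, 447213, 387298⟩ false
 (nat_lit 100) (Int.ofNat (nat_lit 1161)) (nat_lit 150) (Int.ofNat (nat_lit 1464)) qL160_20_5_2 = true := by
 decide +kernel

def qL160_20_5_3 : PCt := .one ⟨2008000, 251, 803200, -1607, 29638, 0, 0, 100000, 150000, 200000⟩ ⟨0, .pol,
 .pol, .pol, .pol, .sx 50000 (.sy 175000 (.sy 162500 (.sx 25000 (.aff 544000 2784799 74669) (.aff 1000000 0
 0)) (.sx 25000 (.sy 168750 (.sx 12500 (.aff 625000 2870014 48999) (.aff 1000000 0 0)) (.sy 171875 (.sy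
 170312 (.sx 12500 (.aff 644000 2897871 43735) (.aff 1000000 0 0)) (.sx 12500 (.sx 6250 (.aff 750000 2891188
 21618) (.aff 1000000 0 0)) (.aff 1000000 0 0))) (.sx 12500 (.sx 6250 (.aff 750000 2910925 21471) (.aff
 1000000 0 0)) (.aff 1000000 0 0)))) (.aff 1000000 0 0))) (.sx 25000 (.sx 12500 (.aff 750000 2888907 21635)
 (.aff 1000000 0 0)) (.aff 1000000 0 0))) (.aff 1000000 0 0), .pol, .pol, .pol, .pol⟩

def hL160_20_5_3 : pcchk ⟨(nat_lit 1), (nat_lit 1000), Int.ofNat (nat_lit 400), 0, ⟨0, 1⟩, ⟨Int.ofNat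
 (nat_lit 20), 200⟩⟩ ⟨800000, 850000, 908191, 894532, 922059, 417256, 448290, 388374, 447213, 387298⟩ false
 (nat_lit 150) (Int.ofNat (nat_lit 1464)) (nat_lit 200) (Int.ofNat (nat_lit 1460)) qL160_20_5_3 = true := by
 decide +kernel

def qL160_20_5_4 : PCt := .one ⟨2008000, 251, 803200, -139757, 57268, 0, 0, 100000, 200000, 250000⟩ ⟨0,
 .pol, .pol, .pol, .pol, .sx 50000 (.sx 25000 (.aff 1250000 3338312 18723) (.aff 1000000 0 0)) (.aff 1000000
 0 0), .pol, .pol, .pol, .pol⟩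

def hL160_20_5_4 : pcchk ⟨(nat_lit 1), (nat_lit 1000), Int.ofNat (nat_lit 400), 0, ⟨0, 1⟩, ⟨Int.ofNat
 (nat_lit 20), 200⟩⟩ ⟨800000, 850000, 908191, 894532, 922059, 417256, 448290, 388374, 447213, 387298⟩ false
 (nat_lit 200) (Int.ofNat (nat_lit 1460)) (nat_lit 250) (Int.ofNat (nat_lit 1112)) qL160_20_5_4 = true := by
 decide +kernel

def qL160_20_5_5 : PCt := .one ⟨2008000, 251, 803200, -224093, 78352, 0, 0, 100000, 250000, 300000⟩ ⟨0,
 .pol, .pol, .pol, .pol, .sx 50000 (.sy 275000 (.sx 25000 (.aff 1575000 3726426 88725) (.aff 1000000 0 0))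
 (.aff 1647000 3789895 110454)) (.aff 1000000 0 0), .pol, .pol, .pol, .pol⟩

def hL160_20_5_5 : pcchk ⟨(nat_lit 1), (nat_lit 1000), Int.ofNat (nat_lit 400), 0, ⟨0, 1⟩, ⟨Int.ofNat
 (nat_lit 20), 200⟩⟩ ⟨800000, 850000, 908191, 894532, 922059, 417256, 448290, 388374, 447213, 387298⟩ false
 (nat_lit 250) (Int.ofNat (nat_lit 1112)) (nat_lit 300) (Int.ofNat (nat_lit 554)) qL160_20_5_5 = true := by
 decide +kernel

def qL160_20_5_6 : PCt := .one ⟨2008000, 251, 803200, -316461, 106062, 0, 0, 100000, 300000, 350000⟩ ⟨0,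
 .pol, .pol, .pol, .pol, .sx 50000 (.sx 25000 (.aff 2025000 4267416 246197) (.aff 2100000 3920477 308636))
 (.aff 1000000 0 0), .pol, .pol, .pol, .pol⟩

def hL160_20_5_6 : pcchk ⟨(nat_lit 1), (nat_lit 1000), Int.ofNat (nat_lit 400), 0, ⟨0, 1⟩, ⟨Int.ofNat
 (nat_lit 20), 200⟩⟩ ⟨800000, 850000, 908191, 894532, 922059, 417256, 448290, 388374, 447213, 387298⟩ false
 (nat_lit 300) (Int.ofNat (nat_lit 554)) (nat_lit 350) (Int.negSucc (nat_lit 233)) qL160_20_5_6 = true := by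
 decide +kernel

def qL160_20_5_7 : PCt := .one ⟨2008000, 251, 803200, -391962, 132487, 0, 0, 100000, 350000, 400000⟩ ⟨0,
 .pol, .pol, .pol, .pol, .sy 375000 (.sy 362500 (.sy 356250 (.sx 50000 (.aff 2125000 4228115 299336) (.aff
 1000000 0 0)) (.sx 50000 (.sx 25000 (.aff 3000000 8755951 456833) (.aff 2300000 4408515 383350)) (.aff
 1000000 0 0))) (.sy 368750 (.sx 50000 (.sx 25000 (.aff 3000000 8831761 452911) (.aff 2250000 4275658
 365441)) (.aff 1000000 0 0)) (.sx 50000 (.sx 25000 (.aff 3000000 8906927 449089) (.sx 37500 (.aff 2600000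
 5038519 508086) (.aff 1000000 0 0))) (.aff 1000000 0 0)))) (.sy 387500 (.sy 381250 (.sx 50000 (.sx 25000
 (.aff 3000000 8981463 445362) (.sx 37500 (.aff 3000000 6633250 603023) (.aff 2300000 3966107 426111)))
 (.aff 1000000 0 0)) (.sx 50000 (.sx 25000 (.aff 3000000 11090537 360668) (.sx 37500 (.aff 3000000 7014272
 570266) (.aff 2400000 4306346 455143))) (.aff 1000000 0 0))) (.sx 50000 (.aff 2750000 4910926 623610) (.aff
 1000000 0 0))), .pol, .pol, .pol, .pol⟩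

def hL160_20_5_7 : pcchk ⟨(nat_lit 1), (nat_lit 1000), Int.ofNat (nat_lit 400), 0, ⟨0, 1⟩, ⟨Int.ofNat
 (nat_lit 20), 200⟩⟩ ⟨800000, 850000, 908191, 894532, 922059, 417256, 448290, 388374, 447213, 387298⟩ false
 (nat_lit 350) (Int.negSucc (nat_lit 233)) (nat_lit 400) (Int.negSucc (nat_lit 1209)) qL160_20_5_7 = true :=
 by decide +kernel

def qL160_20_5_8 : PCt := .one ⟨2008000, 251, 803200, -477503, 166704, 0, 0, 100000, 400000, 450000⟩ ⟨0,
 .pol, .pol, .pol, .pol, .sx 50000 (.aff 3000000 5830952 685995) (.sx 75000 (.aff 2875000 4900881 717346)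
 (.aff 1000000 0 0)), .pol, .pol, .pol, .pol⟩

def hL160_20_5_8 : pcchk ⟨(nat_lit 1), (nat_lit 1000), Int.ofNat (nat_lit 400), 0, ⟨0, 1⟩, ⟨Int.ofNat
 (nat_lit 20), 200⟩⟩ ⟨800000, 850000, 908191, 894532, 922059, 417256, 448290, 388374, 447213, 387298⟩ false
 (nat_lit 400) (Int.negSucc (nat_lit 1209)) (nat_lit 450) (Int.negSucc (nat_lit 2398)) qL160_20_5_8 = true
 := by decide +kernel

def qL160_20_5_9 : PCt := .one ⟨2008000, 251, 803200, -547783, 198330, 0, 0, 100000, 450000, 500000⟩ ⟨0,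
 .pol, .pol, .pol, .pol, .sy 475000 (.sx 50000 (.aff 3000000 7023770 569495) (.sx 75000 (.aff 3000000
 5187398 771100) (.aff 3100000 5010298 880188))) (.sx 50000 (.aff 3000000 7211103 554701) (.sy 487500 (.sx
 75000 (.aff 3000000 5066229 789542) (.sx 87500 (.aff 3100000 4957868 889496) (.aff 3000000 4608838
 867898))) (.sx 75000 (.aff 3000000 5131602 779484) (.sx 87500 (.aff 5000000 9860567 1622625) (.aff 3100000
 4901724 899684))))), .pol, .pol, .pol, .pol⟩

def hL160_20_5_9 : pcchk ⟨(nat_lit 1), (nat_lit 1000), Int.ofNat (nat_lit 400), 0, ⟨0, 1⟩, ⟨Int.ofNat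
 (nat_lit 20), 200⟩⟩ ⟨800000, 850000, 908191, 894532, 922059, 417256, 448290, 388374, 447213, 387298⟩ false
 (nat_lit 450) (Int.negSucc (nat_lit 2398)) (nat_lit 500) (Int.negSucc (nat_lit 3762)) qL160_20_5_9 = true
 := by decide +kernel

def qL160_20_5_10 : PCt := .one ⟨2008000, 251, 803200, -10533968, 5191422, 0, 0, 100000, 500000, 550000⟩ ⟨0,
 .pol, .pol, .pol, .pol, .sx 50000 (.aff 12000000 50408333 2400397) (.sx 75000 (.aff 20000000 55067232
 6555623) (.sx 87500 (.aff 35000000 86426492 13375529) (.sx 93750 (.aff 35000000 81834147 14126133) (.sx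
 96875 (.inf 2346955 426085) (.sy 525000 (.sx 98437 (.inf 2290855 436519) (.sy 512500 (.sx 99218 (.inf
 2263308 441832) (.sx 99609 (.inf 2256628 443140) (.sy 506250 (.sx 99804 (.inf 2246344 445168) (.sy 503125
 (.sx 99902 (.inf 2241208 446188) (.sx 99951 (.inf 2240383 446353) (.sy 501562 (.sx 99975 (.sy 500781 (.sx
 99963 (.sy 500390 (.sy 500195 (.aff 35000000 76050076 15200511) (.inf 2237203 446987)) (.inf 2237859
 446856)) (.sy 500390 (.sy 500195 (.aff 35000000 76045512 15201424) (.inf 2237069 447014)) (.inf 2237724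
 446883))) (.inf 2239101 446608)) (.sy 500781 (.sx 99987 (.sy 500390 (.sy 500195 (.aff 37000000 80515153
 16096349) (.inf 2236935 447041)) (.inf 2237590 446910)) (.sy 500390 (.sx 99993 (.sy 500195 (.sy 500097
 (.aff 12000000 24599171 4918865) (.inf 2236507 447126)) (.inf 2236834 447061)) (.sy 500195 (.sy 500097
 (.aff 20000000 42488096 8496498) (.inf 2236434 447141)) (.inf 2236762 447075))) (.inf 2237450 446938)))
 (.inf 2238826 446663))) (.inf 2241577 446115)))) (.inf 2247627 444914))) (.inf 2259144 442646)))) (.inf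
 2286561 437338))) (.aff 35000000 79448896 14550234)))))), .pol, .sx 50000 (.aff 20000000 61567037 5863528)
 (.sx 75000 (.aff 35000000 98541362 11731115) (.sx 87500 (.inf 2541956 393398) (.sy 525000 (.sy 512500 .pol
 (.inf 2352304 425116)) (.inf 2394438 417635)))), .sy 525000 (.sy 512500 .pol (.inf 2576820 388076)) (.inf
 2622976 381247), .pol⟩

def hL160_20_5_10 : pcchk ⟨(nat_lit 1), (nat_lit 1000), Int.ofNat (nat_lit 400), 0, ⟨0, 1⟩, ⟨Int.ofNat
 (nat_lit 20), 200⟩⟩ ⟨800000, 850000, 908191, 894532, 922059, 417256, 448290, 388374, 447213, 387298⟩ false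
 (nat_lit 500) (Int.negSucc (nat_lit 3762)) (nat_lit 550) (Int.negSucc (nat_lit 29992)) qL160_20_5_10 = true
 := by decide +kernel

def qL160_20_5_11 : PCt := .one ⟨2008000, 251, 803200, -2812, -600714, 0, 0, 100000, 550000, 600000⟩ ⟨0,
 .pol, .pol, .pol, .pol, .aff 12000000 26377074 4587318, .pol, .inf 3391165 294884, .inf 3391165 294884,
 .pol⟩

def hL160_20_5_11 : pcchk ⟨(nat_lit 1), (nat_lit 1000), Int.ofNat (nat_lit 400), 0, ⟨0, 1⟩, ⟨Int.ofNat
 (nat_lit 20), 200⟩⟩ ⟨800000, 850000, 908191, 894532, 922059, 417256, 448290, 388374, 447213, 387298⟩ false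
 (nat_lit 550) (Int.negSucc (nat_lit 29992)) (nat_lit 600) (Int.negSucc (nat_lit 29999)) qL160_20_5_11 =
 true := by decide +kernel

def qL160_20_5_12 : PCt := .one ⟨2008000, 251, 803200, 0, -602400, 0, 0, 100000, 600000, 650000⟩ ⟨0, .pol,
 .pol, .pol, .pol, .aff 5000000 11547006 1385641, .pol, .aff 35000000 98149546 11777946, .inf 3535534
 282843, .pol⟩

def hL160_20_5_12 : pcchk ⟨(nat_lit 1), (nat_lit 1000), Int.ofNat (nat_lit 400), 0, ⟨0, 1⟩, ⟨Int.ofNat
 (nat_lit 20), 200⟩⟩ ⟨800000, 850000, 908191, 894532, 922059, 417256, 448290, 388374, 447213, 387298⟩ false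
 (nat_lit 600) (Int.negSucc (nat_lit 29999)) (nat_lit 650) (Int.negSucc (nat_lit 29999)) qL160_20_5_12 =
 true := by decide +kernel

def qL160_20_5_13 : PCt := .one ⟨2008000, 251, 803200, 0, -602400, 0, 0, 100000, 650000, 700000⟩ ⟨0, .pol,
 .pol, .pol, .pol, .aff 2000000 3000001 333334, .pol, .aff 35000000 124923977 9253628, .inf 3674235 272166,
 .pol⟩

def hL160_20_5_13 : pcchk ⟨(nat_lit 1), (nat_lit 1000), Int.ofNat (nat_lit 400), 0, ⟨0, 1⟩, ⟨Int.ofNat
 (nat_lit 20), 200⟩⟩ ⟨800000, 850000, 908191, 894532, 922059, 417256, 448290, 388374, 447213, 387298⟩ false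
 (nat_lit 650) (Int.negSucc (nat_lit 29999)) (nat_lit 700) (Int.negSucc (nat_lit 29999)) qL160_20_5_13 =
 true := by decide +kernel

def qL160_20_5_14 : PCt := .one ⟨2008000, 251, 803200, 0, -602400, 0, 0, 100000, 700000, 750000⟩ ⟨0, .pol,
 .pol, .pol, .pol, .aff 1500000 1903944 131307, .pol, .aff 20000000 59073401 6111042, .inf 3807887 262613,
 .pol⟩

def hL160_20_5_14 : pcchk ⟨(nat_lit 1), (nat_lit 1000), Int.ofNat (nat_lit 400), 0, ⟨0, 1⟩, ⟨Int.ofNat
 (nat_lit 20), 200⟩⟩ ⟨800000, 850000, 908191, 894532, 922059, 417256, 448290, 388374, 447213, 387298⟩ false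
 (nat_lit 700) (Int.negSucc (nat_lit 29999)) (nat_lit 750) (Int.negSucc (nat_lit 29999)) qL160_20_5_14 =
 true := by decide +kernel

def qL160_20_5_15 : PCt := .one ⟨2008000, 251, 803200, 0, -602400, 0, 0, 100000, 750000, 800000⟩ ⟨0, .pol,
 .pol, .pol, .pol, .aff 1500000 1968502 127001, .pol, .aff 20000000 74803075 4826005, .inf 3937004 254001,
 .pol⟩

def hL160_20_5_15 : pcchk ⟨(nat_lit 1), (nat_lit 1000), Int.ofNat (nat_lit 400), 0, ⟨0, 1⟩, ⟨Int.ofNat
 (nat_lit 20), 200⟩⟩ ⟨800000, 850000, 908191, 894532, 922059, 417256, 448290, 388374, 447213, 387298⟩ false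
 (nat_lit 750) (Int.negSucc (nat_lit 29999)) (nat_lit 800) (Int.negSucc (nat_lit 29999)) qL160_20_5_15 =
 true := by decide +kernel

def qL160_20_5_16 : PCt := .one ⟨2008000, 251, 803200, 0, -602400, 0, 0, 100000, 800000, 850000⟩ ⟨0, .pol,
 .pol, .pol, .pol, .aff 1000000 0 0, .pol, .aff 12000000 36482873 3316625, .inf 4062020 246183, .pol⟩

def hL160_20_5_16 : pcchk ⟨(nat_lit 1), (nat_lit 1000), Int.ofNat (nat_lit 400), 0, ⟨0, 1⟩, ⟨Int.ofNat
 (nat_lit 20), 200⟩⟩ ⟨800000, 850000, 908191, 894532, 922059, 417256, 448290, 388374, 447213, 387298⟩ false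
 (nat_lit 800) (Int.negSucc (nat_lit 29999)) (nat_lit 850) (Int.negSucc (nat_lit 29999)) qL160_20_5_16 =
 true := by decide +kernel

def qL160_20_5_17 : PCt := .one ⟨2008000, 251, 803200, 0, -602400, 0, 0, 100000, 850000, 900000⟩ ⟨0, .pol,
 .pol, .pol, .pol, .aff 1000000 0 0, .pol, .aff 12000000 46016302 2629503, .inf 4183301 239046, .pol⟩

def hL160_20_5_17 : pcchk ⟨(nat_lit 1), (nat_lit 1000), Int.ofNat (nat_lit 400), 0, ⟨0, 1⟩, ⟨Int.ofNat
 (nat_lit 20), 200⟩⟩ ⟨800000, 850000, 908191, 894532, 922059, 417256, 448290, 388374, 447213, 387298⟩ false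
 (nat_lit 850) (Int.negSucc (nat_lit 29999)) (nat_lit 900) (Int.negSucc (nat_lit 29999)) qL160_20_5_17 =
 true := by decide +kernel

def qL160_20_5_18 : PCt := .one ⟨2008000, 251, 803200, 0, -602400, 0, 0, 100000, 900000, 950000⟩ ⟨0, .pol,
 .pol, .pol, .pol, .aff 1000000 0 0, .pol, .aff 12000000 47312789 2557449, .inf 4301163 232496, .pol⟩

def hL160_20_5_18 : pcchk ⟨(nat_lit 1), (nat_lit 1000), Int.ofNat (nat_lit 400), 0, ⟨0, 1⟩, ⟨Int.ofNat
 (nat_lit 20), 200⟩⟩ ⟨800000, 850000, 908191, 894532, 922059, 417256, 448290, 388374, 447213, 387298⟩ false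
 (nat_lit 900) (Int.negSucc (nat_lit 29999)) (nat_lit 950) (Int.negSucc (nat_lit 29999)) qL160_20_5_18 =
 true := by decide +kernel

def qL160_20_5_19 : PCt := .one ⟨2008000, 251, 803200, 0, -602400, 0, 0, 100000, 950000, 1000000⟩ ⟨0, .pol,
 .pol, .pol, .pol, .aff 1000000 0 0, .pol, .aff 8000000 25238859 1941451, .inf 4415881 226456, .pol⟩

def hL160_20_5_19 : pcchk ⟨(nat_lit 1), (nat_lit 1000), Int.ofNat (nat_lit 400), 0, ⟨0, 1⟩, ⟨Int.ofNat
 (nat_lit 20), 200⟩⟩ ⟨800000, 850000, 908191, 894532, 922059, 417256, 448290, 388374, 447213, 387298⟩ false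
 (nat_lit 950) (Int.negSucc (nat_lit 29999)) (nat_lit 1000) (Int.negSucc (nat_lit 29999)) qL160_20_5_19 =
 true := by decide +kernel

def qL160_20_6_0 : PCt := .one ⟨2008000, 251, 2008000, 151804, 0, 0, 0, 100000, 0, 50000⟩ ⟨25000, .sp 250000
 (.aff 6324556 158114) .pol, .pol, .pol, .pol, .pol, .aff 0 7735962 129267, .pol, .pol, .pol⟩

def hL160_20_6_0 : pcchk ⟨(nat_lit 1), (nat_lit 1000), Int.ofNat (nat_lit 1000), 0, ⟨0, 1⟩, ⟨Int.ofNat
 (nat_lit 20), 200⟩⟩ ⟨800000, 850000, 908191, 894532, 922059, 417256, 448290, 388374, 447213, 387298⟩ true 0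
 0 (nat_lit 50) (Int.ofNat (nat_lit 378)) qL160_20_6_0 = true := by decide +kernel

def qL160_20_6_1 : PCt := .one ⟨2008000, 251, 2008000, 194776, -2149, 0, 0, 100000, 50000, 100000⟩ ⟨0, .pol,
 .pol, .pol, .pol, .aff 0 7618323 131263, .pol, .pol, .sx 50000 .pol .pol, .pol⟩

def hL160_20_6_1 : pcchk ⟨(nat_lit 1), (nat_lit 1000), Int.ofNat (nat_lit 1000), 0, ⟨0, 1⟩, ⟨Int.ofNat
 (nat_lit 20), 200⟩⟩ ⟨800000, 850000, 908191, 894532, 922059, 417256, 448290, 388374, 447213, 387298⟩ false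
 (nat_lit 50) (Int.ofNat (nat_lit 378)) (nat_lit 100) (Int.ofNat (nat_lit 863)) qL160_20_6_1 = true := by
 decide +kernel

def qL160_20_6_2 : PCt := .one ⟨2008000, 251, 2008000, 178310, -502, 0, 0, 100000, 100000, 150000⟩ ⟨0, .pol,
 .pol, .pol, .pol, .sx 50000 (.sx 25000 (.sx 12500 (.sx 6250 (.sx 3125 (.sy 125000 (.sx 1562 (.aff 75000
 8252627 103680) (.aff 94000 7599948 108006)) (.aff 175000 7739187 87946)) (.aff 125000 6045636 126641))
 (.aff 250000 2738613 205396)) (.aff 0 2581989 387299)) (.aff 0 1825742 547723)) .pol, .pol, .pol, .pol,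
 .pol⟩

def hL160_20_6_2 : pcchk ⟨(nat_lit 1), (nat_lit 1000), Int.ofNat (nat_lit 1000), 0, ⟨0, 1⟩, ⟨Int.ofNat
 (nat_lit 20), 200⟩⟩ ⟨800000, 850000, 908191, 894532, 922059, 417256, 448290, 388374, 447213, 387298⟩ false
 (nat_lit 100) (Int.ofNat (nat_lit 863)) (nat_lit 150) (Int.ofNat (nat_lit 1307)) qL160_20_6_2 = true := by
 decide +kernel

def qL160_20_6_3 : PCt := .one ⟨2008000, 251, 2008000, 70681, 15642, 0, 0, 100000, 150000, 200000⟩ ⟨0, .pol,
 .pol, .pol, .pol, .sx 50000 (.sx 25000 (.sy 175000 (.aff 350000 7658112 55171) (.sx 12500 (.sy 187500 (.sy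
 181250 (.sy 178125 (.sx 6250 (.sx 3125 (.aff 482000 7787248 34457) (.aff 1000000 0 0)) (.aff 1000000 0 0))
 (.sx 6250 (.sx 3125 (.aff 488000 7764865 33761) (.aff 1000000 0 0)) (.aff 1000000 0 0))) (.sx 6250 (.sx
 3125 (.aff 500000 7681146 32548) (.aff 1000000 0 0)) (.aff 1000000 0 0))) (.sx 6250 (.sx 3125 (.aff 500000
 7874008 31751) (.aff 1000000 0 0)) (.aff 1000000 0 0))) (.aff 1000000 0 0))) (.aff 0 2160247 462911)) .pol,
 .pol, .pol, .pol, .pol⟩

def hL160_20_6_3 : pcchk ⟨(nat_lit 1), (nat_lit 1000), Int.ofNat (nat_lit 1000), 0, ⟨0, 1⟩, ⟨Int.ofNat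
 (nat_lit 20), 200⟩⟩ ⟨800000, 850000, 908191, 894532, 922059, 417256, 448290, 388374, 447213, 387298⟩ false
 (nat_lit 150) (Int.ofNat (nat_lit 1307)) (nat_lit 200) (Int.ofNat (nat_lit 1483)) qL160_20_6_3 = true := by
 decide +kernel

def qL160_20_6_4 : PCt := .one ⟨2008000, 251, 2008000, -208029, 71384, 0, 0, 100000, 200000, 250000⟩ ⟨0,
 .pol, .pol, .pol, .pol, .sx 50000 (.sx 25000 (.aff 1537000 8542061 33759) (.aff 1000000 0 0)) (.aff 0
 1732051 577351), .pol, .pol, .pol, .pol⟩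

def hL160_20_6_4 : pcchk ⟨(nat_lit 1), (nat_lit 1000), Int.ofNat (nat_lit 1000), 0, ⟨0, 1⟩, ⟨Int.ofNat
 (nat_lit 20), 200⟩⟩ ⟨800000, 850000, 908191, 894532, 922059, 417256, 448290, 388374, 447213, 387298⟩ false
 (nat_lit 200) (Int.ofNat (nat_lit 1483)) (nat_lit 250) (Int.ofNat (nat_lit 965)) qL160_20_6_4 = true := by
 decide +kernel

def qL160_20_6_5 : PCt := .one ⟨2008000, 251, 2008000, -477904, 138853, 0, 0, 100000, 250000, 300000⟩ ⟨0,
 .pol, .pol, .pol, .pol, .sy 275000 (.sx 50000 (.sx 25000 (.sy 262500 (.aff 2200000 9384953 153438) (.sx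
 12500 (.sx 6250 (.aff 3000000 13114878 304998) (.aff 2500000 8797727 255748)) (.aff 1000000 0 0))) (.aff
 1000000 0 0)) (.aff 1000000 0 0)) (.sy 287500 (.sy 281250 (.sx 50000 (.sx 25000 (.sx 12500 (.aff 2800000
 9804081 330475) (.aff 1000000 0 0)) (.aff 1000000 0 0)) (.aff 1000000 0 0)) (.sx 50000 (.sx 25000 (.sx
 12500 (.aff 2800000 9913627 326823) (.aff 1000000 0 0)) (.aff 1000000 0 0)) (.aff 1000000 0 0))) (.sx 50000
 (.aff 3025000 9816552 417726) (.aff 1000000 0 0))), .pol, .pol, .pol, .pol⟩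

def hL160_20_6_5 : pcchk ⟨(nat_lit 1), (nat_lit 1000), Int.ofNat (nat_lit 1000), 0, ⟨0, 1⟩, ⟨Int.ofNat
 (nat_lit 20), 200⟩⟩ ⟨800000, 850000, 908191, 894532, 922059, 417256, 448290, 388374, 447213, 387298⟩ false
 (nat_lit 250) (Int.ofNat (nat_lit 965)) (nat_lit 300) (Int.negSucc (nat_lit 224)) qL160_20_6_5 = true := by
 decide +kernel

def qL160_20_6_6 : PCt := .one ⟨2008000, 251, 2008000, -666255, 195358, 0, 0, 100000, 300000, 350000⟩ ⟨0,
 .pol, .pol, .pol, .pol, .sy 325000 (.sx 50000 (.sy 312500 (.sy 306250 (.aff 2950000 9602637 395985) (.sy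
 309375 (.sx 25000 (.aff 2975000 9800658 397997) (.aff 1000000 0 0)) (.sx 25000 (.sx 12500 (.aff 3000000
 9974969 401004) (.aff 3200000 9814072 493170)) (.aff 1000000 0 0)))) (.sy 318750 (.sy 315625 (.sx 25000
 (.sx 12500 (.aff 5000000 23151674 691095) (.aff 3200000 9863266 490710)) (.aff 1000000 0 0)) (.sx 25000
 (.sx 12500 (.aff 5000000 28495614 561490) (.aff 3200000 9912215 488287)) (.aff 1000000 0 0))) (.sy 321875
 (.sx 25000 (.sx 12500 (.aff 5000000 28635643 558745) (.aff 3269000 9957258 517047)) (.aff 1000000 0 0))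
 (.sx 25000 (.sx 12500 (.aff 5000000 28774990 556039) (.sx 18750 (.aff 5000000 18198902 879174) (.aff
 3400000 9576896 601448))) (.aff 1000000 0 0))))) (.aff 1000000 0 0)) (.sx 50000 (.sx 25000 (.sx 12500 (.aff
 5000000 29393877 544332) (.aff 3424000 10067030 583666)) (.aff 3300000 9232060 573004)) (.aff 1000000 0
 0)), .pol, .pol, .pol, .pol⟩

def hL160_20_6_6 : pcchk ⟨(nat_lit 1), (nat_lit 1000), Int.ofNat (nat_lit 1000), 0, ⟨0, 1⟩, ⟨Int.ofNat
 (nat_lit 20), 200⟩⟩ ⟨800000, 850000, 908191, 894532, 922059, 417256, 448290, 388374, 447213, 387298⟩ false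
 (nat_lit 300) (Int.negSucc (nat_lit 224)) (nat_lit 350) (Int.negSucc (nat_lit 1883)) qL160_20_6_6 = true :=
 by decide +kernel

def qL160_20_6_7 : PCt := .one ⟨2008000, 251, 2008000, -885127, 271963, 0, 0, 100000, 350000, 400000⟩ ⟨0,
 .pol, .pol, .pol, .pol, .sx 50000 (.sx 25000 (.aff 5000000 17888544 894428) (.sx 37500 (.sy 375000 (.aff
 4600000 11192855 1157882) (.aff 5000000 12858202 1244342)) (.sy 375000 (.sx 43750 (.aff 3000000 6092619
 656533) (.aff 1000000 0 0)) (.aff 4700000 11183601 1224114)))) (.aff 1000000 0 0), .pol, .pol, .pol, .pol⟩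

def hL160_20_6_7 : pcchk ⟨(nat_lit 1), (nat_lit 1000), Int.ofNat (nat_lit 1000), 0, ⟨0, 1⟩, ⟨Int.ofNat
 (nat_lit 20), 200⟩⟩ ⟨800000, 850000, 908191, 894532, 922059, 417256, 448290, 388374, 447213, 387298⟩ false
 (nat_lit 350) (Int.negSucc (nat_lit 1883)) (nat_lit 400) (Int.negSucc (nat_lit 4087)) qL160_20_6_7 = true
 := by decide +kernel

def qL160_20_6_8 : PCt := .one ⟨2008000, 251, 2008000, -1038538, 333328, 0, 0, 100000, 400000, 450000⟩ ⟨0,
 .pol, .pol, .pol, .pol, .sx 50000 (.aff 5200000 12244999 1440589) (.sx 75000 (.sx 62500 (.sy 425000 (.aff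
 5105000 11367405 1482399) (.aff 5250000 11560040 1562495)) (.aff 5164000 10864954 1595856)) (.aff 1000000 0
 0)), .pol, .pol, .pol, .pol⟩

def hL160_20_6_8 : pcchk ⟨(nat_lit 1), (nat_lit 1000), Int.ofNat (nat_lit 1000), 0, ⟨0, 1⟩, ⟨Int.ofNat
 (nat_lit 20), 200⟩⟩ ⟨800000, 850000, 908191, 894532, 922059, 417256, 448290, 388374, 447213, 387298⟩ false
 (nat_lit 400) (Int.negSucc (nat_lit 4087)) (nat_lit 450) (Int.negSucc (nat_lit 6673)) qL160_20_6_8 = true
 := by decide +kernel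

def qL160_20_6_9 : PCt := .one ⟨2008000, 251, 2008000, -1236125, 422242, 0, 0, 100000, 450000, 500000⟩ ⟨0,
 .pol, .pol, .pol, .pol, .sx 50000 (.aff 8000000 24913183 1966831) (.sy 475000 (.sx 75000 (.aff 7100000
 15147993 2456432) (.aff 6100000 12167865 2137598)) (.sx 75000 (.aff 8000000 19549937 2506402) (.sx 87500
 (.aff 6500000 12982131 2330126) (.aff 6300000 12292471 2285139)))), .pol, .pol, .pol, .pol⟩

def hL160_20_6_9 : pcchk ⟨(nat_lit 1), (nat_lit 1000), Int.ofNat (nat_lit 1000), 0, ⟨0, 1⟩, ⟨Int.ofNat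
 (nat_lit 20), 200⟩⟩ ⟨800000, 850000, 908191, 894532, 922059, 417256, 448290, 388374, 447213, 387298⟩ false
 (nat_lit 450) (Int.negSucc (nat_lit 6673)) (nat_lit 500) (Int.negSucc (nat_lit 9751)) qL160_20_6_9 = true
 := by decide +kernel

def qL160_20_6_10 : PCt := .one ⟨2008000, 251, 2008000, -8131597, 3869978, 0, 0, 100000, 500000, 550000⟩ ⟨0,
 .pol, .pol, .pol, .pol, .sy 525000 (.aff 37400000 82404005 16078831) (.aff 35000000 78825758 14665258),
 .pol, .sx 50000 (.aff 20000000 71091491 5077964) (.sx 75000 (.aff 35000000 98541362 11731115) (.sx 87500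
 (.aff 35000000 86426492 13375529) (.sx 93750 (.inf 2406887 415475) (.sy 525000 (.sy 512500 .pol (.inf
 2314053 432143)) (.inf 2355502 424538))))), .sy 525000 (.sy 512500 (.sx 50000 (.inf 4500000 222223) .pol)
 (.inf 2576820 388076)) (.inf 2622976 381247), .pol⟩

def hL160_20_6_10 : pcchk ⟨(nat_lit 1), (nat_lit 1000), Int.ofNat (nat_lit 1000), 0, ⟨0, 1⟩, ⟨Int.ofNat
 (nat_lit 20), 200⟩⟩ ⟨800000, 850000, 908191, 894532, 922059, 417256, 448290, 388374, 447213, 387298⟩ false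
 (nat_lit 500) (Int.negSucc (nat_lit 9751)) (nat_lit 550) (Int.negSucc (nat_lit 29999)) qL160_20_6_10 = true
 := by decide +kernel

def qL160_20_6_11 : PCt := .one ⟨2008000, 251, 2008000, 0, -602400, 0, 0, 100000, 550000, 600000⟩ ⟨0, .pol,
 .pol, .pol, .pol, .aff 12000000 26377074 4587318, .pol, .inf 3391165 294884, .inf 3391165 294884, .pol⟩

def hL160_20_6_11 : pcchk ⟨(nat_lit 1), (nat_lit 1000), Int.ofNat (nat_lit 1000), 0, ⟨0, 1⟩, ⟨Int.ofNat
 (nat_lit 20), 200⟩⟩ ⟨800000, 850000, 908191, 894532, 922059, 417256, 448290, 388374, 447213, 387298⟩ false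
 (nat_lit 550) (Int.negSucc (nat_lit 29999)) (nat_lit 600) (Int.negSucc (nat_lit 29999)) qL160_20_6_11 =
 true := by decide +kernel

def qL160_20_6_12 : PCt := .one ⟨2008000, 251, 2008000, 0, -602400, 0, 0, 100000, 600000, 650000⟩ ⟨0, .pol,
 .pol, .pol, .pol, .aff 5000000 11547006 1385641, .pol, .aff 35000000 98149546 11777946, .inf 3535534
 282843, .pol⟩

def hL160_20_6_12 : pcchk ⟨(nat_lit 1), (nat_lit 1000), Int.ofNat (nat_lit 1000), 0, ⟨0, 1⟩, ⟨Int.ofNat
 (nat_lit 20), 200⟩⟩ ⟨800000, 850000, 908191, 894532, 922059, 417256, 448290, 388374, 447213, 387298⟩ false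
 (nat_lit 600) (Int.negSucc (nat_lit 29999)) (nat_lit 650) (Int.negSucc (nat_lit 29999)) qL160_20_6_12 =
 true := by decide +kernel

def qL160_20_6_13 : PCt := .one ⟨2008000, 251, 2008000, 0, -602400, 0, 0, 100000, 650000, 700000⟩ ⟨0, .pol,
 .pol, .pol, .pol, .aff 2000000 3000001 333334, .pol, .aff 20000000 57000001 6333334, .inf 3674235 272166,
 .pol⟩

def hL160_20_6_13 : pcchk ⟨(nat_lit 1), (nat_lit 1000), Int.ofNat (nat_lit 1000), 0, ⟨0, 1⟩, ⟨Int.ofNat
 (nat_lit 20), 200⟩⟩ ⟨800000, 850000, 908191, 894532, 922059, 417256, 448290, 388374, 447213, 387298⟩ false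
 (nat_lit 650) (Int.negSucc (nat_lit 29999)) (nat_lit 700) (Int.negSucc (nat_lit 29999)) qL160_20_6_13 =
 true := by decide +kernel

def qL160_20_6_14 : PCt := .one ⟨2008000, 251, 2008000, 0, -602400, 0, 0, 100000, 700000, 750000⟩ ⟨0, .pol,
 .pol, .pol, .pol, .aff 1500000 1903944 131307, .pol, .aff 20000000 72349845 4989645, .inf 3807887 262613,
 .pol⟩

def hL160_20_6_14 : pcchk ⟨(nat_lit 1), (nat_lit 1000), Int.ofNat (nat_lit 1000), 0, ⟨0, 1⟩, ⟨Int.ofNat
 (nat_lit 20), 200⟩⟩ ⟨800000, 850000, 908191, 894532, 922059, 417256, 448290, 388374, 447213, 387298⟩ false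
 (nat_lit 700) (Int.negSucc (nat_lit 29999)) (nat_lit 750) (Int.negSucc (nat_lit 29999)) qL160_20_6_14 =
 true := by decide +kernel

def qL160_20_6_15 : PCt := .one ⟨2008000, 251, 2008000, 0, -602400, 0, 0, 100000, 750000, 800000⟩ ⟨0, .pol,
 .pol, .pol, .pol, .aff 1500000 1968502 127001, .pol, .aff 12000000 35360053 3421941, .inf 3937004 254001,
 .pol⟩

def hL160_20_6_15 : pcchk ⟨(nat_lit 1), (nat_lit 1000), Int.ofNat (nat_lit 1000), 0, ⟨0, 1⟩, ⟨Int.ofNat
 (nat_lit 20), 200⟩⟩ ⟨800000, 850000, 908191, 894532, 922059, 417256, 448290, 388374, 447213, 387298⟩ false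
 (nat_lit 750) (Int.negSucc (nat_lit 29999)) (nat_lit 800) (Int.negSucc (nat_lit 29999)) qL160_20_6_15 =
 true := by decide +kernel

def qL160_20_6_16 : PCt := .one ⟨2008000, 251, 2008000, 0, -602400, 0, 0, 100000, 800000, 850000⟩ ⟨0, .pol,
 .pol, .pol, .pol, .aff 1000000 0 0, .pol, .aff 12000000 44682212 2708013, .inf 4062020 246183, .pol⟩

def hL160_20_6_16 : pcchk ⟨(nat_lit 1), (nat_lit 1000), Int.ofNat (nat_lit 1000), 0, ⟨0, 1⟩, ⟨Int.ofNat
 (nat_lit 20), 200⟩⟩ ⟨800000, 850000, 908191, 894532, 922059, 417256, 448290, 388374, 447213, 387298⟩ false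
 (nat_lit 800) (Int.negSucc (nat_lit 29999)) (nat_lit 850) (Int.negSucc (nat_lit 29999)) qL160_20_6_16 =
 true := by decide +kernel

def qL160_20_6_17 : PCt := .one ⟨2008000, 251, 2008000, 0, -602400, 0, 0, 100000, 850000, 900000⟩ ⟨0, .pol,
 .pol, .pol, .pol, .aff 1000000 0 0, .pol, .aff 12000000 46016302 2629503, .inf 4183301 239046, .pol⟩

def hL160_20_6_17 : pcchk ⟨(nat_lit 1), (nat_lit 1000), Int.ofNat (nat_lit 1000), 0, ⟨0, 1⟩, ⟨Int.ofNat
 (nat_lit 20), 200⟩⟩ ⟨800000, 850000, 908191, 894532, 922059, 417256, 448290, 388374, 447213, 387298⟩ false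
 (nat_lit 850) (Int.negSucc (nat_lit 29999)) (nat_lit 900) (Int.negSucc (nat_lit 29999)) qL160_20_6_17 =
 true := by decide +kernel

def qL160_20_6_18 : PCt := .one ⟨2008000, 251, 2008000, 0, -602400, 0, 0, 100000, 900000, 950000⟩ ⟨0, .pol,
 .pol, .pol, .pol, .aff 1000000 0 0, .pol, .aff 8000000 24583193 1993232, .inf 4301163 232496, .pol⟩

def hL160_20_6_18 : pcchk ⟨(nat_lit 1), (nat_lit 1000), Int.ofNat (nat_lit 1000), 0, ⟨0, 1⟩, ⟨Int.ofNat
 (nat_lit 20), 200⟩⟩ ⟨800000, 850000, 908191, 894532, 922059, 417256, 448290, 388374, 447213, 387298⟩ false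
 (nat_lit 900) (Int.negSucc (nat_lit 29999)) (nat_lit 950) (Int.negSucc (nat_lit 29999)) qL160_20_6_18 =
 true := by decide +kernel

end CB
end Pool.Agent.Lib.MP_6947cd_al
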