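import Pool.Agent.Lib.MP_6947cd_al.L.PairSplit

/-!
Problem MP_6947cd_al (Chollet).  Library of pair functions: certificates of the pieces (generated).
-/

set_option autoImplicit false
set_option linter.defProp false
set_option maxRecDepth 100000

namespace Pool.Agent.Lib.MP_6947cd_al
namespace CB

open CA

def qL160_20_6_19 : PCt := .one ⟨2008000, 251, 2008000, 0, -602400, 0, 0, 100000, 950000, 1000000⟩ ⟨0, .pol,
 .pol, .pol, .pol, .aff 1000000 0 0, .pol, .aff 8000000 30911164 1585188, .inf 4415881 226456, .pol⟩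

def hL160_20_6_19 : pcchk ⟨(nat_lit 1), (nat_lit 1000), Int.ofNat (nat_lit 1000), 0, ⟨0, 1⟩, ⟨Int.ofNat
 (nat_lit 20), 200⟩⟩ ⟨800000, 850000, 908191, 894532, 922059, 417256, 448290, 388374, 447213, 387298⟩ false
 (nat_lit 950) (Int.negSucc (nat_lit 29999)) (nat_lit 1000) (Int.negSucc (nat_lit 29999)) qL160_20_6_19 =
 true := by decide +kernel

end CB
end Pool.Agent.Lib.MP_6947cd_al
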