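import Pool.Agent.Lib.MP_6947cd_al.L.PairSplit

/-!
Problem MP_6947cd_al (Chollet).  Library of pair functions: certificates of the pieces (generated).
-/

set_option autoImplicit false
set_option linter.defProp false
set_option maxRecDepth 100000

namespace Pool.Agent.Lib.MP_6947cd_al
namespace CB

open CA

def qL160_40_0_0 : PCt := .one ⟨2008000, 251, 502000, 387142, 0, 0, 0, 200000, 0, 50000⟩ ⟨50000, .aff
 1154701 866026, .aff 866026 1154700, .pol, .pol, .sx 125000 (.aff 126000 660027 1157341) (.aff 1000000 0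
 0), .aff 0 1154701 866026, .pol, .pol, .pol⟩

def hL160_40_0_0 : pcchk ⟨(nat_lit 3), (nat_lit 1000), Int.ofNat (nat_lit 250), 0, ⟨0, 1⟩, ⟨Int.ofNat
 (nat_lit 40), 200⟩⟩ ⟨800000, 850000, 908191, 894532, 922059, 417256, 448290, 388374, 447213, 387298⟩ true 0
 0 (nat_lit 50) (Int.ofNat (nat_lit 964)) qL160_40_0_0 = true := by decide +kernel

def qL160_40_0_1 : PCt := .one ⟨2008000, 251, 502000, 360235, 1345, 0, 0, 200000, 50000, 100000⟩ ⟨0, .pol,
 .pol, .pol, .pol, .sy 75000 (.sx 100000 (.sy 62500 (.sx 50000 (.aff 100000 1221531 663103) (.aff 250000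
 649520 866025)) (.sx 50000 (.sx 25000 (.aff 125000 1675498 456954) (.aff 150000 1150906 627767)) (.aff
 1000000 0 0))) (.aff 1000000 0 0)) (.sx 100000 (.sx 50000 (.sx 25000 (.aff 125000 1890217 405047) (.aff
 250000 1254991 448211)) (.aff 1000000 0 0)) (.aff 1000000 0 0)), .pol, .pol, .sy 75000 (.sy 62500 (.sy
 56250 (.sy 53125 (.sx 100000 (.sx 50000 .pol .pol) .pol) (.sx 100000 (.sx 50000 .pol .pol) .pol)) (.sy
 59375 (.sx 100000 (.sx 50000 .pol .pol) .pol) (.sx 100000 (.sx 50000 .pol .pol) .pol))) (.sy 68750 (.sy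
 65625 (.sx 100000 (.sx 50000 .pol .pol) .pol) (.sx 100000 (.sx 50000 .pol .pol) .pol)) (.sy 71875 (.sx
 100000 (.sx 50000 .pol .pol) .pol) (.sx 100000 (.sx 50000 .pol .pol) .pol)))) (.sy 87500 (.sy 81250 (.sy
 78125 (.sx 100000 (.sx 50000 .pol .pol) .pol) (.sx 100000 (.sx 50000 .pol .pol) .pol)) (.sy 84375 (.sx
 100000 (.sx 50000 .pol .pol) .pol) (.sx 100000 (.sx 50000 .pol .pol) .pol))) (.sy 93750 (.sy 90625 (.sx
 100000 (.sx 50000 .pol .pol) .pol) (.sx 100000 (.sx 50000 .pol .pol) .pol)) (.sy 96875 (.sx 100000 (.sx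
 50000 .pol .pol) .pol) (.sx 100000 (.sx 50000 .pol .pol) .pol)))), .pol⟩

def hL160_40_0_1 : pcchk ⟨(nat_lit 3), (nat_lit 1000), Int.ofNat (nat_lit 250), 0, ⟨0, 1⟩, ⟨Int.ofNat
 (nat_lit 40), 200⟩⟩ ⟨800000, 850000, 908191, 894532, 922059, 417256, 448290, 388374, 447213, 387298⟩ false
 (nat_lit 50) (Int.ofNat (nat_lit 964)) (nat_lit 100) (Int.ofNat (nat_lit 1861)) qL160_40_0_1 = true := by
 decide +kernel

def qL160_40_0_2 : PCt := .one ⟨2008000, 251, 502000, 287947, 8574, 0, 0, 200000, 100000, 150000⟩ ⟨0, .pol,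
 .pol, .pol, .pol, .sx 100000 (.sy 125000 (.sx 50000 (.aff 525000 1655614 136279) (.aff 1000000 0 0)) (.sy
 137500 (.sy 131250 (.sx 50000 (.aff 500000 1620917 154234) (.aff 1000000 0 0)) (.sx 50000 (.sx 25000 (.aff
 625000 1738804 80875) (.aff 1000000 0 0)) (.aff 1000000 0 0))) (.sy 143750 (.sx 50000 (.sx 25000 (.aff
 625000 1778782 79057) (.aff 1000000 0 0)) (.aff 1000000 0 0)) (.sx 50000 (.sx 25000 (.aff 625000 1817880
 77357) (.aff 1000000 0 0)) (.aff 1000000 0 0))))) (.aff 1000000 0 0), .pol, .pol, .sx 100000 .pol .pol,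
 .pol⟩

def hL160_40_0_2 : pcchk ⟨(nat_lit 3), (nat_lit 1000), Int.ofNat (nat_lit 250), 0, ⟨0, 1⟩, ⟨Int.ofNat
 (nat_lit 40), 200⟩⟩ ⟨800000, 850000, 908191, 894532, 922059, 417256, 448290, 388374, 447213, 387298⟩ false
 (nat_lit 100) (Int.ofNat (nat_lit 1861)) (nat_lit 150) (Int.ofNat (nat_lit 2578)) qL160_40_0_2 = true := by
 decide +kernel

def qL160_40_0_3 : PCt := .one ⟨2008000, 251, 502000, 267465, 11646, 0, 0, 200000, 150000, 200000⟩ ⟨0, .pol,
 .pol, .pol, .pol, .sx 100000 (.sx 50000 (.sy 175000 (.aff 775000 1805468 28040) (.sx 25000 (.sx 12500 (.aff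
 875000 1444454 10818) (.aff 1000000 0 0)) (.aff 1000000 0 0))) (.aff 1000000 0 0)) (.aff 1000000 0 0),
 .pol, .pol, .sx 100000 .pol .pol, .pol⟩

def hL160_40_0_3 : pcchk ⟨(nat_lit 3), (nat_lit 1000), Int.ofNat (nat_lit 250), 0, ⟨0, 1⟩, ⟨Int.ofNat
 (nat_lit 40), 200⟩⟩ ⟨800000, 850000, 908191, 894532, 922059, 417256, 448290, 388374, 447213, 387298⟩ false
 (nat_lit 150) (Int.ofNat (nat_lit 2578)) (nat_lit 200) (Int.ofNat (nat_lit 3244)) qL160_40_0_3 = true := by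
 decide +kernel

def qL160_40_0_4 : PCt := .one ⟨2008000, 251, 502000, 239353, 17268, 0, 0, 200000, 200000, 250000⟩ ⟨0, .pol,
 .pol, .pol, .pol, .sx 100000 (.sx 50000 (.sx 25000 (.sy 225000 (.sx 12500 (.sx 6250 (.aff 1100000 1230191
 8129) (.aff 1000000 0 0)) (.aff 1000000 0 0)) (.aff 1250000 2299057 27186)) (.aff 1000000 0 0)) (.aff
 1000000 0 0)) (.aff 1000000 0 0), .pol, .pol, .pol, .pol⟩

def hL160_40_0_4 : pcchk ⟨(nat_lit 3), (nat_lit 1000), Int.ofNat (nat_lit 250), 0, ⟨0, 1⟩, ⟨Int.ofNat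
 (nat_lit 40), 200⟩⟩ ⟨800000, 850000, 908191, 894532, 922059, 417256, 448290, 388374, 447213, 387298⟩ false
 (nat_lit 200) (Int.ofNat (nat_lit 3244)) (nat_lit 250) (Int.ofNat (nat_lit 3840)) qL160_40_0_4 = true := by
 decide +kernel

def qL160_40_0_5 : PCt := .one ⟨2008000, 251, 502000, 226904, 20381, 0, 0, 200000, 250000, 300000⟩ ⟨0, .pol,
 .pol, .pol, .pol, .sx 100000 (.sy 275000 (.sx 50000 (.sx 25000 (.aff 1400000 2592297 61722) (.aff 1000000 0
 0)) (.aff 1000000 0 0)) (.sx 50000 (.sx 25000 (.aff 1588000 2819949 122607) (.aff 1000000 0 0)) (.aff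
 1000000 0 0))) (.aff 1000000 0 0), .pol, .pol, .pol, .pol⟩

def hL160_40_0_5 : pcchk ⟨(nat_lit 3), (nat_lit 1000), Int.ofNat (nat_lit 250), 0, ⟨0, 1⟩, ⟨Int.ofNat
 (nat_lit 40), 200⟩⟩ ⟨800000, 850000, 908191, 894532, 922059, 417256, 448290, 388374, 447213, 387298⟩ false
 (nat_lit 250) (Int.ofNat (nat_lit 3840)) (nat_lit 300) (Int.ofNat (nat_lit 4405)) qL160_40_0_5 = true := by
 decide +kernel

def qL160_40_0_6 : PCt := .one ⟨2008000, 251, 502000, 210036, 25441, 0, 0, 200000, 300000, 350000⟩ ⟨0, .pol,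
 .pol, .pol, .pol, .sx 100000 (.sy 325000 (.sy 312500 (.sx 50000 (.aff 1550000 2722362 111117) (.aff 1000000
 0 0)) (.sy 318750 (.sy 315625 (.sx 50000 (.sx 25000 (.aff 1550000 2756867 109727) (.aff 1000000 0 0)) (.aff
 1000000 0 0)) (.sx 50000 (.sx 25000 (.aff 1888000 3163014 249302) (.aff 1000000 0 0)) (.aff 1000000 0 0)))
 (.sy 321875 (.sy 320312 (.sx 50000 (.sx 25000 (.aff 1900000 3217578 251743) (.aff 1000000 0 0)) (.aff
 1000000 0 0)) (.sx 50000 (.sx 25000 (.aff 1900000 3225435 251129) (.aff 1000000 0 0)) (.aff 1000000 0 0)))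
 (.sx 50000 (.sx 25000 (.aff 1900000 3237187 250218) (.aff 1000000 0 0)) (.aff 1000000 0 0))))) (.sy 337500
 (.sy 331250 (.sy 328125 (.sx 50000 (.sx 25000 (.aff 1900000 3252788 249018) (.aff 1000000 0 0)) (.aff
 1000000 0 0)) (.sy 329687 (.sx 50000 (.sx 25000 (.aff 2000000 3627154 275699) (.aff 1000000 0 0)) (.aff
 1000000 0 0)) (.sx 50000 (.sx 25000 (.aff 2000000 3635759 275046) (.aff 1000000 0 0)) (.aff 1000000 0 0))))
 (.sy 334375 (.sx 50000 (.sx 25000 (.aff 2000000 3648630 274076) (.aff 1000000 0 0)) (.aff 1000000 0 0))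
 (.sy 335937 (.sx 50000 (.sx 25000 (.aff 2000000 3661454 273116) (.aff 1000000 0 0)) (.aff 1000000 0 0))
 (.sx 50000 (.sx 25000 (.aff 2000000 3669979 272482) (.aff 1000000 0 0)) (.aff 1000000 0 0))))) (.sy 343750
 (.sy 340625 (.sx 50000 (.sx 25000 (.aff 2000000 4252451 235159) (.aff 1000000 0 0)) (.aff 1000000 0 0))
 (.sy 342187 (.sx 50000 (.sx 25000 (.aff 2000000 4267121 234351) (.aff 1000000 0 0)) (.aff 1000000 0 0))
 (.sx 50000 (.sx 25000 (.aff 2000000 4276875 233816) (.aff 1000000 0 0)) (.aff 1000000 0 0)))) (.sx 50000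
 (.sx 25000 (.aff 2000000 4301163 232496) (.aff 1900000 3025122 267758)) (.aff 1000000 0 0))))) (.aff
 1000000 0 0), .pol, .pol, .pol, .pol⟩

def hL160_40_0_6 : pcchk ⟨(nat_lit 3), (nat_lit 1000), Int.ofNat (nat_lit 250), 0, ⟨0, 1⟩, ⟨Int.ofNat
 (nat_lit 40), 200⟩⟩ ⟨800000, 850000, 908191, 894532, 922059, 417256, 448290, 388374, 447213, 387298⟩ false
 (nat_lit 300) (Int.ofNat (nat_lit 4405)) (nat_lit 350) (Int.ofNat (nat_lit 4928)) qL160_40_0_6 = true := by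
 decide +kernel

def qL160_40_0_7 : PCt := .one ⟨2008000, 251, 502000, 199996, 28955, 0, 0, 200000, 350000, 400000⟩ ⟨0, .pol,
 .pol, .pol, .pol, .sy 375000 (.sx 100000 (.sx 50000 (.sx 25000 (.aff 2000000 4396969 227430) (.aff 2000000
 3109127 321634)) (.aff 1000000 0 0)) (.aff 1000000 0 0)) (.sx 100000 (.sx 50000 (.aff 2000000 3214551
 311086) (.aff 1000000 0 0)) (.aff 1000000 0 0)), .pol, .pol, .pol, .pol⟩

def hL160_40_0_7 : pcchk ⟨(nat_lit 3), (nat_lit 1000), Int.ofNat (nat_lit 250), 0, ⟨0, 1⟩, ⟨Int.ofNat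
 (nat_lit 40), 200⟩⟩ ⟨800000, 850000, 908191, 894532, 922059, 417256, 448290, 388374, 447213, 387298⟩ false
 (nat_lit 350) (Int.ofNat (nat_lit 4928)) (nat_lit 400) (Int.ofNat (nat_lit 5426)) qL160_40_0_7 = true := by
 decide +kernel

def qL160_40_0_8 : PCt := .one ⟨2008000, 251, 502000, 191161, 32489, 0, 0, 200000, 400000, 450000⟩ ⟨0, .pol,
 .pol, .pol, .pol, .sy 425000 (.sy 412500 (.sx 100000 (.sx 50000 (.aff 2900000 5415834 666565) (.aff 2100000
 2804461 431456)) (.aff 1000000 0 0)) (.sy 418750 (.sx 100000 (.sx 50000 (.aff 3000000 6658329 600752) (.aff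
 2100000 2836636 426562)) (.aff 1000000 0 0)) (.sx 100000 (.sx 50000 (.aff 3000000 6708204 596285) (.aff
 2200000 3117692 461881)) (.aff 1000000 0 0)))) (.sy 437500 (.sy 431250 (.sx 100000 (.sx 50000 (.aff 3000000
 6757712 591917) (.aff 2200000 3140701 458497)) (.aff 1000000 0 0)) (.sx 100000 (.sx 50000 (.aff 3000000
 6806860 587643) (.aff 2200000 3163543 455186)) (.aff 1000000 0 0))) (.sy 443750 (.sx 100000 (.sx 50000
 (.aff 3000000 6855655 583460) (.aff 2150000 3053462 433115)) (.aff 1000000 0 0)) (.sx 100000 (.sx 50000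
 (.aff 3000000 6904106 579366) (.aff 2150000 3075041 430076)) (.aff 1000000 0 0)))), .pol, .pol, .pol, .pol⟩

def hL160_40_0_8 : pcchk ⟨(nat_lit 3), (nat_lit 1000), Int.ofNat (nat_lit 250), 0, ⟨0, 1⟩, ⟨Int.ofNat
 (nat_lit 40), 200⟩⟩ ⟨800000, 850000, 908191, 894532, 922059, 417256, 448290, 388374, 447213, 387298⟩ false
 (nat_lit 400) (Int.ofNat (nat_lit 5426)) (nat_lit 450) (Int.ofNat (nat_lit 5902)) qL160_40_0_8 = true := by
 decide +kernel

def qL160_40_0_9 : PCt := .one ⟨2008000, 251, 502000, 185940, 34838, 0, 0, 200000, 450000, 500000⟩ ⟨0, .pol,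
 .pol, .pol, .pol, .sy 475000 (.sy 462500 (.sy 456250 (.sx 100000 (.sx 50000 (.aff 3000000 6952218 575356)
 (.sx 75000 (.aff 3000000 4915961 813677) (.aff 1000000 0 0))) (.aff 1000000 0 0)) (.sx 100000 (.sx 50000
 (.aff 3000000 7000000 571429) (.sx 75000 (.aff 3000000 5169843 773718) (.aff 2000000 2377782 420561)))
 (.aff 1000000 0 0))) (.sy 468750 (.sx 100000 (.sx 50000 (.aff 3000000 8631339 463428) (.sx 75000 (.aff
 3000000 5458938 732744) (.aff 2100000 2633293 459501))) (.aff 1000000 0 0)) (.sx 100000 (.sx 50000 (.aff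
 3000000 8689074 460349) (.sx 75000 (.aff 3000000 5495453 727875) (.aff 2200000 2891899 497943))) (.aff
 1000000 0 0)))) (.sx 100000 (.sx 50000 (.aff 3000000 8831761 452911) (.aff 2657000 3658557 750474)) (.aff
 1500000 987421 253185)), .pol, .pol, .pol, .pol⟩

def hL160_40_0_9 : pcchk ⟨(nat_lit 3), (nat_lit 1000), Int.ofNat (nat_lit 250), 0, ⟨0, 1⟩, ⟨Int.ofNat
 (nat_lit 40), 200⟩⟩ ⟨800000, 850000, 908191, 894532, 922059, 417256, 448290, 388374, 447213, 387298⟩ false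
 (nat_lit 450) (Int.ofNat (nat_lit 5902)) (nat_lit 500) (Int.ofNat (nat_lit 6365)) qL160_40_0_9 = true := by
 decide +kernel

def qL160_40_0_10 : PCt := .one ⟨2008000, 251, 502000, 178310, 38654, 0, 0, 200000, 500000, 550000⟩ ⟨0,
 .pol, .pol, .pol, .pol, .sx 100000 (.aff 3000000 4582576 872872) (.sx 150000 (.aff 2675000 3440788 815402)
 (.aff 1000000 0 0)), .pol, .pol, .pol, .pol⟩

def hL160_40_0_10 : pcchk ⟨(nat_lit 3), (nat_lit 1000), Int.ofNat (nat_lit 250), 0, ⟨0, 1⟩, ⟨Int.ofNat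
 (nat_lit 40), 200⟩⟩ ⟨800000, 850000, 908191, 894532, 922059, 417256, 448290, 388374, 447213, 387298⟩ false
 (nat_lit 500) (Int.ofNat (nat_lit 6365)) (nat_lit 550) (Int.ofNat (nat_lit 6809)) qL160_40_0_10 = true :=
 by decide +kernel

def qL160_40_0_11 : PCt := .one ⟨2008000, 251, 502000, 178712, 38433, 0, 0, 200000, 550000, 600000⟩ ⟨0,
 .pol, .pol, .pol, .pol, .sx 100000 (.aff 3000000 5537750 722316) (.sx 150000 (.aff 2888000 3696497 964304)
 (.aff 2852000 3442019 996481)), .pol, .pol, .pol, .pol⟩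

def hL160_40_0_11 : pcchk ⟨(nat_lit 3), (nat_lit 1000), Int.ofNat (nat_lit 250), 0, ⟨0, 1⟩, ⟨Int.ofNat
 (nat_lit 40), 200⟩⟩ ⟨800000, 850000, 908191, 894532, 922059, 417256, 448290, 388374, 447213, 387298⟩ false
 (nat_lit 550) (Int.ofNat (nat_lit 6809)) (nat_lit 600) (Int.ofNat (nat_lit 7254)) qL160_40_0_11 = true :=
 by decide +kernel

def qL160_40_0_12 : PCt := .one ⟨2008000, 251, 502000, 177908, 38915, 0, 0, 200000, 600000, 650000⟩ ⟨0,
 .pol, .pol, .pol, .pol, .sx 100000 (.aff 3000000 5773503 692821) (.sx 150000 (.aff 3000000 4264015 938084)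
 (.aff 2950000 3560197 1068059)), .pol, .pol, .pol, .pol⟩

def hL160_40_0_12 : pcchk ⟨(nat_lit 3), (nat_lit 1000), Int.ofNat (nat_lit 250), 0, ⟨0, 1⟩, ⟨Int.ofNat
 (nat_lit 40), 200⟩⟩ ⟨800000, 850000, 908191, 894532, 922059, 417256, 448290, 388374, 447213, 387298⟩ false
 (nat_lit 600) (Int.ofNat (nat_lit 7254)) (nat_lit 650) (Int.ofNat (nat_lit 7697)) qL160_40_0_12 = true :=
 by decide +kernel

def qL160_40_0_13 : PCt := .one ⟨2008000, 251, 502000, -15139116, 9994980, 0, 0, 200000, 650000, 700000⟩ ⟨0,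
 .pol, .pol, .pol, .pol, .sx 100000 (.aff 35000000 124923977 9253628) (.inf 1697057 589256), .pol, .pol, .sx
 100000 (.inf 3674235 272166) (.inf 1697057 589256), .pol⟩

def hL160_40_0_13 : pcchk ⟨(nat_lit 3), (nat_lit 1000), Int.ofNat (nat_lit 250), 0, ⟨0, 1⟩, ⟨Int.ofNat
 (nat_lit 40), 200⟩⟩ ⟨800000, 850000, 908191, 894532, 922059, 417256, 448290, 388374, 447213, 387298⟩ false
 (nat_lit 650) (Int.ofNat (nat_lit 7697)) (nat_lit 700) (Int.negSucc (nat_lit 29999)) qL160_40_0_13 = true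
 := by decide +kernel

def qL160_40_0_14 : PCt := .one ⟨2008000, 251, 502000, 0, -602400, 0, 0, 200000, 700000, 750000⟩ ⟨0, .pol,
 .pol, .pol, .pol, .inf 2154066 464239, .pol, .pol, .inf 2154066 464239, .pol⟩

def hL160_40_0_14 : pcchk ⟨(nat_lit 3), (nat_lit 1000), Int.ofNat (nat_lit 250), 0, ⟨0, 1⟩, ⟨Int.ofNat
 (nat_lit 40), 200⟩⟩ ⟨800000, 850000, 908191, 894532, 922059, 417256, 448290, 388374, 447213, 387298⟩ false
 (nat_lit 700) (Int.negSucc (nat_lit 29999)) (nat_lit 750) (Int.negSucc (nat_lit 29999)) qL160_40_0_14 =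
 true := by decide +kernel

def qL160_40_0_15 : PCt := .one ⟨2008000, 251, 502000, 0, -602400, 0, 0, 200000, 750000, 800000⟩ ⟨0, .pol,
 .pol, .pol, .pol, .inf 2783883 359211, .pol, .pol, .inf 2783883 359211, .pol⟩

def hL160_40_0_15 : pcchk ⟨(nat_lit 3), (nat_lit 1000), Int.ofNat (nat_lit 250), 0, ⟨0, 1⟩, ⟨Int.ofNat
 (nat_lit 40), 200⟩⟩ ⟨800000, 850000, 908191, 894532, 922059, 417256, 448290, 388374, 447213, 387298⟩ false
 (nat_lit 750) (Int.negSucc (nat_lit 29999)) (nat_lit 800) (Int.negSucc (nat_lit 29999)) qL160_40_0_15 =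
 true := by decide +kernel

def qL160_40_0_16 : PCt := .one ⟨2008000, 251, 502000, 0, -602400, 0, 0, 200000, 800000, 850000⟩ ⟨0, .pol,
 .pol, .pol, .pol, .aff 35000000 79737068 14497649, .pol, .pol, .inf 2872282 348156, .pol⟩

def hL160_40_0_16 : pcchk ⟨(nat_lit 3), (nat_lit 1000), Int.ofNat (nat_lit 250), 0, ⟨0, 1⟩, ⟨Int.ofNat
 (nat_lit 40), 200⟩⟩ ⟨800000, 850000, 908191, 894532, 922059, 417256, 448290, 388374, 447213, 387298⟩ false
 (nat_lit 800) (Int.negSucc (nat_lit 29999)) (nat_lit 850) (Int.negSucc (nat_lit 29999)) qL160_40_0_16 =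
 true := by decide +kernel

def qL160_40_0_17 : PCt := .one ⟨2008000, 251, 502000, 0, -602400, 0, 0, 200000, 850000, 900000⟩ ⟨0, .pol,
 .pol, .pol, .pol, .aff 35000000 82117802 14077338, .pol, .pol, .inf 2958040 338062, .pol⟩

def hL160_40_0_17 : pcchk ⟨(nat_lit 3), (nat_lit 1000), Int.ofNat (nat_lit 250), 0, ⟨0, 1⟩, ⟨Int.ofNat
 (nat_lit 40), 200⟩⟩ ⟨800000, 850000, 908191, 894532, 922059, 417256, 448290, 388374, 447213, 387298⟩ false
 (nat_lit 850) (Int.negSucc (nat_lit 29999)) (nat_lit 900) (Int.negSucc (nat_lit 29999)) qL160_40_0_17 =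
 true := by decide +kernel

def qL160_40_0_18 : PCt := .one ⟨2008000, 251, 502000, 0, -602400, 0, 0, 200000, 900000, 950000⟩ ⟨0, .pol,
 .pol, .pol, .pol, .aff 20000000 40861046 8834821, .pol, .pol, .inf 3041382 328798, .pol⟩

def hL160_40_0_18 : pcchk ⟨(nat_lit 3), (nat_lit 1000), Int.ofNat (nat_lit 250), 0, ⟨0, 1⟩, ⟨Int.ofNat
 (nat_lit 40), 200⟩⟩ ⟨800000, 850000, 908191, 894532, 922059, 417256, 448290, 388374, 447213, 387298⟩ false
 (nat_lit 900) (Int.negSucc (nat_lit 29999)) (nat_lit 950) (Int.negSucc (nat_lit 29999)) qL160_40_0_18 =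
 true := by decide +kernel

def qL160_40_0_19 : PCt := .one ⟨2008000, 251, 502000, 0, -602400, 0, 0, 200000, 950000, 1000000⟩ ⟨0, .pol,
 .pol, .pol, .pol, .aff 20000000 48440686 7452414, .pol, .pol, .inf 3122499 320257, .pol⟩

def hL160_40_0_19 : pcchk ⟨(nat_lit 3), (nat_lit 1000), Int.ofNat (nat_lit 250), 0, ⟨0, 1⟩, ⟨Int.ofNat
 (nat_lit 40), 200⟩⟩ ⟨800000, 850000, 908191, 894532, 922059, 417256, 448290, 388374, 447213, 387298⟩ false
 (nat_lit 950) (Int.negSucc (nat_lit 29999)) (nat_lit 1000) (Int.negSucc (nat_lit 29999)) qL160_40_0_19 =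
 true := by decide +kernel

def qL160_40_1_0 : PCt := .one ⟨2008000, 251, 803200, 315256, 0, 0, 0, 200000, 0, 50000⟩ ⟨25000, .aff
 3162278 316228, .pol, .pol, .pol, .pol, .aff 0 3938815 253884, .pol, .pol, .pol⟩

def hL160_40_1_0 : pcchk ⟨(nat_lit 3), (nat_lit 1000), Int.ofNat (nat_lit 400), 0, ⟨0, 1⟩, ⟨Int.ofNat
 (nat_lit 40), 200⟩⟩ ⟨800000, 850000, 908191, 894532, 922059, 417256, 448290, 388374, 447213, 387298⟩ true 0
 0 (nat_lit 50) (Int.ofNat (nat_lit 785)) qL160_40_1_0 = true := by decide +kernel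

def qL160_40_1_1 : PCt := .one ⟨2008000, 251, 803200, 350596, -1768, 0, 0, 200000, 50000, 100000⟩ ⟨0, .pol,
 .pol, .pol, .pol, .sx 100000 (.sx 50000 (.sx 25000 (.aff 0 3900885 256353) (.aff 0 1414214 707107)) .pol)
 .pol, .pol, .pol, .sx 100000 (.sx 50000 .pol .pol) .pol, .pol⟩

def hL160_40_1_1 : pcchk ⟨(nat_lit 3), (nat_lit 1000), Int.ofNat (nat_lit 400), 0, ⟨0, 1⟩, ⟨Int.ofNat
 (nat_lit 40), 200⟩⟩ ⟨800000, 850000, 908191, 894532, 922059, 417256, 448290, 388374, 447213, 387298⟩ false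
 (nat_lit 50) (Int.ofNat (nat_lit 785)) (nat_lit 100) (Int.ofNat (nat_lit 1658)) qL160_40_1_1 = true := by
 decide +kernel

def qL160_40_1_2 : PCt := .one ⟨2008000, 251, 803200, 350596, -1768, 0, 0, 200000, 100000, 150000⟩ ⟨0, .pol,
 .pol, .pol, .pol, .sx 100000 (.sx 50000 (.sy 125000 (.sx 25000 (.sx 12500 (.sx 6250 (.sy 112500 (.sy 106250
 (.aff 125000 4104114 186551) (.aff 150000 4105891 175967)) (.aff 175000 4152409 163911)) (.aff 175000
 3130655 217407)) (.aff 500000 1224745 204125)) (.aff 0 1732051 577351)) (.aff 250000 3710868 151582)) (.aff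
 0 1290995 774597)) .pol, .pol, .pol, .sx 100000 .pol .pol, .pol⟩

def hL160_40_1_2 : pcchk ⟨(nat_lit 3), (nat_lit 1000), Int.ofNat (nat_lit 400), 0, ⟨0, 1⟩, ⟨Int.ofNat
 (nat_lit 40), 200⟩⟩ ⟨800000, 850000, 908191, 894532, 922059, 417256, 448290, 388374, 447213, 387298⟩ false
 (nat_lit 100) (Int.ofNat (nat_lit 1658)) (nat_lit 150) (Int.ofNat (nat_lit 2531)) qL160_40_1_2 = true := by
 decide +kernel

def qL160_40_1_3 : PCt := .one ⟨2008000, 251, 803200, 289955, 7329, 0, 0, 200000, 150000, 200000⟩ ⟨0, .pol,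
 .pol, .pol, .pol, .sx 100000 (.sx 50000 (.sy 175000 (.sy 162500 (.aff 375000 4026352 97018) (.sx 25000 (.sy
 168750 (.sx 12500 (.aff 600000 4344260 36831) (.aff 1000000 0 0)) (.sy 171875 (.sy 170312 (.sx 12500 (.aff
 500000 4278719 58429) (.aff 1000000 0 0)) (.aff 550000 4290086 47202)) (.sx 12500 (.sx 6250 (.aff 625000
 4366387 32207) (.aff 1000000 0 0)) (.aff 1000000 0 0)))) (.aff 1000000 0 0))) (.sx 25000 (.sx 12500 (.aff
 750000 4309742 14503) (.aff 1000000 0 0)) (.aff 1000000 0 0))) (.aff 1000000 0 0)) (.aff 0 1080124 925820),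
 .pol, .pol, .sx 100000 .pol .pol, .pol⟩

def hL160_40_1_3 : pcchk ⟨(nat_lit 3), (nat_lit 1000), Int.ofNat (nat_lit 400), 0, ⟨0, 1⟩, ⟨Int.ofNat
 (nat_lit 40), 200⟩⟩ ⟨800000, 850000, 908191, 894532, 922059, 417256, 448290, 388374, 447213, 387298⟩ false
 (nat_lit 150) (Int.ofNat (nat_lit 2531)) (nat_lit 200) (Int.ofNat (nat_lit 3253)) qL160_40_1_3 = true := by
 decide +kernel

def qL160_40_1_4 : PCt := .one ⟨2008000, 251, 803200, 218872, 21545, 0, 0, 200000, 200000, 250000⟩ ⟨0, .pol,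
 .pol, .pol, .pol, .sx 100000 (.sx 50000 (.sx 25000 (.aff 1325000 4796227 22023) (.aff 1000000 0 0)) (.aff
 1000000 0 0)) (.aff 1000000 0 0), .pol, .pol, .pol, .pol⟩

def hL160_40_1_4 : pcchk ⟨(nat_lit 3), (nat_lit 1000), Int.ofNat (nat_lit 400), 0, ⟨0, 1⟩, ⟨Int.ofNat
 (nat_lit 40), 200⟩⟩ ⟨800000, 850000, 908191, 894532, 922059, 417256, 448290, 388374, 447213, 387298⟩ false
 (nat_lit 200) (Int.ofNat (nat_lit 3253)) (nat_lit 250) (Int.ofNat (nat_lit 3798)) qL160_40_1_4 = true := by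
 decide +kernel

def qL160_40_1_5 : PCt := .one ⟨2008000, 251, 803200, 163852, 35300, 0, 0, 200000, 250000, 300000⟩ ⟨0, .pol,
 .pol, .pol, .pol, .sx 100000 (.sx 50000 (.sx 25000 (.sy 275000 (.sx 12500 (.sx 6250 (.aff 1900000 5832667
 138874) (.aff 1900000 5216896 155265)) (.aff 1000000 0 0)) (.sx 12500 (.aff 2000000 5537750 180579) (.aff
 1500000 2144762 116564))) (.aff 1000000 0 0)) (.aff 1000000 0 0)) (.aff 1000000 0 0), .pol, .pol, .pol,
 .pol⟩

def hL160_40_1_5 : pcchk ⟨(nat_lit 3), (nat_lit 1000), Int.ofNat (nat_lit 400), 0, ⟨0, 1⟩, ⟨Int.ofNat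
 (nat_lit 40), 200⟩⟩ ⟨800000, 850000, 908191, 894532, 922059, 417256, 448290, 388374, 447213, 387298⟩ false
 (nat_lit 250) (Int.ofNat (nat_lit 3798)) (nat_lit 300) (Int.ofNat (nat_lit 4206)) qL160_40_1_5 = true := by
 decide +kernel

def qL160_40_1_6 : PCt := .one ⟨2008000, 251, 803200, 120078, 48432, 0, 0, 200000, 300000, 350000⟩ ⟨0, .pol,
 .pol, .pol, .pol, .sx 100000 (.sy 325000 (.sy 312500 (.sx 50000 (.sx 25000 (.aff 2131000 5598165 228497)
 (.aff 1000000 0 0)) (.aff 1000000 0 0)) (.sx 50000 (.sy 318750 (.sx 25000 (.sx 12500 (.aff 3000000 11604597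
 344691) (.aff 2300000 5842774 289247)) (.aff 1000000 0 0)) (.sx 25000 (.sx 12500 (.aff 3000000 14352701
 278694) (.sx 18750 (.aff 3000000 8655004 462161) (.aff 2200000 4776868 301453))) (.aff 1000000 0 0))) (.aff
 1000000 0 0))) (.sy 337500 (.sx 50000 (.sx 25000 (.aff 2700000 6188094 467026) (.aff 1000000 0 0)) (.aff
 1000000 0 0)) (.sx 50000 (.sx 25000 (.aff 3000000 7416199 539360) (.aff 2400000 5671309 345600)) (.aff
 1000000 0 0)))) (.aff 1000000 0 0), .pol, .pol, .pol, .pol⟩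

def hL160_40_1_6 : pcchk ⟨(nat_lit 3), (nat_lit 1000), Int.ofNat (nat_lit 400), 0, ⟨0, 1⟩, ⟨Int.ofNat
 (nat_lit 40), 200⟩⟩ ⟨800000, 850000, 908191, 894532, 922059, 417256, 448290, 388374, 447213, 387298⟩ false
 (nat_lit 300) (Int.ofNat (nat_lit 4206)) (nat_lit 350) (Int.ofNat (nat_lit 4505)) qL160_40_1_6 = true := by
 decide +kernel

def qL160_40_1_7 : PCt := .one ⟨2008000, 251, 803200, 80721, 62207, 0, 0, 200000, 350000, 400000⟩ ⟨0, .pol,
 .pol, .pol, .pol, .sx 100000 (.sx 50000 (.sx 25000 (.aff 3000000 8944272 447214) (.aff 3000000 6324556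
 632456)) (.aff 1000000 0 0)) (.aff 1000000 0 0), .pol, .pol, .pol, .pol⟩

def hL160_40_1_7 : pcchk ⟨(nat_lit 3), (nat_lit 1000), Int.ofNat (nat_lit 400), 0, ⟨0, 1⟩, ⟨Int.ofNat
 (nat_lit 40), 200⟩⟩ ⟨800000, 850000, 908191, 894532, 922059, 417256, 448290, 388374, 447213, 387298⟩ false
 (nat_lit 350) (Int.ofNat (nat_lit 4505)) (nat_lit 400) (Int.ofNat (nat_lit 4706)) qL160_40_1_7 = true := by
 decide +kernel

def qL160_40_1_8 : PCt := .one ⟨2008000, 251, 803200, 47790, 75380, 0, 0, 200000, 400000, 450000⟩ ⟨0, .pol,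
 .pol, .pol, .pol, .sy 425000 (.sx 100000 (.sx 50000 (.aff 4100000 8904073 1079282) (.aff 3476000 6521988
 939986)) (.aff 1000000 0 0)) (.sx 100000 (.sx 50000 (.aff 5000000 13662602 1171081) (.aff 3400000 6349804
 907115)) (.aff 1000000 0 0)), .pol, .pol, .pol, .pol⟩

def hL160_40_1_8 : pcchk ⟨(nat_lit 3), (nat_lit 1000), Int.ofNat (nat_lit 400), 0, ⟨0, 1⟩, ⟨Int.ofNat
 (nat_lit 40), 200⟩⟩ ⟨800000, 850000, 908191, 894532, 922059, 417256, 448290, 388374, 447213, 387298⟩ false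
 (nat_lit 400) (Int.ofNat (nat_lit 4706)) (nat_lit 450) (Int.ofNat (nat_lit 4825)) qL160_40_1_8 = true := by
 decide +kernel

def qL160_40_1_9 : PCt := .one ⟨2008000, 251, 803200, 16064, 89657, 0, 0, 200000, 450000, 500000⟩ ⟨0, .pol,
 .pol, .pol, .pol, .sx 100000 (.sx 50000 (.aff 5000000 14236105 1123903) (.sx 75000 (.aff 4300000 8304818
 1311288) (.sx 87500 (.aff 4000000 6989789 1287593) (.aff 3800000 6410337 1223025)))) (.aff 1500000 974680
 256495), .pol, .pol, .pol, .pol⟩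

def hL160_40_1_9 : pcchk ⟨(nat_lit 3), (nat_lit 1000), Int.ofNat (nat_lit 400), 0, ⟨0, 1⟩, ⟨Int.ofNat
 (nat_lit 40), 200⟩⟩ ⟨800000, 850000, 908191, 894532, 922059, 417256, 448290, 388374, 447213, 387298⟩ false
 (nat_lit 450) (Int.ofNat (nat_lit 4825)) (nat_lit 500) (Int.ofNat (nat_lit 4865)) qL160_40_1_9 = true := by
 decide +kernel

def qL160_40_1_10 : PCt := .one ⟨2008000, 251, 803200, -11245, 103311, 0, 0, 200000, 500000, 550000⟩ ⟨0,
 .pol, .pol, .pol, .pol, .sx 100000 (.aff 5000000 9165152 1745744) (.sx 150000 (.aff 4341000 7036827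
 1586267) (.aff 1000000 0 0)), .pol, .pol, .pol, .pol⟩

def hL160_40_1_10 : pcchk ⟨(nat_lit 3), (nat_lit 1000), Int.ofNat (nat_lit 400), 0, ⟨0, 1⟩, ⟨Int.ofNat
 (nat_lit 40), 200⟩⟩ ⟨800000, 850000, 908191, 894532, 922059, 417256, 448290, 388374, 447213, 387298⟩ false
 (nat_lit 500) (Int.ofNat (nat_lit 4865)) (nat_lit 550) (Int.ofNat (nat_lit 4837)) qL160_40_1_10 = true :=
 by decide +kernel

def qL160_40_1_11 : PCt := .one ⟨2008000, 251, 803200, -38956, 118552, 0, 0, 200000, 550000, 600000⟩ ⟨0,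
 .pol, .pol, .pol, .pol, .sx 100000 (.aff 5000000 11075499 1444631) (.sx 150000 (.aff 4875000 7586824
 1979172) (.aff 4738000 7119922 1962472)), .pol, .pol, .pol, .pol⟩

def hL160_40_1_11 : pcchk ⟨(nat_lit 3), (nat_lit 1000), Int.ofNat (nat_lit 400), 0, ⟨0, 1⟩, ⟨Int.ofNat
 (nat_lit 40), 200⟩⟩ ⟨800000, 850000, 908191, 894532, 922059, 417256, 448290, 388374, 447213, 387298⟩ false
 (nat_lit 550) (Int.ofNat (nat_lit 4837)) (nat_lit 600) (Int.ofNat (nat_lit 4740)) qL160_40_1_11 = true :=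
 by decide +kernel

def qL160_40_1_12 : PCt := .one ⟨2008000, 251, 803200, -64256, 133732, 0, 0, 200000, 600000, 650000⟩ ⟨0,
 .pol, .pol, .pol, .pol, .sx 100000 (.aff 5000000 11547006 1385641) (.sx 150000 (.aff 5000000 8528029
 1876167) (.sx 175000 (.aff 5000000 7698004 2078461) (.aff 5000000 7302968 2190891))), .pol, .pol, .pol,
 .pol⟩

def hL160_40_1_12 : pcchk ⟨(nat_lit 3), (nat_lit 1000), Int.ofNat (nat_lit 400), 0, ⟨0, 1⟩, ⟨Int.ofNat
 (nat_lit 40), 200⟩⟩ ⟨800000, 850000, 908191, 894532, 922059, 417256, 448290, 388374, 447213, 387298⟩ false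
 (nat_lit 600) (Int.ofNat (nat_lit 4740)) (nat_lit 650) (Int.ofNat (nat_lit 4580)) qL160_40_1_12 = true :=
 by decide +kernel

def qL160_40_1_13 : PCt := .one ⟨2008000, 251, 803200, -13887328, 9118729, 0, 0, 200000, 650000, 700000⟩ ⟨0,
 .pol, .pol, .pol, .pol, .sx 100000 (.aff 35000000 124923977 9253628) (.inf 1697057 589256), .pol, .pol, .sx
 100000 (.inf 3674235 272166) (.inf 1697057 589256), .pol⟩

def hL160_40_1_13 : pcchk ⟨(nat_lit 3), (nat_lit 1000), Int.ofNat (nat_lit 400), 0, ⟨0, 1⟩, ⟨Int.ofNat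
 (nat_lit 40), 200⟩⟩ ⟨800000, 850000, 908191, 894532, 922059, 417256, 448290, 388374, 447213, 387298⟩ false
 (nat_lit 650) (Int.ofNat (nat_lit 4580)) (nat_lit 700) (Int.negSucc (nat_lit 29999)) qL160_40_1_13 = true
 := by decide +kernel

def qL160_40_1_14 : PCt := .one ⟨2008000, 251, 803200, 0, -602400, 0, 0, 200000, 700000, 750000⟩ ⟨0, .pol,
 .pol, .pol, .pol, .inf 2154066 464239, .pol, .pol, .inf 2154066 464239, .pol⟩

def hL160_40_1_14 : pcchk ⟨(nat_lit 3), (nat_lit 1000), Int.ofNat (nat_lit 400), 0, ⟨0, 1⟩, ⟨Int.ofNat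
 (nat_lit 40), 200⟩⟩ ⟨800000, 850000, 908191, 894532, 922059, 417256, 448290, 388374, 447213, 387298⟩ false
 (nat_lit 700) (Int.negSucc (nat_lit 29999)) (nat_lit 750) (Int.negSucc (nat_lit 29999)) qL160_40_1_14 =
 true := by decide +kernel

def qL160_40_1_15 : PCt := .one ⟨2008000, 251, 803200, 0, -602400, 0, 0, 200000, 750000, 800000⟩ ⟨0, .pol,
 .pol, .pol, .pol, .inf 2783883 359211, .pol, .pol, .inf 2783883 359211, .pol⟩

def hL160_40_1_15 : pcchk ⟨(nat_lit 3), (nat_lit 1000), Int.ofNat (nat_lit 400), 0, ⟨0, 1⟩, ⟨Int.ofNat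
 (nat_lit 40), 200⟩⟩ ⟨800000, 850000, 908191, 894532, 922059, 417256, 448290, 388374, 447213, 387298⟩ false
 (nat_lit 750) (Int.negSucc (nat_lit 29999)) (nat_lit 800) (Int.negSucc (nat_lit 29999)) qL160_40_1_15 =
 true := by decide +kernel

def qL160_40_1_16 : PCt := .one ⟨2008000, 251, 803200, 0, -602400, 0, 0, 200000, 800000, 850000⟩ ⟨0, .pol,
 .pol, .pol, .pol, .aff 35000000 79737068 14497649, .pol, .pol, .inf 2872282 348156, .pol⟩

def hL160_40_1_16 : pcchk ⟨(nat_lit 3), (nat_lit 1000), Int.ofNat (nat_lit 400), 0, ⟨0, 1⟩, ⟨Int.ofNat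
 (nat_lit 40), 200⟩⟩ ⟨800000, 850000, 908191, 894532, 922059, 417256, 448290, 388374, 447213, 387298⟩ false
 (nat_lit 800) (Int.negSucc (nat_lit 29999)) (nat_lit 850) (Int.negSucc (nat_lit 29999)) qL160_40_1_16 =
 true := by decide +kernel

def qL160_40_1_17 : PCt := .one ⟨2008000, 251, 803200, 0, -602400, 0, 0, 200000, 850000, 900000⟩ ⟨0, .pol,
 .pol, .pol, .pol, .aff 35000000 82117802 14077338, .pol, .pol, .inf 2958040 338062, .pol⟩

def hL160_40_1_17 : pcchk ⟨(nat_lit 3), (nat_lit 1000), Int.ofNat (nat_lit 400), 0, ⟨0, 1⟩, ⟨Int.ofNat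
 (nat_lit 40), 200⟩⟩ ⟨800000, 850000, 908191, 894532, 922059, 417256, 448290, 388374, 447213, 387298⟩ false
 (nat_lit 850) (Int.negSucc (nat_lit 29999)) (nat_lit 900) (Int.negSucc (nat_lit 29999)) qL160_40_1_17 =
 true := by decide +kernel

def qL160_40_1_18 : PCt := .one ⟨2008000, 251, 803200, 0, -602400, 0, 0, 200000, 900000, 950000⟩ ⟨0, .pol,
 .pol, .pol, .pol, .aff 20000000 47182271 7651179, .pol, .pol, .inf 3041382 328798, .pol⟩

def hL160_40_1_18 : pcchk ⟨(nat_lit 3), (nat_lit 1000), Int.ofNat (nat_lit 400), 0, ⟨0, 1⟩, ⟨Int.ofNat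
 (nat_lit 40), 200⟩⟩ ⟨800000, 850000, 908191, 894532, 922059, 417256, 448290, 388374, 447213, 387298⟩ false
 (nat_lit 900) (Int.negSucc (nat_lit 29999)) (nat_lit 950) (Int.negSucc (nat_lit 29999)) qL160_40_1_18 =
 true := by decide +kernel

def qL160_40_1_19 : PCt := .one ⟨2008000, 251, 803200, 0, -602400, 0, 0, 200000, 950000, 1000000⟩ ⟨0, .pol,
 .pol, .pol, .pol, .aff 20000000 48440686 7452414, .pol, .pol, .inf 3122499 320257, .pol⟩

def hL160_40_1_19 : pcchk ⟨(nat_lit 3), (nat_lit 1000), Int.ofNat (nat_lit 400), 0, ⟨0, 1⟩, ⟨Int.ofNat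
 (nat_lit 40), 200⟩⟩ ⟨800000, 850000, 908191, 894532, 922059, 417256, 448290, 388374, 447213, 387298⟩ false
 (nat_lit 950) (Int.negSucc (nat_lit 29999)) (nat_lit 1000) (Int.negSucc (nat_lit 29999)) qL160_40_1_19 =
 true := by decide +kernel

def qL160_40_2_0 : PCt := .one ⟨2008000, 251, 2008000, 294774, 0, 0, 0, 200000, 0, 50000⟩ ⟨12500, .sp 250000
 (.aff 6324556 158114) .pol, .pol, .pol, .pol, .pol, .aff 0 14172346 70560, .pol, .pol, .pol⟩

def hL160_40_2_0 : pcchk ⟨(nat_lit 3), (nat_lit 1000), Int.ofNat (nat_lit 1000), 0, ⟨0, 1⟩, ⟨Int.ofNat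
 (nat_lit 40), 200⟩⟩ ⟨800000, 850000, 908191, 894532, 922059, 417256, 448290, 388374, 447213, 387298⟩ true 0
 0 (nat_lit 50) (Int.ofNat (nat_lit 734)) qL160_40_2_0 = true := by decide +kernel

def qL160_40_2_1 : PCt := .one ⟨2008000, 251, 2008000, 329312, -1727, 0, 0, 200000, 50000, 100000⟩ ⟨0, .pol,
 .pol, .pol, .pol, .sx 100000 (.sx 50000 (.aff 0 14095841 70943) .pol) .pol, .pol, .pol, .sx 100000 (.sx
 50000 .pol .pol) .pol, .pol⟩

def hL160_40_2_1 : pcchk ⟨(nat_lit 3), (nat_lit 1000), Int.ofNat (nat_lit 1000), 0, ⟨0, 1⟩, ⟨Int.ofNat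
 (nat_lit 40), 200⟩⟩ ⟨800000, 850000, 908191, 894532, 922059, 417256, 448290, 388374, 447213, 387298⟩ false
 (nat_lit 50) (Int.ofNat (nat_lit 734)) (nat_lit 100) (Int.ofNat (nat_lit 1554)) qL160_40_2_1 = true := by
 decide +kernel

def qL160_40_2_2 : PCt := .one ⟨2008000, 251, 2008000, 358227, -4619, 0, 0, 200000, 100000, 150000⟩ ⟨0,
 .pol, .pol, .pol, .pol, .sx 100000 (.sy 125000 (.aff 0 13491215 74123) (.aff 100000 14111832 57399)) .pol,
 .pol, .pol, .sx 100000 .pol .pol, .pol⟩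

def hL160_40_2_2 : pcchk ⟨(nat_lit 3), (nat_lit 1000), Int.ofNat (nat_lit 1000), 0, ⟨0, 1⟩, ⟨Int.ofNat
 (nat_lit 40), 200⟩⟩ ⟨800000, 850000, 908191, 894532, 922059, 417256, 448290, 388374, 447213, 387298⟩ false
 (nat_lit 100) (Int.ofNat (nat_lit 1554)) (nat_lit 150) (Int.ofNat (nat_lit 2446)) qL160_40_2_2 = true := by
 decide +kernel

def qL160_40_2_3 : PCt := .one ⟨2008000, 251, 2008000, 342564, -2270, 0, 0, 200000, 150000, 200000⟩ ⟨0,
 .pol, .pol, .pol, .pol, .sx 100000 (.sx 50000 (.aff 350000 12046158 35074) .pol) .pol, .pol, .pol, .sx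
 100000 .pol .pol, .pol⟩

def hL160_40_2_3 : pcchk ⟨(nat_lit 3), (nat_lit 1000), Int.ofNat (nat_lit 1000), 0, ⟨0, 1⟩, ⟨Int.ofNat
 (nat_lit 40), 200⟩⟩ ⟨800000, 850000, 908191, 894532, 922059, 417256, 448290, 388374, 447213, 387298⟩ false
 (nat_lit 150) (Int.ofNat (nat_lit 2446)) (nat_lit 200) (Int.ofNat (nat_lit 3299)) qL160_40_2_3 = true := by
 decide +kernel

def qL160_40_2_4 : PCt := .one ⟨2008000, 251, 2008000, 139355, 38372, 0, 0, 200000, 200000, 250000⟩ ⟨0,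
 .pol, .pol, .pol, .pol, .sx 100000 (.sx 50000 (.sx 25000 (.aff 1900000 14678722 55182) (.aff 0 2449490
 408249)) .pol) .pol, .pol, .pol, .pol, .pol⟩

def hL160_40_2_4 : pcchk ⟨(nat_lit 3), (nat_lit 1000), Int.ofNat (nat_lit 1000), 0, ⟨0, 1⟩, ⟨Int.ofNat
 (nat_lit 40), 200⟩⟩ ⟨800000, 850000, 908191, 894532, 922059, 417256, 448290, 388374, 447213, 387298⟩ false
 (nat_lit 200) (Int.ofNat (nat_lit 3299)) (nat_lit 250) (Int.ofNat (nat_lit 3646)) qL160_40_2_4 = true := by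
 decide +kernel

def qL160_40_2_5 : PCt := .one ⟨2008000, 251, 2008000, -83935, 94195, 0, 0, 200000, 250000, 300000⟩ ⟨0,
 .pol, .pol, .pol, .pol, .sx 100000 (.sx 50000 (.sx 25000 (.sy 275000 (.sy 262500 (.aff 3000000 15641588
 255729) (.sy 268750 (.sy 265625 (.aff 2950000 15481280 245620) (.sy 267187 (.sy 266406 (.aff 2950000
 15538425 244716) (.sx 12500 (.sx 6250 (.aff 5000000 30177233 530202) (.aff 1000000 0 0)) (.aff 1000000 0
 0))) (.sy 267968 (.sx 12500 (.sx 6250 (.aff 5000000 30221370 529427) (.aff 1000000 0 0)) (.aff 1000000 0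
 0)) (.sx 12500 (.sx 6250 (.aff 5000000 30265471 528656) (.aff 3000000 11721767 341246)) (.aff 1000000 0
 0))))) (.sx 12500 (.sx 6250 (.aff 5000000 30463093 525226) (.aff 3350000 15320994 360454)) (.aff 1000000 0
 0)))) (.sx 12500 (.sy 287500 (.sx 6250 (.aff 5000000 30983867 516398) (.sx 9375 (.aff 4200000 17527122
 584238) (.aff 3500000 13155871 475074))) (.aff 4800000 18421184 783881)) (.aff 3000000 8579045 466253)))
 (.aff 1000000 0 0)) (.aff 0 1914855 522233)) .pol, .pol, .pol, .pol, .pol⟩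

def hL160_40_2_5 : pcchk ⟨(nat_lit 3), (nat_lit 1000), Int.ofNat (nat_lit 1000), 0, ⟨0, 1⟩, ⟨Int.ofNat
 (nat_lit 40), 200⟩⟩ ⟨800000, 850000, 908191, 894532, 922059, 417256, 448290, 388374, 447213, 387298⟩ false
 (nat_lit 250) (Int.ofNat (nat_lit 3646)) (nat_lit 300) (Int.ofNat (nat_lit 3437)) qL160_40_2_5 = true := by
 decide +kernel

def qL160_40_2_6 : PCt := .one ⟨2008000, 251, 2008000, -238149, 140459, 0, 0, 200000, 300000, 350000⟩ ⟨0,
 .pol, .pol, .pol, .pol, .sx 100000 (.sx 50000 (.sy 325000 (.sx 25000 (.aff 5377000 18093793 1058824) (.aff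
 1000000 0 0)) (.sx 25000 (.aff 5400000 17757189 1090263) (.aff 5100000 16457151 1021441))) (.aff 1000000 0
 0)) .pol, .pol, .pol, .pol, .pol⟩

def hL160_40_2_6 : pcchk ⟨(nat_lit 3), (nat_lit 1000), Int.ofNat (nat_lit 1000), 0, ⟨0, 1⟩, ⟨Int.ofNat
 (nat_lit 40), 200⟩⟩ ⟨800000, 850000, 908191, 894532, 922059, 417256, 448290, 388374, 447213, 387298⟩ false
 (nat_lit 300) (Int.ofNat (nat_lit 3437)) (nat_lit 350) (Int.ofNat (nat_lit 2844)) qL160_40_2_6 = true := by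
 decide +kernel

def qL160_40_2_7 : PCt := .one ⟨2008000, 251, 2008000, -401600, 197667, 0, 0, 200000, 350000, 400000⟩ ⟨0,
 .pol, .pol, .pol, .pol, .sx 100000 (.sx 50000 (.sx 25000 (.aff 8000000 31304952 1565248) (.sx 37500 (.sy
 375000 (.sx 31250 (.aff 7800000 23159966 1996549) (.aff 7138000 19566927 1925446)) (.aff 8000000 22501852
 2177599)) (.sy 375000 (.sx 43750 (.aff 5000000 12185237 1313065) (.aff 1000000 0 0)) (.aff 7275000 18966783
 2076031)))) (.aff 1000000 0 0)) (.aff 1000000 0 0), .pol, .pol, .pol, .pol⟩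

def hL160_40_2_7 : pcchk ⟨(nat_lit 3), (nat_lit 1000), Int.ofNat (nat_lit 1000), 0, ⟨0, 1⟩, ⟨Int.ofNat
 (nat_lit 40), 200⟩⟩ ⟨800000, 850000, 908191, 894532, 922059, 417256, 448290, 388374, 447213, 387298⟩ false
 (nat_lit 350) (Int.ofNat (nat_lit 2844)) (nat_lit 400) (Int.ofNat (nat_lit 1844)) qL160_40_2_7 = true := by
 decide +kernel

def qL160_40_2_8 : PCt := .one ⟨2008000, 251, 2008000, -522080, 245859, 0, 0, 200000, 400000, 450000⟩ ⟨0,
 .pol, .pol, .pol, .pol, .sx 100000 (.sx 50000 (.aff 8000000 20408332 2400981) (.sx 75000 (.sx 62500 (.sy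
 425000 (.aff 7930000 19070719 2518254) (.aff 8200000 19544282 2652439)) (.sy 425000 (.aff 1000000 0 0)
 (.aff 8200000 18590321 2788548))) (.aff 1000000 0 0))) (.aff 1000000 0 0), .pol, .pol, .pol, .pol⟩

def hL160_40_2_8 : pcchk ⟨(nat_lit 3), (nat_lit 1000), Int.ofNat (nat_lit 1000), 0, ⟨0, 1⟩, ⟨Int.ofNat
 (nat_lit 40), 200⟩⟩ ⟨800000, 850000, 908191, 894532, 922059, 417256, 448290, 388374, 447213, 387298⟩ false
 (nat_lit 400) (Int.ofNat (nat_lit 1844)) (nat_lit 450) (Int.ofNat (nat_lit 544)) qL160_40_2_8 = true := by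
 decide +kernel

def qL160_40_2_9 : PCt := .one ⟨2008000, 251, 2008000, -665452, 310376, 0, 0, 200000, 450000, 500000⟩ ⟨0,
 .pol, .pol, .pol, .pol, .sx 100000 (.sx 50000 (.aff 8000000 21575450 2271100) (.sx 75000 (.aff 10800000
 24662793 3894126) (.sy 475000 (.aff 9400000 20041189 3520750) (.sx 87500 (.aff 10400000 22187642 3982398)
 (.sx 93750 (.aff 10100000 20751193 3990614) (.aff 9500000 19223449 3758431)))))) (.aff 1500000 974680
 256495), .pol, .pol, .sx 100000 (.sx 50000 (.inf 4358899 229416) .pol) .pol, .pol⟩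

def hL160_40_2_9 : pcchk ⟨(nat_lit 3), (nat_lit 1000), Int.ofNat (nat_lit 1000), 0, ⟨0, 1⟩, ⟨Int.ofNat
 (nat_lit 40), 200⟩⟩ ⟨800000, 850000, 908191, 894532, 922059, 417256, 448290, 388374, 447213, 387298⟩ false
 (nat_lit 450) (Int.ofNat (nat_lit 544)) (nat_lit 500) (Int.negSucc (nat_lit 1112)) qL160_40_2_9 = true :=
 by decide +kernel

def qL160_40_2_10 : PCt := .one ⟨2008000, 251, 2008000, -775490, 365395, 0, 0, 200000, 500000, 550000⟩ ⟨0,
 .pol, .pol, .pol, .pol, .sx 100000 (.aff 12000000 25204167 4800794) (.sx 150000 (.sx 125000 (.sy 525000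
 (.sx 112500 (.sy 512500 (.aff 11203000 22191748 4690988) (.aff 11400000 22332438 4843180)) (.aff 11088000
 21487831 4736065)) (.sx 112500 (.aff 12000000 24741012 4890665) (.aff 11577000 22208817 5037321))) (.aff
 11087000 20684708 4918976)) (.aff 1000000 0 0)), .pol, .pol, .sx 100000 (.sx 50000 (.inf 4582576 218218)
 .pol) .pol, .pol⟩

def hL160_40_2_10 : pcchk ⟨(nat_lit 3), (nat_lit 1000), Int.ofNat (nat_lit 1000), 0, ⟨0, 1⟩, ⟨Int.ofNat
 (nat_lit 40), 200⟩⟩ ⟨800000, 850000, 908191, 894532, 922059, 417256, 448290, 388374, 447213, 387298⟩ false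
 (nat_lit 500) (Int.negSucc (nat_lit 1112)) (nat_lit 550) (Int.negSucc (nat_lit 3043)) qL160_40_2_10 = true
 := by decide +kernel

def qL160_40_2_11 : PCt := .one ⟨2008000, 251, 2008000, -914444, 441820, 0, 0, 200000, 550000, 600000⟩ ⟨0,
 .pol, .pol, .pol, .pol, .sx 100000 (.aff 12000000 26377074 4587318) (.sx 150000 (.sx 125000 (.aff 12000000
 24205263 4998913) (.sx 137500 (.aff 12300000 23107929 5525809) (.sy 575000 (.aff 12000000 21759556 5560776)
 (.aff 12300000 22363345 5709790)))) (.sy 575000 (.aff 1500000 896422 278887) (.sx 175000 (.aff 12450000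
 22202374 5904887) (.aff 1000000 0 0)))), .pol, .pol, .sx 100000 (.inf 3391165 294884) .pol, .pol⟩

def hL160_40_2_11 : pcchk ⟨(nat_lit 3), (nat_lit 1000), Int.ofNat (nat_lit 1000), 0, ⟨0, 1⟩, ⟨Int.ofNat
 (nat_lit 40), 200⟩⟩ ⟨800000, 850000, 908191, 894532, 922059, 417256, 448290, 388374, 447213, 387298⟩ false
 (nat_lit 550) (Int.negSucc (nat_lit 3043)) (nat_lit 600) (Int.negSucc (nat_lit 5320)) qL160_40_2_11 = true
 := by decide +kernel

def qL160_40_2_12 : PCt := .one ⟨2008000, 251, 2008000, -1028498, 510252, 0, 0, 200000, 600000, 650000⟩ ⟨0,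
 .pol, .pol, .pol, .pol, .sx 100000 (.aff 12000000 31754265 3810512) (.sx 150000 (.aff 20000000 42485292
 8497059) (.sx 175000 (.sy 625000 (.aff 13600000 23269240 6822742) (.aff 20000000 37632842 9592686)) (.sx
 187500 (.sy 625000 (.aff 13200000 22623013 6579142) (.aff 20000000 35034269 10304197)) (.sy 625000 (.aff
 2000000 1778002 562430) (.aff 13606000 23053001 6893300))))), .pol, .pol, .sx 100000 (.inf 3535534 282843)
 (.sx 150000 (.inf 2236068 447214) .pol), .pol⟩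

def hL160_40_2_12 : pcchk ⟨(nat_lit 3), (nat_lit 1000), Int.ofNat (nat_lit 1000), 0, ⟨0, 1⟩, ⟨Int.ofNat
 (nat_lit 40), 200⟩⟩ ⟨800000, 850000, 908191, 894532, 922059, 417256, 448290, 388374, 447213, 387298⟩ false
 (nat_lit 600) (Int.negSucc (nat_lit 5320)) (nat_lit 650) (Int.negSucc (nat_lit 7881)) qL160_40_2_12 = true
 := by decide +kernel

def qL160_40_2_13 : PCt := .one ⟨2008000, 251, 2008000, -8882589, 5615412, 0, 0, 200000, 650000, 700000⟩ ⟨0,
 .pol, .pol, .pol, .pol, .sx 100000 (.aff 20000000 57000001 6333334) (.inf 1697057 589256), .pol, .pol, .sx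
 100000 (.inf 3674235 272166) (.inf 1697057 589256), .pol⟩

def hL160_40_2_13 : pcchk ⟨(nat_lit 3), (nat_lit 1000), Int.ofNat (nat_lit 1000), 0, ⟨0, 1⟩, ⟨Int.ofNat
 (nat_lit 40), 200⟩⟩ ⟨800000, 850000, 908191, 894532, 922059, 417256, 448290, 388374, 447213, 387298⟩ false
 (nat_lit 650) (Int.negSucc (nat_lit 7881)) (nat_lit 700) (Int.negSucc (nat_lit 29999)) qL160_40_2_13 = true
 := by decide +kernel

def qL160_40_2_14 : PCt := .one ⟨2008000, 251, 2008000, 0, -602400, 0, 0, 200000, 700000, 750000⟩ ⟨0, .pol,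
 .pol, .pol, .pol, .inf 2154066 464239, .pol, .pol, .inf 2154066 464239, .pol⟩

def hL160_40_2_14 : pcchk ⟨(nat_lit 3), (nat_lit 1000), Int.ofNat (nat_lit 1000), 0, ⟨0, 1⟩, ⟨Int.ofNat
 (nat_lit 40), 200⟩⟩ ⟨800000, 850000, 908191, 894532, 922059, 417256, 448290, 388374, 447213, 387298⟩ false
 (nat_lit 700) (Int.negSucc (nat_lit 29999)) (nat_lit 750) (Int.negSucc (nat_lit 29999)) qL160_40_2_14 =
 true := by decide +kernel

def qL160_40_2_15 : PCt := .one ⟨2008000, 251, 2008000, 0, -602400, 0, 0, 200000, 750000, 800000⟩ ⟨0, .pol,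
 .pol, .pol, .pol, .aff 35000000 66929067 17272018, .pol, .pol, .inf 2783883 359211, .pol⟩

def hL160_40_2_15 : pcchk ⟨(nat_lit 3), (nat_lit 1000), Int.ofNat (nat_lit 1000), 0, ⟨0, 1⟩, ⟨Int.ofNat
 (nat_lit 40), 200⟩⟩ ⟨800000, 850000, 908191, 894532, 922059, 417256, 448290, 388374, 447213, 387298⟩ false
 (nat_lit 750) (Int.negSucc (nat_lit 29999)) (nat_lit 800) (Int.negSucc (nat_lit 29999)) qL160_40_2_15 =
 true := by decide +kernel

def qL160_40_2_16 : PCt := .one ⟨2008000, 251, 2008000, 0, -602400, 0, 0, 200000, 800000, 850000⟩ ⟨0, .pol,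
 .pol, .pol, .pol, .aff 35000000 79737068 14497649, .pol, .pol, .inf 2872282 348156, .pol⟩

def hL160_40_2_16 : pcchk ⟨(nat_lit 3), (nat_lit 1000), Int.ofNat (nat_lit 1000), 0, ⟨0, 1⟩, ⟨Int.ofNat
 (nat_lit 40), 200⟩⟩ ⟨800000, 850000, 908191, 894532, 922059, 417256, 448290, 388374, 447213, 387298⟩ false
 (nat_lit 800) (Int.negSucc (nat_lit 29999)) (nat_lit 850) (Int.negSucc (nat_lit 29999)) qL160_40_2_16 =
 true := by decide +kernel

def qL160_40_2_17 : PCt := .one ⟨2008000, 251, 2008000, 0, -602400, 0, 0, 200000, 850000, 900000⟩ ⟨0, .pol,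
 .pol, .pol, .pol, .aff 20000000 45889360 7866748, .pol, .pol, .inf 2958040 338062, .pol⟩

def hL160_40_2_17 : pcchk ⟨(nat_lit 3), (nat_lit 1000), Int.ofNat (nat_lit 1000), 0, ⟨0, 1⟩, ⟨Int.ofNat
 (nat_lit 40), 200⟩⟩ ⟨800000, 850000, 908191, 894532, 922059, 417256, 448290, 388374, 447213, 387298⟩ false
 (nat_lit 850) (Int.negSucc (nat_lit 29999)) (nat_lit 900) (Int.negSucc (nat_lit 29999)) qL160_40_2_17 =
 true := by decide +kernel

def qL160_40_2_18 : PCt := .one ⟨2008000, 251, 2008000, 0, -602400, 0, 0, 200000, 900000, 950000⟩ ⟨0, .pol,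
 .pol, .pol, .pol, .aff 20000000 47182271 7651179, .pol, .pol, .inf 3041382 328798, .pol⟩

def hL160_40_2_18 : pcchk ⟨(nat_lit 3), (nat_lit 1000), Int.ofNat (nat_lit 1000), 0, ⟨0, 1⟩, ⟨Int.ofNat
 (nat_lit 40), 200⟩⟩ ⟨800000, 850000, 908191, 894532, 922059, 417256, 448290, 388374, 447213, 387298⟩ false
 (nat_lit 900) (Int.negSucc (nat_lit 29999)) (nat_lit 950) (Int.negSucc (nat_lit 29999)) qL160_40_2_18 =
 true := by decide +kernel

def qL160_40_2_19 : PCt := .one ⟨2008000, 251, 2008000, 0, -602400, 0, 0, 200000, 950000, 1000000⟩ ⟨0, .pol,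
 .pol, .pol, .pol, .aff 12000000 24287343 4982019, .pol, .pol, .inf 3122499 320257, .pol⟩

def hL160_40_2_19 : pcchk ⟨(nat_lit 3), (nat_lit 1000), Int.ofNat (nat_lit 1000), 0, ⟨0, 1⟩, ⟨Int.ofNat
 (nat_lit 40), 200⟩⟩ ⟨800000, 850000, 908191, 894532, 922059, 417256, 448290, 388374, 447213, 387298⟩ false
 (nat_lit 950) (Int.negSucc (nat_lit 29999)) (nat_lit 1000) (Int.negSucc (nat_lit 29999)) qL160_40_2_19 =
 true := by decide +kernel

def qL160_40_3_0 : PCt := .one ⟨2008000, 251, 381520, 3768614, 0, 0, 0, 200000, 0, 50000⟩ ⟨50000, .pol, .sp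
 500000 (.aff 223607 4472132) .pol, .pol, .pol, .sy 25000 (.sy 12500 (.sy 6250 (.sx 125000 (.aff 0 158114
 6324551) (.sx 162500 (.aff 0 92957 10757663) (.sx 181250 (.aff 50000 56050 16101695) (.sy 3125 (.sx 190625
 (.sx 185937 (.sx 183593 (.sx 182421 (.aff 0 60506 16527287) (.sx 183007 (.sy 1562 (.aff 19000 57988
 16595865) (.aff 0 113253 8829789)) (.sx 183300 (.sy 1562 (.sy 781 (.aff 200000 36925 17332431) (.aff
 1000000 0 0)) (.aff 0 113117 8840405)) (.sy 1562 (.sy 781 (.aff 225000 35743 16803990) (.aff 1000000 0 0))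
 (.aff 0 113026 8847522))))) (.sx 184765 (.sx 184179 (.sy 1562 (.sy 781 (.aff 225000 35686 16830831) (.aff
 1000000 0 0)) (.aff 0 112891 8858103)) (.sy 1562 (.sy 781 (.aff 225000 35629 16857757) (.aff 1000000 0 0))
 (.aff 0 112712 8872170))) (.sy 1562 (.sy 781 (.aff 225000 35517 16910916) (.aff 1000000 0 0)) (.aff 0
 112444 8893316)))) (.sy 1562 (.sy 781 (.aff 253000 33182 16816618) (.aff 1000000 0 0)) (.aff 1000000 0 0)))
 (.sy 1562 (.sy 781 (.aff 325000 26988 16882504) (.aff 1000000 0 0)) (.aff 1000000 0 0))) (.aff 0 156813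
 6377023))))) (.aff 0 273862 3651475)) .pol) .pol, .pol, .pol, .pol, .pol⟩

def hL160_40_3_0 : pcchk ⟨(nat_lit 1), (nat_lit 1000), Int.ofNat (nat_lit 190), 0, ⟨0, 1⟩, ⟨Int.ofNat
 (nat_lit 40), 200⟩⟩ ⟨800000, 850000, 908191, 894532, 922059, 417256, 448290, 388374, 447213, 387298⟩ true 0
 0 (nat_lit 50) (Int.ofNat (nat_lit 9384)) qL160_40_3_0 = true := by decide +kernel

def qL160_40_3_1 : PCt := .one ⟨2008000, 251, 381520, -3162600, 346560, 0, 0, 200000, 50000, 100000⟩ ⟨0,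
 .pol, .pol, .pol, .pol, .sy 75000 .pol (.sy 87500 .pol (.sy 93750 (.aff 1000000 0 0) (.sy 96875 (.aff
 1000000 0 0) (.sy 98437 (.aff 500000 494106 505965) (.sy 99218 (.aff 625000 643939 218383) (.sy 99609 (.aff
 625000 713769 197018) (.sx 100000 (.sx 50000 (.aff 625000 958787 146670) (.aff 1000000 0 0)) (.aff 1000000
 0 0)))))))), .pol, .pol, .sy 75000 .pol (.sy 87500 .pol (.sy 93750 .pol (.sx 100000 (.sx 50000 .pol .pol)
 .pol))), .pol⟩

def hL160_40_3_1 : pcchk ⟨(nat_lit 1), (nat_lit 1000), Int.ofNat (nat_lit 190), 0, ⟨0, 1⟩, ⟨Int.ofNat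
 (nat_lit 40), 200⟩⟩ ⟨800000, 850000, 908191, 894532, 922059, 417256, 448290, 388374, 447213, 387298⟩ false
 (nat_lit 50) (Int.ofNat (nat_lit 9384)) (nat_lit 100) (Int.ofNat (nat_lit 1509)) qL160_40_3_1 = true := by
 decide +kernel

def qL160_40_3_2 : PCt := .one ⟨2008000, 251, 381520, 12851, 29015, 0, 0, 200000, 100000, 150000⟩ ⟨0, .pol,
 .pol, .pol, .pol, .sx 100000 (.sx 50000 (.sy 125000 (.sx 25000 (.sx 12500 (.aff 650000 1160430 105565)
 (.aff 675000 963783 109595)) (.aff 1000000 0 0)) (.sx 25000 (.sx 12500 (.sy 137500 (.aff 675000 1131259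
 93370) (.aff 750000 1198958 52129)) (.aff 1000000 0 0)) (.aff 1000000 0 0))) (.aff 1000000 0 0)) (.aff
 1000000 0 0), .pol, .pol, .sx 100000 .pol .pol, .pol⟩

def hL160_40_3_2 : pcchk ⟨(nat_lit 1), (nat_lit 1000), Int.ofNat (nat_lit 190), 0, ⟨0, 1⟩, ⟨Int.ofNat
 (nat_lit 40), 200⟩⟩ ⟨800000, 850000, 908191, 894532, 922059, 417256, 448290, 388374, 447213, 387298⟩ false
 (nat_lit 100) (Int.ofNat (nat_lit 1509)) (nat_lit 150) (Int.ofNat (nat_lit 1541)) qL160_40_3_2 = true := by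
 decide +kernel

def qL160_40_3_3 : PCt := .one ⟨2008000, 251, 381520, -48996, 38292, 0, 0, 200000, 150000, 200000⟩ ⟨0, .pol,
 .pol, .pol, .pol, .sx 100000 (.sx 50000 (.sx 25000 (.sy 175000 (.aff 875000 1283521 12174) (.sx 12500 (.sx
 6250 (.aff 925000 1225660 4590) (.aff 1000000 0 0)) (.aff 1000000 0 0))) (.aff 1000000 0 0)) (.aff 1000000
 0 0)) (.aff 1000000 0 0), .pol, .pol, .sx 100000 .pol .pol, .pol⟩

def hL160_40_3_3 : pcchk ⟨(nat_lit 1), (nat_lit 1000), Int.ofNat (nat_lit 190), 0, ⟨0, 1⟩, ⟨Int.ofNat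
 (nat_lit 40), 200⟩⟩ ⟨800000, 850000, 908191, 894532, 922059, 417256, 448290, 388374, 447213, 387298⟩ false
 (nat_lit 150) (Int.ofNat (nat_lit 1541)) (nat_lit 200) (Int.ofNat (nat_lit 1419)) qL160_40_3_3 = true := by
 decide +kernel

def qL160_40_3_4 : PCt := .one ⟨2008000, 251, 381520, -93975, 47288, 0, 0, 200000, 200000, 250000⟩ ⟨0, .pol,
 .pol, .pol, .pol, .sx 100000 (.sx 50000 (.sx 25000 (.sx 12500 (.aff 1100000 1335325 7489) (.aff 1000000 0
 0)) (.aff 1000000 0 0)) (.aff 1000000 0 0)) (.aff 1000000 0 0), .pol, .pol, .pol, .pol⟩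

def hL160_40_3_4 : pcchk ⟨(nat_lit 1), (nat_lit 1000), Int.ofNat (nat_lit 190), 0, ⟨0, 1⟩, ⟨Int.ofNat
 (nat_lit 40), 200⟩⟩ ⟨800000, 850000, 908191, 894532, 922059, 417256, 448290, 388374, 447213, 387298⟩ false
 (nat_lit 200) (Int.ofNat (nat_lit 1419)) (nat_lit 250) (Int.ofNat (nat_lit 1185)) qL160_40_3_4 = true := by
 decide +kernel

def qL160_40_3_5 : PCt := .one ⟨2008000, 251, 381520, -146584, 60440, 0, 0, 200000, 250000, 300000⟩ ⟨0,
 .pol, .pol, .pol, .pol, .sx 100000 (.sy 275000 (.sx 50000 (.aff 1325000 1819081 58066) (.aff 1000000 0 0))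
 (.sy 287500 (.sy 281250 (.sy 278125 (.sy 276562 (.sx 50000 (.sx 25000 (.aff 1275000 1826733 41400) (.aff
 1000000 0 0)) (.aff 1000000 0 0)) (.sx 50000 (.sx 25000 (.aff 1275000 1831900 41283) (.aff 1000000 0 0))
 (.aff 1000000 0 0))) (.sy 279687 (.sx 50000 (.sx 25000 (.aff 1275000 1837053 41167) (.aff 1000000 0 0))
 (.aff 1000000 0 0)) (.sy 280468 (.sx 50000 (.sx 25000 (.aff 1275000 1840907 41081) (.aff 1000000 0 0))
 (.aff 1000000 0 0)) (.sx 50000 (.aff 1406000 1924488 85652) (.aff 1000000 0 0))))) (.sx 50000 (.aff 1400000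
 1907879 83863) (.aff 1000000 0 0))) (.sx 50000 (.aff 1363000 1849930 71230) (.aff 1000000 0 0)))) (.aff
 1000000 0 0), .pol, .pol, .pol, .pol⟩

def hL160_40_3_5 : pcchk ⟨(nat_lit 1), (nat_lit 1000), Int.ofNat (nat_lit 190), 0, ⟨0, 1⟩, ⟨Int.ofNat
 (nat_lit 40), 200⟩⟩ ⟨800000, 850000, 908191, 894532, 922059, 417256, 448290, 388374, 447213, 387298⟩ false
 (nat_lit 250) (Int.ofNat (nat_lit 1185)) (nat_lit 300) (Int.ofNat (nat_lit 820)) qL160_40_3_5 = true := by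
 decide +kernel

def qL160_40_3_6 : PCt := .one ⟨2008000, 251, 381520, -180720, 70681, 0, 0, 200000, 300000, 350000⟩ ⟨0,
 .pol, .pol, .pol, .pol, .sx 100000 (.sy 325000 (.sy 312500 (.sy 306250 (.sx 50000 (.sx 25000 (.aff 1500000
 2010390 124354) (.aff 1000000 0 0)) (.aff 1000000 0 0)) (.sx 50000 (.sx 25000 (.aff 1500000 2031010 123092)
 (.aff 1000000 0 0)) (.aff 1000000 0 0))) (.sy 318750 (.sy 315625 (.sx 50000 (.sx 25000 (.aff 1500000
 2046339 122170) (.aff 1000000 0 0)) (.aff 1000000 0 0)) (.sx 50000 (.sx 25000 (.aff 1500000 2056494 121567)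
 (.aff 1000000 0 0)) (.aff 1000000 0 0))) (.sx 50000 (.sx 25000 (.aff 1500000 2071634 120678) (.aff 1000000
 0 0)) (.aff 1000000 0 0)))) (.sx 50000 (.aff 1575000 2112685 156496) (.aff 1000000 0 0))) (.aff 1000000 0
 0), .pol, .pol, .pol, .pol⟩

def hL160_40_3_6 : pcchk ⟨(nat_lit 1), (nat_lit 1000), Int.ofNat (nat_lit 190), 0, ⟨0, 1⟩, ⟨Int.ofNat
 (nat_lit 40), 200⟩⟩ ⟨800000, 850000, 908191, 894532, 922059, 417256, 448290, 388374, 447213, 387298⟩ false
 (nat_lit 300) (Int.ofNat (nat_lit 820)) (nat_lit 350) (Int.ofNat (nat_lit 370)) qL160_40_3_6 = true := by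
 decide +kernel

def qL160_40_3_7 : PCt := .one ⟨2008000, 251, 381520, -231724, 88532, 0, 0, 200000, 350000, 400000⟩ ⟨0,
 .pol, .pol, .pol, .pol, .sy 375000 (.sy 362500 (.sy 356250 (.sy 353125 (.sy 351562 (.sy 350781 (.sx 100000
 (.aff 1540000 2021622 144241) (.aff 1000000 0 0)) (.sy 351171 (.sx 100000 (.aff 1540000 2023311 144121)
 (.aff 1000000 0 0)) (.sx 100000 (.sx 50000 (.aff 1600000 2249373 160045) (.aff 1000000 0 0)) (.aff 1000000
 0 0)))) (.sx 100000 (.sx 50000 (.aff 1550000 2064790 146505) (.aff 1000000 0 0)) (.aff 1000000 0 0))) (.sx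
 100000 (.sx 50000 (.aff 1550000 2071647 146020) (.aff 1000000 0 0)) (.aff 1000000 0 0))) (.sy 359375 (.sx
 100000 (.sx 50000 (.aff 1550000 2080753 145381) (.aff 1000000 0 0)) (.aff 1000000 0 0)) (.sx 100000 (.sx
 50000 (.aff 1550000 2089820 144750) (.aff 1000000 0 0)) (.aff 1000000 0 0)))) (.sy 368750 (.sy 365625 (.sy
 364062 (.sx 100000 (.sx 50000 (.aff 1550000 2096593 144282) (.aff 1000000 0 0)) (.aff 1000000 0 0)) (.sy
 364843 (.sx 100000 (.sx 50000 (.sx 25000 (.aff 2000000 4408795 226820) (.aff 1600000 2049023 175694)) (.aff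
 1000000 0 0)) (.aff 1000000 0 0)) (.sy 365234 (.sy 365038 (.sx 100000 (.sx 50000 (.sx 25000 (.aff 2000000
 4411745 226668) (.aff 1600000 2050394 175577)) (.aff 1000000 0 0)) (.aff 1000000 0 0)) (.sy 365136 (.sx
 100000 (.sx 50000 (.sx 25000 (.aff 2000000 4412631 226623) (.aff 1600000 2050806 175541)) (.aff 1000000 0
 0)) (.aff 1000000 0 0)) (.sx 100000 (.sx 50000 (.sx 25000 (.aff 2000000 4413223 226592) (.aff 1600000
 2051081 175518)) (.aff 1000000 0 0)) (.aff 1000000 0 0)))) (.sx 100000 (.sx 50000 (.sx 25000 (.aff 2000000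
 4414700 226516) (.aff 1600000 2051768 175459)) (.aff 1000000 0 0)) (.aff 1000000 0 0))))) (.sy 367187 (.sx
 100000 (.sy 366406 (.sy 366015 (.sx 50000 (.sx 25000 (.aff 2000000 4417058 226396) (.aff 1600000 2052863
 175365)) (.aff 1000000 0 0)) (.sx 50000 (.sx 25000 (.aff 2000000 4419415 226275) (.aff 1600000 2053959
 175272)) (.aff 1000000 0 0))) (.sy 366796 (.sy 366601 (.sx 50000 (.sx 25000 (.aff 2000000 4421183 226184)
 (.aff 1600000 2054780 175202)) (.aff 1000000 0 0)) (.sy 366698 (.sy 366649 (.sx 50000 (.sx 25000 (.aff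
 2000000 4421916 226147) (.aff 1600000 2055121 175173)) (.aff 1000000 0 0)) (.sx 50000 (.sx 25000 (.aff
 2000000 4422208 226132) (.aff 1600000 2055257 175161)) (.aff 1000000 0 0))) (.sy 366747 (.sy 366722 (.sx
 50000 (.sx 25000 (.aff 2000000 4422428 226121) (.aff 1600000 2055359 175152)) (.aff 1000000 0 0)) (.sy
 366734 (.sx 50000 (.sx 25000 (.aff 2000000 4422537 226115) (.aff 1600000 2055410 175148)) (.aff 1000000 0
 0)) (.sy 366740 (.sy 366737 (.sx 50000 (.sx 25000 (.aff 2000000 4422582 226113) (.aff 1600000 2055431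
 175146)) (.aff 1000000 0 0)) (.sy 366738 (.sx 50000 (.sx 25000 (.aff 2000000 4422594 226112) (.aff 1600000
 2055436 175146)) (.aff 1000000 0 0)) (.sy 366739 (.sx 50000 (.sx 25000 (.aff 2000000 4422600 226112) (.aff
 1600000 2055439 175146)) (.aff 1000000 0 0)) (.sx 50000 (.sx 25000 (.aff 2000000 4422606 226112) (.aff
 1600000 2055442 175145)) (.aff 1000000 0 0))))) (.sy 366743 (.sy 366741 (.sx 50000 (.sx 25000 (.aff 2000000
 4422612 226111) (.aff 1600000 2055445 175145)) (.aff 1000000 0 0)) (.sx 50000 (.sx 25000 (.aff 2000000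
 4422621 226111) (.aff 1600000 2055449 175145)) (.aff 1000000 0 0))) (.sx 50000 (.sx 25000 (.aff 2000000
 4422639 226110) (.aff 1600000 2055457 175144)) (.aff 1000000 0 0)))))) (.sy 366771 (.sy 366759 (.sx 50000
 (.sx 25000 (.aff 2000000 4422687 226107) (.aff 1600000 2055480 175142)) (.aff 1000000 0 0)) (.sx 50000 (.sx
 25000 (.aff 2000000 4422760 226104) (.aff 1600000 2055513 175139)) (.aff 1000000 0 0))) (.sx 50000 (.sx
 25000 (.aff 2000000 4422871 226098) (.aff 1600000 2055565 175135)) (.aff 1000000 0 0)))))) (.sy 366991 (.sy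
 366893 (.sx 50000 (.sx 25000 (.aff 2000000 4423239 226079) (.aff 1600000 2055736 175120)) (.aff 1000000 0
 0)) (.sx 50000 (.sx 25000 (.aff 2000000 4423827 226049) (.aff 1600000 2056009 175097)) (.aff 1000000 0 0)))
 (.sx 50000 (.sx 25000 (.aff 2000000 4424713 226004) (.aff 1600000 2056421 175062)) (.aff 1000000 0 0)))))
 (.aff 1000000 0 0)) (.sy 367968 (.sx 100000 (.sx 50000 (.sx 25000 (.aff 2000000 4427656 225854) (.aff
 1600000 2057789 174946)) (.aff 1000000 0 0)) (.aff 1000000 0 0)) (.sy 368359 (.sy 368163 (.sy 368065 (.sx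
 100000 (.sx 50000 (.sx 25000 (.aff 2000000 4430299 225719) (.aff 1600000 2059017 174841)) (.aff 1000000 0
 0)) (.aff 1000000 0 0)) (.sx 100000 (.sx 50000 (.sx 25000 (.aff 2000000 4430886 225689) (.aff 1600000
 2059290 174818)) (.aff 1000000 0 0)) (.aff 1000000 0 0))) (.sx 100000 (.sx 50000 (.sx 25000 (.aff 2000000
 4431771 225644) (.aff 1600000 2059701 174783)) (.aff 1000000 0 0)) (.aff 1000000 0 0))) (.sx 100000 (.sx
 50000 (.sx 25000 (.aff 2000000 4433536 225554) (.aff 1600000 2060522 174714)) (.aff 1000000 0 0)) (.aff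
 1000000 0 0)))))) (.sy 371875 (.sy 370312 (.sx 100000 (.sy 369531 (.sx 50000 (.sx 25000 (.aff 2000000
 4437060 225375) (.aff 1600000 2062159 174575)) (.aff 1000000 0 0)) (.sx 50000 (.aff 1857000 2450560 299707)
 (.aff 1000000 0 0))) (.aff 1000000 0 0)) (.sx 100000 (.sx 50000 (.aff 1857000 2454439 299233) (.aff 1000000
 0 0)) (.aff 1000000 0 0))) (.sx 100000 (.sy 373437 (.sy 372656 (.sx 50000 (.sx 25000 (.aff 2000000 5457220
 183244) (.aff 1600000 2070870 173840)) (.aff 1000000 0 0)) (.sy 373046 (.sx 50000 (.sx 25000 (.aff 2000000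
 5461509 183100) (.aff 1600000 2072497 173704)) (.aff 1000000 0 0)) (.sy 373241 (.sx 50000 (.sx 25000 (.aff
 2000000 5463651 183028) (.aff 1600000 2073310 173636)) (.aff 1000000 0 0)) (.sy 373339 (.sx 50000 (.sx
 25000 (.aff 2000000 5464724 182992) (.aff 1600000 2073717 173602)) (.aff 1000000 0 0)) (.sx 50000 (.sx
 25000 (.aff 2000000 5465441 182968) (.aff 1600000 2073989 173579)) (.aff 1000000 0 0)))))) (.sy 374218 (.sy
 373827 (.sy 373632 (.sy 373534 (.sy 373485 (.sx 50000 (.sx 25000 (.aff 2000000 5465975 182950) (.aff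
 1600000 2074192 173562)) (.aff 1000000 0 0)) (.sy 373509 (.sy 373497 (.sx 50000 (.sx 25000 (.aff 2000000
 5466195 182943) (.aff 1600000 2074275 173555)) (.aff 1000000 0 0)) (.sx 50000 (.sx 25000 (.aff 2000000
 5466283 182940) (.aff 1600000 2074309 173552)) (.aff 1000000 0 0))) (.sy 373521 (.sy 373515 (.sy 373512
 (.sx 50000 (.sx 25000 (.aff 2000000 5466337 182938) (.aff 1600000 2074330 173551)) (.aff 1000000 0 0)) (.sx
 50000 (.sx 25000 (.aff 2000000 5466359 182938) (.aff 1600000 2074338 173550)) (.aff 1000000 0 0))) (.sy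
 373518 (.sy 373516 (.sx 50000 (.sx 25000 (.aff 2000000 5466374 182937) (.aff 1600000 2074343 173549)) (.aff
 1000000 0 0)) (.sy 373517 (.sx 50000 (.sx 25000 (.aff 2000000 5466381 182937) (.aff 1600000 2074346
 173549)) (.aff 1000000 0 0)) (.sx 50000 (.sx 25000 (.aff 2000000 5466389 182937) (.aff 1600000 2074349
 173549)) (.aff 1000000 0 0)))) (.sy 373519 (.sx 50000 (.sx 25000 (.aff 2000000 5466396 182936) (.aff
 1600000 2074352 173549)) (.aff 1000000 0 0)) (.sx 50000 (.sx 25000 (.aff 2000000 5466407 182936) (.aff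
 1600000 2074356 173548)) (.aff 1000000 0 0))))) (.sy 373527 (.sx 50000 (.sx 25000 (.aff 2000000 5466436
 182935) (.aff 1600000 2074367 173547)) (.aff 1000000 0 0)) (.sx 50000 (.sx 25000 (.aff 2000000 5466484
 182933) (.aff 1600000 2074385 173546)) (.aff 1000000 0 0)))))) (.sy 373583 (.sy 373558 (.sx 50000 (.sx
 25000 (.aff 2000000 5466597 182930) (.aff 1600000 2074428 173542)) (.aff 1000000 0 0)) (.sx 50000 (.sx
 25000 (.aff 2000000 5466777 182924) (.aff 1600000 2074496 173537)) (.aff 1000000 0 0))) (.sx 50000 (.sx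
 25000 (.aff 2000000 5467047 182915) (.aff 1600000 2074599 173528)) (.aff 1000000 0 0)))) (.sx 50000 (.sx
 25000 (.aff 2000000 5467940 182885) (.aff 1600000 2074938 173500)) (.aff 1000000 0 0))) (.sx 50000 (.sx
 25000 (.aff 2000000 5470083 182813) (.aff 1600000 2075751 173432)) (.aff 1000000 0 0))) (.sx 50000 (.sx
 25000 (.aff 2000000 5474370 182670) (.aff 1600000 2077378 173296)) (.aff 1000000 0 0)))) (.aff 1000000 0
 0))))) (.sy 387500 (.sy 381250 (.sy 378125 (.sx 100000 (.sy 376562 (.sy 375781 (.sx 50000 (.sx 25000 (.aff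
 2000000 5480077 182480) (.aff 1600000 2079543 173115)) (.aff 1000000 0 0)) (.sy 376171 (.sx 50000 (.sx
 25000 (.aff 2000000 5484349 182338) (.sx 37500 (.aff 2000000 3468607 288301) (.aff 1000000 0 0))) (.aff
 1000000 0 0)) (.sx 50000 (.sx 25000 (.aff 2000000 5487197 182243) (.aff 1894000 2468155 323820)) (.aff
 1000000 0 0)))) (.sy 377343 (.sy 376952 (.sy 376757 (.sx 50000 (.sx 25000 (.aff 2000000 5489332 182172)
 (.aff 1894000 2469116 323694)) (.aff 1000000 0 0)) (.sy 376854 (.sx 50000 (.sx 25000 (.aff 2000000 5490396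
 182137) (.aff 1897000 2477881 324717)) (.aff 1000000 0 0)) (.sy 376903 (.sx 50000 (.sx 25000 (.aff 2000000
 5490928 182119) (.aff 1897000 2462681 326721)) (.aff 1000000 0 0)) (.sx 50000 (.sx 25000 (.aff 2000000
 5491285 182107) (.aff 1897000 2462841 326700)) (.aff 1000000 0 0))))) (.sy 377147 (.sy 377049 (.sy 377000
 (.sy 376976 (.sx 50000 (.sx 25000 (.aff 2000000 5491550 182098) (.aff 1897000 2462961 326684)) (.aff
 1000000 0 0)) (.sy 376988 (.sy 376982 (.sx 50000 (.sx 25000 (.aff 2000000 5491660 182095) (.aff 1897000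
 2463010 326678)) (.aff 1000000 0 0)) (.sx 50000 (.sx 25000 (.aff 2000000 5491703 182093) (.aff 1897000
 2463029 326675)) (.aff 1000000 0 0))) (.sy 376994 (.sy 376991 (.sx 50000 (.sx 25000 (.aff 2000000 5491736
 182092) (.aff 1897000 2463044 326673)) (.aff 1000000 0 0)) (.sy 376992 (.sx 50000 (.sx 25000 (.aff 2000000
 5491751 182092) (.aff 1897000 2463050 326672)) (.aff 1000000 0 0)) (.sy 376993 (.sx 50000 (.sx 25000 (.aff
 2000000 5491758 182092) (.aff 1897000 2463054 326672)) (.aff 1000000 0 0)) (.sx 50000 (.sx 25000 (.aff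
 2000000 5491765 182091) (.aff 1897000 2463057 326671)) (.aff 1000000 0 0))))) (.sy 376997 (.sy 376995 (.sx
 50000 (.sx 25000 (.aff 2000000 5491773 182091) (.aff 1897000 2463060 326671)) (.aff 1000000 0 0)) (.sx
 50000 (.sx 25000 (.aff 2000000 5491783 182091) (.aff 1897000 2463065 326670)) (.aff 1000000 0 0))) (.sx
 50000 (.sx 25000 (.aff 2000000 5491802 182090) (.aff 1897000 2463073 326669)) (.aff 1000000 0 0)))))) (.sy
 377024 (.sy 377012 (.sy 377006 (.sx 50000 (.sx 25000 (.aff 2000000 5491834 182089) (.aff 1897000 2463088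
 326667)) (.aff 1000000 0 0)) (.sx 50000 (.sx 25000 (.aff 2000000 5491878 182088) (.aff 1897000 2463108
 326665)) (.aff 1000000 0 0))) (.sx 50000 (.sx 25000 (.aff 2000000 5491944 182085) (.aff 1897000 2463137
 326661)) (.aff 1000000 0 0))) (.sx 50000 (.sx 25000 (.aff 2000000 5492078 182081) (.aff 1897000 2463197
 326653)) (.aff 1000000 0 0)))) (.sy 377098 (.sx 50000 (.sx 25000 (.aff 2000000 5492348 182072) (.aff
 1897000 2463318 326637)) (.aff 1000000 0 0)) (.sx 50000 (.sx 25000 (.aff 2000000 5492705 182060) (.aff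
 1894000 2486122 321479)) (.aff 1000000 0 0)))) (.sx 50000 (.sx 25000 (.aff 2000000 5493597 182031) (.aff
 1894000 2455638 325470)) (.aff 1000000 0 0)))) (.sy 377734 (.sx 50000 (.sx 25000 (.aff 2000000 5495733
 181960) (.aff 1900000 2473080 327527)) (.aff 1000000 0 0)) (.sx 50000 (.sx 25000 (.aff 2000000 5498578
 181866) (.aff 1900000 2474361 327358)) (.aff 1000000 0 0))))) (.aff 1000000 0 0)) (.sx 100000 (.sy 379687
 (.sx 50000 (.aff 1889000 2509227 314966) (.aff 1000000 0 0)) (.sx 50000 (.aff 1913000 2518519 330976) (.aff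
 1000000 0 0))) (.aff 1000000 0 0))) (.sy 384375 (.sx 100000 (.sx 50000 (.aff 1913000 2526265 329962) (.aff
 1000000 0 0)) (.aff 1000000 0 0)) (.sx 100000 (.sx 50000 (.aff 1900000 2500438 323944) (.aff 1000000 0 0))
 (.aff 1000000 0 0)))) (.sy 393750 (.sx 100000 (.sx 50000 (.aff 1900000 2515577 321994) (.aff 1000000 0 0))
 (.aff 1000000 0 0)) (.sx 100000 (.sx 50000 (.aff 2000000 2817357 354943) (.aff 1000000 0 0)) (.aff 1000000
 0 0)))), .pol, .pol, .pol, .pol⟩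

def hL160_40_3_7 : pcchk ⟨(nat_lit 1), (nat_lit 1000), Int.ofNat (nat_lit 190), 0, ⟨0, 1⟩, ⟨Int.ofNat
 (nat_lit 40), 200⟩⟩ ⟨800000, 850000, 908191, 894532, 922059, 417256, 448290, 388374, 447213, 387298⟩ false
 (nat_lit 350) (Int.ofNat (nat_lit 370)) (nat_lit 400) (Int.negSucc (nat_lit 206)) qL160_40_3_7 = true := by
 decide +kernel

def qL160_40_3_8 : PCt := .one ⟨2008000, 251, 381520, -274293, 105560, 0, 0, 200000, 400000, 450000⟩ ⟨0,
 .pol, .pol, .pol, .pol, .sy 425000 (.sy 412500 (.sy 406250 (.sy 403125 (.sx 100000 (.sx 50000 (.aff 2000000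
 2833947 352865) (.aff 1000000 0 0)) (.aff 1000000 0 0)) (.sx 100000 (.sx 50000 (.aff 2000000 2844952
 351500) (.aff 1000000 0 0)) (.aff 1000000 0 0))) (.sy 409375 (.sx 100000 (.sx 50000 (.aff 2000000 2855915
 350151) (.aff 1600000 1532645 234889)) (.aff 1000000 0 0)) (.sy 410937 (.sx 100000 (.sx 50000 (.aff 2000000
 2864109 349149) (.aff 1600000 1877348 191760)) (.aff 1000000 0 0)) (.sx 100000 (.sx 50000 (.aff 2000000
 2869560 348486) (.aff 1650000 2037664 207346)) (.aff 1000000 0 0))))) (.sy 418750 (.sx 100000 (.sy 415625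
 (.sx 50000 (.aff 2000000 2877717 347498) (.aff 1650000 1848996 228503)) (.sx 50000 (.aff 2000000 3335417
 299813) (.sx 75000 (.aff 2000000 2583603 387057) (.aff 1000000 0 0)))) (.aff 1000000 0 0)) (.sy 421875 (.sx
 100000 (.sx 50000 (.aff 2000000 3347885 298697) (.sx 75000 (.aff 2000000 2593261 385615) (.aff 1000000 0
 0))) (.aff 1000000 0 0)) (.sx 100000 (.sx 50000 (.aff 2000000 3360308 297592) (.sx 75000 (.aff 2000000
 2602884 384190) (.aff 1000000 0 0))) (.aff 1000000 0 0))))) (.sx 100000 (.sx 50000 (.aff 2000000 3415651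
 292770) (.sx 75000 (.aff 2000000 2522625 396413) (.aff 1000000 0 0))) (.aff 1000000 0 0)), .pol, .pol,
 .pol, .pol⟩

def hL160_40_3_8 : pcchk ⟨(nat_lit 1), (nat_lit 1000), Int.ofNat (nat_lit 190), 0, ⟨0, 1⟩, ⟨Int.ofNat
 (nat_lit 40), 200⟩⟩ ⟨800000, 850000, 908191, 894532, 922059, 417256, 448290, 388374, 447213, 387298⟩ false
 (nat_lit 400) (Int.negSucc (nat_lit 206)) (nat_lit 450) (Int.negSucc (nat_lit 889)) qL160_40_3_8 = true :=
 by decide +kernel

def qL160_40_3_9 : PCt := .one ⟨2008000, 251, 381520, -316461, 124536, 0, 0, 200000, 450000, 500000⟩ ⟨0,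
 .pol, .pol, .pol, .pol, .sy 475000 (.sx 100000 (.sx 50000 (.aff 2000000 3511885 284748) (.aff 2025000
 2545360 412761)) (.aff 1000000 0 0)) (.sx 100000 (.sy 487500 (.sy 481250 (.sx 50000 (.aff 2000000 3570715
 280056) (.sx 75000 (.aff 2000000 2637148 379198) (.aff 2050000 2547114 432843))) (.sx 50000 (.aff 2000000
 3593977 278244) (.sx 75000 (.aff 3000000 5567765 718422) (.aff 2050000 2563708 430042)))) (.sx 50000 (.aff
 2000000 3628591 275590) (.sy 493750 (.sx 75000 (.aff 3000000 5603571 713831) (.aff 2025000 2518762 417120))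
 (.aff 2500000 3343604 672927)))) (.aff 1500000 987421 253185)), .pol, .pol, .pol, .pol⟩

def hL160_40_3_9 : pcchk ⟨(nat_lit 1), (nat_lit 1000), Int.ofNat (nat_lit 190), 0, ⟨0, 1⟩, ⟨Int.ofNat
 (nat_lit 40), 200⟩⟩ ⟨800000, 850000, 908191, 894532, 922059, 417256, 448290, 388374, 447213, 387298⟩ false
 (nat_lit 450) (Int.negSucc (nat_lit 889)) (nat_lit 500) (Int.negSucc (nat_lit 1677)) qL160_40_3_9 = true :=
 by decide +kernel

def qL160_40_3_10 : PCt := .one ⟨2008000, 251, 381520, -355818, 144214, 0, 0, 200000, 500000, 550000⟩ ⟨0,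
 .pol, .pol, .pol, .pol, .sy 525000 (.sx 100000 (.aff 3000000 4527693 883453) (.sx 150000 (.aff 2250000
 2667969 585652) (.aff 1000000 0 0))) (.sx 100000 (.aff 3000000 5354127 747088) (.sy 537500 (.sx 150000
 (.aff 2225000 2662008 563720) (.aff 1000000 0 0)) (.sx 150000 (.sx 125000 (.aff 3000000 4279696 934646)
 (.aff 2100000 2238942 540434)) (.aff 1000000 0 0)))), .pol, .pol, .pol, .pol⟩

def hL160_40_3_10 : pcchk ⟨(nat_lit 1), (nat_lit 1000), Int.ofNat (nat_lit 190), 0, ⟨0, 1⟩, ⟨Int.ofNat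
 (nat_lit 40), 200⟩⟩ ⟨800000, 850000, 908191, 894532, 922059, 417256, 448290, 388374, 447213, 387298⟩ false
 (nat_lit 500) (Int.negSucc (nat_lit 1677)) (nat_lit 550) (Int.negSucc (nat_lit 2563)) qL160_40_3_10 = true
 := by decide +kernel

def qL160_40_3_11 : PCt := .one ⟨2008000, 251, 381520, -402404, 169836, 0, 0, 200000, 550000, 600000⟩ ⟨0,
 .pol, .pol, .pol, .pol, .sx 100000 (.aff 3000000 5537750 722316) (.sx 150000 (.aff 2550000 3034730 791669)
 (.aff 2550000 2915674 823995)), .pol, .pol, .pol, .pol⟩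

def hL160_40_3_11 : pcchk ⟨(nat_lit 1), (nat_lit 1000), Int.ofNat (nat_lit 190), 0, ⟨0, 1⟩, ⟨Int.ofNat
 (nat_lit 40), 200⟩⟩ ⟨800000, 850000, 908191, 894532, 922059, 417256, 448290, 388374, 447213, 387298⟩ false
 (nat_lit 550) (Int.negSucc (nat_lit 2563)) (nat_lit 600) (Int.negSucc (nat_lit 3565)) qL160_40_3_11 = true
 := by decide +kernel

def qL160_40_3_12 : PCt := .one ⟨2008000, 251, 381520, -169877, 30320, 0, 0, 200000, 600000, 650000⟩ ⟨0,
 .pol, .pol, .pol, .pol, .sy 625000 (.sy 612500 (.sy 606250 (.sx 100000 (.aff 3000000 5671567 705273) (.sx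
 150000 (.aff 3000000 4393177 910503) (.sx 175000 (.aff 2900000 3527267 1023456) (.aff 1500000 896754
 278784)))) (.sx 100000 (.aff 3000000 5700878 701647) (.aff 3050000 3578337 1174429))) (.aff 2600000 3249616
 787786)) (.aff 3000000 4123106 970143), .pol, .aff 5800000 8485282 2715290, .pol, .pol⟩

def hL160_40_3_12 : pcchk ⟨(nat_lit 1), (nat_lit 1000), Int.ofNat (nat_lit 190), 0, ⟨0, 1⟩, ⟨Int.ofNat
 (nat_lit 40), 200⟩⟩ ⟨800000, 850000, 908191, 894532, 922059, 417256, 448290, 388374, 447213, 387298⟩ false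
 (nat_lit 600) (Int.negSucc (nat_lit 3565)) (nat_lit 650) (Int.negSucc (nat_lit 3988)) qL160_40_3_12 = true
 := by decide +kernel

def qL160_40_3_13 : PCt := .one ⟨2008000, 251, 381520, -10446018, 6709812, 0, 0, 200000, 650000, 700000⟩ ⟨0,
 .pol, .pol, .pol, .pol, .aff 3000000 5196153 769801, .pol, .sx 100000 (.aff 20000000 57000001 6333334)
 (.inf 1697057 589256), .sx 100000 (.inf 3674235 272166) (.inf 1697057 589256), .pol⟩

def hL160_40_3_13 : pcchk ⟨(nat_lit 1), (nat_lit 1000), Int.ofNat (nat_lit 190), 0, ⟨0, 1⟩, ⟨Int.ofNat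
 (nat_lit 40), 200⟩⟩ ⟨800000, 850000, 908191, 894532, 922059, 417256, 448290, 388374, 447213, 387298⟩ false
 (nat_lit 650) (Int.negSucc (nat_lit 3988)) (nat_lit 700) (Int.negSucc (nat_lit 29999)) qL160_40_3_13 = true
 := by decide +kernel

def qL160_40_3_14 : PCt := .one ⟨2008000, 251, 381520, 0, -602400, 0, 0, 200000, 700000, 750000⟩ ⟨0, .pol,
 .pol, .pol, .pol, .aff 1500000 1346292 185696, .pol, .inf 2154066 464239, .inf 2154066 464239, .pol⟩

def hL160_40_3_14 : pcchk ⟨(nat_lit 1), (nat_lit 1000), Int.ofNat (nat_lit 190), 0, ⟨0, 1⟩, ⟨Int.ofNat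
 (nat_lit 40), 200⟩⟩ ⟨800000, 850000, 908191, 894532, 922059, 417256, 448290, 388374, 447213, 387298⟩ false
 (nat_lit 700) (Int.negSucc (nat_lit 29999)) (nat_lit 750) (Int.negSucc (nat_lit 29999)) qL160_40_3_14 =
 true := by decide +kernel

def qL160_40_3_15 : PCt := .one ⟨2008000, 251, 381520, 0, -602400, 0, 0, 200000, 750000, 800000⟩ ⟨0, .pol,
 .pol, .pol, .pol, .aff 1500000 1391942 179606, .pol, .aff 35000000 66929067 17272018, .inf 2783883 359211,
 .pol⟩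

def hL160_40_3_15 : pcchk ⟨(nat_lit 1), (nat_lit 1000), Int.ofNat (nat_lit 190), 0, ⟨0, 1⟩, ⟨Int.ofNat
 (nat_lit 40), 200⟩⟩ ⟨800000, 850000, 908191, 894532, 922059, 417256, 448290, 388374, 447213, 387298⟩ false
 (nat_lit 750) (Int.negSucc (nat_lit 29999)) (nat_lit 800) (Int.negSucc (nat_lit 29999)) qL160_40_3_15 =
 true := by decide +kernel

def qL160_40_3_16 : PCt := .one ⟨2008000, 251, 381520, 0, -602400, 0, 0, 200000, 800000, 850000⟩ ⟨0, .pol,
 .pol, .pol, .pol, .aff 1000000 0 0, .pol, .aff 35000000 79737068 14497649, .inf 2872282 348156, .pol⟩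

def hL160_40_3_16 : pcchk ⟨(nat_lit 1), (nat_lit 1000), Int.ofNat (nat_lit 190), 0, ⟨0, 1⟩, ⟨Int.ofNat
 (nat_lit 40), 200⟩⟩ ⟨800000, 850000, 908191, 894532, 922059, 417256, 448290, 388374, 447213, 387298⟩ false
 (nat_lit 800) (Int.negSucc (nat_lit 29999)) (nat_lit 850) (Int.negSucc (nat_lit 29999)) qL160_40_3_16 =
 true := by decide +kernel

def qL160_40_3_17 : PCt := .one ⟨2008000, 251, 381520, 0, -602400, 0, 0, 200000, 850000, 900000⟩ ⟨0, .pol,
 .pol, .pol, .pol, .aff 1000000 0 0, .pol, .aff 20000000 39741352 9083738, .inf 2958040 338062, .pol⟩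

def hL160_40_3_17 : pcchk ⟨(nat_lit 1), (nat_lit 1000), Int.ofNat (nat_lit 190), 0, ⟨0, 1⟩, ⟨Int.ofNat
 (nat_lit 40), 200⟩⟩ ⟨800000, 850000, 908191, 894532, 922059, 417256, 448290, 388374, 447213, 387298⟩ false
 (nat_lit 850) (Int.negSucc (nat_lit 29999)) (nat_lit 900) (Int.negSucc (nat_lit 29999)) qL160_40_3_17 =
 true := by decide +kernel

def qL160_40_3_18 : PCt := .one ⟨2008000, 251, 381520, 0, -602400, 0, 0, 200000, 900000, 950000⟩ ⟨0, .pol,
 .pol, .pol, .pol, .aff 1000000 0 0, .pol, .aff 20000000 47182271 7651179, .inf 3041382 328798, .pol⟩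

def hL160_40_3_18 : pcchk ⟨(nat_lit 1), (nat_lit 1000), Int.ofNat (nat_lit 190), 0, ⟨0, 1⟩, ⟨Int.ofNat
 (nat_lit 40), 200⟩⟩ ⟨800000, 850000, 908191, 894532, 922059, 417256, 448290, 388374, 447213, 387298⟩ false
 (nat_lit 900) (Int.negSucc (nat_lit 29999)) (nat_lit 950) (Int.negSucc (nat_lit 29999)) qL160_40_3_18 =
 true := by decide +kernel

def qL160_40_3_19 : PCt := .one ⟨2008000, 251, 381520, 0, -602400, 0, 0, 200000, 950000, 1000000⟩ ⟨0, .pol,
 .pol, .pol, .pol, .aff 1000000 0 0, .pol, .aff 20000000 59327481 6084870, .inf 3122499 320257, .pol⟩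

def hL160_40_3_19 : pcchk ⟨(nat_lit 1), (nat_lit 1000), Int.ofNat (nat_lit 190), 0, ⟨0, 1⟩, ⟨Int.ofNat
 (nat_lit 40), 200⟩⟩ ⟨800000, 850000, 908191, 894532, 922059, 417256, 448290, 388374, 447213, 387298⟩ false
 (nat_lit 950) (Int.negSucc (nat_lit 29999)) (nat_lit 1000) (Int.negSucc (nat_lit 29999)) qL160_40_3_19 =
 true := by decide +kernel

def qL160_40_4_0 : PCt := .one ⟨2008000, 251, 502000, 381118, 0, 0, 0, 200000, 0, 50000⟩ ⟨50000, .aff
 1154701 866026, .sp 500000 .pol (.aff 866026 1154700), .pol, .pol, .sx 125000 (.aff 59000 651087 1360005)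
 (.aff 1000000 0 0), .aff 0 1154701 866026, .pol, .pol, .pol⟩

def hL160_40_4_0 : pcchk ⟨(nat_lit 1), (nat_lit 1000), Int.ofNat (nat_lit 250), 0, ⟨0, 1⟩, ⟨Int.ofNat
 (nat_lit 40), 200⟩⟩ ⟨800000, 850000, 908191, 894532, 922059, 417256, 448290, 388374, 447213, 387298⟩ true 0
 0 (nat_lit 50) (Int.ofNat (nat_lit 949)) qL160_40_4_0 = true := by decide +kernel

def qL160_40_4_1 : PCt := .one ⟨2008000, 251, 502000, 204012, 8855, 0, 0, 200000, 50000, 100000⟩ ⟨0, .pol,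
 .pol, .pol, .pol, .sx 100000 (.sy 75000 (.sx 50000 (.aff 181000 1057325 634395) (.aff 500000 456436
 547722)) (.sx 50000 (.aff 250000 1145644 490991) (.aff 1000000 0 0))) (.aff 1000000 0 0), .pol, .pol, .sy
 75000 (.sy 62500 (.sy 56250 (.sy 53125 (.sy 51562 (.sx 100000 (.sx 50000 .pol .pol) .pol) (.sx 100000 (.sx
 50000 .pol .pol) .pol)) (.sy 54687 (.sx 100000 (.sx 50000 .pol .pol) .pol) (.sx 100000 (.sx 50000 .pol
 .pol) .pol))) (.sy 59375 (.sy 57812 (.sx 100000 (.sx 50000 .pol .pol) .pol) (.sx 100000 (.sx 50000 .pol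
 .pol) .pol)) (.sy 60937 (.sx 100000 (.sx 50000 .pol .pol) .pol) (.sx 100000 (.sx 50000 .pol .pol) .pol))))
 (.sy 68750 (.sy 65625 (.sy 64062 (.sx 100000 (.sx 50000 .pol .pol) .pol) (.sx 100000 (.sx 50000 .pol .pol)
 .pol)) (.sy 67187 (.sx 100000 (.sx 50000 .pol .pol) .pol) (.sx 100000 (.sx 50000 .pol .pol) .pol))) (.sy
 71875 (.sy 70312 (.sx 100000 (.sx 50000 .pol .pol) .pol) (.sx 100000 (.sx 50000 .pol .pol) .pol)) (.sy
 73437 (.sx 100000 (.sx 50000 .pol .pol) .pol) (.sx 100000 (.sx 50000 .pol .pol) .pol))))) (.sy 87500 (.sy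
 81250 (.sy 78125 (.sy 76562 (.sx 100000 (.sx 50000 .pol .pol) .pol) (.sx 100000 (.sx 50000 .pol .pol)
 .pol)) (.sy 79687 (.sx 100000 (.sx 50000 .pol .pol) .pol) (.sx 100000 (.sx 50000 .pol .pol) .pol))) (.sy
 84375 (.sy 82812 (.sx 100000 (.sx 50000 .pol .pol) .pol) (.sx 100000 (.sx 50000 .pol .pol) .pol)) (.sy
 85937 (.sx 100000 (.sx 50000 .pol .pol) .pol) (.sx 100000 (.sx 50000 .pol .pol) .pol)))) (.sy 93750 (.sy
 90625 (.sy 89062 (.sx 100000 (.sx 50000 .pol .pol) .pol) (.sx 100000 (.sx 50000 .pol .pol) .pol)) (.sy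
 92187 (.sx 100000 (.sx 50000 .pol .pol) .pol) (.sx 100000 (.sx 50000 .pol .pol) .pol))) (.sy 96875 (.sy
 95312 (.sx 100000 (.sx 50000 .pol .pol) .pol) (.sx 100000 (.sx 50000 .pol .pol) .pol)) (.sy 98437 (.sx
 100000 (.sx 50000 .pol .pol) .pol) (.sx 100000 (.sx 50000 .pol .pol) .pol))))), .pol⟩

def hL160_40_4_1 : pcchk ⟨(nat_lit 1), (nat_lit 1000), Int.ofNat (nat_lit 250), 0, ⟨0, 1⟩, ⟨Int.ofNat
 (nat_lit 40), 200⟩⟩ ⟨800000, 850000, 908191, 894532, 922059, 417256, 448290, 388374, 447213, 387298⟩ false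
 (nat_lit 50) (Int.ofNat (nat_lit 949)) (nat_lit 100) (Int.ofNat (nat_lit 1457)) qL160_40_4_1 = true := by
 decide +kernel

def qL160_40_4_2 : PCt := .one ⟨2008000, 251, 502000, 20080, 27248, 0, 0, 200000, 100000, 150000⟩ ⟨0, .pol,
 .pol, .pol, .pol, .sy 125000 (.sy 112500 (.sx 100000 (.aff 450000 1253103 241401) (.aff 1000000 0 0)) (.sy
 118750 (.sx 100000 (.aff 500000 1313363 190352) (.aff 1000000 0 0)) (.sx 100000 (.aff 556000 1373867
 143490) (.aff 1000000 0 0)))) (.sx 100000 (.sy 137500 (.sx 50000 (.aff 613000 1531668 97782) (.aff 1000000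
 0 0)) (.sx 50000 (.aff 650000 1562601 78395) (.aff 1000000 0 0))) (.aff 1000000 0 0)), .pol, .pol, .sx
 100000 .pol .pol, .pol⟩

def hL160_40_4_2 : pcchk ⟨(nat_lit 1), (nat_lit 1000), Int.ofNat (nat_lit 250), 0, ⟨0, 1⟩, ⟨Int.ofNat
 (nat_lit 40), 200⟩⟩ ⟨800000, 850000, 908191, 894532, 922059, 417256, 448290, 388374, 447213, 387298⟩ false
 (nat_lit 100) (Int.ofNat (nat_lit 1457)) (nat_lit 150) (Int.ofNat (nat_lit 1507)) qL160_40_4_2 = true := by
 decide +kernel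

def qL160_40_4_3 : PCt := .one ⟨2008000, 251, 502000, -26908, 34296, 0, 0, 200000, 150000, 200000⟩ ⟨0, .pol,
 .pol, .pol, .pol, .sx 100000 (.sx 50000 (.sy 175000 (.sy 162500 (.sy 156250 (.sx 25000 (.aff 750000 1670366
 37417) (.aff 1000000 0 0)) (.aff 775000 1700821 29766)) (.sx 25000 (.sy 168750 (.sx 12500 (.aff 800000
 1778390 22493) (.aff 1000000 0 0)) (.aff 825000 1757907 17422)) (.aff 1000000 0 0))) (.sx 25000 (.sx 12500
 (.aff 875000 1764259 8857) (.aff 1000000 0 0)) (.aff 1000000 0 0))) (.aff 1000000 0 0)) (.aff 1000000 0 0),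
 .pol, .pol, .sx 100000 .pol .pol, .pol⟩

def hL160_40_4_3 : pcchk ⟨(nat_lit 1), (nat_lit 1000), Int.ofNat (nat_lit 250), 0, ⟨0, 1⟩, ⟨Int.ofNat
 (nat_lit 40), 200⟩⟩ ⟨800000, 850000, 908191, 894532, 922059, 417256, 448290, 388374, 447213, 387298⟩ false
 (nat_lit 150) (Int.ofNat (nat_lit 1507)) (nat_lit 200) (Int.ofNat (nat_lit 1440)) qL160_40_4_3 = true := by
 decide +kernel

def qL160_40_4_4 : PCt := .one ⟨2008000, 251, 502000, -114055, 51726, 0, 0, 200000, 200000, 250000⟩ ⟨0,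
 .pol, .pol, .pol, .pol, .sx 100000 (.sx 50000 (.sx 25000 (.aff 1150000 2002987 11234) (.aff 1000000 0 0))
 (.aff 1000000 0 0)) (.aff 1000000 0 0), .pol, .pol, .pol, .pol⟩

def hL160_40_4_4 : pcchk ⟨(nat_lit 1), (nat_lit 1000), Int.ofNat (nat_lit 250), 0, ⟨0, 1⟩, ⟨Int.ofNat
 (nat_lit 40), 200⟩⟩ ⟨800000, 850000, 908191, 894532, 922059, 417256, 448290, 388374, 447213, 387298⟩ false
 (nat_lit 200) (Int.ofNat (nat_lit 1440)) (nat_lit 250) (Int.ofNat (nat_lit 1156)) qL160_40_4_4 = true := by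
 decide +kernel

def qL160_40_4_5 : PCt := .one ⟨2008000, 251, 502000, -158632, 62870, 0, 0, 200000, 250000, 300000⟩ ⟨0,
 .pol, .pol, .pol, .pol, .sx 100000 (.sy 275000 (.sx 50000 (.sx 25000 (.aff 1350000 2268260 54007) (.aff
 1000000 0 0)) (.aff 1000000 0 0)) (.sy 287500 (.sy 281250 (.sy 278125 (.sx 50000 (.sx 25000 (.sx 12500
 (.aff 1500000 2715696 92058) (.aff 1000000 0 0)) (.aff 1000000 0 0)) (.aff 1000000 0 0)) (.sx 50000 (.sx
 25000 (.aff 1538000 2544860 113737) (.aff 1000000 0 0)) (.aff 1000000 0 0))) (.sx 50000 (.aff 1525000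
 2504091 110070) (.aff 1000000 0 0))) (.sx 50000 (.aff 1500000 2423840 103143) (.aff 1000000 0 0)))) (.aff
 1000000 0 0), .pol, .pol, .pol, .pol⟩

def hL160_40_4_5 : pcchk ⟨(nat_lit 1), (nat_lit 1000), Int.ofNat (nat_lit 250), 0, ⟨0, 1⟩, ⟨Int.ofNat
 (nat_lit 40), 200⟩⟩ ⟨800000, 850000, 908191, 894532, 922059, 417256, 448290, 388374, 447213, 387298⟩ false
 (nat_lit 250) (Int.ofNat (nat_lit 1156)) (nat_lit 300) (Int.ofNat (nat_lit 761)) qL160_40_4_5 = true := by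
 decide +kernel

def qL160_40_4_6 : PCt := .one ⟨2008000, 251, 502000, -226101, 83111, 0, 0, 200000, 300000, 350000⟩ ⟨0,
 .pol, .pol, .pol, .pol, .sx 100000 (.sy 325000 (.sy 312500 (.aff 1588000 2513647 137547) (.sy 318750 (.sx
 50000 (.aff 1500000 2481259 100756) (.aff 1000000 0 0)) (.sx 50000 (.sy 321875 (.sx 25000 (.aff 1500000
 2531058 98773) (.aff 1000000 0 0)) (.sy 323437 (.sy 322656 (.sx 25000 (.sx 12500 (.aff 1500000 2538762
 98474) (.aff 1600000 2724885 132116)) (.aff 1000000 0 0)) (.sx 25000 (.sx 12500 (.aff 1500000 2541836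
 98355) (.aff 1600000 2728185 131956)) (.aff 1000000 0 0))) (.sy 324218 (.sy 323827 (.sy 323632 (.sy 323534
 (.sx 25000 (.sx 12500 (.aff 1500000 2543563 98288) (.aff 1600000 2730038 131867)) (.aff 1000000 0 0)) (.sy
 323583 (.sx 25000 (.sx 12500 (.aff 1500000 2543850 98277) (.aff 1600000 2730346 131852)) (.aff 1000000 0
 0)) (.sy 323607 (.sx 25000 (.sx 12500 (.aff 1500000 2543993 98271) (.aff 1600000 2730500 131844)) (.aff
 1000000 0 0)) (.sy 323619 (.sx 25000 (.sx 12500 (.aff 1500000 2544064 98268) (.aff 1600000 2730576 131841))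
 (.aff 1000000 0 0)) (.sy 323625 (.sx 25000 (.sx 12500 (.aff 1500000 2544100 98267) (.aff 1600000 2730614
 131839)) (.aff 1000000 0 0)) (.sy 323628 (.sx 25000 (.sx 12500 (.aff 1500000 2544117 98266) (.aff 1600000
 2730633 131838)) (.aff 1000000 0 0)) (.sy 323630 (.sy 323629 (.sx 25000 (.sx 12500 (.aff 1500000 2544125
 98266) (.aff 1600000 2730642 131838)) (.aff 1000000 0 0)) (.sx 25000 (.sx 12500 (.aff 1500000 2544129
 98266) (.aff 1600000 2730646 131837)) (.aff 1000000 0 0))) (.sy 323631 (.sx 25000 (.sx 12500 (.aff 1500000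
 2544133 98266) (.aff 1600000 2730650 131837)) (.aff 1000000 0 0)) (.sx 25000 (.sx 12500 (.aff 1500000
 2544137 98266) (.aff 1600000 2730654 131837)) (.aff 1000000 0 0)))))))))) (.sy 323729 (.sy 323680 (.sy
 323656 (.sy 323644 (.sy 323638 (.sy 323635 (.sy 323633 (.sx 25000 (.sx 12500 (.aff 1500000 2544141 98265)
 (.aff 1600000 2730658 131837)) (.aff 1000000 0 0)) (.sx 25000 (.sx 12500 (.aff 1500000 2544147 98265) (.aff
 1600000 2730665 131837)) (.aff 1000000 0 0))) (.sx 25000 (.sx 12500 (.aff 1500000 2544157 98265) (.aff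
 1600000 2730675 131836)) (.aff 1000000 0 0))) (.sx 25000 (.sx 12500 (.aff 1500000 2544174 98264) (.aff
 1600000 2730694 131835)) (.aff 1000000 0 0))) (.sx 25000 (.sx 12500 (.aff 1500000 2544210 98263) (.aff
 1600000 2730732 131833)) (.aff 1000000 0 0))) (.sx 25000 (.sx 12500 (.aff 1500000 2544280 98260) (.aff
 1600000 2730808 131830)) (.aff 1000000 0 0))) (.sx 25000 (.sx 12500 (.aff 1500000 2544424 98255) (.aff
 1600000 2730962 131822)) (.aff 1000000 0 0))) (.sx 25000 (.sx 12500 (.aff 1500000 2544713 98243) (.aff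
 1600000 2731272 131807)) (.aff 1000000 0 0)))) (.sy 324022 (.sx 25000 (.sx 12500 (.aff 1500000 2545288
 98221) (.aff 1600000 2731890 131777)) (.aff 1000000 0 0)) (.sy 324120 (.sy 324071 (.sy 324046 (.sy 324034
 (.sy 324028 (.sy 324025 (.sy 324023 (.sx 25000 (.sx 12500 (.aff 1500000 2545673 98206) (.aff 1600000
 2732303 131757)) (.aff 1000000 0 0)) (.sy 324024 (.sx 25000 (.sx 12500 (.aff 1500000 2545677 98206) (.aff
 1600000 2732307 131757)) (.aff 1000000 0 0)) (.sx 25000 (.sx 12500 (.aff 1500000 2545681 98206) (.aff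
 1600000 2732312 131757)) (.aff 1000000 0 0)))) (.sy 324026 (.sx 25000 (.sx 12500 (.aff 1500000 2545685
 98206) (.aff 1600000 2732316 131757)) (.aff 1000000 0 0)) (.sy 324027 (.sx 25000 (.sx 12500 (.aff 1500000
 2545689 98206) (.aff 1600000 2732320 131757)) (.aff 1000000 0 0)) (.sx 25000 (.sx 12500 (.aff 1500000
 2545693 98206) (.aff 1600000 2732324 131756)) (.aff 1000000 0 0))))) (.sy 324031 (.sy 324029 (.sx 25000
 (.sx 12500 (.aff 1500000 2545697 98205) (.aff 1600000 2732329 131756)) (.aff 1000000 0 0)) (.sx 25000 (.sx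
 12500 (.aff 1500000 2545703 98205) (.aff 1600000 2732335 131756)) (.aff 1000000 0 0))) (.sx 25000 (.sx
 12500 (.aff 1500000 2545713 98205) (.aff 1600000 2732345 131755)) (.aff 1000000 0 0)))) (.sy 324040 (.sx
 25000 (.sx 12500 (.aff 1500000 2545730 98204) (.aff 1600000 2732364 131755)) (.aff 1000000 0 0)) (.sx 25000
 (.sx 12500 (.aff 1500000 2545754 98203) (.aff 1600000 2732390 131753)) (.aff 1000000 0 0)))) (.sy 324058
 (.sx 25000 (.sx 12500 (.aff 1500000 2545789 98202) (.aff 1600000 2732428 131751)) (.aff 1000000 0 0)) (.sx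
 25000 (.sx 12500 (.aff 1500000 2545838 98200) (.aff 1600000 2732480 131749)) (.aff 1000000 0 0)))) (.sx
 25000 (.sx 12500 (.aff 1500000 2545960 98195) (.aff 1600000 2732611 131743)) (.aff 1000000 0 0))) (.sx
 25000 (.sx 12500 (.aff 1500000 2546249 98184) (.aff 1600000 2732921 131728)) (.aff 1000000 0 0))))) (.aff
 1550000 2536055 119280)))) (.aff 1000000 0 0)))) (.sy 337500 (.sy 331250 (.sx 50000 (.sx 25000 (.aff
 1800000 2898276 220821) (.aff 1000000 0 0)) (.aff 1000000 0 0)) (.sx 50000 (.sx 25000 (.aff 2000000 3657185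
 273435) (.aff 1000000 0 0)) (.aff 1000000 0 0))) (.sx 50000 (.sx 25000 (.aff 2000000 3708100 269680) (.aff
 1500000 1658313 150756)) (.aff 1000000 0 0)))) (.aff 1000000 0 0), .pol, .pol, .pol, .pol⟩

def hL160_40_4_6 : pcchk ⟨(nat_lit 1), (nat_lit 1000), Int.ofNat (nat_lit 250), 0, ⟨0, 1⟩, ⟨Int.ofNat
 (nat_lit 40), 200⟩⟩ ⟨800000, 850000, 908191, 894532, 922059, 417256, 448290, 388374, 447213, 387298⟩ false
 (nat_lit 300) (Int.ofNat (nat_lit 761)) (nat_lit 350) (Int.ofNat (nat_lit 198)) qL160_40_4_6 = true := by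
 decide +kernel

def qL160_40_4_7 : PCt := .one ⟨2008000, 251, 502000, -282325, 102789, 0, 0, 200000, 350000, 400000⟩ ⟨0,
 .pol, .pol, .pol, .pol, .sx 100000 (.sx 50000 (.aff 1950000 3004164 300417) (.aff 1000000 0 0)) (.aff
 1000000 0 0), .pol, .pol, .pol, .pol⟩

def hL160_40_4_7 : pcchk ⟨(nat_lit 1), (nat_lit 1000), Int.ofNat (nat_lit 250), 0, ⟨0, 1⟩, ⟨Int.ofNat
 (nat_lit 40), 200⟩⟩ ⟨800000, 850000, 908191, 894532, 922059, 417256, 448290, 388374, 447213, 387298⟩ false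
 (nat_lit 350) (Int.ofNat (nat_lit 198)) (nat_lit 400) (Int.negSucc (nat_lit 504)) qL160_40_4_7 = true := by
 decide +kernel

def qL160_40_4_8 : PCt := .one ⟨2008000, 251, 502000, -328911, 121423, 0, 0, 200000, 400000, 450000⟩ ⟨0,
 .pol, .pol, .pol, .pol, .sy 425000 (.sy 412500 (.sx 100000 (.sx 50000 (.aff 2700000 4845746 596400) (.aff
 2213000 3131455 469868)) (.aff 1000000 0 0)) (.sx 100000 (.sx 50000 (.aff 3000000 6683313 598506) (.aff
 2200000 3106123 463601)) (.aff 1000000 0 0))) (.sy 437500 (.sy 431250 (.sx 100000 (.sx 50000 (.aff 3000000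
 6757712 591917) (.aff 2175000 3075270 448945)) (.aff 1000000 0 0)) (.sx 100000 (.sx 50000 (.aff 3000000
 6806860 587643) (.aff 2150000 3031729 436220)) (.aff 1000000 0 0))) (.sx 100000 (.sx 50000 (.aff 3000000
 6879923 581402) (.aff 2150000 3064270 431588)) (.aff 1000000 0 0))), .pol, .pol, .pol, .pol⟩

def hL160_40_4_8 : pcchk ⟨(nat_lit 1), (nat_lit 1000), Int.ofNat (nat_lit 250), 0, ⟨0, 1⟩, ⟨Int.ofNat
 (nat_lit 40), 200⟩⟩ ⟨800000, 850000, 908191, 894532, 922059, 417256, 448290, 388374, 447213, 387298⟩ false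
 (nat_lit 400) (Int.negSucc (nat_lit 504)) (nat_lit 450) (Int.negSucc (nat_lit 1323)) qL160_40_4_8 = true :=
 by decide +kernel

def qL160_40_4_9 : PCt := .one ⟨2008000, 251, 502000, -378709, 143833, 0, 0, 200000, 450000, 500000⟩ ⟨0,
 .pol, .pol, .pol, .pol, .sy 475000 (.sy 462500 (.sy 456250 (.sx 100000 (.sy 453125 (.sx 50000 (.aff 3000000
 6940221 576351) (.sx 75000 (.aff 2800000 4416730 733575) (.aff 1000000 0 0))) (.sx 50000 (.aff 3000000
 6964195 574367) (.sx 75000 (.aff 3000000 4924429 812277) (.aff 1500000 1139784 219340)))) (.aff 1000000 0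
 0)) (.sx 100000 (.sy 459375 (.sx 50000 (.aff 3000000 6988086 572403) (.sx 75000 (.aff 3000000 5161043
 775038) (.aff 2000000 2373735 421278))) (.sx 50000 (.aff 3000000 8587783 465778) (.sx 75000 (.aff 3000000
 5431391 736460) (.aff 2100000 2620005 461832)))) (.aff 1000000 0 0))) (.sy 468750 (.sx 100000 (.sx 50000
 (.aff 3000000 8631339 463428) (.sx 75000 (.aff 3000000 5458938 732744) (.aff 2300000 3112074 543047)))
 (.aff 1000000 0 0)) (.sx 100000 (.sx 50000 (.aff 3000000 8689074 460349) (.sx 75000 (.aff 3000000 5495453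
 727875) (.aff 2300000 3132891 539438))) (.aff 1000000 0 0)))) (.sy 487500 (.sy 481250 (.sx 100000 (.sx
 50000 (.aff 3000000 8746428 457330) (.sx 75000 (.aff 3000000 5531727 723102) (.aff 2300000 3153570
 535901))) (.aff 1000000 0 0)) (.sx 100000 (.sx 50000 (.aff 3000000 8803409 454370) (.sx 75000 (.aff 3000000
 5567765 718422) (.aff 2600000 3521364 726992))) (.aff 1000000 0 0))) (.sx 100000 (.aff 2700000 3777483
 765060) (.aff 1500000 993731 251578))), .pol, .pol, .pol, .pol⟩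

def hL160_40_4_9 : pcchk ⟨(nat_lit 1), (nat_lit 1000), Int.ofNat (nat_lit 250), 0, ⟨0, 1⟩, ⟨Int.ofNat
 (nat_lit 40), 200⟩⟩ ⟨800000, 850000, 908191, 894532, 922059, 417256, 448290, 388374, 447213, 387298⟩ false
 (nat_lit 450) (Int.negSucc (nat_lit 1323)) (nat_lit 500) (Int.negSucc (nat_lit 2266)) qL160_40_4_9 = true
 := by decide +kernel

def qL160_40_4_10 : PCt := .one ⟨2008000, 251, 502000, -438146, 173551, 0, 0, 200000, 500000, 550000⟩ ⟨0,
 .pol, .pol, .pol, .pol, .sx 100000 (.aff 3000000 4582576 872872) (.sy 525000 (.sy 512500 (.aff 2400000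
 3113759 629465) (.sy 518750 (.sx 150000 (.sx 125000 (.sx 112500 (.aff 2900000 4067657 887489) (.aff 1500000
 1041886 239950)) (.aff 1000000 0 0)) (.aff 1000000 0 0)) (.sx 150000 (.sx 125000 (.sx 112500 (.aff 3000000
 4432501 902426) (.aff 2300000 2761855 611908)) (.aff 1000000 0 0)) (.aff 1000000 0 0)))) (.sx 150000 (.sx
 125000 (.aff 2800000 3732560 868037) (.aff 2600000 3237872 790643)) (.aff 1000000 0 0))), .pol, .pol, .pol,
 .pol⟩

def hL160_40_4_10 : pcchk ⟨(nat_lit 1), (nat_lit 1000), Int.ofNat (nat_lit 250), 0, ⟨0, 1⟩, ⟨Int.ofNat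
 (nat_lit 40), 200⟩⟩ ⟨800000, 850000, 908191, 894532, 922059, 417256, 448290, 388374, 447213, 387298⟩ false
 (nat_lit 500) (Int.negSucc (nat_lit 2266)) (nat_lit 550) (Int.negSucc (nat_lit 3357)) qL160_40_4_10 = true
 := by decide +kernel

def qL160_40_4_11 : PCt := .one ⟨2008000, 251, 502000, -485535, 199615, 0, 0, 200000, 550000, 600000⟩ ⟨0,
 .pol, .pol, .pol, .pol, .sx 100000 (.aff 3000000 5537750 722316) (.sx 150000 (.aff 2975000 3866833 1008739)
 (.aff 2900000 3664530 985120)), .pol, .pol, .pol, .pol⟩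

def hL160_40_4_11 : pcchk ⟨(nat_lit 1), (nat_lit 1000), Int.ofNat (nat_lit 250), 0, ⟨0, 1⟩, ⟨Int.ofNat
 (nat_lit 40), 200⟩⟩ ⟨800000, 850000, 908191, 894532, 922059, 417256, 448290, 388374, 447213, 387298⟩ false
 (nat_lit 550) (Int.negSucc (nat_lit 3357)) (nat_lit 600) (Int.negSucc (nat_lit 4566)) qL160_40_4_11 = true
 := by decide +kernel

def qL160_40_4_12 : PCt := .one ⟨2008000, 251, 502000, -269474, 69978, 0, 0, 200000, 600000, 650000⟩ ⟨0,
 .pol, .pol, .pol, .pol, .sy 625000 (.sy 612500 (.sx 100000 (.aff 3000000 5686241 703453) (.sx 150000 (.aff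
 3000000 4199568 952479) (.aff 3000000 3722519 1074542))) (.aff 2900000 3858919 935496)) (.aff 3000000
 4123106 970143), .pol, .aff 6700000 10076272 3224407, .pol, .pol⟩

def hL160_40_4_12 : pcchk ⟨(nat_lit 1), (nat_lit 1000), Int.ofNat (nat_lit 250), 0, ⟨0, 1⟩, ⟨Int.ofNat
 (nat_lit 40), 200⟩⟩ ⟨800000, 850000, 908191, 894532, 922059, 417256, 448290, 388374, 447213, 387298⟩ false
 (nat_lit 600) (Int.negSucc (nat_lit 4566)) (nat_lit 650) (Int.negSucc (nat_lit 5237)) qL160_40_4_12 = true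
 := by decide +kernel

def qL160_40_4_13 : PCt := .one ⟨2008000, 251, 502000, -9944420, 6358693, 0, 0, 200000, 650000, 700000⟩ ⟨0,
 .pol, .pol, .pol, .pol, .aff 3000000 5196153 769801, .pol, .sx 100000 (.aff 20000000 57000001 6333334)
 (.inf 1697057 589256), .sx 100000 (.inf 3674235 272166) (.inf 1697057 589256), .pol⟩

def hL160_40_4_13 : pcchk ⟨(nat_lit 1), (nat_lit 1000), Int.ofNat (nat_lit 250), 0, ⟨0, 1⟩, ⟨Int.ofNat
 (nat_lit 40), 200⟩⟩ ⟨800000, 850000, 908191, 894532, 922059, 417256, 448290, 388374, 447213, 387298⟩ false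
 (nat_lit 650) (Int.negSucc (nat_lit 5237)) (nat_lit 700) (Int.negSucc (nat_lit 29999)) qL160_40_4_13 = true
 := by decide +kernel

def qL160_40_4_14 : PCt := .one ⟨2008000, 251, 502000, 0, -602400, 0, 0, 200000, 700000, 750000⟩ ⟨0, .pol,
 .pol, .pol, .pol, .aff 1500000 1346292 185696, .pol, .inf 2154066 464239, .inf 2154066 464239, .pol⟩

def hL160_40_4_14 : pcchk ⟨(nat_lit 1), (nat_lit 1000), Int.ofNat (nat_lit 250), 0, ⟨0, 1⟩, ⟨Int.ofNat
 (nat_lit 40), 200⟩⟩ ⟨800000, 850000, 908191, 894532, 922059, 417256, 448290, 388374, 447213, 387298⟩ false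
 (nat_lit 700) (Int.negSucc (nat_lit 29999)) (nat_lit 750) (Int.negSucc (nat_lit 29999)) qL160_40_4_14 =
 true := by decide +kernel

def qL160_40_4_15 : PCt := .one ⟨2008000, 251, 502000, 0, -602400, 0, 0, 200000, 750000, 800000⟩ ⟨0, .pol,
 .pol, .pol, .pol, .aff 1500000 1391942 179606, .pol, .aff 35000000 66929067 17272018, .inf 2783883 359211,
 .pol⟩

def hL160_40_4_15 : pcchk ⟨(nat_lit 1), (nat_lit 1000), Int.ofNat (nat_lit 250), 0, ⟨0, 1⟩, ⟨Int.ofNat
 (nat_lit 40), 200⟩⟩ ⟨800000, 850000, 908191, 894532, 922059, 417256, 448290, 388374, 447213, 387298⟩ false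
 (nat_lit 750) (Int.negSucc (nat_lit 29999)) (nat_lit 800) (Int.negSucc (nat_lit 29999)) qL160_40_4_15 =
 true := by decide +kernel

def qL160_40_4_16 : PCt := .one ⟨2008000, 251, 502000, 0, -602400, 0, 0, 200000, 800000, 850000⟩ ⟨0, .pol,
 .pol, .pol, .pol, .aff 1000000 0 0, .pol, .aff 35000000 79737068 14497649, .inf 2872282 348156, .pol⟩

def hL160_40_4_16 : pcchk ⟨(nat_lit 1), (nat_lit 1000), Int.ofNat (nat_lit 250), 0, ⟨0, 1⟩, ⟨Int.ofNat
 (nat_lit 40), 200⟩⟩ ⟨800000, 850000, 908191, 894532, 922059, 417256, 448290, 388374, 447213, 387298⟩ false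
 (nat_lit 800) (Int.negSucc (nat_lit 29999)) (nat_lit 850) (Int.negSucc (nat_lit 29999)) qL160_40_4_16 =
 true := by decide +kernel

def qL160_40_4_17 : PCt := .one ⟨2008000, 251, 502000, 0, -602400, 0, 0, 200000, 850000, 900000⟩ ⟨0, .pol,
 .pol, .pol, .pol, .aff 1000000 0 0, .pol, .aff 20000000 45889360 7866748, .inf 2958040 338062, .pol⟩

def hL160_40_4_17 : pcchk ⟨(nat_lit 1), (nat_lit 1000), Int.ofNat (nat_lit 250), 0, ⟨0, 1⟩, ⟨Int.ofNat
 (nat_lit 40), 200⟩⟩ ⟨800000, 850000, 908191, 894532, 922059, 417256, 448290, 388374, 447213, 387298⟩ false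
 (nat_lit 850) (Int.negSucc (nat_lit 29999)) (nat_lit 900) (Int.negSucc (nat_lit 29999)) qL160_40_4_17 =
 true := by decide +kernel

def qL160_40_4_18 : PCt := .one ⟨2008000, 251, 502000, 0, -602400, 0, 0, 200000, 900000, 950000⟩ ⟨0, .pol,
 .pol, .pol, .pol, .aff 1000000 0 0, .pol, .aff 20000000 47182271 7651179, .inf 3041382 328798, .pol⟩

def hL160_40_4_18 : pcchk ⟨(nat_lit 1), (nat_lit 1000), Int.ofNat (nat_lit 250), 0, ⟨0, 1⟩, ⟨Int.ofNat
 (nat_lit 40), 200⟩⟩ ⟨800000, 850000, 908191, 894532, 922059, 417256, 448290, 388374, 447213, 387298⟩ false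
 (nat_lit 900) (Int.negSucc (nat_lit 29999)) (nat_lit 950) (Int.negSucc (nat_lit 29999)) qL160_40_4_18 =
 true := by decide +kernel

def qL160_40_4_19 : PCt := .one ⟨2008000, 251, 502000, 0, -602400, 0, 0, 200000, 950000, 1000000⟩ ⟨0, .pol,
 .pol, .pol, .pol, .aff 1000000 0 0, .pol, .aff 20000000 59327481 6084870, .inf 3122499 320257, .pol⟩

def hL160_40_4_19 : pcchk ⟨(nat_lit 1), (nat_lit 1000), Int.ofNat (nat_lit 250), 0, ⟨0, 1⟩, ⟨Int.ofNat
 (nat_lit 40), 200⟩⟩ ⟨800000, 850000, 908191, 894532, 922059, 417256, 448290, 388374, 447213, 387298⟩ false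
 (nat_lit 950) (Int.negSucc (nat_lit 29999)) (nat_lit 1000) (Int.negSucc (nat_lit 29999)) qL160_40_4_19 =
 true := by decide +kernel

def qL160_40_5_0 : PCt := .one ⟨2008000, 251, 803200, 220076, 0, 0, 0, 200000, 0, 50000⟩ ⟨12500, .aff
 2000000 500000, .pol, .pol, .pol, .aff 0 1763855 566941, .aff 0 2350714 425403, .pol, .pol, .pol⟩

def hL160_40_5_0 : pcchk ⟨(nat_lit 1), (nat_lit 1000), Int.ofNat (nat_lit 400), 0, ⟨0, 1⟩, ⟨Int.ofNat
 (nat_lit 40), 200⟩⟩ ⟨800000, 850000, 908191, 894532, 922059, 417256, 448290, 388374, 447213, 387298⟩ true 0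
 0 (nat_lit 50) (Int.ofNat (nat_lit 548)) qL160_40_5_0 = true := by decide +kernel

def qL160_40_5_1 : PCt := .one ⟨2008000, 251, 803200, 246180, -1306, 0, 0, 200000, 50000, 100000⟩ ⟨0, .pol,
 .pol, .pol, .pol, .sy 75000 (.sx 100000 (.sx 50000 (.aff 0 2278390 438907) .pol) .pol) (.sy 87500 (.sy
 81250 (.sy 78125 (.sx 100000 (.sy 76562 (.sy 75781 (.sx 50000 (.sx 25000 (.aff 50000 2333066 386831) (.aff
 0 1417891 705273)) (.aff 0 1002600 997407)) (.sx 50000 (.sx 25000 (.aff 50000 2345119 384842) (.aff 0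
 1425216 701649)) (.aff 0 1007780 992281))) (.sx 50000 (.aff 60000 2338217 377895) (.aff 0 1015504 984733)))
 .pol) (.sx 100000 (.sx 50000 (.aff 69000 2350660 368731) (.aff 0 1030777 970142)) .pol)) (.sx 100000 (.sx
 50000 (.aff 88000 2369446 351029) (.aff 0 1060661 942809)) .pol)) (.sy 93750 (.sy 90625 (.sx 100000 (.sx
 50000 (.aff 125000 2335611 327806) (.aff 0 1089725 917663)) .pol) (.sx 100000 (.sx 50000 (.aff 125000
 2376234 322202) (.aff 0 1108678 901976)) .pol)) (.sy 96875 (.sy 95312 (.sx 100000 (.sx 50000 (.aff 125000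
 2406247 318183) (.aff 0 1122682 890725)) .pol) (.sx 100000 (.sx 50000 (.aff 125000 2426052 315585) (.aff 0
 1131922 883454)) .pol)) (.sx 100000 (.sx 50000 (.aff 125000 2455463 311805) (.aff 0 1145644 872872))
 .pol)))), .pol, .pol, .sx 100000 (.sx 50000 .pol .pol) .pol, .pol⟩

def hL160_40_5_1 : pcchk ⟨(nat_lit 1), (nat_lit 1000), Int.ofNat (nat_lit 400), 0, ⟨0, 1⟩, ⟨Int.ofNat
 (nat_lit 40), 200⟩⟩ ⟨800000, 850000, 908191, 894532, 922059, 417256, 448290, 388374, 447213, 387298⟩ false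
 (nat_lit 50) (Int.ofNat (nat_lit 548)) (nat_lit 100) (Int.ofNat (nat_lit 1161)) qL160_40_5_1 = true := by
 decide +kernel

def qL160_40_5_2 : PCt := .one ⟨2008000, 251, 803200, 121684, 11144, 0, 0, 200000, 100000, 150000⟩ ⟨0, .pol,
 .pol, .pol, .pol, .sy 125000 (.sx 100000 (.sx 50000 (.aff 257000 2463426 224099) (.aff 1000000 0 0)) (.aff
 0 866026 1154700)) (.sx 100000 (.sy 137500 (.sx 50000 (.sy 131250 (.sx 25000 (.sx 12500 (.aff 300000
 2587792 189351) (.aff 1000000 0 0)) (.aff 1000000 0 0)) (.sx 25000 (.sy 134375 (.sx 12500 (.aff 375000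
 2606935 149841) (.aff 1000000 0 0)) (.sx 12500 (.aff 425000 2681622 123293) (.aff 1000000 0 0))) (.aff
 1000000 0 0))) (.aff 1000000 0 0)) (.sx 50000 (.sx 25000 (.aff 450000 2637708 114683) (.aff 1000000 0 0))
 (.aff 1000000 0 0))) (.aff 1000000 0 0)), .pol, .pol, .sx 100000 .pol .pol, .pol⟩

def hL160_40_5_2 : pcchk ⟨(nat_lit 1), (nat_lit 1000), Int.ofNat (nat_lit 400), 0, ⟨0, 1⟩, ⟨Int.ofNat
 (nat_lit 40), 200⟩⟩ ⟨800000, 850000, 908191, 894532, 922059, 417256, 448290, 388374, 447213, 387298⟩ false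
 (nat_lit 100) (Int.ofNat (nat_lit 1161)) (nat_lit 150) (Int.ofNat (nat_lit 1464)) qL160_40_5_2 = true := by
 decide +kernel

def qL160_40_5_3 : PCt := .one ⟨2008000, 251, 803200, -1607, 29638, 0, 0, 200000, 150000, 200000⟩ ⟨0, .pol,
 .pol, .pol, .pol, .sx 100000 (.sx 50000 (.sy 175000 (.sy 162500 (.sx 25000 (.aff 544000 2784799 74669)
 (.aff 1000000 0 0)) (.sx 25000 (.sy 168750 (.sx 12500 (.aff 625000 2870014 48999) (.aff 1000000 0 0)) (.sy
 171875 (.sy 170312 (.sx 12500 (.aff 644000 2897871 43735) (.aff 1000000 0 0)) (.sx 12500 (.sx 6250 (.aff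
 750000 2891188 21618) (.aff 1000000 0 0)) (.aff 1000000 0 0))) (.sx 12500 (.sx 6250 (.aff 750000 2910925
 21471) (.aff 1000000 0 0)) (.aff 1000000 0 0)))) (.aff 1000000 0 0))) (.sx 25000 (.sx 12500 (.aff 750000
 2888907 21635) (.aff 1000000 0 0)) (.aff 1000000 0 0))) (.aff 1000000 0 0)) (.aff 1000000 0 0), .pol, .pol,
 .sx 100000 .pol .pol, .pol⟩

def hL160_40_5_3 : pcchk ⟨(nat_lit 1), (nat_lit 1000), Int.ofNat (nat_lit 400), 0, ⟨0, 1⟩, ⟨Int.ofNat
 (nat_lit 40), 200⟩⟩ ⟨800000, 850000, 908191, 894532, 922059, 417256, 448290, 388374, 447213, 387298⟩ false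
 (nat_lit 150) (Int.ofNat (nat_lit 1464)) (nat_lit 200) (Int.ofNat (nat_lit 1460)) qL160_40_5_3 = true := by
 decide +kernel

def qL160_40_5_4 : PCt := .one ⟨2008000, 251, 803200, -139757, 57268, 0, 0, 200000, 200000, 250000⟩ ⟨0,
 .pol, .pol, .pol, .pol, .sx 100000 (.sx 50000 (.sx 25000 (.aff 1250000 3338312 18723) (.aff 1000000 0 0))
 (.aff 1000000 0 0)) (.aff 1000000 0 0), .pol, .pol, .pol, .pol⟩

def hL160_40_5_4 : pcchk ⟨(nat_lit 1), (nat_lit 1000), Int.ofNat (nat_lit 400), 0, ⟨0, 1⟩, ⟨Int.ofNat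
 (nat_lit 40), 200⟩⟩ ⟨800000, 850000, 908191, 894532, 922059, 417256, 448290, 388374, 447213, 387298⟩ false
 (nat_lit 200) (Int.ofNat (nat_lit 1460)) (nat_lit 250) (Int.ofNat (nat_lit 1112)) qL160_40_5_4 = true := by
 decide +kernel

def qL160_40_5_5 : PCt := .one ⟨2008000, 251, 803200, -224093, 78352, 0, 0, 200000, 250000, 300000⟩ ⟨0,
 .pol, .pol, .pol, .pol, .sx 100000 (.sx 50000 (.sy 275000 (.sx 25000 (.aff 1575000 3726426 88725) (.aff
 1000000 0 0)) (.aff 1647000 3789895 110454)) (.aff 1000000 0 0)) (.aff 1000000 0 0), .pol, .pol, .pol,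
 .pol⟩

def hL160_40_5_5 : pcchk ⟨(nat_lit 1), (nat_lit 1000), Int.ofNat (nat_lit 400), 0, ⟨0, 1⟩, ⟨Int.ofNat
 (nat_lit 40), 200⟩⟩ ⟨800000, 850000, 908191, 894532, 922059, 417256, 448290, 388374, 447213, 387298⟩ false
 (nat_lit 250) (Int.ofNat (nat_lit 1112)) (nat_lit 300) (Int.ofNat (nat_lit 554)) qL160_40_5_5 = true := by
 decide +kernel

def qL160_40_5_6 : PCt := .one ⟨2008000, 251, 803200, -316461, 106062, 0, 0, 200000, 300000, 350000⟩ ⟨0,
 .pol, .pol, .pol, .pol, .sx 100000 (.sx 50000 (.sx 25000 (.aff 2025000 4267416 246197) (.aff 2100000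
 3920477 308636)) (.aff 1000000 0 0)) (.aff 1000000 0 0), .pol, .pol, .pol, .pol⟩

def hL160_40_5_6 : pcchk ⟨(nat_lit 1), (nat_lit 1000), Int.ofNat (nat_lit 400), 0, ⟨0, 1⟩, ⟨Int.ofNat
 (nat_lit 40), 200⟩⟩ ⟨800000, 850000, 908191, 894532, 922059, 417256, 448290, 388374, 447213, 387298⟩ false
 (nat_lit 300) (Int.ofNat (nat_lit 554)) (nat_lit 350) (Int.negSucc (nat_lit 233)) qL160_40_5_6 = true := by
 decide +kernel

def qL160_40_5_7 : PCt := .one ⟨2008000, 251, 803200, -391962, 132487, 0, 0, 200000, 350000, 400000⟩ ⟨0,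
 .pol, .pol, .pol, .pol, .sy 375000 (.sx 100000 (.sy 362500 (.sy 356250 (.sx 50000 (.aff 2125000 4228115
 299336) (.aff 1000000 0 0)) (.sx 50000 (.sx 25000 (.aff 3000000 8755951 456833) (.aff 2300000 4408515
 383350)) (.aff 1000000 0 0))) (.sy 368750 (.sx 50000 (.sx 25000 (.aff 3000000 8831761 452911) (.aff 2250000
 4275658 365441)) (.aff 1000000 0 0)) (.sx 50000 (.sx 25000 (.aff 3000000 8906927 449089) (.sx 37500 (.aff
 2600000 5038519 508086) (.aff 1000000 0 0))) (.aff 1000000 0 0)))) (.aff 1000000 0 0)) (.sy 387500 (.sx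
 100000 (.sy 381250 (.sx 50000 (.sx 25000 (.aff 3000000 8981463 445362) (.sx 37500 (.aff 3000000 6633250
 603023) (.aff 2300000 3966107 426111))) (.aff 1000000 0 0)) (.sx 50000 (.sx 25000 (.aff 3000000 11090537
 360668) (.sx 37500 (.aff 3000000 7014272 570266) (.aff 2400000 4306346 455143))) (.aff 1000000 0 0))) (.aff
 1000000 0 0)) (.sx 100000 (.sx 50000 (.aff 2750000 4910926 623610) (.aff 1000000 0 0)) (.aff 1000000 0
 0))), .pol, .pol, .pol, .pol⟩

def hL160_40_5_7 : pcchk ⟨(nat_lit 1), (nat_lit 1000), Int.ofNat (nat_lit 400), 0, ⟨0, 1⟩, ⟨Int.ofNat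
 (nat_lit 40), 200⟩⟩ ⟨800000, 850000, 908191, 894532, 922059, 417256, 448290, 388374, 447213, 387298⟩ false
 (nat_lit 350) (Int.negSucc (nat_lit 233)) (nat_lit 400) (Int.negSucc (nat_lit 1209)) qL160_40_5_7 = true :=
 by decide +kernel

def qL160_40_5_8 : PCt := .one ⟨2008000, 251, 803200, -477503, 166704, 0, 0, 200000, 400000, 450000⟩ ⟨0,
 .pol, .pol, .pol, .pol, .sy 425000 (.sy 412500 (.sy 406250 (.sx 100000 (.sx 50000 (.aff 3000000 5678909
 704361) (.aff 1000000 0 0)) (.aff 1000000 0 0)) (.sx 100000 (.sx 50000 (.aff 3000000 5722762 698964) (.aff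
 2400000 3959845 494969)) (.aff 1000000 0 0))) (.sy 418750 (.sx 100000 (.sx 50000 (.aff 3000000 5766282
 693688) (.aff 2900000 4899643 736789)) (.aff 1000000 0 0)) (.sx 100000 (.sx 50000 (.aff 3000000 5809476
 688531) (.sx 75000 (.sx 62500 (.aff 2900000 4936345 731311) (.aff 1000000 0 0)) (.aff 1000000 0 0))) (.aff
 1000000 0 0)))) (.sx 100000 (.sx 50000 (.aff 3000000 5916080 676124) (.sx 75000 (.aff 2988000 5014979
 788068) (.aff 1000000 0 0))) (.aff 1000000 0 0)), .pol, .pol, .pol, .pol⟩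

def hL160_40_5_8 : pcchk ⟨(nat_lit 1), (nat_lit 1000), Int.ofNat (nat_lit 400), 0, ⟨0, 1⟩, ⟨Int.ofNat
 (nat_lit 40), 200⟩⟩ ⟨800000, 850000, 908191, 894532, 922059, 417256, 448290, 388374, 447213, 387298⟩ false
 (nat_lit 400) (Int.negSucc (nat_lit 1209)) (nat_lit 450) (Int.negSucc (nat_lit 2398)) qL160_40_5_8 = true
 := by decide +kernel

def qL160_40_5_9 : PCt := .one ⟨2008000, 251, 803200, -548586, 198691, 0, 0, 200000, 450000, 500000⟩ ⟨0,
 .pol, .pol, .pol, .pol, .sx 100000 (.sy 475000 (.sx 50000 (.aff 3000000 7023770 569495) (.sx 75000 (.aff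
 3000000 5187398 771100) (.aff 3100000 5010298 880188))) (.sx 50000 (.aff 3000000 7211103 554701) (.sy
 487500 (.sx 75000 (.aff 3000000 5066229 789542) (.sx 87500 (.aff 3125000 5016890 900085) (.aff 3000000
 4608838 867898))) (.sx 75000 (.aff 5000000 11242776 1423137) (.sx 87500 (.aff 5000000 9860567 1622625)
 (.aff 3100000 4901724 899684)))))) (.aff 1500000 974680 256495), .pol, .pol, .pol, .pol⟩

def hL160_40_5_9 : pcchk ⟨(nat_lit 1), (nat_lit 1000), Int.ofNat (nat_lit 400), 0, ⟨0, 1⟩, ⟨Int.ofNat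
 (nat_lit 40), 200⟩⟩ ⟨800000, 850000, 908191, 894532, 922059, 417256, 448290, 388374, 447213, 387298⟩ false
 (nat_lit 450) (Int.negSucc (nat_lit 2398)) (nat_lit 500) (Int.negSucc (nat_lit 3764)) qL160_40_5_9 = true
 := by decide +kernel

def qL160_40_5_10 : PCt := .one ⟨2008000, 251, 803200, -629308, 239052, 0, 0, 200000, 500000, 550000⟩ ⟨0,
 .pol, .pol, .pol, .pol, .sy 525000 (.sx 100000 (.aff 5000000 9055386 1766905) (.sx 150000 (.aff 3500000
 5335937 1171304) (.aff 1000000 0 0))) (.sx 100000 (.aff 5000000 10708253 1494175) (.sx 150000 (.sx 125000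
 (.aff 3700000 5598840 1302056) (.aff 3500000 5059174 1235380)) (.aff 1000000 0 0))), .pol, .pol, .pol,
 .pol⟩

def hL160_40_5_10 : pcchk ⟨(nat_lit 1), (nat_lit 1000), Int.ofNat (nat_lit 400), 0, ⟨0, 1⟩, ⟨Int.ofNat
 (nat_lit 40), 200⟩⟩ ⟨800000, 850000, 908191, 894532, 922059, 417256, 448290, 388374, 447213, 387298⟩ false
 (nat_lit 500) (Int.negSucc (nat_lit 3764)) (nat_lit 550) (Int.negSucc (nat_lit 5331)) qL160_40_5_10 = true
 := by decide +kernel

def qL160_40_5_11 : PCt := .one ⟨2008000, 251, 803200, -701596, 278810, 0, 0, 200000, 550000, 600000⟩ ⟨0,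
 .pol, .pol, .pol, .pol, .sy 575000 (.sx 100000 (.aff 5000000 10954452 1460594) (.sy 562500 (.sx 150000 (.sx
 125000 (.aff 5000000 8894443 1798876) (.aff 3700000 5558392 1311531)) (.aff 1000000 0 0)) (.sx 150000 (.aff
 4050000 5939022 1566336) (.aff 1500000 901388 277351)))) (.sy 587500 (.sx 100000 (.aff 5000000 11135529
 1436843) (.sx 150000 (.aff 5000000 7874008 2032002) (.aff 3994000 5733705 1563394))) (.sx 100000 (.aff
 5000000 11254629 1421638) (.sx 150000 (.aff 5000000 8312095 1924906) (.aff 3900000 5543361 1517131)))),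
 .pol, .aff 5000000 7831561 2043016, .pol, .pol⟩

def hL160_40_5_11 : pcchk ⟨(nat_lit 1), (nat_lit 1000), Int.ofNat (nat_lit 400), 0, ⟨0, 1⟩, ⟨Int.ofNat
 (nat_lit 40), 200⟩⟩ ⟨800000, 850000, 908191, 894532, 922059, 417256, 448290, 388374, 447213, 387298⟩ false
 (nat_lit 550) (Int.negSucc (nat_lit 5331)) (nat_lit 600) (Int.negSucc (nat_lit 7078)) qL160_40_5_11 = true
 := by decide +kernel

def qL160_40_5_12 : PCt := .one ⟨2008000, 251, 803200, -514450, 166523, 0, 0, 200000, 600000, 650000⟩ ⟨0,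
 .pol, .pol, .pol, .pol, .sy 625000 (.sx 100000 (.aff 5000000 11430953 1399709) (.sy 612500 (.sx 150000
 (.aff 5000000 8809087 1816307) (.sx 175000 (.aff 4600000 6700534 1934175) (.aff 1500000 899074 278064)))
 (.aff 5000000 7035624 2274141))) (.aff 5000000 7141429 2240448), .pol, .aff 9000000 14142136 4525484, .pol,
 .pol⟩

def hL160_40_5_12 : pcchk ⟨(nat_lit 1), (nat_lit 1000), Int.ofNat (nat_lit 400), 0, ⟨0, 1⟩, ⟨Int.ofNat
 (nat_lit 40), 200⟩⟩ ⟨800000, 850000, 908191, 894532, 922059, 417256, 448290, 388374, 447213, 387298⟩ false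
 (nat_lit 600) (Int.negSucc (nat_lit 7078)) (nat_lit 650) (Int.negSucc (nat_lit 8359)) qL160_40_5_12 = true
 := by decide +kernel

def qL160_40_5_13 : PCt := .one ⟨2008000, 251, 803200, -8690624, 5481036, 0, 0, 200000, 650000, 700000⟩ ⟨0,
 .pol, .pol, .pol, .pol, .aff 3000000 5196153 769801, .pol, .sx 100000 (.aff 20000000 69810458 5171145)
 (.inf 1697057 589256), .sx 100000 (.inf 3674235 272166) (.inf 1697057 589256), .pol⟩

def hL160_40_5_13 : pcchk ⟨(nat_lit 1), (nat_lit 1000), Int.ofNat (nat_lit 400), 0, ⟨0, 1⟩, ⟨Int.ofNat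
 (nat_lit 40), 200⟩⟩ ⟨800000, 850000, 908191, 894532, 922059, 417256, 448290, 388374, 447213, 387298⟩ false
 (nat_lit 650) (Int.negSucc (nat_lit 8359)) (nat_lit 700) (Int.negSucc (nat_lit 29999)) qL160_40_5_13 = true
 := by decide +kernel

def qL160_40_5_14 : PCt := .one ⟨2008000, 251, 803200, 0, -602400, 0, 0, 200000, 700000, 750000⟩ ⟨0, .pol,
 .pol, .pol, .pol, .aff 1500000 1346292 185696, .pol, .inf 2154066 464239, .inf 2154066 464239, .pol⟩

def hL160_40_5_14 : pcchk ⟨(nat_lit 1), (nat_lit 1000), Int.ofNat (nat_lit 400), 0, ⟨0, 1⟩, ⟨Int.ofNat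
 (nat_lit 40), 200⟩⟩ ⟨800000, 850000, 908191, 894532, 922059, 417256, 448290, 388374, 447213, 387298⟩ false
 (nat_lit 700) (Int.negSucc (nat_lit 29999)) (nat_lit 750) (Int.negSucc (nat_lit 29999)) qL160_40_5_14 =
 true := by decide +kernel

def qL160_40_5_15 : PCt := .one ⟨2008000, 251, 803200, 0, -602400, 0, 0, 200000, 750000, 800000⟩ ⟨0, .pol,
 .pol, .pol, .pol, .aff 1500000 1391942 179606, .pol, .aff 35000000 66929067 17272018, .inf 2783883 359211,
 .pol⟩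

def hL160_40_5_15 : pcchk ⟨(nat_lit 1), (nat_lit 1000), Int.ofNat (nat_lit 400), 0, ⟨0, 1⟩, ⟨Int.ofNat
 (nat_lit 40), 200⟩⟩ ⟨800000, 850000, 908191, 894532, 922059, 417256, 448290, 388374, 447213, 387298⟩ false
 (nat_lit 750) (Int.negSucc (nat_lit 29999)) (nat_lit 800) (Int.negSucc (nat_lit 29999)) qL160_40_5_15 =
 true := by decide +kernel

def qL160_40_5_16 : PCt := .one ⟨2008000, 251, 803200, 0, -602400, 0, 0, 200000, 800000, 850000⟩ ⟨0, .pol,
 .pol, .pol, .pol, .aff 1000000 0 0, .pol, .aff 35000000 79737068 14497649, .inf 2872282 348156, .pol⟩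

def hL160_40_5_16 : pcchk ⟨(nat_lit 1), (nat_lit 1000), Int.ofNat (nat_lit 400), 0, ⟨0, 1⟩, ⟨Int.ofNat
 (nat_lit 40), 200⟩⟩ ⟨800000, 850000, 908191, 894532, 922059, 417256, 448290, 388374, 447213, 387298⟩ false
 (nat_lit 800) (Int.negSucc (nat_lit 29999)) (nat_lit 850) (Int.negSucc (nat_lit 29999)) qL160_40_5_16 =
 true := by decide +kernel

def qL160_40_5_17 : PCt := .one ⟨2008000, 251, 803200, 0, -602400, 0, 0, 200000, 850000, 900000⟩ ⟨0, .pol,
 .pol, .pol, .pol, .aff 1000000 0 0, .pol, .aff 20000000 45889360 7866748, .inf 2958040 338062, .pol⟩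

def hL160_40_5_17 : pcchk ⟨(nat_lit 1), (nat_lit 1000), Int.ofNat (nat_lit 400), 0, ⟨0, 1⟩, ⟨Int.ofNat
 (nat_lit 40), 200⟩⟩ ⟨800000, 850000, 908191, 894532, 922059, 417256, 448290, 388374, 447213, 387298⟩ false
 (nat_lit 850) (Int.negSucc (nat_lit 29999)) (nat_lit 900) (Int.negSucc (nat_lit 29999)) qL160_40_5_17 =
 true := by decide +kernel

def qL160_40_5_18 : PCt := .one ⟨2008000, 251, 803200, 0, -602400, 0, 0, 200000, 900000, 950000⟩ ⟨0, .pol,
 .pol, .pol, .pol, .aff 1000000 0 0, .pol, .aff 20000000 47182271 7651179, .inf 3041382 328798, .pol⟩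

def hL160_40_5_18 : pcchk ⟨(nat_lit 1), (nat_lit 1000), Int.ofNat (nat_lit 400), 0, ⟨0, 1⟩, ⟨Int.ofNat
 (nat_lit 40), 200⟩⟩ ⟨800000, 850000, 908191, 894532, 922059, 417256, 448290, 388374, 447213, 387298⟩ false
 (nat_lit 900) (Int.negSucc (nat_lit 29999)) (nat_lit 950) (Int.negSucc (nat_lit 29999)) qL160_40_5_18 =
 true := by decide +kernel

def qL160_40_5_19 : PCt := .one ⟨2008000, 251, 803200, 0, -602400, 0, 0, 200000, 950000, 1000000⟩ ⟨0, .pol,
 .pol, .pol, .pol, .aff 1000000 0 0, .pol, .aff 12000000 24287343 4982019, .inf 3122499 320257, .pol⟩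

def hL160_40_5_19 : pcchk ⟨(nat_lit 1), (nat_lit 1000), Int.ofNat (nat_lit 400), 0, ⟨0, 1⟩, ⟨Int.ofNat
 (nat_lit 40), 200⟩⟩ ⟨800000, 850000, 908191, 894532, 922059, 417256, 448290, 388374, 447213, 387298⟩ false
 (nat_lit 950) (Int.negSucc (nat_lit 29999)) (nat_lit 1000) (Int.negSucc (nat_lit 29999)) qL160_40_5_19 =
 true := by decide +kernel

def qL160_40_6_0 : PCt := .one ⟨2008000, 251, 2008000, 151804, 0, 0, 0, 200000, 0, 50000⟩ ⟨25000, .sp 250000
 (.aff 6324556 158114) .pol, .pol, .pol, .pol, .pol, .aff 0 7735962 129267, .pol, .pol, .pol⟩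

def hL160_40_6_0 : pcchk ⟨(nat_lit 1), (nat_lit 1000), Int.ofNat (nat_lit 1000), 0, ⟨0, 1⟩, ⟨Int.ofNat
 (nat_lit 40), 200⟩⟩ ⟨800000, 850000, 908191, 894532, 922059, 417256, 448290, 388374, 447213, 387298⟩ true 0
 0 (nat_lit 50) (Int.ofNat (nat_lit 378)) qL160_40_6_0 = true := by decide +kernel

def qL160_40_6_1 : PCt := .one ⟨2008000, 251, 2008000, 197185, -2270, 0, 0, 200000, 50000, 100000⟩ ⟨0, .pol,
 .pol, .pol, .pol, .sx 100000 (.aff 0 7666086 130445) .pol, .pol, .pol, .sx 100000 (.sx 50000 .pol .pol)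
 .pol, .pol⟩

def hL160_40_6_1 : pcchk ⟨(nat_lit 1), (nat_lit 1000), Int.ofNat (nat_lit 1000), 0, ⟨0, 1⟩, ⟨Int.ofNat
 (nat_lit 40), 200⟩⟩ ⟨800000, 850000, 908191, 894532, 922059, 417256, 448290, 388374, 447213, 387298⟩ false
 (nat_lit 50) (Int.ofNat (nat_lit 378)) (nat_lit 100) (Int.ofNat (nat_lit 869)) qL160_40_6_1 = true := by
 decide +kernel

def qL160_40_6_2 : PCt := .one ⟨2008000, 251, 2008000, 173089, 140, 0, 0, 200000, 100000, 150000⟩ ⟨0, .pol,
 .pol, .pol, .pol, .sx 100000 (.sx 50000 (.sx 25000 (.sx 12500 (.sx 6250 (.sx 3125 (.sx 1562 (.sy 125000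
 (.aff 100000 8441269 95958) (.aff 200000 7842252 81610)) (.sy 125000 (.aff 113000 7440567 105741) (.aff
 200000 6713022 95338))) (.aff 175000 4666905 145841)) (.aff 250000 2738613 205396)) (.aff 0 2581989
 387299)) (.aff 0 1825742 547723)) .pol) .pol, .pol, .pol, .sx 100000 .pol .pol, .pol⟩

def hL160_40_6_2 : pcchk ⟨(nat_lit 1), (nat_lit 1000), Int.ofNat (nat_lit 1000), 0, ⟨0, 1⟩, ⟨Int.ofNat
 (nat_lit 40), 200⟩⟩ ⟨800000, 850000, 908191, 894532, 922059, 417256, 448290, 388374, 447213, 387298⟩ false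
 (nat_lit 100) (Int.ofNat (nat_lit 869)) (nat_lit 150) (Int.ofNat (nat_lit 1300)) qL160_40_6_2 = true := by
 decide +kernel

def qL160_40_6_3 : PCt := .one ⟨2008000, 251, 2008000, 76304, 14658, 0, 0, 200000, 150000, 200000⟩ ⟨0, .pol,
 .pol, .pol, .pol, .sx 100000 (.sx 50000 (.sx 25000 (.sy 175000 (.aff 350000 7658112 55171) (.sx 12500 (.sx
 6250 (.aff 475000 7763156 35505) (.aff 1000000 0 0)) (.aff 1000000 0 0))) (.aff 0 2160247 462911)) .pol)
 .pol, .pol, .pol, .sx 100000 .pol .pol, .pol⟩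

def hL160_40_6_3 : pcchk ⟨(nat_lit 1), (nat_lit 1000), Int.ofNat (nat_lit 1000), 0, ⟨0, 1⟩, ⟨Int.ofNat
 (nat_lit 40), 200⟩⟩ ⟨800000, 850000, 908191, 894532, 922059, 417256, 448290, 388374, 447213, 387298⟩ false
 (nat_lit 150) (Int.ofNat (nat_lit 1300)) (nat_lit 200) (Int.ofNat (nat_lit 1490)) qL160_40_6_3 = true := by
 decide +kernel

def qL160_40_6_4 : PCt := .one ⟨2008000, 251, 2008000, -213652, 72649, 0, 0, 200000, 200000, 250000⟩ ⟨0,
 .pol, .pol, .pol, .pol, .sx 100000 (.sx 50000 (.sx 25000 (.aff 1550000 8532842 35452) (.aff 1000000 0 0))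
 (.aff 0 1732051 577351)) .pol, .pol, .pol, .pol, .pol⟩

def hL160_40_6_4 : pcchk ⟨(nat_lit 1), (nat_lit 1000), Int.ofNat (nat_lit 1000), 0, ⟨0, 1⟩, ⟨Int.ofNat
 (nat_lit 40), 200⟩⟩ ⟨800000, 850000, 908191, 894532, 922059, 417256, 448290, 388374, 447213, 387298⟩ false
 (nat_lit 200) (Int.ofNat (nat_lit 1490)) (nat_lit 250) (Int.ofNat (nat_lit 958)) qL160_40_6_4 = true := by
 decide +kernel

def qL160_40_6_5 : PCt := .one ⟨2008000, 251, 2008000, -473085, 137507, 0, 0, 200000, 250000, 300000⟩ ⟨0,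
 .pol, .pol, .pol, .pol, .sx 100000 (.sy 275000 (.sx 50000 (.sx 25000 (.sy 262500 (.aff 2150000 8993913
 147044) (.sx 12500 (.sx 6250 (.aff 3000000 13114878 304998) (.aff 2600000 9384243 272798)) (.aff 1000000 0
 0))) (.aff 1000000 0 0)) (.aff 1000000 0 0)) (.sy 287500 (.sy 281250 (.sx 50000 (.sx 25000 (.sx 12500 (.aff
 2800000 9804081 330475) (.aff 1000000 0 0)) (.aff 1000000 0 0)) (.aff 1000000 0 0)) (.sx 50000 (.sx 25000
 (.sx 12500 (.aff 2800000 9913627 326823) (.aff 1000000 0 0)) (.aff 1000000 0 0)) (.aff 1000000 0 0))) (.sx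
 50000 (.aff 3025000 9816552 417726) (.aff 1000000 0 0)))) (.aff 0 1354007 738549), .pol, .pol, .pol, .pol⟩

def hL160_40_6_5 : pcchk ⟨(nat_lit 1), (nat_lit 1000), Int.ofNat (nat_lit 1000), 0, ⟨0, 1⟩, ⟨Int.ofNat
 (nat_lit 40), 200⟩⟩ ⟨800000, 850000, 908191, 894532, 922059, 417256, 448290, 388374, 447213, 387298⟩ false
 (nat_lit 250) (Int.ofNat (nat_lit 958)) (nat_lit 300) (Int.negSucc (nat_lit 219)) qL160_40_6_5 = true := by
 decide +kernel

end CB
end Pool.Agent.Lib.MP_6947cd_al
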