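import Pool.Agent.Lib.MP_6947cd_al.L.PairSplit

/-!
Problem MP_6947cd_al (Chollet).  Library of pair functions: certificates of the pieces (generated).
-/

set_option autoImplicit false
set_option linter.defProp false
set_option maxRecDepth 100000

namespace Pool.Agent.Lib.MP_6947cd_al
namespace CB

open CA

def qL160_40_6_6 : PCt := .one ⟨2008000, 251, 2008000, -670672, 196784, 0, 0, 200000, 300000, 350000⟩ ⟨0,
 .pol, .pol, .pol, .pol, .sx 100000 (.sy 325000 (.sx 50000 (.sy 312500 (.sy 306250 (.aff 2950000 9602637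
 395985) (.sy 309375 (.sx 25000 (.aff 2950000 9676599 392959) (.aff 1000000 0 0)) (.sx 25000 (.sx 12500
 (.aff 3000000 9974969 401004) (.aff 3200000 9814072 493170)) (.aff 1000000 0 0)))) (.sy 318750 (.sy 315625
 (.sx 25000 (.sx 12500 (.aff 5000000 23151674 691095) (.aff 3200000 9863266 490710)) (.aff 1000000 0 0))
 (.sx 25000 (.sx 12500 (.aff 5000000 28495614 561490) (.aff 3200000 9912215 488287)) (.aff 1000000 0 0)))
 (.sy 321875 (.sx 25000 (.sx 12500 (.aff 5000000 28635643 558745) (.aff 3269000 9957258 517047)) (.aff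
 1000000 0 0)) (.sx 25000 (.sx 12500 (.aff 5000000 28774990 556039) (.sx 18750 (.aff 5000000 18198902
 879174) (.aff 3400000 9576896 601448))) (.aff 1000000 0 0))))) (.aff 1000000 0 0)) (.sy 337500 (.sx 50000
 (.sx 25000 (.sx 12500 (.aff 5000000 29120440 549443) (.sx 18750 (.aff 5000000 18417384 868745) (.aff
 3500000 10095696 619076))) (.aff 1000000 0 0)) (.aff 1000000 0 0)) (.sx 50000 (.sx 25000 (.aff 5000000
 14832397 1078720) (.aff 3400000 9722244 592456)) (.aff 1000000 0 0)))) (.aff 1000000 0 0), .pol, .pol,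
 .pol, .pol⟩

def hL160_40_6_6 : pcchk ⟨(nat_lit 1), (nat_lit 1000), Int.ofNat (nat_lit 1000), 0, ⟨0, 1⟩, ⟨Int.ofNat
 (nat_lit 40), 200⟩⟩ ⟨800000, 850000, 908191, 894532, 922059, 417256, 448290, 388374, 447213, 387298⟩ false
 (nat_lit 300) (Int.negSucc (nat_lit 219)) (nat_lit 350) (Int.negSucc (nat_lit 1889)) qL160_40_6_6 = true :=
 by decide +kernel

def qL160_40_6_7 : PCt := .one ⟨2008000, 251, 2008000, -881111, 270437, 0, 0, 200000, 350000, 400000⟩ ⟨0,
 .pol, .pol, .pol, .pol, .sx 100000 (.sx 50000 (.sx 25000 (.aff 5000000 17888544 894428) (.sx 37500 (.sy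
 375000 (.aff 4600000 11192855 1157882) (.aff 5000000 12858202 1244342)) (.sy 375000 (.sx 43750 (.aff
 3000000 6092619 656533) (.aff 1000000 0 0)) (.aff 4700000 11183601 1224114)))) (.aff 1000000 0 0)) (.aff
 1000000 0 0), .pol, .pol, .pol, .pol⟩

def hL160_40_6_7 : pcchk ⟨(nat_lit 1), (nat_lit 1000), Int.ofNat (nat_lit 1000), 0, ⟨0, 1⟩, ⟨Int.ofNat
 (nat_lit 40), 200⟩⟩ ⟨800000, 850000, 908191, 894532, 922059, 417256, 448290, 388374, 447213, 387298⟩ false
 (nat_lit 350) (Int.negSucc (nat_lit 1889)) (nat_lit 400) (Int.negSucc (nat_lit 4083)) qL160_40_6_7 = true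
 := by decide +kernel

def qL160_40_6_8 : PCt := .one ⟨2008000, 251, 2008000, -1042554, 335014, 0, 0, 200000, 400000, 450000⟩ ⟨0,
 .pol, .pol, .pol, .pol, .sy 425000 (.sx 100000 (.sx 50000 (.aff 5000000 11489126 1392622) (.sx 75000 (.aff
 5300000 11644456 1587881) (.aff 1000000 0 0))) (.aff 1000000 0 0)) (.sx 100000 (.sx 50000 (.aff 8000000
 23909552 2049391) (.aff 5369000 11559288 1651327)) (.aff 1000000 0 0)), .pol, .pol, .pol, .pol⟩

def hL160_40_6_8 : pcchk ⟨(nat_lit 1), (nat_lit 1000), Int.ofNat (nat_lit 1000), 0, ⟨0, 1⟩, ⟨Int.ofNat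
 (nat_lit 40), 200⟩⟩ ⟨800000, 850000, 908191, 894532, 922059, 417256, 448290, 388374, 447213, 387298⟩ false
 (nat_lit 400) (Int.negSucc (nat_lit 4083)) (nat_lit 450) (Int.negSucc (nat_lit 6679)) qL160_40_6_8 = true
 := by decide +kernel

def qL160_40_6_9 : PCt := .one ⟨2008000, 251, 2008000, -1232109, 420314, 0, 0, 200000, 450000, 500000⟩ ⟨0,
 .pol, .pol, .pol, .pol, .sx 100000 (.sx 50000 (.aff 8000000 24913183 1966831) (.sy 475000 (.sx 75000 (.aff
 7000000 14899665 2416162) (.aff 6100000 12167865 2137598)) (.sx 75000 (.aff 8000000 19549937 2506402) (.sx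
 87500 (.aff 6500000 12982131 2330126) (.aff 6300000 12292471 2285139))))) (.aff 1500000 974680 256495),
 .pol, .pol, .pol, .pol⟩

def hL160_40_6_9 : pcchk ⟨(nat_lit 1), (nat_lit 1000), Int.ofNat (nat_lit 1000), 0, ⟨0, 1⟩, ⟨Int.ofNat
 (nat_lit 40), 200⟩⟩ ⟨800000, 850000, 908191, 894532, 922059, 417256, 448290, 388374, 447213, 387298⟩ false
 (nat_lit 450) (Int.negSucc (nat_lit 6679)) (nat_lit 500) (Int.negSucc (nat_lit 9747)) qL160_40_6_9 = true
 := by decide +kernel

def qL160_40_6_10 : PCt := .one ⟨2008000, 251, 2008000, -1389536, 499028, 0, 0, 200000, 500000, 550000⟩ ⟨0,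
 .pol, .pol, .pol, .pol, .sx 100000 (.aff 8000000 16039015 3055051) (.sx 150000 (.sx 125000 (.sx 112500 (.sy
 525000 (.sy 512500 (.aff 7208000 13334805 2890126) (.aff 7200000 13313569 2887280)) (.aff 8000000 15744281
 3112242)) (.sy 525000 (.aff 7050000 12737273 2873653) (.sx 118750 (.aff 7300000 13403339 2961203) (.aff
 7300000 13063959 3038130)))) (.aff 7113000 12535503 2981035)) (.aff 1000000 0 0)), .pol, .aff 8000000
 16039015 3055051, .sx 100000 (.sx 50000 (.inf 4582576 218218) .pol) .pol, .pol⟩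

def hL160_40_6_10 : pcchk ⟨(nat_lit 1), (nat_lit 1000), Int.ofNat (nat_lit 1000), 0, ⟨0, 1⟩, ⟨Int.ofNat
 (nat_lit 40), 200⟩⟩ ⟨800000, 850000, 908191, 894532, 922059, 417256, 448290, 388374, 447213, 387298⟩ false
 (nat_lit 500) (Int.negSucc (nat_lit 9747)) (nat_lit 550) (Int.negSucc (nat_lit 13207)) qL160_40_6_10 = true
 := by decide +kernel

def qL160_40_6_11 : PCt := .one ⟨2008000, 251, 2008000, -1581100, 604387, 0, 0, 200000, 550000, 600000⟩ ⟨0,
 .pol, .pol, .pol, .pol, .sx 100000 (.aff 8000000 19382123 2528103) (.sx 150000 (.sx 125000 (.aff 8000000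
 15403349 3181127) (.sy 575000 (.aff 8000000 13846990 3538676) (.aff 8000000 13853400 3537038))) (.sy 575000
 (.aff 1500000 896422 278887) (.aff 8207000 13875878 3743248))), .pol, .aff 12000000 21536791 5618293, .sx
 100000 (.inf 3391165 294884) .pol, .pol⟩

def hL160_40_6_11 : pcchk ⟨(nat_lit 1), (nat_lit 1000), Int.ofNat (nat_lit 1000), 0, ⟨0, 1⟩, ⟨Int.ofNat
 (nat_lit 40), 200⟩⟩ ⟨800000, 850000, 908191, 894532, 922059, 417256, 448290, 388374, 447213, 387298⟩ false
 (nat_lit 550) (Int.negSucc (nat_lit 13207)) (nat_lit 600) (Int.negSucc (nat_lit 17144)) qL160_40_6_11 =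
 true := by decide +kernel

def qL160_40_6_12 : PCt := .one ⟨2008000, 251, 2008000, -1485519, 547039, 0, 0, 200000, 600000, 650000⟩ ⟨0,
 .pol, .pol, .pol, .pol, .sx 100000 (.aff 5000000 11547006 1385641) (.aff 8400000 13984686 3915712), .pol,
 .sx 100000 (.aff 12000000 31754265 3810512) (.sx 150000 (.aff 20000000 42485292 8497059) (.sx 175000 (.aff
 20000000 37262066 9688137) (.sx 187500 (.aff 20000000 35282115 10231813) (.sx 193750 (.aff 19400000
 33047376 10244687) (.sx 196875 (.aff 18100000 30467782 9597352) (.sx 198437 (.aff 17700000 29637745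
 9409961) (.sx 199218 (.aff 17600000 29402470 9372002) (.sx 199609 (.sy 625000 .pol (.aff 17700000 29844652
 9344723)) (.sy 625000 .pol (.sy 637500 (.aff 1500000 888727 281302) (.aff 18700000 31755349
 9865740))))))))))), .sx 100000 (.inf 3535534 282843) (.sx 150000 (.inf 2236068 447214) .pol), .pol⟩

def hL160_40_6_12 : pcchk ⟨(nat_lit 1), (nat_lit 1000), Int.ofNat (nat_lit 1000), 0, ⟨0, 1⟩, ⟨Int.ofNat
 (nat_lit 40), 200⟩⟩ ⟨800000, 850000, 908191, 894532, 922059, 417256, 448290, 388374, 447213, 387298⟩ false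
 (nat_lit 600) (Int.negSucc (nat_lit 17144)) (nat_lit 650) (Int.negSucc (nat_lit 20843)) qL160_40_6_12 =
 true := by decide +kernel

def qL160_40_6_13 : PCt := .one ⟨2008000, 251, 2008000, -3677050, 1971534, 0, 0, 200000, 650000, 700000⟩ ⟨0,
 .pol, .pol, .pol, .pol, .aff 3000000 5196153 769801, .pol, .aff 35000000 62461989 18507256, .sx 100000
 (.inf 3674235 272166) (.inf 1697057 589256), .pol⟩

def hL160_40_6_13 : pcchk ⟨(nat_lit 1), (nat_lit 1000), Int.ofNat (nat_lit 1000), 0, ⟨0, 1⟩, ⟨Int.ofNat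
 (nat_lit 40), 200⟩⟩ ⟨800000, 850000, 908191, 894532, 922059, 417256, 448290, 388374, 447213, 387298⟩ false
 (nat_lit 650) (Int.negSucc (nat_lit 20843)) (nat_lit 700) (Int.negSucc (nat_lit 29999)) qL160_40_6_13 =
 true := by decide +kernel

def qL160_40_6_14 : PCt := .one ⟨2008000, 251, 2008000, 0, -602400, 0, 0, 200000, 700000, 750000⟩ ⟨0, .pol,
 .pol, .pol, .pol, .aff 1500000 1346292 185696, .pol, .aff 35000000 64734072 17857675, .inf 2154066 464239,
 .pol⟩

def hL160_40_6_14 : pcchk ⟨(nat_lit 1), (nat_lit 1000), Int.ofNat (nat_lit 1000), 0, ⟨0, 1⟩, ⟨Int.ofNat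
 (nat_lit 40), 200⟩⟩ ⟨800000, 850000, 908191, 894532, 922059, 417256, 448290, 388374, 447213, 387298⟩ false
 (nat_lit 700) (Int.negSucc (nat_lit 29999)) (nat_lit 750) (Int.negSucc (nat_lit 29999)) qL160_40_6_14 =
 true := by decide +kernel

def qL160_40_6_15 : PCt := .one ⟨2008000, 251, 2008000, 0, -602400, 0, 0, 200000, 750000, 800000⟩ ⟨0, .pol,
 .pol, .pol, .pol, .aff 1500000 1391942 179606, .pol, .aff 20000000 37401538 9652010, .inf 2783883 359211,
 .pol⟩

def hL160_40_6_15 : pcchk ⟨(nat_lit 1), (nat_lit 1000), Int.ofNat (nat_lit 1000), 0, ⟨0, 1⟩, ⟨Int.ofNat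
 (nat_lit 40), 200⟩⟩ ⟨800000, 850000, 908191, 894532, 922059, 417256, 448290, 388374, 447213, 387298⟩ false
 (nat_lit 750) (Int.negSucc (nat_lit 29999)) (nat_lit 800) (Int.negSucc (nat_lit 29999)) qL160_40_6_15 =
 true := by decide +kernel

def qL160_40_6_16 : PCt := .one ⟨2008000, 251, 2008000, 0, -602400, 0, 0, 200000, 800000, 850000⟩ ⟨0, .pol,
 .pol, .pol, .pol, .aff 1000000 0 0, .pol, .aff 20000000 44558950 8101628, .inf 2872282 348156, .pol⟩

def hL160_40_6_16 : pcchk ⟨(nat_lit 1), (nat_lit 1000), Int.ofNat (nat_lit 1000), 0, ⟨0, 1⟩, ⟨Int.ofNat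
 (nat_lit 40), 200⟩⟩ ⟨800000, 850000, 908191, 894532, 922059, 417256, 448290, 388374, 447213, 387298⟩ false
 (nat_lit 800) (Int.negSucc (nat_lit 29999)) (nat_lit 850) (Int.negSucc (nat_lit 29999)) qL160_40_6_16 =
 true := by decide +kernel

def qL160_40_6_17 : PCt := .one ⟨2008000, 251, 2008000, 0, -602400, 0, 0, 200000, 850000, 900000⟩ ⟨0, .pol,
 .pol, .pol, .pol, .aff 1000000 0 0, .pol, .aff 12000000 26567525 4554433, .inf 2958040 338062, .pol⟩

def hL160_40_6_17 : pcchk ⟨(nat_lit 1), (nat_lit 1000), Int.ofNat (nat_lit 1000), 0, ⟨0, 1⟩, ⟨Int.ofNat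
 (nat_lit 40), 200⟩⟩ ⟨800000, 850000, 908191, 894532, 922059, 417256, 448290, 388374, 447213, 387298⟩ false
 (nat_lit 850) (Int.negSucc (nat_lit 29999)) (nat_lit 900) (Int.negSucc (nat_lit 29999)) qL160_40_6_17 =
 true := by decide +kernel

def qL160_40_6_18 : PCt := .one ⟨2008000, 251, 2008000, 0, -602400, 0, 0, 200000, 900000, 950000⟩ ⟨0, .pol,
 .pol, .pol, .pol, .aff 1000000 0 0, .pol, .aff 12000000 27316052 4429630, .inf 3041382 328798, .pol⟩

def hL160_40_6_18 : pcchk ⟨(nat_lit 1), (nat_lit 1000), Int.ofNat (nat_lit 1000), 0, ⟨0, 1⟩, ⟨Int.ofNat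
 (nat_lit 40), 200⟩⟩ ⟨800000, 850000, 908191, 894532, 922059, 417256, 448290, 388374, 447213, 387298⟩ false
 (nat_lit 900) (Int.negSucc (nat_lit 29999)) (nat_lit 950) (Int.negSucc (nat_lit 29999)) qL160_40_6_18 =
 true := by decide +kernel

def qL160_40_6_19 : PCt := .one ⟨2008000, 251, 2008000, 0, -602400, 0, 0, 200000, 950000, 1000000⟩ ⟨0, .pol,
 .pol, .pol, .pol, .aff 1000000 0 0, .pol, .aff 8000000 15455582 3170376, .inf 3122499 320257, .pol⟩

def hL160_40_6_19 : pcchk ⟨(nat_lit 1), (nat_lit 1000), Int.ofNat (nat_lit 1000), 0, ⟨0, 1⟩, ⟨Int.ofNat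
 (nat_lit 40), 200⟩⟩ ⟨800000, 850000, 908191, 894532, 922059, 417256, 448290, 388374, 447213, 387298⟩ false
 (nat_lit 950) (Int.negSucc (nat_lit 29999)) (nat_lit 1000) (Int.negSucc (nat_lit 29999)) qL160_40_6_19 =
 true := by decide +kernel

end CB
end Pool.Agent.Lib.MP_6947cd_al
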