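import Pool.Agent.Lib.MP_6947cd_al.L.PairSplit

/-!
Problem MP_6947cd_al (Chollet).  Library of pair functions: certificates of the pieces (generated).
-/

set_option autoImplicit false
set_option linter.defProp false
set_option maxRecDepth 100000

namespace Pool.Agent.Lib.MP_6947cd_al
namespace CB

open CA

def qL140_60_0_0 : PCt := .one ⟨2008000, 251, 502000, 397985, 0, 0, 0, 300000, 0, 50000⟩ ⟨50000, .aff
 1414214 707107, .aff 707107 1414214, .pol, .pol, .sx 175000 (.sy 25000 (.aff 0 392233 2549506) (.sy 37500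
 (.sy 31250 (.sx 112500 .pol (.aff 175000 355343 1915403)) (.sx 112500 .pol (.sx 143750 .pol (.aff 250000
 348316 1614913)))) (.sx 112500 (.aff 0 733800 1362770) (.sx 143750 (.aff 175000 482088 1411828) (.aff
 1000000 0 0))))) (.sx 237500 (.aff 425000 181139 1825256) (.aff 1000000 0 0)), .aff 0 1414214 707107, .pol,
 .pol, .pol⟩

def hL140_60_0_0 : pcchk ⟨(nat_lit 3), (nat_lit 1000), Int.ofNat (nat_lit 250), 0, ⟨0, 1⟩, ⟨Int.ofNat
 (nat_lit 60), 200⟩⟩ ⟨700000, 750000, 851343, 836787, 866153, 523861, 548266, 500544, 547722, 500000⟩ true 0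
 0 (nat_lit 50) (Int.ofNat (nat_lit 991)) qL140_60_0_0 = true := by decide +kernel

def qL140_60_0_1 : PCt := .one ⟨2008000, 251, 502000, 369070, 1445, 0, 0, 300000, 50000, 100000⟩ ⟨0, .pol,
 .pol, .pol, .pol, .sy 75000 (.sx 150000 (.sx 75000 (.aff 0 1054093 948683) (.sx 112500 (.aff 156000 697792
 1020843) (.aff 250000 517550 1086852))) (.aff 1000000 0 0)) (.sx 150000 (.sx 75000 (.aff 125000 1091317
 701561) (.sx 112500 (.aff 225000 750731 800054) (.aff 1000000 0 0))) (.aff 1000000 0 0)), .pol, .pol, .sy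
 75000 (.sx 150000 (.sy 62500 (.sy 56250 (.sy 53125 (.sx 75000 (.sx 37500 .pol .pol) .pol) (.sx 75000 (.sx
 37500 .pol .pol) .pol)) (.sy 59375 (.sx 75000 (.sx 37500 .pol .pol) .pol) (.sx 75000 (.sx 37500 .pol .pol)
 .pol))) (.sy 68750 (.sy 65625 (.sx 75000 (.sx 37500 .pol .pol) .pol) (.sx 75000 (.sx 37500 .pol .pol)
 .pol)) (.sy 71875 (.sx 75000 (.sx 37500 .pol .pol) .pol) (.sx 75000 (.sx 37500 .pol .pol) .pol)))) .pol)
 (.sx 150000 (.sx 75000 .pol .pol) .pol), .pol⟩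

def hL140_60_0_1 : pcchk ⟨(nat_lit 3), (nat_lit 1000), Int.ofNat (nat_lit 250), 0, ⟨0, 1⟩, ⟨Int.ofNat
 (nat_lit 60), 200⟩⟩ ⟨700000, 750000, 851343, 836787, 866153, 523861, 548266, 500544, 547722, 500000⟩ false
 (nat_lit 50) (Int.ofNat (nat_lit 991)) (nat_lit 100) (Int.ofNat (nat_lit 1910)) qL140_60_0_1 = true := by
 decide +kernel

def qL140_60_0_2 : PCt := .one ⟨2008000, 251, 502000, 331320, 5220, 0, 0, 300000, 100000, 150000⟩ ⟨0, .pol,
 .pol, .pol, .pol, .sy 125000 (.sx 150000 (.sy 112500 (.sx 75000 (.sx 37500 (.aff 0 1943651 514496) (.aff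
 250000 1030777 545705)) (.aff 1000000 0 0)) (.sy 118750 (.sx 75000 (.sx 37500 (.aff 0 1755943 569495) (.aff
 250000 1075291 523115)) (.aff 1000000 0 0)) (.sx 75000 (.sx 37500 (.aff 250000 1561250 360289) (.aff 275000
 1067172 492541)) (.aff 1000000 0 0)))) (.aff 1000000 0 0)) (.sx 150000 (.sy 137500 (.sx 75000 (.sx 37500
 (.aff 250000 1620186 347183) (.aff 325000 1129492 403390)) (.aff 1000000 0 0)) (.sx 75000 (.sx 37500 (.aff
 250000 1468418 383066) (.aff 500000 875596 285520)) (.aff 1000000 0 0))) (.aff 1000000 0 0)), .pol, .pol,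
 .sy 125000 (.sx 150000 (.sx 75000 .pol .pol) .pol) (.sx 150000 (.sx 75000 .pol .pol) .pol), .pol⟩

def hL140_60_0_2 : pcchk ⟨(nat_lit 3), (nat_lit 1000), Int.ofNat (nat_lit 250), 0, ⟨0, 1⟩, ⟨Int.ofNat
 (nat_lit 60), 200⟩⟩ ⟨700000, 750000, 851343, 836787, 866153, 523861, 548266, 500544, 547722, 500000⟩ false
 (nat_lit 100) (Int.ofNat (nat_lit 1910)) (nat_lit 150) (Int.ofNat (nat_lit 2735)) qL140_60_0_2 = true := by
 decide +kernel

def qL140_60_0_3 : PCt := .one ⟨2008000, 251, 502000, 315256, 7630, 0, 0, 300000, 150000, 200000⟩ ⟨0, .pol,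
 .pol, .pol, .pol, .sx 150000 (.sy 175000 (.sx 75000 (.sx 37500 (.sy 162500 (.aff 375000 1473140 265165)
 (.aff 413000 1511571 227955)) (.aff 1000000 0 0)) (.aff 1000000 0 0)) (.sy 187500 (.sx 75000 (.sx 37500
 (.aff 462000 1591131 181911) (.aff 1000000 0 0)) (.aff 1000000 0 0)) (.sx 75000 (.sx 37500 (.aff 500000
 1607276 155543) (.aff 1000000 0 0)) (.aff 1000000 0 0)))) (.aff 1000000 0 0), .pol, .pol, .sx 150000 .pol
 .pol, .pol⟩

def hL140_60_0_3 : pcchk ⟨(nat_lit 3), (nat_lit 1000), Int.ofNat (nat_lit 250), 0, ⟨0, 1⟩, ⟨Int.ofNat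
 (nat_lit 60), 200⟩⟩ ⟨700000, 750000, 851343, 836787, 866153, 523861, 548266, 500544, 547722, 500000⟩ false
 (nat_lit 150) (Int.ofNat (nat_lit 2735)) (nat_lit 200) (Int.ofNat (nat_lit 3520)) qL140_60_0_3 = true := by
 decide +kernel

def qL140_60_0_4 : PCt := .one ⟨2008000, 251, 502000, 290356, 12610, 0, 0, 300000, 200000, 250000⟩ ⟨0, .pol,
 .pol, .pol, .pol, .sx 150000 (.sy 225000 (.sy 212500 (.sx 75000 (.aff 619000 1622539 89466) (.aff 1000000 0
 0)) (.sy 218750 (.sx 75000 (.sx 37500 (.aff 600000 1735780 92178) (.aff 1000000 0 0)) (.aff 1000000 0 0))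
 (.sx 75000 (.sx 37500 (.aff 675000 1747356 60449) (.aff 1000000 0 0)) (.aff 1000000 0 0)))) (.sy 237500
 (.sx 75000 (.sx 37500 (.aff 650000 1738295 70472) (.aff 1000000 0 0)) (.aff 1000000 0 0)) (.sx 75000 (.sx
 37500 (.aff 700000 1690587 53236) (.aff 1000000 0 0)) (.aff 1000000 0 0)))) (.aff 1000000 0 0), .pol, .pol,
 .sx 150000 .pol .pol, .pol⟩

def hL140_60_0_4 : pcchk ⟨(nat_lit 3), (nat_lit 1000), Int.ofNat (nat_lit 250), 0, ⟨0, 1⟩, ⟨Int.ofNat
 (nat_lit 60), 200⟩⟩ ⟨700000, 750000, 851343, 836787, 866153, 523861, 548266, 500544, 547722, 500000⟩ false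
 (nat_lit 200) (Int.ofNat (nat_lit 3520)) (nat_lit 250) (Int.ofNat (nat_lit 4243)) qL140_60_0_4 = true := by
 decide +kernel

def qL140_60_0_5 : PCt := .one ⟨2008000, 251, 502000, 273489, 16827, 0, 0, 300000, 250000, 300000⟩ ⟨0, .pol,
 .pol, .pol, .pol, .sx 150000 (.sx 75000 (.sx 37500 (.aff 875000 1840286 8491) (.aff 1000000 0 0)) (.aff
 1000000 0 0)) (.aff 1000000 0 0), .pol, .pol, .sx 150000 .pol .pol, .pol⟩

def hL140_60_0_5 : pcchk ⟨(nat_lit 3), (nat_lit 1000), Int.ofNat (nat_lit 250), 0, ⟨0, 1⟩, ⟨Int.ofNat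
 (nat_lit 60), 200⟩⟩ ⟨700000, 750000, 851343, 836787, 866153, 523861, 548266, 500544, 547722, 500000⟩ false
 (nat_lit 250) (Int.ofNat (nat_lit 4243)) (nat_lit 300) (Int.ofNat (nat_lit 4924)) qL140_60_0_5 = true := by
 decide +kernel

def qL140_60_0_6 : PCt := .one ⟨2008000, 251, 502000, 252606, 23092, 0, 0, 300000, 300000, 350000⟩ ⟨0, .pol,
 .pol, .pol, .pol, .sx 150000 (.sx 75000 (.sx 37500 (.sx 18750 (.aff 1100000 1954832 5116) (.aff 1000000 0
 0)) (.aff 1000000 0 0)) (.aff 1000000 0 0)) (.aff 1000000 0 0), .pol, .pol, .pol, .pol⟩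

def hL140_60_0_6 : pcchk ⟨(nat_lit 3), (nat_lit 1000), Int.ofNat (nat_lit 250), 0, ⟨0, 1⟩, ⟨Int.ofNat
 (nat_lit 60), 200⟩⟩ ⟨700000, 750000, 851343, 836787, 866153, 523861, 548266, 500544, 547722, 500000⟩ false
 (nat_lit 300) (Int.ofNat (nat_lit 4924)) (nat_lit 350) (Int.ofNat (nat_lit 5553)) qL140_60_0_6 = true := by
 decide +kernel

def qL140_60_0_7 : PCt := .one ⟨2008000, 251, 502000, 236944, 28573, 0, 0, 300000, 350000, 400000⟩ ⟨0, .pol,
 .pol, .pol, .pol, .sx 150000 (.sx 75000 (.sy 375000 (.sx 37500 (.sx 18750 (.aff 1300000 2387126 37703)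
 (.aff 1000000 0 0)) (.aff 1000000 0 0)) (.sx 37500 (.aff 1400000 2571641 62218) (.aff 1000000 0 0))) (.aff
 1000000 0 0)) (.aff 1000000 0 0), .pol, .pol, .pol, .pol⟩

def hL140_60_0_7 : pcchk ⟨(nat_lit 3), (nat_lit 1000), Int.ofNat (nat_lit 250), 0, ⟨0, 1⟩, ⟨Int.ofNat
 (nat_lit 60), 200⟩⟩ ⟨700000, 750000, 851343, 836787, 866153, 523861, 548266, 500544, 547722, 500000⟩ false
 (nat_lit 350) (Int.ofNat (nat_lit 5553)) (nat_lit 400) (Int.ofNat (nat_lit 6143)) qL140_60_0_7 = true := by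
 decide +kernel

def qL140_60_0_8 : PCt := .one ⟨2008000, 251, 502000, 218068, 36123, 0, 0, 300000, 400000, 450000⟩ ⟨0, .pol,
 .pol, .pol, .pol, .sx 150000 (.sx 75000 (.sy 425000 (.sx 37500 (.sx 18750 (.aff 1500000 2708013 92319)
 (.aff 1000000 0 0)) (.aff 1000000 0 0)) (.sx 37500 (.aff 1575000 2777514 119037) (.aff 1000000 0 0))) (.aff
 1000000 0 0)) (.aff 1000000 0 0), .pol, .pol, .pol, .pol⟩

def hL140_60_0_8 : pcchk ⟨(nat_lit 3), (nat_lit 1000), Int.ofNat (nat_lit 250), 0, ⟨0, 1⟩, ⟨Int.ofNat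
 (nat_lit 60), 200⟩⟩ ⟨700000, 750000, 851343, 836787, 866153, 523861, 548266, 500544, 547722, 500000⟩ false
 (nat_lit 400) (Int.ofNat (nat_lit 6143)) (nat_lit 450) (Int.ofNat (nat_lit 6686)) qL140_60_0_8 = true := by
 decide +kernel

def qL140_60_0_9 : PCt := .one ⟨2008000, 251, 502000, 202004, 43352, 0, 0, 300000, 450000, 500000⟩ ⟨0, .pol,
 .pol, .pol, .pol, .sx 150000 (.sy 475000 (.sy 462500 (.sx 75000 (.sy 456250 (.sx 37500 (.aff 1800000
 3073356 208242) (.aff 1000000 0 0)) (.sx 37500 (.sx 18750 (.aff 2000000 5715477 174964) (.aff 1600000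
 2656314 135527)) (.aff 1000000 0 0))) (.aff 1000000 0 0)) (.sx 75000 (.sy 468750 (.sy 465625 (.sx 37500
 (.sx 18750 (.aff 2000000 7035624 142134) (.aff 1600000 2669832 134840)) (.aff 1000000 0 0)) (.sx 37500 (.sx
 18750 (.aff 2000000 7059273 141658) (.aff 1875000 3088432 247901)) (.aff 1000000 0 0))) (.sx 37500 (.aff
 1888000 3150002 250332) (.aff 1000000 0 0))) (.aff 1000000 0 0))) (.sx 75000 (.sx 37500 (.aff 1900000
 3244997 249616) (.aff 1650000 2560289 165021)) (.aff 1000000 0 0))) (.aff 1000000 0 0), .pol, .pol, .pol,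
 .pol⟩

def hL140_60_0_9 : pcchk ⟨(nat_lit 3), (nat_lit 1000), Int.ofNat (nat_lit 250), 0, ⟨0, 1⟩, ⟨Int.ofNat
 (nat_lit 60), 200⟩⟩ ⟨700000, 750000, 851343, 836787, 866153, 523861, 548266, 500544, 547722, 500000⟩ false
 (nat_lit 450) (Int.ofNat (nat_lit 6686)) (nat_lit 500) (Int.ofNat (nat_lit 7189)) qL140_60_0_9 = true := by
 decide +kernel

def qL140_60_0_10 : PCt := .one ⟨2008000, 251, 502000, 183129, 52790, 0, 0, 300000, 500000, 550000⟩ ⟨0,
 .pol, .pol, .pol, .pol, .sx 150000 (.sx 75000 (.sx 37500 (.aff 2000000 4320494 231456) (.aff 2000000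
 3055051 327327)) (.aff 1000000 0 0)) (.aff 1000000 0 0), .pol, .pol, .pol, .pol⟩

def hL140_60_0_10 : pcchk ⟨(nat_lit 3), (nat_lit 1000), Int.ofNat (nat_lit 250), 0, ⟨0, 1⟩, ⟨Int.ofNat
 (nat_lit 60), 200⟩⟩ ⟨700000, 750000, 851343, 836787, 866153, 523861, 548266, 500544, 547722, 500000⟩ false
 (nat_lit 500) (Int.ofNat (nat_lit 7189)) (nat_lit 550) (Int.ofNat (nat_lit 7645)) qL140_60_0_10 = true :=
 by decide +kernel

def qL140_60_0_11 : PCt := .one ⟨2008000, 251, 502000, 167467, 61404, 0, 0, 300000, 550000, 600000⟩ ⟨0,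
 .pol, .pol, .pol, .pol, .sy 575000 (.sx 150000 (.sx 75000 (.sy 562500 (.sx 37500 (.aff 2000000 4447222
 224860) (.sx 56250 (.aff 2000000 3444803 290293) (.aff 2000000 2911390 343479))) (.sx 37500 (.aff 2000000
 4496913 222375) (.sx 56250 (.aff 2000000 3321191 301097) (.aff 2150000 3178973 416015)))) (.aff 1800000
 2393451 267397)) (.aff 1000000 0 0)) (.sx 150000 (.sx 75000 (.aff 3000000 5597619 714590) (.sx 112500 (.aff
 2200000 3166492 454762) (.aff 1000000 0 0))) (.aff 1000000 0 0)), .pol, .pol, .pol, .pol⟩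

def hL140_60_0_11 : pcchk ⟨(nat_lit 3), (nat_lit 1000), Int.ofNat (nat_lit 250), 0, ⟨0, 1⟩, ⟨Int.ofNat
 (nat_lit 60), 200⟩⟩ ⟨700000, 750000, 851343, 836787, 866153, 523861, 548266, 500544, 547722, 500000⟩ false
 (nat_lit 550) (Int.ofNat (nat_lit 7645)) (nat_lit 600) (Int.ofNat (nat_lit 8062)) qL140_60_0_11 = true :=
 by decide +kernel

def qL140_60_0_12 : PCt := .one ⟨2008000, 251, 502000, 148592, 72729, 0, 0, 300000, 600000, 650000⟩ ⟨0,
 .pol, .pol, .pol, .pol, .sy 625000 (.sx 150000 (.sy 612500 (.sx 75000 (.aff 3000000 6565906 609208) (.sx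
 112500 (.aff 2150000 3082598 429022) (.aff 1000000 0 0))) (.sx 75000 (.aff 3000000 6633250 603023) (.sx
 112500 (.sx 93750 (.aff 3000000 5416026 738549) (.aff 2200000 3008560 478635)) (.aff 1500000 1085621
 230283)))) (.aff 1000000 0 0)) (.sy 637500 (.sx 150000 (.sx 75000 (.aff 3000000 6699918 597023) (.sx 112500
 (.aff 2600000 3790046 675454) (.aff 2000000 2275849 439397))) (.aff 1000000 0 0)) (.sx 150000 (.sx 75000
 (.aff 3000000 6765928 591198) (.sx 112500 (.aff 3000000 4996969 800486) (.aff 2300000 2987753 565643)))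
 (.aff 1000000 0 0))), .pol, .pol, .pol, .pol⟩

def hL140_60_0_12 : pcchk ⟨(nat_lit 3), (nat_lit 1000), Int.ofNat (nat_lit 250), 0, ⟨0, 1⟩, ⟨Int.ofNat
 (nat_lit 60), 200⟩⟩ ⟨700000, 750000, 851343, 836787, 866153, 523861, 548266, 500544, 547722, 500000⟩ false
 (nat_lit 600) (Int.ofNat (nat_lit 8062)) (nat_lit 650) (Int.ofNat (nat_lit 8432)) qL140_60_0_12 = true :=
 by decide +kernel

def qL140_60_0_13 : PCt := .one ⟨2008000, 251, 502000, 132126, 83432, 0, 0, 300000, 650000, 700000⟩ ⟨0,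
 .pol, .pol, .pol, .pol, .sx 150000 (.sx 75000 (.aff 3000000 6928204 577351) (.sx 112500 (.aff 3000000
 5366564 745356) (.sx 131250 (.aff 2700000 3855238 749630) (.aff 2600000 3394113 754248)))) (.aff 2350000
 2830835 643803), .pol, .pol, .pol, .pol⟩

def hL140_60_0_13 : pcchk ⟨(nat_lit 3), (nat_lit 1000), Int.ofNat (nat_lit 250), 0, ⟨0, 1⟩, ⟨Int.ofNat
 (nat_lit 60), 200⟩⟩ ⟨700000, 750000, 851343, 836787, 866153, 523861, 548266, 500544, 547722, 500000⟩ false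
 (nat_lit 650) (Int.ofNat (nat_lit 8432)) (nat_lit 700) (Int.ofNat (nat_lit 8761)) qL140_60_0_13 = true :=
 by decide +kernel

def qL140_60_0_14 : PCt := .one ⟨2008000, 251, 502000, 113251, 96645, 0, 0, 300000, 700000, 750000⟩ ⟨0,
 .pol, .pol, .pol, .pol, .sx 150000 (.aff 3000000 4396969 909718) (.sx 225000 (.sx 187500 (.aff 2850000
 3637811 940814) (.aff 2800000 3469818 933767)) (.aff 1500000 862317 289917)), .pol, .pol, .pol, .pol⟩

def hL140_60_0_14 : pcchk ⟨(nat_lit 3), (nat_lit 1000), Int.ofNat (nat_lit 250), 0, ⟨0, 1⟩, ⟨Int.ofNat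
 (nat_lit 60), 200⟩⟩ ⟨700000, 750000, 851343, 836787, 866153, 523861, 548266, 500544, 547722, 500000⟩ false
 (nat_lit 700) (Int.ofNat (nat_lit 8761)) (nat_lit 750) (Int.ofNat (nat_lit 9043)) qL140_60_0_14 = true :=
 by decide +kernel

def qL140_60_0_15 : PCt := .one ⟨2008000, 251, 502000, 96384, 109295, 0, 0, 300000, 750000, 800000⟩ ⟨0,
 .pol, .pol, .pol, .pol, .sx 150000 (.aff 3000000 5249339 762001) (.sx 225000 (.aff 2900000 3683049 980167)
 (.sy 775000 (.aff 2900000 3360480 1074252) (.aff 3007000 3519952 1144348))), .pol, .pol, .pol, .pol⟩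

def hL140_60_0_15 : pcchk ⟨(nat_lit 3), (nat_lit 1000), Int.ofNat (nat_lit 250), 0, ⟨0, 1⟩, ⟨Int.ofNat
 (nat_lit 60), 200⟩⟩ ⟨700000, 750000, 851343, 836787, 866153, 523861, 548266, 500544, 547722, 500000⟩ false
 (nat_lit 750) (Int.ofNat (nat_lit 9043)) (nat_lit 800) (Int.ofNat (nat_lit 9283)) qL140_60_0_15 = true :=
 by decide +kernel

def qL140_60_0_16 : PCt := .one ⟨2008000, 251, 502000, 75500, 126002, 0, 0, 300000, 800000, 850000⟩ ⟨0,
 .pol, .pol, .pol, .pol, .sx 150000 (.aff 3000000 5416026 738549) (.sx 225000 (.aff 3000000 4000000 1000000)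
 (.aff 3134000 3689771 1234212)), .pol, .pol, .pol, .pol⟩

def hL140_60_0_16 : pcchk ⟨(nat_lit 3), (nat_lit 1000), Int.ofNat (nat_lit 250), 0, ⟨0, 1⟩, ⟨Int.ofNat
 (nat_lit 60), 200⟩⟩ ⟨700000, 750000, 851343, 836787, 866153, 523861, 548266, 500544, 547722, 500000⟩ false
 (nat_lit 800) (Int.ofNat (nat_lit 9283)) (nat_lit 850) (Int.ofNat (nat_lit 9471)) qL140_60_0_16 = true :=
 by decide +kernel

def qL140_60_0_17 : PCt := .one ⟨2008000, 251, 502000, -15851554, 13663998, 0, 0, 300000, 850000, 900000⟩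
 ⟨0, .pol, .pol, .pol, .pol, .sx 150000 (.aff 20000000 52988469 6812803) (.inf 1577622 633866), .pol, .pol,
 .sx 150000 (.inf 3415651 292770) (.inf 1577622 633866), .pol⟩

def hL140_60_0_17 : pcchk ⟨(nat_lit 3), (nat_lit 1000), Int.ofNat (nat_lit 250), 0, ⟨0, 1⟩, ⟨Int.ofNat
 (nat_lit 60), 200⟩⟩ ⟨700000, 750000, 851343, 836787, 866153, 523861, 548266, 500544, 547722, 500000⟩ false
 (nat_lit 850) (Int.ofNat (nat_lit 9471)) (nat_lit 900) (Int.negSucc (nat_lit 29999)) qL140_60_0_17 = true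
 := by decide +kernel

def qL140_60_0_18 : PCt := .one ⟨2008000, 251, 502000, 0, -602400, 0, 0, 300000, 900000, 950000⟩ ⟨0, .pol,
 .pol, .pol, .pol, .inf 1986622 503368, .pol, .pol, .inf 1986622 503368, .pol⟩

def hL140_60_0_18 : pcchk ⟨(nat_lit 3), (nat_lit 1000), Int.ofNat (nat_lit 250), 0, ⟨0, 1⟩, ⟨Int.ofNat
 (nat_lit 60), 200⟩⟩ ⟨700000, 750000, 851343, 836787, 866153, 523861, 548266, 500544, 547722, 500000⟩ false
 (nat_lit 900) (Int.negSucc (nat_lit 29999)) (nat_lit 950) (Int.negSucc (nat_lit 29999)) qL140_60_0_18 =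
 true := by decide +kernel

def qL140_60_0_19 : PCt := .one ⟨2008000, 251, 502000, 0, -602400, 0, 0, 300000, 950000, 1000000⟩ ⟨0, .pol,
 .pol, .pol, .pol, .inf 2039608 490291, .pol, .pol, .inf 2039608 490291, .pol⟩

def hL140_60_0_19 : pcchk ⟨(nat_lit 3), (nat_lit 1000), Int.ofNat (nat_lit 250), 0, ⟨0, 1⟩, ⟨Int.ofNat
 (nat_lit 60), 200⟩⟩ ⟨700000, 750000, 851343, 836787, 866153, 523861, 548266, 500544, 547722, 500000⟩ false
 (nat_lit 950) (Int.negSucc (nat_lit 29999)) (nat_lit 1000) (Int.negSucc (nat_lit 29999)) qL140_60_0_19 =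
 true := by decide +kernel

def qL140_60_1_0 : PCt := .one ⟨2008000, 251, 803200, 291561, 0, 0, 0, 300000, 0, 50000⟩ ⟨25000, .aff
 3162278 316228, .pol, .pol, .pol, .pol, .aff 0 3841565 260311, .pol, .pol, .pol⟩

def hL140_60_1_0 : pcchk ⟨(nat_lit 3), (nat_lit 1000), Int.ofNat (nat_lit 400), 0, ⟨0, 1⟩, ⟨Int.ofNat
 (nat_lit 60), 200⟩⟩ ⟨700000, 750000, 851343, 836787, 866153, 523861, 548266, 500544, 547722, 500000⟩ true 0
 0 (nat_lit 50) (Int.ofNat (nat_lit 726)) qL140_60_1_0 = true := by decide +kernel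

def qL140_60_1_1 : PCt := .one ⟨2008000, 251, 803200, 326902, -1768, 0, 0, 300000, 50000, 100000⟩ ⟨0, .pol,
 .pol, .pol, .pol, .sx 150000 (.sx 75000 (.sx 37500 (.sx 18750 (.aff 0 3852778 259553) (.aff 0 1632994
 612373)) (.aff 0 1154701 866026)) .pol) .pol, .pol, .pol, .sx 150000 (.sx 75000 (.sx 37500 .pol .pol) .pol)
 .pol, .pol⟩

def hL140_60_1_1 : pcchk ⟨(nat_lit 3), (nat_lit 1000), Int.ofNat (nat_lit 400), 0, ⟨0, 1⟩, ⟨Int.ofNat
 (nat_lit 60), 200⟩⟩ ⟨700000, 750000, 851343, 836787, 866153, 523861, 548266, 500544, 547722, 500000⟩ false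
 (nat_lit 50) (Int.ofNat (nat_lit 726)) (nat_lit 100) (Int.ofNat (nat_lit 1540)) qL140_60_1_1 = true := by
 decide +kernel

def qL140_60_1_2 : PCt := .one ⟨2008000, 251, 803200, 368668, -5944, 0, 0, 300000, 100000, 150000⟩ ⟨0, .pol,
 .pol, .pol, .pol, .sx 150000 (.sx 75000 (.sx 37500 (.aff 0 3791015 263782) (.aff 0 1490712 670821)) .pol)
 .pol, .pol, .pol, .sx 150000 (.sx 75000 .pol .pol) .pol, .pol⟩

def hL140_60_1_2 : pcchk ⟨(nat_lit 3), (nat_lit 1000), Int.ofNat (nat_lit 400), 0, ⟨0, 1⟩, ⟨Int.ofNat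
 (nat_lit 60), 200⟩⟩ ⟨700000, 750000, 851343, 836787, 866153, 523861, 548266, 500544, 547722, 500000⟩ false
 (nat_lit 100) (Int.ofNat (nat_lit 1540)) (nat_lit 150) (Int.ofNat (nat_lit 2458)) qL140_60_1_2 = true := by
 decide +kernel

def qL140_60_1_3 : PCt := .one ⟨2008000, 251, 803200, 373889, -6727, 0, 0, 300000, 150000, 200000⟩ ⟨0, .pol,
 .pol, .pol, .pol, .sy 175000 (.sy 162500 (.sx 150000 (.sx 75000 (.aff 0 3525887 283617) (.aff 0 1178512
 848528)) .pol) (.sx 150000 (.sy 168750 (.sx 75000 (.aff 7000 3604712 273545) (.aff 0 1213352 824164)) (.sx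
 75000 (.sx 37500 (.aff 125000 3746527 204356) (.aff 0 1748015 572078)) (.aff 0 1236034 809040))) .pol))
 (.sy 187500 (.sy 181250 (.sy 178125 (.sx 150000 (.sx 75000 (.sx 37500 (.aff 125000 3797272 201626) (.aff 0
 1771691 564433)) (.aff 0 1252775 798228)) .pol) (.sx 150000 (.sx 75000 (.sx 37500 (.aff 125000 3830729
 199865) (.aff 0 1787301 559503)) (.aff 0 1263813 791257)) .pol)) (.sx 150000 (.sy 184375 (.sx 75000 (.sx
 37500 (.aff 175000 3643102 186826) (.aff 0 1802776 554701)) (.aff 0 1274755 784465)) (.sy 185937 (.sx 75000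
 (.sx 37500 (.aff 150000 3777481 191266) (.aff 0 1814294 551179)) (.aff 0 1282900 779484)) (.sx 75000 (.sx
 37500 (.aff 150000 3793386 190464) (.aff 0 1821934 548868)) (.aff 0 1288302 776216)))) .pol)) (.sy 193750
 (.sx 150000 (.sx 75000 (.sx 37500 (.aff 150000 3832863 188502) (.aff 0 1840894 543215)) (.aff 0 1301709
 768221)) .pol) (.sy 196875 (.sx 150000 (.sx 75000 (.sx 37500 (.aff 250000 3423266 164317) (.aff 0 1863390
 536657)) (.aff 0 1317616 758947)) .pol) (.sx 150000 (.sx 75000 (.sx 37500 (.aff 250000 3450544 163018)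
 (.aff 0 1878238 532414)) (.aff 0 1328115 752947)) .pol)))), .pol, .pol, .sx 150000 .pol .pol, .pol⟩

def hL140_60_1_3 : pcchk ⟨(nat_lit 3), (nat_lit 1000), Int.ofNat (nat_lit 400), 0, ⟨0, 1⟩, ⟨Int.ofNat
 (nat_lit 60), 200⟩⟩ ⟨700000, 750000, 851343, 836787, 866153, 523861, 548266, 500544, 547722, 500000⟩ false
 (nat_lit 150) (Int.ofNat (nat_lit 2458)) (nat_lit 200) (Int.ofNat (nat_lit 3389)) qL140_60_1_3 = true := by
 decide +kernel

def qL140_60_1_4 : PCt := .one ⟨2008000, 251, 803200, 324091, 3232, 0, 0, 300000, 200000, 250000⟩ ⟨0, .pol,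
 .pol, .pol, .pol, .sx 150000 (.aff 450000 3754829 80563) (.aff 0 1000000 1000000), .pol, .pol, .sx 150000
 .pol .pol, .pol⟩

def hL140_60_1_4 : pcchk ⟨(nat_lit 3), (nat_lit 1000), Int.ofNat (nat_lit 400), 0, ⟨0, 1⟩, ⟨Int.ofNat
 (nat_lit 60), 200⟩⟩ ⟨700000, 750000, 851343, 836787, 866153, 523861, 548266, 500544, 547722, 500000⟩ false
 (nat_lit 200) (Int.ofNat (nat_lit 3389)) (nat_lit 250) (Int.ofNat (nat_lit 4196)) qL140_60_1_4 = true := by
 decide +kernel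

def qL140_60_1_5 : PCt := .one ⟨2008000, 251, 803200, 299192, 9457, 0, 0, 300000, 250000, 300000⟩ ⟨0, .pol,
 .pol, .pol, .pol, .sx 150000 (.sx 75000 (.sx 37500 (.sy 275000 (.aff 650000 4121760 29721) (.sx 18750 (.sx
 9375 (.aff 750000 4130676 15131) (.aff 1000000 0 0)) (.aff 1000000 0 0))) (.aff 1000000 0 0)) (.aff 1000000
 0 0)) (.aff 0 1105542 904534), .pol, .pol, .sx 150000 .pol .pol, .pol⟩

def hL140_60_1_5 : pcchk ⟨(nat_lit 3), (nat_lit 1000), Int.ofNat (nat_lit 400), 0, ⟨0, 1⟩, ⟨Int.ofNat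
 (nat_lit 60), 200⟩⟩ ⟨700000, 750000, 851343, 836787, 866153, 523861, 548266, 500544, 547722, 500000⟩ false
 (nat_lit 250) (Int.ofNat (nat_lit 4196)) (nat_lit 300) (Int.ofNat (nat_lit 4941)) qL140_60_1_5 = true := by
 decide +kernel

def qL140_60_1_6 : PCt := .one ⟨2008000, 251, 803200, 232124, 29577, 0, 0, 300000, 300000, 350000⟩ ⟨0, .pol,
 .pol, .pol, .pol, .sx 150000 (.sx 75000 (.sx 37500 (.aff 1250000 4001203 15621) (.aff 1000000 0 0)) (.aff
 1000000 0 0)) (.aff 1000000 0 0), .pol, .pol, .pol, .pol⟩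

def hL140_60_1_6 : pcchk ⟨(nat_lit 3), (nat_lit 1000), Int.ofNat (nat_lit 400), 0, ⟨0, 1⟩, ⟨Int.ofNat
 (nat_lit 60), 200⟩⟩ ⟨700000, 750000, 851343, 836787, 866153, 523861, 548266, 500544, 547722, 500000⟩ false
 (nat_lit 300) (Int.ofNat (nat_lit 4941)) (nat_lit 350) (Int.ofNat (nat_lit 5519)) qL140_60_1_6 = true := by
 decide +kernel

def qL140_60_1_7 : PCt := .one ⟨2008000, 251, 803200, 188752, 44758, 0, 0, 300000, 350000, 400000⟩ ⟨0, .pol,
 .pol, .pol, .pol, .sx 150000 (.sx 75000 (.sx 37500 (.aff 1625000 4828019 80908) (.aff 1000000 0 0)) (.aff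
 1000000 0 0)) (.aff 1000000 0 0), .pol, .pol, .pol, .pol⟩

def hL140_60_1_7 : pcchk ⟨(nat_lit 3), (nat_lit 1000), Int.ofNat (nat_lit 400), 0, ⟨0, 1⟩, ⟨Int.ofNat
 (nat_lit 60), 200⟩⟩ ⟨700000, 750000, 851343, 836787, 866153, 523861, 548266, 500544, 547722, 500000⟩ false
 (nat_lit 350) (Int.ofNat (nat_lit 5519)) (nat_lit 400) (Int.ofNat (nat_lit 5989)) qL140_60_1_7 = true := by
 decide +kernel

def qL140_60_1_8 : PCt := .one ⟨2008000, 251, 803200, 138953, 64677, 0, 0, 300000, 400000, 450000⟩ ⟨0, .pol,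
 .pol, .pol, .pol, .sx 150000 (.sx 75000 (.sx 37500 (.sx 18750 (.aff 2050000 5772348 190997) (.aff 2100000
 4684158 258318)) (.aff 1000000 0 0)) (.aff 1000000 0 0)) (.aff 1000000 0 0), .pol, .pol, .pol, .pol⟩

def hL140_60_1_8 : pcchk ⟨(nat_lit 3), (nat_lit 1000), Int.ofNat (nat_lit 400), 0, ⟨0, 1⟩, ⟨Int.ofNat
 (nat_lit 60), 200⟩⟩ ⟨700000, 750000, 851343, 836787, 866153, 523861, 548266, 500544, 547722, 500000⟩ false
 (nat_lit 400) (Int.ofNat (nat_lit 5989)) (nat_lit 450) (Int.ofNat (nat_lit 6335)) qL140_60_1_8 = true := by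
 decide +kernel

def qL140_60_1_9 : PCt := .one ⟨2008000, 251, 803200, 96384, 83834, 0, 0, 300000, 450000, 500000⟩ ⟨0, .pol,
 .pol, .pol, .pol, .sx 150000 (.sy 475000 (.sy 462500 (.sx 75000 (.sx 37500 (.sx 18750 (.aff 3000000
 11392005 351124) (.aff 2200000 5294526 271980)) (.aff 1000000 0 0)) (.aff 1000000 0 0)) (.sx 75000 (.sy
 468750 (.sx 37500 (.sx 18750 (.aff 3000000 14094917 283791) (.sx 28125 (.aff 3000000 8914408 448712) (.aff
 2100000 4300150 281386))) (.aff 1000000 0 0)) (.sx 37500 (.aff 2652000 5933851 459922) (.aff 1000000 0 0)))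
 (.aff 1000000 0 0))) (.sy 487500 (.sx 75000 (.sx 37500 (.aff 2700000 6090020 474547) (.aff 1000000 0 0))
 (.aff 1000000 0 0)) (.sx 75000 (.sx 37500 (.aff 3000000 7257181 551179) (.aff 2350000 5351501 340559))
 (.aff 1000000 0 0)))) (.aff 1000000 0 0), .pol, .pol, .pol, .pol⟩

def hL140_60_1_9 : pcchk ⟨(nat_lit 3), (nat_lit 1000), Int.ofNat (nat_lit 400), 0, ⟨0, 1⟩, ⟨Int.ofNat
 (nat_lit 60), 200⟩⟩ ⟨700000, 750000, 851343, 836787, 866153, 523861, 548266, 500544, 547722, 500000⟩ false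
 (nat_lit 450) (Int.ofNat (nat_lit 6335)) (nat_lit 500) (Int.ofNat (nat_lit 6575)) qL140_60_1_9 = true := by
 decide +kernel

def qL140_60_1_10 : PCt := .one ⟨2008000, 251, 803200, 46987, 108532, 0, 0, 300000, 500000, 550000⟩ ⟨0,
 .pol, .pol, .pol, .pol, .sx 150000 (.sx 75000 (.sx 37500 (.aff 3000000 8640988 462911) (.sx 56250 (.sx
 46875 (.aff 3000000 6867161 582483) (.aff 2900000 5804596 621921)) (.aff 3000000 5870396 681386))) (.aff
 1000000 0 0)) (.aff 1000000 0 0), .pol, .pol, .pol, .pol⟩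

def hL140_60_1_10 : pcchk ⟨(nat_lit 3), (nat_lit 1000), Int.ofNat (nat_lit 400), 0, ⟨0, 1⟩, ⟨Int.ofNat
 (nat_lit 60), 200⟩⟩ ⟨700000, 750000, 851343, 836787, 866153, 523861, 548266, 500544, 547722, 500000⟩ false
 (nat_lit 500) (Int.ofNat (nat_lit 6575)) (nat_lit 550) (Int.ofNat (nat_lit 6692)) qL140_60_1_10 = true :=
 by decide +kernel

def qL140_60_1_11 : PCt := .one ⟨2008000, 251, 803200, 6024, 131062, 0, 0, 300000, 550000, 600000⟩ ⟨0, .pol,
 .pol, .pol, .pol, .sy 575000 (.sx 150000 (.sx 75000 (.sx 37500 (.aff 3000000 8944272 447214) (.aff 3100000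
 6148171 717287)) (.aff 2850000 5008144 683387)) (.aff 1000000 0 0)) (.sx 150000 (.sx 75000 (.aff 5000000
 11195238 1429180) (.sx 112500 (.aff 3300000 6069109 871628) (.aff 1000000 0 0))) (.aff 1000000 0 0)), .pol,
 .pol, .pol, .pol⟩

def hL140_60_1_11 : pcchk ⟨(nat_lit 3), (nat_lit 1000), Int.ofNat (nat_lit 400), 0, ⟨0, 1⟩, ⟨Int.ofNat
 (nat_lit 60), 200⟩⟩ ⟨700000, 750000, 851343, 836787, 866153, 523861, 548266, 500544, 547722, 500000⟩ false
 (nat_lit 550) (Int.ofNat (nat_lit 6692)) (nat_lit 600) (Int.ofNat (nat_lit 6707)) qL140_60_1_11 = true :=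
 by decide +kernel

def qL140_60_1_12 : PCt := .one ⟨2008000, 251, 803200, -44176, 161182, 0, 0, 300000, 600000, 650000⟩ ⟨0,
 .pol, .pol, .pol, .pol, .sx 150000 (.sy 625000 (.sx 75000 (.aff 5000000 13199327 1212184) (.sx 112500 (.sx
 93750 (.aff 4500000 8946136 1369307) (.aff 3500000 6236096 1002230)) (.aff 1000000 0 0))) (.sx 75000 (.aff
 5000000 13466007 1188178) (.sx 112500 (.aff 3900000 6903381 1218244) (.aff 3600000 5946428 1136817))))
 (.aff 1000000 0 0), .pol, .pol, .pol, .pol⟩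

def hL140_60_1_12 : pcchk ⟨(nat_lit 3), (nat_lit 1000), Int.ofNat (nat_lit 400), 0, ⟨0, 1⟩, ⟨Int.ofNat
 (nat_lit 60), 200⟩⟩ ⟨700000, 750000, 851343, 836787, 866153, 523861, 548266, 500544, 547722, 500000⟩ false
 (nat_lit 600) (Int.ofNat (nat_lit 6707)) (nat_lit 650) (Int.ofNat (nat_lit 6597)) qL140_60_1_12 = true :=
 by decide +kernel

def qL140_60_1_13 : PCt := .one ⟨2008000, 251, 803200, -89557, 190679, 0, 0, 300000, 650000, 700000⟩ ⟨0,
 .pol, .pol, .pol, .pol, .sx 150000 (.sx 75000 (.aff 5000000 13856407 1154701) (.sx 112500 (.aff 5000000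
 10733127 1490712) (.sx 131250 (.aff 4200000 7256918 1411068) (.aff 4188000 6933970 1465733)))) (.aff
 3850000 5976206 1359140), .pol, .pol, .pol, .pol⟩

def hL140_60_1_13 : pcchk ⟨(nat_lit 3), (nat_lit 1000), Int.ofNat (nat_lit 400), 0, ⟨0, 1⟩, ⟨Int.ofNat
 (nat_lit 60), 200⟩⟩ ⟨700000, 750000, 851343, 836787, 866153, 523861, 548266, 500544, 547722, 500000⟩ false
 (nat_lit 650) (Int.ofNat (nat_lit 6597)) (nat_lit 700) (Int.ofNat (nat_lit 6374)) qL140_60_1_13 = true :=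
 by decide +kernel

def qL140_60_1_14 : PCt := .one ⟨2008000, 251, 803200, -146986, 230879, 0, 0, 300000, 700000, 750000⟩ ⟨0,
 .pol, .pol, .pol, .pol, .sx 150000 (.aff 5000000 8793938 1819436) (.sx 225000 (.sx 187500 (.sx 168750 (.aff
 4800000 7876454 1833313) (.aff 4700000 7275622 1881627)) (.aff 4575000 7046328 1813800)) (.aff 1000000 0
 0)), .pol, .pol, .pol, .pol⟩

def hL140_60_1_14 : pcchk ⟨(nat_lit 3), (nat_lit 1000), Int.ofNat (nat_lit 400), 0, ⟨0, 1⟩, ⟨Int.ofNat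
 (nat_lit 60), 200⟩⟩ ⟨700000, 750000, 851343, 836787, 866153, 523861, 548266, 500544, 547722, 500000⟩ false
 (nat_lit 700) (Int.ofNat (nat_lit 6374)) (nat_lit 750) (Int.ofNat (nat_lit 6008)) qL140_60_1_14 = true :=
 by decide +kernel

def qL140_60_1_15 : PCt := .one ⟨2008000, 251, 803200, -204013, 273650, 0, 0, 300000, 750000, 800000⟩ ⟨0,
 .pol, .pol, .pol, .pol, .sx 150000 (.aff 5000000 10498678 1524002) (.sx 225000 (.aff 4963000 7492394
 2096176) (.sx 262500 (.aff 5000000 7273697 2199707) (.aff 2000000 1659987 602415))), .pol, .pol, .pol,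
 .pol⟩

def hL140_60_1_15 : pcchk ⟨(nat_lit 3), (nat_lit 1000), Int.ofNat (nat_lit 400), 0, ⟨0, 1⟩, ⟨Int.ofNat
 (nat_lit 60), 200⟩⟩ ⟨700000, 750000, 851343, 836787, 866153, 523861, 548266, 500544, 547722, 500000⟩ false
 (nat_lit 750) (Int.ofNat (nat_lit 6008)) (nat_lit 800) (Int.ofNat (nat_lit 5500)) qL140_60_1_15 = true :=
 by decide +kernel

def qL140_60_1_16 : PCt := .one ⟨2008000, 251, 803200, -280317, 334693, 0, 0, 300000, 800000, 850000⟩ ⟨0,
 .pol, .pol, .pol, .pol, .sx 150000 (.aff 5000000 10832052 1477098) (.sy 825000 (.sx 225000 (.aff 5000000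
 7601170 2104940) (.sx 262500 (.aff 5475000 7968472 2513108) (.aff 5400000 7606410 2545222))) (.sx 225000
 (.aff 8000000 14794143 3312122) (.sx 262500 (.aff 8000000 12975322 3776400) (.aff 5412000 7647414
 2545403)))), .pol, .pol, .pol, .pol⟩

def hL140_60_1_16 : pcchk ⟨(nat_lit 3), (nat_lit 1000), Int.ofNat (nat_lit 400), 0, ⟨0, 1⟩, ⟨Int.ofNat
 (nat_lit 60), 200⟩⟩ ⟨700000, 750000, 851343, 836787, 866153, 523861, 548266, 500544, 547722, 500000⟩ false
 (nat_lit 800) (Int.ofNat (nat_lit 5500)) (nat_lit 850) (Int.ofNat (nat_lit 4802)) qL140_60_1_16 = true :=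
 by decide +kernel

def qL140_60_1_17 : PCt := .one ⟨2008000, 251, 803200, -13976484, 11976434, 0, 0, 300000, 850000, 900000⟩
 ⟨0, .pol, .pol, .pol, .pol, .sx 150000 (.aff 20000000 52988469 6812803) (.inf 1577622 633866), .pol, .pol,
 .sx 150000 (.inf 3415651 292770) (.inf 1577622 633866), .pol⟩

def hL140_60_1_17 : pcchk ⟨(nat_lit 3), (nat_lit 1000), Int.ofNat (nat_lit 400), 0, ⟨0, 1⟩, ⟨Int.ofNat
 (nat_lit 60), 200⟩⟩ ⟨700000, 750000, 851343, 836787, 866153, 523861, 548266, 500544, 547722, 500000⟩ false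
 (nat_lit 850) (Int.ofNat (nat_lit 4802)) (nat_lit 900) (Int.negSucc (nat_lit 29999)) qL140_60_1_17 = true
 := by decide +kernel

def qL140_60_1_18 : PCt := .one ⟨2008000, 251, 803200, 0, -602400, 0, 0, 300000, 900000, 950000⟩ ⟨0, .pol,
 .pol, .pol, .pol, .inf 1986622 503368, .pol, .pol, .inf 1986622 503368, .pol⟩

def hL140_60_1_18 : pcchk ⟨(nat_lit 3), (nat_lit 1000), Int.ofNat (nat_lit 400), 0, ⟨0, 1⟩, ⟨Int.ofNat
 (nat_lit 60), 200⟩⟩ ⟨700000, 750000, 851343, 836787, 866153, 523861, 548266, 500544, 547722, 500000⟩ false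
 (nat_lit 900) (Int.negSucc (nat_lit 29999)) (nat_lit 950) (Int.negSucc (nat_lit 29999)) qL140_60_1_18 =
 true := by decide +kernel

def qL140_60_1_19 : PCt := .one ⟨2008000, 251, 803200, 0, -602400, 0, 0, 300000, 950000, 1000000⟩ ⟨0, .pol,
 .pol, .pol, .pol, .aff 36800000 64539368 19858267, .pol, .pol, .inf 2039608 490291, .pol⟩

def hL140_60_1_19 : pcchk ⟨(nat_lit 3), (nat_lit 1000), Int.ofNat (nat_lit 400), 0, ⟨0, 1⟩, ⟨Int.ofNat
 (nat_lit 60), 200⟩⟩ ⟨700000, 750000, 851343, 836787, 866153, 523861, 548266, 500544, 547722, 500000⟩ false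
 (nat_lit 950) (Int.negSucc (nat_lit 29999)) (nat_lit 1000) (Int.negSucc (nat_lit 29999)) qL140_60_1_19 =
 true := by decide +kernel

def qL140_60_2_0 : PCt := .one ⟨2008000, 251, 2008000, 271080, 0, 0, 0, 300000, 0, 50000⟩ ⟨12500, .sp 250000
 (.aff 6324556 158114) .pol, .pol, .pol, .pol, .pol, .aff 0 14172346 70560, .pol, .pol, .pol⟩

def hL140_60_2_0 : pcchk ⟨(nat_lit 3), (nat_lit 1000), Int.ofNat (nat_lit 1000), 0, ⟨0, 1⟩, ⟨Int.ofNat
 (nat_lit 60), 200⟩⟩ ⟨700000, 750000, 851343, 836787, 866153, 523861, 548266, 500544, 547722, 500000⟩ true 0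
 0 (nat_lit 50) (Int.ofNat (nat_lit 675)) qL140_60_2_0 = true := by decide +kernel

def qL140_60_2_1 : PCt := .one ⟨2008000, 251, 2008000, 303609, -1627, 0, 0, 300000, 50000, 100000⟩ ⟨0, .pol,
 .pol, .pol, .pol, .sx 150000 (.sx 75000 (.aff 0 13371789 74785) .pol) .pol, .pol, .pol, .sx 150000 (.sx
 75000 (.sx 37500 .pol .pol) .pol) .pol, .pol⟩

def hL140_60_2_1 : pcchk ⟨(nat_lit 3), (nat_lit 1000), Int.ofNat (nat_lit 1000), 0, ⟨0, 1⟩, ⟨Int.ofNat
 (nat_lit 60), 200⟩⟩ ⟨700000, 750000, 851343, 836787, 866153, 523861, 548266, 500544, 547722, 500000⟩ false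
 (nat_lit 50) (Int.ofNat (nat_lit 675)) (nat_lit 100) (Int.ofNat (nat_lit 1431)) qL140_60_2_1 = true := by
 decide +kernel

def qL140_60_2_2 : PCt := .one ⟨2008000, 251, 2008000, 336942, -4960, 0, 0, 300000, 100000, 150000⟩ ⟨0,
 .pol, .pol, .pol, .pol, .sx 150000 (.sx 75000 (.aff 0 13444365 74381) .pol) .pol, .pol, .pol, .sx 150000
 (.sx 75000 .pol .pol) .pol, .pol⟩

def hL140_60_2_2 : pcchk ⟨(nat_lit 3), (nat_lit 1000), Int.ofNat (nat_lit 1000), 0, ⟨0, 1⟩, ⟨Int.ofNat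
 (nat_lit 60), 200⟩⟩ ⟨700000, 750000, 851343, 836787, 866153, 523861, 548266, 500544, 547722, 500000⟩ false
 (nat_lit 100) (Int.ofNat (nat_lit 1431)) (nat_lit 150) (Int.ofNat (nat_lit 2270)) qL140_60_2_2 = true := by
 decide +kernel

def qL140_60_2_3 : PCt := .one ⟨2008000, 251, 2008000, 375496, -10743, 0, 0, 300000, 150000, 200000⟩ ⟨0,
 .pol, .pol, .pol, .pol, .sx 150000 (.sx 75000 (.aff 0 13024030 76782) .pol) .pol, .pol, .pol, .sx 150000
 .pol .pol, .pol⟩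

def hL140_60_2_3 : pcchk ⟨(nat_lit 3), (nat_lit 1000), Int.ofNat (nat_lit 1000), 0, ⟨0, 1⟩, ⟨Int.ofNat
 (nat_lit 60), 200⟩⟩ ⟨700000, 750000, 851343, 836787, 866153, 523861, 548266, 500544, 547722, 500000⟩ false
 (nat_lit 150) (Int.ofNat (nat_lit 2270)) (nat_lit 200) (Int.ofNat (nat_lit 3205)) qL140_60_2_3 = true := by
 decide +kernel

def qL140_60_2_4 : PCt := .one ⟨2008000, 251, 2008000, 380315, -11707, 0, 0, 300000, 200000, 250000⟩ ⟨0,
 .pol, .pol, .pol, .pol, .sx 150000 (.sx 75000 (.sy 225000 (.aff 0 12986030 77006) (.aff 175000 13159120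
 51723)) .pol) .pol, .pol, .pol, .sx 150000 .pol .pol, .pol⟩

def hL140_60_2_4 : pcchk ⟨(nat_lit 3), (nat_lit 1000), Int.ofNat (nat_lit 1000), 0, ⟨0, 1⟩, ⟨Int.ofNat
 (nat_lit 60), 200⟩⟩ ⟨700000, 750000, 851343, 836787, 866153, 523861, 548266, 500544, 547722, 500000⟩ false
 (nat_lit 200) (Int.ofNat (nat_lit 3205)) (nat_lit 250) (Int.ofNat (nat_lit 4152)) qL140_60_2_4 = true := by
 decide +kernel

def qL140_60_2_5 : PCt := .one ⟨2008000, 251, 2008000, 326099, 1847, 0, 0, 300000, 250000, 300000⟩ ⟨0, .pol,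
 .pol, .pol, .pol, .sx 150000 (.sx 75000 (.sx 37500 (.aff 525000 10432457 21628) (.aff 0 2211084 452267))
 .pol) .pol, .pol, .pol, .sx 150000 .pol .pol, .pol⟩

def hL140_60_2_5 : pcchk ⟨(nat_lit 3), (nat_lit 1000), Int.ofNat (nat_lit 1000), 0, ⟨0, 1⟩, ⟨Int.ofNat
 (nat_lit 60), 200⟩⟩ ⟨700000, 750000, 851343, 836787, 866153, 523861, 548266, 500544, 547722, 500000⟩ false
 (nat_lit 250) (Int.ofNat (nat_lit 4152)) (nat_lit 300) (Int.ofNat (nat_lit 4964)) qL140_60_2_5 = true := by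
 decide +kernel

def qL140_60_2_6 : PCt := .one ⟨2008000, 251, 2008000, 175499, 47027, 0, 0, 300000, 300000, 350000⟩ ⟨0,
 .pol, .pol, .pol, .pol, .sx 150000 (.sx 75000 (.sx 37500 (.aff 1600000 12962541 27773) (.aff 0 2403701
 416026)) .pol) .pol, .pol, .pol, .pol, .pol⟩

def hL140_60_2_6 : pcchk ⟨(nat_lit 3), (nat_lit 1000), Int.ofNat (nat_lit 1000), 0, ⟨0, 1⟩, ⟨Int.ofNat
 (nat_lit 60), 200⟩⟩ ⟨700000, 750000, 851343, 836787, 866153, 523861, 548266, 500544, 547722, 500000⟩ false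
 (nat_lit 300) (Int.ofNat (nat_lit 4964)) (nat_lit 350) (Int.ofNat (nat_lit 5401)) qL140_60_2_6 = true := by
 decide +kernel

def qL140_60_2_7 : PCt := .one ⟨2008000, 251, 2008000, -12450, 112809, 0, 0, 300000, 350000, 400000⟩ ⟨0,
 .pol, .pol, .pol, .pol, .sx 150000 (.sx 75000 (.sx 37500 (.sx 18750 (.aff 2900000 14677176 245961) (.aff
 1000000 0 0)) (.aff 1000000 0 0)) (.aff 0 1825742 547723)) .pol, .pol, .pol, .pol, .pol⟩

def hL140_60_2_7 : pcchk ⟨(nat_lit 3), (nat_lit 1000), Int.ofNat (nat_lit 1000), 0, ⟨0, 1⟩, ⟨Int.ofNat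
 (nat_lit 60), 200⟩⟩ ⟨700000, 750000, 851343, 836787, 866153, 523861, 548266, 500544, 547722, 500000⟩ false
 (nat_lit 350) (Int.ofNat (nat_lit 5401)) (nat_lit 400) (Int.ofNat (nat_lit 5370)) qL140_60_2_7 = true := by
 decide +kernel

def qL140_60_2_8 : PCt := .one ⟨2008000, 251, 2008000, -165861, 174173, 0, 0, 300000, 400000, 450000⟩ ⟨0,
 .pol, .pol, .pol, .pol, .sx 150000 (.sx 75000 (.sy 425000 (.sx 37500 (.sy 412500 (.sy 406250 (.aff 3200000
 14426365 335497) (.sy 409375 (.sy 407812 (.aff 3200000 14496087 333884) (.sy 408593 (.sx 18750 (.sx 9375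
 (.aff 5000000 37327352 428641) (.aff 3300000 13574537 389701)) (.aff 1000000 0 0)) (.sx 18750 (.sx 9375
 (.aff 5000000 37363067 428231) (.aff 3300000 13587525 389328)) (.aff 1000000 0 0)))) (.sy 410937 (.sy
 410156 (.sx 18750 (.sx 9375 (.aff 5000000 37398747 427822) (.aff 3400000 14191827 405868)) (.aff 1000000 0
 0)) (.sx 18750 (.sx 9375 (.aff 5000000 37434370 427415) (.aff 3400000 14205345 405482)) (.aff 1000000 0
 0))) (.sy 411718 (.sx 18750 (.sx 9375 (.aff 5000000 37469960 427009) (.aff 3400000 14218850 405097)) (.aff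
 1000000 0 0)) (.sx 18750 (.sx 9375 (.aff 5000000 37505539 426604) (.aff 3400000 14232352 404712)) (.aff
 1000000 0 0)))))) (.sy 418750 (.sy 415625 (.sy 414062 (.sx 18750 (.sx 9375 (.aff 5000000 37558832 425999)
 (.aff 3500000 14846432 420977)) (.aff 1000000 0 0)) (.sy 414843 (.sx 18750 (.sx 9375 (.aff 5000000 37612027
 425396) (.aff 4400000 16804686 687904)) (.aff 1000000 0 0)) (.sx 18750 (.aff 4476000 16460383 734040) (.aff
 1000000 0 0)))) (.sx 18750 (.aff 4488000 16452864 739455) (.aff 1000000 0 0))) (.sx 18750 (.aff 4500000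
 16601958 737865) (.aff 1000000 0 0)))) (.aff 1000000 0 0)) (.sy 437500 (.sy 431250 (.sy 428125 (.sy 426562
 (.sy 425781 (.sx 37500 (.sx 18750 (.aff 4800000 18099929 797794) (.aff 1000000 0 0)) (.aff 1000000 0 0))
 (.sx 37500 (.sx 18750 (.aff 4900000 18593287 818038) (.aff 1000000 0 0)) (.aff 1000000 0 0))) (.sy 427343
 (.sx 37500 (.sx 18750 (.aff 5000000 19087504 838245) (.aff 1000000 0 0)) (.aff 1000000 0 0)) (.sx 37500
 (.sx 18750 (.aff 5000000 19104965 837479) (.aff 1000000 0 0)) (.aff 1000000 0 0)))) (.sy 429687 (.sy 428906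
 (.sx 37500 (.sx 18750 (.aff 5000000 19122410 836715) (.aff 1000000 0 0)) (.aff 1000000 0 0)) (.sx 37500
 (.sx 18750 (.aff 5000000 19139828 835954) (.aff 1000000 0 0)) (.aff 1000000 0 0))) (.sy 430468 (.sx 37500
 (.sx 18750 (.aff 5000000 19157231 835194) (.aff 1000000 0 0)) (.aff 1000000 0 0)) (.sx 37500 (.sx 18750
 (.aff 5000000 19174628 834437) (.aff 1000000 0 0)) (.aff 1000000 0 0))))) (.sy 434375 (.sy 432812 (.sy
 432031 (.sx 37500 (.sx 18750 (.aff 5000000 19192010 833681) (.aff 1000000 0 0)) (.aff 1000000 0 0)) (.sx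
 37500 (.sx 18750 (.aff 5000000 19209365 832928) (.aff 1000000 0 0)) (.aff 1000000 0 0))) (.sy 433593 (.sx
 37500 (.sx 18750 (.aff 5000000 19226704 832176) (.aff 2000000 4299222 232601)) (.aff 1000000 0 0)) (.sx
 37500 (.sx 18750 (.aff 5000000 19244039 831427) (.aff 3100000 9036506 488021)) (.aff 1000000 0 0)))) (.sy
 435937 (.sy 435156 (.sx 37500 (.sx 18750 (.aff 5000000 19261358 830679) (.aff 3100000 11047146 399199))
 (.aff 1000000 0 0)) (.sx 37500 (.sx 18750 (.aff 5000000 22261068 718744) (.aff 3300000 12110118 436825))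
 (.aff 1000000 0 0))) (.sy 436718 (.sx 37500 (.sx 18750 (.aff 5000000 22281018 718101) (.aff 4900000
 16827332 903887)) (.aff 1000000 0 0)) (.sx 37500 (.sx 18750 (.aff 5000000 22300963 717458) (.aff 4900000
 16842395 903079)) (.aff 1000000 0 0)))))) (.sy 443750 (.sy 440625 (.sy 439062 (.sy 438281 (.sx 37500 (.sx
 18750 (.aff 5000000 22320889 716818) (.aff 4900000 16857445 902272)) (.aff 1000000 0 0)) (.sx 37500 (.sx
 18750 (.aff 5000000 22340786 716179) (.aff 4900000 16872471 901469)) (.aff 1000000 0 0))) (.sy 439843 (.sx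
 37500 (.sx 18750 (.aff 5000000 22360664 715543) (.aff 4900000 16887484 900668)) (.aff 1000000 0 0)) (.sx
 37500 (.sx 18750 (.aff 5000000 22380538 714907) (.aff 4900000 16902493 899868)) (.aff 1000000 0 0)))) (.sy
 442187 (.sy 441406 (.sx 37500 (.sx 18750 (.aff 5000000 22400394 714274) (.aff 4900000 16917489 899070))
 (.aff 1000000 0 0)) (.sx 37500 (.sx 18750 (.aff 5000000 22420220 713642) (.aff 5250000 16844333 1072320))
 (.aff 1000000 0 0))) (.sy 442968 (.sx 37500 (.sx 18750 (.aff 5000000 22440028 713012) (.aff 5100000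
 16264184 1033560)) (.aff 1000000 0 0)) (.aff 4750000 15748976 892916)))) (.aff 4750000 15811300 889396))))
 (.aff 1000000 0 0)) .pol, .pol, .pol, .pol, .pol⟩

def hL140_60_2_8 : pcchk ⟨(nat_lit 3), (nat_lit 1000), Int.ofNat (nat_lit 1000), 0, ⟨0, 1⟩, ⟨Int.ofNat
 (nat_lit 60), 200⟩⟩ ⟨700000, 750000, 851343, 836787, 866153, 523861, 548266, 500544, 547722, 500000⟩ false
 (nat_lit 400) (Int.ofNat (nat_lit 5370)) (nat_lit 450) (Int.ofNat (nat_lit 4957)) qL140_60_2_8 = true := by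
 decide +kernel

def qL140_60_2_9 : PCt := .one ⟨2008000, 251, 2008000, -348188, 256220, 0, 0, 300000, 450000, 500000⟩ ⟨0,
 .pol, .pol, .pol, .pol, .sx 150000 (.sx 75000 (.sx 37500 (.sy 475000 (.aff 5000000 16220701 986394) (.aff
 5450000 16763767 1181268)) (.aff 5150000 14600029 1179621)) (.aff 1000000 0 0)) (.aff 0 1452967 688247),
 .pol, .pol, .pol, .pol⟩

def hL140_60_2_9 : pcchk ⟨(nat_lit 3), (nat_lit 1000), Int.ofNat (nat_lit 1000), 0, ⟨0, 1⟩, ⟨Int.ofNat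
 (nat_lit 60), 200⟩⟩ ⟨700000, 750000, 851343, 836787, 866153, 523861, 548266, 500544, 547722, 500000⟩ false
 (nat_lit 450) (Int.ofNat (nat_lit 4957)) (nat_lit 500) (Int.ofNat (nat_lit 4090)) qL140_60_2_9 = true := by
 decide +kernel

def qL140_60_2_10 : PCt := .one ⟨2008000, 251, 2008000, -478708, 321480, 0, 0, 300000, 500000, 550000⟩ ⟨0,
 .pol, .pol, .pol, .pol, .sx 150000 (.sx 75000 (.sx 37500 (.aff 8000000 30243457 1620186) (.sx 56250 (.sy
 525000 (.sx 46875 (.aff 6700000 18847388 1723847) (.aff 6200000 16779731 1611469)) (.aff 6800000 17928996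
 1876291)) (.aff 6325000 16431291 1725709))) (.aff 1000000 0 0)) (.aff 1000000 0 0), .pol, .pol, .pol, .pol⟩

def hL140_60_2_10 : pcchk ⟨(nat_lit 3), (nat_lit 1000), Int.ofNat (nat_lit 1000), 0, ⟨0, 1⟩, ⟨Int.ofNat
 (nat_lit 60), 200⟩⟩ ⟨700000, 750000, 851343, 836787, 866153, 523861, 548266, 500544, 547722, 500000⟩ false
 (nat_lit 500) (Int.ofNat (nat_lit 4090)) (nat_lit 550) (Int.ofNat (nat_lit 2898)) qL140_60_2_10 = true :=
 by decide +kernel

def qL140_60_2_11 : PCt := .one ⟨2008000, 251, 2008000, -653404, 417563, 0, 0, 300000, 550000, 600000⟩ ⟨0,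
 .pol, .pol, .pol, .pol, .sx 150000 (.sx 75000 (.sy 575000 (.aff 7900000 18896429 2519524) (.aff 8000000
 19591665 2501064)) (.sy 575000 (.sx 112500 (.aff 7775000 18389859 2495975) (.aff 1000000 0 0)) (.sx 112500
 (.sx 93750 (.sx 84375 (.aff 8000000 18733215 2615675) (.aff 8000000 17978545 2725471)) (.aff 1000000 0 0))
 (.aff 1000000 0 0)))) (.aff 1000000 0 0), .pol, .pol, .pol, .pol⟩

def hL140_60_2_11 : pcchk ⟨(nat_lit 3), (nat_lit 1000), Int.ofNat (nat_lit 1000), 0, ⟨0, 1⟩, ⟨Int.ofNat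
 (nat_lit 60), 200⟩⟩ ⟨700000, 750000, 851343, 836787, 866153, 523861, 548266, 500544, 547722, 500000⟩ false
 (nat_lit 550) (Int.ofNat (nat_lit 2898)) (nat_lit 600) (Int.ofNat (nat_lit 1271)) qL140_60_2_11 = true :=
 by decide +kernel

def qL140_60_2_12 : PCt := .one ⟨2008000, 251, 2008000, -799586, 505273, 0, 0, 300000, 600000, 650000⟩ ⟨0,
 .pol, .pol, .pol, .pol, .sx 150000 (.sx 75000 (.aff 8000000 20207260 2424872) (.sx 112500 (.sx 93750 (.aff
 9700000 22463304 3369496) (.sy 625000 (.aff 8500000 18708287 3006689) (.aff 8838000 19006669 3232247)))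
 (.aff 8650000 18212051 3213395))) (.aff 1000000 0 0), .pol, .pol, .sx 150000 (.sx 75000 (.inf 3265987
 306187) .pol) .pol, .pol⟩

def hL140_60_2_12 : pcchk ⟨(nat_lit 3), (nat_lit 1000), Int.ofNat (nat_lit 1000), 0, ⟨0, 1⟩, ⟨Int.ofNat
 (nat_lit 60), 200⟩⟩ ⟨700000, 750000, 851343, 836787, 866153, 523861, 548266, 500544, 547722, 500000⟩ false
 (nat_lit 600) (Int.ofNat (nat_lit 1271)) (nat_lit 650) (Int.negSucc (nat_lit 719)) qL140_60_2_12 = true :=
 by decide +kernel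

def qL140_60_2_13 : PCt := .one ⟨2008000, 251, 2008000, -994362, 631877, 0, 0, 300000, 650000, 700000⟩ ⟨0,
 .pol, .pol, .pol, .pol, .sx 150000 (.sx 75000 (.aff 8000000 21000001 2333334) (.sx 112500 (.aff 12000000
 29516098 4099458) (.sx 131250 (.aff 10700000 21997533 4277298) (.sy 675000 (.aff 9900000 19647772 4031501)
 (.aff 10569000 20743688 4414151))))) (.sy 675000 (.aff 1000000 0 0) (.aff 10600000 20315916 4536345)),
 .pol, .pol, .sx 150000 (.sx 75000 (.inf 4242641 235703) .pol) .pol, .pol⟩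

def hL140_60_2_13 : pcchk ⟨(nat_lit 3), (nat_lit 1000), Int.ofNat (nat_lit 1000), 0, ⟨0, 1⟩, ⟨Int.ofNat
 (nat_lit 60), 200⟩⟩ ⟨700000, 750000, 851343, 836787, 866153, 523861, 548266, 500544, 547722, 500000⟩ false
 (nat_lit 650) (Int.negSucc (nat_lit 719)) (nat_lit 700) (Int.negSucc (nat_lit 3195)) qL140_60_2_13 = true
 := by decide +kernel

def qL140_60_2_14 : PCt := .one ⟨2008000, 251, 2008000, -1171066, 755570, 0, 0, 300000, 700000, 750000⟩ ⟨0,
 .pol, .pol, .pol, .pol, .sx 150000 (.aff 12000000 24183328 5003448) (.sx 225000 (.sx 187500 (.sx 168750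
 (.aff 11900000 22592985 5258712) (.sy 725000 (.sx 178125 (.sx 173437 (.aff 11600000 21484608 5229791) (.aff
 11400000 20800000 5200000)) (.aff 11600000 21061888 5334755)) (.aff 12000000 21815897 5546415))) (.sy
 725000 (.aff 1000000 0 0) (.aff 12000000 21290135 5683384))) (.aff 1000000 0 0)), .pol, .pol, .sx 150000
 (.inf 2487302 402043) .pol, .pol⟩

def hL140_60_2_14 : pcchk ⟨(nat_lit 3), (nat_lit 1000), Int.ofNat (nat_lit 1000), 0, ⟨0, 1⟩, ⟨Int.ofNat
 (nat_lit 60), 200⟩⟩ ⟨700000, 750000, 851343, 836787, 866153, 523861, 548266, 500544, 547722, 500000⟩ false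
 (nat_lit 700) (Int.negSucc (nat_lit 3195)) (nat_lit 750) (Int.negSucc (nat_lit 6111)) qL140_60_2_14 = true
 := by decide +kernel

def qL140_60_2_15 : PCt := .one ⟨2008000, 251, 2008000, -1419656, 942013, 0, 0, 300000, 750000, 800000⟩ ⟨0,
 .pol, .pol, .pol, .pol, .sx 150000 (.aff 12000000 25003334 4839355) (.sx 225000 (.sy 775000 (.aff 13103000
 22696486 6453978) (.aff 20000000 35545746 10155927)) (.sy 775000 (.sx 262500 (.sx 243750 (.aff 13550000
 22866252 6887990) (.aff 1000000 0 0)) (.aff 1000000 0 0)) (.sx 262500 (.aff 13400000 22729576 6764755)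
 (.aff 1000000 0 0)))), .pol, .pol, .sx 150000 (.inf 3214551 311086) .pol, .pol⟩

def hL140_60_2_15 : pcchk ⟨(nat_lit 3), (nat_lit 1000), Int.ofNat (nat_lit 1000), 0, ⟨0, 1⟩, ⟨Int.ofNat
 (nat_lit 60), 200⟩⟩ ⟨700000, 750000, 851343, 836787, 866153, 523861, 548266, 500544, 547722, 500000⟩ false
 (nat_lit 750) (Int.negSucc (nat_lit 6111)) (nat_lit 800) (Int.negSucc (nat_lit 9646)) qL140_60_2_15 = true
 := by decide +kernel

def qL140_60_2_16 : PCt := .one ⟨2008000, 251, 2008000, -1686720, 1155664, 0, 0, 300000, 800000, 850000⟩ ⟨0,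
 .pol, .pol, .pol, .pol, .sx 150000 (.aff 12000000 29788141 4062020) (.sx 225000 (.aff 20000000 39854737
 9057895) (.sx 262500 (.sx 243750 (.aff 20000000 35647160 10127034) (.sy 825000 (.sx 253125 (.aff 20000000
 34360282 10506317) (.sy 812500 (.aff 14200000 23449842 7430328) (.aff 20000000 33859246 10661785))) (.aff
 20000000 34560379 10445488))) (.sy 825000 (.sy 812500 (.sx 281250 (.aff 14200000 22929825 7598837) (.aff
 1000000 0 0)) (.sx 281250 (.sx 271875 (.sx 267187 (.aff 20000000 33406779 10806190) (.sy 818750 (.sy 815625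
 (.aff 14100000 22816136 7521432) (.aff 18000000 29473055 9805567)) (.aff 20000000 33178147 10880656))) (.sy
 818750 (.aff 14300000 22937619 7711786) (.sx 276562 (.sx 274218 (.aff 20000000 32963869 10951385) (.sy
 821875 (.sx 275390 (.aff 17700000 28822527 9676113) (.aff 14400000 23114765 7768195)) (.aff 20000000
 32854499 10987841))) (.sy 821875 (.aff 13600000 21654377 7331544) (.sx 278906 (.aff 17800000 28866603
 9777389) (.sy 823437 (.aff 12100000 19043529 6469915) (.sx 280078 (.aff 20000000 32627973 11064126) (.aff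
 13700000 21775010 7407115)))))))) (.aff 8000000 11845084 4136738))) (.sx 281250 (.aff 20000000 32786854
 11010511) (.sy 837500 (.sy 831250 (.sy 828125 (.sy 826562 (.sx 290625 (.aff 14400000 22865933 7852731)
 (.aff 1000000 0 0)) (.sx 290625 (.sx 285937 (.sx 283593 (.aff 20000000 32519785 11100935) (.aff 13600000
 21498962 7384543)) (.aff 3000000 3388168 1180580)) (.aff 1500000 836898 298723))) (.sx 290625 (.sx 285937
 (.aff 20000000 32431526 11131145) (.aff 14400000 22779211 7882626)) (.aff 3000000 3352327 1193202))) (.sx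
 290625 (.aff 19000000 30499075 10623274) (.sy 834375 (.aff 13000000 20232252 7117350) (.sy 835937 (.aff
 14200000 22286768 7818092) (.aff 18100000 28557828 10239225))))) (.aff 19200000 30522328 10852384)))))),
 .pol, .pol, .sx 150000 (.inf 3316625 301512) (.sx 225000 (.inf 2097618 476732) .pol), .pol⟩

def hL140_60_2_16 : pcchk ⟨(nat_lit 3), (nat_lit 1000), Int.ofNat (nat_lit 1000), 0, ⟨0, 1⟩, ⟨Int.ofNat
 (nat_lit 60), 200⟩⟩ ⟨700000, 750000, 851343, 836787, 866153, 523861, 548266, 500544, 547722, 500000⟩ false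
 (nat_lit 800) (Int.negSucc (nat_lit 9646)) (nat_lit 850) (Int.negSucc (nat_lit 13846)) qL140_60_2_16 = true
 := by decide +kernel

def qL140_60_2_17 : PCt := .one ⟨2008000, 251, 2008000, -6487045, 5235940, 0, 0, 300000, 850000, 900000⟩ ⟨0,
 .pol, .pol, .pol, .pol, .sx 150000 (.aff 20000000 64897355 5562631) (.inf 1577622 633866), .pol, .pol, .sx
 150000 (.inf 3415651 292770) (.inf 1577622 633866), .pol⟩

def hL140_60_2_17 : pcchk ⟨(nat_lit 3), (nat_lit 1000), Int.ofNat (nat_lit 1000), 0, ⟨0, 1⟩, ⟨Int.ofNat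
 (nat_lit 60), 200⟩⟩ ⟨700000, 750000, 851343, 836787, 866153, 523861, 548266, 500544, 547722, 500000⟩ false
 (nat_lit 850) (Int.negSucc (nat_lit 13846)) (nat_lit 900) (Int.negSucc (nat_lit 29999)) qL140_60_2_17 =
 true := by decide +kernel

def qL140_60_2_18 : PCt := .one ⟨2008000, 251, 2008000, 0, -602400, 0, 0, 300000, 900000, 950000⟩ ⟨0, .pol,
 .pol, .pol, .pol, .aff 37400000 63916300 20729611, .pol, .pol, .inf 1986622 503368, .pol⟩

def hL140_60_2_18 : pcchk ⟨(nat_lit 3), (nat_lit 1000), Int.ofNat (nat_lit 1000), 0, ⟨0, 1⟩, ⟨Int.ofNat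
 (nat_lit 60), 200⟩⟩ ⟨700000, 750000, 851343, 836787, 866153, 523861, 548266, 500544, 547722, 500000⟩ false
 (nat_lit 900) (Int.negSucc (nat_lit 29999)) (nat_lit 950) (Int.negSucc (nat_lit 29999)) qL140_60_2_18 =
 true := by decide +kernel

def qL140_60_2_19 : PCt := .one ⟨2008000, 251, 2008000, 0, -602400, 0, 0, 300000, 950000, 1000000⟩ ⟨0, .pol,
 .pol, .pol, .pol, .aff 35000000 70776644 16333072, .pol, .pol, .inf 2039608 490291, .pol⟩

def hL140_60_2_19 : pcchk ⟨(nat_lit 3), (nat_lit 1000), Int.ofNat (nat_lit 1000), 0, ⟨0, 1⟩, ⟨Int.ofNat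
 (nat_lit 60), 200⟩⟩ ⟨700000, 750000, 851343, 836787, 866153, 523861, 548266, 500544, 547722, 500000⟩ false
 (nat_lit 950) (Int.negSucc (nat_lit 29999)) (nat_lit 1000) (Int.negSucc (nat_lit 29999)) qL140_60_2_19 =
 true := by decide +kernel

def qL140_60_3_0 : PCt := .one ⟨2008000, 251, 441760, 1762622, 0, 0, 0, 300000, 0, 50000⟩ ⟨50000, .pol, .aff
 316228 3162276, .pol, .pol, .sy 25000 (.sx 175000 (.aff 0 218815 4570071) (.sx 237500 (.aff 0 153782
 6502712) (.sy 12500 (.sy 6250 (.sx 268750 (.sy 3125 (.aff 287000 62107 8185374) (.aff 375000 85052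
 4592779)) (.aff 375000 47256 8266147)) (.aff 1000000 0 0)) (.aff 1000000 0 0)))) .pol, .pol, .pol, .pol,
 .pol⟩

def hL140_60_3_0 : pcchk ⟨(nat_lit 1), (nat_lit 1000), Int.ofNat (nat_lit 220), 0, ⟨0, 1⟩, ⟨Int.ofNat
 (nat_lit 60), 200⟩⟩ ⟨700000, 750000, 851343, 836787, 866153, 523861, 548266, 500544, 547722, 500000⟩ true 0
 0 (nat_lit 50) (Int.ofNat (nat_lit 4389)) qL140_60_3_0 = true := by decide +kernel

def qL140_60_3_1 : PCt := .one ⟨2008000, 251, 441760, -1045365, 140399, 0, 0, 300000, 50000, 100000⟩ ⟨0,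
 .pol, .pol, .pol, .pol, .sy 75000 (.aff 1000000 0 0) (.sy 87500 (.aff 500000 367991 679365) (.sy 93750
 (.aff 500000 549622 454859) (.sy 96875 (.sx 150000 (.aff 375000 704571 554416) (.aff 1000000 0 0)) (.sy
 98437 (.sx 150000 (.aff 375000 768725 508147) (.aff 1000000 0 0)) (.sy 99218 (.sx 150000 (.sx 75000 (.aff
 250000 994121 565827) (.aff 1000000 0 0)) (.aff 1000000 0 0)) (.sx 150000 (.sx 75000 (.aff 300000 806709
 607407) (.aff 1000000 0 0)) (.aff 1000000 0 0))))))), .pol, .pol, .sx 150000 (.sy 75000 .pol (.sx 75000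
 .pol .pol)) .pol, .pol⟩

def hL140_60_3_1 : pcchk ⟨(nat_lit 1), (nat_lit 1000), Int.ofNat (nat_lit 220), 0, ⟨0, 1⟩, ⟨Int.ofNat
 (nat_lit 60), 200⟩⟩ ⟨700000, 750000, 851343, 836787, 866153, 523861, 548266, 500544, 547722, 500000⟩ false
 (nat_lit 50) (Int.ofNat (nat_lit 4389)) (nat_lit 100) (Int.ofNat (nat_lit 1786)) qL140_60_3_1 = true := by
 decide +kernel

def qL140_60_3_2 : PCt := .one ⟨2008000, 251, 441760, 92769, 26585, 0, 0, 300000, 100000, 150000⟩ ⟨0, .pol,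
 .pol, .pol, .pol, .sx 150000 (.sy 125000 (.sy 112500 (.sx 75000 (.sy 106250 (.sx 37500 (.aff 0 2345208
 426402) (.aff 375000 846255 461593)) (.sx 37500 (.aff 0 2415230 414040) (.aff 397000 862130 421757))) (.aff
 1000000 0 0)) (.sx 75000 (.sy 118750 (.sx 37500 (.aff 0 2027588 493197) (.sx 56250 (.aff 375000 935921
 417370) (.aff 1000000 0 0))) (.sx 37500 (.aff 250000 1912133 294175) (.sx 56250 (.aff 400000 928458 387740)
 (.aff 1000000 0 0)))) (.aff 1000000 0 0))) (.sx 75000 (.sx 37500 (.aff 375000 1381927 282667) (.aff 444000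
 905818 341279)) (.aff 1000000 0 0))) (.aff 1000000 0 0), .pol, .pol, .sx 150000 (.sx 75000 .pol .pol) .pol,
 .pol⟩

def hL140_60_3_2 : pcchk ⟨(nat_lit 1), (nat_lit 1000), Int.ofNat (nat_lit 220), 0, ⟨0, 1⟩, ⟨Int.ofNat
 (nat_lit 60), 200⟩⟩ ⟨700000, 750000, 851343, 836787, 866153, 523861, 548266, 500544, 547722, 500000⟩ false
 (nat_lit 100) (Int.ofNat (nat_lit 1786)) (nat_lit 150) (Int.ofNat (nat_lit 2017)) qL140_60_3_2 = true := by
 decide +kernel

def qL140_60_3_3 : PCt := .one ⟨2008000, 251, 441760, 11244, 38814, 0, 0, 300000, 150000, 200000⟩ ⟨0, .pol,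
 .pol, .pol, .pol, .sx 150000 (.sy 175000 (.sy 162500 (.sx 75000 (.sx 37500 (.aff 500000 1178512 212132)
 (.aff 1000000 0 0)) (.aff 1000000 0 0)) (.sx 75000 (.sx 37500 (.aff 550000 1188120 170438) (.aff 1000000 0
 0)) (.aff 1000000 0 0))) (.sx 75000 (.sy 187500 (.sx 37500 (.sy 181250 (.aff 575000 1215287 148628) (.aff
 613000 1244282 120366)) (.aff 1000000 0 0)) (.sx 37500 (.aff 606000 1235262 125671) (.aff 1000000 0 0)))
 (.aff 1000000 0 0))) (.aff 1000000 0 0), .pol, .pol, .sx 150000 .pol .pol, .pol⟩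

def hL140_60_3_3 : pcchk ⟨(nat_lit 1), (nat_lit 1000), Int.ofNat (nat_lit 220), 0, ⟨0, 1⟩, ⟨Int.ofNat
 (nat_lit 60), 200⟩⟩ ⟨700000, 750000, 851343, 836787, 866153, 523861, 548266, 500544, 547722, 500000⟩ false
 (nat_lit 150) (Int.ofNat (nat_lit 2017)) (nat_lit 200) (Int.ofNat (nat_lit 2045)) qL140_60_3_3 = true := by
 decide +kernel

def qL140_60_3_4 : PCt := .one ⟨2008000, 251, 441760, -34940, 48051, 0, 0, 300000, 200000, 250000⟩ ⟨0, .pol,
 .pol, .pol, .pol, .sx 150000 (.sy 225000 (.sy 212500 (.sy 206250 (.sx 75000 (.sx 37500 (.aff 638000 1284286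
 102037) (.aff 1000000 0 0)) (.aff 1000000 0 0)) (.sx 75000 (.sy 209375 (.sx 37500 (.sy 207812 (.sx 18750
 (.aff 625000 1301932 108013) (.aff 1000000 0 0)) (.sx 18750 (.aff 675000 1383350 76355) (.aff 1000000 0
 0))) (.aff 1000000 0 0)) (.sx 37500 (.sx 18750 (.aff 675000 1391101 75930) (.aff 1000000 0 0)) (.aff
 1000000 0 0))) (.aff 1000000 0 0))) (.sy 218750 (.sx 75000 (.sy 215625 (.sx 37500 (.sx 18750 (.aff 675000
 1401367 75373) (.aff 1000000 0 0)) (.aff 1000000 0 0)) (.sx 37500 (.aff 750000 1415614 44151) (.aff 1000000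
 0 0))) (.aff 1000000 0 0)) (.sx 75000 (.sx 37500 (.aff 750000 1413035 44232) (.aff 1000000 0 0)) (.aff
 1000000 0 0)))) (.sx 75000 (.sx 37500 (.aff 750000 1390643 44944) (.aff 1000000 0 0)) (.aff 1000000 0 0)))
 (.aff 1000000 0 0), .pol, .pol, .sx 150000 .pol .pol, .pol⟩

def hL140_60_3_4 : pcchk ⟨(nat_lit 1), (nat_lit 1000), Int.ofNat (nat_lit 220), 0, ⟨0, 1⟩, ⟨Int.ofNat
 (nat_lit 60), 200⟩⟩ ⟨700000, 750000, 851343, 836787, 866153, 523861, 548266, 500544, 547722, 500000⟩ false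
 (nat_lit 200) (Int.ofNat (nat_lit 2045)) (nat_lit 250) (Int.ofNat (nat_lit 1958)) qL140_60_3_4 = true := by
 decide +kernel

def qL140_60_3_5 : PCt := .one ⟨2008000, 251, 441760, -98392, 63914, 0, 0, 300000, 250000, 300000⟩ ⟨0, .pol,
 .pol, .pol, .pol, .sx 150000 (.sx 75000 (.sx 37500 (.sx 18750 (.aff 925000 1220299 4610) (.aff 1000000 0
 0)) (.aff 1000000 0 0)) (.aff 1000000 0 0)) (.aff 1000000 0 0), .pol, .pol, .sx 150000 .pol .pol, .pol⟩

def hL140_60_3_5 : pcchk ⟨(nat_lit 1), (nat_lit 1000), Int.ofNat (nat_lit 220), 0, ⟨0, 1⟩, ⟨Int.ofNat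
 (nat_lit 60), 200⟩⟩ ⟨700000, 750000, 851343, 836787, 866153, 523861, 548266, 500544, 547722, 500000⟩ false
 (nat_lit 250) (Int.ofNat (nat_lit 1958)) (nat_lit 300) (Int.ofNat (nat_lit 1713)) qL140_60_3_5 = true := by
 decide +kernel

def qL140_60_3_6 : PCt := .one ⟨2008000, 251, 441760, -146183, 78251, 0, 0, 300000, 300000, 350000⟩ ⟨0,
 .pol, .pol, .pol, .pol, .sx 150000 (.sx 75000 (.sx 37500 (.sx 18750 (.aff 1100000 1768806 5654) (.aff
 1000000 0 0)) (.aff 1000000 0 0)) (.aff 1000000 0 0)) (.aff 1000000 0 0), .pol, .pol, .pol, .pol⟩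

def hL140_60_3_6 : pcchk ⟨(nat_lit 1), (nat_lit 1000), Int.ofNat (nat_lit 220), 0, ⟨0, 1⟩, ⟨Int.ofNat
 (nat_lit 60), 200⟩⟩ ⟨700000, 750000, 851343, 836787, 866153, 523861, 548266, 500544, 547722, 500000⟩ false
 (nat_lit 300) (Int.ofNat (nat_lit 1713)) (nat_lit 350) (Int.ofNat (nat_lit 1349)) qL140_60_3_6 = true := by
 decide +kernel

def qL140_60_3_7 : PCt := .one ⟨2008000, 251, 441760, -206423, 99335, 0, 0, 300000, 350000, 400000⟩ ⟨0,
 .pol, .pol, .pol, .pol, .sx 150000 (.sx 75000 (.sx 37500 (.aff 1256000 2027619 32322) (.aff 1000000 0 0))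
 (.aff 1000000 0 0)) (.aff 1000000 0 0), .pol, .pol, .pol, .pol⟩

def hL140_60_3_7 : pcchk ⟨(nat_lit 1), (nat_lit 1000), Int.ofNat (nat_lit 220), 0, ⟨0, 1⟩, ⟨Int.ofNat
 (nat_lit 60), 200⟩⟩ ⟨700000, 750000, 851343, 836787, 866153, 523861, 548266, 500544, 547722, 500000⟩ false
 (nat_lit 350) (Int.ofNat (nat_lit 1349)) (nat_lit 400) (Int.ofNat (nat_lit 835)) qL140_60_3_7 = true := by
 decide +kernel

def qL140_60_3_8 : PCt := .one ⟨2008000, 251, 441760, -257426, 119737, 0, 0, 300000, 400000, 450000⟩ ⟨0,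
 .pol, .pol, .pol, .pol, .sx 150000 (.sy 425000 (.sx 75000 (.sy 412500 (.sx 37500 (.sx 18750 (.aff 1475000
 2324366 97070) (.aff 1000000 0 0)) (.aff 1000000 0 0)) (.sx 37500 (.sx 18750 (.aff 1500000 2362908 105802)
 (.aff 1000000 0 0)) (.aff 1000000 0 0))) (.aff 1000000 0 0)) (.sx 75000 (.sx 37500 (.aff 1475000 2294468
 98335) (.aff 1000000 0 0)) (.aff 1000000 0 0))) (.aff 1000000 0 0), .pol, .pol, .pol, .pol⟩

def hL140_60_3_8 : pcchk ⟨(nat_lit 1), (nat_lit 1000), Int.ofNat (nat_lit 220), 0, ⟨0, 1⟩, ⟨Int.ofNat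
 (nat_lit 60), 200⟩⟩ ⟨700000, 750000, 851343, 836787, 866153, 523861, 548266, 500544, 547722, 500000⟩ false
 (nat_lit 400) (Int.ofNat (nat_lit 835)) (nat_lit 450) (Int.ofNat (nat_lit 194)) qL140_60_3_8 = true := by
 decide +kernel

def qL140_60_3_9 : PCt := .one ⟨2008000, 251, 441760, -321280, 148471, 0, 0, 300000, 450000, 500000⟩ ⟨0,
 .pol, .pol, .pol, .pol, .sx 150000 (.sy 475000 (.sx 75000 (.sy 462500 (.sy 456250 (.sx 37500 (.aff 1463000
 2276090 94184) (.aff 1000000 0 0)) (.sy 459375 (.sx 37500 (.sx 18750 (.aff 1500000 2852874 87631) (.aff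
 1500000 2209827 113132)) (.aff 1000000 0 0)) (.sx 37500 (.sx 18750 (.aff 1500000 2479080 100844) (.aff
 1500000 2217356 112747)) (.aff 1000000 0 0)))) (.sx 37500 (.sx 18750 (.aff 2000000 7071068 141422) (.aff
 1600000 2427934 148275)) (.aff 1000000 0 0))) (.aff 1000000 0 0)) (.sx 75000 (.sx 37500 (.aff 1725000
 2614025 201079) (.aff 1550000 2166399 139633)) (.aff 1000000 0 0))) (.aff 1000000 0 0), .pol, .pol, .pol,
 .pol⟩

def hL140_60_3_9 : pcchk ⟨(nat_lit 1), (nat_lit 1000), Int.ofNat (nat_lit 220), 0, ⟨0, 1⟩, ⟨Int.ofNat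
 (nat_lit 60), 200⟩⟩ ⟨700000, 750000, 851343, 836787, 866153, 523861, 548266, 500544, 547722, 500000⟩ false
 (nat_lit 450) (Int.ofNat (nat_lit 194)) (nat_lit 500) (Int.negSucc (nat_lit 605)) qL140_60_3_9 = true := by
 decide +kernel

def qL140_60_3_10 : PCt := .one ⟨2008000, 251, 441760, -377103, 176382, 0, 0, 300000, 500000, 550000⟩ ⟨0,
 .pol, .pol, .pol, .pol, .sx 150000 (.sx 75000 (.sy 525000 (.sx 37500 (.aff 2000000 4268750 234261) (.sx
 56250 (.aff 1876000 2711111 283049) (.aff 1000000 0 0))) (.sx 37500 (.aff 2000000 4371626 228748) (.sx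
 56250 (.aff 1900000 2782086 291149) (.aff 1850000 2597296 278174)))) (.aff 1000000 0 0)) (.aff 1000000 0
 0), .pol, .pol, .pol, .pol⟩

def hL140_60_3_10 : pcchk ⟨(nat_lit 1), (nat_lit 1000), Int.ofNat (nat_lit 220), 0, ⟨0, 1⟩, ⟨Int.ofNat
 (nat_lit 60), 200⟩⟩ ⟨700000, 750000, 851343, 836787, 866153, 523861, 548266, 500544, 547722, 500000⟩ false
 (nat_lit 500) (Int.negSucc (nat_lit 605)) (nat_lit 550) (Int.negSucc (nat_lit 1544)) qL140_60_3_10 = true
 := by decide +kernel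

def qL140_60_3_11 : PCt := .one ⟨2008000, 251, 441760, -446178, 214374, 0, 0, 300000, 550000, 600000⟩ ⟨0,
 .pol, .pol, .pol, .pol, .sx 150000 (.sx 75000 (.aff 2000000 2892966 345667) (.aff 2050000 2733710 403299))
 (.aff 1000000 0 0), .pol, .pol, .pol, .pol⟩

def hL140_60_3_11 : pcchk ⟨(nat_lit 1), (nat_lit 1000), Int.ofNat (nat_lit 220), 0, ⟨0, 1⟩, ⟨Int.ofNat
 (nat_lit 60), 200⟩⟩ ⟨700000, 750000, 851343, 836787, 866153, 523861, 548266, 500544, 547722, 500000⟩ false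
 (nat_lit 550) (Int.negSucc (nat_lit 1544)) (nat_lit 600) (Int.negSucc (nat_lit 2655)) qL140_60_3_11 = true
 := by decide +kernel

def qL140_60_3_12 : PCt := .one ⟨2008000, 251, 441760, -503205, 248590, 0, 0, 300000, 600000, 650000⟩ ⟨0,
 .pol, .pol, .pol, .pol, .sy 625000 (.sx 150000 (.sy 612500 (.sx 75000 (.aff 3000000 6565906 609208) (.aff
 2125000 2860835 442398)) (.sx 75000 (.aff 3000000 6633250 603023) (.sx 112500 (.sx 93750 (.aff 3000000
 5416026 738549) (.aff 2100000 2757846 438749)) (.aff 1500000 1085621 230283)))) (.aff 1000000 0 0)) (.sx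
 150000 (.sy 637500 (.sx 75000 (.aff 3000000 6699918 597023) (.sx 112500 (.aff 2500000 3553168 633238) (.aff
 2000000 2193063 455984))) (.sx 75000 (.aff 3000000 6765928 591198) (.sx 112500 (.aff 3000000 4996969
 800486) (.aff 2100000 2528099 478621)))) (.aff 1000000 0 0)), .pol, .sy 625000 .pol (.sy 637500 (.sx 150000
 .pol (.aff 1000000 0 0)) (.sy 643750 (.sx 150000 .pol (.aff 1000000 0 0)) (.sy 646875 (.sx 150000 .pol
 (.aff 1000000 0 0)) (.sx 150000 (.sy 648437 (.sx 75000 .pol (.aff 2100000 2639300 458455)) (.sx 75000 .pol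
 (.sx 112500 .pol (.aff 2000000 2308013 433274)))) (.aff 1000000 0 0))))), .pol, .pol⟩

def hL140_60_3_12 : pcchk ⟨(nat_lit 1), (nat_lit 1000), Int.ofNat (nat_lit 220), 0, ⟨0, 1⟩, ⟨Int.ofNat
 (nat_lit 60), 200⟩⟩ ⟨700000, 750000, 851343, 836787, 866153, 523861, 548266, 500544, 547722, 500000⟩ false
 (nat_lit 600) (Int.negSucc (nat_lit 2655)) (nat_lit 650) (Int.negSucc (nat_lit 3908)) qL140_60_3_12 = true
 := by decide +kernel

def qL140_60_3_13 : PCt := .one ⟨2008000, 251, 441760, 175499, -192568, 0, 0, 300000, 650000, 700000⟩ ⟨0,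
 .pol, .pol, .pol, .pol, .sx 150000 (.aff 2900000 4030509 895669) (.aff 1000000 0 0), .pol, .sx 150000 (.sx
 75000 (.aff 3000000 8485282 471405) (.sx 112500 (.aff 3000000 5366564 745356) (.aff 2200000 2686341
 536046))) (.sx 225000 (.aff 2300000 2600000 650000) (.aff 1000000 0 0)), .pol, .pol⟩

def hL140_60_3_13 : pcchk ⟨(nat_lit 1), (nat_lit 1000), Int.ofNat (nat_lit 220), 0, ⟨0, 1⟩, ⟨Int.ofNat
 (nat_lit 60), 200⟩⟩ ⟨700000, 750000, 851343, 836787, 866153, 523861, 548266, 500544, 547722, 500000⟩ false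
 (nat_lit 650) (Int.negSucc (nat_lit 3908)) (nat_lit 700) (Int.negSucc (nat_lit 3471)) qL140_60_3_13 = true
 := by decide +kernel

def qL140_60_3_14 : PCt := .one ⟨2008000, 251, 441760, 164254, -184696, 0, 0, 300000, 700000, 750000⟩ ⟨0,
 .pol, .pol, .pol, .pol, .aff 1500000 1099243 227430, .pol, .sx 150000 (.aff 3000000 4396969 909718) (.sy
 725000 (.sx 225000 (.sx 187500 (.aff 2300000 2748690 614839) (.aff 2000000 1858641 538028)) (.aff 1000000 0
 0)) (.sy 737500 (.sx 225000 (.sx 187500 (.aff 2800000 3554716 911466) (.aff 2100000 2119974 570762)) (.aff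
 1000000 0 0)) (.sy 743750 (.sx 225000 (.sx 187500 (.aff 3000000 4189936 954669) (.aff 2200000 2327476
 618696)) (.aff 2000000 1679711 595341)) (.sy 746875 (.sx 225000 (.sx 187500 (.aff 3000000 4203174 951662)
 (.aff 2200000 2334830 616748)) (.aff 2000000 1685019 593466)) (.sx 225000 (.sx 187500 (.aff 3000000 4211976
 949674) (.aff 2631000 2993332 888696)) (.aff 2000000 1688547 592226)))))), .pol, .pol⟩

def hL140_60_3_14 : pcchk ⟨(nat_lit 1), (nat_lit 1000), Int.ofNat (nat_lit 220), 0, ⟨0, 1⟩, ⟨Int.ofNat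
 (nat_lit 60), 200⟩⟩ ⟨700000, 750000, 851343, 836787, 866153, 523861, 548266, 500544, 547722, 500000⟩ false
 (nat_lit 700) (Int.negSucc (nat_lit 3471)) (nat_lit 750) (Int.negSucc (nat_lit 3062)) qL140_60_3_14 = true
 := by decide +kernel

def qL140_60_3_15 : PCt := .one ⟨2008000, 251, 441760, 167065, -186805, 0, 0, 300000, 750000, 800000⟩ ⟨0,
 .pol, .pol, .pol, .pol, .aff 1000000 0 0, .pol, .sx 150000 (.aff 3000000 5249339 762001) (.sx 225000 (.sx
 187500 (.aff 3000000 4286068 933257) (.aff 2600000 2969475 862106)) (.sx 262500 (.aff 2525000 2754678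
 844246) (.aff 2500000 2532547 888434))), .pol, .pol⟩

def hL140_60_3_15 : pcchk ⟨(nat_lit 1), (nat_lit 1000), Int.ofNat (nat_lit 220), 0, ⟨0, 1⟩, ⟨Int.ofNat
 (nat_lit 60), 200⟩⟩ ⟨700000, 750000, 851343, 836787, 866153, 523861, 548266, 500544, 547722, 500000⟩ false
 (nat_lit 750) (Int.negSucc (nat_lit 3062)) (nat_lit 800) (Int.negSucc (nat_lit 2646)) qL140_60_3_15 = true
 := by decide +kernel

def qL140_60_3_16 : PCt := .one ⟨2008000, 251, 441760, 177507, -195158, 0, 0, 300000, 800000, 850000⟩ ⟨0,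
 .pol, .pol, .pol, .pol, .aff 1000000 0 0, .pol, .sx 150000 (.aff 3000000 5416026 738549) (.sx 225000 (.aff
 3000000 4195236 953463) (.sx 262500 (.aff 3000000 3679465 1087115) (.aff 2800000 2984963 1085441))), .pol,
 .pol⟩

def hL140_60_3_16 : pcchk ⟨(nat_lit 1), (nat_lit 1000), Int.ofNat (nat_lit 220), 0, ⟨0, 1⟩, ⟨Int.ofNat
 (nat_lit 60), 200⟩⟩ ⟨700000, 750000, 851343, 836787, 866153, 523861, 548266, 500544, 547722, 500000⟩ false
 (nat_lit 800) (Int.negSucc (nat_lit 2646)) (nat_lit 850) (Int.negSucc (nat_lit 2204)) qL140_60_3_16 = true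
 := by decide +kernel

def qL140_60_3_17 : PCt := .one ⟨2008000, 251, 441760, -11162472, 9443824, 0, 0, 300000, 850000, 900000⟩ ⟨0,
 .pol, .pol, .pol, .pol, .aff 1000000 0 0, .pol, .sx 150000 (.aff 20000000 64897355 5562631) (.inf 1577622
 633866), .sx 150000 (.inf 3415651 292770) (.inf 1577622 633866), .pol⟩

def hL140_60_3_17 : pcchk ⟨(nat_lit 1), (nat_lit 1000), Int.ofNat (nat_lit 220), 0, ⟨0, 1⟩, ⟨Int.ofNat
 (nat_lit 60), 200⟩⟩ ⟨700000, 750000, 851343, 836787, 866153, 523861, 548266, 500544, 547722, 500000⟩ false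
 (nat_lit 850) (Int.negSucc (nat_lit 2204)) (nat_lit 900) (Int.negSucc (nat_lit 29999)) qL140_60_3_17 = true
 := by decide +kernel

def qL140_60_3_18 : PCt := .one ⟨2008000, 251, 441760, 0, -602400, 0, 0, 300000, 900000, 950000⟩ ⟨0, .pol,
 .pol, .pol, .pol, .aff 1000000 0 0, .pol, .inf 1986622 503368, .inf 1986622 503368, .pol⟩

def hL140_60_3_18 : pcchk ⟨(nat_lit 1), (nat_lit 1000), Int.ofNat (nat_lit 220), 0, ⟨0, 1⟩, ⟨Int.ofNat
 (nat_lit 60), 200⟩⟩ ⟨700000, 750000, 851343, 836787, 866153, 523861, 548266, 500544, 547722, 500000⟩ false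
 (nat_lit 900) (Int.negSucc (nat_lit 29999)) (nat_lit 950) (Int.negSucc (nat_lit 29999)) qL140_60_3_18 =
 true := by decide +kernel

def qL140_60_3_19 : PCt := .one ⟨2008000, 251, 441760, 0, -602400, 0, 0, 300000, 950000, 1000000⟩ ⟨0, .pol,
 .pol, .pol, .pol, .aff 1000000 0 0, .pol, .aff 35000000 61294372 18859807, .inf 2039608 490291, .pol⟩

def hL140_60_3_19 : pcchk ⟨(nat_lit 1), (nat_lit 1000), Int.ofNat (nat_lit 220), 0, ⟨0, 1⟩, ⟨Int.ofNat
 (nat_lit 60), 200⟩⟩ ⟨700000, 750000, 851343, 836787, 866153, 523861, 548266, 500544, 547722, 500000⟩ false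
 (nat_lit 950) (Int.negSucc (nat_lit 29999)) (nat_lit 1000) (Int.negSucc (nat_lit 29999)) qL140_60_3_19 =
 true := by decide +kernel

def qL140_60_4_0 : PCt := .one ⟨2008000, 251, 502000, 404812, 0, 0, 0, 300000, 0, 50000⟩ ⟨50000, .aff
 1414214 707107, .pol, .pol, .pol, .sx 175000 (.sx 112500 .pol (.aff 100000 461892 1753657)) (.aff 250000
 261117 2154207), .aff 0 1414214 707107, .pol, .pol, .pol⟩

def hL140_60_4_0 : pcchk ⟨(nat_lit 1), (nat_lit 1000), Int.ofNat (nat_lit 250), 0, ⟨0, 1⟩, ⟨Int.ofNat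
 (nat_lit 60), 200⟩⟩ ⟨700000, 750000, 851343, 836787, 866153, 523861, 548266, 500544, 547722, 500000⟩ true 0
 0 (nat_lit 50) (Int.ofNat (nat_lit 1008)) qL140_60_4_0 = true := by decide +kernel

def qL140_60_4_1 : PCt := .one ⟨2008000, 251, 502000, 253811, 7550, 0, 0, 300000, 50000, 100000⟩ ⟨0, .pol,
 .pol, .pol, .pol, .sx 150000 (.sy 75000 (.sy 62500 (.sx 75000 (.aff 0 1000000 1000000) (.sx 112500 (.aff
 125000 677773 1129619) (.aff 250000 490991 1145643))) (.sx 75000 (.aff 0 957428 1044465) (.sx 112500 (.sx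
 93750 (.aff 125000 789838 969345) (.aff 200000 653198 979795)) (.aff 1000000 0 0)))) (.sx 75000 (.aff
 125000 945109 810092) (.sx 112500 (.aff 207000 768167 818636) (.aff 1000000 0 0)))) (.aff 1000000 0 0),
 .pol, .pol, .sy 75000 (.sy 62500 (.sx 150000 (.sy 56250 (.sy 53125 (.sy 51562 (.sx 75000 (.sx 37500 .pol
 .pol) .pol) (.sx 75000 (.sx 37500 .pol .pol) .pol)) (.sy 54687 (.sx 75000 (.sx 37500 .pol .pol) .pol) (.sx
 75000 (.sx 37500 .pol .pol) .pol))) (.sy 59375 (.sy 57812 (.sx 75000 (.sx 37500 .pol .pol) .pol) (.sx 75000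
 (.sx 37500 .pol .pol) .pol)) (.sy 60937 (.sx 75000 (.sx 37500 .pol .pol) .pol) (.sx 75000 (.sx 37500 .pol
 .pol) .pol)))) .pol) (.sx 150000 (.sy 68750 (.sy 65625 (.sy 64062 (.sx 75000 (.sx 37500 .pol .pol) .pol)
 (.sx 75000 (.sx 37500 .pol .pol) .pol)) (.sy 67187 (.sx 75000 (.sx 37500 .pol .pol) .pol) (.sx 75000 (.sx
 37500 .pol .pol) .pol))) (.sy 71875 (.sy 70312 (.sx 75000 (.sx 37500 .pol .pol) .pol) (.sx 75000 (.sx 37500
 .pol .pol) .pol)) (.sy 73437 (.sx 75000 (.sx 37500 .pol .pol) .pol) (.sx 75000 (.sx 37500 .pol .pol)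
 .pol)))) .pol)) (.sy 87500 (.sx 150000 (.sx 75000 .pol .pol) .pol) (.sx 150000 (.sx 75000 .pol .pol)
 .pol)), .pol⟩

def hL140_60_4_1 : pcchk ⟨(nat_lit 1), (nat_lit 1000), Int.ofNat (nat_lit 250), 0, ⟨0, 1⟩, ⟨Int.ofNat
 (nat_lit 60), 200⟩⟩ ⟨700000, 750000, 851343, 836787, 866153, 523861, 548266, 500544, 547722, 500000⟩ false
 (nat_lit 50) (Int.ofNat (nat_lit 1008)) (nat_lit 100) (Int.ofNat (nat_lit 1640)) qL140_60_4_1 = true := by
 decide +kernel

def qL140_60_4_2 : PCt := .one ⟨2008000, 251, 502000, 105620, 22369, 0, 0, 300000, 100000, 150000⟩ ⟨0, .pol,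
 .pol, .pol, .pol, .sx 150000 (.sy 125000 (.sy 112500 (.sx 75000 (.aff 250000 1030777 545705) (.aff 1000000
 0 0)) (.sx 75000 (.sx 37500 (.aff 250000 1541104 364999) (.aff 375000 994779 392676)) (.aff 1000000 0 0)))
 (.sy 137500 (.sx 75000 (.sx 37500 (.aff 250000 1620186 347183) (.aff 375000 1045826 373509)) (.aff 1000000
 0 0)) (.sx 75000 (.sx 37500 (.aff 375000 1412986 276454) (.aff 500000 875596 285520)) (.aff 1000000 0 0))))
 (.aff 1000000 0 0), .pol, .pol, .sy 125000 (.sy 112500 (.sx 150000 (.sx 75000 .pol .pol) .pol) (.sx 150000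
 (.sx 75000 .pol .pol) .pol)) (.sy 137500 (.sx 150000 (.sx 75000 .pol .pol) .pol) (.sx 150000 (.sx 75000
 .pol .pol) .pol)), .pol⟩

def hL140_60_4_2 : pcchk ⟨(nat_lit 1), (nat_lit 1000), Int.ofNat (nat_lit 250), 0, ⟨0, 1⟩, ⟨Int.ofNat
 (nat_lit 60), 200⟩⟩ ⟨700000, 750000, 851343, 836787, 866153, 523861, 548266, 500544, 547722, 500000⟩ false
 (nat_lit 100) (Int.ofNat (nat_lit 1640)) (nat_lit 150) (Int.ofNat (nat_lit 1903)) qL140_60_4_2 = true := by
 decide +kernel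

def qL140_60_4_3 : PCt := .one ⟨2008000, 251, 502000, 47388, 31103, 0, 0, 300000, 150000, 200000⟩ ⟨0, .pol,
 .pol, .pol, .pol, .sy 175000 (.sx 150000 (.sy 162500 (.sy 156250 (.sx 75000 (.sx 37500 (.aff 381000 1250830
 306326) (.aff 1000000 0 0)) (.aff 1000000 0 0)) (.sx 75000 (.sy 159375 (.sx 37500 (.sx 18750 (.aff 0
 3349959 298512) (.aff 500000 1297434 192689)) (.aff 1000000 0 0)) (.sx 37500 (.sx 18750 (.aff 500000
 1464867 170664) (.aff 500000 1310217 190809)) (.aff 1000000 0 0))) (.aff 1000000 0 0))) (.sx 75000 (.sy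
 168750 (.sx 37500 (.sx 18750 (.aff 500000 1486047 168232) (.aff 500000 1329161 188089)) (.aff 1000000 0 0))
 (.sx 37500 (.sx 18750 (.aff 500000 1748015 143020) (.aff 500000 1354007 184638)) (.aff 1000000 0 0))) (.aff
 1000000 0 0))) (.aff 1000000 0 0)) (.sx 150000 (.sy 187500 (.sx 75000 (.sy 181250 (.sx 37500 (.sx 18750
 (.aff 500000 1779514 140488) (.aff 550000 1240565 163233)) (.aff 1000000 0 0)) (.sx 37500 (.aff 519000
 1395522 165789) (.aff 1000000 0 0))) (.aff 1000000 0 0)) (.sx 75000 (.sx 37500 (.aff 519000 1395241 165822)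
 (.aff 1000000 0 0)) (.aff 1000000 0 0))) (.aff 1000000 0 0)), .pol, .pol, .sx 150000 .pol .pol, .pol⟩

def hL140_60_4_3 : pcchk ⟨(nat_lit 1), (nat_lit 1000), Int.ofNat (nat_lit 250), 0, ⟨0, 1⟩, ⟨Int.ofNat
 (nat_lit 60), 200⟩⟩ ⟨700000, 750000, 851343, 836787, 866153, 523861, 548266, 500544, 547722, 500000⟩ false
 (nat_lit 150) (Int.ofNat (nat_lit 1903)) (nat_lit 200) (Int.ofNat (nat_lit 2021)) qL140_60_4_3 = true := by
 decide +kernel

def qL140_60_4_4 : PCt := .one ⟨2008000, 251, 502000, -32128, 47007, 0, 0, 300000, 200000, 250000⟩ ⟨0, .pol,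
 .pol, .pol, .pol, .sy 225000 (.sy 212500 (.sx 150000 (.sy 206250 (.sx 75000 (.aff 675000 1443953 73150)
 (.aff 1000000 0 0)) (.sy 209375 (.sx 75000 (.sx 37500 (.aff 625000 1524844 92223) (.aff 1000000 0 0)) (.aff
 1000000 0 0)) (.sx 75000 (.sx 37500 (.aff 625000 1536267 91537) (.aff 1000000 0 0)) (.aff 1000000 0 0))))
 (.aff 1000000 0 0)) (.sx 150000 (.sy 218750 (.sy 215625 (.sx 75000 (.sx 37500 (.aff 619000 1495681 97054)
 (.aff 1000000 0 0)) (.aff 1000000 0 0)) (.sx 75000 (.sx 37500 (.aff 650000 1524300 80365) (.aff 1000000 0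
 0)) (.aff 1000000 0 0))) (.sx 75000 (.sy 221875 (.sy 220312 (.sx 37500 (.sx 18750 (.aff 744000 1687452
 38838) (.aff 1000000 0 0)) (.aff 1000000 0 0)) (.sx 37500 (.sx 18750 (.aff 750000 1695621 36860) (.aff
 1000000 0 0)) (.aff 1000000 0 0))) (.sx 37500 (.aff 750000 1668206 37466) (.aff 1000000 0 0))) (.aff
 1000000 0 0))) (.aff 1000000 0 0))) (.sx 150000 (.sy 237500 (.sx 75000 (.sx 37500 (.aff 750000 1634656
 38235) (.aff 1000000 0 0)) (.aff 1000000 0 0)) (.sx 75000 (.aff 750000 1562334 40005) (.aff 1000000 0 0)))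
 (.aff 1000000 0 0)), .pol, .pol, .sx 150000 .pol .pol, .pol⟩

def hL140_60_4_4 : pcchk ⟨(nat_lit 1), (nat_lit 1000), Int.ofNat (nat_lit 250), 0, ⟨0, 1⟩, ⟨Int.ofNat
 (nat_lit 60), 200⟩⟩ ⟨700000, 750000, 851343, 836787, 866153, 523861, 548266, 500544, 547722, 500000⟩ false
 (nat_lit 200) (Int.ofNat (nat_lit 2021)) (nat_lit 250) (Int.ofNat (nat_lit 1941)) qL140_60_4_4 = true := by
 decide +kernel

def qL140_60_4_5 : PCt := .one ⟨2008000, 251, 502000, -86344, 60561, 0, 0, 300000, 250000, 300000⟩ ⟨0, .pol,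
 .pol, .pol, .pol, .sx 150000 (.sx 75000 (.sx 37500 (.aff 875000 1665160 9384) (.aff 1000000 0 0)) (.aff
 1000000 0 0)) (.aff 1000000 0 0), .pol, .pol, .sx 150000 .pol .pol, .pol⟩

def hL140_60_4_5 : pcchk ⟨(nat_lit 1), (nat_lit 1000), Int.ofNat (nat_lit 250), 0, ⟨0, 1⟩, ⟨Int.ofNat
 (nat_lit 60), 200⟩⟩ ⟨700000, 750000, 851343, 836787, 866153, 523861, 548266, 500544, 547722, 500000⟩ false
 (nat_lit 250) (Int.ofNat (nat_lit 1941)) (nat_lit 300) (Int.ofNat (nat_lit 1726)) qL140_60_4_5 = true := by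
 decide +kernel

def qL140_60_4_6 : PCt := .one ⟨2008000, 251, 502000, -156624, 81645, 0, 0, 300000, 300000, 350000⟩ ⟨0,
 .pol, .pol, .pol, .pol, .sx 150000 (.sx 75000 (.sx 37500 (.sx 18750 (.aff 1100000 1600482 6249) (.aff
 1000000 0 0)) (.aff 1000000 0 0)) (.aff 1000000 0 0)) (.aff 1000000 0 0), .pol, .pol, .pol, .pol⟩

def hL140_60_4_6 : pcchk ⟨(nat_lit 1), (nat_lit 1000), Int.ofNat (nat_lit 250), 0, ⟨0, 1⟩, ⟨Int.ofNat
 (nat_lit 60), 200⟩⟩ ⟨700000, 750000, 851343, 836787, 866153, 523861, 548266, 500544, 547722, 500000⟩ false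
 (nat_lit 300) (Int.ofNat (nat_lit 1726)) (nat_lit 350) (Int.ofNat (nat_lit 1336)) qL140_60_4_6 = true := by
 decide +kernel

def qL140_60_4_7 : PCt := .one ⟨2008000, 251, 502000, -211242, 100761, 0, 0, 300000, 350000, 400000⟩ ⟨0,
 .pol, .pol, .pol, .pol, .sx 150000 (.sx 75000 (.aff 1300000 2239816 40182) (.aff 1000000 0 0)) (.aff
 1000000 0 0), .pol, .pol, .pol, .pol⟩

def hL140_60_4_7 : pcchk ⟨(nat_lit 1), (nat_lit 1000), Int.ofNat (nat_lit 250), 0, ⟨0, 1⟩, ⟨Int.ofNat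
 (nat_lit 60), 200⟩⟩ ⟨700000, 750000, 851343, 836787, 866153, 523861, 548266, 500544, 547722, 500000⟩ false
 (nat_lit 350) (Int.ofNat (nat_lit 1336)) (nat_lit 400) (Int.ofNat (nat_lit 810)) qL140_60_4_7 = true := by
 decide +kernel

def qL140_60_4_8 : PCt := .one ⟨2008000, 251, 502000, -273088, 125500, 0, 0, 300000, 400000, 450000⟩ ⟨0,
 .pol, .pol, .pol, .pol, .sx 150000 (.sx 75000 (.sy 425000 (.sy 412500 (.sx 37500 (.sx 18750 (.aff 1500000
 2687420 93027) (.aff 1000000 0 0)) (.aff 1000000 0 0)) (.sx 37500 (.aff 1544000 2570844 115113) (.aff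
 1000000 0 0))) (.sx 37500 (.aff 1525000 2535991 108686) (.aff 1000000 0 0))) (.aff 1000000 0 0)) (.aff
 1000000 0 0), .pol, .pol, .pol, .pol⟩

def hL140_60_4_8 : pcchk ⟨(nat_lit 1), (nat_lit 1000), Int.ofNat (nat_lit 250), 0, ⟨0, 1⟩, ⟨Int.ofNat
 (nat_lit 60), 200⟩⟩ ⟨700000, 750000, 851343, 836787, 866153, 523861, 548266, 500544, 547722, 500000⟩ false
 (nat_lit 400) (Int.ofNat (nat_lit 810)) (nat_lit 450) (Int.ofNat (nat_lit 130)) qL140_60_4_8 = true := by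
 decide +kernel

def qL140_60_4_9 : PCt := .one ⟨2008000, 251, 502000, -342967, 156945, 0, 0, 300000, 450000, 500000⟩ ⟨0,
 .pol, .pol, .pol, .pol, .sx 150000 (.sy 475000 (.sy 462500 (.sx 75000 (.sy 456250 (.sx 37500 (.aff 1525000
 2580880 106795) (.aff 1000000 0 0)) (.sy 459375 (.sx 37500 (.sx 18750 (.aff 2000000 6988086 143101) (.aff
 1600000 2651792 135758)) (.aff 1000000 0 0)) (.sx 37500 (.sx 18750 (.aff 2000000 7011895 142615) (.aff
 1600000 2660827 135297)) (.aff 1000000 0 0)))) (.aff 1000000 0 0)) (.sx 75000 (.sy 468750 (.sx 37500 (.sx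
 18750 (.aff 2000000 7047459 141896) (.aff 1575000 2562893 129005)) (.aff 1000000 0 0)) (.sx 37500 (.aff
 1813000 2883955 229189) (.aff 1000000 0 0))) (.aff 1000000 0 0))) (.sx 75000 (.sx 37500 (.aff 1800000
 2884442 221881) (.aff 1600000 2363344 152327)) (.aff 1000000 0 0))) (.aff 1000000 0 0), .pol, .pol, .pol,
 .pol⟩

def hL140_60_4_9 : pcchk ⟨(nat_lit 1), (nat_lit 1000), Int.ofNat (nat_lit 250), 0, ⟨0, 1⟩, ⟨Int.ofNat
 (nat_lit 60), 200⟩⟩ ⟨700000, 750000, 851343, 836787, 866153, 523861, 548266, 500544, 547722, 500000⟩ false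
 (nat_lit 450) (Int.ofNat (nat_lit 130)) (nat_lit 500) (Int.negSucc (nat_lit 723)) qL140_60_4_9 = true := by
 decide +kernel

def qL140_60_4_10 : PCt := .one ⟨2008000, 251, 502000, -406420, 188671, 0, 0, 300000, 500000, 550000⟩ ⟨0,
 .pol, .pol, .pol, .pol, .sx 150000 (.sx 75000 (.sx 37500 (.aff 2000000 4320494 231456) (.aff 1975000
 2978675 319144)) (.aff 1000000 0 0)) (.aff 1000000 0 0), .pol, .pol, .pol, .pol⟩

def hL140_60_4_10 : pcchk ⟨(nat_lit 1), (nat_lit 1000), Int.ofNat (nat_lit 250), 0, ⟨0, 1⟩, ⟨Int.ofNat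
 (nat_lit 60), 200⟩⟩ ⟨700000, 750000, 851343, 836787, 866153, 523861, 548266, 500544, 547722, 500000⟩ false
 (nat_lit 500) (Int.negSucc (nat_lit 723)) (nat_lit 550) (Int.negSucc (nat_lit 1735)) qL140_60_4_10 = true
 := by decide +kernel

def qL140_60_4_11 : PCt := .one ⟨2008000, 251, 502000, -478306, 228209, 0, 0, 300000, 550000, 600000⟩ ⟨0,
 .pol, .pol, .pol, .pol, .sx 150000 (.sy 575000 (.sx 75000 (.sx 37500 (.aff 2000000 4472136 223607) (.aff
 2100000 3220471 375722)) (.aff 1900000 2436395 332459)) (.sx 75000 (.aff 3000000 5597619 714590) (.sx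
 112500 (.aff 2200000 3166492 454762) (.aff 1000000 0 0)))) (.aff 1000000 0 0), .pol, .pol, .pol, .pol⟩

def hL140_60_4_11 : pcchk ⟨(nat_lit 1), (nat_lit 1000), Int.ofNat (nat_lit 250), 0, ⟨0, 1⟩, ⟨Int.ofNat
 (nat_lit 60), 200⟩⟩ ⟨700000, 750000, 851343, 836787, 866153, 523861, 548266, 500544, 547722, 500000⟩ false
 (nat_lit 550) (Int.negSucc (nat_lit 1735)) (nat_lit 600) (Int.negSucc (nat_lit 2926)) qL140_60_4_11 = true
 := by decide +kernel

def qL140_60_4_12 : PCt := .one ⟨2008000, 251, 502000, -541357, 266039, 0, 0, 300000, 600000, 650000⟩ ⟨0,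
 .pol, .pol, .pol, .pol, .sy 625000 (.sx 150000 (.sy 612500 (.sx 75000 (.aff 3000000 6565906 609208) (.aff
 2250000 3178706 491553)) (.sx 75000 (.aff 3000000 6633250 603023) (.sx 112500 (.sx 93750 (.aff 3000000
 5416026 738549) (.aff 2300000 3259273 518521)) (.aff 1500000 1085621 230283)))) (.aff 1000000 0 0)) (.sx
 150000 (.sx 75000 (.aff 3000000 6733004 594089) (.sx 112500 (.aff 2600000 3808762 672135) (.aff 2200000
 2744505 524685))) (.aff 1000000 0 0)), .pol, .sy 625000 .pol (.sy 637500 .pol (.sy 643750 (.sx 150000 .pol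
 (.aff 1000000 0 0)) (.sy 646875 (.sx 150000 .pol (.aff 1000000 0 0)) (.sx 150000 (.sx 75000 (.aff 3000000
 8316650 480963) (.sx 112500 (.aff 3000000 5259912 760469) (.aff 2200000 2767949 520241))) (.aff 1000000 0
 0))))), .pol, .pol⟩

def hL140_60_4_12 : pcchk ⟨(nat_lit 1), (nat_lit 1000), Int.ofNat (nat_lit 250), 0, ⟨0, 1⟩, ⟨Int.ofNat
 (nat_lit 60), 200⟩⟩ ⟨700000, 750000, 851343, 836787, 866153, 523861, 548266, 500544, 547722, 500000⟩ false
 (nat_lit 600) (Int.negSucc (nat_lit 2926)) (nat_lit 650) (Int.negSucc (nat_lit 4274)) qL140_60_4_12 = true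
 := by decide +kernel

def qL140_60_4_13 : PCt := .one ⟨2008000, 251, 502000, 130118, -170419, 0, 0, 300000, 650000, 700000⟩ ⟨0,
 .pol, .pol, .pol, .pol, .sx 150000 (.aff 2900000 4030509 895669) (.aff 1000000 0 0), .pol, .sx 150000 (.sx
 75000 (.aff 3000000 6928204 577351) (.sx 112500 (.aff 3000000 5366564 745356) (.sx 131250 (.aff 2800000
 4082017 793726) (.aff 2600000 3394113 754248)))) (.aff 2350000 2830835 643803), .pol, .pol⟩

def hL140_60_4_13 : pcchk ⟨(nat_lit 1), (nat_lit 1000), Int.ofNat (nat_lit 250), 0, ⟨0, 1⟩, ⟨Int.ofNat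
 (nat_lit 60), 200⟩⟩ ⟨700000, 750000, 851343, 836787, 866153, 523861, 548266, 500544, 547722, 500000⟩ false
 (nat_lit 650) (Int.negSucc (nat_lit 4274)) (nat_lit 700) (Int.negSucc (nat_lit 3950)) qL140_60_4_13 = true
 := by decide +kernel

def qL140_60_4_14 : PCt := .one ⟨2008000, 251, 502000, 113251, -158612, 0, 0, 300000, 700000, 750000⟩ ⟨0,
 .pol, .pol, .pol, .pol, .aff 1500000 1099243 227430, .pol, .sx 150000 (.aff 3000000 4396969 909718) (.sx
 225000 (.sx 187500 (.aff 2850000 3637811 940814) (.aff 2800000 3469818 933767)) (.aff 1500000 862317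
 289917)), .pol, .pol⟩

def hL140_60_4_14 : pcchk ⟨(nat_lit 1), (nat_lit 1000), Int.ofNat (nat_lit 250), 0, ⟨0, 1⟩, ⟨Int.ofNat
 (nat_lit 60), 200⟩⟩ ⟨700000, 750000, 851343, 836787, 866153, 523861, 548266, 500544, 547722, 500000⟩ false
 (nat_lit 700) (Int.negSucc (nat_lit 3950)) (nat_lit 750) (Int.negSucc (nat_lit 3668)) qL140_60_4_14 = true
 := by decide +kernel

def qL140_60_4_15 : PCt := .one ⟨2008000, 251, 502000, 95982, -145661, 0, 0, 300000, 750000, 800000⟩ ⟨0,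
 .pol, .pol, .pol, .pol, .aff 1000000 0 0, .pol, .sx 150000 (.aff 3000000 5249339 762001) (.sx 225000 (.aff
 2900000 3683049 980167) (.sx 262500 (.aff 3000000 3566224 1121635) (.aff 3000000 3319974 1204829))), .pol,
 .pol⟩

def hL140_60_4_15 : pcchk ⟨(nat_lit 1), (nat_lit 1000), Int.ofNat (nat_lit 250), 0, ⟨0, 1⟩, ⟨Int.ofNat
 (nat_lit 60), 200⟩⟩ ⟨700000, 750000, 851343, 836787, 866153, 523861, 548266, 500544, 547722, 500000⟩ false
 (nat_lit 750) (Int.negSucc (nat_lit 3668)) (nat_lit 800) (Int.negSucc (nat_lit 3429)) qL140_60_4_15 = true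
 := by decide +kernel

def qL140_60_4_16 : PCt := .one ⟨2008000, 251, 502000, 75902, -129597, 0, 0, 300000, 800000, 850000⟩ ⟨0,
 .pol, .pol, .pol, .pol, .aff 1000000 0 0, .pol, .sx 150000 (.aff 3000000 5416026 738549) (.sx 225000 (.aff
 3000000 4000000 1000000) (.aff 3134000 3689771 1234212)), .pol, .pol⟩

def hL140_60_4_16 : pcchk ⟨(nat_lit 1), (nat_lit 1000), Int.ofNat (nat_lit 250), 0, ⟨0, 1⟩, ⟨Int.ofNat
 (nat_lit 60), 200⟩⟩ ⟨700000, 750000, 851343, 836787, 866153, 523861, 548266, 500544, 547722, 500000⟩ false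
 (nat_lit 800) (Int.negSucc (nat_lit 3429)) (nat_lit 850) (Int.negSucc (nat_lit 3240)) qL140_60_4_16 = true
 := by decide +kernel

def qL140_60_4_17 : PCt := .one ⟨2008000, 251, 502000, -10746415, 9069372, 0, 0, 300000, 850000, 900000⟩ ⟨0,
 .pol, .pol, .pol, .pol, .aff 1000000 0 0, .pol, .sx 150000 (.aff 20000000 64897355 5562631) (.inf 1577622
 633866), .sx 150000 (.inf 3415651 292770) (.inf 1577622 633866), .pol⟩

def hL140_60_4_17 : pcchk ⟨(nat_lit 1), (nat_lit 1000), Int.ofNat (nat_lit 250), 0, ⟨0, 1⟩, ⟨Int.ofNat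
 (nat_lit 60), 200⟩⟩ ⟨700000, 750000, 851343, 836787, 866153, 523861, 548266, 500544, 547722, 500000⟩ false
 (nat_lit 850) (Int.negSucc (nat_lit 3240)) (nat_lit 900) (Int.negSucc (nat_lit 29999)) qL140_60_4_17 = true
 := by decide +kernel

def qL140_60_4_18 : PCt := .one ⟨2008000, 251, 502000, 0, -602400, 0, 0, 300000, 900000, 950000⟩ ⟨0, .pol,
 .pol, .pol, .pol, .aff 1000000 0 0, .pol, .inf 1986622 503368, .inf 1986622 503368, .pol⟩

def hL140_60_4_18 : pcchk ⟨(nat_lit 1), (nat_lit 1000), Int.ofNat (nat_lit 250), 0, ⟨0, 1⟩, ⟨Int.ofNat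
 (nat_lit 60), 200⟩⟩ ⟨700000, 750000, 851343, 836787, 866153, 523861, 548266, 500544, 547722, 500000⟩ false
 (nat_lit 900) (Int.negSucc (nat_lit 29999)) (nat_lit 950) (Int.negSucc (nat_lit 29999)) qL140_60_4_18 =
 true := by decide +kernel

def qL140_60_4_19 : PCt := .one ⟨2008000, 251, 502000, 0, -602400, 0, 0, 300000, 950000, 1000000⟩ ⟨0, .pol,
 .pol, .pol, .pol, .aff 1000000 0 0, .pol, .aff 35000000 61294372 18859807, .inf 2039608 490291, .pol⟩

def hL140_60_4_19 : pcchk ⟨(nat_lit 1), (nat_lit 1000), Int.ofNat (nat_lit 250), 0, ⟨0, 1⟩, ⟨Int.ofNat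
 (nat_lit 60), 200⟩⟩ ⟨700000, 750000, 851343, 836787, 866153, 523861, 548266, 500544, 547722, 500000⟩ false
 (nat_lit 950) (Int.negSucc (nat_lit 29999)) (nat_lit 1000) (Int.negSucc (nat_lit 29999)) qL140_60_4_19 =
 true := by decide +kernel

def qL140_60_5_0 : PCt := .one ⟨2008000, 251, 803200, 175499, 0, 0, 0, 300000, 0, 50000⟩ ⟨12500, .aff
 2000000 500000, .pol, .pol, .pol, .aff 0 1635261 611524, .aff 0 2236068 447214, .pol, .pol, .pol⟩

def hL140_60_5_0 : pcchk ⟨(nat_lit 1), (nat_lit 1000), Int.ofNat (nat_lit 400), 0, ⟨0, 1⟩, ⟨Int.ofNat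
 (nat_lit 60), 200⟩⟩ ⟨700000, 750000, 851343, 836787, 866153, 523861, 548266, 500544, 547722, 500000⟩ true 0
 0 (nat_lit 50) (Int.ofNat (nat_lit 437)) qL140_60_5_0 = true := by decide +kernel

def qL140_60_5_1 : PCt := .one ⟨2008000, 251, 803200, 209635, -1707, 0, 0, 300000, 50000, 100000⟩ ⟨0, .pol,
 .pol, .pol, .pol, .sy 75000 (.sx 150000 (.sx 75000 (.sx 37500 (.aff 0 2229967 448438) (.aff 0 1054093
 948683)) .pol) .pol) (.sy 87500 (.sy 81250 (.sx 150000 (.sx 75000 (.aff 0 2145899 466006) .pol) .pol) (.sy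
 84375 (.sx 150000 (.sx 75000 (.aff 0 2154789 464083) .pol) .pol) (.sx 150000 (.sx 75000 (.aff 0 2140873
 467100) .pol) .pol))) (.sy 93750 (.sy 90625 (.sx 150000 (.sx 75000 (.sx 37500 (.aff 0 2179450 458832) (.aff
 0 1258306 794720)) .pol) .pol) (.sx 150000 (.sy 92187 (.sx 75000 (.sx 37500 (.aff 0 2207938 452912) (.aff 0
 1274754 784466)) .pol) (.sx 75000 (.sx 37500 (.aff 0 2226729 449090) (.aff 0 1285603 777846)) (.aff 0
 909059 1100039))) .pol)) (.sx 150000 (.sx 75000 (.sx 37500 (.aff 0 2189371 456753) (.aff 0 1312335 762001))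
 (.aff 0 927961 1077632)) .pol))), .pol, .pol, .sx 150000 (.sx 75000 (.sx 37500 .pol .pol) .pol) .pol, .pol⟩

def hL140_60_5_1 : pcchk ⟨(nat_lit 1), (nat_lit 1000), Int.ofNat (nat_lit 400), 0, ⟨0, 1⟩, ⟨Int.ofNat
 (nat_lit 60), 200⟩⟩ ⟨700000, 750000, 851343, 836787, 866153, 523861, 548266, 500544, 547722, 500000⟩ false
 (nat_lit 50) (Int.ofNat (nat_lit 437)) (nat_lit 100) (Int.ofNat (nat_lit 959)) qL140_60_5_1 = true := by
 decide +kernel

def qL140_60_5_2 : PCt := .one ⟨2008000, 251, 803200, 237345, -4478, 0, 0, 300000, 100000, 150000⟩ ⟨0, .pol,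
 .pol, .pol, .pol, .sy 125000 (.sy 112500 (.sx 150000 (.sx 75000 (.sx 37500 (.sx 18750 (.aff 0 2380477
 420084) (.aff 0 2129163 469669)) (.aff 0 1374369 727607)) (.aff 0 971826 1028991)) .pol) (.sx 150000 (.sx
 75000 (.sy 118750 (.sx 37500 (.aff 19000 2198255 437785) (.aff 0 1433721 697486)) (.sy 121875 (.sy 120312
 (.sx 37500 (.aff 31000 2207737 425305) (.aff 0 1457737 685995)) (.sx 37500 (.aff 35000 2212947 420808)
 (.aff 0 1607274 622172))) (.sx 37500 (.aff 41000 2220370 414202) (.aff 0 1622755 616236)))) (.aff 0 1027403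
 973328)) .pol)) (.sy 137500 (.sy 131250 (.sx 150000 (.sy 128125 (.sx 75000 (.sx 37500 (.aff 13000 2201092
 442585) (.aff 0 1643168 608581)) (.aff 0 1060661 942809)) (.sx 75000 (.sx 37500 (.aff 0 2174361 459906)
 (.aff 0 1663330 601204)) (.aff 0 1073675 931381))) .pol) (.sy 134375 (.sy 132812 (.sx 150000 (.sy 132031
 (.sx 75000 (.sx 37500 (.aff 0 2163459 462223) (.aff 0 1675808 596728)) (.aff 0 1081730 924446)) (.sx 75000
 (.sx 37500 (.aff 3000 2163357 459476) (.aff 0 1680772 594965)) (.aff 0 1084934 921716))) .pol) (.sx 150000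
 (.sx 75000 (.sx 37500 (.aff 132000 2316924 325183) (.aff 0 1688193 592350)) (.aff 0 1089724 917664)) .pol))
 (.sx 150000 (.sx 75000 (.sx 37500 (.aff 138000 2321007 320139) (.aff 1000000 0 0)) (.aff 0 1099243 909717))
 .pol))) (.sy 143750 (.sy 140625 (.sx 150000 (.sx 75000 (.aff 162000 2282173 307709) (.aff 0 1111806
 899438)) .pol) (.sx 150000 (.sx 75000 (.aff 175000 2271873 299588) (.aff 0 1124229 889499)) .pol)) (.sy
 146875 (.sx 150000 (.sx 75000 (.aff 200000 2227106 287369) (.aff 0 1136516 879883)) .pol) (.sx 150000 (.sx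
 75000 (.aff 200000 2250926 284328) (.aff 0 1148671 870572)) .pol)))), .pol, .pol, .sx 150000 (.sx 75000
 .pol .pol) .pol, .pol⟩

def hL140_60_5_2 : pcchk ⟨(nat_lit 1), (nat_lit 1000), Int.ofNat (nat_lit 400), 0, ⟨0, 1⟩, ⟨Int.ofNat
 (nat_lit 60), 200⟩⟩ ⟨700000, 750000, 851343, 836787, 866153, 523861, 548266, 500544, 547722, 500000⟩ false
 (nat_lit 100) (Int.ofNat (nat_lit 959)) (nat_lit 150) (Int.ofNat (nat_lit 1550)) qL140_60_5_2 = true := by
 decide +kernel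

def qL140_60_5_3 : PCt := .one ⟨2008000, 251, 803200, 107628, 14979, 0, 0, 300000, 150000, 200000⟩ ⟨0, .pol,
 .pol, .pol, .pol, .sy 175000 (.sy 162500 (.sy 156250 (.sy 153125 (.sy 151562 (.sy 150781 (.sx 150000 (.sx
 75000 (.aff 200000 2265686 282476) (.aff 0 1156203 864901)) .pol) (.sx 150000 (.sx 75000 (.aff 200000
 2271561 281745) (.aff 0 1159201 862664)) .pol)) (.sy 152343 (.sx 150000 (.sx 75000 (.aff 200000 2277421
 281020) (.aff 0 1162192 860444)) .pol) (.sy 152734 (.sx 150000 (.sx 75000 (.aff 200000 2281808 280480)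
 (.aff 0 1164431 858789)) .pol) (.sx 150000 (.sx 75000 (.aff 200000 2284731 280121) (.aff 0 1165922 857691))
 .pol)))) (.sx 150000 (.sx 75000 (.aff 200000 2297826 278525) (.aff 0 1172604 852803)) .pol)) (.sy 159375
 (.sx 150000 (.sx 75000 (.aff 200000 2320920 275753) (.aff 0 1297434 770753)) .pol) (.sy 160937 (.sy 160156
 (.sx 150000 (.sx 75000 (.aff 200000 2335237 274063) (.aff 0 1305437 766028)) (.aff 0 842656 1186724)) (.sx
 150000 (.sx 75000 (.aff 225000 2267783 264852) (.aff 0 1308624 764162)) (.aff 0 844713 1183835))) (.sy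
 161718 (.sx 150000 (.sx 75000 (.aff 225000 2273293 264210) (.aff 0 1311803 762310)) (.aff 0 846766
 1180964)) (.sx 150000 (.sx 75000 (.aff 225000 2278792 263572) (.aff 1000000 0 0)) (.aff 0 848814
 1178115)))))) (.sy 168750 (.sy 165625 (.sy 164062 (.sy 163281 (.sx 150000 (.sx 75000 (.aff 225000 2284278
 262939) (.aff 1000000 0 0)) (.aff 0 850858 1175285)) (.sx 150000 (.sx 75000 (.aff 225000 2289748 262311)
 (.aff 1000000 0 0)) (.aff 0 852895 1172478))) (.sy 164843 (.sx 150000 (.sx 75000 (.aff 225000 2295205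
 261687) (.aff 1000000 0 0)) (.aff 0 854927 1169691)) (.sx 150000 (.sx 75000 (.aff 225000 2300652 261068)
 (.aff 1000000 0 0)) (.aff 0 856956 1166922)))) (.sx 150000 (.sy 167187 (.sx 75000 (.aff 219000 2326671
 262161) (.aff 1000000 0 0)) (.sx 75000 (.sx 37500 (.aff 250000 2359877 238360) (.aff 1000000 0 0)) (.aff
 1000000 0 0))) (.aff 0 862007 1160084))) (.sy 171875 (.sx 150000 (.sy 170312 (.sx 75000 (.sx 37500 (.aff
 300000 2326224 210642) (.aff 1000000 0 0)) (.aff 1000000 0 0)) (.sx 75000 (.sx 37500 (.aff 300000 2336919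
 209678) (.aff 1000000 0 0)) (.aff 1000000 0 0))) (.aff 0 870026 1149391)) (.sx 150000 (.sy 173437 (.sx
 75000 (.sx 37500 (.aff 300000 2347566 208727) (.aff 1000000 0 0)) (.aff 1000000 0 0)) (.sx 75000 (.sx 37500
 (.sx 18750 (.aff 250000 2639838 213082) (.aff 500000 1363207 183392)) (.aff 1000000 0 0)) (.aff 1000000 0
 0))) (.aff 0 877972 1138989))))) (.sx 150000 (.sx 75000 (.sx 37500 (.aff 325000 2479979 183722) (.aff
 1000000 0 0)) (.aff 1000000 0 0)) (.aff 1000000 0 0)), .pol, .pol, .sx 150000 .pol .pol, .pol⟩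

def hL140_60_5_3 : pcchk ⟨(nat_lit 1), (nat_lit 1000), Int.ofNat (nat_lit 400), 0, ⟨0, 1⟩, ⟨Int.ofNat
 (nat_lit 60), 200⟩⟩ ⟨700000, 750000, 851343, 836787, 866153, 523861, 548266, 500544, 547722, 500000⟩ false
 (nat_lit 150) (Int.ofNat (nat_lit 1550)) (nat_lit 200) (Int.ofNat (nat_lit 1818)) qL140_60_5_3 = true := by
 decide +kernel

def qL140_60_5_4 : PCt := .one ⟨2008000, 251, 803200, 40561, 28393, 0, 0, 300000, 200000, 250000⟩ ⟨0, .pol,
 .pol, .pol, .pol, .sy 225000 (.sx 150000 (.sy 212500 (.sy 206250 (.sx 75000 (.aff 388000 2460319 152234)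
 (.aff 1000000 0 0)) (.sy 209375 (.sx 75000 (.aff 438000 2525573 125059) (.aff 1000000 0 0)) (.sx 75000 (.sx
 37500 (.aff 463000 2547215 113210) (.aff 1000000 0 0)) (.aff 1000000 0 0)))) (.sy 218750 (.sx 75000 (.sx
 37500 (.aff 462000 2580158 112181) (.aff 1000000 0 0)) (.aff 1000000 0 0)) (.sx 75000 (.sy 221875 (.sy
 220312 (.sx 37500 (.sy 219531 (.aff 488000 2602319 100735) (.aff 522000 2656389 86014)) (.aff 1000000 0 0))
 (.sx 37500 (.aff 519000 2646880 87409) (.aff 1000000 0 0))) (.sx 37500 (.sx 18750 (.aff 468000 2597192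
 108974) (.aff 1000000 0 0)) (.aff 1000000 0 0))) (.aff 1000000 0 0)))) (.aff 1000000 0 0)) (.sx 150000 (.sy
 237500 (.sx 75000 (.sx 37500 (.aff 500000 2610598 95764) (.aff 1000000 0 0)) (.aff 1000000 0 0)) (.sx 75000
 (.aff 522000 2571091 88867) (.aff 1000000 0 0))) (.aff 1000000 0 0)), .pol, .pol, .sx 150000 .pol .pol,
 .pol⟩

def hL140_60_5_4 : pcchk ⟨(nat_lit 1), (nat_lit 1000), Int.ofNat (nat_lit 400), 0, ⟨0, 1⟩, ⟨Int.ofNat
 (nat_lit 60), 200⟩⟩ ⟨700000, 750000, 851343, 836787, 866153, 523861, 548266, 500544, 547722, 500000⟩ false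
 (nat_lit 200) (Int.ofNat (nat_lit 1818)) (nat_lit 250) (Int.ofNat (nat_lit 1919)) qL140_60_5_4 = true := by
 decide +kernel

def qL140_60_5_5 : PCt := .one ⟨2008000, 251, 803200, -78312, 58111, 0, 0, 300000, 250000, 300000⟩ ⟨0, .pol,
 .pol, .pol, .pol, .sx 150000 (.sx 75000 (.sx 37500 (.aff 875000 2886143 5414) (.aff 1000000 0 0)) (.aff
 1000000 0 0)) (.aff 1000000 0 0), .pol, .pol, .sx 150000 .pol .pol, .pol⟩

def hL140_60_5_5 : pcchk ⟨(nat_lit 1), (nat_lit 1000), Int.ofNat (nat_lit 400), 0, ⟨0, 1⟩, ⟨Int.ofNat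
 (nat_lit 60), 200⟩⟩ ⟨700000, 750000, 851343, 836787, 866153, 523861, 548266, 500544, 547722, 500000⟩ false
 (nat_lit 250) (Int.ofNat (nat_lit 1919)) (nat_lit 300) (Int.ofNat (nat_lit 1724)) qL140_60_5_5 = true := by
 decide +kernel

def qL140_60_5_6 : PCt := .one ⟨2008000, 251, 803200, -165861, 84376, 0, 0, 300000, 300000, 350000⟩ ⟨0,
 .pol, .pol, .pol, .pol, .sx 150000 (.sx 75000 (.sx 37500 (.sx 18750 (.aff 1150000 2653208 8481) (.aff
 1000000 0 0)) (.aff 1000000 0 0)) (.aff 1000000 0 0)) (.aff 1000000 0 0), .pol, .pol, .pol, .pol⟩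

def hL140_60_5_6 : pcchk ⟨(nat_lit 1), (nat_lit 1000), Int.ofNat (nat_lit 400), 0, ⟨0, 1⟩, ⟨Int.ofNat
 (nat_lit 60), 200⟩⟩ ⟨700000, 750000, 851343, 836787, 866153, 523861, 548266, 500544, 547722, 500000⟩ false
 (nat_lit 300) (Int.ofNat (nat_lit 1724)) (nat_lit 350) (Int.ofNat (nat_lit 1311)) qL140_60_5_6 = true := by
 decide +kernel

def qL140_60_5_7 : PCt := .one ⟨2008000, 251, 803200, -267064, 119797, 0, 0, 300000, 350000, 400000⟩ ⟨0,
 .pol, .pol, .pol, .pol, .sx 150000 (.sx 75000 (.sx 37500 (.sx 18750 (.sx 9375 (.aff 1500000 3651484 68466)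
 (.aff 1500000 2828428 88389)) (.aff 1000000 0 0)) (.aff 1000000 0 0)) (.aff 1000000 0 0)) (.aff 1000000 0
 0), .pol, .pol, .pol, .pol⟩

def hL140_60_5_7 : pcchk ⟨(nat_lit 1), (nat_lit 1000), Int.ofNat (nat_lit 400), 0, ⟨0, 1⟩, ⟨Int.ofNat
 (nat_lit 60), 200⟩⟩ ⟨700000, 750000, 851343, 836787, 866153, 523861, 548266, 500544, 547722, 500000⟩ false
 (nat_lit 350) (Int.ofNat (nat_lit 1311)) (nat_lit 400) (Int.ofNat (nat_lit 646)) qL140_60_5_7 = true := by
 decide +kernel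

def qL140_60_5_8 : PCt := .one ⟨2008000, 251, 803200, -350597, 153210, 0, 0, 300000, 400000, 450000⟩ ⟨0,
 .pol, .pol, .pol, .pol, .sx 150000 (.sx 75000 (.sy 425000 (.sy 412500 (.aff 1650000 3695459 114330) (.sy
 418750 (.sx 37500 (.sx 18750 (.aff 1826000 3987380 171109) (.aff 1000000 0 0)) (.aff 1000000 0 0)) (.sx
 37500 (.sx 18750 (.aff 1850000 4031905 179196) (.aff 1000000 0 0)) (.aff 1000000 0 0)))) (.sx 37500 (.sx
 18750 (.aff 1900000 4347414 186318) (.aff 1800000 3853822 166069)) (.aff 1000000 0 0))) (.aff 1000000 0 0))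
 (.aff 1000000 0 0), .pol, .pol, .pol, .pol⟩

def hL140_60_5_8 : pcchk ⟨(nat_lit 1), (nat_lit 1000), Int.ofNat (nat_lit 400), 0, ⟨0, 1⟩, ⟨Int.ofNat
 (nat_lit 60), 200⟩⟩ ⟨700000, 750000, 851343, 836787, 866153, 523861, 548266, 500544, 547722, 500000⟩ false
 (nat_lit 400) (Int.ofNat (nat_lit 646)) (nat_lit 450) (Int.negSucc (nat_lit 226)) qL140_60_5_8 = true := by
 decide +kernel

def qL140_60_5_9 : PCt := .one ⟨2008000, 251, 803200, -450596, 198209, 0, 0, 300000, 450000, 500000⟩ ⟨0,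
 .pol, .pol, .pol, .pol, .sx 150000 (.sx 75000 (.sx 37500 (.sy 475000 (.aff 2025000 4156555 252764) (.aff
 2050000 4158299 265133)) (.aff 2100000 3869888 312671)) (.aff 1000000 0 0)) (.aff 1000000 0 0), .pol, .pol,
 .pol, .pol⟩

def hL140_60_5_9 : pcchk ⟨(nat_lit 1), (nat_lit 1000), Int.ofNat (nat_lit 400), 0, ⟨0, 1⟩, ⟨Int.ofNat
 (nat_lit 60), 200⟩⟩ ⟨700000, 750000, 851343, 836787, 866153, 523861, 548266, 500544, 547722, 500000⟩ false
 (nat_lit 450) (Int.negSucc (nat_lit 226)) (nat_lit 500) (Int.negSucc (nat_lit 1348)) qL140_60_5_9 = true :=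
 by decide +kernel

def qL140_60_5_10 : PCt := .one ⟨2008000, 251, 803200, -536940, 241381, 0, 0, 300000, 500000, 550000⟩ ⟨0,
 .pol, .pol, .pol, .pol, .sy 525000 (.sx 150000 (.sy 512500 (.sx 75000 (.sx 37500 (.aff 3000000 8485282
 471405) (.aff 2300000 4272236 395578)) (.aff 1000000 0 0)) (.sx 75000 (.sx 37500 (.aff 3000000 8589400
 465691) (.aff 2288000 4284739 387176)) (.aff 1000000 0 0))) (.aff 1000000 0 0)) (.sx 150000 (.sy 537500
 (.sx 75000 (.sx 37500 (.aff 3000000 8692270 460179) (.sx 56250 (.aff 2500000 4609773 488094) (.aff 2100000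
 3247879 372551))) (.aff 1000000 0 0)) (.sx 75000 (.sx 37500 (.aff 3000000 8793938 454859) (.sx 56250 (.aff
 3000000 6811755 587221) (.aff 2300000 3883298 435198))) (.aff 1000000 0 0))) (.aff 1000000 0 0)), .pol,
 .pol, .pol, .pol⟩

def hL140_60_5_10 : pcchk ⟨(nat_lit 1), (nat_lit 1000), Int.ofNat (nat_lit 400), 0, ⟨0, 1⟩, ⟨Int.ofNat
 (nat_lit 60), 200⟩⟩ ⟨700000, 750000, 851343, 836787, 866153, 523861, 548266, 500544, 547722, 500000⟩ false
 (nat_lit 500) (Int.negSucc (nat_lit 1348)) (nat_lit 550) (Int.negSucc (nat_lit 2685)) qL140_60_5_10 = true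
 := by decide +kernel

def qL140_60_5_11 : PCt := .one ⟨2008000, 251, 803200, -644167, 300356, 0, 0, 300000, 550000, 600000⟩ ⟨0,
 .pol, .pol, .pol, .pol, .sy 575000 (.sy 562500 (.sx 150000 (.sx 75000 (.aff 2800000 4902041 660950) (.aff
 1000000 0 0)) (.aff 1000000 0 0)) (.sx 150000 (.sx 75000 (.aff 2900000 5232193 689960) (.aff 2400000
 3810944 514309)) (.aff 1000000 0 0))) (.sy 587500 (.sx 150000 (.sx 75000 (.aff 3000000 5567765 718422) (.sx
 112500 (.sx 93750 (.sx 84375 (.aff 2800000 4724405 685801) (.aff 1500000 1277333 195721)) (.aff 1000000 0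
 0)) (.aff 1000000 0 0))) (.aff 1000000 0 0)) (.sx 150000 (.sx 75000 (.aff 3000000 5627315 710819) (.sx
 112500 (.aff 2969000 4955209 782402) (.aff 1000000 0 0))) (.aff 1000000 0 0))), .pol, .pol, .pol, .pol⟩

def hL140_60_5_11 : pcchk ⟨(nat_lit 1), (nat_lit 1000), Int.ofNat (nat_lit 400), 0, ⟨0, 1⟩, ⟨Int.ofNat
 (nat_lit 60), 200⟩⟩ ⟨700000, 750000, 851343, 836787, 866153, 523861, 548266, 500544, 547722, 500000⟩ false
 (nat_lit 550) (Int.negSucc (nat_lit 2685)) (nat_lit 600) (Int.negSucc (nat_lit 4289)) qL140_60_5_11 = true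
 := by decide +kernel

def qL140_60_5_12 : PCt := .one ⟨2008000, 251, 803200, -732920, 353608, 0, 0, 300000, 600000, 650000⟩ ⟨0,
 .pol, .pol, .pol, .pol, .sx 150000 (.sx 75000 (.aff 3000000 5773503 692821) (.sx 112500 (.aff 3050000
 5046752 832714) (.aff 3000000 4529109 883176))) (.aff 1000000 0 0), .pol, .sy 625000 .pol (.sy 637500 (.sx
 150000 (.aff 3000000 5802299 689382) .pol) (.sx 150000 (.sy 643750 (.aff 4900000 8059738 1887159) (.sx
 75000 (.aff 5000000 16613248 963087) (.sx 112500 (.aff 5000000 10507141 1522774) (.aff 3600000 5989992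
 1128550)))) .pol)), .pol, .pol⟩

def hL140_60_5_12 : pcchk ⟨(nat_lit 1), (nat_lit 1000), Int.ofNat (nat_lit 400), 0, ⟨0, 1⟩, ⟨Int.ofNat
 (nat_lit 60), 200⟩⟩ ⟨700000, 750000, 851343, 836787, 866153, 523861, 548266, 500544, 547722, 500000⟩ false
 (nat_lit 600) (Int.negSucc (nat_lit 4289)) (nat_lit 650) (Int.negSucc (nat_lit 6114)) qL140_60_5_12 = true
 := by decide +kernel

def qL140_60_5_13 : PCt := .one ⟨2008000, 251, 803200, -89959, -64317, 0, 0, 300000, 650000, 700000⟩ ⟨0,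
 .pol, .pol, .pol, .pol, .sy 675000 (.sy 662500 (.sx 150000 (.sx 75000 (.aff 3000000 6831301 585541) (.aff
 3100000 5071982 869483)) (.aff 1000000 0 0)) (.aff 2000000 2986079 334888)) (.aff 2000000 2140873 467100),
 .pol, .sx 150000 (.sx 75000 (.aff 5000000 13856407 1154701) (.sx 112500 (.aff 5000000 10733127 1490712)
 (.sx 131250 (.aff 4300000 7483697 1455164) (.aff 4188000 6933970 1465733)))) (.aff 3850000 5976206
 1359140), .pol, .pol⟩

def hL140_60_5_13 : pcchk ⟨(nat_lit 1), (nat_lit 1000), Int.ofNat (nat_lit 400), 0, ⟨0, 1⟩, ⟨Int.ofNat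
 (nat_lit 60), 200⟩⟩ ⟨700000, 750000, 851343, 836787, 866153, 523861, 548266, 500544, 547722, 500000⟩ false
 (nat_lit 650) (Int.negSucc (nat_lit 6114)) (nat_lit 700) (Int.negSucc (nat_lit 6338)) qL140_60_5_13 = true
 := by decide +kernel

def qL140_60_5_14 : PCt := .one ⟨2008000, 251, 803200, -146986, -24398, 0, 0, 300000, 700000, 750000⟩ ⟨0,
 .pol, .pol, .pol, .pol, .aff 1500000 1099243 227430, .pol, .sx 150000 (.aff 5000000 8793938 1819436) (.sx
 225000 (.sx 187500 (.sx 168750 (.aff 4800000 7876454 1833313) (.aff 4650000 7177303 1856199)) (.aff 4575000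
 7046328 1813800)) (.aff 1000000 0 0)), .pol, .pol⟩

def hL140_60_5_14 : pcchk ⟨(nat_lit 1), (nat_lit 1000), Int.ofNat (nat_lit 400), 0, ⟨0, 1⟩, ⟨Int.ofNat
 (nat_lit 60), 200⟩⟩ ⟨700000, 750000, 851343, 836787, 866153, 523861, 548266, 500544, 547722, 500000⟩ false
 (nat_lit 700) (Int.negSucc (nat_lit 6338)) (nat_lit 750) (Int.negSucc (nat_lit 6704)) qL140_60_5_14 = true
 := by decide +kernel

def qL140_60_5_15 : PCt := .one ⟨2008000, 251, 803200, -204013, 18373, 0, 0, 300000, 750000, 800000⟩ ⟨0,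
 .pol, .pol, .pol, .pol, .aff 1000000 0 0, .pol, .sx 150000 (.aff 5000000 10498678 1524002) (.sx 225000
 (.aff 4963000 7492394 2096176) (.sx 262500 (.aff 5000000 7273697 2199707) (.aff 2000000 1659987 602415))),
 .pol, .pol⟩

def hL140_60_5_15 : pcchk ⟨(nat_lit 1), (nat_lit 1000), Int.ofNat (nat_lit 400), 0, ⟨0, 1⟩, ⟨Int.ofNat
 (nat_lit 60), 200⟩⟩ ⟨700000, 750000, 851343, 836787, 866153, 523861, 548266, 500544, 547722, 500000⟩ false
 (nat_lit 750) (Int.negSucc (nat_lit 6704)) (nat_lit 800) (Int.negSucc (nat_lit 7212)) qL140_60_5_15 = true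
 := by decide +kernel

def qL140_60_5_16 : PCt := .one ⟨2008000, 251, 803200, -280317, 79416, 0, 0, 300000, 800000, 850000⟩ ⟨0,
 .pol, .pol, .pol, .pol, .aff 1000000 0 0, .pol, .sx 150000 (.aff 5000000 10832052 1477098) (.sy 825000 (.sx
 225000 (.aff 5000000 7601170 2104940) (.sx 262500 (.aff 5475000 7968472 2513108) (.aff 5400000 7606410
 2545222))) (.sx 225000 (.aff 8000000 14794143 3312122) (.sx 262500 (.aff 8000000 12975322 3776400) (.aff
 5418000 7657814 2548864)))), .pol, .pol⟩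

def hL140_60_5_16 : pcchk ⟨(nat_lit 1), (nat_lit 1000), Int.ofNat (nat_lit 400), 0, ⟨0, 1⟩, ⟨Int.ofNat
 (nat_lit 60), 200⟩⟩ ⟨700000, 750000, 851343, 836787, 866153, 523861, 548266, 500544, 547722, 500000⟩ false
 (nat_lit 800) (Int.negSucc (nat_lit 7212)) (nat_lit 850) (Int.negSucc (nat_lit 7910)) qL140_60_5_16 = true
 := by decide +kernel

def qL140_60_5_17 : PCt := .one ⟨2008000, 251, 803200, -8870943, 7381448, 0, 0, 300000, 850000, 900000⟩ ⟨0,
 .pol, .pol, .pol, .pol, .aff 1000000 0 0, .pol, .sx 150000 (.aff 20000000 64897355 5562631) (.inf 1577622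
 633866), .sx 150000 (.inf 3415651 292770) (.inf 1577622 633866), .pol⟩

def hL140_60_5_17 : pcchk ⟨(nat_lit 1), (nat_lit 1000), Int.ofNat (nat_lit 400), 0, ⟨0, 1⟩, ⟨Int.ofNat
 (nat_lit 60), 200⟩⟩ ⟨700000, 750000, 851343, 836787, 866153, 523861, 548266, 500544, 547722, 500000⟩ false
 (nat_lit 850) (Int.negSucc (nat_lit 7910)) (nat_lit 900) (Int.negSucc (nat_lit 29999)) qL140_60_5_17 = true
 := by decide +kernel

def qL140_60_5_18 : PCt := .one ⟨2008000, 251, 803200, 0, -602400, 0, 0, 300000, 900000, 950000⟩ ⟨0, .pol,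
 .pol, .pol, .pol, .aff 1000000 0 0, .pol, .inf 1986622 503368, .inf 1986622 503368, .pol⟩

def hL140_60_5_18 : pcchk ⟨(nat_lit 1), (nat_lit 1000), Int.ofNat (nat_lit 400), 0, ⟨0, 1⟩, ⟨Int.ofNat
 (nat_lit 60), 200⟩⟩ ⟨700000, 750000, 851343, 836787, 866153, 523861, 548266, 500544, 547722, 500000⟩ false
 (nat_lit 900) (Int.negSucc (nat_lit 29999)) (nat_lit 950) (Int.negSucc (nat_lit 29999)) qL140_60_5_18 =
 true := by decide +kernel

def qL140_60_5_19 : PCt := .one ⟨2008000, 251, 803200, 0, -602400, 0, 0, 300000, 950000, 1000000⟩ ⟨0, .pol,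
 .pol, .pol, .pol, .aff 1000000 0 0, .pol, .aff 35000000 70776644 16333072, .inf 2039608 490291, .pol⟩

def hL140_60_5_19 : pcchk ⟨(nat_lit 1), (nat_lit 1000), Int.ofNat (nat_lit 400), 0, ⟨0, 1⟩, ⟨Int.ofNat
 (nat_lit 60), 200⟩⟩ ⟨700000, 750000, 851343, 836787, 866153, 523861, 548266, 500544, 547722, 500000⟩ false
 (nat_lit 950) (Int.negSucc (nat_lit 29999)) (nat_lit 1000) (Int.negSucc (nat_lit 29999)) qL140_60_5_19 =
 true := by decide +kernel

def qL140_60_6_0 : PCt := .one ⟨2008000, 251, 2008000, 104416, 0, 0, 0, 300000, 0, 50000⟩ ⟨25000, .sp 250000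
 (.aff 6324556 158114) .pol, .pol, .pol, .pol, .pol, .aff 0 7735962 129267, .pol, .pol, .pol⟩

def hL140_60_6_0 : pcchk ⟨(nat_lit 1), (nat_lit 1000), Int.ofNat (nat_lit 1000), 0, ⟨0, 1⟩, ⟨Int.ofNat
 (nat_lit 60), 200⟩⟩ ⟨700000, 750000, 851343, 836787, 866153, 523861, 548266, 500544, 547722, 500000⟩ true 0
 0 (nat_lit 50) (Int.ofNat (nat_lit 260)) qL140_60_6_0 = true := by decide +kernel

def qL140_60_6_1 : PCt := .one ⟨2008000, 251, 2008000, 133331, -1446, 0, 0, 300000, 50000, 100000⟩ ⟨0, .pol,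
 .pol, .pol, .pol, .sx 150000 (.aff 0 7503155 133278) .pol, .pol, .pol, .sx 150000 (.sx 75000 (.sx 37500
 .pol .pol) .pol) .pol, .pol⟩

def hL140_60_6_1 : pcchk ⟨(nat_lit 1), (nat_lit 1000), Int.ofNat (nat_lit 1000), 0, ⟨0, 1⟩, ⟨Int.ofNat
 (nat_lit 60), 200⟩⟩ ⟨700000, 750000, 851343, 836787, 866153, 523861, 548266, 500544, 547722, 500000⟩ false
 (nat_lit 50) (Int.ofNat (nat_lit 260)) (nat_lit 100) (Int.ofNat (nat_lit 592)) qL140_60_6_1 = true := by
 decide +kernel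

def qL140_60_6_2 : PCt := .one ⟨2008000, 251, 2008000, 164254, -4539, 0, 0, 300000, 100000, 150000⟩ ⟨0,
 .pol, .pol, .pol, .pol, .sx 150000 (.sx 75000 (.sx 37500 (.sy 125000 (.aff 0 7425748 134667) (.aff 0
 7335963 136315)) .pol) .pol) .pol, .pol, .pol, .sx 150000 (.sx 75000 .pol .pol) .pol, .pol⟩

def hL140_60_6_2 : pcchk ⟨(nat_lit 1), (nat_lit 1000), Int.ofNat (nat_lit 1000), 0, ⟨0, 1⟩, ⟨Int.ofNat
 (nat_lit 60), 200⟩⟩ ⟨700000, 750000, 851343, 836787, 866153, 523861, 548266, 500544, 547722, 500000⟩ false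
 (nat_lit 100) (Int.ofNat (nat_lit 592)) (nat_lit 150) (Int.ofNat (nat_lit 1001)) qL140_60_6_2 = true := by
 decide +kernel

def qL140_60_6_3 : PCt := .one ⟨2008000, 251, 2008000, 206422, -10864, 0, 0, 300000, 150000, 200000⟩ ⟨0,
 .pol, .pol, .pol, .pol, .sx 150000 (.sx 75000 (.aff 0 7192553 139033) .pol) .pol, .pol, .pol, .sx 150000
 .pol .pol, .pol⟩

def hL140_60_6_3 : pcchk ⟨(nat_lit 1), (nat_lit 1000), Int.ofNat (nat_lit 1000), 0, ⟨0, 1⟩, ⟨Int.ofNat
 (nat_lit 60), 200⟩⟩ ⟨700000, 750000, 851343, 836787, 866153, 523861, 548266, 500544, 547722, 500000⟩ false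
 (nat_lit 150) (Int.ofNat (nat_lit 1001)) (nat_lit 200) (Int.ofNat (nat_lit 1515)) qL140_60_6_3 = true := by
 decide +kernel

def qL140_60_6_4 : PCt := .one ⟨2008000, 251, 2008000, 106424, 9136, 0, 0, 300000, 200000, 250000⟩ ⟨0, .pol,
 .pol, .pol, .pol, .sx 150000 (.sx 75000 (.sx 37500 (.sx 18750 (.sx 9375 (.sx 4687 (.sy 225000 (.aff 297000
 7398297 66801) (.aff 375000 7684901 50831)) (.aff 375000 3535597 110484)) (.aff 1000000 0 0)) (.aff 0
 2828428 353554)) (.aff 0 2000000 500000)) .pol) .pol, .pol, .pol, .sx 150000 .pol .pol, .pol⟩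

def hL140_60_6_4 : pcchk ⟨(nat_lit 1), (nat_lit 1000), Int.ofNat (nat_lit 1000), 0, ⟨0, 1⟩, ⟨Int.ofNat
 (nat_lit 60), 200⟩⟩ ⟨700000, 750000, 851343, 836787, 866153, 523861, 548266, 500544, 547722, 500000⟩ false
 (nat_lit 200) (Int.ofNat (nat_lit 1515)) (nat_lit 250) (Int.ofNat (nat_lit 1780)) qL140_60_6_4 = true := by
 decide +kernel

def qL140_60_6_5 : PCt := .one ⟨2008000, 251, 2008000, -7229, 37549, 0, 0, 300000, 250000, 300000⟩ ⟨0, .pol,
 .pol, .pol, .pol, .sx 150000 (.sx 75000 (.sx 37500 (.aff 631000 7333139 18568) (.aff 0 2211084 452267))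
 (.aff 0 1563472 639603)) .pol, .pol, .pol, .sx 150000 .pol .pol, .pol⟩

def hL140_60_6_5 : pcchk ⟨(nat_lit 1), (nat_lit 1000), Int.ofNat (nat_lit 1000), 0, ⟨0, 1⟩, ⟨Int.ofNat
 (nat_lit 60), 200⟩⟩ ⟨700000, 750000, 851343, 836787, 866153, 523861, 548266, 500544, 547722, 500000⟩ false
 (nat_lit 250) (Int.ofNat (nat_lit 1780)) (nat_lit 300) (Int.ofNat (nat_lit 1762)) qL140_60_6_5 = true := by
 decide +kernel

def qL140_60_6_6 : PCt := .one ⟨2008000, 251, 2008000, -230920, 104656, 0, 0, 300000, 300000, 350000⟩ ⟨0,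
 .pol, .pol, .pol, .pol, .sx 150000 (.sx 75000 (.sx 37500 (.aff 1350000 7561482 16201) (.aff 1000000 0 0))
 (.aff 0 1699674 588349)) .pol, .pol, .pol, .pol, .pol⟩

def hL140_60_6_6 : pcchk ⟨(nat_lit 1), (nat_lit 1000), Int.ofNat (nat_lit 1000), 0, ⟨0, 1⟩, ⟨Int.ofNat
 (nat_lit 60), 200⟩⟩ ⟨700000, 750000, 851343, 836787, 866153, 523861, 548266, 500544, 547722, 500000⟩ false
 (nat_lit 300) (Int.ofNat (nat_lit 1762)) (nat_lit 350) (Int.ofNat (nat_lit 1187)) qL140_60_6_6 = true := by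
 decide +kernel

def qL140_60_6_7 : PCt := .one ⟨2008000, 251, 2008000, -469872, 188290, 0, 0, 300000, 350000, 400000⟩ ⟨0,
 .pol, .pol, .pol, .pol, .sx 150000 (.sx 75000 (.sy 375000 (.sx 37500 (.aff 2150000 8734240 151416) (.aff
 1000000 0 0)) (.sy 387500 (.sx 37500 (.aff 2097000 8544464 140841) (.aff 1000000 0 0)) (.sx 37500 (.sy
 393750 (.sx 18750 (.sx 9375 (.aff 2600000 10327956 247871) (.aff 1000000 0 0)) (.aff 1000000 0 0)) (.sx
 18750 (.aff 2720000 9368745 315774) (.aff 1000000 0 0))) (.aff 1000000 0 0)))) (.aff 1000000 0 0)) (.aff 0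
 1290995 774597), .pol, .pol, .pol, .pol⟩

def hL140_60_6_7 : pcchk ⟨(nat_lit 1), (nat_lit 1000), Int.ofNat (nat_lit 1000), 0, ⟨0, 1⟩, ⟨Int.ofNat
 (nat_lit 60), 200⟩⟩ ⟨700000, 750000, 851343, 836787, 866153, 523861, 548266, 500544, 547722, 500000⟩ false
 (nat_lit 350) (Int.ofNat (nat_lit 1187)) (nat_lit 400) (Int.ofNat (nat_lit 17)) qL140_60_6_7 = true := by
 decide +kernel

def qL140_60_6_8 : PCt := .one ⟨2008000, 251, 2008000, -658223, 263630, 0, 0, 300000, 400000, 450000⟩ ⟨0,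
 .pol, .pol, .pol, .pol, .sx 150000 (.sx 75000 (.sx 37500 (.sx 18750 (.sx 9375 (.aff 3000000 15549206
 257248) (.sy 425000 (.aff 2850000 9276391 368948) (.aff 3000000 9660918 414040))) (.aff 2800000 8471119
 382477)) (.aff 1000000 0 0)) (.aff 1000000 0 0)) (.aff 1000000 0 0), .pol, .pol, .pol, .pol⟩

def hL140_60_6_8 : pcchk ⟨(nat_lit 1), (nat_lit 1000), Int.ofNat (nat_lit 1000), 0, ⟨0, 1⟩, ⟨Int.ofNat
 (nat_lit 60), 200⟩⟩ ⟨700000, 750000, 851343, 836787, 866153, 523861, 548266, 500544, 547722, 500000⟩ false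
 (nat_lit 400) (Int.ofNat (nat_lit 17)) (nat_lit 450) (Int.negSucc (nat_lit 1621)) qL140_60_6_8 = true := by
 decide +kernel

def qL140_60_6_9 : PCt := .one ⟨2008000, 251, 2008000, -882316, 364472, 0, 0, 300000, 450000, 500000⟩ ⟨0,
 .pol, .pol, .pol, .pol, .sy 475000 (.sx 150000 (.sx 75000 (.sy 462500 (.sy 456250 (.sy 453125 (.sx 37500
 (.aff 2850000 9078833 376976) (.aff 1000000 0 0)) (.sx 37500 (.sx 18750 (.aff 3000000 9848858 406139) (.aff
 3000000 8809087 454077)) (.aff 1000000 0 0))) (.sy 459375 (.sx 37500 (.sx 18750 (.aff 3000000 9882645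
 404750) (.aff 3100000 9281272 475151)) (.aff 1000000 0 0)) (.sx 37500 (.sx 18750 (.aff 3000000 9916317
 403376) (.aff 3100000 9312895 473537)) (.aff 1000000 0 0)))) (.sy 468750 (.sy 465625 (.sx 37500 (.sx 18750
 (.aff 5000000 28142495 568536) (.aff 3148000 9322009 494948)) (.aff 1000000 0 0)) (.sx 37500 (.sx 18750
 (.aff 5000000 28237092 566631) (.sx 28125 (.aff 5000000 17858705 895922) (.aff 3200000 8614717 561830)))
 (.aff 1000000 0 0))) (.sx 37500 (.sx 18750 (.aff 5000000 28378396 563810) (.sx 28125 (.aff 5000000 17948074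
 891461) (.aff 3400000 9444901 609853))) (.aff 1000000 0 0)))) (.aff 1000000 0 0)) (.aff 1000000 0 0)) (.sy
 487500 (.sx 150000 (.sx 75000 (.sx 37500 (.sx 18750 (.aff 5000000 28658914 558291) (.sx 28125 (.aff 5000000
 18125489 882735) (.aff 3445000 9596398 622945))) (.aff 1000000 0 0)) (.aff 1000000 0 0)) (.aff 1000000 0
 0)) (.sx 150000 (.sx 75000 (.sx 37500 (.aff 5000000 14514361 1102357) (.aff 3350000 8429081 655173)) (.aff
 1000000 0 0)) (.aff 1000000 0 0))), .pol, .pol, .pol, .pol⟩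

def hL140_60_6_9 : pcchk ⟨(nat_lit 1), (nat_lit 1000), Int.ofNat (nat_lit 1000), 0, ⟨0, 1⟩, ⟨Int.ofNat
 (nat_lit 60), 200⟩⟩ ⟨700000, 750000, 851343, 836787, 866153, 523861, 548266, 500544, 547722, 500000⟩ false
 (nat_lit 450) (Int.negSucc (nat_lit 1621)) (nat_lit 500) (Int.negSucc (nat_lit 3818)) qL140_60_6_9 = true
 := by decide +kernel

def qL140_60_6_10 : PCt := .one ⟨2008000, 251, 2008000, -1064642, 455635, 0, 0, 300000, 500000, 550000⟩ ⟨0,
 .pol, .pol, .pol, .pol, .sx 150000 (.sx 75000 (.sx 37500 (.aff 5000000 17281976 925821) (.sx 56250 (.sx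
 46875 (.aff 4400000 11378577 1015945) (.sy 525000 (.aff 4100000 10003302 960683) (.aff 4500000 10819222
 1132245))) (.aff 4200000 9392633 1090217))) (.aff 1000000 0 0)) (.aff 1000000 0 0), .pol, .pol, .pol, .pol⟩

def hL140_60_6_10 : pcchk ⟨(nat_lit 1), (nat_lit 1000), Int.ofNat (nat_lit 1000), 0, ⟨0, 1⟩, ⟨Int.ofNat
 (nat_lit 60), 200⟩⟩ ⟨700000, 750000, 851343, 836787, 866153, 523861, 548266, 500544, 547722, 500000⟩ false
 (nat_lit 500) (Int.negSucc (nat_lit 3818)) (nat_lit 550) (Int.negSucc (nat_lit 6469)) qL140_60_6_10 = true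
 := by decide +kernel

end CB
end Pool.Agent.Lib.MP_6947cd_al
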