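import Pool.Agent.Lib.MP_6947cd_al.L.PairSplit

/-!
Problem MP_6947cd_al (Chollet).  Library of pair functions: certificates of the pieces (generated).
-/

set_option autoImplicit false
set_option linter.defProp false
set_option maxRecDepth 100000

namespace Pool.Agent.Lib.MP_6947cd_al
namespace CB

open CA

def qL160_60_0_0 : PCt := .one ⟨2008000, 251, 502000, 385134, 0, 0, 0, 300000, 0, 50000⟩ ⟨50000, .aff
 1154701 866026, .aff 866026 1154700, .pol, .pol, .sx 175000 (.sx 112500 (.aff 123000 677878 1134613) (.aff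
 500000 208515 1198955)) (.aff 1000000 0 0), .aff 0 1154701 866026, .pol, .pol, .pol⟩

def hL160_60_0_0 : pcchk ⟨(nat_lit 3), (nat_lit 1000), Int.ofNat (nat_lit 250), 0, ⟨0, 1⟩, ⟨Int.ofNat
 (nat_lit 60), 200⟩⟩ ⟨800000, 850000, 908191, 894532, 922059, 417256, 448290, 388374, 447213, 387298⟩ true 0
 0 (nat_lit 50) (Int.ofNat (nat_lit 959)) qL160_60_0_0 = true := by decide +kernel

def qL160_60_0_1 : PCt := .one ⟨2008000, 251, 502000, 364251, 1044, 0, 0, 300000, 50000, 100000⟩ ⟨0, .pol,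
 .pol, .pol, .pol, .sy 75000 (.sx 150000 (.sx 75000 (.sx 37500 (.aff 100000 1276209 634693) (.aff 150000
 1006343 717947)) (.aff 1000000 0 0)) (.aff 1000000 0 0)) (.sx 150000 (.sy 87500 (.sx 75000 (.sx 37500 (.aff
 175000 1402231 485388) (.aff 1000000 0 0)) (.aff 1000000 0 0)) (.sx 75000 (.sx 37500 (.aff 250000 1369307
 410792) (.aff 1000000 0 0)) (.aff 1000000 0 0))) (.aff 1000000 0 0)), .pol, .pol, .sy 75000 (.sx 150000
 (.sy 62500 (.sy 56250 (.sy 53125 (.sx 75000 (.sx 37500 .pol .pol) .pol) (.sx 75000 (.sx 37500 .pol .pol)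
 .pol)) (.sy 59375 (.sx 75000 (.sx 37500 .pol .pol) .pol) (.sx 75000 (.sx 37500 .pol .pol) .pol))) (.sy
 68750 (.sy 65625 (.sx 75000 (.sx 37500 .pol .pol) .pol) (.sx 75000 (.sx 37500 .pol .pol) .pol)) (.sy 71875
 (.sx 75000 (.sx 37500 .pol .pol) .pol) (.sx 75000 (.sx 37500 .pol .pol) .pol)))) .pol) (.sx 150000 (.sx
 75000 .pol .pol) .pol), .pol⟩

def hL160_60_0_1 : pcchk ⟨(nat_lit 3), (nat_lit 1000), Int.ofNat (nat_lit 250), 0, ⟨0, 1⟩, ⟨Int.ofNat
 (nat_lit 60), 200⟩⟩ ⟨800000, 850000, 908191, 894532, 922059, 417256, 448290, 388374, 447213, 387298⟩ false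
 (nat_lit 50) (Int.ofNat (nat_lit 959)) (nat_lit 100) (Int.ofNat (nat_lit 1866)) qL160_60_0_1 = true := by
 decide +kernel

def qL160_60_0_2 : PCt := .one ⟨2008000, 251, 502000, 283931, 9076, 0, 0, 300000, 100000, 150000⟩ ⟨0, .pol,
 .pol, .pol, .pol, .sx 150000 (.sy 125000 (.sy 112500 (.sx 75000 (.aff 400000 1428286 252051) (.aff 1000000
 0 0)) (.sy 118750 (.sx 75000 (.aff 500000 1516541 164849) (.aff 1000000 0 0)) (.sx 75000 (.sx 37500 (.aff
 450000 1623587 186316) (.aff 1000000 0 0)) (.aff 1000000 0 0)))) (.sy 137500 (.sx 75000 (.sx 37500 (.aff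
 575000 1757448 102777) (.aff 1000000 0 0)) (.aff 1000000 0 0)) (.sx 75000 (.sx 37500 (.aff 625000 1793530
 78407) (.aff 1000000 0 0)) (.aff 1000000 0 0)))) (.aff 1000000 0 0), .pol, .pol, .sy 125000 (.sx 150000
 (.sx 75000 .pol .pol) .pol) (.sx 150000 (.sx 75000 .pol .pol) .pol), .pol⟩

def hL160_60_0_2 : pcchk ⟨(nat_lit 3), (nat_lit 1000), Int.ofNat (nat_lit 250), 0, ⟨0, 1⟩, ⟨Int.ofNat
 (nat_lit 60), 200⟩⟩ ⟨800000, 850000, 908191, 894532, 922059, 417256, 448290, 388374, 447213, 387298⟩ false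
 (nat_lit 100) (Int.ofNat (nat_lit 1866)) (nat_lit 150) (Int.ofNat (nat_lit 2573)) qL160_60_0_2 = true := by
 decide +kernel

def qL160_60_0_3 : PCt := .one ⟨2008000, 251, 502000, 269875, 11184, 0, 0, 300000, 150000, 200000⟩ ⟨0, .pol,
 .pol, .pol, .pol, .sx 150000 (.sx 75000 (.sy 175000 (.sy 162500 (.sy 156250 (.sx 37500 (.aff 725000 1832388
 41272) (.aff 1000000 0 0)) (.sx 37500 (.sx 18750 (.aff 750000 1967741 31763) (.aff 1000000 0 0)) (.aff
 1000000 0 0))) (.sx 37500 (.aff 775000 1922317 26336) (.aff 1000000 0 0))) (.sx 37500 (.sx 18750 (.aff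
 875000 1440512 10847) (.aff 1000000 0 0)) (.aff 1000000 0 0))) (.aff 1000000 0 0)) (.aff 1000000 0 0),
 .pol, .pol, .sx 150000 .pol .pol, .pol⟩

def hL160_60_0_3 : pcchk ⟨(nat_lit 3), (nat_lit 1000), Int.ofNat (nat_lit 250), 0, ⟨0, 1⟩, ⟨Int.ofNat
 (nat_lit 60), 200⟩⟩ ⟨800000, 850000, 908191, 894532, 922059, 417256, 448290, 388374, 447213, 387298⟩ false
 (nat_lit 150) (Int.ofNat (nat_lit 2573)) (nat_lit 200) (Int.ofNat (nat_lit 3245)) qL160_60_0_3 = true := by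
 decide +kernel

def qL160_60_0_4 : PCt := .one ⟨2008000, 251, 502000, 238952, 17369, 0, 0, 300000, 200000, 250000⟩ ⟨0, .pol,
 .pol, .pol, .pol, .sx 150000 (.sx 75000 (.sx 37500 (.sx 18750 (.sy 225000 (.sx 9375 (.sx 4687 (.aff 1100000
 1163071 8598) (.aff 1000000 0 0)) (.aff 1000000 0 0)) (.aff 1250000 2173503 28756)) (.aff 1000000 0 0))
 (.aff 1000000 0 0)) (.aff 1000000 0 0)) (.aff 1000000 0 0), .pol, .pol, .sx 150000 .pol .pol, .pol⟩

def hL160_60_0_4 : pcchk ⟨(nat_lit 3), (nat_lit 1000), Int.ofNat (nat_lit 250), 0, ⟨0, 1⟩, ⟨Int.ofNat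
 (nat_lit 60), 200⟩⟩ ⟨800000, 850000, 908191, 894532, 922059, 417256, 448290, 388374, 447213, 387298⟩ false
 (nat_lit 200) (Int.ofNat (nat_lit 3245)) (nat_lit 250) (Int.ofNat (nat_lit 3840)) qL160_60_0_4 = true := by
 decide +kernel

def qL160_60_0_5 : PCt := .one ⟨2008000, 251, 502000, 224494, 20983, 0, 0, 300000, 250000, 300000⟩ ⟨0, .pol,
 .pol, .pol, .pol, .sx 150000 (.sy 275000 (.sx 75000 (.sx 37500 (.sx 18750 (.sx 9375 (.aff 1350000 2612013
 46899) (.aff 1000000 0 0)) (.aff 1000000 0 0)) (.aff 1000000 0 0)) (.aff 1000000 0 0)) (.sy 287500 (.sx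
 75000 (.sx 37500 (.aff 1488000 2672887 89097) (.aff 1000000 0 0)) (.aff 1000000 0 0)) (.sx 75000 (.sx 37500
 (.aff 1475000 2658869 84858) (.aff 1000000 0 0)) (.aff 1000000 0 0)))) (.aff 1000000 0 0), .pol, .pol, .sx
 150000 .pol (.sx 225000 .pol .pol), .pol⟩

def hL160_60_0_5 : pcchk ⟨(nat_lit 3), (nat_lit 1000), Int.ofNat (nat_lit 250), 0, ⟨0, 1⟩, ⟨Int.ofNat
 (nat_lit 60), 200⟩⟩ ⟨800000, 850000, 908191, 894532, 922059, 417256, 448290, 388374, 447213, 387298⟩ false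
 (nat_lit 250) (Int.ofNat (nat_lit 3840)) (nat_lit 300) (Int.ofNat (nat_lit 4399)) qL160_60_0_5 = true := by
 decide +kernel

def qL160_60_0_6 : PCt := .one ⟨2008000, 251, 502000, 210840, 25079, 0, 0, 300000, 300000, 350000⟩ ⟨0, .pol,
 .pol, .pol, .pol, .sx 150000 (.sx 75000 (.sy 325000 (.sy 312500 (.sx 37500 (.aff 1600000 2807662 128221)
 (.aff 1000000 0 0)) (.sy 318750 (.sy 315625 (.sx 37500 (.sx 18750 (.aff 1900000 3683409 219905) (.aff
 1000000 0 0)) (.aff 1000000 0 0)) (.sx 37500 (.sx 18750 (.aff 2000000 4112988 243133) (.aff 1000000 0 0))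
 (.aff 1000000 0 0))) (.sy 321875 (.sx 37500 (.sx 18750 (.aff 2000000 4133199 241944) (.aff 1000000 0 0))
 (.aff 1000000 0 0)) (.sx 37500 (.sx 18750 (.aff 2000000 4795832 208515) (.aff 1500000 1857418 134596))
 (.aff 1000000 0 0))))) (.sx 37500 (.sx 18750 (.aff 2000000 4898980 204125) (.aff 1850000 3012768 239813))
 (.aff 1000000 0 0))) (.aff 1000000 0 0)) (.aff 1000000 0 0), .pol, .pol, .pol, .pol⟩

def hL160_60_0_6 : pcchk ⟨(nat_lit 3), (nat_lit 1000), Int.ofNat (nat_lit 250), 0, ⟨0, 1⟩, ⟨Int.ofNat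
 (nat_lit 60), 200⟩⟩ ⟨800000, 850000, 908191, 894532, 922059, 417256, 448290, 388374, 447213, 387298⟩ false
 (nat_lit 300) (Int.ofNat (nat_lit 4399)) (nat_lit 350) (Int.ofNat (nat_lit 4924)) qL160_60_0_6 = true := by
 decide +kernel

def qL160_60_0_7 : PCt := .one ⟨2008000, 251, 502000, 200398, 28734, 0, 0, 300000, 350000, 400000⟩ ⟨0, .pol,
 .pol, .pol, .pol, .sx 150000 (.sy 375000 (.sy 362500 (.sx 75000 (.sx 37500 (.aff 1900000 3203124 252879)
 (.aff 1000000 0 0)) (.aff 1000000 0 0)) (.sx 75000 (.sx 37500 (.aff 1900000 3258835 248556) (.aff 1000000 0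
 0)) (.aff 1000000 0 0))) (.sy 387500 (.sy 381250 (.sx 75000 (.sx 37500 (.aff 2000000 3175427 314919) (.aff
 2000000 2840188 352090)) (.aff 1000000 0 0)) (.sx 75000 (.sx 37500 (.aff 2000000 3201563 312348) (.aff
 2000000 2863565 349216)) (.aff 1000000 0 0))) (.sy 393750 (.sx 75000 (.sx 37500 (.aff 2000000 3227487
 309839) (.aff 2000000 2886752 346411)) (.aff 1000000 0 0)) (.sx 75000 (.sx 37500 (.aff 2000000 3253204
 307390) (.aff 2000000 2909754 343672)) (.aff 1000000 0 0))))) (.aff 1000000 0 0), .pol, .pol, .pol, .pol⟩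

def hL160_60_0_7 : pcchk ⟨(nat_lit 3), (nat_lit 1000), Int.ofNat (nat_lit 250), 0, ⟨0, 1⟩, ⟨Int.ofNat
 (nat_lit 60), 200⟩⟩ ⟨800000, 850000, 908191, 894532, 922059, 417256, 448290, 388374, 447213, 387298⟩ false
 (nat_lit 350) (Int.ofNat (nat_lit 4924)) (nat_lit 400) (Int.ofNat (nat_lit 5423)) qL160_60_0_7 = true := by
 decide +kernel

def qL160_60_0_8 : PCt := .one ⟨2008000, 251, 502000, 191161, 32429, 0, 0, 300000, 400000, 450000⟩ ⟨0, .pol,
 .pol, .pol, .pol, .sy 425000 (.sx 150000 (.sy 412500 (.sx 75000 (.sx 37500 (.aff 2000000 3291403 303822)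
 (.aff 2050000 3091117 356668)) (.aff 1000000 0 0)) (.sx 75000 (.sy 418750 (.sx 37500 (.aff 2000000 3329165
 300376) (.aff 2025000 3052138 344226)) (.sy 421875 (.sx 37500 (.aff 2000000 3347885 298697) (.sx 56250
 (.aff 3000000 5710172 700505) (.aff 1500000 1313149 190383))) (.sx 37500 (.aff 2000000 3360308 297592) (.sx
 56250 (.aff 3000000 6011101 665436) (.aff 2000000 2540154 393677))))) (.aff 1000000 0 0))) (.aff 1000000 0
 0)) (.sx 150000 (.sx 75000 (.sx 37500 (.aff 3000000 9660918 414040) (.sx 56250 (.aff 3000000 6110101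
 654654) (.aff 2200000 3215348 447852))) (.aff 1000000 0 0)) (.aff 1000000 0 0)), .pol, .pol, .pol, .pol⟩

def hL160_60_0_8 : pcchk ⟨(nat_lit 3), (nat_lit 1000), Int.ofNat (nat_lit 250), 0, ⟨0, 1⟩, ⟨Int.ofNat
 (nat_lit 60), 200⟩⟩ ⟨800000, 850000, 908191, 894532, 922059, 417256, 448290, 388374, 447213, 387298⟩ false
 (nat_lit 400) (Int.ofNat (nat_lit 5423)) (nat_lit 450) (Int.ofNat (nat_lit 5899)) qL160_60_0_8 = true := by
 decide +kernel

def qL160_60_0_9 : PCt := .one ⟨2008000, 251, 502000, 184736, 35320, 0, 0, 300000, 450000, 500000⟩ ⟨0, .pol,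
 .pol, .pol, .pol, .sy 475000 (.sy 462500 (.sx 150000 (.sx 75000 (.aff 2900000 4686239 770341) (.sx 112500
 (.aff 2100000 2557922 473041) (.aff 1000000 0 0))) (.aff 1000000 0 0)) (.sx 150000 (.sx 75000 (.aff 3000000
 5000000 800000) (.sx 112500 (.aff 2300000 3064130 551544) (.aff 1000000 0 0))) (.aff 1000000 0 0))) (.sy
 487500 (.sx 150000 (.sx 75000 (.aff 3000000 5849977 683764) (.sx 112500 (.aff 2350000 3224128 565270) (.aff
 1000000 0 0))) (.aff 1000000 0 0)) (.sx 150000 (.sx 75000 (.aff 3000000 5925463 675053) (.sx 112500 (.sx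
 93750 (.aff 3000000 4838121 826768) (.aff 2200000 2687538 535807)) (.aff 1000000 0 0))) (.aff 1000000 0
 0))), .pol, .pol, .pol, .pol⟩

def hL160_60_0_9 : pcchk ⟨(nat_lit 3), (nat_lit 1000), Int.ofNat (nat_lit 250), 0, ⟨0, 1⟩, ⟨Int.ofNat
 (nat_lit 60), 200⟩⟩ ⟨800000, 850000, 908191, 894532, 922059, 417256, 448290, 388374, 447213, 387298⟩ false
 (nat_lit 450) (Int.ofNat (nat_lit 5899)) (nat_lit 500) (Int.ofNat (nat_lit 6359)) qL160_60_0_9 = true := by
 decide +kernel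

def qL160_60_0_10 : PCt := .one ⟨2008000, 251, 502000, 180720, 37328, 0, 0, 300000, 500000, 550000⟩ ⟨0,
 .pol, .pol, .pol, .pol, .sx 150000 (.sx 75000 (.aff 3000000 6110101 654654) (.sx 112500 (.aff 2700000
 3672420 786948) (.aff 2675000 3402342 824616))) (.aff 1000000 0 0), .pol, .pol, .pol, .pol⟩

def hL160_60_0_10 : pcchk ⟨(nat_lit 3), (nat_lit 1000), Int.ofNat (nat_lit 250), 0, ⟨0, 1⟩, ⟨Int.ofNat
 (nat_lit 60), 200⟩⟩ ⟨800000, 850000, 908191, 894532, 922059, 417256, 448290, 388374, 447213, 387298⟩ false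
 (nat_lit 500) (Int.ofNat (nat_lit 6359)) (nat_lit 550) (Int.ofNat (nat_lit 6809)) qL160_60_0_10 = true :=
 by decide +kernel

def qL160_60_0_11 : PCt := .one ⟨2008000, 251, 502000, 178712, 38433, 0, 0, 300000, 550000, 600000⟩ ⟨0,
 .pol, .pol, .pol, .pol, .sx 150000 (.sx 75000 (.aff 3000000 6394443 625544) (.sx 112500 (.aff 3000000
 4953114 807573) (.aff 2850000 3622097 944895))) (.sy 575000 (.aff 1500000 866026 288675) (.sy 587500 (.sx
 225000 (.aff 2800000 3340659 969869) (.aff 1000000 0 0)) (.sx 225000 (.sx 187500 (.aff 2975000 3605841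
 1081752) (.aff 1000000 0 0)) (.aff 1000000 0 0)))), .pol, .pol, .pol, .pol⟩

def hL160_60_0_11 : pcchk ⟨(nat_lit 3), (nat_lit 1000), Int.ofNat (nat_lit 250), 0, ⟨0, 1⟩, ⟨Int.ofNat
 (nat_lit 60), 200⟩⟩ ⟨800000, 850000, 908191, 894532, 922059, 417256, 448290, 388374, 447213, 387298⟩ false
 (nat_lit 550) (Int.ofNat (nat_lit 6809)) (nat_lit 600) (Int.ofNat (nat_lit 7254)) qL160_60_0_11 = true :=
 by decide +kernel

def qL160_60_0_12 : PCt := .one ⟨2008000, 251, 502000, 177908, 38915, 0, 0, 300000, 600000, 650000⟩ ⟨0,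
 .pol, .pol, .pol, .pol, .sx 150000 (.aff 3000000 4082483 979796) (.sy 625000 (.sx 225000 (.sx 187500 (.aff
 3000000 3708691 1078548) (.aff 2000000 1723281 580289)) (.aff 1000000 0 0)) (.sx 225000 (.sx 187500 (.aff
 3000000 3783622 1057189) (.aff 3000000 3516197 1137593)) (.aff 1500000 779194 320845))), .pol, .pol, .pol,
 .pol⟩

def hL160_60_0_12 : pcchk ⟨(nat_lit 3), (nat_lit 1000), Int.ofNat (nat_lit 250), 0, ⟨0, 1⟩, ⟨Int.ofNat
 (nat_lit 60), 200⟩⟩ ⟨800000, 850000, 908191, 894532, 922059, 417256, 448290, 388374, 447213, 387298⟩ false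
 (nat_lit 600) (Int.ofNat (nat_lit 7254)) (nat_lit 650) (Int.ofNat (nat_lit 7697)) qL160_60_0_12 = true :=
 by decide +kernel

def qL160_60_0_13 : PCt := .one ⟨2008000, 251, 502000, 179515, 37870, 0, 0, 300000, 650000, 700000⟩ ⟨0,
 .pol, .pol, .pol, .pol, .sx 150000 (.aff 3000000 4242641 942809) (.sx 225000 (.aff 2963000 3551201 1085089)
 (.aff 3000000 3328202 1201851)), .pol, .pol, .pol, .pol⟩

def hL160_60_0_13 : pcchk ⟨(nat_lit 3), (nat_lit 1000), Int.ofNat (nat_lit 250), 0, ⟨0, 1⟩, ⟨Int.ofNat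
 (nat_lit 60), 200⟩⟩ ⟨800000, 850000, 908191, 894532, 922059, 417256, 448290, 388374, 447213, 387298⟩ false
 (nat_lit 650) (Int.ofNat (nat_lit 7697)) (nat_lit 700) (Int.ofNat (nat_lit 8144)) qL160_60_0_13 = true :=
 by decide +kernel

def qL160_60_0_14 : PCt := .one ⟨2008000, 251, 502000, 182728, 35621, 0, 0, 300000, 700000, 750000⟩ ⟨0,
 .pol, .pol, .pol, .pol, .sx 150000 (.aff 3000000 5077183 787839) (.sy 725000 (.sx 225000 (.aff 3000000
 3717282 1076056) (.sx 262500 (.aff 3000000 3419402 1169796) (.aff 3000000 3183290 1256562))) (.sx 225000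
 (.aff 3000000 3781935 1057660) (.sx 262500 (.aff 3000000 3478874 1149798) (.aff 3000000 3294022
 1214321)))), .pol, .pol, .pol, .pol⟩

def hL160_60_0_14 : pcchk ⟨(nat_lit 3), (nat_lit 1000), Int.ofNat (nat_lit 250), 0, ⟨0, 1⟩, ⟨Int.ofNat
 (nat_lit 60), 200⟩⟩ ⟨800000, 850000, 908191, 894532, 922059, 417256, 448290, 388374, 447213, 387298⟩ false
 (nat_lit 700) (Int.ofNat (nat_lit 8144)) (nat_lit 750) (Int.ofNat (nat_lit 8599)) qL160_60_0_14 = true :=
 by decide +kernel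

def qL160_60_0_15 : PCt := .one ⟨2008000, 251, 502000, -15501359, 11798686, 0, 0, 300000, 750000, 800000⟩
 ⟨0, .pol, .pol, .pol, .pol, .sx 150000 (.aff 35000000 109294709 10576908) (.sx 225000 (.inf 2033061 491870)
 (.sx 262500 (.inf 1783112 560818) (.inf 1659987 602415))), .pol, .pol, .sy 775000 (.sy 762500 (.sy 756250
 .pol (.sx 150000 (.inf 3181981 314270) (.inf 1469694 680414))) (.sy 768750 (.inf 1807393 553284) (.inf
 1814755 551039))) (.inf 1833031 545545), .pol⟩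

def hL160_60_0_15 : pcchk ⟨(nat_lit 3), (nat_lit 1000), Int.ofNat (nat_lit 250), 0, ⟨0, 1⟩, ⟨Int.ofNat
 (nat_lit 60), 200⟩⟩ ⟨800000, 850000, 908191, 894532, 922059, 417256, 448290, 388374, 447213, 387298⟩ false
 (nat_lit 750) (Int.ofNat (nat_lit 8599)) (nat_lit 800) (Int.negSucc (nat_lit 29999)) qL160_60_0_15 = true
 := by decide +kernel

def qL160_60_0_16 : PCt := .one ⟨2008000, 251, 502000, 0, -602400, 0, 0, 300000, 800000, 850000⟩ ⟨0, .pol,
 .pol, .pol, .pol, .inf 1876167 533002, .pol, .pol, .inf 1876167 533002, .pol⟩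

def hL160_60_0_16 : pcchk ⟨(nat_lit 3), (nat_lit 1000), Int.ofNat (nat_lit 250), 0, ⟨0, 1⟩, ⟨Int.ofNat
 (nat_lit 60), 200⟩⟩ ⟨800000, 850000, 908191, 894532, 922059, 417256, 448290, 388374, 447213, 387298⟩ false
 (nat_lit 800) (Int.negSucc (nat_lit 29999)) (nat_lit 850) (Int.negSucc (nat_lit 29999)) qL160_60_0_16 =
 true := by decide +kernel

def qL160_60_0_17 : PCt := .one ⟨2008000, 251, 502000, 0, -602400, 0, 0, 300000, 850000, 900000⟩ ⟨0, .pol,
 .pol, .pol, .pol, .inf 1932184 517550, .pol, .pol, .inf 1932184 517550, .pol⟩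

def hL160_60_0_17 : pcchk ⟨(nat_lit 3), (nat_lit 1000), Int.ofNat (nat_lit 250), 0, ⟨0, 1⟩, ⟨Int.ofNat
 (nat_lit 60), 200⟩⟩ ⟨800000, 850000, 908191, 894532, 922059, 417256, 448290, 388374, 447213, 387298⟩ false
 (nat_lit 850) (Int.negSucc (nat_lit 29999)) (nat_lit 900) (Int.negSucc (nat_lit 29999)) qL160_60_0_17 =
 true := by decide +kernel

def qL160_60_0_18 : PCt := .one ⟨2008000, 251, 502000, 0, -602400, 0, 0, 300000, 900000, 950000⟩ ⟨0, .pol,
 .pol, .pol, .pol, .aff 36000000 61457981 19932318, .pol, .pol, .inf 2483278 402694, .pol⟩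

def hL160_60_0_18 : pcchk ⟨(nat_lit 3), (nat_lit 1000), Int.ofNat (nat_lit 250), 0, ⟨0, 1⟩, ⟨Int.ofNat
 (nat_lit 60), 200⟩⟩ ⟨800000, 850000, 908191, 894532, 922059, 417256, 448290, 388374, 447213, 387298⟩ false
 (nat_lit 900) (Int.negSucc (nat_lit 29999)) (nat_lit 950) (Int.negSucc (nat_lit 29999)) qL160_60_0_18 =
 true := by decide +kernel

def qL160_60_0_19 : PCt := .one ⟨2008000, 251, 502000, 0, -602400, 0, 0, 300000, 950000, 1000000⟩ ⟨0, .pol,
 .pol, .pol, .pol, .aff 35000000 70776644 16333072, .pol, .pol, .inf 2549510 392233, .pol⟩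

def hL160_60_0_19 : pcchk ⟨(nat_lit 3), (nat_lit 1000), Int.ofNat (nat_lit 250), 0, ⟨0, 1⟩, ⟨Int.ofNat
 (nat_lit 60), 200⟩⟩ ⟨800000, 850000, 908191, 894532, 922059, 417256, 448290, 388374, 447213, 387298⟩ false
 (nat_lit 950) (Int.negSucc (nat_lit 29999)) (nat_lit 1000) (Int.negSucc (nat_lit 29999)) qL160_60_0_19 =
 true := by decide +kernel

def qL160_60_1_0 : PCt := .one ⟨2008000, 251, 803200, 315256, 0, 0, 0, 300000, 0, 50000⟩ ⟨25000, .aff
 3162278 316228, .pol, .pol, .pol, .pol, .aff 0 3938815 253884, .pol, .pol, .pol⟩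

def hL160_60_1_0 : pcchk ⟨(nat_lit 3), (nat_lit 1000), Int.ofNat (nat_lit 400), 0, ⟨0, 1⟩, ⟨Int.ofNat
 (nat_lit 60), 200⟩⟩ ⟨800000, 850000, 908191, 894532, 922059, 417256, 448290, 388374, 447213, 387298⟩ true 0
 0 (nat_lit 50) (Int.ofNat (nat_lit 785)) qL160_60_1_0 = true := by decide +kernel

def qL160_60_1_1 : PCt := .one ⟨2008000, 251, 803200, 350596, -1768, 0, 0, 300000, 50000, 100000⟩ ⟨0, .pol,
 .pol, .pol, .pol, .sx 150000 (.sx 75000 (.sx 37500 (.sy 75000 (.aff 0 3949386 253204) (.aff 7000 3895304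
 253138)) (.aff 0 1154701 866026)) .pol) .pol, .pol, .pol, .sx 150000 (.sx 75000 (.sx 37500 .pol .pol) .pol)
 .pol, .pol⟩

def hL160_60_1_1 : pcchk ⟨(nat_lit 3), (nat_lit 1000), Int.ofNat (nat_lit 400), 0, ⟨0, 1⟩, ⟨Int.ofNat
 (nat_lit 60), 200⟩⟩ ⟨800000, 850000, 908191, 894532, 922059, 417256, 448290, 388374, 447213, 387298⟩ false
 (nat_lit 50) (Int.ofNat (nat_lit 785)) (nat_lit 100) (Int.ofNat (nat_lit 1658)) qL160_60_1_1 = true := by
 decide +kernel

def qL160_60_1_2 : PCt := .one ⟨2008000, 251, 803200, 350998, -1808, 0, 0, 300000, 100000, 150000⟩ ⟨0, .pol,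
 .pol, .pol, .pol, .sx 150000 (.sx 75000 (.sy 125000 (.sx 37500 (.sy 112500 (.sy 106250 (.sy 103125 (.sy
 101562 (.sx 18750 (.sx 9375 (.aff 125000 4057204 188708) (.aff 0 2932573 340998)) (.aff 0 1892968 528271))
 (.sx 18750 (.aff 134000 4046480 185336) (.aff 0 1907585 524224))) (.sx 18750 (.aff 144000 4045299 181133)
 (.aff 0 1929307 518321))) (.sx 18750 (.aff 162000 4047925 173483) (.aff 0 1972027 507093))) (.aff 175000
 3963451 171726)) (.aff 0 1414214 707107)) (.aff 250000 3700741 151997)) .pol) .pol, .pol, .pol, .sx 150000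
 (.sx 75000 .pol .pol) .pol, .pol⟩

def hL160_60_1_2 : pcchk ⟨(nat_lit 3), (nat_lit 1000), Int.ofNat (nat_lit 400), 0, ⟨0, 1⟩, ⟨Int.ofNat
 (nat_lit 60), 200⟩⟩ ⟨800000, 850000, 908191, 894532, 922059, 417256, 448290, 388374, 447213, 387298⟩ false
 (nat_lit 100) (Int.ofNat (nat_lit 1658)) (nat_lit 150) (Int.ofNat (nat_lit 2532)) qL160_60_1_2 = true := by
 decide +kernel

def qL160_60_1_3 : PCt := .one ⟨2008000, 251, 803200, 289152, 7469, 0, 0, 300000, 150000, 200000⟩ ⟨0, .pol,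
 .pol, .pol, .pol, .sx 150000 (.sx 75000 (.sy 175000 (.sy 162500 (.aff 400000 3854750 93392) (.sx 37500 (.sy
 168750 (.aff 500000 4232076 59073) (.sx 18750 (.sy 171875 (.aff 525000 4271339 52824) (.aff 575000 4262232
 42379)) (.aff 1000000 0 0))) (.aff 1000000 0 0))) (.sx 37500 (.sx 18750 (.aff 750000 4297981 14542) (.aff
 1000000 0 0)) (.aff 1000000 0 0))) (.aff 0 1366261 731925)) .pol, .pol, .pol, .sx 150000 .pol .pol, .pol⟩

def hL160_60_1_3 : pcchk ⟨(nat_lit 3), (nat_lit 1000), Int.ofNat (nat_lit 400), 0, ⟨0, 1⟩, ⟨Int.ofNat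
 (nat_lit 60), 200⟩⟩ ⟨800000, 850000, 908191, 894532, 922059, 417256, 448290, 388374, 447213, 387298⟩ false
 (nat_lit 150) (Int.ofNat (nat_lit 2532)) (nat_lit 200) (Int.ofNat (nat_lit 3252)) qL160_60_1_3 = true := by
 decide +kernel

def qL160_60_1_4 : PCt := .one ⟨2008000, 251, 803200, 219675, 21365, 0, 0, 300000, 200000, 250000⟩ ⟨0, .pol,
 .pol, .pol, .pol, .sx 150000 (.sx 75000 (.sx 37500 (.aff 1325000 4904224 21538) (.aff 1000000 0 0)) (.aff
 1000000 0 0)) (.aff 1000000 0 0), .pol, .pol, .sx 150000 .pol .pol, .pol⟩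

def hL160_60_1_4 : pcchk ⟨(nat_lit 3), (nat_lit 1000), Int.ofNat (nat_lit 400), 0, ⟨0, 1⟩, ⟨Int.ofNat
 (nat_lit 60), 200⟩⟩ ⟨800000, 850000, 908191, 894532, 922059, 417256, 448290, 388374, 447213, 387298⟩ false
 (nat_lit 200) (Int.ofNat (nat_lit 3252)) (nat_lit 250) (Int.ofNat (nat_lit 3799)) qL160_60_1_4 = true := by
 decide +kernel

def qL160_60_1_5 : PCt := .one ⟨2008000, 251, 803200, 165459, 34919, 0, 0, 300000, 250000, 300000⟩ ⟨0, .pol,
 .pol, .pol, .pol, .sx 150000 (.sx 75000 (.sx 37500 (.sx 18750 (.sx 9375 (.aff 1900000 5628499 143911) (.aff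
 1900000 5325092 152111)) (.aff 1000000 0 0)) (.aff 1000000 0 0)) (.aff 1000000 0 0)) (.aff 1000000 0 0),
 .pol, .pol, .sx 150000 .pol .pol, .pol⟩

def hL160_60_1_5 : pcchk ⟨(nat_lit 3), (nat_lit 1000), Int.ofNat (nat_lit 400), 0, ⟨0, 1⟩, ⟨Int.ofNat
 (nat_lit 60), 200⟩⟩ ⟨800000, 850000, 908191, 894532, 922059, 417256, 448290, 388374, 447213, 387298⟩ false
 (nat_lit 250) (Int.ofNat (nat_lit 3799)) (nat_lit 300) (Int.ofNat (nat_lit 4211)) qL160_60_1_5 = true := by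
 decide +kernel

def qL160_60_1_6 : PCt := .one ⟨2008000, 251, 803200, 120881, 48292, 0, 0, 300000, 300000, 350000⟩ ⟨0, .pol,
 .pol, .pol, .pol, .sx 150000 (.sx 75000 (.sy 325000 (.sy 312500 (.sx 37500 (.sy 306250 (.sy 303125 (.aff
 1950000 5387989 167503) (.sx 18750 (.sx 9375 (.aff 2000000 5700878 175412) (.aff 2000000 5099020 196117))
 (.aff 1000000 0 0))) (.sy 309375 (.sx 18750 (.sx 9375 (.aff 2000000 5730038 174519) (.aff 2100000 5637612
 214630)) (.aff 1000000 0 0)) (.sx 18750 (.aff 2700000 6922849 417459) (.aff 1000000 0 0)))) (.aff 1000000 0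
 0)) (.sy 318750 (.sx 37500 (.sx 18750 (.aff 2800000 7385121 438720) (.aff 1000000 0 0)) (.aff 1000000 0 0))
 (.sx 37500 (.sx 18750 (.aff 3000000 8286536 482711) (.aff 2100000 4978971 243023)) (.aff 1000000 0 0))))
 (.sx 37500 (.sx 18750 (.aff 3000000 9797959 408249) (.aff 2500000 5875806 382927)) (.aff 1000000 0 0)))
 (.aff 1000000 0 0)) (.aff 1000000 0 0), .pol, .pol, .pol, .pol⟩

def hL160_60_1_6 : pcchk ⟨(nat_lit 3), (nat_lit 1000), Int.ofNat (nat_lit 400), 0, ⟨0, 1⟩, ⟨Int.ofNat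
 (nat_lit 60), 200⟩⟩ ⟨800000, 850000, 908191, 894532, 922059, 417256, 448290, 388374, 447213, 387298⟩ false
 (nat_lit 300) (Int.ofNat (nat_lit 4211)) (nat_lit 350) (Int.ofNat (nat_lit 4512)) qL160_60_1_6 = true := by
 decide +kernel

def qL160_60_1_7 : PCt := .one ⟨2008000, 251, 803200, 77508, 63472, 0, 0, 300000, 350000, 400000⟩ ⟨0, .pol,
 .pol, .pol, .pol, .sx 150000 (.sy 375000 (.sx 75000 (.sx 37500 (.sy 362500 (.aff 2800000 6406247 505757)
 (.aff 3100000 6585211 669683)) (.aff 1000000 0 0)) (.aff 1000000 0 0)) (.sx 75000 (.sx 37500 (.aff 3000000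
 6429101 622171) (.aff 3088000 6155355 708285)) (.aff 1000000 0 0))) (.aff 1000000 0 0), .pol, .pol, .pol,
 .pol⟩

def hL160_60_1_7 : pcchk ⟨(nat_lit 3), (nat_lit 1000), Int.ofNat (nat_lit 400), 0, ⟨0, 1⟩, ⟨Int.ofNat
 (nat_lit 60), 200⟩⟩ ⟨800000, 850000, 908191, 894532, 922059, 417256, 448290, 388374, 447213, 387298⟩ false
 (nat_lit 350) (Int.ofNat (nat_lit 4512)) (nat_lit 400) (Int.ofNat (nat_lit 4705)) qL160_60_1_7 = true := by
 decide +kernel

def qL160_60_1_8 : PCt := .one ⟨2008000, 251, 803200, 48192, 75199, 0, 0, 300000, 400000, 450000⟩ ⟨0, .pol,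
 .pol, .pol, .pol, .sx 150000 (.sy 425000 (.sx 75000 (.sy 412500 (.sx 37500 (.aff 3000000 6582806 607644)
 (.aff 3100000 6182233 713335)) (.sx 37500 (.aff 5000000 15434450 1036643) (.sx 56250 (.aff 3300000 6539129
 808977) (.aff 3200000 5767104 839243)))) (.aff 1000000 0 0)) (.sx 75000 (.sx 37500 (.aff 5000000 19321836
 828079) (.sx 56250 (.aff 5000000 12220202 1309308) (.aff 3400000 6430696 895704))) (.aff 1000000 0 0)))
 (.aff 1000000 0 0), .pol, .pol, .pol, .pol⟩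

def hL160_60_1_8 : pcchk ⟨(nat_lit 3), (nat_lit 1000), Int.ofNat (nat_lit 400), 0, ⟨0, 1⟩, ⟨Int.ofNat
 (nat_lit 60), 200⟩⟩ ⟨800000, 850000, 908191, 894532, 922059, 417256, 448290, 388374, 447213, 387298⟩ false
 (nat_lit 400) (Int.ofNat (nat_lit 4705)) (nat_lit 450) (Int.ofNat (nat_lit 4825)) qL160_60_1_8 = true := by
 decide +kernel

def qL160_60_1_9 : PCt := .one ⟨2008000, 251, 803200, 15662, 89837, 0, 0, 300000, 450000, 500000⟩ ⟨0, .pol,
 .pol, .pol, .pol, .sy 475000 (.sx 150000 (.sx 75000 (.aff 4400000 8443144 1369159) (.sx 112500 (.aff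
 3800000 6555518 1195940) (.aff 1000000 0 0))) (.aff 1000000 0 0)) (.sx 150000 (.sx 75000 (.aff 5000000
 11775682 1358733) (.sx 112500 (.sx 93750 (.aff 4100000 7069088 1359440) (.aff 3800000 6231105 1258204))
 (.aff 1000000 0 0))) (.aff 1000000 0 0)), .pol, .pol, .pol, .pol⟩

def hL160_60_1_9 : pcchk ⟨(nat_lit 3), (nat_lit 1000), Int.ofNat (nat_lit 400), 0, ⟨0, 1⟩, ⟨Int.ofNat
 (nat_lit 60), 200⟩⟩ ⟨800000, 850000, 908191, 894532, 922059, 417256, 448290, 388374, 447213, 387298⟩ false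
 (nat_lit 450) (Int.ofNat (nat_lit 4825)) (nat_lit 500) (Int.ofNat (nat_lit 4864)) qL160_60_1_9 = true := by
 decide +kernel

def qL160_60_1_10 : PCt := .one ⟨2008000, 251, 803200, -10442, 102889, 0, 0, 300000, 500000, 550000⟩ ⟨0,
 .pol, .pol, .pol, .pol, .sx 150000 (.sx 75000 (.aff 5000000 12220202 1309308) (.sx 112500 (.aff 4400000
 7344840 1573895) (.aff 4439000 7117678 1661599))) (.aff 1000000 0 0), .pol, .pol, .pol, .pol⟩

def hL160_60_1_10 : pcchk ⟨(nat_lit 3), (nat_lit 1000), Int.ofNat (nat_lit 400), 0, ⟨0, 1⟩, ⟨Int.ofNat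
 (nat_lit 60), 200⟩⟩ ⟨800000, 850000, 908191, 894532, 922059, 417256, 448290, 388374, 447213, 387298⟩ false
 (nat_lit 500) (Int.ofNat (nat_lit 4864)) (nat_lit 550) (Int.ofNat (nat_lit 4838)) qL160_60_1_10 = true :=
 by decide +kernel

def qL160_60_1_11 : PCt := .one ⟨2008000, 251, 803200, -39759, 119014, 0, 0, 300000, 550000, 600000⟩ ⟨0,
 .pol, .pol, .pol, .pol, .sx 150000 (.sx 75000 (.aff 5000000 12788885 1251087) (.sx 112500 (.aff 5000000
 9906227 1615146) (.aff 4800000 7439983 1940865))) (.sx 225000 (.aff 4789000 7171236 2001960) (.aff 1000000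
 0 0)), .pol, .pol, .pol, .pol⟩

def hL160_60_1_11 : pcchk ⟨(nat_lit 3), (nat_lit 1000), Int.ofNat (nat_lit 400), 0, ⟨0, 1⟩, ⟨Int.ofNat
 (nat_lit 60), 200⟩⟩ ⟨800000, 850000, 908191, 894532, 922059, 417256, 448290, 388374, 447213, 387298⟩ false
 (nat_lit 550) (Int.ofNat (nat_lit 4838)) (nat_lit 600) (Int.ofNat (nat_lit 4739)) qL160_60_1_11 = true :=
 by decide +kernel

def qL160_60_1_12 : PCt := .one ⟨2008000, 251, 803200, -63855, 133471, 0, 0, 300000, 600000, 650000⟩ ⟨0,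
 .pol, .pol, .pol, .pol, .sx 150000 (.aff 5000000 8164966 1959592) (.sx 225000 (.sx 187500 (.aff 5000000
 7492687 2135416) (.aff 5100000 7305141 2301120)) (.aff 1000000 0 0)), .pol, .pol, .pol, .pol⟩

def hL160_60_1_12 : pcchk ⟨(nat_lit 3), (nat_lit 1000), Int.ofNat (nat_lit 400), 0, ⟨0, 1⟩, ⟨Int.ofNat
 (nat_lit 60), 200⟩⟩ ⟨800000, 850000, 908191, 894532, 922059, 417256, 448290, 388374, 447213, 387298⟩ false
 (nat_lit 600) (Int.ofNat (nat_lit 4739)) (nat_lit 650) (Int.ofNat (nat_lit 4580)) qL160_60_1_12 = true :=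
 by decide +kernel

def qL160_60_1_13 : PCt := .one ⟨2008000, 251, 803200, -91967, 151744, 0, 0, 300000, 650000, 700000⟩ ⟨0,
 .pol, .pol, .pol, .pol, .sx 150000 (.aff 5000000 8485282 1885618) (.sx 225000 (.aff 5389000 7743961
 2487529) (.sx 262500 (.aff 5400000 7467048 2592725) (.aff 1500000 774597 322749))), .pol, .pol, .pol, .pol⟩

def hL160_60_1_13 : pcchk ⟨(nat_lit 3), (nat_lit 1000), Int.ofNat (nat_lit 400), 0, ⟨0, 1⟩, ⟨Int.ofNat
 (nat_lit 60), 200⟩⟩ ⟨800000, 850000, 908191, 894532, 922059, 417256, 448290, 388374, 447213, 387298⟩ false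
 (nat_lit 650) (Int.ofNat (nat_lit 4580)) (nat_lit 700) (Int.ofNat (nat_lit 4351)) qL160_60_1_13 = true :=
 by decide +kernel

def qL160_60_1_14 : PCt := .one ⟨2008000, 251, 803200, -118071, 170017, 0, 0, 300000, 700000, 750000⟩ ⟨0,
 .pol, .pol, .pol, .pol, .sx 150000 (.aff 5000000 10154365 1575678) (.sy 725000 (.sx 225000 (.aff 8000000
 13645513 3590924) (.sx 262500 (.aff 6300000 8731798 3216978) (.aff 5700000 7608616 2903288))) (.sx 225000
 (.aff 8000000 13882844 3529537) (.sx 262500 (.aff 8000000 12176059 4024291) (.aff 5713000 7665936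
 2897542)))), .pol, .pol, .pol, .pol⟩

def hL160_60_1_14 : pcchk ⟨(nat_lit 3), (nat_lit 1000), Int.ofNat (nat_lit 400), 0, ⟨0, 1⟩, ⟨Int.ofNat
 (nat_lit 60), 200⟩⟩ ⟨800000, 850000, 908191, 894532, 922059, 417256, 448290, 388374, 447213, 387298⟩ false
 (nat_lit 700) (Int.ofNat (nat_lit 4351)) (nat_lit 750) (Int.ofNat (nat_lit 4057)) qL160_60_1_14 = true :=
 by decide +kernel

def qL160_60_1_15 : PCt := .one ⟨2008000, 251, 803200, -13677292, 10339432, 0, 0, 300000, 750000, 800000⟩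
 ⟨0, .pol, .pol, .pol, .pol, .sx 150000 (.aff 35000000 109294709 10576908) (.sx 225000 (.aff 36700000
 66256396 19235728) (.sx 262500 (.inf 1783112 560818) (.inf 1659987 602415))), .pol, .pol, .sy 775000 (.sy
 762500 (.sy 756250 (.sx 150000 (.inf 3168859 315571) .pol) (.sx 150000 (.inf 3181981 314270) (.inf 1469694
 680414))) (.sy 768750 (.inf 1807393 553284) (.inf 1814755 551039))) (.inf 1833031 545545), .pol⟩

def hL160_60_1_15 : pcchk ⟨(nat_lit 3), (nat_lit 1000), Int.ofNat (nat_lit 400), 0, ⟨0, 1⟩, ⟨Int.ofNat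
 (nat_lit 60), 200⟩⟩ ⟨800000, 850000, 908191, 894532, 922059, 417256, 448290, 388374, 447213, 387298⟩ false
 (nat_lit 750) (Int.ofNat (nat_lit 4057)) (nat_lit 800) (Int.negSucc (nat_lit 29999)) qL160_60_1_15 = true
 := by decide +kernel

def qL160_60_1_16 : PCt := .one ⟨2008000, 251, 803200, 0, -602400, 0, 0, 300000, 800000, 850000⟩ ⟨0, .pol,
 .pol, .pol, .pol, .inf 1876167 533002, .pol, .pol, .inf 1876167 533002, .pol⟩

def hL160_60_1_16 : pcchk ⟨(nat_lit 3), (nat_lit 1000), Int.ofNat (nat_lit 400), 0, ⟨0, 1⟩, ⟨Int.ofNat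
 (nat_lit 60), 200⟩⟩ ⟨800000, 850000, 908191, 894532, 922059, 417256, 448290, 388374, 447213, 387298⟩ false
 (nat_lit 800) (Int.negSucc (nat_lit 29999)) (nat_lit 850) (Int.negSucc (nat_lit 29999)) qL160_60_1_16 =
 true := by decide +kernel

def qL160_60_1_17 : PCt := .one ⟨2008000, 251, 803200, 0, -602400, 0, 0, 300000, 850000, 900000⟩ ⟨0, .pol,
 .pol, .pol, .pol, .inf 1932184 517550, .pol, .pol, .inf 1932184 517550, .pol⟩

def hL160_60_1_17 : pcchk ⟨(nat_lit 3), (nat_lit 1000), Int.ofNat (nat_lit 400), 0, ⟨0, 1⟩, ⟨Int.ofNat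
 (nat_lit 60), 200⟩⟩ ⟨800000, 850000, 908191, 894532, 922059, 417256, 448290, 388374, 447213, 387298⟩ false
 (nat_lit 850) (Int.negSucc (nat_lit 29999)) (nat_lit 900) (Int.negSucc (nat_lit 29999)) qL160_60_1_17 =
 true := by decide +kernel

def qL160_60_1_18 : PCt := .one ⟨2008000, 251, 803200, 0, -602400, 0, 0, 300000, 900000, 950000⟩ ⟨0, .pol,
 .pol, .pol, .pol, .aff 35000000 59702038 19362824, .pol, .pol, .inf 2483278 402694, .pol⟩

def hL160_60_1_18 : pcchk ⟨(nat_lit 3), (nat_lit 1000), Int.ofNat (nat_lit 400), 0, ⟨0, 1⟩, ⟨Int.ofNat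
 (nat_lit 60), 200⟩⟩ ⟨800000, 850000, 908191, 894532, 922059, 417256, 448290, 388374, 447213, 387298⟩ false
 (nat_lit 900) (Int.negSucc (nat_lit 29999)) (nat_lit 950) (Int.negSucc (nat_lit 29999)) qL160_60_1_18 =
 true := by decide +kernel

def qL160_60_1_19 : PCt := .one ⟨2008000, 251, 803200, 0, -602400, 0, 0, 300000, 950000, 1000000⟩ ⟨0, .pol,
 .pol, .pol, .pol, .aff 35000000 70776644 16333072, .pol, .pol, .inf 2549510 392233, .pol⟩

def hL160_60_1_19 : pcchk ⟨(nat_lit 3), (nat_lit 1000), Int.ofNat (nat_lit 400), 0, ⟨0, 1⟩, ⟨Int.ofNat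
 (nat_lit 60), 200⟩⟩ ⟨800000, 850000, 908191, 894532, 922059, 417256, 448290, 388374, 447213, 387298⟩ false
 (nat_lit 950) (Int.negSucc (nat_lit 29999)) (nat_lit 1000) (Int.negSucc (nat_lit 29999)) qL160_60_1_19 =
 true := by decide +kernel

def qL160_60_2_0 : PCt := .one ⟨2008000, 251, 2008000, 294774, 0, 0, 0, 300000, 0, 50000⟩ ⟨12500, .sp 250000
 (.aff 6324556 158114) .pol, .pol, .pol, .pol, .pol, .aff 0 14172346 70560, .pol, .pol, .pol⟩

def hL160_60_2_0 : pcchk ⟨(nat_lit 3), (nat_lit 1000), Int.ofNat (nat_lit 1000), 0, ⟨0, 1⟩, ⟨Int.ofNat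
 (nat_lit 60), 200⟩⟩ ⟨800000, 850000, 908191, 894532, 922059, 417256, 448290, 388374, 447213, 387298⟩ true 0
 0 (nat_lit 50) (Int.ofNat (nat_lit 734)) qL160_60_2_0 = true := by decide +kernel

def qL160_60_2_1 : PCt := .one ⟨2008000, 251, 2008000, 329312, -1727, 0, 0, 300000, 50000, 100000⟩ ⟨0, .pol,
 .pol, .pol, .pol, .sx 150000 (.sx 75000 (.aff 0 14057376 71138) .pol) .pol, .pol, .pol, .sx 150000 (.sx
 75000 (.sx 37500 .pol .pol) .pol) .pol, .pol⟩

def hL160_60_2_1 : pcchk ⟨(nat_lit 3), (nat_lit 1000), Int.ofNat (nat_lit 1000), 0, ⟨0, 1⟩, ⟨Int.ofNat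
 (nat_lit 60), 200⟩⟩ ⟨800000, 850000, 908191, 894532, 922059, 417256, 448290, 388374, 447213, 387298⟩ false
 (nat_lit 50) (Int.ofNat (nat_lit 734)) (nat_lit 100) (Int.ofNat (nat_lit 1554)) qL160_60_2_1 = true := by
 decide +kernel

def qL160_60_2_2 : PCt := .one ⟨2008000, 251, 2008000, 358227, -4619, 0, 0, 300000, 100000, 150000⟩ ⟨0,
 .pol, .pol, .pol, .pol, .sx 150000 (.sx 75000 (.sy 125000 (.aff 0 14095841 70943) (.aff 100000 14025184
 57754)) .pol) .pol, .pol, .pol, .sx 150000 (.sx 75000 .pol .pol) .pol, .pol⟩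

def hL160_60_2_2 : pcchk ⟨(nat_lit 3), (nat_lit 1000), Int.ofNat (nat_lit 1000), 0, ⟨0, 1⟩, ⟨Int.ofNat
 (nat_lit 60), 200⟩⟩ ⟨800000, 850000, 908191, 894532, 922059, 417256, 448290, 388374, 447213, 387298⟩ false
 (nat_lit 100) (Int.ofNat (nat_lit 1554)) (nat_lit 150) (Int.ofNat (nat_lit 2446)) qL160_60_2_2 = true := by
 decide +kernel

def qL160_60_2_3 : PCt := .one ⟨2008000, 251, 2008000, 342966, -2330, 0, 0, 300000, 150000, 200000⟩ ⟨0,
 .pol, .pol, .pol, .pol, .sx 150000 (.sx 75000 (.aff 350000 12013286 35170) .pol) .pol, .pol, .pol, .sx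
 150000 .pol .pol, .pol⟩

def hL160_60_2_3 : pcchk ⟨(nat_lit 3), (nat_lit 1000), Int.ofNat (nat_lit 1000), 0, ⟨0, 1⟩, ⟨Int.ofNat
 (nat_lit 60), 200⟩⟩ ⟨800000, 850000, 908191, 894532, 922059, 417256, 448290, 388374, 447213, 387298⟩ false
 (nat_lit 150) (Int.ofNat (nat_lit 2446)) (nat_lit 200) (Int.ofNat (nat_lit 3300)) qL160_60_2_3 = true := by
 decide +kernel

def qL160_60_2_4 : PCt := .one ⟨2008000, 251, 2008000, 136142, 39035, 0, 0, 300000, 200000, 250000⟩ ⟨0,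
 .pol, .pol, .pol, .pol, .sx 150000 (.sx 75000 (.sx 37500 (.aff 1938000 14512664 60626) (.aff 0 2000000
 500000)) .pol) .pol, .pol, .pol, .sx 150000 .pol .pol, .pol⟩

def hL160_60_2_4 : pcchk ⟨(nat_lit 3), (nat_lit 1000), Int.ofNat (nat_lit 1000), 0, ⟨0, 1⟩, ⟨Int.ofNat
 (nat_lit 60), 200⟩⟩ ⟨800000, 850000, 908191, 894532, 922059, 417256, 448290, 388374, 447213, 387298⟩ false
 (nat_lit 200) (Int.ofNat (nat_lit 3300)) (nat_lit 250) (Int.ofNat (nat_lit 3639)) qL160_60_2_4 = true := by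
 decide +kernel

def qL160_60_2_5 : PCt := .one ⟨2008000, 251, 2008000, -83132, 93853, 0, 0, 300000, 250000, 300000⟩ ⟨0,
 .pol, .pol, .pol, .pol, .sx 150000 (.sx 75000 (.sx 37500 (.sy 275000 (.sy 262500 (.aff 3500000 15964129
 391503) (.sx 18750 (.sy 268750 (.sx 9375 (.aff 3167000 16109946 291491) (.aff 1000000 0 0)) (.sy 271875
 (.sx 9375 (.sx 4687 (.aff 5000000 42959635 372443) (.aff 3400000 16301688 353338)) (.aff 1000000 0 0)) (.sx
 9375 (.sx 4687 (.aff 5000000 43207243 370309) (.aff 3447000 16101459 371880)) (.aff 1000000 0 0)))) (.aff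
 1000000 0 0))) (.sx 18750 (.sx 9375 (.aff 4100000 17167023 559795) (.aff 4100000 17120177 561326)) (.aff
 1000000 0 0))) (.aff 1000000 0 0)) .pol) .pol, .pol, .pol, .sx 150000 .pol .pol, .pol⟩

def hL160_60_2_5 : pcchk ⟨(nat_lit 3), (nat_lit 1000), Int.ofNat (nat_lit 1000), 0, ⟨0, 1⟩, ⟨Int.ofNat
 (nat_lit 60), 200⟩⟩ ⟨800000, 850000, 908191, 894532, 922059, 417256, 448290, 388374, 447213, 387298⟩ false
 (nat_lit 250) (Int.ofNat (nat_lit 3639)) (nat_lit 300) (Int.ofNat (nat_lit 3432)) qL160_60_2_5 = true := by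
 decide +kernel

def qL160_60_2_6 : PCt := .one ⟨2008000, 251, 2008000, -236543, 139877, 0, 0, 300000, 300000, 350000⟩ ⟨0,
 .pol, .pol, .pol, .pol, .sx 150000 (.sx 75000 (.sx 37500 (.sx 18750 (.sy 325000 (.aff 5150000 17701595
 972935) (.aff 8000000 29698485 1649916)) (.sy 325000 (.aff 5400000 17756260 1090320) (.aff 5700000 17835247
 1238559))) (.aff 1000000 0 0)) (.aff 0 1699674 588349)) .pol, .pol, .pol, .pol, .pol⟩

def hL160_60_2_6 : pcchk ⟨(nat_lit 3), (nat_lit 1000), Int.ofNat (nat_lit 1000), 0, ⟨0, 1⟩, ⟨Int.ofNat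
 (nat_lit 60), 200⟩⟩ ⟨800000, 850000, 908191, 894532, 922059, 417256, 448290, 388374, 447213, 387298⟩ false
 (nat_lit 300) (Int.ofNat (nat_lit 3432)) (nat_lit 350) (Int.ofNat (nat_lit 2843)) qL160_60_2_6 = true := by
 decide +kernel

def qL160_60_2_7 : PCt := .one ⟨2008000, 251, 2008000, -400797, 197366, 0, 0, 300000, 350000, 400000⟩ ⟨0,
 .pol, .pol, .pol, .pol, .sx 150000 (.sx 75000 (.sx 37500 (.sx 18750 (.aff 8000000 36147845 1355545) (.sy
 375000 (.aff 7139000 19570115 1925759) (.aff 8000000 22501852 2177599))) (.sy 375000 (.sx 56250 (.sx 46875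
 (.aff 6100000 15383108 1690816) (.aff 1000000 0 0)) (.aff 1000000 0 0)) (.aff 7200000 18740089 2051218)))
 (.aff 1000000 0 0)) .pol, .pol, .pol, .pol, .pol⟩

def hL160_60_2_7 : pcchk ⟨(nat_lit 3), (nat_lit 1000), Int.ofNat (nat_lit 1000), 0, ⟨0, 1⟩, ⟨Int.ofNat
 (nat_lit 60), 200⟩⟩ ⟨800000, 850000, 908191, 894532, 922059, 417256, 448290, 388374, 447213, 387298⟩ false
 (nat_lit 350) (Int.ofNat (nat_lit 2843)) (nat_lit 400) (Int.ofNat (nat_lit 1845)) qL160_60_2_7 = true := by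
 decide +kernel

def qL160_60_2_8 : PCt := .one ⟨2008000, 251, 2008000, -522884, 246200, 0, 0, 300000, 400000, 450000⟩ ⟨0,
 .pol, .pol, .pol, .pol, .sx 150000 (.sx 75000 (.sx 37500 (.aff 8000000 27211109 1800736) (.sx 56250 (.sy
 425000 (.aff 8012000 19343255 2541876) (.aff 8000000 19522068 2509980)) (.sx 65625 (.sy 425000 (.aff
 8200000 19103759 2713603) (.sx 60937 (.aff 8200000 19480368 2661141) (.aff 8200000 19109278 2712819)))
 (.aff 8200000 18004138 2879339)))) (.aff 1000000 0 0)) (.aff 1000000 0 0), .pol, .pol, .pol, .pol⟩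

def hL160_60_2_8 : pcchk ⟨(nat_lit 3), (nat_lit 1000), Int.ofNat (nat_lit 1000), 0, ⟨0, 1⟩, ⟨Int.ofNat
 (nat_lit 60), 200⟩⟩ ⟨800000, 850000, 908191, 894532, 922059, 417256, 448290, 388374, 447213, 387298⟩ false
 (nat_lit 400) (Int.ofNat (nat_lit 1845)) (nat_lit 450) (Int.ofNat (nat_lit 543)) qL160_60_2_8 = true := by
 decide +kernel

def qL160_60_2_9 : PCt := .one ⟨2008000, 251, 2008000, -664648, 309995, 0, 0, 300000, 450000, 500000⟩ ⟨0,
 .pol, .pol, .pol, .pol, .sx 150000 (.sx 75000 (.aff 10700000 24411132 3854390) (.sx 112500 (.sx 93750 (.sy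
 475000 (.aff 9300000 19995804 3445223) (.sx 84375 (.aff 12000000 27207266 4447342) (.sy 487500 (.aff
 9500000 20023860 3608196) (.aff 11800000 24785157 4706043)))) (.sy 475000 (.aff 1000000 0 0) (.aff 9700000
 19360933 3909420))) (.aff 1000000 0 0))) (.aff 1000000 0 0), .pol, .pol, .sx 150000 (.sx 75000 (.sx 37500
 (.inf 5033223 198680) .pol) .pol) .pol, .pol⟩

def hL160_60_2_9 : pcchk ⟨(nat_lit 3), (nat_lit 1000), Int.ofNat (nat_lit 1000), 0, ⟨0, 1⟩, ⟨Int.ofNat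
 (nat_lit 60), 200⟩⟩ ⟨800000, 850000, 908191, 894532, 922059, 417256, 448290, 388374, 447213, 387298⟩ false
 (nat_lit 450) (Int.ofNat (nat_lit 543)) (nat_lit 500) (Int.negSucc (nat_lit 1111)) qL160_60_2_9 = true :=
 by decide +kernel

def qL160_60_2_10 : PCt := .one ⟨2008000, 251, 2008000, -776293, 365817, 0, 0, 300000, 500000, 550000⟩ ⟨0,
 .pol, .pol, .pol, .pol, .sy 525000 (.sx 150000 (.sx 75000 (.aff 12000000 33203079 3644241) (.sx 112500 (.sx
 93750 (.aff 12000000 27110201 4463265) (.sx 103125 (.aff 11900000 24299171 4889468) (.aff 11071000 21765666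
 4659864))) (.sx 131250 (.aff 11050000 21549129 4687081) (.aff 1000000 0 0)))) (.aff 1000000 0 0)) (.sy
 537500 (.sx 150000 (.sx 75000 (.aff 12000000 33804997 3579353) (.sx 112500 (.aff 12000000 23903743 5061969)
 (.aff 11400000 21713284 4981283))) (.aff 1000000 0 0)) (.sx 150000 (.sx 75000 (.aff 12000000 34200390
 3537972) (.sx 112500 (.aff 12000000 25258662 4790436) (.aff 11800000 21982331 5306080))) (.aff 1000000 0
 0))), .pol, .pol, .sx 150000 (.sx 75000 (.inf 3741658 267262) .pol) .pol, .pol⟩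

def hL160_60_2_10 : pcchk ⟨(nat_lit 3), (nat_lit 1000), Int.ofNat (nat_lit 1000), 0, ⟨0, 1⟩, ⟨Int.ofNat
 (nat_lit 60), 200⟩⟩ ⟨800000, 850000, 908191, 894532, 922059, 417256, 448290, 388374, 447213, 387298⟩ false
 (nat_lit 500) (Int.negSucc (nat_lit 1111)) (nat_lit 550) (Int.negSucc (nat_lit 3044)) qL160_60_2_10 = true
 := by decide +kernel

def qL160_60_2_11 : PCt := .one ⟨2008000, 251, 2008000, -914042, 441579, 0, 0, 300000, 550000, 600000⟩ ⟨0,
 .pol, .pol, .pol, .pol, .sy 575000 (.sx 150000 (.sx 75000 (.aff 12000000 34785055 3478506) (.sx 112500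
 (.aff 12000000 26944388 4490732) (.aff 12100000 22200000 5550000))) (.aff 1500000 790570 316228)) (.sx
 150000 (.sx 75000 (.aff 12000000 35549653 3403691) (.sx 112500 (.aff 12000000 27536643 4394145) (.aff
 12300000 22363345 5709790))) (.sx 225000 (.sx 187500 (.aff 12700000 22463618 6093854) (.aff 1000000 0 0))
 (.aff 1000000 0 0))), .pol, .pol, .sx 150000 (.sx 75000 (.inf 3915781 255377) .pol) .pol, .pol⟩

def hL160_60_2_11 : pcchk ⟨(nat_lit 3), (nat_lit 1000), Int.ofNat (nat_lit 1000), 0, ⟨0, 1⟩, ⟨Int.ofNat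
 (nat_lit 60), 200⟩⟩ ⟨800000, 850000, 908191, 894532, 922059, 417256, 448290, 388374, 447213, 387298⟩ false
 (nat_lit 550) (Int.negSucc (nat_lit 3044)) (nat_lit 600) (Int.negSucc (nat_lit 5320)) qL160_60_2_11 = true
 := by decide +kernel

def qL160_60_2_12 : PCt := .one ⟨2008000, 251, 2008000, -1026490, 509048, 0, 0, 300000, 600000, 650000⟩ ⟨0,
 .pol, .pol, .pol, .pol, .sx 150000 (.aff 20000000 38783588 9308061) (.sx 225000 (.sx 187500 (.sx 168750
 (.aff 17700000 32139165 8677575) (.sx 178125 (.sy 625000 (.sx 173437 (.aff 13200000 23162658 6425861) (.aff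
 13100000 22662359 6460493)) (.aff 20000000 36426899 9910259)) (.sy 625000 (.aff 13300000 22659857 6676565)
 (.aff 20000000 35255308 10239593)))) (.sy 625000 (.aff 2000000 1763835 566947) (.aff 13800000 23033227
 7113203))) (.aff 1000000 0 0)), .pol, .pol, .sx 150000 (.inf 2309402 433013) .pol, .pol⟩

def hL160_60_2_12 : pcchk ⟨(nat_lit 3), (nat_lit 1000), Int.ofNat (nat_lit 1000), 0, ⟨0, 1⟩, ⟨Int.ofNat
 (nat_lit 60), 200⟩⟩ ⟨800000, 850000, 908191, 894532, 922059, 417256, 448290, 388374, 447213, 387298⟩ false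
 (nat_lit 600) (Int.negSucc (nat_lit 5320)) (nat_lit 650) (Int.negSucc (nat_lit 7876)) qL160_60_2_12 = true
 := by decide +kernel

def qL160_60_2_13 : PCt := .one ⟨2008000, 251, 2008000, -1180303, 609026, 0, 0, 300000, 650000, 700000⟩ ⟨0,
 .pol, .pol, .pol, .pol, .sx 150000 (.aff 12000000 23334524 5185450) (.sx 225000 (.sx 187500 (.aff 20000000
 38000000 9500000) (.sx 206250 (.aff 20000000 35181164 10261173) (.sy 675000 (.sx 215625 (.sy 662500 (.sx
 210937 (.aff 18800000 31396287 10091640) (.aff 14000000 22866436 7390746)) (.aff 20000000 33830515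
 10670840)) (.sx 220312 (.sy 662500 (.aff 13400000 21573965 7127109) (.aff 19300000 31883348 10503603)) (.sy
 662500 (.aff 1500000 858396 291241) (.sy 668750 (.aff 14100000 22709885 7556622) (.aff 20000000 33005069
 10937714))))) (.aff 20000000 33926605 10640617)))) (.sy 675000 (.sx 262500 (.sy 662500 (.aff 1000000 0 0)
 (.sy 668750 (.aff 2000000 1652504 605143) (.sy 671875 (.sx 243750 (.aff 14200000 22549864 7726876) (.aff
 1000000 0 0)) (.sx 243750 (.sx 234375 (.sx 229687 (.sx 227343 (.aff 20000000 32785614 11010927) (.aff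
 14100000 22517499 7621184)) (.aff 12000000 18739946 6456796)) (.aff 1000000 0 0)) (.aff 1000000 0 0)))))
 (.aff 1000000 0 0)) (.sy 687500 (.sx 262500 (.sx 243750 (.sx 234375 (.sx 229687 (.aff 20000000 32890130
 10975938) (.sy 681250 (.sy 678125 (.aff 14400000 22939575 7827521) (.aff 17800000 28609370 9865300)) (.aff
 20000000 32630796 11063169))) (.sy 681250 (.aff 13400000 20987478 7326274) (.sx 239062 (.sx 236718 (.aff
 19300000 31115911 10762661) (.sy 684375 (.aff 13600000 21373161 7428008) (.aff 20000000 32263226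
 11189210))) (.aff 13900000 21773064 7642930)))) (.aff 1500000 820268 304779)) (.aff 1000000 0 0)) (.sx
 262500 (.sx 243750 (.aff 17800000 28342521 9958183) (.sy 693750 (.aff 14400000 22341760 8036968) (.sy
 696875 (.sy 695312 (.sx 253125 (.aff 14400000 22511287 7976444) (.aff 1000000 0 0)) (.sx 253125 (.aff
 18000000 28191306 10251388) (.aff 1500000 821584 304291))) (.sx 253125 (.aff 19100000 30065943 10896382)
 (.aff 2000000 1645932 607559))))) (.aff 1000000 0 0))))), .pol, .pol, .sx 150000 (.inf 3000001 333334)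
 .pol, .pol⟩

def hL160_60_2_13 : pcchk ⟨(nat_lit 3), (nat_lit 1000), Int.ofNat (nat_lit 1000), 0, ⟨0, 1⟩, ⟨Int.ofNat
 (nat_lit 60), 200⟩⟩ ⟨800000, 850000, 908191, 894532, 922059, 417256, 448290, 388374, 447213, 387298⟩ false
 (nat_lit 650) (Int.negSucc (nat_lit 7876)) (nat_lit 700) (Int.negSucc (nat_lit 10815)) qL160_60_2_13 = true
 := by decide +kernel

def qL160_60_2_14 : PCt := .one ⟨2008000, 251, 2008000, -1318052, 705450, 0, 0, 300000, 700000, 750000⟩ ⟨0,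
 .pol, .pol, .pol, .pol, .sx 150000 (.aff 12000000 24183328 5003448) (.sx 225000 (.aff 20000000 37361300
 9662405) (.sx 262500 (.sy 725000 (.aff 17700000 27513400 10136516) (.aff 20000000 33049303 10923075)) (.sx
 281250 (.sy 725000 (.sx 271875 (.sx 267187 (.sy 712500 (.sy 706250 (.aff 1500000 814689 306866) (.sy 709375
 (.aff 2000000 1634800 611696) (.sy 710937 (.aff 12400000 18708973 6946400) (.aff 18200000 28072101
 10538578)))) (.aff 19000000 29522544 10974664)) (.sy 712500 (.aff 2000000 1618732 617768) (.aff 17700000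
 27153185 10270987))) (.sy 712500 (.aff 1000000 0 0) (.sy 718750 (.aff 3000000 3217186 1243323) (.aff
 17700000 26754770 10423936)))) (.aff 17900000 27366639 10436430)) (.sx 290625 (.sy 725000 (.aff 1500000
 789273 316748) (.aff 18000000 27080923 10671719)) (.sy 725000 (.aff 1000000 0 0) (.sy 737500 (.aff 3000000
 3147184 1270978) (.aff 18800000 28026759 11304911))))))), .pol, .pol, .sx 150000 (.inf 3109127 321634) (.sx
 225000 (.inf 1966385 508548) .pol), .pol⟩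

def hL160_60_2_14 : pcchk ⟨(nat_lit 3), (nat_lit 1000), Int.ofNat (nat_lit 1000), 0, ⟨0, 1⟩, ⟨Int.ofNat
 (nat_lit 60), 200⟩⟩ ⟨800000, 850000, 908191, 894532, 922059, 417256, 448290, 388374, 447213, 387298⟩ false
 (nat_lit 700) (Int.negSucc (nat_lit 10815)) (nat_lit 750) (Int.negSucc (nat_lit 14097)) qL160_60_2_14 =
 true := by decide +kernel

def qL160_60_2_15 : PCt := .one ⟨2008000, 251, 2008000, -6386244, 4506594, 0, 0, 300000, 750000, 800000⟩ ⟨0,
 .pol, .pol, .pol, .pol, .sx 150000 (.aff 20000000 49868717 7239008) (.sx 225000 (.aff 35000000 69124044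
 16723559) (.sx 262500 (.aff 35000000 60625797 19067791) (.inf 1659987 602415))), .pol, .pol, .sx 150000
 (.inf 3214551 311086) (.sy 775000 (.sx 225000 (.inf 2016598 495885) (.sx 262500 (.inf 1768674 565396) (.inf
 1646546 607332))) (.inf 1870829 534523)), .pol⟩

def hL160_60_2_15 : pcchk ⟨(nat_lit 3), (nat_lit 1000), Int.ofNat (nat_lit 1000), 0, ⟨0, 1⟩, ⟨Int.ofNat
 (nat_lit 60), 200⟩⟩ ⟨800000, 850000, 908191, 894532, 922059, 417256, 448290, 388374, 447213, 387298⟩ false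
 (nat_lit 750) (Int.negSucc (nat_lit 14097)) (nat_lit 800) (Int.negSucc (nat_lit 29999)) qL160_60_2_15 =
 true := by decide +kernel

def qL160_60_2_16 : PCt := .one ⟨2008000, 251, 2008000, 0, -602400, 0, 0, 300000, 800000, 850000⟩ ⟨0, .pol,
 .pol, .pol, .pol, .inf 1876167 533002, .pol, .pol, .inf 1876167 533002, .pol⟩

def hL160_60_2_16 : pcchk ⟨(nat_lit 3), (nat_lit 1000), Int.ofNat (nat_lit 1000), 0, ⟨0, 1⟩, ⟨Int.ofNat
 (nat_lit 60), 200⟩⟩ ⟨800000, 850000, 908191, 894532, 922059, 417256, 448290, 388374, 447213, 387298⟩ false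
 (nat_lit 800) (Int.negSucc (nat_lit 29999)) (nat_lit 850) (Int.negSucc (nat_lit 29999)) qL160_60_2_16 =
 true := by decide +kernel

def qL160_60_2_17 : PCt := .one ⟨2008000, 251, 2008000, 0, -602400, 0, 0, 300000, 850000, 900000⟩ ⟨0, .pol,
 .pol, .pol, .pol, .aff 35000000 58066055 19908362, .pol, .pol, .inf 1932184 517550, .pol⟩

def hL160_60_2_17 : pcchk ⟨(nat_lit 3), (nat_lit 1000), Int.ofNat (nat_lit 1000), 0, ⟨0, 1⟩, ⟨Int.ofNat
 (nat_lit 60), 200⟩⟩ ⟨800000, 850000, 908191, 894532, 922059, 417256, 448290, 388374, 447213, 387298⟩ false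
 (nat_lit 850) (Int.negSucc (nat_lit 29999)) (nat_lit 900) (Int.negSucc (nat_lit 29999)) qL160_60_2_17 =
 true := by decide +kernel

def qL160_60_2_18 : PCt := .one ⟨2008000, 251, 2008000, 0, -602400, 0, 0, 300000, 900000, 950000⟩ ⟨0, .pol,
 .pol, .pol, .pol, .aff 20000000 33362904 10820402, .pol, .pol, .inf 2483278 402694, .pol⟩

def hL160_60_2_18 : pcchk ⟨(nat_lit 3), (nat_lit 1000), Int.ofNat (nat_lit 1000), 0, ⟨0, 1⟩, ⟨Int.ofNat
 (nat_lit 60), 200⟩⟩ ⟨800000, 850000, 908191, 894532, 922059, 417256, 448290, 388374, 447213, 387298⟩ false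
 (nat_lit 900) (Int.negSucc (nat_lit 29999)) (nat_lit 950) (Int.negSucc (nat_lit 29999)) qL160_60_2_18 =
 true := by decide +kernel

def qL160_60_2_19 : PCt := .one ⟨2008000, 251, 2008000, 0, -602400, 0, 0, 300000, 950000, 1000000⟩ ⟨0, .pol,
 .pol, .pol, .pol, .aff 20000000 39551654 9127305, .pol, .pol, .inf 2549510 392233, .pol⟩

def hL160_60_2_19 : pcchk ⟨(nat_lit 3), (nat_lit 1000), Int.ofNat (nat_lit 1000), 0, ⟨0, 1⟩, ⟨Int.ofNat
 (nat_lit 60), 200⟩⟩ ⟨800000, 850000, 908191, 894532, 922059, 417256, 448290, 388374, 447213, 387298⟩ false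
 (nat_lit 950) (Int.negSucc (nat_lit 29999)) (nat_lit 1000) (Int.negSucc (nat_lit 29999)) qL160_60_2_19 =
 true := by decide +kernel

def qL160_60_3_0 : PCt := .one ⟨2008000, 251, 421680, 694366, 0, 0, 0, 300000, 0, 50000⟩ ⟨50000, .pol, .sp
 500000 (.aff 353554 2828423) .pol, .pol, .pol, .sx 175000 (.sy 25000 (.sx 112500 (.aff 0 359211 2783880)
 (.sx 143750 (.sy 12500 (.sy 6250 (.aff 0 161165 6204822) (.sx 128125 (.sy 9375 (.aff 0 254824 3924278) (.sx
 120312 (.aff 100000 278220 2911366) (.sx 124218 (.aff 125000 260669 2937155) (.aff 132000 256559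
 2936651)))) (.aff 225000 197918 3034717))) (.sx 128125 (.aff 125000 274052 2793722) (.aff 1000000 0 0)))
 (.aff 250000 200446 2806243))) (.aff 250000 433013 1299038)) (.aff 1000000 0 0), .pol, .pol, .pol, .pol⟩

def hL160_60_3_0 : pcchk ⟨(nat_lit 1), (nat_lit 1000), Int.ofNat (nat_lit 210), 0, ⟨0, 1⟩, ⟨Int.ofNat
 (nat_lit 60), 200⟩⟩ ⟨800000, 850000, 908191, 894532, 922059, 417256, 448290, 388374, 447213, 387298⟩ true 0
 0 (nat_lit 50) (Int.ofNat (nat_lit 1729)) qL160_60_3_0 = true := by decide +kernel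

def qL160_60_3_1 : PCt := .one ⟨2008000, 251, 421680, -102408, 39838, 0, 0, 300000, 50000, 100000⟩ ⟨0, .pol,
 .pol, .pol, .pol, .sy 75000 (.aff 500000 557492 448437) (.sy 87500 (.sx 150000 (.aff 500000 735981 339683)
 (.aff 1000000 0 0)) (.sy 93750 (.sx 150000 (.aff 500000 859030 291026) (.aff 1000000 0 0)) (.sx 150000 (.sx
 75000 (.aff 575000 1067637 169183) (.aff 1000000 0 0)) (.aff 1000000 0 0)))), .pol, .pol, .sx 150000 (.sy
 75000 (.sx 75000 (.sx 37500 .pol .pol) .pol) (.sx 75000 .pol .pol)) .pol, .pol⟩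

def hL160_60_3_1 : pcchk ⟨(nat_lit 1), (nat_lit 1000), Int.ofNat (nat_lit 210), 0, ⟨0, 1⟩, ⟨Int.ofNat
 (nat_lit 60), 200⟩⟩ ⟨800000, 850000, 908191, 894532, 922059, 417256, 448290, 388374, 447213, 387298⟩ false
 (nat_lit 50) (Int.ofNat (nat_lit 1729)) (nat_lit 100) (Int.ofNat (nat_lit 1474)) qL160_60_3_1 = true := by
 decide +kernel

def qL160_60_3_2 : PCt := .one ⟨2008000, 251, 421680, 24899, 27108, 0, 0, 300000, 100000, 150000⟩ ⟨0, .pol,
 .pol, .pol, .pol, .sx 150000 (.sy 125000 (.sy 112500 (.sx 75000 (.sx 37500 (.aff 600000 1159030 138047)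
 (.aff 1000000 0 0)) (.aff 1000000 0 0)) (.sx 75000 (.sx 37500 (.sx 18750 (.aff 625000 1238199 113573) (.aff
 1000000 0 0)) (.aff 1000000 0 0)) (.aff 1000000 0 0))) (.sx 75000 (.sy 137500 (.sx 37500 (.sy 131250 (.sx
 18750 (.aff 663000 1285385 88355) (.aff 1000000 0 0)) (.sx 18750 (.sx 9375 (.aff 625000 1419728 99051)
 (.aff 1000000 0 0)) (.aff 1000000 0 0))) (.aff 1000000 0 0)) (.sx 37500 (.aff 750000 1338060 46710) (.aff
 1000000 0 0))) (.aff 1000000 0 0))) (.aff 1000000 0 0), .pol, .pol, .sx 150000 (.sx 75000 .pol .pol) .pol,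
 .pol⟩

def hL160_60_3_2 : pcchk ⟨(nat_lit 1), (nat_lit 1000), Int.ofNat (nat_lit 210), 0, ⟨0, 1⟩, ⟨Int.ofNat
 (nat_lit 60), 200⟩⟩ ⟨800000, 850000, 908191, 894532, 922059, 417256, 448290, 388374, 447213, 387298⟩ false
 (nat_lit 100) (Int.ofNat (nat_lit 1474)) (nat_lit 150) (Int.ofNat (nat_lit 1536)) qL160_60_3_2 = true := by
 decide +kernel

def qL160_60_3_3 : PCt := .one ⟨2008000, 251, 421680, -46184, 37770, 0, 0, 300000, 150000, 200000⟩ ⟨0, .pol,
 .pol, .pol, .pol, .sx 150000 (.sx 75000 (.sx 37500 (.sx 18750 (.aff 888000 1532556 8186) (.aff 1000000 0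
 0)) (.aff 1000000 0 0)) (.aff 1000000 0 0)) (.aff 1000000 0 0), .pol, .pol, .sx 150000 .pol .pol, .pol⟩

def hL160_60_3_3 : pcchk ⟨(nat_lit 1), (nat_lit 1000), Int.ofNat (nat_lit 210), 0, ⟨0, 1⟩, ⟨Int.ofNat
 (nat_lit 60), 200⟩⟩ ⟨800000, 850000, 908191, 894532, 922059, 417256, 448290, 388374, 447213, 387298⟩ false
 (nat_lit 150) (Int.ofNat (nat_lit 1536)) (nat_lit 200) (Int.ofNat (nat_lit 1421)) qL160_60_3_3 = true := by
 decide +kernel

def qL160_60_3_4 : PCt := .one ⟨2008000, 251, 421680, -97589, 48051, 0, 0, 300000, 200000, 250000⟩ ⟨0, .pol,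
 .pol, .pol, .pol, .sx 150000 (.sx 75000 (.sx 37500 (.sx 18750 (.aff 1100000 1331681 7510) (.aff 1000000 0
 0)) (.aff 1000000 0 0)) (.aff 1000000 0 0)) (.aff 1000000 0 0), .pol, .pol, .sx 150000 .pol .pol, .pol⟩

def hL160_60_3_4 : pcchk ⟨(nat_lit 1), (nat_lit 1000), Int.ofNat (nat_lit 210), 0, ⟨0, 1⟩, ⟨Int.ofNat
 (nat_lit 60), 200⟩⟩ ⟨800000, 850000, 908191, 894532, 922059, 417256, 448290, 388374, 447213, 387298⟩ false
 (nat_lit 200) (Int.ofNat (nat_lit 1421)) (nat_lit 250) (Int.ofNat (nat_lit 1178)) qL160_60_3_4 = true := by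
 decide +kernel

def qL160_60_3_5 : PCt := .one ⟨2008000, 251, 421680, -153412, 62007, 0, 0, 300000, 250000, 300000⟩ ⟨0,
 .pol, .pol, .pol, .pol, .sx 150000 (.sy 275000 (.sx 75000 (.sx 37500 (.aff 1350000 2046806 59850) (.aff
 1000000 0 0)) (.aff 1000000 0 0)) (.sx 75000 (.sy 287500 (.sx 37500 (.aff 1375000 2053960 68466) (.aff
 1000000 0 0)) (.sy 293750 (.sy 290625 (.sx 37500 (.sx 18750 (.aff 1500000 2266912 110283) (.aff 1000000 0
 0)) (.aff 1000000 0 0)) (.sx 37500 (.sx 18750 (.aff 1500000 2279133 109691) (.aff 1000000 0 0)) (.aff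
 1000000 0 0))) (.sy 296875 (.sy 295312 (.sx 37500 (.sx 18750 (.aff 1500000 2288255 109254) (.aff 1000000 0
 0)) (.aff 1000000 0 0)) (.sx 37500 (.sx 18750 (.aff 1500000 2294316 108965) (.aff 1000000 0 0)) (.aff
 1000000 0 0))) (.sx 37500 (.aff 1569000 2270066 142622) (.aff 1000000 0 0))))) (.aff 1000000 0 0))) (.aff
 1000000 0 0), .pol, .pol, .sx 150000 .pol (.sx 225000 .pol .pol), .pol⟩

def hL160_60_3_5 : pcchk ⟨(nat_lit 1), (nat_lit 1000), Int.ofNat (nat_lit 210), 0, ⟨0, 1⟩, ⟨Int.ofNat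
 (nat_lit 60), 200⟩⟩ ⟨800000, 850000, 908191, 894532, 922059, 417256, 448290, 388374, 447213, 387298⟩ false
 (nat_lit 250) (Int.ofNat (nat_lit 1178)) (nat_lit 300) (Int.ofNat (nat_lit 796)) qL160_60_3_5 = true := by
 decide +kernel

def qL160_60_3_6 : PCt := .one ⟨2008000, 251, 421680, -197588, 75259, 0, 0, 300000, 300000, 350000⟩ ⟨0,
 .pol, .pol, .pol, .pol, .sx 150000 (.sy 325000 (.sy 312500 (.sy 306250 (.sy 303125 (.sx 75000 (.sx 37500
 (.aff 1575000 2305982 143378) (.aff 1000000 0 0)) (.aff 1000000 0 0)) (.sy 304687 (.sx 75000 (.sx 37500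
 (.aff 1550000 2214276 136614) (.aff 1000000 0 0)) (.aff 1000000 0 0)) (.sx 75000 (.sx 37500 (.aff 1550000
 2219961 136264) (.aff 1000000 0 0)) (.aff 1000000 0 0)))) (.sy 309375 (.sx 75000 (.sx 37500 (.aff 1550000
 2228462 135744) (.aff 1000000 0 0)) (.aff 1000000 0 0)) (.sx 75000 (.sx 37500 (.aff 1550000 2239746 135060)
 (.aff 1000000 0 0)) (.aff 1000000 0 0)))) (.sy 318750 (.sx 75000 (.sx 37500 (.aff 1550000 2256565 134054)
 (.aff 1000000 0 0)) (.aff 1000000 0 0)) (.sy 321875 (.sx 75000 (.sx 37500 (.aff 1550000 2273260 133069)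
 (.aff 1000000 0 0)) (.aff 1000000 0 0)) (.sx 75000 (.sx 37500 (.aff 1550000 2284322 132425) (.aff 1000000 0
 0)) (.aff 1000000 0 0))))) (.sy 337500 (.sy 331250 (.sy 328125 (.sy 326562 (.sx 75000 (.sx 37500 (.aff
 1550000 2292583 131948) (.aff 1000000 0 0)) (.aff 1000000 0 0)) (.sx 75000 (.sx 37500 (.aff 1550000 2298074
 131632) (.aff 1000000 0 0)) (.aff 1000000 0 0))) (.sx 75000 (.sx 37500 (.aff 1537000 2251775 128063) (.aff
 1000000 0 0)) (.aff 1000000 0 0))) (.sy 334375 (.sx 75000 (.sx 37500 (.aff 1525000 2211865 124613) (.aff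
 1000000 0 0)) (.aff 1000000 0 0)) (.sx 75000 (.sx 37500 (.aff 1525000 2222225 124032) (.aff 1000000 0 0))
 (.aff 1000000 0 0)))) (.sy 343750 (.sy 340625 (.sx 75000 (.sx 37500 (.aff 1525000 2232537 123459) (.aff
 1000000 0 0)) (.aff 1000000 0 0)) (.sy 342187 (.sx 75000 (.sx 37500 (.aff 1525000 2240239 123034) (.aff
 1000000 0 0)) (.aff 1000000 0 0)) (.sy 342968 (.sx 75000 (.sx 37500 (.aff 1525000 2244079 122824) (.aff
 1000000 0 0)) (.aff 1000000 0 0)) (.sx 75000 (.sx 37500 (.aff 1525000 2246637 122684) (.aff 1000000 0 0))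
 (.aff 1000000 0 0))))) (.sx 75000 (.sx 37500 (.aff 1519000 2232304 120666) (.aff 1000000 0 0)) (.aff
 1000000 0 0))))) (.aff 1000000 0 0), .pol, .pol, .pol, .pol⟩

def hL160_60_3_6 : pcchk ⟨(nat_lit 1), (nat_lit 1000), Int.ofNat (nat_lit 210), 0, ⟨0, 1⟩, ⟨Int.ofNat
 (nat_lit 60), 200⟩⟩ ⟨800000, 850000, 908191, 894532, 922059, 417256, 448290, 388374, 447213, 387298⟩ false
 (nat_lit 300) (Int.ofNat (nat_lit 796)) (nat_lit 350) (Int.ofNat (nat_lit 304)) qL160_60_3_6 = true := by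
 decide +kernel

def qL160_60_3_7 : PCt := .one ⟨2008000, 251, 421680, -248189, 92970, 0, 0, 300000, 350000, 400000⟩ ⟨0,
 .pol, .pol, .pol, .pol, .sy 375000 (.sx 150000 (.sy 362500 (.sy 356250 (.sx 75000 (.sx 37500 (.aff 1850000
 2608360 276994) (.aff 1000000 0 0)) (.aff 1000000 0 0)) (.sx 75000 (.sx 37500 (.aff 1850000 2631342 274575)
 (.aff 1000000 0 0)) (.aff 1000000 0 0))) (.sy 368750 (.sx 75000 (.sx 37500 (.aff 1900000 2810250 288231)
 (.aff 1000000 0 0)) (.aff 1000000 0 0)) (.sx 75000 (.sx 37500 (.aff 2000000 3149074 317554) (.aff 1000000 0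
 0)) (.aff 1000000 0 0)))) (.aff 1000000 0 0)) (.sx 150000 (.sy 387500 (.sy 381250 (.sy 378125 (.sx 75000
 (.sx 37500 (.aff 2000000 3168859 315571) (.aff 1600000 2077104 173319)) (.aff 1000000 0 0)) (.sx 75000 (.sx
 37500 (.aff 2000000 3181981 314270) (.aff 1650000 2259513 186988)) (.aff 1000000 0 0))) (.sy 384375 (.sx
 75000 (.sx 37500 (.aff 2000000 3195049 312985) (.aff 1650000 2052888 205808)) (.aff 1000000 0 0)) (.sx
 75000 (.sx 37500 (.aff 2000000 3704352 269953) (.sx 56250 (.sx 46875 (.aff 2000000 2869379 348508) (.aff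
 1000000 0 0)) (.aff 1000000 0 0))) (.aff 1000000 0 0)))) (.sy 393750 (.sx 75000 (.sx 37500 (.aff 2000000
 3726780 268329) (.sx 56250 (.aff 1950000 2614789 345153) (.aff 1000000 0 0))) (.aff 1000000 0 0)) (.sy
 396875 (.sx 75000 (.sx 37500 (.aff 2000000 3749074 266733) (.sx 56250 (.aff 2000000 2768875 361158) (.aff
 1000000 0 0))) (.aff 1000000 0 0)) (.sx 75000 (.sx 37500 (.aff 2000000 3763864 265685) (.aff 2000000
 2661454 375735)) (.aff 1000000 0 0))))) (.aff 1000000 0 0)), .pol, .pol, .pol, .pol⟩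

def hL160_60_3_7 : pcchk ⟨(nat_lit 1), (nat_lit 1000), Int.ofNat (nat_lit 210), 0, ⟨0, 1⟩, ⟨Int.ofNat
 (nat_lit 60), 200⟩⟩ ⟨800000, 850000, 908191, 894532, 922059, 417256, 448290, 388374, 447213, 387298⟩ false
 (nat_lit 350) (Int.ofNat (nat_lit 304)) (nat_lit 400) (Int.negSucc (nat_lit 313)) qL160_60_3_7 = true := by
 decide +kernel

def qL160_60_3_8 : PCt := .one ⟨2008000, 251, 421680, -290759, 109998, 0, 0, 300000, 400000, 450000⟩ ⟨0,
 .pol, .pol, .pol, .pol, .sy 425000 (.sx 150000 (.sx 75000 (.sx 37500 (.aff 2000000 3829709 261117) (.aff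
 2000000 2708013 369275)) (.aff 1000000 0 0)) (.aff 1000000 0 0)) (.sx 150000 (.sx 75000 (.sy 437500 (.sx
 37500 (.aff 2000000 3915781 255377) (.aff 1950000 2630431 343100)) (.sx 37500 (.aff 2000000 3972126 251755)
 (.aff 2100000 2860403 423018))) (.aff 1000000 0 0)) (.aff 1000000 0 0)), .pol, .pol, .pol, .pol⟩

def hL160_60_3_8 : pcchk ⟨(nat_lit 1), (nat_lit 1000), Int.ofNat (nat_lit 210), 0, ⟨0, 1⟩, ⟨Int.ofNat
 (nat_lit 60), 200⟩⟩ ⟨800000, 850000, 908191, 894532, 922059, 417256, 448290, 388374, 447213, 387298⟩ false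
 (nat_lit 400) (Int.negSucc (nat_lit 313)) (nat_lit 450) (Int.negSucc (nat_lit 1037)) qL160_60_3_8 = true :=
 by decide +kernel

def qL160_60_3_9 : PCt := .one ⟨2008000, 251, 421680, -337746, 131142, 0, 0, 300000, 450000, 500000⟩ ⟨0,
 .pol, .pol, .pol, .pol, .sy 475000 (.sy 462500 (.sx 150000 (.sx 75000 (.aff 2600000 3946307 648708) (.sx
 112500 (.aff 2100000 2557922 473041) (.aff 1000000 0 0))) (.aff 1000000 0 0)) (.sx 150000 (.sx 75000 (.aff
 3000000 5000000 800000) (.sx 112500 (.aff 2200000 2828428 509117) (.aff 1000000 0 0))) (.aff 1000000 0 0)))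
 (.sy 487500 (.sx 150000 (.sx 75000 (.aff 3000000 5849977 683764) (.sx 112500 (.aff 2150000 2746480 481526)
 (.aff 1000000 0 0))) (.aff 1000000 0 0)) (.sx 150000 (.sx 75000 (.aff 3000000 5925463 675053) (.aff 2216000
 2790626 529866)) (.aff 1000000 0 0))), .pol, .pol, .pol, .pol⟩

def hL160_60_3_9 : pcchk ⟨(nat_lit 1), (nat_lit 1000), Int.ofNat (nat_lit 210), 0, ⟨0, 1⟩, ⟨Int.ofNat
 (nat_lit 60), 200⟩⟩ ⟨800000, 850000, 908191, 894532, 922059, 417256, 448290, 388374, 447213, 387298⟩ false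
 (nat_lit 450) (Int.negSucc (nat_lit 1037)) (nat_lit 500) (Int.negSucc (nat_lit 1878)) qL160_60_3_9 = true
 := by decide +kernel

def qL160_60_3_10 : PCt := .one ⟨2008000, 251, 421680, -380717, 152628, 0, 0, 300000, 500000, 550000⟩ ⟨0,
 .pol, .pol, .pol, .pol, .sx 150000 (.sx 75000 (.aff 3000000 6110101 654654) (.sx 112500 (.aff 2500000
 3240371 694365) (.aff 2400000 2905698 674537))) (.aff 1000000 0 0), .pol, .pol, .pol, .pol⟩

def hL160_60_3_10 : pcchk ⟨(nat_lit 1), (nat_lit 1000), Int.ofNat (nat_lit 210), 0, ⟨0, 1⟩, ⟨Int.ofNat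
 (nat_lit 60), 200⟩⟩ ⟨800000, 850000, 908191, 894532, 922059, 417256, 448290, 388374, 447213, 387298⟩ false
 (nat_lit 500) (Int.negSucc (nat_lit 1878)) (nat_lit 550) (Int.negSucc (nat_lit 2826)) qL160_60_3_10 = true
 := by decide +kernel

def qL160_60_3_11 : PCt := .one ⟨2008000, 251, 421680, -430114, 179796, 0, 0, 300000, 550000, 600000⟩ ⟨0,
 .pol, .pol, .pol, .pol, .sx 150000 (.sx 75000 (.aff 3000000 7831561 510754) (.aff 2725000 3377361 881051))
 (.sx 225000 (.aff 2676000 3163585 887910) (.aff 1000000 0 0)), .pol, .pol, .pol, .pol⟩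

def hL160_60_3_11 : pcchk ⟨(nat_lit 1), (nat_lit 1000), Int.ofNat (nat_lit 210), 0, ⟨0, 1⟩, ⟨Int.ofNat
 (nat_lit 60), 200⟩⟩ ⟨800000, 850000, 908191, 894532, 922059, 417256, 448290, 388374, 447213, 387298⟩ false
 (nat_lit 550) (Int.negSucc (nat_lit 2826)) (nat_lit 600) (Int.negSucc (nat_lit 3897)) qL160_60_3_11 = true
 := by decide +kernel

def qL160_60_3_12 : PCt := .one ⟨2008000, 251, 421680, -112448, -10804, 0, 0, 300000, 600000, 650000⟩ ⟨0,
 .pol, .pol, .pol, .pol, .sy 625000 (.sy 612500 (.sx 150000 (.aff 3000000 4020780 994832) (.sy 606250 (.sy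
 603125 (.sx 225000 (.sx 187500 (.aff 2982000 3572381 1099638) (.aff 1000000 0 0)) (.aff 1000000 0 0)) (.aff
 2400000 2778577 705398)) (.aff 2250000 2490470 627392))) (.sx 150000 (.aff 3000000 4690416 852803) (.aff
 3200000 3648288 1326650))) (.sx 150000 (.aff 3000000 4760953 840168) (.aff 2000000 1843909 542327)), .pol,
 .sy 625000 (.aff 3025000 3341080 1227336) (.sy 637500 (.sx 150000 .pol (.aff 2000000 1674980 597023)) (.sy
 643750 (.sx 150000 (.aff 3000000 4772608 838117) (.aff 2000000 1848423 541002)) (.sx 150000 (.aff 3000000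
 4795832 834058) (.sx 225000 (.aff 2641000 2782451 967809) (.aff 1500000 784903 318511))))), .pol, .pol⟩

def hL160_60_3_12 : pcchk ⟨(nat_lit 1), (nat_lit 1000), Int.ofNat (nat_lit 210), 0, ⟨0, 1⟩, ⟨Int.ofNat
 (nat_lit 60), 200⟩⟩ ⟨800000, 850000, 908191, 894532, 922059, 417256, 448290, 388374, 447213, 387298⟩ false
 (nat_lit 600) (Int.negSucc (nat_lit 3897)) (nat_lit 650) (Int.negSucc (nat_lit 4177)) qL160_60_3_12 = true
 := by decide +kernel

def qL160_60_3_13 : PCt := .one ⟨2008000, 251, 421680, 250196, -246523, 0, 0, 300000, 650000, 700000⟩ ⟨0,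
 .pol, .pol, .pol, .pol, .aff 3000000 4242641 942809, .pol, .sx 150000 (.aff 3000000 4898980 816497) (.sx
 225000 (.aff 2600000 2771282 923761) (.aff 2300000 2163331 781203)), .pol, .pol⟩

def hL160_60_3_13 : pcchk ⟨(nat_lit 1), (nat_lit 1000), Int.ofNat (nat_lit 210), 0, ⟨0, 1⟩, ⟨Int.ofNat
 (nat_lit 60), 200⟩⟩ ⟨800000, 850000, 908191, 894532, 922059, 417256, 448290, 388374, 447213, 387298⟩ false
 (nat_lit 650) (Int.negSucc (nat_lit 4177)) (nat_lit 700) (Int.negSucc (nat_lit 3554)) qL160_60_3_13 = true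
 := by decide +kernel

def qL160_60_3_14 : PCt := .one ⟨2008000, 251, 421680, 263048, -255518, 0, 0, 300000, 700000, 750000⟩ ⟨0,
 .pol, .pol, .pol, .pol, .aff 1500000 1554564 160817, .pol, .sx 150000 (.aff 3000000 5077183 787839) (.sx
 225000 (.aff 3000000 3932769 1017096) (.sx 262500 (.aff 2800000 2991417 1083099) (.aff 2500000 2331845
 964902))), .pol, .pol⟩

def hL160_60_3_14 : pcchk ⟨(nat_lit 1), (nat_lit 1000), Int.ofNat (nat_lit 210), 0, ⟨0, 1⟩, ⟨Int.ofNat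
 (nat_lit 60), 200⟩⟩ ⟨800000, 850000, 908191, 894532, 922059, 417256, 448290, 388374, 447213, 387298⟩ false
 (nat_lit 700) (Int.negSucc (nat_lit 3554)) (nat_lit 750) (Int.negSucc (nat_lit 2899)) qL160_60_3_14 = true
 := by decide +kernel

def qL160_60_3_15 : PCt := .one ⟨2008000, 251, 421680, -10883360, 8104288, 0, 0, 300000, 750000, 800000⟩ ⟨0,
 .pol, .pol, .pol, .pol, .aff 1500000 1136516 219971, .pol, .sx 150000 (.aff 20000000 49868717 7239008) (.sx
 225000 (.aff 35000000 69124044 16723559) (.sx 262500 (.inf 1783112 560818) (.inf 1659987 602415))), .sy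
 775000 (.sy 762500 .pol (.sy 768750 (.inf 1807393 553284) (.inf 1814755 551039))) (.inf 1833031 545545),
 .pol⟩

def hL160_60_3_15 : pcchk ⟨(nat_lit 1), (nat_lit 1000), Int.ofNat (nat_lit 210), 0, ⟨0, 1⟩, ⟨Int.ofNat
 (nat_lit 60), 200⟩⟩ ⟨800000, 850000, 908191, 894532, 922059, 417256, 448290, 388374, 447213, 387298⟩ false
 (nat_lit 750) (Int.negSucc (nat_lit 2899)) (nat_lit 800) (Int.negSucc (nat_lit 29999)) qL160_60_3_15 = true
 := by decide +kernel

def qL160_60_3_16 : PCt := .one ⟨2008000, 251, 421680, 0, -602400, 0, 0, 300000, 800000, 850000⟩ ⟨0, .pol,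
 .pol, .pol, .pol, .aff 1000000 0 0, .pol, .inf 1876167 533002, .inf 1876167 533002, .pol⟩

def hL160_60_3_16 : pcchk ⟨(nat_lit 1), (nat_lit 1000), Int.ofNat (nat_lit 210), 0, ⟨0, 1⟩, ⟨Int.ofNat
 (nat_lit 60), 200⟩⟩ ⟨800000, 850000, 908191, 894532, 922059, 417256, 448290, 388374, 447213, 387298⟩ false
 (nat_lit 800) (Int.negSucc (nat_lit 29999)) (nat_lit 850) (Int.negSucc (nat_lit 29999)) qL160_60_3_16 =
 true := by decide +kernel

def qL160_60_3_17 : PCt := .one ⟨2008000, 251, 421680, 0, -602400, 0, 0, 300000, 850000, 900000⟩ ⟨0, .pol,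
 .pol, .pol, .pol, .aff 1000000 0 0, .pol, .inf 1932184 517550, .inf 1932184 517550, .pol⟩

def hL160_60_3_17 : pcchk ⟨(nat_lit 1), (nat_lit 1000), Int.ofNat (nat_lit 210), 0, ⟨0, 1⟩, ⟨Int.ofNat
 (nat_lit 60), 200⟩⟩ ⟨800000, 850000, 908191, 894532, 922059, 417256, 448290, 388374, 447213, 387298⟩ false
 (nat_lit 850) (Int.negSucc (nat_lit 29999)) (nat_lit 900) (Int.negSucc (nat_lit 29999)) qL160_60_3_17 =
 true := by decide +kernel

def qL160_60_3_18 : PCt := .one ⟨2008000, 251, 421680, 0, -602400, 0, 0, 300000, 900000, 950000⟩ ⟨0, .pol,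
 .pol, .pol, .pol, .aff 1000000 0 0, .pol, .aff 35000000 68937976 16768697, .inf 2483278 402694, .pol⟩

def hL160_60_3_18 : pcchk ⟨(nat_lit 1), (nat_lit 1000), Int.ofNat (nat_lit 210), 0, ⟨0, 1⟩, ⟨Int.ofNat
 (nat_lit 60), 200⟩⟩ ⟨800000, 850000, 908191, 894532, 922059, 417256, 448290, 388374, 447213, 387298⟩ false
 (nat_lit 900) (Int.negSucc (nat_lit 29999)) (nat_lit 950) (Int.negSucc (nat_lit 29999)) qL160_60_3_18 =
 true := by decide +kernel

def qL160_60_3_19 : PCt := .one ⟨2008000, 251, 421680, 0, -602400, 0, 0, 300000, 950000, 1000000⟩ ⟨0, .pol,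
 .pol, .pol, .pol, .aff 1000000 0 0, .pol, .aff 35000000 70776644 16333072, .inf 2549510 392233, .pol⟩

def hL160_60_3_19 : pcchk ⟨(nat_lit 1), (nat_lit 1000), Int.ofNat (nat_lit 210), 0, ⟨0, 1⟩, ⟨Int.ofNat
 (nat_lit 60), 200⟩⟩ ⟨800000, 850000, 908191, 894532, 922059, 417256, 448290, 388374, 447213, 387298⟩ false
 (nat_lit 950) (Int.negSucc (nat_lit 29999)) (nat_lit 1000) (Int.negSucc (nat_lit 29999)) qL160_60_3_19 =
 true := by decide +kernel

def qL160_60_4_0 : PCt := .one ⟨2008000, 251, 502000, 373889, 0, 0, 0, 300000, 0, 50000⟩ ⟨50000, .aff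
 1154701 866026, .sp 500000 .pol (.aff 866026 1154700), .pol, .pol, .sx 175000 (.sx 112500 (.sy 25000 .pol
 (.aff 50000 713276 1265289)) (.aff 500000 208515 1198955)) (.aff 1000000 0 0), .aff 0 1154701 866026, .pol,
 .pol, .pol⟩

def hL160_60_4_0 : pcchk ⟨(nat_lit 1), (nat_lit 1000), Int.ofNat (nat_lit 250), 0, ⟨0, 1⟩, ⟨Int.ofNat
 (nat_lit 60), 200⟩⟩ ⟨800000, 850000, 908191, 894532, 922059, 417256, 448290, 388374, 447213, 387298⟩ true 0
 0 (nat_lit 50) (Int.ofNat (nat_lit 931)) qL160_60_4_0 = true := by decide +kernel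

def qL160_60_4_1 : PCt := .one ⟨2008000, 251, 502000, 210840, 8152, 0, 0, 300000, 50000, 100000⟩ ⟨0, .pol,
 .pol, .pol, .pol, .sx 150000 (.sx 75000 (.sy 75000 (.sy 62500 (.sx 37500 (.aff 125000 1237437 618719) (.sy
 56250 (.aff 125000 850348 900367) (.aff 200000 900371 710819))) (.sx 37500 (.aff 175000 1117056 609303)
 (.aff 250000 1003822 560359))) (.sx 37500 (.aff 250000 1145644 490991) (.aff 1000000 0 0))) (.aff 1000000 0
 0)) (.aff 1000000 0 0), .pol, .pol, .sy 75000 (.sy 62500 (.sx 150000 (.sy 56250 (.sy 53125 (.sy 51562 (.sx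
 75000 (.sx 37500 .pol .pol) .pol) (.sx 75000 (.sx 37500 .pol .pol) .pol)) (.sy 54687 (.sx 75000 (.sx 37500
 .pol .pol) .pol) (.sx 75000 (.sx 37500 .pol .pol) .pol))) (.sy 59375 (.sy 57812 (.sx 75000 (.sx 37500 .pol
 .pol) .pol) (.sx 75000 (.sx 37500 .pol .pol) .pol)) (.sy 60937 (.sx 75000 (.sx 37500 .pol .pol) .pol) (.sx
 75000 (.sx 37500 .pol .pol) .pol)))) .pol) (.sx 150000 (.sy 68750 (.sy 65625 (.sy 64062 (.sx 75000 (.sx
 37500 .pol .pol) .pol) (.sx 75000 (.sx 37500 .pol .pol) .pol)) (.sy 67187 (.sx 75000 (.sx 37500 .pol .pol)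
 .pol) (.sx 75000 (.sx 37500 .pol .pol) .pol))) (.sy 71875 (.sy 70312 (.sx 75000 (.sx 37500 .pol .pol) .pol)
 (.sx 75000 (.sx 37500 .pol .pol) .pol)) (.sy 73437 (.sx 75000 (.sx 37500 .pol .pol) .pol) (.sx 75000 (.sx
 37500 .pol .pol) .pol)))) .pol)) (.sy 87500 (.sx 150000 (.sx 75000 .pol .pol) .pol) (.sx 150000 (.sx 75000
 .pol .pol) .pol)), .pol⟩

def hL160_60_4_1 : pcchk ⟨(nat_lit 1), (nat_lit 1000), Int.ofNat (nat_lit 250), 0, ⟨0, 1⟩, ⟨Int.ofNat
 (nat_lit 60), 200⟩⟩ ⟨800000, 850000, 908191, 894532, 922059, 417256, 448290, 388374, 447213, 387298⟩ false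
 (nat_lit 50) (Int.ofNat (nat_lit 931)) (nat_lit 100) (Int.ofNat (nat_lit 1456)) qL160_60_4_1 = true := by
 decide +kernel

def qL160_60_4_2 : PCt := .one ⟨2008000, 251, 502000, 20883, 27148, 0, 0, 300000, 100000, 150000⟩ ⟨0, .pol,
 .pol, .pol, .pol, .sx 150000 (.sy 125000 (.sy 112500 (.sx 75000 (.aff 450000 1309262 231047) (.aff 1000000
 0 0)) (.sy 118750 (.sx 75000 (.aff 500000 1372223 182187) (.aff 1000000 0 0)) (.sx 75000 (.sx 37500 (.aff
 575000 1532360 117874) (.aff 1000000 0 0)) (.aff 1000000 0 0)))) (.sx 75000 (.sx 37500 (.aff 650000 1557321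
 78661) (.aff 1000000 0 0)) (.aff 1000000 0 0))) (.aff 1000000 0 0), .pol, .pol, .sy 125000 (.sx 150000 (.sx
 75000 .pol .pol) .pol) (.sx 150000 (.sx 75000 .pol .pol) .pol), .pol⟩

def hL160_60_4_2 : pcchk ⟨(nat_lit 1), (nat_lit 1000), Int.ofNat (nat_lit 250), 0, ⟨0, 1⟩, ⟨Int.ofNat
 (nat_lit 60), 200⟩⟩ ⟨800000, 850000, 908191, 894532, 922059, 417256, 448290, 388374, 447213, 387298⟩ false
 (nat_lit 100) (Int.ofNat (nat_lit 1456)) (nat_lit 150) (Int.ofNat (nat_lit 1508)) qL160_60_4_2 = true := by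
 decide +kernel

def qL160_60_4_3 : PCt := .one ⟨2008000, 251, 502000, -26908, 34316, 0, 0, 300000, 150000, 200000⟩ ⟨0, .pol,
 .pol, .pol, .pol, .sx 150000 (.sx 75000 (.sy 175000 (.sy 162500 (.sy 156250 (.sx 37500 (.sx 18750 (.aff
 750000 1745225 35813) (.aff 1000000 0 0)) (.aff 1000000 0 0)) (.sx 37500 (.sx 18750 (.aff 800000 1739752
 22992) (.aff 1000000 0 0)) (.aff 1000000 0 0))) (.sx 37500 (.aff 825000 1758950 17411) (.aff 1000000 0 0)))
 (.sx 37500 (.sx 18750 (.aff 875000 1759445 8881) (.aff 1000000 0 0)) (.aff 1000000 0 0))) (.aff 1000000 0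
 0)) (.aff 1000000 0 0), .pol, .pol, .sx 150000 .pol .pol, .pol⟩

def hL160_60_4_3 : pcchk ⟨(nat_lit 1), (nat_lit 1000), Int.ofNat (nat_lit 250), 0, ⟨0, 1⟩, ⟨Int.ofNat
 (nat_lit 60), 200⟩⟩ ⟨800000, 850000, 908191, 894532, 922059, 417256, 448290, 388374, 447213, 387298⟩ false
 (nat_lit 150) (Int.ofNat (nat_lit 1508)) (nat_lit 200) (Int.ofNat (nat_lit 1441)) qL160_60_4_3 = true := by
 decide +kernel

def qL160_60_4_4 : PCt := .one ⟨2008000, 251, 502000, -114456, 51826, 0, 0, 300000, 200000, 250000⟩ ⟨0,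
 .pol, .pol, .pol, .pol, .sx 150000 (.sx 75000 (.sx 37500 (.sx 18750 (.aff 1150000 1893602 11883) (.aff
 1000000 0 0)) (.aff 1000000 0 0)) (.aff 1000000 0 0)) (.aff 1000000 0 0), .pol, .pol, .sx 150000 .pol .pol,
 .pol⟩

def hL160_60_4_4 : pcchk ⟨(nat_lit 1), (nat_lit 1000), Int.ofNat (nat_lit 250), 0, ⟨0, 1⟩, ⟨Int.ofNat
 (nat_lit 60), 200⟩⟩ ⟨800000, 850000, 908191, 894532, 922059, 417256, 448290, 388374, 447213, 387298⟩ false
 (nat_lit 200) (Int.ofNat (nat_lit 1441)) (nat_lit 250) (Int.ofNat (nat_lit 1156)) qL160_60_4_4 = true := by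
 decide +kernel

def qL160_60_4_5 : PCt := .one ⟨2008000, 251, 502000, -165861, 64677, 0, 0, 300000, 250000, 300000⟩ ⟨0,
 .pol, .pol, .pol, .pol, .sx 150000 (.sy 275000 (.sx 75000 (.sx 37500 (.sx 18750 (.aff 1375000 2423646
 58023) (.aff 1000000 0 0)) (.aff 1000000 0 0)) (.aff 1000000 0 0)) (.sx 75000 (.sx 37500 (.aff 1438000
 2425535 79094) (.aff 1000000 0 0)) (.aff 1000000 0 0))) (.aff 1000000 0 0), .pol, .pol, .sy 275000 (.sx
 150000 .pol .pol) (.sx 150000 .pol (.sx 225000 .pol .pol)), .pol⟩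

def hL160_60_4_5 : pcchk ⟨(nat_lit 1), (nat_lit 1000), Int.ofNat (nat_lit 250), 0, ⟨0, 1⟩, ⟨Int.ofNat
 (nat_lit 60), 200⟩⟩ ⟨800000, 850000, 908191, 894532, 922059, 417256, 448290, 388374, 447213, 387298⟩ false
 (nat_lit 250) (Int.ofNat (nat_lit 1156)) (nat_lit 300) (Int.ofNat (nat_lit 743)) qL160_60_4_5 = true := by
 decide +kernel

def qL160_60_4_6 : PCt := .one ⟨2008000, 251, 502000, -223692, 82026, 0, 0, 300000, 300000, 350000⟩ ⟨0,
 .pol, .pol, .pol, .pol, .sx 150000 (.sy 325000 (.sx 75000 (.sx 37500 (.aff 1650000 2653614 159217) (.aff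
 1000000 0 0)) (.aff 1000000 0 0)) (.sx 75000 (.sy 337500 (.sx 37500 (.sx 18750 (.aff 2000000 4853407
 206041) (.aff 1700000 2631603 186199)) (.aff 1000000 0 0)) (.sx 37500 (.sy 343750 (.sx 18750 (.aff 2000000
 4921608 203186) (.aff 1700000 2668583 183619)) (.sx 18750 (.aff 2000000 4966555 201347) (.aff 1931000
 2958156 293008))) (.aff 1000000 0 0))) (.aff 1000000 0 0))) (.aff 1000000 0 0), .pol, .pol, .pol, .pol⟩

def hL160_60_4_6 : pcchk ⟨(nat_lit 1), (nat_lit 1000), Int.ofNat (nat_lit 250), 0, ⟨0, 1⟩, ⟨Int.ofNat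
 (nat_lit 60), 200⟩⟩ ⟨800000, 850000, 908191, 894532, 922059, 417256, 448290, 388374, 447213, 387298⟩ false
 (nat_lit 300) (Int.ofNat (nat_lit 743)) (nat_lit 350) (Int.ofNat (nat_lit 186)) qL160_60_4_6 = true := by
 decide +kernel

def qL160_60_4_7 : PCt := .one ⟨2008000, 251, 502000, -275096, 100018, 0, 0, 300000, 350000, 400000⟩ ⟨0,
 .pol, .pol, .pol, .pol, .sx 150000 (.sy 375000 (.sy 362500 (.sx 75000 (.sx 37500 (.aff 1988000 3045221
 320550) (.aff 1000000 0 0)) (.aff 1000000 0 0)) (.sx 75000 (.sx 37500 (.aff 2000000 3135815 318897) (.aff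
 1000000 0 0)) (.aff 1000000 0 0))) (.sy 387500 (.sy 381250 (.sy 378125 (.sy 376562 (.sy 375781 (.sx 75000
 (.sx 37500 (.aff 2000000 3163924 316064) (.aff 1000000 0 0)) (.aff 1000000 0 0)) (.sx 75000 (.sx 37500
 (.aff 2000000 3167214 315735) (.aff 1950000 2829181 318997)) (.aff 1000000 0 0))) (.sx 75000 (.sx 37500
 (.aff 2000000 3172144 315245) (.aff 2050000 2997792 367771)) (.aff 1000000 0 0))) (.sx 75000 (.sx 37500
 (.aff 2000000 3181981 314270) (.aff 2000000 2846050 351365)) (.aff 1000000 0 0))) (.sy 384375 (.sx 75000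
 (.sx 37500 (.aff 2000000 3195049 312985) (.aff 2000000 2857739 349927)) (.aff 1000000 0 0)) (.sx 75000 (.sx
 37500 (.aff 2000000 3208063 311715) (.aff 2000000 2869379 348508)) (.aff 1000000 0 0)))) (.sy 393750 (.sy
 390625 (.sx 75000 (.sx 37500 (.aff 2000000 3221025 310461) (.aff 2000000 2880973 347105)) (.aff 1000000 0
 0)) (.sy 392187 (.sx 75000 (.sx 37500 (.aff 2000000 3730504 268061) (.aff 2000000 2889636 346065)) (.aff
 1000000 0 0)) (.sx 75000 (.sx 37500 (.aff 2000000 3737943 267527) (.aff 2000000 2895398 345376)) (.aff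
 1000000 0 0)))) (.sy 396875 (.sy 395312 (.sx 75000 (.sx 37500 (.aff 2000000 3745367 266997) (.aff 2000000
 2901149 344692)) (.aff 1000000 0 0)) (.sx 75000 (.sx 37500 (.aff 2000000 3752776 266470) (.aff 2000000
 2906888 344011)) (.aff 1000000 0 0))) (.sy 398437 (.sy 397656 (.sx 75000 (.sx 37500 (.aff 2000000 3758324
 266077) (.aff 2000000 2911185 343503)) (.aff 1000000 0 0)) (.sx 75000 (.sx 37500 (.aff 2000000 3762017
 265815) (.aff 2000000 2914046 343166)) (.aff 1000000 0 0))) (.sx 75000 (.sx 37500 (.aff 2000000 3767551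
 265425) (.aff 2000000 2918332 342662)) (.aff 1000000 0 0))))))) (.aff 1000000 0 0), .pol, .pol, .pol, .pol⟩

def hL160_60_4_7 : pcchk ⟨(nat_lit 1), (nat_lit 1000), Int.ofNat (nat_lit 250), 0, ⟨0, 1⟩, ⟨Int.ofNat
 (nat_lit 60), 200⟩⟩ ⟨800000, 850000, 908191, 894532, 922059, 417256, 448290, 388374, 447213, 387298⟩ false
 (nat_lit 350) (Int.ofNat (nat_lit 186)) (nat_lit 400) (Int.negSucc (nat_lit 498)) qL160_60_4_7 = true := by
 decide +kernel

def qL160_60_4_8 : PCt := .one ⟨2008000, 251, 502000, -328911, 121544, 0, 0, 300000, 400000, 450000⟩ ⟨0,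
 .pol, .pol, .pol, .pol, .sx 150000 (.sy 425000 (.sy 412500 (.sx 75000 (.sx 37500 (.aff 2000000 3800585
 263118) (.aff 2000000 2943921 339684)) (.aff 1000000 0 0)) (.sx 75000 (.sy 418750 (.sy 415625 (.sx 37500
 (.aff 2000000 3322901 300942) (.aff 1975000 2897791 328052)) (.sx 37500 (.aff 2000000 3335417 299813) (.sx
 56250 (.aff 2000000 2983287 335201) (.aff 1000000 0 0)))) (.sy 421875 (.sx 37500 (.aff 2000000 3347885
 298697) (.sx 56250 (.aff 3000000 5710172 700505) (.aff 2000000 2530764 395138))) (.sx 37500 (.aff 2000000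
 3360308 297592) (.sx 56250 (.aff 3000000 6011101 665436) (.aff 2000000 2636043 379357))))) (.aff 1000000 0
 0))) (.sx 75000 (.sx 37500 (.aff 2000000 3415651 292770) (.aff 2100000 3067754 394426)) (.aff 1000000 0
 0))) (.aff 1000000 0 0), .pol, .pol, .pol, .pol⟩

def hL160_60_4_8 : pcchk ⟨(nat_lit 1), (nat_lit 1000), Int.ofNat (nat_lit 250), 0, ⟨0, 1⟩, ⟨Int.ofNat
 (nat_lit 60), 200⟩⟩ ⟨800000, 850000, 908191, 894532, 922059, 417256, 448290, 388374, 447213, 387298⟩ false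
 (nat_lit 400) (Int.negSucc (nat_lit 498)) (nat_lit 450) (Int.negSucc (nat_lit 1317)) qL160_60_4_8 = true :=
 by decide +kernel

def qL160_60_4_9 : PCt := .one ⟨2008000, 251, 502000, -385938, 147206, 0, 0, 300000, 450000, 500000⟩ ⟨0,
 .pol, .pol, .pol, .pol, .sy 475000 (.sx 150000 (.sx 75000 (.aff 2900000 4718228 765118) (.sx 112500 (.aff
 2400000 3277759 597970) (.aff 1000000 0 0))) (.aff 1000000 0 0)) (.sy 487500 (.sx 150000 (.sx 75000 (.aff
 3000000 5849977 683764) (.sx 112500 (.aff 2350000 3224128 565270) (.aff 1000000 0 0))) (.aff 1000000 0 0))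
 (.sx 150000 (.sx 75000 (.aff 3000000 5925463 675053) (.aff 2428000 3277149 622244)) (.aff 1000000 0 0))),
 .pol, .pol, .pol, .pol⟩

def hL160_60_4_9 : pcchk ⟨(nat_lit 1), (nat_lit 1000), Int.ofNat (nat_lit 250), 0, ⟨0, 1⟩, ⟨Int.ofNat
 (nat_lit 60), 200⟩⟩ ⟨800000, 850000, 908191, 894532, 922059, 417256, 448290, 388374, 447213, 387298⟩ false
 (nat_lit 450) (Int.negSucc (nat_lit 1317)) (nat_lit 500) (Int.negSucc (nat_lit 2278)) qL160_60_4_9 = true
 := by decide +kernel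

def qL160_60_4_10 : PCt := .one ⟨2008000, 251, 502000, -430917, 169696, 0, 0, 300000, 500000, 550000⟩ ⟨0,
 .pol, .pol, .pol, .pol, .sx 150000 (.sx 75000 (.aff 3000000 6110101 654654) (.sx 112500 (.aff 2700000
 3672420 786948) (.sx 131250 (.aff 2732000 3596367 834127) (.aff 1500000 966092 258775)))) (.aff 1000000 0
 0), .pol, .pol, .pol, .pol⟩

def hL160_60_4_10 : pcchk ⟨(nat_lit 1), (nat_lit 1000), Int.ofNat (nat_lit 250), 0, ⟨0, 1⟩, ⟨Int.ofNat
 (nat_lit 60), 200⟩⟩ ⟨800000, 850000, 908191, 894532, 922059, 417256, 448290, 388374, 447213, 387298⟩ false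
 (nat_lit 500) (Int.negSucc (nat_lit 2278)) (nat_lit 550) (Int.negSucc (nat_lit 3351)) qL160_60_4_10 = true
 := by decide +kernel

def qL160_60_4_11 : PCt := .one ⟨2008000, 251, 502000, -489952, 202165, 0, 0, 300000, 550000, 600000⟩ ⟨0,
 .pol, .pol, .pol, .pol, .sx 150000 (.sx 75000 (.aff 3000000 6394443 625544) (.aff 3013000 3941233 1028148))
 (.sx 225000 (.aff 2951000 3692553 1030832) (.aff 1000000 0 0)), .pol, .pol, .pol, .pol⟩

def hL160_60_4_11 : pcchk ⟨(nat_lit 1), (nat_lit 1000), Int.ofNat (nat_lit 250), 0, ⟨0, 1⟩, ⟨Int.ofNat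
 (nat_lit 60), 200⟩⟩ ⟨800000, 850000, 908191, 894532, 922059, 417256, 448290, 388374, 447213, 387298⟩ false
 (nat_lit 550) (Int.negSucc (nat_lit 3351)) (nat_lit 600) (Int.negSucc (nat_lit 4571)) qL160_60_4_11 = true
 := by decide +kernel

def qL160_60_4_12 : PCt := .one ⟨2008000, 251, 502000, -177909, 14939, 0, 0, 300000, 600000, 650000⟩ ⟨0,
 .pol, .pol, .pol, .pol, .sy 625000 (.sy 612500 (.sx 150000 (.aff 3000000 4020780 994832) (.sx 225000 (.aff
 2900000 3601286 1002420) (.aff 1000000 0 0))) (.sx 150000 (.aff 3000000 4690416 852803) (.aff 3000000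
 3633181 1100964))) (.sx 150000 (.aff 3000000 4760953 840168) (.aff 3000000 3366502 1188177)), .pol, .sy
 625000 (.sx 150000 .pol (.aff 1500000 903697 276642)) (.sy 637500 (.sx 150000 (.aff 3000000 4737557 844318)
 (.aff 3000000 3349959 1194045)) (.sy 643750 (.sx 150000 (.aff 3000000 4772608 838117) (.aff 3100000 3543480
 1244540)) (.sy 646875 (.sx 150000 (.aff 3000000 4790036 835067) (.sx 225000 (.aff 3000000 3710346 1078067)
 (.aff 1000000 0 0))) (.sx 150000 (.aff 3000000 4801621 833053) (.sx 225000 (.aff 3100000 3723544 1184356)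
 (.aff 1500000 785850 318127)))))), .pol, .pol⟩

def hL160_60_4_12 : pcchk ⟨(nat_lit 1), (nat_lit 1000), Int.ofNat (nat_lit 250), 0, ⟨0, 1⟩, ⟨Int.ofNat
 (nat_lit 60), 200⟩⟩ ⟨800000, 850000, 908191, 894532, 922059, 417256, 448290, 388374, 447213, 387298⟩ false
 (nat_lit 600) (Int.negSucc (nat_lit 4571)) (nat_lit 650) (Int.negSucc (nat_lit 5014)) qL160_60_4_12 = true
 := by decide +kernel

def qL160_60_4_13 : PCt := .one ⟨2008000, 251, 502000, 179515, -217387, 0, 0, 300000, 650000, 700000⟩ ⟨0,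
 .pol, .pol, .pol, .pol, .aff 3000000 4242641 942809, .pol, .sx 150000 (.aff 3000000 4242641 942809) (.sx
 225000 (.aff 2963000 3551201 1085089) (.aff 3000000 3328202 1201851)), .pol, .pol⟩

def hL160_60_4_13 : pcchk ⟨(nat_lit 1), (nat_lit 1000), Int.ofNat (nat_lit 250), 0, ⟨0, 1⟩, ⟨Int.ofNat
 (nat_lit 60), 200⟩⟩ ⟨800000, 850000, 908191, 894532, 922059, 417256, 448290, 388374, 447213, 387298⟩ false
 (nat_lit 650) (Int.negSucc (nat_lit 5014)) (nat_lit 700) (Int.negSucc (nat_lit 4567)) qL160_60_4_13 = true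
 := by decide +kernel

def qL160_60_4_14 : PCt := .one ⟨2008000, 251, 502000, 182728, -219636, 0, 0, 300000, 700000, 750000⟩ ⟨0,
 .pol, .pol, .pol, .pol, .aff 1500000 1554564 160817, .pol, .sx 150000 (.aff 3000000 5077183 787839) (.sy
 725000 (.sx 225000 (.aff 3000000 3717282 1076056) (.sx 262500 (.aff 3000000 3419402 1169796) (.aff 3000000
 3183290 1256562))) (.sx 225000 (.aff 3000000 3781935 1057660) (.sx 262500 (.aff 3000000 3478874 1149798)
 (.aff 3000000 3294022 1214321)))), .pol, .pol⟩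

def hL160_60_4_14 : pcchk ⟨(nat_lit 1), (nat_lit 1000), Int.ofNat (nat_lit 250), 0, ⟨0, 1⟩, ⟨Int.ofNat
 (nat_lit 60), 200⟩⟩ ⟨800000, 850000, 908191, 894532, 922059, 417256, 448290, 388374, 447213, 387298⟩ false
 (nat_lit 700) (Int.negSucc (nat_lit 4567)) (nat_lit 750) (Int.negSucc (nat_lit 4112)) qL160_60_4_14 = true
 := by decide +kernel

def qL160_60_4_15 : PCt := .one ⟨2008000, 251, 502000, -10396220, 7714575, 0, 0, 300000, 750000, 800000⟩ ⟨0,
 .pol, .pol, .pol, .pol, .aff 1500000 1136516 219971, .pol, .sx 150000 (.aff 20000000 49868717 7239008) (.sx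
 225000 (.aff 35000000 69124044 16723559) (.sx 262500 (.inf 1783112 560818) (.inf 1659987 602415))), .sy
 775000 (.sy 762500 .pol (.sy 768750 (.inf 1807393 553284) (.inf 1814755 551039))) (.inf 1833031 545545),
 .pol⟩

def hL160_60_4_15 : pcchk ⟨(nat_lit 1), (nat_lit 1000), Int.ofNat (nat_lit 250), 0, ⟨0, 1⟩, ⟨Int.ofNat
 (nat_lit 60), 200⟩⟩ ⟨800000, 850000, 908191, 894532, 922059, 417256, 448290, 388374, 447213, 387298⟩ false
 (nat_lit 750) (Int.negSucc (nat_lit 4112)) (nat_lit 800) (Int.negSucc (nat_lit 29999)) qL160_60_4_15 = true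
 := by decide +kernel

def qL160_60_4_16 : PCt := .one ⟨2008000, 251, 502000, 0, -602400, 0, 0, 300000, 800000, 850000⟩ ⟨0, .pol,
 .pol, .pol, .pol, .aff 1000000 0 0, .pol, .inf 1876167 533002, .inf 1876167 533002, .pol⟩

def hL160_60_4_16 : pcchk ⟨(nat_lit 1), (nat_lit 1000), Int.ofNat (nat_lit 250), 0, ⟨0, 1⟩, ⟨Int.ofNat
 (nat_lit 60), 200⟩⟩ ⟨800000, 850000, 908191, 894532, 922059, 417256, 448290, 388374, 447213, 387298⟩ false
 (nat_lit 800) (Int.negSucc (nat_lit 29999)) (nat_lit 850) (Int.negSucc (nat_lit 29999)) qL160_60_4_16 =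
 true := by decide +kernel

def qL160_60_4_17 : PCt := .one ⟨2008000, 251, 502000, 0, -602400, 0, 0, 300000, 850000, 900000⟩ ⟨0, .pol,
 .pol, .pol, .pol, .aff 1000000 0 0, .pol, .inf 1932184 517550, .inf 1932184 517550, .pol⟩

def hL160_60_4_17 : pcchk ⟨(nat_lit 1), (nat_lit 1000), Int.ofNat (nat_lit 250), 0, ⟨0, 1⟩, ⟨Int.ofNat
 (nat_lit 60), 200⟩⟩ ⟨800000, 850000, 908191, 894532, 922059, 417256, 448290, 388374, 447213, 387298⟩ false
 (nat_lit 850) (Int.negSucc (nat_lit 29999)) (nat_lit 900) (Int.negSucc (nat_lit 29999)) qL160_60_4_17 =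
 true := by decide +kernel

def qL160_60_4_18 : PCt := .one ⟨2008000, 251, 502000, 0, -602400, 0, 0, 300000, 900000, 950000⟩ ⟨0, .pol,
 .pol, .pol, .pol, .aff 1000000 0 0, .pol, .aff 35000000 68937976 16768697, .inf 2483278 402694, .pol⟩

def hL160_60_4_18 : pcchk ⟨(nat_lit 1), (nat_lit 1000), Int.ofNat (nat_lit 250), 0, ⟨0, 1⟩, ⟨Int.ofNat
 (nat_lit 60), 200⟩⟩ ⟨800000, 850000, 908191, 894532, 922059, 417256, 448290, 388374, 447213, 387298⟩ false
 (nat_lit 900) (Int.negSucc (nat_lit 29999)) (nat_lit 950) (Int.negSucc (nat_lit 29999)) qL160_60_4_18 =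
 true := by decide +kernel

def qL160_60_4_19 : PCt := .one ⟨2008000, 251, 502000, 0, -602400, 0, 0, 300000, 950000, 1000000⟩ ⟨0, .pol,
 .pol, .pol, .pol, .aff 1000000 0 0, .pol, .aff 35000000 70776644 16333072, .inf 2549510 392233, .pol⟩

def hL160_60_4_19 : pcchk ⟨(nat_lit 1), (nat_lit 1000), Int.ofNat (nat_lit 250), 0, ⟨0, 1⟩, ⟨Int.ofNat
 (nat_lit 60), 200⟩⟩ ⟨800000, 850000, 908191, 894532, 922059, 417256, 448290, 388374, 447213, 387298⟩ false
 (nat_lit 950) (Int.negSucc (nat_lit 29999)) (nat_lit 1000) (Int.negSucc (nat_lit 29999)) qL160_60_4_19 =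
 true := by decide +kernel

def qL160_60_5_0 : PCt := .one ⟨2008000, 251, 803200, 220076, 0, 0, 0, 300000, 0, 50000⟩ ⟨12500, .aff
 2000000 500000, .pol, .pol, .pol, .aff 0 1807243 553330, .aff 0 2350714 425403, .pol, .pol, .pol⟩

def hL160_60_5_0 : pcchk ⟨(nat_lit 1), (nat_lit 1000), Int.ofNat (nat_lit 400), 0, ⟨0, 1⟩, ⟨Int.ofNat
 (nat_lit 60), 200⟩⟩ ⟨800000, 850000, 908191, 894532, 922059, 417256, 448290, 388374, 447213, 387298⟩ true 0
 0 (nat_lit 50) (Int.ofNat (nat_lit 548)) qL160_60_5_0 = true := by decide +kernel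

def qL160_60_5_1 : PCt := .one ⟨2008000, 251, 803200, 246180, -1306, 0, 0, 300000, 50000, 100000⟩ ⟨0, .pol,
 .pol, .pol, .pol, .sx 150000 (.sy 75000 (.sx 75000 (.sx 37500 (.aff 0 2278598 438867) (.aff 0 1054093
 948683)) .pol) (.sy 87500 (.sy 81250 (.sy 78125 (.sx 75000 (.sx 37500 (.sx 18750 (.aff 0 2333334 428572)
 (.aff 0 1807393 553284)) (.aff 0 1166667 857143)) .pol) (.sy 79687 (.sx 75000 (.sx 37500 (.sy 78906 (.aff
 88000 2388128 348283) (.aff 125000 2420666 316287)) (.aff 0 1184388 844318)) .pol) (.sy 80468 (.sx 75000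
 (.sx 37500 (.aff 125000 2432557 314741) (.aff 0 1193148 838119)) .pol) (.sx 75000 (.sx 37500 (.aff 3000
 2288170 434413) (.aff 0 1198956 834059)) .pol)))) (.sy 84375 (.sx 75000 (.sx 37500 (.aff 13000 2292419
 424953) (.aff 0 1213352 824164)) .pol) (.sx 75000 (.sx 37500 (.aff 25000 2306879 412083) (.aff 0 1236034
 809040)) .pol))) (.sy 93750 (.sy 90625 (.sx 75000 (.sx 37500 (.sx 18750 (.aff 175000 2542821 267666) (.aff
 250000 1334635 421464)) (.aff 0 1258306 794720)) .pol) (.sx 75000 (.sx 37500 (.aff 38000 2299231 402502)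
 (.aff 0 1280191 781134)) .pol)) (.sy 96875 (.sx 75000 (.sx 37500 (.aff 200000 2308075 277288) (.aff 0
 1301709 768221)) .pol) (.sy 98437 (.sy 97656 (.sx 75000 (.sx 37500 (.aff 250000 2415767 232846) (.aff 0
 1314977 760470)) .pol) (.sx 75000 (.sx 37500 (.aff 250000 2425447 231917) (.aff 0 1320246 757435)) .pol))
 (.sx 75000 (.sx 37500 (.aff 250000 2439900 230543) (.aff 0 1328114 752948)) .pol)))))) .pol, .pol, .pol,
 .sx 150000 (.sx 75000 (.sx 37500 .pol .pol) .pol) .pol, .pol⟩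

def hL160_60_5_1 : pcchk ⟨(nat_lit 1), (nat_lit 1000), Int.ofNat (nat_lit 400), 0, ⟨0, 1⟩, ⟨Int.ofNat
 (nat_lit 60), 200⟩⟩ ⟨800000, 850000, 908191, 894532, 922059, 417256, 448290, 388374, 447213, 387298⟩ false
 (nat_lit 50) (Int.ofNat (nat_lit 548)) (nat_lit 100) (Int.ofNat (nat_lit 1161)) qL160_60_5_1 = true := by
 decide +kernel

def qL160_60_5_2 : PCt := .one ⟨2008000, 251, 803200, 121283, 11184, 0, 0, 300000, 100000, 150000⟩ ⟨0, .pol,
 .pol, .pol, .pol, .sy 125000 (.sx 150000 (.sx 75000 (.sx 37500 (.aff 275000 2511474 209290) (.aff 1000000 0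
 0)) (.aff 0 1000000 1000000)) .pol) (.sx 150000 (.sx 75000 (.sy 137500 (.sx 37500 (.sx 18750 (.aff 316000
 2559294 182807) (.aff 1000000 0 0)) (.aff 1000000 0 0)) (.aff 432000 2625594 122877)) (.aff 1000000 0 0))
 .pol), .pol, .pol, .sx 150000 (.sx 75000 .pol .pol) .pol, .pol⟩

def hL160_60_5_2 : pcchk ⟨(nat_lit 1), (nat_lit 1000), Int.ofNat (nat_lit 400), 0, ⟨0, 1⟩, ⟨Int.ofNat
 (nat_lit 60), 200⟩⟩ ⟨800000, 850000, 908191, 894532, 922059, 417256, 448290, 388374, 447213, 387298⟩ false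
 (nat_lit 100) (Int.ofNat (nat_lit 1161)) (nat_lit 150) (Int.ofNat (nat_lit 1463)) qL160_60_5_2 = true := by
 decide +kernel

def qL160_60_5_3 : PCt := .one ⟨2008000, 251, 803200, -1607, 29618, 0, 0, 300000, 150000, 200000⟩ ⟨0, .pol,
 .pol, .pol, .pol, .sx 150000 (.sx 75000 (.sy 175000 (.sy 162500 (.sy 156250 (.aff 500000 2603570 96023)
 (.sx 37500 (.sy 159375 (.sx 18750 (.aff 525000 2756092 81865) (.aff 1000000 0 0)) (.sy 160937 (.sx 18750
 (.aff 525000 2776481 81263) (.aff 1000000 0 0)) (.sx 18750 (.aff 550000 2778667 72877) (.aff 1000000 0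
 0)))) (.aff 1000000 0 0))) (.sx 37500 (.sy 168750 (.aff 644000 2866281 44217) (.sx 18750 (.sx 9375 (.aff
 750000 2889876 21628) (.aff 1000000 0 0)) (.aff 1000000 0 0))) (.aff 1000000 0 0))) (.sx 37500 (.sx 18750
 (.aff 775000 2592921 19525) (.aff 1000000 0 0)) (.aff 1000000 0 0))) (.aff 1000000 0 0)) (.aff 1000000 0
 0), .pol, .pol, .sx 150000 .pol .pol, .pol⟩

def hL160_60_5_3 : pcchk ⟨(nat_lit 1), (nat_lit 1000), Int.ofNat (nat_lit 400), 0, ⟨0, 1⟩, ⟨Int.ofNat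
 (nat_lit 60), 200⟩⟩ ⟨800000, 850000, 908191, 894532, 922059, 417256, 448290, 388374, 447213, 387298⟩ false
 (nat_lit 150) (Int.ofNat (nat_lit 1463)) (nat_lit 200) (Int.ofNat (nat_lit 1459)) qL160_60_5_3 = true := by
 decide +kernel

def qL160_60_5_4 : PCt := .one ⟨2008000, 251, 803200, -139356, 57167, 0, 0, 300000, 200000, 250000⟩ ⟨0,
 .pol, .pol, .pol, .pol, .sx 150000 (.sx 75000 (.sx 37500 (.aff 1250000 3329202 18774) (.aff 1000000 0 0))
 (.aff 1000000 0 0)) (.aff 1000000 0 0), .pol, .pol, .sx 150000 .pol .pol, .pol⟩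

def hL160_60_5_4 : pcchk ⟨(nat_lit 1), (nat_lit 1000), Int.ofNat (nat_lit 400), 0, ⟨0, 1⟩, ⟨Int.ofNat
 (nat_lit 60), 200⟩⟩ ⟨800000, 850000, 908191, 894532, 922059, 417256, 448290, 388374, 447213, 387298⟩ false
 (nat_lit 200) (Int.ofNat (nat_lit 1459)) (nat_lit 250) (Int.ofNat (nat_lit 1112)) qL160_60_5_4 = true := by
 decide +kernel

def qL160_60_5_5 : PCt := .one ⟨2008000, 251, 803200, -224093, 78352, 0, 0, 300000, 250000, 300000⟩ ⟨0,
 .pol, .pol, .pol, .pol, .sx 150000 (.sx 75000 (.sx 37500 (.sy 275000 (.aff 1581000 3755036 89896) (.aff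
 1700000 3876425 126406)) (.aff 1000000 0 0)) (.aff 1000000 0 0)) (.aff 1000000 0 0), .pol, .pol, .sx 150000
 .pol .pol, .pol⟩

def hL160_60_5_5 : pcchk ⟨(nat_lit 1), (nat_lit 1000), Int.ofNat (nat_lit 400), 0, ⟨0, 1⟩, ⟨Int.ofNat
 (nat_lit 60), 200⟩⟩ ⟨800000, 850000, 908191, 894532, 922059, 417256, 448290, 388374, 447213, 387298⟩ false
 (nat_lit 250) (Int.ofNat (nat_lit 1112)) (nat_lit 300) (Int.ofNat (nat_lit 554)) qL160_60_5_5 = true := by
 decide +kernel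

def qL160_60_5_6 : PCt := .one ⟨2008000, 251, 803200, -316461, 106062, 0, 0, 300000, 300000, 350000⟩ ⟨0,
 .pol, .pol, .pol, .pol, .sx 150000 (.sx 75000 (.sy 325000 (.sx 37500 (.aff 2025000 4184545 251073) (.aff
 1000000 0 0)) (.sy 337500 (.sx 37500 (.sx 18750 (.aff 2000000 4203174 237916) (.aff 2100000 4135376
 292598)) (.aff 1000000 0 0)) (.sx 37500 (.sx 18750 (.aff 2000000 4281745 233550) (.aff 2100000 4212680
 287229)) (.aff 1000000 0 0)))) (.aff 1000000 0 0)) (.aff 1000000 0 0), .pol, .pol, .pol, .pol⟩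

def hL160_60_5_6 : pcchk ⟨(nat_lit 1), (nat_lit 1000), Int.ofNat (nat_lit 400), 0, ⟨0, 1⟩, ⟨Int.ofNat
 (nat_lit 60), 200⟩⟩ ⟨800000, 850000, 908191, 894532, 922059, 417256, 448290, 388374, 447213, 387298⟩ false
 (nat_lit 300) (Int.ofNat (nat_lit 554)) (nat_lit 350) (Int.negSucc (nat_lit 233)) qL160_60_5_6 = true := by
 decide +kernel

def qL160_60_5_7 : PCt := .one ⟨2008000, 251, 803200, -391962, 132487, 0, 0, 300000, 350000, 400000⟩ ⟨0,
 .pol, .pol, .pol, .pol, .sx 150000 (.sy 375000 (.sy 362500 (.sx 75000 (.sy 356250 (.sy 353125 (.sx 37500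
 (.sx 18750 (.aff 3000000 12247449 326599) (.aff 2100000 4260282 284019)) (.aff 1000000 0 0)) (.sx 37500
 (.sx 18750 (.aff 3000000 12301762 325157) (.sx 28125 (.aff 3000000 7780318 514118) (.aff 2000000 3411895
 293093))) (.aff 1000000 0 0))) (.sx 37500 (.aff 2525000 4720937 492620) (.aff 1000000 0 0))) (.aff 1000000
 0 0)) (.sy 368750 (.sx 75000 (.sx 37500 (.aff 2500000 4683749 480385) (.aff 1000000 0 0)) (.aff 1000000 0
 0)) (.sx 75000 (.sx 37500 (.aff 2600000 5038519 508086) (.aff 1000000 0 0)) (.aff 1000000 0 0)))) (.sx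
 75000 (.sx 37500 (.aff 3000000 6429101 622171) (.aff 2350000 4289715 424854)) (.aff 1000000 0 0))) (.aff
 1000000 0 0), .pol, .pol, .pol, .pol⟩

def hL160_60_5_7 : pcchk ⟨(nat_lit 1), (nat_lit 1000), Int.ofNat (nat_lit 400), 0, ⟨0, 1⟩, ⟨Int.ofNat
 (nat_lit 60), 200⟩⟩ ⟨800000, 850000, 908191, 894532, 922059, 417256, 448290, 388374, 447213, 387298⟩ false
 (nat_lit 350) (Int.negSucc (nat_lit 233)) (nat_lit 400) (Int.negSucc (nat_lit 1209)) qL160_60_5_7 = true :=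
 by decide +kernel

def qL160_60_5_8 : PCt := .one ⟨2008000, 251, 803200, -476298, 166222, 0, 0, 300000, 400000, 450000⟩ ⟨0,
 .pol, .pol, .pol, .pol, .sx 150000 (.sx 75000 (.sx 37500 (.aff 3000000 7774603 514496) (.sx 56250 (.aff
 2900000 5222601 691227) (.aff 2919000 4944968 744709))) (.aff 1000000 0 0)) (.aff 1000000 0 0), .pol, .pol,
 .pol, .pol⟩

def hL160_60_5_8 : pcchk ⟨(nat_lit 1), (nat_lit 1000), Int.ofNat (nat_lit 400), 0, ⟨0, 1⟩, ⟨Int.ofNat
 (nat_lit 60), 200⟩⟩ ⟨800000, 850000, 908191, 894532, 922059, 417256, 448290, 388374, 447213, 387298⟩ false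
 (nat_lit 400) (Int.negSucc (nat_lit 1209)) (nat_lit 450) (Int.negSucc (nat_lit 2395)) qL160_60_5_8 = true
 := by decide +kernel

def qL160_60_5_9 : PCt := .one ⟨2008000, 251, 803200, -552602, 200559, 0, 0, 300000, 450000, 500000⟩ ⟨0,
 .pol, .pol, .pol, .pol, .sy 475000 (.sx 150000 (.sx 75000 (.aff 3100000 5214883 845657) (.sx 112500 (.aff
 3200000 5150765 939667) (.aff 1000000 0 0))) (.aff 1000000 0 0)) (.sx 150000 (.sx 75000 (.aff 5000000
 11775682 1358733) (.sx 112500 (.sx 93750 (.aff 3087000 5003144 870567) (.aff 3100000 4673329 943653)) (.aff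
 1000000 0 0))) (.aff 1000000 0 0)), .pol, .pol, .pol, .pol⟩

def hL160_60_5_9 : pcchk ⟨(nat_lit 1), (nat_lit 1000), Int.ofNat (nat_lit 400), 0, ⟨0, 1⟩, ⟨Int.ofNat
 (nat_lit 60), 200⟩⟩ ⟨800000, 850000, 908191, 894532, 922059, 417256, 448290, 388374, 447213, 387298⟩ false
 (nat_lit 450) (Int.negSucc (nat_lit 2395)) (nat_lit 500) (Int.negSucc (nat_lit 3771)) qL160_60_5_9 = true
 := by decide +kernel

def qL160_60_5_10 : PCt := .one ⟨2008000, 251, 803200, -623284, 235899, 0, 0, 300000, 500000, 550000⟩ ⟨0,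
 .pol, .pol, .pol, .pol, .sx 150000 (.sy 525000 (.sy 512500 (.sx 75000 (.aff 5000000 12000000 1333334) (.sx
 112500 (.sx 93750 (.aff 5000000 9797959 1632994) (.aff 3300000 5215910 1014205)) (.aff 1000000 0 0))) (.sx
 75000 (.aff 5000000 12147245 1317172) (.sx 112500 (.aff 3700000 5797845 1257364) (.aff 3582000 5393947
 1235964)))) (.sx 75000 (.aff 5000000 12364825 1293994) (.sx 112500 (.aff 5000000 9132029 1752076) (.aff
 3500000 5250153 1190442)))) (.aff 1000000 0 0), .pol, .pol, .pol, .pol⟩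

def hL160_60_5_10 : pcchk ⟨(nat_lit 1), (nat_lit 1000), Int.ofNat (nat_lit 400), 0, ⟨0, 1⟩, ⟨Int.ofNat
 (nat_lit 60), 200⟩⟩ ⟨800000, 850000, 908191, 894532, 922059, 417256, 448290, 388374, 447213, 387298⟩ false
 (nat_lit 500) (Int.negSucc (nat_lit 3771)) (nat_lit 550) (Int.negSucc (nat_lit 5323)) qL160_60_5_10 = true
 := by decide +kernel

def qL160_60_5_11 : PCt := .one ⟨2008000, 251, 803200, -708021, 282505, 0, 0, 300000, 550000, 600000⟩ ⟨0,
 .pol, .pol, .pol, .pol, .sy 575000 (.sx 150000 (.sx 75000 (.aff 5000000 15491934 1032796) (.sx 112500 (.aff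
 5000000 9797959 1632994) (.sx 131250 (.aff 5000000 8593379 1861899) (.sy 562500 (.aff 3600000 5259431
 1285311) (.aff 4000000 5841661 1540658))))) (.aff 1500000 1057766 236348)) (.sx 150000 (.aff 5000000
 7916229 2021165) (.sx 225000 (.sx 187500 (.aff 3900000 5567906 1510443) (.aff 1000000 0 0)) (.aff 1000000 0
 0))), .pol, .aff 5000000 7831561 2043016, .pol, .pol⟩

def hL160_60_5_11 : pcchk ⟨(nat_lit 1), (nat_lit 1000), Int.ofNat (nat_lit 400), 0, ⟨0, 1⟩, ⟨Int.ofNat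
 (nat_lit 60), 200⟩⟩ ⟨800000, 850000, 908191, 894532, 922059, 417256, 448290, 388374, 447213, 387298⟩ false
 (nat_lit 550) (Int.negSucc (nat_lit 5323)) (nat_lit 600) (Int.negSucc (nat_lit 7086)) qL160_60_5_11 = true
 := by decide +kernel

def qL160_60_5_12 : PCt := .one ⟨2008000, 251, 803200, -420877, 110219, 0, 0, 300000, 600000, 650000⟩ ⟨0,
 .pol, .pol, .pol, .pol, .sy 625000 (.sx 150000 (.aff 5000000 8082904 1979487) (.sy 612500 (.sx 225000 (.sy
 606250 (.sx 187500 (.sx 168750 (.aff 5000000 7781326 2056205) (.aff 2000000 1840100 543449)) (.aff 1000000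
 0 0)) (.sx 187500 (.aff 5000000 7211103 2218801) (.aff 1000000 0 0))) (.aff 1000000 0 0)) (.sx 225000 (.aff
 5000000 6928204 2309401) (.aff 1000000 0 0)))) (.sx 150000 (.aff 5000000 9521905 1680337) (.aff 5000000
 6733004 2376354)), .pol, .sy 625000 (.sx 150000 (.aff 5000000 9333334 1714286) (.aff 5000000 6599664
 2424366)) (.sx 150000 (.aff 5000000 8246212 1940285) (.sy 637500 (.aff 5000000 7339392 2180018) (.sy 643750
 (.aff 4700000 6839165 2001707) (.sx 225000 (.sx 187500 (.aff 5000000 7622681 2099000) (.aff 5000000 7250616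
 2206710)) (.aff 1000000 0 0))))), .pol, .pol⟩

def hL160_60_5_12 : pcchk ⟨(nat_lit 1), (nat_lit 1000), Int.ofNat (nat_lit 400), 0, ⟨0, 1⟩, ⟨Int.ofNat
 (nat_lit 60), 200⟩⟩ ⟨800000, 850000, 908191, 894532, 922059, 417256, 448290, 388374, 447213, 387298⟩ false
 (nat_lit 600) (Int.negSucc (nat_lit 7086)) (nat_lit 650) (Int.negSucc (nat_lit 8134)) qL160_60_5_12 = true
 := by decide +kernel

def qL160_60_5_13 : PCt := .one ⟨2008000, 251, 803200, -89959, -104878, 0, 0, 300000, 650000, 700000⟩ ⟨0,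
 .pol, .pol, .pol, .pol, .aff 3000000 4242641 942809, .pol, .sx 150000 (.aff 5000000 8485282 1885618) (.sx
 225000 (.aff 5385000 7736903 2485262) (.sx 262500 (.aff 5400000 7467048 2592725) (.aff 1500000 774597
 322749))), .pol, .pol⟩

def hL160_60_5_13 : pcchk ⟨(nat_lit 1), (nat_lit 1000), Int.ofNat (nat_lit 400), 0, ⟨0, 1⟩, ⟨Int.ofNat
 (nat_lit 60), 200⟩⟩ ⟨800000, 850000, 908191, 894532, 922059, 417256, 448290, 388374, 447213, 387298⟩ false
 (nat_lit 650) (Int.negSucc (nat_lit 8134)) (nat_lit 700) (Int.negSucc (nat_lit 8358)) qL160_60_5_13 = true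
 := by decide +kernel

def qL160_60_5_14 : PCt := .one ⟨2008000, 251, 803200, -120079, -83794, 0, 0, 300000, 700000, 750000⟩ ⟨0,
 .pol, .pol, .pol, .pol, .aff 1500000 1554564 160817, .pol, .sx 150000 (.aff 5000000 10154365 1575678) (.sy
 725000 (.sx 225000 (.aff 8000000 13645513 3590924) (.sx 262500 (.aff 6400000 8896549 3277676) (.aff 5700000
 7608616 2903288))) (.sx 225000 (.aff 8000000 13882844 3529537) (.sx 262500 (.aff 8000000 12176059 4024291)
 (.aff 5731000 7695213 2908609)))), .pol, .pol⟩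

def hL160_60_5_14 : pcchk ⟨(nat_lit 1), (nat_lit 1000), Int.ofNat (nat_lit 400), 0, ⟨0, 1⟩, ⟨Int.ofNat
 (nat_lit 60), 200⟩⟩ ⟨800000, 850000, 908191, 894532, 922059, 417256, 448290, 388374, 447213, 387298⟩ false
 (nat_lit 700) (Int.negSucc (nat_lit 8358)) (nat_lit 750) (Int.negSucc (nat_lit 8657)) qL160_60_5_14 = true
 := by decide +kernel

def qL160_60_5_15 : PCt := .one ⟨2008000, 251, 803200, -8570948, 6254357, 0, 0, 300000, 750000, 800000⟩ ⟨0,
 .pol, .pol, .pol, .pol, .aff 1500000 1136516 219971, .pol, .sx 150000 (.aff 20000000 61076455 5910625) (.sx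
 225000 (.aff 35000000 69124044 16723559) (.sx 262500 (.inf 1783112 560818) (.inf 1659987 602415))), .sy
 775000 (.sy 762500 (.sx 150000 (.inf 3175427 314919) .pol) (.sy 768750 (.inf 1807393 553284) (.inf 1814755
 551039))) (.inf 1833031 545545), .pol⟩

def hL160_60_5_15 : pcchk ⟨(nat_lit 1), (nat_lit 1000), Int.ofNat (nat_lit 400), 0, ⟨0, 1⟩, ⟨Int.ofNat
 (nat_lit 60), 200⟩⟩ ⟨800000, 850000, 908191, 894532, 922059, 417256, 448290, 388374, 447213, 387298⟩ false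
 (nat_lit 750) (Int.negSucc (nat_lit 8657)) (nat_lit 800) (Int.negSucc (nat_lit 29999)) qL160_60_5_15 = true
 := by decide +kernel

def qL160_60_5_16 : PCt := .one ⟨2008000, 251, 803200, 0, -602400, 0, 0, 300000, 800000, 850000⟩ ⟨0, .pol,
 .pol, .pol, .pol, .aff 1000000 0 0, .pol, .inf 1876167 533002, .inf 1876167 533002, .pol⟩

def hL160_60_5_16 : pcchk ⟨(nat_lit 1), (nat_lit 1000), Int.ofNat (nat_lit 400), 0, ⟨0, 1⟩, ⟨Int.ofNat
 (nat_lit 60), 200⟩⟩ ⟨800000, 850000, 908191, 894532, 922059, 417256, 448290, 388374, 447213, 387298⟩ false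
 (nat_lit 800) (Int.negSucc (nat_lit 29999)) (nat_lit 850) (Int.negSucc (nat_lit 29999)) qL160_60_5_16 =
 true := by decide +kernel

def qL160_60_5_17 : PCt := .one ⟨2008000, 251, 803200, 0, -602400, 0, 0, 300000, 850000, 900000⟩ ⟨0, .pol,
 .pol, .pol, .pol, .aff 1000000 0 0, .pol, .aff 35000000 58066055 19908362, .inf 1932184 517550, .pol⟩

def hL160_60_5_17 : pcchk ⟨(nat_lit 1), (nat_lit 1000), Int.ofNat (nat_lit 400), 0, ⟨0, 1⟩, ⟨Int.ofNat
 (nat_lit 60), 200⟩⟩ ⟨800000, 850000, 908191, 894532, 922059, 417256, 448290, 388374, 447213, 387298⟩ false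
 (nat_lit 850) (Int.negSucc (nat_lit 29999)) (nat_lit 900) (Int.negSucc (nat_lit 29999)) qL160_60_5_17 =
 true := by decide +kernel

def qL160_60_5_18 : PCt := .one ⟨2008000, 251, 803200, 0, -602400, 0, 0, 300000, 900000, 950000⟩ ⟨0, .pol,
 .pol, .pol, .pol, .aff 1000000 0 0, .pol, .aff 35000000 68937976 16768697, .inf 2483278 402694, .pol⟩

def hL160_60_5_18 : pcchk ⟨(nat_lit 1), (nat_lit 1000), Int.ofNat (nat_lit 400), 0, ⟨0, 1⟩, ⟨Int.ofNat
 (nat_lit 60), 200⟩⟩ ⟨800000, 850000, 908191, 894532, 922059, 417256, 448290, 388374, 447213, 387298⟩ false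
 (nat_lit 900) (Int.negSucc (nat_lit 29999)) (nat_lit 950) (Int.negSucc (nat_lit 29999)) qL160_60_5_18 =
 true := by decide +kernel

def qL160_60_5_19 : PCt := .one ⟨2008000, 251, 803200, 0, -602400, 0, 0, 300000, 950000, 1000000⟩ ⟨0, .pol,
 .pol, .pol, .pol, .aff 1000000 0 0, .pol, .aff 20000000 34252738 10539304, .inf 2549510 392233, .pol⟩

def hL160_60_5_19 : pcchk ⟨(nat_lit 1), (nat_lit 1000), Int.ofNat (nat_lit 400), 0, ⟨0, 1⟩, ⟨Int.ofNat
 (nat_lit 60), 200⟩⟩ ⟨800000, 850000, 908191, 894532, 922059, 417256, 448290, 388374, 447213, 387298⟩ false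
 (nat_lit 950) (Int.negSucc (nat_lit 29999)) (nat_lit 1000) (Int.negSucc (nat_lit 29999)) qL160_60_5_19 =
 true := by decide +kernel

def qL160_60_6_0 : PCt := .one ⟨2008000, 251, 2008000, 151804, 0, 0, 0, 300000, 0, 50000⟩ ⟨25000, .sp 250000
 (.aff 6324556 158114) .pol, .pol, .pol, .pol, .pol, .aff 0 7735962 129267, .pol, .pol, .pol⟩

def hL160_60_6_0 : pcchk ⟨(nat_lit 1), (nat_lit 1000), Int.ofNat (nat_lit 1000), 0, ⟨0, 1⟩, ⟨Int.ofNat
 (nat_lit 60), 200⟩⟩ ⟨800000, 850000, 908191, 894532, 922059, 417256, 448290, 388374, 447213, 387298⟩ true 0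
 0 (nat_lit 50) (Int.ofNat (nat_lit 378)) qL160_60_6_0 = true := by decide +kernel

def qL160_60_6_1 : PCt := .one ⟨2008000, 251, 2008000, 196784, -2249, 0, 0, 300000, 50000, 100000⟩ ⟨0, .pol,
 .pol, .pol, .pol, .sx 150000 (.aff 0 7645167 130802) .pol, .pol, .pol, .sx 150000 (.sx 75000 (.sx 37500
 .pol .pol) .pol) .pol, .pol⟩

def hL160_60_6_1 : pcchk ⟨(nat_lit 1), (nat_lit 1000), Int.ofNat (nat_lit 1000), 0, ⟨0, 1⟩, ⟨Int.ofNat
 (nat_lit 60), 200⟩⟩ ⟨800000, 850000, 908191, 894532, 922059, 417256, 448290, 388374, 447213, 387298⟩ false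
 (nat_lit 50) (Int.ofNat (nat_lit 378)) (nat_lit 100) (Int.ofNat (nat_lit 868)) qL160_60_6_1 = true := by
 decide +kernel

def qL160_60_6_2 : PCt := .one ⟨2008000, 251, 2008000, 173892, 40, 0, 0, 300000, 100000, 150000⟩ ⟨0, .pol,
 .pol, .pol, .pol, .sx 150000 (.sx 75000 (.sx 37500 (.sx 18750 (.sx 9375 (.sx 4687 (.sy 125000 (.sy 112500
 (.aff 50000 7812941 115514) (.sy 118750 (.aff 0 7762880 128819) (.sy 121875 (.sx 2343 (.aff 75000 7653857
 111791) (.aff 125000 5119185 149560)) (.sy 123437 (.sx 2343 (.aff 88000 7619430 109161) (.aff 250000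
 4853399 115899)) (.aff 207000 7766657 80968))))) (.aff 213000 7713992 80292)) (.aff 250000 3162334 177875))
 (.aff 0 2981424 335411)) (.aff 0 2108186 474342)) .pol) .pol) .pol, .pol, .pol, .sx 150000 (.sx 75000 .pol
 .pol) .pol, .pol⟩

def hL160_60_6_2 : pcchk ⟨(nat_lit 1), (nat_lit 1000), Int.ofNat (nat_lit 1000), 0, ⟨0, 1⟩, ⟨Int.ofNat
 (nat_lit 60), 200⟩⟩ ⟨800000, 850000, 908191, 894532, 922059, 417256, 448290, 388374, 447213, 387298⟩ false
 (nat_lit 100) (Int.ofNat (nat_lit 868)) (nat_lit 150) (Int.ofNat (nat_lit 1301)) qL160_60_6_2 = true := by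
 decide +kernel

def qL160_60_6_3 : PCt := .one ⟨2008000, 251, 2008000, 75500, 14798, 0, 0, 300000, 150000, 200000⟩ ⟨0, .pol,
 .pol, .pol, .pol, .sx 150000 (.sx 75000 (.sx 37500 (.sx 18750 (.sy 175000 (.aff 357000 7623830 54232) (.sy
 187500 (.sx 9375 (.sx 4687 (.aff 460000 7706032 37841) (.aff 1000000 0 0)) (.aff 1000000 0 0)) (.sx 9375
 (.sx 4687 (.sx 2343 (.aff 750000 4546789 13746) (.aff 1000000 0 0)) (.aff 1000000 0 0)) (.aff 1000000 0
 0)))) (.aff 1000000 0 0)) (.aff 0 1763835 566947)) .pol) .pol, .pol, .pol, .sx 150000 .pol .pol, .pol⟩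

def hL160_60_6_3 : pcchk ⟨(nat_lit 1), (nat_lit 1000), Int.ofNat (nat_lit 1000), 0, ⟨0, 1⟩, ⟨Int.ofNat
 (nat_lit 60), 200⟩⟩ ⟨800000, 850000, 908191, 894532, 922059, 417256, 448290, 388374, 447213, 387298⟩ false
 (nat_lit 150) (Int.ofNat (nat_lit 1301)) (nat_lit 200) (Int.ofNat (nat_lit 1489)) qL160_60_6_3 = true := by
 decide +kernel

def qL160_60_6_4 : PCt := .one ⟨2008000, 251, 2008000, -212848, 72468, 0, 0, 300000, 200000, 250000⟩ ⟨0,
 .pol, .pol, .pol, .pol, .sx 150000 (.sx 75000 (.sx 37500 (.aff 1550000 8509558 35549) (.aff 1000000 0 0))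
 .pol) .pol, .pol, .pol, .sx 150000 .pol .pol, .pol⟩

def hL160_60_6_4 : pcchk ⟨(nat_lit 1), (nat_lit 1000), Int.ofNat (nat_lit 1000), 0, ⟨0, 1⟩, ⟨Int.ofNat
 (nat_lit 60), 200⟩⟩ ⟨800000, 850000, 908191, 894532, 922059, 417256, 448290, 388374, 447213, 387298⟩ false
 (nat_lit 200) (Int.ofNat (nat_lit 1489)) (nat_lit 250) (Int.ofNat (nat_lit 959)) qL160_60_6_4 = true := by
 decide +kernel

def qL160_60_6_5 : PCt := .one ⟨2008000, 251, 2008000, -473888, 137728, 0, 0, 300000, 250000, 300000⟩ ⟨0,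
 .pol, .pol, .pol, .pol, .sx 150000 (.sx 75000 (.sx 37500 (.sx 18750 (.sx 9375 (.sx 4687 (.aff 3000000
 15319651 261103) (.sy 275000 (.sx 7031 (.aff 2700000 10387357 278223) (.aff 2400000 8218655 238482)) (.aff
 2800000 9967949 325042))) (.aff 2650000 8833628 308198)) (.aff 1000000 0 0)) (.aff 1000000 0 0)) (.aff
 1000000 0 0)) .pol, .pol, .pol, .sx 150000 .pol .pol, .pol⟩

def hL160_60_6_5 : pcchk ⟨(nat_lit 1), (nat_lit 1000), Int.ofNat (nat_lit 1000), 0, ⟨0, 1⟩, ⟨Int.ofNat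
 (nat_lit 60), 200⟩⟩ ⟨800000, 850000, 908191, 894532, 922059, 417256, 448290, 388374, 447213, 387298⟩ false
 (nat_lit 250) (Int.ofNat (nat_lit 959)) (nat_lit 300) (Int.negSucc (nat_lit 220)) qL160_60_6_5 = true := by
 decide +kernel

def qL160_60_6_6 : PCt := .one ⟨2008000, 251, 2008000, -670271, 196643, 0, 0, 300000, 300000, 350000⟩ ⟨0,
 .pol, .pol, .pol, .pol, .sx 150000 (.sx 75000 (.sy 325000 (.sy 312500 (.sy 306250 (.aff 2950000 9576433
 397069) (.sy 309375 (.sy 307812 (.aff 2938000 9578625 392107) (.sy 308593 (.aff 2932000 9567170 390150)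
 (.sy 308984 (.aff 2931000 9571304 389578) (.sx 37500 (.sx 18750 (.aff 3100000 9846761 447864) (.aff 1000000
 0 0)) (.aff 1000000 0 0))))) (.sy 310937 (.sy 310156 (.sx 37500 (.sx 18750 (.aff 3100000 9856088 447440)
 (.aff 1000000 0 0)) (.aff 1000000 0 0)) (.sx 37500 (.sx 18750 (.aff 3100000 9868505 446877) (.aff 1000000 0
 0)) (.aff 1000000 0 0))) (.sy 311718 (.sx 37500 (.sx 18750 (.aff 3100000 9880907 446316) (.aff 1000000 0
 0)) (.aff 1000000 0 0)) (.aff 3488000 10150862 609815))))) (.sy 318750 (.sx 37500 (.sx 18750 (.sx 9375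
 (.aff 3000000 11604597 344691) (.sx 14062 (.aff 5000000 20759156 770745) (.aff 3184000 9879092 482824)))
 (.aff 1000000 0 0)) (.aff 1000000 0 0)) (.sx 37500 (.sx 18750 (.aff 4800000 15744417 917151) (.aff 3300000
 9419878 561579)) (.aff 1000000 0 0)))) (.sy 337500 (.sy 331250 (.sx 37500 (.sx 18750 (.aff 5000000 19321836
 828079) (.aff 3400000 9924411 580388)) (.aff 1000000 0 0)) (.sx 37500 (.sx 18750 (.aff 5000000 19504986
 820304) (.sx 28125 (.aff 3500000 9953597 627914) (.aff 1000000 0 0))) (.aff 1000000 0 0))) (.sx 37500 (.sx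
 18750 (.aff 5000000 19776530 809040) (.aff 3600000 9957242 678903)) (.aff 1000000 0 0)))) (.aff 1000000 0
 0)) (.aff 0 1201851 832050), .pol, .pol, .pol, .pol⟩

def hL160_60_6_6 : pcchk ⟨(nat_lit 1), (nat_lit 1000), Int.ofNat (nat_lit 1000), 0, ⟨0, 1⟩, ⟨Int.ofNat
 (nat_lit 60), 200⟩⟩ ⟨800000, 850000, 908191, 894532, 922059, 417256, 448290, 388374, 447213, 387298⟩ false
 (nat_lit 300) (Int.negSucc (nat_lit 220)) (nat_lit 350) (Int.negSucc (nat_lit 1889)) qL160_60_6_6 = true :=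
 by decide +kernel

def qL160_60_6_7 : PCt := .one ⟨2008000, 251, 2008000, -878701, 269594, 0, 0, 300000, 350000, 400000⟩ ⟨0,
 .pol, .pol, .pol, .pol, .sx 150000 (.sy 375000 (.sy 362500 (.sx 75000 (.sx 37500 (.sx 18750 (.aff 5000000
 24657657 648886) (.aff 4663000 11575936 1159092)) (.aff 1000000 0 0)) (.aff 1000000 0 0)) (.sx 75000 (.sx
 37500 (.aff 4700000 11602515 1179917) (.sx 56250 (.sx 46875 (.aff 2000000 3042188 328711) (.aff 1000000 0
 0)) (.aff 1000000 0 0))) (.aff 1000000 0 0))) (.sx 75000 (.sx 37500 (.aff 5000000 12858202 1244342) (.aff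
 4675000 11108037 1215843)) (.aff 1000000 0 0))) (.aff 1000000 0 0), .pol, .pol, .pol, .pol⟩

def hL160_60_6_7 : pcchk ⟨(nat_lit 1), (nat_lit 1000), Int.ofNat (nat_lit 1000), 0, ⟨0, 1⟩, ⟨Int.ofNat
 (nat_lit 60), 200⟩⟩ ⟨800000, 850000, 908191, 894532, 922059, 417256, 448290, 388374, 447213, 387298⟩ false
 (nat_lit 350) (Int.negSucc (nat_lit 1889)) (nat_lit 400) (Int.negSucc (nat_lit 4077)) qL160_60_6_7 = true
 := by decide +kernel

def qL160_60_6_8 : PCt := .one ⟨2008000, 251, 2008000, -1042554, 335135, 0, 0, 300000, 400000, 450000⟩ ⟨0,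
 .pol, .pol, .pol, .pol, .sx 150000 (.sy 425000 (.sy 412500 (.sy 406250 (.sx 75000 (.sx 37500 (.aff 5000000
 15143756 1056542) (.aff 4800000 11143788 1295790)) (.aff 1000000 0 0)) (.sx 75000 (.sx 37500 (.aff 5000000
 15260698 1048445) (.aff 5300000 11600264 1593930)) (.aff 1000000 0 0))) (.sy 418750 (.sx 75000 (.sx 37500
 (.aff 5000000 15376751 1040532) (.aff 5200000 11416655 1545112)) (.aff 1000000 0 0)) (.sx 75000 (.sx 37500
 (.aff 5000000 15491934 1032796) (.aff 5200000 11502174 1533624)) (.aff 1000000 0 0)))) (.sy 437500 (.sy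
 431250 (.sx 75000 (.sx 37500 (.aff 5000000 15606267 1025230) (.sx 56250 (.aff 8000000 21154984 2316240)
 (.aff 5300000 11397549 1622279))) (.aff 1000000 0 0)) (.sx 75000 (.sx 37500 (.aff 5000000 15719769 1017827)
 (.sx 56250 (.aff 8000000 21308841 2299516) (.aff 5200000 11213454 1573111))) (.aff 1000000 0 0))) (.sy
 443750 (.sx 75000 (.sx 37500 (.aff 5000000 15832457 1010583) (.sx 56250 (.aff 8000000 21461594 2283149)
 (.aff 5200000 11293838 1561914))) (.aff 1000000 0 0)) (.sx 75000 (.sx 37500 (.aff 5000000 15944348 1003491)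
 (.sx 56250 (.aff 8000000 21613268 2267126) (.aff 5200000 11373654 1550953))) (.aff 1000000 0 0))))) (.aff
 1000000 0 0), .pol, .pol, .pol, .pol⟩

def hL160_60_6_8 : pcchk ⟨(nat_lit 1), (nat_lit 1000), Int.ofNat (nat_lit 1000), 0, ⟨0, 1⟩, ⟨Int.ofNat
 (nat_lit 60), 200⟩⟩ ⟨800000, 850000, 908191, 894532, 922059, 417256, 448290, 388374, 447213, 387298⟩ false
 (nat_lit 400) (Int.negSucc (nat_lit 4077)) (nat_lit 450) (Int.negSucc (nat_lit 6673)) qL160_60_6_8 = true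
 := by decide +kernel

def qL160_60_6_9 : PCt := .one ⟨2008000, 251, 2008000, -1234519, 421519, 0, 0, 300000, 450000, 500000⟩ ⟨0,
 .pol, .pol, .pol, .pol, .sx 150000 (.sx 75000 (.aff 6900000 14848008 2344423) (.sx 112500 (.sx 93750 (.sx
 84375 (.sy 475000 (.aff 6125000 12532484 2095804) (.aff 8000000 17313715 2830127)) (.sx 89062 (.sy 475000
 (.aff 5800000 11160801 2064368) (.aff 6500000 12867785 2350832)) (.sy 475000 (.aff 1000000 0 0) (.aff
 6500000 12541930 2411910)))) (.aff 6300000 11937126 2353163)) (.aff 1000000 0 0))) (.aff 1000000 0 0),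
 .pol, .pol, .pol, .pol⟩

def hL160_60_6_9 : pcchk ⟨(nat_lit 1), (nat_lit 1000), Int.ofNat (nat_lit 1000), 0, ⟨0, 1⟩, ⟨Int.ofNat
 (nat_lit 60), 200⟩⟩ ⟨800000, 850000, 908191, 894532, 922059, 417256, 448290, 388374, 447213, 387298⟩ false
 (nat_lit 450) (Int.negSucc (nat_lit 6673)) (nat_lit 500) (Int.negSucc (nat_lit 9747)) qL160_60_6_9 = true
 := by decide +kernel

def qL160_60_6_10 : PCt := .one ⟨2008000, 251, 2008000, -1389536, 499028, 0, 0, 300000, 500000, 550000⟩ ⟨0,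
 .pol, .pol, .pol, .pol, .sy 525000 (.sx 150000 (.sx 75000 (.aff 8000000 21129232 2319063) (.sx 112500 (.sx
 93750 (.aff 8000000 17251946 2840260) (.sx 103125 (.aff 7600000 14713260 2960595) (.aff 7114000 13131383
 2846692))) (.sy 512500 (.aff 1000000 0 0) (.sx 131250 (.aff 7075000 12781585 2887406) (.aff 1000000 0
 0))))) (.aff 1000000 0 0)) (.sx 150000 (.sx 75000 (.aff 8000000 21638444 2264489) (.sx 112500 (.aff 8000000
 15300690 3202470) (.sx 131250 (.sx 121875 (.aff 7300000 13230385 2999913) (.aff 7363000 13202582 3066656))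
 (.aff 1500000 977526 255748)))) (.aff 1000000 0 0)), .pol, .aff 12000000 20579116 5879748, .sx 150000 (.sx
 75000 (.inf 3741658 267262) .pol) .pol, .pol⟩

def hL160_60_6_10 : pcchk ⟨(nat_lit 1), (nat_lit 1000), Int.ofNat (nat_lit 1000), 0, ⟨0, 1⟩, ⟨Int.ofNat
 (nat_lit 60), 200⟩⟩ ⟨800000, 850000, 908191, 894532, 922059, 417256, 448290, 388374, 447213, 387298⟩ false
 (nat_lit 500) (Int.negSucc (nat_lit 9747)) (nat_lit 550) (Int.negSucc (nat_lit 13207)) qL160_60_6_10 = true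
 := by decide +kernel

def qL160_60_6_11 : PCt := .one ⟨2008000, 251, 2008000, -1581501, 604608, 0, 0, 300000, 550000, 600000⟩ ⟨0,
 .pol, .pol, .pol, .pol, .sx 150000 (.sx 75000 (.aff 8000000 22380548 2189402) (.sx 112500 (.aff 8000000
 17335898 2826505) (.sy 575000 (.aff 7700000 13400000 3350000) (.aff 8000000 13853400 3537038)))) (.sy
 575000 (.aff 1500000 866026 288675) (.sx 225000 (.sx 187500 (.aff 8144000 13802242 3697714) (.aff 1000000 0
 0)) (.aff 1000000 0 0))), .pol, .aff 10800000 19187323 5005389, .sx 150000 (.sx 75000 (.inf 3915781 255377)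
 .pol) .pol, .pol⟩

def hL160_60_6_11 : pcchk ⟨(nat_lit 1), (nat_lit 1000), Int.ofNat (nat_lit 1000), 0, ⟨0, 1⟩, ⟨Int.ofNat
 (nat_lit 60), 200⟩⟩ ⟨800000, 850000, 908191, 894532, 922059, 417256, 448290, 388374, 447213, 387298⟩ false
 (nat_lit 550) (Int.negSucc (nat_lit 13207)) (nat_lit 600) (Int.negSucc (nat_lit 17145)) qL160_60_6_11 =
 true := by decide +kernel

def qL160_60_6_12 : PCt := .one ⟨2008000, 251, 2008000, -1388733, 488948, 0, 0, 300000, 600000, 650000⟩ ⟨0,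
 .pol, .pol, .pol, .pol, .sx 150000 (.aff 8000000 14288691 3429286) (.aff 9072000 14737389 4421217), .pol,
 .sx 150000 (.aff 12000000 22453656 5388878) (.sy 625000 (.aff 12300000 20423533 6252102) (.sy 637500 (.aff
 12600000 21284236 6322050) (.sx 225000 (.sx 187500 (.aff 20000000 37109947 9727851) (.aff 13500000 22603379
 6912684)) .pol))), .sx 150000 (.inf 2309402 433013) .pol, .pol⟩

def hL160_60_6_12 : pcchk ⟨(nat_lit 1), (nat_lit 1000), Int.ofNat (nat_lit 1000), 0, ⟨0, 1⟩, ⟨Int.ofNat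
 (nat_lit 60), 200⟩⟩ ⟨800000, 850000, 908191, 894532, 922059, 417256, 448290, 388374, 447213, 387298⟩ false
 (nat_lit 600) (Int.negSucc (nat_lit 17145)) (nat_lit 650) (Int.negSucc (nat_lit 20603)) qL160_60_6_12 =
 true := by decide +kernel

end CB
end Pool.Agent.Lib.MP_6947cd_al
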