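import Pool.Agent.Lib.MP_6947cd_al.L.PairSplit

/-!
Problem MP_6947cd_al (Chollet).  Library of pair functions: certificates of the pieces (generated).
-/

set_option autoImplicit false
set_option linter.defProp false
set_option maxRecDepth 100000

namespace Pool.Agent.Lib.MP_6947cd_al
namespace CB

open CA

def qL160_60_6_13 : PCt := .one ⟨2008000, 251, 2008000, -1168656, 345898, 0, 0, 300000, 650000, 700000⟩ ⟨0,
 .pol, .pol, .pol, .pol, .aff 3000000 4242641 942809, .pol, .sx 150000 (.aff 12000000 23334524 5185450) (.sx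
 225000 (.sx 187500 (.aff 20000000 38000000 9500000) (.sx 206250 (.aff 20000000 35181164 10261173) (.sy
 675000 (.sx 215625 (.sy 662500 (.sx 210937 (.aff 18000000 29985218 9638083) (.aff 14100000 23042331
 7447598)) (.aff 20000000 33830515 10670840)) (.sx 220312 (.sy 662500 (.aff 13700000 22095916 7299539) (.aff
 18400000 30315314 9987032)) (.sy 662500 (.aff 1500000 858396 291241) (.sy 668750 (.aff 14300000 23056601
 7671990) (.aff 20000000 33005069 10937714))))) (.aff 20000000 33926605 10640617)))) (.sy 675000 (.sx 262500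
 (.sy 662500 (.aff 1000000 0 0) (.sy 668750 (.aff 2000000 1652504 605143) (.sy 671875 (.sx 243750 (.aff
 14300000 22720696 7785413) (.aff 1000000 0 0)) (.sx 243750 (.sx 234375 (.sx 229687 (.sx 227343 (.aff
 20000000 32785614 11010927) (.aff 14100000 22517499 7621184)) (.aff 12000000 18739946 6456796)) (.aff
 1000000 0 0)) (.aff 1000000 0 0))))) .pol) (.sy 687500 (.sx 262500 (.sx 243750 (.sx 234375 (.sx 229687
 (.aff 20000000 32890130 10975938) (.sy 681250 (.sy 678125 (.aff 14300000 22768384 7769107) (.aff 18000000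
 28949957 9982744)) (.aff 20000000 32630796 11063169))) (.sy 681250 (.aff 13000000 20310462 7089943) (.sx
 239062 (.sx 236718 (.aff 20000000 32306137 11174348) (.sy 684375 (.aff 13200000 20694648 7192198) (.aff
 20000000 32263226 11189210))) (.aff 13400000 20929147 7346693)))) (.aff 1500000 820268 304779)) (.aff
 1000000 0 0)) (.sx 262500 (.sx 243750 (.aff 18400000 29354754 10313832) (.sy 693750 (.aff 13800000 21341383
 7677104) (.sx 253125 (.aff 17800000 27875278 10125101) (.aff 2000000 1644090 608240)))) (.aff 1000000 0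
 0))))), .sx 150000 (.inf 3000001 333334) .pol, .pol⟩

def hL160_60_6_13 : pcchk ⟨(nat_lit 1), (nat_lit 1000), Int.ofNat (nat_lit 1000), 0, ⟨0, 1⟩, ⟨Int.ofNat
 (nat_lit 60), 200⟩⟩ ⟨800000, 850000, 908191, 894532, 922059, 417256, 448290, 388374, 447213, 387298⟩ false
 (nat_lit 650) (Int.negSucc (nat_lit 20603)) (nat_lit 700) (Int.negSucc (nat_lit 23513)) qL160_60_6_13 =
 true := by decide +kernel

def qL160_60_6_14 : PCt := .one ⟨2008000, 251, 2008000, -1331706, 460032, 0, 0, 300000, 700000, 750000⟩ ⟨0,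
 .pol, .pol, .pol, .pol, .aff 1500000 1554564 160817, .pol, .sx 150000 (.aff 12000000 24183328 5003448) (.sx
 225000 (.aff 20000000 37361300 9662405) (.sx 262500 (.aff 17600000 27587506 9988580) (.sx 281250 (.sy
 725000 (.sx 271875 (.sx 267187 (.aff 17800000 27434311 10287848) (.sy 712500 (.aff 2000000 1618732 617768)
 (.aff 17800000 27315778 10332490))) (.sy 712500 (.aff 1000000 0 0) (.sy 718750 (.aff 3000000 3217186
 1243323) (.aff 17700000 26754770 10423936)))) (.aff 17800000 27204706 10374676)) (.sx 290625 (.sy 725000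
 (.aff 1500000 789273 316748) (.aff 17900000 26921623 10608945)) (.sy 725000 (.aff 1000000 0 0) (.sx 295312
 (.aff 18000000 26865158 10757428) (.aff 17900000 26497634 10778699))))))), .sx 150000 (.inf 3109127 321634)
 (.sx 225000 (.inf 1966385 508548) .pol), .pol⟩

def hL160_60_6_14 : pcchk ⟨(nat_lit 1), (nat_lit 1000), Int.ofNat (nat_lit 1000), 0, ⟨0, 1⟩, ⟨Int.ofNat
 (nat_lit 60), 200⟩⟩ ⟨800000, 850000, 908191, 894532, 922059, 417256, 448290, 388374, 447213, 387298⟩ false
 (nat_lit 700) (Int.negSucc (nat_lit 23513)) (nat_lit 750) (Int.negSucc (nat_lit 26829)) qL160_60_6_14 =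
 true := by decide +kernel

def qL160_60_6_15 : PCt := .one ⟨2008000, 251, 2008000, -1273072, 416057, 0, 0, 300000, 750000, 800000⟩ ⟨0,
 .pol, .pol, .pol, .pol, .aff 1500000 1136516 219971, .pol, .aff 20000000 30538228 11821250, .sx 150000
 (.inf 3214551 311086) (.sx 225000 (.inf 2033061 491870) (.sx 262500 (.inf 1783112 560818) .pol)), .pol⟩

def hL160_60_6_15 : pcchk ⟨(nat_lit 1), (nat_lit 1000), Int.ofNat (nat_lit 1000), 0, ⟨0, 1⟩, ⟨Int.ofNat
 (nat_lit 60), 200⟩⟩ ⟨800000, 850000, 908191, 894532, 922059, 417256, 448290, 388374, 447213, 387298⟩ false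
 (nat_lit 750) (Int.negSucc (nat_lit 26829)) (nat_lit 800) (Int.negSucc (nat_lit 29999)) qL160_60_6_15 =
 true := by decide +kernel

def qL160_60_6_16 : PCt := .one ⟨2008000, 251, 2008000, 0, -602400, 0, 0, 300000, 800000, 850000⟩ ⟨0, .pol,
 .pol, .pol, .pol, .aff 1000000 0 0, .pol, .aff 20000000 31507936 11457431, .inf 1876167 533002, .pol⟩

def hL160_60_6_16 : pcchk ⟨(nat_lit 1), (nat_lit 1000), Int.ofNat (nat_lit 1000), 0, ⟨0, 1⟩, ⟨Int.ofNat
 (nat_lit 60), 200⟩⟩ ⟨800000, 850000, 908191, 894532, 922059, 417256, 448290, 388374, 447213, 387298⟩ false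
 (nat_lit 800) (Int.negSucc (nat_lit 29999)) (nat_lit 850) (Int.negSucc (nat_lit 29999)) qL160_60_6_16 =
 true := by decide +kernel

def qL160_60_6_17 : PCt := .one ⟨2008000, 251, 2008000, 0, -602400, 0, 0, 300000, 850000, 900000⟩ ⟨0, .pol,
 .pol, .pol, .pol, .aff 1000000 0 0, .pol, .aff 12000000 18786077 6440941, .inf 1932184 517550, .pol⟩

def hL160_60_6_17 : pcchk ⟨(nat_lit 1), (nat_lit 1000), Int.ofNat (nat_lit 1000), 0, ⟨0, 1⟩, ⟨Int.ofNat
 (nat_lit 60), 200⟩⟩ ⟨800000, 850000, 908191, 894532, 922059, 417256, 448290, 388374, 447213, 387298⟩ false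
 (nat_lit 850) (Int.negSucc (nat_lit 29999)) (nat_lit 900) (Int.negSucc (nat_lit 29999)) qL160_60_6_17 =
 true := by decide +kernel

def qL160_60_6_18 : PCt := .one ⟨2008000, 251, 2008000, 0, -602400, 0, 0, 300000, 900000, 950000⟩ ⟨0, .pol,
 .pol, .pol, .pol, .aff 1000000 0 0, .pol, .aff 12000000 22303463 5425167, .inf 2483278 402694, .pol⟩

def hL160_60_6_18 : pcchk ⟨(nat_lit 1), (nat_lit 1000), Int.ofNat (nat_lit 1000), 0, ⟨0, 1⟩, ⟨Int.ofNat
 (nat_lit 60), 200⟩⟩ ⟨800000, 850000, 908191, 894532, 922059, 417256, 448290, 388374, 447213, 387298⟩ false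
 (nat_lit 900) (Int.negSucc (nat_lit 29999)) (nat_lit 950) (Int.negSucc (nat_lit 29999)) qL160_60_6_18 =
 true := by decide +kernel

def qL160_60_6_19 : PCt := .one ⟨2008000, 251, 2008000, 0, -602400, 0, 0, 300000, 950000, 1000000⟩ ⟨0, .pol,
 .pol, .pol, .pol, .aff 1000000 0 0, .pol, .aff 8000000 14571662 3362692, .inf 2549510 392233, .pol⟩

def hL160_60_6_19 : pcchk ⟨(nat_lit 1), (nat_lit 1000), Int.ofNat (nat_lit 1000), 0, ⟨0, 1⟩, ⟨Int.ofNat
 (nat_lit 60), 200⟩⟩ ⟨800000, 850000, 908191, 894532, 922059, 417256, 448290, 388374, 447213, 387298⟩ false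
 (nat_lit 950) (Int.negSucc (nat_lit 29999)) (nat_lit 1000) (Int.negSucc (nat_lit 29999)) qL160_60_6_19 =
 true := by decide +kernel

end CB
end Pool.Agent.Lib.MP_6947cd_al
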