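import Pool.Agent.Lib.MP_6947cd_al.L.PairSplit

/-!
Problem MP_6947cd_al (Chollet).  Library of pair functions: certificates of the pieces (generated).
-/

set_option autoImplicit false
set_option linter.defProp false
set_option maxRecDepth 100000

namespace Pool.Agent.Lib.MP_6947cd_al
namespace CB

open CA

def qL190_60_0_0 : PCt := .one ⟨2008000, 251, 502000, 392363, 0, 0, 0, 300000, 0, 50000⟩ ⟨5000, .sp 250000
 (.aff 2309402 433013) (.sp 500000 (.aff 1632994 612373) (.aff 1264912 790569)), .pol, .pol, .pol, .sx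
 152500 (.sx 78750 (.sx 41875 (.sx 23437 (.sx 14218 (.sy 25000 (.sx 9609 (.sy 12500 (.sy 6250 .pol (.aff
 25000 1398355 679817)) (.aff 75000 1481997 577346)) (.aff 113000 831686 945993)) (.aff 1000000 0 0)) (.aff
 125000 1008282 759337)) (.aff 1000000 0 0)) (.aff 1000000 0 0)) (.aff 1000000 0 0)) (.aff 1000000 0 0), .sx
 2500 (.sy 27500 (.aff 13000 1864170 522576) (.aff 0 5567765 179606)) (.sy 27500 (.sx 3750 (.sy 16250 (.aff
 13000 1671377 582855) (.aff 125000 2315033 330719)) (.sx 4375 (.sy 16250 (.sy 10625 (.aff 13000 1581682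
 615907) (.aff 50000 1761988 512206)) (.aff 125000 2030418 377078)) (.sy 16250 (.sy 10625 (.aff 13000
 1505731 646975) (.aff 50000 1635965 551663)) (.aff 125000 1890217 405047)))) (.aff 1000000 0 0)), .pol, .sy
 25000 (.sx 152500 .pol .pol) (.sx 152500 (.sy 37500 .pol (.sy 43750 .pol (.sy 46875 (.sx 78750 (.sx 41875
 .pol .pol) .pol) (.sx 78750 (.sx 41875 .pol .pol) .pol)))) .pol), .pol⟩

def hL190_60_0_0 : pcchk ⟨(nat_lit 3), (nat_lit 1000), Int.ofNat (nat_lit 250), 0, ⟨0, 1⟩, ⟨Int.ofNat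
 (nat_lit 60), 200⟩⟩ ⟨950000, 1000000, 987340, 974761, 1000082, 111803, 279510, 55902, 223606, 0⟩ true 0 0
 (nat_lit 50) (Int.ofNat (nat_lit 977)) qL190_60_0_0 = true := by decide +kernel

def qL190_60_0_1 : PCt := .one ⟨2008000, 251, 502000, 107227, 14256, 0, 0, 300000, 50000, 100000⟩ ⟨0, .pol,
 .pol, .pol, .pol, .sx 150000 (.sx 75000 (.sx 37500 (.aff 2250000 3535534 441942) (.aff 1000000 0 0)) (.aff
 1000000 0 0)) (.aff 1000000 0 0), .pol, .pol, .sx 150000 (.sy 75000 (.sy 62500 (.sx 75000 (.sx 37500 .pol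
 .pol) .pol) (.sx 75000 (.sx 37500 .pol .pol) .pol)) (.sx 75000 .pol .pol)) .pol, .pol⟩

def hL190_60_0_1 : pcchk ⟨(nat_lit 3), (nat_lit 1000), Int.ofNat (nat_lit 250), 0, ⟨0, 1⟩, ⟨Int.ofNat
 (nat_lit 60), 200⟩⟩ ⟨950000, 1000000, 987340, 974761, 1000082, 111803, 279510, 55902, 223606, 0⟩ false
 (nat_lit 50) (Int.ofNat (nat_lit 977)) (nat_lit 100) (Int.ofNat (nat_lit 1244)) qL190_60_0_1 = true := by
 decide +kernel

def qL190_60_0_2 : PCt := .one ⟨2008000, 251, 502000, 142969, 10682, 0, 0, 300000, 100000, 150000⟩ ⟨0, .pol,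
 .pol, .pol, .pol, .sx 150000 (.sx 75000 (.sy 125000 (.sx 37500 (.sy 112500 (.sx 18750 (.aff 2000000 3366502
 297045) (.aff 1000000 0 0)) (.sy 118750 (.sx 18750 (.sx 9375 (.aff 2000000 3511885 284748) (.aff 2100000
 3455238 350193)) (.aff 1000000 0 0)) (.sx 18750 (.aff 2800000 4589118 706019) (.aff 1000000 0 0)))) (.aff
 1000000 0 0)) (.sx 37500 (.sx 18750 (.aff 3000000 5416026 738549) (.aff 2650000 3835339 709846)) (.aff
 1000000 0 0))) (.aff 1000000 0 0)) (.aff 1000000 0 0), .pol, .pol, .sx 150000 (.sy 125000 (.sx 75000 .pol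
 .pol) (.sy 137500 (.sx 75000 .pol .pol) (.sy 143750 (.sx 75000 .pol (.sx 112500 .pol .pol)) (.sx 75000 .pol
 (.sx 112500 .pol .pol))))) .pol, .pol⟩

def hL190_60_0_2 : pcchk ⟨(nat_lit 3), (nat_lit 1000), Int.ofNat (nat_lit 250), 0, ⟨0, 1⟩, ⟨Int.ofNat
 (nat_lit 60), 200⟩⟩ ⟨950000, 1000000, 987340, 974761, 1000082, 111803, 279510, 55902, 223606, 0⟩ false
 (nat_lit 100) (Int.ofNat (nat_lit 1244)) (nat_lit 150) (Int.ofNat (nat_lit 1600)) qL190_60_0_2 = true := by
 decide +kernel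

def qL190_60_0_3 : PCt := .one ⟨2008000, 251, 502000, 128913, 12790, 0, 0, 300000, 150000, 200000⟩ ⟨0, .pol,
 .pol, .pol, .pol, .sx 150000 (.sx 75000 (.sx 37500 (.aff 3000000 4320494 925821) (.aff 3225000 4299109
 1151547)) (.aff 1000000 0 0)) (.aff 1000000 0 0), .pol, .pol, .sx 150000 .pol .pol, .pol⟩

def hL190_60_0_3 : pcchk ⟨(nat_lit 3), (nat_lit 1000), Int.ofNat (nat_lit 250), 0, ⟨0, 1⟩, ⟨Int.ofNat
 (nat_lit 60), 200⟩⟩ ⟨950000, 1000000, 987340, 974761, 1000082, 111803, 279510, 55902, 223606, 0⟩ false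
 (nat_lit 150) (Int.ofNat (nat_lit 1600)) (nat_lit 200) (Int.ofNat (nat_lit 1921)) qL190_60_0_3 = true := by
 decide +kernel

def qL190_60_0_4 : PCt := .one ⟨2008000, 251, 502000, 134937, 11586, 0, 0, 300000, 200000, 250000⟩ ⟨0, .pol,
 .pol, .pol, .pol, .sx 150000 (.sx 75000 (.sx 37500 (.aff 3000000 4898980 816497) (.aff 3392000 4466152
 1281118)) (.sx 112500 (.sy 225000 (.aff 1000000 0 0) (.aff 3700000 4529901 1609307)) (.aff 1000000 0 0)))
 (.aff 1000000 0 0), .pol, .pol, .sx 150000 .pol (.sx 225000 (.sy 225000 .pol .pol) .pol), .pol⟩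

def hL190_60_0_4 : pcchk ⟨(nat_lit 3), (nat_lit 1000), Int.ofNat (nat_lit 250), 0, ⟨0, 1⟩, ⟨Int.ofNat
 (nat_lit 60), 200⟩⟩ ⟨950000, 1000000, 987340, 974761, 1000082, 111803, 279510, 55902, 223606, 0⟩ false
 (nat_lit 200) (Int.ofNat (nat_lit 1921)) (nat_lit 250) (Int.ofNat (nat_lit 2257)) qL190_60_0_4 = true := by
 decide +kernel

def qL190_60_0_5 : PCt := .one ⟨2008000, 251, 502000, 143772, 9377, 0, 0, 300000, 250000, 300000⟩ ⟨0, .pol,
 .pol, .pol, .pol, .sx 150000 (.sx 75000 (.aff 5000000 7659417 2088932) (.sx 112500 (.sx 93750 (.aff 3900000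
 4966824 1693235) (.aff 3700000 4512839 1615392)) (.sy 275000 (.aff 1000000 0 0) (.aff 4000000 4607686
 1953259)))) (.aff 1000000 0 0), .pol, .pol, .sx 150000 .pol (.sx 225000 .pol .pol), .pol⟩

def hL190_60_0_5 : pcchk ⟨(nat_lit 3), (nat_lit 1000), Int.ofNat (nat_lit 250), 0, ⟨0, 1⟩, ⟨Int.ofNat
 (nat_lit 60), 200⟩⟩ ⟨950000, 1000000, 987340, 974761, 1000082, 111803, 279510, 55902, 223606, 0⟩ false
 (nat_lit 250) (Int.ofNat (nat_lit 2257)) (nat_lit 300) (Int.ofNat (nat_lit 2615)) qL190_60_0_5 = true := by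
 decide +kernel

def qL190_60_0_6 : PCt := .one ⟨2008000, 251, 502000, 157427, 5281, 0, 0, 300000, 300000, 350000⟩ ⟨0, .pol,
 .pol, .pol, .pol, .sx 150000 (.sx 75000 (.aff 5000000 9614804 1664101) (.sx 112500 (.aff 5000000 7101003
 2253203) (.sx 131250 (.aff 4200000 5035494 2033565) (.aff 4350000 4931067 2275877)))) (.sx 225000 (.sy
 325000 (.aff 1000000 0 0) (.sx 187500 (.aff 4100000 4511163 2130272) (.aff 1000000 0 0))) (.aff 1000000 0
 0)), .pol, .pol, .pol, .pol⟩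

def hL190_60_0_6 : pcchk ⟨(nat_lit 3), (nat_lit 1000), Int.ofNat (nat_lit 250), 0, ⟨0, 1⟩, ⟨Int.ofNat
 (nat_lit 60), 200⟩⟩ ⟨950000, 1000000, 987340, 974761, 1000082, 111803, 279510, 55902, 223606, 0⟩ false
 (nat_lit 300) (Int.ofNat (nat_lit 2615)) (nat_lit 350) (Int.ofNat (nat_lit 3007)) qL190_60_0_6 = true := by
 decide +kernel

def qL190_60_0_7 : PCt := .one ⟨2008000, 251, 502000, 174294, -623, 0, 0, 300000, 350000, 400000⟩ ⟨0, .pol,
 .pol, .pol, .pol, .sx 150000 (.aff 5000000 6324556 2529822) (.sx 225000 (.sy 375000 (.sx 187500 (.sx 168750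
 (.aff 4600000 5276363 2456238) (.aff 3600000 3758858 1798419)) (.aff 1500000 662868 377149)) (.sx 187500
 (.aff 4800000 5462845 2643312) (.sy 387500 (.aff 2000000 1359590 735516) (.aff 3900000 4101220 2050610))))
 (.aff 1000000 0 0)), .pol, .pol, .pol, .pol⟩

def hL190_60_0_7 : pcchk ⟨(nat_lit 3), (nat_lit 1000), Int.ofNat (nat_lit 250), 0, ⟨0, 1⟩, ⟨Int.ofNat
 (nat_lit 60), 200⟩⟩ ⟨950000, 1000000, 987340, 974761, 1000082, 111803, 279510, 55902, 223606, 0⟩ false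
 (nat_lit 350) (Int.ofNat (nat_lit 3007)) (nat_lit 400) (Int.ofNat (nat_lit 3441)) qL190_60_0_7 = true := by
 decide +kernel

def qL190_60_0_8 : PCt := .one ⟨2008000, 251, 502000, 194374, -8655, 0, 0, 300000, 400000, 450000⟩ ⟨0, .pol,
 .pol, .pol, .pol, .sx 150000 (.aff 5000000 6733004 2376354) (.sx 225000 (.sy 425000 (.sx 187500 (.aff
 5000000 6087088 2628515) (.sx 206250 (.aff 4800000 5374012 2687006) (.aff 4700000 5009824 2732631))) (.aff
 5000000 5577734 2868549)) (.sy 425000 (.aff 1500000 650444 384353) (.sy 437500 (.aff 2000000 1330125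
 751810) (.aff 4275000 4418839 2427250)))), .pol, .pol, .pol, .pol⟩

def hL190_60_0_8 : pcchk ⟨(nat_lit 3), (nat_lit 1000), Int.ofNat (nat_lit 250), 0, ⟨0, 1⟩, ⟨Int.ofNat
 (nat_lit 60), 200⟩⟩ ⟨950000, 1000000, 987340, 974761, 1000082, 111803, 279510, 55902, 223606, 0⟩ false
 (nat_lit 400) (Int.ofNat (nat_lit 3441)) (nat_lit 450) (Int.ofNat (nat_lit 3925)) qL190_60_0_8 = true := by
 decide +kernel

def qL190_60_0_9 : PCt := .one ⟨2008000, 251, 502000, 217265, -18956, 0, 0, 300000, 450000, 500000⟩ ⟨0,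
 .pol, .pol, .pol, .pol, .sx 150000 (.aff 5000000 8219219 1946657) (.sx 225000 (.aff 5000000 5811866
 2752989) (.sy 475000 (.sx 262500 (.sx 243750 (.aff 5000000 5563655 2875808) (.aff 4700000 4911261 2787472))
 (.aff 2000000 1282359 779813)) (.sx 262500 (.aff 5000000 5551110 2882307) (.sx 281250 (.aff 4900000 5134589
 2962263) (.aff 3000000 2590305 1544220))))), .pol, .pol, .pol, .pol⟩

def hL190_60_0_9 : pcchk ⟨(nat_lit 3), (nat_lit 1000), Int.ofNat (nat_lit 250), 0, ⟨0, 1⟩, ⟨Int.ofNat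
 (nat_lit 60), 200⟩⟩ ⟨950000, 1000000, 987340, 974761, 1000082, 111803, 279510, 55902, 223606, 0⟩ false
 (nat_lit 450) (Int.ofNat (nat_lit 3925)) (nat_lit 500) (Int.ofNat (nat_lit 4466)) qL190_60_0_9 = true := by
 decide +kernel

def qL190_60_0_10 : PCt := .one ⟨2008000, 251, 502000, 234132, -27390, 0, 0, 300000, 500000, 550000⟩ ⟨0,
 .pol, .pol, .pol, .pol, .sx 150000 (.aff 5000000 8640988 1851641) (.sx 225000 (.aff 5000000 6693281
 2390457) (.aff 4700000 4894640 2796938)), .pol, .pol, .pol, .pol⟩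

def hL190_60_0_10 : pcchk ⟨(nat_lit 3), (nat_lit 1000), Int.ofNat (nat_lit 250), 0, ⟨0, 1⟩, ⟨Int.ofNat
 (nat_lit 60), 200⟩⟩ ⟨950000, 1000000, 987340, 974761, 1000082, 111803, 279510, 55902, 223606, 0⟩ false
 (nat_lit 500) (Int.ofNat (nat_lit 4466)) (nat_lit 550) (Int.ofNat (nat_lit 5049)) qL190_60_0_10 = true :=
 by decide +kernel

def qL190_60_0_11 : PCt := .one ⟨2008000, 251, 502000, -14075679, 7843007, 0, 0, 300000, 550000, 600000⟩ ⟨0,
 .pol, .pol, .pol, .pol, .sx 150000 (.aff 35000000 76866407 15039080) (.inf 1278889 781929), .pol, .pol, .sy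
 575000 (.inf 1549194 645497) (.inf 1583246 631614), .pol⟩

def hL190_60_0_11 : pcchk ⟨(nat_lit 3), (nat_lit 1000), Int.ofNat (nat_lit 250), 0, ⟨0, 1⟩, ⟨Int.ofNat
 (nat_lit 60), 200⟩⟩ ⟨950000, 1000000, 987340, 974761, 1000082, 111803, 279510, 55902, 223606, 0⟩ false
 (nat_lit 550) (Int.ofNat (nat_lit 5049)) (nat_lit 600) (Int.negSucc (nat_lit 29999)) qL190_60_0_11 = true
 := by decide +kernel

def qL190_60_0_12 : PCt := .one ⟨2008000, 251, 502000, 0, -602400, 0, 0, 300000, 600000, 650000⟩ ⟨0, .pol,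
 .pol, .pol, .pol, .inf 1632994 612373, .pol, .pol, .inf 1632994 612373, .pol⟩

def hL190_60_0_12 : pcchk ⟨(nat_lit 3), (nat_lit 1000), Int.ofNat (nat_lit 250), 0, ⟨0, 1⟩, ⟨Int.ofNat
 (nat_lit 60), 200⟩⟩ ⟨950000, 1000000, 987340, 974761, 1000082, 111803, 279510, 55902, 223606, 0⟩ false
 (nat_lit 600) (Int.negSucc (nat_lit 29999)) (nat_lit 650) (Int.negSucc (nat_lit 29999)) qL190_60_0_12 =
 true := by decide +kernel

def qL190_60_0_13 : PCt := .one ⟨2008000, 251, 502000, 0, -602400, 0, 0, 300000, 650000, 700000⟩ ⟨0, .pol,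
 .pol, .pol, .pol, .inf 1697057 589256, .pol, .pol, .inf 1697057 589256, .pol⟩

def hL190_60_0_13 : pcchk ⟨(nat_lit 3), (nat_lit 1000), Int.ofNat (nat_lit 250), 0, ⟨0, 1⟩, ⟨Int.ofNat
 (nat_lit 60), 200⟩⟩ ⟨950000, 1000000, 987340, 974761, 1000082, 111803, 279510, 55902, 223606, 0⟩ false
 (nat_lit 650) (Int.negSucc (nat_lit 29999)) (nat_lit 700) (Int.negSucc (nat_lit 29999)) qL190_60_0_13 =
 true := by decide +kernel

def qL190_60_0_14 : PCt := .one ⟨2008000, 251, 502000, 0, -602400, 0, 0, 300000, 700000, 750000⟩ ⟨0, .pol,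
 .pol, .pol, .pol, .inf 1758788 568574, .pol, .pol, .inf 1758788 568574, .pol⟩

def hL190_60_0_14 : pcchk ⟨(nat_lit 3), (nat_lit 1000), Int.ofNat (nat_lit 250), 0, ⟨0, 1⟩, ⟨Int.ofNat
 (nat_lit 60), 200⟩⟩ ⟨950000, 1000000, 987340, 974761, 1000082, 111803, 279510, 55902, 223606, 0⟩ false
 (nat_lit 700) (Int.negSucc (nat_lit 29999)) (nat_lit 750) (Int.negSucc (nat_lit 29999)) qL190_60_0_14 =
 true := by decide +kernel

def qL190_60_0_15 : PCt := .one ⟨2008000, 251, 502000, 0, -602400, 0, 0, 300000, 750000, 800000⟩ ⟨0, .pol,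
 .pol, .pol, .pol, .inf 2273031 439942, .pol, .pol, .inf 2273031 439942, .pol⟩

def hL190_60_0_15 : pcchk ⟨(nat_lit 3), (nat_lit 1000), Int.ofNat (nat_lit 250), 0, ⟨0, 1⟩, ⟨Int.ofNat
 (nat_lit 60), 200⟩⟩ ⟨950000, 1000000, 987340, 974761, 1000082, 111803, 279510, 55902, 223606, 0⟩ false
 (nat_lit 750) (Int.negSucc (nat_lit 29999)) (nat_lit 800) (Int.negSucc (nat_lit 29999)) qL190_60_0_15 =
 true := by decide +kernel

def qL190_60_0_16 : PCt := .one ⟨2008000, 251, 502000, 0, -602400, 0, 0, 300000, 800000, 850000⟩ ⟨0, .pol,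
 .pol, .pol, .pol, .aff 35000000 65105044 17755921, .pol, .pol, .inf 2345208 426402, .pol⟩

def hL190_60_0_16 : pcchk ⟨(nat_lit 3), (nat_lit 1000), Int.ofNat (nat_lit 250), 0, ⟨0, 1⟩, ⟨Int.ofNat
 (nat_lit 60), 200⟩⟩ ⟨950000, 1000000, 987340, 974761, 1000082, 111803, 279510, 55902, 223606, 0⟩ false
 (nat_lit 800) (Int.negSucc (nat_lit 29999)) (nat_lit 850) (Int.negSucc (nat_lit 29999)) qL190_60_0_16 =
 true := by decide +kernel

def qL190_60_0_17 : PCt := .one ⟨2008000, 251, 502000, 0, -602400, 0, 0, 300000, 850000, 900000⟩ ⟨0, .pol,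
 .pol, .pol, .pol, .aff 35000000 67048905 17241147, .pol, .pol, .inf 2415230 414040, .pol⟩

def hL190_60_0_17 : pcchk ⟨(nat_lit 3), (nat_lit 1000), Int.ofNat (nat_lit 250), 0, ⟨0, 1⟩, ⟨Int.ofNat
 (nat_lit 60), 200⟩⟩ ⟨950000, 1000000, 987340, 974761, 1000082, 111803, 279510, 55902, 223606, 0⟩ false
 (nat_lit 850) (Int.negSucc (nat_lit 29999)) (nat_lit 900) (Int.negSucc (nat_lit 29999)) qL190_60_0_17 =
 true := by decide +kernel

def qL190_60_0_18 : PCt := .one ⟨2008000, 251, 502000, 0, -602400, 0, 0, 300000, 900000, 950000⟩ ⟨0, .pol,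
 .pol, .pol, .pol, .aff 35000000 68937976 16768697, .pol, .pol, .inf 2483278 402694, .pol⟩

def hL190_60_0_18 : pcchk ⟨(nat_lit 3), (nat_lit 1000), Int.ofNat (nat_lit 250), 0, ⟨0, 1⟩, ⟨Int.ofNat
 (nat_lit 60), 200⟩⟩ ⟨950000, 1000000, 987340, 974761, 1000082, 111803, 279510, 55902, 223606, 0⟩ false
 (nat_lit 900) (Int.negSucc (nat_lit 29999)) (nat_lit 950) (Int.negSucc (nat_lit 29999)) qL190_60_0_18 =
 true := by decide +kernel

def qL190_60_0_19 : PCt := .one ⟨2008000, 251, 502000, 0, -602400, 0, 0, 300000, 950000, 1000000⟩ ⟨0, .pol,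
 .pol, .pol, .pol, .aff 20000000 34252738 10539304, .pol, .pol, .inf 2549510 392233, .pol⟩

def hL190_60_0_19 : pcchk ⟨(nat_lit 3), (nat_lit 1000), Int.ofNat (nat_lit 250), 0, ⟨0, 1⟩, ⟨Int.ofNat
 (nat_lit 60), 200⟩⟩ ⟨950000, 1000000, 987340, 974761, 1000082, 111803, 279510, 55902, 223606, 0⟩ false
 (nat_lit 950) (Int.negSucc (nat_lit 29999)) (nat_lit 1000) (Int.negSucc (nat_lit 29999)) qL190_60_0_19 =
 true := by decide +kernel

def qL190_60_1_0 : PCt := .one ⟨2008000, 251, 803200, 350596, 0, 0, 0, 300000, 0, 50000⟩ ⟨5000, .sp 250000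
 (.sp 62500 (.aff 4618803 216507) (.aff 3508233 285044)) .pol, .pol, .pol, .pol, .sx 152500 (.sx 78750 (.aff
 375000 645498 605153) .pol) .pol, .sy 27500 (.sy 16250 (.sy 10625 (.aff 25000 4224805 225011) (.aff 50000
 3804405 237226)) (.aff 75000 3869553 221118)) (.aff 250000 2952753 190501), .pol, .sx 152500 (.sx 78750
 (.sx 41875 (.sy 25000 .pol (.sx 23437 .pol .pol)) .pol) .pol) .pol, .pol⟩

def hL190_60_1_0 : pcchk ⟨(nat_lit 3), (nat_lit 1000), Int.ofNat (nat_lit 400), 0, ⟨0, 1⟩, ⟨Int.ofNat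
 (nat_lit 60), 200⟩⟩ ⟨950000, 1000000, 987340, 974761, 1000082, 111803, 279510, 55902, 223606, 0⟩ true 0 0
 (nat_lit 50) (Int.ofNat (nat_lit 873)) qL190_60_1_0 = true := by decide +kernel

def qL190_60_1_1 : PCt := .one ⟨2008000, 251, 803200, 101203, 12469, 0, 0, 300000, 50000, 100000⟩ ⟨0, .pol,
 .pol, .pol, .pol, .sx 150000 (.sx 75000 (.aff 2425000 6186188 328252) .pol) .pol, .pol, .pol, .sx 150000
 (.sx 75000 (.sx 37500 .pol .pol) .pol) .pol, .pol⟩

def hL190_60_1_1 : pcchk ⟨(nat_lit 3), (nat_lit 1000), Int.ofNat (nat_lit 400), 0, ⟨0, 1⟩, ⟨Int.ofNat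
 (nat_lit 60), 200⟩⟩ ⟨950000, 1000000, 987340, 974761, 1000082, 111803, 279510, 55902, 223606, 0⟩ false
 (nat_lit 50) (Int.ofNat (nat_lit 873)) (nat_lit 100) (Int.ofNat (nat_lit 1125)) qL190_60_1_1 = true := by
 decide +kernel

def qL190_60_1_2 : PCt := .one ⟨2008000, 251, 803200, 17268, 20863, 0, 0, 300000, 100000, 150000⟩ ⟨0, .pol,
 .pol, .pol, .pol, .sx 150000 (.sx 75000 (.sy 125000 (.sy 112500 (.aff 3500000 7268801 859840) (.sy 118750
 (.sy 115625 (.aff 3400000 7230045 796676) (.sx 37500 (.sx 18750 (.aff 4300000 8250000 1320000) (.aff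
 1000000 0 0)) (.aff 1000000 0 0))) (.sy 121875 (.sx 37500 (.sx 18750 (.aff 4400000 8612588 1342222) (.aff
 1000000 0 0)) (.aff 1000000 0 0)) (.sy 123437 (.sx 37500 (.sx 18750 (.aff 4700000 9463363 1446632) (.aff
 1000000 0 0)) (.aff 1000000 0 0)) (.sx 37500 (.sx 18750 (.aff 5000000 10295620 1554059) (.aff 1000000 0 0))
 (.aff 1000000 0 0)))))) (.sx 37500 (.sx 18750 (.aff 5000000 10832052 1477098) (.aff 4350000 8186144
 1370915)) (.aff 1000000 0 0))) (.aff 1000000 0 0)) (.aff 1000000 0 0), .pol, .pol, .sx 150000 (.sx 75000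
 .pol .pol) .pol, .pol⟩

def hL190_60_1_2 : pcchk ⟨(nat_lit 3), (nat_lit 1000), Int.ofNat (nat_lit 400), 0, ⟨0, 1⟩, ⟨Int.ofNat
 (nat_lit 60), 200⟩⟩ ⟨950000, 1000000, 987340, 974761, 1000082, 111803, 279510, 55902, 223606, 0⟩ false
 (nat_lit 100) (Int.ofNat (nat_lit 1125)) (nat_lit 150) (Int.ofNat (nat_lit 1168)) qL190_60_1_2 = true := by
 decide +kernel

def qL190_60_1_3 : PCt := .one ⟨2008000, 251, 803200, -30522, 28031, 0, 0, 300000, 150000, 200000⟩ ⟨0, .pol,
 .pol, .pol, .pol, .sx 150000 (.sy 175000 (.sx 75000 (.sx 37500 (.aff 5000000 8699834 1839116) (.sx 56250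
 (.aff 5575000 9206261 2273521) (.aff 1000000 0 0))) (.aff 1000000 0 0)) (.sx 75000 (.sx 37500 (.aff 8000000
 15652476 3130496) (.aff 5407000 8814000 2203500)) (.aff 1000000 0 0))) (.aff 1000000 0 0), .pol, .pol, .sx
 150000 .pol .pol, .pol⟩

def hL190_60_1_3 : pcchk ⟨(nat_lit 3), (nat_lit 1000), Int.ofNat (nat_lit 400), 0, ⟨0, 1⟩, ⟨Int.ofNat
 (nat_lit 60), 200⟩⟩ ⟨950000, 1000000, 987340, 974761, 1000082, 111803, 279510, 55902, 223606, 0⟩ false
 (nat_lit 150) (Int.ofNat (nat_lit 1168)) (nat_lit 200) (Int.ofNat (nat_lit 1092)) qL190_60_1_3 = true := by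
 decide +kernel

def qL190_60_1_4 : PCt := .one ⟨2008000, 251, 803200, -42972, 30521, 0, 0, 300000, 200000, 250000⟩ ⟨0, .pol,
 .pol, .pol, .pol, .sy 225000 (.sx 150000 (.sx 75000 (.sx 37500 (.aff 8000000 19241160 2546625) (.sx 56250
 (.aff 8000000 13605555 3601471) (.aff 5900000 9150256 2623971))) (.aff 1000000 0 0)) (.aff 1000000 0 0))
 (.sx 150000 (.sx 75000 (.aff 7200000 11032981 3484100) (.sx 112500 (.aff 7100000 10206827 3645600) (.aff
 1000000 0 0))) (.aff 1000000 0 0)), .pol, .pol, .sx 150000 .pol .pol, .pol⟩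

def hL190_60_1_4 : pcchk ⟨(nat_lit 3), (nat_lit 1000), Int.ofNat (nat_lit 400), 0, ⟨0, 1⟩, ⟨Int.ofNat
 (nat_lit 60), 200⟩⟩ ⟨950000, 1000000, 987340, 974761, 1000082, 111803, 279510, 55902, 223606, 0⟩ false
 (nat_lit 200) (Int.ofNat (nat_lit 1092)) (nat_lit 250) (Int.ofNat (nat_lit 985)) qL190_60_1_4 = true := by
 decide +kernel

def qL190_60_1_5 : PCt := .one ⟨2008000, 251, 803200, -62248, 35340, 0, 0, 300000, 250000, 300000⟩ ⟨0, .pol,
 .pol, .pol, .pol, .sy 275000 (.sy 262500 (.sx 150000 (.sx 75000 (.aff 8000000 12938960 3787013) (.sx 112500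
 (.sx 93750 (.aff 8000000 11572957 4234009) (.aff 1500000 788171 317191)) (.aff 1000000 0 0))) (.aff 1000000
 0 0)) (.sy 268750 (.sx 150000 (.sx 75000 (.aff 8000000 15211473 3221253) (.sx 112500 (.aff 7900000 11073926
 4299289) (.aff 1000000 0 0))) (.aff 1000000 0 0)) (.sx 150000 (.sx 75000 (.aff 8000000 15389391 3184012)
 (.sx 112500 (.aff 7800000 11041081 4187996) (.aff 1000000 0 0))) (.aff 1000000 0 0)))) (.sy 287500 (.sy
 281250 (.sy 278125 (.sx 150000 (.sx 75000 (.aff 8000000 15521491 3156914) (.sx 112500 (.aff 7800000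
 11135856 4152353) (.aff 1000000 0 0))) (.aff 1000000 0 0)) (.sx 150000 (.sx 75000 (.aff 8000000 15608937
 3139228) (.sx 112500 (.aff 8000000 11037185 4439538) (.aff 1000000 0 0))) (.aff 1000000 0 0))) (.sy 284375
 (.sx 150000 (.sx 75000 (.aff 8000000 15695895 3121836) (.aff 7700000 10623017 4225730)) (.aff 1000000 0 0))
 (.sy 285937 (.sx 150000 (.sx 75000 (.aff 8000000 15760792 3108981) (.aff 7600000 10507731 4145520)) (.aff
 1000000 0 0)) (.sx 150000 (.sx 75000 (.aff 8000000 15803914 3100498) (.aff 7600000 10536480 4134209)) (.aff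
 1000000 0 0))))) (.sy 293750 (.sy 290625 (.sy 289062 (.sx 150000 (.sx 75000 (.aff 8000000 15846918 3092084)
 (.aff 7500000 10405073 4060520)) (.aff 1000000 0 0)) (.sy 289843 (.sx 150000 (.sx 75000 (.aff 8000000
 15879084 3085821) (.aff 7500000 10426193 4052295)) (.aff 1000000 0 0)) (.sx 150000 (.sx 75000 (.aff 8000000
 15900506 3081663) (.aff 7400000 10279639 3984576)) (.aff 1000000 0 0)))) (.sy 292187 (.sy 291406 (.sx
 150000 (.sx 75000 (.aff 8000000 15921898 3077523) (.aff 7400000 10293470 3979222)) (.aff 1000000 0 0)) (.sx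
 150000 (.sx 75000 (.aff 8000000 15943249 3073402) (.aff 7400000 10307273 3973893)) (.aff 1000000 0 0)))
 (.sy 292968 (.sy 292577 (.sx 150000 (.sx 75000 (.aff 8000000 15959236 3070323) (.aff 7400000 10317609
 3969913)) (.aff 1000000 0 0)) (.sx 150000 (.sx 75000 (.aff 8000000 15969890 3068275) (.aff 7350000 10243836
 3936270)) (.aff 1000000 0 0))) (.sy 293359 (.sx 150000 (.sx 75000 (.aff 8000000 15980551 3066228) (.aff
 7300000 10169960 3902671)) (.aff 1000000 0 0)) (.sy 293554 (.sx 150000 (.sx 75000 (.aff 8000000 15988534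
 3064697) (.aff 7300000 10175041 3900722)) (.aff 1000000 0 0)) (.sx 150000 (.sx 75000 (.aff 8000000 15993859
 3063676) (.aff 7300000 10178430 3899423)) (.aff 1000000 0 0))))))) (.sy 296875 (.sy 295312 (.sy 294531 (.sy
 294140 (.sy 293945 (.sx 150000 (.sx 75000 (.aff 8000000 15999182 3062657) (.aff 7300000 10181818 3898126))
 (.aff 1000000 0 0)) (.sx 150000 (.sx 75000 (.aff 8000000 16004490 3061641) (.aff 7300000 10185195 3896833))
 (.aff 1000000 0 0))) (.sx 150000 (.sx 75000 (.aff 8000000 16012462 3060117) (.aff 7300000 10190269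
 3894893)) (.aff 1000000 0 0))) (.sy 294921 (.sx 150000 (.sx 75000 (.aff 8000000 16023081 3058089) (.aff
 7300000 10197026 3892312)) (.aff 1000000 0 0)) (.sx 150000 (.sx 75000 (.aff 8000000 16033692 3056065) (.aff
 7300000 10203779 3889736)) (.aff 1000000 0 0)))) (.sy 296093 (.sy 295702 (.sy 295507 (.sy 295409 (.sx
 150000 (.sx 75000 (.aff 8000000 16040319 3054803) (.aff 7250000 10126981 3857270)) (.aff 1000000 0 0)) (.sy
 295458 (.sy 295433 (.sx 150000 (.sx 75000 (.aff 8000000 16041962 3054490) (.aff 7250000 10128018 3856876))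
 (.aff 1000000 0 0)) (.sy 295445 (.sy 295439 (.sx 150000 (.sx 75000 (.aff 8000000 16042369 3054412) (.aff
 7250000 10128275 3856778)) (.aff 1000000 0 0)) (.sx 150000 (.sx 75000 (.aff 8000000 16042532 3054381) (.aff
 7250000 10128378 3856738)) (.aff 1000000 0 0))) (.sx 150000 (.sx 75000 (.aff 8000000 16042790 3054332)
 (.aff 7250000 10128541 3856676)) (.aff 1000000 0 0)))) (.sx 150000 (.sx 75000 (.aff 8000000 16043631
 3054172) (.aff 7250000 10129072 3856474)) (.aff 1000000 0 0)))) (.sx 150000 (.sx 75000 (.aff 8000000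
 16046943 3053542) (.aff 7250000 10131163 3855678)) (.aff 1000000 0 0))) (.sy 295897 (.sx 150000 (.sx 75000
 (.aff 8000000 16052235 3052535) (.aff 7250000 10134504 3854407)) (.aff 1000000 0 0)) (.sx 150000 (.sx 75000
 (.aff 8000000 16057539 3051527) (.aff 7250000 10137852 3853134)) (.aff 1000000 0 0)))) (.sy 296484 (.sy
 296288 (.sx 150000 (.sx 75000 (.aff 8000000 16062841 3050519) (.aff 7250000 10141200 3851862)) (.aff
 1000000 0 0)) (.sy 296386 (.sy 296337 (.sx 150000 (.sx 75000 (.aff 8000000 16066148 3049891) (.aff 7250000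
 10143288 3851069)) (.aff 1000000 0 0)) (.sx 150000 (.sx 75000 (.aff 8000000 16067477 3049639) (.aff 7250000
 10144127 3850751)) (.aff 1000000 0 0))) (.sx 150000 (.sx 75000 (.aff 8000000 16069469 3049261) (.aff
 7250000 10145385 3850273)) (.aff 1000000 0 0)))) (.sx 150000 (.sx 75000 (.aff 8000000 16076095 3048004)
 (.aff 7200000 10068371 3817897)) (.aff 1000000 0 0))))) (.sy 298437 (.sy 297656 (.sx 150000 (.sx 75000
 (.aff 8000000 16091964 3044999) (.aff 7200000 10078310 3814132)) (.aff 1000000 0 0)) (.sx 150000 (.sx 75000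
 (.aff 8000000 16113089 3041006) (.aff 7175000 10050849 3793772)) (.aff 1000000 0 0))) (.sy 299218 (.sy
 298827 (.sx 150000 (.sx 75000 (.aff 8000000 16128908 3038024) (.aff 7150000 10019984 3774707)) (.aff
 1000000 0 0)) (.sx 150000 (.sx 75000 (.aff 8000000 16139450 3036040) (.aff 7150000 10026534 3772241)) (.aff
 1000000 0 0))) (.sx 150000 (.sx 75000 (.aff 8000000 16155270 3033066) (.aff 7119000 9985772 3749551)) (.aff
 1000000 0 0))))))), .pol, .pol, .sx 150000 .pol (.sx 225000 .pol .pol), .pol⟩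

def hL190_60_1_5 : pcchk ⟨(nat_lit 3), (nat_lit 1000), Int.ofNat (nat_lit 400), 0, ⟨0, 1⟩, ⟨Int.ofNat
 (nat_lit 60), 200⟩⟩ ⟨950000, 1000000, 987340, 974761, 1000082, 111803, 279510, 55902, 223606, 0⟩ false
 (nat_lit 250) (Int.ofNat (nat_lit 985)) (nat_lit 300) (Int.ofNat (nat_lit 830)) qL190_60_1_5 = true := by
 decide +kernel

def qL190_60_1_6 : PCt := .one ⟨2008000, 251, 803200, -72288, 38352, 0, 0, 300000, 300000, 350000⟩ ⟨0, .pol,
 .pol, .pol, .pol, .sx 150000 (.sx 75000 (.aff 8000000 16825906 2912177) (.sx 112500 (.aff 8000000 11897713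
 4118439) (.aff 8200000 10945685 4736113))) (.sx 225000 (.sx 187500 (.sy 325000 (.aff 1000000 0 0) (.sy
 337500 (.aff 1500000 700529 356874) (.aff 8400000 10867834 5038723))) (.aff 1000000 0 0)) (.aff 1000000 0
 0)), .pol, .pol, .pol, .pol⟩

def hL190_60_1_6 : pcchk ⟨(nat_lit 3), (nat_lit 1000), Int.ofNat (nat_lit 400), 0, ⟨0, 1⟩, ⟨Int.ofNat
 (nat_lit 60), 200⟩⟩ ⟨950000, 1000000, 987340, 974761, 1000082, 111803, 279510, 55902, 223606, 0⟩ false
 (nat_lit 300) (Int.ofNat (nat_lit 830)) (nat_lit 350) (Int.ofNat (nat_lit 650)) qL190_60_1_6 = true := by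
 decide +kernel

def qL190_60_1_7 : PCt := .one ⟨2008000, 251, 803200, -62650, 34979, 0, 0, 300000, 350000, 400000⟩ ⟨0, .pol,
 .pol, .pol, .pol, .sy 375000 (.sx 150000 (.aff 12000000 17100195 7075943) (.sx 225000 (.sx 187500 (.sy
 362500 (.aff 8000000 10465631 4681992) (.aff 8200000 10643308 4870667)) (.aff 1000000 0 0)) (.aff 1000000 0
 0))) (.sx 150000 (.aff 8000000 11250926 4355198) (.sx 225000 (.sx 187500 (.sx 168750 (.aff 8000000 10607475
 4619384) (.aff 8099000 10479314 4809075)) (.aff 9000000 11223558 5702292)) (.aff 1000000 0 0))), .pol,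
 .pol, .pol, .pol⟩

def hL190_60_1_7 : pcchk ⟨(nat_lit 3), (nat_lit 1000), Int.ofNat (nat_lit 400), 0, ⟨0, 1⟩, ⟨Int.ofNat
 (nat_lit 60), 200⟩⟩ ⟨950000, 1000000, 987340, 974761, 1000082, 111803, 279510, 55902, 223606, 0⟩ false
 (nat_lit 350) (Int.ofNat (nat_lit 650)) (nat_lit 400) (Int.ofNat (nat_lit 494)) qL190_60_1_7 = true := by
 decide +kernel

def qL190_60_1_8 : PCt := .one ⟨2008000, 251, 803200, -56626, 32569, 0, 0, 300000, 400000, 450000⟩ ⟨0, .pol,
 .pol, .pol, .pol, .sx 150000 (.aff 8000000 11782756 4158620) (.sx 225000 (.sy 425000 (.sy 412500 (.sx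
 187500 (.aff 12000000 17067405 7089538) (.aff 8400000 10629997 5151460)) (.sx 187500 (.aff 12000000
 17327991 6982922) (.sx 206250 (.aff 12000000 15854963 7631680) (.aff 8400000 10426349 5252079)))) (.aff
 9700000 12131571 6239094)) (.sy 425000 (.aff 1500000 626784 398862) (.sx 262500 (.aff 9100000 11066707
 5928593) (.aff 1000000 0 0)))), .pol, .pol, .pol, .pol⟩

def hL190_60_1_8 : pcchk ⟨(nat_lit 3), (nat_lit 1000), Int.ofNat (nat_lit 400), 0, ⟨0, 1⟩, ⟨Int.ofNat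
 (nat_lit 60), 200⟩⟩ ⟨950000, 1000000, 987340, 974761, 1000082, 111803, 279510, 55902, 223606, 0⟩ false
 (nat_lit 400) (Int.ofNat (nat_lit 494)) (nat_lit 450) (Int.ofNat (nat_lit 353)) qL190_60_1_8 = true := by
 decide +kernel

def qL190_60_1_9 : PCt := .one ⟨2008000, 251, 803200, -47389, 28413, 0, 0, 300000, 450000, 500000⟩ ⟨0, .pol,
 .pol, .pol, .pol, .sx 150000 (.aff 8000000 12456592 3933661) (.sy 475000 (.sx 225000 (.aff 12000000
 16472199 7345711) (.sy 462500 (.sx 262500 (.aff 8650000 10673510 5482967) (.aff 1000000 0 0)) (.sx 262500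
 (.sx 243750 (.aff 12000000 15556350 7778175) (.aff 8700000 10576764 5605685)) (.aff 2000000 1290995
 774597)))) (.sy 487500 (.sx 225000 (.aff 12000000 17622902 6866066) (.sx 262500 (.aff 11800000 14623270
 7976329) (.aff 9100000 10776700 6088135))) (.sx 225000 (.aff 12000000 17850304 6778597) (.sx 262500 (.aff
 12000000 15655752 7728789) (.aff 9100000 10915759 6010577))))), .pol, .pol, .pol, .pol⟩

def hL190_60_1_9 : pcchk ⟨(nat_lit 3), (nat_lit 1000), Int.ofNat (nat_lit 400), 0, ⟨0, 1⟩, ⟨Int.ofNat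
 (nat_lit 60), 200⟩⟩ ⟨950000, 1000000, 987340, 974761, 1000082, 111803, 279510, 55902, 223606, 0⟩ false
 (nat_lit 450) (Int.ofNat (nat_lit 353)) (nat_lit 500) (Int.ofNat (nat_lit 235)) qL190_60_1_9 = true := by
 decide +kernel

def qL190_60_1_10 : PCt := .one ⟨2008000, 251, 803200, -39357, 24397, 0, 0, 300000, 500000, 550000⟩ ⟨0,
 .pol, .pol, .pol, .pol, .sx 150000 (.aff 8000000 15121729 3240371) (.sx 225000 (.aff 12000000 18406521
 6573758) (.sx 262500 (.aff 12000000 16143587 7495237) (.aff 10000000 11905881 6803361))), .pol, .pol, .pol,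
 .pol⟩

def hL190_60_1_10 : pcchk ⟨(nat_lit 3), (nat_lit 1000), Int.ofNat (nat_lit 400), 0, ⟨0, 1⟩, ⟨Int.ofNat
 (nat_lit 60), 200⟩⟩ ⟨950000, 1000000, 987340, 974761, 1000082, 111803, 279510, 55902, 223606, 0⟩ false
 (nat_lit 500) (Int.ofNat (nat_lit 235)) (nat_lit 550) (Int.ofNat (nat_lit 137)) qL190_60_1_10 = true := by
 decide +kernel

def qL190_60_1_11 : PCt := .one ⟨2008000, 251, 803200, -12103020, 6659411, 0, 0, 300000, 550000, 600000⟩ ⟨0,
 .pol, .pol, .pol, .pol, .sx 150000 (.aff 35000000 94141738 12279357) (.inf 1278889 781929), .pol, .pol, .sy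
 575000 (.inf 1549194 645497) (.inf 1583246 631614), .pol⟩

def hL190_60_1_11 : pcchk ⟨(nat_lit 3), (nat_lit 1000), Int.ofNat (nat_lit 400), 0, ⟨0, 1⟩, ⟨Int.ofNat
 (nat_lit 60), 200⟩⟩ ⟨950000, 1000000, 987340, 974761, 1000082, 111803, 279510, 55902, 223606, 0⟩ false
 (nat_lit 550) (Int.ofNat (nat_lit 137)) (nat_lit 600) (Int.negSucc (nat_lit 29999)) qL190_60_1_11 = true :=
 by decide +kernel

def qL190_60_1_12 : PCt := .one ⟨2008000, 251, 803200, 0, -602400, 0, 0, 300000, 600000, 650000⟩ ⟨0, .pol,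
 .pol, .pol, .pol, .inf 1632994 612373, .pol, .pol, .inf 1632994 612373, .pol⟩

def hL190_60_1_12 : pcchk ⟨(nat_lit 3), (nat_lit 1000), Int.ofNat (nat_lit 400), 0, ⟨0, 1⟩, ⟨Int.ofNat
 (nat_lit 60), 200⟩⟩ ⟨950000, 1000000, 987340, 974761, 1000082, 111803, 279510, 55902, 223606, 0⟩ false
 (nat_lit 600) (Int.negSucc (nat_lit 29999)) (nat_lit 650) (Int.negSucc (nat_lit 29999)) qL190_60_1_12 =
 true := by decide +kernel

def qL190_60_1_13 : PCt := .one ⟨2008000, 251, 803200, 0, -602400, 0, 0, 300000, 650000, 700000⟩ ⟨0, .pol,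
 .pol, .pol, .pol, .inf 1697057 589256, .pol, .pol, .inf 1697057 589256, .pol⟩

def hL190_60_1_13 : pcchk ⟨(nat_lit 3), (nat_lit 1000), Int.ofNat (nat_lit 400), 0, ⟨0, 1⟩, ⟨Int.ofNat
 (nat_lit 60), 200⟩⟩ ⟨950000, 1000000, 987340, 974761, 1000082, 111803, 279510, 55902, 223606, 0⟩ false
 (nat_lit 650) (Int.negSucc (nat_lit 29999)) (nat_lit 700) (Int.negSucc (nat_lit 29999)) qL190_60_1_13 =
 true := by decide +kernel

def qL190_60_1_14 : PCt := .one ⟨2008000, 251, 803200, 0, -602400, 0, 0, 300000, 700000, 750000⟩ ⟨0, .pol,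
 .pol, .pol, .pol, .inf 1758788 568574, .pol, .pol, .inf 1758788 568574, .pol⟩

def hL190_60_1_14 : pcchk ⟨(nat_lit 3), (nat_lit 1000), Int.ofNat (nat_lit 400), 0, ⟨0, 1⟩, ⟨Int.ofNat
 (nat_lit 60), 200⟩⟩ ⟨950000, 1000000, 987340, 974761, 1000082, 111803, 279510, 55902, 223606, 0⟩ false
 (nat_lit 700) (Int.negSucc (nat_lit 29999)) (nat_lit 750) (Int.negSucc (nat_lit 29999)) qL190_60_1_14 =
 true := by decide +kernel

def qL190_60_1_15 : PCt := .one ⟨2008000, 251, 803200, 0, -602400, 0, 0, 300000, 750000, 800000⟩ ⟨0, .pol,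
 .pol, .pol, .pol, .aff 35000000 54647355 21153815, .pol, .pol, .inf 2273031 439942, .pol⟩

def hL190_60_1_15 : pcchk ⟨(nat_lit 3), (nat_lit 1000), Int.ofNat (nat_lit 400), 0, ⟨0, 1⟩, ⟨Int.ofNat
 (nat_lit 60), 200⟩⟩ ⟨950000, 1000000, 987340, 974761, 1000082, 111803, 279510, 55902, 223606, 0⟩ false
 (nat_lit 750) (Int.negSucc (nat_lit 29999)) (nat_lit 800) (Int.negSucc (nat_lit 29999)) qL190_60_1_15 =
 true := by decide +kernel

def qL190_60_1_16 : PCt := .one ⟨2008000, 251, 803200, 0, -602400, 0, 0, 300000, 800000, 850000⟩ ⟨0, .pol,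
 .pol, .pol, .pol, .aff 35000000 65105044 17755921, .pol, .pol, .inf 2345208 426402, .pol⟩

def hL190_60_1_16 : pcchk ⟨(nat_lit 3), (nat_lit 1000), Int.ofNat (nat_lit 400), 0, ⟨0, 1⟩, ⟨Int.ofNat
 (nat_lit 60), 200⟩⟩ ⟨950000, 1000000, 987340, 974761, 1000082, 111803, 279510, 55902, 223606, 0⟩ false
 (nat_lit 800) (Int.negSucc (nat_lit 29999)) (nat_lit 850) (Int.negSucc (nat_lit 29999)) qL190_60_1_16 =
 true := by decide +kernel

def qL190_60_1_17 : PCt := .one ⟨2008000, 251, 803200, 0, -602400, 0, 0, 300000, 850000, 900000⟩ ⟨0, .pol,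
 .pol, .pol, .pol, .aff 35000000 67048905 17241147, .pol, .pol, .inf 2415230 414040, .pol⟩

def hL190_60_1_17 : pcchk ⟨(nat_lit 3), (nat_lit 1000), Int.ofNat (nat_lit 400), 0, ⟨0, 1⟩, ⟨Int.ofNat
 (nat_lit 60), 200⟩⟩ ⟨950000, 1000000, 987340, 974761, 1000082, 111803, 279510, 55902, 223606, 0⟩ false
 (nat_lit 850) (Int.negSucc (nat_lit 29999)) (nat_lit 900) (Int.negSucc (nat_lit 29999)) qL190_60_1_17 =
 true := by decide +kernel

def qL190_60_1_18 : PCt := .one ⟨2008000, 251, 803200, 0, -602400, 0, 0, 300000, 900000, 950000⟩ ⟨0, .pol,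
 .pol, .pol, .pol, .aff 35000000 68937976 16768697, .pol, .pol, .inf 2483278 402694, .pol⟩

def hL190_60_1_18 : pcchk ⟨(nat_lit 3), (nat_lit 1000), Int.ofNat (nat_lit 400), 0, ⟨0, 1⟩, ⟨Int.ofNat
 (nat_lit 60), 200⟩⟩ ⟨950000, 1000000, 987340, 974761, 1000082, 111803, 279510, 55902, 223606, 0⟩ false
 (nat_lit 900) (Int.negSucc (nat_lit 29999)) (nat_lit 950) (Int.negSucc (nat_lit 29999)) qL190_60_1_18 =
 true := by decide +kernel

def qL190_60_1_19 : PCt := .one ⟨2008000, 251, 803200, 0, -602400, 0, 0, 300000, 950000, 1000000⟩ ⟨0, .pol,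
 .pol, .pol, .pol, .aff 20000000 39551654 9127305, .pol, .pol, .inf 2549510 392233, .pol⟩

def hL190_60_1_19 : pcchk ⟨(nat_lit 3), (nat_lit 1000), Int.ofNat (nat_lit 400), 0, ⟨0, 1⟩, ⟨Int.ofNat
 (nat_lit 60), 200⟩⟩ ⟨950000, 1000000, 987340, 974761, 1000082, 111803, 279510, 55902, 223606, 0⟩ false
 (nat_lit 950) (Int.negSucc (nat_lit 29999)) (nat_lit 1000) (Int.negSucc (nat_lit 29999)) qL190_60_1_19 =
 true := by decide +kernel

def qL190_60_2_0 : PCt := .one ⟨2008000, 251, 2008000, 379913, 0, 0, 0, 300000, 0, 50000⟩ ⟨50000, .aff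
 3162278 316228, .pol, .pol, .pol, .pol, .aff 1000000 0 0, .pol, .pol, .pol⟩

def hL190_60_2_0 : pcchk ⟨(nat_lit 3), (nat_lit 1000), Int.ofNat (nat_lit 1000), 0, ⟨0, 1⟩, ⟨Int.ofNat
 (nat_lit 60), 200⟩⟩ ⟨950000, 1000000, 987340, 974761, 1000082, 111803, 279510, 55902, 223606, 0⟩ true 0 0
 (nat_lit 50) (Int.ofNat (nat_lit 946)) qL190_60_2_0 = true := by decide +kernel

def qL190_60_2_1 : PCt := .one ⟨2008000, 251, 2008000, -95180, 23754, 0, 0, 300000, 50000, 100000⟩ ⟨0, .pol,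
 .pol, .pol, .pol, .sx 150000 (.sx 75000 (.sx 37500 (.sx 18750 (.sy 75000 (.sx 9375 (.aff 4300000 18833358
 578230) (.aff 0 2309402 433013)) (.sy 87500 (.aff 4800000 19323400 747281) (.aff 5000000 17888544 894428)))
 (.aff 1000000 0 0)) .pol) .pol) .pol, .pol, .pol, .sx 150000 (.sx 75000 (.sx 37500 .pol .pol) .pol) .pol,
 .pol⟩

def hL190_60_2_1 : pcchk ⟨(nat_lit 3), (nat_lit 1000), Int.ofNat (nat_lit 1000), 0, ⟨0, 1⟩, ⟨Int.ofNat
 (nat_lit 60), 200⟩⟩ ⟨950000, 1000000, 987340, 974761, 1000082, 111803, 279510, 55902, 223606, 0⟩ false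
 (nat_lit 50) (Int.ofNat (nat_lit 946)) (nat_lit 100) (Int.ofNat (nat_lit 709)) qL190_60_2_1 = true := by
 decide +kernel

def qL190_60_2_2 : PCt := .one ⟨2008000, 251, 2008000, -506016, 64838, 0, 0, 300000, 100000, 150000⟩ ⟨0,
 .pol, .pol, .pol, .pol, .sx 150000 (.sx 75000 (.sy 125000 (.sx 37500 (.sx 18750 (.aff 11500000 27038317
 4077547) (.aff 1000000 0 0)) .pol) (.sy 137500 (.sy 131250 (.sx 37500 (.sx 18750 (.aff 12000000 28754710
 4208007) (.aff 12000000 25718995 4704694)) (.aff 1000000 0 0)) (.sy 134375 (.sx 37500 (.sx 18750 (.aff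
 12000000 29275986 4133081) (.aff 12000000 26185238 4620925)) (.aff 1000000 0 0)) (.sx 37500 (.sx 18750
 (.aff 12000000 34200390 3537972) (.aff 12000000 26491509 4567502)) (.aff 1000000 0 0)))) (.sx 37500 (.sx
 18750 (.aff 12000000 35169432 3440488) (.aff 12100000 25094621 4909818)) (.aff 1000000 0 0)))) .pol) .pol,
 .pol, .pol, .sx 150000 (.sx 75000 (.sx 37500 (.sx 18750 (.sx 9375 (.sy 125000 .pol (.inf 5416026 184638))
 .pol) .pol) .pol) .pol) .pol, .pol⟩

def hL190_60_2_2 : pcchk ⟨(nat_lit 3), (nat_lit 1000), Int.ofNat (nat_lit 1000), 0, ⟨0, 1⟩, ⟨Int.ofNat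
 (nat_lit 60), 200⟩⟩ ⟨950000, 1000000, 987340, 974761, 1000082, 111803, 279510, 55902, 223606, 0⟩ false
 (nat_lit 100) (Int.ofNat (nat_lit 709)) (nat_lit 150) (Int.negSucc (nat_lit 550)) qL190_60_2_2 = true := by
 decide +kernel

def qL190_60_2_3 : PCt := .one ⟨2008000, 251, 2008000, -665050, 88693, 0, 0, 300000, 150000, 200000⟩ ⟨0,
 .pol, .pol, .pol, .pol, .sx 150000 (.sx 75000 (.sx 37500 (.sy 175000 (.aff 13400000 26969486 5701259) (.aff
 20000000 42485292 8497059)) (.sy 175000 (.sy 162500 (.aff 1000000 0 0) (.sx 56250 (.sx 46875 (.aff 13900000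
 26547981 6268274) (.aff 1000000 0 0)) (.aff 1000000 0 0))) (.sx 56250 (.sx 46875 (.sy 187500 (.sx 42187
 (.aff 18800000 36895185 8587571) (.aff 14100000 26783707 6407254)) (.aff 20000000 40717637 8865937)) (.sy
 187500 (.sy 181250 (.aff 1000000 0 0) (.aff 14100000 25354616 6768393)) (.sy 193750 (.aff 14300000 26174373
 6758138) (.aff 18100000 31991171 9140335)))) (.aff 1000000 0 0)))) (.aff 1000000 0 0)) .pol, .pol, .pol,
 .sx 150000 (.sx 75000 (.sx 37500 (.sx 18750 (.inf 4320494 231456) (.sy 175000 .pol (.inf 2581989 387299)))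
 .pol) .pol) .pol, .pol⟩

def hL190_60_2_3 : pcchk ⟨(nat_lit 3), (nat_lit 1000), Int.ofNat (nat_lit 1000), 0, ⟨0, 1⟩, ⟨Int.ofNat
 (nat_lit 60), 200⟩⟩ ⟨950000, 1000000, 987340, 974761, 1000082, 111803, 279510, 55902, 223606, 0⟩ false
 (nat_lit 150) (Int.negSucc (nat_lit 550)) (nat_lit 200) (Int.negSucc (nat_lit 2206)) qL190_60_2_3 = true :=
 by decide +kernel

def qL190_60_2_4 : PCt := .one ⟨2008000, 251, 2008000, -791956, 114074, 0, 0, 300000, 200000, 250000⟩ ⟨0,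
 .pol, .pol, .pol, .pol, .sx 150000 (.sx 75000 (.sx 37500 (.aff 20000000 53740116 6717515) (.sx 56250 (.aff
 18900000 35800000 8950000) (.sy 225000 (.sx 65625 (.sy 212500 (.aff 18601000 31993152 9683173) (.aff
 19100000 33045928 9913779)) (.sy 212500 (.aff 1000000 0 0) (.sx 70312 (.aff 18800000 31396361 10091616)
 (.aff 1000000 0 0)))) (.aff 18800000 31675333 10002737)))) (.sx 112500 (.sx 93750 (.sy 225000 (.aff 1000000
 0 0) (.sy 237500 (.aff 18676000 30873590 10120008) (.aff 19900000 32123823 11119785))) (.aff 1000000 0 0))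
 (.aff 1000000 0 0))) .pol, .pol, .pol, .sx 150000 (.sx 75000 (.sx 37500 (.inf 3464102 288676) (.sx 56250
 (.sy 225000 (.sx 46875 (.inf 2244335 445567) .pol) (.inf 2250926 444262)) .pol)) .pol) .pol, .pol⟩

def hL190_60_2_4 : pcchk ⟨(nat_lit 3), (nat_lit 1000), Int.ofNat (nat_lit 1000), 0, ⟨0, 1⟩, ⟨Int.ofNat
 (nat_lit 60), 200⟩⟩ ⟨950000, 1000000, 987340, 974761, 1000082, 111803, 279510, 55902, 223606, 0⟩ false
 (nat_lit 200) (Int.negSucc (nat_lit 2206)) (nat_lit 250) (Int.negSucc (nat_lit 4178)) qL190_60_2_4 = true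
 := by decide +kernel

def qL190_60_2_5 : PCt := .one ⟨2008000, 251, 2008000, -881914, 136564, 0, 0, 300000, 250000, 300000⟩ ⟨0,
 .pol, .pol, .pol, .pol, .sx 150000 (.sx 75000 (.aff 20000000 36382231 9922427) (.sx 112500 (.sx 93750 (.sy
 275000 (.aff 20000000 31793082 11354672) (.aff 20000000 33272612 10849765)) (.sy 275000 (.sx 103125 (.aff
 20300000 31898804 11677241) (.aff 1500000 780190 320435)) (.sx 103125 (.aff 20300000 32225099 11559003)
 (.sy 287500 (.aff 20200000 31353469 11757551) (.aff 20300000 31516769 11818788))))) (.sy 275000 (.aff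
 1000000 0 0) (.sx 131250 (.aff 21238000 32501488 12601782) (.aff 1000000 0 0))))) (.aff 1000000 0 0), .pol,
 .pol, .sx 150000 (.sx 75000 (.inf 2166411 461593) (.sx 112500 (.sx 93750 (.sy 275000 .pol (.inf 1845917
 541737)) .pol) .pol)) .pol, .pol⟩

def hL190_60_2_5 : pcchk ⟨(nat_lit 3), (nat_lit 1000), Int.ofNat (nat_lit 1000), 0, ⟨0, 1⟩, ⟨Int.ofNat
 (nat_lit 60), 200⟩⟩ ⟨950000, 1000000, 987340, 974761, 1000082, 111803, 279510, 55902, 223606, 0⟩ false
 (nat_lit 250) (Int.negSucc (nat_lit 4178)) (nat_lit 300) (Int.negSucc (nat_lit 6374)) qL190_60_2_5 = true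
 := by decide +kernel

def qL190_60_2_6 : PCt := .one ⟨2008000, 251, 2008000, -949784, 156925, 0, 0, 300000, 300000, 350000⟩ ⟨0,
 .pol, .pol, .pol, .pol, .sx 150000 (.sx 75000 (.aff 20000000 45670317 7904478) (.sx 112500 (.aff 35000000
 60358525 19152225) (.sx 131250 (.sy 325000 (.sx 121875 (.aff 21813000 33148333 13067957) (.sy 312500 (.aff
 21400000 32031306 12992290) (.sx 126562 (.aff 35000000 54464168 21224964) (.aff 21800000 32857550
 13167142)))) (.aff 35000000 56579421 20431457)) (.sy 325000 (.sx 140625 (.sy 312500 (.aff 1000000 0 0)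
 (.aff 22100000 32592261 13659992)) (.aff 1000000 0 0)) (.sx 140625 (.sy 337500 (.sx 135937 (.aff 35000000
 53538254 21592038) (.sy 331250 (.aff 22000000 32486729 13574774) (.aff 35000000 52870640 21864688))) (.aff
 35000000 54066796 21380960)) (.sy 337500 (.sx 145312 (.aff 22300000 32555503 13935893) (.aff 21300000
 30526632 13499361)) (.sx 145312 (.aff 35000000 52720570 21926926) (.sy 343750 (.aff 22200000 32328014
 13902494) (.aff 35000000 52112256 22182882))))))))) (.sx 225000 (.sx 187500 (.sx 168750 (.sy 325000 (.aff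
 1000000 0 0) (.sx 159375 (.sy 337500 (.aff 1000000 0 0) (.aff 22400000 32145694 14246388)) (.aff 1000000 0
 0))) (.aff 1000000 0 0)) (.aff 1000000 0 0)) (.aff 1000000 0 0)), .pol, .pol, .sx 150000 (.sx 75000 (.inf
 2943921 339684) (.sx 112500 (.inf 1861899 537087) (.sx 131250 (.sy 325000 .pol (.inf 1664101 600926))
 .pol))) .pol, .pol⟩

def hL190_60_2_6 : pcchk ⟨(nat_lit 3), (nat_lit 1000), Int.ofNat (nat_lit 1000), 0, ⟨0, 1⟩, ⟨Int.ofNat
 (nat_lit 60), 200⟩⟩ ⟨950000, 1000000, 987340, 974761, 1000082, 111803, 279510, 55902, 223606, 0⟩ false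
 (nat_lit 300) (Int.negSucc (nat_lit 6374)) (nat_lit 350) (Int.negSucc (nat_lit 8739)) qL190_60_2_6 = true
 := by decide +kernel

def qL190_60_2_7 : PCt := .one ⟨2008000, 251, 2008000, -1011631, 178571, 0, 0, 300000, 350000, 400000⟩ ⟨0,
 .pol, .pol, .pol, .pol, .sx 150000 (.aff 35000000 53758721 21503488) (.sx 225000 (.sx 187500 (.sx 168750
 (.sy 375000 (.sx 159375 (.sy 362500 (.sx 154687 (.aff 35000000 51992942 22233788) (.sy 356250 (.sx 157031
 (.aff 35000000 51177281 22588149) (.aff 22300000 31881762 14230393)) (.aff 35000000 51435167 22474896)))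
 (.aff 35000000 52494926 22021176)) (.sx 164062 (.sy 362500 (.sx 161718 (.sy 356250 (.aff 20700000 29270069
 13258937) (.aff 35000000 50868910 22725080)) (.sy 356250 (.aff 1500000 736186 339589) (.sy 359375 (.aff
 21100000 29844150 13537327) (.aff 35000000 50611326 22840738)))) (.aff 35000000 51341090 22516079)) (.sy
 362500 (.aff 22200000 31128887 14438037) (.sy 368750 (.sx 166406 (.aff 35000000 50576312 22856550) (.sy
 365625 (.aff 22000000 31006978 14222605) (.aff 35000000 50328544 22969073))) (.aff 35000000 50826818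
 22743899))))) (.aff 35000000 53015721 21804853)) (.sx 178125 (.sy 375000 (.sx 173437 (.sx 171093 (.sx
 169921 (.sy 362500 (.aff 1000000 0 0) (.sy 368750 (.aff 22400000 31472660 14551043) (.aff 35000000 50385249
 22943223))) (.sx 170507 (.sx 170214 (.sy 362500 (.aff 1000000 0 0) (.sy 368750 (.aff 20400000 28451329
 13228205) (.aff 35000000 50276698 22992759))) (.sy 362500 (.aff 1000000 0 0) (.sy 368750 (.aff 20000000
 27834735 12969407) (.aff 35000000 50233445 23012557)))) (.sy 362500 (.aff 1000000 0 0) (.sy 368750 (.aff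
 20000000 27798900 12986126) (.aff 35000000 50168773 23042222))))) (.sy 362500 (.aff 1000000 0 0) (.sx
 172265 (.sy 368750 (.aff 8000000 10215448 4796657) (.aff 34900000 49808065 23072770)) (.sy 368750 (.aff
 1500000 727197 343786) (.sy 371875 (.aff 20900000 29152092 13584274) (.aff 35000000 49974900 23131613))))))
 (.sy 362500 (.aff 1000000 0 0) (.sx 175781 (.sx 174609 (.sx 174023 (.sx 173730 (.sy 368750 (.aff 1000000 0
 0) (.sy 371875 (.aff 12000000 16066551 7531175) (.aff 35000000 49869345 23180574))) (.sx 173876 (.sx 173803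
 (.sy 368750 (.aff 1000000 0 0) (.sy 371875 (.aff 2000000 1459827 685013) (.aff 35000000 49843078
 23192790))) (.sx 173839 (.sx 173821 (.sx 173812 (.sx 173807 (.sy 368750 (.aff 1000000 0 0) (.sy 371875
 (.aff 2000000 1459665 685089) (.aff 35000000 49837558 23195359))) (.sx 173809 (.sy 368750 (.aff 1000000 0
 0) (.sy 371875 (.aff 2000000 1459652 685095) (.aff 35000000 49837128 23195559))) (.sy 368750 (.aff 1000000
 0 0) (.sy 371875 (.aff 2000000 1459642 685100) (.aff 35000000 49836769 23195726))))) (.sx 173816 (.sx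
 173814 (.sx 173813 (.sy 368750 (.aff 1000000 0 0) (.sy 371875 (.aff 2000000 1459634 685104) (.aff 35000000
 49836482 23195859))) (.sy 368750 (.aff 1000000 0 0) (.sy 371875 (.aff 2000000 1459629 685106) (.aff
 35000000 49836339 23195926)))) (.sy 368750 (.aff 1000000 0 0) (.sy 371875 (.aff 2000000 1459623 685109)
 (.aff 35000000 49836124 23196026)))) (.sy 368750 (.aff 1000000 0 0) (.sy 371875 (.aff 2000000 1459608
 685116) (.aff 35000000 49835622 23196260))))) (.sy 368750 (.aff 1000000 0 0) (.sy 371875 (.aff 2000000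
 1459560 685138) (.aff 35000000 49833974 23197027)))) (.sy 368750 (.aff 1000000 0 0) (.sy 371875 (.aff
 2000000 1459445 685192) (.aff 35000000 49830032 23198862))))) (.sy 368750 (.aff 1000000 0 0) (.sy 371875
 (.aff 2000000 1459059 685374) (.aff 35000000 49816853 23204999))))) (.sy 368750 (.aff 1000000 0 0) (.aff
 22300000 31123759 14576967))) (.aff 21800000 30201740 14325003)) (.aff 20000000 27427780 13161839)))) (.sy
 387500 (.sx 173437 (.aff 35000000 50753628 22776697) (.sy 381250 (.sx 175781 (.aff 35000000 50033779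
 23104392) (.sy 378125 (.sx 176953 (.aff 35000000 49680824 23268536) (.aff 21600000 30026004 14133083))
 (.aff 35000000 49803872 23211047))) (.aff 35000000 50277135 22992560))) (.aff 35000000 51229215 22565250)))
 (.sy 375000 (.aff 1500000 704079 355074) (.sy 387500 (.sx 182812 (.sx 180468 (.sy 381250 (.sx 179296 (.sy
 378125 (.aff 20000000 27580181 13089110) (.aff 35000000 49558373 23326029)) (.aff 22000000 30471731
 14472431)) (.aff 35000000 49781798 23221339)) (.sx 181640 (.sy 381250 (.aff 20000000 27457895 13147403)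
 (.aff 35000000 49539592 23334872)) (.sy 381250 (.aff 1500000 720249 347103) (.sy 384375 (.aff 22000000
 30461874 14477114) (.aff 35000000 49480290 23362839))))) (.sy 381250 (.aff 1500000 714528 349882) (.sx
 185156 (.sx 183984 (.sy 384375 (.aff 20000000 27450444 13150972) (.aff 35000000 49321936 23437848)) (.aff
 22200000 30618074 14678912)) (.aff 20000000 27289282 13228637)))) (.aff 32600000 45792751 21806072)))))
 (.sy 375000 (.aff 1000000 0 0) (.sx 206250 (.sy 387500 (.aff 1500000 695793 359303) (.sy 393750 (.sy 390625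
 (.aff 20800000 28171652 13916117) (.sx 196875 (.sx 192187 (.sx 189843 (.aff 35000000 49019925 23582248)
 (.aff 20000000 27224928 13259907)) (.aff 1500000 709942 352142)) (.aff 1000000 0 0))) (.sx 196875 (.sx
 192187 (.aff 35000000 49159553 23515267) (.sx 194531 (.sy 396875 (.aff 20000000 27167000 13288181) (.aff
 35000000 48806406 23685416)) (.aff 20000000 27057131 13342139))) (.aff 1500000 701604 356327)))) (.aff
 1000000 0 0)))) (.aff 1000000 0 0)), .pol, .pol, .sx 150000 (.sx 75000 (.inf 3162278 316228) (.inf 1460594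
 684653)) .pol, .pol⟩

def hL190_60_2_7 : pcchk ⟨(nat_lit 3), (nat_lit 1000), Int.ofNat (nat_lit 1000), 0, ⟨0, 1⟩, ⟨Int.ofNat
 (nat_lit 60), 200⟩⟩ ⟨950000, 1000000, 987340, 974761, 1000082, 111803, 279510, 55902, 223606, 0⟩ false
 (nat_lit 350) (Int.negSucc (nat_lit 8739)) (nat_lit 400) (Int.negSucc (nat_lit 11258)) qL190_60_2_7 = true
 := by decide +kernel

def qL190_60_2_8 : PCt := .one ⟨2008000, 251, 2008000, -1064642, 199775, 0, 0, 300000, 400000, 450000⟩ ⟨0,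
 .pol, .pol, .pol, .pol, .sx 150000 (.aff 35000000 66084122 17492856) (.sx 225000 (.sx 187500 (.aff 35000000
 52518335 22011361) (.sx 206250 (.sy 425000 (.sx 196875 (.aff 35000000 49214787 23488876) (.sy 412500 (.sx
 201562 (.sy 406250 (.sy 403125 (.aff 21100000 28621262 14115730) (.sx 199218 (.aff 35000000 48602122
 23784970) (.aff 22100000 30028958 14826023))) (.aff 35000000 48738790 23718275)) (.sy 406250 (.aff 2000000
 1406064 711206) (.sx 203906 (.sy 409375 (.sy 407812 (.aff 20000000 26921798 13409209) (.aff 35000000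
 48268228 23949502)) (.aff 35000000 48406481 23881100)) (.sy 409375 (.aff 2000000 1410168 709136) (.sx
 205078 (.aff 35000000 48197959 23984419) (.aff 21100000 28432457 14209465)))))) (.aff 35000000 49006249
 23588829))) (.aff 35000000 50684208 22807894)) (.sy 425000 (.sy 412500 (.aff 2000000 1372610 728540) (.sy
 418750 (.sx 215625 (.sy 415625 (.sy 414062 (.aff 22100000 29699869 14990302) (.sy 414843 (.sx 210937 (.sx
 208593 (.aff 35000000 48060625 24052954) (.aff 2000000 1405630 711425)) (.aff 1000000 0 0)) (.sx 210937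
 (.sx 208593 (.aff 35000000 48105916 24030309) (.aff 12000000 15476496 7818308)) (.aff 1500000 697655
 358344)))) (.sy 417187 (.sy 416406 (.sy 416015 (.sx 210937 (.sx 208593 (.aff 35000000 48139849 24013370)
 (.aff 20000000 26750985 13494831)) (.aff 1500000 698147 358091)) (.sx 210937 (.aff 33100000 45090512
 22852036) (.aff 1500000 698475 357923))) (.sx 210937 (.aff 34500000 47090192 23831927) (.aff 2000000
 1397932 715343))) (.sx 210937 (.aff 35000000 48128277 24019144) (.aff 20000000 26598020 13572439)))) (.aff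
 1000000 0 0)) (.sx 215625 (.sx 210937 (.aff 35000000 48352667 23907679) (.sx 213281 (.sy 421875 (.aff
 32600000 44360574 22510079) (.aff 35000000 48039008 24063778)) (.sy 421875 (.aff 20200000 26916309
 13695786) (.aff 33300000 45263448 23049283)))) (.sx 220312 (.aff 22400000 29852403 15340809) (.aff 1000000
 0 0))))) (.sx 215625 (.aff 35000000 48695812 23739208) (.sy 437500 (.sx 220312 (.sy 431250 (.sx 217968
 (.aff 34300000 46669502 23760485) (.sy 428125 (.sy 426562 (.aff 2000000 1393903 717411) (.sy 427343 (.aff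
 20000000 26520552 13612085) (.aff 33000000 44587980 22965831))) (.aff 35000000 47609591 24280822))) (.aff
 35000000 47997041 24084819)) (.sy 431250 (.sy 428125 (.aff 2000000 1384122 722480) (.sy 429687 (.aff
 20000000 26370446 13689568) (.sx 222656 (.sx 221484 (.aff 35000000 47462840 24355897) (.aff 20000000
 26453269 13646707)) (.aff 2000000 1386799 721086)))) (.sx 222656 (.aff 35000000 47614601 24278268) (.sy
 434375 (.sy 432812 (.aff 20000000 26396957 13675819) (.aff 33000000 44422204 23051536)) (.aff 35000000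
 47449739 24362621))))) (.aff 35000000 48253468 23956828)))))) (.sx 262500 (.sx 243750 (.sy 425000 (.aff
 1000000 0 0) (.sx 234375 (.sy 437500 (.sy 431250 (.aff 1000000 0 0) (.sy 434375 (.aff 2000000 1372718
 728482) (.sx 229687 (.sy 435937 (.aff 20900000 27603007 14346626) (.sx 227343 (.aff 34300000 46153457
 24026153) (.aff 2000000 1382431 723364))) (.aff 1500000 685345 364780)))) (.sx 229687 (.sy 443750 (.sx
 227343 (.aff 35000000 47456374 24359215) (.sy 440625 (.sy 439062 (.aff 22200000 29397635 15288305) (.aff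
 35000000 47170519 24506833)) (.aff 35000000 47296042 24441792))) (.aff 35000000 47668412 24250861)) (.sy
 443750 (.sy 440625 (.aff 3000000 2751188 1453918) (.sx 232031 (.aff 32800000 43899275 23035461) (.aff
 20000000 26163134 13798042))) (.aff 33800000 45290930 23753984)))) (.sy 437500 (.aff 1000000 0 0) (.sy
 443750 (.aff 1500000 678811 368292) (.sy 446875 (.aff 20000000 26059719 13852798) (.sx 239062 (.sx 236718
 (.aff 35000000 46912822 24641451) (.aff 20300000 26531130 14039734)) (.aff 2000000 1362941 733708)))))))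
 (.aff 1000000 0 0)) (.aff 1000000 0 0))), .pol, .pol, .sx 150000 (.inf 1904381 525106) (.sx 225000 (.sx
 187500 (.inf 1586985 630126) .pol) .pol), .pol⟩

def hL190_60_2_8 : pcchk ⟨(nat_lit 3), (nat_lit 1000), Int.ofNat (nat_lit 1000), 0, ⟨0, 1⟩, ⟨Int.ofNat
 (nat_lit 60), 200⟩⟩ ⟨950000, 1000000, 987340, 974761, 1000082, 111803, 279510, 55902, 223606, 0⟩ false
 (nat_lit 400) (Int.negSucc (nat_lit 11258)) (nat_lit 450) (Int.negSucc (nat_lit 13909)) qL190_60_2_8 = true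
 := by decide +kernel

def qL190_60_2_9 : PCt := .one ⟨2008000, 251, 2008000, -1107613, 219112, 0, 0, 300000, 450000, 500000⟩ ⟨0,
 .pol, .pol, .pol, .pol, .sx 150000 (.aff 20000000 33810748 10677079) (.sx 225000 (.aff 35000000 49400855
 23400405) (.sx 262500 (.sx 243750 (.sy 475000 (.sx 234375 (.aff 35000000 48246533 23960271) (.sy 462500
 (.sx 239062 (.aff 35000000 47086026 24550809) (.sy 456250 (.sx 241406 (.sy 453125 (.sy 451562 (.aff 2000000
 1369827 730020) (.aff 34000000 45172496 24107590)) (.aff 35000000 46775474 24713807)) (.sy 453125 (.aff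
 2000000 1364374 732937) (.sx 242578 (.aff 34200000 45453663 24249751) (.aff 20000000 25981276 13894622))))
 (.aff 35000000 46901698 24647296))) (.aff 35000000 47609523 24280857))) (.aff 35000000 49035498 23574759))
 (.sy 475000 (.sx 253125 (.sy 462500 (.sy 456250 (.aff 2000000 1350519 740457) (.sx 248437 (.sx 246093 (.sy
 459375 (.sx 244921 (.aff 34700000 46074509 24648988) (.aff 22100000 28830598 15442275)) (.aff 35000000
 46643001 24783998)) (.sy 459375 (.aff 2000000 1360701 734916) (.aff 32700000 43178957 23272679))) (.aff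
 8000000 9474023 5172038))) (.sx 248437 (.aff 35000000 46924482 24635328) (.sy 468750 (.sx 250781 (.aff
 32900000 43467185 23410994) (.sy 465625 (.aff 20000000 25785887 13999907) (.aff 33500000 44153126
 23922429))) (.aff 35000000 46638556 24786360)))) (.sy 462500 (.aff 1000000 0 0) (.sx 257812 (.sy 468750
 (.sy 465625 (.aff 2000000 1347782 741960) (.sy 467187 (.aff 2000000 1351181 740094) (.sx 255468 (.sx 254296
 (.aff 34000000 44766433 24326263) (.aff 2000000 1354999 738008)) (.aff 2000000 1350350 740549)))) (.sx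
 255468 (.aff 34200000 45121478 24428278) (.sy 471875 (.sy 470312 (.aff 3000000 2705204 1478632) (.sx 256640
 (.aff 35000000 46117600 25066353) (.aff 8000000 9473145 5172517))) (.aff 35000000 46179378 25032819))))
 (.sy 468750 (.aff 1000000 0 0) (.sy 471875 (.aff 2000000 1344549 743744) (.sy 473437 (.aff 20000000
 25609982 14096067) (.sx 260156 (.aff 33000000 43203836 23701600) (.aff 2000000 1347089 742342)))))))) (.sx
 253125 (.aff 35000000 47627486 24271699) (.sy 487500 (.sx 257812 (.aff 35000000 46665467 24772066) (.sy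
 481250 (.sx 260156 (.aff 35000000 46196937 25023305) (.sy 478125 (.sx 261328 (.aff 33300000 43618376
 23918589) (.sy 476562 (.aff 2000000 1347797 741952) (.aff 33800000 44230791 24323328))) (.aff 35000000
 46064372 25095317))) (.aff 35000000 46393043 24917530))) (.aff 35000000 47052260 24568427))))) (.sx 281250
 (.sy 475000 (.aff 1500000 652141 383353) (.sx 271875 (.sy 487500 (.sx 267187 (.sy 481250 (.sy 478125 (.aff
 3000000 2682844 1490956) (.sx 264843 (.sx 263671 (.aff 34400000 45049968 24762726) (.sy 479687 (.aff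
 3000000 2692415 1485656) (.aff 35000000 45845650 25215043))) (.aff 12000000 14771304 8191559))) (.aff
 32900000 42951060 23692314)) (.sy 481250 (.aff 1500000 665942 375409) (.sx 269531 (.sy 484375 (.aff
 22000000 28198445 15639161) (.aff 34000000 44309800 24576956)) (.sy 484375 (.aff 2000000 1335497 748785)
 (.sy 485937 (.aff 3000000 2677468 1493949) (.aff 32900000 42682021 23841655)))))) (.aff 34400000 45010661
 24784351)) (.sy 487500 (.aff 2000000 1319134 758074) (.sx 276562 (.sy 493750 (.sx 274218 (.sy 490625 (.sx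
 273046 (.aff 33200000 43094332 24059777) (.aff 20000000 25401090 14211989)) (.aff 35000000 45648436
 25323979)) (.sy 490625 (.aff 2000000 1332626 750399) (.aff 33000000 42689299 23987277))) (.aff 35000000
 45767176 25258277)) (.sy 493750 (.aff 3000000 2652626 1507940) (.aff 32600000 42001461 23774412)))))) (.sy
 475000 (.aff 1000000 0 0) (.aff 21412000 27327171 15246721))))), .pol, .pol, .sx 150000 (.inf 2516612
 397360) (.sx 225000 (.inf 1591645 628281) .pol), .pol⟩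

def hL190_60_2_9 : pcchk ⟨(nat_lit 3), (nat_lit 1000), Int.ofNat (nat_lit 1000), 0, ⟨0, 1⟩, ⟨Int.ofNat
 (nat_lit 60), 200⟩⟩ ⟨950000, 1000000, 987340, 974761, 1000082, 111803, 279510, 55902, 223606, 0⟩ false
 (nat_lit 450) (Int.negSucc (nat_lit 13909)) (nat_lit 500) (Int.negSucc (nat_lit 16667)) qL190_60_2_9 = true
 := by decide +kernel

def qL190_60_2_10 : PCt := .one ⟨2008000, 251, 2008000, -1150183, 240397, 0, 0, 300000, 500000, 550000⟩ ⟨0,
 .pol, .pol, .pol, .pol, .sx 150000 (.aff 20000000 41044692 8795291) (.sx 225000 (.aff 35000000 56892882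
 20318887) (.sx 262500 (.aff 35000000 48965597 23608413) (.sx 281250 (.sy 525000 (.aff 35000000 45896502
 25187105) (.aff 35000000 47806122 24181004)) (.sy 525000 (.sx 290625 (.sy 512500 (.aff 32800000 41970405
 24094121) (.aff 35000000 45795459 25242678)) (.sy 512500 (.sx 295312 (.sy 506250 (.aff 1500000 655236
 381542) (.aff 32900000 41895652 24289156)) (.aff 2000000 1304143 766788)) (.aff 32600000 41553300
 24030824))) (.aff 35000000 45869842 25201744))))), .pol, .pol, .sx 150000 (.inf 2645752 377965) (.sx 225000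
 (.inf 1673321 597614) (.sx 262500 (.inf 1467599 681386) (.sy 525000 .pol (.inf 1382430 723364)))), .pol⟩

def hL190_60_2_10 : pcchk ⟨(nat_lit 3), (nat_lit 1000), Int.ofNat (nat_lit 1000), 0, ⟨0, 1⟩, ⟨Int.ofNat
 (nat_lit 60), 200⟩⟩ ⟨950000, 1000000, 987340, 974761, 1000082, 111803, 279510, 55902, 223606, 0⟩ false
 (nat_lit 500) (Int.negSucc (nat_lit 16667)) (nat_lit 550) (Int.negSucc (nat_lit 19531)) qL190_60_2_10 =
 true := by decide +kernel

def qL190_60_2_11 : PCt := .one ⟨2008000, 251, 2008000, -4203949, 1919969, 0, 0, 300000, 550000, 600000⟩ ⟨0,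
 .pol, .pol, .pol, .pol, .sx 150000 (.aff 35000000 94141738 12279357) (.inf 1278889 781929), .pol, .pol, .sx
 150000 (.inf 2768875 361158) (.inf 1278889 781929), .pol⟩

def hL190_60_2_11 : pcchk ⟨(nat_lit 3), (nat_lit 1000), Int.ofNat (nat_lit 1000), 0, ⟨0, 1⟩, ⟨Int.ofNat
 (nat_lit 60), 200⟩⟩ ⟨950000, 1000000, 987340, 974761, 1000082, 111803, 279510, 55902, 223606, 0⟩ false
 (nat_lit 550) (Int.negSucc (nat_lit 19531)) (nat_lit 600) (Int.negSucc (nat_lit 29999)) qL190_60_2_11 =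
 true := by decide +kernel

def qL190_60_2_12 : PCt := .one ⟨2008000, 251, 2008000, 0, -602400, 0, 0, 300000, 600000, 650000⟩ ⟨0, .pol,
 .pol, .pol, .pol, .inf 1632994 612373, .pol, .pol, .inf 1632994 612373, .pol⟩

def hL190_60_2_12 : pcchk ⟨(nat_lit 3), (nat_lit 1000), Int.ofNat (nat_lit 1000), 0, ⟨0, 1⟩, ⟨Int.ofNat
 (nat_lit 60), 200⟩⟩ ⟨950000, 1000000, 987340, 974761, 1000082, 111803, 279510, 55902, 223606, 0⟩ false
 (nat_lit 600) (Int.negSucc (nat_lit 29999)) (nat_lit 650) (Int.negSucc (nat_lit 29999)) qL190_60_2_12 =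
 true := by decide +kernel

def qL190_60_2_13 : PCt := .one ⟨2008000, 251, 2008000, 0, -602400, 0, 0, 300000, 650000, 700000⟩ ⟨0, .pol,
 .pol, .pol, .pol, .aff 35000000 51000001 22666667, .pol, .pol, .inf 1697057 589256, .pol⟩

def hL190_60_2_13 : pcchk ⟨(nat_lit 3), (nat_lit 1000), Int.ofNat (nat_lit 1000), 0, ⟨0, 1⟩, ⟨Int.ofNat
 (nat_lit 60), 200⟩⟩ ⟨950000, 1000000, 987340, 974761, 1000082, 111803, 279510, 55902, 223606, 0⟩ false
 (nat_lit 650) (Int.negSucc (nat_lit 29999)) (nat_lit 700) (Int.negSucc (nat_lit 29999)) qL190_60_2_13 =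
 true := by decide +kernel

def qL190_60_2_14 : PCt := .one ⟨2008000, 251, 2008000, 0, -602400, 0, 0, 300000, 700000, 750000⟩ ⟨0, .pol,
 .pol, .pol, .pol, .aff 35000000 61031868 18940925, .pol, .pol, .inf 1758788 568574, .pol⟩

def hL190_60_2_14 : pcchk ⟨(nat_lit 3), (nat_lit 1000), Int.ofNat (nat_lit 1000), 0, ⟨0, 1⟩, ⟨Int.ofNat
 (nat_lit 60), 200⟩⟩ ⟨950000, 1000000, 987340, 974761, 1000082, 111803, 279510, 55902, 223606, 0⟩ false
 (nat_lit 700) (Int.negSucc (nat_lit 29999)) (nat_lit 750) (Int.negSucc (nat_lit 29999)) qL190_60_2_14 =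
 true := by decide +kernel

def qL190_60_2_15 : PCt := .one ⟨2008000, 251, 2008000, 0, -602400, 0, 0, 300000, 750000, 800000⟩ ⟨0, .pol,
 .pol, .pol, .pol, .aff 20000000 30538228 11821250, .pol, .pol, .inf 2273031 439942, .pol⟩

def hL190_60_2_15 : pcchk ⟨(nat_lit 3), (nat_lit 1000), Int.ofNat (nat_lit 1000), 0, ⟨0, 1⟩, ⟨Int.ofNat
 (nat_lit 60), 200⟩⟩ ⟨950000, 1000000, 987340, 974761, 1000082, 111803, 279510, 55902, 223606, 0⟩ false
 (nat_lit 750) (Int.negSucc (nat_lit 29999)) (nat_lit 800) (Int.negSucc (nat_lit 29999)) qL190_60_2_15 =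
 true := by decide +kernel

def qL190_60_2_16 : PCt := .one ⟨2008000, 251, 2008000, 0, -602400, 0, 0, 300000, 800000, 850000⟩ ⟨0, .pol,
 .pol, .pol, .pol, .aff 20000000 36382231 9922427, .pol, .pol, .inf 2345208 426402, .pol⟩

def hL190_60_2_16 : pcchk ⟨(nat_lit 3), (nat_lit 1000), Int.ofNat (nat_lit 1000), 0, ⟨0, 1⟩, ⟨Int.ofNat
 (nat_lit 60), 200⟩⟩ ⟨950000, 1000000, 987340, 974761, 1000082, 111803, 279510, 55902, 223606, 0⟩ false
 (nat_lit 800) (Int.negSucc (nat_lit 29999)) (nat_lit 850) (Int.negSucc (nat_lit 29999)) qL190_60_2_16 =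
 true := by decide +kernel

def qL190_60_2_17 : PCt := .one ⟨2008000, 251, 2008000, 0, -602400, 0, 0, 300000, 850000, 900000⟩ ⟨0, .pol,
 .pol, .pol, .pol, .aff 20000000 37468506 9634759, .pol, .pol, .inf 2415230 414040, .pol⟩

def hL190_60_2_17 : pcchk ⟨(nat_lit 3), (nat_lit 1000), Int.ofNat (nat_lit 1000), 0, ⟨0, 1⟩, ⟨Int.ofNat
 (nat_lit 60), 200⟩⟩ ⟨950000, 1000000, 987340, 974761, 1000082, 111803, 279510, 55902, 223606, 0⟩ false
 (nat_lit 850) (Int.negSucc (nat_lit 29999)) (nat_lit 900) (Int.negSucc (nat_lit 29999)) qL190_60_2_17 =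
 true := by decide +kernel

def qL190_60_2_18 : PCt := .one ⟨2008000, 251, 2008000, 0, -602400, 0, 0, 300000, 900000, 950000⟩ ⟨0, .pol,
 .pol, .pol, .pol, .aff 20000000 38524163 9370743, .pol, .pol, .inf 2483278 402694, .pol⟩

def hL190_60_2_18 : pcchk ⟨(nat_lit 3), (nat_lit 1000), Int.ofNat (nat_lit 1000), 0, ⟨0, 1⟩, ⟨Int.ofNat
 (nat_lit 60), 200⟩⟩ ⟨950000, 1000000, 987340, 974761, 1000082, 111803, 279510, 55902, 223606, 0⟩ false
 (nat_lit 900) (Int.negSucc (nat_lit 29999)) (nat_lit 950) (Int.negSucc (nat_lit 29999)) qL190_60_2_18 =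
 true := by decide +kernel

def qL190_60_2_19 : PCt := .one ⟨2008000, 251, 2008000, 0, -602400, 0, 0, 300000, 950000, 1000000⟩ ⟨0, .pol,
 .pol, .pol, .pol, .aff 12000000 19830533 6101702, .pol, .pol, .inf 2549510 392233, .pol⟩

def hL190_60_2_19 : pcchk ⟨(nat_lit 3), (nat_lit 1000), Int.ofNat (nat_lit 1000), 0, ⟨0, 1⟩, ⟨Int.ofNat
 (nat_lit 60), 200⟩⟩ ⟨950000, 1000000, 987340, 974761, 1000082, 111803, 279510, 55902, 223606, 0⟩ false
 (nat_lit 950) (Int.negSucc (nat_lit 29999)) (nat_lit 1000) (Int.negSucc (nat_lit 29999)) qL190_60_2_19 =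
 true := by decide +kernel

def qL190_60_3_0 : PCt := .one ⟨2008000, 251, 391560, 575091, 0, 0, 0, 300000, 0, 50000⟩ ⟨12500, .pol, .sp
 500000 (.aff 500000 2000000) .pol, .pol, .pol, .sx 156250 (.sx 84375 (.sx 48437 (.sx 30468 (.sy 25000 (.sy
 12500 (.sx 21484 (.sy 6250 (.aff 0 508766 1965541) (.sx 16992 .pol (.aff 50000 567836 1589368))) (.sy 6250
 (.sy 3125 (.aff 0 313416 3190648) (.aff 25000 478913 1984964)) (.aff 1000000 0 0))) .pol) .pol) (.sy 25000
 (.aff 125000 363929 2103776) .pol)) (.aff 1000000 0 0)) (.aff 1000000 0 0)) (.aff 1000000 0 0), .pol, .pol,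
 .sy 25000 (.sx 156250 (.sy 12500 .pol (.sx 84375 .pol .pol)) .pol) (.sx 156250 .pol .pol), .pol⟩

def hL190_60_3_0 : pcchk ⟨(nat_lit 1), (nat_lit 1000), Int.ofNat (nat_lit 195), 0, ⟨0, 1⟩, ⟨Int.ofNat
 (nat_lit 60), 200⟩⟩ ⟨950000, 1000000, 987340, 974761, 1000082, 111803, 279510, 55902, 223606, 0⟩ true 0 0
 (nat_lit 50) (Int.ofNat (nat_lit 1432)) qL190_60_3_0 = true := by decide +kernel

def qL190_60_3_1 : PCt := .one ⟨2008000, 251, 391560, -485133, 53011, 0, 0, 300000, 50000, 100000⟩ ⟨0, .pol,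
 .pol, .pol, .pol, .sx 150000 (.sx 75000 (.sx 37500 (.aff 1600000 2072790 173679) (.aff 1000000 0 0)) (.aff
 1000000 0 0)) (.aff 1000000 0 0), .pol, .pol, .sx 150000 (.sx 75000 (.sx 37500 .pol (.sy 75000 .pol .pol))
 .pol) .pol, .pol⟩

def hL190_60_3_1 : pcchk ⟨(nat_lit 1), (nat_lit 1000), Int.ofNat (nat_lit 195), 0, ⟨0, 1⟩, ⟨Int.ofNat
 (nat_lit 60), 200⟩⟩ ⟨950000, 1000000, 987340, 974761, 1000082, 111803, 279510, 55902, 223606, 0⟩ false
 (nat_lit 50) (Int.ofNat (nat_lit 1432)) (nat_lit 100) (Int.ofNat (nat_lit 224)) qL190_60_3_1 = true := by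
 decide +kernel

def qL190_60_3_2 : PCt := .one ⟨2008000, 251, 391560, -169074, 21405, 0, 0, 300000, 100000, 150000⟩ ⟨0,
 .pol, .pol, .pol, .pol, .sx 150000 (.sx 75000 (.sy 125000 (.sx 37500 (.sx 18750 (.aff 1900000 2545585
 318198) (.aff 1000000 0 0)) (.aff 1000000 0 0)) (.sx 37500 (.sx 18750 (.aff 2000000 2708013 369275) (.aff
 2100000 2664333 454148)) (.aff 1000000 0 0))) (.aff 1000000 0 0)) (.aff 1000000 0 0), .pol, .pol, .sx
 150000 (.sy 125000 (.sx 75000 .pol .pol) (.sx 75000 .pol (.sx 112500 .pol .pol))) .pol, .pol⟩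

def hL190_60_3_2 : pcchk ⟨(nat_lit 1), (nat_lit 1000), Int.ofNat (nat_lit 195), 0, ⟨0, 1⟩, ⟨Int.ofNat
 (nat_lit 60), 200⟩⟩ ⟨950000, 1000000, 987340, 974761, 1000082, 111803, 279510, 55902, 223606, 0⟩ false
 (nat_lit 100) (Int.ofNat (nat_lit 224)) (nat_lit 150) (Int.negSucc (nat_lit 196)) qL190_60_3_2 = true := by
 decide +kernel

def qL190_60_3_3 : PCt := .one ⟨2008000, 251, 391560, -213250, 28031, 0, 0, 300000, 150000, 200000⟩ ⟨0,
 .pol, .pol, .pol, .pol, .sx 150000 (.sx 75000 (.sx 37500 (.aff 2500000 3240371 694365) (.sx 56250 (.aff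
 2594000 3126727 812619) (.aff 1000000 0 0))) (.aff 1000000 0 0)) (.aff 1000000 0 0), .pol, .pol, .sx 150000
 .pol .pol, .pol⟩

def hL190_60_3_3 : pcchk ⟨(nat_lit 1), (nat_lit 1000), Int.ofNat (nat_lit 195), 0, ⟨0, 1⟩, ⟨Int.ofNat
 (nat_lit 60), 200⟩⟩ ⟨950000, 1000000, 987340, 974761, 1000082, 111803, 279510, 55902, 223606, 0⟩ false
 (nat_lit 150) (Int.negSucc (nat_lit 196)) (nat_lit 200) (Int.negSucc (nat_lit 727)) qL190_60_3_3 = true :=
 by decide +kernel

def qL190_60_3_4 : PCt := .one ⟨2008000, 251, 391560, -238551, 33091, 0, 0, 300000, 200000, 250000⟩ ⟨0,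
 .pol, .pol, .pol, .pol, .sx 150000 (.sx 75000 (.sx 37500 (.aff 3000000 5656855 707107) (.aff 2832000
 3392205 989394)) (.sx 112500 (.aff 3059000 3447451 1229744) (.aff 1000000 0 0))) (.aff 1000000 0 0), .pol,
 .pol, .sx 150000 .pol (.sx 225000 (.sx 187500 .pol .pol) .pol), .pol⟩

def hL190_60_3_4 : pcchk ⟨(nat_lit 1), (nat_lit 1000), Int.ofNat (nat_lit 195), 0, ⟨0, 1⟩, ⟨Int.ofNat
 (nat_lit 60), 200⟩⟩ ⟨950000, 1000000, 987340, 974761, 1000082, 111803, 279510, 55902, 223606, 0⟩ false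
 (nat_lit 200) (Int.negSucc (nat_lit 727)) (nat_lit 250) (Int.negSucc (nat_lit 1321)) qL190_60_3_4 = true :=
 by decide +kernel

def qL190_60_3_5 : PCt := .one ⟨2008000, 251, 391560, -263852, 39417, 0, 0, 300000, 250000, 300000⟩ ⟨0,
 .pol, .pol, .pol, .pol, .sx 150000 (.sx 75000 (.aff 3000000 3829709 1044466) (.sy 275000 (.sx 112500 (.sx
 93750 (.aff 3088000 3591956 1213753) (.aff 3200000 3592585 1347220)) (.aff 1000000 0 0)) (.sx 112500 (.sx
 93750 (.aff 5000000 7383666 2166946) (.aff 3170000 3639615 1293791)) (.aff 3500000 3839739 1627715))))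
 (.aff 1000000 0 0), .pol, .pol, .sx 150000 .pol (.sx 225000 .pol (.sx 262500 (.sy 275000 .pol .pol) .pol)),
 .pol⟩

def hL190_60_3_5 : pcchk ⟨(nat_lit 1), (nat_lit 1000), Int.ofNat (nat_lit 195), 0, ⟨0, 1⟩, ⟨Int.ofNat
 (nat_lit 60), 200⟩⟩ ⟨950000, 1000000, 987340, 974761, 1000082, 111803, 279510, 55902, 223606, 0⟩ false
 (nat_lit 250) (Int.negSucc (nat_lit 1321)) (nat_lit 300) (Int.negSucc (nat_lit 1978)) qL190_60_3_5 = true
 := by decide +kernel

def qL190_60_3_6 : PCt := .one ⟨2008000, 251, 391560, -279916, 44236, 0, 0, 300000, 300000, 350000⟩ ⟨0,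
 .pol, .pol, .pol, .pol, .sx 150000 (.sx 75000 (.aff 3000000 4163332 960769) (.sy 325000 (.sx 112500 (.aff
 5000000 6963107 2297825) (.sx 131250 (.aff 3362000 3809216 1464618) (.aff 3500000 3790491 1648863))) (.sx
 112500 (.aff 5000000 7589467 2108185) (.aff 3850000 4275001 1900000)))) (.sx 225000 (.sy 325000 (.aff
 1000000 0 0) (.sx 187500 (.aff 3700000 3929078 1855398) (.aff 1000000 0 0))) (.aff 1000000 0 0)), .pol,
 .pol, .pol, .pol⟩

def hL190_60_3_6 : pcchk ⟨(nat_lit 1), (nat_lit 1000), Int.ofNat (nat_lit 195), 0, ⟨0, 1⟩, ⟨Int.ofNat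
 (nat_lit 60), 200⟩⟩ ⟨950000, 1000000, 987340, 974761, 1000082, 111803, 279510, 55902, 223606, 0⟩ false
 (nat_lit 300) (Int.negSucc (nat_lit 1978)) (nat_lit 350) (Int.negSucc (nat_lit 2675)) qL190_60_3_6 = true
 := by decide +kernel

def qL190_60_3_7 : PCt := .one ⟨2008000, 251, 391560, -298791, 50842, 0, 0, 300000, 350000, 400000⟩ ⟨0,
 .pol, .pol, .pol, .pol, .sx 150000 (.aff 5000000 6324556 2529822) (.sx 225000 (.sy 375000 (.sx 187500 (.sx
 168750 (.aff 4100000 4543535 2115094) (.aff 3800000 4048001 1936759)) (.aff 1500000 662868 377149)) (.sx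
 187500 (.aff 4100000 4456531 2156386) (.aff 4000000 4208835 2138359))) (.aff 1000000 0 0)), .pol, .pol,
 .pol, .pol⟩

def hL190_60_3_7 : pcchk ⟨(nat_lit 1), (nat_lit 1000), Int.ofNat (nat_lit 195), 0, ⟨0, 1⟩, ⟨Int.ofNat
 (nat_lit 60), 200⟩⟩ ⟨950000, 1000000, 987340, 974761, 1000082, 111803, 279510, 55902, 223606, 0⟩ false
 (nat_lit 350) (Int.negSucc (nat_lit 2675)) (nat_lit 400) (Int.negSucc (nat_lit 3419)) qL190_60_3_7 = true
 := by decide +kernel

def qL190_60_3_8 : PCt := .one ⟨2008000, 251, 391560, -310437, 55501, 0, 0, 300000, 400000, 450000⟩ ⟨0,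
 .pol, .pol, .pol, .pol, .sx 150000 (.aff 5000000 7774603 2057983) (.sy 425000 (.sx 225000 (.sx 187500 (.aff
 5000000 6253888 2558409) (.sx 206250 (.aff 4300000 4666905 2333453) (.aff 4000000 4195236 2145291))) (.aff
 2000000 1253567 797724)) (.sx 225000 (.aff 4500000 4880517 2509980) (.sx 262500 (.sx 243750 (.aff 4488000
 4731751 2571172) (.aff 2000000 1314685 760639)) (.aff 1000000 0 0)))), .pol, .pol, .pol, .pol⟩

def hL190_60_3_8 : pcchk ⟨(nat_lit 1), (nat_lit 1000), Int.ofNat (nat_lit 195), 0, ⟨0, 1⟩, ⟨Int.ofNat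
 (nat_lit 60), 200⟩⟩ ⟨950000, 1000000, 987340, 974761, 1000082, 111803, 279510, 55902, 223606, 0⟩ false
 (nat_lit 400) (Int.negSucc (nat_lit 3419)) (nat_lit 450) (Int.negSucc (nat_lit 4192)) qL190_60_3_8 = true
 := by decide +kernel

def qL190_60_3_9 : PCt := .one ⟨2008000, 251, 391560, -326100, 62549, 0, 0, 300000, 450000, 500000⟩ ⟨0,
 .pol, .pol, .pol, .pol, .sx 150000 (.aff 5000000 8219219 1946657) (.sx 225000 (.aff 5000000 5811866
 2752989) (.sy 475000 (.sx 262500 (.sx 243750 (.aff 4900000 5372151 2831269) (.aff 4700000 4911261 2787472))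
 (.aff 3000000 2564718 1559626)) (.sx 262500 (.aff 5000000 5451082 2935198) (.sx 281250 (.aff 4700000
 4871277 2810352) (.aff 3000000 2590305 1544220))))), .pol, .pol, .pol, .pol⟩

def hL190_60_3_9 : pcchk ⟨(nat_lit 1), (nat_lit 1000), Int.ofNat (nat_lit 195), 0, ⟨0, 1⟩, ⟨Int.ofNat
 (nat_lit 60), 200⟩⟩ ⟨950000, 1000000, 987340, 974761, 1000082, 111803, 279510, 55902, 223606, 0⟩ false
 (nat_lit 450) (Int.negSucc (nat_lit 4192)) (nat_lit 500) (Int.negSucc (nat_lit 5004)) qL190_60_3_9 = true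
 := by decide +kernel

def qL190_60_3_10 : PCt := .one ⟨2008000, 251, 391560, -335738, 67368, 0, 0, 300000, 500000, 550000⟩ ⟨0,
 .pol, .pol, .pol, .pol, .sx 150000 (.aff 5000000 8640988 1851641) (.sx 225000 (.aff 5000000 6693281
 2390457) (.aff 4800000 5026928 2872530)), .pol, .pol, .pol, .pol⟩

def hL190_60_3_10 : pcchk ⟨(nat_lit 1), (nat_lit 1000), Int.ofNat (nat_lit 195), 0, ⟨0, 1⟩, ⟨Int.ofNat
 (nat_lit 60), 200⟩⟩ ⟨950000, 1000000, 987340, 974761, 1000082, 111803, 279510, 55902, 223606, 0⟩ false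
 (nat_lit 500) (Int.negSucc (nat_lit 5004)) (nat_lit 550) (Int.negSucc (nat_lit 5840)) qL190_60_3_10 = true
 := by decide +kernel

def qL190_60_3_11 : PCt := .one ⟨2008000, 251, 391560, -9702255, 5218952, 0, 0, 300000, 550000, 600000⟩ ⟨0,
 .pol, .pol, .pol, .pol, .aff 8000000 9691062 5056206, .pol, .sx 150000 (.aff 20000000 37199911 9704325)
 (.inf 1278889 781929), .sy 575000 (.inf 1549194 645497) (.inf 1583246 631614), .pol⟩

def hL190_60_3_11 : pcchk ⟨(nat_lit 1), (nat_lit 1000), Int.ofNat (nat_lit 195), 0, ⟨0, 1⟩, ⟨Int.ofNat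
 (nat_lit 60), 200⟩⟩ ⟨950000, 1000000, 987340, 974761, 1000082, 111803, 279510, 55902, 223606, 0⟩ false
 (nat_lit 550) (Int.negSucc (nat_lit 5840)) (nat_lit 600) (Int.negSucc (nat_lit 29999)) qL190_60_3_11 = true
 := by decide +kernel

def qL190_60_3_12 : PCt := .one ⟨2008000, 251, 391560, 0, -602400, 0, 0, 300000, 600000, 650000⟩ ⟨0, .pol,
 .pol, .pol, .pol, .aff 5000000 6666667 2400000, .pol, .inf 1632994 612373, .inf 1632994 612373, .pol⟩

def hL190_60_3_12 : pcchk ⟨(nat_lit 1), (nat_lit 1000), Int.ofNat (nat_lit 195), 0, ⟨0, 1⟩, ⟨Int.ofNat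
 (nat_lit 60), 200⟩⟩ ⟨950000, 1000000, 987340, 974761, 1000082, 111803, 279510, 55902, 223606, 0⟩ false
 (nat_lit 600) (Int.negSucc (nat_lit 29999)) (nat_lit 650) (Int.negSucc (nat_lit 29999)) qL190_60_3_12 =
 true := by decide +kernel

def qL190_60_3_13 : PCt := .one ⟨2008000, 251, 391560, 0, -602400, 0, 0, 300000, 650000, 700000⟩ ⟨0, .pol,
 .pol, .pol, .pol, .aff 3000000 4242641 942809, .pol, .inf 1697057 589256, .inf 1697057 589256, .pol⟩

def hL190_60_3_13 : pcchk ⟨(nat_lit 1), (nat_lit 1000), Int.ofNat (nat_lit 195), 0, ⟨0, 1⟩, ⟨Int.ofNat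
 (nat_lit 60), 200⟩⟩ ⟨950000, 1000000, 987340, 974761, 1000082, 111803, 279510, 55902, 223606, 0⟩ false
 (nat_lit 650) (Int.negSucc (nat_lit 29999)) (nat_lit 700) (Int.negSucc (nat_lit 29999)) qL190_60_3_13 =
 true := by decide +kernel

def qL190_60_3_14 : PCt := .one ⟨2008000, 251, 391560, 0, -602400, 0, 0, 300000, 700000, 750000⟩ ⟨0, .pol,
 .pol, .pol, .pol, .aff 2000000 3109127 321634, .pol, .inf 1758788 568574, .inf 1758788 568574, .pol⟩

def hL190_60_3_14 : pcchk ⟨(nat_lit 1), (nat_lit 1000), Int.ofNat (nat_lit 195), 0, ⟨0, 1⟩, ⟨Int.ofNat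
 (nat_lit 60), 200⟩⟩ ⟨950000, 1000000, 987340, 974761, 1000082, 111803, 279510, 55902, 223606, 0⟩ false
 (nat_lit 700) (Int.negSucc (nat_lit 29999)) (nat_lit 750) (Int.negSucc (nat_lit 29999)) qL190_60_3_14 =
 true := by decide +kernel

def qL190_60_3_15 : PCt := .one ⟨2008000, 251, 391560, 0, -602400, 0, 0, 300000, 750000, 800000⟩ ⟨0, .pol,
 .pol, .pol, .pol, .aff 2000000 2273031 439942, .pol, .aff 35000000 63101330 18319741, .inf 2273031 439942,
 .pol⟩

def hL190_60_3_15 : pcchk ⟨(nat_lit 1), (nat_lit 1000), Int.ofNat (nat_lit 195), 0, ⟨0, 1⟩, ⟨Int.ofNat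
 (nat_lit 60), 200⟩⟩ ⟨950000, 1000000, 987340, 974761, 1000082, 111803, 279510, 55902, 223606, 0⟩ false
 (nat_lit 750) (Int.negSucc (nat_lit 29999)) (nat_lit 800) (Int.negSucc (nat_lit 29999)) qL190_60_3_15 =
 true := by decide +kernel

def qL190_60_3_16 : PCt := .one ⟨2008000, 251, 391560, 0, -602400, 0, 0, 300000, 800000, 850000⟩ ⟨0, .pol,
 .pol, .pol, .pol, .aff 1500000 1172604 213201, .pol, .aff 35000000 65105044 17755921, .inf 2345208 426402,
 .pol⟩

def hL190_60_3_16 : pcchk ⟨(nat_lit 1), (nat_lit 1000), Int.ofNat (nat_lit 195), 0, ⟨0, 1⟩, ⟨Int.ofNat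
 (nat_lit 60), 200⟩⟩ ⟨950000, 1000000, 987340, 974761, 1000082, 111803, 279510, 55902, 223606, 0⟩ false
 (nat_lit 800) (Int.negSucc (nat_lit 29999)) (nat_lit 850) (Int.negSucc (nat_lit 29999)) qL190_60_3_16 =
 true := by decide +kernel

def qL190_60_3_17 : PCt := .one ⟨2008000, 251, 391560, 0, -602400, 0, 0, 300000, 850000, 900000⟩ ⟨0, .pol,
 .pol, .pol, .pol, .aff 1500000 1207615 207020, .pol, .aff 35000000 67048905 17241147, .inf 2415230 414040,
 .pol⟩

def hL190_60_3_17 : pcchk ⟨(nat_lit 1), (nat_lit 1000), Int.ofNat (nat_lit 195), 0, ⟨0, 1⟩, ⟨Int.ofNat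
 (nat_lit 60), 200⟩⟩ ⟨950000, 1000000, 987340, 974761, 1000082, 111803, 279510, 55902, 223606, 0⟩ false
 (nat_lit 850) (Int.negSucc (nat_lit 29999)) (nat_lit 900) (Int.negSucc (nat_lit 29999)) qL190_60_3_17 =
 true := by decide +kernel

def qL190_60_3_18 : PCt := .one ⟨2008000, 251, 391560, 0, -602400, 0, 0, 300000, 900000, 950000⟩ ⟨0, .pol,
 .pol, .pol, .pol, .aff 1000000 0 0, .pol, .aff 20000000 38524163 9370743, .inf 2483278 402694, .pol⟩

def hL190_60_3_18 : pcchk ⟨(nat_lit 1), (nat_lit 1000), Int.ofNat (nat_lit 195), 0, ⟨0, 1⟩, ⟨Int.ofNat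
 (nat_lit 60), 200⟩⟩ ⟨950000, 1000000, 987340, 974761, 1000082, 111803, 279510, 55902, 223606, 0⟩ false
 (nat_lit 900) (Int.negSucc (nat_lit 29999)) (nat_lit 950) (Int.negSucc (nat_lit 29999)) qL190_60_3_18 =
 true := by decide +kernel

def qL190_60_3_19 : PCt := .one ⟨2008000, 251, 391560, 0, -602400, 0, 0, 300000, 950000, 1000000⟩ ⟨0, .pol,
 .pol, .pol, .pol, .aff 1000000 0 0, .pol, .aff 20000000 39551654 9127305, .inf 2549510 392233, .pol⟩

def hL190_60_3_19 : pcchk ⟨(nat_lit 1), (nat_lit 1000), Int.ofNat (nat_lit 195), 0, ⟨0, 1⟩, ⟨Int.ofNat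
 (nat_lit 60), 200⟩⟩ ⟨950000, 1000000, 987340, 974761, 1000082, 111803, 279510, 55902, 223606, 0⟩ false
 (nat_lit 950) (Int.negSucc (nat_lit 29999)) (nat_lit 1000) (Int.negSucc (nat_lit 29999)) qL190_60_3_19 =
 true := by decide +kernel

def qL190_60_4_0 : PCt := .one ⟨2008000, 251, 502000, 382323, 0, 0, 0, 300000, 0, 50000⟩ ⟨5000, .sp 250000
 (.aff 2828428 353554) (.sp 500000 (.aff 1511858 661438) (.sp 707106 (.aff 1287189 776887) (.aff 1082393
 923879))), .pol, .pol, .pol, .sx 152500 (.sx 78750 (.sx 41875 (.sx 23437 (.sx 14218 (.sy 25000 (.sy 12500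
 (.sx 9609 (.sy 6250 .pol (.sy 9375 (.aff 13000 1140388 854244) (.aff 25000 1236608 768736))) (.aff 25000
 907554 1047459)) (.aff 100000 1195885 677323)) (.aff 1000000 0 0)) (.sy 25000 (.aff 125000 712963 1073864)
 (.aff 1000000 0 0))) (.aff 500000 437481 571454)) (.aff 1000000 0 0)) (.aff 1000000 0 0)) (.aff 1000000 0
 0), .sx 2500 (.aff 0 1490256 671026) (.sx 3750 (.aff 10000 1435000 682997) (.sx 4375 (.sy 27500 (.aff 6000
 1384135 713830) (.aff 0 3088440 323789)) (.sx 4687 (.sy 27500 (.sy 16250 (.aff 6000 1354173 729624) (.aff 0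
 2197238 455117)) (.aff 0 2924414 341949)) (.sx 4843 (.sy 27500 (.sy 16250 (.aff 6000 1348941 732454) (.aff
 0 2142608 466721)) (.aff 0 2851704 350668)) (.sy 27500 (.sy 16250 (.aff 6000 1344293 734986) (.aff 0
 2108266 474324)) (.aff 0 2805997 356380)))))), .pol, .sx 152500 .pol .pol, .pol⟩

def hL190_60_4_0 : pcchk ⟨(nat_lit 1), (nat_lit 1000), Int.ofNat (nat_lit 250), 0, ⟨0, 1⟩, ⟨Int.ofNat
 (nat_lit 60), 200⟩⟩ ⟨950000, 1000000, 987340, 974761, 1000082, 111803, 279510, 55902, 223606, 0⟩ true 0 0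
 (nat_lit 50) (Int.ofNat (nat_lit 952)) qL190_60_4_0 = true := by decide +kernel

def qL190_60_4_1 : PCt := .one ⟨2008000, 251, 502000, -308028, 34517, 0, 0, 300000, 50000, 100000⟩ ⟨0, .pol,
 .pol, .pol, .pol, .sx 150000 (.sx 75000 (.sx 37500 (.aff 2100000 3111270 388909) (.aff 1000000 0 0)) (.aff
 1000000 0 0)) (.aff 1000000 0 0), .pol, .pol, .sx 150000 (.sy 75000 (.sy 62500 (.sy 56250 (.sx 75000 (.sx
 37500 .pol .pol) .pol) (.sx 75000 (.sx 37500 .pol .pol) .pol)) (.sy 68750 (.sx 75000 (.sx 37500 .pol .pol)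
 .pol) (.sx 75000 (.sx 37500 .pol .pol) .pol))) (.sx 75000 .pol .pol)) .pol, .pol⟩

def hL190_60_4_1 : pcchk ⟨(nat_lit 1), (nat_lit 1000), Int.ofNat (nat_lit 250), 0, ⟨0, 1⟩, ⟨Int.ofNat
 (nat_lit 60), 200⟩⟩ ⟨950000, 1000000, 987340, 974761, 1000082, 111803, 279510, 55902, 223606, 0⟩ false
 (nat_lit 50) (Int.ofNat (nat_lit 952)) (nat_lit 100) (Int.ofNat (nat_lit 185)) qL190_60_4_1 = true := by
 decide +kernel

def qL190_60_4_2 : PCt := .one ⟨2008000, 251, 502000, -214053, 25120, 0, 0, 300000, 100000, 150000⟩ ⟨0,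
 .pol, .pol, .pol, .pol, .sx 150000 (.sx 75000 (.sy 125000 (.sx 37500 (.sy 112500 (.sx 18750 (.aff 1900000
 3029852 267340) (.aff 1000000 0 0)) (.sx 18750 (.aff 2200000 3487120 412949) (.aff 1000000 0 0))) (.aff
 1000000 0 0)) (.sx 37500 (.sx 18750 (.aff 3000000 5416026 738549) (.aff 2400000 3390969 578006)) (.aff
 1000000 0 0))) (.aff 1000000 0 0)) (.aff 1000000 0 0), .pol, .pol, .sy 125000 (.sx 150000 (.sx 75000 .pol
 .pol) .pol) (.sx 150000 (.sy 137500 (.sx 75000 .pol .pol) (.sy 143750 (.sy 140625 (.sx 75000 .pol (.sx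
 112500 .pol .pol)) (.sx 75000 .pol (.sx 112500 .pol .pol))) (.sy 146875 (.sx 75000 .pol (.sx 112500 .pol
 .pol)) (.sx 75000 .pol (.sx 112500 .pol .pol))))) .pol), .pol⟩

def hL190_60_4_2 : pcchk ⟨(nat_lit 1), (nat_lit 1000), Int.ofNat (nat_lit 250), 0, ⟨0, 1⟩, ⟨Int.ofNat
 (nat_lit 60), 200⟩⟩ ⟨950000, 1000000, 987340, 974761, 1000082, 111803, 279510, 55902, 223606, 0⟩ false
 (nat_lit 100) (Int.ofNat (nat_lit 185)) (nat_lit 150) (Int.negSucc (nat_lit 347)) qL190_60_4_2 = true := by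
 decide +kernel

def qL190_60_4_3 : PCt := .one ⟨2008000, 251, 502000, -274695, 34216, 0, 0, 300000, 150000, 200000⟩ ⟨0,
 .pol, .pol, .pol, .pol, .sx 150000 (.sx 75000 (.sy 175000 (.sx 37500 (.aff 3000000 4163332 960769) (.sx
 56250 (.aff 3000000 3925228 1019050) (.aff 1000000 0 0))) (.sx 37500 (.aff 3000000 4472136 894428) (.aff
 2975000 3950000 987500))) (.aff 1000000 0 0)) (.aff 1000000 0 0), .pol, .pol, .sx 150000 .pol .pol, .pol⟩

def hL190_60_4_3 : pcchk ⟨(nat_lit 1), (nat_lit 1000), Int.ofNat (nat_lit 250), 0, ⟨0, 1⟩, ⟨Int.ofNat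
 (nat_lit 60), 200⟩⟩ ⟨950000, 1000000, 987340, 974761, 1000082, 111803, 279510, 55902, 223606, 0⟩ false
 (nat_lit 150) (Int.negSucc (nat_lit 347)) (nat_lit 200) (Int.negSucc (nat_lit 1031)) qL190_60_4_3 = true :=
 by decide +kernel

def qL190_60_4_4 : PCt := .one ⟨2008000, 251, 502000, -305618, 40400, 0, 0, 300000, 200000, 250000⟩ ⟨0,
 .pol, .pol, .pol, .pol, .sx 150000 (.sx 75000 (.sy 225000 (.sx 37500 (.aff 3000000 4760953 840168) (.sy
 212500 (.sx 56250 (.aff 5000000 7659417 2088932) (.aff 3300000 4231385 1250182)) (.sx 56250 (.aff 5000000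
 8640988 1851641) (.sx 65625 (.aff 3263000 4264574 1200863) (.aff 3300000 4126172 1282060))))) (.aff 3650000
 4715710 1489172)) (.sx 112500 (.aff 3617000 4492653 1524420) (.aff 1000000 0 0))) (.aff 1000000 0 0), .pol,
 .pol, .sx 150000 .pol (.sx 225000 (.sy 225000 .pol .pol) .pol), .pol⟩

def hL190_60_4_4 : pcchk ⟨(nat_lit 1), (nat_lit 1000), Int.ofNat (nat_lit 250), 0, ⟨0, 1⟩, ⟨Int.ofNat
 (nat_lit 60), 200⟩⟩ ⟨950000, 1000000, 987340, 974761, 1000082, 111803, 279510, 55902, 223606, 0⟩ false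
 (nat_lit 200) (Int.negSucc (nat_lit 1031)) (nat_lit 250) (Int.negSucc (nat_lit 1792)) qL190_60_4_4 = true
 := by decide +kernel

def qL190_60_4_5 : PCt := .one ⟨2008000, 251, 502000, -339754, 48934, 0, 0, 300000, 250000, 300000⟩ ⟨0,
 .pol, .pol, .pol, .pol, .sx 150000 (.sx 75000 (.aff 5000000 7659417 2088932) (.sx 112500 (.sy 275000 (.sx
 93750 (.aff 4100000 5187293 1852605) (.aff 3900000 4735681 1775880)) (.aff 4175000 5075589 1986100)) (.sy
 275000 (.aff 1000000 0 0) (.aff 4194000 4967356 2053736)))) (.aff 1000000 0 0), .pol, .pol, .sx 150000 .pol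
 (.sx 225000 .pol .pol), .pol⟩

def hL190_60_4_5 : pcchk ⟨(nat_lit 1), (nat_lit 1000), Int.ofNat (nat_lit 250), 0, ⟨0, 1⟩, ⟨Int.ofNat
 (nat_lit 60), 200⟩⟩ ⟨950000, 1000000, 987340, 974761, 1000082, 111803, 279510, 55902, 223606, 0⟩ false
 (nat_lit 250) (Int.negSucc (nat_lit 1792)) (nat_lit 300) (Int.negSucc (nat_lit 2638)) qL190_60_4_5 = true
 := by decide +kernel

def qL190_60_4_6 : PCt := .one ⟨2008000, 251, 502000, -361039, 55320, 0, 0, 300000, 300000, 350000⟩ ⟨0,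
 .pol, .pol, .pol, .pol, .sx 150000 (.sx 75000 (.aff 5000000 9614804 1664101) (.sy 325000 (.sx 112500 (.aff
 5000000 6963107 2297825) (.sx 131250 (.aff 4400000 5246314 2203452) (.aff 4300000 5003448 2176500))) (.sx
 112500 (.aff 5000000 7589467 2108185) (.aff 4625000 5437501 2416667)))) (.sx 225000 (.sy 325000 (.aff
 1000000 0 0) (.sx 187500 (.sx 168750 (.aff 4676000 5405864 2499689) (.aff 1000000 0 0)) (.aff 1000000 0
 0))) (.aff 1000000 0 0)), .pol, .pol, .pol, .pol⟩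

def hL190_60_4_6 : pcchk ⟨(nat_lit 1), (nat_lit 1000), Int.ofNat (nat_lit 250), 0, ⟨0, 1⟩, ⟨Int.ofNat
 (nat_lit 60), 200⟩⟩ ⟨950000, 1000000, 987340, 974761, 1000082, 111803, 279510, 55902, 223606, 0⟩ false
 (nat_lit 300) (Int.negSucc (nat_lit 2638)) (nat_lit 350) (Int.negSucc (nat_lit 3537)) qL190_60_4_6 = true
 := by decide +kernel

def qL190_60_4_7 : PCt := .one ⟨2008000, 251, 502000, -385938, 64035, 0, 0, 300000, 350000, 400000⟩ ⟨0,
 .pol, .pol, .pol, .pol, .sx 150000 (.aff 5000000 6324556 2529822) (.sy 375000 (.sx 225000 (.sx 187500 (.sy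
 362500 (.aff 4800000 5521272 2615340) (.aff 4925000 5647331 2727948)) (.aff 1500000 662868 377149)) (.aff
 1000000 0 0)) (.sx 225000 (.sx 187500 (.aff 5000000 5750363 2782434) (.aff 5000000 5611779 2851146)) (.aff
 1000000 0 0))), .pol, .pol, .pol, .pol⟩

def hL190_60_4_7 : pcchk ⟨(nat_lit 1), (nat_lit 1000), Int.ofNat (nat_lit 250), 0, ⟨0, 1⟩, ⟨Int.ofNat
 (nat_lit 60), 200⟩⟩ ⟨950000, 1000000, 987340, 974761, 1000082, 111803, 279510, 55902, 223606, 0⟩ false
 (nat_lit 350) (Int.negSucc (nat_lit 3537)) (nat_lit 400) (Int.negSucc (nat_lit 4498)) qL190_60_4_7 = true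
 := by decide +kernel

def qL190_60_4_8 : PCt := .one ⟨2008000, 251, 502000, -402404, 70621, 0, 0, 300000, 400000, 450000⟩ ⟨0,
 .pol, .pol, .pol, .pol, .sx 150000 (.aff 5000000 6733004 2376354) (.sy 425000 (.sx 225000 (.sx 187500 (.aff
 5000000 6087088 2628515) (.aff 5000000 5656855 2828427)) (.aff 1500000 650444 384353)) (.sx 225000 (.sx
 187500 (.aff 5000000 6440612 2484236) (.aff 4900000 5555257 2737948)) (.sx 262500 (.aff 5100000 5601667
 3000893) (.aff 1000000 0 0)))), .pol, .pol, .pol, .pol⟩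

def hL190_60_4_8 : pcchk ⟨(nat_lit 1), (nat_lit 1000), Int.ofNat (nat_lit 250), 0, ⟨0, 1⟩, ⟨Int.ofNat
 (nat_lit 60), 200⟩⟩ ⟨950000, 1000000, 987340, 974761, 1000082, 111803, 279510, 55902, 223606, 0⟩ false
 (nat_lit 400) (Int.negSucc (nat_lit 4498)) (nat_lit 450) (Int.negSucc (nat_lit 5500)) qL190_60_4_8 = true
 := by decide +kernel

def qL190_60_4_9 : PCt := .one ⟨2008000, 251, 502000, -423287, 80018, 0, 0, 300000, 450000, 500000⟩ ⟨0,
 .pol, .pol, .pol, .pol, .sx 150000 (.aff 5000000 8219219 1946657) (.sy 475000 (.sx 225000 (.aff 5000000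
 5734884 2789944) (.sy 462500 (.sx 262500 (.aff 4975000 5546040 2848993) (.aff 1500000 636833 392568)) (.sx
 262500 (.aff 5100000 5685678 2956552) (.aff 2000000 1290995 774597)))) (.sx 225000 (.aff 5000000 5887841
 2717465) (.sx 262500 (.aff 6200000 7086406 3815757) (.aff 5400000 5891900 3285868)))), .pol, .pol, .pol,
 .pol⟩

def hL190_60_4_9 : pcchk ⟨(nat_lit 1), (nat_lit 1000), Int.ofNat (nat_lit 250), 0, ⟨0, 1⟩, ⟨Int.ofNat
 (nat_lit 60), 200⟩⟩ ⟨950000, 1000000, 987340, 974761, 1000082, 111803, 279510, 55902, 223606, 0⟩ false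
 (nat_lit 450) (Int.negSucc (nat_lit 5500)) (nat_lit 500) (Int.negSucc (nat_lit 6554)) qL190_60_4_9 = true
 := by decide +kernel

def qL190_60_4_10 : PCt := .one ⟨2008000, 251, 502000, -437343, 87046, 0, 0, 300000, 500000, 550000⟩ ⟨0,
 .pol, .pol, .pol, .pol, .sx 150000 (.aff 5000000 8640988 1851641) (.sy 525000 (.sx 225000 (.aff 5000000
 6305361 2537524) (.sy 512500 (.sx 262500 (.aff 8000000 10088074 4857221) (.sx 281250 (.aff 8000000 9552036
 5129797) (.aff 5300000 5721573 3231629))) (.aff 6200000 6837885 3954440))) (.aff 8000000 9369721 5229612)),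
 .pol, .pol, .pol, .pol⟩

def hL190_60_4_10 : pcchk ⟨(nat_lit 1), (nat_lit 1000), Int.ofNat (nat_lit 250), 0, ⟨0, 1⟩, ⟨Int.ofNat
 (nat_lit 60), 200⟩⟩ ⟨950000, 1000000, 987340, 974761, 1000082, 111803, 279510, 55902, 223606, 0⟩ false
 (nat_lit 500) (Int.negSucc (nat_lit 6554)) (nat_lit 550) (Int.negSucc (nat_lit 7643)) qL190_60_4_10 = true
 := by decide +kernel

def qL190_60_4_11 : PCt := .one ⟨2008000, 251, 502000, -8978170, 4784501, 0, 0, 300000, 550000, 600000⟩ ⟨0,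
 .pol, .pol, .pol, .pol, .aff 8000000 9691062 5056206, .pol, .sx 150000 (.aff 20000000 42954757 8404192)
 (.inf 1278889 781929), .sy 575000 (.inf 1549194 645497) (.inf 1583246 631614), .pol⟩

def hL190_60_4_11 : pcchk ⟨(nat_lit 1), (nat_lit 1000), Int.ofNat (nat_lit 250), 0, ⟨0, 1⟩, ⟨Int.ofNat
 (nat_lit 60), 200⟩⟩ ⟨950000, 1000000, 987340, 974761, 1000082, 111803, 279510, 55902, 223606, 0⟩ false
 (nat_lit 550) (Int.negSucc (nat_lit 7643)) (nat_lit 600) (Int.negSucc (nat_lit 29999)) qL190_60_4_11 = true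
 := by decide +kernel

def qL190_60_4_12 : PCt := .one ⟨2008000, 251, 502000, 0, -602400, 0, 0, 300000, 600000, 650000⟩ ⟨0, .pol,
 .pol, .pol, .pol, .aff 5000000 6666667 2400000, .pol, .inf 1632994 612373, .inf 1632994 612373, .pol⟩

def hL190_60_4_12 : pcchk ⟨(nat_lit 1), (nat_lit 1000), Int.ofNat (nat_lit 250), 0, ⟨0, 1⟩, ⟨Int.ofNat
 (nat_lit 60), 200⟩⟩ ⟨950000, 1000000, 987340, 974761, 1000082, 111803, 279510, 55902, 223606, 0⟩ false
 (nat_lit 600) (Int.negSucc (nat_lit 29999)) (nat_lit 650) (Int.negSucc (nat_lit 29999)) qL190_60_4_12 =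
 true := by decide +kernel

def qL190_60_4_13 : PCt := .one ⟨2008000, 251, 502000, 0, -602400, 0, 0, 300000, 650000, 700000⟩ ⟨0, .pol,
 .pol, .pol, .pol, .aff 3000000 4242641 942809, .pol, .inf 1697057 589256, .inf 1697057 589256, .pol⟩

def hL190_60_4_13 : pcchk ⟨(nat_lit 1), (nat_lit 1000), Int.ofNat (nat_lit 250), 0, ⟨0, 1⟩, ⟨Int.ofNat
 (nat_lit 60), 200⟩⟩ ⟨950000, 1000000, 987340, 974761, 1000082, 111803, 279510, 55902, 223606, 0⟩ false
 (nat_lit 650) (Int.negSucc (nat_lit 29999)) (nat_lit 700) (Int.negSucc (nat_lit 29999)) qL190_60_4_13 =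
 true := by decide +kernel

def qL190_60_4_14 : PCt := .one ⟨2008000, 251, 502000, 0, -602400, 0, 0, 300000, 700000, 750000⟩ ⟨0, .pol,
 .pol, .pol, .pol, .aff 2000000 3109127 321634, .pol, .aff 35800000 54098799 22385710, .inf 1758788 568574,
 .pol⟩

def hL190_60_4_14 : pcchk ⟨(nat_lit 1), (nat_lit 1000), Int.ofNat (nat_lit 250), 0, ⟨0, 1⟩, ⟨Int.ofNat
 (nat_lit 60), 200⟩⟩ ⟨950000, 1000000, 987340, 974761, 1000082, 111803, 279510, 55902, 223606, 0⟩ false
 (nat_lit 700) (Int.negSucc (nat_lit 29999)) (nat_lit 750) (Int.negSucc (nat_lit 29999)) qL190_60_4_14 =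
 true := by decide +kernel

def qL190_60_4_15 : PCt := .one ⟨2008000, 251, 502000, 0, -602400, 0, 0, 300000, 750000, 800000⟩ ⟨0, .pol,
 .pol, .pol, .pol, .aff 2000000 2273031 439942, .pol, .aff 35000000 63101330 18319741, .inf 2273031 439942,
 .pol⟩

def hL190_60_4_15 : pcchk ⟨(nat_lit 1), (nat_lit 1000), Int.ofNat (nat_lit 250), 0, ⟨0, 1⟩, ⟨Int.ofNat
 (nat_lit 60), 200⟩⟩ ⟨950000, 1000000, 987340, 974761, 1000082, 111803, 279510, 55902, 223606, 0⟩ false
 (nat_lit 750) (Int.negSucc (nat_lit 29999)) (nat_lit 800) (Int.negSucc (nat_lit 29999)) qL190_60_4_15 =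
 true := by decide +kernel

def qL190_60_4_16 : PCt := .one ⟨2008000, 251, 502000, 0, -602400, 0, 0, 300000, 800000, 850000⟩ ⟨0, .pol,
 .pol, .pol, .pol, .aff 1500000 1172604 213201, .pol, .aff 35000000 65105044 17755921, .inf 2345208 426402,
 .pol⟩

def hL190_60_4_16 : pcchk ⟨(nat_lit 1), (nat_lit 1000), Int.ofNat (nat_lit 250), 0, ⟨0, 1⟩, ⟨Int.ofNat
 (nat_lit 60), 200⟩⟩ ⟨950000, 1000000, 987340, 974761, 1000082, 111803, 279510, 55902, 223606, 0⟩ false
 (nat_lit 800) (Int.negSucc (nat_lit 29999)) (nat_lit 850) (Int.negSucc (nat_lit 29999)) qL190_60_4_16 =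
 true := by decide +kernel

def qL190_60_4_17 : PCt := .one ⟨2008000, 251, 502000, 0, -602400, 0, 0, 300000, 850000, 900000⟩ ⟨0, .pol,
 .pol, .pol, .pol, .aff 1500000 1207615 207020, .pol, .aff 20000000 32448678 11125261, .inf 2415230 414040,
 .pol⟩

def hL190_60_4_17 : pcchk ⟨(nat_lit 1), (nat_lit 1000), Int.ofNat (nat_lit 250), 0, ⟨0, 1⟩, ⟨Int.ofNat
 (nat_lit 60), 200⟩⟩ ⟨950000, 1000000, 987340, 974761, 1000082, 111803, 279510, 55902, 223606, 0⟩ false
 (nat_lit 850) (Int.negSucc (nat_lit 29999)) (nat_lit 900) (Int.negSucc (nat_lit 29999)) qL190_60_4_17 =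
 true := by decide +kernel

def qL190_60_4_18 : PCt := .one ⟨2008000, 251, 502000, 0, -602400, 0, 0, 300000, 900000, 950000⟩ ⟨0, .pol,
 .pol, .pol, .pol, .aff 1000000 0 0, .pol, .aff 20000000 38524163 9370743, .inf 2483278 402694, .pol⟩

def hL190_60_4_18 : pcchk ⟨(nat_lit 1), (nat_lit 1000), Int.ofNat (nat_lit 250), 0, ⟨0, 1⟩, ⟨Int.ofNat
 (nat_lit 60), 200⟩⟩ ⟨950000, 1000000, 987340, 974761, 1000082, 111803, 279510, 55902, 223606, 0⟩ false
 (nat_lit 900) (Int.negSucc (nat_lit 29999)) (nat_lit 950) (Int.negSucc (nat_lit 29999)) qL190_60_4_18 =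
 true := by decide +kernel

def qL190_60_4_19 : PCt := .one ⟨2008000, 251, 502000, 0, -602400, 0, 0, 300000, 950000, 1000000⟩ ⟨0, .pol,
 .pol, .pol, .pol, .aff 1000000 0 0, .pol, .aff 20000000 39551654 9127305, .inf 2549510 392233, .pol⟩

def hL190_60_4_19 : pcchk ⟨(nat_lit 1), (nat_lit 1000), Int.ofNat (nat_lit 250), 0, ⟨0, 1⟩, ⟨Int.ofNat
 (nat_lit 60), 200⟩⟩ ⟨950000, 1000000, 987340, 974761, 1000082, 111803, 279510, 55902, 223606, 0⟩ false
 (nat_lit 950) (Int.negSucc (nat_lit 29999)) (nat_lit 1000) (Int.negSucc (nat_lit 29999)) qL190_60_4_19 =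
 true := by decide +kernel

def qL190_60_5_0 : PCt := .one ⟨2008000, 251, 803200, 297987, 0, 0, 0, 300000, 0, 50000⟩ ⟨5000, .sp 250000
 (.sp 62500 (.aff 5656855 176777) (.sp 125000 (.aff 3023716 330719) (.aff 2696800 370810))) (.aff 1511858
 661438), .pol, .pol, .pol, .sx 152500 (.sx 78750 (.sx 41875 (.sx 23437 (.sy 25000 (.aff 125000 997972
 767181) (.aff 1000000 0 0)) .pol) .pol) .pol) .pol, .sy 27500 (.sy 16250 (.aff 25000 2540131 374243) (.aff
 125000 2588285 295804)) (.aff 500000 1968502 127001), .pol, .sx 152500 (.sx 78750 (.sy 25000 .pol (.sx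
 41875 (.sx 23437 .pol .pol) .pol)) .pol) .pol, .pol⟩

def hL190_60_5_0 : pcchk ⟨(nat_lit 1), (nat_lit 1000), Int.ofNat (nat_lit 400), 0, ⟨0, 1⟩, ⟨Int.ofNat
 (nat_lit 60), 200⟩⟩ ⟨950000, 1000000, 987340, 974761, 1000082, 111803, 279510, 55902, 223606, 0⟩ true 0 0
 (nat_lit 50) (Int.ofNat (nat_lit 742)) qL190_60_5_0 = true := by decide +kernel

def qL190_60_5_1 : PCt := .one ⟨2008000, 251, 803200, -273490, 28573, 0, 0, 300000, 50000, 100000⟩ ⟨0, .pol,
 .pol, .pol, .pol, .sx 150000 (.sx 75000 (.aff 2600000 4773840 536256) (.aff 1000000 0 0)) .pol, .pol, .pol,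
 .sx 150000 (.sx 75000 (.sx 37500 .pol .pol) .pol) .pol, .pol⟩

def hL190_60_5_1 : pcchk ⟨(nat_lit 1), (nat_lit 1000), Int.ofNat (nat_lit 400), 0, ⟨0, 1⟩, ⟨Int.ofNat
 (nat_lit 60), 200⟩⟩ ⟨950000, 1000000, 987340, 974761, 1000082, 111803, 279510, 55902, 223606, 0⟩ false
 (nat_lit 50) (Int.ofNat (nat_lit 742)) (nat_lit 100) (Int.ofNat (nat_lit 61)) qL190_60_5_1 = true := by
 decide +kernel

def qL190_60_5_2 : PCt := .one ⟨2008000, 251, 803200, -335738, 34798, 0, 0, 300000, 100000, 150000⟩ ⟨0,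
 .pol, .pol, .pol, .pol, .sx 150000 (.sy 125000 (.sx 75000 (.sy 112500 (.sx 37500 (.sx 18750 (.aff 3000000
 5497475 727607) (.aff 1000000 0 0)) (.aff 1000000 0 0)) (.sx 37500 (.sy 118750 (.sx 18750 (.aff 2900000
 5448140 662612) (.aff 1000000 0 0)) (.aff 3182000 5563031 855851)) (.aff 1000000 0 0))) (.aff 1000000 0 0))
 (.sx 75000 (.sy 137500 (.sx 37500 (.aff 3037000 5389396 769914) (.aff 1000000 0 0)) (.sx 37500 (.sx 18750
 (.aff 3000000 5537750 722316) (.aff 3100000 5200770 847952)) (.aff 1000000 0 0))) (.aff 1000000 0 0)))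
 (.aff 1000000 0 0), .pol, .pol, .sx 150000 (.sx 75000 .pol .pol) .pol, .pol⟩

def hL190_60_5_2 : pcchk ⟨(nat_lit 1), (nat_lit 1000), Int.ofNat (nat_lit 400), 0, ⟨0, 1⟩, ⟨Int.ofNat
 (nat_lit 60), 200⟩⟩ ⟨950000, 1000000, 987340, 974761, 1000082, 111803, 279510, 55902, 223606, 0⟩ false
 (nat_lit 100) (Int.ofNat (nat_lit 61)) (nat_lit 150) (Int.negSucc (nat_lit 774)) qL190_60_5_2 = true := by
 decide +kernel

def qL190_60_5_3 : PCt := .one ⟨2008000, 251, 803200, -433327, 49436, 0, 0, 300000, 150000, 200000⟩ ⟨0,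
 .pol, .pol, .pol, .pol, .sx 150000 (.sy 175000 (.sy 162500 (.sx 75000 (.sx 37500 (.aff 4300000 6736097
 1616664) (.aff 1000000 0 0)) (.aff 1000000 0 0)) (.sx 75000 (.sx 37500 (.aff 4600000 7636754 1697057) (.aff
 3800000 5871361 1335296)) (.aff 1000000 0 0))) (.sx 75000 (.sy 187500 (.sx 37500 (.aff 5000000 8793938
 1819436) (.sy 181250 (.sx 56250 (.sx 46875 (.aff 4400000 6627821 1744163) (.aff 1000000 0 0)) (.aff 1000000
 0 0)) (.sx 56250 (.sx 46875 (.aff 4800000 7536401 1916034) (.aff 3800000 5419308 1446680)) (.aff 1000000 0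
 0)))) (.sy 193750 (.sy 190625 (.sx 37500 (.aff 5000000 10370900 1542779) (.sy 189062 (.sy 188281 (.sy
 187890 (.sx 56250 (.sx 46875 (.aff 5000000 8437125 1896381) (.aff 3700000 5272601 1382620)) (.aff 1000000 0
 0)) (.sx 56250 (.sy 188085 (.sx 46875 (.aff 5000000 8443696 1894905) (.aff 3800000 5472141 1432712)) (.sx
 46875 (.aff 5000000 8448086 1893921) (.sx 51562 (.aff 4900000 7450578 2041453) (.aff 1000000 0 0)))) (.aff
 1000000 0 0))) (.sx 56250 (.sy 188671 (.sy 188476 (.sx 46875 (.aff 5000000 8452473 1892938) (.sx 51562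
 (.aff 4900000 7454447 2040393) (.aff 1000000 0 0))) (.sx 46875 (.aff 5000000 8456847 1891959) (.sx 51562
 (.aff 5000000 7649543 2091629) (.aff 1000000 0 0)))) (.sy 188866 (.sy 188768 (.sy 188719 (.sx 46875 (.aff
 5000000 8459571 1891349) (.sx 51562 (.aff 5000000 7740463 2067060) (.aff 1000000 0 0))) (.sx 46875 (.aff
 5000000 8460658 1891106) (.sx 51562 (.aff 5000000 7741458 2066795) (.aff 1000000 0 0)))) (.sx 46875 (.aff
 5000000 8462305 1890738) (.sx 51562 (.aff 5000000 7742965 2066392) (.aff 1000000 0 0)))) (.sx 46875 (.aff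
 5000000 8465598 1890003) (.sx 51562 (.aff 5000000 7745979 2065588) (.aff 1000000 0 0))))) (.aff 1000000 0
 0))) (.sx 56250 (.sy 189843 (.sy 189452 (.sy 189257 (.sy 189159 (.sx 46875 (.aff 5000000 8468879 1889271)
 (.sx 51562 (.aff 5000000 7748981 2064788) (.aff 1000000 0 0))) (.sx 46875 (.aff 5000000 8471062 1888784)
 (.sx 51562 (.aff 5000000 7842700 2040114) (.aff 1000000 0 0)))) (.sx 46875 (.aff 5000000 8474341 1888053)
 (.sx 51562 (.aff 5000000 7845735 2039325) (.aff 1000000 0 0)))) (.sx 46875 (.aff 5000000 8480895 1886594)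
 (.sx 51562 (.aff 5000000 7851803 2037749) (.aff 1000000 0 0)))) (.sx 46875 (.aff 5000000 8493999 1883683)
 (.aff 4825000 7034193 2079930))) (.aff 1000000 0 0)))) (.sx 37500 (.aff 5000000 10456259 1530184) (.aff
 4769000 6966706 2039036))) (.sx 37500 (.aff 5000000 10583006 1511858) (.aff 4700000 6922067 1977733))))
 (.aff 1000000 0 0))) (.aff 1000000 0 0), .pol, .pol, .sx 150000 .pol .pol, .pol⟩

def hL190_60_5_3 : pcchk ⟨(nat_lit 1), (nat_lit 1000), Int.ofNat (nat_lit 400), 0, ⟨0, 1⟩, ⟨Int.ofNat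
 (nat_lit 60), 200⟩⟩ ⟨950000, 1000000, 987340, 974761, 1000082, 111803, 279510, 55902, 223606, 0⟩ false
 (nat_lit 150) (Int.negSucc (nat_lit 774)) (nat_lit 200) (Int.negSucc (nat_lit 1853)) qL190_60_5_3 = true :=
 by decide +kernel

def qL190_60_5_4 : PCt := .one ⟨2008000, 251, 803200, -489551, 60681, 0, 0, 300000, 200000, 250000⟩ ⟨0,
 .pol, .pol, .pol, .pol, .sx 150000 (.sy 225000 (.sx 75000 (.sx 37500 (.aff 5000000 10994949 1455214) (.aff
 5000000 7197884 2222876)) (.aff 1000000 0 0)) (.sy 237500 (.sy 231250 (.sy 228125 (.sy 226562 (.sy 225781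
 (.sx 75000 (.sx 37500 (.aff 5000000 11323523 1412988) (.aff 4700000 6857012 1996497)) (.aff 1000000 0 0))
 (.sy 226171 (.sx 75000 (.sx 37500 (.aff 5000000 11338221 1411157) (.aff 4700000 6865912 1993909)) (.aff
 1000000 0 0)) (.sx 75000 (.sx 37500 (.aff 5000000 11348013 1409939) (.aff 4675000 6825411 1978727)) (.aff
 1000000 0 0)))) (.sx 75000 (.sx 37500 (.aff 5000000 11372476 1406906) (.sx 56250 (.aff 5000000 8809082
 1816308) (.aff 5000000 7192585 2224514))) (.aff 1000000 0 0))) (.sx 75000 (.aff 5600000 8050000 2628572)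
 (.aff 1000000 0 0))) (.sx 75000 (.aff 7400000 11313709 3620387) (.aff 5300000 7237389 2554789))) (.sx 75000
 (.aff 5000000 7211103 2218801) (.sx 112500 (.aff 5100000 6968661 2412229) (.aff 1000000 0 0))))) (.aff
 1000000 0 0), .pol, .pol, .sx 150000 .pol (.sx 225000 (.sx 187500 .pol .pol) .pol), .pol⟩

def hL190_60_5_4 : pcchk ⟨(nat_lit 1), (nat_lit 1000), Int.ofNat (nat_lit 400), 0, ⟨0, 1⟩, ⟨Int.ofNat
 (nat_lit 60), 200⟩⟩ ⟨950000, 1000000, 987340, 974761, 1000082, 111803, 279510, 55902, 223606, 0⟩ false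
 (nat_lit 200) (Int.negSucc (nat_lit 1853)) (nat_lit 250) (Int.negSucc (nat_lit 3072)) qL190_60_5_4 = true
 := by decide +kernel

def qL190_60_5_5 : PCt := .one ⟨2008000, 251, 803200, -546176, 74838, 0, 0, 300000, 250000, 300000⟩ ⟨0,
 .pol, .pol, .pol, .pol, .sx 150000 (.sy 275000 (.sy 262500 (.sx 75000 (.aff 5000000 7393692 2164007) (.aff
 5525000 7481091 2736984)) (.sx 75000 (.aff 5000000 7571878 2113083) (.sy 268750 (.sy 265625 (.sx 112500
 (.sx 93750 (.aff 8000000 12053245 4065296) (.aff 5000000 6551385 2442232)) (.aff 1000000 0 0)) (.sx 112500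
 (.sx 93750 (.aff 8000000 12456592 3933661) (.aff 5200000 6919538 2549304)) (.aff 1000000 0 0))) (.sy 271875
 (.sx 112500 (.aff 5288000 7281188 2525268) (.aff 1000000 0 0)) (.sx 112500 (.sx 93750 (.aff 8000000
 12601441 3888445) (.aff 5400000 7333334 2640000)) (.aff 1000000 0 0)))))) (.sx 75000 (.aff 5000000 7831561
 2043016) (.sy 287500 (.sy 281250 (.sx 112500 (.sx 93750 (.aff 8000000 12708994 3855538) (.aff 5350000
 7311879 2587913)) (.aff 1000000 0 0)) (.sx 112500 (.sy 284375 (.sx 93750 (.aff 8000000 12815645 3823452)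
 (.sx 103125 (.aff 8000000 11864982 4129800) (.aff 5400000 7205102 2686985))) (.aff 6500000 8768433
 3449876)) (.aff 1500000 735981 339683))) (.sx 112500 (.aff 7600000 10664896 4084429) (.aff 6000000 7762501
 3220612))))) (.aff 1000000 0 0), .pol, .pol, .sx 150000 .pol (.sx 225000 .pol .pol), .pol⟩

def hL190_60_5_5 : pcchk ⟨(nat_lit 1), (nat_lit 1000), Int.ofNat (nat_lit 400), 0, ⟨0, 1⟩, ⟨Int.ofNat
 (nat_lit 60), 200⟩⟩ ⟨950000, 1000000, 987340, 974761, 1000082, 111803, 279510, 55902, 223606, 0⟩ false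
 (nat_lit 250) (Int.negSucc (nat_lit 3072)) (nat_lit 300) (Int.negSucc (nat_lit 4432)) qL190_60_5_5 = true
 := by decide +kernel

def qL190_60_5_6 : PCt := .one ⟨2008000, 251, 803200, -584328, 86283, 0, 0, 300000, 300000, 350000⟩ ⟨0,
 .pol, .pol, .pol, .pol, .sx 150000 (.sx 75000 (.aff 5000000 8326664 1921538) (.sx 112500 (.aff 8000000
 12426756 3943105) (.sx 131250 (.aff 6300000 8340036 3368091) (.aff 6191000 8026442 3357214)))) (.sx 225000
 (.sx 187500 (.sy 325000 (.aff 1000000 0 0) (.sy 337500 (.aff 1500000 700529 356874) (.aff 6500000 8077444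
 3744997))) (.aff 1000000 0 0)) (.aff 1000000 0 0)), .pol, .pol, .pol, .pol⟩

def hL190_60_5_6 : pcchk ⟨(nat_lit 1), (nat_lit 1000), Int.ofNat (nat_lit 400), 0, ⟨0, 1⟩, ⟨Int.ofNat
 (nat_lit 60), 200⟩⟩ ⟨950000, 1000000, 987340, 974761, 1000082, 111803, 279510, 55902, 223606, 0⟩ false
 (nat_lit 300) (Int.negSucc (nat_lit 4432)) (nat_lit 350) (Int.negSucc (nat_lit 5887)) qL190_60_5_6 = true
 := by decide +kernel

def qL190_60_5_7 : PCt := .one ⟨2008000, 251, 803200, -624488, 100339, 0, 0, 300000, 350000, 400000⟩ ⟨0,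
 .pol, .pol, .pol, .pol, .sx 150000 (.aff 8000000 11067972 4427189) (.sy 375000 (.sy 362500 (.sx 225000 (.sx
 187500 (.sx 168750 (.aff 7200000 9008392 4267133) (.aff 1500000 707107 353554)) (.aff 1000000 0 0)) (.aff
 1000000 0 0)) (.sx 225000 (.sx 187500 (.sx 168750 (.aff 7900000 10199837 4667722) (.sx 178125 (.aff 7300000
 9064506 4378617) (.aff 1500000 710123 352052))) (.aff 1000000 0 0)) (.aff 1000000 0 0))) (.sx 225000 (.sx
 187500 (.aff 7300000 9056821 4382333) (.sx 206250 (.aff 7380000 9070037 4487788) (.aff 1000000 0 0))) (.aff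
 1000000 0 0))), .pol, .pol, .pol, .pol⟩

def hL190_60_5_7 : pcchk ⟨(nat_lit 1), (nat_lit 1000), Int.ofNat (nat_lit 400), 0, ⟨0, 1⟩, ⟨Int.ofNat
 (nat_lit 60), 200⟩⟩ ⟨950000, 1000000, 987340, 974761, 1000082, 111803, 279510, 55902, 223606, 0⟩ false
 (nat_lit 350) (Int.negSucc (nat_lit 5887)) (nat_lit 400) (Int.negSucc (nat_lit 7442)) qL190_60_5_7 = true
 := by decide +kernel

def qL190_60_5_8 : PCt := .one ⟨2008000, 251, 803200, -652199, 111423, 0, 0, 300000, 400000, 450000⟩ ⟨0,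
 .pol, .pol, .pol, .pol, .sx 150000 (.aff 8000000 11782756 4158620) (.sy 425000 (.sx 225000 (.sy 412500 (.sx
 187500 (.aff 8000000 10571395 4635150) (.sx 206250 (.aff 7700000 9403175 4773920) (.aff 2000000 1372610
 728540))) (.sx 187500 (.aff 8000000 11026904 4443678) (.aff 7700000 9336899 4807807))) (.aff 1500000 626784
 398862)) (.sy 437500 (.sx 225000 (.aff 7975000 9656451 5038148) (.sx 262500 (.aff 7907000 9427851 5060183)
 (.aff 1000000 0 0))) (.sy 443750 (.sx 225000 (.aff 8000000 9795833 5002127) (.sx 262500 (.aff 7900000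
 9460804 5032342) (.aff 1000000 0 0))) (.sx 225000 (.aff 8000000 9865062 4967025) (.sx 262500 (.aff 8200000
 9748847 5317552) (.aff 1000000 0 0)))))), .pol, .pol, .pol, .pol⟩

def hL190_60_5_8 : pcchk ⟨(nat_lit 1), (nat_lit 1000), Int.ofNat (nat_lit 400), 0, ⟨0, 1⟩, ⟨Int.ofNat
 (nat_lit 60), 200⟩⟩ ⟨950000, 1000000, 987340, 974761, 1000082, 111803, 279510, 55902, 223606, 0⟩ false
 (nat_lit 400) (Int.negSucc (nat_lit 7442)) (nat_lit 450) (Int.negSucc (nat_lit 9066)) qL190_60_5_8 = true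
 := by decide +kernel

def qL190_60_5_9 : PCt := .one ⟨2008000, 251, 803200, -687540, 127327, 0, 0, 300000, 450000, 500000⟩ ⟨0,
 .pol, .pol, .pol, .pol, .sx 150000 (.aff 8000000 14383633 3406650) (.sx 225000 (.aff 8000000 10170765
 4817731) (.sy 475000 (.sx 262500 (.aff 7700000 9229079 4863974) (.aff 2000000 1282359 779813)) (.sx 262500
 (.aff 8000000 9539393 5136596) (.aff 8100000 9507384 5302195)))), .pol, .aff 5000000 7118053 2247806, .pol,
 .pol⟩

def hL190_60_5_9 : pcchk ⟨(nat_lit 1), (nat_lit 1000), Int.ofNat (nat_lit 400), 0, ⟨0, 1⟩, ⟨Int.ofNat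
 (nat_lit 60), 200⟩⟩ ⟨950000, 1000000, 987340, 974761, 1000082, 111803, 279510, 55902, 223606, 0⟩ false
 (nat_lit 450) (Int.negSucc (nat_lit 9066)) (nat_lit 500) (Int.negSucc (nat_lit 10778)) qL190_60_5_9 = true
 := by decide +kernel

def qL190_60_5_10 : PCt := .one ⟨2008000, 251, 803200, -714045, 140580, 0, 0, 300000, 500000, 550000⟩ ⟨0,
 .pol, .pol, .pol, .pol, .sx 150000 (.aff 8000000 15121729 3240371) (.sy 525000 (.sy 512500 (.sx 225000
 (.aff 8000000 10966893 4467993) (.aff 8250000 9726896 5403831)) (.sx 225000 (.aff 8000000 11643310 4208426)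
 (.sy 518750 (.sy 515625 (.sx 262500 (.aff 8000000 9975588 4911992) (.sx 281250 (.aff 8000000 9543537
 5134365) (.aff 8000000 9385782 5220663))) (.sx 262500 (.aff 8000000 10196468 4805586) (.sy 517187 (.sx
 281250 (.aff 8000000 9565266 5122702) (.aff 8000000 9407152 5208803)) (.aff 10000000 11825883 6849383))))
 (.aff 11700000 14112580 8112621)))) (.aff 12000000 14723847 8217961)), .pol, .aff 12000000 14551633
 8315218, .pol, .pol⟩

def hL190_60_5_10 : pcchk ⟨(nat_lit 1), (nat_lit 1000), Int.ofNat (nat_lit 400), 0, ⟨0, 1⟩, ⟨Int.ofNat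
 (nat_lit 60), 200⟩⟩ ⟨950000, 1000000, 987340, 974761, 1000082, 111803, 279510, 55902, 223606, 0⟩ false
 (nat_lit 500) (Int.negSucc (nat_lit 10778)) (nat_lit 550) (Int.negSucc (nat_lit 12556)) qL190_60_5_10 =
 true := by decide +kernel

def qL190_60_5_11 : PCt := .one ⟨2008000, 251, 803200, -7005109, 3600665, 0, 0, 300000, 550000, 600000⟩ ⟨0,
 .pol, .pol, .pol, .pol, .aff 8000000 9691062 5056206, .pol, .sx 150000 (.aff 20000000 42954757 8404192)
 (.inf 1278889 781929), .sy 575000 (.inf 1549194 645497) (.inf 1583246 631614), .pol⟩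

def hL190_60_5_11 : pcchk ⟨(nat_lit 1), (nat_lit 1000), Int.ofNat (nat_lit 400), 0, ⟨0, 1⟩, ⟨Int.ofNat
 (nat_lit 60), 200⟩⟩ ⟨950000, 1000000, 987340, 974761, 1000082, 111803, 279510, 55902, 223606, 0⟩ false
 (nat_lit 550) (Int.negSucc (nat_lit 12556)) (nat_lit 600) (Int.negSucc (nat_lit 29999)) qL190_60_5_11 =
 true := by decide +kernel

def qL190_60_5_12 : PCt := .one ⟨2008000, 251, 803200, 0, -602400, 0, 0, 300000, 600000, 650000⟩ ⟨0, .pol,
 .pol, .pol, .pol, .aff 5000000 6666667 2400000, .pol, .inf 1632994 612373, .inf 1632994 612373, .pol⟩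

def hL190_60_5_12 : pcchk ⟨(nat_lit 1), (nat_lit 1000), Int.ofNat (nat_lit 400), 0, ⟨0, 1⟩, ⟨Int.ofNat
 (nat_lit 60), 200⟩⟩ ⟨950000, 1000000, 987340, 974761, 1000082, 111803, 279510, 55902, 223606, 0⟩ false
 (nat_lit 600) (Int.negSucc (nat_lit 29999)) (nat_lit 650) (Int.negSucc (nat_lit 29999)) qL190_60_5_12 =
 true := by decide +kernel

def qL190_60_5_13 : PCt := .one ⟨2008000, 251, 803200, 0, -602400, 0, 0, 300000, 650000, 700000⟩ ⟨0, .pol,
 .pol, .pol, .pol, .aff 3000000 4242641 942809, .pol, .inf 1697057 589256, .inf 1697057 589256, .pol⟩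

def hL190_60_5_13 : pcchk ⟨(nat_lit 1), (nat_lit 1000), Int.ofNat (nat_lit 400), 0, ⟨0, 1⟩, ⟨Int.ofNat
 (nat_lit 60), 200⟩⟩ ⟨950000, 1000000, 987340, 974761, 1000082, 111803, 279510, 55902, 223606, 0⟩ false
 (nat_lit 650) (Int.negSucc (nat_lit 29999)) (nat_lit 700) (Int.negSucc (nat_lit 29999)) qL190_60_5_13 =
 true := by decide +kernel

def qL190_60_5_14 : PCt := .one ⟨2008000, 251, 803200, 0, -602400, 0, 0, 300000, 700000, 750000⟩ ⟨0, .pol,
 .pol, .pol, .pol, .aff 2000000 3109127 321634, .pol, .aff 35000000 52855148 21871096, .inf 1758788 568574,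
 .pol⟩

def hL190_60_5_14 : pcchk ⟨(nat_lit 1), (nat_lit 1000), Int.ofNat (nat_lit 400), 0, ⟨0, 1⟩, ⟨Int.ofNat
 (nat_lit 60), 200⟩⟩ ⟨950000, 1000000, 987340, 974761, 1000082, 111803, 279510, 55902, 223606, 0⟩ false
 (nat_lit 700) (Int.negSucc (nat_lit 29999)) (nat_lit 750) (Int.negSucc (nat_lit 29999)) qL190_60_5_14 =
 true := by decide +kernel

def qL190_60_5_15 : PCt := .one ⟨2008000, 251, 803200, 0, -602400, 0, 0, 300000, 750000, 800000⟩ ⟨0, .pol,
 .pol, .pol, .pol, .aff 2000000 2273031 439942, .pol, .aff 35000000 63101330 18319741, .inf 2273031 439942,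
 .pol⟩

def hL190_60_5_15 : pcchk ⟨(nat_lit 1), (nat_lit 1000), Int.ofNat (nat_lit 400), 0, ⟨0, 1⟩, ⟨Int.ofNat
 (nat_lit 60), 200⟩⟩ ⟨950000, 1000000, 987340, 974761, 1000082, 111803, 279510, 55902, 223606, 0⟩ false
 (nat_lit 750) (Int.negSucc (nat_lit 29999)) (nat_lit 800) (Int.negSucc (nat_lit 29999)) qL190_60_5_15 =
 true := by decide +kernel

def qL190_60_5_16 : PCt := .one ⟨2008000, 251, 803200, 0, -602400, 0, 0, 300000, 800000, 850000⟩ ⟨0, .pol,
 .pol, .pol, .pol, .aff 1500000 1172604 213201, .pol, .aff 20000000 31507936 11457431, .inf 2345208 426402,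
 .pol⟩

def hL190_60_5_16 : pcchk ⟨(nat_lit 1), (nat_lit 1000), Int.ofNat (nat_lit 400), 0, ⟨0, 1⟩, ⟨Int.ofNat
 (nat_lit 60), 200⟩⟩ ⟨950000, 1000000, 987340, 974761, 1000082, 111803, 279510, 55902, 223606, 0⟩ false
 (nat_lit 800) (Int.negSucc (nat_lit 29999)) (nat_lit 850) (Int.negSucc (nat_lit 29999)) qL190_60_5_16 =
 true := by decide +kernel

def qL190_60_5_17 : PCt := .one ⟨2008000, 251, 803200, 0, -602400, 0, 0, 300000, 850000, 900000⟩ ⟨0, .pol,
 .pol, .pol, .pol, .aff 1500000 1207615 207020, .pol, .aff 20000000 37468506 9634759, .inf 2415230 414040,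
 .pol⟩

def hL190_60_5_17 : pcchk ⟨(nat_lit 1), (nat_lit 1000), Int.ofNat (nat_lit 400), 0, ⟨0, 1⟩, ⟨Int.ofNat
 (nat_lit 60), 200⟩⟩ ⟨950000, 1000000, 987340, 974761, 1000082, 111803, 279510, 55902, 223606, 0⟩ false
 (nat_lit 850) (Int.negSucc (nat_lit 29999)) (nat_lit 900) (Int.negSucc (nat_lit 29999)) qL190_60_5_17 =
 true := by decide +kernel

def qL190_60_5_18 : PCt := .one ⟨2008000, 251, 803200, 0, -602400, 0, 0, 300000, 900000, 950000⟩ ⟨0, .pol,
 .pol, .pol, .pol, .aff 1000000 0 0, .pol, .aff 20000000 38524163 9370743, .inf 2483278 402694, .pol⟩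

def hL190_60_5_18 : pcchk ⟨(nat_lit 1), (nat_lit 1000), Int.ofNat (nat_lit 400), 0, ⟨0, 1⟩, ⟨Int.ofNat
 (nat_lit 60), 200⟩⟩ ⟨950000, 1000000, 987340, 974761, 1000082, 111803, 279510, 55902, 223606, 0⟩ false
 (nat_lit 900) (Int.negSucc (nat_lit 29999)) (nat_lit 950) (Int.negSucc (nat_lit 29999)) qL190_60_5_18 =
 true := by decide +kernel

def qL190_60_5_19 : PCt := .one ⟨2008000, 251, 803200, 0, -602400, 0, 0, 300000, 950000, 1000000⟩ ⟨0, .pol,
 .pol, .pol, .pol, .aff 1000000 0 0, .pol, .aff 20000000 39551654 9127305, .inf 2549510 392233, .pol⟩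

def hL190_60_5_19 : pcchk ⟨(nat_lit 1), (nat_lit 1000), Int.ofNat (nat_lit 400), 0, ⟨0, 1⟩, ⟨Int.ofNat
 (nat_lit 60), 200⟩⟩ ⟨950000, 1000000, 987340, 974761, 1000082, 111803, 279510, 55902, 223606, 0⟩ false
 (nat_lit 950) (Int.negSucc (nat_lit 29999)) (nat_lit 1000) (Int.negSucc (nat_lit 29999)) qL190_60_5_19 =
 true := by decide +kernel

def qL190_60_6_0 : PCt := .one ⟨2008000, 251, 2008000, 278710, 0, 0, 0, 300000, 0, 50000⟩ ⟨50000, .sp 250000
 (.aff 6324556 158114) .pol, .pol, .pol, .pol, .pol, .aff 1000000 0 0, .pol, .pol, .pol⟩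

def hL190_60_6_0 : pcchk ⟨(nat_lit 1), (nat_lit 1000), Int.ofNat (nat_lit 1000), 0, ⟨0, 1⟩, ⟨Int.ofNat
 (nat_lit 60), 200⟩⟩ ⟨950000, 1000000, 987340, 974761, 1000082, 111803, 279510, 55902, 223606, 0⟩ true 0 0
 (nat_lit 50) (Int.ofNat (nat_lit 694)) qL190_60_6_0 = true := by decide +kernel

def qL190_60_6_1 : PCt := .one ⟨2008000, 251, 2008000, -440154, 35943, 0, 0, 300000, 50000, 100000⟩ ⟨0,
 .pol, .pol, .pol, .pol, .sx 150000 (.sx 75000 (.sx 37500 (.sy 75000 (.sx 18750 (.aff 3188000 11057639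
 432945) (.aff 0 1490712 670821)) (.sy 87500 (.sx 18750 (.aff 3119000 10775338 416708) (.aff 1000000 0 0))
 (.sx 18750 (.sy 93750 (.sx 9375 (.aff 4600000 12924396 1002755) (.aff 1000000 0 0)) (.aff 5000000 12858202
 1244342)) (.aff 1000000 0 0)))) .pol) .pol) .pol, .pol, .pol, .sx 150000 (.sx 75000 (.sx 37500 .pol .pol)
 .pol) .pol, .pol⟩

def hL190_60_6_1 : pcchk ⟨(nat_lit 1), (nat_lit 1000), Int.ofNat (nat_lit 1000), 0, ⟨0, 1⟩, ⟨Int.ofNat
 (nat_lit 60), 200⟩⟩ ⟨950000, 1000000, 987340, 974761, 1000082, 111803, 279510, 55902, 223606, 0⟩ false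
 (nat_lit 50) (Int.ofNat (nat_lit 694)) (nat_lit 100) (Int.negSucc (nat_lit 401)) qL190_60_6_1 = true := by
 decide +kernel

def qL190_60_6_2 : PCt := .one ⟨2008000, 251, 2008000, -844565, 76384, 0, 0, 300000, 100000, 150000⟩ ⟨0,
 .pol, .pol, .pol, .pol, .sx 150000 (.sx 75000 (.sy 125000 (.sy 112500 (.sx 37500 (.sx 18750 (.aff 4600000
 12119406 1069360) (.aff 1000000 0 0)) (.aff 1000000 0 0)) (.sy 118750 (.sx 37500 (.aff 5450000 12795032
 1547672) (.aff 1000000 0 0)) (.sy 121875 (.sy 120312 (.sx 37500 (.sx 18750 (.aff 6700000 14391780 2257539)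
 (.aff 1000000 0 0)) (.aff 1000000 0 0)) (.sx 37500 (.sx 18750 (.aff 6700000 14485539 2242927) (.aff 1000000
 0 0)) (.aff 1000000 0 0))) (.sx 37500 (.sx 18750 (.aff 6800000 14881645 2260503) (.aff 1000000 0 0)) (.aff
 1000000 0 0))))) (.sy 137500 (.sy 131250 (.sy 128125 (.sx 37500 (.sx 18750 (.aff 8000000 18186534 2694302)
 (.aff 5650000 11942061 1810618)) (.aff 1000000 0 0)) (.sx 37500 (.sx 18750 (.aff 8000000 18409690 2661642)
 (.aff 6100000 13258459 1961767)) (.aff 1000000 0 0))) (.sx 37500 (.sx 18750 (.aff 8000000 18739442 2614806)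
 (.sx 28125 (.sx 23437 (.aff 7200000 14845674 2589307) (.aff 1000000 0 0)) (.aff 1000000 0 0))) (.aff
 1000000 0 0))) (.sy 143750 (.sy 140625 (.sx 37500 (.sx 18750 (.aff 8000000 22012623 2225996) (.sx 28125
 (.aff 7731000 15346019 2952321) (.aff 1000000 0 0))) (.aff 1000000 0 0)) (.sx 37500 (.aff 7800000 15289503
 3024298) (.aff 1000000 0 0))) (.sx 37500 (.aff 7800000 15539484 2975646) (.aff 1000000 0 0))))) (.aff
 1000000 0 0)) .pol, .pol, .pol, .sx 150000 (.sx 75000 .pol .pol) .pol, .pol⟩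

def hL190_60_6_2 : pcchk ⟨(nat_lit 1), (nat_lit 1000), Int.ofNat (nat_lit 1000), 0, ⟨0, 1⟩, ⟨Int.ofNat
 (nat_lit 60), 200⟩⟩ ⟨950000, 1000000, 987340, 974761, 1000082, 111803, 279510, 55902, 223606, 0⟩ false
 (nat_lit 100) (Int.negSucc (nat_lit 401)) (nat_lit 150) (Int.negSucc (nat_lit 2504)) qL190_60_6_2 = true :=
 by decide +kernel

def qL190_60_6_3 : PCt := .one ⟨2008000, 251, 2008000, -1062232, 109034, 0, 0, 300000, 150000, 200000⟩ ⟨0,
 .pol, .pol, .pol, .pol, .sx 150000 (.sy 175000 (.sy 162500 (.sx 75000 (.sx 37500 (.sx 18750 (.aff 8000000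
 23333334 2100000) (.aff 8000000 15275253 3207803)) (.aff 1000000 0 0)) (.aff 1000000 0 0)) (.sy 168750 (.sy
 165625 (.sx 75000 (.sx 37500 (.sx 18750 (.aff 8000000 23909552 2049391) (.aff 7629000 14822895 2964579))
 (.aff 1000000 0 0)) (.aff 1000000 0 0)) (.sx 75000 (.sx 37500 (.aff 11400000 21959357 4925463) (.sx 56250
 (.aff 9032000 16190580 3984603) (.aff 1000000 0 0))) (.aff 1000000 0 0))) (.sy 171875 (.sy 170312 (.sx
 75000 (.sx 37500 (.aff 12000000 23388460 5173492) (.sx 56250 (.aff 9150000 16337676 4065603) (.aff 1000000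
 0 0))) (.aff 1000000 0 0)) (.sx 75000 (.sx 37500 (.aff 12000000 23495994 5149815) (.sx 56250 (.aff 8900000
 15909333 3922855) (.aff 1000000 0 0))) (.aff 1000000 0 0))) (.sy 173437 (.sy 172656 (.sx 75000 (.sx 37500
 (.aff 12000000 23576331 5132266) (.sx 56250 (.aff 8800000 15761657 3860001) (.aff 1000000 0 0))) (.aff
 1000000 0 0)) (.sx 75000 (.sx 37500 (.aff 12000000 23629714 5120672) (.sx 56250 (.aff 8800000 15797346
 3851280) (.aff 1000000 0 0))) (.aff 1000000 0 0))) (.sy 174218 (.sy 173827 (.sx 75000 (.sx 37500 (.aff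
 12000000 23669656 5112031) (.sx 56250 (.aff 8700000 15621176 3795489) (.aff 1000000 0 0))) (.aff 1000000 0
 0)) (.sx 75000 (.sx 37500 (.aff 12000000 23696258 5106292) (.sx 56250 (.aff 8700000 15638732 3791229) (.aff
 1000000 0 0))) (.aff 1000000 0 0))) (.sy 174609 (.sy 174413 (.sx 75000 (.sx 37500 (.aff 12000000 23716198
 5101999) (.sx 56250 (.aff 8700000 15651892 3788041) (.aff 1000000 0 0))) (.aff 1000000 0 0)) (.sx 75000
 (.sx 37500 (.aff 12000000 23729493 5099140) (.sx 56250 (.aff 8700000 15660667 3785918) (.aff 1000000 0 0)))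
 (.aff 1000000 0 0))) (.sy 174804 (.sx 75000 (.sx 37500 (.aff 12000000 23742781 5096286) (.sx 56250 (.aff
 8700000 15669436 3783800) (.aff 1000000 0 0))) (.aff 1000000 0 0)) (.sx 75000 (.sx 37500 (.aff 12000000
 23756062 5093437) (.sx 56250 (.aff 8700000 15678201 3781684) (.aff 1000000 0 0))) (.aff 1000000 0
 0))))))))) (.sx 75000 (.sx 37500 (.aff 12000000 24596748 4919350) (.aff 8988000 15976000 3994000)) (.aff
 1000000 0 0))) .pol, .pol, .pol, .sx 150000 (.sx 75000 (.sx 37500 (.sx 18750 (.inf 4320494 231456) .pol)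
 .pol) .pol) .pol, .pol⟩

def hL190_60_6_3 : pcchk ⟨(nat_lit 1), (nat_lit 1000), Int.ofNat (nat_lit 1000), 0, ⟨0, 1⟩, ⟨Int.ofNat
 (nat_lit 60), 200⟩⟩ ⟨950000, 1000000, 987340, 974761, 1000082, 111803, 279510, 55902, 223606, 0⟩ false
 (nat_lit 150) (Int.negSucc (nat_lit 2504)) (nat_lit 200) (Int.negSucc (nat_lit 5149)) qL190_60_6_3 = true
 := by decide +kernel

def qL190_60_6_4 : PCt := .one ⟨2008000, 251, 2008000, -1236527, 143893, 0, 0, 300000, 200000, 250000⟩ ⟨0,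
 .pol, .pol, .pol, .pol, .sx 150000 (.sx 75000 (.sx 37500 (.aff 12000000 31112699 3889088) (.sy 225000 (.aff
 11000000 17994709 5557190) (.aff 11300000 18328985 5788101))) (.sx 112500 (.sx 93750 (.sx 84375 (.sy 225000
 (.aff 1000000 0 0) (.aff 11622000 18301097 6165034)) (.sy 225000 (.aff 1000000 0 0) (.aff 11900000 18038558
 6586447))) (.aff 1000000 0 0)) (.aff 1000000 0 0))) (.aff 1000000 0 0), .pol, .pol, .sx 150000 (.sx 75000
 (.sx 37500 (.inf 3464102 288676) .pol) .pol) .pol, .pol⟩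

def hL190_60_6_4 : pcchk ⟨(nat_lit 1), (nat_lit 1000), Int.ofNat (nat_lit 1000), 0, ⟨0, 1⟩, ⟨Int.ofNat
 (nat_lit 60), 200⟩⟩ ⟨950000, 1000000, 987340, 974761, 1000082, 111803, 279510, 55902, 223606, 0⟩ false
 (nat_lit 200) (Int.negSucc (nat_lit 5149)) (nat_lit 250) (Int.negSucc (nat_lit 8228)) qL190_60_6_4 = true
 := by decide +kernel

def qL190_60_6_5 : PCt := .one ⟨2008000, 251, 2008000, -1363031, 175519, 0, 0, 300000, 250000, 300000⟩ ⟨0,
 .pol, .pol, .pol, .pol, .sx 150000 (.sx 75000 (.aff 12000000 21063397 5744563) (.sx 112500 (.sx 93750 (.sy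
 275000 (.aff 12100000 18573853 6633519) (.aff 12000000 19263091 6281443)) (.sx 103125 (.sy 275000 (.aff
 12300000 18676502 6836934) (.aff 12400000 19034515 6827598)) (.sx 107812 (.sy 275000 (.aff 1500000 788812
 316933) (.aff 12606000 19029941 7078280)) (.sy 275000 (.aff 1000000 0 0) (.aff 12700000 19003055
 7203579))))) (.sx 131250 (.sy 275000 (.aff 1000000 0 0) (.aff 13013000 19292439 7480245)) (.aff 1000000 0
 0)))) (.aff 1000000 0 0), .pol, .pol, .sx 150000 (.sx 75000 (.inf 2166411 461593) .pol) (.sx 225000 .pol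
 .pol), .pol⟩

def hL190_60_6_5 : pcchk ⟨(nat_lit 1), (nat_lit 1000), Int.ofNat (nat_lit 1000), 0, ⟨0, 1⟩, ⟨Int.ofNat
 (nat_lit 60), 200⟩⟩ ⟨950000, 1000000, 987340, 974761, 1000082, 111803, 279510, 55902, 223606, 0⟩ false
 (nat_lit 250) (Int.negSucc (nat_lit 8228)) (nat_lit 300) (Int.negSucc (nat_lit 11622)) qL190_60_6_5 = true
 := by decide +kernel

end CB
end Pool.Agent.Lib.MP_6947cd_al
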